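import Pool.Agent.Lib.K5M.ND

/-!
# K5M.DPi: sums over families, sums over maps

PROOFS.
`tsum_fam`: induction on `K`.  `K = ∅`: the only `F` is the constant `d`; both sides are 1.  `insert r0 K`, `r0 ∉ K`: the families over
`insert r0 K` correspond to pairs (`a` with `S r0 a`, family over `K`) by `F ↦ (F r0, Function.update F r0 d)`, inverse
`(a, F) ↦ Function.update F r0 a`; `∏ r ∈ insert r0 K, w r (F r) = w r0 a * ∏ r ∈ K, w r (F r)`; `ENNReal.tsum_prod`, `ENNReal.tsum_mul_left`,
`ENNReal.tsum_mul_right`.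
`tsum_maps`: the functions `g` correspond to the maps `↥L' → ↥K`, hence (via a bijection of `Fin L'.card` with `↥L'`) to `Fin L'.card → ↥K`;
the fibres have the same cardinalities; a finite type: `tsum_fintype` (`tsum_eq_sum` along an `Equiv`); `∏ r ∈ K` is the product over
`↥K` (`Finset.prod_coe_sort`).
`tsum_disj`: if every `s` with `R s` satisfies `Q i s` for exactly one `i` with `I i`, and `Q i s` (`I i`) implies `R s`, then the sum over `R` is the
double sum: the sigma type of the pairs is equivalent to `{s // R s}`; `ENNReal.tsum_sigma'`.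
`tsum_or`: the case of two classes.
-/

set_option autoImplicit false

namespace K5M

open Finset
open scoped ENNReal

namespace DPiAux

/-- The families over `K` with the default value `d` outside. -/
abbrev Fm {α β : Type*} (K : Finset β) (S : β → α → Prop) (d : α) : Type _ :=
  {F : β → α // (∀ r ∈ K, S r (F r)) ∧ ∀ r, r ∉ K → F r = d}

/-- Families over `insert r0 K`. -/
def ins {α β : Type*} [DecidableEq β] {K : Finset β} {S : β → α → Prop} {d : α} {r0 : β}
    (h0 : r0 ∉ K) : Fm (insert r0 K) S d ≃ {a // S r0 a} × Fm K S d where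
  toFun F := (⟨F.1 r0, F.2.1 r0 (Finset.mem_insert_self r0 K)⟩,
    ⟨Function.update F.1 r0 d, by
      refine ⟨fun r hr => ?_, fun r hr => ?_⟩
      · have hne : r ≠ r0 := fun h => h0 (h ▸ hr)
        rw [Function.update_of_ne hne]
        exact F.2.1 r (Finset.mem_insert_of_mem hr)
      · by_cases h : r = r0
        · subst h
          rw [Function.update_self]
        · rw [Function.update_of_ne h]
          refine F.2.2 r fun h' => ?_
          rcases Finset.mem_insert.1 h' with h' | h'
          · exact h h'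
          · exact hr h'⟩)
  invFun p := ⟨Function.update p.2.1 r0 p.1.1, by
      refine ⟨fun r hr => ?_, fun r hr => ?_⟩
      · by_cases h : r = r0
        · subst h
          rw [Function.update_self]
          exact p.1.2
        · rw [Function.update_of_ne h]
          exact p.2.2.1 r ((Finset.mem_insert.1 hr).resolve_left h)
      · rw [Finset.mem_insert, not_or] at hr
        rw [Function.update_of_ne hr.1]
        exact p.2.2.2 r hr.2⟩
  left_inv F := by
    refine Subtype.ext ?_
    simp only [Function.update_idem, Function.update_eq_self]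
  right_inv p := by
    refine Prod.ext ?_ ?_
    · refine Subtype.ext ?_
      simp only [Function.update_self]
    · refine Subtype.ext ?_
      simp only [Function.update_idem]
      funext r
      by_cases h : r = r0
      · subst h
        rw [Function.update_self]
        exact (p.2.2.2 _ h0).symm
      · rw [Function.update_of_ne h]

end DPiAux

open DPiAux

theorem tsum_fam {α β : Type*} [DecidableEq β] (K : Finset β) (S : β → α → Prop)
    (w : β → α → ℝ≥0∞) (d : α) :
    ∑' F : {F : β → α // (∀ r ∈ K, S r (F r)) ∧ ∀ r, r ∉ K → F r = d}, ∏ r ∈ K, w r (F.1 r) =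
      ∏ r ∈ K, ∑' a : {a // S r a}, w r a.1 := by
  induction K using Finset.induction_on with
  | empty =>
    let x0 : {F : β → α // (∀ r ∈ (∅ : Finset β), S r (F r)) ∧ ∀ r, r ∉ (∅ : Finset β) → F r = d} :=
      ⟨fun _ => d, fun r hr => absurd hr (Finset.notMem_empty r), fun _ _ => rfl⟩
    rw [tsum_eq_single x0]
    · rw [Finset.prod_empty, Finset.prod_empty]
    · intro F hF
      exact absurd (Subtype.ext (funext fun r => F.2.2 r (Finset.notMem_empty r))) hF
  | insert r0 K h0 ih =>
    rw [Finset.prod_insert h0, ← ih, ← (ins (S := S) (d := d) h0).symm.tsum_eq]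
    have h1 : ∀ p : {a // S r0 a} × Fm K S d,
        ∏ r ∈ insert r0 K, w r (((ins (S := S) (d := d) h0).symm p).1 r) =
          w r0 p.1.1 * ∏ r ∈ K, w r (p.2.1 r) := by
      intro p
      have e : ((ins (S := S) (d := d) h0).symm p).1 = Function.update p.2.1 r0 p.1.1 := rfl
      rw [Finset.prod_insert h0, e, Function.update_self]
      congr 1
      refine Finset.prod_congr rfl fun r hr => ?_
      have hne : r ≠ r0 := fun h => h0 (h ▸ hr)
      rw [Function.update_of_ne hne]
    rw [tsum_congr h1, ENNReal.tsum_prod (f := fun (x : {a // S r0 a}) (y : Fm K S d) =>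
      w r0 x.1 * ∏ r ∈ K, w r (y.1 r))]
    simp only [ENNReal.tsum_mul_left, ENNReal.tsum_mul_right]

theorem tsum_maps {β : Type*} [DecidableEq β] (K : Finset β) (L' : Finset ℕ) (d : β)
    (a : β → ℕ → ℝ≥0∞) :
    ∑' g : {g : ℕ → β // (∀ v ∈ L', g v ∈ K) ∧ ∀ v, v ∉ L' → g v = d},
      ∏ r ∈ K, a r (L'.filter (fun v => g.1 v = r)).card = famI K a L'.card := by
  let e0 : Fin L'.card ≃ L' := L'.equivFin.symm
  let E : (Fin L'.card → {r // r ∈ K}) ≃
      {g : ℕ → β // (∀ v ∈ L', g v ∈ K) ∧ ∀ v, v ∉ L' → g v = d} :=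
    { toFun := fun f => ⟨fun v => if h : v ∈ L' then (f (e0.symm ⟨v, h⟩)).1 else d, by
        refine ⟨fun v hv => ?_, fun v hv => ?_⟩
        · simp only [dif_pos hv]
          exact (f _).2
        · simp only [dif_neg hv]⟩
      invFun := fun g i => ⟨g.1 (e0 i).1, g.2.1 _ (e0 i).2⟩
      left_inv := by
        intro f
        funext i
        refine Subtype.ext ?_
        simp only [(e0 i).2, dif_pos, Subtype.coe_eta, Equiv.symm_apply_apply]
      right_inv := by
        intro g
        refine Subtype.ext (funext fun v => ?_)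
        by_cases hv : v ∈ L'
        · simp only [dif_pos hv, Equiv.apply_symm_apply]
        · simp only [dif_neg hv]
          exact (g.2.2 v hv).symm }
  rw [← E.tsum_eq, tsum_fintype]
  unfold famI
  refine Finset.sum_congr rfl fun f _ => ?_
  rw [← Finset.prod_coe_sort K]
  refine Finset.prod_congr rfl fun r _ => ?_
  have hE : ∀ i, (E f).1 (e0 i).1 = (f i).1 := by
    intro i
    have h : (E f).1 (e0 i).1 = (f (e0.symm ⟨(e0 i).1, (e0 i).2⟩)).1 := dif_pos (e0 i).2
    rw [h]
    simp
  congr 1
  symm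
  refine Finset.card_bij (fun i _ => (e0 i).1) ?_ ?_ ?_
  · intro i hi
    rw [Finset.mem_filter] at hi ⊢
    refine ⟨(e0 i).2, ?_⟩
    rw [hE, hi.2]
  · intro i _ j _ hij
    exact e0.injective (Subtype.ext hij)
  · intro v hv
    rw [Finset.mem_filter] at hv
    refine ⟨e0.symm ⟨v, hv.1⟩, ?_, by simp⟩
    rw [Finset.mem_filter]
    refine ⟨Finset.mem_univ _, Subtype.ext ?_⟩
    rw [← hE, Equiv.apply_symm_apply]
    exact hv.2

theorem tsum_disj {α ι : Type*} (R : α → Prop) (I : ι → Prop) (Q : ι → α → Prop)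
    (w : α → ℝ≥0∞) (h1 : ∀ s, R s → ∃ i, I i ∧ Q i s) (h2 : ∀ i s, I i → Q i s → R s)
    (h3 : ∀ i j s, I i → I j → Q i s → Q j s → i = j) :
    ∑' s : {s // R s}, w s.1 = ∑' i : {i // I i}, ∑' s : {s // Q i.1 s}, w s.1 := by
  rw [← ENNReal.tsum_sigma (fun (i : {i // I i}) (s : {s // Q i.1 s}) => w s.1)]
  let φ : (Σ i : {i // I i}, {s // Q i.1 s}) → {s // R s} :=
    fun p => ⟨p.2.1, h2 p.1.1 p.2.1 p.1.2 p.2.2⟩
  have hφ : Function.Bijective φ := by
    constructor
    · rintro ⟨⟨i, hi⟩, ⟨s, hs⟩⟩ ⟨⟨j, hj⟩, ⟨t, ht⟩⟩ h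
      have h4 : s = t := congrArg Subtype.val h
      subst h4
      have h5 : i = j := h3 i j s hi hj hs ht
      subst h5
      rfl
    · rintro ⟨s, hs⟩
      obtain ⟨i, hi, hq⟩ := h1 s hs
      exact ⟨⟨⟨i, hi⟩, ⟨s, hq⟩⟩, rfl⟩
  exact ((Equiv.ofBijective φ hφ).tsum_eq (fun s => w s.1)).symm

theorem tsum_or {α : Type*} (R Q Q' : α → Prop) (w : α → ℝ≥0∞)
    (h1 : ∀ s, R s ↔ Q s ∨ Q' s) (h2 : ∀ s, Q s → ¬ Q' s) :
    ∑' s : {s // R s}, w s.1 = ∑' s : {s // Q s}, w s.1 + ∑' s : {s // Q' s}, w s.1 := by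
  classical
  have e1 : ∑' s : {s // R s}, w s.1 = ∑' s, {s | R s}.indicator w s := tsum_subtype {s | R s} w
  have e2 : ∑' s : {s // Q s}, w s.1 = ∑' s, {s | Q s}.indicator w s := tsum_subtype {s | Q s} w
  have e3 : ∑' s : {s // Q' s}, w s.1 = ∑' s, {s | Q' s}.indicator w s :=
    tsum_subtype {s | Q' s} w
  rw [e1, e2, e3, ← ENNReal.tsum_add]
  refine tsum_congr fun s => ?_
  by_cases hq : Q s
  · rw [Set.indicator_of_mem (show s ∈ {s | R s} from (h1 s).2 (Or.inl hq)),
      Set.indicator_of_mem (show s ∈ {s | Q s} from hq),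
      Set.indicator_of_notMem (show s ∉ {s | Q' s} from h2 s hq), add_zero]
  · by_cases hq' : Q' s
    · rw [Set.indicator_of_mem (show s ∈ {s | R s} from (h1 s).2 (Or.inr hq')),
        Set.indicator_of_notMem (show s ∉ {s | Q s} from hq),
        Set.indicator_of_mem (show s ∈ {s | Q' s} from hq'), zero_add]
    · rw [Set.indicator_of_notMem (show s ∉ {s | R s} from fun h => ((h1 s).1 h).elim hq hq'),
        Set.indicator_of_notMem (show s ∉ {s | Q s} from hq),
        Set.indicator_of_notMem (show s ∉ {s | Q' s} from hq'), zero_add]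

end K5M
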