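import Pool.Agent.Lib.K5M.ND
import Pool.Agent.Lib.K5.CLMul

/-!
# K5M.DFam: families of different classes, generating functions

PROOFS.
`famI_empty`: maps from `Fin n` to the empty type: one for `n = 0`, none otherwise.
`famI_insert`: a map `Fin n → insert r K` is the fibre `A` of `r` and a map of the rest to `K`; group by `A ⊆ Fin n`, transport to
`range n` (as `K5.fam_succ` in `K5.CLFam`; the sum over maps from a type with `m` elements depends on `m` only).
`famI_pair`: `famI_insert` twice and `famI_empty` (`cv (a r') (famI ∅ a)`: only `A = range n` contributes).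
`famI_congr`: definition.
`famI_image`: `e` induces a bijection of `K` with `K.image e`.
`egf_famI`: induction on `K`: `famI_insert`, `K5.egf_mul`; `K = ∅`: only the term `n = 0`.
`famI_tr`: all fibres of a map from `Fin n` have at most `n ≤ N` elements.
`egf_root_cv`: `K5.egf_root` with `F = cv F G` and `x = 1`, then `K5.egf_mul`.
`tr_root_cv`: for `n ≤ N + 1`, `n ≥ 1`, all subsets of `range (n - 1)` have at most `N` elements, so
`tr (N + 1) (fun n => n * cv F G (n - 1)) n ≤ n * cv (tr N F) (tr N G) (n - 1)`; `K5.egf_mono`, then `egf_root_cv`.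
`egf_add`, `egf_smul`: `ENNReal.tsum_add`, `ENNReal.tsum_mul_left`.  `tr_le`: `tr N F n ≤ F n`.  `egf_sup`: `egf F 1` is the supremum of the
`egf (tr N F) 1` (`ENNReal.tsum_eq_iSup_nat` or `ENNReal.tsum_le_of_sum_range_le`): the sum of the terms `n < N` is at most `egf (tr N F) 1`.
-/

set_option autoImplicit false

namespace K5M

open Finset
open scoped ENNReal

variable {ι κ : Type*} [DecidableEq ι] [DecidableEq κ]

/-- The sum over all maps from a finite type. -/
theorem DFamAux.famI_type (K : Finset ι) (a : ι → ℕ → ℝ≥0∞) {α : Type*} [Fintype α]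
    [DecidableEq α] :
    ∑ f : α → {r // r ∈ K}, ∏ r ∈ K, a r (univ.filter (fun j => (f j).1 = r)).card =
      famI K a (Fintype.card α) := by
  unfold famI
  have e : α ≃ Fin (Fintype.card α) := Fintype.equivFin α
  refine Fintype.sum_equiv (Equiv.arrowCongr e (Equiv.refl _)) _ _ ?_
  intro f
  rw [← Finset.prod_coe_sort K
    (fun r => a r (univ.filter (fun j => (f j).1 = r)).card)]
  refine Finset.prod_congr rfl ?_
  intro r _
  congr 1
  refine Finset.card_equiv e ?_
  intro j
  simp only [Finset.mem_filter, Finset.mem_univ, true_and, Equiv.arrowCongr_apply,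
    Function.comp_apply, Equiv.symm_apply_apply, Equiv.refl_apply, Subtype.ext_iff]

theorem famI_empty (a : ι → ℕ → ℝ≥0∞) (n : ℕ) :
    famI (∅ : Finset ι) a n = if n = 0 then 1 else 0 := by
  by_cases hn : n = 0
  · subst hn
    unfold famI
    simp
  · rw [if_neg hn]
    unfold famI
    have : IsEmpty (Fin n → {r // r ∈ (∅ : Finset ι)}) := by
      refine ⟨fun f => ?_⟩
      exact absurd (f ⟨0, Nat.pos_of_ne_zero hn⟩).2 (Finset.notMem_empty _)
    exact Finset.sum_of_isEmpty _

/-- The functions with a given fibre of `r`. -/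
theorem DFamAux.fibre {K : Finset ι} {r : ι} (hr : r ∉ K) (a : ι → ℕ → ℝ≥0∞) (n : ℕ)
    (A : Finset (Fin n)) :
    ∑ f ∈ (univ : Finset (Fin n → {x // x ∈ insert r K})).filter
        (fun f => univ.filter (fun j => (f j).1 = r) = A),
      ∏ i ∈ insert r K, a i (univ.filter (fun j => (f j).1 = i)).card =
    a r A.card * famI K a (n - A.card) := by
  have hcard : Fintype.card {x : Fin n // x ∉ A} = n - A.card := by
    rw [Fintype.card_subtype_compl, Fintype.card_fin]
    simp
  have h0 := DFamAux.famI_type K a (α := {x : Fin n // x ∉ A})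
  rw [hcard] at h0
  rw [← h0, Finset.mul_sum]
  symm
  refine Finset.sum_bij (fun (g : {x : Fin n // x ∉ A} → {x // x ∈ K}) _ =>
    fun x : Fin n => if h : x ∈ A then (⟨r, Finset.mem_insert_self r K⟩ : {x // x ∈ insert r K})
      else ⟨(g ⟨x, h⟩).1, Finset.mem_insert_of_mem (g ⟨x, h⟩).2⟩) ?_ ?_ ?_ ?_
  · intro g _
    rw [Finset.mem_filter]
    refine ⟨Finset.mem_univ _, ?_⟩
    ext x
    simp only [Finset.mem_filter, Finset.mem_univ, true_and]
    constructor
    · intro hx
      by_contra hA
      rw [dif_neg hA] at hx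
      exact hr (hx ▸ (g ⟨x, hA⟩).2)
    · intro hA
      rw [dif_pos hA]
  · intro g _ g' _ hgg
    funext x
    have h1 := congrFun hgg x.1
    simp only [dif_neg x.2] at h1
    have h2 := congrArg (fun z : {x // x ∈ insert r K} => z.1) h1
    exact Subtype.ext h2
  · intro f hf
    rw [Finset.mem_filter] at hf
    have hA : ∀ x, x ∈ A ↔ (f x).1 = r := by
      intro x
      rw [← hf.2, Finset.mem_filter]
      simp
    refine ⟨fun x => ⟨(f x.1).1, (Finset.mem_insert.1 (f x.1).2).resolve_left
      (fun h => x.2 ((hA x.1).2 h))⟩, Finset.mem_univ _, ?_⟩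
    funext x
    by_cases hx : x ∈ A
    · simp only [dif_pos hx]
      exact Subtype.ext ((hA x).1 hx).symm
    · simp only [dif_neg hx]
  · intro g _
    rw [Finset.prod_insert hr]
    congr 1
    · congr 1
      congr 1
      ext x
      simp only [Finset.mem_filter, Finset.mem_univ, true_and]
      constructor
      · intro hA
        rw [dif_pos hA]
      · intro hx
        by_contra hA
        rw [dif_neg hA] at hx
        exact hr (hx ▸ (g ⟨x, hA⟩).2)
    · refine Finset.prod_congr rfl ?_
      intro i hi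
      congr 1
      refine Finset.card_bij (fun (j : {x : Fin n // x ∉ A}) _ => j.1) ?_ ?_ ?_
      · intro j hj
        rw [Finset.mem_filter] at hj ⊢
        refine ⟨Finset.mem_univ _, ?_⟩
        simp only [dif_neg j.2, hj.2]
      · intro a _ b _ hab
        exact Subtype.ext hab
      · intro j hj
        rw [Finset.mem_filter] at hj
        by_cases hA : j ∈ A
        · have h2 := hj.2
          simp only [dif_pos hA] at h2
          exact absurd (h2 ▸ hi) hr
        · have h2 := hj.2
          simp only [dif_neg hA] at h2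
          exact ⟨⟨j, hA⟩, Finset.mem_filter.2 ⟨Finset.mem_univ _, h2⟩, rfl⟩

theorem famI_insert {K : Finset ι} {r : ι} (hr : r ∉ K) (a : ι → ℕ → ℝ≥0∞) (n : ℕ) :
    famI (insert r K) a n = cv (a r) (famI K a) n := by
  have h1 : famI (insert r K) a n =
      ∑ A : Finset (Fin n), a r A.card * famI K a (n - A.card) := by
    have h := DFamAux.famI_type (insert r K) a (α := Fin n)
    rw [Fintype.card_fin] at h
    rw [← h, ← Finset.sum_fiberwise_of_maps_to (s := univ) (t := univ)
      (g := fun f : Fin n → {x // x ∈ insert r K} => univ.filter (fun j => (f j).1 = r))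
      (fun _ _ => Finset.mem_univ _)]
    exact Finset.sum_congr rfl fun A _ => DFamAux.fibre hr a n A
  have h2 : cv (a r) (famI K a) n =
      ∑ A ∈ (range n).powerset, a r A.card * famI K a (n - A.card) := by
    unfold cv
    refine Finset.sum_congr rfl fun A hA => ?_
    rw [Finset.card_sdiff_of_subset (Finset.mem_powerset.1 hA), Finset.card_range]
  rw [h1, h2, ← Finset.powerset_univ,
    Finset.sum_powerset_apply_card (fun k => a r k * famI K a (n - k)),
    Finset.sum_powerset_apply_card (fun k => a r k * famI K a (n - k)), Finset.card_univ,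
    Fintype.card_fin, Finset.card_range]

theorem DFamAux.cv_one (F : ℕ → ℝ≥0∞) (n : ℕ) :
    cv F (fun m => if m = 0 then 1 else 0) n = F n := by
  unfold cv
  rw [Finset.sum_eq_single (range n)]
  · simp
  · intro A hA hne
    have h : range n \ A ≠ ∅ := by
      intro h
      exact hne (Finset.Subset.antisymm (Finset.mem_powerset.1 hA) (Finset.sdiff_eq_empty_iff_subset.1 h))
    have h' : (range n \ A).card ≠ 0 := fun h0 => h (Finset.card_eq_zero.1 h0)
    show F A.card * (if (range n \ A).card = 0 then 1 else 0) = 0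
    rw [if_neg h', mul_zero]
  · intro h
    exact absurd (Finset.mem_powerset_self _) h

theorem DFamAux.famI_single (r : ι) (a : ι → ℕ → ℝ≥0∞) (n : ℕ) :
    famI {r} a n = a r n := by
  have h : ({r} : Finset ι) = insert r ∅ := rfl
  rw [h, famI_insert (Finset.notMem_empty _)]
  have h2 : famI (∅ : Finset ι) a = fun m => if m = 0 then 1 else 0 := by
    funext m
    exact famI_empty a m
  rw [h2, DFamAux.cv_one]

theorem famI_pair {r r' : ι} (hr : r ≠ r') (a : ι → ℕ → ℝ≥0∞) (n : ℕ) :
    famI {r, r'} a n = cv (a r) (a r') n := by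
  have h : r ∉ ({r'} : Finset ι) := by
    rw [Finset.mem_singleton]
    exact hr
  have h2 : famI ({r'} : Finset ι) a = a r' := by
    funext m
    exact DFamAux.famI_single r' a m
  rw [famI_insert h, h2]

theorem famI_congr {K : Finset ι} {a a' : ι → ℕ → ℝ≥0∞} (h : ∀ r ∈ K, a r = a' r) (n : ℕ) :
    famI K a n = famI K a' n := by
  unfold famI
  refine Finset.sum_congr rfl fun f _ => ?_
  refine Finset.prod_congr rfl fun r _ => ?_
  rw [h r.1 r.2]

theorem famI_image {K : Finset ι} {e : ι → κ} (he : Set.InjOn e K) (a : κ → ℕ → ℝ≥0∞) (n : ℕ) :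
    famI (K.image e) a n = famI K (fun r => a (e r)) n := by
  induction K using Finset.induction_on generalizing n with
  | empty =>
    rw [Finset.image_empty, famI_empty, famI_empty]
  | insert r K hr ih =>
    have he' : Set.InjOn e K := he.mono (by
      intro x hx
      exact Finset.mem_coe.2 (Finset.mem_insert_of_mem (Finset.mem_coe.1 hx)))
    have hr' : e r ∉ K.image e := by
      intro h
      obtain ⟨x, hx, hxe⟩ := Finset.mem_image.1 h
      have : x = r := he (Finset.mem_coe.2 (Finset.mem_insert_of_mem hx))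
        (Finset.mem_coe.2 (Finset.mem_insert_self r K)) hxe
      exact hr (this ▸ hx)
    have h3 : famI (K.image e) a = famI K (fun r => a (e r)) := by
      funext m
      exact ih he' m
    rw [Finset.image_insert, famI_insert hr', famI_insert hr, h3]

theorem egf_famI (K : Finset ι) (a : ι → ℕ → ℝ≥0∞) (x : ℝ≥0∞) :
    K5.egf (famI K a) x = ∏ r ∈ K, K5.egf (a r) x := by
  induction K using Finset.induction_on with
  | empty =>
    rw [Finset.prod_empty]
    unfold K5.egf
    rw [tsum_eq_single 0]
    · rw [famI_empty]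
      simp
    · intro n hn
      rw [famI_empty, if_neg hn, mul_zero]
  | insert r K hr ih =>
    have h : famI (insert r K) a = fun n => ∑ A ∈ (range n).powerset,
        a r A.card * famI K a (range n \ A).card := by
      funext n
      rw [famI_insert hr]
      rfl
    rw [h, K5.egf_mul, ih, Finset.prod_insert hr]

theorem famI_tr {K : Finset ι} {a : ι → ℕ → ℝ≥0∞} {n N : ℕ} (h : n ≤ N) :
    famI K a n = famI K (fun r => tr N (a r)) n := by
  unfold famI
  refine Finset.sum_congr rfl fun f _ => ?_
  refine Finset.prod_congr rfl fun r _ => ?_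
  have hc : (univ.filter (fun j => f j = r)).card ≤ N := by
    refine le_trans (Finset.card_le_univ _) ?_
    rw [Fintype.card_fin]
    exact h
  show a r.1 _ = tr N (a r.1) _
  unfold tr
  rw [if_pos hc]

theorem egf_root_cv (F G : ℕ → ℝ≥0∞) :
    K5.egf (fun n => (n : ℝ≥0∞) * cv F G (n - 1)) 1 = K5.egf F 1 * K5.egf G 1 := by
  rw [K5.egf_root (cv F G) 1, one_mul]
  exact K5.egf_mul F G 1

theorem tr_root_cv (F G : ℕ → ℝ≥0∞) (N : ℕ) :
    K5.egf (tr (N + 1) (fun n => (n : ℝ≥0∞) * cv F G (n - 1))) 1 ≤
      K5.egf (tr N F) 1 * K5.egf (tr N G) 1 := by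
  rw [← egf_root_cv]
  refine K5.egf_mono (fun n => ?_) 1
  unfold tr
  split_ifs with hn
  · refine mul_le_mul_right ?_ _
    unfold cv
    refine Finset.sum_le_sum fun A hA => ?_
    have h1 : A.card ≤ N := by
      have := Finset.card_le_card (Finset.mem_powerset.1 hA)
      rw [Finset.card_range] at this
      omega
    have h2 : (range (n - 1) \ A).card ≤ N := by
      have := Finset.card_le_card (Finset.sdiff_subset (s := range (n - 1)) (t := A))
      rw [Finset.card_range] at this
      omega
    show F A.card * G (range (n - 1) \ A).card ≤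
      (if A.card ≤ N then F A.card else 0) *
        (if (range (n - 1) \ A).card ≤ N then G (range (n - 1) \ A).card else 0)
    rw [if_pos h1, if_pos h2]
  · exact zero_le

theorem egf_add (F G : ℕ → ℝ≥0∞) (x : ℝ≥0∞) :
    K5.egf (fun n => F n + G n) x = K5.egf F x + K5.egf G x := by
  unfold K5.egf
  rw [← ENNReal.tsum_add]
  refine tsum_congr fun n => ?_
  rw [mul_add]

theorem egf_smul (a : ℝ≥0∞) (F : ℕ → ℝ≥0∞) (x : ℝ≥0∞) :
    K5.egf (fun n => a * F n) x = a * K5.egf F x := by
  unfold K5.egf
  rw [← ENNReal.tsum_mul_left]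
  refine tsum_congr fun n => ?_
  rw [mul_left_comm]

theorem egf_tr_mono (F : ℕ → ℝ≥0∞) {N N' : ℕ} (h : N ≤ N') (x : ℝ≥0∞) :
    K5.egf (tr N F) x ≤ K5.egf (tr N' F) x := by
  refine K5.egf_mono (fun n => ?_) x
  unfold tr
  by_cases h1 : n ≤ N
  · rw [if_pos h1, if_pos (h1.trans h)]
  · rw [if_neg h1]
    exact zero_le

theorem egf_tr_le (F : ℕ → ℝ≥0∞) (N : ℕ) (x : ℝ≥0∞) : K5.egf (tr N F) x ≤ K5.egf F x := by
  refine K5.egf_mono (fun n => ?_) x
  unfold tr
  split_ifs
  · exact le_rfl
  · exact zero_le

theorem egf_le_of_tr {F : ℕ → ℝ≥0∞} {x z : ℝ≥0∞} (h : ∀ N, K5.egf (tr N F) x ≤ z) :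
    K5.egf F x ≤ z := by
  unfold K5.egf
  refine ENNReal.tsum_le_of_sum_range_le fun n => ?_
  refine le_trans ?_ (h n)
  unfold K5.egf
  refine le_trans (le_of_eq ?_) (ENNReal.sum_le_tsum (range n))
  refine Finset.sum_congr rfl fun i hi => ?_
  have : i ≤ n := (Finset.mem_range.1 hi).le
  unfold tr
  rw [if_pos this]

end K5M
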