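import Pool.Agent.Lib.K5M.DRlA
import Pool.Agent.Lib.K5M.DFam

/-!
# K5M.DRlC: the sums over marked cores depend only on the number of labels

PROOF of `GA_card`: `exists_relabel` (`K5M.A5`) with `C = [0, 1, 2, 3]` gives `s` fixing `0, 1, 2, 3` with `A.image s = Ico 4 (4 + A.card)`;
`rq s qs = qs`; the bijection `rM s` between the pairs of `CMi i j A` and of `CMi i j (A.image s)` (`coreQ_rN`, `iv_rN`, `bl_rN`, `qd_rN`,
`st i j (s.symm b) = st i j b` for `b ∈ {2, 3}`, indeed for every `b`); the weights: `(wh (rN s K) ∩ A.image s).card = (wh K ∩ A).card`, `(Mk.image s).card = Mk.card`;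
`famI (rN s K) a k = famI K (fun r => a (rq s r)) k` (`famI_image` with `e = rq s`, `rN s K = K.image (rq s)`), and the number of flagged blacks
of `rq s r` for `Mk.image s` is that of `r` for `Mk` (`flg_rq`, `Finset.image_inter`).
`Cg_symm`: the same for the transposition of `2` and `3` (and `st i j` replaced by `st j i`), for every `n`: `rq s qs = qs`,
`(Ico 4 (4 + n)).image s = Ico 4 (4 + n)`.
-/

set_option autoImplicit false

namespace K5M

open Finset
open scoped ENNReal

namespace DRlCAux

variable {s : Equiv.Perm ℕ} {i j i' j' : ℕ} {A : Finset ℕ}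

theorem cmi_rN (hq : rq s qs = qs) (hc : (fun b => st i j (s.symm b)) = st i' j')
    {K : Finset Quad} {Mk : Finset ℕ} (h : CMi i j A K Mk) :
    CMi i' j' (A.image s) (rN s K) (Mk.image s) where
  core := by
    have h1 := (coreQ_rN s).2 h.core
    rwa [hq] at h1
  inn := by
    have h1 : iv (rq s qs) (rN s K) = (iv qs K).image s := iv_rN s
    rw [hq, h.inn] at h1
    exact h1
  sub := Finset.image_subset_image h.sub
  blk := by
    rw [bl_rN]
    exact Finset.image_subset_image h.blk
  three := by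
    intro b hb
    obtain ⟨a, ha, rfl⟩ := Finset.mem_image.1 hb
    rw [qd_rN]
    exact h.three a ha
  side := by
    intro b hb
    have h1 : qs.2.image s = qs.2 := congrArg Prod.snd hq
    rw [← h1] at hb
    obtain ⟨a, ha, rfl⟩ := Finset.mem_image.1 hb
    have h2 : st i' j' (s a) = st i j a := by
      rw [← hc]
      simp only [Equiv.symm_apply_apply]
    rw [h2, qd_rN]
    exact h.side a ha

theorem hq_symm (hq : rq s qs = qs) : rq s.symm qs = qs := by
  rw [← hq, rq_symm_rq, hq]

theorem hc_symm (hc : (fun b => st i j (s.symm b)) = st i' j') :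
    (fun b => st i' j' (s.symm.symm b)) = st i j := by
  funext b
  rw [← hc]
  simp only [Equiv.symm_symm, Equiv.symm_apply_apply]

theorem cmi_iff (hq : rq s qs = qs) (hc : (fun b => st i j (s.symm b)) = st i' j')
    (p : Finset Quad × Finset ℕ) :
    CMi i j A p.1 p.2 ↔ CMi i' j' (A.image s) (rMe s p).1 (rMe s p).2 := by
  constructor
  · exact fun h => cmi_rN hq hc h
  · intro h
    have h1 := cmi_rN (hq_symm hq) (hc_symm hc) h
    have h2 : rN s.symm (rMe s p).1 = p.1 := rN_symm_rN s p.1
    have h3 : (rMe s p).2.image s.symm = p.2 := image_symm_image s p.2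
    rw [h2, h3, image_symm_image] at h1
    exact h1

theorem flg_eq (hq : rq s qs = qs) (hc : (fun b => st i j (s.symm b)) = st i' j')
    (M : Finset ℕ) : flg qs (st i' j') (M.image s) = (flg qs (st i j) M).image s := by
  have h1 : flg (rq s qs) (fun b => st i j (s.symm b)) (M.image s) =
    (flg qs (st i j) M).image s := flg_rq s
  rwa [hq, hc] at h1

/-- the sums over marked cores are equivariant -/
theorem sum_rN (hq : rq s qs = qs) (hc : (fun b => st i j (s.symm b)) = st i' j')
    (W : Finset Quad × Finset ℕ → ℝ≥0∞) (W' : Finset Quad × Finset ℕ → ℝ≥0∞)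
    (hW : ∀ p, W' (rMe s p) = W p) :
    ∑' p : {p : Finset Quad × Finset ℕ // CMi i j A p.1 p.2}, W p.1 =
      ∑' p : {p : Finset Quad × Finset ℕ // CMi i' j' (A.image s) p.1 p.2}, W' p.1 := by
  let e : {p : Finset Quad × Finset ℕ // CMi i j A p.1 p.2} ≃
      {p : Finset Quad × Finset ℕ // CMi i' j' (A.image s) p.1 p.2} :=
    (rMe s).subtypeEquiv (cmi_iff (A := A) hq hc)
  calc ∑' p : {p : Finset Quad × Finset ℕ // CMi i j A p.1 p.2}, W p.1
      = ∑' p : {p : Finset Quad × Finset ℕ // CMi i j A p.1 p.2}, W' (e p).1 :=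
        tsum_congr fun p => (hW p.1).symm
    _ = _ := e.tsum_eq (fun p => W' p.1)

theorem GA_rN (x Y T : ℝ≥0∞) (hq : rq s qs = qs)
    (hc : (fun b => st i j (s.symm b)) = st i' j') (k : ℕ) :
    GA x Y T i j A k = GA x Y T i' j' (A.image s) k := by
  unfold GA
  refine sum_rN hq hc (fun p => x ^ (wh p.1 ∩ A).card * T ^ p.2.card *
      famI p.1 (fun r => aφ x Y T (r.2 ∩ flg qs (st i j) p.2).card) k)
    (fun p => x ^ (wh p.1 ∩ A.image s).card * T ^ p.2.card *
      famI p.1 (fun r => aφ x Y T (r.2 ∩ flg qs (st i' j') p.2).card) k) fun p => ?_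
  have h1 : (wh (rMe s p).1 ∩ A.image s).card = (wh p.1 ∩ A).card := wcard_rM s A p
  have h2 : (rMe s p).2.card = p.2.card := card_im s p.2
  have h3 : famI (rMe s p).1
      (fun r => aφ x Y T (r.2 ∩ flg qs (st i' j') (rMe s p).2).card) k =
      famI p.1 (fun r => aφ x Y T (r.2 ∩ flg qs (st i j) p.2).card) k := by
    have h4 : (rMe s p).1 = p.1.image (rq s) := rfl
    rw [h4, famI_image ((rq_inj s).injOn)]
    refine famI_congr (fun r _ => ?_) k
    have h5 : (rMe s p).2 = p.2.image s := rfl
    have h6 : (rq s r).2 = r.2.image s := rfl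
    rw [h5, h6, flg_eq hq hc, ← Finset.image_inter _ _ s.injective, card_im]
  simp only [h1, h2, h3]

theorem cw_rN (x z w T : ℝ≥0∞) (hq : rq s qs = qs)
    (hc : (fun b => st i j (s.symm b)) = st i' j') :
    ∑' p : {p : Finset Quad × Finset ℕ // CMi i j A p.1 p.2},
      cw x z w T p.1.2.card A p.1.1 (flg qs (st i j) p.1.2) =
    ∑' p : {p : Finset Quad × Finset ℕ // CMi i' j' (A.image s) p.1 p.2},
      cw x z w T p.1.2.card (A.image s) p.1.1 (flg qs (st i' j') p.1.2) := by
  refine sum_rN hq hc (fun p => cw x z w T p.2.card A p.1 (flg qs (st i j) p.2))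
    (fun p => cw x z w T p.2.card (A.image s) p.1 (flg qs (st i' j') p.2)) fun p => ?_
  have h1 : (wh (rMe s p).1 ∩ A.image s).card = (wh p.1 ∩ A).card := wcard_rM s A p
  have h2 : (rMe s p).2.card = p.2.card := card_im s p.2
  have h5 : (rMe s p).2 = p.2.image s := rfl
  have h4 : (rMe s p).1 = p.1.image (rq s) := rfl
  have h6 : ∀ (r : Quad) (B : Finset ℕ), Disjoint (rq s r).2 (B.image s) ↔ Disjoint r.2 B :=
    fun r B => Finset.disjoint_image s.injective
  have h7 : ∀ B : Finset ℕ, ((rMe s p).1.filter (fun r => Disjoint r.2 (B.image s))).card =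
      (p.1.filter (fun r => Disjoint r.2 B)).card := by
    intro B
    rw [h4, Finset.filter_image, Finset.card_image_of_injective _ (rq_inj s)]
    simp only [h6]
  have h8 : ∀ B : Finset ℕ, ((rMe s p).1.filter (fun r => ¬ Disjoint r.2 (B.image s))).card =
      (p.1.filter (fun r => ¬ Disjoint r.2 B)).card := by
    intro B
    rw [h4, Finset.filter_image, Finset.card_image_of_injective _ (rq_inj s)]
    simp only [h6]
  unfold cw
  simp only [h1, h2]
  rw [h5, flg_eq hq hc, h7, h8]

theorem rq_qs (h0 : s 0 = 0) (h1 : s 1 = 1) (h : ({s 2, s 3} : Finset ℕ) = {2, 3}) :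
    rq s qs = qs := by
  unfold rq qs
  rw [IsQ_pair_im, IsQ_pair_im, h0, h1, h]

end DRlCAux

open DRlCAux

theorem GA_card (x Y T : ℝ≥0∞) (i j : ℕ) {A : Finset ℕ} (hA : Disjoint A ({0, 1, 2, 3} : Finset ℕ))
    (k : ℕ) : GA x Y T i j A k = GA x Y T i j (Ico 4 (4 + A.card)) k := by
  obtain ⟨s, hs, hs'⟩ := exists_relabel [0, 1, 2, 3] A (by decide) (by
    intro a ha hmem
    refine Finset.disjoint_left.1 hA ha ?_
    simp only [List.mem_cons, List.not_mem_nil, or_false] at hmem
    simp only [Finset.mem_insert, Finset.mem_singleton]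
    exact hmem)
  have hr : List.range ([0, 1, 2, 3] : List ℕ).length = [0, 1, 2, 3] := by decide
  rw [hr] at hs
  simp only [List.map_cons, List.map_nil, List.cons.injEq, and_true] at hs
  obtain ⟨h0, h1, h2, h3⟩ := hs
  have hl : ([0, 1, 2, 3] : List ℕ).length = 4 := rfl
  rw [hl] at hs'
  have h2' : s.symm 2 = 2 := by
    rw [Equiv.symm_apply_eq]
    exact h2.symm
  have h3' : s.symm 3 = 3 := by
    rw [Equiv.symm_apply_eq]
    exact h3.symm
  have hc : (fun b => st i j (s.symm b)) = st i j := by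
    funext b
    unfold st
    have e2 : s.symm b = 2 ↔ b = 2 := by
      rw [Equiv.symm_apply_eq, h2]
    have e3 : s.symm b = 3 ↔ b = 3 := by
      rw [Equiv.symm_apply_eq, h3]
    simp only [e2, e3]
  rw [← hs']
  exact GA_rN x Y T (rq_qs h0 h1 (by rw [h2, h3])) hc k

theorem Cg_symm (i j : ℕ) (x z w T : ℝ≥0∞) : Cg i j x z w T = Cg j i x z w T := by
  have hq : rq (Equiv.swap 2 3) qs = qs := by
    refine rq_qs (by decide) (by decide) ?_
    rw [Equiv.swap_apply_left, Equiv.swap_apply_right, Finset.pair_comm]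
  have hc : (fun b => st i j ((Equiv.swap 2 3 : Equiv.Perm ℕ).symm b)) = st j i := by
    funext b
    rw [Equiv.symm_swap]
    by_cases h2 : b = 2
    · rw [h2, Equiv.swap_apply_left]
      rfl
    · by_cases h3 : b = 3
      · rw [h3, Equiv.swap_apply_right]
        rfl
      · rw [Equiv.swap_apply_of_ne_of_ne h2 h3]
        unfold st
        rw [if_neg h2, if_neg h3, if_neg h2, if_neg h3]
  have hI : ∀ n : ℕ, (Ico 4 (4 + n)).image (Equiv.swap 2 3 : Equiv.Perm ℕ) = Ico 4 (4 + n) := by
    intro n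
    have h1 : ∀ a ∈ Ico 4 (4 + n), (Equiv.swap 2 3 : Equiv.Perm ℕ) a = a := by
      intro a ha
      rw [Finset.mem_Ico] at ha
      exact Equiv.swap_apply_of_ne_of_ne (by omega) (by omega)
    rw [Finset.image_congr (g := id) (fun a ha => h1 a ha), Finset.image_id]
  unfold Cg
  refine tsum_congr fun n => ?_
  congr 1
  have h1 := cw_rN (A := Ico 4 (4 + n)) x z w T hq hc
  rw [hI] at h1
  exact h1

end K5M
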