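import Pool.Agent.Lib.K5M.ND
import Pool.Agent.Lib.K5M.DPi
import Pool.Agent.Lib.K5M.DRlC

/-!
# K5M.DCg: the generating functions of the marked cores

`M'` = marks with sides allowed (`CM`), `Mk` = marks among the inner blacks (`CMi`); `qs.2 = {2, 3}`.  For every `n`, `A = Ico 4 (4 + n)`: the pairs `(K, M')` with
`CM qs A K M'` are divided according to `M' ∩ {2, 3}`; `Mk = M' \ {2, 3}`, `i = 2` if `2 ∈ M'`, else `i = 0`; `j = 2` if `3 ∈ M'`, else `0`.
`CM qs A K M' ↔ CMi i j A K Mk`: for `h ∈ {2, 3} ∩ M'`: `qd K h + 1 = 3`, i.e. `qd K h = 2 = st i j h`; for the other `h ∈ M'`: `h ∈ bl K \ {2, 3}`, so `h ∈ iv qs K = A`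
(`h` is not `0, 1`: `{0, 1} ⊆ wh K`, `col`), `qd K h = 3`.  `flg qs (st i j) Mk = M'`, so the filters in `cw` agree, and `M'.card = Mk.card + [i = 2] + [j = 2]`.
PROOFS.
`Cg_sum`: so the left hand side of `B1` is `Cg 0 0 + T * Cg 2 0 + T * Cg 0 2 + T ^ 2 * Cg 2 2` (`tsum_or`, a bijection `M' ↦ M' \ {2, 3}` for each of the four cases,
`ENNReal.tsum_mul_left`, `ENNReal.tsum_add`); `Cg_symm`.
`Cg_sum2`: the pairs with `2 ∈ M'`: `cw` with `T ^ (M'.card - 1)`: `Cg 2 0 + T * Cg 2 2`.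
-/

set_option autoImplicit false

namespace K5M

open Finset
open scoped ENNReal

namespace DCgAux

/-- The marked sides. -/
def sd (i j : ℕ) : Finset ℕ := qs.2.filter (fun b => st i j b ≠ 0)

theorem flg_eq (i j : ℕ) (M : Finset ℕ) : flg qs (st i j) M = M ∪ sd i j := rfl

theorem mem_side {b : ℕ} : b ∈ qs.2 ↔ b = 2 ∨ b = 3 := by
  unfold qs
  rw [Finset.mem_insert, Finset.mem_singleton]

theorem mem_sd {i j b : ℕ} : b ∈ sd i j ↔ (b = 2 ∧ i ≠ 0) ∨ (b = 3 ∧ j ≠ 0) := by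
  unfold sd
  rw [Finset.mem_filter, mem_side]
  unfold st
  constructor
  · rintro ⟨rfl | rfl, h⟩
    · left
      simpa using h
    · right
      simpa using h
  · rintro (⟨rfl, h⟩ | ⟨rfl, h⟩)
    · exact ⟨Or.inl rfl, by simpa using h⟩
    · exact ⟨Or.inr rfl, by simpa using h⟩

theorem st_two (i j : ℕ) : st i j 2 = i := by
  unfold st
  simp

theorem st_three (i j : ℕ) : st i j 3 = j := by
  unfold st
  simp

theorem not_mem_A {n b : ℕ} {M : Finset ℕ} (h : M ⊆ Ico 4 (4 + n)) (hb : b ∈ qs.2) : b ∉ M := by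
  intro hM
  have h1 := Finset.mem_Ico.1 (h hM)
  rcases mem_side.1 hb with rfl | rfl <;> omega

theorem cm_of {n i j : ℕ} (hi : i = 0 ∨ i = 2) (hj : j = 0 ∨ j = 2) {K : Finset Quad}
    {M : Finset ℕ} (h : CMi i j (Ico 4 (4 + n)) K M) :
    CM qs (Ico 4 (4 + n)) K (flg qs (st i j) M) ∧ (2 ∈ flg qs (st i j) M ↔ i = 2) ∧
      (3 ∈ flg qs (st i j) M ↔ j = 2) := by
  rw [flg_eq]
  refine ⟨⟨h.core, h.inn, ?_, ?_⟩, ?_, ?_⟩
  · refine Finset.union_subset h.blk ?_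
    exact (Finset.filter_subset _ _).trans h.core.part.sub_bl
  · intro b hb
    rcases Finset.mem_union.1 hb with hb | hb
    · rw [if_neg (fun h' => not_mem_A h.sub h' hb), h.three b hb]
    · have h1 := mem_sd.1 hb
      rcases h1 with ⟨rfl, h1⟩ | ⟨rfl, h1⟩
      · have h2 := h.side 2 (mem_side.2 (Or.inl rfl)) (by rw [st_two]; exact h1)
        rw [if_pos (mem_side.2 (Or.inl rfl)), h2, st_two]
        omega
      · have h2 := h.side 3 (mem_side.2 (Or.inr rfl)) (by rw [st_three]; exact h1)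
        rw [if_pos (mem_side.2 (Or.inr rfl)), h2, st_three]
        omega
  · rw [Finset.mem_union, mem_sd]
    constructor
    · rintro (h1 | h1)
      · exact absurd h1 (not_mem_A h.sub (mem_side.2 (Or.inl rfl)))
      · rcases h1 with h1 | h1 <;> omega
    · intro h1
      right
      left
      omega
  · rw [Finset.mem_union, mem_sd]
    constructor
    · rintro (h1 | h1)
      · exact absurd h1 (not_mem_A h.sub (mem_side.2 (Or.inr rfl)))
      · rcases h1 with h1 | h1 <;> omega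
    · intro h1
      right
      right
      omega

theorem of_cm {n i j : ℕ} (hi : i = 0 ∨ i = 2) (hj : j = 0 ∨ j = 2) {K : Finset Quad}
    {M : Finset ℕ} (h : CM qs (Ico 4 (4 + n)) K M) (h2 : 2 ∈ M ↔ i = 2) (h3 : 3 ∈ M ↔ j = 2) :
    CMi i j (Ico 4 (4 + n)) K (M \ {2, 3}) := by
  have key : ∀ b, b ∈ M \ {2, 3} → b ∈ M ∧ b ∉ qs.2 := by
    intro b hb
    rw [Finset.mem_sdiff] at hb
    refine ⟨hb.1, fun h' => hb.2 ?_⟩
    rw [Finset.mem_insert, Finset.mem_singleton]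
    exact mem_side.1 h'
  refine ⟨h.core, h.inn, ?_, ?_, ?_, ?_⟩
  · intro b hb
    obtain ⟨h4, h5⟩ := key b hb
    rw [← h.inn]
    unfold iv
    rw [Finset.mem_sdiff, Finset.mem_union]
    refine ⟨Finset.mem_union_right _ (h.sub h4), ?_⟩
    rintro (h6 | h6)
    · exact Finset.disjoint_left.1 h.core.part.col (h.core.part.sub_wh h6) (h.sub h4)
    · exact h5 h6
  · intro b hb
    exact h.sub (key b hb).1
  · intro b hb
    obtain ⟨h4, h5⟩ := key b hb
    have h6 := h.deg b h4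
    rw [if_neg h5] at h6
    exact h6
  · intro b hb h4
    rcases mem_side.1 hb with rfl | rfl
    · rw [st_two] at h4 ⊢
      have h6 := h.deg 2 (h2.2 (by omega))
      rw [if_pos hb] at h6
      omega
    · rw [st_three] at h4 ⊢
      have h6 := h.deg 3 (h3.2 (by omega))
      rw [if_pos hb] at h6
      omega

theorem flg_sdiff {i j : ℕ} (hi : i = 0 ∨ i = 2) (hj : j = 0 ∨ j = 2) {M : Finset ℕ}
    (h2 : 2 ∈ M ↔ i = 2) (h3 : 3 ∈ M ↔ j = 2) : flg qs (st i j) (M \ {2, 3}) = M := by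
  rw [flg_eq]
  ext b
  rw [Finset.mem_union, mem_sd, Finset.mem_sdiff, Finset.mem_insert, Finset.mem_singleton]
  constructor
  · rintro (h | ⟨rfl, h⟩ | ⟨rfl, h⟩)
    · exact h.1
    · exact h2.2 (by omega)
    · exact h3.2 (by omega)
  · intro h
    by_cases e2 : b = 2
    · subst e2
      right
      left
      have := h2.1 h
      exact ⟨rfl, by omega⟩
    · by_cases e3 : b = 3
      · subst e3
        right
        right
        have := h3.1 h
        exact ⟨rfl, by omega⟩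
      · left
        exact ⟨h, by rintro (h' | h') <;> omega⟩

theorem sdiff_flg {n i j : ℕ} {M : Finset ℕ} (h : M ⊆ Ico 4 (4 + n)) :
    flg qs (st i j) M \ {2, 3} = M := by
  rw [flg_eq]
  ext b
  rw [Finset.mem_sdiff, Finset.mem_union, mem_sd, Finset.mem_insert, Finset.mem_singleton]
  constructor
  · rintro ⟨h1 | h1, h2⟩
    · exact h1
    · exact absurd (h1.imp And.left And.left) h2
  · intro h1
    refine ⟨Or.inl h1, fun h2 => ?_⟩
    exact not_mem_A h (mem_side.2 h2) h1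

theorem card_flg {n i j : ℕ} {M : Finset ℕ} (h : M ⊆ Ico 4 (4 + n)) :
    (flg qs (st i j) M).card = M.card + (sd i j).card := by
  rw [flg_eq, Finset.card_union_of_disjoint]
  rw [Finset.disjoint_left]
  intro b h1 h2
  exact not_mem_A h (Finset.mem_filter.1 h2).1 h1

/-- The bijection. -/
def eqv {n i j : ℕ} (hi : i = 0 ∨ i = 2) (hj : j = 0 ∨ j = 2) :
    {p : Finset Quad × Finset ℕ // CMi i j (Ico 4 (4 + n)) p.1 p.2} ≃
      {p : Finset Quad × Finset ℕ // CM qs (Ico 4 (4 + n)) p.1 p.2 ∧ (2 ∈ p.2 ↔ i = 2) ∧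
        (3 ∈ p.2 ↔ j = 2)} where
  toFun p := ⟨(p.1.1, flg qs (st i j) p.1.2), cm_of hi hj p.2⟩
  invFun p := ⟨(p.1.1, p.1.2 \ {2, 3}), of_cm hi hj p.2.1 p.2.2.1 p.2.2.2⟩
  left_inv p := Subtype.ext (Prod.ext rfl (sdiff_flg p.2.sub))
  right_inv p := Subtype.ext (Prod.ext rfl (flg_sdiff hi hj p.2.2.1 p.2.2.2))

theorem quad_sum (x z w T : ℝ≥0∞) (n : ℕ) {i j : ℕ} (hi : i = 0 ∨ i = 2) (hj : j = 0 ∨ j = 2)
    {k m : ℕ} (hk : (sd i j).card = m + k) :
    ∑' p : {p : Finset Quad × Finset ℕ // CM qs (Ico 4 (4 + n)) p.1 p.2 ∧ (2 ∈ p.2 ↔ i = 2) ∧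
        (3 ∈ p.2 ↔ j = 2)}, cw x z w T (p.1.2.card - k) (Ico 4 (4 + n)) p.1.1 p.1.2 =
      T ^ m * ∑' p : {p : Finset Quad × Finset ℕ // CMi i j (Ico 4 (4 + n)) p.1 p.2},
        cw x z w T p.1.2.card (Ico 4 (4 + n)) p.1.1 (flg qs (st i j) p.1.2) := by
  rw [← (eqv hi hj).tsum_eq, ← ENNReal.tsum_mul_left]
  refine tsum_congr fun p => ?_
  have h1 : ((eqv hi hj p).1.2.card - k) = m + p.1.2.card := by
    have h2 : (eqv hi hj p).1.2 = flg qs (st i j) p.1.2 := rfl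
    rw [h2, card_flg p.2.sub, hk]
    omega
  have h3 : (eqv hi hj p).1.1 = p.1.1 := rfl
  have h4 : (eqv hi hj p).1.2 = flg qs (st i j) p.1.2 := rfl
  rw [h1, h3, h4]
  unfold cw
  rw [pow_add]
  ring

theorem split2 {α : Type*} (R : α → Prop) (A : α → Prop) (f : α → ℝ≥0∞) :
    ∑' s : {s // R s}, f s.1 = ∑' s : {s // R s ∧ A s}, f s.1 + ∑' s : {s // R s ∧ ¬ A s}, f s.1 :=
  tsum_or R (fun s => R s ∧ A s) (fun s => R s ∧ ¬ A s) f
    (fun s => by by_cases h : A s <;> simp [h]) (fun _ h h' => h'.2 h.2)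

theorem tsum_iff {α : Type*} {R Q : α → Prop} (f : α → ℝ≥0∞) (h : ∀ s, R s ↔ Q s) :
    ∑' s : {s // R s}, f s.1 = ∑' s : {s // Q s}, f s.1 := by
  have h1 : R = Q := funext fun s => propext (h s)
  subst h1
  rfl

/-- The `n`-th coefficient of `Cg i j`. -/
noncomputable def co (i j : ℕ) (x z w T : ℝ≥0∞) (n : ℕ) : ℝ≥0∞ :=
  ∑' p : {p : Finset Quad × Finset ℕ // CMi i j (Ico 4 (4 + n)) p.1 p.2},
    cw x z w T p.1.2.card (Ico 4 (4 + n)) p.1.1 (flg qs (st i j) p.1.2)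

theorem Cg_eq (i j : ℕ) (x z w T : ℝ≥0∞) :
    Cg i j x z w T = ∑' n : ℕ, co i j x z w T n / (n.factorial : ℝ≥0∞) := rfl

theorem sum_two (x z w T : ℝ≥0∞) (n : ℕ) (k : ℕ) (hk : k = 0 ∨ k = 1) :
    ∑' p : {p : Finset Quad × Finset ℕ // CM qs (Ico 4 (4 + n)) p.1 p.2 ∧ 2 ∈ p.2},
      cw x z w T (p.1.2.card - k) (Ico 4 (4 + n)) p.1.1 p.1.2 =
      T ^ (2 - k) * co 2 2 x z w T n + T ^ (1 - k) * co 2 0 x z w T n := by
  rw [split2 (fun p : Finset Quad × Finset ℕ => CM qs (Ico 4 (4 + n)) p.1 p.2 ∧ 2 ∈ p.2)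
    (fun p => 3 ∈ p.2) (fun p => cw x z w T (p.2.card - k) (Ico 4 (4 + n)) p.1 p.2)]
  congr 1
  · unfold co
    rw [← quad_sum x z w T n (Or.inr rfl) (Or.inr rfl) (k := k) (m := 2 - k) (by
      have : (sd 2 2).card = 2 := by decide
      omega)]
    exact tsum_iff (fun p : Finset Quad × Finset ℕ =>
      cw x z w T (p.2.card - k) (Ico 4 (4 + n)) p.1 p.2) (fun p => by simp; tauto)
  · unfold co
    rw [← quad_sum x z w T n (Or.inr rfl) (Or.inl rfl) (k := k) (m := 1 - k) (by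
      have : (sd 2 0).card = 1 := by decide
      omega)]
    exact tsum_iff (fun p : Finset Quad × Finset ℕ =>
      cw x z w T (p.2.card - k) (Ico 4 (4 + n)) p.1 p.2) (fun p => by simp; tauto)

theorem sum_not_two (x z w T : ℝ≥0∞) (n : ℕ) :
    ∑' p : {p : Finset Quad × Finset ℕ // CM qs (Ico 4 (4 + n)) p.1 p.2 ∧ ¬ 2 ∈ p.2},
      cw x z w T (p.1.2.card - 0) (Ico 4 (4 + n)) p.1.1 p.1.2 =
      T * co 0 2 x z w T n + co 0 0 x z w T n := by
  rw [split2 (fun p : Finset Quad × Finset ℕ => CM qs (Ico 4 (4 + n)) p.1 p.2 ∧ ¬ 2 ∈ p.2)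
    (fun p => 3 ∈ p.2) (fun p => cw x z w T (p.2.card - 0) (Ico 4 (4 + n)) p.1 p.2)]
  congr 1
  · have h1 : T * co 0 2 x z w T n = T ^ 1 * co 0 2 x z w T n := by rw [pow_one]
    rw [h1]
    unfold co
    rw [← quad_sum x z w T n (Or.inl rfl) (Or.inr rfl) (k := 0) (m := 1) (by decide)]
    exact tsum_iff (fun p : Finset Quad × Finset ℕ =>
      cw x z w T (p.2.card - 0) (Ico 4 (4 + n)) p.1 p.2) (fun p => by simp; tauto)
  · have h1 : co 0 0 x z w T n = T ^ 0 * co 0 0 x z w T n := by rw [pow_zero, one_mul]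
    rw [h1]
    unfold co
    rw [← quad_sum x z w T n (Or.inl rfl) (Or.inl rfl) (k := 0) (m := 0) (by decide)]
    exact tsum_iff (fun p : Finset Quad × Finset ℕ =>
      cw x z w T (p.2.card - 0) (Ico 4 (4 + n)) p.1 p.2) (fun p => by simp; tauto)

end DCgAux

open DCgAux

theorem Cg_sum (x z w T : ℝ≥0∞) :
    ∑' n : ℕ, (∑' p : {p : Finset Quad × Finset ℕ // CM qs (Ico 4 (4 + n)) p.1 p.2},
      cw x z w T p.1.2.card (Ico 4 (4 + n)) p.1.1 p.1.2) / (n.factorial : ℝ≥0∞) =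
      Cg 0 0 x z w T + 2 * (T * Cg 2 0 x z w T) + T ^ 2 * Cg 2 2 x z w T := by
  have h1 : ∀ n : ℕ, (∑' p : {p : Finset Quad × Finset ℕ // CM qs (Ico 4 (4 + n)) p.1 p.2},
      cw x z w T p.1.2.card (Ico 4 (4 + n)) p.1.1 p.1.2) / (n.factorial : ℝ≥0∞) =
      ((T ^ 2 * (co 2 2 x z w T n / (n.factorial : ℝ≥0∞)) +
        T * (co 2 0 x z w T n / (n.factorial : ℝ≥0∞))) +
        (T * (co 0 2 x z w T n / (n.factorial : ℝ≥0∞)) +
          co 0 0 x z w T n / (n.factorial : ℝ≥0∞))) := by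
    intro n
    have h2 : ∑' p : {p : Finset Quad × Finset ℕ // CM qs (Ico 4 (4 + n)) p.1 p.2},
        cw x z w T p.1.2.card (Ico 4 (4 + n)) p.1.1 p.1.2 =
        (T ^ 2 * co 2 2 x z w T n + T * co 2 0 x z w T n) +
          (T * co 0 2 x z w T n + co 0 0 x z w T n) := by
      rw [split2 (fun p : Finset Quad × Finset ℕ => CM qs (Ico 4 (4 + n)) p.1 p.2)
        (fun p => 2 ∈ p.2) (fun p => cw x z w T p.2.card (Ico 4 (4 + n)) p.1 p.2)]
      have h3 := sum_two x z w T n 0 (Or.inl rfl)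
      have h4 := sum_not_two x z w T n
      simp only [Nat.sub_zero, pow_one] at h3 h4
      rw [h3, h4]
    rw [h2]
    simp only [ENNReal.add_div, mul_div_assoc]
  rw [tsum_congr h1, ENNReal.tsum_add, ENNReal.tsum_add, ENNReal.tsum_add, ENNReal.tsum_mul_left,
    ENNReal.tsum_mul_left, ENNReal.tsum_mul_left, ← Cg_eq, ← Cg_eq, ← Cg_eq, ← Cg_eq,
    Cg_symm 0 2]
  ring

theorem Cg_sum2 (x z w T : ℝ≥0∞) :
    ∑' n : ℕ, (∑' p : {p : Finset Quad × Finset ℕ // CM qs (Ico 4 (4 + n)) p.1 p.2 ∧ 2 ∈ p.2},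
      cw x z w T (p.1.2.card - 1) (Ico 4 (4 + n)) p.1.1 p.1.2) / (n.factorial : ℝ≥0∞) =
      Cg 2 0 x z w T + T * Cg 2 2 x z w T := by
  have h1 : ∀ n : ℕ, (∑' p : {p : Finset Quad × Finset ℕ //
      CM qs (Ico 4 (4 + n)) p.1 p.2 ∧ 2 ∈ p.2},
      cw x z w T (p.1.2.card - 1) (Ico 4 (4 + n)) p.1.1 p.1.2) / (n.factorial : ℝ≥0∞) =
      T * (co 2 2 x z w T n / (n.factorial : ℝ≥0∞)) + co 2 0 x z w T n / (n.factorial : ℝ≥0∞) := by
    intro n
    have h3 := sum_two x z w T n 1 (Or.inr rfl)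
    simp only [Nat.sub_self, pow_zero, one_mul] at h3
    have h5 : (2 - 1 : ℕ) = 1 := rfl
    rw [h5, pow_one] at h3
    rw [h3, ENNReal.add_div, mul_div_assoc]
  rw [tsum_congr h1, ENNReal.tsum_add, ENNReal.tsum_mul_left, ← Cg_eq, ← Cg_eq, add_comm]

end K5M
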