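import Pool.Agent.Lib.K5M.DE4b

/-!
# K5M.DE5: the generating function of the networks of class `cor`

PROOFS.
`GA_zero`: for `A = Ico 4 4 = ∅` there is no core (`core_inn`).
`egf_cor`: `cor_eq` and `K5.egf_pair` with `x = 1`: `egf (an .cor ..) 1 = ∑' a, ∑' k, (1 / a!) * ((1 / k!) * GA x Y T i j (Ico 4 (4 + a)) k)`.  Exchange the sum over
`k` with the sum over the pairs `(K, Mk)` (`ENNReal.tsum_comm`, `ENNReal.tsum_mul_left`): for a fixed pair
`∑' k, (1 / k!) * famI K (fun r => aφ ..) k = K5.egf (famI ..) 1 = ∏ r ∈ K, K5.egf (aφ ..) 1` (`egf_famI`), and `K5.egf (aφ x Y T m) 1` is `z` for `m = 0` and `w`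
otherwise; so the product is `z ^ #{r ∈ K | Disjoint r.2 (flg ..)} * w ^ #{the others}` (`(r.2 ∩ flg ..).card = 0` iff disjoint; `Finset.prod_ite`).  Compare with
`Cg` and `cw`.
`tr_cor`: for `n ≤ N + 1`, in `cor_eq` the terms with `A = ∅` vanish (`GA_zero`), in the others `k = (range n \ A).card ≤ N`, so by `famI_tr`
`GA .. k ≤` (equal to) the same with `aφ` replaced by `tr N (aφ ..)`; call it `GA' .. k`.  So `tr (N + 1) (an .cor ..) n ≤ ∑ A ∈ (range n).powerset, GA' ..`
(for `n > N + 1` the left side is 0); `K5.egf_mono`, and then the computation of `egf_cor` with `K5.egf (tr N (aφ .. m)) 1 ≤ z` or `≤ w` (`Finset.prod_le_prod'`).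
-/

set_option autoImplicit false

namespace K5M

open Finset
open scoped ENNReal

namespace DE5Aux

/-- Cores and families of parts with given counting functions. -/
noncomputable def Gf (x T : ℝ≥0∞) (i j : ℕ) (φ : ℕ → ℕ → ℝ≥0∞) (a k : ℕ) : ℝ≥0∞ :=
  ∑' p : {p : Finset Quad × Finset ℕ // CMi i j (Ico 4 (4 + a)) p.1 p.2},
    x ^ (wh p.1.1 ∩ Ico 4 (4 + a)).card * T ^ p.1.2.card *
      famI p.1.1 (fun r => φ (r.2 ∩ flg qs (st i j) p.1.2).card) k

lemma egf_Gf (x T : ℝ≥0∞) (i j : ℕ) (φ : ℕ → ℕ → ℝ≥0∞) :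
    K5.egf (fun n => ∑ A ∈ (range n).powerset, Gf x T i j φ A.card (range n \ A).card) 1 =
      ∑' n : ℕ, (∑' p : {p : Finset Quad × Finset ℕ // CMi i j (Ico 4 (4 + n)) p.1 p.2},
        x ^ (wh p.1.1 ∩ Ico 4 (4 + n)).card * T ^ p.1.2.card *
          ∏ r ∈ p.1.1, K5.egf (φ (r.2 ∩ flg qs (st i j) p.1.2).card) 1) / (n.factorial : ℝ≥0∞) := by
  rw [K5.egf_pair]
  refine tsum_congr fun a => ?_
  rw [ENNReal.tsum_mul_left, one_pow, ENNReal.div_eq_inv_mul, mul_one, ENNReal.div_eq_inv_mul]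
  congr 1
  unfold Gf
  simp only [← ENNReal.tsum_mul_left]
  rw [ENNReal.tsum_comm]
  refine tsum_congr fun p => ?_
  rw [← egf_famI]
  unfold K5.egf
  rw [← ENNReal.tsum_mul_left]
  refine tsum_congr fun b => ?_
  ring

lemma prod_zw (z w : ℝ≥0∞) (K : Finset Quad) (M : Finset ℕ) :
    (∏ r ∈ K, if (r.2 ∩ M).card = 0 then z else w) =
      z ^ (K.filter (fun r => Disjoint r.2 M)).card * w ^ (K.filter (fun r => ¬ Disjoint r.2 M)).card := by
  have h : ∀ r ∈ K, (if (r.2 ∩ M).card = 0 then z else w) = if Disjoint r.2 M then z else w := by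
    intro r _
    have e : (r.2 ∩ M).card = 0 ↔ Disjoint r.2 M := by
      rw [Finset.card_eq_zero, Finset.disjoint_iff_inter_eq_empty]
    by_cases hd : Disjoint r.2 M
    · rw [if_pos hd, if_pos (e.mpr hd)]
    · rw [if_neg hd, if_neg (fun h => hd (e.mp h))]
  rw [Finset.prod_congr rfl h, Finset.prod_ite, Finset.prod_const, Finset.prod_const]

end DE5Aux

open DE5Aux

theorem GA_zero (x Y T : ℝ≥0∞) (i j k : ℕ) : GA x Y T i j (Ico 4 (4 + 0)) k = 0 := by
  unfold GA
  rw [ENNReal.tsum_eq_zero]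
  rintro ⟨p, hp⟩
  exfalso
  have h1 := core_inn hp.core
  rw [hp.inn] at h1
  simp at h1

theorem egf_cor {x Y T z w : ℝ≥0∞} {i j : ℕ} (hi : i = 0 ∨ i = 2) (hj : j = 0 ∨ j = 2)
    (h0 : K5.egf (an .all x Y T 0 0) 1 = z) (h1 : K5.egf (an .all x Y T 1 0) 1 = w)
    (h2 : K5.egf (an .all x Y T 1 1) 1 = w) :
    K5.egf (an .cor x Y T i j) 1 = Cg i j x z w T := by
  have e1 : an .cor x Y T i j = fun n => ∑ A ∈ (range n).powerset,
      Gf x T i j (aφ x Y T) A.card (range n \ A).card := by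
    funext n
    exact cor_eq x Y T hi hj n
  have e2 : ∀ m, K5.egf (aφ x Y T m) 1 = if m = 0 then z else w := by
    intro m
    unfold aφ
    by_cases hm : m = 0
    · rw [if_pos hm, if_pos hm, h0]
    · rw [if_neg hm, if_neg hm]
      by_cases hm1 : m = 1
      · rw [if_pos hm1, h1]
      · rw [if_neg hm1, h2]
  rw [e1, egf_Gf]
  unfold Cg cw
  refine tsum_congr fun n => ?_
  congr 1
  refine tsum_congr fun p => ?_
  simp only [e2]
  rw [prod_zw, ← mul_assoc]

theorem tr_cor {x Y T z w : ℝ≥0∞} {i j N : ℕ} (hi : i = 0 ∨ i = 2) (hj : j = 0 ∨ j = 2)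
    (h0 : K5.egf (tr N (an .all x Y T 0 0)) 1 ≤ z) (h1 : K5.egf (tr N (an .all x Y T 1 0)) 1 ≤ w)
    (h2 : K5.egf (tr N (an .all x Y T 1 1)) 1 ≤ w) :
    K5.egf (tr (N + 1) (an .cor x Y T i j)) 1 ≤ Cg i j x z w T := by
  have e1 : ∀ n, tr (N + 1) (an .cor x Y T i j) n ≤ ∑ A ∈ (range n).powerset,
      Gf x T i j (fun m => tr N (aφ x Y T m)) A.card (range n \ A).card := by
    intro n
    unfold tr
    by_cases hn : n ≤ N + 1
    · rw [if_pos hn, cor_eq x Y T hi hj n]
      refine Finset.sum_le_sum fun A hA => ?_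
      rcases A.eq_empty_or_nonempty with rfl | hne
      · rw [Finset.card_empty, GA_zero]
        exact zero_le
      · have hk : (range n \ A).card ≤ N := by
          have h3 := Finset.card_sdiff_add_card_eq_card (Finset.mem_powerset.mp hA)
          have h4 := hne.card_pos
          rw [Finset.card_range] at h3
          omega
        unfold GA Gf
        refine le_of_eq (tsum_congr fun p => ?_)
        rw [famI_tr hk]
        rfl
    · rw [if_neg hn]
      exact zero_le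
  have e2 : ∀ m, K5.egf (tr N (aφ x Y T m)) 1 ≤ if m = 0 then z else w := by
    intro m
    unfold aφ
    by_cases hm : m = 0
    · rw [if_pos hm, if_pos hm]
      exact h0
    · rw [if_neg hm, if_neg hm]
      by_cases hm1 : m = 1
      · rw [if_pos hm1]
        exact h1
      · rw [if_neg hm1]
        exact h2
  refine (K5.egf_mono e1 1).trans ?_
  rw [egf_Gf]
  unfold Cg cw
  refine ENNReal.tsum_le_tsum fun n => ?_
  refine ENNReal.div_le_div_right (ENNReal.tsum_le_tsum fun p => ?_) _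
  rw [mul_assoc (x ^ _ * T ^ _) (z ^ _), ← prod_zw]
  exact mul_le_mul_right (Finset.prod_le_prod' fun r _ => e2 _) _

end K5M
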