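import Pool.Agent.Lib.K5M.B1

/-!
# K5M.A5: relabelling

`rq s q`, `rN s N`, `rE s e`: action of a permutation `s` of the labels on quads, sets of quads, edges.
All notions are equivariant.
-/

set_option autoImplicit false

namespace K5M

open Finset
open scoped ENNReal

def rq (s : Equiv.Perm ℕ) (q : Quad) : Quad := (q.1.image s, q.2.image s)

def rN (s : Equiv.Perm ℕ) (N : Finset Quad) : Finset Quad := N.image (rq s)

def rE (s : Equiv.Perm ℕ) (e : Ed) : Ed := (s e.1, s e.2)

def rZ (s : Equiv.Perm ℕ) (Z : Finset Ed) : Finset Ed := Z.image (rE s)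

variable (s : Equiv.Perm ℕ)

theorem image_symm_image (A : Finset ℕ) : (A.image s).image s.symm = A := by
  rw [Finset.image_image]
  simp

theorem image_image_symm (A : Finset ℕ) : (A.image s.symm).image s = A := by
  rw [Finset.image_image]
  simp

theorem rq_symm_rq (q : Quad) : rq s.symm (rq s q) = q := by
  unfold rq
  simp only [image_symm_image]

theorem rq_rq_symm (q : Quad) : rq s (rq s.symm q) = q := by
  unfold rq
  simp only [image_image_symm]

theorem rq_inj : Function.Injective (rq s) := fun a b h => by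
  rw [← rq_symm_rq s a, h, rq_symm_rq]

theorem rE_inj : Function.Injective (rE s) := fun a b h => by
  unfold rE at h
  rw [Prod.mk.injEq] at h
  exact Prod.ext (s.injective h.1) (s.injective h.2)

theorem rE_symm_rE (e : Ed) : rE s.symm (rE s e) = e := by
  simp [rE]

theorem rE_rE_symm (e : Ed) : rE s (rE s.symm e) = e := by
  simp [rE]

theorem rN_symm_rN (N : Finset Quad) : rN s.symm (rN s N) = N := by
  unfold rN
  rw [Finset.image_image]
  have : rq s.symm ∘ rq s = id := funext (rq_symm_rq s)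
  rw [this, Finset.image_id]

theorem rN_rN_symm (N : Finset Quad) : rN s (rN s.symm N) = N := by
  unfold rN
  rw [Finset.image_image]
  have : rq s ∘ rq s.symm = id := funext (rq_rq_symm s)
  rw [this, Finset.image_id]

theorem rZ_symm_rZ (Z : Finset Ed) : rZ s.symm (rZ s Z) = Z := by
  unfold rZ
  rw [Finset.image_image]
  have : rE s.symm ∘ rE s = id := funext (rE_symm_rE s)
  rw [this, Finset.image_id]

theorem rZ_rZ_symm (Z : Finset Ed) : rZ s (rZ s.symm Z) = Z := by
  unfold rZ
  rw [Finset.image_image]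
  have : rE s ∘ rE s.symm = id := funext (rE_rE_symm s)
  rw [this, Finset.image_id]

theorem mem_rN {N : Finset Quad} {q : Quad} : rq s q ∈ rN s N ↔ q ∈ N :=
  (rq_inj s).mem_finset_image

theorem mem_rZ {Z : Finset Ed} {e : Ed} : rE s e ∈ rZ s Z ↔ e ∈ Z :=
  (rE_inj s).mem_finset_image

theorem mem_im {A : Finset ℕ} {a : ℕ} : s a ∈ A.image s ↔ a ∈ A :=
  s.injective.mem_finset_image

theorem card_im (A : Finset ℕ) : (A.image s).card = A.card :=
  Finset.card_image_of_injective _ s.injective

theorem rN_mono {X N : Finset Quad} (h : X ⊆ N) : rN s X ⊆ rN s N := Finset.image_subset_image h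

theorem rZ_mono {X N : Finset Ed} (h : X ⊆ N) : rZ s X ⊆ rZ s N := Finset.image_subset_image h

theorem IsQ_rq {q : Quad} : IsQ (rq s q) ↔ IsQ q := by
  unfold IsQ rq
  simp only [card_im]

theorem mem_ed_rq {q : Quad} {e : Ed} : rE s e ∈ ed (rq s q) ↔ e ∈ ed q := by
  unfold ed rq rE
  simp only [Finset.mem_product, mem_im]

theorem ed_rq (q : Quad) : ed (rq s q) = rZ s (ed q) := by
  ext e
  rw [← rE_rE_symm s e, mem_ed_rq, mem_rZ]

theorem mem_EdS_rN {N : Finset Quad} {e : Ed} : rE s e ∈ EdS (rN s N) ↔ e ∈ EdS N := by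
  unfold EdS
  simp only [Finset.mem_biUnion]
  constructor
  · rintro ⟨q, hq, he⟩
    rw [← rq_rq_symm s q, mem_rN] at hq
    rw [← rq_rq_symm s q, mem_ed_rq] at he
    exact ⟨_, hq, he⟩
  · rintro ⟨q, hq, he⟩
    exact ⟨rq s q, (mem_rN s).mpr hq, (mem_ed_rq s).mpr he⟩

theorem EdS_rN (N : Finset Quad) : EdS (rN s N) = rZ s (EdS N) := by
  ext e
  rw [← rE_rE_symm s e, mem_EdS_rN, mem_rZ]

theorem dg_rN (N : Finset Quad) (e : Ed) : dg (rN s N) (rE s e) = dg N e := by
  unfold dg rN
  rw [Finset.filter_image, Finset.card_image_of_injective _ (rq_inj s)]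
  congr 1
  apply Finset.filter_congr
  intro q _
  exact mem_ed_rq s

theorem bd_rN (N : Finset Quad) : bd (rN s N) = rZ s (bd N) := by
  ext e
  rw [← rE_rE_symm s e, mem_rZ, mem_bd, mem_bd, dg_rN]

theorem Evn_rZ {Z : Finset Ed} : Evn Z → Evn (rZ s Z) := by
  rintro ⟨h1, h2⟩
  refine ⟨fun w => ?_, fun b => ?_⟩
  · have := h1 (s.symm w)
    unfold rZ
    rw [Finset.filter_image, Finset.card_image_of_injective _ (rE_inj s)]
    convert this using 3
    simp only [rE]
    constructor
    · intro h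
      rw [← h]
      simp
    · intro h
      rw [h]
      simp
  · have := h2 (s.symm b)
    unfold rZ
    rw [Finset.filter_image, Finset.card_image_of_injective _ (rE_inj s)]
    convert this using 3
    simp only [rE]
    constructor
    · intro h
      rw [← h]
      simp
    · intro h
      rw [h]
      simp

theorem wh_rN (N : Finset Quad) : wh (rN s N) = (wh N).image s := by
  unfold wh rN
  rw [Finset.image_biUnion, Finset.biUnion_image]
  rfl

theorem bl_rN (N : Finset Quad) : bl (rN s N) = (bl N).image s := by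
  unfold bl rN
  rw [Finset.image_biUnion, Finset.biUnion_image]
  rfl

theorem rZ_union (A B : Finset Ed) : rZ s (A ∪ B) = rZ s A ∪ rZ s B := Finset.image_union _ _

theorem rZ_inter (A B : Finset Ed) : rZ s (A ∩ B) = rZ s A ∩ rZ s B :=
  Finset.image_inter _ _ (rE_inj s)

theorem rZ_sdiff (A B : Finset Ed) : rZ s (A \ B) = rZ s A \ rZ s B :=
  Finset.image_sdiff _ _ (rE_inj s)

theorem rZ_symmDiff (A B : Finset Ed) : rZ s (symmDiff A B) = symmDiff (rZ s A) (rZ s B) :=
  Finset.image_symmDiff _ _ (rE_inj s)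

theorem rZ_disj {A B : Finset Ed} (h : Disjoint A B) : Disjoint (rZ s A) (rZ s B) :=
  (Finset.disjoint_image (rE_inj s)).mpr h

theorem AC_rN {E : Finset Ed} {N : Finset Quad} (h : AC E N) : AC (rZ s E) (rN s N) where
  isq := by
    intro q hq
    rw [← rq_rq_symm s q, mem_rN] at hq
    rw [← rq_rq_symm s q, IsQ_rq]
    exact h.isq _ hq
  sub := by
    rw [EdS_rN]
    exact rZ_mono s h.sub
  two := by
    intro e
    rw [← rE_rE_symm s e, dg_rN]
    exact h.two _
  inj := by
    intro X hX hb
    have h1 : rN s.symm X ⊆ N := by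
      have := rN_mono s.symm hX
      rwa [rN_symm_rN] at this
    have h2 : bd (rN s.symm X) = ∅ := by
      rw [bd_rN, hb]
      rfl
    have h3 := h.inj _ h1 h2
    rw [← rN_rN_symm s X, h3]
    rfl
  sur := by
    intro Z hZ he
    have h1 : rZ s.symm Z ⊆ E := by
      have := rZ_mono s.symm hZ
      rwa [rZ_symm_rZ] at this
    obtain ⟨X, hX, hXb⟩ := h.sur _ h1 (Evn_rZ s.symm he)
    refine ⟨rN s X, rN_mono s hX, ?_⟩
    rw [bd_rN, hXb, rZ_rZ_symm]

theorem pe_map (k : Bool) (l : List ℕ) : pe k (l.map s) = rZ s (pe k l) := by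
  induction l generalizing k with
  | nil => simp [pe_nil, rZ]
  | cons a l ih =>
    cases l with
    | nil => simp [pe_single, rZ]
    | cons b l =>
      have h1 := ih (!k)
      rw [List.map_cons, List.map_cons, pe_cons, pe_cons]
      rw [List.map_cons] at h1
      rw [h1]
      unfold rZ
      rw [Finset.image_insert]
      congr 1
      cases k <;> rfl

theorem pw_map (k : Bool) (l : List ℕ) : pw k (l.map s) = (pw k l).image s := by
  induction l generalizing k with
  | nil => simp [pw]
  | cons a l ih =>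
    rw [List.map_cons]
    unfold pw
    rw [ih]
    split_ifs
    · rw [Finset.image_insert]
    · rfl

theorem pb_map (k : Bool) (l : List ℕ) : pb k (l.map s) = (pb k l).image s := pw_map s _ _

theorem toFinset_map (l : List ℕ) : (l.map s).toFinset = l.toFinset.image s := by
  ext x
  simp

theorem im_disj {A B : Finset ℕ} (h : Disjoint A B) : Disjoint (A.image s) (B.image s) :=
  (Finset.disjoint_image s.injective).mpr h

theorem Fill_rN {k : Bool} {f c : List ℕ} {N : Finset Quad} (h : Fill k f c N) :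
    Fill k (f.map s) (c.map s) (rN s N) where
  ac := by
    rw [EdS_rN, pe_map, pe_map, ← rZ_union, ← rZ_union]
    exact AC_rN s h.ac
  bnd := by
    rw [bd_rN, h.bnd, rZ_symmDiff, pe_map, pe_map]
  dj := by
    rw [pe_map, pe_map, EdS_rN, ← rZ_inter]
    exact rZ_disj s h.dj
  nf := h.nf.map s.injective
  nc := h.nc.map s.injective
  fne := by
    intro hh
    exact h.fne (List.map_eq_nil_iff.mp hh)
  hd := by
    rw [List.head?_map, List.head?_map, h.hd]
  lt := by
    rw [List.getLast?_map, List.getLast?_map, h.lt]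
  par := by
    rw [List.length_map, List.length_map, h.par]
  col := by
    rw [wh_rN, bl_rN, pw_map, pw_map, pb_map, pb_map, ← Finset.image_union, ← Finset.image_union,
      ← Finset.image_union, ← Finset.image_union]
    exact im_disj s h.col

theorem Fill_rN_iff {k : Bool} {f c : List ℕ} {N : Finset Quad} :
    Fill k (f.map s) (c.map s) (rN s N) ↔ Fill k f c N := by
  refine ⟨fun h => ?_, Fill_rN s⟩
  have := Fill_rN s.symm h
  rwa [rN_symm_rN, List.map_map, List.map_map, show s.symm ∘ s = id from by ext; simp,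
    List.map_id, List.map_id] at this

theorem inn_rN (f c : List ℕ) (N : Finset Quad) :
    inn (f.map s) (c.map s) (rN s N) = (inn f c N).image s := by
  unfold inn
  rw [wh_rN, bl_rN, toFinset_map, toFinset_map, ← Finset.image_union, ← Finset.image_union,
    Finset.image_sdiff _ _ s.injective]

theorem qd_rN (N : Finset Quad) (b : ℕ) : qd (rN s N) (s b) = qd N b := by
  unfold qd rN
  rw [Finset.filter_image, Finset.card_image_of_injective _ (rq_inj s)]
  congr 1
  apply Finset.filter_congr
  intro q _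
  exact mem_im s

theorem Mk_rN {L M : Finset ℕ} {N : Finset Quad} (h : Mk L M N) :
    Mk (L.image s) (M.image s) (rN s N) where
  sub := Finset.image_subset_image h.sub
  blk := by
    rw [bl_rN]
    exact Finset.image_subset_image h.blk
  three := by
    intro b hb
    obtain ⟨b', hb', rfl⟩ := Finset.mem_image.mp hb
    rw [qd_rN]
    exact h.three b' hb'
  one := by
    intro q hq
    obtain ⟨q', hq', rfl⟩ := Finset.mem_image.mp hq
    have : (rq s q').2 ∩ M.image s = (q'.2 ∩ M).image s := (Finset.image_inter _ _ s.injective).symm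
    rw [this, card_im]
    exact h.one q' hq'

theorem Mk_rN_iff {L M : Finset ℕ} {N : Finset Quad} :
    Mk (L.image s) (M.image s) (rN s N) ↔ Mk L M N := by
  refine ⟨fun h => ?_, Mk_rN s⟩
  have := Mk_rN s.symm h
  rwa [rN_symm_rN, image_symm_image, image_symm_image] at this

theorem uq_rN (M : Finset ℕ) (N : Finset Quad) : uq (M.image s) (rN s N) = uq M N := by
  unfold uq rN
  rw [Finset.filter_image, Finset.card_image_of_injective _ (rq_inj s)]
  congr 1
  apply Finset.filter_congr
  intro q _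
  exact Finset.disjoint_image s.injective

/-- Action on marked complexes. -/
def rM (t : Finset Quad × Finset ℕ) : Finset Quad × Finset ℕ := (rN s t.1, t.2.image s)

theorem rM_symm_rM (t : Finset Quad × Finset ℕ) : rM s.symm (rM s t) = t := by
  unfold rM
  simp only [rN_symm_rN, image_symm_image]

theorem rM_rM_symm (t : Finset Quad × Finset ℕ) : rM s (rM s.symm t) = t := by
  unfold rM
  simp only [rN_rN_symm, image_image_symm]

def rMe : (Finset Quad × Finset ℕ) ≃ (Finset Quad × Finset ℕ) :=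
  ⟨rM s, rM s.symm, rM_symm_rM s, rM_rM_symm s⟩

theorem wcard_rM (L : Finset ℕ) (t : Finset Quad × Finset ℕ) :
    (wh (rM s t).1 ∩ L.image s).card = (wh t.1 ∩ L).card := by
  unfold rM
  rw [wh_rN, ← Finset.image_inter _ _ s.injective, card_im]

theorem wt_rM (x Y T : ℝ≥0∞) (L : Finset ℕ) (t : Finset Quad × Finset ℕ) :
    wt x Y T (L.image s) (rM s t) = wt x Y T L t := by
  unfold wt
  rw [wcard_rM]
  unfold rM
  simp only [uq_rN, card_im]

theorem mem_MFill_rM {k : Bool} {f c : List ℕ} {L : Finset ℕ} {t : Finset Quad × Finset ℕ} :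
    rM s t ∈ MFill k (f.map s) (c.map s) (L.image s) ↔ t ∈ MFill k f c L := by
  unfold MFill rM
  simp only [Set.mem_ofPred_eq, Fill_rN_iff, Mk_rN_iff, inn_rN]
  constructor
  · rintro ⟨h1, h2, h3⟩
    exact ⟨h1, Finset.image_injective s.injective h2, h3⟩
  · rintro ⟨h1, h2, h3⟩
    exact ⟨h1, by rw [h2], h3⟩

theorem FW_map (x Y T : ℝ≥0∞) (k : Bool) (f c : List ℕ) (L : Finset ℕ) :
    FW x Y T k (f.map s) (c.map s) (L.image s) = FW x Y T k f c L := by
  unfold FW
  symm
  have e : MFill k f c L ≃ MFill k (f.map s) (c.map s) (L.image s) :=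
    (rMe s).subtypeEquiv (fun t => (mem_MFill_rM s).symm)
  rw [← Equiv.tsum_eq ((rMe s).subtypeEquiv (fun t => (mem_MFill_rM s (k := k) (f := f)
    (c := c) (L := L) (t := t)).symm))]
  apply tsum_congr
  intro t
  exact (wt_rM s x Y T L t.1).symm

/-! ### Networks -/

theorem IsQ_pair_im {a b : ℕ} : ({a, b} : Finset ℕ).image s = {s a, s b} := by
  rw [Finset.image_insert, Finset.image_singleton]

theorem Net_rN {w0 w1 b0 b1 : ℕ} {N : Finset Quad} (h : Net w0 w1 b0 b1 N) :
    Net (s w0) (s w1) (s b0) (s b1) (rN s N) where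
  wne := fun hh => h.wne (s.injective hh)
  bne := fun hh => h.bne (s.injective hh)
  ac := by
    rw [EdS_rN]
    exact AC_rN s h.ac
  bnd := by
    rw [bd_rN, h.bnd, ← ed_rq]
    unfold rq
    rw [IsQ_pair_im, IsQ_pair_im]
  col := by
    rw [wh_rN, bl_rN]
    exact im_disj s h.col

theorem Net_rN_iff {w0 w1 b0 b1 : ℕ} {N : Finset Quad} :
    Net (s w0) (s w1) (s b0) (s b1) (rN s N) ↔ Net w0 w1 b0 b1 N := by
  refine ⟨fun h => ?_, Net_rN s⟩
  have := Net_rN s.symm h
  rwa [rN_symm_rN, s.symm_apply_apply, s.symm_apply_apply, s.symm_apply_apply,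
    s.symm_apply_apply] at this

theorem ninn_rN (w0 w1 b0 b1 : ℕ) (N : Finset Quad) :
    ninn (s w0) (s w1) (s b0) (s b1) (rN s N) = (ninn w0 w1 b0 b1 N).image s := by
  unfold ninn
  rw [wh_rN, bl_rN, ← Finset.image_union, Finset.image_sdiff _ _ s.injective]
  simp only [Finset.image_insert, Finset.image_singleton]

theorem mem_MNet_rM {w0 w1 b0 b1 : ℕ} {L : Finset ℕ} {t : Finset Quad × Finset ℕ} :
    rM s t ∈ MNet (s w0) (s w1) (s b0) (s b1) (L.image s) ↔ t ∈ MNet w0 w1 b0 b1 L := by
  unfold MNet rM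
  simp only [Set.mem_ofPred_eq, Net_rN_iff, Mk_rN_iff, ninn_rN]
  constructor
  · rintro ⟨h1, h2, h3⟩
    exact ⟨h1, Finset.image_injective s.injective h2, h3⟩
  · rintro ⟨h1, h2, h3⟩
    exact ⟨h1, by rw [h2], h3⟩

theorem NW_map (x Y T : ℝ≥0∞) (w0 w1 b0 b1 : ℕ) (L : Finset ℕ) :
    ∑' t : MNet (s w0) (s w1) (s b0) (s b1) (L.image s), wt x Y T (L.image s) t.1 =
      ∑' t : MNet w0 w1 b0 b1 L, wt x Y T L t.1 := by
  symm
  rw [← Equiv.tsum_eq ((rMe s).subtypeEquiv (fun t => (mem_MNet_rM s (w0 := w0) (w1 := w1)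
    (b0 := b0) (b1 := b1) (L := L) (t := t)).symm))]
  apply tsum_congr
  intro t
  exact (wt_rM s x Y T L t.1).symm

/-! ### Existence of a relabelling -/

/-- A finite injection extends to a permutation. -/
theorem exists_perm_extend (A : Finset ℕ) (g : ℕ → ℕ) (hg : Set.InjOn g A) :
    ∃ s : Equiv.Perm ℕ, ∀ a ∈ A, s a = g a := by
  classical
  obtain ⟨m, hm⟩ : ∃ m, ∀ a ∈ A ∪ A.image g, a < m := by
    refine ⟨(A ∪ A.image g).sup id + 1, fun a ha => ?_⟩
    exact Nat.lt_succ_of_le (Finset.le_sup (f := id) ha)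
  -- extend on `Fin m`
  let p : Fin m → Prop := fun i => (i : ℕ) ∈ A
  let q : Fin m → Prop := fun i => (i : ℕ) ∈ A.image g
  let e : {i // p i} ≃ {i // q i} := by
    refine Equiv.ofBijective (fun i => ⟨⟨g i.1, hm _ (Finset.mem_union_right _
      (Finset.mem_image_of_mem g i.2))⟩, Finset.mem_image_of_mem g i.2⟩) ⟨?_, ?_⟩
    · intro i j hij
      have h1 : g i.1 = g j.1 := by
        have := congrArg (fun z : {i // q i} => ((z.1 : Fin m) : ℕ)) hij
        exact this
      have h2 := hg i.2 j.2 h1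
      exact Subtype.ext (Fin.ext h2)
    · rintro ⟨i, hi⟩
      obtain ⟨a, ha, hai⟩ := Finset.mem_image.mp hi
      refine ⟨⟨⟨a, hm a (Finset.mem_union_left _ ha)⟩, ha⟩, ?_⟩
      exact Subtype.ext (Fin.ext hai)
  let σ : Equiv.Perm (Fin m) := e.extendSubtype
  let τ : Equiv.Perm ℕ := σ.extendDomain (Fin.equivSubtype (n := m))
  refine ⟨τ, fun a ha => ?_⟩
  have hlt : a < m := hm a (Finset.mem_union_left _ ha)
  have h1 : τ a = (Fin.equivSubtype (σ (Fin.equivSubtype.symm ⟨a, hlt⟩)) : ℕ) :=
    Equiv.Perm.extendDomain_apply_subtype σ Fin.equivSubtype hlt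
  rw [h1]
  have h2 : (Fin.equivSubtype.symm (⟨a, hlt⟩ : {i // i < m})) = (⟨a, hlt⟩ : Fin m) := rfl
  rw [h2]
  have h3 : σ ⟨a, hlt⟩ = (e ⟨⟨a, hlt⟩, ha⟩ : {i // q i}).1 :=
    Equiv.extendSubtype_apply_of_mem e ⟨a, hlt⟩ ha
  rw [h3]
  rfl

/-- The relabelling used for normal forms. -/
theorem exists_relabel (C : List ℕ) (L : Finset ℕ) (hC : C.Nodup) (hL : ∀ a ∈ L, a ∉ C) :
    ∃ s : Equiv.Perm ℕ, C.map s = List.range C.length ∧
      L.image s = Finset.Ico C.length (C.length + L.card) := by
  classical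
  let eL : L ≃ Fin L.card := L.equivFin
  let g : ℕ → ℕ := fun a => if h : a ∈ L then C.length + (eL ⟨a, h⟩ : ℕ) else C.idxOf a
  have hgC : ∀ a ∈ C, g a = C.idxOf a := by
    intro a ha
    have : a ∉ L := fun hh => hL a hh ha
    simp only [g, this, dif_neg, not_false_iff]
  have hgL : ∀ a (h : a ∈ L), g a = C.length + (eL ⟨a, h⟩ : ℕ) := by
    intro a h
    simp only [g, h, dif_pos]
  obtain ⟨s, hs⟩ := exists_perm_extend (C.toFinset ∪ L) g (by
    intro a ha b hb hab
    have ha' := Finset.mem_union.mp (Finset.mem_coe.mp ha)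
    have hb' := Finset.mem_union.mp (Finset.mem_coe.mp hb)
    rcases ha' with ha1 | ha1 <;> rcases hb' with hb1 | hb1
    · rw [List.mem_toFinset] at ha1 hb1
      rw [hgC a ha1, hgC b hb1] at hab
      exact (List.idxOf_inj ha1).mp hab
    · rw [List.mem_toFinset] at ha1
      rw [hgC a ha1, hgL b hb1] at hab
      have := List.idxOf_lt_length_of_mem ha1
      omega
    · rw [List.mem_toFinset] at hb1
      rw [hgL a ha1, hgC b hb1] at hab
      have := List.idxOf_lt_length_of_mem hb1
      omega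
    · rw [hgL a ha1, hgL b hb1] at hab
      have h1 : eL ⟨a, ha1⟩ = eL ⟨b, hb1⟩ := Fin.ext (by omega)
      have h2 := eL.injective h1
      exact congrArg Subtype.val h2)
  refine ⟨s, ?_, ?_⟩
  · apply List.ext_getElem
    · simp
    · intro i h1 h2
      rw [List.getElem_map, List.getElem_range]
      have hi : i < C.length := by simpa using h1
      have hmem : C[i] ∈ C := List.getElem_mem hi
      rw [hs _ (Finset.mem_union_left _ (List.mem_toFinset.mpr hmem)), hgC _ hmem]
      exact List.Nodup.idxOf_getElem hC i hi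
  · ext y
    rw [Finset.mem_image, Finset.mem_Ico]
    constructor
    · rintro ⟨a, ha, rfl⟩
      rw [hs a (Finset.mem_union_right _ ha), hgL a ha]
      have := (eL ⟨a, ha⟩).2
      omega
    · rintro ⟨h1, h2⟩
      have h3 : y - C.length < L.card := by omega
      refine ⟨(eL.symm ⟨y - C.length, h3⟩).1, (eL.symm ⟨y - C.length, h3⟩).2, ?_⟩
      rw [hs _ (Finset.mem_union_right _ (eL.symm ⟨y - C.length, h3⟩).2),
        hgL _ (eL.symm ⟨y - C.length, h3⟩).2]
      have : (⟨(eL.symm ⟨y - C.length, h3⟩).1, (eL.symm ⟨y - C.length, h3⟩).2⟩ : L) =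
        eL.symm ⟨y - C.length, h3⟩ := rfl
      rw [this, eL.apply_symm_apply]
      simp only
      omega

end K5M
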