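import Pool.Agent.Lib.K5M.DRlA

/-!
# K5M.DRlB: the total weights depend only on the statuses and the number of labels

PROOFS.
`AW_rq`: the bijection `rM s` (`rMe s`) between the pairs `(N, M)`; `mf_rN`, `cls_rN`, `wF_rM`; `Equiv.tsum_eq` for the equivalence of the
subtypes.
`AW_congr`: `flg` and the field `side` only use `c` on `q.2`.
`AW_eq_an`: `q.1 = {w, w'}`, `q.2 = {b, b'}`; `C = [w, w', b, b']` is without repetition (`IsQ`, `Disjoint q.1 q.2`); `exists_relabel` gives `s` with
`C.map s = List.range 4`, i.e. `s w = 0`, `s w' = 1`, `s b = 2`, `s b' = 3`, and `L.image s = Ico 4 (4 + L.card)`.  `rq s q = qs`; `AW_rq` and `AW_congr`: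
`c (s.symm 2) = c b = st (c b) (c b') 2`, `c (s.symm 3) = c b' = st (c b) (c b') 3`.
`an_symm`: `AW_eq_an` for `qs` with `b = 3`, `b' = 2`, `c = st i j`, `L = Ico 4 (4 + n)`.
-/

set_option autoImplicit false

namespace K5M

open Finset
open scoped ENNReal

variable {t : Ty} {x Y T : ℝ≥0∞} {q : Quad} {c c' : ℕ → ℕ} {L : Finset ℕ}

theorem AW_rq (s : Equiv.Perm ℕ) :
    AW t x Y T (rq s q) (fun b => c (s.symm b)) (L.image s) = AW t x Y T q c L := by
  unfold AW
  symm
  rw [← Equiv.tsum_eq ((rMe s).subtypeEquiv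
    (p := fun p : Finset Quad × Finset ℕ => MF q c L p.1 p.2 ∧ t.cls q p.1)
    (q := fun p : Finset Quad × Finset ℕ => MF (rq s q) (fun b => c (s.symm b)) (L.image s) p.1 p.2 ∧
      t.cls (rq s q) p.1)
    (fun p => (and_congr (mf_rN s) (cls_rN s t)).symm))]
  apply tsum_congr
  intro p
  exact (wF_rM s x Y T p.1).symm

namespace DRlBAux

theorem flg_congr (h : ∀ b ∈ q.2, c b = c' b) (M : Finset ℕ) : flg q c M = flg q c' M := by
  unfold flg
  congr 1
  apply filter_congr
  intro b hb
  rw [h b hb]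

theorem mf_imp (h : ∀ b ∈ q.2, c b = c' b) {N : Finset Quad} {M : Finset ℕ}
    (hM : MF q c L N M) : MF q c' L N M where
  part := hM.part
  inn := hM.inn
  sub := hM.sub
  blk := hM.blk
  three := hM.three
  side := by
    intro b hb hc
    rw [← h b hb] at hc ⊢
    exact hM.side b hb hc
  one := by
    intro r hr
    rw [← flg_congr h M]
    exact hM.one r hr

end DRlBAux

open DRlBAux

theorem AW_congr (h : ∀ b ∈ q.2, c b = c' b) : AW t x Y T q c L = AW t x Y T q c' L := by
  unfold AW
  rw [← Equiv.tsum_eq (Equiv.subtypeEquivRight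
    (p := fun p : Finset Quad × Finset ℕ => MF q c L p.1 p.2 ∧ t.cls q p.1)
    (q := fun p : Finset Quad × Finset ℕ => MF q c' L p.1 p.2 ∧ t.cls q p.1)
    (fun p => and_congr_left fun _ => ⟨mf_imp h, mf_imp fun b hb => (h b hb).symm⟩))]
  apply tsum_congr
  intro p
  show wF x Y T q c L p.1 = wF x Y T q c' L p.1
  unfold wF
  rw [flg_congr h]

theorem AW_eq_an (hq : IsQ q) (hd : Disjoint q.1 q.2) {b b' : ℕ} (hb : q.2 = {b, b'})
    (hL : Disjoint L (q.1 ∪ q.2)) :
    AW t x Y T q c L = an t x Y T (c b) (c b') L.card := by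
  obtain ⟨w, w', hww, hw⟩ := card_eq_two.mp hq.1
  have hbb : b ≠ b' := by
    rintro rfl
    have h2 := hq.2
    rw [hb] at h2
    simp at h2
  rw [hw, hb] at hd
  have h11 : w ≠ b := fun e => disjoint_left.mp hd (mem_insert_self _ _)
    (by rw [e]; exact mem_insert_self _ _)
  have h12 : w ≠ b' := fun e => disjoint_left.mp hd (mem_insert_self _ _)
    (by rw [e]; exact mem_insert_of_mem (mem_singleton_self _))
  have h21 : w' ≠ b := fun e => disjoint_left.mp hd (mem_insert_of_mem (mem_singleton_self _))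
    (by rw [e]; exact mem_insert_self _ _)
  have h22 : w' ≠ b' := fun e => disjoint_left.mp hd (mem_insert_of_mem (mem_singleton_self _))
    (by rw [e]; exact mem_insert_of_mem (mem_singleton_self _))
  have hC : [w, w', b, b'].Nodup := by
    simp only [List.nodup_cons, List.mem_cons, List.not_mem_nil, or_false, not_or,
      List.nodup_nil, and_true, not_false_eq_true]
    exact ⟨⟨hww, h11, h12⟩, ⟨h21, h22⟩, hbb⟩
  have hLC : ∀ a ∈ L, a ∉ [w, w', b, b'] := by
    intro a ha hm
    refine disjoint_left.mp hL ha ?_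
    rw [hw, hb]
    simp only [List.mem_cons, List.not_mem_nil, or_false] at hm
    simp only [mem_union, mem_insert, mem_singleton]
    tauto
  obtain ⟨s, hs, hsL⟩ := exists_relabel _ L hC hLC
  have hs' : [s w, s w', s b, s b'] = [0, 1, 2, 3] := hs
  simp only [List.cons.injEq, and_true] at hs'
  obtain ⟨e1, e2, e3, e4⟩ := hs'
  have hrq : rq s q = qs := by
    unfold rq qs
    rw [hw, hb, IsQ_pair_im, IsQ_pair_im, e1, e2, e3, e4]
  rw [← AW_rq s, hrq, hsL]
  have hlen : [w, w', b, b'].length = 4 := rfl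
  rw [hlen]
  unfold an
  apply AW_congr
  intro a ha
  unfold qs at ha
  have h2 : s.symm 2 = b := by rw [← e3, s.symm_apply_apply]
  have h3 : s.symm 3 = b' := by rw [← e4, s.symm_apply_apply]
  simp only [mem_insert, mem_singleton] at ha
  rcases ha with ha | ha
  · rw [ha, h2]
    rfl
  · rw [ha, h3]
    rfl

theorem an_symm (i j n : ℕ) : an t x Y T i j n = an t x Y T j i n := by
  have h := AW_eq_an (t := t) (x := x) (Y := Y) (T := T) (q := qs) (c := st i j)
    (L := Ico 4 (4 + n)) (b := 3) (b' := 2) ?_ ?_ ?_ ?_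
  · rw [Nat.card_Ico, Nat.add_sub_cancel_left] at h
    exact h
  · unfold IsQ qs
    exact ⟨rfl, rfl⟩
  · unfold qs
    decide
  · unfold qs
    decide
  · rw [disjoint_left]
    intro a ha ha'
    have h1 := (mem_Ico.mp ha).1
    unfold qs at ha'
    simp only [mem_union, mem_insert, mem_singleton] at ha'
    omega

end K5M
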