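import Pool.Agent.Lib.K5M.DHxC
import Pool.Agent.Lib.K5M.DRlB
import Pool.Agent.Lib.K5M.DFam
import Pool.Agent.Lib.K5M.A5

/-!
# K5M.DHxD: the hexagon relation

`s3 k = FW x Y T true [0,5] [0,1,2,3,4,5] (Ico 6 (6+k))`; `S x Y T 3 = ∑' k, s3 k / k!` (definition, `2 * 3 - 1 = 5`, `List.range 6`), i.e. `K5.egf s3 1`.

PROOFS.
`fw_hex`: `C = [w0,b1,w2,b3,w4,b5]` is without repetition and disjoint from `L`; `exists_relabel` gives `s` with `C.map s = List.range 6`,
`L.image s = Ico 6 (6 + L.card)`; `FW_map`.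
`hex_coef`: `L = Ico 4 (4 + n)`, `hw_sum`.  For fixed `v ∈ L` split the sums over `f1, f2`: `f1 = f2 = 3`: `hw_a`: `x` if `n = 1` (then `L = {v}`), else 0; `f1 = f2 = f ∈ L.erase v`
(`n - 1` terms), `f1 = 3, f2 = f` and `f1 = f, f2 = 3` (`n - 1` terms each): `x * an .all x Y T 0 0 (n - 2)` (`AW_eq_an`; `(L \ {v, f}).card = n - 2`); `f1 ≠ f2` in `L.erase v`
(`(n - 1) (n - 2)` terms): `x * s3 (n - 3)` (`fw_hex`).  The sum over `v` gives the factor `n`.
`hex_egf`: `egf_add`, `egf_smul`; `K5.egf_root` (with `x = 1`) twice, resp. three times: `egf (fun n => n * ((n - 1) * F (n - 2))) 1 = egf F 1` (put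
`G m = m * F (m - 1)`; `(n - 1 : ℕ)`, `n - 1 - 1 = n - 2`); `egf (fun n => if n = 1 then 1 else 0) 1 = 1`.
-/

set_option autoImplicit false

namespace K5M

open Finset
open scoped ENNReal

/-- Disks with a boundary of length 6. -/
noncomputable def s3 (x Y T : ℝ≥0∞) (k : ℕ) : ℝ≥0∞ :=
  FW x Y T true [0, 5] (List.range 6) (Ico 6 (6 + k))

theorem S_three (x Y T : ℝ≥0∞) : S x Y T 3 = K5.egf (s3 x Y T) 1 := by
  unfold S K5.egf
  refine tsum_congr fun n => ?_
  rw [one_pow, one_div, mul_comm _ (s3 x Y T n), div_eq_mul_inv]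
  rfl

theorem fw_hex (x Y T : ℝ≥0∞) {w0 b1 w2 b3 w4 b5 : ℕ} {L : Finset ℕ}
    (hd : [w0, b1, w2, b3, w4, b5].Nodup)
    (hL : Disjoint L ({w0, b1, w2, b3, w4, b5} : Finset ℕ)) :
    FW x Y T true [w0, b5] [w0, b1, w2, b3, w4, b5] L = s3 x Y T L.card := by
  have hLC : ∀ a ∈ L, a ∉ [w0, b1, w2, b3, w4, b5] := by
    intro a ha hm
    refine disjoint_left.mp hL ha ?_
    simp only [List.mem_cons, List.not_mem_nil, or_false] at hm
    simp only [mem_insert, mem_singleton]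
    exact hm
  obtain ⟨s, hs, hsL⟩ := exists_relabel _ L hd hLC
  have hlen : [w0, b1, w2, b3, w4, b5].length = 6 := rfl
  rw [hlen] at hs hsL
  have hs' : [s w0, s b1, s w2, s b3, s w4, s b5] = [0, 1, 2, 3, 4, 5] := hs
  simp only [List.cons.injEq, and_true] at hs'
  obtain ⟨e0, -, -, -, -, e5⟩ := hs'
  have h := FW_map s x Y T true [w0, b5] [w0, b1, w2, b3, w4, b5] L
  have h2 : [w0, b5].map s = [0, 5] := by
    rw [List.map_cons, List.map_cons, List.map_nil, e0, e5]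
  rw [h2, hs, hsL] at h
  exact h.symm

theorem hex_coef (x Y T : ℝ≥0∞) (n : ℕ) : an .all x Y T 2 0 n =
    x * ((if n = 1 then 1 else 0) +
      3 * ((n : ℝ≥0∞) * (((n - 1 : ℕ) : ℝ≥0∞) * an .all x Y T 0 0 (n - 2))) +
      (n : ℝ≥0∞) * (((n - 1 : ℕ) : ℝ≥0∞) * (((n - 2 : ℕ) : ℝ≥0∞) * s3 x Y T (n - 3)))) := by
  set L : Finset ℕ := Ico 4 (4 + n) with hLdef
  have hcard : L.card = n := by
    rw [hLdef, Nat.card_Ico, Nat.add_sub_cancel_left]
  have hge : ∀ a ∈ L, 4 ≤ a := fun a ha => (mem_Ico.mp ha).1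
  have hL : Disjoint L ({0, 1, 2, 3} : Finset ℕ) := by
    rw [disjoint_left]
    intro a ha ha'
    have := hge a ha
    simp only [mem_insert, mem_singleton] at ha'
    omega
  have hA : ∀ (w w' b b' : ℕ) (L' : Finset ℕ), w ≠ w' → b ≠ b' → w ≠ b → w ≠ b' → w' ≠ b →
      w' ≠ b' → Disjoint L' ({w, w', b, b'} : Finset ℕ) →
      AW .all x Y T (({w, w'}, {b, b'}) : Quad) (fun _ => 0) L' =
        an .all x Y T 0 0 L'.card := by
    intro w w' b b' L' h1 h2 h3 h4 h5 h6 h7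
    refine AW_eq_an (b := b) (b' := b') ?_ ?_ rfl ?_
    · exact ⟨card_pair h1, card_pair h2⟩
    · rw [disjoint_left]
      intro a ha ha'
      simp only [mem_insert, mem_singleton] at ha ha'
      rcases ha with rfl | rfl <;> rcases ha' with ha' | ha' <;>
        first | exact h3 ha' | exact h4 ha' | exact h5 ha' | exact h6 ha'
    · rw [disjoint_left] at h7 ⊢
      intro a ha ha'
      refine h7 ha ?_
      simp only [mem_union, mem_insert, mem_singleton] at ha' ⊢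
      tauto
  have h33 : ∀ v ∈ L, HW x Y T L v 3 3 = x * (if n = 1 then 1 else 0) := by
    intro v hv
    rw [hw_a hL hv]
    by_cases h1 : n = 1
    · have h2 : L = {v} := by
        obtain ⟨a, ha⟩ := card_eq_one.mp (hcard.trans h1)
        rw [ha] at hv ⊢
        rw [mem_singleton.mp hv]
      rw [if_pos h1, if_pos h2, mul_one]
    · have h2 : L ≠ {v} := by
        intro h2
        apply h1
        rw [← hcard, h2, card_singleton]
      rw [if_neg h1, if_neg h2, mul_zero]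
  have hc2 : ∀ v ∈ L, ∀ f ∈ L, v ≠ f → (L \ {v, f}).card = n - 2 := by
    intro v hv f hf hvf
    rw [card_sdiff_of_subset (insert_subset hv (singleton_subset_iff.mpr hf)), hcard,
      card_pair hvf]
  have hc3 : ∀ v ∈ L, ∀ f1 ∈ L, ∀ f2 ∈ L, v ≠ f1 → v ≠ f2 → f1 ≠ f2 →
      (L \ {v, f1, f2}).card = n - 3 := by
    intro v hv f1 h1 f2 h2 hv1 hv2 h12
    rw [card_sdiff_of_subset (insert_subset hv (insert_subset h1
      (singleton_subset_iff.mpr h2))), hcard]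
    congr 1
    rw [card_eq_three]
    exact ⟨v, f1, f2, hv1, hv2, h12, rfl⟩
  have hff : ∀ v ∈ L, ∀ f ∈ L, v ≠ f →
      HW x Y T L v f f = x * an .all x Y T 0 0 (n - 2) := by
    intro v hv f hf hvf
    have := hge v hv
    have := hge f hf
    rw [hw_b hL hv hf hvf, hA 0 1 f 3 _ (by omega) (by omega) (by omega) (by omega) (by omega)
      (by omega) ?_, hc2 v hv f hf hvf]
    rw [disjoint_left]
    intro a ha ha'
    rw [mem_sdiff] at ha
    have := hge a ha.1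
    simp only [mem_insert, mem_singleton] at ha ha'
    omega
  have h3f : ∀ v ∈ L, ∀ f ∈ L, v ≠ f →
      HW x Y T L v 3 f = x * an .all x Y T 0 0 (n - 2) := by
    intro v hv f hf hvf
    have := hge v hv
    have := hge f hf
    rw [hw_c hL hv hf hvf, hA v 1 f 3 _ (by omega) (by omega) (by omega) (by omega) (by omega)
      (by omega) ?_, hc2 v hv f hf hvf]
    rw [disjoint_left]
    intro a ha ha'
    rw [mem_sdiff] at ha
    have := hge a ha.1
    simp only [mem_insert, mem_singleton] at ha ha'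
    omega
  have hf3 : ∀ v ∈ L, ∀ f ∈ L, v ≠ f →
      HW x Y T L v f 3 = x * an .all x Y T 0 0 (n - 2) := by
    intro v hv f hf hvf
    have := hge v hv
    have := hge f hf
    rw [hw_d hL hv hf hvf, hA 0 v f 3 _ (by omega) (by omega) (by omega) (by omega) (by omega)
      (by omega) ?_, hc2 v hv f hf hvf]
    rw [disjoint_left]
    intro a ha ha'
    rw [mem_sdiff] at ha
    have := hge a ha.1
    simp only [mem_insert, mem_singleton] at ha ha'
    omega
  have h12 : ∀ v ∈ L, ∀ f1 ∈ L, ∀ f2 ∈ L, v ≠ f1 → v ≠ f2 → f1 ≠ f2 →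
      HW x Y T L v f1 f2 = x * s3 x Y T (n - 3) := by
    intro v hv f1 h1 f2 h2 hv1 hv2 h12
    have := hge v hv
    have := hge f1 h1
    have := hge f2 h2
    rw [hw_e hL hv h1 h2 hv1 hv2 h12, fw_hex x Y T ?_ ?_, hc3 v hv f1 h1 f2 h2 hv1 hv2 h12]
    · simp only [List.nodup_cons, List.mem_cons, List.not_mem_nil, or_false, not_or,
        List.nodup_nil, and_true, not_false_eq_true]
      omega
    · rw [disjoint_left]
      intro a ha ha'
      rw [mem_sdiff] at ha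
      have := hge a ha.1
      simp only [mem_insert, mem_singleton] at ha ha'
      omega
  have hv : ∀ v ∈ L, ∑ f1 ∈ insert 3 (L.erase v), ∑ f2 ∈ insert 3 (L.erase v),
      HW x Y T L v f1 f2 = x * ((if n = 1 then 1 else 0) +
        3 * (((n - 1 : ℕ) : ℝ≥0∞) * an .all x Y T 0 0 (n - 2)) +
        ((n - 1 : ℕ) : ℝ≥0∞) * (((n - 2 : ℕ) : ℝ≥0∞) * s3 x Y T (n - 3))) := by
    intro v hv
    have h3 : 3 ∉ L.erase v := by
      intro h
      have := hge 3 (mem_of_mem_erase h)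
      omega
    have hce : (L.erase v).card = n - 1 := by rw [card_erase_of_mem hv, hcard]
    have hin : ∀ f ∈ L.erase v, f ∈ L ∧ v ≠ f := fun f hf =>
      ⟨mem_of_mem_erase hf, (ne_of_mem_erase hf).symm⟩
    have s1 : ∑ f2 ∈ L.erase v, HW x Y T L v 3 f2 =
        ((n - 1 : ℕ) : ℝ≥0∞) * (x * an .all x Y T 0 0 (n - 2)) := by
      rw [sum_congr rfl fun f hf => h3f v hv f (hin f hf).1 (hin f hf).2, sum_const, hce,
        nsmul_eq_mul]
    have s2 : ∀ f1 ∈ L.erase v, ∑ f2 ∈ L.erase v, HW x Y T L v f1 f2 =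
        x * an .all x Y T 0 0 (n - 2) +
          ((n - 2 : ℕ) : ℝ≥0∞) * (x * s3 x Y T (n - 3)) := by
      intro f1 hf1
      rw [← add_sum_erase _ _ hf1, hff v hv f1 (hin f1 hf1).1 (hin f1 hf1).2]
      congr 1
      rw [sum_congr rfl fun f hf => h12 v hv f1 (hin f1 hf1).1 f (hin f (mem_of_mem_erase hf)).1
        (hin f1 hf1).2 (hin f (mem_of_mem_erase hf)).2 (ne_of_mem_erase hf).symm, sum_const,
        card_erase_of_mem hf1, hce, nsmul_eq_mul, Nat.sub_sub]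
    rw [sum_insert h3, sum_insert h3, h33 v hv, s1]
    have s3' : ∑ f1 ∈ L.erase v, ∑ f2 ∈ insert 3 (L.erase v), HW x Y T L v f1 f2 =
        ((n - 1 : ℕ) : ℝ≥0∞) * (x * an .all x Y T 0 0 (n - 2) +
          (x * an .all x Y T 0 0 (n - 2) +
          ((n - 2 : ℕ) : ℝ≥0∞) * (x * s3 x Y T (n - 3)))) := by
      rw [sum_congr rfl fun f1 hf1 => (by
        rw [sum_insert h3, hf3 v hv f1 (hin f1 hf1).1 (hin f1 hf1).2, s2 f1 hf1] :
        ∑ f2 ∈ insert 3 (L.erase v), HW x Y T L v f1 f2 = x * an .all x Y T 0 0 (n - 2) +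
          (x * an .all x Y T 0 0 (n - 2) +
          ((n - 2 : ℕ) : ℝ≥0∞) * (x * s3 x Y T (n - 3)))), sum_const, hce, nsmul_eq_mul]
    rw [s3']
    ring
  have htot : an .all x Y T 2 0 n = AW .all x Y T qs (st 2 0) L := rfl
  rw [htot, hw_sum hL, sum_congr rfl hv, sum_const, hcard, nsmul_eq_mul]
  have h1 : (n : ℝ≥0∞) * (if n = 1 then 1 else 0) = if n = 1 then 1 else 0 := by
    by_cases h : n = 1
    · rw [if_pos h, h, Nat.cast_one, mul_one]
    · rw [if_neg h, mul_zero]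
  calc (n : ℝ≥0∞) * (x * ((if n = 1 then 1 else 0) +
        3 * (((n - 1 : ℕ) : ℝ≥0∞) * an .all x Y T 0 0 (n - 2)) +
        ((n - 1 : ℕ) : ℝ≥0∞) * (((n - 2 : ℕ) : ℝ≥0∞) * s3 x Y T (n - 3))))
      = x * ((n : ℝ≥0∞) * (if n = 1 then 1 else 0) +
      3 * ((n : ℝ≥0∞) * (((n - 1 : ℕ) : ℝ≥0∞) * an .all x Y T 0 0 (n - 2))) +
      (n : ℝ≥0∞) * (((n - 1 : ℕ) : ℝ≥0∞) * (((n - 2 : ℕ) : ℝ≥0∞) * s3 x Y T (n - 3)))) := by
        ring
    _ = _ := by rw [h1]

theorem hex_egf (x Y T : ℝ≥0∞) : K5.egf (an .all x Y T 2 0) 1 =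
    x * (1 + 3 * K5.egf (an .all x Y T 0 0) 1 + S x Y T 3) := by
  have h1 : K5.egf (fun n => if n = 1 then 1 else 0) 1 = 1 := by
    unfold K5.egf
    rw [tsum_eq_single 1]
    · simp
    · intro n hn
      simp [hn]
  have h2 : ∀ F : ℕ → ℝ≥0∞,
      K5.egf (fun n => (n : ℝ≥0∞) * (((n - 1 : ℕ) : ℝ≥0∞) * F (n - 2))) 1 = K5.egf F 1 := by
    intro F
    have h := K5.egf_root (fun m => (m : ℝ≥0∞) * F (m - 1)) 1
    rw [K5.egf_root F 1, one_mul, one_mul] at h
    exact h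
  have h3 : ∀ F : ℕ → ℝ≥0∞,
      K5.egf (fun n => (n : ℝ≥0∞) * (((n - 1 : ℕ) : ℝ≥0∞) * (((n - 2 : ℕ) : ℝ≥0∞) *
        F (n - 3)))) 1 = K5.egf F 1 := by
    intro F
    have h := h2 (fun m => (m : ℝ≥0∞) * F (m - 1))
    rw [K5.egf_root F 1, one_mul] at h
    exact h
  have h0 : an .all x Y T 2 0 = fun n : ℕ => x * (((if n = 1 then 1 else 0) +
      3 * ((n : ℝ≥0∞) * (((n - 1 : ℕ) : ℝ≥0∞) * an .all x Y T 0 0 (n - 2)))) +
      (n : ℝ≥0∞) * (((n - 1 : ℕ) : ℝ≥0∞) * (((n - 2 : ℕ) : ℝ≥0∞) * s3 x Y T (n - 3)))) := by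
    funext n
    exact hex_coef x Y T n
  rw [h0, egf_smul, egf_add, egf_add, h1, egf_smul, h2, h3, S_three]

end K5M
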