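import Pool.Agent.Lib.K5M.SPrim

/-!
# K5M.SNs: induced non-separating cycles are faces

`C ⊆ Q` (a set of edges of the graph `gr Q`) is nonempty, even at every white vertex, minimal with these properties, induced, and its complement is connected. Then `C` is the set of the quads at some black `b`.

PROOF. By `Sph.primal` there is `S` with `q ∈ C ↔ |q.2 ∩ S| = 1` for `q ∈ Q`. Let `V = wh C`, `R = wh Q \ V`.
(1) For `w ∈ R` no quad at `w` is in `C`, so each quad at `w` has both blacks in `S` or none. Let `Y = {q ∈ atw Q w : q.2 ⊆ S}`. For every `b` both or none of the two quads at `(w, b)` are in `Y` (all quads at `(w, b)` have `b`; if `b ∈ S` they are in `Y`, otherwise not), so no edge of `bd Y` is at `w`, and by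
`lw` all quads at `w` are in `Y` or none: all blacks at `w` are in `S` (call `w` inner) or none is (call `w` outer).
(2) If `w, w' ∈ R` are adjacent in `gr Q` by a quad `q`, the blacks of `q` are at both, so both are inner or both outer. By the connectedness of `R` (`hcon` with `P` = the inner vertices of `R`) all vertices of `R` are inner or all are outer (or `R` is empty).
(3) Choice of a black `b ∈ bl Q` such that no vertex of `R` is in a quad at `b`: `C` is nonempty, take `q ∈ C`, exactly one of its blacks is in `S`. If all vertices of `R` are outer let `b` be the black of `q` in `S`; if all are inner let `b` be the black of `q` not in `S`. In both cases a quad at `b` has no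
white in `R`.
(4) `atb Q b ⊆ C`: a quad at `b` has both whites in `V = wh C`, so it is in `C` (`hind`). `atb Q b` is nonempty and even at every white (`dg Q (w, b)` is `0` or `2`), so it is `C` by minimality.
PROOF of `Sph.atb_min`. First part: `atw (atb Q b) w` has `dg Q (w, b)` elements (`0` or `2`). Second part: let `C' ⊆ atb Q b` be even and nonempty; for an edge `(w, b)` the quads of `C'` at `w` are those of its two quads that are in `C'`, so both or none; no edge of
`bd C'` is at `b`, and by `lb` all quads at `b` are in `C'`.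
-/

set_option autoImplicit false

namespace K5M

open Finset

namespace SNsAux

theorem mem_ed {w b : ℕ} {q : Quad} : (w, b) ∈ ed q ↔ w ∈ q.1 ∧ b ∈ q.2 := by
  unfold ed
  exact Finset.mem_product

theorem mem_bd {X : Finset Quad} {e : Ed} (h : e ∈ bd X) : Odd (dg X e) :=
  (Finset.mem_filter.1 h).2

theorem exists_of_odd {X : Finset Quad} {e : Ed} (h : Odd (dg X e)) : ∃ q ∈ X, e ∈ ed q := by
  have h1 : (X.filter (fun q => e ∈ ed q)).Nonempty := by
    rw [← Finset.card_pos]
    exact h.pos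
  obtain ⟨q, hq⟩ := h1
  exact ⟨q, (Finset.mem_filter.1 hq).1, (Finset.mem_filter.1 hq).2⟩

theorem mem_EdS {Q : Finset Quad} {q : Quad} (hq : q ∈ Q) {e : Ed} (he : e ∈ ed q) :
    e ∈ EdS Q := Finset.mem_biUnion.2 ⟨q, hq, he⟩

/-- an edge whose two quads are both in `Y` or both outside is not in the boundary -/
theorem not_mem_bd {Q Y : Finset Quad} (h : Sph Q) (hY : Y ⊆ Q) {w b : ℕ}
    (hh : ∀ q ∈ Q, ∀ q' ∈ Q, w ∈ q.1 → b ∈ q.2 → w ∈ q'.1 → b ∈ q'.2 → q ∈ Y → q' ∈ Y) :
    (w, b) ∉ bd Y := by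
  intro hm
  have hodd := mem_bd hm
  obtain ⟨q, hq, he⟩ := exists_of_odd hodd
  have he' := mem_ed.1 he
  have h1 : dg Y (w, b) = dg Q (w, b) := by
    unfold dg
    congr 1
    ext r
    rw [Finset.mem_filter, Finset.mem_filter]
    constructor
    · rintro ⟨h1, h2⟩
      exact ⟨hY h1, h2⟩
    · rintro ⟨h1, h2⟩
      have h3 := mem_ed.1 h2
      exact ⟨hh q (hY hq) r h1 he'.1 he'.2 h3.1 h3.2 hq, h2⟩
  rw [h1, h.two _ (mem_EdS (hY hq) he)] at hodd
  exact absurd hodd (by decide)

theorem sub_of_ne {S q : Finset ℕ} (hq : q.card = 2) (hne : (q ∩ S).card ≠ 1) {b : ℕ}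
    (hb : b ∈ q) (hbS : b ∈ S) : q ⊆ S := by
  have h1 : 0 < (q ∩ S).card := Finset.card_pos.2 ⟨b, Finset.mem_inter.2 ⟨hb, hbS⟩⟩
  have h2 : (q ∩ S).card ≤ q.card := Finset.card_le_card Finset.inter_subset_left
  have h3 : q ∩ S = q := Finset.eq_of_subset_of_card_le Finset.inter_subset_left (by omega)
  intro x hx
  rw [← h3] at hx
  exact (Finset.mem_inter.1 hx).2

end SNsAux

open SNsAux in
theorem SNsAux.atb_min_aux {Q : Finset Quad} (h : Sph Q) {b : ℕ} :
    (∀ w, Even (atw (atb Q b) w).card) ∧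
    ∀ C' ⊆ atb Q b, C'.Nonempty → (∀ w, Even (atw C' w).card) → C' = atb Q b := by
  constructor
  · intro w
    have h1 : (atw (atb Q b) w).card = dg Q (w, b) := by
      unfold dg
      congr 1
      ext r
      unfold atw atb
      rw [Finset.mem_filter, Finset.mem_filter, Finset.mem_filter, mem_ed]
      tauto
    rw [h1]
    by_cases he : (w, b) ∈ EdS Q
    · rw [h.two _ he]
      exact even_two
    · have h2 : dg Q (w, b) = 0 := by
        unfold dg
        rw [Finset.card_eq_zero, Finset.filter_eq_empty_iff]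
        intro q hq hqe
        exact he (mem_EdS hq hqe)
      rw [h2]
      exact Even.zero
  · intro C' hC' hne hev
    have hQ : C' ⊆ Q := hC'.trans (Finset.filter_subset _ _)
    have hb : ∀ q ∈ C', b ∈ q.2 := fun q hq => (Finset.mem_filter.1 (hC' hq)).2
    have h1 : ∀ w, (w, b) ∉ bd C' := by
      intro w hm
      have h2 : (atw C' w).card = dg C' (w, b) := by
        unfold dg
        congr 1
        ext r
        unfold atw
        rw [Finset.mem_filter, Finset.mem_filter, mem_ed]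
        constructor
        · rintro ⟨h3, h4⟩
          exact ⟨h3, h4, hb r h3⟩
        · rintro ⟨h3, h4, _⟩
          exact ⟨h3, h4⟩
      have h3 := mem_bd hm
      rw [← h2] at h3
      exact (Nat.not_even_iff_odd.2 h3) (hev w)
    rcases h.lb C' hQ b h1 with h4 | h4
    · refine Finset.Subset.antisymm hC' fun q hq => ?_
      exact h4 q (Finset.mem_filter.1 hq).1 (Finset.mem_filter.1 hq).2
    · exfalso
      obtain ⟨q, hq⟩ := hne
      exact h4 q (hQ hq) (hb q hq) hq

open SNsAux in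
theorem Sph.face_of {Q : Finset Quad} (h : Sph Q) (C : Finset Quad) (hC : C ⊆ Q)
    (hne : C.Nonempty) (hev : ∀ w, Even (atw C w).card)
    (hmin : ∀ C' ⊆ C, C'.Nonempty → (∀ w, Even (atw C' w).card) → C' = C)
    (hind : ∀ q ∈ Q, q.1 ⊆ wh C → q ∈ C)
    (hcon : ∀ P ⊆ wh Q \ wh C, P.Nonempty → P ≠ wh Q \ wh C →
      ∃ u ∈ P, ∃ v ∈ wh Q \ wh C, v ∉ P ∧ (gr Q).Adj u v) :
    ∃ b ∈ bl Q, C = atb Q b := by
  classical
  obtain ⟨S, hS⟩ := h.primal C hC hev
  have hnC : ∀ w ∈ wh Q \ wh C, ∀ q ∈ Q, w ∈ q.1 → (q.2 ∩ S).card ≠ 1 := by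
    intro w hw q hq hwq hc
    exact (Finset.mem_sdiff.1 hw).2 (Finset.mem_biUnion.2 ⟨q, (hS q hq).2 hc, hwq⟩)
  -- inner or outer
  have hio : ∀ w ∈ wh Q \ wh C, (∀ q ∈ Q, w ∈ q.1 → q.2 ⊆ S) ∨
      (∀ q ∈ Q, w ∈ q.1 → ∀ b ∈ q.2, b ∉ S) := by
    intro w hw
    have hY : Q.filter (fun q => w ∈ q.1 ∧ q.2 ⊆ S) ⊆ Q := Finset.filter_subset _ _
    rcases h.lw _ hY w (fun b => not_mem_bd h hY (by
      intro q hq q' hq' hwq hbq hwq' hbq' hqY
      have h1 := (Finset.mem_filter.1 hqY).2.2
      exact Finset.mem_filter.2 ⟨hq', hwq', sub_of_ne (h.isq q' hq').2 (hnC w hw q' hq' hwq')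
        hbq' (h1 hbq)⟩)) with h1 | h1
    · left
      intro q hq hwq
      exact (Finset.mem_filter.1 (h1 q hq hwq)).2.2
    · right
      intro q hq hwq b hb hbS
      exact h1 q hq hwq (Finset.mem_filter.2 ⟨hq, hwq,
        sub_of_ne (h.isq q hq).2 (hnC w hw q hq hwq) hb hbS⟩)
  -- all vertices outside are inner, or all are outer
  have hall : (∀ w ∈ wh Q \ wh C, ∀ q ∈ Q, w ∈ q.1 → q.2 ⊆ S) ∨
      (∀ w ∈ wh Q \ wh C, ∀ q ∈ Q, w ∈ q.1 → ∀ b ∈ q.2, b ∉ S) := by
    by_cases hP1 : ((wh Q \ wh C).filter (fun w => ∀ q ∈ Q, w ∈ q.1 → q.2 ⊆ S)).Nonempty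
    · by_cases hP2 : (wh Q \ wh C).filter (fun w => ∀ q ∈ Q, w ∈ q.1 → q.2 ⊆ S) = wh Q \ wh C
      · left
        intro w hw
        rw [← hP2] at hw
        exact (Finset.mem_filter.1 hw).2
      · exfalso
        obtain ⟨u, hu, v, hv, hvP, huv⟩ := hcon _ (Finset.filter_subset _ _) hP1 hP2
        obtain ⟨_, q, hq, hquv⟩ := huv
        have hu1 : u ∈ q.1 := by rw [hquv]; exact Finset.mem_insert_self _ _
        have hv1 : v ∈ q.1 := by
          rw [hquv]; exact Finset.mem_insert_of_mem (Finset.mem_singleton_self _)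
        have h1 := (Finset.mem_filter.1 hu).2 q hq hu1
        rcases hio v hv with h2 | h2
        · exact hvP (Finset.mem_filter.2 ⟨hv, h2⟩)
        · have h3 : q.2.Nonempty := by
            rw [← Finset.card_pos, (h.isq q hq).2]
            exact Nat.succ_pos 1
          obtain ⟨b, hb⟩ := h3
          exact h2 q hq hv1 b hb (h1 hb)
    · right
      intro w hw
      rcases hio w hw with h2 | h2
      · exact absurd ⟨w, Finset.mem_filter.2 ⟨hw, h2⟩⟩ hP1
      · exact h2
  obtain ⟨q, hqC⟩ := hne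
  have hqQ := hC hqC
  have hq1 := (hS q hqQ).1 hqC
  have hq2 := (h.isq q hqQ).2
  have hb : ∃ b ∈ q.2, ∀ r ∈ Q, b ∈ r.2 → ∀ w ∈ r.1, w ∉ wh Q \ wh C := by
    rcases hall with hin | hout
    · have h1 : (q.2 \ S).Nonempty := by
        rw [← Finset.card_pos]
        have := Finset.card_inter_add_card_sdiff q.2 S
        omega
      obtain ⟨b, hb⟩ := h1
      have hb' := Finset.mem_sdiff.1 hb
      exact ⟨b, hb'.1, fun r hr hbr w hwr hw => hb'.2 (hin w hw r hr hwr hbr)⟩
    · have h1 : (q.2 ∩ S).Nonempty := by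
        rw [← Finset.card_pos]
        omega
      obtain ⟨b, hb⟩ := h1
      have hb' := Finset.mem_inter.1 hb
      exact ⟨b, hb'.1, fun r hr hbr w hwr hw => hout w hw r hr hwr b hbr hb'.2⟩
  obtain ⟨b, hbq, hbR⟩ := hb
  refine ⟨b, Finset.mem_biUnion.2 ⟨q, hqQ, hbq⟩, ?_⟩
  have hsub : atb Q b ⊆ C := by
    intro r hr
    have hr' := Finset.mem_filter.1 hr
    refine hind r hr'.1 fun w hw => ?_
    by_contra hwC
    exact hbR r hr'.1 hr'.2 w hw
      (Finset.mem_sdiff.2 ⟨Finset.mem_biUnion.2 ⟨r, hr'.1, hw⟩, hwC⟩)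
  exact (hmin _ hsub ⟨q, Finset.mem_filter.2 ⟨hqQ, hbq⟩⟩ (SNsAux.atb_min_aux h).1).symm

/-- The face `b` is a minimal even set. -/
theorem Sph.atb_min {Q : Finset Quad} (h : Sph Q) {b : ℕ} (hb : b ∈ bl Q) :
    (∀ w, Even (atw (atb Q b) w).card) ∧
    ∀ C' ⊆ atb Q b, C'.Nonempty → (∀ w, Even (atw C' w).card) → C' = atb Q b := by
  have _ := hb
  exact SNsAux.atb_min_aux h

end K5M
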