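import Pool.Agent.Lib.K5M.SFace
import Pool.Agent.Lib.K5M.SNs

/-!
# K5M.STri: the blacks with three quads are the non-separating triangles

PROOFS.
`Irr.fv_card`: `|fv Q b| = |atb Q b|`: each `w ∈ fv Q b` is in exactly two quads at `b` (`dg Q (w, b) = 2`), each quad at `b` has exactly two whites, both in `fv Q b`: double counting `2 |fv Q b| = 2 |atb Q b|`.
`Irr.nt_of_tri`: `|fv Q b| = 3`; the three quads at `b` have three different `.1` (`fst_inj`), which are two-element subsets of `fv Q b`, so all of them: `clq (fv Q b) ≤ gr Q`. `Conn (gr Q) (wh Q \ fv Q b)`: nonempty since `4 ≤ |wh Q|` (`Irr.three`), and `Irr.nonsep`.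
`Irr.tri_of_nt`: `X` a non-separating triangle; `C = {q ∈ Q : q.1 ⊆ X}` has three elements (one for each pair, `fst_inj`), `wh C = X`; it is nonempty, every vertex of `X` is in two of the quads, every nonempty even subset is everything (a triangle), induced by definition, `hcon` from `Conn (gr Q) (wh Q \ X)`.
`Sph.face_of` gives `b` with `C = atb Q b`; `fv Q b = wh C = X`.
`Irr.fv_inj`: `atb Q b = {q ∈ Q : q.1 ⊆ fv Q b}` by `Irr.mem_snd`, so `fv Q b = fv Q b'` gives `atb Q b = atb Q b'`; if `b ≠ b'` the two quads at an edge `(w, b)` have both `.2 = {b, b'}`: contradiction to `snd_inj`.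
-/

set_option autoImplicit false

namespace K5M

open Finset

namespace STriAux

theorem mem_atb {Q : Finset Quad} {b : ℕ} {q : Quad} : q ∈ atb Q b ↔ q ∈ Q ∧ b ∈ q.2 := by
  unfold atb
  exact Finset.mem_filter

theorem mem_atw {Q : Finset Quad} {w : ℕ} {q : Quad} : q ∈ atw Q w ↔ q ∈ Q ∧ w ∈ q.1 := by
  unfold atw
  exact Finset.mem_filter

theorem eq_pair {s : Finset ℕ} (hs : s.card = 2) {a b : ℕ} (hab : a ≠ b) (ha : a ∈ s) (hb : b ∈ s) :
    s = {a, b} := by
  symm
  apply Finset.eq_of_subset_of_card_le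
  · intro x hx
    rw [Finset.mem_insert, Finset.mem_singleton] at hx
    rcases hx with rfl | rfl
    · exact ha
    · exact hb
  · rw [hs, Finset.card_pair hab]

theorem card_at {Q : Finset Quad} (h : Sph Q) {w b : ℕ} (hw : w ∈ fv Q b) :
    ((atb Q b).filter (fun q => w ∈ q.1)).card = 2 := by
  have h1 := h.two (w, b) (SFaceAux.fv_edge hw)
  unfold dg at h1
  rw [← h1]
  congr 1
  ext q
  rw [Finset.mem_filter, Finset.mem_filter, mem_atb, SNsAux.mem_ed]
  tauto

/-- The quads inside `X`. -/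
def CX (Q : Finset Quad) (X : Finset ℕ) : Finset Quad := Q.filter (fun q => q.1 ⊆ X)

theorem mem_CX {Q : Finset Quad} {X : Finset ℕ} {q : Quad} : q ∈ CX Q X ↔ q ∈ Q ∧ q.1 ⊆ X := by
  unfold CX
  exact Finset.mem_filter

theorem two_at {Q : Finset Quad} (h : Irr Q) {X : Finset ℕ} (h3 : X.card = 3)
    (hc : K5.clq X ≤ gr Q) {w : ℕ} (hw : w ∈ X) : (atw (CX Q X) w).card = 2 := by
  have h4 : (X.erase w).card = 2 := by rw [Finset.card_erase_of_mem hw, h3]
  obtain ⟨y, z, hyz, he⟩ := Finset.card_eq_two.1 h4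
  have hy : y ∈ X.erase w := by rw [he]; exact Finset.mem_insert_self _ _
  have hz : z ∈ X.erase w := by rw [he]; exact Finset.mem_insert_of_mem (Finset.mem_singleton_self _)
  have hy' := Finset.mem_erase.1 hy
  have hz' := Finset.mem_erase.1 hz
  have gy : (gr Q).Adj w y := hc (show (K5.clq X).Adj w y from ⟨hy'.1.symm, hw, hy'.2⟩)
  have gz : (gr Q).Adj w z := hc (show (K5.clq X).Adj w z from ⟨hz'.1.symm, hw, hz'.2⟩)
  obtain ⟨_, q1, hq1, e1⟩ := gy
  obtain ⟨_, q2, hq2, e2⟩ := gz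
  have hne : q1 ≠ q2 := by
    intro heq
    have h5 : y ∈ q2.1 := by
      rw [← heq, e1]
      exact Finset.mem_insert_of_mem (Finset.mem_singleton_self _)
    rw [e2, Finset.mem_insert, Finset.mem_singleton] at h5
    rcases h5 with h5 | h5
    · exact hy'.1 h5
    · exact hyz h5
  have h6 : atw (CX Q X) w = {q1, q2} := by
    ext q
    rw [mem_atw, mem_CX, Finset.mem_insert, Finset.mem_singleton]
    constructor
    · rintro ⟨⟨hq, hqX⟩, hwq⟩
      obtain ⟨v, hv, e⟩ := SThreeAux.other h.isq hq hwq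
      have hvX : v ∈ X.erase w := by
        refine Finset.mem_erase.2 ⟨hv, hqX ?_⟩
        rw [e]
        exact Finset.mem_insert_of_mem (Finset.mem_singleton_self _)
      rw [he, Finset.mem_insert, Finset.mem_singleton] at hvX
      rcases hvX with rfl | rfl
      · exact Or.inl (h.fst_inj hq hq1 (e.trans e1.symm))
      · exact Or.inr (h.fst_inj hq hq2 (e.trans e2.symm))
    · have hsub : ∀ v ∈ X, ({w, v} : Finset ℕ) ⊆ X := by
        intro v hv x hx
        rw [Finset.mem_insert, Finset.mem_singleton] at hx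
        rcases hx with rfl | rfl
        · exact hw
        · exact hv
      rintro (rfl | rfl)
      · refine ⟨⟨hq1, ?_⟩, ?_⟩
        · rw [e1]; exact hsub y hy'.2
        · rw [e1]; exact Finset.mem_insert_self _ _
      · refine ⟨⟨hq2, ?_⟩, ?_⟩
        · rw [e2]; exact hsub z hz'.2
        · rw [e2]; exact Finset.mem_insert_self _ _
  rw [h6, Finset.card_pair hne]

theorem meet {X p q : Finset ℕ} (h3 : X.card = 3) (hp : p.card = 2) (hq : q.card = 2) (hpX : p ⊆ X)
    (hqX : q ⊆ X) : ∃ w, w ∈ p ∧ w ∈ q := by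
  by_contra hno
  have hd : Disjoint p q := by
    rw [Finset.disjoint_left]
    intro w h1 h2
    exact hno ⟨w, h1, h2⟩
  have h4 : (p ∪ q).card ≤ X.card := Finset.card_le_card (Finset.union_subset hpX hqX)
  rw [Finset.card_union_of_disjoint hd] at h4
  omega

theorem wh_CX {Q : Finset Quad} (h : Irr Q) {X : Finset ℕ} (h3 : X.card = 3)
    (hc : K5.clq X ≤ gr Q) : wh (CX Q X) = X := by
  ext w
  rw [SThreeAux.mem_wh]
  constructor
  · rintro ⟨q, hq, hw⟩
    exact (mem_CX.1 hq).2 hw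
  · intro hw
    have h4 := two_at h h3 hc hw
    have h5 : (atw (CX Q X) w).Nonempty := by
      rw [← Finset.card_pos, h4]
      decide
    obtain ⟨q, hq⟩ := h5
    exact ⟨q, (mem_atw.1 hq).1, (mem_atw.1 hq).2⟩

theorem min_CX {Q : Finset Quad} (h : Irr Q) {X : Finset ℕ} (h3 : X.card = 3)
    (hc : K5.clq X ≤ gr Q) (C' : Finset Quad) (hC : C' ⊆ CX Q X) (hne : C'.Nonempty)
    (hev : ∀ w, Even (atw C' w).card) : C' = CX Q X := by
  refine Finset.Subset.antisymm hC fun q' hq' => ?_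
  obtain ⟨q, hq⟩ := hne
  have hqC := mem_CX.1 (hC hq)
  have hqC' := mem_CX.1 hq'
  obtain ⟨w, hw, hw'⟩ := meet h3 (h.isq q hqC.1).1 (h.isq q' hqC'.1).1 hqC.2 hqC'.2
  by_contra hno
  have h4 := two_at h h3 hc (hqC.2 hw)
  have h5 : atw C' w ⊆ (atw (CX Q X) w).erase q' := by
    intro r hr
    have hr' := mem_atw.1 hr
    refine Finset.mem_erase.2 ⟨fun he => hno (by rw [← he]; exact hr'.1), ?_⟩
    exact mem_atw.2 ⟨hC hr'.1, hr'.2⟩
  have h6 := Finset.card_le_card h5
  rw [Finset.card_erase_of_mem (mem_atw.2 ⟨hq', hw'⟩), h4] at h6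
  have h7 : 0 < (atw C' w).card := Finset.card_pos.2 ⟨q, mem_atw.2 ⟨hq, hw⟩⟩
  obtain ⟨k, hk⟩ := hev w
  omega

end STriAux

open STriAux

theorem Irr.fv_card {Q : Finset Quad} (h : Irr Q) (b : ℕ) : (fv Q b).card = (atb Q b).card := by
  classical
  have h1 := Finset.card_mul_eq_card_mul (s := fv Q b) (t := atb Q b) (fun w (q : Quad) => w ∈ q.1)
    (m := 2) (n := 2) (fun w hw => card_at h.toSph hw) (fun q hq => by
      have hq' := mem_atb.1 hq
      have h2 : (fv Q b).bipartiteBelow (fun w (q : Quad) => w ∈ q.1) q = q.1 := by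
        ext w
        rw [Finset.mem_bipartiteBelow]
        constructor
        · intro hw
          exact hw.2
        · intro hw
          exact ⟨SFaceAux.mem_fv.2 ⟨q, hq'.1, hw, hq'.2⟩, hw⟩
      rw [h2, (h.isq q hq'.1).1])
  omega

theorem Irr.nt_of_tri {Q : Finset Quad} (h : Irr Q) {b : ℕ} (h3 : (atb Q b).card = 3) :
    K5.NT (gr Q) (wh Q) (fv Q b) := by
  classical
  have hcard : (fv Q b).card = 3 := (h.fv_card b).trans h3
  have hb : b ∈ bl Q := by
    have h1 : (atb Q b).Nonempty := by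
      rw [← Finset.card_pos, h3]
      decide
    obtain ⟨q, hq⟩ := h1
    have hq' := STriAux.mem_atb.1 hq
    exact Finset.mem_biUnion.2 ⟨q, hq'.1, hq'.2⟩
  have hsub : fv Q b ⊆ wh Q := Finset.filter_subset _ _
  refine ⟨hsub, hcard, ?_, ?_, ?_⟩
  · have himg : (atb Q b).image Prod.fst = (fv Q b).powersetCard 2 := by
      apply Finset.eq_of_subset_of_card_le
      · intro p hp
        obtain ⟨q, hq, rfl⟩ := Finset.mem_image.1 hp
        have hq' := STriAux.mem_atb.1 hq
        exact Finset.mem_powersetCard.2 ⟨(h.mem_snd hq'.1).1 hq'.2, (h.isq q hq'.1).1⟩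
      · rw [Finset.card_powersetCard, hcard, Finset.card_image_of_injOn, h3]
        · decide
        · intro q hq q' hq' he
          exact h.fst_inj (STriAux.mem_atb.1 (Finset.mem_coe.1 hq)).1
            (STriAux.mem_atb.1 (Finset.mem_coe.1 hq')).1 he
    intro a c hac
    obtain ⟨hne, ha, hc⟩ := hac
    have h1 : ({a, c} : Finset ℕ) ∈ (fv Q b).powersetCard 2 := by
      refine Finset.mem_powersetCard.2 ⟨?_, Finset.card_pair hne⟩
      intro x hx
      rw [Finset.mem_insert, Finset.mem_singleton] at hx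
      rcases hx with rfl | rfl
      · exact ha
      · exact hc
    rw [← himg] at h1
    obtain ⟨q, hq, he⟩ := Finset.mem_image.1 h1
    exact ⟨hne, q, (STriAux.mem_atb.1 hq).1, he⟩
  · have h4 := SThreeAux.card_wh h
    obtain ⟨x, hx, hx'⟩ := Finset.exists_mem_notMem_of_card_lt_card
      (show (fv Q b).card < (wh Q).card by omega)
    exact ⟨x, Finset.mem_sdiff.2 ⟨hx, hx'⟩⟩
  · intro P hP hne hne'
    exact h.nonsep hb hP hne hne'

theorem Irr.tri_of_nt {Q : Finset Quad} (h : Irr Q) {X : Finset ℕ}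
    (hX : K5.NT (gr Q) (wh Q) X) : ∃ b ∈ bl Q, (atb Q b).card = 3 ∧ fv Q b = X := by
  classical
  obtain ⟨_, h3, hc, hcon⟩ := hX
  have hwh := wh_CX h h3 hc
  obtain ⟨b, hb, hCb⟩ := h.toSph.face_of (CX Q X) (Finset.filter_subset _ _) (by
      have h1 : X.Nonempty := by
        rw [← Finset.card_pos, h3]
        decide
      obtain ⟨w, hw⟩ := h1
      rw [← hwh] at hw
      obtain ⟨q, hq, _⟩ := SThreeAux.mem_wh.1 hw
      exact ⟨q, hq⟩)
    (by
      intro w
      by_cases hw : w ∈ X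
      · rw [two_at h h3 hc hw]
        decide
      · have h1 : atw (CX Q X) w = ∅ := by
          rw [Finset.eq_empty_iff_forall_notMem]
          intro q hq
          have hq' := mem_atw.1 hq
          exact hw ((mem_CX.1 hq'.1).2 hq'.2)
        rw [h1, Finset.card_empty]
        decide)
    (fun C' hC' hne hev => min_CX h h3 hc C' hC' hne hev)
    (fun q hq hsub => mem_CX.2 ⟨hq, by rw [hwh] at hsub; exact hsub⟩)
    (by
      rw [hwh]
      exact hcon.2)
  have hfv : fv Q b = X := by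
    rw [← hwh, hCb]
    ext w
    rw [SFaceAux.mem_fv, SThreeAux.mem_wh]
    constructor
    · rintro ⟨q, hq, h1, h2⟩
      exact ⟨q, mem_atb.2 ⟨hq, h2⟩, h1⟩
    · rintro ⟨q, hq, h1⟩
      exact ⟨q, (mem_atb.1 hq).1, h1, (mem_atb.1 hq).2⟩
  exact ⟨b, hb, by rw [← h.fv_card b, hfv, h3], hfv⟩

theorem Irr.fv_inj {Q : Finset Quad} (h : Irr Q) {b b' : ℕ} (hb : b ∈ bl Q) (hb' : b' ∈ bl Q)
    (he : fv Q b = fv Q b') : b = b' := by
  have _ := hb'
  by_contra hne
  have hiff : ∀ q ∈ Q, b ∈ q.2 → b' ∈ q.2 := by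
    intro q hq h1
    rw [h.mem_snd hq, ← he, ← h.mem_snd hq]
    exact h1
  obtain ⟨q, hq, hbq⟩ := Finset.mem_biUnion.1 hb
  have h1 : q.1.Nonempty := by
    rw [← Finset.card_pos, (h.isq q hq).1]
    decide
  obtain ⟨w, hw⟩ := h1
  obtain ⟨q', hq', hne', _, hbq', _⟩ := h.toSph.pair_at hq hw hbq
  have e1 := STriAux.eq_pair (h.isq q hq).2 hne hbq (hiff q hq hbq)
  have e2 := STriAux.eq_pair (h.isq q' hq').2 hne hbq' (hiff q' hq' hbq')
  exact hne' (h.snd_inj hq' hq (e2.trans e1.symm))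

end K5M
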