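import Pool.Agent.Lib.K5M.SKDefs
import Pool.Agent.Lib.K5M.STri

/-!
# K5M.SK2: marks of a sphere and marked triangles of its graph

PROOFS. `M' ↦ M'.image (fv Q)` is a bijection from the sets of blacks with three quads onto the sets of nonseparating triangles of the graph: in the range by `Irr.nt_of_tri`; injective because `fv Q` is injective
on `bl Q` (`Irr.fv_inj`; `Finset.image` of an injective-on map); surjective: for `M` take `M' = (bl Q).filter (fun b => (atb Q b).card = 3 ∧ fv Q b ∈ M)`, by `Irr.tri_of_nt` every `X ∈ M` is `fv Q b`. Then `Equiv.tsum_eq` with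
`Equiv.ofBijective`. `tsum_marks2`: the same for `M' ↦ (M'.erase 2).image (fv Q)`; inverse `M ↦ insert 2` of the set above; `fv Q b = fv Q 2` iff `b = 2`.
-/

set_option autoImplicit false

namespace K5M

open Finset
open scoped ENNReal

namespace SK2Aux

theorem gen (T : Finset ℕ) (g : ℕ → Finset ℕ) (hg : Set.InjOn g T) (R : Finset ℕ → Prop)
    (h1 : ∀ b ∈ T, R (g b)) (h2 : ∀ X, R X → ∃ b ∈ T, g b = X)
    (f : Finset (Finset ℕ) → ℝ≥0∞) :
    ∑' M' : {M' : Finset ℕ // M' ⊆ T}, f (M'.1.image g) =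
    ∑' M : {M : Finset (Finset ℕ) // ∀ X ∈ M, R X}, f M.1 := by
  have hmem : ∀ M' : {M' : Finset ℕ // M' ⊆ T}, ∀ X ∈ M'.1.image g, R X := by
    intro M' X hX
    obtain ⟨b, hb, rfl⟩ := Finset.mem_image.1 hX
    exact h1 b (M'.2 hb)
  let F : {M' : Finset ℕ // M' ⊆ T} → {M : Finset (Finset ℕ) // ∀ X ∈ M, R X} :=
    fun M' => ⟨M'.1.image g, hmem M'⟩
  have hF : Function.Bijective F := by
    constructor
    · intro A B hAB
      have hAB' : A.1.image g = B.1.image g := congrArg Subtype.val hAB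
      apply Subtype.ext
      ext b
      constructor
      · intro hb
        have : g b ∈ B.1.image g := by rw [← hAB']; exact Finset.mem_image_of_mem g hb
        obtain ⟨c, hc, hcb⟩ := Finset.mem_image.1 this
        rw [← hg (B.2 hc) (A.2 hb) hcb]
        exact hc
      · intro hb
        have : g b ∈ A.1.image g := by rw [hAB']; exact Finset.mem_image_of_mem g hb
        obtain ⟨c, hc, hcb⟩ := Finset.mem_image.1 this
        rw [← hg (A.2 hc) (B.2 hb) hcb]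
        exact hc
    · intro M
      refine ⟨⟨T.filter (fun b => g b ∈ M.1), Finset.filter_subset _ _⟩, ?_⟩
      apply Subtype.ext
      show (T.filter (fun b => g b ∈ M.1)).image g = M.1
      ext X
      constructor
      · intro hX
        obtain ⟨b, hb, rfl⟩ := Finset.mem_image.1 hX
        exact (Finset.mem_filter.1 hb).2
      · intro hX
        obtain ⟨b, hb, hbX⟩ := h2 X (M.2 X hX)
        refine Finset.mem_image.2 ⟨b, Finset.mem_filter.2 ⟨hb, ?_⟩, hbX⟩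
        rw [hbX]
        exact hX
  exact (Equiv.ofBijective F hF).tsum_eq
    (fun M : {M : Finset (Finset ℕ) // ∀ X ∈ M, R X} => f M.1)

/-- The blacks with three quads. -/
def T3 (Q : Finset Quad) : Finset ℕ := (bl Q).filter (fun b => (atb Q b).card = 3)

theorem mem_T3 {Q : Finset Quad} {b : ℕ} : b ∈ T3 Q ↔ b ∈ bl Q ∧ (atb Q b).card = 3 :=
  Finset.mem_filter

theorem sub_T3 {Q : Finset Quad} {M : Finset ℕ} :
    M ⊆ T3 Q ↔ M ⊆ bl Q ∧ ∀ b ∈ M, (atb Q b).card = 3 := by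
  constructor
  · intro h
    exact ⟨fun b hb => (mem_T3.1 (h hb)).1, fun b hb => (mem_T3.1 (h hb)).2⟩
  · rintro ⟨h1, h2⟩ b hb
    exact mem_T3.2 ⟨h1 hb, h2 b hb⟩

/-- Removing the black vertex 2 from the marks. -/
def E2 {Q : Finset Quad} (h2 : 2 ∈ bl Q) (h3 : (atb Q 2).card = 3) :
    {M' : Finset ℕ // (M' ⊆ bl Q ∧ ∀ b ∈ M', (atb Q b).card = 3) ∧ 2 ∈ M'} ≃
      {M' : Finset ℕ // M' ⊆ (T3 Q).erase 2} where
  toFun M := ⟨M.1.erase 2, Finset.erase_subset_erase 2 (sub_T3.2 M.2.1)⟩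
  invFun M := ⟨insert 2 M.1, sub_T3.1 (Finset.insert_subset (mem_T3.2 ⟨h2, h3⟩)
    (M.2.trans (Finset.erase_subset _ _))), Finset.mem_insert_self _ _⟩
  left_inv M := Subtype.ext (Finset.insert_erase M.2.2)
  right_inv M := Subtype.ext (Finset.erase_insert fun hm =>
    Finset.notMem_erase 2 (T3 Q) (M.2 hm))

end SK2Aux

open SK2Aux in
theorem tsum_marks {Q : Finset Quad} (h : Irr Q) (f : Finset (Finset ℕ) → ℝ≥0∞) :
    ∑' M' : {M' : Finset ℕ // M' ⊆ bl Q ∧ ∀ b ∈ M', (atb Q b).card = 3},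
      f (M'.1.image (fv Q)) =
    ∑' M : {M : Finset (Finset ℕ) // ∀ X ∈ M, K5.NT (gr Q) (wh Q) X}, f M.1 := by
  rw [← gen (T3 Q) (fv Q) (fun b hb c hc e => h.fv_inj (mem_T3.1 hb).1 (mem_T3.1 hc).1 e)
    (fun X => K5.NT (gr Q) (wh Q) X) (fun b hb => h.nt_of_tri (mem_T3.1 hb).2)
    (fun X hX => by
      obtain ⟨b, hb, h3, e⟩ := h.tri_of_nt hX
      exact ⟨b, mem_T3.2 ⟨hb, h3⟩, e⟩) f]
  exact ((Equiv.subtypeEquivRight (fun M => sub_T3 (Q := Q) (M := M))).tsum_eq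
    (fun M' : {M' : Finset ℕ // M' ⊆ bl Q ∧ ∀ b ∈ M', (atb Q b).card = 3} =>
      f (M'.1.image (fv Q)))).symm

open SK2Aux in
theorem tsum_marks2 {Q : Finset Quad} (h : Irr Q) (h2 : 2 ∈ bl Q) (h3 : (atb Q 2).card = 3)
    (f : Finset (Finset ℕ) → ℝ≥0∞) :
    ∑' M' : {M' : Finset ℕ // (M' ⊆ bl Q ∧ ∀ b ∈ M', (atb Q b).card = 3) ∧ 2 ∈ M'},
      f ((M'.1.erase 2).image (fv Q)) =
    ∑' M : {M : Finset (Finset ℕ) // ∀ X ∈ M, K5.NT (gr Q) (wh Q) X ∧ X ≠ fv Q 2}, f M.1 := by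
  rw [← gen ((T3 Q).erase 2) (fv Q)
    (fun b hb c hc e => h.fv_inj (mem_T3.1 (Finset.mem_of_mem_erase hb)).1
      (mem_T3.1 (Finset.mem_of_mem_erase hc)).1 e)
    (fun X => K5.NT (gr Q) (wh Q) X ∧ X ≠ fv Q 2)
    (fun b hb => ⟨h.nt_of_tri (mem_T3.1 (Finset.mem_of_mem_erase hb)).2, fun e =>
      Finset.ne_of_mem_erase hb (h.fv_inj (mem_T3.1 (Finset.mem_of_mem_erase hb)).1 h2 e)⟩)
    (fun X hX => by
      obtain ⟨b, hb, hb3, e⟩ := h.tri_of_nt hX.1
      refine ⟨b, Finset.mem_erase.2 ⟨?_, mem_T3.2 ⟨hb, hb3⟩⟩, e⟩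
      rintro rfl
      exact hX.2 e.symm) f]
  exact (E2 h2 h3).tsum_eq
    (fun M' : {M' : Finset ℕ // M' ⊆ (T3 Q).erase 2} => f (M'.1.image (fv Q)))

end K5M
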