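import Pool.Agent.Lib.K5M.Defs

/-!
# K5M.A1: calculus of the boundary modulo 2

PROOFS.  `dg N e` counts the quads of `N` containing `e`, so it is additive on disjoint unions;
`bd N` is the set of `e` with `dg N e` odd (`e ∈ EdS N` is automatic).  For `symmDiff X Y`: split
`X = (X \ Y) ∪ (X ∩ Y)` etc.: `dg X + dg Y = dg (X Δ Y) + 2 dg (X ∩ Y)`.
`Evn`: the parity of the number of edges of `Z Δ Z'` at a vertex is the sum of the parities.
`ed q` has 2 (or 0) edges at every vertex.  `bd N` is even by induction on `N`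
(`bd (insert q N) = ed q Δ bd N` for `q ∉ N`).
`four_le`: let `(w, b) ∈ Z`; at `w` there is a second edge `(w, b')`, at `b` a second edge `(w', b)`,
at `b'` a second edge `(w'', b')` with `w'' ≠ w`: four distinct edges.  If `Z` has exactly these
four then `w'' = w'` by evenness at `w'` and `Z = {w, w'} ×ˢ {b, b'}`.
`ed_inj`: `q.1` and `q.2` are the projections of `q.1 ×ˢ q.2` (both nonempty).
-/

set_option autoImplicit false

namespace K5M

open Finset

namespace A1Aux

theorem card_filter_symmDiff {α : Type*} [DecidableEq α] (X Y : Finset α) (p : α → Prop)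
    [DecidablePred p] :
    ((symmDiff X Y).filter p).card + 2 * ((X ∩ Y).filter p).card =
      (X.filter p).card + (Y.filter p).card := by
  have h1 : (symmDiff X Y).filter p = ((X.filter p) \ (Y.filter p)) ∪ ((Y.filter p) \ (X.filter p)) := by
    ext a
    simp only [mem_filter, mem_symmDiff, mem_union, mem_sdiff]
    tauto
  have h2 : (X ∩ Y).filter p = (X.filter p) ∩ (Y.filter p) := by
    ext a
    simp only [mem_filter, mem_inter]
    tauto
  have h3 : Disjoint ((X.filter p) \ (Y.filter p)) ((Y.filter p) \ (X.filter p)) := by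
    rw [Finset.disjoint_left]
    intro a ha hb
    rw [mem_sdiff] at ha hb
    exact hb.2 ha.1
  rw [h1, h2, card_union_of_disjoint h3]
  have h4 := Finset.card_sdiff_add_card_inter (X.filter p) (Y.filter p)
  have h5 := Finset.card_sdiff_add_card_inter (Y.filter p) (X.filter p)
  rw [inter_comm] at h5
  omega

end A1Aux

open A1Aux

theorem mem_EdS {N : Finset Quad} {e : Ed} : e ∈ EdS N ↔ ∃ q ∈ N, e ∈ ed q := by
  simp [EdS]

theorem mem_ed {q : Quad} {e : Ed} : e ∈ ed q ↔ e.1 ∈ q.1 ∧ e.2 ∈ q.2 := by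
  simp [ed, mem_product]

theorem dg_pos {N : Finset Quad} {e : Ed} : 0 < dg N e ↔ e ∈ EdS N := by
  rw [dg, card_pos, mem_EdS]
  constructor
  · rintro ⟨q, hq⟩
    rw [mem_filter] at hq
    exact ⟨q, hq⟩
  · rintro ⟨q, hq⟩
    exact ⟨q, mem_filter.2 hq⟩

theorem mem_bd {N : Finset Quad} {e : Ed} : e ∈ bd N ↔ Odd (dg N e) := by
  rw [bd, mem_filter]
  constructor
  · exact fun h => h.2
  · intro h
    refine ⟨dg_pos.1 ?_, h⟩
    obtain ⟨k, hk⟩ := h
    omega

theorem bd_sub (N : Finset Quad) : bd N ⊆ EdS N := filter_subset _ _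

theorem dg_mono {X N : Finset Quad} (h : X ⊆ N) (e : Ed) : dg X e ≤ dg N e :=
  card_le_card (filter_subset_filter _ h)

theorem EdS_mono {X N : Finset Quad} (h : X ⊆ N) : EdS X ⊆ EdS N :=
  biUnion_subset_biUnion_of_subset_left _ h

theorem EdS_union (X Y : Finset Quad) : EdS (X ∪ Y) = EdS X ∪ EdS Y := by
  ext e
  simp only [mem_union, mem_EdS]
  constructor
  · rintro ⟨q, hq | hq, he⟩
    · exact Or.inl ⟨q, hq, he⟩
    · exact Or.inr ⟨q, hq, he⟩
  · rintro (⟨q, hq, he⟩ | ⟨q, hq, he⟩)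
    · exact ⟨q, Or.inl hq, he⟩
    · exact ⟨q, Or.inr hq, he⟩

theorem dg_union {X Y : Finset Quad} (h : Disjoint X Y) (e : Ed) :
    dg (X ∪ Y) e = dg X e + dg Y e := by
  rw [dg, dg, dg, filter_union, card_union_of_disjoint (disjoint_filter_filter h)]

theorem dg_sdiff {X N : Finset Quad} (h : X ⊆ N) (e : Ed) : dg (N \ X) e + dg X e = dg N e := by
  rw [← dg_union sdiff_disjoint, sdiff_union_of_subset h]

theorem bd_empty : bd ∅ = ∅ := by
  ext e
  rw [mem_bd]
  simp [dg]

theorem bd_singleton (q : Quad) : bd {q} = ed q := by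
  ext e
  rw [mem_bd, dg, filter_singleton]
  by_cases h : e ∈ ed q
  · simp [h]
  · simp [h]

theorem bd_symmDiff (X Y : Finset Quad) : bd (symmDiff X Y) = symmDiff (bd X) (bd Y) := by
  ext e
  have h := card_filter_symmDiff X Y (fun q => e ∈ ed q)
  rw [mem_symmDiff, mem_bd, mem_bd, mem_bd]
  change dg (symmDiff X Y) e + 2 * dg (X ∩ Y) e = dg X e + dg Y e at h
  simp only [Nat.odd_iff]
  omega

theorem bd_union {X Y : Finset Quad} (h : Disjoint X Y) : bd (X ∪ Y) = symmDiff (bd X) (bd Y) := by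
  rw [← bd_symmDiff, h.symmDiff_eq_sup]
  rfl

theorem bd_sdiff {X N : Finset Quad} (h : X ⊆ N) : bd (N \ X) = symmDiff (bd N) (bd X) := by
  ext e
  have h1 := dg_sdiff h e
  rw [mem_symmDiff, mem_bd, mem_bd, mem_bd]
  simp only [Nat.odd_iff]
  omega

theorem Evn_empty : Evn ∅ := by
  constructor
  · intro w
    simp
  · intro w
    simp

theorem Evn_symmDiff {Z Z' : Finset Ed} (h : Evn Z) (h' : Evn Z') : Evn (symmDiff Z Z') := by
  constructor
  · intro w
    have h1 := card_filter_symmDiff Z Z' (fun e => e.1 = w)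
    have h2 := h.1 w
    have h3 := h'.1 w
    rw [Nat.even_iff] at *
    omega
  · intro w
    have h1 := card_filter_symmDiff Z Z' (fun e => e.2 = w)
    have h2 := h.2 w
    have h3 := h'.2 w
    rw [Nat.even_iff] at *
    omega

theorem Evn_union {Z Z' : Finset Ed} (h : Evn Z) (h' : Evn Z') (hd : Disjoint Z Z') :
    Evn (Z ∪ Z') := by
  have h1 := Evn_symmDiff h h'
  rw [hd.symmDiff_eq_sup] at h1
  exact h1

theorem Evn_ed {q : Quad} (h : IsQ q) : Evn (ed q) := by
  constructor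
  · intro w
    by_cases hw : w ∈ q.1
    · have : (ed q).filter (fun e => e.1 = w) = ({w} : Finset ℕ) ×ˢ q.2 := by
        ext e
        rw [mem_filter, mem_ed, mem_product, mem_singleton]
        constructor
        · rintro ⟨⟨_, h2⟩, h3⟩
          exact ⟨h3, h2⟩
        · rintro ⟨h1, h2⟩
          exact ⟨⟨h1 ▸ hw, h2⟩, h1⟩
      rw [this, card_product, card_singleton, h.2]
      decide
    · have : (ed q).filter (fun e => e.1 = w) = ∅ := by
        rw [filter_eq_empty_iff]
        intro e he h1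
        rw [mem_ed] at he
        exact hw (h1 ▸ he.1)
      rw [this]
      simp
  · intro w
    by_cases hw : w ∈ q.2
    · have : (ed q).filter (fun e => e.2 = w) = q.1 ×ˢ ({w} : Finset ℕ) := by
        ext e
        rw [mem_filter, mem_ed, mem_product, mem_singleton]
        constructor
        · rintro ⟨⟨h1, _⟩, h3⟩
          exact ⟨h1, h3⟩
        · rintro ⟨h1, h2⟩
          exact ⟨⟨h1, h2 ▸ hw⟩, h2⟩
      rw [this, card_product, card_singleton, h.1]
      decide
    · have : (ed q).filter (fun e => e.2 = w) = ∅ := by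
        rw [filter_eq_empty_iff]
        intro e he h1
        rw [mem_ed] at he
        exact hw (h1 ▸ he.2)
      rw [this]
      simp

theorem Evn_bd {N : Finset Quad} (h : ∀ q ∈ N, IsQ q) : Evn (bd N) := by
  induction N using Finset.induction_on with
  | empty =>
    rw [bd_empty]
    exact Evn_empty
  | insert q N hq ih =>
    rw [insert_eq, bd_union (disjoint_singleton_left.2 hq), bd_singleton]
    exact Evn_symmDiff (Evn_ed (h q (mem_insert_self _ _)))
      (ih (fun q' hq' => h q' (mem_insert_of_mem hq')))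

theorem card_ed {q : Quad} (h : IsQ q) : (ed q).card = 4 := by
  rw [ed, card_product, h.1, h.2]

theorem ed_inj {q q' : Quad} (h : IsQ q) (h' : IsQ q') (he : ed q = ed q') : q = q' := by
  have h1 : q.1.Nonempty := by
    rw [← card_pos, h.1]; norm_num
  have h2 : q.2.Nonempty := by
    rw [← card_pos, h.2]; norm_num
  have h3 : q'.1.Nonempty := by
    rw [← card_pos, h'.1]; norm_num
  have h4 : q'.2.Nonempty := by
    rw [← card_pos, h'.2]; norm_num
  have key : ∀ e : Ed, (e.1 ∈ q.1 ∧ e.2 ∈ q.2) ↔ (e.1 ∈ q'.1 ∧ e.2 ∈ q'.2) := by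
    intro e
    rw [← mem_ed, ← mem_ed, he]
  obtain ⟨a, ha⟩ := h1
  obtain ⟨b, hb⟩ := h2
  have hab := (key (a, b)).1 ⟨ha, hb⟩
  apply Prod.ext
  · ext w
    constructor
    · intro hw
      exact ((key (w, b)).1 ⟨hw, hb⟩).1
    · intro hw
      exact ((key (w, b)).2 ⟨hw, hab.2⟩).1
  · ext w
    constructor
    · intro hw
      exact ((key (a, w)).1 ⟨ha, hw⟩).2
    · intro hw
      exact ((key (a, w)).2 ⟨hab.1, hw⟩).2

namespace A1Aux

theorem second {α : Type*} [DecidableEq α] {Z : Finset α} (h : Even Z.card) {a : α} (ha : a ∈ Z) :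
    ∃ b ∈ Z, b ≠ a := by
  have h1 : 1 < Z.card := by
    have : 0 < Z.card := card_pos.2 ⟨a, ha⟩
    rw [Nat.even_iff] at h
    omega
  exact exists_mem_ne h1 a

theorem four {Z : Finset Ed} (h : Evn Z) (hne : Z.Nonempty) :
    ∃ w w' w'' b b', w' ≠ w ∧ b' ≠ b ∧ w'' ≠ w ∧ (w, b) ∈ Z ∧ (w, b') ∈ Z ∧ (w', b) ∈ Z ∧
      (w'', b') ∈ Z := by
  obtain ⟨⟨w, b⟩, h0⟩ := hne
  obtain ⟨⟨w1, b'⟩, h1, h1'⟩ := second (h.1 w) (a := (w, b)) (mem_filter.2 ⟨h0, rfl⟩)
  rw [mem_filter] at h1
  obtain ⟨h1, h1''⟩ := h1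
  simp only at h1''
  subst h1''
  obtain ⟨⟨w', b1⟩, h2, h2'⟩ := second (h.2 b) (a := (w1, b)) (mem_filter.2 ⟨h0, rfl⟩)
  rw [mem_filter] at h2
  obtain ⟨h2, h2''⟩ := h2
  simp only at h2''
  subst h2''
  obtain ⟨⟨w'', b2⟩, h3, h3'⟩ := second (h.2 b') (a := (w1, b')) (mem_filter.2 ⟨h1, rfl⟩)
  rw [mem_filter] at h3
  obtain ⟨h3, h3''⟩ := h3
  simp only at h3''
  subst h3''
  refine ⟨w1, w', w'', b1, b2, ?_, ?_, ?_, h0, h1, h2, h3⟩
  · rintro rfl
    exact h2' rfl
  · rintro rfl
    exact h1' rfl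
  · rintro rfl
    exact h3' rfl

theorem card_four {w w' w'' b b' : ℕ} (h1 : w' ≠ w) (h2 : b' ≠ b) (h3 : w'' ≠ w) :
    ({(w, b), (w, b'), (w', b), (w'', b')} : Finset Ed).card = 4 := by
  have h4 : (w', b) ≠ (w'', b') := by
    intro h
    exact h2 (Prod.ext_iff.1 h).2.symm
  rw [card_insert_of_notMem, card_insert_of_notMem, card_insert_of_notMem, card_singleton]
  · rw [mem_singleton]
    exact h4
  · simp only [mem_insert, mem_singleton, Prod.mk.injEq, not_or, not_and]
    exact ⟨fun h => absurd h.symm h1, fun h => absurd h.symm h3⟩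
  · simp only [mem_insert, mem_singleton, Prod.mk.injEq, not_or, not_and]
    exact ⟨fun _ h => h2 h.symm, fun h => absurd h.symm h1, fun h => absurd h.symm h3⟩

end A1Aux

theorem four_le {Z : Finset Ed} (h : Evn Z) (hne : Z.Nonempty) : 4 ≤ Z.card := by
  obtain ⟨w, w', w'', b, b', h1, h2, h3, h4, h5, h6, h7⟩ := four h hne
  rw [← card_four h1 h2 h3]
  apply card_le_card
  intro e he
  simp only [mem_insert, mem_singleton] at he
  rcases he with rfl | rfl | rfl | rfl <;> assumption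

theorem exists_quad {Z : Finset Ed} (h : Evn Z) (h4 : Z.card = 4) : ∃ q, IsQ q ∧ ed q = Z := by
  have hne : Z.Nonempty := by
    rw [← card_pos, h4]; norm_num
  obtain ⟨w, w', w'', b, b', h1, h2, h3, k4, h5, h6, h7⟩ := four h hne
  have hZ : ({(w, b), (w, b'), (w', b), (w'', b')} : Finset Ed) = Z := by
    apply eq_of_subset_of_card_le
    · intro e he
      simp only [mem_insert, mem_singleton] at he
      rcases he with rfl | rfl | rfl | rfl <;> assumption
    · rw [h4, card_four h1 h2 h3]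
  have h8 : w'' = w' := by
    obtain ⟨⟨w3, b3⟩, h9, h9'⟩ := second (h.1 w') (a := (w', b)) (mem_filter.2 ⟨h6, rfl⟩)
    rw [mem_filter] at h9
    obtain ⟨h9, h9''⟩ := h9
    simp only at h9''
    subst h9''
    rw [← hZ] at h9
    simp only [mem_insert, mem_singleton, Prod.mk.injEq] at h9
    rcases h9 with ⟨h9, _⟩ | ⟨h9, _⟩ | ⟨_, h9⟩ | ⟨h9, _⟩
    · exact absurd h9 h1
    · exact absurd h9 h1
    · exact absurd (by rw [h9]) h9'
    · exact h9.symm
  subst h8
  refine ⟨({w, w''}, {b, b'}), ⟨card_pair h1.symm, card_pair h2.symm⟩, ?_⟩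
  rw [← hZ]
  ext ⟨x, y⟩
  rw [mem_ed]
  simp only [mem_insert, mem_singleton, Prod.mk.injEq]
  tauto

theorem Circ_of_four {Z : Finset Ed} (h : Evn Z) (h4 : Z.card = 4) : Circ Z := by
  refine ⟨?_, h, ?_⟩
  · rw [← card_pos, h4]; norm_num
  · intro Z' hZ' h'
    rcases Z'.eq_empty_or_nonempty with h0 | h0
    · exact Or.inl h0
    · right
      apply eq_of_subset_of_card_le hZ'
      rw [h4]
      exact four_le h' h0

end K5M
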