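import Pool.Agent.Lib.K5M.SDefs
import Pool.Agent.Lib.K5M.A1

/-!
# K5M.SDeg: degrees in an irreducible sphere, simplicity

PROOFS.
`Sph.pair_at`: `dg Q (w, b) = 2` is the number of the quads that contain `(w, b)`.
`Sph.bd_self`: all `dg` are `0` or `2`.
`Irr.quad_of_cycle`: `Z = ed ({u, v}, {b, c}) ⊆ EdS Q` is even, so `Z = bd X`, `X ⊆ Q`, `|Z| = 4`. If `X = {r}` then `ed r = Z`, so `r = ({u, v}, {b, c})` (`ed_inj`). If `Q \ X = {r}` then `ed r = bd (Q \ X) = bd X = Z`, the same.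
`Irr.fst_inj`: suppose `q ≠ q'`, `q.1 = q'.1 = {u, v}`. (1) If they share a black `b`, `q.2 = {b, c}`, `q'.2 = {b, c'}`, `c ≠ c'`: `bd {q, q'} = ed q Δ ed q' = ed ({u, v}, {c, c'})` has 4 elements, so `|{q, q'}| = 1` (false) or
`|Q| = 3`, false. (2) Otherwise `q.2 = {b, c}`, `q'.2 = {b', c'}` disjoint; `r = ({u, v}, {b, b'}) ∈ Q` by `quad_of_cycle`, `r ≠ q`, and `r`, `q` share `b`: contradiction to (1). `Irr.snd_inj`: the same with colours exchanged
(`quad_of_cycle` again).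
`Irr.deg_white`: `w ∈ q ∈ Q`, `q.2 = {b, c}`. By `pair_at` for `(w, b)` there is a second quad `q' ≠ q` at `(w, b)`. By `snd_inj` `q'.2 ≠ q.2`, so `c ∉ q'.2`. By `pair_at` for `(w, c)` there is a quad `q'' ≠ q` at `(w, c)`; `q'' ≠ q'`. So at least three quads
at `w`. `Irr.deg_black`: the same with `fst_inj`.
-/

set_option autoImplicit false

namespace K5M

open Finset

namespace SDegAux

theorem card_symm {b c c' : ℕ} (h1 : b ≠ c) (h2 : b ≠ c') (h3 : c ≠ c') :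
    (symmDiff ({b, c} : Finset ℕ) {b, c'}).card = 2 := by
  have : symmDiff ({b, c} : Finset ℕ) {b, c'} = {c, c'} := by
    ext x
    rw [Finset.mem_symmDiff]
    simp only [Finset.mem_insert, Finset.mem_singleton]
    constructor
    · rintro (⟨h | h, h'⟩ | ⟨h | h, h'⟩)
      · exact absurd (Or.inl h) h'
      · exact Or.inl h
      · exact absurd (Or.inl h) h'
      · exact Or.inr h
    · rintro (rfl | rfl)
      · left
        exact ⟨Or.inr rfl, fun h => h.elim (fun h => h1 h.symm) h3⟩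
      · right
        exact ⟨Or.inr rfl, fun h => h.elim (fun h => h2 h.symm) (fun h => h3 h.symm)⟩
  rw [this, Finset.card_pair h3]

/-- A pair containing `b`. -/
theorem pair_with {s : Finset ℕ} {b : ℕ} (hs : s.card = 2) (hb : b ∈ s) : ∃ c, b ≠ c ∧ s = {b, c} := by
  obtain ⟨x, y, hxy, rfl⟩ := Finset.card_eq_two.1 hs
  rw [Finset.mem_insert, Finset.mem_singleton] at hb
  rcases hb with rfl | rfl
  · exact ⟨y, hxy, rfl⟩
  · exact ⟨x, hxy.symm, Finset.pair_comm _ _⟩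

theorem card_pair_bd_fst {q q' : Quad} (hq : IsQ q) (hq' : IsQ q') (hne : q ≠ q') (he : q.1 = q'.1) {b : ℕ}
    (hb : b ∈ q.2) (hb' : b ∈ q'.2) : (bd {q, q'}).card = 4 := by
  obtain ⟨c, hc, e1⟩ := pair_with hq.2 hb
  obtain ⟨c', hc', e2⟩ := pair_with hq'.2 hb'
  have hcc : c ≠ c' := by
    rintro rfl
    exact hne (Prod.ext he (e1.trans e2.symm))
  have hd : Disjoint ({q} : Finset Quad) {q'} := Finset.disjoint_singleton.2 hne
  have e3 : ({q, q'} : Finset Quad) = {q} ∪ {q'} := rfl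
  rw [e3, bd_union hd, bd_singleton, bd_singleton]
  have e4 : symmDiff (ed q) (ed q') = q.1 ×ˢ symmDiff q.2 q'.2 := by
    ext ⟨x, y⟩
    rw [Finset.mem_symmDiff, Finset.mem_product, Finset.mem_symmDiff, mem_ed, mem_ed, he]
    tauto
  rw [e4, Finset.card_product, hq.1, e1, e2, card_symm hc hc' hcc]

theorem card_pair_bd_snd {q q' : Quad} (hq : IsQ q) (hq' : IsQ q') (hne : q ≠ q') (he : q.2 = q'.2) {b : ℕ}
    (hb : b ∈ q.1) (hb' : b ∈ q'.1) : (bd {q, q'}).card = 4 := by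
  obtain ⟨c, hc, e1⟩ := pair_with hq.1 hb
  obtain ⟨c', hc', e2⟩ := pair_with hq'.1 hb'
  have hcc : c ≠ c' := by
    rintro rfl
    exact hne (Prod.ext (e1.trans e2.symm) he)
  have hd : Disjoint ({q} : Finset Quad) {q'} := Finset.disjoint_singleton.2 hne
  have e3 : ({q, q'} : Finset Quad) = {q} ∪ {q'} := rfl
  rw [e3, bd_union hd, bd_singleton, bd_singleton]
  have e4 : symmDiff (ed q) (ed q') = symmDiff q.1 q'.1 ×ˢ q.2 := by
    ext ⟨x, y⟩
    rw [Finset.mem_symmDiff, Finset.mem_product, Finset.mem_symmDiff, mem_ed, mem_ed, he]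
    tauto
  rw [e4, Finset.card_product, hq.2, e1, e2, card_symm hc hc' hcc]

/-- Two quads never have a boundary of length 4 in an irreducible sphere. -/
theorem pair_false {Q : Finset Quad} (h : Irr Q) {q q' : Quad} (hq : q ∈ Q) (hq' : q' ∈ Q) (hne : q ≠ q')
    (hc : (bd {q, q'}).card = 4) : False := by
  have hsub : ({q, q'} : Finset Quad) ⊆ Q := by
    intro r hr
    rw [Finset.mem_insert, Finset.mem_singleton] at hr
    rcases hr with rfl | rfl
    · exact hq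
    · exact hq'
  have h2 : ({q, q'} : Finset Quad).card = 2 := Finset.card_pair hne
  rcases h.irr _ hsub hc with h1 | h1
  · omega
  · rw [Finset.card_sdiff_of_subset hsub, h2] at h1
    have := h.four
    omega

end SDegAux

open SDegAux

theorem Sph.bd_self {Q : Finset Quad} (h : Sph Q) : bd Q = ∅ := by
  rw [Finset.eq_empty_iff_forall_notMem]
  intro e he
  have h1 := h.two e (bd_sub Q he)
  have h2 := mem_bd.1 he
  rw [h1] at h2
  exact absurd h2 (by decide)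

theorem Sph.bd_compl {Q X : Finset Quad} (h : Sph Q) (hX : X ⊆ Q) : bd (Q \ X) = bd X := by
  rw [bd_sdiff hX, h.bd_self]
  exact bot_symmDiff (bd X)

/-- The two quads at an edge. -/
theorem Sph.pair_at {Q : Finset Quad} (h : Sph Q) {w b : ℕ} {q : Quad} (hq : q ∈ Q) (hw : w ∈ q.1)
    (hb : b ∈ q.2) : ∃ q' ∈ Q, q' ≠ q ∧ w ∈ q'.1 ∧ b ∈ q'.2 ∧
      ∀ r ∈ Q, w ∈ r.1 → b ∈ r.2 → r = q ∨ r = q' := by
  have he : ((w, b) : Ed) ∈ ed q := mem_ed.2 ⟨hw, hb⟩
  have h2 := h.two (w, b) (mem_EdS.2 ⟨q, hq, he⟩)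
  unfold dg at h2
  obtain ⟨x, y, hxy, hs⟩ := Finset.card_eq_two.1 h2
  have hmem : ∀ r : Quad, (r ∈ Q ∧ w ∈ r.1 ∧ b ∈ r.2) ↔ (r = x ∨ r = y) := by
    intro r
    have h3 : r ∈ Q.filter (fun q => ((w, b) : Ed) ∈ ed q) ↔ r ∈ ({x, y} : Finset Quad) := by rw [hs]
    rw [Finset.mem_filter, mem_ed, Finset.mem_insert, Finset.mem_singleton] at h3
    exact h3
  rcases (hmem q).1 ⟨hq, hw, hb⟩ with hqx | hqx
  · obtain ⟨h4, h5, h6⟩ := (hmem y).2 (Or.inr rfl)
    refine ⟨y, h4, ?_, h5, h6, ?_⟩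
    · rw [hqx]
      exact hxy.symm
    · intro r hr hr1 hr2
      rw [hqx]
      exact (hmem r).1 ⟨hr, hr1, hr2⟩
  · obtain ⟨h4, h5, h6⟩ := (hmem x).2 (Or.inl rfl)
    refine ⟨x, h4, ?_, h5, h6, ?_⟩
    · rw [hqx]
      exact hxy
    · intro r hr hr1 hr2
      rw [hqx]
      exact ((hmem r).1 ⟨hr, hr1, hr2⟩).symm

theorem Irr.quad_of_cycle {Q : Finset Quad} (h : Irr Q) {u v b c : ℕ} (huv : u ≠ v) (hbc : b ≠ c)
    (h1 : (u, b) ∈ EdS Q) (h2 : (u, c) ∈ EdS Q) (h3 : (v, b) ∈ EdS Q) (h4 : (v, c) ∈ EdS Q) :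
    ((({u, v} : Finset ℕ), ({b, c} : Finset ℕ)) : Quad) ∈ Q := by
  have hZq : IsQ ((({u, v} : Finset ℕ), ({b, c} : Finset ℕ)) : Quad) :=
    ⟨Finset.card_pair huv, Finset.card_pair hbc⟩
  have hsub : ed ((({u, v} : Finset ℕ), ({b, c} : Finset ℕ)) : Quad) ⊆ EdS Q := by
    rintro ⟨x, y⟩ he
    rw [mem_ed] at he
    obtain ⟨hx, hy⟩ := he
    simp only [Finset.mem_insert, Finset.mem_singleton] at hx hy
    rcases hx with rfl | rfl <;> rcases hy with rfl | rfl <;> assumption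
  obtain ⟨X, hX, hbX⟩ := h.sur _ hsub (Evn_ed hZq)
  have hc4 : (bd X).card = 4 := by rw [hbX, card_ed hZq]
  have key : ∀ r ∈ Q, bd {r} = bd X → ((({u, v} : Finset ℕ), ({b, c} : Finset ℕ)) : Quad) ∈ Q := by
    intro r hr hb
    rw [bd_singleton, hbX] at hb
    rw [← ed_inj (h.isq r hr) hZq hb]
    exact hr
  rcases h.irr X hX hc4 with h5 | h5
  · obtain ⟨r, rfl⟩ := Finset.card_eq_one.1 h5
    exact key r (hX (Finset.mem_singleton_self r)) rfl
  · obtain ⟨r, hr⟩ := Finset.card_eq_one.1 h5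
    have hrQ : r ∈ Q \ X := by
      rw [hr]
      exact Finset.mem_singleton_self r
    refine key r (Finset.mem_sdiff.1 hrQ).1 ?_
    rw [← hr]
    exact h.toSph.bd_compl hX

theorem Irr.fst_inj {Q : Finset Quad} (h : Irr Q) {q q' : Quad} (hq : q ∈ Q) (hq' : q' ∈ Q)
    (he : q.1 = q'.1) : q = q' := by
  have h0 : ∀ r r' : Quad, r ∈ Q → r' ∈ Q → r ≠ r' → r.1 = r'.1 → ∀ b, b ∈ r.2 → b ∉ r'.2 := by
    intro r r' hr hr' hne he' b hb hb'
    exact pair_false h hr hr' hne (card_pair_bd_fst (h.isq r hr) (h.isq r' hr') hne he' hb hb')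
  by_contra hne
  obtain ⟨u, v, huv, e1⟩ := Finset.card_eq_two.1 (h.isq q hq).1
  obtain ⟨b, c, hbc, e2⟩ := Finset.card_eq_two.1 (h.isq q hq).2
  obtain ⟨b', c', hbc', e3⟩ := Finset.card_eq_two.1 (h.isq q' hq').2
  have hb : b ∈ q.2 := by rw [e2]; exact Finset.mem_insert_self _ _
  have hb' : b' ∈ q'.2 := by rw [e3]; exact Finset.mem_insert_self _ _
  have hbb : b ≠ b' := by
    rintro rfl
    exact h0 q q' hq hq' hne he b hb hb'
  have hu : u ∈ q.1 := by rw [e1]; exact Finset.mem_insert_self _ _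
  have hv : v ∈ q.1 := by rw [e1]; exact Finset.mem_insert_of_mem (Finset.mem_singleton_self _)
  have hr := h.quad_of_cycle huv hbb (mem_EdS.2 ⟨q, hq, mem_ed.2 ⟨hu, hb⟩⟩)
    (mem_EdS.2 ⟨q', hq', mem_ed.2 ⟨he ▸ hu, hb'⟩⟩) (mem_EdS.2 ⟨q, hq, mem_ed.2 ⟨hv, hb⟩⟩)
    (mem_EdS.2 ⟨q', hq', mem_ed.2 ⟨he ▸ hv, hb'⟩⟩)
  by_cases hrq : q = ((({u, v} : Finset ℕ), ({b, b'} : Finset ℕ)) : Quad)
  · refine h0 q q' hq hq' hne he b' ?_ hb'
    rw [hrq]
    exact Finset.mem_insert_of_mem (Finset.mem_singleton_self _)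
  · exact h0 q _ hq hr hrq e1 b hb (Finset.mem_insert_self _ _)

theorem Irr.snd_inj {Q : Finset Quad} (h : Irr Q) {q q' : Quad} (hq : q ∈ Q) (hq' : q' ∈ Q)
    (he : q.2 = q'.2) : q = q' := by
  have h0 : ∀ r r' : Quad, r ∈ Q → r' ∈ Q → r ≠ r' → r.2 = r'.2 → ∀ b, b ∈ r.1 → b ∉ r'.1 := by
    intro r r' hr hr' hne he' b hb hb'
    exact pair_false h hr hr' hne (card_pair_bd_snd (h.isq r hr) (h.isq r' hr') hne he' hb hb')
  by_contra hne
  obtain ⟨u, v, huv, e1⟩ := Finset.card_eq_two.1 (h.isq q hq).2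
  obtain ⟨b, c, hbc, e2⟩ := Finset.card_eq_two.1 (h.isq q hq).1
  obtain ⟨b', c', hbc', e3⟩ := Finset.card_eq_two.1 (h.isq q' hq').1
  have hb : b ∈ q.1 := by rw [e2]; exact Finset.mem_insert_self _ _
  have hb' : b' ∈ q'.1 := by rw [e3]; exact Finset.mem_insert_self _ _
  have hbb : b ≠ b' := by
    rintro rfl
    exact h0 q q' hq hq' hne he b hb hb'
  have hu : u ∈ q.2 := by rw [e1]; exact Finset.mem_insert_self _ _
  have hv : v ∈ q.2 := by rw [e1]; exact Finset.mem_insert_of_mem (Finset.mem_singleton_self _)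
  have hr := h.quad_of_cycle hbb huv (mem_EdS.2 ⟨q, hq, mem_ed.2 ⟨hb, hu⟩⟩)
    (mem_EdS.2 ⟨q, hq, mem_ed.2 ⟨hb, hv⟩⟩) (mem_EdS.2 ⟨q', hq', mem_ed.2 ⟨hb', he ▸ hu⟩⟩)
    (mem_EdS.2 ⟨q', hq', mem_ed.2 ⟨hb', he ▸ hv⟩⟩)
  by_cases hrq : q = ((({b, b'} : Finset ℕ), ({u, v} : Finset ℕ)) : Quad)
  · refine h0 q q' hq hq' hne he b' ?_ hb'
    rw [hrq]
    exact Finset.mem_insert_of_mem (Finset.mem_singleton_self _)
  · exact h0 q _ hq hr hrq e1 b hb (Finset.mem_insert_self _ _)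

theorem Irr.deg_white {Q : Finset Quad} (h : Irr Q) {w : ℕ} (hw : w ∈ wh Q) :
    3 ≤ (atw Q w).card := by
  unfold wh at hw
  rw [Finset.mem_biUnion] at hw
  obtain ⟨q, hq, hwq⟩ := hw
  obtain ⟨b, c, hbc, e2⟩ := Finset.card_eq_two.1 (h.isq q hq).2
  have hb : b ∈ q.2 := by rw [e2]; exact Finset.mem_insert_self _ _
  have hc : c ∈ q.2 := by rw [e2]; exact Finset.mem_insert_of_mem (Finset.mem_singleton_self _)
  obtain ⟨q', hq', hne', hw', hb', -⟩ := h.toSph.pair_at hq hwq hb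
  obtain ⟨q'', hq'', hne'', hw'', hc'', -⟩ := h.toSph.pair_at hq hwq hc
  have hc' : c ∉ q'.2 := by
    intro hc'
    obtain ⟨x, hx, e3⟩ := pair_with (h.isq q' hq').2 hb'
    rw [e3, Finset.mem_insert, Finset.mem_singleton] at hc'
    rcases hc' with h1 | h1
    · exact hbc h1.symm
    · refine hne' (h.snd_inj hq' hq ?_)
      rw [e3, e2, h1]
  have hne : q'' ≠ q' := by
    rintro rfl
    exact hc' hc''
  have hsub : ({q, q', q''} : Finset Quad) ⊆ atw Q w := by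
    intro r hr
    simp only [Finset.mem_insert, Finset.mem_singleton] at hr
    unfold atw
    rw [Finset.mem_filter]
    rcases hr with rfl | rfl | rfl
    · exact ⟨hq, hwq⟩
    · exact ⟨hq', hw'⟩
    · exact ⟨hq'', hw''⟩
  have h3 : ({q, q', q''} : Finset Quad).card = 3 := Finset.card_eq_three.2 ⟨q, q', q'', hne'.symm, hne''.symm, hne.symm, rfl⟩
  rw [← h3]
  exact Finset.card_le_card hsub

theorem Irr.deg_black {Q : Finset Quad} (h : Irr Q) {b : ℕ} (hb : b ∈ bl Q) :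
    3 ≤ (atb Q b).card := by
  unfold bl at hb
  rw [Finset.mem_biUnion] at hb
  obtain ⟨q, hq, hbq⟩ := hb
  obtain ⟨u, v, huv, e2⟩ := Finset.card_eq_two.1 (h.isq q hq).1
  have hu : u ∈ q.1 := by rw [e2]; exact Finset.mem_insert_self _ _
  have hv : v ∈ q.1 := by rw [e2]; exact Finset.mem_insert_of_mem (Finset.mem_singleton_self _)
  obtain ⟨q', hq', hne', hu', hb', -⟩ := h.toSph.pair_at hq hu hbq
  obtain ⟨q'', hq'', hne'', hv'', hb'', -⟩ := h.toSph.pair_at hq hv hbq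
  have hv' : v ∉ q'.1 := by
    intro hv'
    obtain ⟨x, hx, e3⟩ := pair_with (h.isq q' hq').1 hu'
    rw [e3, Finset.mem_insert, Finset.mem_singleton] at hv'
    rcases hv' with h1 | h1
    · exact huv h1.symm
    · refine hne' (h.fst_inj hq' hq ?_)
      rw [e3, e2, h1]
  have hne : q'' ≠ q' := by
    rintro rfl
    exact hv' hv''
  have hsub : ({q, q', q''} : Finset Quad) ⊆ atb Q b := by
    intro r hr
    simp only [Finset.mem_insert, Finset.mem_singleton] at hr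
    unfold atb
    rw [Finset.mem_filter]
    rcases hr with rfl | rfl | rfl
    · exact ⟨hq, hbq⟩
    · exact ⟨hq', hb'⟩
    · exact ⟨hq'', hb''⟩
  have h3 : ({q, q', q''} : Finset Quad).card = 3 := Finset.card_eq_three.2 ⟨q, q', q'', hne'.symm, hne''.symm, hne.symm, rfl⟩
  rw [← h3]
  exact Finset.card_le_card hsub

end K5M
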