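import Pool.Agent.Lib.K5M.SKDefs
import Pool.Agent.Lib.K5M.SDeg
import Pool.Agent.Lib.K5M.STri

/-!
# K5M.SK3: the weight of a marked core is the weight of the graph with marked triangles

PROOFS. The map `r ↦ r.1` is injective on `Q` (`Irr.fst_inj`), the map `e ↦ e.toFinset` is injective on the pairs `s(a, c)` with `a ≠ c` (`Sym2.toFinset_mk_eq`), and `s(a, c)` is an edge of `gr Q` iff `{a, c}` is `r.1` for some
`r ∈ Q` (`a ≠ c`). So for a property `p` of edges and `p'` of quads that correspond, the numbers are equal (`Set.ncard_image_of_injOn`, `Finset.card_image_of_injOn`, `Set.ncard_coe_finset`): `card_edges`.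
`cov_iff`: `Cov (M'.image (fv Q)) s(a, c)` iff some `b ∈ M'` has `a, c ∈ fv Q b`, iff `b ∈ r.2` (`Irr.mem_snd`), iff `r.2` and `M'` are not disjoint.
`s(a, c) ∈ (clq {0, 1}).edgeSet` iff `{a, c} = {0, 1}`, iff `r = qs`. So the edges not in `clq {0, 1}` are the quads of `Q.erase qs`: this is `cw_eq1` (`|M'.image (fv Q)| = |M'|` by `Irr.fv_inj`).
`cw_eq2`: `R = fv Q 2` has three elements and contains 0 and 1: `R = {0, 1, v}`. The covered edges of `M'` other than `01` are the two edges `0v`, `1v` of `clq R` and the edges outside `clq R` covered by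
`(M'.erase 2).image (fv Q)`: these two edges are edges of `gr Q` (`Irr.nt_of_tri`: `clq R ≤ gr Q`) and `2 ∈ r.2` for their quads; the edges outside `clq R`: `2 ∉ r.2`, so `r.2` meets `M'` iff it meets `M'.erase 2`. The edges not covered by
`M'`: `2 ∉ r.2`, so they are not in `clq R`, and not covered by `M'.erase 2`. `|M'.erase 2| = |M'| - 1`.
-/

set_option autoImplicit false

namespace K5M

open Finset
open scoped ENNReal

theorem Irr.card_edges {Q : Finset Quad} (h : Irr Q) (p : Sym2 ℕ → Prop) (p' : Quad → Prop)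
    [DecidablePred p'] (hp : ∀ a c, a ≠ c → ∀ r ∈ Q, r.1 = {a, c} → (p s(a, c) ↔ p' r)) :
    {e : Sym2 ℕ | e ∈ (gr Q).edgeSet ∧ p e}.ncard = (Q.filter p').card := by
  have hinj : Function.Injective (Sym2.toFinset : Sym2 ℕ → Finset ℕ) := by
    intro e e' hee
    apply Sym2.ext
    intro x
    rw [← Sym2.mem_toFinset, hee, Sym2.mem_toFinset]
  have h1 : (Sym2.toFinset : Sym2 ℕ → Finset ℕ) '' {e : Sym2 ℕ | e ∈ (gr Q).edgeSet ∧ p e} =
      (((Q.filter p').image Prod.fst : Finset (Finset ℕ)) : Set (Finset ℕ)) := by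
    ext s
    rw [Set.mem_image, Finset.mem_coe, Finset.mem_image]
    constructor
    · rintro ⟨e, he, rfl⟩
      revert he
      refine Sym2.ind (fun a c he => ?_) e
      obtain ⟨h2, h3⟩ := he
      have h4 : (gr Q).Adj a c := h2
      obtain ⟨hac, q, hq, hqe⟩ := h4
      exact ⟨q, Finset.mem_filter.2 ⟨hq, (hp a c hac q hq hqe).1 h3⟩, by rw [hqe, Sym2.toFinset_mk_eq]⟩
    · rintro ⟨r, hr, rfl⟩
      obtain ⟨hrQ, hrp⟩ := Finset.mem_filter.1 hr
      obtain ⟨a, c, hac, hre⟩ := Finset.card_eq_two.1 (h.isq r hrQ).1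
      refine ⟨s(a, c), ⟨?_, (hp a c hac r hrQ hre).2 hrp⟩, by rw [hre, Sym2.toFinset_mk_eq]⟩
      show (gr Q).Adj a c
      exact ⟨hac, r, hrQ, hre⟩
  rw [← Set.ncard_image_of_injective _ hinj, h1, Set.ncard_coe_finset, Finset.card_image_of_injOn]
  intro r hr r' hr' hrr
  exact h.fst_inj (Finset.mem_filter.1 hr).1 (Finset.mem_filter.1 hr').1 hrr

namespace SK3Aux

theorem sub_fv {Q : Finset Quad} (h : Irr Q) {r : Quad} (hr : r ∈ Q) {a c b : ℕ} (he : r.1 = {a, c}) :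
    (a ∈ fv Q b ∧ c ∈ fv Q b) ↔ b ∈ r.2 := by
  rw [h.mem_snd hr, he, Finset.insert_subset_iff, Finset.singleton_subset_iff]

theorem clq_iff {Q : Finset Quad} (h : Irr Q) {r : Quad} (hr : r ∈ Q) {a c b : ℕ} (hac : a ≠ c)
    (he : r.1 = {a, c}) : s(a, c) ∈ (K5.clq (fv Q b)).edgeSet ↔ b ∈ r.2 := by
  rw [← sub_fv h hr he]
  exact ⟨fun h => h.2, fun h => ⟨hac, h⟩⟩

theorem root_iff {Q : Finset Quad} (h : Irr Q) (hqs : qs ∈ Q) {r : Quad} (hr : r ∈ Q) {a c : ℕ} (hac : a ≠ c)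
    (he : r.1 = {a, c}) : s(a, c) ∈ (K5.clq {0, 1}).edgeSet ↔ r = qs := by
  constructor
  · intro h1
    have h2 : a ≠ c ∧ a ∈ ({0, 1} : Finset ℕ) ∧ c ∈ ({0, 1} : Finset ℕ) := h1
    apply h.fst_inj hr hqs
    rw [he]
    show ({a, c} : Finset ℕ) = {0, 1}
    apply Finset.eq_of_subset_of_card_le
    · intro x hx
      rcases Finset.mem_insert.1 hx with h3 | h3
      · rw [h3]; exact h2.2.1
      · rw [Finset.mem_singleton.1 h3]; exact h2.2.2
    · rw [Finset.card_pair hac, Finset.card_pair (by norm_num)]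
  · intro h1
    have h2 : ({a, c} : Finset ℕ) = {0, 1} := by rw [← he, h1]; rfl
    show a ≠ c ∧ a ∈ ({0, 1} : Finset ℕ) ∧ c ∈ ({0, 1} : Finset ℕ)
    refine ⟨hac, ?_, ?_⟩
    · rw [← h2]; exact Finset.mem_insert_self _ _
    · rw [← h2]; exact Finset.mem_insert_of_mem (Finset.mem_singleton_self _)

end SK3Aux

open SK3Aux

theorem Irr.cov_iff {Q : Finset Quad} (h : Irr Q) {M' : Finset ℕ} {r : Quad} (hr : r ∈ Q)
    {a c : ℕ} (hac : a ≠ c) (he : r.1 = {a, c}) :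
    K5.Cov (M'.image (fv Q)) s(a, c) ↔ ¬ Disjoint r.2 M' := by
  rw [Finset.not_disjoint_iff]
  constructor
  · rintro ⟨X, hX, h1⟩
    obtain ⟨b, hb, rfl⟩ := Finset.mem_image.1 hX
    exact ⟨b, (clq_iff h hr hac he).1 h1, hb⟩
  · rintro ⟨b, hb, hbM⟩
    exact ⟨fv Q b, Finset.mem_image_of_mem _ hbM, (clq_iff h hr hac he).2 hb⟩

theorem SP.cw_eq1 {W B L : Finset ℕ} {H : K5.Gr} {Q : Finset Quad} {M' : Finset ℕ}
    (h : SP W B H Q) (hM : M' ⊆ bl Q) (hL : wh (Q.erase qs) ∩ L = W) (x z w T : ℝ≥0∞) :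
    cw x z w T M'.card L (Q.erase qs) M' =
      x ^ W.card * K5.mwt z w T {0, 1} H (M'.image (fv Q)) := by
  classical
  have hQ := h.irr
  have e1 : (M'.image (fv Q)).card = M'.card := by
    apply Finset.card_image_of_injOn
    intro b hb b' hb' hbb
    exact hQ.fv_inj (hM hb) (hM hb') hbb
  have e2 : {e : Sym2 ℕ | e ∈ (gr Q).edgeSet ∧ (K5.Cov (M'.image (fv Q)) e ∧ e ∉ (K5.clq {0, 1}).edgeSet)}.ncard =
      (Q.filter (fun r => ¬ Disjoint r.2 M' ∧ r ≠ qs)).card := by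
    apply hQ.card_edges
    intro a c hac r hr he
    rw [hQ.cov_iff hr hac he, root_iff hQ h.mem hr hac he]
  have e3 : {e : Sym2 ℕ | e ∈ (gr Q).edgeSet ∧ (¬ K5.Cov (M'.image (fv Q)) e ∧ e ∉ (K5.clq {0, 1}).edgeSet)}.ncard =
      (Q.filter (fun r => Disjoint r.2 M' ∧ r ≠ qs)).card := by
    apply hQ.card_edges
    intro a c hac r hr he
    rw [hQ.cov_iff hr hac he, root_iff hQ h.mem hr hac he, not_not]
  have e4 : Q.filter (fun r => ¬ Disjoint r.2 M' ∧ r ≠ qs) = (Q.erase qs).filter (fun r => ¬ Disjoint r.2 M') := by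
    ext r
    simp only [Finset.mem_filter, Finset.mem_erase]
    tauto
  have e5 : Q.filter (fun r => Disjoint r.2 M' ∧ r ≠ qs) = (Q.erase qs).filter (fun r => Disjoint r.2 M') := by
    ext r
    simp only [Finset.mem_filter, Finset.mem_erase]
    tauto
  rw [e4] at e2
  rw [e5] at e3
  unfold cw K5.mwt
  rw [hL, e1, ← h.egr, ← e2, ← e3]
  ring

theorem SP.cw_eq2 {W B L : Finset ℕ} {H : K5.Gr} {Q : Finset Quad} {M' : Finset ℕ}
    (h : SP W B H Q) (hM : M' ⊆ bl Q) (h2 : 2 ∈ M') (h3 : (atb Q 2).card = 3)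
    (hL : wh (Q.erase qs) ∩ L = W) (x z w T : ℝ≥0∞) :
    cw x z w T (M'.card - 1) L (Q.erase qs) M' =
      x ^ W.card * w ^ 2 * K5.mwt z w T (fv Q 2) H ((M'.erase 2).image (fv Q)) := by
  classical
  have hQ := h.irr
  have e1 : ((M'.erase 2).image (fv Q)).card = M'.card - 1 := by
    rw [Finset.card_image_of_injOn, Finset.card_erase_of_mem h2]
    intro b hb b' hb' hbb
    exact hQ.fv_inj (hM (Finset.mem_of_mem_erase hb)) (hM (Finset.mem_of_mem_erase hb')) hbb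
  have e2 : {e : Sym2 ℕ | e ∈ (gr Q).edgeSet ∧
      (K5.Cov ((M'.erase 2).image (fv Q)) e ∧ e ∉ (K5.clq (fv Q 2)).edgeSet)}.ncard =
      (Q.filter (fun r => ¬ Disjoint r.2 (M'.erase 2) ∧ 2 ∉ r.2)).card := by
    apply hQ.card_edges
    intro a c hac r hr he
    rw [hQ.cov_iff hr hac he, clq_iff hQ hr hac he]
  have e3 : {e : Sym2 ℕ | e ∈ (gr Q).edgeSet ∧
      (¬ K5.Cov ((M'.erase 2).image (fv Q)) e ∧ e ∉ (K5.clq (fv Q 2)).edgeSet)}.ncard =
      (Q.filter (fun r => Disjoint r.2 (M'.erase 2) ∧ 2 ∉ r.2)).card := by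
    apply hQ.card_edges
    intro a c hac r hr he
    rw [hQ.cov_iff hr hac he, clq_iff hQ hr hac he, not_not]
  have hd : ∀ r : Quad, 2 ∉ r.2 → (Disjoint r.2 (M'.erase 2) ↔ Disjoint r.2 M') := by
    intro r hr
    rw [Finset.disjoint_left, Finset.disjoint_left]
    constructor
    · intro g b hb hbM
      exact g hb (Finset.mem_erase.2 ⟨fun hh => hr (hh ▸ hb), hbM⟩)
    · intro g b hb hbM
      exact g hb (Finset.mem_of_mem_erase hbM)
  have hqs2 : 2 ∈ qs.2 := by decide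
  have hmd : ∀ r : Quad, 2 ∈ r.2 → ¬ Disjoint r.2 M' := fun r hr hh => Finset.disjoint_left.1 hh hr h2
  have e5 : Q.filter (fun r => Disjoint r.2 (M'.erase 2) ∧ 2 ∉ r.2) =
      (Q.erase qs).filter (fun r => Disjoint r.2 M') := by
    ext r
    simp only [Finset.mem_filter, Finset.mem_erase]
    constructor
    · rintro ⟨g1, g2, g3⟩
      exact ⟨⟨fun hh => g3 (by rw [hh]; exact hqs2), g1⟩, (hd r g3).1 g2⟩
    · rintro ⟨⟨g1, g2⟩, g3⟩
      have g4 : 2 ∉ r.2 := fun hh => hmd r hh g3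
      exact ⟨g2, (hd r g4).2 g3, g4⟩
  have e4 : (Q.erase qs).filter (fun r => ¬ Disjoint r.2 M') =
      (atb Q 2).erase qs ∪ Q.filter (fun r => ¬ Disjoint r.2 (M'.erase 2) ∧ 2 ∉ r.2) := by
    ext r
    simp only [Finset.mem_filter, Finset.mem_erase, Finset.mem_union, atb]
    constructor
    · rintro ⟨⟨g1, g2⟩, g3⟩
      by_cases g4 : 2 ∈ r.2
      · exact Or.inl ⟨g1, g2, g4⟩
      · exact Or.inr ⟨g2, fun hh => g3 ((hd r g4).1 hh), g4⟩
    · rintro (⟨g1, g2, g3⟩ | ⟨g1, g2, g3⟩)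
      · exact ⟨⟨g1, g2⟩, hmd r g3⟩
      · exact ⟨⟨fun hh => g3 (by rw [hh]; exact hqs2), g1⟩, fun hh => g2 ((hd r g3).2 hh)⟩
  have e6 : ((Q.erase qs).filter (fun r => ¬ Disjoint r.2 M')).card =
      2 + (Q.filter (fun r => ¬ Disjoint r.2 (M'.erase 2) ∧ 2 ∉ r.2)).card := by
    rw [e4, Finset.card_union_of_disjoint, Finset.card_erase_of_mem, h3]
    · exact Finset.mem_filter.2 ⟨h.mem, hqs2⟩
    · rw [Finset.disjoint_left]
      intro r hr hr'
      exact (Finset.mem_filter.1 hr').2.2 (Finset.mem_filter.1 (Finset.mem_of_mem_erase hr)).2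
  rw [e5] at e3
  unfold cw K5.mwt
  rw [hL, e1, ← h.egr, e6, ← e2, ← e3, pow_add]
  ring

end K5M
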