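import Pool.Agent.Lib.K5M.SK0

/-!
# K5M.SK4: the sum over marked cores, arranged by the inner whites and by the graph

PROOF. All sums are in `ℝ≥0∞`, so they can be rearranged. Left side: to `(K, M')` belongs `W = wh K ∩ L ∈ L.powerset`; the sum is the sum over `W ∈ L.powerset` of the sum over the pairs with `wh K ∩ L = W`
(for example: `φ = ∑ W ∈ L.powerset, if wh K ∩ L = W then φ else 0`, exchange `∑'` and `∑` with `tsum_finsetSum` (`ENNReal.tsum_finsetSum` or `Summable.tsum_finsetSum ENNReal.summable`), and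
`∑' p : {p // P p}, if Q p then f p else 0 = ∑' p : {p // P p ∧ Q p}, f p`: `tsum_subtype`, `Set.indicator`). For fixed `W` `cm_iff` gives the bijection `(K, M') ↦ (insert qs K, M')` from the pairs with
`CM qs L K M' ∧ wh K ∩ L = W` onto the pairs `(Q, M')` with `SP W (L \ W) (gr Q) Q`, `M' ⊆ bl Q`, all degrees 3; inverse `Q ↦ Q.erase qs` (`Finset.erase_insert`, `Finset.insert_erase`). Then the sum over the pairs is
the iterated sum over `H = gr Q`, `Q`, `M'` (`ENNReal.tsum_sigma'`, `Equiv.tsum_eq`; an equivalence of the subtype of pairs with the sigma type over `H`).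
-/

set_option autoImplicit false

namespace K5M

open Finset
open scoped ENNReal

/-- The way back: a sphere through the standard quad gives a marked core. -/
theorem SK4Aux.back {L W : Finset ℕ} (hL : Disjoint L {0, 1, 2, 3}) (hW : W ⊆ L) {H : K5.Gr}
    {Q : Finset Quad} {M' : Finset ℕ} (h : SP W (L \ W) H Q)
    (hM : M' ⊆ bl Q ∧ ∀ b ∈ M', (atb Q b).card = 3) :
    CM qs L (Q.erase qs) M' ∧ wh (Q.erase qs) ∩ L = W := by
  refine (cm_iff hL hW).2 ⟨Finset.notMem_erase _ _, ?_, ?_, ?_⟩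
  · rw [Finset.insert_erase h.mem, h.egr]
    exact h
  · rw [Finset.insert_erase h.mem]
    exact hM.1
  · rw [Finset.insert_erase h.mem]
    exact hM.2

theorem tsum_cm {L : Finset ℕ} (hL : Disjoint L {0, 1, 2, 3})
    (φ : Finset Quad → Finset ℕ → ℝ≥0∞) :
    ∑' p : {p : Finset Quad × Finset ℕ // CM qs L p.1 p.2}, φ (insert qs p.1.1) p.1.2 =
    ∑ W ∈ L.powerset, ∑' H : K5.Gr, ∑' Q : {Q : Finset Quad // SP W (L \ W) H Q},
      ∑' M' : {M' : Finset ℕ // M' ⊆ bl Q.1 ∧ ∀ b ∈ M', (atb Q.1 b).card = 3}, φ Q.1 M'.1 := by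
  classical
  have e1 : ∑ W ∈ L.powerset, ∑' H : K5.Gr, ∑' Q : {Q : Finset Quad // SP W (L \ W) H Q},
      ∑' M' : {M' : Finset ℕ // M' ⊆ bl Q.1 ∧ ∀ b ∈ M', (atb Q.1 b).card = 3}, φ Q.1 M'.1 =
      ∑' x : (Σ W : {W // W ∈ L.powerset}, Σ H : K5.Gr,
        Σ Q : {Q : Finset Quad // SP W.1 (L \ W.1) H Q},
        {M' : Finset ℕ // M' ⊆ bl Q.1 ∧ ∀ b ∈ M', (atb Q.1 b).card = 3}),
        φ x.2.2.1.1 x.2.2.2.1 := by
    rw [ENNReal.tsum_sigma', ← Finset.tsum_subtype L.powerset (fun W => ∑' H : K5.Gr,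
      ∑' Q : {Q : Finset Quad // SP W (L \ W) H Q},
      ∑' M' : {M' : Finset ℕ // M' ⊆ bl Q.1 ∧ ∀ b ∈ M', (atb Q.1 b).card = 3}, φ Q.1 M'.1)]
    refine tsum_congr fun W => ?_
    rw [ENNReal.tsum_sigma']
    refine tsum_congr fun H => ?_
    rw [ENNReal.tsum_sigma']
  rw [e1]
  let g : (Σ W : {W // W ∈ L.powerset}, Σ H : K5.Gr,
        Σ Q : {Q : Finset Quad // SP W.1 (L \ W.1) H Q},
        {M' : Finset ℕ // M' ⊆ bl Q.1 ∧ ∀ b ∈ M', (atb Q.1 b).card = 3}) →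
      {p : Finset Quad × Finset ℕ // CM qs L p.1 p.2} := fun x =>
    ⟨(x.2.2.1.1.erase qs, x.2.2.2.1),
      (SK4Aux.back hL (Finset.mem_powerset.1 x.1.2) x.2.2.1.2 x.2.2.2.2).1⟩
  have hg : Function.Bijective g := by
    constructor
    · rintro ⟨⟨W, hW⟩, H, ⟨Q, hQ⟩, ⟨M, hM⟩⟩ ⟨⟨W', hW'⟩, H', ⟨Q', hQ'⟩, ⟨M', hM'⟩⟩ h
      have h1 : (Q.erase qs, M) = (Q'.erase qs, M') := congrArg Subtype.val h
      have h2 : Q.erase qs = Q'.erase qs := congrArg Prod.fst h1
      have h3 : M = M' := congrArg Prod.snd h1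
      have h4 : Q = Q' := by
        rw [← Finset.insert_erase hQ.mem, ← Finset.insert_erase hQ'.mem, h2]
      have h5 : W = W' := by
        rw [← (SK4Aux.back hL (Finset.mem_powerset.1 hW) hQ hM).2,
          ← (SK4Aux.back hL (Finset.mem_powerset.1 hW') hQ' hM').2, h2]
      have h6 : H = H' := by
        rw [← hQ.egr, ← hQ'.egr, h4]
      subst h3 h4 h5 h6
      rfl
    · rintro ⟨⟨K, M⟩, hp⟩
      have hW : wh K ∩ L ⊆ L := Finset.inter_subset_right
      obtain ⟨h1, h2, h3, h4⟩ := (cm_iff hL hW).1 ⟨hp, rfl⟩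
      refine ⟨⟨⟨wh K ∩ L, Finset.mem_powerset.2 hW⟩, gr (insert qs K), ⟨insert qs K, h2⟩,
        ⟨M, h3, h4⟩⟩, ?_⟩
      refine Subtype.ext ?_
      change ((insert qs K).erase qs, M) = (K, M)
      rw [Finset.erase_insert h1]
  rw [← (Equiv.ofBijective g hg).tsum_eq]
  refine tsum_congr fun x => ?_
  change φ (insert qs (x.2.2.1.1.erase qs)) x.2.2.2.1 = _
  rw [Finset.insert_erase x.2.2.1.2.mem]

end K5M
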