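import Pool.Agent.Lib.K5M.SK1
import Pool.Agent.Lib.K5M.SK2
import Pool.Agent.Lib.K5M.SK3
import Pool.Agent.Lib.K5M.SK4

/-!
# K5M.SK6: the sum over the marked cores with a mark at the side 2

PROOF. `tsum_cm` with `φ Q M' = if 2 ∈ M' then cw x z w T (M'.card - 1) L (Q.erase qs) M' else 0`. Fix `W ⊆ L`, `B = L \ W`, `H`, and `Q` with `SP W B H Q`. If `(atb Q 2).card ≠ 3` the sum over `M'` is 0. If it is 3, then by
`SP.pcore3` `fv Q 2 = {0, 1, v}` with `v ∈ W` and `PCore {0, 1, v} (W.erase v) H`; by `SP.cw_eq2`, `tsum_marks2` (`2 ∈ bl Q`) the sum over `M'` is `x ^ W.card * w ^ 2 * g v H` with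
`g v H = ∑' M : {M // ∀ X ∈ M, NT H ({0, 1} ∪ W) X ∧ X ≠ {0, 1, v}}, mwt z w T {0, 1, v} H M`.
So the sum over `M'` is `∑ v ∈ W, if fv Q 2 = {0, 1, v} ∧ PCore {0, 1, v} (W.erase v) H then x ^ W.card * w ^ 2 * g v H else 0` (at most one `v`, as `0, 1 ∉ W`; conversely if `fv Q 2 = {0, 1, v}`, `v ∈ W`, then
`(atb Q 2).card = 3` by `Irr.fv_card`). Exchange the sums: for fixed `v ∈ W` and `H` with `PCore {0, 1, v} (W.erase v) H` the sum over `Q` is `x ^ W.card * w ^ 2 * g v H` times `∑' _ : {Q // SP W B H Q ∧ fv Q 2 = {0, 1, v}}, 1`, which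
is given by `tsum_SP_fv`. The sum over `H` is `sS z w T {0, 1, v} (W.erase v) (|B| + 2)` up to the factors (`{0, 1, v} ∪ W.erase v = {0, 1} ∪ W`).
-/

set_option autoImplicit false

namespace K5M

open Finset
open scoped ENNReal

namespace SK6Aux

theorem tsum_and {α : Type*} (P R : α → Prop) [DecidablePred R] (f : α → ℝ≥0∞) :
    ∑' p : {p : α // P p ∧ R p}, f p.1 = ∑' p : {p : α // P p}, if R p.1 then f p.1 else 0 := by
  classical
  have h1 : ∑' p : {p : α // P p ∧ R p}, f p.1 = ∑' p, Set.indicator {p | P p ∧ R p} f p :=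
    tsum_subtype {p | P p ∧ R p} f
  have h2 : ∑' p : {p : α // P p}, (if R p.1 then f p.1 else 0) =
      ∑' p, Set.indicator {p | P p} (fun p => if R p then f p else 0) p :=
    tsum_subtype {p | P p} (fun p => if R p then f p else 0)
  rw [h1, h2]
  refine tsum_congr fun p => ?_
  by_cases hP : P p <;> by_cases hR : R p <;> simp [Set.indicator, hP, hR]

open Classical in
theorem tsum_pair {α β : Type*} (P N : α → Prop) (R : α → β → Prop) (f : α → β → ℝ≥0∞) :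
    ∑' p : {p : α × β // (P p.1 ∧ R p.1 p.2) ∧ N p.1}, f p.1.1 p.1.2 =
      ∑' a, if P a ∧ N a then ∑' b : {b // R a b}, f a b.1 else 0 := by
  have h1 : ∑' p : {p : α × β // (P p.1 ∧ R p.1 p.2) ∧ N p.1}, f p.1.1 p.1.2 =
      ∑' p : α × β, Set.indicator {p : α × β | (P p.1 ∧ R p.1 p.2) ∧ N p.1}
        (fun p => f p.1 p.2) p :=
    tsum_subtype {p : α × β | (P p.1 ∧ R p.1 p.2) ∧ N p.1} (fun p => f p.1 p.2)
  rw [h1, ENNReal.tsum_prod']
  refine tsum_congr fun a => ?_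
  split_ifs with h
  · have h2 : ∑' b : {b // R a b}, f a b.1 = ∑' b, Set.indicator {b | R a b} (f a) b :=
      tsum_subtype {b | R a b} (f a)
    rw [h2]
    refine tsum_congr fun b => ?_
    by_cases hR : R a b <;> simp [Set.indicator, h.1, h.2, hR]
  · rw [ENNReal.tsum_eq_zero]
    intro b
    rw [Set.indicator_of_notMem]
    rintro ⟨⟨h3, -⟩, h4⟩
    exact h ⟨h3, h4⟩

theorem mem4 {L : Finset ℕ} (hL : Disjoint L {0, 1, 2, 3}) {y : ℕ} (hy : y ∈ L) :
    y ≠ 0 ∧ y ≠ 1 ∧ y ≠ 2 ∧ y ≠ 3 := by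
  have h : y ∉ ({0, 1, 2, 3} : Finset ℕ) := fun h => Finset.disjoint_left.1 hL hy h
  rw [Finset.mem_insert, Finset.mem_insert, Finset.mem_insert, Finset.mem_singleton] at h
  push Not at h
  exact h

theorem dis23 {L : Finset ℕ} (W : Finset ℕ) (hL : Disjoint L {0, 1, 2, 3}) :
    Disjoint {2, 3} (L \ W) := by
  rw [Finset.disjoint_left]
  intro y hy hy'
  have h1 := mem4 hL (Finset.mem_sdiff.1 hy').1
  rw [Finset.mem_insert, Finset.mem_singleton] at hy
  rcases hy with h2 | h2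
  · exact h1.2.2.1 h2
  · exact h1.2.2.2 h2

theorem dis01 {L W : Finset ℕ} (hL : Disjoint L {0, 1, 2, 3}) (hW : W ⊆ L) :
    Disjoint {0, 1} W := by
  rw [Finset.disjoint_left]
  intro y hy hy'
  have h1 := mem4 hL (hW hy')
  rw [Finset.mem_insert, Finset.mem_singleton] at hy
  rcases hy with h2 | h2
  · exact h1.1 h2
  · exact h1.2.1 h2

theorem disWB {L W : Finset ℕ} (hL : Disjoint L {0, 1, 2, 3}) (hW : W ⊆ L) :
    Disjoint ({0, 1} ∪ W) ({2, 3} ∪ (L \ W)) := by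
  rw [Finset.disjoint_left]
  intro y hy hy'
  rw [Finset.mem_union, Finset.mem_insert, Finset.mem_singleton] at hy hy'
  rcases hy with h1 | h1
  · rcases hy' with h2 | h2
    · omega
    · have h3 := mem4 hL (Finset.mem_sdiff.1 h2).1
      omega
  · rcases hy' with h2 | h2
    · have h3 := mem4 hL (hW h1)
      omega
    · exact (Finset.mem_sdiff.1 h2).2 h1

theorem card3 {v : ℕ} (h0 : v ≠ 0) (h1 : v ≠ 1) : ({0, 1, v} : Finset ℕ).card = 3 := by
  rw [Finset.card_insert_of_notMem, Finset.card_insert_of_notMem, Finset.card_singleton]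
  · rw [Finset.mem_singleton]
    exact h1.symm
  · rw [Finset.mem_insert, Finset.mem_singleton]
    rintro (h | h)
    · omega
    · exact h0 h.symm

theorem tri_inj {v v' : ℕ} (h0 : v ≠ 0) (h1 : v ≠ 1)
    (h : ({0, 1, v} : Finset ℕ) = {0, 1, v'}) : v = v' := by
  have h2 : v ∈ ({0, 1, v'} : Finset ℕ) := by
    rw [← h]
    simp
  rw [Finset.mem_insert, Finset.mem_insert, Finset.mem_singleton] at h2
  rcases h2 with h2 | h2 | h2
  · exact absurd h2 h0
  · exact absurd h2 h1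
  · exact h2

/-- The weight for a given graph and a given third vertex of the marked face. -/
noncomputable def cc (x z w T : ℝ≥0∞) (W : Finset ℕ) (H : K5.Gr) (v : ℕ) : ℝ≥0∞ :=
  x ^ W.card * w ^ 2 * ∑' M : {M : Finset (Finset ℕ) // ∀ X ∈ M,
    K5.NT H ({0, 1} ∪ W) X ∧ X ≠ {0, 1, v}}, K5.mwt z w T {0, 1, v} H M.1

theorem whL {L W : Finset ℕ} {H : K5.Gr} {Q : Finset Quad} (hL : Disjoint L {0, 1, 2, 3})
    (hW : W ⊆ L) (h : SP W (L \ W) H Q) : wh (Q.erase qs) ∩ L = W := by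
  have h1 := (h.irr.toCoreQ h.mem).wh_ins
  rw [Finset.insert_erase h.mem] at h1
  rw [← h1, h.ewh]
  ext y
  rw [Finset.mem_inter, Finset.mem_union, Finset.mem_insert, Finset.mem_singleton]
  constructor
  · rintro ⟨h2 | h2, h3⟩
    · have h4 := mem4 hL h3
      omega
    · exact h2
  · intro h2
    exact ⟨Or.inr h2, hW h2⟩

theorem inner {L W : Finset ℕ} {H : K5.Gr} {Q : Finset Quad} (hL : Disjoint L {0, 1, 2, 3})
    (hW : W ⊆ L) (h : SP W (L \ W) H Q) (x z w T : ℝ≥0∞) :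
    ∑' M' : {M' : Finset ℕ // M' ⊆ bl Q ∧ ∀ b ∈ M', (atb Q b).card = 3},
      (if 2 ∈ M'.1 then cw x z w T (M'.1.card - 1) L (Q.erase qs) M'.1 else 0) =
    ∑ v ∈ W, if fv Q 2 = {0, 1, v} then cc x z w T W H v else 0 := by
  rw [← tsum_and (fun M' : Finset ℕ => M' ⊆ bl Q ∧ ∀ b ∈ M', (atb Q b).card = 3)
    (fun M' => 2 ∈ M') (fun M' => cw x z w T (M'.card - 1) L (Q.erase qs) M')]
  by_cases h3 : (atb Q 2).card = 3
  · obtain ⟨v, hv, hfv, hP, hset⟩ := h.pcore3 (dis01 hL hW) h3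
    have h2 : (2 : ℕ) ∈ bl Q := by
      rw [h.ebl]
      simp
    have hv4 := mem4 hL (hW hv)
    rw [Finset.sum_eq_single v]
    · rw [if_pos hfv]
      have h4 : ∀ M' : {M' : Finset ℕ // (M' ⊆ bl Q ∧ ∀ b ∈ M', (atb Q b).card = 3) ∧ 2 ∈ M'},
          cw x z w T (M'.1.card - 1) L (Q.erase qs) M'.1 =
            x ^ W.card * w ^ 2 * K5.mwt z w T (fv Q 2) H ((M'.1.erase 2).image (fv Q)) := by
        intro M'
        exact h.cw_eq2 M'.2.1.1 M'.2.2 h3 (whL hL hW h) x z w T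
      rw [tsum_congr h4, ENNReal.tsum_mul_left,
        tsum_marks2 h.irr h2 h3 (fun M => K5.mwt z w T (fv Q 2) H M)]
      unfold cc
      rw [h.ewh, h.egr, hfv]
    · intro v' hv' hne
      rw [if_neg]
      intro h5
      exact hne (tri_inj hv4.1 hv4.2.1 (hfv.symm.trans h5)).symm
    · intro h5
      exact absurd hv h5
  · have h4 : IsEmpty {M' : Finset ℕ // (M' ⊆ bl Q ∧ ∀ b ∈ M', (atb Q b).card = 3) ∧ 2 ∈ M'} :=
      ⟨fun M' => h3 (M'.2.1.2 2 M'.2.2)⟩
    rw [tsum_empty]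
    symm
    apply Finset.sum_eq_zero
    intro v hv
    rw [if_neg]
    intro h5
    apply h3
    have hv4 := mem4 hL (hW hv)
    rw [← h.irr.fv_card 2, h5]
    exact card3 hv4.1 hv4.2.1

open Classical in
theorem outer {L W : Finset ℕ} (H : K5.Gr) (hL : Disjoint L {0, 1, 2, 3})
    (hW : W ⊆ L) {v : ℕ} (hv : v ∈ W) (C : ℝ≥0∞) :
    ∑' Q : {Q : Finset Quad // SP W (L \ W) H Q}, (if fv Q.1 2 = {0, 1, v} then C else 0) =
      if K5.PCore {0, 1, v} (W.erase v) H ∧ nbl H = (L \ W).card + 2 then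
        ((L \ W).card.factorial : ℝ≥0∞) * C else 0 := by
  have hv4 := mem4 hL (hW hv)
  rw [← tsum_and (fun Q : Finset Quad => SP W (L \ W) H Q) (fun Q => fv Q 2 = {0, 1, v})
    (fun _ => C)]
  by_cases hP : K5.PCore {0, 1, v} (W.erase v) H
  · have h1 := tsum_SP_fv (dis23 W hL) (disWB hL hW) hv (dis01 hL hW) hP
    have h2 : ∑' _ : {Q : Finset Quad // SP W (L \ W) H Q ∧ fv Q 2 = {0, 1, v}}, C =
        (∑' _ : {Q : Finset Quad // SP W (L \ W) H Q ∧ fv Q 2 = {0, 1, v}}, (1 : ℝ≥0∞)) * C := by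
      rw [← ENNReal.tsum_mul_right]
      simp only [one_mul]
    rw [h2, h1]
    by_cases hn : nbl H = (L \ W).card + 2
    · rw [if_pos hn, if_pos ⟨hP, hn⟩]
    · rw [if_neg hn, if_neg (fun h => hn h.2), zero_mul]
  · have h4 : IsEmpty {Q : Finset Quad // SP W (L \ W) H Q ∧ fv Q 2 = {0, 1, v}} := by
      refine ⟨fun Q => hP ?_⟩
      have h3 : (atb Q.1 2).card = 3 := by
        rw [← Q.2.1.irr.fv_card 2, Q.2.2]
        exact card3 hv4.1 hv4.2.1
      obtain ⟨v', hv', hfv, hP', -⟩ := Q.2.1.pcore3 (dis01 hL hW) h3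
      have h5 : v = v' := tri_inj hv4.1 hv4.2.1 (Q.2.2.symm.trans hfv)
      rw [h5]
      exact hP'
    rw [tsum_empty, if_neg (fun h => hP h.1)]

theorem sS_eq {L W : Finset ℕ} (hL : Disjoint L {0, 1, 2, 3}) (hW : W ⊆ L) {v : ℕ} (hv : v ∈ W)
    (x z w T : ℝ≥0∞) :
    ∑' H : K5.Gr, ∑' Q : {Q : Finset Quad // SP W (L \ W) H Q},
      (if fv Q.1 2 = {0, 1, v} then cc x z w T W H v else 0) =
    x ^ W.card * w ^ 2 * ((L \ W).card.factorial : ℝ≥0∞) *
      sS z w T {0, 1, v} (W.erase v) ((L \ W).card + 2) := by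
  classical
  have hset : ({0, 1, v} : Finset ℕ) ∪ W.erase v = {0, 1} ∪ W := by
    ext y
    simp only [Finset.mem_union, Finset.mem_insert, Finset.mem_singleton, Finset.mem_erase]
    constructor
    · rintro ((h1 | h1 | h1) | h1)
      · exact Or.inl (Or.inl h1)
      · exact Or.inl (Or.inr h1)
      · exact Or.inr (h1 ▸ hv)
      · exact Or.inr h1.2
    · rintro ((h1 | h1) | h1)
      · exact Or.inl (Or.inl h1)
      · exact Or.inl (Or.inr (Or.inl h1))
      · by_cases hy : y = v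
        · exact Or.inl (Or.inr (Or.inr hy))
        · exact Or.inr ⟨hy, h1⟩
  unfold sS
  rw [tsum_pair (fun H => K5.PCore {0, 1, v} (W.erase v) H)
    (fun H => nbl H = (L \ W).card + 2)
    (fun H M => ∀ X ∈ M, K5.NT H ({0, 1, v} ∪ W.erase v) X ∧ X ≠ {0, 1, v})
    (fun H M => K5.mwt z w T {0, 1, v} H M), ← ENNReal.tsum_mul_left]
  refine tsum_congr fun H => ?_
  rw [outer H hL hW hv]
  split_ifs with h1
  · unfold cc
    rw [hset]
    ring
  · rw [mul_zero]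

end SK6Aux

open SK6Aux

theorem sum_two {L : Finset ℕ} (hL : Disjoint L {0, 1, 2, 3}) (x z w T : ℝ≥0∞) :
    ∑' p : {p : Finset Quad × Finset ℕ // CM qs L p.1 p.2 ∧ 2 ∈ p.2},
      cw x z w T (p.1.2.card - 1) L p.1.1 p.1.2 =
    ∑ W ∈ L.powerset, ∑ v ∈ W, x ^ W.card * w ^ 2 * ((L \ W).card.factorial : ℝ≥0∞) *
      sS z w T {0, 1, v} (W.erase v) ((L \ W).card + 2) := by
  classical
  rw [tsum_and (fun p : Finset Quad × Finset ℕ => CM qs L p.1 p.2) (fun p => 2 ∈ p.2)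
    (fun p => cw x z w T (p.2.card - 1) L p.1 p.2)]
  have h1 : ∀ p : {p : Finset Quad × Finset ℕ // CM qs L p.1 p.2},
      (if 2 ∈ p.1.2 then cw x z w T (p.1.2.card - 1) L p.1.1 p.1.2 else 0) =
      (fun (Q : Finset Quad) (M' : Finset ℕ) => if 2 ∈ M' then
        cw x z w T (M'.card - 1) L (Q.erase qs) M' else 0) (insert qs p.1.1) p.1.2 := by
    intro p
    dsimp only
    rw [Finset.erase_insert p.2.core.not_mem]
  rw [tsum_congr h1]
  refine (tsum_cm hL (fun (Q : Finset Quad) (M' : Finset ℕ) => if 2 ∈ M' then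
        cw x z w T (M'.card - 1) L (Q.erase qs) M' else 0)).trans ?_
  refine Finset.sum_congr rfl fun W hW => ?_
  rw [Finset.mem_powerset] at hW
  have h2 : ∀ H : K5.Gr, ∀ Q : {Q : Finset Quad // SP W (L \ W) H Q},
      ∑' M' : {M' : Finset ℕ // M' ⊆ bl Q.1 ∧ ∀ b ∈ M', (atb Q.1 b).card = 3},
        (if 2 ∈ M'.1 then cw x z w T (M'.1.card - 1) L (Q.1.erase qs) M'.1 else 0) =
      ∑ v ∈ W, if fv Q.1 2 = {0, 1, v} then cc x z w T W H v else 0 :=
    fun H Q => inner hL hW Q.2 x z w T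
  rw [tsum_congr fun H => tsum_congr fun Q => h2 H Q]
  rw [tsum_congr fun H => Summable.tsum_finsetSum (fun _ _ => ENNReal.summable),
    Summable.tsum_finsetSum (fun _ _ => ENNReal.summable)]
  refine Finset.sum_congr rfl fun v hv => ?_
  exact sS_eq hL hW hv x z w T

end K5M
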