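import Pool.Agent.Lib.K5M.SDeg
import Pool.Agent.Lib.K5.Rel

/-!
# K5M.SK7: relabelling of spheres

PROOFS. `rS σ Q`: all labels (white and black) are renamed by the permutation `σ`. `irr_rS`: every field of `Sph`, `Irr` is invariant: `ed`, `EdS`, `bd`, `dg` commute with the renaming (`bd (rS σ X)` is the image of `bd X` under
`Prod.map σ σ`, `dg (rS σ X) (σ w, σ b) = dg X (w, b)`), the subsets of `rS σ Q` are the `rS σ X` with `X ⊆ Q` (for a subset `X'` take `X = rS σ⁻¹ X'`), `Evn` and cardinalities are preserved.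
`gr_rS`: `K5.RelAux.rg_adj'` / `K5.RelAux.mem_rl`. `bl_rS`: membership.
-/

set_option autoImplicit false

namespace K5M

open Finset
open scoped ENNReal

/-- All labels are renamed by `σ`. -/
def rS (σ : Equiv.Perm ℕ) (Q : Finset Quad) : Finset Quad :=
  Q.image (fun q => (K5.rl σ q.1, K5.rl σ q.2))

namespace SK7Aux

open K5.RelAux

variable (σ : Equiv.Perm ℕ)

/-- Relabelling of a quad. -/
def rq (q : Quad) : Quad := (K5.rl σ q.1, K5.rl σ q.2)

theorem rq_inv (q : Quad) : rq σ⁻¹ (rq σ q) = q :=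
  Prod.ext (rl_inv σ q.1) (rl_inv σ q.2)

theorem rq_inv' (q : Quad) : rq σ (rq σ⁻¹ q) = q :=
  Prod.ext (rl_inv' σ q.1) (rl_inv' σ q.2)

theorem rq_injective : Function.Injective (rq σ) :=
  fun q q' h => by rw [← rq_inv σ q, h, rq_inv]

theorem rS_eq (Q : Finset Quad) : rS σ Q = Q.image (rq σ) := rfl

theorem mem_rS {Q : Finset Quad} {q : Quad} : q ∈ rS σ Q ↔ rq σ⁻¹ q ∈ Q := by
  rw [rS_eq, Finset.mem_image]
  constructor
  · rintro ⟨r, hr, rfl⟩
    rwa [rq_inv]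
  · intro h
    exact ⟨rq σ⁻¹ q, h, rq_inv' σ q⟩

theorem rq_mem_rS {Q : Finset Quad} {q : Quad} : rq σ q ∈ rS σ Q ↔ q ∈ Q := by
  rw [mem_rS, rq_inv]

theorem rq_inv_inv (q : Quad) : rq σ⁻¹⁻¹ q = rq σ q := by rw [inv_inv]

theorem rS_inv (Q : Finset Quad) : rS σ⁻¹ (rS σ Q) = Q := by
  ext q
  rw [mem_rS, rq_inv_inv, rq_mem_rS]

theorem rS_inv' (Q : Finset Quad) : rS σ (rS σ⁻¹ Q) = Q := by
  ext q
  rw [mem_rS, mem_rS, rq_inv_inv, rq_inv']

theorem rS_card (Q : Finset Quad) : (rS σ Q).card = Q.card := by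
  rw [rS_eq, Finset.card_image_of_injective _ (rq_injective σ)]

theorem rS_sub {X Q : Finset Quad} : rS σ X ⊆ rS σ Q ↔ X ⊆ Q := by
  constructor
  · intro h q hq
    exact (rq_mem_rS σ).1 (h ((rq_mem_rS σ).2 hq))
  · intro h q hq
    rw [mem_rS] at hq ⊢
    exact h hq

theorem rS_sdiff (Q X : Finset Quad) : rS σ (Q \ X) = rS σ Q \ rS σ X := by
  ext q
  rw [mem_rS, Finset.mem_sdiff, Finset.mem_sdiff, mem_rS, mem_rS]

theorem rS_empty : rS σ ∅ = ∅ := rfl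

/-- Every subset of `rS σ Q` is `rS σ X` with `X ⊆ Q`. -/
theorem sub_rS {Q X' : Finset Quad} (h : X' ⊆ rS σ Q) : ∃ X ⊆ Q, X' = rS σ X := by
  refine ⟨rS σ⁻¹ X', ?_, (rS_inv' σ X').symm⟩
  rw [← rS_sub σ, rS_inv']
  exact h

theorem mem_ed_rq {q : Quad} {e : Ed} : e ∈ ed (rq σ q) ↔ (σ⁻¹ e.1, σ⁻¹ e.2) ∈ ed q := by
  unfold ed rq
  rw [Finset.mem_product, Finset.mem_product, mem_rl, mem_rl]

theorem mem_EdS_rS {X : Finset Quad} {e : Ed} : e ∈ EdS (rS σ X) ↔ (σ⁻¹ e.1, σ⁻¹ e.2) ∈ EdS X := by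
  unfold EdS
  rw [Finset.mem_biUnion, Finset.mem_biUnion]
  constructor
  · rintro ⟨q, hq, he⟩
    rw [mem_rS] at hq
    refine ⟨_, hq, ?_⟩
    rw [← rq_inv' σ q, mem_ed_rq] at he
    exact he
  · rintro ⟨q, hq, he⟩
    exact ⟨rq σ q, (rq_mem_rS σ).2 hq, (mem_ed_rq σ).2 he⟩

theorem dg_rS (X : Finset Quad) (e : Ed) : dg (rS σ X) e = dg X (σ⁻¹ e.1, σ⁻¹ e.2) := by
  unfold dg
  have h : (rS σ X).filter (fun q => e ∈ ed q) =
      (X.filter (fun q => ((σ⁻¹ e.1, σ⁻¹ e.2) : Ed) ∈ ed q)).image (rq σ) := by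
    ext q
    rw [Finset.mem_filter, mem_rS, Finset.mem_image]
    constructor
    · rintro ⟨h1, h2⟩
      refine ⟨rq σ⁻¹ q, ?_, rq_inv' σ q⟩
      rw [Finset.mem_filter]
      refine ⟨h1, ?_⟩
      rw [← mem_ed_rq σ, rq_inv']
      exact h2
    · rintro ⟨r, hr, rfl⟩
      rw [Finset.mem_filter] at hr
      rw [rq_inv, mem_ed_rq]
      exact hr
  rw [h, Finset.card_image_of_injective _ (rq_injective σ)]

theorem mem_bd_rS {X : Finset Quad} {e : Ed} : e ∈ bd (rS σ X) ↔ (σ⁻¹ e.1, σ⁻¹ e.2) ∈ bd X := by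
  unfold bd
  rw [Finset.mem_filter, Finset.mem_filter, mem_EdS_rS, dg_rS]

/-- Relabelling of a set of edges. -/
def rE (Z : Finset Ed) : Finset Ed := Z.image (Prod.map σ σ)

theorem mem_rE {Z : Finset Ed} {e : Ed} : e ∈ rE σ Z ↔ (σ⁻¹ e.1, σ⁻¹ e.2) ∈ Z := by
  unfold rE
  rw [Finset.mem_image]
  constructor
  · rintro ⟨f, hf, rfl⟩
    simpa using hf
  · intro h
    exact ⟨_, h, by simp⟩

theorem pm_injective : Function.Injective (Prod.map σ σ) :=
  σ.injective.prodMap σ.injective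

theorem rE_card (Z : Finset Ed) : (rE σ Z).card = Z.card :=
  Finset.card_image_of_injective _ (pm_injective σ)

theorem rE_inv' (Z : Finset Ed) : rE σ (rE σ⁻¹ Z) = Z := by
  ext e
  rw [mem_rE, mem_rE]
  simp

theorem bd_rS (X : Finset Quad) : bd (rS σ X) = rE σ (bd X) := by
  ext e
  rw [mem_bd_rS, mem_rE]

theorem EdS_rS (X : Finset Quad) : EdS (rS σ X) = rE σ (EdS X) := by
  ext e
  rw [mem_EdS_rS, mem_rE]

theorem rE_sub {Y Z : Finset Ed} : rE σ Y ⊆ rE σ Z ↔ Y ⊆ Z := by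
  unfold rE
  exact Finset.image_subset_image_iff (pm_injective σ)

theorem rE_eq_empty {Z : Finset Ed} : rE σ Z = ∅ ↔ Z = ∅ := by
  unfold rE
  exact Finset.image_eq_empty

theorem rE_filter_fst (Z : Finset Ed) (w : ℕ) :
    ((rE σ Z).filter (fun e => e.1 = w)).card = (Z.filter (fun e => e.1 = σ⁻¹ w)).card := by
  have h : (rE σ Z).filter (fun e => e.1 = w) = rE σ (Z.filter (fun e => e.1 = σ⁻¹ w)) := by
    ext e
    rw [Finset.mem_filter, mem_rE, mem_rE, Finset.mem_filter]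
    simp
  rw [h, rE_card]

theorem rE_filter_snd (Z : Finset Ed) (w : ℕ) :
    ((rE σ Z).filter (fun e => e.2 = w)).card = (Z.filter (fun e => e.2 = σ⁻¹ w)).card := by
  have h : (rE σ Z).filter (fun e => e.2 = w) = rE σ (Z.filter (fun e => e.2 = σ⁻¹ w)) := by
    ext e
    rw [Finset.mem_filter, mem_rE, mem_rE, Finset.mem_filter]
    simp
  rw [h, rE_card]

theorem Evn_rE {Z : Finset Ed} (h : Evn Z) : Evn (rE σ Z) := by
  refine ⟨fun w => ?_, fun b => ?_⟩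
  · rw [rE_filter_fst]
    exact h.1 _
  · rw [rE_filter_snd]
    exact h.2 _

theorem wh_rS (Q : Finset Quad) : wh (rS σ Q) = K5.rl σ (wh Q) := by
  ext a
  unfold wh
  rw [mem_rl, Finset.mem_biUnion, Finset.mem_biUnion]
  constructor
  · rintro ⟨q, hq, ha⟩
    rw [mem_rS] at hq
    refine ⟨_, hq, ?_⟩
    unfold rq
    rw [mem_rl]
    simpa using ha
  · rintro ⟨q, hq, ha⟩
    refine ⟨rq σ q, (rq_mem_rS σ).2 hq, ?_⟩
    unfold rq
    rw [mem_rl]
    exact ha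

end SK7Aux

open SK7Aux K5.RelAux

theorem bl_rS (σ : Equiv.Perm ℕ) (Q : Finset Quad) : bl (rS σ Q) = K5.rl σ (bl Q) := by
  ext a
  unfold bl
  rw [mem_rl, Finset.mem_biUnion, Finset.mem_biUnion]
  constructor
  · rintro ⟨q, hq, ha⟩
    rw [mem_rS] at hq
    refine ⟨_, hq, ?_⟩
    unfold rq
    rw [mem_rl]
    simpa using ha
  · rintro ⟨q, hq, ha⟩
    refine ⟨rq σ q, (rq_mem_rS σ).2 hq, ?_⟩
    unfold rq
    rw [mem_rl]
    exact ha

theorem irr_rS (σ : Equiv.Perm ℕ) {Q : Finset Quad} (h : Irr Q) : Irr (rS σ Q) := by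
  refine { isq := ?_, two := ?_, inj := ?_, sur := ?_, lw := ?_, lb := ?_, col := ?_, four := ?_, irr := ?_ }
  · intro q hq
    rw [mem_rS] at hq
    have h1 := h.isq _ hq
    unfold IsQ rq at h1
    rw [rl_card, rl_card] at h1
    exact h1
  · intro e he
    rw [mem_EdS_rS] at he
    rw [dg_rS]
    exact h.two _ he
  · intro X' hX' hb
    obtain ⟨X, hX, rfl⟩ := sub_rS σ hX'
    rw [bd_rS, rE_eq_empty] at hb
    rcases h.inj X hX hb with rfl | rfl
    · exact Or.inl (rS_empty σ)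
    · exact Or.inr rfl
  · intro Z hZ he
    have h1 : rE σ⁻¹ Z ⊆ EdS Q := by
      rw [← rE_sub σ, rE_inv', ← EdS_rS]
      exact hZ
    obtain ⟨X, hX, hb⟩ := h.sur _ h1 (Evn_rE σ⁻¹ he)
    refine ⟨rS σ X, (rS_sub σ).2 hX, ?_⟩
    rw [bd_rS, hb, rE_inv']
  · intro X' hX' w hw
    obtain ⟨X, hX, rfl⟩ := sub_rS σ hX'
    have h1 : ∀ b, (σ⁻¹ w, b) ∉ bd X := by
      intro b hb
      apply hw (σ b)
      rw [mem_bd_rS]
      simpa using hb
    rcases h.lw X hX _ h1 with h2 | h2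
    · left
      intro q hq hwq
      rw [mem_rS] at hq ⊢
      refine h2 _ hq ?_
      unfold rq
      rw [mem_rl]
      simpa using hwq
    · right
      intro q hq hwq
      rw [mem_rS] at hq ⊢
      refine h2 _ hq ?_
      unfold rq
      rw [mem_rl]
      simpa using hwq
  · intro X' hX' b hb
    obtain ⟨X, hX, rfl⟩ := sub_rS σ hX'
    have h1 : ∀ w, (w, σ⁻¹ b) ∉ bd X := by
      intro w hw
      apply hb (σ w)
      rw [mem_bd_rS]
      simpa using hw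
    rcases h.lb X hX _ h1 with h2 | h2
    · left
      intro q hq hbq
      rw [mem_rS] at hq ⊢
      refine h2 _ hq ?_
      unfold rq
      rw [mem_rl]
      simpa using hbq
    · right
      intro q hq hbq
      rw [mem_rS] at hq ⊢
      refine h2 _ hq ?_
      unfold rq
      rw [mem_rl]
      simpa using hbq
  · rw [wh_rS, bl_rS, rl_disj]
    exact h.col
  · rw [rS_card]
    exact h.four
  · intro X' hX' hc
    obtain ⟨X, hX, rfl⟩ := sub_rS σ hX'
    rw [bd_rS, rE_card] at hc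
    rw [← rS_sdiff, rS_card, rS_card]
    exact h.irr X hX hc

theorem gr_rS (σ : Equiv.Perm ℕ) (Q : Finset Quad) : gr (rS σ Q) = K5.rg σ (gr Q) := by
  ext a b
  rw [rg_adj']
  constructor
  · rintro ⟨hne, q, hq, he⟩
    refine ⟨fun h => hne ((σ⁻¹).injective h), rq σ⁻¹ q, (mem_rS σ).1 hq, ?_⟩
    show K5.rl σ⁻¹ q.1 = _
    rw [he]
    ext x
    rw [mem_rl]
    simp only [Finset.mem_insert, Finset.mem_singleton, inv_inv]
    rw [Equiv.Perm.eq_inv_iff_eq, Equiv.Perm.eq_inv_iff_eq]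
  · rintro ⟨hne, q, hq, he⟩
    refine ⟨fun h => hne (by rw [h]), rq σ q, (rq_mem_rS σ).2 hq, ?_⟩
    show K5.rl σ q.1 = _
    rw [he]
    ext x
    rw [mem_rl]
    simp only [Finset.mem_insert, Finset.mem_singleton]
    rw [(σ⁻¹).injective.eq_iff, (σ⁻¹).injective.eq_iff]

end K5M
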