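import Pool.Agent.Lib.K5M.SK1
import Pool.Agent.Lib.K5M.SK7
import Pool.Agent.Lib.K5.RelC

/-!
# K5M.SK9: the weights depend on the sizes of the label sets only

PROOFS. `nbl_rg`: if `Irr Q`, `gr Q = H`, then `rS σ Q` has the graph `rg σ H` and the same number of blacks, so `nbl_gr` gives the equality; if there is no `Q` for `H`, there is none for `rg σ H` (use `σ⁻¹`, `K5.rg_symm`) and both are 0
by the definition of `nbl`.
`sS_count`: `K5.exists_perm` gives `σ` with `rl σ R = R'`, `rl σ U = U'`; then exactly the proof of `K5.RelCAux.msum_count` / `K5.mphi_count`: `K5.RelCAux.tsum_rm σ`, `K5.RelCAux.pcore_rg`, `K5.RelCAux.all_rm`, `K5.nt_rg`, `K5.RelAux.rl_inj`,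
`nbl_rg`, `K5.RelCAux.mwt_rg`.
`tsum_sS`: every `H` with `PCore R U H` has `2 ≤ nbl H` (`two_le_nbl`), so exactly one `j` has `nbl H = j + 2`; exchange the sums (`ENNReal.tsum_comm`, `tsum_subtype`).
-/

set_option autoImplicit false

namespace K5M

open Finset
open scoped ENNReal

theorem nbl_rg (σ : Equiv.Perm ℕ) (H : K5.Gr) : nbl (K5.rg σ H) = nbl H := by
  by_cases h : ∃ Q : Finset Quad, Irr Q ∧ gr Q = H
  · obtain ⟨Q, hQ, rfl⟩ := h
    rw [← gr_rS, nbl_gr (irr_rS σ hQ), nbl_gr hQ, bl_rS, K5.RelAux.rl_card]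
  · have h' : ¬ ∃ Q : Finset Quad, Irr Q ∧ gr Q = K5.rg σ H := by
      rintro ⟨Q, hQ, e⟩
      exact h ⟨rS σ⁻¹ Q, irr_rS σ⁻¹ hQ, by rw [gr_rS, e, (K5.rg_symm σ H).1]⟩
    rw [nbl, nbl, dif_neg h, dif_neg h']

theorem sS_count (z w t : ℝ≥0∞) {R U R' U' : Finset ℕ} (hR : R.card = R'.card)
    (hU : U.card = U'.card) (hd : Disjoint R U) (hd' : Disjoint R' U') (j : ℕ) :
    sS z w t R U j = sS z w t R' U' j := by
  obtain ⟨σ, rfl, rfl⟩ := K5.exists_perm hd hd' hR hU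
  exact K5.RelCAux.tsum_rm σ
    (P := fun p => (K5.PCore R U p.1 ∧ ∀ X ∈ p.2, K5.NT p.1 (R ∪ U) X ∧ X ≠ R) ∧ nbl p.1 = j)
    (Q := fun p => (K5.PCore (K5.rl σ R) (K5.rl σ U) p.1 ∧
      ∀ X ∈ p.2, K5.NT p.1 (K5.rl σ R ∪ K5.rl σ U) X ∧ X ≠ K5.rl σ R) ∧ nbl p.1 = j)
    (fun p => K5.mwt z w t R p.1 p.2) (fun p => K5.mwt z w t (K5.rl σ R) p.1 p.2)
    (fun p => by
      refine and_congr (and_congr (K5.RelCAux.pcore_rg σ) ?_) (by rw [nbl_rg])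
      rw [K5.RelCAux.all_rm]
      refine forall₂_congr fun X _ => ?_
      rw [← K5.Rel2Aux.rl_union, K5.nt_rg, Ne, K5.RelAux.rl_inj])
    (fun p => K5.RelCAux.mwt_rg σ z w t R p.1 p.2)

theorem tsum_sS (z w t : ℝ≥0∞) (R U : Finset ℕ) :
    ∑' j : ℕ, sS z w t R U (j + 2) = K5.msum z w t R U := by
  let P : K5.Gr × Finset (Finset ℕ) → Prop := fun p =>
    K5.PCore R U p.1 ∧ ∀ X ∈ p.2, K5.NT p.1 (R ∪ U) X ∧ X ≠ R
  let f : K5.Gr × Finset (Finset ℕ) → ℝ≥0∞ := fun p => K5.mwt z w t R p.1 p.2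
  let e : (Σ j : ℕ, {p // P p ∧ nbl p.1 = j + 2}) ≃ {p // P p} :=
    { toFun := fun q => ⟨q.2.1, q.2.2.1⟩
      invFun := fun p => ⟨nbl p.1.1 - 2, ⟨p.1, p.2, by
        have := two_le_nbl p.2.1
        omega⟩⟩
      left_inv := by
        rintro ⟨j, p, hp, hj⟩
        obtain rfl : j = nbl p.1 - 2 := by omega
        rfl
      right_inv := fun p => rfl }
  have h1 : ∑' j : ℕ, sS z w t R U (j + 2) =
      ∑' q : (Σ j : ℕ, {p // P p ∧ nbl p.1 = j + 2}), f q.2.1 :=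
    (ENNReal.tsum_sigma (fun (j : ℕ) (q : {p // P p ∧ nbl p.1 = j + 2}) => f q.1)).symm
  have h2 : ∑' q : (Σ j : ℕ, {p // P p ∧ nbl p.1 = j + 2}), f q.2.1 =
      ∑' p : {p // P p}, f p.1 := Equiv.tsum_eq e (fun p : {p // P p} => f p.1)
  rw [h1, h2]
  rfl

end K5M
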