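import Pool.Agent.Lib.K5M.SK5
import Pool.Agent.Lib.K5M.SK6
import Pool.Agent.Lib.K5M.SK9

/-!
# K5M.SK8: the generating functions of the marked cores

PROOFS. `tsum_pow`: the inner sum has `Nat.choose n k` equal terms for every `k ≤ n` (`Finset.sum_powerset_apply_card`, or `Finset.sum_powerset` by cardinality), `(L \ W).card = n - k`; `Nat.choose n k / n! = 1 / (k! (n - k)!)`; the sum
over `n` and `k ≤ n` is the sum over `k` and `j = n - k` (`ENNReal.tsum_sigma'` with `Finset.Nat.sigmaAntidiagonalEquivProd`: `∑' p : ℕ × ℕ, f p = ∑' n, ∑ p ∈ antidiagonal n, f p`: `tsum` over the antidiagonals).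
`core_one`: by `sum_one` (`Ico 4 (4 + n)` is disjoint from `{0, 1, 2, 3}`), `sS_count` (`sS z w T {0, 1} W j = sS z w T {0, 1} (Ico 2 (|W| + 2)) j`) and `tsum_pow` with `f k j = x ^ k * (2 * j!) * sS z w T {0, 1} (Ico 2 (k + 2)) (j + 2)` the left
side is `∑' k, ∑' j, x ^ k * 2 * sS .. (j + 2) / k!`; `tsum_sS`, `ENNReal.tsum_mul_left`, the definition of `K5.Kt`.
`core_two`: by `sum_two`, `sS_count` (`sS z w T {0, 1, v} (W.erase v) j = sS z w T {0, 1, 2} (Ico 3 (|W| - 1 + 3)) j`) the inner sum is `|W| * x ^ |W| * w ^ 2 * |L \ W|! * sS ..`; `tsum_pow` with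
`f k j = k * (x ^ k * w ^ 2 * j! * sS z w T {0, 1, 2} (Ico 3 (k - 1 + 3)) (j + 2))`; the term `k = 0` is 0, and for `k + 1`: `(k + 1) / (k + 1)! = 1 / k!` (`tsum_eq_zero_add'`), which gives `x * w ^ 2 * K5.At x z w T`.
-/

set_option autoImplicit false

namespace K5M

open Finset
open scoped ENNReal

namespace SK8Aux

theorem fac_ne (n : ℕ) : (n.factorial : ℝ≥0∞) ≠ 0 := by
  exact_mod_cast n.factorial_ne_zero

theorem fac_top (n : ℕ) : (n.factorial : ℝ≥0∞) ≠ ⊤ := ENNReal.natCast_ne_top _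

theorem choose_div {n k : ℕ} (hk : k ≤ n) (a : ℝ≥0∞) :
    ((n.choose k : ℕ) • a) / (n.factorial : ℝ≥0∞) =
      a / ((k.factorial : ℝ≥0∞) * ((n - k).factorial : ℝ≥0∞)) := by
  have h := Nat.choose_mul_factorial_mul_factorial hk
  have h' : (n.factorial : ℝ≥0∞) = (n.choose k : ℝ≥0∞) *
      ((k.factorial : ℝ≥0∞) * ((n - k).factorial : ℝ≥0∞)) := by
    rw [← h]; push_cast; ring
  have hc : (n.choose k : ℝ≥0∞) ≠ 0 := by
    exact_mod_cast (Nat.choose_pos hk).ne'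
  have hc' : (n.choose k : ℝ≥0∞) ≠ ⊤ := ENNReal.natCast_ne_top _
  rw [nsmul_eq_mul, h']
  exact ENNReal.mul_div_mul_left _ _ hc hc'

theorem tsum_anti (F : ℕ → ℕ → ℝ≥0∞) :
    ∑' n : ℕ, ∑ p ∈ antidiagonal n, F p.1 p.2 = ∑' k : ℕ, ∑' j : ℕ, F k j := by
  rw [← ENNReal.tsum_prod, ← Finset.HasAntidiagonal.sigmaAntidiagonalEquivProd.tsum_eq (_ : ℕ × ℕ → ℝ≥0∞), ENNReal.tsum_sigma']
  refine tsum_congr fun n => ?_
  exact (Finset.tsum_subtype (antidiagonal n) (fun p : ℕ × ℕ => F p.1 p.2)).symm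

end SK8Aux

open SK8Aux

theorem tsum_pow (f : ℕ → ℕ → ℝ≥0∞) :
    ∑' n : ℕ, (∑ W ∈ (Ico 4 (4 + n)).powerset, f W.card (Ico 4 (4 + n) \ W).card) /
      (n.factorial : ℝ≥0∞) =
    ∑' k : ℕ, ∑' j : ℕ, f k j / ((k.factorial : ℝ≥0∞) * (j.factorial : ℝ≥0∞)) := by
  rw [← tsum_anti (fun k j => f k j / ((k.factorial : ℝ≥0∞) * (j.factorial : ℝ≥0∞)))]
  refine tsum_congr fun n => ?_
  have hcard : (Ico 4 (4 + n)).card = n := by simp
  have h1 : ∑ W ∈ (Ico 4 (4 + n)).powerset, f W.card (Ico 4 (4 + n) \ W).card =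
      ∑ W ∈ (Ico 4 (4 + n)).powerset, (fun k => f k (n - k)) W.card := by
    refine sum_congr rfl fun W hW => ?_
    rw [card_sdiff_of_subset (mem_powerset.1 hW), hcard]
  rw [h1, Finset.sum_powerset_apply_card (fun k => f k (n - k)), hcard,
    Finset.Nat.sum_antidiagonal_eq_sum_range_succ
      (fun k j => f k j / ((k.factorial : ℝ≥0∞) * (j.factorial : ℝ≥0∞))) n,
    div_eq_mul_inv, Finset.sum_mul]
  refine sum_congr rfl fun k hk => ?_
  rw [← div_eq_mul_inv]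
  exact choose_div (Nat.lt_succ_iff.1 (mem_range.1 hk)) _

namespace SK8Aux

theorem disj_L (n : ℕ) : Disjoint (Ico 4 (4 + n)) {0, 1, 2, 3} := by
  rw [Finset.disjoint_left]
  intro a ha hb
  simp only [mem_Ico, mem_insert, mem_singleton] at ha hb
  omega

theorem ge_four {n : ℕ} {W : Finset ℕ} (hW : W ⊆ Ico 4 (4 + n)) {a : ℕ} (ha : a ∈ W) : 4 ≤ a :=
  (mem_Ico.1 (hW ha)).1

end SK8Aux

/-- The marked cores. -/
theorem core_one (x z w T : ℝ≥0∞) :
    ∑' n : ℕ, (∑' p : {p : Finset Quad × Finset ℕ // CM qs (Ico 4 (4 + n)) p.1 p.2},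
      cw x z w T p.1.2.card (Ico 4 (4 + n)) p.1.1 p.1.2) / (n.factorial : ℝ≥0∞) =
    2 * K5.Kt x z w T := by
  have h1 : ∀ n : ℕ, (∑' p : {p : Finset Quad × Finset ℕ // CM qs (Ico 4 (4 + n)) p.1 p.2},
      cw x z w T p.1.2.card (Ico 4 (4 + n)) p.1.1 p.1.2) =
      ∑ W ∈ (Ico 4 (4 + n)).powerset, (fun k j : ℕ => x ^ k * ((2 * j.factorial : ℕ) : ℝ≥0∞) *
        sS z w T {0, 1} (Ico 2 (k + 2)) (j + 2)) W.card (Ico 4 (4 + n) \ W).card := by
    intro n
    rw [sum_one (disj_L n)]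
    refine sum_congr rfl fun W hW => ?_
    have hW' := mem_powerset.1 hW
    have e : sS z w T {0, 1} W ((Ico 4 (4 + n) \ W).card + 2) =
        sS z w T {0, 1} (Ico 2 (W.card + 2)) ((Ico 4 (4 + n) \ W).card + 2) := by
      refine sS_count z w T rfl (by simp) ?_ ?_ _
      · rw [Finset.disjoint_left]
        intro a ha hb
        have := ge_four hW' hb
        simp only [mem_insert, mem_singleton] at ha
        omega
      · rw [Finset.disjoint_left]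
        intro a ha hb
        simp only [mem_insert, mem_singleton, mem_Ico] at ha hb
        omega
    rw [e]
  refine (tsum_congr (fun n => by rw [h1 n])).trans ((tsum_pow (fun k j : ℕ =>
    x ^ k * ((2 * j.factorial : ℕ) : ℝ≥0∞) * sS z w T {0, 1} (Ico 2 (k + 2)) (j + 2))).trans ?_)
  rw [K5.Kt, ← ENNReal.tsum_mul_left]
  refine tsum_congr fun k => ?_
  rw [← tsum_sS, ← ENNReal.tsum_mul_left, ← ENNReal.tsum_mul_left]
  refine tsum_congr fun j => ?_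
  have hj := fac_ne j
  have hj' := fac_top j
  push_cast
  have e2 : x ^ k * (2 * (j.factorial : ℝ≥0∞)) * sS z w T {0, 1} (Ico 2 (k + 2)) (j + 2) =
      (x ^ k * 2 * sS z w T {0, 1} (Ico 2 (k + 2)) (j + 2)) * (j.factorial : ℝ≥0∞) := by ring
  rw [e2, ENNReal.mul_div_mul_right _ _ hj hj']
  simp only [div_eq_mul_inv]
  ring

/-- The marked cores with a mark at the side 2. -/
theorem core_two (x z w T : ℝ≥0∞) :
    ∑' n : ℕ, (∑' p : {p : Finset Quad × Finset ℕ // CM qs (Ico 4 (4 + n)) p.1 p.2 ∧ 2 ∈ p.2},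
      cw x z w T (p.1.2.card - 1) (Ico 4 (4 + n)) p.1.1 p.1.2) / (n.factorial : ℝ≥0∞) =
    x * w ^ 2 * K5.At x z w T := by
  have h1 : ∀ n : ℕ, (∑' p : {p : Finset Quad × Finset ℕ // CM qs (Ico 4 (4 + n)) p.1 p.2 ∧
      2 ∈ p.2}, cw x z w T (p.1.2.card - 1) (Ico 4 (4 + n)) p.1.1 p.1.2) =
      ∑ W ∈ (Ico 4 (4 + n)).powerset, (fun k j : ℕ => (k : ℝ≥0∞) * (x ^ k * w ^ 2 *
        (j.factorial : ℝ≥0∞) * sS z w T {0, 1, 2} (Ico 3 (k - 1 + 3)) (j + 2))) W.card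
        (Ico 4 (4 + n) \ W).card := by
    intro n
    rw [sum_two (disj_L n)]
    refine sum_congr rfl fun W hW => ?_
    have hW' := mem_powerset.1 hW
    have e : ∀ v ∈ W, x ^ W.card * w ^ 2 * ((Ico 4 (4 + n) \ W).card.factorial : ℝ≥0∞) *
        sS z w T {0, 1, v} (W.erase v) ((Ico 4 (4 + n) \ W).card + 2) =
        x ^ W.card * w ^ 2 * ((Ico 4 (4 + n) \ W).card.factorial : ℝ≥0∞) *
        sS z w T {0, 1, 2} (Ico 3 (W.card - 1 + 3)) ((Ico 4 (4 + n) \ W).card + 2) := by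
      intro v hv
      have hv4 := ge_four hW' hv
      congr 1
      refine sS_count z w T ?_ ?_ ?_ ?_ _
      · have a1 : ({0, 1, v} : Finset ℕ).card = 3 := by
          rw [Finset.card_eq_three]
          exact ⟨0, 1, v, by omega, by omega, by omega, rfl⟩
        rw [a1]; rfl
      · rw [card_erase_of_mem hv]; simp
      · rw [Finset.disjoint_left]
        intro a ha hb
        have hb' := mem_erase.1 hb
        have := ge_four hW' hb'.2
        simp only [mem_insert, mem_singleton] at ha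
        omega
      · rw [Finset.disjoint_left]
        intro a ha hb
        simp only [mem_insert, mem_singleton, mem_Ico] at ha hb
        omega
    rw [sum_congr rfl e, sum_const, nsmul_eq_mul]
  refine (tsum_congr (fun n => by rw [h1 n])).trans ((tsum_pow (fun k j : ℕ =>
    (k : ℝ≥0∞) * (x ^ k * w ^ 2 * (j.factorial : ℝ≥0∞) *
      sS z w T {0, 1, 2} (Ico 3 (k - 1 + 3)) (j + 2)))).trans ?_)
  rw [K5.At, ← ENNReal.tsum_mul_left]
  rw [tsum_eq_zero_add' ENNReal.summable]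
  have z0 : (∑' j : ℕ, ((0 : ℕ) : ℝ≥0∞) * (x ^ 0 * w ^ 2 * (j.factorial : ℝ≥0∞) *
      sS z w T {0, 1, 2} (Ico 3 (0 - 1 + 3)) (j + 2)) /
      (((0 : ℕ).factorial : ℝ≥0∞) * (j.factorial : ℝ≥0∞))) = 0 := by
    simp
  rw [z0, zero_add]
  refine tsum_congr fun k => ?_
  rw [← tsum_sS, ← ENNReal.tsum_mul_left, ← ENNReal.tsum_mul_left]
  refine tsum_congr fun j => ?_
  have hj := fac_ne j
  have hj' := fac_top j
  have hk1 : ((k + 1 : ℕ) : ℝ≥0∞) ≠ 0 := by exact_mod_cast (Nat.succ_ne_zero k)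
  have hk2 : ((k + 1 : ℕ) : ℝ≥0∞) ≠ ⊤ := ENNReal.natCast_ne_top _
  have e2 : ((k + 1 : ℕ) : ℝ≥0∞) * (x ^ (k + 1) * w ^ 2 * (j.factorial : ℝ≥0∞) *
      sS z w T {0, 1, 2} (Ico 3 (k + 1 - 1 + 3)) (j + 2)) =
      ((k + 1 : ℕ) : ℝ≥0∞) * ((x ^ (k + 1) * w ^ 2 *
      sS z w T {0, 1, 2} (Ico 3 (k + 3)) (j + 2)) * (j.factorial : ℝ≥0∞)) := by
    rw [Nat.add_sub_cancel]; ring
  have e3 : (((k + 1).factorial : ℕ) : ℝ≥0∞) * (j.factorial : ℝ≥0∞) =
      ((k + 1 : ℕ) : ℝ≥0∞) * ((k.factorial : ℝ≥0∞) * (j.factorial : ℝ≥0∞)) := by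
    rw [Nat.factorial_succ]; push_cast; ring
  rw [e2, e3, ENNReal.mul_div_mul_left _ _ hk1 hk2, ENNReal.mul_div_mul_right _ _ hj hj']
  simp only [div_eq_mul_inv]
  ring

end K5M
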