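import Pool.Agent.Lib.K5M.DAlg
import Pool.Agent.Lib.K5M.DE5
import Pool.Agent.Lib.K5M.DCg
import Pool.Agent.Lib.K5M.DHxD
import Pool.Agent.Lib.K5M.SK8

/-!
# K5M.DMap: the equation for the map networks and the supersolution principle
-/

set_option autoImplicit false

namespace K5M

open Finset
open scoped ENNReal

/-! ### The marked cores -/

theorem core_eq (x z w T : ℝ≥0∞) :
    Cg 0 0 x z w T + 2 * (T * Cg 2 0 x z w T) + T ^ 2 * Cg 2 2 x z w T = 2 * K5.Kt x z w T :=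
  (Cg_sum x z w T).symm.trans (core_one x z w T)

theorem core_eq2 (x z w T : ℝ≥0∞) :
    Cg 2 0 x z w T + T * Cg 2 2 x z w T = x * w ^ 2 * K5.At x z w T :=
  (Cg_sum2 x z w T).symm.trans (core_two x z w T)

/-! ### The equation -/

section Eq

variable (x Y T : ℝ≥0∞)

theorem P10 : K5.egf (an .prm x Y T 1 0) 1 = 1 :=
  (egf_congr (prm_oo x Y T)).trans (egf_single 1)

theorem P01 : K5.egf (an .prm x Y T 0 1) 1 = 1 :=
  (egf_congr (prm_zo x Y T)).trans (egf_single 1)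

theorem egf_zero : K5.egf (fun _ : ℕ => (0 : ℝ≥0∞)) 1 = 0 := by
  unfold K5.egf
  simp

theorem P1j {j : ℕ} (hj : j ≠ 0) : K5.egf (an .prm x Y T 1 j) 1 = 0 :=
  (egf_congr (prm_oj x Y T hj)).trans egf_zero

theorem Pj1 {j : ℕ} (hj : j ≠ 0) : K5.egf (an .prm x Y T j 1) 1 = 0 :=
  (egf_congr (prm_jo x Y T hj)).trans egf_zero

theorem A_eq (i j : ℕ) : K5.egf (an .all x Y T i j) 1 =
    K5.egf (an .prm x Y T i j) 1 + K5.egf (par x Y T i j) 1 := by
  rw [← egf_add]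
  exact egf_congr (all_eq x Y T i j)

theorem A_eq' (i j : ℕ) : K5.egf (an .all x Y T i j) 1 =
    K5.egf (an .nsr x Y T i j) 1 + K5.egf (an .ser x Y T i j) 1 := by
  rw [← egf_add]
  exact egf_congr (all_eq' x Y T i j)

theorem P_eq (i j : ℕ) : K5.egf (an .prm x Y T i j) 1 =
    sv Y i j + K5.egf (an .ser x Y T i j) 1 + K5.egf (an .cor x Y T i j) 1 := by
  rw [← egf_sg, ← egf_add, ← egf_add]
  exact egf_congr (prm_eq x Y T i j)

theorem A_symm (t : Ty) (i j : ℕ) : K5.egf (an t x Y T i j) 1 = K5.egf (an t x Y T j i) 1 :=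
  egf_congr (an_symm i j)

theorem A10 : K5.egf (an .all x Y T 1 0) 1 = 1 + Dmap x Y T := by
  rw [A_eq, egf_par, P10, P1j x Y T one_ne_zero, P1j x Y T two_ne_zero, dmap_eq]
  simp

theorem A11 : K5.egf (an .all x Y T 1 1) 1 = 1 + Dmap x Y T := by
  rw [A_eq, egf_par, P10, P1j x Y T one_ne_zero, P1j x Y T two_ne_zero, A_symm x Y T .all 0 1,
    A10]
  simp

theorem N10 : K5.egf (an .nsr x Y T 1 0) 1 = 1 + Dmap x Y T :=
  (egf_congr (nsr_one x Y T 0)).trans (A10 x Y T)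

theorem N11 : K5.egf (an .nsr x Y T 1 1) 1 = 1 + Dmap x Y T :=
  (egf_congr (nsr_one x Y T 1)).trans (A11 x Y T)

theorem C_eq {i j : ℕ} (hi : i = 0 ∨ i = 2) (hj : j = 0 ∨ j = 2) :
    K5.egf (an .cor x Y T i j) 1 = Cg i j x (Dmap x Y T) (1 + Dmap x Y T) T :=
  egf_cor hi hj (dmap_eq x Y T).symm (A10 x Y T) (A11 x Y T)

theorem P20 : K5.egf (an .prm x Y T 2 0) 1 =
    x * (1 + Dmap x Y T) ^ 2 + Cg 2 0 x (Dmap x Y T) (1 + Dmap x Y T) T := by
  have h : K5.egf (an .ser x Y T 2 0) 1 =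
      x * (K5.egf (an .nsr x Y T 1 0) 1 * K5.egf (an .all x Y T 1 0) 1) :=
    egf_ser x Y T (i := 1) (j := 0) le_rfl zero_le_one
  rw [P_eq, C_eq x Y T (Or.inr rfl) (Or.inl rfl), h, N10, A10]
  unfold sv
  simp only [OfNat.ofNat_ne_zero, false_and, if_false, OfNat.ofNat_ne_one, zero_ne_one,
    and_false, or_self, zero_add]
  rw [← pow_two]

theorem P22 : K5.egf (an .prm x Y T 2 2) 1 =
    x * (1 + Dmap x Y T) ^ 2 + Cg 2 2 x (Dmap x Y T) (1 + Dmap x Y T) T := by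
  have h : K5.egf (an .ser x Y T 2 2) 1 =
      x * (K5.egf (an .nsr x Y T 1 1) 1 * K5.egf (an .all x Y T 1 1) 1) :=
    egf_ser x Y T (i := 1) (j := 1) le_rfl le_rfl
  rw [P_eq, C_eq x Y T (Or.inr rfl) (Or.inr rfl), h, N11, A11]
  unfold sv
  simp only [OfNat.ofNat_ne_zero, if_false, OfNat.ofNat_ne_one,
    and_false, or_self, zero_add]
  rw [← pow_two]

theorem A20 : K5.egf (an .all x Y T 2 0) 1 =
    (1 + Dmap x Y T) * (K5.egf (an .prm x Y T 2 0) 1 + T * K5.egf (an .prm x Y T 2 2) 1) := by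
  rw [A_eq, egf_par, Pj1 x Y T two_ne_zero, A10, ← dmap_eq]
  ring

theorem D_eq : Dmap x Y T = (1 + Dmap x Y T) *
    (K5.egf (an .prm x Y T 0 0) 1 + 2 * (T * K5.egf (an .prm x Y T 2 0) 1) +
      T ^ 2 * K5.egf (an .prm x Y T 2 2) 1) := by
  conv_lhs => rw [dmap_eq, A_eq, egf_par, P01, A10, A20, A_symm x Y T .prm 0 2, ← dmap_eq]
  ring

/-- The equation for the map networks. -/
theorem map_eq (hx0 : x ≠ 0) (hx : x ≠ ∞) :
    ∃ Se : ℝ≥0∞, Se * (1 + x * Dmap x Y T) = x * Dmap x Y T ^ 2 ∧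
      Dmap x Y T = (1 + Dmap x Y T) * (Y + Se + x * (1 + Dmap x Y T) ^ 2 * (2 * T + T ^ 2) +
        2 * K5.Kt x (Dmap x Y T) (1 + Dmap x Y T) T) ∧
      1 + 3 * Dmap x Y T + S x Y T 3 =
        (1 + Dmap x Y T) ^ 3 * (1 + T + K5.At x (Dmap x Y T) (1 + Dmap x Y T) T) := by
  have h2 := A20 x Y T
  have hk1 := core_eq x (Dmap x Y T) (1 + Dmap x Y T) T
  have hk2 := core_eq2 x (Dmap x Y T) (1 + Dmap x Y T) T
  have hs : K5.egf (an .ser x Y T 0 0) 1 = x * (K5.egf (an .nsr x Y T 0 0) 1 * Dmap x Y T) := by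
    rw [dmap_eq]
    exact egf_ser x Y T (i := 0) (j := 0) zero_le_one zero_le_one
  have hn : Dmap x Y T = K5.egf (an .nsr x Y T 0 0) 1 + K5.egf (an .ser x Y T 0 0) 1 := by
    rw [← A_eq', dmap_eq]
  refine ⟨K5.egf (an .ser x Y T 0 0) 1, ?_, ?_, ?_⟩
  · calc K5.egf (an .ser x Y T 0 0) 1 * (1 + x * Dmap x Y T)
        = K5.egf (an .ser x Y T 0 0) 1 + x * K5.egf (an .ser x Y T 0 0) 1 * Dmap x Y T := by ring
      _ = x * (K5.egf (an .nsr x Y T 0 0) 1 * Dmap x Y T) +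
          x * K5.egf (an .ser x Y T 0 0) 1 * Dmap x Y T := by
            rw [← hs]
      _ = x * (K5.egf (an .nsr x Y T 0 0) 1 + K5.egf (an .ser x Y T 0 0) 1) * Dmap x Y T := by
            ring
      _ = x * Dmap x Y T ^ 2 := by rw [← hn]; ring
  · conv_lhs => rw [D_eq]
    congr 1
    rw [P20, P22, P_eq, C_eq x Y T (Or.inl rfl) (Or.inl rfl), ← hk1]
    unfold sv
    simp only [and_self, if_true]
    ring
  · have h3 := hex_egf x Y T
    rw [← dmap_eq, h2, P20, P22] at h3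
    have h4 : x * ((1 + Dmap x Y T) ^ 3 * (1 + T + K5.At x (Dmap x Y T) (1 + Dmap x Y T) T)) =
        x * (1 + 3 * Dmap x Y T + S x Y T 3) := by
      rw [← h3]
      calc x * ((1 + Dmap x Y T) ^ 3 * (1 + T + K5.At x (Dmap x Y T) (1 + Dmap x Y T) T))
          = (1 + Dmap x Y T) * (x * (1 + Dmap x Y T) ^ 2 * (1 + T) +
            x * (1 + Dmap x Y T) ^ 2 * K5.At x (Dmap x Y T) (1 + Dmap x Y T) T) := by ring
        _ = _ := by rw [← hk2]; ring
    exact ((ENNReal.mul_right_inj hx0 hx).1 h4).symm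

end Eq

end K5M
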