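import Pool.Agent.Lib.K5M.DMap

/-!
# K5M.DSup: the supersolution principle for the map networks

Induction on the truncation degree.
-/

set_option autoImplicit false

namespace K5M

open Finset
open scoped ENNReal

namespace DSupAux

/-- The bounds for the truncated series. -/
structure Bd (x Y T z ds P00 P20 P22 : ℝ≥0∞) (N : ℕ) : Prop where
  a00 : K5.egf (tr N (an .all x Y T 0 0)) 1 ≤ z
  n00 : K5.egf (tr N (an .nsr x Y T 0 0)) 1 ≤ ds
  a10 : K5.egf (tr N (an .all x Y T 1 0)) 1 ≤ 1 + z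
  a11 : K5.egf (tr N (an .all x Y T 1 1)) 1 ≤ 1 + z
  a20 : K5.egf (tr N (an .all x Y T 2 0)) 1 ≤ (1 + z) * (P20 + T * P22)
  p00 : K5.egf (tr N (an .prm x Y T 0 0)) 1 ≤ P00
  p20 : K5.egf (tr N (an .prm x Y T 2 0)) 1 ≤ P20
  p22 : K5.egf (tr N (an .prm x Y T 2 2)) 1 ≤ P22

variable {x Y T z ds P00 P20 P22 : ℝ≥0∞} {N : ℕ}

theorem tr_symm (t : Ty) (i j N : ℕ) :
    K5.egf (tr N (an t x Y T i j)) 1 = K5.egf (tr N (an t x Y T j i)) 1 :=
  tr_congr (an_symm i j) N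

theorem tr_a (i j N : ℕ) : K5.egf (tr N (an .all x Y T i j)) 1 =
    K5.egf (tr N (an .prm x Y T i j)) 1 + K5.egf (tr N (par x Y T i j)) 1 := by
  rw [← egf_add, ← tr_add]
  exact tr_congr (all_eq x Y T i j) N

theorem tr_p (i j N : ℕ) : K5.egf (tr N (an .prm x Y T i j)) 1 =
    K5.egf (tr N (sgl Y i j)) 1 + K5.egf (tr N (an .ser x Y T i j)) 1 +
      K5.egf (tr N (an .cor x Y T i j)) 1 := by
  rw [← egf_add, ← tr_add, ← egf_add, ← tr_add]
  exact tr_congr (prm_eq x Y T i j) N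

theorem tr_n (i j N : ℕ) : K5.egf (tr N (an .nsr x Y T i j)) 1 =
    K5.egf (tr N (sgl Y i j)) 1 + K5.egf (tr N (an .cor x Y T i j)) 1 +
      K5.egf (tr N (par x Y T i j)) 1 := by
  rw [← egf_add, ← tr_add, ← egf_add, ← tr_add]
  exact tr_congr (nsr_eq x Y T i j) N

theorem tr_sg (i j N : ℕ) : K5.egf (tr N (sgl Y i j)) 1 ≤ sv Y i j :=
  (egf_tr_le _ N 1).trans (egf_sg Y i j).le

theorem tr_p10 (N : ℕ) : K5.egf (tr N (an .prm x Y T 1 0)) 1 ≤ 1 :=
  (egf_tr_le _ N 1).trans (P10 x Y T).le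

theorem tr_p01 (N : ℕ) : K5.egf (tr N (an .prm x Y T 0 1)) 1 ≤ 1 :=
  (egf_tr_le _ N 1).trans (P01 x Y T).le

theorem tr_p1j {j : ℕ} (hj : j ≠ 0) (N : ℕ) : K5.egf (tr N (an .prm x Y T 1 j)) 1 = 0 :=
  le_antisymm ((egf_tr_le _ N 1).trans (P1j x Y T hj).le) zero_le

theorem tr_pj1 {j : ℕ} (hj : j ≠ 0) (N : ℕ) : K5.egf (tr N (an .prm x Y T j 1)) 1 = 0 :=
  le_antisymm ((egf_tr_le _ N 1).trans (Pj1 x Y T hj).le) zero_le

theorem sv20 : sv Y 2 0 = 0 := by
  unfold sv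
  simp

theorem sv22 : sv Y 2 2 = 0 := by
  unfold sv
  simp

theorem sv00 : sv Y 0 0 = Y := by
  unfold sv
  simp

/-! ### The coefficients at 0 -/

theorem par0 (i j : ℕ) : par x Y T i j 0 = 0 := by
  unfold par
  simp

theorem ser0 {i j : ℕ} (hi : i = 0 ∨ i = 2) (hj : i = j ∨ j = 0) :
    an .ser x Y T i j 0 = 0 := by
  have h : ∀ i' j' : ℕ, i' ≤ 1 → j' ≤ 1 → an .ser x Y T (2 * i') (2 * j') 0 = 0 := by
    intro i' j' h1 h2
    rw [ser_eq x Y T h1 h2]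
    simp
  rcases hi with rfl | rfl
  · rcases hj with rfl | rfl
    · exact h 0 0 (by norm_num) (by norm_num)
    · exact h 0 0 (by norm_num) (by norm_num)
  · rcases hj with rfl | rfl
    · exact h 1 1 (by norm_num) (by norm_num)
    · exact h 1 0 (by norm_num) (by norm_num)

theorem cor0 {i j : ℕ} (hi : i = 0 ∨ i = 2) (hj : j = 0 ∨ j = 2) :
    an .cor x Y T i j 0 = 0 := by
  rw [cor_eq x Y T hi hj, Finset.range_zero, Finset.powerset_empty, Finset.sum_singleton,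
    Finset.card_empty]
  exact GA_zero x Y T i j _

theorem sg0 (i j : ℕ) : sgl Y i j 0 = sv Y i j := by
  unfold sgl sv
  simp

theorem base (hY : Y ≤ z) (hYd : Y ≤ ds) (hP : Y ≤ P00) : Bd x Y T z ds P00 P20 P22 0 := by
  have c00 : an .cor x Y T 0 0 0 = 0 := cor0 (Or.inl rfl) (Or.inl rfl)
  have c20 : an .cor x Y T 2 0 0 = 0 := cor0 (Or.inr rfl) (Or.inl rfl)
  have c22 : an .cor x Y T 2 2 0 = 0 := cor0 (Or.inr rfl) (Or.inr rfl)
  have s00 : an .ser x Y T 0 0 0 = 0 := ser0 (Or.inl rfl) (Or.inr rfl)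
  have s20 : an .ser x Y T 2 0 0 = 0 := ser0 (Or.inr rfl) (Or.inr rfl)
  have s22 : an .ser x Y T 2 2 0 = 0 := ser0 (Or.inr rfl) (Or.inl rfl)
  have e0 : ∀ t : Ty, ∀ i j : ℕ, K5.egf (tr 0 (an t x Y T i j)) 1 = an t x Y T i j 0 :=
    fun t i j => tr_zero _
  have p00 : an .prm x Y T 0 0 0 = Y := by
    rw [prm_eq, sg0, s00, c00, sv00, add_zero, add_zero]
  have p20 : an .prm x Y T 2 0 0 = 0 := by
    rw [prm_eq, sg0, s20, c20, sv20, add_zero, add_zero]
  have p22 : an .prm x Y T 2 2 0 = 0 := by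
    rw [prm_eq, sg0, s22, c22, sv22, add_zero, add_zero]
  refine ⟨?_, ?_, ?_, ?_, ?_, ?_, ?_, ?_⟩
  · rw [e0, all_eq, p00, par0, add_zero]
    exact hY
  · rw [e0, nsr_eq, sg0, sv00, c00, par0, add_zero, add_zero]
    exact hYd
  · rw [e0, all_eq, prm_oo, par0, add_zero, if_pos rfl]
    exact le_self_add
  · rw [e0, all_eq, prm_oj x Y T one_ne_zero, par0, add_zero]
    exact zero_le
  · rw [e0, all_eq, p20, par0, add_zero]
    exact zero_le
  · rw [e0, p00]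
    exact hP
  · rw [e0, p20]
    exact zero_le
  · rw [e0, p22]
    exact zero_le

theorem step {U : ℝ≥0∞} (hU : U ≠ ∞) (hzd : z = ds + U) (hUd : U = x * (ds * z))
    (h00 : P00 = Y + U + Cg 0 0 x z (1 + z) T)
    (h20 : P20 = x * (1 + z) ^ 2 + Cg 2 0 x z (1 + z) T)
    (h22 : P22 = x * (1 + z) ^ 2 + Cg 2 2 x z (1 + z) T)
    (hz : (1 + z) * (P00 + 2 * (T * P20) + T ^ 2 * P22) ≤ z)
    (h : Bd x Y T z ds P00 P20 P22 N) : Bd x Y T z ds P00 P20 P22 (N + 1) := by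
  have c00 : K5.egf (tr (N + 1) (an .cor x Y T 0 0)) 1 ≤ Cg 0 0 x z (1 + z) T :=
    tr_cor (Or.inl rfl) (Or.inl rfl) h.a00 h.a10 h.a11
  have c20 : K5.egf (tr (N + 1) (an .cor x Y T 2 0)) 1 ≤ Cg 2 0 x z (1 + z) T :=
    tr_cor (Or.inr rfl) (Or.inl rfl) h.a00 h.a10 h.a11
  have c22 : K5.egf (tr (N + 1) (an .cor x Y T 2 2)) 1 ≤ Cg 2 2 x z (1 + z) T :=
    tr_cor (Or.inr rfl) (Or.inr rfl) h.a00 h.a10 h.a11
  have n10 : K5.egf (tr N (an .nsr x Y T 1 0)) 1 ≤ 1 + z :=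
    (tr_congr (nsr_one x Y T 0) N).le.trans h.a10
  have n11 : K5.egf (tr N (an .nsr x Y T 1 1)) 1 ≤ 1 + z :=
    (tr_congr (nsr_one x Y T 1) N).le.trans h.a11
  have s00 : K5.egf (tr (N + 1) (an .ser x Y T 0 0)) 1 ≤ U := by
    refine (tr_ser x Y T (i := 0) (j := 0) zero_le_one zero_le_one N).trans ?_
    rw [hUd]
    exact mul_le_mul_right (mul_le_mul' h.n00 h.a00) x
  have s20 : K5.egf (tr (N + 1) (an .ser x Y T 2 0)) 1 ≤ x * (1 + z) ^ 2 := by
    refine (tr_ser x Y T (i := 1) (j := 0) le_rfl zero_le_one N).trans ?_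
    rw [pow_two]
    exact mul_le_mul_right (mul_le_mul' n10 h.a10) x
  have s22 : K5.egf (tr (N + 1) (an .ser x Y T 2 2)) 1 ≤ x * (1 + z) ^ 2 := by
    refine (tr_ser x Y T (i := 1) (j := 1) le_rfl le_rfl N).trans ?_
    rw [pow_two]
    exact mul_le_mul_right (mul_le_mul' n11 h.a11) x
  have p00 : K5.egf (tr (N + 1) (an .prm x Y T 0 0)) 1 ≤ P00 := by
    rw [tr_p, h00]
    exact add_le_add (add_le_add ((tr_sg 0 0 (N + 1)).trans sv00.le) s00) c00
  have p20 : K5.egf (tr (N + 1) (an .prm x Y T 2 0)) 1 ≤ P20 := by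
    rw [tr_p, h20, ← zero_add (x * (1 + z) ^ 2)]
    exact add_le_add (add_le_add ((tr_sg 2 0 (N + 1)).trans sv20.le) s20) c20
  have p22 : K5.egf (tr (N + 1) (an .prm x Y T 2 2)) 1 ≤ P22 := by
    rw [tr_p, h22, ← zero_add (x * (1 + z) ^ 2)]
    exact add_le_add (add_le_add ((tr_sg 2 2 (N + 1)).trans sv22.le) s22) c22
  have q00 : K5.egf (tr (N + 1) (par x Y T 0 0)) 1 ≤
      P00 * z + T * (1 * ((1 + z) * (P20 + T * P22)) + P20 * (1 + z)) := by
    refine (tr_par x Y T 0 0 N).trans ?_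
    refine add_le_add (mul_le_mul' h.p00 h.a00) (mul_le_mul_right (add_le_add
      (mul_le_mul' (tr_p01 N) h.a20) (mul_le_mul' ?_ h.a10)) T)
    rw [tr_symm]
    exact h.p20
  refine ⟨?_, ?_, ?_, ?_, ?_, p00, p20, p22⟩
  · rw [tr_a]
    refine (add_le_add p00 q00).trans (le_trans (le_of_eq ?_) hz)
    ring
  · rw [tr_n]
    have h1 : K5.egf (tr (N + 1) (sgl Y 0 0)) 1 + K5.egf (tr (N + 1) (an .cor x Y T 0 0)) 1 +
        K5.egf (tr (N + 1) (par x Y T 0 0)) 1 + U ≤ ds + U := by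
      rw [← hzd]
      refine le_trans ?_ hz
      refine (add_le_add (add_le_add (add_le_add ((tr_sg 0 0 (N + 1)).trans sv00.le) c00) q00)
        le_rfl).trans (le_of_eq ?_)
      calc Y + Cg 0 0 x z (1 + z) T +
            (P00 * z + T * (1 * ((1 + z) * (P20 + T * P22)) + P20 * (1 + z))) + U
          = (Y + U + Cg 0 0 x z (1 + z) T) +
            (P00 * z + T * (1 * ((1 + z) * (P20 + T * P22)) + P20 * (1 + z))) := by ring
        _ = _ := by rw [← h00]; ring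
    exact (ENNReal.add_le_add_iff_right hU).1 h1
  · rw [tr_a]
    refine (add_le_add (tr_p10 (N + 1)) ((tr_par x Y T 1 0 N).trans ?_))
    rw [tr_p1j one_ne_zero, tr_p1j two_ne_zero, zero_mul, zero_mul, add_zero, mul_zero, add_zero]
    calc _ ≤ 1 * z := mul_le_mul' (tr_p10 N) h.a00
      _ = z := one_mul z
  · rw [tr_a, tr_p1j one_ne_zero, zero_add]
    refine (tr_par x Y T 1 1 N).trans ?_
    rw [tr_p1j one_ne_zero, tr_p1j two_ne_zero, zero_mul, zero_mul, add_zero, mul_zero, add_zero]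
    calc _ ≤ 1 * (1 + z) := mul_le_mul' (tr_p10 N) (by rw [tr_symm]; exact h.a10)
      _ = 1 + z := one_mul _
  · rw [tr_a]
    refine (add_le_add p20 (tr_par x Y T 2 0 N)).trans ?_
    rw [tr_pj1 two_ne_zero, zero_mul, zero_add]
    calc _ ≤ P20 + (P20 * z + T * (P22 * (1 + z))) :=
          add_le_add le_rfl (add_le_add (mul_le_mul' h.p20 h.a00)
            (mul_le_mul_right (mul_le_mul' h.p22 h.a10) T))
      _ = (1 + z) * (P20 + T * P22) := by ring

end DSupAux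

open DSupAux

/-- The supersolution principle for the map networks. -/
theorem map_sup (x Y T z U : ℝ≥0∞) (hx : x ≠ ∞) (hz : z ≠ ∞)
    (hU : U * (1 + x * z) = x * z ^ 2)
    (h : (1 + z) * (Y + U + x * (1 + z) ^ 2 * (2 * T + T ^ 2) +
      2 * K5.Kt x z (1 + z) T) ≤ z) : Dmap x Y T ≤ z := by
  have hc0 : 1 + x * z ≠ 0 := by
    intro h0
    exact one_ne_zero (add_eq_zero.1 h0).1
  have hc : 1 + x * z ≠ ∞ := ENNReal.add_ne_top.2 ⟨ENNReal.one_ne_top, ENNReal.mul_ne_top hx hz⟩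
  obtain ⟨ds, hds⟩ : ∃ ds : ℝ≥0∞, ds * (1 + x * z) = z :=
    ⟨z / (1 + x * z), ENNReal.div_mul_cancel hc0 hc⟩
  have hUe : U = x * (ds * z) := by
    refine (ENNReal.mul_left_inj hc0 hc).1 ?_
    rw [hU]
    calc x * z ^ 2 = x * (ds * (1 + x * z)) * z := by rw [hds]; ring
      _ = _ := by ring
  have hzd : z = ds + U := by
    rw [hUe]
    calc z = ds * (1 + x * z) := hds.symm
      _ = _ := by ring
  have hUt : U ≠ ∞ := by
    intro h0
    rw [h0, add_top] at hzd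
    exact hz hzd
  have hk := core_eq x z (1 + z) T
  set P00 := Y + U + Cg 0 0 x z (1 + z) T with h00
  set P20 := x * (1 + z) ^ 2 + Cg 2 0 x z (1 + z) T with h20
  set P22 := x * (1 + z) ^ 2 + Cg 2 2 x z (1 + z) T with h22
  have hP : (1 + z) * (P00 + 2 * (T * P20) + T ^ 2 * P22) ≤ z := by
    refine le_trans (le_of_eq ?_) h
    rw [← hk, h00, h20, h22]
    ring
  have hYP : Y ≤ P00 := by
    rw [h00, add_assoc]
    exact le_self_add
  have hPz : P00 ≤ z := by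
    refine le_trans ?_ hP
    calc P00 ≤ 1 * P00 := by rw [one_mul]
      _ ≤ (1 + z) * (P00 + 2 * (T * P20) + T ^ 2 * P22) := by
        refine mul_le_mul' le_self_add ?_
        rw [add_assoc]
        exact le_self_add
  have hYd : Y ≤ ds := by
    refine (ENNReal.add_le_add_iff_right hUt).1 ?_
    rw [← hzd]
    refine le_trans ?_ hPz
    rw [h00]
    exact le_self_add
  rw [dmap_eq]
  refine egf_le_of_tr fun N => ?_
  have hB : ∀ N, Bd x Y T z ds P00 P20 P22 N := by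
    intro N
    induction N with
    | zero => exact base (hYP.trans hPz) hYd hYP
    | succ N ih => exact step hUt hzd hUe h00 h20 h22 hP ih
  exact (hB N).a00

end K5M
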