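import Pool.Agent.Lib.K5M.Rc
import Pool.Agent.Lib.K5A.AS

/-!
# K5M.MapS: the output of the labelled counting of the recursion

`mapIn_S`: the graded recursion and the expansion of `S x Y T k`; `S_two`: `S x Y T 2 = Dmap x Y T`.
-/

set_option autoImplicit false

namespace K5M

open Finset
open scoped ENNReal

theorem mapIn_S : K5A.MapIn (fun x Y T k => S x Y T k) :=
  ⟨fun x hx => ⟨sg x, _, _, recIn hx, fun k _ Y T => S_eq x Y T k⟩⟩

/-- Networks are fillings. -/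
theorem mnet_eq (L : Finset ℕ) :
    MNet 0 1 2 3 L = MFill true [0, 3] [0, 2, 1, 3] L := by
  ext s
  have h1 : Net 0 1 2 3 s.1 ↔ Fill true [0, 3] [0, 2, 1, 3] s.1 :=
    net_iff_fill (w0 := 0) (w1 := 1) (b0 := 2) (b1 := 3) (by decide) s.1
  have h2 : ninn 0 1 2 3 s.1 = inn [0, 3] [0, 2, 1, 3] s.1 := by
    unfold ninn inn
    have h3 : ({0, 1, 2, 3} : Finset ℕ) = [0, 3].toFinset ∪ [0, 2, 1, 3].toFinset := by decide
    rw [h3]
  show (Net 0 1 2 3 s.1 ∧ ninn 0 1 2 3 s.1 = L ∧ Mk L s.2 s.1) ↔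
    (Fill true [0, 3] [0, 2, 1, 3] s.1 ∧ inn [0, 3] [0, 2, 1, 3] s.1 = L ∧ Mk L s.2 s.1)
  rw [h1, h2]

theorem S_two (x Y T : ℝ≥0∞) : S x Y T 2 = Dmap x Y T := by
  unfold S Dmap
  refine tsum_congr fun n => ?_
  congr 1
  rw [mnet_eq]
  have h1 := FW_map (Equiv.swap 1 2) x Y T true [0, 3] [0, 2, 1, 3] (Finset.Ico 4 (4 + n))
  have h2 : (Finset.Ico 4 (4 + n)).image (Equiv.swap 1 2) = Finset.Ico 4 (4 + n) := by
    ext u
    rw [Finset.mem_image]
    constructor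
    · rintro ⟨w, hw, rfl⟩
      have := Finset.mem_Ico.1 hw
      rw [Equiv.swap_apply_of_ne_of_ne (by omega) (by omega)]
      exact hw
    · intro hu
      have := Finset.mem_Ico.1 hu
      exact ⟨u, hu, Equiv.swap_apply_of_ne_of_ne (by omega) (by omega)⟩
  have h3 : ([0, 3] : List ℕ).map (Equiv.swap 1 2) = [0, 3] := by decide
  have h4 : ([0, 2, 1, 3] : List ℕ).map (Equiv.swap 1 2) = [0, 1, 2, 3] := by decide
  rw [h2, h3, h4] at h1
  exact h1

end K5M
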