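import Pool.Agent.Lib.K5M.A1

/-!
# K5M.A2: the cut space is the orthogonal space of the cycle space

PROOF.  Over `ZMod 2` let `∂ : (E → ZMod 2) → (W → ZMod 2) × (B → ZMod 2)` (`W`, `B` = finite sets
of the white and black ends of `E`) send an edge to its two ends.  `ker ∂` = (indicators of) even
subsets of `E`.  The functional `φ z = ∑_{e ∈ A} z e` vanishes on `ker ∂` by assumption, hence
`φ = ψ ∘ ∂` for a functional `ψ` (finite dimensional duality:
`LinearMap.range_dualMap_eq_dualAnnihilator_ker` or a complement of `ker ∂`).  Put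
`s w := ψ (indicator of the white vertex w)`, `t b := ψ (indicator of b)` (as `Bool`): for `e ∈ E`,
`[e ∈ A] = φ (indicator of e) = s e.1 + t e.2`, so `e ∈ A ↔ s e.1 ≠ t e.2`.
(An alternative is induction on `E`.)
-/

set_option autoImplicit false

namespace K5M

open Finset

namespace A2Aux

/-- incidence of a vertex (white: `inl`, black: `inr`) with an edge -/
def inc (v : ℕ ⊕ ℕ) (e : Ed) : Prop := v = Sum.inl e.1 ∨ v = Sum.inr e.2

instance (v : ℕ ⊕ ℕ) (e : Ed) : Decidable (inc v e) := by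
  unfold inc
  infer_instance

/-- the boundary of an edge function -/
def D (E : Finset Ed) (z : Ed → ZMod 2) (v : ℕ ⊕ ℕ) : ZMod 2 :=
  ∑ e ∈ E, if inc v e then z e else 0

theorem D_add (E : Finset Ed) (z z' : Ed → ZMod 2) (v : ℕ ⊕ ℕ) :
    D E (fun e => z e + z' e) v = D E z v + D E z' v := by
  unfold D
  rw [← Finset.sum_add_distrib]
  refine Finset.sum_congr rfl fun e _ => ?_
  by_cases h : inc v e
  · rw [if_pos h, if_pos h, if_pos h]
  · rw [if_neg h, if_neg h, if_neg h, add_zero]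

/-- a single edge -/
def de (e0 : Ed) (e : Ed) : ZMod 2 := if e = e0 then 1 else 0

theorem D_de {E : Finset Ed} {e0 : Ed} (h : e0 ∈ E) (v : ℕ ⊕ ℕ) :
    D E (de e0) v = (if v = Sum.inl e0.1 then 1 else 0) + (if v = Sum.inr e0.2 then 1 else 0) := by
  unfold D
  rw [Finset.sum_eq_single e0]
  · have h1 : de e0 e0 = 1 := if_pos rfl
    rw [h1]
    by_cases h2 : v = Sum.inl e0.1
    · have h3 : v ≠ Sum.inr e0.2 := by
        rw [h2]
        exact Sum.inl_ne_inr
      have h5 : inc v e0 := Or.inl h2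
      rw [if_pos h5, if_pos h2, if_neg h3, add_zero]
    · by_cases h3 : v = Sum.inr e0.2
      · have h5 : inc v e0 := Or.inr h3
        rw [if_pos h5, if_neg h2, if_pos h3, zero_add]
      · have h5 : ¬ inc v e0 := by
          rintro (h4 | h4)
          · exact h2 h4
          · exact h3 h4
        rw [if_neg h5, if_neg h2, if_neg h3, add_zero]
  · intro e _ he
    have h1 : de e0 e = 0 := if_neg he
    rw [h1, ite_self]
  · exact fun h1 => absurd h h1

/-- the graph of the edge set -/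
def gr (E : Finset Ed) : SimpleGraph (ℕ ⊕ ℕ) where
  Adj x y := ∃ e ∈ E, (x = Sum.inl e.1 ∧ y = Sum.inr e.2) ∨ (x = Sum.inr e.2 ∧ y = Sum.inl e.1)
  symm := ⟨fun _ _ ⟨e, he, h⟩ => ⟨e, he, h.elim (fun h => Or.inr ⟨h.2, h.1⟩)
    (fun h => Or.inl ⟨h.2, h.1⟩)⟩⟩
  loopless := ⟨fun _ ⟨_, _, h⟩ => h.elim (fun h => Sum.inl_ne_inr (h.1.symm.trans h.2))
    (fun h => Sum.inl_ne_inr (h.2.symm.trans h.1))⟩

theorem dd : ∀ x : ZMod 2, x + x = 0 := by decide

theorem reach {E : Finset Ed} {x y : ℕ ⊕ ℕ} (w : (gr E).Walk x y) :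
    ∃ z : Ed → ZMod 2, ∀ v, D E z v = (if v = x then 1 else 0) + (if v = y then 1 else 0) := by
  induction w with
  | nil =>
    refine ⟨fun _ => 0, fun v => ?_⟩
    unfold D
    rw [dd]
    exact Finset.sum_eq_zero fun e _ => ite_self _
  | @cons u v w hadj p ih =>
    obtain ⟨z, hz⟩ := ih
    obtain ⟨e, he, h1⟩ := hadj
    refine ⟨fun e' => de e e' + z e', fun x => ?_⟩
    rw [D_add, D_de he, hz]
    have h6 := dd (if x = v then 1 else 0)
    rcases h1 with h1 | h1
    · rw [← h1.1, ← h1.2]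
      linear_combination h6
    · rw [← h1.1, ← h1.2]
      linear_combination h6

theorem val : ∀ x : ZMod 2, x = if x ≠ 0 then 1 else 0 := by decide

theorem card_eq (S : Finset Ed) (z : Ed → ZMod 2) :
    (((S.filter (fun e => z e ≠ 0)).card : ℕ) : ZMod 2) = ∑ e ∈ S, z e := by
  rw [Finset.card_filter, Nat.cast_sum]
  refine Finset.sum_congr rfl fun e _ => ?_
  rw [Nat.cast_ite, Nat.cast_one, Nat.cast_zero]
  exact (val (z e)).symm

theorem even_iff (n : ℕ) : Even n ↔ ((n : ℕ) : ZMod 2) = 0 := by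
  rw [ZMod.natCast_eq_zero_iff, even_iff_two_dvd]

theorem evn_of {E : Finset Ed} {z : Ed → ZMod 2} (h : ∀ v, D E z v = 0) :
    Evn (E.filter (fun e => z e ≠ 0)) := by
  constructor
  · intro w
    rw [even_iff, Finset.filter_comm, card_eq, Finset.sum_filter]
    have h1 := h (Sum.inl w)
    unfold D at h1
    refine Eq.trans (Finset.sum_congr rfl fun e _ => if_congr ?_ rfl rfl) h1
    unfold inc
    constructor
    · intro h2
      exact Or.inl (congrArg Sum.inl h2.symm)
    · rintro (h2 | h2)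
      · exact (Sum.inl_injective h2).symm
      · exact absurd h2 Sum.inl_ne_inr
  · intro b
    rw [even_iff, Finset.filter_comm, card_eq, Finset.sum_filter]
    have h1 := h (Sum.inr b)
    unfold D at h1
    refine Eq.trans (Finset.sum_congr rfl fun e _ => if_congr ?_ rfl rfl) h1
    unfold inc
    constructor
    · intro h2
      exact Or.inr (congrArg Sum.inr h2.symm)
    · rintro (h2 | h2)
      · exact absurd h2.symm Sum.inl_ne_inr
      · exact (Sum.inr_injective h2).symm

theorem fin1 : ∀ x y : ZMod 2, x + y + 1 = 0 → decide (x = 1) ≠ decide (y = 1) := by decide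

theorem fin0 : ∀ x y : ZMod 2, x + y + 0 = 0 → decide (x = 1) = decide (y = 1) := by decide

end A2Aux

open A2Aux

theorem cutspace (E A : Finset Ed) (hA : A ⊆ E) (h : ∀ Z ⊆ E, Evn Z → Even (Z ∩ A).card) :
    ∃ s t : ℕ → Bool, ∀ e ∈ E, (e ∈ A ↔ s e.1 ≠ t e.2) := by
  have key : ∀ z : Ed → ZMod 2, (∀ v, D E z v = 0) → ∑ e ∈ A, z e = 0 := by
    intro z hz
    have h1 := h _ (Finset.filter_subset _ _) (evn_of hz)
    rw [even_iff] at h1
    have h2 : E.filter (fun e => z e ≠ 0) ∩ A = A.filter (fun e => z e ≠ 0) := by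
      ext e
      rw [Finset.mem_inter, Finset.mem_filter, Finset.mem_filter]
      constructor
      · exact fun h3 => ⟨h3.2, h3.1.2⟩
      · exact fun h3 => ⟨⟨hA h3.1, h3.2⟩, h3.1⟩
    rw [h2, card_eq] at h1
    exact h1
  have hr : ∀ v : ℕ ⊕ ℕ, (gr E).Reachable (Quot.out ((gr E).connectedComponentMk v)) v := fun v =>
    SimpleGraph.ConnectedComponent.exact (Quot.out_eq ((gr E).connectedComponentMk v))
  have hw : ∀ v : ℕ ⊕ ℕ, ∃ z : Ed → ZMod 2, ∀ u, D E z u =
      (if u = Quot.out ((gr E).connectedComponentMk v) then 1 else 0) +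
        (if u = v then 1 else 0) := fun v => (hr v).elim fun w => reach w
  choose z hz using hw
  refine ⟨fun w => decide (∑ e ∈ A, z (Sum.inl w) e = 1),
    fun b => decide (∑ e ∈ A, z (Sum.inr b) e = 1), fun e he => ?_⟩
  have hadj : (gr E).Adj (Sum.inl e.1) (Sum.inr e.2) := ⟨e, he, Or.inl ⟨rfl, rfl⟩⟩
  have hcc : (gr E).connectedComponentMk (Sum.inl e.1) =
      (gr E).connectedComponentMk (Sum.inr e.2) :=
    SimpleGraph.ConnectedComponent.sound hadj.reachable
  have h1 := key (fun e' => (z (Sum.inl e.1) e' + z (Sum.inr e.2) e') + de e e') (by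
    intro v
    rw [D_add, D_add, hz, hz, D_de he, hcc]
    have h1 := dd (if v = Quot.out ((gr E).connectedComponentMk (Sum.inr e.2)) then 1 else 0)
    have h2 := dd (if v = Sum.inl e.1 then 1 else 0)
    have h3 := dd (if v = Sum.inr e.2 then 1 else 0)
    linear_combination h1 + h2 + h3)
  rw [Finset.sum_add_distrib, Finset.sum_add_distrib] at h1
  by_cases heA : e ∈ A
  · have h2 : ∑ e' ∈ A, de e e' = 1 := by
      rw [Finset.sum_eq_single e]
      · exact if_pos rfl
      · exact fun e' _ h3 => if_neg h3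
      · exact fun h3 => absurd heA h3
    rw [h2] at h1
    exact iff_of_true heA (fin1 _ _ h1)
  · have h2 : ∑ e' ∈ A, de e e' = 0 :=
      Finset.sum_eq_zero fun e' he' => if_neg (fun h3 : e' = e => heA (h3 ▸ he'))
    rw [h2] at h1
    exact iff_of_false heA (not_not.mpr (fin0 _ _ h1))

end K5M
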