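import Pool.Agent.Lib.K5M.A1

/-!
# K5M.A3: restriction of acyclic complexes, submodularity

PROOFS.
`AC.restrict`: `isq`, `two`, `inj` are inherited.  `sur`: let `Z ⊆ E1` be even; `Z = bd Y`,
`Y ⊆ N`.  Put `Y1 = Y ∩ X`, `Y2 = Y \ X ⊆ N \ X`.  `bd Y2 = Z Δ bd Y1 ⊆ E1` (as `bd Y1 ⊆ EdS X ⊆ E1`)
and `bd Y2 ⊆ EdS (N \ X)`; `bd Y2` is even.  By `h3` it is `∅` or `bd X`.  In the first case
`Y2 = ∅` (`inj`), so `Y ⊆ X`.  In the second case `bd (Y2 ∪ X) = ∅`, hence `Y2 ∪ X = ∅`, so `Y2 = ∅`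
again and we are done.
`AC.circuit_sub`: `E1 = EdS X`.  If `e ∈ EdS X ∩ EdS (N \ X)` then `dg X e ≥ 1`, `dg (N \ X) e ≥ 1` and
`dg N e ≤ 2`, so `dg X e = 1` and `e ∈ bd X`; an even subset of the circuit `bd X` is `∅` or `bd X`.
`card_bd_submod`, `card_bd_posimod`: edge by edge; for an edge `e` let `m = dg N e ≤ 2`; `e ∈ bd X` iff
exactly one quad at `e` is in `X`.  If `m = 0` nothing to do.  If `m = 1`, with the quad `q`:
`e ∈ bd X ↔ q ∈ X`, and `[q ∈ X ∪ Y] + [q ∈ X ∩ Y] = [q ∈ X] + [q ∈ Y]`, `[q ∈ X \ Y] + [q ∈ Y \ X] ≤ [q ∈ X] + [q ∈ Y]`.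
If `m = 2`, with the quads `q, q'`: `e ∈ bd X ↔ (q ∈ X xor q' ∈ X)`; 16 cases.
(Write `(bd X).card = ∑ e ∈ EdS N, if e ∈ bd X then 1 else 0` and compare term by term.)
`AC.four_le_bd`: `bd X ≠ ∅` by `inj`, and it is even.
`AC.union_four`: both cards are at least 4 and their sum is at most 8.
-/

set_option autoImplicit false

namespace K5M

open Finset

namespace A3Aux

lemma bd_eq_filter {N X : Finset Quad} (hX : X ⊆ N) :
    bd X = (EdS N).filter (fun e => Odd (dg X e)) := by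
  ext e
  rw [mem_bd, Finset.mem_filter]
  constructor
  · intro h
    exact ⟨EdS_mono hX (dg_pos.1 h.pos), h⟩
  · exact fun h => h.2

lemma card_bd_eq {N X : Finset Quad} (hX : X ⊆ N) :
    (bd X).card = ∑ e ∈ EdS N, if Odd (dg X e) then 1 else 0 := by
  rw [bd_eq_filter hX, Finset.card_filter]

lemma dg_split (X Y : Finset Quad) (e : Ed) : dg X e = dg (X \ Y) e + dg (X ∩ Y) e := by
  rw [← dg_union (Finset.disjoint_sdiff_inter X Y), Finset.sdiff_union_inter]

lemma dg_union3 (X Y : Finset Quad) (e : Ed) :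
    dg (X ∪ Y) e = dg (X \ Y) e + dg (Y \ X) e + dg (X ∩ Y) e := by
  have h1 : X ∪ Y = (X \ Y) ∪ Y := by
    ext q
    simp only [Finset.mem_union, Finset.mem_sdiff]
    tauto
  rw [h1, dg_union Finset.sdiff_disjoint, dg_split Y X e, Finset.inter_comm Y X]
  ring

lemma num1 (a b c : ℕ) (h : a + b + c ≤ 2) :
    (if Odd (a + b + c) then 1 else 0) + (if Odd c then 1 else 0) ≤
      (if Odd (a + c) then 1 else 0) + (if Odd (b + c) then 1 else 0) := by
  have ha : a ≤ 2 := by omega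
  have hb : b ≤ 2 := by omega
  have hc : c ≤ 2 := by omega
  interval_cases a <;> interval_cases b <;> interval_cases c <;>
    first | (exfalso; omega) | decide

lemma num2 (a b c : ℕ) (h : a + b + c ≤ 2) :
    (if Odd a then 1 else 0) + (if Odd b then 1 else 0) ≤
      (if Odd (a + c) then 1 else 0) + (if Odd (b + c) then 1 else 0) := by
  have ha : a ≤ 2 := by omega
  have hb : b ≤ 2 := by omega
  have hc : c ≤ 2 := by omega
  interval_cases a <;> interval_cases b <;> interval_cases c <;>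
    first | (exfalso; omega) | decide

end A3Aux

theorem AC.restrict {E E1 : Finset Ed} {N X : Finset Quad} (h : AC E N) (hX : X ⊆ N)
    (h1 : EdS X ⊆ E1) (h2 : E1 ⊆ E)
    (h3 : ∀ Z ⊆ E1 ∩ EdS (N \ X), Evn Z → Z = ∅ ∨ Z = bd X) : AC E1 X := by
  refine ⟨fun q hq => h.isq q (hX hq), h1, fun e => (dg_mono hX e).trans (h.two e),
    fun Y hY hb => h.inj Y (hY.trans hX) hb, fun Z hZ hev => ?_⟩
  obtain ⟨Y, hYN, hYb⟩ := h.sur Z (hZ.trans h2) hev
  have hsub2 : Y \ X ⊆ N \ X := Finset.sdiff_subset_sdiff hYN (Finset.Subset.refl X)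
  have hsplit : bd Y = symmDiff (bd (Y \ X)) (bd (Y ∩ X)) := by
    rw [← bd_union (Finset.disjoint_sdiff_inter Y X), Finset.sdiff_union_inter]
  have hb2 : bd (Y \ X) = symmDiff Z (bd (Y ∩ X)) := by
    rw [← hYb, hsplit, symmDiff_symmDiff_cancel_right]
  have hb1E : bd (Y ∩ X) ⊆ E1 := (bd_sub _).trans ((EdS_mono Finset.inter_subset_right).trans h1)
  have hE : bd (Y \ X) ⊆ E1 := by
    rw [hb2]
    intro e he
    rcases Finset.mem_symmDiff.1 he with h | h
    · exact hZ h.1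
    · exact hb1E h.1
  have hev2 : Evn (bd (Y \ X)) := Evn_bd (fun q hq => h.isq q (hYN (Finset.sdiff_subset hq)))
  have hY2 : Y \ X = ∅ := by
    rcases h3 (bd (Y \ X)) (Finset.subset_inter hE ((bd_sub _).trans (EdS_mono hsub2))) hev2
      with h4 | h4
    · exact h.inj _ (Finset.sdiff_subset.trans hYN) h4
    · have h5 : bd ((Y \ X) ∪ X) = ∅ := by
        rw [bd_union Finset.sdiff_disjoint, h4, symmDiff_self]
        rfl
      have h6 := h.inj _ (Finset.union_subset (Finset.sdiff_subset.trans hYN) hX) h5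
      exact (Finset.union_eq_empty.1 h6).1
  exact ⟨Y, Finset.sdiff_eq_empty_iff_subset.1 hY2, hYb⟩

theorem AC.circuit_sub {E : Finset Ed} {N X : Finset Quad} (h : AC E N) (hX : X ⊆ N)
    (hc : Circ (bd X)) : AC (EdS X) X := by
  refine h.restrict hX (Finset.Subset.refl _) ((EdS_mono hX).trans h.sub) (fun Z hZ hev => ?_)
  refine hc.min Z (fun e he => ?_) hev
  have h1 := Finset.mem_inter.1 (hZ he)
  have h2 := dg_pos.2 h1.1
  have h3 := dg_pos.2 h1.2
  have h4 := dg_sdiff hX e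
  have h5 := h.two e
  rw [mem_bd]
  have h6 : dg X e = 1 := by omega
  rw [h6]
  exact odd_one

theorem AC.self {E : Finset Ed} {N : Finset Quad} (h : AC E N) : AC (EdS N) N := by
  exact ⟨h.isq, Finset.Subset.refl _, h.two, h.inj, fun Z hZ hev => h.sur Z (hZ.trans h.sub) hev⟩

theorem card_bd_submod {N X Y : Finset Quad} (h2 : ∀ e, dg N e ≤ 2) (hX : X ⊆ N) (hY : Y ⊆ N) :
    (bd (X ∪ Y)).card + (bd (X ∩ Y)).card ≤ (bd X).card + (bd Y).card := by
  rw [A3Aux.card_bd_eq (Finset.union_subset hX hY),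
    A3Aux.card_bd_eq (X := X ∩ Y) (Finset.inter_subset_left.trans hX), A3Aux.card_bd_eq hX,
    A3Aux.card_bd_eq hY, ← Finset.sum_add_distrib, ← Finset.sum_add_distrib]
  refine Finset.sum_le_sum (fun e _ => ?_)
  have h1 := A3Aux.dg_union3 X Y e
  have h3 : dg (X ∪ Y) e ≤ 2 := (dg_mono (Finset.union_subset hX hY) e).trans (h2 e)
  have h4 := A3Aux.dg_split X Y e
  have h5 := A3Aux.dg_split Y X e
  rw [Finset.inter_comm Y X] at h5
  rw [h1] at h3
  rw [h1, h4, h5]
  exact A3Aux.num1 _ _ _ h3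

theorem card_bd_posimod {N X Y : Finset Quad} (h2 : ∀ e, dg N e ≤ 2) (hX : X ⊆ N) (hY : Y ⊆ N) :
    (bd (X \ Y)).card + (bd (Y \ X)).card ≤ (bd X).card + (bd Y).card := by
  rw [A3Aux.card_bd_eq (X := X \ Y) (Finset.sdiff_subset.trans hX),
    A3Aux.card_bd_eq (X := Y \ X) (Finset.sdiff_subset.trans hY), A3Aux.card_bd_eq hX,
    A3Aux.card_bd_eq hY, ← Finset.sum_add_distrib, ← Finset.sum_add_distrib]
  refine Finset.sum_le_sum (fun e _ => ?_)
  have h1 := A3Aux.dg_union3 X Y e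
  have h3 : dg (X ∪ Y) e ≤ 2 := (dg_mono (Finset.union_subset hX hY) e).trans (h2 e)
  have h4 := A3Aux.dg_split X Y e
  have h5 := A3Aux.dg_split Y X e
  rw [Finset.inter_comm Y X] at h5
  rw [h1] at h3
  rw [h4, h5]
  exact A3Aux.num2 _ _ _ h3

theorem AC.four_le_bd {E : Finset Ed} {N X : Finset Quad} (h : AC E N) (hX : X ⊆ N)
    (hne : X.Nonempty) : 4 ≤ (bd X).card := by
  refine four_le (Evn_bd (fun q hq => h.isq q (hX hq))) ?_
  rw [Finset.nonempty_iff_ne_empty]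
  intro h0
  exact hne.ne_empty (h.inj X hX h0)

theorem AC.union_four {E : Finset Ed} {N X Y : Finset Quad} (h : AC E N) (hX : X ⊆ N) (hY : Y ⊆ N)
    (hX4 : (bd X).card = 4) (hY4 : (bd Y).card = 4) (hne : (X ∩ Y).Nonempty) :
    (bd (X ∪ Y)).card = 4 ∧ (bd (X ∩ Y)).card = 4 := by
  have h1 := card_bd_submod h.two hX hY
  have h2 := h.four_le_bd (Finset.union_subset hX hY)
    (hne.mono (Finset.inter_subset_left.trans Finset.subset_union_left))
  have h3 := h.four_le_bd (Finset.inter_subset_left.trans hX) hne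
  omega

theorem AC.sdiff_four {E : Finset Ed} {N X Y : Finset Quad} (h : AC E N) (hX : X ⊆ N) (hY : Y ⊆ N)
    (hX4 : (bd X).card = 4) (hY4 : (bd Y).card = 4) (hne : (X \ Y).Nonempty)
    (hne' : (Y \ X).Nonempty) :
    (bd (X \ Y)).card = 4 ∧ (bd (Y \ X)).card = 4 := by
  have h1 := card_bd_posimod h.two hX hY
  have h2 := h.four_le_bd (Finset.sdiff_subset.trans hX) hne
  have h3 := h.four_le_bd (Finset.sdiff_subset.trans hY) hne'
  omega

end K5M
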