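import Pool.Agent.Lib.K5M.A2
import Pool.Agent.Lib.K5M.A3

/-!
# K5M.A4: the link lemma

`outer E N` is the set of the edges of `E` in at most one quad of `N`.

LINK LEMMA.  `AC E N`, the outer edges form a connected set, `X ⊆ N`, some quad of `X` contains the
vertex `p`, no edge of `bd X` contains `p`.  Then all quads of `N` at `p` are in `X` and every edge of
`E` at `p` is in two quads of `N`.

PROOF (white `p`).  Let `A = {e ∈ E : e.1 = p, e ∈ EdS X}`.  (0) If `e ∈ A` then `dg X e = 2`: it is at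
least 1, at most 2 and not odd (`e ∉ bd X`); so no quad of `N \ X` contains `e` and `e` is not outer.
(1) Every even `Z ⊆ E` meets `A` in an even number of edges: `Z = bd Y`, `Y ⊆ N`; modulo 2,
`#(Z ∩ A) = ∑_{e ∈ A} dg Y e = ∑_{q ∈ Y} #(ed q ∩ A)`, and `#(ed q ∩ A)` is 2 if `q ∈ X` and `p ∈ q.1` (both
edges of `q` at `p` are in `A`), and 0 otherwise (by (0) if `q ∈ N \ X`).
(2) By `cutspace` there are `s, t` with, for `e ∈ E`, `e ∈ A ↔ s e.1 ≠ t e.2`; replacing `s, t` by their
negations we may assume `s p = false`.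
(3) For `q ∈ N`: if `p ∉ q.1` all four vertices of `q` have the same value (its edges are not in `A`); if
`p ∈ q.1`, `q ∈ X`, its two blacks have value `true` and so has its other white; if `p ∈ q.1`, `q ∉ X`, all
its vertices have value `false`.  Let `NS` = the quads of `N` one (equivalently both) of whose blacks has
value `true`.  Then `EdS NS` and `EdS (N \ NS)` are disjoint (look at the value of the black end), and
`dg NS e = dg N e` for `e ∈ EdS NS`, similarly for `N \ NS`.  So an edge of `bd NS` or `bd (N \ NS)` has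
`dg N e = 1` and is outer.
(4) Outer edges are not in `A`, so `s e.1 = t e.2` for them, and by connectedness all outer edges have
the same value `κ`.  If `κ = false` (or there is no outer edge): `bd NS = ∅` (its edges have black value
`true`), so `NS = ∅`, but the quad of `X` at `p` is in `NS`: contradiction.  So `κ = true`.  Then an outer
edge at `p` is impossible (`s p = false`), and if there were a quad of `N \ X` at `p`, it would be in
`N \ NS`, but `bd (N \ NS) = ∅` (black value `false`), so `N \ NS = ∅`: contradiction.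
The black version is the same with the colours exchanged.
-/

set_option autoImplicit false

namespace K5M

open Finset

/-- The edges of `E` in at most one quad of `N`. -/
def outer (E : Finset Ed) (N : Finset Quad) : Finset Ed := E.filter (fun e => dg N e ≤ 1)

/-- The set `O` of edges is connected. -/
def ConE (O : Finset Ed) : Prop :=
  ∀ s t : ℕ → Bool, (∀ e ∈ O, s e.1 = t e.2) → ∀ e ∈ O, ∀ e' ∈ O, s e.1 = s e'.1

namespace A4Aux

theorem link_gen {E : Finset Ed} {N X : Finset Quad} (h : AC E N) (hX : X ⊆ N) (a c : Ed → ℕ)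
    (qa qc : Quad → Finset ℕ) (hed : ∀ q e, e ∈ ed q ↔ a e ∈ qa q ∧ c e ∈ qc q)
    (hpair : ∀ x y, ∃ e, a e = x ∧ c e = y) (hinj : ∀ e e', a e = a e' → c e = c e' → e = e')
    (hq2 : ∀ q, IsQ q → (qc q).card = 2 ∧ (qa q).Nonempty)
    (hcut : ∀ A ⊆ E, (∀ Z ⊆ E, Evn Z → Even (Z ∩ A).card) →
      ∃ sa sc : ℕ → Bool, ∀ e ∈ E, (e ∈ A ↔ sa (a e) ≠ sc (c e)))
    (hc : ∀ sa sc : ℕ → Bool, (∀ e ∈ outer E N, sa (a e) = sc (c e)) →
      ∀ e ∈ outer E N, ∀ e' ∈ outer E N, sa (a e) = sa (a e'))
    (p : ℕ) (hp : ∃ q ∈ X, p ∈ qa q) (hb : ∀ e ∈ bd X, a e ≠ p) :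
    (∀ q ∈ N, p ∈ qa q → q ∈ X) ∧ ∀ e ∈ E, a e = p → dg N e = 2 := by
  classical
  obtain ⟨A, hAdef⟩ : ∃ A, A = E.filter (fun e => a e = p ∧ e ∈ EdS X) := ⟨_, rfl⟩
  have mA : ∀ e, e ∈ A ↔ e ∈ E ∧ a e = p ∧ e ∈ EdS X := by
    intro e
    rw [hAdef, Finset.mem_filter]
  have hAE : A ⊆ E := fun e he => ((mA e).1 he).1
  have h0 : ∀ e ∈ A, dg X e = 2 := by
    intro e he
    obtain ⟨_, h2, h3⟩ := (mA e).1 he
    have h4 := dg_pos.2 h3
    have h5 := (dg_mono hX e).trans (h.two e)
    have h6 : ¬ Odd (dg X e) := fun ho => hb e (mem_bd.2 ho) h2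
    have h7 : dg X e ≠ 1 := fun h8 => h6 (h8 ▸ odd_one)
    omega
  have h0' : ∀ q ∈ N, q ∉ X → ∀ e ∈ ed q, e ∉ A := by
    intro q hq hqX e he heA
    have h1 := h0 e heA
    have h2 := dg_sdiff hX e
    have h3 := h.two e
    have h4 : 0 < dg (N \ X) e := dg_pos.2 (mem_EdS.2 ⟨q, Finset.mem_sdiff.2 ⟨hq, hqX⟩, he⟩)
    omega
  have hEN : ∀ q ∈ N, ∀ e ∈ ed q, e ∈ E := fun q hq e he => h.sub (mem_EdS.2 ⟨q, hq, he⟩)
  -- every even set meets `A` evenly
  have hev : ∀ Z ⊆ E, Evn Z → Even (Z ∩ A).card := by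
    intro Z hZ hZe
    obtain ⟨Y, hY, rfl⟩ := h.sur Z hZ hZe
    have e1 : bd Y ∩ A = A.filter (fun e => Odd (dg Y e)) := by
      ext e
      rw [Finset.mem_inter, Finset.mem_filter, mem_bd]
      exact and_comm
    have e2 : ∑ e ∈ A, dg Y e = ∑ q ∈ Y, (A.filter (fun e => e ∈ ed q)).card := by
      unfold dg
      simp only [Finset.card_filter]
      exact Finset.sum_comm
    have e3 : Even (∑ e ∈ A, dg Y e) := by
      rw [e2]
      refine Finset.even_sum _ (fun q hq => ?_)
      have hqN := hY hq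
      by_cases hqX : q ∈ X
      · by_cases hpq : p ∈ qa q
        · have e4 : (A.filter (fun e => e ∈ ed q)).card = (qc q).card := by
            refine Finset.card_bij (fun e _ => c e) ?_ ?_ ?_
            · intro e he
              exact ((hed q e).1 (Finset.mem_filter.1 he).2).2
            · intro e he e' he' hce
              have k1 := ((mA e).1 (Finset.mem_filter.1 he).1).2.1
              have k2 := ((mA e').1 (Finset.mem_filter.1 he').1).2.1
              exact hinj e e' (k1.trans k2.symm) hce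
            · intro y hy
              obtain ⟨e, he1, he2⟩ := hpair p y
              have heq : e ∈ ed q := (hed q e).2 ⟨by rw [he1]; exact hpq, by rw [he2]; exact hy⟩
              exact ⟨e, Finset.mem_filter.2 ⟨(mA e).2 ⟨hEN q hqN e heq, he1, mem_EdS.2 ⟨q, hqX, heq⟩⟩,
                heq⟩, he2⟩
          rw [e4, (hq2 q (h.isq q hqN)).1]
          exact even_two
        · have e4 : A.filter (fun e => e ∈ ed q) = ∅ := by
            refine Finset.filter_eq_empty_iff.2 (fun e he heq => hpq ?_)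
            have k1 := ((mA e).1 he).2.1
            rw [← k1]
            exact ((hed q e).1 heq).1
          rw [e4, Finset.card_empty]
          exact Even.zero
      · have e4 : A.filter (fun e => e ∈ ed q) = ∅ :=
          Finset.filter_eq_empty_iff.2 (fun e he heq => h0' q hqN hqX e heq he)
        rw [e4, Finset.card_empty]
        exact Even.zero
    rw [e1]
    rw [← Nat.not_odd_iff_even] at e3 ⊢
    rwa [Finset.odd_sum_iff_odd_card_odd] at e3
  obtain ⟨sa, sc, hs, hsp⟩ : ∃ sa sc : ℕ → Bool, (∀ e ∈ E, (e ∈ A ↔ sa (a e) ≠ sc (c e))) ∧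
      sa p = false := by
    obtain ⟨sa, sc, hs⟩ := hcut A hAE hev
    cases hsp : sa p with
    | false => exact ⟨sa, sc, hs, hsp⟩
    | true =>
      refine ⟨fun x => !sa x, fun x => !sc x, fun e he => ?_, by simp [hsp]⟩
      rw [hs e he]
      simp
  have hnA : ∀ e ∈ E, e ∉ A → sa (a e) = sc (c e) := by
    intro e he heA
    by_contra hcon
    exact heA ((hs e he).2 hcon)
  -- the value of a quad
  have hk : ∀ q ∈ N, ∃ κ : Bool, (∀ y ∈ qc q, sc y = κ) ∧ (p ∈ qa q → (q ∈ X ↔ κ = true)) := by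
    intro q hq
    by_cases hpq : p ∈ qa q
    · by_cases hqX : q ∈ X
      · refine ⟨true, fun y hy => ?_, fun _ => ⟨fun _ => rfl, fun _ => hqX⟩⟩
        obtain ⟨e, he1, he2⟩ := hpair p y
        have heq : e ∈ ed q := (hed q e).2 ⟨by rw [he1]; exact hpq, by rw [he2]; exact hy⟩
        have heE := hEN q hq e heq
        have := (hs e heE).1 ((mA e).2 ⟨heE, he1, mem_EdS.2 ⟨q, hqX, heq⟩⟩)
        rw [he1, he2, hsp] at this
        cases hy' : sc y with
        | false => exact absurd hy'.symm this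
        | true => rfl
      · refine ⟨false, fun y hy => ?_, fun _ => ⟨fun h1 => absurd h1 hqX, fun h1 => by
          exact absurd h1 Bool.false_ne_true⟩⟩
        obtain ⟨e, he1, he2⟩ := hpair p y
        have heq : e ∈ ed q := (hed q e).2 ⟨by rw [he1]; exact hpq, by rw [he2]; exact hy⟩
        have := hnA e (hEN q hq e heq) (h0' q hq hqX e heq)
        rw [he1, he2, hsp] at this
        exact this.symm
    · obtain ⟨x, hx⟩ := (hq2 q (h.isq q hq)).2
      refine ⟨sa x, fun y hy => ?_, fun h1 => absurd h1 hpq⟩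
      obtain ⟨e, he1, he2⟩ := hpair x y
      have heq : e ∈ ed q := (hed q e).2 ⟨by rw [he1]; exact hx, by rw [he2]; exact hy⟩
      have heA : e ∉ A := by
        intro h1
        have h2 := ((mA e).1 h1).2.1
        rw [he1] at h2
        exact hpq (h2 ▸ hx)
      have := hnA e (hEN q hq e heq) heA
      rw [he1, he2] at this
      exact this.symm
  obtain ⟨NS, hNSdef⟩ : ∃ NS, NS = N.filter (fun q => ∀ y ∈ qc q, sc y = true) := ⟨_, rfl⟩
  have mNS : ∀ q, q ∈ NS ↔ q ∈ N ∧ ∀ y ∈ qc q, sc y = true := by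
    intro q
    rw [hNSdef, Finset.mem_filter]
  have hNSN : NS ⊆ N := fun q hq => ((mNS q).1 hq).1
  have hnNS : ∀ q ∈ N, q ∉ NS → ∀ y ∈ qc q, sc y = false := by
    intro q hq hqNS y hy
    obtain ⟨κ, hκ, _⟩ := hk q hq
    cases κ with
    | true => exact absurd ((mNS q).2 ⟨hq, hκ⟩) hqNS
    | false => exact hκ y hy
  have hin : ∀ e, sc (c e) = true → dg (N \ NS) e = 0 := by
    intro e he
    by_contra hcon
    obtain ⟨q, hq, heq⟩ := mem_EdS.1 (dg_pos.1 (Nat.pos_of_ne_zero hcon))
    obtain ⟨hqN, hqNS⟩ := Finset.mem_sdiff.1 hq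
    have := hnNS q hqN hqNS (c e) ((hed q e).1 heq).2
    rw [he] at this
    exact Bool.noConfusion this
  have hout : ∀ e, sc (c e) = false → dg NS e = 0 := by
    intro e he
    by_contra hcon
    obtain ⟨q, hq, heq⟩ := mem_EdS.1 (dg_pos.1 (Nat.pos_of_ne_zero hcon))
    have := ((mNS q).1 hq).2 (c e) ((hed q e).1 heq).2
    rw [he] at this
    exact Bool.noConfusion this
  have mO : ∀ e, e ∈ outer E N ↔ e ∈ E ∧ dg N e ≤ 1 := by
    intro e
    unfold outer
    rw [Finset.mem_filter]
  have hO : ∀ e ∈ outer E N, sa (a e) = sc (c e) := by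
    intro e he
    obtain ⟨h1, h2⟩ := (mO e).1 he
    refine hnA e h1 (fun h3 => ?_)
    have h4 := h0 e h3
    have h5 := dg_mono hX e
    omega
  have hodd : ∀ e, Odd (dg N e) → e ∈ outer E N := by
    intro e he
    have h1 := h.two e
    have h2 : dg N e ≠ 2 := by
      intro h3
      rw [h3] at he
      exact absurd he (by decide)
    have h3 : 0 < dg N e := he.pos
    exact (mO e).2 ⟨h.sub (dg_pos.1 h3), by omega⟩
  have hcon := hc sa sc hO
  -- the boundary of `NS`
  obtain ⟨q0, hq0, hpq0⟩ := hp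
  have hq0N := hX hq0
  have hq0S : q0 ∈ NS := by
    obtain ⟨κ, hκ, hκX⟩ := hk q0 hq0N
    have := (hκX hpq0).1 hq0
    subst this
    exact (mNS q0).2 ⟨hq0N, hκ⟩
  obtain ⟨e0, he0O, he0t⟩ : ∃ e0 ∈ outer E N, sc (c e0) = true := by
    by_contra hcon'
    push Not at hcon'
    have hbd : bd NS = ∅ := by
      refine Finset.eq_empty_of_forall_notMem (fun e he => ?_)
      have h1 := mem_bd.1 he
      cases hsc : sc (c e) with
      | false =>
        rw [hout e hsc] at h1
        exact absurd h1 (by decide)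
      | true =>
        have h2 := dg_sdiff hNSN e
        rw [hin e hsc, zero_add] at h2
        rw [h2] at h1
        exact hcon' e (hodd e h1) hsc
    have := h.inj NS hNSN hbd
    rw [this] at hq0S
    exact absurd hq0S (Finset.notMem_empty _)
  have hall : ∀ e ∈ outer E N, sa (a e) = true := by
    intro e he
    rw [hcon e he e0 he0O, hO e0 he0O, he0t]
  have hNS : N \ NS = ∅ := by
    refine h.inj _ Finset.sdiff_subset ?_
    refine Finset.eq_empty_of_forall_notMem (fun e he => ?_)
    have h1 := mem_bd.1 he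
    cases hsc : sc (c e) with
    | true =>
      rw [hin e hsc] at h1
      exact absurd h1 (by decide)
    | false =>
      have h2 := dg_sdiff hNSN e
      rw [hout e hsc, add_zero] at h2
      rw [h2] at h1
      have h3 := hodd e h1
      have h4 := hall e h3
      rw [hO e h3, hsc] at h4
      exact Bool.noConfusion h4
  refine ⟨fun q hq hpq => ?_, fun e he hep => ?_⟩
  · have hqS : q ∈ NS := by
      by_contra hqS
      have : q ∈ N \ NS := Finset.mem_sdiff.2 ⟨hq, hqS⟩
      rw [hNS] at this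
      exact absurd this (Finset.notMem_empty _)
    obtain ⟨κ, hκ, hκX⟩ := hk q hq
    refine (hκX hpq).2 ?_
    have h2 := (hq2 q (h.isq q hq)).1
    obtain ⟨y, hy⟩ : (qc q).Nonempty := Finset.card_pos.1 (by omega)
    rw [← hκ y hy]
    exact ((mNS q).1 hqS).2 y hy
  · by_contra hcon'
    have h1 := h.two e
    have h2 := hall e ((mO e).2 ⟨he, by omega⟩)
    rw [hep, hsp] at h2
    exact Bool.noConfusion h2

end A4Aux

open A4Aux in
theorem link_white {E : Finset Ed} {N X : Finset Quad} (h : AC E N) (hc : ConE (outer E N))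
    (hX : X ⊆ N) (p : ℕ) (hp : ∃ q ∈ X, p ∈ q.1) (hb : ∀ e ∈ bd X, e.1 ≠ p) :
    (∀ q ∈ N, p ∈ q.1 → q ∈ X) ∧ ∀ e ∈ E, e.1 = p → dg N e = 2 := by
  refine link_gen h hX Prod.fst Prod.snd Prod.fst Prod.snd (fun q e => mem_ed)
    (fun x y => ⟨(x, y), rfl, rfl⟩) (fun e e' h1 h2 => Prod.ext h1 h2) (fun q hq => ⟨hq.2, ?_⟩)
    (fun A hA hev => cutspace E A hA hev) (fun sa sc hs => hc sa sc hs) p hp hb
  refine Finset.card_pos.1 ?_
  have := hq.1
  omega

open A4Aux in
theorem link_black {E : Finset Ed} {N X : Finset Quad} (h : AC E N) (hc : ConE (outer E N))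
    (hX : X ⊆ N) (p : ℕ) (hp : ∃ q ∈ X, p ∈ q.2) (hb : ∀ e ∈ bd X, e.2 ≠ p) :
    (∀ q ∈ N, p ∈ q.2 → q ∈ X) ∧ ∀ e ∈ E, e.2 = p → dg N e = 2 := by
  refine link_gen h hX Prod.snd Prod.fst Prod.snd Prod.fst
    (fun q e => mem_ed.trans and_comm)
    (fun x y => ⟨(y, x), rfl, rfl⟩) (fun e e' h1 h2 => Prod.ext h2 h1) (fun q hq => ⟨hq.1, ?_⟩)
    (fun A hA hev => ?_) (fun sa sc hs e he e' he' => ?_) p hp hb
  · refine Finset.card_pos.1 ?_
    have := hq.2
    omega
  · obtain ⟨s, t, hst⟩ := cutspace E A hA hev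
    exact ⟨t, s, fun e he => (hst e he).trans ne_comm⟩
  · have h1 := hc sc sa (fun e he => (hs e he).symm) e he e' he'
    rw [hs e he, hs e' he']
    exact h1

end K5M
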