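import Pool.Agent.Lib.K5M.B2

/-!
# K5M.B5: joining two fillings at a common vertex; trivial fillings; disks

PROOFS.
`Fill.join`: write `E1 = EdS N1 ∪ pe .. ∪ pe ..`, `E2` similarly, `f = f1 ++ v :: f2`, `c = c1 ++ v :: c2`.  An
edge has two different ends (its white and its black end are different labels by `col`), all ends of the
edges of `E1` are in the first vertex set, so an edge in `E1 ∩ E2` would have both ends equal to `v`: `E1`
and `E2` are disjoint.  So `N1`, `N2` are disjoint (`IsQ` quads have edges).  `bd (N1 ∪ N2)` is the union of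
`bd N1`, `bd N2` and equals `f Δ c` (`pe_append`).  `AC (E1 ∪ E2) (N1 ∪ N2)`: `two`: an edge is in quads of
only one of them; `inj`: `bd X = ∅` implies `bd (X ∩ N1) = ∅ = bd (X ∩ N2)` (disjoint edge sets); `sur`: let
`Z ⊆ E1 ∪ E2` be even, `Z1 = Z ∩ E1`, `Z2 = Z ∩ E2`.  At every vertex other than `v` all edges of `Z` are
in `Z1` or all are in `Z2`, so `Z1`, `Z2` are even there; at `v` (say white): the sum over all white
vertices of the number of edges of `Z1` is `#Z1`, the sum over all black vertices is `#Z1` as well and is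
even, all white vertices but `v` contribute even numbers, so `v` contributes an even number too.  Apply
`sur` to both.  `col`: a label that is white in one part and black in the other one is `v`, and the colour
of `v` is the same in both (`kat k f1.length`, `par`).  `par`, `hd`, `lt`, `Nodup`: lists (the lists of the
two parts have only `v` in common).
`fill_nil`: `bd N = ∅`, so `N = ∅` by `inj`; conversely the empty set is a filling between `[p]` and `[p]` and
between `[p, z]` and `[p, z]` (`AC {e} ∅`: an even subset of a single edge is empty).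
`fill_disk`: if the paths are internally disjoint then `pe k f ∩ pe k c = ∅` and the union is the
symmetric difference `= bd N ⊆ EdS N`.
-/

set_option autoImplicit false

namespace K5M

open Finset

namespace B5Aux

theorem even_card_of {Z : Finset Ed} (f : Ed → ℕ)
    (h : ∀ w, Even (Z.filter (fun e => f e = w)).card) : Even Z.card := by
  classical
  rw [Finset.card_eq_sum_card_fiberwise (f := f) (t := Z.image f)
    (fun e he => Finset.mem_coe.mpr (Finset.mem_image_of_mem f (Finset.mem_coe.mp he)))]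
  rw [even_iff_two_dvd]
  exact Finset.dvd_sum fun w _ => even_iff_two_dvd.mp (h w)

theorem even_at_of {Z : Finset Ed} (f : Ed → ℕ) (v : ℕ) (hc : Even Z.card)
    (h : ∀ w, w ≠ v → Even (Z.filter (fun e => f e = w)).card) :
    Even (Z.filter (fun e => f e = v)).card := by
  classical
  have h1 : Z.card = ∑ w ∈ insert v (Z.image f), (Z.filter (fun e => f e = w)).card :=
    Finset.card_eq_sum_card_fiberwise (fun e he => Finset.mem_coe.mpr
      (Finset.mem_insert_of_mem (Finset.mem_image_of_mem f (Finset.mem_coe.mp he))))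
  rw [← Finset.add_sum_erase _ _ (Finset.mem_insert_self v (Z.image f))] at h1
  have h2 : Even (∑ w ∈ (insert v (Z.image f)).erase v, (Z.filter (fun e => f e = w)).card) := by
    rw [even_iff_two_dvd]
    exact Finset.dvd_sum fun w hw => even_iff_two_dvd.mp (h w (Finset.ne_of_mem_erase hw))
  rw [h1, Nat.even_add] at hc
  exact hc.mpr h2

/-- The parity argument: an even set of edges in two parts that meet in one vertex `v`. -/
theorem evn_part {Z Z1 : Finset Ed} {W1 W2 B1 B2 : Finset ℕ} {v : ℕ} (hZ : Evn Z)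
    (hsub : Z1 ⊆ Z) (h1 : ∀ e ∈ Z1, e.1 ∈ W1 ∧ e.2 ∈ B1)
    (h2 : ∀ e ∈ Z, e ∉ Z1 → e.1 ∈ W2 ∧ e.2 ∈ B2)
    (hW : ∀ w, w ∈ W1 → w ∈ W2 → w = v) (hB : ∀ b, b ∈ B1 → b ∈ B2 → b = v)
    (hv : v ∉ W1 ∨ v ∉ B1) : Evn Z1 := by
  classical
  have hw : ∀ w, (w ∈ W1 → w ∉ W2) → Even (Z1.filter (fun e => e.1 = w)).card := by
    intro w hww
    by_cases hw1 : w ∈ W1
    · have : Z1.filter (fun e => e.1 = w) = Z.filter (fun e => e.1 = w) := by
        ext e
        rw [Finset.mem_filter, Finset.mem_filter]
        refine ⟨fun h => ⟨hsub h.1, h.2⟩, fun h => ⟨?_, h.2⟩⟩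
        by_contra hn
        exact hww hw1 (h.2 ▸ (h2 e h.1 hn).1)
      rw [this]
      exact hZ.1 w
    · have : Z1.filter (fun e => e.1 = w) = ∅ := by
        rw [Finset.filter_eq_empty_iff]
        intro e he h
        exact hw1 (h ▸ (h1 e he).1)
      rw [this]
      exact ⟨0, by simp⟩
  have hb : ∀ b, (b ∈ B1 → b ∉ B2) → Even (Z1.filter (fun e => e.2 = b)).card := by
    intro b hbb
    by_cases hb1 : b ∈ B1
    · have : Z1.filter (fun e => e.2 = b) = Z.filter (fun e => e.2 = b) := by
        ext e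
        rw [Finset.mem_filter, Finset.mem_filter]
        refine ⟨fun h => ⟨hsub h.1, h.2⟩, fun h => ⟨?_, h.2⟩⟩
        by_contra hn
        exact hbb hb1 (h.2 ▸ (h2 e h.1 hn).2)
      rw [this]
      exact hZ.2 b
    · have : Z1.filter (fun e => e.2 = b) = ∅ := by
        rw [Finset.filter_eq_empty_iff]
        intro e he h
        exact hb1 (h ▸ (h1 e he).2)
      rw [this]
      exact ⟨0, by simp⟩
  rcases hv with hv | hv
  · have hwa : ∀ w, Even (Z1.filter (fun e => e.1 = w)).card := by
      intro w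
      apply hw
      intro a b
      have := hW w a b
      rw [this] at a
      exact hv a
    have hc := even_card_of (fun e : Ed => e.1) hwa
    refine ⟨hwa, fun b => ?_⟩
    by_cases hbv : b = v
    · rw [hbv]
      refine even_at_of (fun e : Ed => e.2) v hc fun b' hb' => hb b' fun a c => ?_
      exact hb' (hB b' a c)
    · exact hb b fun a c => hbv (hB b a c)
  · have hba : ∀ b, Even (Z1.filter (fun e => e.2 = b)).card := by
      intro b
      apply hb
      intro a c
      have := hB b a c
      rw [this] at a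
      exact hv a
    have hc := even_card_of (fun e : Ed => e.2) hba
    refine ⟨fun w => ?_, hba⟩
    by_cases hwv : w = v
    · rw [hwv]
      refine even_at_of (fun e : Ed => e.1) v hc fun w' hw' => hw w' fun a c => ?_
      exact hw' (hW w' a c)
    · exact hw w fun a c => hwv (hW w a c)

theorem kat_congr (k : Bool) {m n : ℕ} (h : m % 2 = n % 2) : kat k m = kat k n := by
  unfold kat
  rw [h]

theorem head_mid (l m : List ℕ) (v : ℕ) : (l ++ v :: m).head? = (l ++ [v]).head? := by
  cases l <;> rfl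

theorem wh_union (A B : Finset Quad) : wh (A ∪ B) = wh A ∪ wh B := by
  unfold wh
  exact Finset.union_biUnion

theorem bl_union (A B : Finset Quad) : bl (A ∪ B) = bl A ∪ bl B := by
  unfold bl
  exact Finset.union_biUnion

/-- White / black vertices of a part. -/
def Wv (k : Bool) (f c : List ℕ) (N : Finset Quad) : Finset ℕ := wh N ∪ pw k f ∪ pw k c

def Bv (k : Bool) (f c : List ℕ) (N : Finset Quad) : Finset ℕ := bl N ∪ pb k f ∪ pb k c

theorem Wv_sub (k : Bool) (f c : List ℕ) (N : Finset Quad) : Wv k f c N ⊆ vx f c N := by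
  intro a ha
  unfold Wv at ha
  unfold vx
  rw [Finset.mem_union, Finset.mem_union] at ha
  rw [← pw_union_pb k f, ← pw_union_pb k c]
  simp only [Finset.mem_union]
  tauto

theorem Bv_sub (k : Bool) (f c : List ℕ) (N : Finset Quad) : Bv k f c N ⊆ vx f c N := by
  intro a ha
  unfold Bv at ha
  unfold vx
  rw [Finset.mem_union, Finset.mem_union] at ha
  rw [← pw_union_pb k f, ← pw_union_pb k c]
  simp only [Finset.mem_union]
  tauto

theorem ends_in {k : Bool} {f c : List ℕ} {N : Finset Quad} {e : Ed}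
    (he : e ∈ EdS N ∪ pe k f ∪ pe k c) : e.1 ∈ Wv k f c N ∧ e.2 ∈ Bv k f c N := by
  unfold Wv Bv
  rw [Finset.mem_union, Finset.mem_union] at he
  simp only [Finset.mem_union]
  rcases he with (he | he) | he
  · have := mem_vx_of_EdS he
    exact ⟨Or.inl (Or.inl this.1), Or.inl (Or.inl this.2)⟩
  · have := mem_pe_vert he
    exact ⟨Or.inl (Or.inr this.1), Or.inl (Or.inr this.2)⟩
  · have := mem_pe_vert he
    exact ⟨Or.inr this.1, Or.inr this.2⟩

theorem pw_head (k : Bool) (v : ℕ) (l : List ℕ) :
    (k = true → v ∈ pw k (v :: l)) ∧ (k = false → v ∈ pb k (v :: l)) := by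
  constructor
  · rintro rfl
    simp [pw]
  · rintro rfl
    simp [pb, pw]

theorem pw_last (k : Bool) (v : ℕ) (l : List ℕ) :
    (kat k l.length = true → v ∈ pw k (l ++ [v])) ∧
      (kat k l.length = false → v ∈ pb k (l ++ [v])) := by
  constructor
  · intro h
    rw [pw_append, Finset.mem_union]
    exact Or.inr ((pw_head _ v []).1 h)
  · intro h
    rw [pb_append, Finset.mem_union]
    exact Or.inr ((pw_head _ v []).2 h)

theorem pw_mid (k : Bool) (l m : List ℕ) (v : ℕ) :
    pw k (l ++ v :: m) ⊆ pw k (l ++ [v]) ∪ pw (kat k l.length) (v :: m) := by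
  rw [pw_append, pw_append]
  intro a ha
  simp only [Finset.mem_union] at ha ⊢
  tauto

theorem pb_mid (k : Bool) (l m : List ℕ) (v : ℕ) :
    pb k (l ++ v :: m) ⊆ pb k (l ++ [v]) ∪ pb (kat k l.length) (v :: m) := by
  rw [pb_append, pb_append]
  intro a ha
  simp only [Finset.mem_union] at ha ⊢
  tauto

theorem vert_edge (l : List ℕ) : ∀ k, 2 ≤ l.length →
    (∀ a ∈ pw k l, ∃ e ∈ pe k l, e.1 = a) ∧ (∀ a ∈ pb k l, ∃ e ∈ pe k l, e.2 = a) := by
  induction l with
  | nil => intro k h; simp at h
  | cons a l ih =>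
    intro k h
    cases l with
    | nil => simp at h
    | cons b m =>
      have key : ∀ x, (x ∈ pw k (a :: b :: m) → x ∈ pw (!k) (b :: m) ∨ (x = a ∧ k = true)) ∧
          (x ∈ pb k (a :: b :: m) → x ∈ pb (!k) (b :: m) ∨ (x = a ∧ k = false)) := by
        intro x
        cases k <;> simp [pw, pb] <;> tauto
      have tl : (∀ x ∈ pw (!k) (b :: m), ∃ e ∈ pe k (a :: b :: m), e.1 = x) ∧
          (∀ x ∈ pb (!k) (b :: m), ∃ e ∈ pe k (a :: b :: m), e.2 = x) := by
        cases m with
        | nil =>
          constructor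
          · intro x hx
            cases k with
            | false =>
              have : x = b := by simpa [pw] using hx
              exact ⟨(b, a), by simp [pe], by rw [this]⟩
            | true => simp [pw] at hx
          · intro x hx
            cases k with
            | false => simp [pb, pw] at hx
            | true =>
              have : x = b := by simpa [pb, pw] using hx
              exact ⟨(a, b), by simp [pe], by rw [this]⟩
        | cons d m =>
          have h0 := ih (!k) (by simp)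
          constructor
          · intro x hx
            obtain ⟨e, he, rfl⟩ := h0.1 x hx
            exact ⟨e, by rw [pe_cons]; exact Finset.mem_insert_of_mem he, rfl⟩
          · intro x hx
            obtain ⟨e, he, rfl⟩ := h0.2 x hx
            exact ⟨e, by rw [pe_cons]; exact Finset.mem_insert_of_mem he, rfl⟩
      constructor
      · intro x hx
        rcases (key x).1 hx with h | ⟨rfl, rfl⟩
        · exact tl.1 x h
        · exact ⟨(x, b), by rw [pe_cons]; simp, rfl⟩
      · intro x hx
        rcases (key x).2 hx with h | ⟨rfl, rfl⟩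
        · exact tl.2 x h
        · exact ⟨(b, x), by rw [pe_cons]; simp, rfl⟩

theorem EdS_empty : EdS ∅ = ∅ := rfl

theorem dg_empty (e : Ed) : dg ∅ e = 0 := rfl

theorem ac_empty {E : Finset Ed} (h : ∀ Z ⊆ E, Evn Z → Z = ∅) : AC E ∅ := by
  refine ⟨fun q hq => absurd hq (Finset.notMem_empty q), ?_, fun e => ?_, fun X hX _ => ?_,
    fun Z hZ he => ⟨∅, Finset.Subset.refl _, ?_⟩⟩
  · rw [EdS_empty]
    exact Finset.empty_subset _
  · rw [dg_empty]
    exact Nat.zero_le 2
  · exact Finset.subset_empty.mp hX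
  · rw [h Z hZ he, bd_empty]

theorem fill_self (k : Bool) {l : List ℕ} (hl : l.Nodup) (hne : l ≠ []) (N : Finset Quad) :
    Fill k l l N ↔ N = ∅ := by
  constructor
  · intro h
    apply h.ac.inj N (Finset.Subset.refl _)
    rw [h.bnd, symmDiff_self]
    rfl
  · rintro rfl
    refine ⟨?_, ?_, ?_, hl, hl, hne, rfl, rfl, rfl, ?_⟩
    · apply ac_empty
      intro Z hZ he
      rw [EdS_empty, Finset.empty_union, Finset.union_self] at hZ
      exact pe_even_sub hl hZ he
    · rw [bd_empty, symmDiff_self]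
      rfl
    · rw [EdS_empty]
      exact Finset.disjoint_empty_right _
    · have : Disjoint (pw k l) (pb k l) := pw_disj_pb hl
      have e1 : wh ∅ ∪ pw k l ∪ pw k l = pw k l := by
        have : wh ∅ = ∅ := rfl
        rw [this, Finset.empty_union, Finset.union_self]
      have e2 : bl ∅ ∪ pb k l ∪ pb k l = pb k l := by
        have : bl ∅ = ∅ := rfl
        rw [this, Finset.empty_union, Finset.union_self]
      rw [e1, e2]
      exact this

end B5Aux

open B5Aux

theorem Fill.join {k : Bool} {N1 N2 : Finset Quad} {f1 f2 c1 c2 : List ℕ} {v : ℕ}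
    (h1 : Fill k (f1 ++ [v]) (c1 ++ [v]) N1)
    (h2 : Fill (kat k f1.length) (v :: f2) (v :: c2) N2)
    (hv : vx (f1 ++ [v]) (c1 ++ [v]) N1 ∩ vx (v :: f2) (v :: c2) N2 = {v}) :
    Disjoint N1 N2 ∧ Fill k (f1 ++ v :: f2) (c1 ++ v :: c2) (N1 ∪ N2) := by
  classical
  have hpar : f1.length % 2 = c1.length % 2 := by
    have := h1.par
    simp only [List.length_append, List.length_cons, List.length_nil] at this
    omega
  have hk : kat k c1.length = kat k f1.length := kat_congr k hpar.symm
  set k' := kat k f1.length with hk'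
  set W1 := Wv k (f1 ++ [v]) (c1 ++ [v]) N1 with hW1
  set B1 := Bv k (f1 ++ [v]) (c1 ++ [v]) N1 with hB1
  set W2 := Wv k' (v :: f2) (v :: c2) N2 with hW2
  set B2 := Bv k' (v :: f2) (v :: c2) N2 with hB2
  set E1 := EdS N1 ∪ pe k (f1 ++ [v]) ∪ pe k (c1 ++ [v]) with hE1
  set E2 := EdS N2 ∪ pe k' (v :: f2) ∪ pe k' (v :: c2) with hE2
  have c1' : Disjoint W1 B1 := h1.col
  have c2' : Disjoint W2 B2 := h2.col
  have hvv : ∀ a, a ∈ vx (f1 ++ [v]) (c1 ++ [v]) N1 → a ∈ vx (v :: f2) (v :: c2) N2 → a = v := by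
    intro a ha hb
    have : a ∈ ({v} : Finset ℕ) := by
      rw [← hv]
      exact Finset.mem_inter.mpr ⟨ha, hb⟩
    exact Finset.mem_singleton.mp this
  have sW1 := Wv_sub k (f1 ++ [v]) (c1 ++ [v]) N1
  have sB1 := Bv_sub k (f1 ++ [v]) (c1 ++ [v]) N1
  have sW2 := Wv_sub k' (v :: f2) (v :: c2) N2
  have sB2 := Bv_sub k' (v :: f2) (v :: c2) N2
  have e1in : ∀ e ∈ E1, e.1 ∈ W1 ∧ e.2 ∈ B1 := fun e he => ends_in he
  have e2in : ∀ e ∈ E2, e.1 ∈ W2 ∧ e.2 ∈ B2 := fun e he => ends_in he
  have hEd : ∀ e, e ∈ E1 → e ∈ E2 → False := by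
    intro e he he'
    have a := e1in e he
    have b := e2in e he'
    have x1 : e.1 = v := hvv _ (sW1 a.1) (sW2 b.1)
    have x2 : e.2 = v := hvv _ (sB1 a.2) (sB2 b.2)
    rw [x1, x2] at a
    exact Finset.disjoint_left.mp c1' a.1 a.2
  -- the colour of `v`
  have hcolv : (v ∉ B1 ∧ v ∉ B2) ∨ (v ∉ W1 ∧ v ∉ W2) := by
    cases hkk : k' with
    | true =>
      left
      have a : v ∈ W1 := by
        rw [hW1]
        unfold Wv
        rw [Finset.mem_union, Finset.mem_union]
        exact Or.inl (Or.inr ((pw_last k v f1).1 hkk))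
      have b : v ∈ W2 := by
        rw [hW2]
        unfold Wv
        rw [Finset.mem_union, Finset.mem_union]
        exact Or.inl (Or.inr ((pw_head k' v f2).1 hkk))
      exact ⟨Finset.disjoint_left.mp c1' a, Finset.disjoint_left.mp c2' b⟩
    | false =>
      right
      have a : v ∈ B1 := by
        rw [hB1]
        unfold Bv
        rw [Finset.mem_union, Finset.mem_union]
        exact Or.inl (Or.inr ((pw_last k v f1).2 hkk))
      have b : v ∈ B2 := by
        rw [hB2]
        unfold Bv
        rw [Finset.mem_union, Finset.mem_union]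
        exact Or.inl (Or.inr ((pw_head k' v f2).2 hkk))
      exact ⟨Finset.disjoint_right.mp c1' a, Finset.disjoint_right.mp c2' b⟩
  have hND : Disjoint N1 N2 := by
    rw [Finset.disjoint_left]
    intro q hq1 hq2
    have hq := h1.ac.isq q hq1
    obtain ⟨a, ha⟩ := Finset.card_pos.mp (by rw [hq.1]; norm_num : 0 < q.1.card)
    obtain ⟨b, hb⟩ := Finset.card_pos.mp (by rw [hq.2]; norm_num : 0 < q.2.card)
    have he : (a, b) ∈ ed q := mem_ed.mpr ⟨ha, hb⟩
    exact hEd (a, b) (h1.ac.sub (mem_EdS.mpr ⟨q, hq1, he⟩))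
      (h2.ac.sub (mem_EdS.mpr ⟨q, hq2, he⟩))
  have pf : pe k (f1 ++ v :: f2) = pe k (f1 ++ [v]) ∪ pe k' (v :: f2) := pe_append k f1 f2 v
  have pc : pe k (c1 ++ v :: c2) = pe k (c1 ++ [v]) ∪ pe k' (v :: c2) := by
    rw [pe_append, hk]
  have m1 : ∀ e, e ∈ E1 ↔ e ∈ EdS N1 ∨ e ∈ pe k (f1 ++ [v]) ∨ e ∈ pe k (c1 ++ [v]) := by
    intro e
    rw [hE1, Finset.mem_union, Finset.mem_union, or_assoc]
  have m2 : ∀ e, e ∈ E2 ↔ e ∈ EdS N2 ∨ e ∈ pe k' (v :: f2) ∨ e ∈ pe k' (v :: c2) := by
    intro e
    rw [hE2, Finset.mem_union, Finset.mem_union, or_assoc]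
  have hE : EdS (N1 ∪ N2) ∪ pe k (f1 ++ v :: f2) ∪ pe k (c1 ++ v :: c2) = E1 ∪ E2 := by
    ext e
    rw [EdS_union, pf, pc]
    simp only [Finset.mem_union, m1, m2]
    tauto
  refine ⟨hND, ?_, ?_, ?_, ?_, ?_, by simp, ?_, ?_, ?_, ?_⟩
  · rw [hE]
    refine ⟨fun q hq => ?_, ?_, fun e => ?_, fun X hX hb => ?_, fun Z hZ he => ?_⟩
    · rcases Finset.mem_union.mp hq with h | h
      · exact h1.ac.isq q h
      · exact h2.ac.isq q h
    · rw [EdS_union]
      exact Finset.union_subset_union h1.ac.sub h2.ac.sub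
    · rw [dg_union hND]
      have a := h1.ac.two e
      have b := h2.ac.two e
      by_contra hcon
      have p1 : 0 < dg N1 e := by omega
      have p2 : 0 < dg N2 e := by omega
      exact hEd e (h1.ac.sub (dg_pos.mp p1)) (h2.ac.sub (dg_pos.mp p2))
    · have hXX : X = (X ∩ N1) ∪ (X ∩ N2) := by
        rw [← Finset.inter_union_distrib_left]
        exact (Finset.inter_eq_left.mpr hX).symm
      have hd : Disjoint (X ∩ N1) (X ∩ N2) :=
        hND.mono Finset.inter_subset_right Finset.inter_subset_right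
      rw [hXX, bd_union hd] at hb
      have hb' : bd (X ∩ N1) = bd (X ∩ N2) := symmDiff_eq_bot.mp hb
      have h0 : bd (X ∩ N1) = ∅ := by
        rw [Finset.eq_empty_iff_forall_notMem]
        intro e he
        have he2 : e ∈ bd (X ∩ N2) := by rw [← hb']; exact he
        exact hEd e (h1.ac.sub (EdS_mono Finset.inter_subset_right (bd_sub (X ∩ N1) he)))
          (h2.ac.sub (EdS_mono Finset.inter_subset_right (bd_sub (X ∩ N2) he2)))
      have x1 := h1.ac.inj _ Finset.inter_subset_right h0
      have x2 := h2.ac.inj _ Finset.inter_subset_right (hb' ▸ h0)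
      rw [hXX, x1, x2, Finset.union_empty]
    · have hdd : Disjoint (Z ∩ E1) (Z ∩ E2) := by
        rw [Finset.disjoint_left]
        intro e a b
        exact hEd e (Finset.mem_inter.mp a).2 (Finset.mem_inter.mp b).2
      have g1 : Evn (Z ∩ E1) := by
        refine evn_part (W1 := W1) (W2 := W2) (B1 := B1) (B2 := B2) (v := v) he
          Finset.inter_subset_left (fun e h => e1in e (Finset.mem_inter.mp h).2) (fun e h hn => ?_)
          (fun w a b => hvv w (sW1 a) (sW2 b)) (fun w a b => hvv w (sB1 a) (sB2 b)) ?_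
        · rcases Finset.mem_union.mp (hZ h) with h' | h'
          · exact absurd (Finset.mem_inter.mpr ⟨h, h'⟩) hn
          · exact e2in e h'
        · rcases hcolv with h | h
          · exact Or.inr h.1
          · exact Or.inl h.1
      have g2 : Evn (Z ∩ E2) := by
        refine evn_part (W1 := W2) (W2 := W1) (B1 := B2) (B2 := B1) (v := v) he
          Finset.inter_subset_left (fun e h => e2in e (Finset.mem_inter.mp h).2) (fun e h hn => ?_)
          (fun w a b => hvv w (sW1 b) (sW2 a)) (fun w a b => hvv w (sB1 b) (sB2 a)) ?_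
        · rcases Finset.mem_union.mp (hZ h) with h' | h'
          · exact e1in e h'
          · exact absurd (Finset.mem_inter.mpr ⟨h, h'⟩) hn
        · rcases hcolv with h | h
          · exact Or.inr h.2
          · exact Or.inl h.2
      obtain ⟨X1, hX1, b1⟩ := h1.ac.sur _ Finset.inter_subset_right g1
      obtain ⟨X2, hX2, b2⟩ := h2.ac.sur _ Finset.inter_subset_right g2
      refine ⟨X1 ∪ X2, Finset.union_subset_union hX1 hX2, ?_⟩
      rw [bd_union (hND.mono hX1 hX2), b1, b2, hdd.symmDiff_eq_sup]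
      show (Z ∩ E1) ∪ (Z ∩ E2) = Z
      rw [← Finset.inter_union_distrib_left]
      exact Finset.inter_eq_left.mpr hZ
  · rw [bd_union hND, h1.bnd, h2.bnd, pf, pc]
    ext e
    have h13 : e ∈ pe k (f1 ++ [v]) → e ∉ pe k' (v :: f2) := fun h h' =>
      hEd e ((m1 e).mpr (Or.inr (Or.inl h))) ((m2 e).mpr (Or.inr (Or.inl h')))
    have h14 : e ∈ pe k (f1 ++ [v]) → e ∉ pe k' (v :: c2) := fun h h' =>
      hEd e ((m1 e).mpr (Or.inr (Or.inl h))) ((m2 e).mpr (Or.inr (Or.inr h')))
    have h23 : e ∈ pe k (c1 ++ [v]) → e ∉ pe k' (v :: f2) := fun h h' =>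
      hEd e ((m1 e).mpr (Or.inr (Or.inr h))) ((m2 e).mpr (Or.inr (Or.inl h')))
    have h24 : e ∈ pe k (c1 ++ [v]) → e ∉ pe k' (v :: c2) := fun h h' =>
      hEd e ((m1 e).mpr (Or.inr (Or.inr h))) ((m2 e).mpr (Or.inr (Or.inr h')))
    simp only [Finset.mem_symmDiff, Finset.mem_union]
    by_cases a1 : e ∈ pe k (f1 ++ [v])
    · have a3 := h13 a1
      have a4 := h14 a1
      by_cases a2 : e ∈ pe k (c1 ++ [v]) <;> simp [a1, a2, a3, a4]
    · by_cases a2 : e ∈ pe k (c1 ++ [v])
      · have a3 := h23 a2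
        have a4 := h24 a2
        simp [a1, a2, a3, a4]
      · by_cases a3 : e ∈ pe k' (v :: f2) <;> by_cases a4 : e ∈ pe k' (v :: c2) <;>
          simp [a1, a2, a3, a4]
  · rw [pf, pc, EdS_union, Finset.disjoint_left]
    intro e he he'
    have a13 : e ∈ EdS N1 ∨ e ∈ pe k (f1 ++ [v]) ∨ e ∈ pe k (c1 ++ [v]) →
        ¬ (e ∈ EdS N2 ∨ e ∈ pe k' (v :: f2) ∨ e ∈ pe k' (v :: c2)) := fun h h' =>
      hEd e ((m1 e).mpr h) ((m2 e).mpr h')
    have b1 : e ∈ pe k (f1 ++ [v]) ∩ pe k (c1 ++ [v]) → e ∉ EdS N1 :=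
      fun h => Finset.disjoint_left.mp h1.dj h
    have b2 : e ∈ pe k' (v :: f2) ∩ pe k' (v :: c2) → e ∉ EdS N2 :=
      fun h => Finset.disjoint_left.mp h2.dj h
    simp only [Finset.mem_union, Finset.mem_inter] at he he' b1 b2
    obtain ⟨x1, x2⟩ := he
    rcases x1 with x1 | x1 <;> rcases x2 with x2 | x2
    · rcases he' with h | h
      · exact b1 ⟨x1, x2⟩ h
      · exact a13 (Or.inr (Or.inl x1)) (Or.inl h)
    · exact a13 (Or.inr (Or.inl x1)) (Or.inr (Or.inr x2))
    · exact a13 (Or.inr (Or.inr x2)) (Or.inr (Or.inl x1))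
    · rcases he' with h | h
      · exact a13 (Or.inl h) (Or.inr (Or.inl x1))
      · exact b2 ⟨x1, x2⟩ h
  · have n1 := h1.nf
    have n2 := h2.nf
    rw [List.nodup_append] at n1 ⊢
    refine ⟨n1.1, n2, fun a ha b hb hab => ?_⟩
    rw [← hab] at hb
    have : a = v := hvv a (by
      unfold vx
      simp only [Finset.mem_union, List.mem_toFinset, List.mem_append]
      tauto) (by
      unfold vx
      simp only [Finset.mem_union, List.mem_toFinset]
      tauto)
    exact n1.2.2 a ha v (by simp) this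
  · have n1 := h1.nc
    have n2 := h2.nc
    rw [List.nodup_append] at n1 ⊢
    refine ⟨n1.1, n2, fun a ha b hb hab => ?_⟩
    rw [← hab] at hb
    have : a = v := hvv a (by
      unfold vx
      simp only [Finset.mem_union, List.mem_toFinset, List.mem_append]
      tauto) (by
      unfold vx
      simp only [Finset.mem_union, List.mem_toFinset]
      tauto)
    exact n1.2.2 a ha v (by simp) this
  · rw [head_mid f1 f2, head_mid c1 c2]
    exact h1.hd
  · rw [List.getLast?_append_of_ne_nil _ (by simp), List.getLast?_append_of_ne_nil _ (by simp)]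
    exact h2.lt
  · have a := h1.par
    have b := h2.par
    simp only [List.length_append, List.length_cons, List.length_nil] at a b ⊢
    omega
  · have key : Disjoint (W1 ∪ W2) (B1 ∪ B2) := by
      rw [Finset.disjoint_left]
      intro a ha hb
      rw [Finset.mem_union] at ha hb
      rcases ha with ha | ha <;> rcases hb with hb | hb
      · exact Finset.disjoint_left.mp c1' ha hb
      · have : a = v := hvv a (sW1 ha) (sB2 hb)
        rw [this] at ha hb
        rcases hcolv with h | h
        · exact h.2 hb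
        · exact h.1 ha
      · have : a = v := hvv a (sB1 hb) (sW2 ha)
        rw [this] at ha hb
        rcases hcolv with h | h
        · exact h.1 hb
        · exact h.2 ha
      · exact Finset.disjoint_left.mp c2' ha hb
    refine key.mono ?_ ?_
    · intro a ha
      rw [Finset.mem_union, Finset.mem_union, wh_union] at ha
      have u1 : a ∈ pw k (f1 ++ v :: f2) → _ := fun h => pw_mid k f1 f2 v h
      have u2 : a ∈ pw k (c1 ++ v :: c2) → _ := fun h => pw_mid k c1 c2 v h
      rw [hk] at u2
      rw [hW1, hW2]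
      unfold Wv
      simp only [Finset.mem_union] at ha u1 u2 ⊢
      tauto
    · intro a ha
      rw [Finset.mem_union, Finset.mem_union, bl_union] at ha
      have u1 : a ∈ pb k (f1 ++ v :: f2) → _ := fun h => pb_mid k f1 f2 v h
      have u2 : a ∈ pb k (c1 ++ v :: c2) → _ := fun h => pb_mid k c1 c2 v h
      rw [hk] at u2
      rw [hB1, hB2]
      unfold Bv
      simp only [Finset.mem_union] at ha u1 u2 ⊢
      tauto

theorem fill_point (k : Bool) (p : ℕ) (N : Finset Quad) : Fill k [p] [p] N ↔ N = ∅ :=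
  fill_self k (List.nodup_singleton p) (by simp) N

theorem fill_edge (k : Bool) {p z : ℕ} (hpz : p ≠ z) (N : Finset Quad) :
    Fill k [p, z] [p, z] N ↔ N = ∅ :=
  fill_self k (by simp [hpz]) (by simp) N

theorem fill_disk (k : Bool) {f c : List ℕ} (hd : IntD f c) (N : Finset Quad) :
    Fill k f c N ↔ AC (EdS N) N ∧ bd N = pe k f ∪ pe k c ∧ Disjoint (wh N) (bl N) := by
  have hdis : Disjoint (pe k f) (pe k c) := disj_paths hd
  have hsd : symmDiff (pe k f) (pe k c) = pe k f ∪ pe k c := hdis.symmDiff_eq_sup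
  constructor
  · intro h
    have hb : bd N = pe k f ∪ pe k c := by rw [h.bnd, hsd]
    have hE : EdS N ∪ pe k f ∪ pe k c = EdS N := by
      rw [Finset.union_assoc, ← hb]
      exact Finset.union_eq_left.mpr (bd_sub N)
    refine ⟨by have := h.ac; rwa [hE] at this, hb, h.col.mono ?_ ?_⟩
    · intro a ha
      simp only [Finset.mem_union]
      tauto
    · intro a ha
      simp only [Finset.mem_union]
      tauto
  · rintro ⟨hac, hb, hcol⟩
    obtain ⟨p, z, f', c', rfl, rfl, hnd, hne, hpar⟩ := hd.ex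
    have hE : EdS N ∪ pe k (p :: (f' ++ [z])) ∪ pe k (p :: (c' ++ [z])) = EdS N := by
      rw [Finset.union_assoc, ← hb]
      exact Finset.union_eq_left.mpr (bd_sub N)
    have hn : p ≠ z ∧ (∀ a, a ∈ f' → a ≠ p ∧ a ≠ z) ∧ (∀ a, a ∈ c' → a ≠ p ∧ a ≠ z) ∧
        f'.Nodup ∧ c'.Nodup := by
      rw [List.nodup_cons, List.nodup_cons, List.nodup_append] at hnd
      simp only [List.mem_cons, List.mem_append, not_or] at hnd
      obtain ⟨⟨h1, h2, h3⟩, ⟨h4, h5⟩, h6, h7, _⟩ := hnd
      exact ⟨h1, fun a ha => ⟨fun e => h2 (e ▸ ha), fun e => h4 (e ▸ ha)⟩,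
        fun a ha => ⟨fun e => h3 (e ▸ ha), fun e => h5 (e ▸ ha)⟩, h6, h7⟩
    have nod : ∀ l : List ℕ, l.Nodup → (∀ a, a ∈ l → a ≠ p ∧ a ≠ z) →
        (p :: (l ++ [z])).Nodup := by
      intro l hl hl'
      rw [List.nodup_cons, List.nodup_append]
      refine ⟨?_, hl, List.nodup_singleton z, ?_⟩
      · rw [List.mem_append, List.mem_singleton]
        rintro (h | h)
        · exact (hl' p h).1 rfl
        · exact hn.1 h
      · intro a ha b hbb hab
        rw [List.mem_singleton] at hbb
        exact (hl' a ha).2 (hab.trans hbb)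
    have pwf : pw k (p :: (f' ++ [z])) ⊆ wh N ∧ pb k (p :: (f' ++ [z])) ⊆ bl N := by
      have := vert_edge (p :: (f' ++ [z])) k (by simp)
      constructor
      · intro a ha
        obtain ⟨e, he, rfl⟩ := this.1 a ha
        exact (mem_vx_of_EdS (bd_sub N (by rw [hb]; exact Finset.mem_union_left _ he))).1
      · intro a ha
        obtain ⟨e, he, rfl⟩ := this.2 a ha
        exact (mem_vx_of_EdS (bd_sub N (by rw [hb]; exact Finset.mem_union_left _ he))).2
    have pwc : pw k (p :: (c' ++ [z])) ⊆ wh N ∧ pb k (p :: (c' ++ [z])) ⊆ bl N := by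
      have := vert_edge (p :: (c' ++ [z])) k (by simp)
      constructor
      · intro a ha
        obtain ⟨e, he, rfl⟩ := this.1 a ha
        exact (mem_vx_of_EdS (bd_sub N (by rw [hb]; exact Finset.mem_union_right _ he))).1
      · intro a ha
        obtain ⟨e, he, rfl⟩ := this.2 a ha
        exact (mem_vx_of_EdS (bd_sub N (by rw [hb]; exact Finset.mem_union_right _ he))).2
    refine ⟨by rw [hE]; exact hac, by rw [hsd, hb], ?_, nod f' hn.2.2.2.1 hn.2.1,
      nod c' hn.2.2.2.2 hn.2.2.1, by simp, rfl, ?_, ?_, ?_⟩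
    · rw [Finset.disjoint_iff_inter_eq_empty.mp hdis]
      exact Finset.disjoint_empty_left _
    · rw [← List.cons_append, ← List.cons_append, List.getLast?_append_of_ne_nil _ (by simp),
        List.getLast?_append_of_ne_nil _ (by simp)]
    · simp only [List.length_append, List.length_cons, List.length_nil]
      omega
    · refine hcol.mono ?_ ?_
      · exact Finset.union_subset (Finset.union_subset (Finset.Subset.refl _) pwf.1) pwc.1
      · exact Finset.union_subset (Finset.union_subset (Finset.Subset.refl _) pwf.2) pwc.2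

theorem net_iff_fill {w0 w1 b0 b1 : ℕ} (hd : [w0, b0, w1, b1].Nodup) (N : Finset Quad) :
    Net w0 w1 b0 b1 N ↔ Fill true [w0, b1] [w0, b0, w1, b1] N := by
  have hn : w0 ≠ b0 ∧ w0 ≠ w1 ∧ w0 ≠ b1 ∧ b0 ≠ w1 ∧ b0 ≠ b1 ∧ w1 ≠ b1 := by
    simp only [List.nodup_cons, List.mem_cons, List.not_mem_nil, not_or, or_false] at hd
    tauto
  have hi : IntD [w0, b1] [w0, b0, w1, b1] := by
    refine ⟨w0, b1, [], [b0, w1], rfl, rfl, ?_, Or.inr (by simp), by simp⟩
    simp only [List.nil_append, List.nodup_cons, List.mem_cons, List.not_mem_nil, not_or, or_false,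
      not_false_iff, and_true, List.nodup_nil]
    obtain ⟨a, b, c, d, e, f⟩ := hn
    exact ⟨⟨c, a, b⟩, ⟨fun h => e h.symm, fun h => f h.symm⟩, d⟩
  have he : pe true [w0, b1] ∪ pe true [w0, b0, w1, b1] = ed ({w0, w1}, {b0, b1}) := by
    ext ⟨x, y⟩
    simp only [pe, ed, Finset.mem_union, Finset.mem_insert, Finset.mem_product,
      Finset.mem_singleton, Prod.mk.injEq, Finset.notMem_empty, or_false, if_true, if_false,
      Bool.not_true, Bool.not_false, Bool.false_eq_true]
    tauto
  rw [fill_disk true hi, he]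
  constructor
  · intro h
    exact ⟨h.ac, h.bnd, h.col⟩
  · rintro ⟨h1, h2, h3⟩
    exact ⟨hn.2.1, hn.2.2.2.2.1, h1, h2, h3⟩

end K5M
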