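import Pool.Agent.Lib.K5M.B4
import Pool.Agent.Lib.K5M.B5

/-!
# K5M.B9: fillings containing the chord `(p, z)`

`f`, `c` are paths with at least four vertices from `p` (white) to `z` (black), `e = (p, z)`.

PROOF of `chord`.  `e` is in `EdS N` and not in `pe f ∪ pe c` (`ends_not_mem`).  `pe f ∪ {e}` is even (`evn_path`
for `f` and `[p, z]`), so it is `bd N1`, `N1 ⊆ N`; `N2 = N \ N1`; `bd N2 = (pe f Δ pe c) Δ (pe f ∪ {e})
= pe c ∪ {e}`.
`EdS N1 ∩ EdS N2 = {e}`: `e ∈ bd N1`, `dg N e = 2` (`dg_two`), so `e` is in one quad of each.  An edge `e'` in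
both has `dg N1 e' = dg N2 e' = 1`, so `e' ∈ bd N1`, and `dg N e' = 2`, so `e'` is not on the paths: `e' = e`.
The paths have no common inner vertex: let `u` be one, the first one on `f` (`f = f1 ++ u :: f2` with no
vertex of `f1.tail` on `c`).  `Fill.split` gives `N = N1' ∪ N2'` with vertex sets meeting only in `u`.  The
edge `e` is in a quad of `N1'` or `N2'`; `p ≠ u` is a vertex of the first part (list), so if `e ∈ EdS N2'`
then `p` is in both, contradiction; `z ≠ u` is a vertex of the second part, so `e ∈ EdS N1'` is impossible.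
So `pe f ∩ pe c = ∅`.  `AC (EdS N1 ∪ pe f ∪ {e}) N1` by `AC.restrict`: `pe f ⊆ bd N1 ⊆ EdS N1`, the intersection
with `EdS N2` is `{e}`, and an even subset of `{e}` is empty.  Same for `N2`.
Common vertices: let `x ∉ {p, z}` be a vertex of both parts; if `x` is in a quad of `N1` and no edge of
`bd N1` is at `x`, the link lemma says that all quads at `x` are in `N1` and `x` is not on the paths:
contradiction; so `x` is on `f`; in the same way `x` is on `c`: contradiction.
PROOF of `chord_join`.  `N1` is a disk with boundary `pe f ∪ {e}`, `N2` with `pe c ∪ {e}` (`fill_disk`).  An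
edge in `EdS N1 ∩ EdS N2` has both ends in `{p, z}`, so it is `e` (colours).  `two`: clear for edges
different from `e`; `e` is in exactly one quad of each.  `inj`: if `bd X = ∅`, `X1 = X ∩ N1`, `X2 = X ∩ N2`:
`bd X1 = bd X2 ⊆ {e}` is even, hence empty.  `sur`: let `Z` be even in `EdS N1 ∪ EdS N2`; `Z1 = Z ∩ EdS N1`.
The vertices where `Z1` may be odd are `p` and `z`; the number of odd white vertices is congruent to `#Z1`
and to the number of odd black vertices, so `Z1` is even or odd at exactly `p` and `z`; in the second case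
replace `Z1` by `Z1 Δ {e}`.  Then `Z Δ Z1` is an even subset of `EdS N2`.  Boundary: `(pe f ∪ {e}) Δ (pe c ∪ {e})
= pe f ∪ pe c`, disjoint because `f` and `c` have only `p`, `z` in common and `e` is on neither.  Quads of
`N1` and `N2` are different: a quad has four vertices, at most two of them common.
-/

set_option autoImplicit false

namespace K5M

open Finset

variable {N N1 N2 : Finset Quad} {f c : List ℕ} {p z : ℕ}

namespace B9Aux

theorem exists_first (P : ℕ → Prop) : ∀ (l : List ℕ), (∃ x ∈ l, P x) →
    ∃ a v b, l = a ++ v :: b ∧ P v ∧ ∀ x ∈ a, ¬ P x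
  | [], h => by
    obtain ⟨x, hx, _⟩ := h
    exact absurd hx (List.not_mem_nil)
  | y :: l, h => by
    by_cases hy : P y
    · exact ⟨[], y, l, rfl, hy, fun x hx => absurd hx (List.not_mem_nil)⟩
    · obtain ⟨x, hx, hPx⟩ := h
      rcases List.mem_cons.1 hx with rfl | hx'
      · exact absurd hPx hy
      · obtain ⟨a, v, b, h1, h2, h3⟩ := exists_first P l ⟨x, hx', hPx⟩
        refine ⟨y :: a, v, b, by rw [h1]; rfl, h2, fun x hx => ?_⟩
        rcases List.mem_cons.1 hx with rfl | hx''
        · exact hy
        · exact h3 x hx''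

theorem pw_edge : ∀ (l : List ℕ) (k : Bool) (x : ℕ), x ∈ pw k l → 2 ≤ l.length →
    ∃ e ∈ pe k l, e.1 = x
  | [], k, x, h, h2 => by simp at h2
  | [a], k, x, h, h2 => by simp at h2
  | [a, b], k, x, h, _ => by
    cases k
    · simp [pw] at h
      exact ⟨(b, a), by simp [pe], h.symm⟩
    · simp [pw] at h
      exact ⟨(a, b), by simp [pe], h.symm⟩
  | a :: b :: d :: l, k, x, h, _ => by
    have ih := pw_edge (b :: d :: l) (!k) x
    have h' : (k = true ∧ x = a) ∨ x ∈ pw (!k) (b :: d :: l) := by
      cases k
      · right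
        simpa [pw] using h
      · have : x ∈ insert a (pw (!true) (b :: d :: l)) := by simpa [pw] using h
        rcases Finset.mem_insert.1 this with h | h
        · exact Or.inl ⟨rfl, h⟩
        · exact Or.inr h
    rcases h' with ⟨rfl, rfl⟩ | h'
    · exact ⟨(x, b), by rw [pe_cons]; simp, rfl⟩
    · obtain ⟨e, he, hex⟩ := ih h' (by simp)
      exact ⟨e, by rw [pe_cons]; exact Finset.mem_insert_of_mem he, hex⟩

theorem pb_edge : ∀ (l : List ℕ) (k : Bool) (x : ℕ), x ∈ pb k l → 2 ≤ l.length →
    ∃ e ∈ pe k l, e.2 = x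
  | [], k, x, h, h2 => by simp at h2
  | [a], k, x, h, h2 => by simp at h2
  | [a, b], k, x, h, _ => by
    cases k
    · simp [pb, pw] at h
      exact ⟨(b, a), by simp [pe], h.symm⟩
    · simp [pb, pw] at h
      exact ⟨(a, b), by simp [pe], h.symm⟩
  | a :: b :: d :: l, k, x, h, _ => by
    have ih := pb_edge (b :: d :: l) (!k) x
    have h' : (k = false ∧ x = a) ∨ x ∈ pb (!k) (b :: d :: l) := by
      cases k
      · have : x ∈ insert a (pw (!true) (b :: d :: l)) := by simpa [pb, pw] using h
        rcases Finset.mem_insert.1 this with h | h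
        · exact Or.inl ⟨rfl, h⟩
        · exact Or.inr (by simpa [pb] using h)
      · right
        simpa [pb, pw] using h
    rcases h' with ⟨rfl, rfl⟩ | h'
    · exact ⟨(b, x), by rw [pe_cons]; simp, rfl⟩
    · obtain ⟨e, he, hex⟩ := ih h' (by simp)
      exact ⟨e, by rw [pe_cons]; exact Finset.mem_insert_of_mem he, hex⟩

theorem even_iff_fst {Z : Finset Ed} {p : ℕ}
    (hw : ∀ w, w ≠ p → Even (Z.filter (fun e => e.1 = w)).card) :
    Even Z.card ↔ Even (Z.filter (fun e => e.1 = p)).card := by
  classical
  have h1 : (Z.filter (fun e => e.1 = p)).card + (Z.filter (fun e => ¬ e.1 = p)).card = Z.card :=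
    Finset.card_filter_add_card_filter_not _
  have h2 : Even (Z.filter (fun e => ¬ e.1 = p)).card := by
    rw [Finset.card_eq_sum_card_image Prod.fst (Z.filter (fun e => ¬ e.1 = p))]
    refine Finset.even_sum _ (fun w hw' => ?_)
    obtain ⟨e, he, hew⟩ := Finset.mem_image.1 hw'
    have hwp : w ≠ p := by
      rw [← hew]
      exact (Finset.mem_filter.1 he).2
    have h3 : (Z.filter (fun e => ¬ e.1 = p)).filter (fun e => e.1 = w) =
        Z.filter (fun e => e.1 = w) := by
      ext x
      simp only [Finset.mem_filter]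
      constructor
      · rintro ⟨⟨a, _⟩, b⟩
        exact ⟨a, b⟩
      · rintro ⟨a, b⟩
        exact ⟨⟨a, by rw [b]; exact hwp⟩, b⟩
    rw [h3]
    exact hw w hwp
  rw [← h1, Nat.even_add]
  tauto

theorem even_iff_snd {Z : Finset Ed} {p : ℕ}
    (hw : ∀ w, w ≠ p → Even (Z.filter (fun e => e.2 = w)).card) :
    Even Z.card ↔ Even (Z.filter (fun e => e.2 = p)).card := by
  classical
  have h1 : (Z.filter (fun e => e.2 = p)).card + (Z.filter (fun e => ¬ e.2 = p)).card = Z.card :=
    Finset.card_filter_add_card_filter_not _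
  have h2 : Even (Z.filter (fun e => ¬ e.2 = p)).card := by
    rw [Finset.card_eq_sum_card_image Prod.snd (Z.filter (fun e => ¬ e.2 = p))]
    refine Finset.even_sum _ (fun w hw' => ?_)
    obtain ⟨e, he, hew⟩ := Finset.mem_image.1 hw'
    have hwp : w ≠ p := by
      rw [← hew]
      exact (Finset.mem_filter.1 he).2
    have h3 : (Z.filter (fun e => ¬ e.2 = p)).filter (fun e => e.2 = w) =
        Z.filter (fun e => e.2 = w) := by
      ext x
      simp only [Finset.mem_filter]
      constructor
      · rintro ⟨⟨a, _⟩, b⟩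
        exact ⟨a, b⟩
      · rintro ⟨a, b⟩
        exact ⟨⟨a, by rw [b]; exact hwp⟩, b⟩
    rw [h3]
    exact hw w hwp
  rw [← h1, Nat.even_add]
  tauto

theorem even_card_symmDiff (P : Ed → Prop) [DecidablePred P] (Z : Finset Ed) (e : Ed) :
    Even ((symmDiff Z {e}).filter P).card ↔
      (Even (Z.filter P).card ↔ ¬ P e) := by
  by_cases hP : P e
  · by_cases heZ : e ∈ Z
    · have h1 : (symmDiff Z {e}).filter P = (Z.filter P).erase e := by
        ext x
        simp only [Finset.mem_filter, Finset.mem_symmDiff, Finset.mem_singleton,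
          Finset.mem_erase]
        constructor
        · rintro ⟨⟨a, b⟩ | ⟨rfl, b⟩, d⟩
          · exact ⟨b, a, d⟩
          · exact absurd heZ b
        · rintro ⟨a, b, d⟩
          exact ⟨Or.inl ⟨b, a⟩, d⟩
      have h2 : e ∈ Z.filter P := Finset.mem_filter.2 ⟨heZ, hP⟩
      have h3 := Finset.card_erase_add_one h2
      rw [h1, ← h3, Nat.even_add_one]
      tauto
    · have h1 : (symmDiff Z {e}).filter P = insert e (Z.filter P) := by
        ext x
        simp only [Finset.mem_filter, Finset.mem_symmDiff, Finset.mem_singleton,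
          Finset.mem_insert]
        constructor
        · rintro ⟨⟨a, b⟩ | ⟨a, b⟩, d⟩
          · exact Or.inr ⟨a, d⟩
          · exact Or.inl a
        · rintro (rfl | ⟨a, b⟩)
          · exact ⟨Or.inr ⟨rfl, heZ⟩, hP⟩
          · exact ⟨Or.inl ⟨a, fun h => heZ (h ▸ a)⟩, b⟩
      rw [h1, Finset.card_insert_of_notMem (fun h => heZ (Finset.mem_filter.1 h).1),
        Nat.even_add_one]
      tauto
  · have h1 : (symmDiff Z {e}).filter P = Z.filter P := by
      ext x
      simp only [Finset.mem_filter, Finset.mem_symmDiff, Finset.mem_singleton]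
      constructor
      · rintro ⟨⟨a, b⟩ | ⟨rfl, b⟩, d⟩
        · exact ⟨a, d⟩
        · exact absurd d hP
      · rintro ⟨a, b⟩
        exact ⟨Or.inl ⟨a, fun h => hP (h ▸ b)⟩, b⟩
    rw [h1]
    tauto

/-- A set of edges that is even at all vertices but possibly `p` (white) and `z` (black). -/
theorem par_two {Z : Finset Ed} {p z : ℕ}
    (hw : ∀ w, w ≠ p → Even (Z.filter (fun e => e.1 = w)).card)
    (hb : ∀ b, b ≠ z → Even (Z.filter (fun e => e.2 = b)).card) :
    Evn Z ∨ Evn (symmDiff Z {(p, z)}) := by
  have h1 := even_iff_fst hw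
  have h2 := even_iff_snd hb
  by_cases he : Even Z.card
  · left
    refine ⟨fun w => ?_, fun b => ?_⟩
    · by_cases h : w = p
      · rw [h]
        exact h1.1 he
      · exact hw w h
    · by_cases h : b = z
      · rw [h]
        exact h2.1 he
      · exact hb b h
  · right
    refine ⟨fun w => ?_, fun b => ?_⟩
    · rw [even_card_symmDiff]
      by_cases h : w = p
      · subst h
        simp only [not_true_eq_false, iff_false]
        exact fun h' => he (h1.2 h')
      · have := hw w h
        simp only [this, true_iff]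
        exact fun h' => h h'.symm
    · rw [even_card_symmDiff]
      by_cases h : b = z
      · subst h
        simp only [not_true_eq_false, iff_false]
        exact fun h' => he (h2.2 h')
      · have := hb b h
        simp only [this, true_iff]
        exact fun h' => h h'.symm

theorem pe_pz (p z : ℕ) : pe true [p, z] = {(p, z)} := by
  rw [pe_cons, pe_single]
  rfl

theorem pw_pz (p z : ℕ) : pw true [p, z] = {p} := by
  simp [pw]

theorem pb_pz (p z : ℕ) : pb true [p, z] = {z} := by
  simp [pb, pw]

theorem mem_pw_or {k : Bool} {l : List ℕ} {x : ℕ} (h : x ∈ l) : x ∈ pw k l ∨ x ∈ pb k l := by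
  rw [← Finset.mem_union, pw_union_pb]
  exact List.mem_toFinset.2 h

theorem pw_mem {k : Bool} {l : List ℕ} {x : ℕ} (h : x ∈ pw k l) : x ∈ l := by
  rw [← List.mem_toFinset, ← pw_union_pb k l]
  exact Finset.mem_union_left _ h

theorem pb_mem {k : Bool} {l : List ℕ} {x : ℕ} (h : x ∈ pb k l) : x ∈ l := by
  rw [← List.mem_toFinset, ← pw_union_pb k l]
  exact Finset.mem_union_right _ h

theorem par_last {f : List ℕ} {z : ℕ} (hz : f.getLast? = some z) (hb : z ∉ pw true f) :
    f.length % 2 = 0 := by
  obtain ⟨f0, rfl⟩ : ∃ f0, f = f0 ++ [z] := by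
    rcases List.eq_nil_or_concat f with rfl | ⟨l, a, rfl⟩
    · simp at hz
    · rw [List.concat_eq_append, List.getLast?_append] at hz
      simp at hz
      exact ⟨l, by rw [hz, List.concat_eq_append]⟩
  rw [pw_append, Finset.mem_union, not_or] at hb
  have h1 := hb.2
  unfold kat at h1
  rw [List.length_append, List.length_singleton]
  by_cases h : f0.length % 2 = 0
  · rw [if_pos h] at h1
    exact absurd (by simp [pw]) h1
  · omega

end B9Aux

open B9Aux

theorem Fill.chord (h : Fill true f c N) (hf : 4 ≤ f.length) (hc : 4 ≤ c.length)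
    (hp : f.head? = some p) (hz : f.getLast? = some z) (he : (p, z) ∈ EdS N) :
    ∃ N1 N2 : Finset Quad, N = N1 ∪ N2 ∧ Disjoint N1 N2 ∧
      Fill true f [p, z] N1 ∧ Fill true [p, z] c N2 ∧
      vx f [p, z] N1 ∩ vx [p, z] c N2 = {p, z} := by
  classical
  have hcp : c.head? = some p := by rw [← h.hd, hp]
  have hcz : c.getLast? = some z := by rw [← h.lt, hz]
  have hef : (p, z) ∉ pe true f := ends_not_mem h.nf hf hp hz
  have hec : (p, z) ∉ pe true c := ends_not_mem h.nc hc hcp hcz
  have hpw : p ∈ wh N := (mem_vx_of_EdS he).1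
  have hzb : z ∈ bl N := (mem_vx_of_EdS he).2
  have hcol : ∀ x, x ∈ wh N ∪ pw true f ∪ pw true c → x ∉ bl N ∪ pb true f ∪ pb true c :=
    fun x hx hx' => Finset.disjoint_left.1 h.col hx hx'
  have hpz : p ≠ z := by
    rintro rfl
    exact hcol p (by simp [hpw]) (by simp [hzb])
  have hzf : z ∉ pw true f := fun hh => hcol z (by simp [hh]) (by simp [hzb])
  have hpar : f.length % 2 = 0 := par_last hz hzf
  have hnpz : [p, z].Nodup := by simp [hpz]
  have hlast : [p, z].getLast? = some z := rfl
  have hl2 : [p, z].length % 2 = 0 := by simp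
  have hevn : Evn (symmDiff (pe true f) {(p, z)}) := by
    have := evn_path (k := true) h.nf hnpz (by rw [hp]; rfl) (by rw [hz, hlast])
      (by rw [hpar, hl2])
    rwa [pe_pz] at this
  have hsub : symmDiff (pe true f) {(p, z)} ⊆ EdS N ∪ pe true f ∪ pe true c := by
    intro x hx
    rw [Finset.mem_symmDiff] at hx
    rcases hx with ⟨hx, _⟩ | ⟨hx, _⟩
    · simp [hx]
    · rw [Finset.mem_singleton] at hx
      rw [hx]
      simp [he]
  obtain ⟨N1, hN1, hb1⟩ := h.ac.sur _ hsub hevn
  have hb2 : bd (N \ N1) = symmDiff (pe true c) {(p, z)} := by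
    rw [bd_sdiff hN1, h.bnd, hb1]
    ext x
    simp only [Finset.mem_symmDiff]
    tauto
  have he1 : (p, z) ∈ bd N1 := by
    rw [hb1, Finset.mem_symmDiff]
    exact Or.inr ⟨Finset.mem_singleton_self _, hef⟩
  have he2 : (p, z) ∈ bd (N \ N1) := by
    rw [hb2, Finset.mem_symmDiff]
    exact Or.inr ⟨Finset.mem_singleton_self _, hec⟩
  have hf1 : pe true f ⊆ EdS N1 := by
    refine fun x hx => bd_sub _ ?_
    rw [hb1, Finset.mem_symmDiff]
    refine Or.inl ⟨hx, fun hh => hef ?_⟩
    rw [Finset.mem_singleton] at hh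
    rwa [← hh]
  have hc2 : pe true c ⊆ EdS (N \ N1) := by
    refine fun x hx => bd_sub _ ?_
    rw [hb2, Finset.mem_symmDiff]
    refine Or.inl ⟨hx, fun hh => hec ?_⟩
    rw [Finset.mem_singleton] at hh
    rwa [← hh]
  have hint : EdS N1 ∩ EdS (N \ N1) ⊆ {(p, z)} := by
    intro x hx
    rw [Finset.mem_inter] at hx
    have d1 := dg_pos.2 hx.1
    have d2 := dg_pos.2 hx.2
    have d3 := dg_sdiff hN1 x
    have d4 := h.ac.two x
    have d5 : dg N1 x = 1 := by omega
    have d6 : dg N x = 2 := by omega
    have hxb : x ∈ bd N1 := by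
      rw [mem_bd, d5]
      exact odd_one
    rw [hb1, Finset.mem_symmDiff] at hxb
    rcases hxb with ⟨hxf, _⟩ | ⟨hxe, _⟩
    · exfalso
      by_cases hxc : x ∈ pe true c
      · have := h.dg_zero (Finset.mem_inter.2 ⟨hxf, hxc⟩)
        omega
      · have := h.dg_one (Finset.mem_symmDiff.2 (Or.inl ⟨hxf, hxc⟩))
        omega
    · exact hxe
  have hN2 : N \ N1 ⊆ N := Finset.sdiff_subset
  -- no common inner vertex
  have hcom : ∀ u ∈ f, u ∈ c → u = p ∨ u = z := by
    obtain ⟨ft, rfl⟩ : ∃ ft, f = p :: ft := by
      cases f with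
      | nil => simp at hp
      | cons a l =>
        simp at hp
        exact ⟨l, by rw [hp]⟩
    have hzft : z ∈ ft := by
      have h1 : z ∈ p :: ft := List.mem_of_getLast? hz
      rcases List.mem_cons.1 h1 with h1 | h1
      · exact absurd h1.symm hpz
      · exact h1
    have hzc : z ∈ c := List.mem_of_getLast? hcz
    obtain ⟨a, v, b, hft, hvc, hav⟩ := exists_first (fun x => x ∈ c) ft ⟨z, hzft, hzc⟩
    by_cases hvz : v = z
    · have hbn : b = [] := by
        have hnd := h.nf
        rw [hft, hvz] at hnd
        rw [hft, hvz] at hz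
        rcases List.eq_nil_or_concat b with hb | ⟨l, y, hb⟩
        · exact hb
        · exfalso
          rw [List.concat_eq_append] at hb
          rw [hb] at hz hnd
          have hy : y = z := by
            have : (p :: (a ++ z :: (l ++ [y]))) = (p :: (a ++ z :: l)) ++ [y] := by simp
            rw [this, List.getLast?_append] at hz
            simpa using hz
          rw [hy] at hnd
          simp [List.nodup_append] at hnd
      intro u hu huc
      rcases List.mem_cons.1 hu with hu | hu
      · exact Or.inl hu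
      · right
        rw [hft, hbn] at hu
        rcases List.mem_append.1 hu with hu | hu
        · exact absurd huc (hav u hu)
        · rw [List.mem_singleton] at hu
          rw [hu, hvz]
    · exfalso
      obtain ⟨c1, c2, hcc⟩ := List.append_of_mem hvc
      have h' : Fill true ((p :: a) ++ v :: b) (c1 ++ v :: c2) N := by
        have e1 : (p :: a) ++ v :: b = p :: ft := by rw [hft]; rfl
        rw [e1, ← hcc]
        exact h
      obtain ⟨M1, M2, hM, hMd, hM1, hM2, hMv⟩ := h'.split (by simp) (by
        intro u hu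
        rw [← hcc]
        exact hav u hu)
      obtain ⟨q, hq, heq⟩ := mem_EdS.1 he
      rw [hM, Finset.mem_union] at hq
      have hpv : p ≠ v := by
        rintro rfl
        have hnd := h.nf
        rw [hft] at hnd
        simp at hnd
      rcases hq with hq | hq
      · have hz1 : z ∈ bl M1 := (mem_vx_of_EdS (mem_EdS.2 ⟨q, hq, heq⟩)).2
        have hz2 : z ∈ v :: b := by
          have : (p :: ft) = (p :: a) ++ v :: b := by rw [hft]; rfl
          rw [this, List.getLast?_append_of_ne_nil _ (by simp)] at hz
          exact List.mem_of_getLast? hz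
        have : z ∈ vx ((p :: a) ++ [v]) (c1 ++ [v]) M1 ∩ vx (v :: b) (v :: c2) M2 := by
          refine Finset.mem_inter.2 ⟨by simp [vx, hz1], ?_⟩
          unfold vx
          rw [Finset.mem_union, Finset.mem_union]
          exact Or.inl (Or.inr (List.mem_toFinset.2 hz2))
        rw [hMv, Finset.mem_singleton] at this
        exact hvz this.symm
      · have hp1 : p ∈ wh M2 := (mem_vx_of_EdS (mem_EdS.2 ⟨q, hq, heq⟩)).1
        have : p ∈ vx ((p :: a) ++ [v]) (c1 ++ [v]) M1 ∩ vx (v :: b) (v :: c2) M2 := by
          refine Finset.mem_inter.2 ⟨by simp [vx], by simp [vx, hp1]⟩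
        rw [hMv, Finset.mem_singleton] at this
        exact hpv this
  have hwh1 : wh N1 ⊆ wh N := Finset.biUnion_subset_biUnion_of_subset_left _ hN1
  have hbl1 : bl N1 ⊆ bl N := Finset.biUnion_subset_biUnion_of_subset_left _ hN1
  have hwh2 : wh (N \ N1) ⊆ wh N := Finset.biUnion_subset_biUnion_of_subset_left _ hN2
  have hbl2 : bl (N \ N1) ⊆ bl N := Finset.biUnion_subset_biUnion_of_subset_left _ hN2
  have hevs : ∀ Z ⊆ ({(p, z)} : Finset Ed), Evn Z → Z = ∅ := by
    intro Z hZ hZe
    rw [← pe_pz] at hZ
    exact pe_even_sub hnpz hZ hZe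
  have hF1 : Fill true f [p, z] N1 := by
    refine ⟨?_, ?_, ?_, h.nf, hnpz, h.fne, by rw [hp]; rfl, by rw [hz, hlast],
      by rw [hpar, hl2], ?_⟩
    · refine h.ac.restrict hN1 ?_ ?_ ?_
      · intro x hx
        simp [hx]
      · rw [pe_pz]
        refine Finset.union_subset (Finset.union_subset ?_ ?_) ?_
        · intro x hx
          simp [EdS_mono hN1 hx]
        · intro x hx
          simp [hx]
        · intro x hx
          rw [Finset.mem_singleton] at hx
          simp [hx, he]
      · intro Z hZ hZe
        left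
        refine hevs Z (fun x hx => ?_) hZe
        have h1 := Finset.mem_inter.1 (hZ hx)
        rw [pe_pz] at h1
        rcases Finset.mem_union.1 h1.1 with h2 | h2
        · rcases Finset.mem_union.1 h2 with h3 | h3
          · exact hint (Finset.mem_inter.2 ⟨h3, h1.2⟩)
          · exact hint (Finset.mem_inter.2 ⟨hf1 h3, h1.2⟩)
        · exact h2
    · rw [hb1, pe_pz]
    · rw [pe_pz]
      refine Finset.disjoint_left.2 (fun x hx _ => hef ?_)
      rw [Finset.mem_inter, Finset.mem_singleton] at hx
      rw [← hx.2]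
      exact hx.1
    · rw [pw_pz, pb_pz]
      refine Finset.disjoint_left.2 (fun x hx hx' => hcol x ?_ ?_)
      · simp only [Finset.mem_union, Finset.mem_singleton] at hx ⊢
        rcases hx with (hx | hx) | hx
        · exact Or.inl (Or.inl (hwh1 hx))
        · exact Or.inl (Or.inr hx)
        · rw [hx]
          exact Or.inl (Or.inl hpw)
      · simp only [Finset.mem_union, Finset.mem_singleton] at hx' ⊢
        rcases hx' with (hx' | hx') | hx'
        · exact Or.inl (Or.inl (hbl1 hx'))
        · exact Or.inl (Or.inr hx')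
        · rw [hx']
          exact Or.inl (Or.inl hzb)
  have hF2 : Fill true [p, z] c (N \ N1) := by
    refine ⟨?_, ?_, ?_, hnpz, h.nc, by simp, by rw [hcp]; rfl, by rw [hcz, hlast],
      by rw [← h.par, hpar, hl2], ?_⟩
    · refine h.ac.restrict hN2 ?_ ?_ ?_
      · intro x hx
        simp [hx]
      · rw [pe_pz]
        refine Finset.union_subset (Finset.union_subset ?_ ?_) ?_
        · intro x hx
          simp [EdS_mono hN2 hx]
        · intro x hx
          rw [Finset.mem_singleton] at hx
          simp [hx, he]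
        · intro x hx
          simp [hx]
      · intro Z hZ hZe
        left
        refine hevs Z (fun x hx => ?_) hZe
        have h1 := Finset.mem_inter.1 (hZ hx)
        rw [pe_pz, Finset.sdiff_sdiff_eq_self hN1] at h1
        rcases Finset.mem_union.1 h1.1 with h2 | h2
        · rcases Finset.mem_union.1 h2 with h3 | h3
          · exact hint (Finset.mem_inter.2 ⟨h1.2, h3⟩)
          · exact h3
        · exact hint (Finset.mem_inter.2 ⟨h1.2, hc2 h2⟩)
    · rw [hb2, pe_pz, symmDiff_comm]
    · rw [pe_pz]
      refine Finset.disjoint_left.2 (fun x hx _ => hec ?_)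
      rw [Finset.mem_inter, Finset.mem_singleton] at hx
      rw [← hx.1]
      exact hx.2
    · rw [pw_pz, pb_pz]
      refine Finset.disjoint_left.2 (fun x hx hx' => hcol x ?_ ?_)
      · simp only [Finset.mem_union, Finset.mem_singleton] at hx ⊢
        rcases hx with (hx | hx) | hx
        · exact Or.inl (Or.inl (hwh2 hx))
        · rw [hx]
          exact Or.inl (Or.inl hpw)
        · exact Or.inr hx
      · simp only [Finset.mem_union, Finset.mem_singleton] at hx' ⊢
        rcases hx' with (hx' | hx') | hx'
        · exact Or.inl (Or.inl (hbl2 hx'))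
        · rw [hx']
          exact Or.inl (Or.inl hzb)
        · exact Or.inr hx'
  refine ⟨N1, N \ N1, (Finset.union_sdiff_of_subset hN1).symm, Finset.disjoint_sdiff, hF1, hF2,
    ?_⟩
  -- membership of edges in the two boundaries
  have hmb1 : ∀ x ∈ bd N1, x ∈ pe true f ∨ x = (p, z) := by
    intro x hx
    rw [hb1, Finset.mem_symmDiff, Finset.mem_singleton] at hx
    tauto
  have hmb2 : ∀ x ∈ bd (N \ N1), x ∈ pe true c ∨ x = (p, z) := by
    intro x hx
    rw [hb2, Finset.mem_symmDiff, Finset.mem_singleton] at hx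
    tauto
  have key1 : ∀ x ∈ vx f [p, z] N1, x ∈ vx [p, z] c (N \ N1) → x ∈ f := by
    intro x hx hx2
    have hpf : p ∈ f := List.mem_of_head? hp
    have hzf' : z ∈ f := List.mem_of_getLast? hz
    unfold vx at hx hx2
    simp only [Finset.mem_union, List.mem_toFinset, List.mem_cons, List.not_mem_nil,
      or_false] at hx hx2
    rcases hx with ((hx | hx) | hx) | hx | hx
    · -- white
      by_cases hbx : ∀ e ∈ bd N1, e.1 ≠ x
      · exfalso
        obtain ⟨q, hq, hxq⟩ := Finset.mem_biUnion.1 hx
        obtain ⟨l1, l2⟩ := h.link_white hN1 x ⟨q, hq, hxq⟩ hbx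
        rcases hx2 with ((hy | hy) | hy | hy) | hy
        · obtain ⟨q', hq', hxq'⟩ := Finset.mem_biUnion.1 hy
          exact (Finset.mem_sdiff.1 hq').2 (l1 q' (hN2 hq') hxq')
        · exact hcol x (by simp [hwh1 hx]) (by simp [hbl2 hy])
        · subst hy
          exact hbx _ he1 rfl
        · subst hy
          exact hcol x (by simp [hwh1 hx]) (by simp [hzb])
        · rcases mem_pw_or (k := true) hy with hy | hy
          · obtain ⟨e, he, hex⟩ := pw_edge c true x hy (by omega)
            exact l2 e (Finset.mem_union_right _ he) hex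
          · exact hcol x (by simp [hwh1 hx]) (by simp [hy])
      · push Not at hbx
        obtain ⟨e, heb, hex⟩ := hbx
        rcases hmb1 e heb with h1 | h1
        · rw [← hex]
          exact pw_mem (mem_pe_vert h1).1
        · rw [h1] at hex
          rw [← hex]
          exact hpf
    · by_cases hbx : ∀ e ∈ bd N1, e.2 ≠ x
      · exfalso
        obtain ⟨q, hq, hxq⟩ := Finset.mem_biUnion.1 hx
        obtain ⟨l1, l2⟩ := h.link_black hN1 x ⟨q, hq, hxq⟩ hbx
        rcases hx2 with ((hy | hy) | hy | hy) | hy
        · exact hcol x (by simp [hwh2 hy]) (by simp [hbl1 hx])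
        · obtain ⟨q', hq', hxq'⟩ := Finset.mem_biUnion.1 hy
          exact (Finset.mem_sdiff.1 hq').2 (l1 q' (hN2 hq') hxq')
        · subst hy
          exact hcol x (by simp [hpw]) (by simp [hbl1 hx])
        · subst hy
          exact hbx _ he1 rfl
        · rcases mem_pw_or (k := true) hy with hy | hy
          · exact hcol x (by simp [hy]) (by simp [hbl1 hx])
          · obtain ⟨e, he, hex⟩ := pb_edge c true x hy (by omega)
            exact l2 e (Finset.mem_union_right _ he) hex
      · push Not at hbx
        obtain ⟨e, heb, hex⟩ := hbx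
        rcases hmb1 e heb with h1 | h1
        · rw [← hex]
          exact pb_mem (mem_pe_vert h1).2
        · rw [h1] at hex
          rw [← hex]
          exact hzf'
    · exact hx
    · rw [hx]
      exact hpf
    · rw [hx]
      exact hzf'
  have key2 : ∀ x ∈ vx [p, z] c (N \ N1), x ∈ vx f [p, z] N1 → x ∈ c := by
    intro x hx hx2
    have hpc : p ∈ c := List.mem_of_head? hcp
    have hzc : z ∈ c := List.mem_of_getLast? hcz
    unfold vx at hx hx2
    simp only [Finset.mem_union, List.mem_toFinset, List.mem_cons, List.not_mem_nil,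
      or_false] at hx hx2
    rcases hx with ((hx | hx) | hx | hx) | hx
    · by_cases hbx : ∀ e ∈ bd (N \ N1), e.1 ≠ x
      · exfalso
        obtain ⟨q, hq, hxq⟩ := Finset.mem_biUnion.1 hx
        obtain ⟨l1, l2⟩ := h.link_white hN2 x ⟨q, hq, hxq⟩ hbx
        rcases hx2 with ((hy | hy) | hy) | hy | hy
        · obtain ⟨q', hq', hxq'⟩ := Finset.mem_biUnion.1 hy
          exact (Finset.mem_sdiff.1 (l1 q' (hN1 hq') hxq')).2 hq'
        · exact hcol x (by simp [hwh2 hx]) (by simp [hbl1 hy])
        · rcases mem_pw_or (k := true) hy with hy | hy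
          · obtain ⟨e, he, hex⟩ := pw_edge f true x hy (by omega)
            exact l2 e (Finset.mem_union_left _ he) hex
          · exact hcol x (by simp [hwh2 hx]) (by simp [hy])
        · subst hy
          exact hbx _ he2 rfl
        · subst hy
          exact hcol x (by simp [hwh2 hx]) (by simp [hzb])
      · push Not at hbx
        obtain ⟨e, heb, hex⟩ := hbx
        rcases hmb2 e heb with h1 | h1
        · rw [← hex]
          exact pw_mem (mem_pe_vert h1).1
        · rw [h1] at hex
          rw [← hex]
          exact hpc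
    · by_cases hbx : ∀ e ∈ bd (N \ N1), e.2 ≠ x
      · exfalso
        obtain ⟨q, hq, hxq⟩ := Finset.mem_biUnion.1 hx
        obtain ⟨l1, l2⟩ := h.link_black hN2 x ⟨q, hq, hxq⟩ hbx
        rcases hx2 with ((hy | hy) | hy) | hy | hy
        · exact hcol x (by simp [hwh1 hy]) (by simp [hbl2 hx])
        · obtain ⟨q', hq', hxq'⟩ := Finset.mem_biUnion.1 hy
          exact (Finset.mem_sdiff.1 (l1 q' (hN1 hq') hxq')).2 hq'
        · rcases mem_pw_or (k := true) hy with hy | hy
          · exact hcol x (by simp [hy]) (by simp [hbl2 hx])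
          · obtain ⟨e, he, hex⟩ := pb_edge f true x hy (by omega)
            exact l2 e (Finset.mem_union_left _ he) hex
        · subst hy
          exact hcol x (by simp [hpw]) (by simp [hbl2 hx])
        · subst hy
          exact hbx _ he2 rfl
      · push Not at hbx
        obtain ⟨e, heb, hex⟩ := hbx
        rcases hmb2 e heb with h1 | h1
        · rw [← hex]
          exact pb_mem (mem_pe_vert h1).2
        · rw [h1] at hex
          rw [← hex]
          exact hzc
    · rw [hx]
      exact hpc
    · rw [hx]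
      exact hzc
    · exact hx
  ext x
  rw [Finset.mem_inter, Finset.mem_insert, Finset.mem_singleton]
  constructor
  · rintro ⟨hx1, hx2⟩
    exact hcom x (key1 x hx1 hx2) (key2 x hx2 hx1)
  · rintro (rfl | rfl)
    · exact ⟨by simp [vx], by simp [vx]⟩
    · exact ⟨by simp [vx], by simp [vx]⟩

theorem Fill.chord_join (hf : 4 ≤ f.length) (hc : 4 ≤ c.length)
    (hp : f.head? = some p) (hz : f.getLast? = some z)
    (h1 : Fill true f [p, z] N1) (h2 : Fill true [p, z] c N2)
    (hv : vx f [p, z] N1 ∩ vx [p, z] c N2 = {p, z}) :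
    Disjoint N1 N2 ∧ Fill true f c (N1 ∪ N2) ∧ (p, z) ∈ EdS (N1 ∪ N2) ∧
      ∀ u ∈ f, u ∈ c → u = p ∨ u = z := by
  classical
  have hnpz : [p, z].Nodup := h1.nc
  have hpz : p ≠ z := by simpa using hnpz
  have hcp : c.head? = some p := by rw [← h2.hd]; rfl
  have hlast : [p, z].getLast? = some z := rfl
  have hcz : c.getLast? = some z := by rw [← h2.lt, hlast]
  have hef : (p, z) ∉ pe true f := ends_not_mem h1.nf hf hp hz
  have hec : (p, z) ∉ pe true c := ends_not_mem h2.nc hc hcp hcz
  have hb1 : bd N1 = symmDiff (pe true f) {(p, z)} := by rw [h1.bnd, pe_pz]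
  have hb2 : bd N2 = symmDiff (pe true c) {(p, z)} := by rw [h2.bnd, pe_pz, symmDiff_comm]
  have he1 : (p, z) ∈ bd N1 := by
    rw [hb1, Finset.mem_symmDiff]
    exact Or.inr ⟨Finset.mem_singleton_self _, hef⟩
  have he2 : (p, z) ∈ bd N2 := by
    rw [hb2, Finset.mem_symmDiff]
    exact Or.inr ⟨Finset.mem_singleton_self _, hec⟩
  have hf1 : pe true f ⊆ EdS N1 := by
    refine fun x hx => bd_sub _ ?_
    rw [hb1, Finset.mem_symmDiff]
    refine Or.inl ⟨hx, fun hh => hef ?_⟩
    rw [Finset.mem_singleton] at hh
    rwa [← hh]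
  have hc2 : pe true c ⊆ EdS N2 := by
    refine fun x hx => bd_sub _ ?_
    rw [hb2, Finset.mem_symmDiff]
    refine Or.inl ⟨hx, fun hh => hec ?_⟩
    rw [Finset.mem_singleton] at hh
    rwa [← hh]
  have hE1 : EdS N1 ∪ pe true f ∪ pe true [p, z] = EdS N1 := by
    rw [pe_pz]
    refine le_antisymm (Finset.union_subset (Finset.union_subset le_rfl hf1) ?_) (fun x hx => ?_)
    · rw [Finset.singleton_subset_iff]
      exact bd_sub _ he1
    · simp [hx]
  have hE2 : EdS N2 ∪ pe true [p, z] ∪ pe true c = EdS N2 := by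
    rw [pe_pz]
    refine le_antisymm (Finset.union_subset (Finset.union_subset le_rfl ?_) hc2) (fun x hx => ?_)
    · rw [Finset.singleton_subset_iff]
      exact bd_sub _ he2
    · simp [hx]
  have ac1 : AC (EdS N1) N1 := by
    have := h1.ac
    rwa [hE1] at this
  have ac2 : AC (EdS N2) N2 := by
    have := h2.ac
    rwa [hE2] at this
  -- colours
  have col1 : ∀ x, x ∈ wh N1 ∪ pw true f ∪ pw true [p, z] →
      x ∉ bl N1 ∪ pb true f ∪ pb true [p, z] :=
    fun x hx hx' => Finset.disjoint_left.1 h1.col hx hx'
  have col2 : ∀ x, x ∈ wh N2 ∪ pw true [p, z] ∪ pw true c →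
      x ∉ bl N2 ∪ pb true [p, z] ∪ pb true c :=
    fun x hx hx' => Finset.disjoint_left.1 h2.col hx hx'
  have pw1 : p ∈ pw true [p, z] := by rw [pw_pz]; simp
  have pb1 : z ∈ pb true [p, z] := by rw [pb_pz]; simp
  have v1w : ∀ x, x ∈ wh N1 ∪ pw true f ∪ pw true [p, z] → x ∈ vx f [p, z] N1 := by
    intro x hx
    rw [Finset.mem_union, Finset.mem_union] at hx
    unfold vx
    simp only [Finset.mem_union, List.mem_toFinset]
    rcases hx with (hx | hx) | hx
    · exact Or.inl (Or.inl (Or.inl hx))
    · exact Or.inl (Or.inr (pw_mem hx))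
    · exact Or.inr (pw_mem hx)
  have v1b : ∀ x, x ∈ bl N1 ∪ pb true f ∪ pb true [p, z] → x ∈ vx f [p, z] N1 := by
    intro x hx
    rw [Finset.mem_union, Finset.mem_union] at hx
    unfold vx
    simp only [Finset.mem_union, List.mem_toFinset]
    rcases hx with (hx | hx) | hx
    · exact Or.inl (Or.inl (Or.inr hx))
    · exact Or.inl (Or.inr (pb_mem hx))
    · exact Or.inr (pb_mem hx)
  have v2w : ∀ x, x ∈ wh N2 ∪ pw true [p, z] ∪ pw true c → x ∈ vx [p, z] c N2 := by
    intro x hx
    rw [Finset.mem_union, Finset.mem_union] at hx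
    unfold vx
    simp only [Finset.mem_union, List.mem_toFinset]
    rcases hx with (hx | hx) | hx
    · exact Or.inl (Or.inl (Or.inl hx))
    · exact Or.inl (Or.inr (pw_mem hx))
    · exact Or.inr (pw_mem hx)
  have v2b : ∀ x, x ∈ bl N2 ∪ pb true [p, z] ∪ pb true c → x ∈ vx [p, z] c N2 := by
    intro x hx
    rw [Finset.mem_union, Finset.mem_union] at hx
    unfold vx
    simp only [Finset.mem_union, List.mem_toFinset]
    rcases hx with (hx | hx) | hx
    · exact Or.inl (Or.inl (Or.inr hx))
    · exact Or.inl (Or.inr (pb_mem hx))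
    · exact Or.inr (pb_mem hx)
  have hcap : ∀ x, x ∈ vx f [p, z] N1 → x ∈ vx [p, z] c N2 → x = p ∨ x = z := by
    intro x hx hx'
    have : x ∈ vx f [p, z] N1 ∩ vx [p, z] c N2 := Finset.mem_inter.2 ⟨hx, hx'⟩
    rw [hv, Finset.mem_insert, Finset.mem_singleton] at this
    exact this
  have hww : ∀ w, w ∈ wh N1 → w ∈ wh N2 → w = p := by
    intro w hw1 hw2
    rcases hcap w (v1w w (by simp [hw1])) (v2w w (by simp [hw2])) with h | h
    · exact h
    · subst h
      exact absurd (by simp [pb1]) (col1 w (by simp [hw1]))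
  have hbb : ∀ w, w ∈ bl N1 → w ∈ bl N2 → w = z := by
    intro w hw1 hw2
    rcases hcap w (v1b w (by simp [hw1])) (v2b w (by simp [hw2])) with h | h
    · subst h
      exact absurd (show w ∈ bl N1 ∪ pb true f ∪ pb true [w, z] by simp [hw1])
        (col1 w (by simp [pw1]))
    · exact h
  have hint : ∀ x, x ∈ EdS N1 → x ∈ EdS N2 → x = (p, z) := by
    intro x hx hx'
    have a1 := mem_vx_of_EdS hx
    have a2 := mem_vx_of_EdS hx'
    exact Prod.ext (hww _ a1.1 a2.1) (hbb _ a1.2 a2.2)
  have hcom : ∀ u ∈ f, u ∈ c → u = p ∨ u = z := by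
    intro u hu hu'
    exact hcap u (by unfold vx; simp [hu]) (by unfold vx; simp [hu'])
  have hdis : Disjoint N1 N2 := by
    rw [Finset.disjoint_left]
    intro q hq hq'
    have h4 := card_ed (ac1.isq q hq)
    have hle : ed q ⊆ {(p, z)} := by
      intro x hx
      rw [Finset.mem_singleton]
      exact hint x (mem_EdS.2 ⟨q, hq, hx⟩) (mem_EdS.2 ⟨q, hq', hx⟩)
    have := Finset.card_le_card hle
    rw [h4, Finset.card_singleton] at this
    omega
  have hevs : ∀ Z ⊆ ({(p, z)} : Finset Ed), Evn Z → Z = ∅ := by
    intro Z hZ hZe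
    rw [← pe_pz] at hZ
    exact pe_even_sub hnpz hZ hZe
  have hE : EdS (N1 ∪ N2) ∪ pe true f ∪ pe true c = EdS N1 ∪ EdS N2 := by
    rw [EdS_union]
    refine le_antisymm (Finset.union_subset (Finset.union_subset le_rfl ?_) ?_) (fun x hx => ?_)
    · exact hf1.trans Finset.subset_union_left
    · exact hc2.trans Finset.subset_union_right
    · rw [Finset.mem_union, Finset.mem_union]
      exact Or.inl (Or.inl hx)
  have hac : AC (EdS (N1 ∪ N2) ∪ pe true f ∪ pe true c) (N1 ∪ N2) := by
    rw [hE]
    refine ⟨?_, ?_, ?_, ?_, ?_⟩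
    · intro q hq
      rcases Finset.mem_union.1 hq with hq | hq
      · exact ac1.isq q hq
      · exact ac2.isq q hq
    · rw [EdS_union]
    · intro x
      rw [dg_union hdis]
      by_cases hx1 : x ∈ EdS N1
      · by_cases hx2 : x ∈ EdS N2
        · have hx := hint x hx1 hx2
          subst hx
          have a1 := h1.dg_one (e := (p, z)) (by rw [← h1.bnd]; exact he1)
          have a2 := h2.dg_one (e := (p, z)) (by rw [← h2.bnd]; exact he2)
          omega
        · have a2 : dg N2 x = 0 := by
            by_contra hh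
            exact hx2 (dg_pos.1 (Nat.pos_of_ne_zero hh))
          have := ac1.two x
          omega
      · have a1 : dg N1 x = 0 := by
          by_contra hh
          exact hx1 (dg_pos.1 (Nat.pos_of_ne_zero hh))
        have := ac2.two x
        omega
    · intro X hX hbX
      have hXu : X = X ∩ N1 ∪ X ∩ N2 := by
        rw [← Finset.inter_union_distrib_left, Finset.inter_eq_left.2 hX]
      have hXd : Disjoint (X ∩ N1) (X ∩ N2) :=
        Disjoint.mono Finset.inter_subset_right Finset.inter_subset_right hdis
      have hbe : bd (X ∩ N1) = bd (X ∩ N2) := by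
        rw [hXu, bd_union hXd] at hbX
        rwa [← Finset.bot_eq_empty, symmDiff_eq_bot] at hbX
      have hs1 : bd (X ∩ N1) ⊆ {(p, z)} := by
        intro x hx
        rw [Finset.mem_singleton]
        refine hint x (EdS_mono Finset.inter_subset_right (bd_sub _ hx)) ?_
        rw [hbe] at hx
        exact EdS_mono Finset.inter_subset_right (bd_sub _ hx)
      have hb0 : bd (X ∩ N1) = ∅ := hevs _ hs1
        (Evn_bd (fun q hq => ac1.isq q (Finset.mem_inter.1 hq).2))
      have x1 := ac1.inj _ Finset.inter_subset_right hb0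
      have x2 := ac2.inj _ Finset.inter_subset_right (hbe ▸ hb0)
      rw [hXu, x1, x2, Finset.union_empty]
    · intro Z hZ hZe
      -- the part of `Z` in the first complex
      have hpar : ∀ (P : Ed → Prop) [DecidablePred P],
          (∀ x ∈ Z, ∀ y ∈ Z, P x → P y → x ∈ EdS N1 → y ∈ EdS N1) →
          Even (Z.filter P).card → Even ((Z ∩ EdS N1).filter P).card := by
        intro P _ hPP hev
        by_cases hx : ∃ x ∈ Z, P x ∧ x ∈ EdS N1
        · obtain ⟨x, hxZ, hxP, hx1⟩ := hx
          have : (Z ∩ EdS N1).filter P = Z.filter P := by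
            ext y
            simp only [Finset.mem_filter, Finset.mem_inter]
            constructor
            · rintro ⟨⟨a, _⟩, b⟩
              exact ⟨a, b⟩
            · rintro ⟨a, b⟩
              exact ⟨⟨a, hPP x hxZ y a hxP b hx1⟩, b⟩
          rw [this]
          exact hev
        · have : (Z ∩ EdS N1).filter P = ∅ := by
            rw [Finset.filter_eq_empty_iff]
            intro y hy hPy
            rw [Finset.mem_inter] at hy
            exact hx ⟨y, hy.1, hPy, hy.2⟩
          rw [this]
          simp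
      have hcase : Evn (Z ∩ EdS N1) ∨ Evn (symmDiff (Z ∩ EdS N1) {(p, z)}) := by
        refine par_two (fun w hw => hpar _ ?_ (hZe.1 w)) (fun b hb => hpar _ ?_ (hZe.2 b))
        · intro x hxZ y hyZ hxw hyw hx1
          rcases Finset.mem_union.1 (hZ hyZ) with hy | hy
          · exact hy
          · exfalso
            apply hw
            have a1 := (mem_vx_of_EdS hx1).1
            have a2 := (mem_vx_of_EdS hy).1
            rw [hxw] at a1
            rw [hyw] at a2
            exact hww w a1 a2
        · intro x hxZ y hyZ hxw hyw hx1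
          rcases Finset.mem_union.1 (hZ hyZ) with hy | hy
          · exact hy
          · exfalso
            apply hb
            have a1 := (mem_vx_of_EdS hx1).2
            have a2 := (mem_vx_of_EdS hy).2
            rw [hxw] at a1
            rw [hyw] at a2
            exact hbb b a1 a2
      have main : ∀ Z1 : Finset Ed, Z1 ⊆ EdS N1 → Evn Z1 → symmDiff Z Z1 ⊆ EdS N2 →
          ∃ X ⊆ N1 ∪ N2, bd X = Z := by
        intro Z1 hZ1 hZ1e hZ2
        obtain ⟨X1, hX1, hbX1⟩ := ac1.sur Z1 hZ1 hZ1e
        obtain ⟨X2, hX2, hbX2⟩ := ac2.sur _ hZ2 (Evn_symmDiff hZe hZ1e)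
        refine ⟨X1 ∪ X2, Finset.union_subset_union hX1 hX2, ?_⟩
        rw [bd_union (Disjoint.mono hX1 hX2 hdis), hbX1, hbX2]
        ext x
        simp only [Finset.mem_symmDiff]
        tauto
      rcases hcase with hh | hh
      · refine main _ Finset.inter_subset_right hh (fun x hx => ?_)
        rw [Finset.mem_symmDiff, Finset.mem_inter] at hx
        rcases hx with ⟨a, b⟩ | ⟨a, b⟩
        · rcases Finset.mem_union.1 (hZ a) with h | h
          · exact absurd ⟨a, h⟩ b
          · exact h
        · exact absurd a.1 b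
      · refine main _ ?_ hh (fun x hx => ?_)
        · intro x hx
          rw [Finset.mem_symmDiff, Finset.mem_singleton] at hx
          rcases hx with ⟨a, _⟩ | ⟨a, _⟩
          · exact (Finset.mem_inter.1 a).2
          · rw [a]
            exact bd_sub _ he1
        · by_cases hxe : x = (p, z)
          · rw [hxe]
            exact bd_sub _ he2
          · simp only [Finset.mem_symmDiff, Finset.mem_inter, Finset.mem_singleton] at hx
            rcases hx with ⟨a, b⟩ | ⟨a, b⟩
            · rcases Finset.mem_union.1 (hZ a) with h | h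
              · exact absurd (Or.inl ⟨⟨a, h⟩, hxe⟩) b
              · exact h
            · rcases a with ⟨a, _⟩ | ⟨a, _⟩
              · exact absurd a.1 b
              · exact absurd a hxe
  refine ⟨hdis, ?_, ?_, hcom⟩
  · refine ⟨hac, ?_, ?_, h1.nf, h2.nc, h1.fne, by rw [hp, hcp], by rw [hz, hcz],
      h1.par.trans h2.par, ?_⟩
    · rw [bd_union hdis, hb1, hb2]
      ext x
      simp only [Finset.mem_symmDiff]
      tauto
    · refine Finset.disjoint_left.2 (fun x hx _ => hef ?_)
      rw [Finset.mem_inter] at hx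
      rw [← hint x (hf1 hx.1) (hc2 hx.2)]
      exact hx.1
    · refine Finset.disjoint_left.2 (fun x hx hx' => ?_)
      have hwu : x ∈ wh (N1 ∪ N2) → x ∈ wh N1 ∨ x ∈ wh N2 := by
        intro h
        obtain ⟨q, hq, hxq⟩ := Finset.mem_biUnion.1 h
        rcases Finset.mem_union.1 hq with hq | hq
        · exact Or.inl (Finset.mem_biUnion.2 ⟨q, hq, hxq⟩)
        · exact Or.inr (Finset.mem_biUnion.2 ⟨q, hq, hxq⟩)
      have hbu : x ∈ bl (N1 ∪ N2) → x ∈ bl N1 ∨ x ∈ bl N2 := by
        intro h
        obtain ⟨q, hq, hxq⟩ := Finset.mem_biUnion.1 h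
        rcases Finset.mem_union.1 hq with hq | hq
        · exact Or.inl (Finset.mem_biUnion.2 ⟨q, hq, hxq⟩)
        · exact Or.inr (Finset.mem_biUnion.2 ⟨q, hq, hxq⟩)
      have hW : x ∈ wh N1 ∪ pw true f ∪ pw true [p, z] ∨
          x ∈ wh N2 ∪ pw true [p, z] ∪ pw true c := by
        simp only [Finset.mem_union] at hx ⊢
        rcases hx with (hx | hx) | hx
        · rcases hwu hx with h | h
          · exact Or.inl (Or.inl (Or.inl h))
          · exact Or.inr (Or.inl (Or.inl h))
        · exact Or.inl (Or.inl (Or.inr hx))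
        · exact Or.inr (Or.inr hx)
      have hB : x ∈ bl N1 ∪ pb true f ∪ pb true [p, z] ∨
          x ∈ bl N2 ∪ pb true [p, z] ∪ pb true c := by
        simp only [Finset.mem_union] at hx' ⊢
        rcases hx' with (hx' | hx') | hx'
        · rcases hbu hx' with h | h
          · exact Or.inl (Or.inl (Or.inl h))
          · exact Or.inr (Or.inl (Or.inl h))
        · exact Or.inl (Or.inl (Or.inr hx'))
        · exact Or.inr (Or.inr hx')
      rcases hW with hW | hW
      · rcases hB with hB | hB
        · exact col1 x hW hB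
        · rcases hcap x (v1w x hW) (v2b x hB) with h | h
          · subst h
            exact col2 x (by simp [pw1]) hB
          · subst h
            exact col1 x hW (by simp [pb1])
      · rcases hB with hB | hB
        · rcases hcap x (v1b x hB) (v2w x hW) with h | h
          · subst h
            exact col1 x (by simp [pw1]) hB
          · subst h
            exact col2 x hW (by simp [pb1])
        · exact col2 x hW hB
  · rw [EdS_union, Finset.mem_union]
    exact Or.inl (bd_sub _ he1)

end K5M
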