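import Pool.Agent.Lib.K5M.B8
import Pool.Agent.Lib.K5M.B9

/-!
# K5M.C0: definitions for the labelled counting of the recursion

Grades: `(a, b)` = (number of quads without a mark, number of marks).
`FWg x a b k f c L`: weight `x` per inner white vertex, of the marked fillings of grade `(a, b)`.
`sg x κ a b`: its exponential generating function for disks with boundary `2 κ`.
`GF k ℓ c L`: pairs (path `f` with `ℓ` edges from the first to the last vertex of `c`, marked filling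
between `f` and `c`); the label set `L` contains the inner vertices of the filling and the inner
vertices of `f` that are not on `c`.
-/

set_option autoImplicit false

namespace K5M

open Finset
open scoped ENNReal

/-- Marked fillings of grade `(a, b)`. -/
def MFillg (a b : ℕ) (k : Bool) (f c : List ℕ) (L : Finset ℕ) : Set (Finset Quad × Finset ℕ) :=
  {s | s ∈ MFill k f c L ∧ uq s.2 s.1 = a ∧ s.2.card = b}

noncomputable def FWg (x : ℝ≥0∞) (a b : ℕ) (k : Bool) (f c : List ℕ) (L : Finset ℕ) : ℝ≥0∞ :=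
  ∑' s : MFillg a b k f c L, x ^ (wh s.1.1 ∩ L).card

noncomputable def sg (x : ℝ≥0∞) (κ a b : ℕ) : ℝ≥0∞ :=
  ∑' n : ℕ, FWg x a b true [0, 2 * κ - 1] (List.range (2 * κ))
    (Finset.Ico (2 * κ) (2 * κ + n)) / (n.factorial : ℝ≥0∞)

/-- Pairs of a path with `ℓ` edges and a marked filling of grade `(a, b)`. -/
def GF (a b : ℕ) (k : Bool) (ℓ : ℕ) (c : List ℕ) (L : Finset ℕ) :
    Set (List ℕ × (Finset Quad × Finset ℕ)) :=
  {t | t.1.length = ℓ + 1 ∧ Fill k t.1 c t.2.1 ∧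
    inn t.1 c t.2.1 ∪ (t.1.toFinset \ c.toFinset) = L ∧
    Mk (inn t.1 c t.2.1) t.2.2 t.2.1 ∧ uq t.2.2 t.2.1 = a ∧ t.2.2.card = b}

/-- The weight of such a pair: `x` for every white vertex in `L`. -/
noncomputable def GW (x : ℝ≥0∞) (a b : ℕ) (k : Bool) (ℓ : ℕ) (c : List ℕ) (L : Finset ℕ) : ℝ≥0∞ :=
  ∑' t : GF a b k ℓ c L, x ^ ((wh t.1.2.1 ∪ pw k t.1.1) ∩ L).card

/-- The same for the pairs with the chord `(p, z)` (`p`, `z` = ends of `c`) in the filling. -/
noncomputable def GWc (x : ℝ≥0∞) (a b : ℕ) (ℓ : ℕ) (c : List ℕ) (L : Finset ℕ) (p z : ℕ) : ℝ≥0∞ :=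
  ∑' t : {t : GF a b true ℓ c L // (p, z) ∈ EdS t.1.2.1},
    x ^ ((wh t.1.1.2.1 ∪ pw true t.1.1.1) ∩ L).card

/-- ... and without the chord. -/
noncomputable def GWn (x : ℝ≥0∞) (a b : ℕ) (ℓ : ℕ) (c : List ℕ) (L : Finset ℕ) (p z : ℕ) : ℝ≥0∞ :=
  ∑' t : {t : GF a b true ℓ c L // (p, z) ∉ EdS t.1.2.1},
    x ^ ((wh t.1.1.2.1 ∪ pw true t.1.1.1) ∩ L).card

end K5M
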