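import Pool.Agent.Lib.K5M.A5
import Pool.Agent.Lib.K5M.C0

/-!
# K5M.A6: relabelling of the graded weights; normal form of disks

`FWg_map`, `GW_map`, `GWc_map`, `GWn_map`; `FWg_disk`, `FW_disk`: the weight of the fillings of a disk (two
internally disjoint paths) depends only on the length of the boundary and the number of labels.
-/

set_option autoImplicit false

namespace K5M

open Finset
open scoped ENNReal

section Map

variable (s : Equiv.Perm ℕ)

theorem mem_MFillg_rM {a b : ℕ} {k : Bool} {f c : List ℕ} {L : Finset ℕ}
    {t : Finset Quad × Finset ℕ} :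
    rM s t ∈ MFillg a b k (f.map s) (c.map s) (L.image s) ↔ t ∈ MFillg a b k f c L := by
  unfold MFillg
  simp only [Set.mem_ofPred_eq, mem_MFill_rM]
  unfold rM
  simp only [uq_rN, card_im]

theorem FWg_map (x : ℝ≥0∞) (a b : ℕ) (k : Bool) (f c : List ℕ) (L : Finset ℕ) :
    FWg x a b k (f.map s) (c.map s) (L.image s) = FWg x a b k f c L := by
  unfold FWg
  symm
  rw [← Equiv.tsum_eq ((rMe s).subtypeEquiv (fun t => (mem_MFillg_rM s (a := a) (b := b) (k := k)
    (f := f) (c := c) (L := L) (t := t)).symm))]
  apply tsum_congr
  intro t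
  exact congrArg (fun n => x ^ n) (wcard_rM s L t.1).symm

/-- Action on pairs (path, marked filling). -/
def rG : (List ℕ × (Finset Quad × Finset ℕ)) ≃ (List ℕ × (Finset Quad × Finset ℕ)) where
  toFun t := (t.1.map s, rM s t.2)
  invFun t := (t.1.map s.symm, rM s.symm t.2)
  left_inv t := by
    simp only [List.map_map, rM_symm_rM, show s.symm ∘ s = id from by ext; simp, List.map_id]
  right_inv t := by
    simp only [List.map_map, rM_rM_symm, show s ∘ s.symm = id from by ext; simp, List.map_id]

theorem mem_GF_rG {a b : ℕ} {k : Bool} {ℓ : ℕ} {c : List ℕ} {L : Finset ℕ}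
    {t : List ℕ × (Finset Quad × Finset ℕ)} :
    rG s t ∈ GF a b k ℓ (c.map s) (L.image s) ↔ t ∈ GF a b k ℓ c L := by
  unfold GF rG rM
  simp only [Set.mem_ofPred_eq, Equiv.coe_fn_mk, List.length_map, Fill_rN_iff, inn_rN, Mk_rN_iff,
    uq_rN, card_im, toFinset_map, ← Finset.image_sdiff _ _ s.injective, ← Finset.image_union]
  constructor
  · rintro ⟨h1, h2, h3, h4⟩
    exact ⟨h1, h2, Finset.image_injective s.injective h3, h4⟩
  · rintro ⟨h1, h2, h3, h4⟩
    exact ⟨h1, h2, by rw [h3], h4⟩

theorem gcard (k : Bool) (L : Finset ℕ) (t : List ℕ × (Finset Quad × Finset ℕ)) :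
    ((wh (rG s t).2.1 ∪ pw k (rG s t).1) ∩ L.image s).card =
      ((wh t.2.1 ∪ pw k t.1) ∩ L).card := by
  unfold rG rM
  simp only [Equiv.coe_fn_mk]
  rw [wh_rN, pw_map, ← Finset.image_union, ← Finset.image_inter _ _ s.injective, card_im]

theorem GW_map (x : ℝ≥0∞) (a b : ℕ) (k : Bool) (ℓ : ℕ) (c : List ℕ) (L : Finset ℕ) :
    GW x a b k ℓ (c.map s) (L.image s) = GW x a b k ℓ c L := by
  unfold GW
  symm
  rw [← Equiv.tsum_eq ((rG s).subtypeEquiv (fun t => (mem_GF_rG s (a := a) (b := b) (k := k)
    (ℓ := ℓ) (c := c) (L := L) (t := t)).symm))]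
  apply tsum_congr
  intro t
  exact congrArg (fun n => x ^ n) (gcard s k L t.1).symm

theorem mem_EdS_pair {N : Finset Quad} {p z : ℕ} : (s p, s z) ∈ EdS (rN s N) ↔ (p, z) ∈ EdS N :=
  mem_EdS_rN s (e := (p, z))

theorem GWc_map (x : ℝ≥0∞) (a b : ℕ) (ℓ : ℕ) (c : List ℕ) (L : Finset ℕ) (p z : ℕ) :
    GWc x a b ℓ (c.map s) (L.image s) (s p) (s z) = GWc x a b ℓ c L p z := by
  unfold GWc
  symm
  let e : GF a b true ℓ c L ≃ GF a b true ℓ (c.map s) (L.image s) :=
    (rG s).subtypeEquiv (fun t => (mem_GF_rG s).symm)
  rw [← Equiv.tsum_eq (e.subtypeEquiv (p := fun t => (p, z) ∈ EdS t.1.2.1)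
    (q := fun t => (s p, s z) ∈ EdS t.1.2.1) (fun t => (mem_EdS_pair s).symm))]
  apply tsum_congr
  intro t
  exact congrArg (fun n => x ^ n) (gcard s true L t.1.1).symm

theorem GWn_map (x : ℝ≥0∞) (a b : ℕ) (ℓ : ℕ) (c : List ℕ) (L : Finset ℕ) (p z : ℕ) :
    GWn x a b ℓ (c.map s) (L.image s) (s p) (s z) = GWn x a b ℓ c L p z := by
  unfold GWn
  symm
  let e : GF a b true ℓ c L ≃ GF a b true ℓ (c.map s) (L.image s) :=
    (rG s).subtypeEquiv (fun t => (mem_GF_rG s).symm)
  rw [← Equiv.tsum_eq (e.subtypeEquiv (p := fun t => (p, z) ∉ EdS t.1.2.1)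
    (q := fun t => (s p, s z) ∉ EdS t.1.2.1) (fun t => not_congr (mem_EdS_pair s).symm))]
  apply tsum_congr
  intro t
  exact congrArg (fun n => x ^ n) (gcard s true L t.1.1).symm

end Map

/-! ### Disks -/

theorem MFill_disk {k k' : Bool} {f c f' c' : List ℕ} (h : IntD f c) (h' : IntD f' c')
    (he : pe k f ∪ pe k c = pe k' f' ∪ pe k' c')
    (hv : f.toFinset ∪ c.toFinset = f'.toFinset ∪ c'.toFinset) (L : Finset ℕ) :
    MFill k f c L = MFill k' f' c' L := by
  ext t
  unfold MFill inn
  simp only [Set.mem_ofPred_eq, fill_disk k h, fill_disk k' h', he, hv]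

theorem MFillg_disk {a b : ℕ} {k k' : Bool} {f c f' c' : List ℕ} (h : IntD f c) (h' : IntD f' c')
    (he : pe k f ∪ pe k c = pe k' f' ∪ pe k' c')
    (hv : f.toFinset ∪ c.toFinset = f'.toFinset ∪ c'.toFinset) (L : Finset ℕ) :
    MFillg a b k f c L = MFillg a b k' f' c' L := by
  unfold MFillg
  rw [MFill_disk h h' he hv]

/-- The boundary cycle of a disk as a list that starts with a white vertex. -/
theorem exists_cycle (k : Bool) {f c : List ℕ} (h : IntD f c) :
    ∃ (C : List ℕ) (p z : ℕ), C.Nodup ∧ C.length + 2 = f.length + c.length ∧ C.length % 2 = 0 ∧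
      C.head? = some p ∧ C.getLast? = some z ∧ IntD [p, z] C ∧
      pe k f ∪ pe k c = pe true [p, z] ∪ pe true C ∧
      f.toFinset ∪ c.toFinset = [p, z].toFinset ∪ C.toFinset := by
  obtain ⟨p, z, f', c', hf, hc, hnd, hne, hpar⟩ := h.ex
  have hnd' : p ∉ z :: (f' ++ c') ∧ z ∉ f' ++ c' ∧ (f' ++ c').Nodup := by
    rw [List.nodup_cons, List.nodup_cons] at hnd
    exact ⟨hnd.1, hnd.2.1, hnd.2.2⟩
  obtain ⟨hp, hz, hfc⟩ := hnd'
  simp only [List.mem_cons, List.mem_append, not_or] at hp hz
  obtain ⟨hpz, hpf, hpc⟩ := hp
  obtain ⟨hzf, hzc⟩ := hz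
  obtain ⟨hf'n, hc'n, hdis⟩ := List.nodup_append'.mp hfc
  cases k with
  | true =>
    -- `C = p :: (c' ++ z :: f'.reverse)`
    cases f' with
    | nil =>
      refine ⟨c, p, z, ?_, ?_, ?_, ?_, ?_, ?_, ?_, ?_⟩
      · rw [hc]
        simp only [List.nodup_cons, List.mem_append, List.mem_singleton, List.nodup_append',
          List.nodup_nil, List.disjoint_singleton]
        refine ⟨?_, hc'n, ?_, hzc⟩
        · rintro (h1 | h1)
          · exact hpc h1
          · exact hpz h1
        · simp
      · rw [hf]
        simp only [List.nil_append, List.length_cons, List.length_nil]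
        omega
      · rw [hc]
        simp only [List.length_cons, List.length_append, List.length_nil] at hpar ⊢
        omega
      · rw [hc]
        rfl
      · rw [hc]
        exact B1Aux.last_path p z c'
      · rw [hf] at h
        exact h
      · rw [hf]
        rfl
      · rw [hf]
        rfl
    | cons a f'' =>
      have hC : p :: (c' ++ z :: (a :: f'').reverse) =
          p :: ((c' ++ z :: f''.reverse) ++ [a]) := by simp
      have hnodup : (p :: (c' ++ z :: (a :: f'').reverse)).Nodup := by
        rw [List.nodup_cons]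
        constructor
        · simp only [List.mem_append, List.mem_cons, List.mem_reverse, not_or]
          simp only [List.mem_cons, not_or] at hpf
          exact ⟨hpc, hpz, hpf.1, hpf.2⟩
        · rw [List.nodup_append']
          refine ⟨hc'n, ?_, ?_⟩
          · rw [List.nodup_cons, List.mem_reverse, List.nodup_reverse]
            exact ⟨hzf, hf'n⟩
          · intro y hy hy'
            rcases List.mem_cons.mp hy' with h1 | h1
            · exact hzc (h1 ▸ hy)
            · exact hdis (List.mem_reverse.mp h1) hy
      refine ⟨p :: (c' ++ z :: (a :: f'').reverse), p, a, hnodup, ?_, ?_, rfl, ?_, ?_, ?_, ?_⟩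
      · rw [hf, hc]
        simp only [List.length_cons, List.length_append, List.length_nil, List.length_reverse]
        omega
      · simp only [List.length_cons, List.length_append, List.length_reverse] at hpar ⊢
        omega
      · rw [hC]
        exact B1Aux.last_path p a _
      · refine ⟨p, a, [], c' ++ z :: f''.reverse, rfl, hC, ?_, Or.inr (by simp), ?_⟩
        · rw [List.nil_append]
          rw [hC] at hnodup
          rw [List.nodup_cons] at hnodup ⊢
          rw [List.nodup_append'] at hnodup
          obtain ⟨h1, h2, h3, h4⟩ := hnodup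
          refine ⟨?_, ?_⟩
          · simp only [List.mem_append, List.mem_cons, not_or] at h1 ⊢
            exact ⟨h1.2.1, h1.1⟩
          · rw [List.nodup_cons]
            refine ⟨fun hh => h4 hh (List.mem_singleton.mpr rfl), h2⟩
        · simp only [List.length_nil, List.length_cons, List.length_append,
            List.length_reverse] at hpar ⊢
          omega
      · have e1 : pe true (p :: (c' ++ z :: (a :: f'').reverse)) =
            pe true c ∪ pe false ((a :: f'') ++ [z]) := by
          have h1 := pe_append true (p :: c') (a :: f'').reverse z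
          rw [List.cons_append] at h1
          rw [h1, hc, List.cons_append]
          congr 1
          have h2 : z :: (a :: f'').reverse = ((a :: f'') ++ [z]).reverse := by
            rw [List.reverse_append]
            rfl
          rw [h2]
          have h3 : kat true (p :: c').length = kat false (((a :: f'') ++ [z]).length + 1) := by
            have h4 : kat true (p :: c').length = kat (!true) c'.length := B1Aux.kat_succ _ _
            rw [h4]
            apply B1Aux.kat_congr
            simp only [List.length_cons, List.length_append, List.length_nil] at hpar ⊢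
            omega
          rw [h3]
          exact pe_reverse false _
        rw [e1, hf]
        have e2 : pe true (p :: (a :: f'' ++ [z])) = insert (p, a) (pe false (a :: f'' ++ [z])) := by
          rw [List.cons_append, pe_cons]
          rfl
        have e3 : pe true [p, a] = {(p, a)} := by
          rw [pe_cons, pe_single]
          rfl
        rw [e2, e3]
        ext e
        simp only [Finset.mem_union, Finset.mem_insert, Finset.mem_singleton]
        tauto
      · rw [hf, hc]
        ext y
        simp only [Finset.mem_union, List.mem_toFinset, List.mem_cons, List.mem_append,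
          List.mem_reverse, List.mem_nil_iff, or_false]
        tauto
  | false =>
    -- `C = c' ++ z :: (f'.reverse ++ [p])`, first vertex `y`
    obtain ⟨y, X, hX⟩ : ∃ y X, c' ++ [z] = y :: X := by
      cases c' with
      | nil => exact ⟨z, [], rfl⟩
      | cons a l => exact ⟨a, l ++ [z], rfl⟩
    have hC : c' ++ z :: (f'.reverse ++ [p]) = y :: ((X ++ f'.reverse) ++ [p]) := by
      have : c' ++ z :: (f'.reverse ++ [p]) = (c' ++ [z]) ++ (f'.reverse ++ [p]) := by simp
      rw [this, hX]
      simp
    have hnodup : (c' ++ z :: (f'.reverse ++ [p])).Nodup := by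
      rw [List.nodup_append']
      refine ⟨hc'n, ?_, ?_⟩
      · rw [List.nodup_cons, List.nodup_append', List.nodup_reverse]
        refine ⟨?_, hf'n, by simp, ?_⟩
        · simp only [List.mem_append, List.mem_reverse, List.mem_singleton, not_or]
          exact ⟨hzf, fun hh => hpz hh.symm⟩
        · rw [List.disjoint_singleton, List.mem_reverse]
          exact hpf
      · intro x hx hx'
        simp only [List.mem_cons, List.mem_append, List.mem_reverse, List.mem_nil_iff,
          or_false] at hx'
        rcases hx' with h1 | h1 | h1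
        · exact hzc (h1 ▸ hx)
        · exact hdis h1 hx
        · exact hpc (h1 ▸ hx)
    have hlen : (X ++ f'.reverse).length = c'.length + f'.length := by
      have := congrArg List.length hX
      simp only [List.length_append, List.length_cons, List.length_nil] at this
      rw [List.length_append, List.length_reverse]
      omega
    refine ⟨c' ++ z :: (f'.reverse ++ [p]), y, p, hnodup, ?_, ?_, ?_, ?_, ?_, ?_, ?_⟩
    · rw [hf, hc]
      simp only [List.length_cons, List.length_append, List.length_nil, List.length_reverse]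
      omega
    · simp only [List.length_cons, List.length_append, List.length_nil, List.length_reverse]
      omega
    · rw [hC]
      rfl
    · rw [hC]
      exact B1Aux.last_path y p _
    · refine ⟨y, p, [], X ++ f'.reverse, rfl, hC, ?_, Or.inr ?_, ?_⟩
      · rw [List.nil_append]
        rw [hC] at hnodup
        rw [List.nodup_cons] at hnodup ⊢
        rw [List.nodup_append'] at hnodup
        obtain ⟨h1, h2, h3, h4⟩ := hnodup
        refine ⟨?_, ?_⟩
        · simp only [List.mem_append, List.mem_cons, not_or] at h1 ⊢
          exact ⟨h1.2.1, h1.1⟩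
        · rw [List.nodup_cons]
          refine ⟨fun hh => h4 hh (List.mem_singleton.mpr rfl), h2⟩
      · intro hh
        rw [hh] at hlen
        rw [List.length_nil] at hlen
        rcases hne with h1 | h1
        · exact h1 (List.length_eq_zero_iff.mp (by omega))
        · exact h1 (List.length_eq_zero_iff.mp (by omega))
      · rw [hlen, List.length_nil]
        omega
    · have e1 : pe true (c' ++ z :: (f'.reverse ++ [p])) =
          pe true (c' ++ [z]) ∪ pe false f := by
        rw [pe_append]
        congr 1
        have h2 : z :: (f'.reverse ++ [p]) = f.reverse := by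
          rw [hf, List.reverse_cons, List.reverse_append]
          rfl
        rw [h2]
        have h3 : kat true c'.length = kat false (f.length + 1) := by
          have h4 : kat false (f.length + 1) = kat (!false) f.length := B1Aux.kat_succ _ _
          rw [h4, hf]
          apply B1Aux.kat_congr
          simp only [List.length_cons, List.length_append, List.length_nil]
          omega
        rw [h3]
        exact pe_reverse false _
      have e2 : pe false c = insert (y, p) (pe true (c' ++ [z])) := by
        rw [hc, hX, pe_cons]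
        rfl
      have e3 : pe true [y, p] = {(y, p)} := by
        rw [pe_cons, pe_single]
        rfl
      rw [e1, e2, e3]
      ext e
      simp only [Finset.mem_union, Finset.mem_insert, Finset.mem_singleton]
      tauto
    · have hy : y ∈ c' ++ [z] := by
        rw [hX]
        exact List.mem_cons_self
      rw [hf, hc]
      ext x
      simp only [Finset.mem_union, List.mem_toFinset, List.mem_cons, List.mem_append,
        List.mem_reverse, List.mem_nil_iff, or_false] at hy ⊢
      constructor
      · rintro ((h1 | h1 | h1) | (h1 | h1 | h1))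
        · exact Or.inl (Or.inr h1)
        · exact Or.inr (Or.inr (Or.inr (Or.inl h1)))
        · exact Or.inr (Or.inr (Or.inl h1))
        · exact Or.inl (Or.inr h1)
        · exact Or.inr (Or.inl h1)
        · exact Or.inr (Or.inr (Or.inl h1))
      · rintro ((h1 | h1) | (h1 | h1 | h1 | h1))
        · rw [h1]
          rcases hy with h2 | h2
          · exact Or.inr (Or.inr (Or.inl h2))
          · exact Or.inr (Or.inr (Or.inr h2))
        · exact Or.inl (Or.inl h1)
        · exact Or.inr (Or.inr (Or.inl h1))
        · exact Or.inl (Or.inr (Or.inr h1))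
        · exact Or.inl (Or.inr (Or.inl h1))
        · exact Or.inl (Or.inl h1)

theorem head_relabel {C : List ℕ} {p z m : ℕ} {s : Equiv.Perm ℕ} (hm : 1 ≤ m)
    (hC : C.map s = List.range (2 * m)) (hp : C.head? = some p) (hz : C.getLast? = some z) :
    s p = 0 ∧ s z = 2 * m - 1 := by
  have h1 : (C.map s).head? = some (s p) := by rw [List.head?_map, hp]; rfl
  have h2 : (C.map s).getLast? = some (s z) := by rw [List.getLast?_map, hz]; rfl
  rw [hC] at h1 h2
  have h3 : 2 * m = (2 * m - 1) + 1 := by omega
  rw [h3, List.range_succ] at h2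
  have h4 : (List.range (2 * m)).head? = some 0 := by
    rw [h3, List.head?_range]
    simp
  rw [h4] at h1
  rw [List.getLast?_concat] at h2
  exact ⟨(Option.some.inj h1).symm, (Option.some.inj h2).symm⟩

theorem FWg_disk (x : ℝ≥0∞) (a b : ℕ) (k : Bool) {f c : List ℕ} (h : IntD f c) {m : ℕ}
    (hm : f.length + c.length = 2 * m + 2) (L : Finset ℕ) (hLf : ∀ y ∈ L, y ∉ f)
    (hLc : ∀ y ∈ L, y ∉ c) :
    FWg x a b k f c L = FWg x a b true [0, 2 * m - 1] (List.range (2 * m))
      (Finset.Ico (2 * m) (2 * m + L.card)) := by
  obtain ⟨C, p, z, hn, hl, h2, hp, hz, hint, he, hv⟩ := exists_cycle k h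
  have hL : ∀ y ∈ L, y ∉ C := by
    intro y hy hyC
    have h3 : y ∈ [p, z].toFinset ∪ C.toFinset :=
      Finset.mem_union_right _ (List.mem_toFinset.mpr hyC)
    rw [← hv] at h3
    rcases Finset.mem_union.mp h3 with h4 | h4
    · exact hLf y hy (List.mem_toFinset.mp h4)
    · exact hLc y hy (List.mem_toFinset.mp h4)
  obtain ⟨s, hs, hsL⟩ := exists_relabel C L hn hL
  have hCl : C.length = 2 * m := by omega
  have hm1 : 1 ≤ m := by
    by_contra hc
    have : C.length = 0 := by omega
    rw [List.length_eq_zero_iff.mp this] at hp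
    simp at hp
  rw [hCl] at hs hsL
  obtain ⟨h5, h6⟩ := head_relabel hm1 hs hp hz
  have h7 : FWg x a b k f c L = FWg x a b true [p, z] C L := by
    unfold FWg
    rw [MFillg_disk h hint he hv L]
  rw [h7, ← FWg_map s, hs, hsL, List.map_cons, List.map_cons, List.map_nil, h5, h6]

theorem FW_disk (x Y T : ℝ≥0∞) (k : Bool) {f c : List ℕ} (h : IntD f c) {m : ℕ}
    (hm : f.length + c.length = 2 * m + 2) (L : Finset ℕ) (hLf : ∀ y ∈ L, y ∉ f)
    (hLc : ∀ y ∈ L, y ∉ c) :
    FW x Y T k f c L = FW x Y T true [0, 2 * m - 1] (List.range (2 * m))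
      (Finset.Ico (2 * m) (2 * m + L.card)) := by
  obtain ⟨C, p, z, hn, hl, h2, hp, hz, hint, he, hv⟩ := exists_cycle k h
  have hL : ∀ y ∈ L, y ∉ C := by
    intro y hy hyC
    have h3 : y ∈ [p, z].toFinset ∪ C.toFinset :=
      Finset.mem_union_right _ (List.mem_toFinset.mpr hyC)
    rw [← hv] at h3
    rcases Finset.mem_union.mp h3 with h4 | h4
    · exact hLf y hy (List.mem_toFinset.mp h4)
    · exact hLc y hy (List.mem_toFinset.mp h4)
  obtain ⟨s, hs, hsL⟩ := exists_relabel C L hn hL
  have hCl : C.length = 2 * m := by omega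
  have hm1 : 1 ≤ m := by
    by_contra hc
    have : C.length = 0 := by omega
    rw [List.length_eq_zero_iff.mp this] at hp
    simp at hp
  rw [hCl] at hs hsL
  obtain ⟨h5, h6⟩ := head_relabel hm1 hs hp hz
  have h7 : FW x Y T k f c L = FW x Y T true [p, z] C L := by
    unfold FW
    rw [MFill_disk h hint he hv L]
  rw [h7, ← FW_map s, hs, hsL, List.map_cons, List.map_cons, List.map_nil, h5, h6]

/-- Relabelling of the path sums: the weight depends on the numbers of vertices only. -/
theorem GW_range (x : ℝ≥0∞) (a b : ℕ) (k : Bool) (ℓ : ℕ) (c : List ℕ) (hc : c.Nodup)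
    (L : Finset ℕ) (hL : ∀ y ∈ L, y ∉ c) :
    GW x a b k ℓ c L = GW x a b k ℓ (List.range c.length)
      (Finset.Ico c.length (c.length + L.card)) := by
  obtain ⟨s, hs, hsL⟩ := exists_relabel c L hc hL
  rw [← GW_map s, hs, hsL]

end K5M
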