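import Pool.Agent.Lib.K5M.A4

/-!
# K5M.B1: the edges of a path, given by the list of its vertices

`pe k l`: edges of the path with vertex list `l`, whose first vertex is white iff `k`.  `pw k l`,
`pb k l`: its white / black vertices.  `kat k n`: colour of the vertex number `n`.

PROOFS.  Everything is by induction on the list.  `pe_append`: induction on `a`.  `pe_disj`: an edge of
`pe k (a ++ [v])` has an end in `a`, an edge of `pe _ (v :: b)` has both ends in `v :: b` (compare labels,
whatever the colours; `Nodup`).  `card_pe`: the new edge contains the first vertex, which is not in the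
tail.  `pe_even_sub`: `Z ⊆ pe k (a :: b :: l)`: the only edge of the path at `a` is the first one (`a` is
not in the tail), so it is not in `Z` (evenness at `a`) and `Z ⊆ pe (!k) (b :: l)`: induction.
`evn_path`: the number of edges of `pe k l` at the vertex `v` (colour `κ`) is congruent to
`[v = first vertex and κ = its colour] + [v = last vertex and κ = its colour]` modulo 2 (induction on
`l`, `Nodup`); two paths with the same ends of the same colours have the same parities.
`conE_paths`: along a path all values agree (`s e.1 = t e.2` for the edges), so all vertices of both paths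
have the value of the common first vertex.
`circ_paths`: `f = p :: f' ++ [z]`, `c = p :: c' ++ [z]`, no common inner vertex, not both of length 2.
`pe k f` and `pe k c` are disjoint (a common edge has both ends in `{p, z}`, so it is the edge `pz`, and
then both paths are `[p, z]`, because the edge `pz` is in `pe k f` only if `f' = []`).  Even: `evn_path`
(the union is the symmetric difference).  Minimal: let `Z' ⊆ pe k f ∪ pe k c` be even.  At an inner
vertex of `f` the union has exactly the two edges of `f`, so `Z'` contains both or none; hence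
`Z' ∩ pe k f` is `∅` or `pe k f`, the same for `c`; if `Z'` is `pe k f` or `pe k c` alone, it is a nonempty
even subset of the edges of a path, contradiction to `pe_even_sub`.
-/

set_option autoImplicit false

namespace K5M

open Finset

/-- The colour of the vertex number `n` of a path whose first vertex has colour `k`. -/
def kat (k : Bool) (n : ℕ) : Bool := if n % 2 = 0 then k else !k

theorem pe_cons (k : Bool) (a b : ℕ) (l : List ℕ) :
    pe k (a :: b :: l) = insert (if k then (a, b) else (b, a)) (pe (!k) (b :: l)) := by
  rw [pe]

theorem pe_nil (k : Bool) : pe k [] = ∅ := by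
  rw [pe]
  intro _ _ _ h
  simp at h

theorem pe_single (k : Bool) (a : ℕ) : pe k [a] = ∅ := by
  rw [pe]
  intro _ _ _ h
  simp at h

namespace B1Aux

theorem kat_zero (k : Bool) : kat k 0 = k := rfl

theorem kat_not (k : Bool) (n : ℕ) : kat (!k) n = !(kat k n) := by
  unfold kat
  split_ifs <;> simp

theorem kat_succ (k : Bool) (n : ℕ) : kat k (n + 1) = kat (!k) n := by
  unfold kat
  by_cases h : n % 2 = 0
  · rw [if_neg (by omega), if_pos h]
  · rw [if_pos (by omega), if_neg h, Bool.not_not]

theorem kat_kat (k : Bool) (m n : ℕ) : kat (kat k m) n = kat k (m + n) := by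
  unfold kat
  by_cases h : m % 2 = 0
  · by_cases h' : n % 2 = 0
    · rw [if_pos h, if_pos h', if_pos (by omega)]
    · rw [if_pos h, if_neg h', if_neg (by omega)]
  · by_cases h' : n % 2 = 0
    · rw [if_neg h, if_pos h', if_neg (by omega)]
    · rw [if_neg h, if_neg h', if_pos (by omega), Bool.not_not]

theorem kat_congr (k : Bool) {m n : ℕ} (h : m % 2 = n % 2) : kat k m = kat k n := by
  unfold kat
  rw [h]

theorem pw_nil (k : Bool) : pw k [] = ∅ := by
  rw [pw]
  intro _ _ h
  simp at h

theorem pw_cons (k : Bool) (a : ℕ) (l : List ℕ) :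
    pw k (a :: l) = if k then insert a (pw (!k) l) else pw (!k) l := by
  rw [pw]

theorem pw_cons_sub (k : Bool) (a : ℕ) (l : List ℕ) : pw (!k) l ⊆ pw k (a :: l) := by
  rw [pw_cons]
  split_ifs
  · exact Finset.subset_insert _ _
  · exact Finset.Subset.refl _

theorem pb_eq (k : Bool) (l : List ℕ) : pb k l = pw (!k) l := rfl

end B1Aux

open B1Aux

theorem pw_append (k : Bool) (a b : List ℕ) :
    pw k (a ++ b) = pw k a ∪ pw (kat k a.length) b := by
  induction a generalizing k with
  | nil => rw [List.nil_append, pw_nil, Finset.empty_union, List.length_nil, kat_zero]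
  | cons x a ih =>
    rw [List.cons_append, pw_cons, pw_cons, ih, List.length_cons, kat_succ]
    split_ifs
    · rw [Finset.insert_union]
    · rfl

theorem pb_append (k : Bool) (a b : List ℕ) :
    pb k (a ++ b) = pb k a ∪ pb (kat k a.length) b := by
  rw [pb_eq, pb_eq, pb_eq, pw_append, kat_not]

theorem pw_union_pb (k : Bool) (l : List ℕ) : pw k l ∪ pb k l = l.toFinset := by
  induction l generalizing k with
  | nil => rw [pb_eq, pw_nil, pw_nil]; rfl
  | cons x l ih =>
    have h := ih (!k)
    rw [pb_eq] at h ⊢
    rw [pw_cons, pw_cons, List.toFinset_cons, ← h]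
    cases k
    · simp only [Bool.not_false, Bool.not_true, Bool.false_eq_true, if_false, if_true]
      rw [Finset.union_insert]
    · simp only [Bool.not_false, Bool.not_true, Bool.false_eq_true, if_false, if_true]
      rw [Finset.insert_union]

theorem pw_disj_pb {k : Bool} {l : List ℕ} (h : l.Nodup) : Disjoint (pw k l) (pb k l) := by
  induction l generalizing k with
  | nil => rw [pw_nil]; exact Finset.disjoint_empty_left _
  | cons x l ih =>
    obtain ⟨hx, hl⟩ := List.nodup_cons.1 h
    have h1 := ih hl (k := !k)
    have hx1 : ∀ κ, x ∉ pw κ l := by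
      intro κ hm
      apply hx
      have h2 : x ∈ pw κ l ∪ pb κ l := Finset.mem_union_left _ hm
      rw [pw_union_pb] at h2
      exact List.mem_toFinset.1 h2
    rw [pb_eq] at h1 ⊢
    rw [pw_cons, pw_cons]
    cases k
    · simp only [Bool.not_false, Bool.not_true, Bool.false_eq_true, if_false, if_true] at h1 ⊢
      exact Finset.disjoint_insert_right.2 ⟨hx1 _, h1⟩
    · simp only [Bool.not_false, Bool.not_true, Bool.false_eq_true, if_false, if_true] at h1 ⊢
      exact Finset.disjoint_insert_left.2 ⟨hx1 _, h1⟩

theorem mem_pe_vert {k : Bool} {l : List ℕ} {e : Ed} (h : e ∈ pe k l) :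
    e.1 ∈ pw k l ∧ e.2 ∈ pb k l := by
  induction l generalizing k with
  | nil => rw [pe_nil] at h; exact absurd h (Finset.notMem_empty _)
  | cons a l ih =>
    cases l with
    | nil => rw [pe_single] at h; exact absurd h (Finset.notMem_empty _)
    | cons b l =>
      rw [pe_cons] at h
      rcases Finset.mem_insert.1 h with h | h
      · rw [h, pb_eq, pw_cons, pw_cons, pw_cons, pw_cons]
        cases k <;> simp
      · obtain ⟨h1, h2⟩ := ih h
        refine ⟨pw_cons_sub _ _ _ h1, ?_⟩
        rw [pb_eq] at h2 ⊢
        exact pw_cons_sub _ _ _ h2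

theorem pe_append (k : Bool) (a b : List ℕ) (v : ℕ) :
    pe k (a ++ v :: b) = pe k (a ++ [v]) ∪ pe (kat k a.length) (v :: b) := by
  induction a generalizing k with
  | nil => rw [List.nil_append, List.nil_append, pe_single, Finset.empty_union, List.length_nil, kat_zero]
  | cons x a ih =>
    cases a with
    | nil =>
      show pe k (x :: v :: b) = pe k (x :: v :: []) ∪ pe (kat k 1) (v :: b)
      rw [pe_cons, pe_cons, pe_single, Finset.insert_union, Finset.empty_union]
      congr 2
    | cons y a =>
      have h := ih (!k)
      show pe k (x :: y :: (a ++ v :: b)) = pe k (x :: y :: (a ++ [v])) ∪ pe (kat k (y :: a).length.succ) (v :: b)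
      rw [pe_cons, pe_cons, Finset.insert_union, Nat.succ_eq_add_one, kat_succ]
      congr 1

namespace B1Aux

theorem mem_pe {k : Bool} {a b : ℕ} {l : List ℕ} {e : Ed} :
    e ∈ pe k (a :: b :: l) ↔ e = (if k then (a, b) else (b, a)) ∨ e ∈ pe (!k) (b :: l) := by
  rw [pe_cons, Finset.mem_insert]

theorem ends_mem {k : Bool} {l : List ℕ} {e : Ed} (h : e ∈ pe k l) : e.1 ∈ l ∧ e.2 ∈ l := by
  obtain ⟨h1, h2⟩ := mem_pe_vert h
  constructor
  · rw [← List.mem_toFinset, ← pw_union_pb k]
    exact Finset.mem_union_left _ h1
  · rw [← List.mem_toFinset, ← pw_union_pb k]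
    exact Finset.mem_union_right _ h2

/-- An edge of a path has an end different from the last vertex. -/
theorem end_init {k : Bool} {a : List ℕ} {v : ℕ} {e : Ed} (h : e ∈ pe k (a ++ [v])) : e.1 ∈ a ∨ e.2 ∈ a := by
  induction a generalizing k with
  | nil => rw [List.nil_append, pe_single] at h; exact absurd h (Finset.notMem_empty _)
  | cons x a ih =>
    cases a with
    | nil =>
      have h' : e ∈ pe k (x :: v :: []) := h
      rw [mem_pe, pe_single] at h'
      rcases h' with h' | h'
      · rw [h']
        cases k <;> simp
      · exact absurd h' (Finset.notMem_empty _)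
    | cons y a =>
      have h' : e ∈ pe k (x :: y :: (a ++ [v])) := h
      rw [mem_pe] at h'
      rcases h' with h' | h'
      · rw [h']
        cases k <;> simp
      · rcases ih h' with h2 | h2
        · exact Or.inl (List.mem_cons_of_mem _ h2)
        · exact Or.inr (List.mem_cons_of_mem _ h2)

/-- The end of colour `κ`. -/
def en (κ : Bool) (e : Ed) : ℕ := if κ then e.1 else e.2

theorem evn_iff {Z : Finset Ed} : Evn Z ↔ ∀ κ v, Even (Z.filter (fun e => en κ e = v)).card := by
  constructor
  · rintro ⟨h1, h2⟩ κ v
    cases κ
    · exact h2 v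
    · exact h1 v
  · intro h
    exact ⟨fun w => h true w, fun b => h false b⟩

theorem en_mem {k : Bool} {l : List ℕ} {e : Ed} (h : e ∈ pe k l) (κ : Bool) : en κ e ∈ l := by
  cases κ
  · exact (ends_mem h).2
  · exact (ends_mem h).1

theorem en_first (k : Bool) (a b : ℕ) : en k (if k then (a, b) else (b, a)) = a := by
  cases k <;> rfl

theorem en_second (k : Bool) (a b : ℕ) : en (!k) (if k then (a, b) else (b, a)) = b := by
  cases k <;> rfl

theorem first_not_mem {k : Bool} {a b : ℕ} {l : List ℕ} (h : a ∉ b :: l) :
    (if k then (a, b) else (b, a)) ∉ pe (!k) (b :: l) := by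
  intro hm
  have := en_mem hm k
  rw [en_first] at this
  exact h this

end B1Aux

theorem pe_disj {k : Bool} {a b : List ℕ} {v : ℕ} (h : (a ++ v :: b).Nodup) :
    Disjoint (pe k (a ++ [v])) (pe (kat k a.length) (v :: b)) := by
  rw [Finset.disjoint_left]
  intro e h1 h2
  have h3 := ends_mem h2
  have h4 := (List.nodup_append.1 h).2.2
  rcases end_init h1 with h5 | h5
  · exact h4 _ h5 _ h3.1 rfl
  · exact h4 _ h5 _ h3.2 rfl

theorem card_pe {k : Bool} {l : List ℕ} (h : l.Nodup) : (pe k l).card = l.length - 1 := by
  induction l generalizing k with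
  | nil => rw [pe_nil]; rfl
  | cons a l ih =>
    cases l with
    | nil => rw [pe_single]; rfl
    | cons b l =>
      obtain ⟨ha, hl⟩ := List.nodup_cons.1 h
      rw [pe_cons, Finset.card_insert_of_notMem (first_not_mem ha), ih hl]
      simp

/-- Reversing a path: the new first vertex has the colour of the old last one. -/
theorem pe_reverse (k : Bool) (l : List ℕ) : pe (kat k (l.length + 1)) l.reverse = pe k l := by
  induction l generalizing k with
  | nil => rw [List.reverse_nil, pe_nil, pe_nil]
  | cons a l ih =>
    cases l with
    | nil => rw [List.reverse_singleton, pe_single, pe_single]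
    | cons b l =>
      have h1 : (a :: b :: l).reverse = l.reverse ++ b :: [a] := by simp
      have h2 : (b :: l).reverse = l.reverse ++ [b] := by simp
      have h3 := ih (!k)
      rw [h1, pe_append, ← h2]
      have e1 : kat k ((a :: b :: l).length + 1) = kat (!k) ((b :: l).length + 1) := by
        rw [List.length_cons, kat_succ]
      rw [e1, h3, kat_kat, pe_cons k]
      have e2 : kat (!k) ((b :: l).length + 1 + l.reverse.length) = !k := by
        rw [List.length_reverse, List.length_cons]
        unfold kat
        rw [if_pos (by omega)]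
      rw [e2, pe_cons, pe_single, Finset.union_comm, Finset.insert_union, Finset.empty_union]
      congr 1
      cases k <;> rfl

theorem pe_even_sub {k : Bool} {l : List ℕ} (h : l.Nodup) {Z : Finset Ed} (hZ : Z ⊆ pe k l)
    (he : Evn Z) : Z = ∅ := by
  induction l generalizing k with
  | nil => rw [pe_nil] at hZ; exact Finset.subset_empty.1 hZ
  | cons a l ih =>
    cases l with
    | nil => rw [pe_single] at hZ; exact Finset.subset_empty.1 hZ
    | cons b l =>
      obtain ⟨ha, hl⟩ := List.nodup_cons.1 h
      apply ih (k := !k) hl
      intro e hm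
      rcases mem_pe.1 (hZ hm) with h1 | h1
      · exfalso
        have h2 := evn_iff.1 he k a
        have h3 : Z.filter (fun e => en k e = a) = {e} := by
          ext e'
          rw [Finset.mem_filter, Finset.mem_singleton]
          constructor
          · rintro ⟨h4, h5⟩
            rcases mem_pe.1 (hZ h4) with h6 | h6
            · rw [h6, h1]
            · exact absurd (h5 ▸ en_mem h6 k) ha
          · rintro rfl
            refine ⟨hm, ?_⟩
            rw [h1, en_first]
        rw [h3, Finset.card_singleton] at h2
        exact absurd h2 (by decide)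
      · exact h1

namespace B1Aux

/-- Parity of the number of edges of a path at a vertex. -/
theorem path_count {k : Bool} {l : List ℕ} {a z : ℕ} (h : l.Nodup) (ha : l.head? = some a)
    (hz : l.getLast? = some z) (κ : Bool) (v : ℕ) :
    Even (((pe k l).filter (fun e => en κ e = v)).card + (if v = a ∧ κ = k then 1 else 0) +
      (if v = z ∧ κ = kat k (l.length + 1) then 1 else 0)) := by
  induction l generalizing k a with
  | nil => simp at ha
  | cons x l ih =>
    cases l with
    | nil =>
      simp only [List.head?_cons, Option.some.injEq, List.getLast?_singleton] at ha hz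
      subst ha
      subst hz
      rw [pe_single]
      have e1 : kat k ([x].length + 1) = k := by simp [kat]
      rw [e1]
      split_ifs <;> simp
    | cons y l =>
      obtain ⟨hx, hl⟩ := List.nodup_cons.1 h
      simp only [List.head?_cons, Option.some.injEq] at ha
      subst ha
      have hz' : (y :: l).getLast? = some z := by
        rw [List.getLast?_cons_cons] at hz
        exact hz
      have h1 := ih hl (k := !k) (a := y) rfl hz'
      have e1 : kat k ((x :: y :: l).length + 1) = kat (!k) ((y :: l).length + 1) := by
        rw [List.length_cons, kat_succ]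
      rw [e1, pe_cons, Finset.filter_insert]
      have e2 : (if en κ (if k then (x, y) else (y, x)) = v then
          insert (if k then (x, y) else (y, x)) ((pe (!k) (y :: l)).filter (fun e => en κ e = v))
          else (pe (!k) (y :: l)).filter (fun e => en κ e = v)).card =
          ((pe (!k) (y :: l)).filter (fun e => en κ e = v)).card +
            (if v = x ∧ κ = k then 1 else 0) + (if v = y ∧ κ = !k then 1 else 0) := by
        have hnm : (if k then (x, y) else (y, x)) ∉ (pe (!k) (y :: l)).filter (fun e => en κ e = v) :=
          fun hm => first_not_mem hx (Finset.mem_filter.1 hm).1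
        by_cases hκ : κ = k
        · subst hκ
          have f1 : ¬ (v = y ∧ κ = !κ) := by
            rintro ⟨-, hh⟩
            cases κ <;> simp at hh
          rw [en_first, if_neg f1]
          by_cases hv : x = v
          · have f2 : v = x ∧ κ = κ := ⟨hv.symm, rfl⟩
            rw [if_pos hv, if_pos f2, Finset.card_insert_of_notMem hnm]
          · have f2 : ¬ (v = x ∧ κ = κ) := fun hh => hv hh.1.symm
            rw [if_neg hv, if_neg f2, add_zero, add_zero]
        · have hκ' : κ = !k := by
            revert hκ
            cases κ <;> cases k <;> simp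
          subst hκ'
          have f1 : ¬ (v = x ∧ (!k) = k) := fun hh => hκ hh.2
          rw [en_second, if_neg f1]
          by_cases hv : y = v
          · have f2 : v = y ∧ (!k) = !k := ⟨hv.symm, rfl⟩
            rw [if_pos hv, if_pos f2, Finset.card_insert_of_notMem hnm]
          · have f2 : ¬ (v = y ∧ (!k) = !k) := fun hh => hv hh.1.symm
            rw [if_neg hv, if_neg f2, add_zero, add_zero]
      rw [e2]
      obtain ⟨r, hr⟩ := h1
      refine ⟨r + (if v = x ∧ κ = k then 1 else 0), ?_⟩
      omega

theorem filter_symmDiff_card (A B : Finset Ed) (p : Ed → Prop) [DecidablePred p] :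
    Even ((symmDiff A B).filter p).card ↔ Even ((A.filter p).card + (B.filter p).card) := by
  have e1 : (symmDiff A B).filter p = (A.filter p \ B.filter p) ∪ (B.filter p \ A.filter p) := by
    ext e
    simp only [Finset.mem_filter, Finset.mem_symmDiff, Finset.mem_union, Finset.mem_sdiff]
    tauto
  have hd : Disjoint (A.filter p \ B.filter p) (B.filter p \ A.filter p) := by
    rw [Finset.disjoint_left]
    intro e h1 h2
    exact (Finset.mem_sdiff.1 h2).2 (Finset.mem_sdiff.1 h1).1
  rw [e1, Finset.card_union_of_disjoint hd]
  have h1 := Finset.card_sdiff_add_card_inter (A.filter p) (B.filter p)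
  have h2 := Finset.card_sdiff_add_card_inter (B.filter p) (A.filter p)
  rw [Finset.inter_comm] at h2
  rw [Nat.even_iff, Nat.even_iff]
  omega

end B1Aux

theorem evn_path {k : Bool} {f c : List ℕ} (hf : f.Nodup) (hc : c.Nodup)
    (hd : f.head? = c.head?) (lt : f.getLast? = c.getLast?) (par : f.length % 2 = c.length % 2) :
    Evn (symmDiff (pe k f) (pe k c)) := by
  rw [evn_iff]
  intro κ v
  rw [filter_symmDiff_card]
  cases f with
  | nil =>
    cases c with
    | nil => rw [pe_nil]; simp
    | cons b c => simp at hd
  | cons a f =>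
    cases c with
    | nil => simp at hd
    | cons b c =>
      obtain ⟨z, hz⟩ : ∃ z, (a :: f).getLast? = some z := by
        rw [← Option.isSome_iff_exists, List.getLast?_isSome]
        simp
      have hz' := hz
      rw [lt] at hz'
      have hb : (b :: c).head? = some a := by rw [← hd]; rfl
      have h1 := path_count (k := k) hf rfl hz κ v
      have h2 := path_count (k := k) hc hb hz' κ v
      rw [kat_congr k (m := (b :: c).length + 1) (n := (a :: f).length + 1) (by omega)] at h2
      rw [Nat.even_iff] at h1 h2 ⊢
      omega

theorem conE_paths {k : Bool} {f c : List ℕ} (hd : f.head? = c.head?) :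
    ConE (pe k f ∪ pe k c) := by
  intro s t hst
  have key : ∀ (l : List ℕ) (k : Bool) (a : ℕ), l.head? = some a → (∀ e ∈ pe k l, s e.1 = t e.2) →
      ∀ e ∈ pe k l, s e.1 = if k then s a else t a := by
    intro l
    induction l with
    | nil => intro k a ha; simp at ha
    | cons x l ih =>
      intro k a ha hs e he
      simp only [List.head?_cons, Option.some.injEq] at ha
      subst ha
      cases l with
      | nil => rw [pe_single] at he; exact absurd he (Finset.notMem_empty _)
      | cons y l =>
        have h0 := hs _ (mem_pe.2 (Or.inl rfl))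
        rcases mem_pe.1 he with h1 | h1
        · rw [h1]
          cases k
          · exact h0
          · rfl
        · have h2 := ih (!k) y rfl (fun e' he' => hs e' (mem_pe.2 (Or.inr he'))) e h1
          rw [h2]
          cases k
          · exact h0
          · exact h0.symm
  intro e he e' he'
  cases hf : f.head? with
  | none =>
    have hf' : f = [] := List.head?_eq_none_iff.1 hf
    have hc' : c = [] := List.head?_eq_none_iff.1 (hd ▸ hf)
    rw [hf', hc', pe_nil, Finset.empty_union] at he
    exact absurd he (Finset.notMem_empty _)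
  | some a =>
    have hc : c.head? = some a := hd ▸ hf
    have h1 := key f k a hf fun e he => hst e (Finset.mem_union_left _ he)
    have h2 := key c k a hc fun e he => hst e (Finset.mem_union_right _ he)
    have h3 : ∀ e ∈ pe k f ∪ pe k c, s e.1 = if k then s a else t a := by
      intro e he
      rcases Finset.mem_union.1 he with he | he
      · exact h1 e he
      · exact h2 e he
    rw [h3 e he, h3 e' he']

/-- Two paths with the same ends and no common inner vertex, not both a single edge. -/
structure IntD (f c : List ℕ) : Prop where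
  ex : ∃ (p z : ℕ) (f' c' : List ℕ), f = p :: (f' ++ [z]) ∧ c = p :: (c' ++ [z]) ∧
    (p :: z :: (f' ++ c')).Nodup ∧ (f' ≠ [] ∨ c' ≠ []) ∧ f'.length % 2 = c'.length % 2

namespace B1Aux

theorem last_path (p z : ℕ) (l : List ℕ) : (p :: (l ++ [z])).getLast? = some z := by
  show ((p :: l) ++ [z]).getLast? = some z
  exact List.getLast?_concat

/-- An edge of the path `p, x, …` with the end `p` is the first edge. -/
theorem at_first {k : Bool} {p x : ℕ} {l : List ℕ} (h : p ∉ x :: l) {e : Ed} (he : e ∈ pe k (p :: x :: l))
    {κ : Bool} (hp : en κ e = p) : e = (if k then (p, x) else (x, p)) := by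
  rcases mem_pe.1 he with h1 | h1
  · exact h1
  · exact absurd (hp ▸ en_mem h1 κ) h

/-- The two ends of an edge of a path are different. -/
theorem ends_ne {k : Bool} {l : List ℕ} (h : l.Nodup) {e : Ed} (he : e ∈ pe k l) : e.1 ≠ e.2 := by
  obtain ⟨h1, h2⟩ := mem_pe_vert he
  intro h3
  rw [h3] at h1
  exact Finset.disjoint_left.1 (pw_disj_pb h) h1 h2

/-- The edge joining the ends is not in a path with an inner vertex. -/
theorem no_chord {k : Bool} {p z : ℕ} {l : List ℕ} (hne : l ≠ []) (h : (p :: (l ++ [z])).Nodup) {e : Ed}
    (he : e ∈ pe k (p :: (l ++ [z]))) (h1 : e.1 = p ∨ e.1 = z) (h2 : e.2 = p ∨ e.2 = z) : False := by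
  cases l with
  | nil => exact hne rfl
  | cons x l =>
    have hnd := ends_ne h he
    have he' : e ∈ pe k (p :: x :: (l ++ [z])) := he
    have h' : (p :: x :: (l ++ [z])).Nodup := h
    obtain ⟨hp, hx⟩ := List.nodup_cons.1 h'
    have hxz : x ≠ z := by
      rintro rfl
      exact (List.nodup_cons.1 hx).1 (by simp)
    have hpx : p ≠ x := by
      rintro rfl
      exact hp (by simp)
    have key : ∀ κ, en κ e = p → False := by
      intro κ hκ
      have e1 := at_first hp he' hκ
      rw [e1] at h1 h2
      cases k
      · rcases h1 with h1 | h1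
        · exact hpx h1.symm
        · exact hxz h1
      · rcases h2 with h2 | h2
        · exact hpx h2.symm
        · exact hxz h2
    rcases h1 with h1 | h1
    · exact key true h1
    · rcases h2 with h2 | h2
      · exact key false h2
      · exact hnd (h1.trans h2.symm)

theorem intD_nodup {p z : ℕ} {f' c' : List ℕ} (h : (p :: z :: (f' ++ c')).Nodup) :
    (p :: (f' ++ [z])).Nodup ∧ (p :: (c' ++ [z])).Nodup ∧ (∀ v ∈ f', v ∉ p :: (c' ++ [z])) ∧
      (∀ v ∈ c', v ∉ p :: (f' ++ [z])) := by
  simp only [List.nodup_cons, List.nodup_append, List.mem_cons, List.mem_append, not_or, List.not_mem_nil,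
    List.nodup_nil, or_false] at h ⊢
  obtain ⟨⟨h1, h2, h3⟩, ⟨h4, h5⟩, h6, h7, h8⟩ := h
  refine ⟨⟨⟨h2, h1⟩, h6, ⟨not_false, trivial⟩, ?_⟩, ⟨⟨h3, h1⟩, h7, ⟨not_false, trivial⟩, ?_⟩, ?_, ?_⟩
  · intro a ha b hb hab
    rw [hb] at hab
    exact h4 (hab ▸ ha)
  · intro a ha b hb hab
    rw [hb] at hab
    exact h5 (hab ▸ ha)
  · intro v hv
    refine ⟨fun hh => h2 (hh ▸ hv), fun hh => h8 v hv v hh rfl, fun hh => h4 (hh ▸ hv)⟩
  · intro v hv
    refine ⟨fun hh => h3 (hh ▸ hv), fun hh => h8 v hh v hv rfl, fun hh => h5 (hh ▸ hv)⟩

/-- A set of edges of a path which is even at all inner vertices is empty or everything. -/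
theorem sub_path {z : ℕ} (l : List ℕ) : ∀ (k : Bool) (p : ℕ) (A : Finset Ed), (p :: (l ++ [z])).Nodup →
    A ⊆ pe k (p :: (l ++ [z])) → (∀ κ, ∀ v ∈ l, Even (A.filter (fun e => en κ e = v)).card) →
    A = ∅ ∨ A = pe k (p :: (l ++ [z])) := by
  induction l with
  | nil =>
    intro k p A h hA _
    have e1 : pe k (p :: ([] ++ [z])) = {if k then (p, z) else (z, p)} := by
      show pe k (p :: z :: []) = _
      rw [pe_cons, pe_single]
      rfl
    rw [e1] at hA ⊢
    exact Finset.subset_singleton_iff.1 hA
  | cons x l ih =>
    intro k p A h hA hev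
    have h' : (p :: x :: (l ++ [z])).Nodup := h
    obtain ⟨hp, hx⟩ := List.nodup_cons.1 h'
    have hA' : A ⊆ pe k (p :: x :: (l ++ [z])) := hA
    show A = ∅ ∨ A = pe k (p :: x :: (l ++ [z]))
    set e0 : Ed := if k then (p, x) else (x, p) with he0
    set T : Finset Ed := pe (!k) (x :: (l ++ [z])) with hT
    have hpe : pe k (p :: x :: (l ++ [z])) = insert e0 T := by rw [pe_cons]
    have h0T : e0 ∉ T := first_not_mem hp
    -- the part in the tail
    have hB : A.erase e0 ⊆ T := by
      intro e he
      obtain ⟨h1, h2⟩ := Finset.mem_erase.1 he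
      have h3 := hA' h2
      rw [hpe] at h3
      exact (Finset.mem_insert.1 h3).resolve_left h1
    have hpl : p ∉ l := fun hh => hp (List.mem_cons_of_mem _ (List.mem_append_left _ hh))
    have hxl : x ∉ l := fun hh => (List.nodup_cons.1 hx).1 (List.mem_append_left _ hh)
    have hBev : ∀ κ, ∀ v ∈ l, Even ((A.erase e0).filter (fun e => en κ e = v)).card := by
      intro κ v hv
      have h1 := hev κ v (List.mem_cons_of_mem _ hv)
      have h2 : (A.erase e0).filter (fun e => en κ e = v) = A.filter (fun e => en κ e = v) := by
        ext e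
        simp only [Finset.mem_filter, Finset.mem_erase]
        constructor
        · rintro ⟨⟨-, h3⟩, h4⟩
          exact ⟨h3, h4⟩
        · rintro ⟨h3, h4⟩
          refine ⟨⟨?_, h3⟩, h4⟩
          rintro rfl
          have h5 : en κ e0 = p ∨ en κ e0 = x := by
            rw [he0]
            cases κ <;> cases k <;> simp [en]
          rcases h5 with h5 | h5
          · exact hpl (by rw [← h5, h4]; exact hv)
          · exact hxl (by rw [← h5, h4]; exact hv)
      rw [h2]
      exact h1
    have hx2 := hev (!k) x List.mem_cons_self
    rcases ih (!k) x (A.erase e0) hx hB hBev with h1 | h1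
    · left
      by_cases hm : e0 ∈ A
      · exfalso
        have hAe : A = {e0} := by
          ext e
          rw [Finset.mem_singleton]
          constructor
          · intro he
            by_contra hne
            have : e ∈ A.erase e0 := Finset.mem_erase.2 ⟨hne, he⟩
            rw [h1] at this
            exact Finset.notMem_empty _ this
          · rintro rfl
            exact hm
        rw [hAe, Finset.filter_singleton, he0, en_second, if_pos rfl, Finset.card_singleton] at hx2
        exact absurd hx2 (by decide)
      · rwa [Finset.erase_eq_of_notMem hm] at h1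
    · right
      by_cases hm : e0 ∈ A
      · rw [hpe, hT, ← h1, Finset.insert_erase hm]
      · exfalso
        rw [Finset.erase_eq_of_notMem hm] at h1
        rw [h1] at hx2
        obtain ⟨w, hw⟩ : ∃ w, (x :: (l ++ [z])).getLast? = some w := ⟨z, last_path x z l⟩
        have hwz : w = z := by
          rw [last_path] at hw
          exact (Option.some.inj hw).symm
        have hxz : x ≠ w := by
          rw [hwz]
          rintro rfl
          exact (List.nodup_cons.1 hx).1 (by simp)
        have h2 := path_count (k := !k) hx rfl hw (!k) x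
        rw [if_pos ⟨rfl, rfl⟩, if_neg (fun hh => hxz hh.1), add_zero] at h2
        rw [Nat.even_iff] at h2 hx2
        omega

end B1Aux

theorem disj_paths {k : Bool} {f c : List ℕ} (h : IntD f c) : Disjoint (pe k f) (pe k c) := by
  obtain ⟨p, z, f', c', rfl, rfl, hnd, hne, -⟩ := h.ex
  obtain ⟨nf, nc, h1, h2⟩ := intD_nodup hnd
  rw [Finset.disjoint_left]
  intro e he he'
  have g1 := ends_mem he
  have g2 := ends_mem he'
  have key : ∀ v, v ∈ p :: (f' ++ [z]) → v ∈ p :: (c' ++ [z]) → v = p ∨ v = z := by
    intro v hv hv'
    rcases List.mem_cons.1 hv with hv | hv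
    · exact Or.inl hv
    · rcases List.mem_append.1 hv with hv | hv
      · exact absurd hv' (h1 v hv)
      · exact Or.inr (List.mem_singleton.1 hv)
  rcases hne with hne | hne
  · exact no_chord hne nf he (key _ g1.1 g2.1) (key _ g1.2 g2.2)
  · exact no_chord hne nc he' (key _ g1.1 g2.1) (key _ g1.2 g2.2)

theorem circ_paths {k : Bool} {f c : List ℕ} (h : IntD f c) : Circ (pe k f ∪ pe k c) := by
  have hdj := disj_paths (k := k) h
  obtain ⟨p, z, f', c', rfl, rfl, hnd, hne, hpar⟩ := h.ex
  obtain ⟨nf, nc, h1, h2⟩ := intD_nodup hnd
  have hcf : 0 < (pe k (p :: (f' ++ [z]))).card := by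
    rw [card_pe nf]
    simp
  have hcc : 0 < (pe k (p :: (c' ++ [z]))).card := by
    rw [card_pe nc]
    simp
  refine ⟨?_, ?_, ?_⟩
  · exact (Finset.card_pos.1 hcf).mono Finset.subset_union_left
  · have e1 : pe k (p :: (f' ++ [z])) ∪ pe k (p :: (c' ++ [z])) =
        symmDiff (pe k (p :: (f' ++ [z]))) (pe k (p :: (c' ++ [z]))) := by
      rw [hdj.symmDiff_eq_sup]
      rfl
    rw [e1]
    apply evn_path nf nc rfl
    · rw [last_path, last_path]
    · simp only [List.length_cons, List.length_append, List.length_nil]
      omega
  · intro Z' hZ' hev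
    have hev' := evn_iff.1 hev
    have gf : Z' ∩ pe k (p :: (f' ++ [z])) = ∅ ∨ Z' ∩ pe k (p :: (f' ++ [z])) = pe k (p :: (f' ++ [z])) := by
      refine sub_path f' k p _ nf Finset.inter_subset_right ?_
      intro κ v hv
      have e1 : (Z' ∩ pe k (p :: (f' ++ [z]))).filter (fun e => en κ e = v) = Z'.filter (fun e => en κ e = v) := by
        ext e
        simp only [Finset.mem_filter, Finset.mem_inter]
        constructor
        · rintro ⟨⟨g1, -⟩, g2⟩
          exact ⟨g1, g2⟩
        · rintro ⟨g1, g2⟩
          refine ⟨⟨g1, ?_⟩, g2⟩
          rcases Finset.mem_union.1 (hZ' g1) with g3 | g3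
          · exact g3
          · exact absurd (g2 ▸ en_mem g3 κ) (h1 v hv)
      rw [e1]
      exact hev' κ v
    have gc : Z' ∩ pe k (p :: (c' ++ [z])) = ∅ ∨ Z' ∩ pe k (p :: (c' ++ [z])) = pe k (p :: (c' ++ [z])) := by
      refine sub_path c' k p _ nc Finset.inter_subset_right ?_
      intro κ v hv
      have e1 : (Z' ∩ pe k (p :: (c' ++ [z]))).filter (fun e => en κ e = v) = Z'.filter (fun e => en κ e = v) := by
        ext e
        simp only [Finset.mem_filter, Finset.mem_inter]
        constructor
        · rintro ⟨⟨g1, -⟩, g2⟩
          exact ⟨g1, g2⟩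
        · rintro ⟨g1, g2⟩
          refine ⟨⟨g1, ?_⟩, g2⟩
          rcases Finset.mem_union.1 (hZ' g1) with g3 | g3
          · exact absurd (g2 ▸ en_mem g3 κ) (h2 v hv)
          · exact g3
      rw [e1]
      exact hev' κ v
    have hZ2 : Z' = (Z' ∩ pe k (p :: (f' ++ [z]))) ∪ (Z' ∩ pe k (p :: (c' ++ [z]))) := by
      rw [← Finset.inter_union_distrib_left]
      exact (Finset.inter_eq_left.2 hZ').symm
    rcases gf with gf | gf <;> rcases gc with gc | gc
    · left
      rw [hZ2, gf, gc, Finset.empty_union]
    · exfalso
      rw [gf, gc, Finset.empty_union] at hZ2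
      have g1 := pe_even_sub nc (Z := Z') (by rw [hZ2]) hev
      rw [← hZ2, g1] at hcc
      simp at hcc
    · exfalso
      rw [gf, gc, Finset.union_empty] at hZ2
      have g1 := pe_even_sub nf (Z := Z') (by rw [hZ2]) hev
      rw [← hZ2, g1] at hcf
      simp at hcf
    · right
      rw [gf, gc] at hZ2
      exact hZ2

/-- The edge joining the ends of a path with at least four vertices is not an edge of the path. -/
theorem ends_not_mem {c : List ℕ} {p z : ℕ} (hc : c.Nodup) (h4 : 4 ≤ c.length)
    (hp : c.head? = some p) (hz : c.getLast? = some z) : (p, z) ∉ pe true c := by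
  intro hm
  match c, hc, h4, hp, hz, hm with
  | a :: b :: d :: l, hc, h4, hp, hz, hm =>
    simp only [List.head?_cons, Option.some.injEq] at hp
    subst hp
    obtain ⟨ha, hb⟩ := List.nodup_cons.1 hc
    have h1 := at_first ha hm (κ := true) rfl
    have h2 : z = b := congrArg Prod.snd h1
    have h3 : z ∈ d :: l := by
      have e1 : (a :: b :: d :: l).getLast? = (d :: l).getLast? := by
        rw [List.getLast?_cons_cons, List.getLast?_cons_cons]
      rw [e1] at hz
      exact List.mem_of_getLast? hz
    rw [h2] at h3
    exact (List.nodup_cons.1 hb).1 h3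

end K5M
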