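import Pool.Agent.Lib.K5M.B1

/-!
# K5M.B2: outer edges and the link lemma for fillings

PROOFS.  `h : Fill k f c N`.  `E = EdS N ∪ pe k f ∪ pe k c`.
`outer_eq`: let `e ∈ E`.  If `e` is in exactly one of `pe k f`, `pe k c` it is in `bd N`, so `dg N e` is odd
and at most 2: it is 1.  If it is in both it is not in `EdS N` (`dj`), `dg N e = 0`.  If it is in none, it
is in `EdS N` and not in `bd N`: `dg N e` is positive and even, hence 2.
`conE`: `outer_eq` and `conE_paths`.  `link_*`: A4.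
`color_eq`: a common vertex of the two paths has the same colour on both (field `col`), so the numbers of
the vertices before it have the same parity: `v` is white on the first path iff `kat k f1.length`.
-/

set_option autoImplicit false

namespace K5M

open Finset

/-- All vertices of a filling. -/
def vx (f c : List ℕ) (N : Finset Quad) : Finset ℕ := wh N ∪ bl N ∪ f.toFinset ∪ c.toFinset

variable {k : Bool} {f c : List ℕ} {N : Finset Quad}

namespace B2Aux

theorem one (h : Fill k f c N) {e : Ed} (he : e ∈ symmDiff (pe k f) (pe k c)) : dg N e = 1 := by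
  rw [← h.bnd, mem_bd] at he
  have h2 := h.ac.two e
  obtain ⟨n, hn⟩ := he
  omega

theorem zero (h : Fill k f c N) {e : Ed} (he : e ∈ pe k f ∩ pe k c) : dg N e = 0 := by
  have h1 : e ∉ EdS N := fun h2 => Finset.disjoint_left.mp h.dj he h2
  by_contra h2
  exact h1 (dg_pos.mp (Nat.pos_of_ne_zero h2))

theorem two (h : Fill k f c N) {e : Ed} (he : e ∈ EdS N) (hf : e ∉ pe k f)
    (hc : e ∉ pe k c) : dg N e = 2 := by
  have h1 := dg_pos.mpr he
  have h2 := h.ac.two e
  have h3 : ¬ Odd (dg N e) := by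
    rw [← mem_bd, h.bnd, Finset.mem_symmDiff]
    rintro (h4 | h4)
    · exact hf h4.1
    · exact hc h4.1
  have h4 : dg N e ≠ 1 := by
    intro h5
    rw [h5] at h3
    exact h3 odd_one
  omega

theorem le_one (h : Fill k f c N) {e : Ed} (he : e ∈ pe k f ∪ pe k c) : dg N e ≤ 1 := by
  rw [Finset.mem_union] at he
  by_cases h1 : e ∈ pe k f <;> by_cases h2 : e ∈ pe k c
  · rw [zero h (Finset.mem_inter.mpr ⟨h1, h2⟩)]
    omega
  · rw [one h (Finset.mem_symmDiff.mpr (Or.inl ⟨h1, h2⟩))]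
  · rw [one h (Finset.mem_symmDiff.mpr (Or.inr ⟨h2, h1⟩))]
  · exact absurd he (fun h3 => h3.elim h1 h2)

theorem outer_eq (h : Fill k f c N) :
    outer (EdS N ∪ pe k f ∪ pe k c) N = pe k f ∪ pe k c := by
  unfold outer
  ext e
  rw [Finset.mem_filter]
  constructor
  · rintro ⟨h1, h2⟩
    rw [Finset.mem_union, Finset.mem_union] at h1
    rw [Finset.mem_union]
    by_contra h3
    push Not at h3
    have h4 : e ∈ EdS N := by
      rcases h1 with (h1 | h1) | h1
      · exact h1
      · exact absurd h1 h3.1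
      · exact absurd h1 h3.2
    rw [two h h4 h3.1 h3.2] at h2
    omega
  · intro h1
    refine ⟨?_, le_one h h1⟩
    rw [Finset.union_assoc]
    exact Finset.mem_union_right _ h1

theorem kat_side (k : Bool) (l : List ℕ) (v : ℕ) (l' : List ℕ) :
    (kat k l.length = true → v ∈ pw k (l ++ v :: l')) ∧
    (kat k l.length = false → v ∈ pb k (l ++ v :: l')) := by
  constructor
  · intro h
    rw [pw_append, h]
    refine Finset.mem_union_right _ ?_
    unfold pw
    rw [if_pos rfl]
    exact Finset.mem_insert_self _ _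
  · intro h
    rw [pb_append, h]
    refine Finset.mem_union_right _ ?_
    unfold pb
    unfold pw
    rw [if_pos (by rfl)]
    exact Finset.mem_insert_self _ _

end B2Aux

theorem Fill.outer_eq (h : Fill k f c N) :
    outer (EdS N ∪ pe k f ∪ pe k c) N = pe k f ∪ pe k c := by
  exact B2Aux.outer_eq h

theorem Fill.dg_one (h : Fill k f c N) {e : Ed} (he : e ∈ symmDiff (pe k f) (pe k c)) :
    dg N e = 1 := by
  exact B2Aux.one h he

theorem Fill.dg_zero (h : Fill k f c N) {e : Ed} (he : e ∈ pe k f ∩ pe k c) : dg N e = 0 := by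
  exact B2Aux.zero h he

theorem Fill.dg_two (h : Fill k f c N) {e : Ed} (he : e ∈ EdS N) (hf : e ∉ pe k f)
    (hc : e ∉ pe k c) : dg N e = 2 := by
  exact B2Aux.two h he hf hc

theorem Fill.conE (h : Fill k f c N) : ConE (outer (EdS N ∪ pe k f ∪ pe k c) N) := by
  rw [B2Aux.outer_eq h]
  exact conE_paths h.hd

/-- Link lemma for fillings, white vertex. -/
theorem Fill.link_white (h : Fill k f c N) {X : Finset Quad} (hX : X ⊆ N) (p : ℕ)
    (hp : ∃ q ∈ X, p ∈ q.1) (hb : ∀ e ∈ bd X, e.1 ≠ p) :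
    (∀ q ∈ N, p ∈ q.1 → q ∈ X) ∧ (∀ e ∈ pe k f ∪ pe k c, e.1 ≠ p) := by
  obtain ⟨h1, h2⟩ := K5M.link_white h.ac h.conE hX p hp hb
  refine ⟨h1, fun e he hep => ?_⟩
  have h3 := h2 e (by
    rw [Finset.union_assoc]
    exact Finset.mem_union_right _ he) hep
  have h4 := B2Aux.le_one h he
  omega

/-- Link lemma for fillings, black vertex. -/
theorem Fill.link_black (h : Fill k f c N) {X : Finset Quad} (hX : X ⊆ N) (p : ℕ)
    (hp : ∃ q ∈ X, p ∈ q.2) (hb : ∀ e ∈ bd X, e.2 ≠ p) :
    (∀ q ∈ N, p ∈ q.2 → q ∈ X) ∧ (∀ e ∈ pe k f ∪ pe k c, e.2 ≠ p) := by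
  obtain ⟨h1, h2⟩ := K5M.link_black h.ac h.conE hX p hp hb
  refine ⟨h1, fun e he hep => ?_⟩
  have h3 := h2 e (by
    rw [Finset.union_assoc]
    exact Finset.mem_union_right _ he) hep
  have h4 := B2Aux.le_one h he
  omega

theorem Fill.color_eq {f1 f2 c1 c2 : List ℕ} {v : ℕ}
    (h : Fill k (f1 ++ v :: f2) (c1 ++ v :: c2) N) : f1.length % 2 = c1.length % 2 := by
  have hcol : ∀ x, (x ∈ pw k (f1 ++ v :: f2) ∨ x ∈ pw k (c1 ++ v :: c2)) →
      (x ∈ pb k (f1 ++ v :: f2) ∨ x ∈ pb k (c1 ++ v :: c2)) → False := by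
    intro x h1 h2
    have h3 : x ∈ wh N ∪ pw k (f1 ++ v :: f2) ∪ pw k (c1 ++ v :: c2) := by
      rw [Finset.mem_union, Finset.mem_union]
      exact h1.elim (fun h3 => Or.inl (Or.inr h3)) Or.inr
    have h4 : x ∈ bl N ∪ pb k (f1 ++ v :: f2) ∪ pb k (c1 ++ v :: c2) := by
      rw [Finset.mem_union, Finset.mem_union]
      exact h2.elim (fun h3 => Or.inl (Or.inr h3)) Or.inr
    exact Finset.disjoint_left.mp h.col h3 h4
  have hkat : kat k f1.length = kat k c1.length := by
    cases h1 : kat k f1.length <;> cases h2 : kat k c1.length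
    · rfl
    · exact absurd ((B2Aux.kat_side k f1 v f2).2 h1)
        (fun h3 => hcol v (Or.inr ((B2Aux.kat_side k c1 v c2).1 h2)) (Or.inl h3))
    · exact absurd ((B2Aux.kat_side k f1 v f2).1 h1)
        (fun h3 => hcol v (Or.inl h3) (Or.inr ((B2Aux.kat_side k c1 v c2).2 h2)))
    · rfl
  unfold kat at hkat
  by_cases h1 : f1.length % 2 = 0 <;> by_cases h2 : c1.length % 2 = 0
  · rw [h1, h2]
  · rw [if_pos h1, if_neg h2] at hkat
    cases k <;> simp at hkat
  · rw [if_neg h1, if_pos h2] at hkat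
    cases k <;> simp at hkat
  · omega

/-- An edge of `N` both of whose ends are outer vertices etc.: the ends of an edge of `N` are
vertices. -/
theorem mem_vx_of_EdS {e : Ed} (he : e ∈ EdS N) : e.1 ∈ wh N ∧ e.2 ∈ bl N := by
  obtain ⟨q, hq, heq⟩ := mem_EdS.mp he
  have h1 := mem_ed.mp heq
  exact ⟨Finset.mem_biUnion.mpr ⟨q, hq, h1.1⟩, Finset.mem_biUnion.mpr ⟨q, hq, h1.2⟩⟩

end K5M
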