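import Pool.Agent.Lib.K5M.B2

/-!
# K5M.B3: common vertices of the two paths occur in the same order

STATEMENT.  In a filling `N` between `f` and `c`, if `v` and `u` are common vertices and `v` is before `u`
on `f`, then `v` is before `u` on `c`.

PROOF.  Suppose `f = f1 ++ v :: f2 ++ u :: f3` and `c = c1 ++ u :: c2 ++ v :: c3`.  For a common vertex `x`
let `fx`, `cx` be the edge sets of the parts of `f`, `c` up to `x`; `Z_x = fx Δ cx` is even (`evn_path`,
colours by `color_eq`) and contained in `E`, so `Z_x = bd X_x` with `X_x ⊆ N`.  Let `Y = X_v \ X_u`.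
Claim: `bd Y` = the set `P` of the edges of the part `c[u, v]` of `c` between `u` and `v` that are not edges
of `f`.  Indeed let `e ∈ EdS N`.  If `e` is not an edge of `f` or `c`, then `dg N e = 2` and `e ∉ Z_v, Z_u`:
both quads at `e` are in `X_v` or none, the same for `X_u`, so both are in `Y` or none.  If `e` is in exactly
one of the paths then there is exactly one quad `q` at `e` in `N`, `q ∈ X_v ↔ e ∈ Z_v`, `q ∈ X_u ↔ e ∈ Z_u`,
so `e ∈ bd Y ↔ e ∈ Z_v, e ∉ Z_u`; for an edge of `f` only: `e ∈ f[0, v] ⊆ f[0, u]`: impossible; for an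
edge of `c` only: `e ∈ c[0, v]` and `e ∉ c[0, u]`, i.e. `e ∈ c[u, v]`.  Edges of both paths are in no quad.
So `P = bd Y` is an even subset of the edges of the path `c`: `P = ∅` (`pe_even_sub`), i.e.
`c[u, v] ⊆ pe k f`.  Now `c[u, v] Δ f[v, u]` is even (two paths with the same ends) and contained in
`pe k f`, so it is empty: `c[u, v] = f[v, u]`.  Take an edge `e ∈ c[u, v]` (`u ≠ v`).  It is in `f[v, u]`,
hence not in `f[0, v]` (`pe_disj`), and in `c[0, v]`, so `e ∈ Z_v = bd X_v ⊆ EdS N`.  But it is an edge of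
both paths: contradiction to `dj`.
-/

set_option autoImplicit false

namespace K5M

open Finset

namespace B3Aux

theorem head_pre (a b : List ℕ) (v : ℕ) : (a ++ [v]).head? = (a ++ v :: b).head? := by
  cases a <;> rfl

theorem last_end (a b : List ℕ) (u v : ℕ) : (a ++ u :: (b ++ [v])).getLast? = some v := by
  have : a ++ u :: (b ++ [v]) = (a ++ u :: b) ++ [v] := by simp
  rw [this, List.getLast?_append]
  rfl

theorem last_end' (a : List ℕ) (v : ℕ) : (a ++ [v]).getLast? = some v := by
  rw [List.getLast?_append]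
  rfl

theorem pe_ne (k : Bool) (u v : ℕ) (b : List ℕ) : (pe k (u :: (b ++ [v]))).Nonempty := by
  cases b with
  | nil => exact ⟨_, by rw [List.nil_append, pe_cons]; exact Finset.mem_insert_self _ _⟩
  | cons x l => exact ⟨_, by rw [List.cons_append, pe_cons]; exact Finset.mem_insert_self _ _⟩

theorem dg_eq_card (N : Finset Quad) (e : Ed) : dg N e = (N.filter (fun q => e ∈ ed q)).card := rfl

/-- One quad at `e`: membership of `e` in boundaries of subsets. -/
theorem one_quad {N : Finset Quad} {e : Ed} (h1 : dg N e = 1) : ∃ q ∈ N, ∀ X ⊆ N,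
    (e ∈ bd X ↔ q ∈ X) := by
  obtain ⟨q, hq⟩ := Finset.card_eq_one.1 h1
  have hqm : q ∈ N.filter (fun q => e ∈ ed q) := by rw [hq]; exact Finset.mem_singleton_self q
  have hqm' := Finset.mem_filter.1 hqm
  refine ⟨q, hqm'.1, fun X hX => ?_⟩
  rw [mem_bd]
  have hsub : X.filter (fun q => e ∈ ed q) ⊆ {q} := by
    rw [← hq]; exact Finset.filter_subset_filter _ hX
  constructor
  · intro ho
    by_contra hn
    have hem : X.filter (fun q => e ∈ ed q) = ∅ := by
      rcases Finset.subset_singleton_iff.1 hsub with h | h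
      · exact h
      · exfalso
        have : q ∈ X.filter (fun q => e ∈ ed q) := by rw [h]; exact Finset.mem_singleton_self q
        exact hn (Finset.mem_filter.1 this).1
    rw [dg_eq_card, hem] at ho
    exact absurd ho (by decide)
  · intro hqX
    have : X.filter (fun q => e ∈ ed q) = {q} :=
      Finset.Subset.antisymm hsub (Finset.singleton_subset_iff.2
        (Finset.mem_filter.2 ⟨hqX, hqm'.2⟩))
    rw [dg_eq_card, this]
    exact odd_one

/-- Two quads at `e`: differences of sets whose boundaries do not contain `e`. -/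
theorem two_quads {N : Finset Quad} {e : Ed} (h2 : dg N e = 2) {X Y : Finset Quad} (hX : X ⊆ N)
    (hY : Y ⊆ N) (h1 : e ∉ bd X) (h3 : e ∉ bd Y) : e ∉ bd (X \ Y) := by
  rw [mem_bd, Nat.not_odd_iff_even] at h1 h3 ⊢
  have hXN : dg X e ≤ 2 := h2 ▸ dg_mono hX e
  have hsp : dg (X \ Y) e + dg (X ∩ Y) e = dg X e := by
    rw [← dg_union (Finset.disjoint_sdiff_inter X Y), Finset.sdiff_union_inter]
  obtain ⟨a, ha⟩ := h1
  have ha' : a = 0 ∨ a = 1 := by omega
  rcases ha' with rfl | rfl
  · have : dg (X \ Y) e = 0 := by omega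
    rw [this]; exact Even.zero
  · have hX2 : dg X e = dg N e := by omega
    have hfe : X.filter (fun q => e ∈ ed q) = N.filter (fun q => e ∈ ed q) :=
      Finset.eq_of_subset_of_card_le (Finset.filter_subset_filter _ hX) (le_of_eq hX2.symm)
    have hYe : dg (X ∩ Y) e = dg Y e := by
      rw [dg_eq_card, dg_eq_card]
      congr 1
      ext q
      simp only [Finset.mem_filter, Finset.mem_inter]
      constructor
      · rintro ⟨⟨-, h5⟩, h6⟩
        exact ⟨h5, h6⟩
      · rintro ⟨h5, h6⟩
        have : q ∈ X.filter (fun q => e ∈ ed q) := by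
          rw [hfe]; exact Finset.mem_filter.2 ⟨hY h5, h6⟩
        exact ⟨⟨(Finset.mem_filter.1 this).1, h5⟩, h6⟩
    obtain ⟨b, hb⟩ := h3
    exact ⟨1 - b, by omega⟩

theorem sd4 {A B C D : Finset Ed} (h1 : Disjoint A B) (h2 : Disjoint C D) :
    symmDiff (symmDiff A (C ∪ D)) (symmDiff (A ∪ B) C) = symmDiff B D := by
  ext e
  have h3 : e ∈ A → e ∉ B := fun h => Finset.disjoint_left.1 h1 h
  have h4 : e ∈ C → e ∉ D := fun h => Finset.disjoint_left.1 h2 h
  simp only [Finset.mem_symmDiff, Finset.mem_union]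
  by_cases a1 : e ∈ A <;> by_cases a2 : e ∈ B <;> by_cases a3 : e ∈ C <;> by_cases a4 : e ∈ D <;>
    simp_all

end B3Aux

open B3Aux in
theorem Fill.order {k : Bool} {N : Finset Quad} {f1 f2 f3 c1 c2 c3 : List ℕ} {u v : ℕ}
    (h : Fill k (f1 ++ v :: (f2 ++ u :: f3)) (c1 ++ u :: (c2 ++ v :: c3)) N) : False := by
  classical
  have hF1 := pe_append k f1 (f2 ++ u :: f3) v
  have hFu := pe_append k f1 (f2 ++ [u]) v
  have hF2 := pe_append (kat k f1.length) (v :: f2) f3 u
  have hC1 := pe_append k c1 (c2 ++ v :: c3) u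
  have hCv := pe_append k c1 (c2 ++ [v]) u
  have hC2 := pe_append (kat k c1.length) (u :: c2) c3 v
  have dF := pe_disj (k := k) h.nf
  have dC := pe_disj (k := k) h.nc
  rw [List.cons_append, List.cons_append] at hF2 hC2
  set F := pe k (f1 ++ v :: (f2 ++ u :: f3)) with hFdef
  set C := pe k (c1 ++ u :: (c2 ++ v :: c3)) with hCdef
  set Fv := pe k (f1 ++ [v]) with hFvdef
  set Cu := pe k (c1 ++ [u]) with hCudef
  set Fvu := pe (kat k f1.length) (v :: (f2 ++ [u])) with hFvudef
  set Cuv := pe (kat k c1.length) (u :: (c2 ++ [v])) with hCuvdef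
  have sFvu : Fvu ⊆ pe (kat k f1.length) (v :: (f2 ++ u :: f3)) := by
    rw [hF2]; exact Finset.subset_union_left
  have sCuv : Cuv ⊆ pe (kat k c1.length) (u :: (c2 ++ v :: c3)) := by
    rw [hC2]; exact Finset.subset_union_left
  have FvF : Fv ⊆ F := by rw [hF1]; exact Finset.subset_union_left
  have CuC : Cu ⊆ C := by rw [hC1]; exact Finset.subset_union_left
  have FvuF : Fvu ⊆ F := by rw [hF1]; exact sFvu.trans Finset.subset_union_right
  have CuvC : Cuv ⊆ C := by rw [hC1]; exact sCuv.trans Finset.subset_union_right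
  have dFv : Disjoint Fv Fvu := dF.mono_right sFvu
  have dCu : Disjoint Cu Cuv := dC.mono_right sCuv
  -- parities
  have par1 : f1.length % 2 = (c1 ++ u :: c2).length % 2 := by
    have h' := h
    rw [show c1 ++ u :: (c2 ++ v :: c3) = (c1 ++ u :: c2) ++ v :: c3 by simp] at h'
    exact h'.color_eq
  have par2 : (f1 ++ v :: f2).length % 2 = c1.length % 2 := by
    have h' := h
    rw [show f1 ++ v :: (f2 ++ u :: f3) = (f1 ++ v :: f2) ++ u :: f3 by simp] at h'
    exact h'.color_eq
  -- nodups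
  have nF1 : (f1 ++ [v]).Nodup := h.nf.sublist (List.IsPrefix.sublist ⟨f2 ++ u :: f3, by simp⟩)
  have nF2 : (f1 ++ v :: (f2 ++ [u])).Nodup :=
    h.nf.sublist (List.IsPrefix.sublist ⟨f3, by simp⟩)
  have nC1 : (c1 ++ [u]).Nodup := h.nc.sublist (List.IsPrefix.sublist ⟨c2 ++ v :: c3, by simp⟩)
  have nC2 : (c1 ++ u :: (c2 ++ [v])).Nodup :=
    h.nc.sublist (List.IsPrefix.sublist ⟨c3, by simp⟩)
  have nC3 : (u :: (c2 ++ [v])).Nodup :=
    h.nc.sublist (List.IsInfix.sublist ⟨c1, c3, by simp⟩)
  have eF : ∀ b, (f1 ++ v :: b).head? = (f1 ++ [v]).head? := fun b => (head_pre f1 b v).symm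
  have eC : ∀ b, (c1 ++ u :: b).head? = (c1 ++ [u]).head? := fun b => (head_pre c1 b u).symm
  have hd := h.hd
  rw [eF, eC] at hd
  have evV : Evn (symmDiff Fv (Cu ∪ Cuv)) := by
    rw [← hCv]
    refine evn_path nF1 nC2 ?_ ?_ ?_
    · rw [hd]; exact (eC _).symm
    · rw [last_end', last_end]
    · simp only [List.length_append, List.length_cons, List.length_nil] at par1 ⊢
      omega
  have evU : Evn (symmDiff (Fv ∪ Fvu) Cu) := by
    rw [← hFu]
    refine evn_path nF2 nC1 ?_ ?_ ?_
    · rw [← hd]; exact eF _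
    · rw [last_end', last_end]
    · simp only [List.length_append, List.length_cons, List.length_nil] at par2 ⊢
      omega
  have sE : ∀ Z : Finset Ed, Z ⊆ F ∪ C → Z ⊆ EdS N ∪ F ∪ C := fun Z hZ => hZ.trans (by
    intro e he
    simp only [Finset.mem_union] at he ⊢
    tauto)
  have sV : symmDiff Fv (Cu ∪ Cuv) ⊆ F ∪ C := by
    intro e he
    rcases Finset.mem_symmDiff.1 he with ⟨h1, -⟩ | ⟨h1, -⟩
    · exact Finset.mem_union_left _ (FvF h1)
    · exact Finset.mem_union_right _ (Finset.union_subset CuC CuvC h1)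
  have sU : symmDiff (Fv ∪ Fvu) Cu ⊆ F ∪ C := by
    intro e he
    rcases Finset.mem_symmDiff.1 he with ⟨h1, -⟩ | ⟨h1, -⟩
    · exact Finset.mem_union_left _ (Finset.union_subset FvF FvuF h1)
    · exact Finset.mem_union_right _ (CuC h1)
  obtain ⟨Xv, hXv, bXv⟩ := h.ac.sur _ (sE _ sV) evV
  obtain ⟨Xu, hXu, bXu⟩ := h.ac.sur _ (sE _ sU) evU
  have key : bd (Xv \ Xu) = Cuv \ F := by
    ext e
    by_cases heN : e ∈ EdS N
    · by_cases hf : e ∈ F
      · by_cases hc : e ∈ C
        · exact absurd heN (Finset.disjoint_left.1 h.dj (Finset.mem_inter.2 ⟨hf, hc⟩))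
        · obtain ⟨q, hq, hqX⟩ := one_quad (h.dg_one (e := e)
            (Finset.mem_symmDiff.2 (Or.inl ⟨hf, hc⟩)))
          rw [hqX _ (Finset.sdiff_subset.trans hXv), Finset.mem_sdiff, ← hqX _ hXv, ← hqX _ hXu,
            bXv, bXu]
          have h1 : e ∉ Cu := fun h' => hc (CuC h')
          have h2 : e ∉ Cuv := fun h' => hc (CuvC h')
          simp only [Finset.mem_symmDiff, Finset.mem_union, Finset.mem_sdiff]
          tauto
      · by_cases hc : e ∈ C
        · obtain ⟨q, hq, hqX⟩ := one_quad (h.dg_one (e := e)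
            (Finset.mem_symmDiff.2 (Or.inr ⟨hc, hf⟩)))
          rw [hqX _ (Finset.sdiff_subset.trans hXv), Finset.mem_sdiff, ← hqX _ hXv, ← hqX _ hXu,
            bXv, bXu]
          have h1 : e ∉ Fv := fun h' => hf (FvF h')
          have h2 : e ∉ Fvu := fun h' => hf (FvuF h')
          have h3 : e ∈ Cu → e ∉ Cuv := fun h4 h5 => Finset.disjoint_left.1 dCu h4 h5
          simp only [Finset.mem_symmDiff, Finset.mem_union, Finset.mem_sdiff]
          tauto
        · have h2 := h.dg_two heN hf hc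
          have h3 : e ∉ bd Xv := by
            rw [bXv]; intro h4
            rcases Finset.mem_union.1 (sV h4) with h5 | h5
            · exact hf h5
            · exact hc h5
          have h3' : e ∉ bd Xu := by
            rw [bXu]; intro h4
            rcases Finset.mem_union.1 (sU h4) with h5 | h5
            · exact hf h5
            · exact hc h5
          have h4 := two_quads h2 hXv hXu h3 h3'
          have h5 : e ∉ Cuv := fun h' => hc (CuvC h')
          simp only [Finset.mem_sdiff]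
          tauto
    · have h1 : e ∉ bd (Xv \ Xu) := fun h' =>
        heN (EdS_mono (Finset.sdiff_subset.trans hXv) (bd_sub _ h'))
      have h2 : e ∉ Cuv \ F := by
        intro h'
        have h'' := Finset.mem_sdiff.1 h'
        refine heN (bd_sub N ?_)
        rw [h.bnd]
        exact Finset.mem_symmDiff.2 (Or.inr ⟨CuvC h''.1, h''.2⟩)
      tauto
  have hP : Cuv \ F = ∅ := by
    refine pe_even_sub nC3 (k := kat k c1.length) Finset.sdiff_subset ?_
    rw [← key]
    exact Evn_bd fun q hq => h.ac.isq q (hXv (Finset.mem_sdiff.1 hq).1)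
  have CuvF : Cuv ⊆ F := Finset.sdiff_eq_empty_iff_subset.1 hP
  have hD : symmDiff Fvu Cuv = ∅ := by
    refine pe_even_sub h.nf (k := k) ?_ ?_
    · intro e he
      rcases Finset.mem_symmDiff.1 he with ⟨h1, -⟩ | ⟨h1, -⟩
      · exact FvuF h1
      · exact CuvF h1
    · have h1 := Evn_symmDiff evV evU
      rwa [sd4 dFv dCu] at h1
  have hEq : Fvu = Cuv := symmDiff_eq_bot.1 hD
  obtain ⟨e, he⟩ := pe_ne (kat k c1.length) u v c2
  have heF : e ∈ F := CuvF he
  have heC : e ∈ C := CuvC he
  have hnFv : e ∉ Fv := fun h' => Finset.disjoint_left.1 dFv h' (by rw [hEq]; exact he)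
  have heb : e ∈ bd Xv := by
    rw [bXv]
    exact Finset.mem_symmDiff.2 (Or.inr ⟨Finset.mem_union_right _ he, hnFv⟩)
  exact Finset.disjoint_left.1 h.dj (Finset.mem_inter.2 ⟨heF, heC⟩)
    (EdS_mono hXv (bd_sub _ heb))

end K5M
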