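import Pool.Agent.Lib.K5M.B3

/-!
# K5M.B4: splitting a filling at the first common vertex

STATEMENT.  `f = f1 ++ v :: f2`, `c = c1 ++ v :: c2`, `f1 ≠ []`, and no vertex of `f1` except the first one
is on `c`.  Then `N` is the disjoint union of a filling between the parts up to `v` and a filling between
the parts from `v` on; the two have only the vertex `v` in common.

PROOF.  `Z = pe k (f1 ++ [v]) Δ pe k (c1 ++ [v])` is even, `Z = bd N1` with `N1 ⊆ N`; `N2 = N \ N1`.
Write `fa, fb, ca, cb` for the edge sets of the four parts (`pe_append`, `pe_disj`).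
`bd N2 = (f Δ c) Δ (fa Δ ca) = fb Δ cb`.
(1) `EdS N1 ∩ EdS N2 = ∅`: an edge in both has `dg N1 e = dg N2 e = 1`, `dg N e = 2`, but `e ∈ bd N1 ⊆ f ∪ c`
is outer (`outer_eq`), contradiction.
(2) `fa ∪ ca` is disjoint from `EdS N2`: if `e ∈ fa ∩ EdS N2` then `e ∉ c` (`dj`), so `e ∈ Z = bd N1 ⊆ EdS N1`:
contradiction to (1); similarly for `ca`.  In the same way `fb ∪ cb` is disjoint from `EdS N1` (an edge
of `fb ∩ EdS N1` is not in `c`, so it is in `fb Δ cb = bd N2`).
(3) `AC (EdS N1 ∪ fa ∪ ca) N1` and `AC (EdS N2 ∪ fb ∪ cb) N2` by `AC.restrict` (the intersection with the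
edges of the other part is empty).  All other fields of `Fill` are inherited.
(4) Common vertices.  On the lists: `f1` and `v :: c2` have only ... : a vertex of `f1` on `c` is the first
vertex, which is the first vertex of `c`, in `c1` (`c1 ≠ []`, otherwise `v` would be the first vertex of
`c` and of `f`, but `f1 ≠ []`), not in `v :: c2`; a vertex `u` of `f2` in `c1` contradicts `Fill.order`; `f1`
and `f2`, `c1` and `c2` are disjoint (`Nodup`).  So the lists have only `v` in common (the colours agree
because of `col`).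
Let `p ≠ v` be a vertex of both parts.  Suppose `p` is a vertex of a quad of `N1` (say white).  If no edge
of `bd N1` is at `p`, the link lemma shows that all quads at `p` are in `N1` and no edge of the paths is at
`p`; but `p` is in the second part: either in a quad of `N2` (contradiction) or on one of the lists
`v :: f2`, `v :: c2`, and, being different from `v`, it is on an edge of that path (a list with at least two
elements): contradiction.  So an edge of `bd N1` is at `p` and `p` is on `f1 ++ [v]` or `c1 ++ [v]`.  Hence in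
any case `p` is on one of the first two lists; by symmetry it is on one of the last two lists: `p = v`.
-/

set_option autoImplicit false

namespace K5M

open Finset

namespace B4Aux

lemma pw_left (k : Bool) (a b : List ℕ) : pw k a ⊆ pw k (a ++ b) := by
  rw [pw_append]
  exact subset_union_left

lemma pb_left (k : Bool) (a b : List ℕ) : pb k a ⊆ pb k (a ++ b) := by
  rw [pb_append]
  exact subset_union_left

lemma pw_right (k : Bool) (a b : List ℕ) : pw (kat k a.length) b ⊆ pw k (a ++ b) := by
  rw [pw_append]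
  exact subset_union_right

lemma pb_right (k : Bool) (a b : List ℕ) : pb (kat k a.length) b ⊆ pb k (a ++ b) := by
  rw [pb_append]
  exact subset_union_right

lemma ex_edge (l : List ℕ) : ∀ (k : Bool) (x y a : ℕ),
    (a ∈ pw k (x :: y :: l) → ∃ e ∈ pe k (x :: y :: l), e.1 = a) ∧
    (a ∈ pb k (x :: y :: l) → ∃ e ∈ pe k (x :: y :: l), e.2 = a) := by
  induction l with
  | nil =>
    intro k x y a
    cases k <;> simp [pe, pw, pb, eq_comm]
  | cons z l ih =>
    intro k x y a
    obtain ⟨h1, h2⟩ := ih (!k) y z a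
    have hpe : pe (!k) (y :: z :: l) ⊆ pe k (x :: y :: z :: l) := by
      rw [pe_cons]
      exact subset_insert _ _
    have hx : (if k then (x, y) else (y, x)) ∈ pe k (x :: y :: z :: l) := by
      rw [pe_cons]
      exact mem_insert_self _ _
    constructor
    · intro ha
      by_cases hk : k = true ∧ a = x
      · obtain ⟨rfl, rfl⟩ := hk
        exact ⟨_, hx, rfl⟩
      · have ha' : a ∈ pw (!k) (y :: z :: l) := by
          rw [pw] at ha
          split_ifs at ha with hk'
          · rcases mem_insert.mp ha with e | e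
            · exact absurd ⟨hk', e⟩ hk
            · exact e
          · exact ha
        obtain ⟨e, he, hea⟩ := h1 ha'
        exact ⟨e, hpe he, hea⟩
    · intro ha
      by_cases hk : k = false ∧ a = x
      · obtain ⟨rfl, rfl⟩ := hk
        exact ⟨_, hx, rfl⟩
      · have ha' : a ∈ pb (!k) (y :: z :: l) := by
          rw [pb, pw] at ha
          split_ifs at ha with hk'
          · rcases mem_insert.mp ha with e | e
            · exact absurd ⟨by simpa using hk', e⟩ hk
            · exact e
          · exact ha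
        obtain ⟨e, he, hea⟩ := h2 ha'
        exact ⟨e, hpe he, hea⟩

lemma ex_edge' {l : List ℕ} (hl : 2 ≤ l.length) (k : Bool) (a : ℕ) :
    (a ∈ pw k l → ∃ e ∈ pe k l, e.1 = a) ∧ (a ∈ pb k l → ∃ e ∈ pe k l, e.2 = a) := by
  match l, hl with
  | x :: y :: l, _ => exact ex_edge l k x y a

lemma mem_wh {N : Finset Quad} {p : ℕ} : p ∈ wh N ↔ ∃ q ∈ N, p ∈ q.1 := by
  simp [wh]

lemma mem_bl {N : Finset Quad} {p : ℕ} : p ∈ bl N ↔ ∃ q ∈ N, p ∈ q.2 := by
  simp [bl]

variable {k : Bool} {N : Finset Quad} {f c : List ℕ}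

lemma on_path (h : Fill k f c N) (hf2 : 2 ≤ f.length) (hc2 : 2 ≤ c.length) {N1 N2 : Finset Quad}
    (hN1 : N1 ⊆ N) (hN2 : N2 ⊆ N) (hd : Disjoint N1 N2) {W : Finset ℕ}
    (hW : ∀ e ∈ bd N1, e.1 ∈ W ∧ e.2 ∈ W) {p : ℕ} (hp1 : p ∈ wh N1 ∪ bl N1 ∪ W)
    (hp2 : p ∈ wh N2 ∪ bl N2 ∪ f.toFinset ∪ c.toFinset) : p ∈ W := by
  by_contra hpW
  have hcol := disjoint_left.mp h.col
  have hwN : ∀ x, x ∈ wh N → x ∉ bl N ∧ x ∉ pb k f ∧ x ∉ pb k c := by
    intro x hx
    have h1 := hcol (mem_union_left _ (mem_union_left _ hx))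
    rw [mem_union, mem_union, not_or, not_or] at h1
    exact ⟨h1.1.1, h1.1.2, h1.2⟩
  have hbN : ∀ x, x ∈ bl N → x ∉ wh N ∧ x ∉ pw k f ∧ x ∉ pw k c := by
    intro x hx
    refine ⟨fun h1 => ?_, fun h1 => ?_, fun h1 => ?_⟩
    · exact hcol (mem_union_left _ (mem_union_left _ h1)) (mem_union_left _ (mem_union_left _ hx))
    · exact hcol (mem_union_left _ (mem_union_right _ h1)) (mem_union_left _ (mem_union_left _ hx))
    · exact hcol (mem_union_right _ h1) (mem_union_left _ (mem_union_left _ hx))
  have hsub : ∀ {X : Finset Quad}, X ⊆ N → wh X ⊆ wh N ∧ bl X ⊆ bl N := by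
    intro X hX
    constructor
    · intro x hx
      obtain ⟨q, hq, hxq⟩ := mem_wh.mp hx
      exact mem_wh.mpr ⟨q, hX hq, hxq⟩
    · intro x hx
      obtain ⟨q, hq, hxq⟩ := mem_bl.mp hx
      exact mem_bl.mpr ⟨q, hX hq, hxq⟩
  rcases mem_union.mp hp1 with hp1 | hp1
  · rcases mem_union.mp hp1 with hp1 | hp1
    · -- white
      obtain ⟨hb, hfb, hcb⟩ := hwN p ((hsub hN1).1 hp1)
      obtain ⟨hq, hE⟩ := h.link_white hN1 p (mem_wh.mp hp1)
        (fun e he hep => hpW (hep ▸ (hW e he).1))
      rcases mem_union.mp hp2 with hp2 | hp2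
      · rcases mem_union.mp hp2 with hp2 | hp2
        · rcases mem_union.mp hp2 with hp2 | hp2
          · obtain ⟨q, hqN, hpq⟩ := mem_wh.mp hp2
            exact disjoint_left.mp hd (hq q (hN2 hqN) hpq) hqN
          · exact hb ((hsub hN2).2 hp2)
        · rw [← pw_union_pb k f] at hp2
          rcases mem_union.mp hp2 with hp2 | hp2
          · obtain ⟨e, he, hep⟩ := (ex_edge' hf2 k p).1 hp2
            exact hE e (mem_union_left _ he) hep
          · exact hfb hp2
      · rw [← pw_union_pb k c] at hp2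
        rcases mem_union.mp hp2 with hp2 | hp2
        · obtain ⟨e, he, hep⟩ := (ex_edge' hc2 k p).1 hp2
          exact hE e (mem_union_right _ he) hep
        · exact hcb hp2
    · -- black
      obtain ⟨hb, hfb, hcb⟩ := hbN p ((hsub hN1).2 hp1)
      obtain ⟨hq, hE⟩ := h.link_black hN1 p (mem_bl.mp hp1)
        (fun e he hep => hpW (hep ▸ (hW e he).2))
      rcases mem_union.mp hp2 with hp2 | hp2
      · rcases mem_union.mp hp2 with hp2 | hp2
        · rcases mem_union.mp hp2 with hp2 | hp2
          · exact hb ((hsub hN2).1 hp2)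
          · obtain ⟨q, hqN, hpq⟩ := mem_bl.mp hp2
            exact disjoint_left.mp hd (hq q (hN2 hqN) hpq) hqN
        · rw [← pw_union_pb k f] at hp2
          rcases mem_union.mp hp2 with hp2 | hp2
          · exact hfb hp2
          · obtain ⟨e, he, hep⟩ := (ex_edge' hf2 k p).2 hp2
            exact hE e (mem_union_left _ he) hep
      · rw [← pw_union_pb k c] at hp2
        rcases mem_union.mp hp2 with hp2 | hp2
        · exact hcb hp2
        · obtain ⟨e, he, hep⟩ := (ex_edge' hc2 k p).2 hp2
          exact hE e (mem_union_right _ he) hep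
  · exact hpW hp1

lemma ends_mem {l : List ℕ} {e : Ed} (he : e ∈ pe k l) : e.1 ∈ l.toFinset ∧ e.2 ∈ l.toFinset := by
  obtain ⟨h1, h2⟩ := mem_pe_vert he
  rw [← pw_union_pb k l]
  exact ⟨mem_union_left _ h1, mem_union_right _ h2⟩

lemma symm4 {α : Type*} [DecidableEq α] {a b c d : Finset α} (h1 : Disjoint a b)
    (h2 : Disjoint c d) :
    symmDiff (symmDiff (a ∪ b) (c ∪ d)) (symmDiff a c) = symmDiff b d := by
  ext x
  have e1 : x ∈ a → x ∉ b := fun h => disjoint_left.mp h1 h
  have e2 : x ∈ c → x ∉ d := fun h => disjoint_left.mp h2 h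
  simp only [mem_symmDiff, mem_union]
  tauto

end B4Aux

open B4Aux in
theorem Fill.split {k : Bool} {N : Finset Quad} {f1 f2 c1 c2 : List ℕ} {v : ℕ}
    (h : Fill k (f1 ++ v :: f2) (c1 ++ v :: c2) N) (h1 : f1 ≠ [])
    (hf : ∀ u ∈ f1.tail, u ∉ c1 ++ v :: c2) :
    ∃ N1 N2 : Finset Quad, N = N1 ∪ N2 ∧ Disjoint N1 N2 ∧
      Fill k (f1 ++ [v]) (c1 ++ [v]) N1 ∧ Fill (kat k f1.length) (v :: f2) (v :: c2) N2 ∧
      vx (f1 ++ [v]) (c1 ++ [v]) N1 ∩ vx (v :: f2) (v :: c2) N2 = {v} := by
  classical
  have hnf := h.nf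
  have hnc := h.nc
  obtain ⟨a, f1', rfl⟩ := List.exists_cons_of_ne_nil h1
  -- `c1` is not empty
  have hc1 : ∃ c1', c1 = a :: c1' := by
    have h2 := h.hd
    cases c1 with
    | nil =>
      exfalso
      simp only [List.cons_append, List.head?_cons, List.nil_append, Option.some.injEq] at h2
      subst h2
      simp at hnf
    | cons b c1' =>
      simp only [List.cons_append, List.head?_cons, Option.some.injEq] at h2
      exact ⟨c1', by rw [h2]⟩
  obtain ⟨c1', rfl⟩ := hc1
  set f1 := a :: f1' with hf1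
  set c1 := a :: c1' with hc1
  have hpar := h.color_eq
  have hkat : kat k c1.length = kat k f1.length := by
    rw [kat, kat, hpar]
  set k' := kat k f1.length with hk'
  have hfe : f1 ++ v :: f2 = (f1 ++ [v]) ++ f2 := by simp
  have hce : c1 ++ v :: c2 = (c1 ++ [v]) ++ c2 := by simp
  have hnfa : (f1 ++ [v]).Nodup := by
    rw [hfe] at hnf
    exact (List.nodup_append.mp hnf).1
  have hnca : (c1 ++ [v]).Nodup := by
    rw [hce] at hnc
    exact (List.nodup_append.mp hnc).1
  have hnfb : (v :: f2).Nodup := (List.nodup_append.mp hnf).2.1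
  have hncb : (v :: c2).Nodup := (List.nodup_append.mp hnc).2.1
  have hpf : pe k (f1 ++ v :: f2) = pe k (f1 ++ [v]) ∪ pe k' (v :: f2) := pe_append k f1 f2 v
  have hpc : pe k (c1 ++ v :: c2) = pe k (c1 ++ [v]) ∪ pe k' (v :: c2) := by
    rw [← hkat]
    exact pe_append k c1 c2 v
  have hdf : Disjoint (pe k (f1 ++ [v])) (pe k' (v :: f2)) := pe_disj hnf
  have hdc : Disjoint (pe k (c1 ++ [v])) (pe k' (v :: c2)) := by
    rw [← hkat]
    exact pe_disj hnc
  have hlen : (f1 ++ [v]).length % 2 = (c1 ++ [v]).length % 2 := by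
    rw [List.length_append, List.length_append]
    simp only [List.length_cons, List.length_nil]
    simp only [hf1, hc1, List.length_cons] at hpar ⊢
    omega
  have hhd : (f1 ++ [v]).head? = (c1 ++ [v]).head? := by
    simp [hf1, hc1]
  have hlt : (f1 ++ [v]).getLast? = (c1 ++ [v]).getLast? := by
    simp
  have hZe : Evn (symmDiff (pe k (f1 ++ [v])) (pe k (c1 ++ [v]))) :=
    evn_path hnfa hnca hhd hlt hlen
  have hfaE : pe k (f1 ++ [v]) ⊆ pe k (f1 ++ v :: f2) := by
    rw [hpf]
    exact subset_union_left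
  have hfbE : pe k' (v :: f2) ⊆ pe k (f1 ++ v :: f2) := by
    rw [hpf]
    exact subset_union_right
  have hcaE : pe k (c1 ++ [v]) ⊆ pe k (c1 ++ v :: c2) := by
    rw [hpc]
    exact subset_union_left
  have hcbE : pe k' (v :: c2) ⊆ pe k (c1 ++ v :: c2) := by
    rw [hpc]
    exact subset_union_right
  have hZs : symmDiff (pe k (f1 ++ [v])) (pe k (c1 ++ [v])) ⊆
      EdS N ∪ pe k (f1 ++ v :: f2) ∪ pe k (c1 ++ v :: c2) := by
    intro e he
    rw [mem_symmDiff] at he
    rcases he with ⟨he, -⟩ | ⟨he, -⟩
    · exact mem_union_left _ (mem_union_right _ (hfaE he))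
    · exact mem_union_right _ (hcaE he)
  obtain ⟨N1, hN1, hb1⟩ := h.ac.sur _ hZs hZe
  have hN2 : N \ N1 ⊆ N := sdiff_subset
  have hb2 : bd (N \ N1) = symmDiff (pe k' (v :: f2)) (pe k' (v :: c2)) := by
    rw [bd_sdiff hN1, h.bnd, hb1, hpf, hpc]
    exact symm4 hdf hdc
  have hNu : N = N1 ∪ (N \ N1) := (union_sdiff_of_subset hN1).symm
  -- edges of the paths are in at most one quad
  have hle1 : ∀ e, e ∈ pe k (f1 ++ v :: f2) ∪ pe k (c1 ++ v :: c2) → dg N e ≤ 1 := by
    intro e he
    by_cases h2 : e ∈ symmDiff (pe k (f1 ++ v :: f2)) (pe k (c1 ++ v :: c2))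
    · exact (h.dg_one h2).le
    · have h3 : e ∈ pe k (f1 ++ v :: f2) ∩ pe k (c1 ++ v :: c2) := by
        rw [mem_symmDiff] at h2
        rw [mem_union] at he
        rw [mem_inter]
        tauto
      rw [h.dg_zero h3]
      exact Nat.zero_le 1
  have hdisj : ∀ e, e ∈ EdS N1 → e ∈ EdS (N \ N1) → False := by
    intro e he1 he2
    have h2 := dg_pos.mpr he1
    have h3 := dg_pos.mpr he2
    have h4 := dg_sdiff hN1 e
    have h5 := h.ac.two e
    have h6 : e ∈ bd N1 := by
      rw [mem_bd]
      have : dg N1 e = 1 := by omega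
      rw [this]
      exact odd_one
    have h7 : dg N e ≤ 1 := by
      apply hle1
      rw [hb1, mem_symmDiff] at h6
      rcases h6 with ⟨h6, -⟩ | ⟨h6, -⟩
      · exact mem_union_left _ (hfaE h6)
      · exact mem_union_right _ (hcaE h6)
    omega
  have hdj := disjoint_left.mp h.dj
  have hEN1 : EdS N1 ⊆ EdS N := EdS_mono hN1
  have hEN2 : EdS (N \ N1) ⊆ EdS N := EdS_mono hN2
  have hfa2 : ∀ e ∈ pe k (f1 ++ [v]), e ∉ EdS (N \ N1) := by
    intro e he he2
    have h2 : e ∉ pe k (c1 ++ v :: c2) := fun h3 => hdj (mem_inter.mpr ⟨hfaE he, h3⟩) (hEN2 he2)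
    have h3 : e ∈ bd N1 := by
      rw [hb1, mem_symmDiff]
      exact Or.inl ⟨he, fun h4 => h2 (hcaE h4)⟩
    exact hdisj e (bd_sub _ h3) he2
  have hca2 : ∀ e ∈ pe k (c1 ++ [v]), e ∉ EdS (N \ N1) := by
    intro e he he2
    have h2 : e ∉ pe k (f1 ++ v :: f2) := fun h3 => hdj (mem_inter.mpr ⟨h3, hcaE he⟩) (hEN2 he2)
    have h3 : e ∈ bd N1 := by
      rw [hb1, mem_symmDiff]
      exact Or.inr ⟨he, fun h4 => h2 (hfaE h4)⟩
    exact hdisj e (bd_sub _ h3) he2
  have hfb1 : ∀ e ∈ pe k' (v :: f2), e ∉ EdS N1 := by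
    intro e he he1
    have h2 : e ∉ pe k (c1 ++ v :: c2) := fun h3 => hdj (mem_inter.mpr ⟨hfbE he, h3⟩) (hEN1 he1)
    have h3 : e ∈ bd (N \ N1) := by
      rw [hb2, mem_symmDiff]
      exact Or.inl ⟨he, fun h4 => h2 (hcbE h4)⟩
    exact hdisj e he1 (bd_sub _ h3)
  have hcb1 : ∀ e ∈ pe k' (v :: c2), e ∉ EdS N1 := by
    intro e he he1
    have h2 : e ∉ pe k (f1 ++ v :: f2) := fun h3 => hdj (mem_inter.mpr ⟨h3, hcbE he⟩) (hEN1 he1)
    have h3 : e ∈ bd (N \ N1) := by
      rw [hb2, mem_symmDiff]
      exact Or.inr ⟨he, fun h4 => h2 (hfbE h4)⟩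
    exact hdisj e he1 (bd_sub _ h3)
  have hwsub : ∀ {X : Finset Quad}, X ⊆ N → wh X ⊆ wh N ∧ bl X ⊆ bl N := by
    intro X hX
    constructor
    · intro x hx
      obtain ⟨q, hq, hxq⟩ := mem_wh.mp hx
      exact mem_wh.mpr ⟨q, hX hq, hxq⟩
    · intro x hx
      obtain ⟨q, hq, hxq⟩ := mem_bl.mp hx
      exact mem_bl.mpr ⟨q, hX hq, hxq⟩
  have hpwf : pw k (f1 ++ [v]) ⊆ pw k (f1 ++ v :: f2) := by
    rw [hfe]
    exact pw_left k _ _
  have hpwc : pw k (c1 ++ [v]) ⊆ pw k (c1 ++ v :: c2) := by
    rw [hce]
    exact pw_left k _ _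
  have hpbf : pb k (f1 ++ [v]) ⊆ pb k (f1 ++ v :: f2) := by
    rw [hfe]
    exact pb_left k _ _
  have hpbc : pb k (c1 ++ [v]) ⊆ pb k (c1 ++ v :: c2) := by
    rw [hce]
    exact pb_left k _ _
  have hpwf2 : pw k' (v :: f2) ⊆ pw k (f1 ++ v :: f2) := pw_right k _ _
  have hpbf2 : pb k' (v :: f2) ⊆ pb k (f1 ++ v :: f2) := pb_right k _ _
  have hpwc2 : pw k' (v :: c2) ⊆ pw k (c1 ++ v :: c2) := by
    rw [← hkat]
    exact pw_right k _ _
  have hpbc2 : pb k' (v :: c2) ⊆ pb k (c1 ++ v :: c2) := by
    rw [← hkat]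
    exact pb_right k _ _
  refine ⟨N1, N \ N1, hNu, disjoint_sdiff, ?_, ?_, ?_⟩
  · refine ⟨?_, hb1, ?_, hnfa, hnca, by simp, hhd, hlt, hlen, ?_⟩
    · refine h.ac.restrict hN1 ?_ ?_ ?_
      · exact subset_union_left.trans subset_union_left
      · exact union_subset_union (union_subset_union hEN1 hfaE) hcaE
      · intro Z hZ hZe
        left
        rw [eq_empty_iff_forall_notMem]
        intro e he
        obtain ⟨he1, he2⟩ := mem_inter.mp (hZ he)
        rcases mem_union.mp he1 with he1 | he1
        · rcases mem_union.mp he1 with he1 | he1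
          · exact hdisj e he1 he2
          · exact hfa2 e he1 he2
        · exact hca2 e he1 he2
    · rw [disjoint_left]
      intro e he he1
      obtain ⟨he2, he3⟩ := mem_inter.mp he
      exact hdj (mem_inter.mpr ⟨hfaE he2, hcaE he3⟩) (hEN1 he1)
    · refine disjoint_of_subset_left ?_ (disjoint_of_subset_right ?_ h.col)
      · exact union_subset_union (union_subset_union (hwsub hN1).1 hpwf) hpwc
      · exact union_subset_union (union_subset_union (hwsub hN1).2 hpbf) hpbc
  · have hlt2 : (v :: f2).getLast? = (v :: c2).getLast? := by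
      have h2 := h.lt
      rw [List.getLast?_append_of_ne_nil _ (by simp), List.getLast?_append_of_ne_nil _ (by simp)]
        at h2
      exact h2
    have hlen2 : (v :: f2).length % 2 = (v :: c2).length % 2 := by
      have h2 := h.par
      rw [List.length_append, List.length_append] at h2
      simp only [hf1, hc1, List.length_cons] at hpar h2 ⊢
      omega
    refine ⟨?_, hb2, ?_, hnfb, hncb, by simp, rfl, hlt2, hlen2, ?_⟩
    · have hNN : N \ (N \ N1) = N1 := by
        rw [sdiff_sdiff_right_self, inf_eq_inter, inter_eq_right]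
        exact hN1
      refine h.ac.restrict hN2 ?_ ?_ ?_
      · exact subset_union_left.trans subset_union_left
      · exact union_subset_union (union_subset_union hEN2 hfbE) hcbE
      · intro Z hZ hZe
        left
        rw [eq_empty_iff_forall_notMem]
        intro e he
        obtain ⟨he1, he2⟩ := mem_inter.mp (hZ he)
        rw [hNN] at he2
        rcases mem_union.mp he1 with he1 | he1
        · rcases mem_union.mp he1 with he1 | he1
          · exact hdisj e he2 he1
          · exact hfb1 e he1 he2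
        · exact hcb1 e he1 he2
    · rw [disjoint_left]
      intro e he he1
      obtain ⟨he2, he3⟩ := mem_inter.mp he
      exact hdj (mem_inter.mpr ⟨hfbE he2, hcbE he3⟩) (hEN2 he1)
    · refine disjoint_of_subset_left ?_ (disjoint_of_subset_right ?_ h.col)
      · exact union_subset_union (union_subset_union (hwsub hN2).1 hpwf2) hpwc2
      · exact union_subset_union (union_subset_union (hwsub hN2).2 hpbf2) hpbc2
  · ext p
    rw [mem_singleton, mem_inter]
    constructor
    · rintro ⟨hp1, hp2⟩
      by_contra hpv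
      rw [vx, union_assoc] at hp1 hp2
      have hf2 : 2 ≤ (f1 ++ v :: f2).length := by
        rw [List.length_append]
        simp only [hf1, List.length_cons]
        omega
      have hc2 : 2 ≤ (c1 ++ v :: c2).length := by
        rw [List.length_append]
        simp only [hc1, List.length_cons]
        omega
      have hsubf : (f1 ++ [v]).toFinset ⊆ (f1 ++ v :: f2).toFinset ∧
          (v :: f2).toFinset ⊆ (f1 ++ v :: f2).toFinset := by
        constructor
        · intro x hx
          simp only [List.mem_toFinset, List.mem_append, List.mem_cons, List.not_mem_nil, or_false] at hx ⊢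
          tauto
        · intro x hx
          simp only [List.mem_toFinset, List.mem_append, List.mem_cons] at hx ⊢
          tauto
      have hsubc : (c1 ++ [v]).toFinset ⊆ (c1 ++ v :: c2).toFinset ∧
          (v :: c2).toFinset ⊆ (c1 ++ v :: c2).toFinset := by
        constructor
        · intro x hx
          simp only [List.mem_toFinset, List.mem_append, List.mem_cons, List.not_mem_nil, or_false] at hx ⊢
          tauto
        · intro x hx
          simp only [List.mem_toFinset, List.mem_append, List.mem_cons] at hx ⊢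
          tauto
      have hW1 : p ∈ (f1 ++ [v]).toFinset ∪ (c1 ++ [v]).toFinset := by
        refine on_path h hf2 hc2 hN1 hN2 disjoint_sdiff ?_ hp1 ?_
        · intro e he
          rw [hb1, mem_symmDiff] at he
          rcases he with ⟨he, -⟩ | ⟨he, -⟩
          · exact ⟨mem_union_left _ (ends_mem he).1, mem_union_left _ (ends_mem he).2⟩
          · exact ⟨mem_union_right _ (ends_mem he).1, mem_union_right _ (ends_mem he).2⟩
        · rw [union_assoc]
          exact union_subset_union Subset.rfl (union_subset_union hsubf.2 hsubc.2) hp2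
      have hW2 : p ∈ (v :: f2).toFinset ∪ (v :: c2).toFinset := by
        refine on_path h hf2 hc2 hN2 hN1 sdiff_disjoint ?_ hp2 ?_
        · intro e he
          rw [hb2, mem_symmDiff] at he
          rcases he with ⟨he, -⟩ | ⟨he, -⟩
          · exact ⟨mem_union_left _ (ends_mem he).1, mem_union_left _ (ends_mem he).2⟩
          · exact ⟨mem_union_right _ (ends_mem he).1, mem_union_right _ (ends_mem he).2⟩
        · rw [union_assoc]
          exact union_subset_union Subset.rfl (union_subset_union hsubf.1 hsubc.1) hp1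
      have e1 : p ∈ f1 ∨ p ∈ c1 := by
        simp only [mem_union, List.mem_toFinset, List.mem_append, List.mem_cons, List.not_mem_nil,
          or_false] at hW1
        tauto
      have e2 : p ∈ f2 ∨ p ∈ c2 := by
        simp only [mem_union, List.mem_toFinset, List.mem_cons] at hW2
        tauto
      have nf' : ∀ x ∈ f1, ∀ y ∈ v :: f2, x ≠ y := (List.nodup_append.mp hnf).2.2
      have nc' : ∀ x ∈ c1, ∀ y ∈ v :: c2, x ≠ y := (List.nodup_append.mp hnc).2.2
      have hcc : p ∈ c1 → p ∈ c2 → False := fun hp3 hp4 =>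
        nc' p hp3 p (List.mem_cons_of_mem _ hp4) rfl
      rcases e1 with e1 | e1
      · rcases e2 with e2 | e2
        · exact nf' p e1 p (List.mem_cons_of_mem _ e2) rfl
        · rcases List.mem_cons.mp e1 with e3 | e3
          · exact hcc (by rw [e3]; exact List.mem_cons_self) e2
          · refine hf p e3 ?_
            exact List.mem_append_right _ (List.mem_cons_of_mem _ e2)
      · rcases e2 with e2 | e2
        · obtain ⟨g1, g2, hg⟩ := List.append_of_mem e2
          obtain ⟨d1, d2, hd⟩ := List.append_of_mem e1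
          have h3 := h
          have h4 : c1 ++ v :: c2 = d1 ++ p :: (d2 ++ v :: c2) := by
            rw [hd]
            simp
          rw [hg, h4] at h3
          exact h3.order
        · exact hcc e1 e2
    · intro hp
      rw [hp]
      constructor
      · rw [vx]
        refine mem_union_right _ ?_
        simp
      · rw [vx]
        refine mem_union_right _ ?_
        simp

/-- The first part is determined by its boundary. -/
theorem Fill.split_unique {k : Bool} {f c : List ℕ} {N N1 N1' : Finset Quad} (h : Fill k f c N)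
    (h1 : N1 ⊆ N) (h1' : N1' ⊆ N) (hb : bd N1 = bd N1') : N1 = N1' := by
  classical
  have h2 : symmDiff N1 N1' = ∅ := by
    refine h.ac.inj _ ?_ ?_
    · intro x hx
      rw [mem_symmDiff] at hx
      rcases hx with ⟨hx, -⟩ | ⟨hx, -⟩
      · exact h1 hx
      · exact h1' hx
    · rw [bd_symmDiff, hb, symmDiff_self]
      rfl
  exact symmDiff_eq_bot.mp h2

end K5M
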