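import Pool.Agent.Lib.K5M.B2

/-!
# K5M.B6: removing and inserting the quad at the root edge

The root edge is `(p, z)`, the first path is `[p, z]`.

PROOFS.
`root_quad`: `(p, z)` is in `pe true [p, z]` and not in `pe true c` (`ends_not_mem`), so `dg N (p, z) = 1`: there
is exactly one quad `q` at `(p, z)`; `q.1 = {p, w}`, `q.2 = {b, z}`.
`remove_quad`: `N' = N.erase q`, `f' = [p, b, w, z]`.  `EdS N' ∪ pe f' ∪ pe c ⊆ EdS N ∪ pe c`, and `(p, z)` is not
in it (`dg N (p, z) = 1`).  `two`, `inj`: inherited.  `sur`: an even `Z` in it is `bd Y`, `Y ⊆ N`; `q ∈ Y` would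
imply `dg Y (p, z) = 1`, `(p, z) ∈ bd Y = Z`; so `Y ⊆ N'`.  `bnd`: `bd N' = bd N Δ ed q`
`= ({(p, z)} ∪ pe c) Δ {(p, z), (p, b), (w, b), (w, z)} = pe f' Δ pe c`.  `dj`: an edge of `pe f' ∩ pe c` is in
`bd N` (it is in `pe c`, not in `pe [p, z]`), so `dg N = 1` and the only quad at it is `q`.
`insert_quad`: `q ∉ N'` because `(p, z) ∉ EdS N'`.  `N = insert q N'`, `E = EdS N ∪ {(p, z)} ∪ pe c`.  `two`: an
edge of `q` other than `(p, z)` is in `pe f'`, so `dg N' ≤ 1` (`dg_one`, `dg_zero`).  `inj`: if `bd X = ∅` and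
`q ∈ X` then `dg X (p, z) = 1`, contradiction; so `X ⊆ N'`.  `sur`: let `Z ⊆ E` be even; if `(p, z) ∉ Z` then
`Z ⊆ EdS N' ∪ pe f' ∪ pe c`; if `(p, z) ∈ Z` the same holds for `Z Δ ed q`, and `bd (X ∪ {q}) = bd X Δ ed q`.
`bnd`: as above, `(p, z) ∉ pe c`.
The vertex sets are equal because `w, b` are on `f'`.
-/

set_option autoImplicit false

namespace K5M

open Finset

variable {N : Finset Quad} {c : List ℕ} {p z w b : ℕ}

namespace B6Aux

lemma pe2 (p z : ℕ) : pe true [p, z] = {(p, z)} := by
  rw [pe_cons, pe_single]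
  rfl

lemma pe4 (p b w z : ℕ) : pe true [p, b, w, z] = {(p, b), (w, b), (w, z)} := by
  rw [pe_cons, pe_cons, pe_cons, pe_single]
  rfl

lemma ed_q (p z w b : ℕ) : ed ({p, w}, {b, z}) = insert (p, z) (pe true [p, b, w, z]) := by
  rw [pe4]
  ext ⟨x, y⟩
  simp only [mem_ed, Finset.mem_insert, Finset.mem_singleton, Prod.mk.injEq]
  tauto

lemma pz_not {p z w b : ℕ} (hw : w ≠ p) (hb : b ≠ z) : (p, z) ∉ pe true [p, b, w, z] := by
  rw [pe4]
  simp only [Finset.mem_insert, Finset.mem_singleton, Prod.mk.injEq]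
  rintro (⟨_, h⟩ | ⟨h, _⟩ | ⟨h, _⟩)
  · exact hb h.symm
  · exact hw h.symm
  · exact hw h.symm

lemma symm1 {x : Ed} {S : Finset Ed} (hx : x ∉ S) : symmDiff {x} (insert x S) = S := by
  ext a
  simp only [Finset.mem_symmDiff, Finset.mem_insert, Finset.mem_singleton]
  constructor
  · rintro (⟨h1, h2⟩ | ⟨h1, h2⟩)
    · exact absurd (Or.inl h1) h2
    · exact h1.resolve_left h2
  · intro h
    refine Or.inr ⟨Or.inr h, ?_⟩
    rintro rfl
    exact hx h

lemma symm2 {x : Ed} {S : Finset Ed} (hx : x ∉ S) : symmDiff (insert x S) S = {x} := by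
  ext a
  simp only [Finset.mem_symmDiff, Finset.mem_insert, Finset.mem_singleton]
  constructor
  · rintro (⟨h1, h2⟩ | ⟨h1, h2⟩)
    · exact h1.resolve_right h2
    · exact absurd (Or.inr h1) h2
  · rintro rfl
    exact Or.inl ⟨Or.inl rfl, hx⟩

lemma dg_insert {N : Finset Quad} {q : Quad} (hq : q ∉ N) (e : Ed) :
    dg (insert q N) e = (if e ∈ ed q then 1 else 0) + dg N e := by
  unfold dg
  rw [Finset.filter_insert]
  split_ifs with h
  · rw [Finset.card_insert_of_notMem (fun h1 => hq (Finset.mem_filter.mp h1).1), add_comm]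
  · rw [zero_add]

lemma wh_insert (N : Finset Quad) (q : Quad) : wh (insert q N) = q.1 ∪ wh N := by
  unfold wh
  rw [Finset.biUnion_insert]

lemma bl_insert (N : Finset Quad) (q : Quad) : bl (insert q N) = q.2 ∪ bl N := by
  unfold bl
  rw [Finset.biUnion_insert]

lemma EdS_insert (N : Finset Quad) (q : Quad) : EdS (insert q N) = ed q ∪ EdS N := by
  unfold EdS
  rw [Finset.biUnion_insert]

lemma bd_insert {N : Finset Quad} {q : Quad} (hq : q ∉ N) : bd (insert q N) = symmDiff (ed q) (bd N) := by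
  rw [Finset.insert_eq, bd_union (Finset.disjoint_singleton_left.mpr hq), bd_singleton]

lemma ends {c : List ℕ} {p z : ℕ} {l : List ℕ} (hl : l.head? = some p) (hl' : l.getLast? = some z)
    (hd : l.head? = c.head?) (lt : l.getLast? = c.getLast?) : c.head? = some p ∧ c.getLast? = some z :=
  ⟨by rw [← hd, hl], by rw [← lt, hl']⟩

lemma card_two {S : Finset ℕ} (h : S.card = 2) {p : ℕ} (hp : p ∈ S) : ∃ w, w ≠ p ∧ S = {p, w} := by
  obtain ⟨x, y, hxy, rfl⟩ := Finset.card_eq_two.mp h
  rcases Finset.mem_insert.mp hp with rfl | hp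
  · exact ⟨y, hxy.symm, rfl⟩
  · rw [Finset.mem_singleton] at hp
    subst hp
    exact ⟨x, hxy, Finset.pair_comm _ _⟩

lemma vx_eq (N : Finset Quad) (c : List ℕ) (p z w b : ℕ) :
    vx [p, b, w, z] c N = vx [p, z] c (insert ({p, w}, {b, z}) N) := by
  unfold vx
  rw [wh_insert, bl_insert]
  ext x
  simp only [Finset.mem_union, List.mem_toFinset, List.mem_cons, Finset.mem_insert, Finset.mem_singleton,
    List.not_mem_nil, or_false]
  tauto

/-- The vertices of a quad at the root edge are distinct if the colours are disjoint. -/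
lemma pw4 (p b w z : ℕ) : pw true [p, b, w, z] = {p, w} ∧ pb true [p, b, w, z] = {b, z} := by
  constructor
  · ext x
    simp [pw]
  · ext x
    simp [pb, pw]

lemma pw2 (p z : ℕ) : pw true [p, z] = {p} ∧ pb true [p, z] = {z} := by
  constructor
  · ext x
    simp [pw]
  · ext x
    simp [pb, pw]

end B6Aux

open B6Aux

theorem Fill.root_quad (h : Fill true [p, z] c N) (hc : 4 ≤ c.length) :
    ∃ w b : ℕ, w ≠ p ∧ b ≠ z ∧ (({p, w}, {b, z}) : Quad) ∈ N ∧
      ∀ q ∈ N, (p, z) ∈ ed q → q = ({p, w}, {b, z}) := by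
  obtain ⟨h1, h2⟩ := ends (l := [p, z]) rfl rfl h.hd h.lt
  have h3 : (p, z) ∉ pe true c := ends_not_mem h.nc hc h1 h2
  have h4 : dg N (p, z) = 1 := h.dg_one (by
    rw [Finset.mem_symmDiff, pe2]
    exact Or.inl ⟨Finset.mem_singleton_self _, h3⟩)
  unfold dg at h4
  obtain ⟨q, hq⟩ := Finset.card_eq_one.mp h4
  have hqm : q ∈ N.filter (fun q => (p, z) ∈ ed q) := by
    rw [hq]
    exact Finset.mem_singleton_self _
  obtain ⟨hqN, hqe⟩ := Finset.mem_filter.mp hqm
  obtain ⟨hq1, hq2⟩ := h.ac.isq q hqN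
  obtain ⟨hp, hz⟩ := mem_ed.mp hqe
  obtain ⟨w, hw, hw'⟩ := card_two hq1 hp
  obtain ⟨b, hb, hb'⟩ := card_two hq2 hz
  have hq3 : q = ({p, w}, {b, z}) := by
    rw [Prod.ext_iff]
    refine ⟨hw', ?_⟩
    rw [hb']
    exact Finset.pair_comm _ _
  refine ⟨w, b, hw, hb, by rw [← hq3]; exact hqN, fun q' hq' he => ?_⟩
  have h5 : q' ∈ N.filter (fun q => (p, z) ∈ ed q) := Finset.mem_filter.mpr ⟨hq', he⟩
  rw [hq, Finset.mem_singleton] at h5
  rw [h5, hq3]

theorem Fill.remove_quad (h : Fill true [p, z] c N) (hc : 4 ≤ c.length) (hw : w ≠ p) (hb : b ≠ z)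
    (hq : (({p, w}, {b, z}) : Quad) ∈ N) :
    Fill true [p, b, w, z] c (N.erase ({p, w}, {b, z})) ∧
      (p, z) ∉ EdS (N.erase ({p, w}, {b, z})) ∧
      vx [p, b, w, z] c (N.erase ({p, w}, {b, z})) = vx [p, z] c N := by
  obtain ⟨h1, h2⟩ := ends (l := [p, z]) rfl rfl h.hd h.lt
  have h3 : (p, z) ∉ pe true c := ends_not_mem h.nc hc h1 h2
  have h4 : dg N (p, z) = 1 := h.dg_one (by
    rw [Finset.mem_symmDiff, pe2]
    exact Or.inl ⟨Finset.mem_singleton_self _, h3⟩)
  obtain ⟨N', hN'q, hN'⟩ : ∃ N' : Finset Quad, (({p, w}, {b, z}) : Quad) ∉ N' ∧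
      N = insert ({p, w}, {b, z}) N' :=
    ⟨N.erase ({p, w}, {b, z}), Finset.notMem_erase _ _, (Finset.insert_erase hq).symm⟩
  rw [hN', Finset.erase_insert hN'q]
  rw [hN'] at h h4
  set q : Quad := ({p, w}, {b, z}) with hqdef
  have hedq : ed q = insert (p, z) (pe true [p, b, w, z]) := ed_q p z w b
  have hpz := pz_not hw hb
  have hpzN' : (p, z) ∉ EdS N' := by
    intro h5
    have h6 := dg_pos.mpr h5
    rw [dg_insert hN'q, if_pos (by rw [hedq]; exact Finset.mem_insert_self _ _)] at h4
    omega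
  have hf'sub : pe true [p, b, w, z] ⊆ EdS (insert q N') := by
    rw [EdS_insert, hedq]
    exact (Finset.subset_insert _ _).trans Finset.subset_union_left
  refine ⟨⟨⟨?_, ?_, ?_, ?_, ?_⟩, ?_, ?_, ?_, h.nc, by simp, h.hd, h.lt, by
    have h9 := h.par
    simp only [List.length_cons, List.length_nil] at h9 ⊢
    omega, ?_⟩, hpzN', vx_eq N' c p z w b⟩
  · exact fun q' hq' => h.ac.isq q' (Finset.mem_insert_of_mem hq')
  · exact Finset.subset_union_left.trans Finset.subset_union_left
  · exact fun e => (dg_mono (Finset.subset_insert q N') e).trans (h.ac.two e)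
  · exact fun X hX => h.ac.inj X (hX.trans (Finset.subset_insert _ _))
  · intro Z hZ hZe
    have hpzZ : (p, z) ∉ Z := by
      intro h5
      rcases Finset.mem_union.mp (hZ h5) with h6 | h6
      · rcases Finset.mem_union.mp h6 with h7 | h7
        · exact hpzN' h7
        · exact hpz h7
      · exact h3 h6
    obtain ⟨Y, hY, hYZ⟩ := h.ac.sur Z (by
      intro e he
      rcases Finset.mem_union.mp (hZ he) with h6 | h6
      · refine Finset.mem_union_left _ (Finset.mem_union_left _ ?_)
        rcases Finset.mem_union.mp h6 with h7 | h7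
        · exact EdS_mono (Finset.subset_insert _ _) h7
        · exact hf'sub h7
      · exact Finset.mem_union_right _ h6) hZe
    refine ⟨Y, fun y hy => ?_, hYZ⟩
    rcases Finset.mem_insert.mp (hY hy) with h5 | h5
    · exfalso
      refine hpzZ ?_
      rw [← hYZ, mem_bd]
      have h6 : dg Y (p, z) ≤ 1 := (dg_mono hY _).trans h4.le
      have h7 : 0 < dg Y (p, z) := by
        rw [dg_pos, mem_EdS]
        refine ⟨y, hy, ?_⟩
        rw [h5, hedq]
        exact Finset.mem_insert_self _ _
      have h8 : dg Y (p, z) = 1 := by omega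
      rw [h8]
      exact odd_one
    · exact h5
  · have h5 := h.bnd
    rw [bd_insert hN'q, pe2] at h5
    have h6 : bd N' = symmDiff (ed q) (symmDiff {(p, z)} (pe true c)) := by
      rw [← h5, symmDiff_symmDiff_cancel_left]
    rw [h6, hedq, ← symmDiff_assoc, symmDiff_comm (insert _ _) _, symm1 hpz]
  · rw [Finset.disjoint_left]
    intro e he heN
    obtain ⟨he1, he2⟩ := Finset.mem_inter.mp he
    have h5 : dg (insert q N') e = 1 := h.dg_one (by
      rw [Finset.mem_symmDiff, pe2]
      refine Or.inr ⟨he2, ?_⟩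
      rw [Finset.mem_singleton]
      rintro rfl
      exact h3 he2)
    rw [dg_insert hN'q, if_pos (by rw [hedq]; exact Finset.mem_insert_of_mem he1)] at h5
    have h6 := dg_pos.mpr heN
    omega
  · have hcol := h.col
    rw [wh_insert, bl_insert] at hcol
    have key : ∀ x ∈ ({p, w} : Finset ℕ), ∀ y ∈ ({b, z} : Finset ℕ), x ≠ y := by
      rintro x hx y hy rfl
      exact Finset.disjoint_left.mp hcol
        (Finset.mem_union_left _ (Finset.mem_union_left _ (Finset.mem_union_left _ hx)))
        (Finset.mem_union_left _ (Finset.mem_union_left _ (Finset.mem_union_left _ hy)))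
    have k1 := key p (by simp) b (by simp)
    have k2 := key p (by simp) z (by simp)
    have k3 := key w (by simp) b (by simp)
    have k4 := key w (by simp) z (by simp)
    simp only [List.nodup_cons, List.mem_cons, List.not_mem_nil, or_false, not_or, not_false_eq_true,
      List.nodup_nil, and_true]
    exact ⟨⟨k1, hw.symm, k2⟩, ⟨k3.symm, hb⟩, k4⟩
  · refine h.col.mono ?_ ?_
    · rw [wh_insert, (pw4 p b w z).1]
      intro x hx
      simp only [Finset.mem_union] at hx ⊢
      rcases hx with (hx | hx) | hx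
      · exact Or.inl (Or.inl (Or.inr hx))
      · exact Or.inl (Or.inl (Or.inl hx))
      · exact Or.inr hx
    · rw [bl_insert, (pw4 p b w z).2]
      intro x hx
      simp only [Finset.mem_union] at hx ⊢
      rcases hx with (hx | hx) | hx
      · exact Or.inl (Or.inl (Or.inr hx))
      · exact Or.inl (Or.inl (Or.inl hx))
      · exact Or.inr hx

theorem Fill.insert_quad (h : Fill true [p, b, w, z] c N) (hc : 4 ≤ c.length)
    (he : (p, z) ∉ EdS N) :
    (({p, w}, {b, z}) : Quad) ∉ N ∧ Fill true [p, z] c (insert ({p, w}, {b, z}) N) ∧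
      vx [p, z] c (insert ({p, w}, {b, z}) N) = vx [p, b, w, z] c N := by
  obtain ⟨h1, h2⟩ := ends (l := [p, b, w, z]) rfl rfl h.hd h.lt
  have h3 : (p, z) ∉ pe true c := ends_not_mem h.nc hc h1 h2
  have hnf := h.nf
  simp only [List.nodup_cons, List.mem_cons, List.not_mem_nil, or_false, not_or, not_false_eq_true,
    List.nodup_nil, and_true] at hnf
  obtain ⟨⟨hpb, hpw, hpz'⟩, ⟨hbw, hbz⟩, hwz⟩ := hnf
  have hpz := pz_not (p := p) (z := z) (w := w) (b := b) (Ne.symm hpw) hbz
  set q : Quad := ({p, w}, {b, z}) with hqdef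
  have hedq : ed q = insert (p, z) (pe true [p, b, w, z]) := ed_q p z w b
  have hqe : (p, z) ∈ ed q := by
    rw [hedq]
    exact Finset.mem_insert_self _ _
  have hqN : q ∉ N := fun hq => he (mem_EdS.mpr ⟨q, hq, hqe⟩)
  have hisq : IsQ q := ⟨Finset.card_pair hpw, Finset.card_pair hbz⟩
  have hN0 : dg N (p, z) = 0 := by
    have h5 := mt (dg_pos (N := N) (e := (p, z))).mp he
    omega
  refine ⟨hqN, ⟨⟨?_, ?_, ?_, ?_, ?_⟩, ?_, ?_, ?_, h.nc, by simp, h.hd, h.lt, by
    have h9 := h.par
    simp only [List.length_cons, List.length_nil] at h9 ⊢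
    omega, ?_⟩, (vx_eq N c p z w b).symm⟩
  · intro q' hq'
    rcases Finset.mem_insert.mp hq' with rfl | hq'
    · exact hisq
    · exact h.ac.isq q' hq'
  · exact Finset.subset_union_left.trans Finset.subset_union_left
  · intro e
    rw [dg_insert hqN]
    by_cases he1 : e ∈ ed q
    · rw [if_pos he1]
      rw [hedq] at he1
      rcases Finset.mem_insert.mp he1 with rfl | he2
      · omega
      · by_cases he3 : e ∈ pe true c
        · have := h.dg_zero (Finset.mem_inter.mpr ⟨he2, he3⟩)
          omega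
        · have := h.dg_one (Finset.mem_symmDiff.mpr (Or.inl ⟨he2, he3⟩))
          omega
    · rw [if_neg he1, zero_add]
      exact h.ac.two e
  · intro X hX hbX
    refine h.ac.inj X (fun x hx => ?_) hbX
    rcases Finset.mem_insert.mp (hX hx) with h5 | h5
    · exfalso
      have h6 : dg X (p, z) ≤ 1 := by
        refine (dg_mono hX _).trans ?_
        rw [dg_insert hqN, if_pos hqe, hN0]
      have h7 : 0 < dg X (p, z) := by
        rw [dg_pos, mem_EdS]
        exact ⟨x, hx, by rw [h5]; exact hqe⟩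
      have h8 : dg X (p, z) = 1 := by omega
      have h9 : (p, z) ∈ bd X := by
        rw [mem_bd, h8]
        exact odd_one
      rw [hbX] at h9
      exact Finset.notMem_empty _ h9
    · exact h5
  · intro Z hZ hZe
    have hE : ∀ e ∈ Z, e ≠ (p, z) → e ∈ EdS N ∪ pe true [p, b, w, z] ∪ pe true c := by
      intro e he1 he2
      have h5 := hZ he1
      rw [EdS_insert, hedq, pe2] at h5
      simp only [Finset.mem_union, Finset.mem_insert, Finset.mem_singleton] at h5 ⊢
      rcases h5 with (((h5 | h5) | h5) | h5) | h5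
      · exact absurd h5 he2
      · exact Or.inl (Or.inr h5)
      · exact Or.inl (Or.inl h5)
      · exact absurd h5 he2
      · exact Or.inr h5
    by_cases hpzZ : (p, z) ∈ Z
    · obtain ⟨X, hX, hbX⟩ := h.ac.sur (symmDiff Z (ed q)) (by
        intro e he1
        rcases Finset.mem_symmDiff.mp he1 with ⟨he2, he3⟩ | ⟨he2, he3⟩
        · refine hE e he2 ?_
          rintro rfl
          exact he3 hqe
        · rw [hedq] at he2
          rcases Finset.mem_insert.mp he2 with rfl | he4
          · exact absurd hpzZ he3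
          · exact Finset.mem_union_left _ (Finset.mem_union_right _ he4)) (Evn_symmDiff hZe (Evn_ed hisq))
      refine ⟨insert q X, Finset.insert_subset_insert q hX, ?_⟩
      rw [bd_insert (fun hq => hqN (hX hq)), hbX, symmDiff_comm, symmDiff_symmDiff_cancel_right]
    · obtain ⟨X, hX, hbX⟩ := h.ac.sur Z (fun e he1 => hE e he1 (by
        rintro rfl
        exact hpzZ he1)) hZe
      exact ⟨X, hX.trans (Finset.subset_insert _ _), hbX⟩
  · rw [bd_insert hqN, h.bnd, pe2, ← symmDiff_assoc, hedq, symm2 hpz]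
  · rw [Finset.disjoint_left]
    intro e he1
    exfalso
    obtain ⟨he2, he3⟩ := Finset.mem_inter.mp he1
    rw [pe2, Finset.mem_singleton] at he2
    rw [he2] at he3
    exact h3 he3
  · simp only [List.nodup_cons, List.mem_cons, List.not_mem_nil, or_false, not_false_eq_true,
      List.nodup_nil, and_true]
    exact hpz'
  · refine h.col.mono ?_ ?_
    · rw [wh_insert, (pw4 p b w z).1, (pw2 p z).1]
      intro x hx
      simp only [Finset.mem_union] at hx ⊢
      rcases hx with ((hx | hx) | hx) | hx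
      · exact Or.inl (Or.inr hx)
      · exact Or.inl (Or.inl hx)
      · refine Or.inl (Or.inr ?_)
        rw [Finset.mem_singleton] at hx
        rw [hx]
        exact Finset.mem_insert_self _ _
      · exact Or.inr hx
    · rw [bl_insert, (pw4 p b w z).2, (pw2 p z).2]
      intro x hx
      simp only [Finset.mem_union] at hx ⊢
      rcases hx with ((hx | hx) | hx) | hx
      · exact Or.inl (Or.inr hx)
      · exact Or.inl (Or.inl hx)
      · refine Or.inl (Or.inr ?_)
        exact Finset.mem_insert_of_mem hx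
      · exact Or.inr hx

end K5M
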