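import Pool.Agent.Lib.K5M.B6

/-!
# K5M.B7: removing the three quads at a marked black vertex at the root edge

`m` is an inner black vertex in exactly three quads, one of them is the quad `({p, w1}, {m, z})` at the
root edge `(p, z)`.

PROOF of `hex_quads`.  `m` is on no path, so every edge `(w, m)` of `N` is in exactly two quads
(`dg_two`).  Every quad at `m` has two edges at `m`; three quads give `6 = 2 #(edges at m)`, so there are
three whites at `m`; each of the three quads is at two of them and each white is in two of the quads, so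
no two of the quads have the same whites (if two had the same whites `u, v`, then `u, v` would be used up
and the third quad would have its two whites among the only remaining white).  With `p, w1, w2` the
whites: the quads are `({p, w1}, {m, z})`, `({w1, w2}, {m, b1})`, `({w2, p}, {m, b2})`.  `b2 ≠ z`: otherwise
`(p, z)` is in two quads, but `dg N (p, z) = 1`.
PROOF of `remove_hex_*`.  `X` = the three quads, `N' = N \ X`.  The edges `(w, m)` are in no quad of `N'`
and on no path.  `bd X = {(p, z), (w1, z)} Δ {(w1, b1), (w2, b1)} Δ {(w2, b2), (p, b2)}`.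
(C) `b1 ≠ z`, `b1 ≠ b2`: `bd X` consists of `(p, z)` and the edges of `f' = [p, b2, w2, b1, w1, z]`.
(B1) `b1 = z`: `bd X = {(p, z), (w2, z), (w2, b2), (p, b2)}`, `f' = [p, b2, w2, z]`; the edges of `N` at `w1` in
`X` are `(w1, m)`, `(w1, z)`, both not in `bd X`, so by the link lemma all quads at `w1` are in `X` and `w1` is
on no path.
(B2) `b1 = b2`: `bd X = {(p, z), (w1, z), (w1, b1), (p, b1)}`, `f' = [p, b1, w1, z]`; in the same way `w2` is in
quads of `X` only and on no path.
In all cases: `AC` for `N'` on `E' = EdS N' ∪ pe f' ∪ pe c`: an even `Z ⊆ E'` is `bd Y`; `Z` does not contain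
the edges `(w, m)`, `(p, z)` (nor `(w1, z)` in case B1, `(w2, b1)` in case B2); if one quad of `X` is in `Y`
then all three are (they are linked by the edges `(w, m)`), and then `(p, z) ∈ bd Y`; so `Y ⊆ N'`.  `bnd`:
`bd N' = bd N Δ bd X`; `dj`: an edge of `pe f' ∩ pe c` is in `bd N`, in one quad of `N`, which is in `X` as
the edge is in `bd X`.  `Nodup f'`: whites and blacks are disjoint (`col`), `w2 ≠ p, w1`, `b2 ≠ z`.
-/

set_option autoImplicit false

namespace K5M

open Finset

variable {N : Finset Quad} {c : List ℕ} {p z w1 m : ℕ}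

/-- The three quads at `m`. -/
def hexq (p z w1 w2 m b1 b2 : ℕ) : Finset Quad :=
  {({p, w1}, {m, z}), ({w1, w2}, {m, b1}), ({w2, p}, {m, b2})}

namespace B7Aux

lemma pair_of_mem {s : Finset ℕ} (h : s.card = 2) {a : ℕ} (ha : a ∈ s) : ∃ b, b ≠ a ∧ s = {a, b} := by
  obtain ⟨x, y, hxy, rfl⟩ := Finset.card_eq_two.mp h
  rcases Finset.mem_insert.mp ha with rfl | ha
  · exact ⟨y, hxy.symm, rfl⟩
  · rw [Finset.mem_singleton] at ha
    subst ha
    exact ⟨x, hxy, Finset.pair_comm _ _⟩

lemma pair_eq {s : Finset ℕ} (h : s.card = 2) {a b : ℕ} (ha : a ∈ s) (hb : b ∈ s) (hab : a ≠ b) : s = {a, b} := by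
  obtain ⟨x, _, rfl⟩ := pair_of_mem h ha
  rcases Finset.mem_insert.mp hb with hb | hb
  · exact absurd hb.symm hab
  · rw [Finset.mem_singleton] at hb
    rw [hb]

lemma two_of {s : Finset Quad} (h : s.card = 2) {a : Quad} (ha : a ∈ s) :
    ∃ b ∈ s, b ≠ a ∧ ∀ x ∈ s, x = a ∨ x = b := by
  obtain ⟨x, y, hxy, rfl⟩ := Finset.card_eq_two.mp h
  rcases Finset.mem_insert.mp ha with rfl | ha
  · exact ⟨y, by simp, hxy.symm, fun t ht => by simpa using ht⟩
  · rw [Finset.mem_singleton] at ha
    subst ha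
    exact ⟨x, by simp, hxy, fun t ht => by
      have := ht
      simp only [Finset.mem_insert, Finset.mem_singleton] at this
      tauto⟩

lemma pe_two (p z : ℕ) : pe true [p, z] = {(p, z)} := by
  simp [pe]

lemma head_c (h : Fill true [p, z] c N) : c.head? = some p := h.hd.symm

lemma last_c (h : Fill true [p, z] c N) : c.getLast? = some z := h.lt.symm

lemma root_one (h : Fill true [p, z] c N) (hc : 4 ≤ c.length) : (p, z) ∉ pe true c ∧ dg N (p, z) = 1 := by
  have h1 := ends_not_mem h.nc hc (head_c h) (last_c h)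
  refine ⟨h1, h.dg_one ?_⟩
  rw [Finset.mem_symmDiff, pe_two]
  exact Or.inl ⟨Finset.mem_singleton_self _, h1⟩

lemma m_not_pe (hm : m ∉ c) (w : ℕ) : (w, m) ∉ pe true c := by
  intro h
  have h1 : m ∈ pb true c := (mem_pe_vert h).2
  apply hm
  rw [← List.mem_toFinset, ← pw_union_pb true c]
  exact Finset.mem_union_right _ h1

lemma dg_filter (w : ℕ) :
    dg N (w, m) = ((N.filter (fun q => m ∈ q.2)).filter (fun q => w ∈ q.1)).card := by
  unfold dg
  rw [Finset.filter_filter]
  congr 1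
  refine Finset.filter_congr fun q _ => ?_
  rw [mem_ed]
  exact and_comm

lemma cnt_two (h : Fill true [p, z] c N) (hm : m ∉ c) (hmz : m ≠ z) {w : ℕ} {q : Quad}
    (hq : q ∈ N.filter (fun q => m ∈ q.2)) (hw : w ∈ q.1) :
    ((N.filter (fun q => m ∈ q.2)).filter (fun q => w ∈ q.1)).card = 2 := by
  rw [← dg_filter]
  have hq' := Finset.mem_filter.mp hq
  refine h.dg_two (mem_EdS.mpr ⟨q, hq'.1, mem_ed.mpr ⟨hw, hq'.2⟩⟩) ?_ (m_not_pe hm w)
  rw [pe_two, Finset.mem_singleton]
  intro e
  exact hmz (Prod.ext_iff.mp e).2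

lemma other (h : Fill true [p, z] c N) (hm : m ∉ c) (hmz : m ≠ z) {w : ℕ} {q : Quad}
    (hq : q ∈ N.filter (fun q => m ∈ q.2)) (hw : w ∈ q.1) :
    ∃ q' ∈ N.filter (fun q => m ∈ q.2), w ∈ q'.1 ∧ q' ≠ q ∧
      ∀ x ∈ N.filter (fun q => m ∈ q.2), w ∈ x.1 → x = q ∨ x = q' := by
  obtain ⟨b, hb, hne, hall⟩ := two_of (cnt_two h hm hmz hq hw) (a := q) (Finset.mem_filter.mpr ⟨hq, hw⟩)
  have hb' := Finset.mem_filter.mp hb
  exact ⟨b, hb'.1, hb'.2, hne, fun x hx hwx => hall x (Finset.mem_filter.mpr ⟨hx, hwx⟩)⟩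

end B7Aux

open B7Aux

theorem Fill.hex_quads (h : Fill true [p, z] c N) (hc : 4 ≤ c.length) (hm : m ∉ c)
    (h3 : qd N m = 3) (hw : w1 ≠ p) (hmz : m ≠ z) (hq : (({p, w1}, {m, z}) : Quad) ∈ N) :
    ∃ w2 b1 b2 : ℕ, w2 ≠ p ∧ w2 ≠ w1 ∧ b1 ≠ m ∧ b2 ≠ m ∧ b2 ≠ z ∧
      N.filter (fun q => m ∈ q.2) = hexq p z w1 w2 m b1 b2 ∧ (hexq p z w1 w2 m b1 b2).card = 3 := by
  unfold qd at h3
  have hq0 : (({p, w1}, {m, z}) : Quad) ∈ N.filter (fun q => m ∈ q.2) :=
    Finset.mem_filter.mpr ⟨hq, by simp⟩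
  have hisq : ∀ q ∈ N.filter (fun q => m ∈ q.2), IsQ q ∧ m ∈ q.2 := fun q hq =>
    ⟨h.ac.isq q (Finset.mem_filter.mp hq).1, (Finset.mem_filter.mp hq).2⟩
  obtain ⟨q2, hq2, hp2, hne2, hall2⟩ := other h hm hmz hq0 (w := p) (by simp)
  obtain ⟨q1, hq1, hp1, hne1, hall1⟩ := other h hm hmz hq0 (w := w1) (by simp)
  have h12 : q1 ≠ q2 := by
    intro e
    subst e
    have hs := pair_eq (hisq q1 hq1).1.1 hp2 hp1 hw.symm
    obtain ⟨q3, hq3, hq3'⟩ := Finset.exists_mem_notMem_of_card_lt_card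
      (s := {(({p, w1}, {m, z}) : Quad), q1}) (t := N.filter (fun q => m ∈ q.2)) (by
        rw [h3]
        exact lt_of_le_of_lt Finset.card_le_two (by norm_num))
    rw [Finset.mem_insert, Finset.mem_singleton, not_or] at hq3'
    have hF : N.filter (fun q => m ∈ q.2) = {(({p, w1}, {m, z}) : Quad), q1, q3} := by
      symm
      refine Finset.eq_of_subset_of_card_le ?_ ?_
      · intro x hx
        simp only [Finset.mem_insert, Finset.mem_singleton] at hx
        rcases hx with rfl | rfl | rfl <;> assumption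
      · rw [h3, Finset.card_eq_three.mpr ⟨_, _, _, hne1.symm, Ne.symm hq3'.1, Ne.symm hq3'.2, rfl⟩]
    obtain ⟨u, hu⟩ : q3.1.Nonempty := Finset.card_pos.mp (by rw [(hisq q3 hq3).1.1]; norm_num)
    have hup : u ≠ p ∧ u ≠ w1 := by
      constructor
      · rintro rfl
        rcases hall2 q3 hq3 hu with e | e
        · exact hq3'.1 e
        · exact hq3'.2 e
      · rintro rfl
        rcases hall1 q3 hq3 hu with e | e
        · exact hq3'.1 e
        · exact hq3'.2 e
    obtain ⟨q4, hq4, hu4, hne4, -⟩ := other h hm hmz hq3 hu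
    rw [hF] at hq4
    simp only [Finset.mem_insert, Finset.mem_singleton] at hq4
    rcases hq4 with rfl | rfl | rfl
    · simp only [Finset.mem_insert, Finset.mem_singleton] at hu4
      exact hu4.elim hup.1 hup.2
    · rw [hs] at hu4
      simp only [Finset.mem_insert, Finset.mem_singleton] at hu4
      exact hu4.elim hup.1 hup.2
    · exact hne4 rfl
  have hF : N.filter (fun q => m ∈ q.2) = {(({p, w1}, {m, z}) : Quad), q1, q2} := by
    symm
    refine Finset.eq_of_subset_of_card_le ?_ ?_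
    · intro x hx
      simp only [Finset.mem_insert, Finset.mem_singleton] at hx
      rcases hx with rfl | rfl | rfl <;> assumption
    · rw [h3, Finset.card_eq_three.mpr ⟨_, _, _, hne1.symm, hne2.symm, h12, rfl⟩]
  have hp1' : p ∉ q1.1 := by
    intro e
    rcases hall2 q1 hq1 e with e | e
    · exact hne1 e
    · exact h12 e
  obtain ⟨w2, hw2, hs1⟩ := pair_of_mem (hisq q1 hq1).1.1 hp1
  have hw2p : w2 ≠ p := by
    rintro rfl
    exact hp1' (by rw [hs1]; simp)
  obtain ⟨q5, hq5, hw5, hne5, -⟩ := other h hm hmz hq1 (w := w2) (by rw [hs1]; simp)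
  have hw2q : w2 ∈ q2.1 := by
    rw [hF] at hq5
    simp only [Finset.mem_insert, Finset.mem_singleton] at hq5
    rcases hq5 with rfl | rfl | rfl
    · simp only [Finset.mem_insert, Finset.mem_singleton] at hw5
      exact absurd hw5 (not_or.mpr ⟨hw2p, hw2⟩)
    · exact absurd rfl hne5
    · exact hw5
  have hs2 := pair_eq (hisq q2 hq2).1.1 hw2q hp2 hw2p
  obtain ⟨b1, hb1, ht1⟩ := pair_of_mem (hisq q1 hq1).1.2 (hisq q1 hq1).2
  obtain ⟨b2, hb2, ht2⟩ := pair_of_mem (hisq q2 hq2).1.2 (hisq q2 hq2).2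
  have e1 : q1 = ({w1, w2}, {m, b1}) := Prod.ext hs1 ht1
  have e2 : q2 = ({w2, p}, {m, b2}) := Prod.ext hs2 ht2
  have hFe : N.filter (fun q => m ∈ q.2) = hexq p z w1 w2 m b1 b2 := by
    rw [hF, e1, e2]
    rfl
  refine ⟨w2, b1, b2, hw2p, hw2, hb1, hb2, ?_, hFe, by rw [← hFe]; exact h3⟩
  rintro rfl
  have hd := (root_one h hc).2
  unfold dg at hd
  rw [Finset.card_eq_one] at hd
  obtain ⟨a, ha⟩ := hd
  have m0 : (({p, w1}, {m, b2}) : Quad) ∈ N.filter (fun q => (p, b2) ∈ ed q) :=
    Finset.mem_filter.mpr ⟨hq, mem_ed.mpr ⟨by simp, by simp⟩⟩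
  have m2 : q2 ∈ N.filter (fun q => (p, b2) ∈ ed q) :=
    Finset.mem_filter.mpr ⟨(Finset.mem_filter.mp hq2).1, mem_ed.mpr ⟨hp2, by rw [ht2]; simp⟩⟩
  rw [ha, Finset.mem_singleton] at m0 m2
  exact hne2 (m2.trans m0.symm)

namespace B7Aux

lemma wh_mem {q : Quad} (hq : q ∈ N) {u : ℕ} (hu : u ∈ q.1) : u ∈ wh N :=
  Finset.mem_biUnion.mpr ⟨q, hq, hu⟩

lemma bl_mem {q : Quad} (hq : q ∈ N) {u : ℕ} (hu : u ∈ q.2) : u ∈ bl N :=
  Finset.mem_biUnion.mpr ⟨q, hq, hu⟩

lemma hexq_sub {w2 b1 b2 : ℕ} (hX : N.filter (fun q => m ∈ q.2) = hexq p z w1 w2 m b1 b2) :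
    hexq p z w1 w2 m b1 b2 ⊆ N := by
  rw [← hX]
  exact Finset.filter_subset _ _

lemma not_bl {w2 b1 b2 : ℕ} (hX : N.filter (fun q => m ∈ q.2) = hexq p z w1 w2 m b1 b2) :
    ∀ q ∈ N \ hexq p z w1 w2 m b1 b2, m ∉ q.2 := by
  intro q hq hm
  rw [← hX, Finset.mem_sdiff] at hq
  exact hq.2 (Finset.mem_filter.mpr ⟨hq.1, hm⟩)

/-- Whites and blacks are different. -/
lemma wb_ne (h : Fill true [p, z] c N) {u v : ℕ} (hu : u ∈ wh N) (hv : v ∈ bl N) : u ≠ v := by
  rintro rfl
  exact Finset.disjoint_left.mp h.col (Finset.mem_union_left _ (Finset.mem_union_left _ hu))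
    (Finset.mem_union_left _ (Finset.mem_union_left _ hv))

theorem remove_gen {w2 b1 b2 : ℕ} {f' : List ℕ} (h : Fill true [p, z] c N) (hc : 4 ≤ c.length)
    (hm : m ∉ c) (hX : N.filter (fun q => m ∈ q.2) = hexq p z w1 w2 m b1 b2)
    (hw1 : w1 ≠ p) (hw2 : w2 ≠ p) (hw : w2 ≠ w1)
    (hfm : m ∉ f') (hnd : f'.Nodup) (hhd : f'.head? = some p) (hlt : f'.getLast? = some z)
    (hlen : f'.length % 2 = 0) (hbd : bd (hexq p z w1 w2 m b1 b2) = insert (p, z) (pe true f'))
    (hpz : (p, z) ∉ pe true f') (hpw : pw true f' ⊆ wh N) (hpb : pb true f' ⊆ bl N) :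
    Fill true f' c (N \ hexq p z w1 w2 m b1 b2) ∧ (p, z) ∉ EdS (N \ hexq p z w1 w2 m b1 b2) := by
  obtain ⟨hpc, hdg⟩ := root_one h hc
  have hXN := hexq_sub hX
  have hsub : N \ hexq p z w1 w2 m b1 b2 ⊆ N := Finset.sdiff_subset
  have hpzX : (p, z) ∈ bd (hexq p z w1 w2 m b1 b2) := by
    rw [hbd]
    exact Finset.mem_insert_self _ _
  have hdg_zero : ∀ e, e ∈ bd (hexq p z w1 w2 m b1 b2) → dg N e = 1 →
      e ∉ EdS (N \ hexq p z w1 w2 m b1 b2) := by
    intro e he h1 h2
    have h3 : 0 < dg (hexq p z w1 w2 m b1 b2) e := (mem_bd.mp he).pos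
    have h4 := dg_sdiff hXN e
    have h5 := dg_pos.mpr h2
    omega
  have hpzN : (p, z) ∉ EdS (N \ hexq p z w1 w2 m b1 b2) := hdg_zero _ hpzX hdg
  have hfE : pe true f' ⊆ EdS N := by
    intro e he
    have h1 : e ∈ bd (hexq p z w1 w2 m b1 b2) := by
      rw [hbd]
      exact Finset.mem_insert_of_mem he
    exact EdS_mono hXN (bd_sub _ h1)
  have hE : EdS (N \ hexq p z w1 w2 m b1 b2) ∪ pe true f' ∪ pe true c ⊆ EdS N ∪ pe true [p, z] ∪ pe true c := by
    intro e he
    rcases Finset.mem_union.mp he with he | he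
    · rcases Finset.mem_union.mp he with he | he
      · exact Finset.mem_union_left _ (Finset.mem_union_left _ (EdS_mono hsub he))
      · exact Finset.mem_union_left _ (Finset.mem_union_left _ (hfE he))
    · exact Finset.mem_union_right _ he
  have hmE : ∀ w, (w, m) ∉ EdS (N \ hexq p z w1 w2 m b1 b2) ∪ pe true f' ∪ pe true c := by
    intro w he
    rcases Finset.mem_union.mp he with he | he
    · rcases Finset.mem_union.mp he with he | he
      · obtain ⟨q, hq, hqe⟩ := mem_EdS.mp he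
        exact not_bl hX q hq (mem_ed.mp hqe).2
      · exact m_not_pe hfm w he
    · exact m_not_pe hm w he
  have hpzE : (p, z) ∉ EdS (N \ hexq p z w1 w2 m b1 b2) ∪ pe true f' ∪ pe true c := by
    rw [Finset.mem_union, Finset.mem_union, not_or, not_or]
    exact ⟨⟨hpzN, hpz⟩, hpc⟩
  have hq0X : (({p, w1}, {m, z}) : Quad) ∈ hexq p z w1 w2 m b1 b2 := by
    unfold hexq
    simp
  have hq1X : (({w1, w2}, {m, b1}) : Quad) ∈ hexq p z w1 w2 m b1 b2 := by
    unfold hexq
    simp
  have hq2X : (({w2, p}, {m, b2}) : Quad) ∈ hexq p z w1 w2 m b1 b2 := by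
    unfold hexq
    simp
  refine ⟨?_, hpzN⟩
  refine
    { ac := ?_, bnd := ?_, dj := ?_, nf := hnd, nc := h.nc, fne := ?_, hd := ?_, lt := ?_, par := ?_, col := ?_ }
  · -- acyclic complex
    refine
      { isq := fun q hq => h.ac.isq q (hsub hq)
        sub := fun e he => Finset.mem_union_left _ (Finset.mem_union_left _ he)
        two := fun e => (dg_mono hsub e).trans (h.ac.two e)
        inj := fun Y hY hb => h.ac.inj Y (hY.trans hsub) hb
        sur := ?_ }
    intro Z hZ hev
    obtain ⟨Y, hY, hYZ⟩ := h.ac.sur Z (hZ.trans hE) hev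
    refine ⟨Y, ?_, hYZ⟩
    have hq0 : (({p, w1}, {m, z}) : Quad) ∉ Y := by
      intro hq
      have h1 : dg Y (p, z) ≤ 1 := hdg ▸ dg_mono hY (p, z)
      have h2 : 0 < dg Y (p, z) := dg_pos.mpr (mem_EdS.mpr ⟨_, hq, mem_ed.mpr ⟨by simp, by simp⟩⟩)
      have h3 : (p, z) ∈ bd Y := by
        rw [mem_bd]
        have : dg Y (p, z) = 1 := by omega
        rw [this]
        exact odd_one
      rw [hYZ] at h3
      exact hpzE (hZ h3)
    -- a quad of `Y` at `m` is one of the three
    have hthree : ∀ q ∈ Y, m ∈ q.2 → q = ({p, w1}, {m, z}) ∨ q = ({w1, w2}, {m, b1}) ∨ q = ({w2, p}, {m, b2}) := by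
      intro q hq hmq
      have h1 : q ∈ hexq p z w1 w2 m b1 b2 := by
        rw [← hX]
        exact Finset.mem_filter.mpr ⟨hY hq, hmq⟩
      unfold hexq at h1
      simpa only [Finset.mem_insert, Finset.mem_singleton] using h1
    have hone : ∀ (w : ℕ) (q : Quad), q ∈ Y → w ∈ q.1 → m ∈ q.2 → (∀ q' ∈ Y, m ∈ q'.2 → w ∈ q'.1 → q' = q) → False := by
      intro w q hq hwq hmq hall
      have h1 : Y.filter (fun q => (w, m) ∈ ed q) = {q} := by
        ext q'
        rw [Finset.mem_filter, Finset.mem_singleton, mem_ed]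
        constructor
        · rintro ⟨h1, h2, h3⟩
          exact hall q' h1 h3 h2
        · rintro rfl
          exact ⟨hq, hwq, hmq⟩
      have h2 : (w, m) ∈ bd Y := by
        rw [mem_bd]
        unfold dg
        rw [h1, Finset.card_singleton]
        exact odd_one
      rw [hYZ] at h2
      exact hmE w (hZ h2)
    have hq1 : (({w1, w2}, {m, b1}) : Quad) ∉ Y := by
      intro hq
      refine hone w1 _ hq (by simp) (by simp) ?_
      intro q' hq' hm' hw'
      rcases hthree q' hq' hm' with rfl | rfl | rfl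
      · exact absurd hq' hq0
      · rfl
      · simp only [Finset.mem_insert, Finset.mem_singleton] at hw'
        rcases hw' with e | e
        · exact absurd e.symm hw
        · exact absurd e hw1
    have hq2 : (({w2, p}, {m, b2}) : Quad) ∉ Y := by
      intro hq
      refine hone w2 _ hq (by simp) (by simp) ?_
      intro q' hq' hm' hw'
      rcases hthree q' hq' hm' with rfl | rfl | rfl
      · exact absurd hq' hq0
      · exact absurd hq' hq1
      · rfl
    intro q hq
    rw [Finset.mem_sdiff]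
    refine ⟨hY hq, fun hqX => ?_⟩
    unfold hexq at hqX
    simp only [Finset.mem_insert, Finset.mem_singleton] at hqX
    rcases hqX with rfl | rfl | rfl
    · exact hq0 hq
    · exact hq1 hq
    · exact hq2 hq
  · -- boundary
    rw [bd_sdiff hXN, h.bnd, hbd, pe_two]
    ext e
    simp only [Finset.mem_symmDiff, Finset.mem_insert, Finset.mem_singleton]
    by_cases he : e = (p, z)
    · subst he
      simp [hpc, hpz]
    · by_cases h1 : e ∈ pe true f' <;> by_cases h2 : e ∈ pe true c <;> simp [he, h1, h2]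
  · -- disjointness
    rw [Finset.disjoint_left]
    intro e he
    obtain ⟨he1, he2⟩ := Finset.mem_inter.mp he
    have h1 : e ∈ bd (hexq p z w1 w2 m b1 b2) := by
      rw [hbd]
      exact Finset.mem_insert_of_mem he1
    refine hdg_zero e h1 (h.dg_one ?_)
    rw [Finset.mem_symmDiff, pe_two]
    refine Or.inr ⟨he2, fun h2 => hpc ?_⟩
    rw [Finset.mem_singleton] at h2
    rw [← h2]
    exact he2
  · rintro rfl
    simp at hhd
  · rw [hhd, head_c h]
  · rw [hlt, last_c h]
  · have := h.par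
    simp only [List.length_cons, List.length_nil] at this
    omega
  · refine Finset.disjoint_of_subset_left ?_ (Finset.disjoint_of_subset_right ?_ h.col)
    · intro u hu
      rcases Finset.mem_union.mp hu with hu | hu
      · rcases Finset.mem_union.mp hu with hu | hu
        · exact Finset.mem_union_left _ (Finset.mem_union_left _
            (Finset.biUnion_subset_biUnion_of_subset_left _ hsub hu))
        · exact Finset.mem_union_left _ (Finset.mem_union_left _ (hpw hu))
      · exact Finset.mem_union_right _ hu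
    · intro u hu
      rcases Finset.mem_union.mp hu with hu | hu
      · rcases Finset.mem_union.mp hu with hu | hu
        · exact Finset.mem_union_left _ (Finset.mem_union_left _
            (Finset.biUnion_subset_biUnion_of_subset_left _ hsub hu))
        · exact Finset.mem_union_left _ (Finset.mem_union_left _ (hpb hu))
      · exact Finset.mem_union_right _ hu

/-- Boundary of three quads. -/
lemma bd_hex {w2 b1 b2 : ℕ} (h3 : (hexq p z w1 w2 m b1 b2).card = 3) :
    bd (hexq p z w1 w2 m b1 b2) = symmDiff (ed ({p, w1}, {m, z}))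
      (symmDiff (ed ({w1, w2}, {m, b1})) (ed ({w2, p}, {m, b2}))) := by
  have hd12 : (({w1, w2}, {m, b1}) : Quad) ≠ ({w2, p}, {m, b2}) := by
    intro e
    unfold hexq at h3
    rw [e, Finset.pair_eq_singleton] at h3
    have := Finset.card_le_two (a := (({p, w1}, {m, z}) : Quad)) (b := ({w2, p}, {m, b2}))
    omega
  have hd0 : Disjoint ({(({p, w1}, {m, z}) : Quad)} : Finset Quad) {({w1, w2}, {m, b1}), ({w2, p}, {m, b2})} := by
    rw [Finset.disjoint_singleton_left]
    intro e
    unfold hexq at h3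
    rw [Finset.insert_eq_of_mem e] at h3
    have := Finset.card_le_two (a := (({w1, w2}, {m, b1}) : Quad)) (b := ({w2, p}, {m, b2}))
    omega
  have e1 : hexq p z w1 w2 m b1 b2 = {(({p, w1}, {m, z}) : Quad)} ∪
      ({(({w1, w2}, {m, b1}) : Quad)} ∪ {({w2, p}, {m, b2})}) := by
    unfold hexq
    ext q
    simp only [Finset.mem_insert, Finset.mem_union, Finset.mem_singleton]
  rw [e1, bd_union (by rw [← Finset.insert_eq]; exact hd0), bd_union (Finset.disjoint_singleton.mpr hd12),
    bd_singleton, bd_singleton, bd_singleton]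

/-- A white vertex of a path with an edge is an end of an edge. -/
lemma edge_at {k : Bool} {l : List ℕ} (hl : 2 ≤ l.length) {v : ℕ} (hv : v ∈ pw k l) :
    ∃ e ∈ pe k l, e.1 = v := by
  induction l generalizing k with
  | nil => simp at hl
  | cons a l ih =>
    cases l with
    | nil => simp at hl
    | cons b l =>
      rw [pe_cons]
      by_cases hb : 2 ≤ (b :: l).length ∧ v ∈ pw (!k) (b :: l)
      · obtain ⟨e, he, hev⟩ := ih hb.1 hb.2
        exact ⟨e, Finset.mem_insert_of_mem he, hev⟩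
      · refine ⟨_, Finset.mem_insert_self _ _, ?_⟩
        cases k with
        | true =>
          rw [if_pos rfl]
          have hv2 : v ∈ insert a (pw false (b :: l)) := by simpa [pw] using hv
          rcases Finset.mem_insert.mp hv2 with rfl | hv2
          · rfl
          · exfalso
            apply hb
            refine ⟨?_, hv2⟩
            cases l with
            | nil => simp [pw] at hv2
            | cons d l => simp
        | false =>
          rw [if_neg (by decide)]
          have hv2 : v ∈ pw true (b :: l) := by simpa [pw] using hv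
          cases l with
          | nil =>
            simp [pw] at hv2
            exact hv2.symm
          | cons d l =>
            exact absurd ⟨by simp, hv2⟩ hb

lemma wh_split {w2 b1 b2 : ℕ} (hXN : hexq p z w1 w2 m b1 b2 ⊆ N) (u : ℕ) :
    u ∈ wh N ↔ u ∈ wh (N \ hexq p z w1 w2 m b1 b2) ∨ u = p ∨ u = w1 ∨ u = w2 := by
  constructor
  · intro hu
    obtain ⟨q, hq, hqu⟩ := Finset.mem_biUnion.mp hu
    by_cases hqX : q ∈ hexq p z w1 w2 m b1 b2
    · right
      unfold hexq at hqX
      simp only [Finset.mem_insert, Finset.mem_singleton] at hqX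
      rcases hqX with rfl | rfl | rfl <;> simp only [Finset.mem_insert, Finset.mem_singleton] at hqu <;>
        rcases hqu with rfl | rfl <;> simp
    · left
      exact wh_mem (Finset.mem_sdiff.mpr ⟨hq, hqX⟩) hqu
  · rintro (hu | rfl | rfl | rfl)
    · exact Finset.biUnion_subset_biUnion_of_subset_left _ Finset.sdiff_subset hu
    · exact wh_mem (hXN (show (({u, w1}, {m, z}) : Quad) ∈ _ by unfold hexq; simp)) (by simp)
    · exact wh_mem (hXN (show (({p, u}, {m, z}) : Quad) ∈ _ by unfold hexq; simp)) (by simp)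
    · exact wh_mem (hXN (show (({w1, u}, {m, b1}) : Quad) ∈ _ by unfold hexq; simp)) (by simp)

lemma bl_split {w2 b1 b2 : ℕ} (hXN : hexq p z w1 w2 m b1 b2 ⊆ N) (u : ℕ) :
    u ∈ bl N ↔ u ∈ bl (N \ hexq p z w1 w2 m b1 b2) ∨ u = m ∨ u = z ∨ u = b1 ∨ u = b2 := by
  constructor
  · intro hu
    obtain ⟨q, hq, hqu⟩ := Finset.mem_biUnion.mp hu
    by_cases hqX : q ∈ hexq p z w1 w2 m b1 b2
    · right
      unfold hexq at hqX
      simp only [Finset.mem_insert, Finset.mem_singleton] at hqX
      rcases hqX with rfl | rfl | rfl <;> simp only [Finset.mem_insert, Finset.mem_singleton] at hqu <;>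
        rcases hqu with rfl | rfl <;> simp
    · left
      exact bl_mem (Finset.mem_sdiff.mpr ⟨hq, hqX⟩) hqu
  · rintro (hu | rfl | rfl | rfl | rfl)
    · exact Finset.biUnion_subset_biUnion_of_subset_left _ Finset.sdiff_subset hu
    · exact bl_mem (hXN (show (({p, w1}, {u, z}) : Quad) ∈ _ by unfold hexq; simp)) (by simp)
    · exact bl_mem (hXN (show (({p, w1}, {m, u}) : Quad) ∈ _ by unfold hexq; simp)) (by simp)
    · exact bl_mem (hXN (show (({w1, w2}, {m, u}) : Quad) ∈ _ by unfold hexq; simp)) (by simp)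
    · exact bl_mem (hXN (show (({w2, p}, {m, u}) : Quad) ∈ _ by unfold hexq; simp)) (by simp)

lemma m_gone {w2 b1 b2 : ℕ} (h : Fill true [p, z] c N)
    (hX : N.filter (fun q => m ∈ q.2) = hexq p z w1 w2 m b1 b2) :
    m ∉ wh (N \ hexq p z w1 w2 m b1 b2) ∧ m ∉ bl (N \ hexq p z w1 w2 m b1 b2) := by
  have hXN := hexq_sub hX
  have hmb : m ∈ bl N := (bl_split hXN m).mpr (Or.inr (Or.inl rfl))
  constructor
  · intro hu
    exact wb_ne h ((wh_split hXN m).mpr (Or.inl hu)) hmb rfl
  · intro hu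
    obtain ⟨q, hq, hqu⟩ := Finset.mem_biUnion.mp hu
    exact not_bl hX q hq hqu

lemma w_gone {w2 b1 b2 w : ℕ} (h : Fill true [p, z] c N) (hc : 4 ≤ c.length)
    (hXN : hexq p z w1 w2 m b1 b2 ⊆ N) (hw : ∃ q ∈ hexq p z w1 w2 m b1 b2, w ∈ q.1)
    (hb : ∀ e ∈ bd (hexq p z w1 w2 m b1 b2), e.1 ≠ w) :
    w ∉ wh (N \ hexq p z w1 w2 m b1 b2) ∧ w ∉ bl (N \ hexq p z w1 w2 m b1 b2) ∧ w ∉ c := by
  obtain ⟨h1, h2⟩ := h.link_white hXN w hw hb
  obtain ⟨q0, hq0, hwq0⟩ := hw
  have hwN : w ∈ wh N := wh_mem (hXN hq0) hwq0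
  refine ⟨?_, ?_, ?_⟩
  · intro hu
    obtain ⟨q, hq, hqu⟩ := Finset.mem_biUnion.mp hu
    rw [Finset.mem_sdiff] at hq
    exact hq.2 (h1 q hq.1 hqu)
  · intro hu
    exact wb_ne h hwN (Finset.biUnion_subset_biUnion_of_subset_left _ Finset.sdiff_subset hu) rfl
  · intro hu
    rw [← List.mem_toFinset, ← pw_union_pb true c, Finset.mem_union] at hu
    rcases hu with hu | hu
    · obtain ⟨e, he, hew⟩ := edge_at (by omega) hu
      exact h2 e (Finset.mem_union_right _ he) hew
    · exact Finset.disjoint_left.mp h.col (Finset.mem_union_left _ (Finset.mem_union_left _ hwN))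
        (Finset.mem_union_right _ hu)

end B7Aux

open B7Aux

/-- Case (C): the three other blacks are distinct. -/
theorem Fill.remove_hex_C {w2 b1 b2 : ℕ} (h : Fill true [p, z] c N) (hc : 4 ≤ c.length)
    (hm : m ∉ c) (hmz : m ≠ z) (hX : N.filter (fun q => m ∈ q.2) = hexq p z w1 w2 m b1 b2)
    (h3 : (hexq p z w1 w2 m b1 b2).card = 3) (hw1 : w1 ≠ p) (hw2 : w2 ≠ p) (hw : w2 ≠ w1)
    (hb2 : b2 ≠ z) (hm1 : b1 ≠ m) (hm2 : b2 ≠ m) (h1 : b1 ≠ z) (h12 : b1 ≠ b2) :
    Fill true [p, b2, w2, b1, w1, z] c (N \ hexq p z w1 w2 m b1 b2) ∧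
      (p, z) ∉ EdS (N \ hexq p z w1 w2 m b1 b2) ∧
      vx [p, b2, w2, b1, w1, z] c (N \ hexq p z w1 w2 m b1 b2) = vx [p, z] c N \ {m} := by
  have hXN := hexq_sub hX
  have hW : ∀ u, (u = p ∨ u = w1 ∨ u = w2) → u ∈ wh N := fun u hu => (wh_split hXN u).mpr (Or.inr hu)
  have hB : ∀ u, (u = m ∨ u = z ∨ u = b1 ∨ u = b2) → u ∈ bl N := fun u hu => (bl_split hXN u).mpr (Or.inr hu)
  have hne : ∀ u v, (u = p ∨ u = w1 ∨ u = w2) → (v = m ∨ v = z ∨ v = b1 ∨ v = b2) → u ≠ v :=
    fun u v hu hv => wb_ne h (hW u hu) (hB v hv)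
  have npm : p ≠ m := hne p m (by simp) (by simp)
  have npz : p ≠ z := hne p z (by simp) (by simp)
  have np1 : p ≠ b1 := hne p b1 (by simp) (by simp)
  have np2 : p ≠ b2 := hne p b2 (by simp) (by simp)
  have n1m : w1 ≠ m := hne w1 m (by simp) (by simp)
  have n1z : w1 ≠ z := hne w1 z (by simp) (by simp)
  have n11 : w1 ≠ b1 := hne w1 b1 (by simp) (by simp)
  have n12 : w1 ≠ b2 := hne w1 b2 (by simp) (by simp)
  have n2m : w2 ≠ m := hne w2 m (by simp) (by simp)
  have n2z : w2 ≠ z := hne w2 z (by simp) (by simp)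
  have n21 : w2 ≠ b1 := hne w2 b1 (by simp) (by simp)
  have n22 : w2 ≠ b2 := hne w2 b2 (by simp) (by simp)
  clear hne
  have hbd : bd (hexq p z w1 w2 m b1 b2) = insert (p, z) (pe true [p, b2, w2, b1, w1, z]) := by
    rw [bd_hex h3]
    ext ⟨u, v⟩
    simp only [Finset.mem_symmDiff, mem_ed, Finset.mem_insert, Finset.mem_singleton, pe, Prod.mk.injEq]
    clear hX hXN h h3 hc hW hB
    by_cases c1 : u = p
    · subst c1
      grind
    by_cases c2 : u = w1
    · subst c2
      grind
    by_cases c3 : u = w2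
    · subst c3
      grind
    grind
  have hfm : m ∉ [p, b2, w2, b1, w1, z] := by
    simp only [List.mem_cons, List.not_mem_nil]
    clear hX hXN h h3 hc hW hB
    grind
  have hgen := remove_gen (f' := [p, b2, w2, b1, w1, z]) h hc hm hX hw1 hw2 hw hfm (by
      simp only [List.nodup_cons, List.mem_cons, List.not_mem_nil, List.nodup_nil]
      clear hX hXN h h3 hc hW hB
      grind) rfl rfl (by simp) hbd (by
      simp only [pe, Finset.mem_insert, Prod.mk.injEq, Finset.notMem_empty]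
      clear hX hXN h h3 hc hW hB
      grind) (by
      intro u hu
      apply hW
      simp [pw] at hu
      tauto) (by
      intro u hu
      apply hB
      simp [pb, pw] at hu
      tauto)
  refine ⟨hgen.1, hgen.2, ?_⟩
  obtain ⟨g1, g2⟩ := m_gone h hX
  ext u
  simp only [vx, Finset.mem_union, Finset.mem_sdiff, Finset.mem_singleton, Finset.mem_insert, List.mem_toFinset,
    List.mem_cons, List.not_mem_nil, wh_split hXN u, bl_split hXN u]
  clear hX h h3 hc hW hB hgen
  grind


/-- Case (B1): `b1 = z`, the white vertex `w1` disappears. -/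
theorem Fill.remove_hex_B1 {w2 b2 : ℕ} (h : Fill true [p, z] c N) (hc : 4 ≤ c.length)
    (hm : m ∉ c) (hmz : m ≠ z) (hX : N.filter (fun q => m ∈ q.2) = hexq p z w1 w2 m z b2)
    (h3 : (hexq p z w1 w2 m z b2).card = 3) (hw1 : w1 ≠ p) (hw2 : w2 ≠ p) (hw : w2 ≠ w1)
    (hb2 : b2 ≠ z) (hm2 : b2 ≠ m) :
    Fill true [p, b2, w2, z] c (N \ hexq p z w1 w2 m z b2) ∧
      (p, z) ∉ EdS (N \ hexq p z w1 w2 m z b2) ∧
      vx [p, b2, w2, z] c (N \ hexq p z w1 w2 m z b2) = vx [p, z] c N \ {m, w1} := by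
  have hXN := hexq_sub hX
  have hW : ∀ u, (u = p ∨ u = w1 ∨ u = w2) → u ∈ wh N := fun u hu => (wh_split hXN u).mpr (Or.inr hu)
  have hB : ∀ u, (u = m ∨ u = z ∨ u = z ∨ u = b2) → u ∈ bl N := fun u hu => (bl_split hXN u).mpr (Or.inr hu)
  have hne : ∀ u v, (u = p ∨ u = w1 ∨ u = w2) → (v = m ∨ v = z ∨ v = z ∨ v = b2) → u ≠ v :=
    fun u v hu hv => wb_ne h (hW u hu) (hB v hv)
  have npm : p ≠ m := hne p m (by simp) (by simp)
  have npz : p ≠ z := hne p z (by simp) (by simp)
  have np1 : p ≠ z := hne p z (by simp) (by simp)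
  have np2 : p ≠ b2 := hne p b2 (by simp) (by simp)
  have n1m : w1 ≠ m := hne w1 m (by simp) (by simp)
  have n1z : w1 ≠ z := hne w1 z (by simp) (by simp)
  have n11 : w1 ≠ z := hne w1 z (by simp) (by simp)
  have n12 : w1 ≠ b2 := hne w1 b2 (by simp) (by simp)
  have n2m : w2 ≠ m := hne w2 m (by simp) (by simp)
  have n2z : w2 ≠ z := hne w2 z (by simp) (by simp)
  have n21 : w2 ≠ z := hne w2 z (by simp) (by simp)
  have n22 : w2 ≠ b2 := hne w2 b2 (by simp) (by simp)
  clear hne
  have hbd : bd (hexq p z w1 w2 m z b2) = insert (p, z) (pe true [p, b2, w2, z]) := by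
    rw [bd_hex h3]
    ext ⟨u, v⟩
    simp only [Finset.mem_symmDiff, mem_ed, Finset.mem_insert, Finset.mem_singleton, pe, Prod.mk.injEq]
    clear hX hXN h h3 hc hW hB
    by_cases c1 : u = p
    · subst c1
      grind
    by_cases c2 : u = w1
    · subst c2
      grind
    by_cases c3 : u = w2
    · subst c3
      grind
    grind
  have hfm : m ∉ [p, b2, w2, z] := by
    simp only [List.mem_cons, List.not_mem_nil]
    clear hX hXN h h3 hc hW hB
    grind
  have hgen := remove_gen (f' := [p, b2, w2, z]) h hc hm hX hw1 hw2 hw hfm (by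
      simp only [List.nodup_cons, List.mem_cons, List.not_mem_nil, List.nodup_nil]
      clear hX hXN h h3 hc hW hB
      grind) rfl rfl (by simp) hbd (by
      simp only [pe, Finset.mem_insert, Prod.mk.injEq, Finset.notMem_empty]
      clear hX hXN h h3 hc hW hB
      grind) (by
      intro u hu
      apply hW
      simp [pw] at hu
      tauto) (by
      intro u hu
      apply hB
      simp [pb, pw] at hu
      tauto)
  refine ⟨hgen.1, hgen.2, ?_⟩
  obtain ⟨g1, g2⟩ := m_gone h hX
  obtain ⟨g3, g4, g5⟩ := w_gone (w := w1) h hc hXN ⟨({p, w1}, {m, z}), by unfold hexq; simp, by simp⟩ (by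
    intro e he
    rw [hbd] at he
    simp only [Finset.mem_insert, pe, Finset.notMem_empty] at he
    rcases he with rfl | rfl | rfl | rfl | he <;> grind)
  ext u
  simp only [vx, Finset.mem_union, Finset.mem_sdiff, Finset.mem_singleton, Finset.mem_insert, List.mem_toFinset,
    List.mem_cons, List.not_mem_nil, wh_split hXN u, bl_split hXN u]
  clear hX h h3 hc hW hB hgen
  grind


/-- Case (B2): `b1 = b2`, the white vertex `w2` disappears. -/
theorem Fill.remove_hex_B2 {w2 b1 : ℕ} (h : Fill true [p, z] c N) (hc : 4 ≤ c.length)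
    (hm : m ∉ c) (hmz : m ≠ z) (hX : N.filter (fun q => m ∈ q.2) = hexq p z w1 w2 m b1 b1)
    (h3 : (hexq p z w1 w2 m b1 b1).card = 3) (hw1 : w1 ≠ p) (hw2 : w2 ≠ p) (hw : w2 ≠ w1)
    (hb1 : b1 ≠ z) (hm1 : b1 ≠ m) :
    Fill true [p, b1, w1, z] c (N \ hexq p z w1 w2 m b1 b1) ∧
      (p, z) ∉ EdS (N \ hexq p z w1 w2 m b1 b1) ∧
      vx [p, b1, w1, z] c (N \ hexq p z w1 w2 m b1 b1) = vx [p, z] c N \ {m, w2} := by
  have hXN := hexq_sub hX
  have hW : ∀ u, (u = p ∨ u = w1 ∨ u = w2) → u ∈ wh N := fun u hu => (wh_split hXN u).mpr (Or.inr hu)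
  have hB : ∀ u, (u = m ∨ u = z ∨ u = b1 ∨ u = b1) → u ∈ bl N := fun u hu => (bl_split hXN u).mpr (Or.inr hu)
  have hne : ∀ u v, (u = p ∨ u = w1 ∨ u = w2) → (v = m ∨ v = z ∨ v = b1 ∨ v = b1) → u ≠ v :=
    fun u v hu hv => wb_ne h (hW u hu) (hB v hv)
  have npm : p ≠ m := hne p m (by simp) (by simp)
  have npz : p ≠ z := hne p z (by simp) (by simp)
  have np1 : p ≠ b1 := hne p b1 (by simp) (by simp)
  have np2 : p ≠ b1 := hne p b1 (by simp) (by simp)
  have n1m : w1 ≠ m := hne w1 m (by simp) (by simp)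
  have n1z : w1 ≠ z := hne w1 z (by simp) (by simp)
  have n11 : w1 ≠ b1 := hne w1 b1 (by simp) (by simp)
  have n12 : w1 ≠ b1 := hne w1 b1 (by simp) (by simp)
  have n2m : w2 ≠ m := hne w2 m (by simp) (by simp)
  have n2z : w2 ≠ z := hne w2 z (by simp) (by simp)
  have n21 : w2 ≠ b1 := hne w2 b1 (by simp) (by simp)
  have n22 : w2 ≠ b1 := hne w2 b1 (by simp) (by simp)
  clear hne
  have hbd : bd (hexq p z w1 w2 m b1 b1) = insert (p, z) (pe true [p, b1, w1, z]) := by
    rw [bd_hex h3]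
    ext ⟨u, v⟩
    simp only [Finset.mem_symmDiff, mem_ed, Finset.mem_insert, Finset.mem_singleton, pe, Prod.mk.injEq]
    clear hX hXN h h3 hc hW hB
    by_cases c1 : u = p
    · subst c1
      grind
    by_cases c2 : u = w1
    · subst c2
      grind
    by_cases c3 : u = w2
    · subst c3
      grind
    grind
  have hfm : m ∉ [p, b1, w1, z] := by
    simp only [List.mem_cons, List.not_mem_nil]
    clear hX hXN h h3 hc hW hB
    grind
  have hgen := remove_gen (f' := [p, b1, w1, z]) h hc hm hX hw1 hw2 hw hfm (by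
      simp only [List.nodup_cons, List.mem_cons, List.not_mem_nil, List.nodup_nil]
      clear hX hXN h h3 hc hW hB
      grind) rfl rfl (by simp) hbd (by
      simp only [pe, Finset.mem_insert, Prod.mk.injEq, Finset.notMem_empty]
      clear hX hXN h h3 hc hW hB
      grind) (by
      intro u hu
      apply hW
      simp [pw] at hu
      tauto) (by
      intro u hu
      apply hB
      simp [pb, pw] at hu
      tauto)
  refine ⟨hgen.1, hgen.2, ?_⟩
  obtain ⟨g1, g2⟩ := m_gone h hX
  obtain ⟨g3, g4, g5⟩ := w_gone (w := w2) h hc hXN ⟨({w1, w2}, {m, b1}), by unfold hexq; simp, by simp⟩ (by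
    intro e he
    rw [hbd] at he
    simp only [Finset.mem_insert, pe, Finset.notMem_empty] at he
    rcases he with rfl | rfl | rfl | rfl | he <;> grind)
  ext u
  simp only [vx, Finset.mem_union, Finset.mem_sdiff, Finset.mem_singleton, Finset.mem_insert, List.mem_toFinset,
    List.mem_cons, List.not_mem_nil, wh_split hXN u, bl_split hXN u]
  clear hX h h3 hc hW hB hgen
  grind


end K5M
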