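import Pool.Agent.Lib.K5M.B7

/-!
# K5M.B8: inserting the three quads at a new black vertex at the root edge

Converse of B7.  `N'` is the given filling, `X = hexq ...`, `N = N' ∪ X`.  `m` (and the pendant white
vertex) is a new label, different from all vertices.

PROOF.  The quads of `X` contain `m`, so they are not in `N'`.  Edges: those at `m` are in exactly two quads
of `X` and in none of `N'`; in case B1 the edge `(w1, z)` and in case B2 the edge `(w2, b1)` are in exactly
two quads of `X` and in none of `N'` (new white vertex); the other edges of `X` are `(p, z)` (in one quad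
of `X`, not in `EdS N'`) and the edges of `f'` (in one quad of `X`, in at most one of `N'` by `dg_one`,
`dg_zero`).  So `two` holds.  `inj`: let `bd Y = ∅`; if `Y` contains a quad of `X` it contains all three (edges
at `m`), then `dg Y (p, z) = 1`, contradiction; so `Y ⊆ N'`.  `sur`: let `Z` be an even subset of
`EdS N ∪ {(p, z)} ∪ pe c`.  At `m`: `Z` has an even number of the three edges `(w, m)`; adding the boundary
of at most one quad of `X` we may assume that `Z` has no edge at `m` (two edges `(u, m), (v, m)` belong to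
one quad of `X`); then `Z` has no edge at the pendant white vertex (it has only one other edge); adding
`bd X` we may assume `(p, z) ∉ Z` (`bd X` has no edge at `m` and no edge at the pendant vertex).  Then
`Z ⊆ EdS N' ∪ pe f' ∪ pe c`.  `bnd`: `bd N = bd N' Δ bd X`, `bd X = {(p, z)} ∪ pe f'`, `(p, z) ∉ pe c`.
`qd N m = 3`, and `N.filter (m ∈ q.2) = X`.
-/

set_option autoImplicit false

namespace K5M

open Finset

variable {N : Finset Quad} {c : List ℕ} {p z w1 m : ℕ}

namespace B8Aux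

lemma mem_hexq {p z w1 w2 m b1 b2 : ℕ} {q : Quad} : q ∈ hexq p z w1 w2 m b1 b2 ↔
    q = ({p, w1}, {m, z}) ∨ q = ({w1, w2}, {m, b1}) ∨ q = ({w2, p}, {m, b2}) := by
  simp [hexq]

lemma ne12 {p z w1 w2 m b1 : ℕ} (h1 : p ≠ w1) (h2 : p ≠ w2) :
    (({p, w1}, {m, z}) : Quad) ≠ ({w1, w2}, {m, b1}) := by
  intro h
  have h3 : p ∈ ({w1, w2} : Finset ℕ) := by
    have h4 : ({p, w1} : Finset ℕ) = {w1, w2} := congrArg Prod.fst h
    rw [← h4]
    simp
  simp only [mem_insert, mem_singleton] at h3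
  omega

lemma ne13 {p z w1 w2 m b2 : ℕ} (h1 : p ≠ w1) (h12 : w1 ≠ w2) :
    (({p, w1}, {m, z}) : Quad) ≠ ({w2, p}, {m, b2}) := by
  intro h
  have h3 : w1 ∈ ({w2, p} : Finset ℕ) := by
    have h4 : ({p, w1} : Finset ℕ) = {w2, p} := congrArg Prod.fst h
    rw [← h4]
    simp
  simp only [mem_insert, mem_singleton] at h3
  omega

lemma ne23 {p w1 w2 m b1 b2 : ℕ} (h1 : p ≠ w1) (h12 : w1 ≠ w2) :
    (({w1, w2}, {m, b1}) : Quad) ≠ ({w2, p}, {m, b2}) := by
  intro h
  have h3 : w1 ∈ ({w2, p} : Finset ℕ) := by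
    have h4 : ({w1, w2} : Finset ℕ) = {w2, p} := congrArg Prod.fst h
    rw [← h4]
    simp
  simp only [mem_insert, mem_singleton] at h3
  omega

lemma dg_sub {p z w1 w2 m b1 b2 : ℕ} (h1 : p ≠ w1) (h2 : p ≠ w2) (h12 : w1 ≠ w2) (Y : Finset Quad) (e : Ed) :
    dg (Y ∩ hexq p z w1 w2 m b1 b2) e =
      (if (({p, w1}, {m, z}) : Quad) ∈ Y ∧ e ∈ ed ({p, w1}, {m, z}) then 1 else 0) +
      ((if (({w1, w2}, {m, b1}) : Quad) ∈ Y ∧ e ∈ ed ({w1, w2}, {m, b1}) then 1 else 0) +
      (if (({w2, p}, {m, b2}) : Quad) ∈ Y ∧ e ∈ ed ({w2, p}, {m, b2}) then 1 else 0)) := by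
  have e1 : (Y ∩ hexq p z w1 w2 m b1 b2).filter (fun q => e ∈ ed q) =
      (hexq p z w1 w2 m b1 b2).filter (fun q => q ∈ Y ∧ e ∈ ed q) := by
    ext q
    simp only [mem_filter, mem_inter]
    tauto
  unfold dg
  rw [e1, card_filter]
  unfold hexq
  rw [sum_insert, sum_insert, sum_singleton]
  · rw [mem_singleton]
    exact ne23 h1 h12
  · rw [mem_insert, mem_singleton]
    rintro (h | h)
    · exact ne12 h1 h2 h
    · exact ne13 h1 h12 h

lemma dg_hex {p z w1 w2 m b1 b2 : ℕ} (h1 : p ≠ w1) (h2 : p ≠ w2) (h12 : w1 ≠ w2) (e : Ed) :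
    dg (hexq p z w1 w2 m b1 b2) e =
      (if e ∈ ed ({p, w1}, {m, z}) then 1 else 0) +
      ((if e ∈ ed ({w1, w2}, {m, b1}) then 1 else 0) +
      (if e ∈ ed ({w2, p}, {m, b2}) then 1 else 0)) := by
  have h := dg_sub (z := z) (m := m) (b1 := b1) (b2 := b2) h1 h2 h12 (hexq p z w1 w2 m b1 b2) e
  rw [inter_self] at h
  rw [h]
  have m1 : (({p, w1}, {m, z}) : Quad) ∈ hexq p z w1 w2 m b1 b2 := mem_hexq.mpr (Or.inl rfl)
  have m2 : (({w1, w2}, {m, b1}) : Quad) ∈ hexq p z w1 w2 m b1 b2 := mem_hexq.mpr (Or.inr (Or.inl rfl))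
  have m3 : (({w2, p}, {m, b2}) : Quad) ∈ hexq p z w1 w2 m b1 b2 := mem_hexq.mpr (Or.inr (Or.inr rfl))
  simp only [m1, m2, m3, true_and]

lemma isq_hex {p z w1 w2 m b1 b2 : ℕ} (h1 : p ≠ w1) (h2 : p ≠ w2) (h12 : w1 ≠ w2) (hmz : m ≠ z)
    (hm1 : m ≠ b1) (hm2 : m ≠ b2) : ∀ q ∈ hexq p z w1 w2 m b1 b2, IsQ q := by
  intro q hq
  rcases mem_hexq.mp hq with rfl | rfl | rfl
  · exact ⟨card_pair h1, card_pair hmz⟩
  · exact ⟨card_pair h12, card_pair hm1⟩
  · exact ⟨card_pair h2.symm, card_pair hm2⟩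

lemma card_hex {p z w1 w2 m b1 b2 : ℕ} (h1 : p ≠ w1) (h2 : p ≠ w2) (h12 : w1 ≠ w2) :
    (hexq p z w1 w2 m b1 b2).card = 3 := by
  unfold hexq
  rw [card_insert_of_notMem, card_insert_of_notMem, card_singleton]
  · rw [mem_singleton]
    exact ne23 h1 h12
  · rw [mem_insert, mem_singleton]
    rintro (h | h)
    · exact ne12 h1 h2 h
    · exact ne13 h1 h12 h

lemma m_mem_hex {p z w1 w2 m b1 b2 : ℕ} {q : Quad} (hq : q ∈ hexq p z w1 w2 m b1 b2) : m ∈ q.2 := by
  rcases mem_hexq.mp hq with rfl | rfl | rfl <;> simp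

/-- Edges of the three quads. -/
lemma mem_EdS_hex {p z w1 w2 m b1 b2 : ℕ} {e : Ed} : e ∈ EdS (hexq p z w1 w2 m b1 b2) ↔
    ((e.1 = p ∨ e.1 = w1) ∧ (e.2 = m ∨ e.2 = z)) ∨ ((e.1 = w1 ∨ e.1 = w2) ∧ (e.2 = m ∨ e.2 = b1)) ∨
      ((e.1 = w2 ∨ e.1 = p) ∧ (e.2 = m ∨ e.2 = b2)) := by
  rw [mem_EdS]
  constructor
  · rintro ⟨q, hq, he⟩
    rw [mem_ed] at he
    rcases mem_hexq.mp hq with rfl | rfl | rfl
    · simp only [mem_insert, mem_singleton] at he
      exact Or.inl he
    · simp only [mem_insert, mem_singleton] at he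
      exact Or.inr (Or.inl he)
    · simp only [mem_insert, mem_singleton] at he
      exact Or.inr (Or.inr he)
  · rintro (h | h | h)
    · exact ⟨_, mem_hexq.mpr (Or.inl rfl), mem_ed.mpr (by simpa using h)⟩
    · exact ⟨_, mem_hexq.mpr (Or.inr (Or.inl rfl)), mem_ed.mpr (by simpa using h)⟩
    · exact ⟨_, mem_hexq.mpr (Or.inr (Or.inr rfl)), mem_ed.mpr (by simpa using h)⟩

lemma wh_hex {p z w1 w2 m b1 b2 : ℕ} {w : ℕ} : w ∈ wh (hexq p z w1 w2 m b1 b2) ↔ w = p ∨ w = w1 ∨ w = w2 := by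
  unfold wh hexq
  simp only [mem_biUnion, mem_insert, mem_singleton, exists_eq_or_imp, exists_eq_left]
  tauto

lemma bl_hex {p z w1 w2 m b1 b2 : ℕ} {b : ℕ} :
    b ∈ bl (hexq p z w1 w2 m b1 b2) ↔ b = m ∨ b = z ∨ b = b1 ∨ b = b2 := by
  unfold bl hexq
  simp only [mem_biUnion, mem_insert, mem_singleton, exists_eq_or_imp, exists_eq_left]
  tauto

lemma wh_union (X Y : Finset Quad) : wh (X ∪ Y) = wh X ∪ wh Y := by
  unfold wh
  ext x
  simp only [mem_biUnion, mem_union, or_and_right, exists_or]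

lemma bl_union (X Y : Finset Quad) : bl (X ∪ Y) = bl X ∪ bl Y := by
  unfold bl
  ext x
  simp only [mem_biUnion, mem_union, or_and_right, exists_or]

lemma pe_two (p z : ℕ) : pe true [p, z] = {(p, z)} := by
  rw [pe_cons, pe_single]
  rfl

/-- The general insertion lemma. -/
lemma core {f c : List ℕ} {N : Finset Quad} {p z w1 w2 m b1 b2 : ℕ} (h : Fill true f c N)
    (hc : 4 ≤ c.length) (he : (p, z) ∉ EdS N) (hm : m ∉ vx f c N)
    (h1 : p ≠ w1) (h2 : p ≠ w2) (h12 : w1 ≠ w2) (hmz : m ≠ z) (hm1 : m ≠ b1) (hm2 : m ≠ b2)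
    (hb2 : b2 ≠ z) (hhd : f.head? = some p) (hlt : f.getLast? = some z) (hpar : f.length % 2 = 0)
    (hpz : p ≠ z)
    (hbd : bd (hexq p z w1 w2 m b1 b2) = insert (p, z) (pe true f)) (hnot : (p, z) ∉ pe true f)
    (hint : ∀ e ∈ EdS (hexq p z w1 w2 m b1 b2), e ∉ bd (hexq p z w1 w2 m b1 b2) →
      e ∉ EdS N)
    (htwo : ∀ e, dg (hexq p z w1 w2 m b1 b2) e ≤ 2)
    (hsur : ∀ Z ⊆ EdS (N ∪ hexq p z w1 w2 m b1 b2) ∪ pe true c, Evn Z → (∀ e ∈ Z, e.2 ≠ m) →
      (p, z) ∉ Z → Z ⊆ EdS N ∪ pe true f ∪ pe true c)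
    (hcol : Disjoint (wh (N ∪ hexq p z w1 w2 m b1 b2) ∪ pw true [p, z] ∪ pw true c)
      (bl (N ∪ hexq p z w1 w2 m b1 b2) ∪ pb true [p, z] ∪ pb true c)) :
    Disjoint N (hexq p z w1 w2 m b1 b2) ∧
      Fill true [p, z] c (N ∪ hexq p z w1 w2 m b1 b2) ∧
      (N ∪ hexq p z w1 w2 m b1 b2).filter (fun q => m ∈ q.2) = hexq p z w1 w2 m b1 b2 ∧
      (hexq p z w1 w2 m b1 b2).card = 3 := by
  set X := hexq p z w1 w2 m b1 b2 with hX
  have hmN : ∀ q ∈ N, m ∉ q.2 := by
    intro q hq hmq
    apply hm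
    unfold vx
    simp only [mem_union]
    left; left; right
    exact mem_biUnion.mpr ⟨q, hq, hmq⟩
  have hmE : ∀ e ∈ EdS N, e.2 ≠ m := by
    intro e he' hem
    obtain ⟨q, hq, heq⟩ := mem_EdS.mp he'
    exact hmN q hq (hem ▸ (mem_ed.mp heq).2)
  have hmpf : ∀ e ∈ pe true f, e.2 ≠ m := by
    intro e he' hem
    apply hm
    have h3 := (mem_pe_vert he').2
    have h4 : e.2 ∈ f.toFinset := by
      rw [← pw_union_pb true f]
      exact mem_union_right _ h3
    unfold vx
    simp only [mem_union]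
    left; right
    exact hem ▸ h4
  have hmpc : ∀ e ∈ pe true c, e.2 ≠ m := by
    intro e he' hem
    apply hm
    have h3 := (mem_pe_vert he').2
    have h4 : e.2 ∈ c.toFinset := by
      rw [← pw_union_pb true c]
      exact mem_union_right _ h3
    unfold vx
    simp only [mem_union]
    right
    exact hem ▸ h4
  have hdisj : Disjoint N X := by
    rw [disjoint_left]
    intro q hq hqX
    exact hmN q hq (m_mem_hex hqX)
  have hcp : (p, z) ∉ pe true c :=
    ends_not_mem h.nc hc (by rw [← h.hd, hhd]) (by rw [← h.lt, hlt])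
  have hdg : ∀ e, dg (N ∪ X) e = dg N e + dg X e := fun e => dg_union hdisj e
  have hdgN0 : ∀ e, e ∉ EdS N → dg N e = 0 := by
    intro e he'
    have := dg_pos (N := N) (e := e)
    by_contra hcon
    exact he' (this.mp (by omega))
  have hXdg1 : ∀ e ∈ bd X, dg X e = 1 := by
    intro e he'
    have h3 := mem_bd.mp he'
    have h4 := htwo e
    rcases h3 with ⟨k, hk⟩
    omega
  have hN2 : ∀ e, dg N e ≤ 2 := h.ac.two
  have hN1 : ∀ e ∈ pe true f, dg N e ≤ 1 := by
    intro e he'
    by_cases h3 : e ∈ pe true c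
    · rw [h.dg_zero (mem_inter.mpr ⟨he', h3⟩)]
      omega
    · rw [h.dg_one (mem_symmDiff.mpr (Or.inl ⟨he', h3⟩))]
  have hmedge : ∀ e : Ed, e.2 = m → ∀ Y : Finset Quad, Y ⊆ N ∪ X → dg Y e = dg (Y ∩ X) e := by
    intro e hem Y hY
    unfold dg
    congr 1
    ext q
    simp only [mem_filter, mem_inter]
    constructor
    · rintro ⟨hq, hqe⟩
      refine ⟨⟨hq, ?_⟩, hqe⟩
      rcases mem_union.mp (hY hq) with h3 | h3
      · exact absurd (hem ▸ (mem_ed.mp hqe).2) (hmN q h3)
      · exact h3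
    · rintro ⟨⟨hq, _⟩, hqe⟩
      exact ⟨hq, hqe⟩
  refine ⟨hdisj, ⟨⟨?_, ?_, ?_, ?_, ?_⟩, ?_, ?_, ?_, h.nc, ?_, ?_, ?_, ?_, hcol⟩, ?_, card_hex h1 h2 h12⟩
  · -- isq
    intro q hq
    rcases mem_union.mp hq with h3 | h3
    · exact h.ac.isq q h3
    · exact isq_hex h1 h2 h12 hmz hm1 hm2 q h3
  · -- sub
    intro e he'
    exact mem_union_left _ (mem_union_left _ he')
  · -- two
    intro e
    rw [hdg]
    by_cases hb : e ∈ bd X
    · rw [hXdg1 e hb]
      rw [hbd, mem_insert] at hb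
      rcases hb with rfl | hb
      · rw [hdgN0 _ he]
        omega
      · have := hN1 e hb
        omega
    · by_cases hE : e ∈ EdS X
      · rw [hdgN0 e (hint e hE hb)]
        have := htwo e
        omega
      · have h3 : dg X e = 0 := by
          have := dg_pos (N := X) (e := e)
          by_contra hcon
          exact hE (this.mp (by omega))
        have := hN2 e
        omega
  · -- inj
    intro Y hY hYb
    have hev : ∀ e, Even (dg Y e) := by
      intro e
      by_contra hcon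
      rw [Nat.not_even_iff_odd] at hcon
      have h3 := mem_bd.mpr hcon
      rw [hYb] at h3
      exact notMem_empty _ h3
    have epm := hev (p, m)
    have e1m := hev (w1, m)
    rw [hmedge (p, m) rfl Y hY, hX, dg_sub h1 h2 h12] at epm
    rw [hmedge (w1, m) rfl Y hY, hX, dg_sub h1 h2 h12] at e1m
    simp only [mem_ed, mem_insert, mem_singleton, true_or, or_true, and_true, h1, h2, h12, h1.symm, h12.symm,
      h2.symm, or_false, false_or, false_and, and_false, if_false, zero_add, add_zero] at epm e1m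
    have hYN : Y ⊆ N := by
      by_cases hq1 : (({p, w1}, {m, z}) : Quad) ∈ Y
      · exfalso
        have hq3 : (({w2, p}, {m, b2}) : Quad) ∈ Y := by
          by_contra hcon
          simp only [hq1, hcon, if_true, if_false, add_zero] at epm
          exact absurd epm (by decide)
        have hq2 : (({w1, w2}, {m, b1}) : Quad) ∈ Y := by
          by_contra hcon
          simp only [hq1, hcon, if_true, if_false, add_zero] at e1m
          exact absurd e1m (by decide)
        have hXY : X ⊆ Y := by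
          intro q hq
          rcases mem_hexq.mp hq with rfl | rfl | rfl
          · exact hq1
          · exact hq2
          · exact hq3
        have h3 : dg Y (p, z) = dg (Y \ X) (p, z) + dg X (p, z) := (dg_sdiff hXY (p, z)).symm
        have h4 : dg (Y \ X) (p, z) = 0 := by
          have h5 : Y \ X ⊆ N := by
            intro q hq
            have h6 := mem_sdiff.mp hq
            rcases mem_union.mp (hY h6.1) with h7 | h7
            · exact h7
            · exact absurd h7 h6.2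
          have h6 := dg_mono h5 (p, z)
          rw [hdgN0 _ he] at h6
          omega
        have h5 : dg X (p, z) = 1 := hXdg1 _ (by rw [hbd]; exact mem_insert_self _ _)
        have h6 := hev (p, z)
        rw [h3, h4, h5] at h6
        exact absurd h6 (by decide)
      · have hq3 : (({w2, p}, {m, b2}) : Quad) ∉ Y := by
          intro hcon
          simp only [hq1, hcon, if_true, if_false, zero_add] at epm
          exact absurd epm (by decide)
        have hq2 : (({w1, w2}, {m, b1}) : Quad) ∉ Y := by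
          intro hcon
          simp only [hq1, hcon, if_true, if_false, zero_add] at e1m
          exact absurd e1m (by decide)
        intro q hq
        rcases mem_union.mp (hY hq) with h3 | h3
        · exact h3
        · exfalso
          rcases mem_hexq.mp h3 with rfl | rfl | rfl
          · exact hq1 hq
          · exact hq2 hq
          · exact hq3 hq
    exact h.ac.inj Y hYN hYb
  · -- sur
    intro Z hZ hZe
    have hmX : ∀ e ∈ bd X, e.2 ≠ m := by
      intro e he'
      rw [hbd, mem_insert] at he'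
      rcases he' with rfl | he'
      · exact hmz.symm
      · exact hmpf e he'
    have hZsub : ∀ e ∈ Z, e ∈ EdS N ∨ e ∈ EdS X ∨ e ∈ pe true c := by
      intro e he'
      have h3 := hZ he'
      rw [EdS_union, pe_two] at h3
      simp only [mem_union, mem_singleton] at h3
      rcases h3 with ((h3 | h3) | h3) | h3
      · exact Or.inl h3
      · exact Or.inr (Or.inl h3)
      · right; left
        rw [h3]
        exact bd_sub X (by rw [hbd]; exact mem_insert_self _ _)
      · exact Or.inr (Or.inr h3)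
    -- the edges at `m`
    have hZm : ∀ e ∈ Z, e.2 = m → e = (p, m) ∨ e = (w1, m) ∨ e = (w2, m) := by
      rintro ⟨w, b⟩ he' hem
      simp only at hem
      subst hem
      rcases hZsub _ he' with h3 | h3 | h3
      · exact absurd rfl (hmE _ h3)
      · rw [hX, mem_EdS_hex] at h3
        simp only [Prod.mk.injEq, and_true]
        simp only at h3
        tauto
      · exact absurd rfl (hmpc _ h3)
    have hstep : ∃ X1 ⊆ X, ∀ e ∈ symmDiff Z (bd X1), e.2 ≠ m := by
      have hev := hZe.2 m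
      have hcard : (Z.filter (fun e => e.2 = m)).card =
          (if (p, m) ∈ Z then 1 else 0) + ((if (w1, m) ∈ Z then 1 else 0) + (if (w2, m) ∈ Z then 1 else 0)) := by
        have e1 : Z.filter (fun e => e.2 = m) =
            (insert (p, m) (insert (w1, m) {(w2, m)}) : Finset Ed).filter (fun e => e ∈ Z) := by
          ext e
          simp only [mem_filter, mem_insert, mem_singleton]
          constructor
          · rintro ⟨h3, h4⟩
            exact ⟨hZm e h3 h4, h3⟩
          · rintro ⟨h3, h4⟩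
            refine ⟨h4, ?_⟩
            rcases h3 with rfl | rfl | rfl <;> rfl
        rw [e1, card_filter, sum_insert, sum_insert, sum_singleton]
        · rw [mem_singleton, Prod.mk.injEq]
          tauto
        · rw [mem_insert, mem_singleton, Prod.mk.injEq, Prod.mk.injEq]
          tauto
      rw [hcard] at hev
      have fin : ∀ q : Quad, q ∈ X → (∀ e : Ed, e.2 = m → (e ∈ Z ↔ e ∈ ed q)) →
          ∃ X1 ⊆ X, ∀ e ∈ symmDiff Z (bd X1), e.2 ≠ m := by
        intro q hq hqe
        refine ⟨{q}, singleton_subset_iff.mpr hq, ?_⟩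
        intro e he' hem
        rw [bd_singleton, mem_symmDiff] at he'
        have := hqe e hem
        tauto
      have key : ∀ q : Quad, q.2 = {m, z} ∨ q.2 = {m, b1} ∨ q.2 = {m, b2} →
          ∀ a b c' : ℕ, (∀ e ∈ Z, e.2 = m → e = (a, m) ∨ e = (b, m) ∨ e = (c', m)) → q.1 = {a, b} →
          (a, m) ∈ Z → (b, m) ∈ Z → (c', m) ∉ Z → (∀ e : Ed, e.2 = m → (e ∈ Z ↔ e ∈ ed q)) := by
        intro q hq2 a b c' hall hq1 ha hb hc' e hem
        rw [mem_ed, hq1]
        have hmq : m ∈ q.2 := by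
          rcases hq2 with h3 | h3 | h3 <;> rw [h3] <;> simp
        rw [hem]
        simp only [mem_insert, mem_singleton, hmq, and_true]
        constructor
        · intro he'
          rcases hall e he' hem with rfl | rfl | rfl
          · exact Or.inl rfl
          · exact Or.inr rfl
          · exact absurd he' hc'
        · rcases e with ⟨w, b'⟩
          simp only at hem ⊢
          subst hem
          rintro (rfl | rfl)
          · exact ha
          · exact hb
      by_cases a1 : (p, m) ∈ Z <;> by_cases a2 : (w1, m) ∈ Z <;> by_cases a3 : (w2, m) ∈ Z <;>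
        simp only [a1, a2, a3, if_true, if_false] at hev
      · exact absurd hev (by decide)
      · exact fin _ (mem_hexq.mpr (Or.inl rfl)) (key _ (Or.inl rfl) p w1 w2 hZm rfl a1 a2 a3)
      · exact fin _ (mem_hexq.mpr (Or.inr (Or.inr rfl))) (key _ (Or.inr (Or.inr rfl)) w2 p w1
          (fun e h3 h4 => by have := hZm e h3 h4; tauto) rfl a3 a1 a2)
      · exact absurd hev (by decide)
      · exact fin _ (mem_hexq.mpr (Or.inr (Or.inl rfl))) (key _ (Or.inr (Or.inl rfl)) w1 w2 p
          (fun e h3 h4 => by have := hZm e h3 h4; tauto) rfl a2 a3 a1)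
      · exact absurd hev (by decide)
      · exact absurd hev (by decide)
      · refine ⟨∅, empty_subset _, ?_⟩
        intro e he' hem
        rw [bd_empty, mem_symmDiff] at he'
        rcases he' with ⟨h3, _⟩ | ⟨h3, _⟩
        · rcases hZm e h3 hem with rfl | rfl | rfl
          · exact a1 h3
          · exact a2 h3
          · exact a3 h3
        · exact notMem_empty _ h3
    obtain ⟨X1, hX1, hX1m⟩ := hstep
    have hXq := isq_hex (z := z) (b1 := b1) (b2 := b2) h1 h2 h12 hmz hm1 hm2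
    have hstep2 : ∃ X2 ⊆ X, (∀ e ∈ symmDiff Z (bd X2), e.2 ≠ m) ∧ (p, z) ∉ symmDiff Z (bd X2) := by
      by_cases h3 : (p, z) ∈ symmDiff Z (bd X1)
      · refine ⟨symmDiff X1 X, ?_, ?_, ?_⟩
        · intro q hq
          rcases mem_symmDiff.mp hq with h4 | h4
          · exact hX1 h4.1
          · exact h4.1
        · rw [bd_symmDiff, ← symmDiff_assoc]
          intro e he'
          rcases mem_symmDiff.mp he' with h4 | h4
          · exact hX1m e h4.1
          · exact hmX e h4.1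
        · rw [bd_symmDiff, ← symmDiff_assoc, mem_symmDiff]
          rintro (h4 | h4)
          · exact h4.2 (by rw [hbd]; exact mem_insert_self _ _)
          · exact h4.2 h3
      · exact ⟨X1, hX1, hX1m, h3⟩
    obtain ⟨X2, hX2, hX2m, hX2p⟩ := hstep2
    have hZ2e : Evn (symmDiff Z (bd X2)) := Evn_symmDiff hZe (Evn_bd (fun q hq => hXq q (hX2 hq)))
    have hZ2s : symmDiff Z (bd X2) ⊆ EdS (N ∪ X) ∪ pe true c := by
      intro e he'
      rw [EdS_union, mem_union, mem_union]
      rcases mem_symmDiff.mp he' with h4 | h4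
      · have := hZsub e h4.1
        tauto
      · left; right
        exact EdS_mono hX2 (bd_sub X2 h4.1)
    obtain ⟨Y, hY, hYb⟩ := h.ac.sur _ (hsur _ hZ2s hZ2e hX2m hX2p) hZ2e
    refine ⟨Y ∪ X2, union_subset_union hY hX2, ?_⟩
    rw [bd_union (disjoint_of_subset_left hY (disjoint_of_subset_right hX2 hdisj)), hYb, symmDiff_assoc,
      symmDiff_self]
    exact symmDiff_bot _
  · -- bnd
    rw [bd_union hdisj, h.bnd, hbd, pe_two]
    ext e
    simp only [mem_symmDiff, mem_insert, mem_singleton]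
    by_cases h3 : e = (p, z)
    · subst h3
      simp only [hnot, hcp, true_or, not_true, not_false_iff, and_false, and_true, or_false, false_or, true_and]
    · simp only [h3, false_or, not_false_iff, and_true, false_and]
      tauto
  · -- dj
    rw [pe_two]
    have h3 : ({(p, z)} : Finset Ed) ∩ pe true c = ∅ := by
      rw [singleton_inter_of_notMem hcp]
    rw [h3]
    exact disjoint_empty_left _
  · -- nf
    simp [hpz]
  · exact List.cons_ne_nil _ _
  · rw [← h.hd, hhd]
    rfl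
  · rw [← h.lt, hlt]
    rfl
  · rw [← h.par, hpar]
    simp
  · ext q
    rw [mem_filter, mem_union]
    constructor
    · rintro ⟨h3 | h3, h4⟩
      · exact absurd h4 (hmN q h3)
      · exact h3
    · intro h3
      exact ⟨Or.inr h3, m_mem_hex h3⟩

end B8Aux

namespace B8Aux

/-- Colours of the new vertices. -/
lemma colr {f c : List ℕ} {N : Finset Quad} {p z w1 w2 m b1 b2 ω : ℕ} (h : Fill true f c N)
    (hm : m ∉ vx f c N) (hω : ω ∉ vx f c N) (hmω : m ≠ ω)
    (hp : p ∈ pw true f) (hw1 : w1 ∈ pw true f ∨ w1 = ω) (hw2 : w2 ∈ pw true f ∨ w2 = ω)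
    (hz : z ∈ pb true f) (hb1 : b1 ∈ pb true f) (hb2 : b2 ∈ pb true f) :
    Disjoint (wh (N ∪ hexq p z w1 w2 m b1 b2) ∪ pw true [p, z] ∪ pw true c)
      (bl (N ∪ hexq p z w1 w2 m b1 b2) ∪ pb true [p, z] ∪ pb true c) := by
  have hvx : ∀ v, v ∈ wh N ∪ pw true f ∪ pw true c ∨ v ∈ bl N ∪ pb true f ∪ pb true c → v ∈ vx f c N := by
    intro v hv
    unfold vx
    rw [← pw_union_pb true f, ← pw_union_pb true c]
    simp only [mem_union] at hv ⊢
    tauto
  have hW : ∀ v, v ∈ wh (N ∪ hexq p z w1 w2 m b1 b2) ∪ pw true [p, z] ∪ pw true c →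
      v ∈ wh N ∪ pw true f ∪ pw true c ∨ v = ω := by
    intro v hv
    rw [wh_union] at hv
    have e1 : pw true [p, z] = {p} := rfl
    rw [e1] at hv
    simp only [mem_union, mem_singleton, wh_hex] at hv
    simp only [mem_union]
    rcases hv with ((hv | hv | hv | hv) | hv) | hv
    · tauto
    · rw [hv]; tauto
    · rw [hv]; tauto
    · rw [hv]; tauto
    · rw [hv]; tauto
    · tauto
  have hB : ∀ v, v ∈ bl (N ∪ hexq p z w1 w2 m b1 b2) ∪ pb true [p, z] ∪ pb true c →
      v ∈ bl N ∪ pb true f ∪ pb true c ∨ v = m := by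
    intro v hv
    rw [bl_union] at hv
    have e1 : pb true [p, z] = {z} := rfl
    rw [e1] at hv
    simp only [mem_union, mem_singleton, bl_hex] at hv
    simp only [mem_union]
    rcases hv with ((hv | hv | hv | hv | hv) | hv) | hv
    · tauto
    · tauto
    · rw [hv]; tauto
    · rw [hv]; tauto
    · rw [hv]; tauto
    · rw [hv]; tauto
    · tauto
  rw [disjoint_left]
  intro v hv hv'
  rcases hW v hv with h3 | h3
  · rcases hB v hv' with h4 | h4
    · exact (disjoint_left.mp h.col) h3 h4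
    · exact hm (h4 ▸ hvx v (Or.inl h3))
  · rcases hB v hv' with h4 | h4
    · exact hω (h3 ▸ hvx v (Or.inr h4))
    · exact hmω (h4.symm.trans h3)

lemma odd3 (A B C : Prop) [Decidable A] [Decidable B] [Decidable C] :
    Odd ((if A then 1 else 0) + ((if B then 1 else 0) + (if C then 1 else 0)) : ℕ) ↔
      ((A ∧ ¬ B ∧ ¬ C) ∨ (¬ A ∧ B ∧ ¬ C) ∨ (¬ A ∧ ¬ B ∧ C) ∨ (A ∧ B ∧ C)) := by
  by_cases a : A <;> by_cases b : B <;> by_cases c : C <;> simp only [a, b, c, if_true, if_false] <;> decide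

lemma le3 (A B C : Prop) [Decidable A] [Decidable B] [Decidable C] (h : ¬ (A ∧ B ∧ C)) :
    ((if A then 1 else 0) + ((if B then 1 else 0) + (if C then 1 else 0)) : ℕ) ≤ 2 := by
  by_cases a : A <;> by_cases b : B <;> by_cases c : C <;> simp only [a, b, c, if_true, if_false]
  · exact absurd ⟨a, b, c⟩ h
  all_goals decide

lemma mem_bd_hex {p z w1 w2 m b1 b2 : ℕ} (h1 : p ≠ w1) (h2 : p ≠ w2) (h12 : w1 ≠ w2) {w b : ℕ} :
    (w, b) ∈ bd (hexq p z w1 w2 m b1 b2) ↔
      (w = p ∧ ((b = z ∧ b ≠ m ∧ b ≠ b2) ∨ (b = b2 ∧ b ≠ m ∧ b ≠ z))) ∨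
      (w = w1 ∧ ((b = z ∧ b ≠ m ∧ b ≠ b1) ∨ (b = b1 ∧ b ≠ m ∧ b ≠ z))) ∨
      (w = w2 ∧ ((b = b1 ∧ b ≠ m ∧ b ≠ b2) ∨ (b = b2 ∧ b ≠ m ∧ b ≠ b1))) := by
  rw [mem_bd, dg_hex h1 h2 h12, odd3]
  simp only [mem_ed, mem_insert, mem_singleton]
  by_cases a : w = p
  · subst a
    simp only [h1, h2, true_or, or_true, true_and, false_or, false_and, not_false_iff, or_false]
    by_cases hm : b = m <;> simp only [hm, true_or, not_true, true_and, and_false, false_or, false_and, or_false,
      ne_eq, not_false_iff, and_true, or_self] <;> tauto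
  · by_cases a1 : w = w1
    · subst a1
      simp only [h12, a, true_or, or_true, true_and, false_or, false_and, not_false_iff, or_false]
      by_cases hm : b = m <;> simp only [hm, true_or, not_true, true_and, and_false, false_or, false_and, or_false,
        ne_eq, not_false_iff, and_true, or_self] <;> tauto
    · by_cases a2 : w = w2
      · subst a2
        simp only [a, a1, true_or, or_true, true_and, false_or, false_and, not_false_iff, or_false]
        by_cases hm : b = m <;> simp only [hm, true_or, not_true, true_and, and_false, false_or, false_and, or_false,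
          ne_eq, not_false_iff, and_true, or_self] <;> tauto
      · simp only [a, a1, a2, false_and, or_false, and_false, not_false_iff]

lemma two_hex {p z w1 w2 m b1 b2 : ℕ} (h1 : p ≠ w1) (h2 : p ≠ w2) (h12 : w1 ≠ w2) (e : Ed) :
    dg (hexq p z w1 w2 m b1 b2) e ≤ 2 := by
  rw [dg_hex h1 h2 h12]
  refine le3 _ _ _ ?_
  simp only [mem_ed, mem_insert, mem_singleton]
  rintro ⟨⟨a1, _⟩, ⟨a2, _⟩, ⟨a3, _⟩⟩
  omega

end B8Aux

open B8Aux in
theorem Fill.insert_hex_C {w2 b1 b2 : ℕ} (h : Fill true [p, b2, w2, b1, w1, z] c N)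
    (hc : 4 ≤ c.length) (he : (p, z) ∉ EdS N) (hm : m ∉ vx [p, b2, w2, b1, w1, z] c N) :
    Disjoint N (hexq p z w1 w2 m b1 b2) ∧
      Fill true [p, z] c (N ∪ hexq p z w1 w2 m b1 b2) ∧
      (N ∪ hexq p z w1 w2 m b1 b2).filter (fun q => m ∈ q.2) = hexq p z w1 w2 m b1 b2 ∧
      (hexq p z w1 w2 m b1 b2).card = 3 ∧
      vx [p, z] c (N ∪ hexq p z w1 w2 m b1 b2) = insert m (vx [p, b2, w2, b1, w1, z] c N) := by
  have hnd := h.nf
  simp only [List.nodup_cons, List.mem_cons, List.not_mem_nil, or_false, not_or, not_false_iff,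
    List.nodup_nil, and_true] at hnd
  obtain ⟨⟨d1, d2, d3, d4, d5⟩, ⟨d6, d7, d8, d9⟩, ⟨d10, d11, d12⟩, ⟨d13, d14⟩, d15⟩ := hnd
  have hmv : m ≠ p ∧ m ≠ b2 ∧ m ≠ w2 ∧ m ≠ b1 ∧ m ≠ w1 ∧ m ≠ z := by
    refine ⟨?_, ?_, ?_, ?_, ?_, ?_⟩ <;>
    · rintro rfl
      apply hm
      simp [vx]
  obtain ⟨m1, m2, m3, m4, m5, m6⟩ := hmv
  have hpe : pe true [p, b2, w2, b1, w1, z] = {(p, b2), (w2, b2), (w2, b1), (w1, b1), (w1, z)} := rfl
  have hpw : pw true [p, b2, w2, b1, w1, z] = {p, w2, w1} := rfl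
  have hpb : pb true [p, b2, w2, b1, w1, z] = {b2, b1, z} := rfl
  obtain ⟨ω, hω⟩ := Infinite.exists_notMem_finset (insert m (vx [p, b2, w2, b1, w1, z] c N))
  rw [mem_insert, not_or] at hω
  have hbd : bd (hexq p z w1 w2 m b1 b2) = insert (p, z) (pe true [p, b2, w2, b1, w1, z]) := by
    ext ⟨w, b⟩
    rw [mem_bd_hex (Ne.symm (Ne.symm d4)) d2 (Ne.symm d11), hpe]
    simp only [mem_insert, mem_singleton, Prod.mk.injEq]
    constructor
    · rintro (⟨rfl, ⟨rfl, _⟩ | ⟨rfl, _⟩⟩ | ⟨rfl, ⟨rfl, _⟩ | ⟨rfl, _⟩⟩ | ⟨rfl, ⟨rfl, _⟩ | ⟨rfl, _⟩⟩) <;> simp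
    · rintro (⟨rfl, rfl⟩ | ⟨rfl, rfl⟩ | ⟨rfl, rfl⟩ | ⟨rfl, rfl⟩ | ⟨rfl, rfl⟩ | ⟨rfl, rfl⟩)
      · left; exact ⟨rfl, Or.inl ⟨rfl, Ne.symm m6, Ne.symm d9⟩⟩
      · left; exact ⟨rfl, Or.inr ⟨rfl, Ne.symm m2, d9⟩⟩
      · right; right; exact ⟨rfl, Or.inr ⟨rfl, Ne.symm m2, d7⟩⟩
      · right; right; exact ⟨rfl, Or.inl ⟨rfl, Ne.symm m4, Ne.symm d7⟩⟩
      · right; left; exact ⟨rfl, Or.inr ⟨rfl, Ne.symm m4, d14⟩⟩
      · right; left; exact ⟨rfl, Or.inl ⟨rfl, Ne.symm m6, Ne.symm d14⟩⟩
  have hmE : ∀ e ∈ EdS N, e.2 ≠ m := by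
    rintro e he' rfl
    apply hm
    unfold vx
    simp only [mem_union]
    left; left; right
    exact (mem_vx_of_EdS he').2
  have hall : ∀ e ∈ EdS (hexq p z w1 w2 m b1 b2), e.2 = m ∨ e ∈ bd (hexq p z w1 w2 m b1 b2) := by
    rintro ⟨w, b⟩ he'
    rw [mem_EdS_hex] at he'
    rw [hbd, hpe]
    simp only [mem_insert, mem_singleton, Prod.mk.injEq] at he' ⊢
    tauto
  obtain ⟨r1, r2, r3, r4⟩ := core (w1 := w1) (w2 := w2) (b1 := b1) (b2 := b2) h hc he hm d4 d2 (Ne.symm d11)
    m6 m4 m2 d9 rfl rfl (by simp) d5 hbd (by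
      rw [hpe]
      simp only [mem_insert, mem_singleton, Prod.mk.injEq]
      omega) (by
      intro e he1 he2 he3
      rcases hall e he1 with h3 | h3
      · exact hmE e he3 h3
      · exact he2 h3) (two_hex d4 d2 (Ne.symm d11)) (by
      intro Z hZ _ hZm hZp e heZ
      have h3 := hZ heZ
      rw [EdS_union, mem_union, mem_union] at h3
      rw [mem_union, mem_union]
      rcases h3 with (h3 | h3) | h3
      · exact Or.inl (Or.inl h3)
      · rcases hall e h3 with h4 | h4
        · exact absurd h4 (hZm e heZ)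
        · rw [hbd, mem_insert] at h4
          rcases h4 with h4 | h4
          · exact absurd (h4 ▸ heZ) hZp
          · exact Or.inl (Or.inr h4)
      · exact Or.inr h3) (by
      refine colr h hm hω.2 (Ne.symm hω.1) ?_ ?_ ?_ ?_ ?_ ?_
      · rw [hpw]; simp
      · rw [hpw]; simp
      · rw [hpw]; simp
      · rw [hpb]; simp
      · rw [hpb]; simp
      · rw [hpb]; simp)
  refine ⟨r1, r2, r3, r4, ?_⟩
  ext v
  unfold vx
  rw [wh_union, bl_union]
  simp only [mem_union, wh_hex, bl_hex, List.mem_toFinset, List.mem_cons, List.not_mem_nil, or_false,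
    mem_insert]
  tauto

open B8Aux in
theorem Fill.insert_hex_B1 {w2 b2 : ℕ} (h : Fill true [p, b2, w2, z] c N)
    (hc : 4 ≤ c.length) (he : (p, z) ∉ EdS N) (hm : m ∉ vx [p, b2, w2, z] c N)
    (hw : w1 ∉ vx [p, b2, w2, z] c N) (hmw : m ≠ w1) :
    Disjoint N (hexq p z w1 w2 m z b2) ∧
      Fill true [p, z] c (N ∪ hexq p z w1 w2 m z b2) ∧
      (N ∪ hexq p z w1 w2 m z b2).filter (fun q => m ∈ q.2) = hexq p z w1 w2 m z b2 ∧
      (hexq p z w1 w2 m z b2).card = 3 ∧
      vx [p, z] c (N ∪ hexq p z w1 w2 m z b2) =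
        insert m (insert w1 (vx [p, b2, w2, z] c N)) := by
  have hnd := h.nf
  simp only [List.nodup_cons, List.mem_cons, List.not_mem_nil, or_false, not_or, not_false_iff,
    List.nodup_nil, and_true] at hnd
  obtain ⟨⟨d1, d2, d3⟩, ⟨d4, d5⟩, d6⟩ := hnd
  have hmv : m ≠ p ∧ m ≠ b2 ∧ m ≠ w2 ∧ m ≠ z := by
    refine ⟨?_, ?_, ?_, ?_⟩ <;>
    · rintro rfl
      apply hm
      simp [vx]
  obtain ⟨m1, m2, m3, m4⟩ := hmv
  have hwv : w1 ≠ p ∧ w1 ≠ b2 ∧ w1 ≠ w2 ∧ w1 ≠ z := by
    refine ⟨?_, ?_, ?_, ?_⟩ <;>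
    · rintro rfl
      apply hw
      simp [vx]
  obtain ⟨k1, k2, k3, k4⟩ := hwv
  have hpe : pe true [p, b2, w2, z] = {(p, b2), (w2, b2), (w2, z)} := rfl
  have hpw : pw true [p, b2, w2, z] = {p, w2} := rfl
  have hpb : pb true [p, b2, w2, z] = {b2, z} := rfl
  have hbd : bd (hexq p z w1 w2 m z b2) = insert (p, z) (pe true [p, b2, w2, z]) := by
    ext ⟨w, b⟩
    rw [mem_bd_hex (Ne.symm k1) d2 k3, hpe]
    simp only [mem_insert, mem_singleton, Prod.mk.injEq]
    constructor
    · rintro (⟨rfl, ⟨rfl, _⟩ | ⟨rfl, _⟩⟩ | ⟨rfl, ⟨rfl, _, a⟩ | ⟨rfl, _, a⟩⟩ | ⟨rfl, ⟨rfl, _⟩ | ⟨rfl, _⟩⟩)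
      · simp
      · simp
      · exact absurd rfl a
      · exact absurd rfl a
      · simp
      · simp
    · rintro (⟨rfl, rfl⟩ | ⟨rfl, rfl⟩ | ⟨rfl, rfl⟩ | ⟨rfl, rfl⟩)
      · left; exact ⟨rfl, Or.inl ⟨rfl, Ne.symm m4, Ne.symm d5⟩⟩
      · left; exact ⟨rfl, Or.inr ⟨rfl, Ne.symm m2, d5⟩⟩
      · right; right; exact ⟨rfl, Or.inr ⟨rfl, Ne.symm m2, d5⟩⟩
      · right; right; exact ⟨rfl, Or.inl ⟨rfl, Ne.symm m4, Ne.symm d5⟩⟩
  have hmE : ∀ e ∈ EdS N, e.2 ≠ m := by
    rintro e he' rfl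
    apply hm
    unfold vx
    simp only [mem_union]
    left; left; right
    exact (mem_vx_of_EdS he').2
  have hwE : ∀ e ∈ EdS N, e.1 ≠ w1 := by
    rintro e he' rfl
    apply hw
    unfold vx
    simp only [mem_union]
    left; left; left
    exact (mem_vx_of_EdS he').1
  have hwc : ∀ e ∈ pe true c, e.1 ≠ w1 := by
    rintro e he' rfl
    apply hw
    have h3 := (mem_pe_vert he').1
    have h4 : e.1 ∈ c.toFinset := by
      rw [← pw_union_pb true c]
      exact mem_union_left _ h3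
    unfold vx
    simp only [mem_union]
    right
    exact h4
  have hall : ∀ e ∈ EdS (hexq p z w1 w2 m z b2), e.2 = m ∨ e.1 = w1 ∨ e ∈ bd (hexq p z w1 w2 m z b2) := by
    rintro ⟨w, b⟩ he'
    rw [mem_EdS_hex] at he'
    rw [hbd, hpe]
    simp only [mem_insert, mem_singleton, Prod.mk.injEq] at he' ⊢
    tauto
  obtain ⟨r1, r2, r3, r4⟩ := core (w1 := w1) (w2 := w2) (b1 := z) (b2 := b2) h hc he hm (Ne.symm k1) d2 k3
    m4 m4 m2 d5 rfl rfl (by simp) d3 hbd (by
      rw [hpe]
      simp only [mem_insert, mem_singleton, Prod.mk.injEq]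
      omega) (by
      intro e he1 he2 he3
      rcases hall e he1 with h3 | h3 | h3
      · exact hmE e he3 h3
      · exact hwE e he3 h3
      · exact he2 h3) (two_hex (Ne.symm k1) d2 k3) (by
      intro Z hZ hZe hZm hZp
      have hw1Z : ∀ e ∈ Z, e.1 ≠ w1 := by
        intro e heZ hew
        have h5 : Z.filter (fun e => e.1 = w1) = {(w1, z)} := by
          have h6 : ∀ e ∈ Z, e.1 = w1 → e = (w1, z) := by
            rintro ⟨w, b⟩ heZ hew
            simp only at hew
            subst hew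
            have h3 := hZ heZ
            rw [EdS_union, mem_union, mem_union] at h3
            rcases h3 with (h3 | h3) | h3
            · exact absurd rfl (hwE _ h3)
            · rw [mem_EdS_hex] at h3
              have h7 := hZm _ heZ
              simp only at h3 h7
              rw [Prod.mk.injEq]
              tauto
            · exact absurd rfl (hwc _ h3)
          ext e'
          rw [mem_filter, mem_singleton]
          constructor
          · rintro ⟨h7, h8⟩
            exact h6 e' h7 h8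
          · rintro rfl
            have := h6 e heZ hew
            rw [← this]
            exact ⟨heZ, hew⟩
        have h7 := hZe.1 w1
        rw [h5, card_singleton] at h7
        exact absurd h7 (by decide)
      intro e heZ
      have h3 := hZ heZ
      rw [EdS_union, mem_union, mem_union] at h3
      rw [mem_union, mem_union]
      rcases h3 with (h3 | h3) | h3
      · exact Or.inl (Or.inl h3)
      · rcases hall e h3 with h4 | h4 | h4
        · exact absurd h4 (hZm e heZ)
        · exact absurd h4 (hw1Z e heZ)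
        · rw [hbd, mem_insert] at h4
          rcases h4 with h4 | h4
          · exact absurd (h4 ▸ heZ) hZp
          · exact Or.inl (Or.inr h4)
      · exact Or.inr h3) (by
      refine colr h hm hw hmw ?_ (Or.inr rfl) ?_ ?_ ?_ ?_
      · rw [hpw]; simp
      · rw [hpw]; simp
      · rw [hpb]; simp
      · rw [hpb]; simp
      · rw [hpb]; simp)
  refine ⟨r1, r2, r3, r4, ?_⟩
  ext v
  unfold vx
  rw [wh_union, bl_union]
  simp only [mem_union, wh_hex, bl_hex, List.mem_toFinset, List.mem_cons, List.not_mem_nil, or_false,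
    mem_insert]
  tauto

open B8Aux in
theorem Fill.insert_hex_B2 {w2 b1 : ℕ} (h : Fill true [p, b1, w1, z] c N)
    (hc : 4 ≤ c.length) (he : (p, z) ∉ EdS N) (hm : m ∉ vx [p, b1, w1, z] c N)
    (hw : w2 ∉ vx [p, b1, w1, z] c N) (hmw : m ≠ w2) :
    Disjoint N (hexq p z w1 w2 m b1 b1) ∧
      Fill true [p, z] c (N ∪ hexq p z w1 w2 m b1 b1) ∧
      (N ∪ hexq p z w1 w2 m b1 b1).filter (fun q => m ∈ q.2) = hexq p z w1 w2 m b1 b1 ∧
      (hexq p z w1 w2 m b1 b1).card = 3 ∧
      vx [p, z] c (N ∪ hexq p z w1 w2 m b1 b1) =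
        insert m (insert w2 (vx [p, b1, w1, z] c N)) := by
  have hnd := h.nf
  simp only [List.nodup_cons, List.mem_cons, List.not_mem_nil, or_false, not_or, not_false_iff,
    List.nodup_nil, and_true] at hnd
  obtain ⟨⟨d1, d2, d3⟩, ⟨d4, d5⟩, d6⟩ := hnd
  have hmv : m ≠ p ∧ m ≠ b1 ∧ m ≠ w1 ∧ m ≠ z := by
    refine ⟨?_, ?_, ?_, ?_⟩ <;>
    · rintro rfl
      apply hm
      simp [vx]
  obtain ⟨m1, m2, m3, m4⟩ := hmv
  have hwv : w2 ≠ p ∧ w2 ≠ b1 ∧ w2 ≠ w1 ∧ w2 ≠ z := by
    refine ⟨?_, ?_, ?_, ?_⟩ <;>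
    · rintro rfl
      apply hw
      simp [vx]
  obtain ⟨k1, k2, k3, k4⟩ := hwv
  have hpe : pe true [p, b1, w1, z] = {(p, b1), (w1, b1), (w1, z)} := rfl
  have hpw : pw true [p, b1, w1, z] = {p, w1} := rfl
  have hpb : pb true [p, b1, w1, z] = {b1, z} := rfl
  have hbd : bd (hexq p z w1 w2 m b1 b1) = insert (p, z) (pe true [p, b1, w1, z]) := by
    ext ⟨w, b⟩
    rw [mem_bd_hex d2 (Ne.symm k1) (Ne.symm k3), hpe]
    simp only [mem_insert, mem_singleton, Prod.mk.injEq]
    constructor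
    · rintro (⟨rfl, ⟨rfl, _⟩ | ⟨rfl, _⟩⟩ | ⟨rfl, ⟨rfl, _⟩ | ⟨rfl, _⟩⟩ | ⟨rfl, ⟨rfl, _, a⟩ | ⟨rfl, _, a⟩⟩)
      · simp
      · simp
      · simp
      · simp
      · exact absurd rfl a
      · exact absurd rfl a
    · rintro (⟨rfl, rfl⟩ | ⟨rfl, rfl⟩ | ⟨rfl, rfl⟩ | ⟨rfl, rfl⟩)
      · left; exact ⟨rfl, Or.inl ⟨rfl, Ne.symm m4, Ne.symm d5⟩⟩
      · left; exact ⟨rfl, Or.inr ⟨rfl, Ne.symm m2, d5⟩⟩
      · right; left; exact ⟨rfl, Or.inr ⟨rfl, Ne.symm m2, d5⟩⟩
      · right; left; exact ⟨rfl, Or.inl ⟨rfl, Ne.symm m4, Ne.symm d5⟩⟩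
  have hmE : ∀ e ∈ EdS N, e.2 ≠ m := by
    rintro e he' rfl
    apply hm
    unfold vx
    simp only [mem_union]
    left; left; right
    exact (mem_vx_of_EdS he').2
  have hwE : ∀ e ∈ EdS N, e.1 ≠ w2 := by
    rintro e he' rfl
    apply hw
    unfold vx
    simp only [mem_union]
    left; left; left
    exact (mem_vx_of_EdS he').1
  have hwc : ∀ e ∈ pe true c, e.1 ≠ w2 := by
    rintro e he' rfl
    apply hw
    have h3 := (mem_pe_vert he').1
    have h4 : e.1 ∈ c.toFinset := by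
      rw [← pw_union_pb true c]
      exact mem_union_left _ h3
    unfold vx
    simp only [mem_union]
    right
    exact h4
  have hall : ∀ e ∈ EdS (hexq p z w1 w2 m b1 b1), e.2 = m ∨ e.1 = w2 ∨ e ∈ bd (hexq p z w1 w2 m b1 b1) := by
    rintro ⟨w, b⟩ he'
    rw [mem_EdS_hex] at he'
    rw [hbd, hpe]
    simp only [mem_insert, mem_singleton, Prod.mk.injEq] at he' ⊢
    tauto
  obtain ⟨r1, r2, r3, r4⟩ := core (w1 := w1) (w2 := w2) (b1 := b1) (b2 := b1) h hc he hm d2 (Ne.symm k1)
    (Ne.symm k3) m4 m2 m2 d5 rfl rfl (by simp) d3 hbd (by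
      rw [hpe]
      simp only [mem_insert, mem_singleton, Prod.mk.injEq]
      omega) (by
      intro e he1 he2 he3
      rcases hall e he1 with h3 | h3 | h3
      · exact hmE e he3 h3
      · exact hwE e he3 h3
      · exact he2 h3) (two_hex d2 (Ne.symm k1) (Ne.symm k3)) (by
      intro Z hZ hZe hZm hZp
      have hw1Z : ∀ e ∈ Z, e.1 ≠ w2 := by
        intro e heZ hew
        have h5 : Z.filter (fun e => e.1 = w2) = {(w2, b1)} := by
          have h6 : ∀ e ∈ Z, e.1 = w2 → e = (w2, b1) := by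
            rintro ⟨w, b⟩ heZ hew
            simp only at hew
            subst hew
            have h3 := hZ heZ
            rw [EdS_union, mem_union, mem_union] at h3
            rcases h3 with (h3 | h3) | h3
            · exact absurd rfl (hwE _ h3)
            · rw [mem_EdS_hex] at h3
              have h7 := hZm _ heZ
              simp only at h3 h7
              rw [Prod.mk.injEq]
              tauto
            · exact absurd rfl (hwc _ h3)
          ext e'
          rw [mem_filter, mem_singleton]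
          constructor
          · rintro ⟨h7, h8⟩
            exact h6 e' h7 h8
          · rintro rfl
            have := h6 e heZ hew
            rw [← this]
            exact ⟨heZ, hew⟩
        have h7 := hZe.1 w2
        rw [h5, card_singleton] at h7
        exact absurd h7 (by decide)
      intro e heZ
      have h3 := hZ heZ
      rw [EdS_union, mem_union, mem_union] at h3
      rw [mem_union, mem_union]
      rcases h3 with (h3 | h3) | h3
      · exact Or.inl (Or.inl h3)
      · rcases hall e h3 with h4 | h4 | h4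
        · exact absurd h4 (hZm e heZ)
        · exact absurd h4 (hw1Z e heZ)
        · rw [hbd, mem_insert] at h4
          rcases h4 with h4 | h4
          · exact absurd (h4 ▸ heZ) hZp
          · exact Or.inl (Or.inr h4)
      · exact Or.inr h3) (by
      refine colr h hm hw hmw ?_ ?_ (Or.inr rfl) ?_ ?_ ?_
      · rw [hpw]; simp
      · rw [hpw]; simp
      · rw [hpb]; simp
      · rw [hpb]; simp
      · rw [hpb]; simp)
  refine ⟨r1, r2, r3, r4, ?_⟩
  ext v
  unfold vx
  rw [wh_union, bl_union]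
  simp only [mem_union, wh_hex, bl_hex, List.mem_toFinset, List.mem_cons, List.not_mem_nil, or_false,
    mem_insert]
  tauto

end K5M
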