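import Pool.Agent.Lib.K5M.C0

/-!
# K5M.CDefs: numbers and exponential generating functions for the labelled counting

For the definitions of `C0`: the values for the standard label sets and their exponential generating
functions.  `n` = number of labels.
-/

set_option autoImplicit false

namespace K5M

open Finset
open scoped ENNReal

/-- The exponential generating function of a sequence at 1. -/
noncomputable def eg (φ : ℕ → ℝ≥0∞) : ℝ≥0∞ := ∑' n : ℕ, φ n / (n.factorial : ℝ≥0∞)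

/-- Disks with boundary `2 κ` and `n` inner labels. -/
noncomputable def nS (x : ℝ≥0∞) (κ a b n : ℕ) : ℝ≥0∞ :=
  FWg x a b true [0, 2 * κ - 1] (List.range (2 * κ)) (Finset.Ico (2 * κ) (2 * κ + n))

theorem sg_eq (x : ℝ≥0∞) (κ a b : ℕ) : sg x κ a b = eg (nS x κ a b) := rfl

/-- Pairs (path with `l` edges, filling) for a lower path with `m` edges and `n` labels. -/
noncomputable def nG (x : ℝ≥0∞) (k : Bool) (l m a b n : ℕ) : ℝ≥0∞ :=
  GW x a b k l (List.range (m + 1)) (Finset.Ico (m + 1) (m + 1 + n))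

noncomputable def eG (x : ℝ≥0∞) (k : Bool) (l m a b : ℕ) : ℝ≥0∞ := eg (nG x k l m a b)

/-- The pairs without and with the edge `(p, z)`. -/
def GFn (a b l : ℕ) (c : List ℕ) (L : Finset ℕ) (p z : ℕ) :
    Set (List ℕ × (Finset Quad × Finset ℕ)) :=
  {t | t ∈ GF a b true l c L ∧ (p, z) ∉ EdS t.2.1}

def GFc (a b l : ℕ) (c : List ℕ) (L : Finset ℕ) (p z : ℕ) :
    Set (List ℕ × (Finset Quad × Finset ℕ)) :=
  {t | t ∈ GF a b true l c L ∧ (p, z) ∈ EdS t.2.1}

/-- The number of white labels of a pair. -/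
def gx (k : Bool) (L : Finset ℕ) (t : List ℕ × (Finset Quad × Finset ℕ)) : ℕ :=
  ((wh t.2.1 ∪ pw k t.1) ∩ L).card

theorem GWn_eq (x : ℝ≥0∞) (a b l : ℕ) (c : List ℕ) (L : Finset ℕ) (p z : ℕ) :
    GWn x a b l c L p z = ∑' t : GFn a b l c L p z, x ^ gx true L t.1 := by
  let e : {t : GF a b true l c L // (p, z) ∉ EdS t.1.2.1} ≃ GFn a b l c L p z :=
    { toFun := fun t => ⟨t.1.1, t.1.2, t.2⟩
      invFun := fun t => ⟨⟨t.1, t.2.1⟩, t.2.2⟩
      left_inv := fun _ => rfl
      right_inv := fun _ => rfl }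
  rw [← e.tsum_eq]
  rfl

theorem GWc_eq (x : ℝ≥0∞) (a b l : ℕ) (c : List ℕ) (L : Finset ℕ) (p z : ℕ) :
    GWc x a b l c L p z = ∑' t : GFc a b l c L p z, x ^ gx true L t.1 := by
  let e : {t : GF a b true l c L // (p, z) ∈ EdS t.1.2.1} ≃ GFc a b l c L p z :=
    { toFun := fun t => ⟨t.1.1, t.1.2, t.2⟩
      invFun := fun t => ⟨⟨t.1, t.2.1⟩, t.2.2⟩
      left_inv := fun _ => rfl
      right_inv := fun _ => rfl }
  rw [← e.tsum_eq]
  rfl

/-- The values for a path `c` with `2 κ - 1` edges. -/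
noncomputable def nN (x : ℝ≥0∞) (l κ a b n : ℕ) : ℝ≥0∞ :=
  GWn x a b l (List.range (2 * κ)) (Finset.Ico (2 * κ) (2 * κ + n)) 0 (2 * κ - 1)

noncomputable def nC (x : ℝ≥0∞) (l κ a b n : ℕ) : ℝ≥0∞ :=
  GWc x a b l (List.range (2 * κ)) (Finset.Ico (2 * κ) (2 * κ + n)) 0 (2 * κ - 1)

noncomputable def eN (x : ℝ≥0∞) (l κ a b : ℕ) : ℝ≥0∞ := eg (nN x l κ a b)

noncomputable def eC (x : ℝ≥0∞) (l κ a b : ℕ) : ℝ≥0∞ := eg (nC x l κ a b)

/-- The number of white vertices strictly inside a path with `i` edges whose first vertex has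
colour `k`. -/
def wct (k : Bool) (i : ℕ) : ℕ := if k then (i - 1) / 2 else i / 2

/-- Lists of `r` distinct elements of `L`. -/
def dls : ℕ → Finset ℕ → Finset (List ℕ)
  | 0, _ => {[]}
  | r + 1, L => L.biUnion (fun u => (dls r (L.erase u)).image (List.cons u))

/-- The value of a part with `i` upper and `j` lower edges. -/
noncomputable def pv (x : ℝ≥0∞) (i j a b n : ℕ) : ℝ≥0∞ :=
  if i = 1 ∧ j = 1 then (if a = 0 ∧ b = 0 ∧ n = 0 then 1 else 0) else nS x ((i + j) / 2) a b n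

end K5M
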