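import Pool.Agent.Lib.K5M.DCmpA

/-!
# K5M.DWt: the weight of a composite is the product of the weights of its parts

PROOF.  `L' = L \ vt K`, `P r = (F r).1`, `N = cN K F`, `M = cM K Mk F`, `fib r = L'.filter (g · = r) = iv r (P r)`.
Whites: `wh N = ⋃ wh (P r)` (`Comp.wh_glue`).  `wh N ∩ L` is the disjoint union of `wh K ∩ L` and the sets `wh (P r) ∩ fib r`: a
`v ∈ wh (P r) ∩ L` is in `iv r (P r) = fib r` or in `r.1 ⊆ wh K` (`mem_side_w`); conversely `wh K ⊆ wh N` (`r.1 ⊆ wh (P r)`); the `fib r` are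
disjoint from each other and from `vt K`.
Marks: `M` is the disjoint union of `Mk ⊆ vt K` and the `(F r).2 ⊆ fib r`.
Quads: `N` is the disjoint union of the `P r` (`Comp.disj`), and for `r' ∈ P r`: `Disjoint r'.2 (flg q c M) ↔ Disjoint r'.2 (flg r (σ r) (F r).2)` by
`flg_part` (`r'.2 ⊆ bl (P r)`, `M ∩ iv r (P r) = (F r).2` by `Fam.marks`).
The cardinalities add up, `Finset.prod_pow_eq_pow_sum`, `Finset.card_biUnion`.
-/

set_option autoImplicit false

namespace K5M

open Finset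
open scoped ENNReal

variable {q : Quad} {c : ℕ → ℕ} {L Mk : Finset ℕ} {K : Finset Quad} {σ : Quad → ℕ → ℕ}
  {τ : Quad → Ty} {g : ℕ → Quad} {F : Quad → Finset Quad × Finset ℕ}

namespace DWtAux

theorem mem_fib {L' : Finset ℕ} {g : ℕ → Quad} {r : Quad} {v : ℕ} :
    v ∈ L'.filter (fun v => g v = r) ↔ v ∈ L' ∧ g v = r := mem_filter

theorem cardW (hf : Frame q c L K Mk σ) (hF : Fam K τ σ (L \ vt K) g F) :
    (wh (cN K F) ∩ L).card = (wh K ∩ L).card +
      ∑ r ∈ K, (wh (F r).1 ∩ (L \ vt K).filter (fun v => g v = r)).card := by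
  have hC := Fam.comp hf hF
  have h1 : wh (cN K F) ∩ L = (wh K ∩ L) ∪
      K.biUnion (fun r => wh (F r).1 ∩ (L \ vt K).filter (fun v => g v = r)) := by
    ext v
    rw [cN, hC.wh_glue]
    simp only [mem_inter, mem_union, mem_biUnion]
    constructor
    · rintro ⟨⟨r, hr, hv⟩, hL⟩
      by_cases hi : v ∈ iv r (F r).1
      · right
        rw [(hF.mf r hr).inn] at hi
        exact ⟨r, hr, hv, hi⟩
      · left
        refine ⟨?_, hL⟩
        have := mem_side_w (P := fun r => (F r).1) (hC.part r hr) hv hi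
        exact mem_biUnion.2 ⟨r, hr, this⟩
    · rintro (⟨hv, hL⟩ | ⟨r, hr, hv, hi⟩)
      · obtain ⟨r, hr, hvr⟩ := mem_biUnion.1 hv
        exact ⟨⟨r, hr, (hC.part r hr).sub_wh hvr⟩, hL⟩
      · exact ⟨⟨r, hr, hv⟩, (mem_sdiff.1 (mem_fib.1 hi).1).1⟩
  rw [h1, card_union_of_disjoint, card_biUnion]
  · intro r hr r' hr' hne
    change Disjoint (wh (F r).1 ∩ (L \ vt K).filter (fun v => g v = r))
      (wh (F r').1 ∩ (L \ vt K).filter (fun v => g v = r'))
    rw [Finset.disjoint_left]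
    intro v hv hv'
    rw [mem_inter] at hv hv'
    exact hne ((mem_fib.1 hv.2).2.symm.trans (mem_fib.1 hv'.2).2)
  · rw [Finset.disjoint_left]
    intro v hv hv'
    obtain ⟨r, hr, hv'⟩ := mem_biUnion.1 hv'
    rw [mem_inter] at hv hv'
    have := (mem_sdiff.1 (mem_fib.1 hv'.2).1).2
    exact this (mem_union_left _ hv.1)

theorem cardM (hf : Frame q c L K Mk σ) (hF : Fam K τ σ (L \ vt K) g F) :
    (cM K Mk F).card = Mk.card + ∑ r ∈ K, (F r).2.card := by
  rw [cM, card_union_of_disjoint, card_biUnion]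
  · intro r hr r' hr' hne
    change Disjoint (F r).2 (F r').2
    rw [Finset.disjoint_left]
    intro v hv hv'
    have h1 := mem_fib.1 ((hF.mf r hr).sub hv)
    have h2 := mem_fib.1 ((hF.mf r' hr').sub hv')
    exact hne (h1.2.symm.trans h2.2)
  · rw [Finset.disjoint_left]
    intro v hv hv'
    obtain ⟨r, hr, hv'⟩ := mem_biUnion.1 hv'
    have h1 := mem_fib.1 ((hF.mf r hr).sub hv')
    exact (mem_sdiff.1 h1.1).2 (mem_union_right _ (hf.blk hv))

theorem cardQ (hf : Frame q c L K Mk σ) (hF : Fam K τ σ (L \ vt K) g F) :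
    ((cN K F).filter (fun r => Disjoint r.2 (flg q c (cM K Mk F)))).card =
      ∑ r ∈ K, ((F r).1.filter (fun s => Disjoint s.2 (flg r (σ r) (F r).2))).card := by
  have hC := Fam.comp hf hF
  obtain ⟨hm1, hm2⟩ := Fam.marks hf hF
  rw [cN, glue, filter_biUnion, card_biUnion]
  · refine sum_congr rfl (fun r hr => ?_)
    congr 1
    refine filter_congr (fun s hs => ?_)
    have key : ∀ b ∈ s.2, (b ∈ flg q c (cM K Mk F) ↔ b ∈ flg r (σ r) (F r).2) := by
      intro b hb
      have h1 := flg_part (P := fun r => (F r).1) hf hC hm1 hr (b := b)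
        (mem_biUnion.2 ⟨s, hs, hb⟩)
      rw [h1]
      change b ∈ flg r (σ r) (cM K Mk F ∩ iv r (F r).1) ↔ _
      rw [hm2 r hr]
    rw [Finset.disjoint_left, Finset.disjoint_left]
    constructor
    · intro h b hb hb'
      exact h hb ((key b hb).2 hb')
    · intro h b hb hb'
      exact h hb ((key b hb).1 hb')
  · intro r hr r' hr' hne
    exact disjoint_filter_filter (hC.disj hr hr' hne)

end DWtAux

open DWtAux

theorem Fam.weight (x Y T : ℝ≥0∞) (hf : Frame q c L K Mk σ) (hF : Fam K τ σ (L \ vt K) g F) :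
    wF x Y T q c L (cN K F, cM K Mk F) = x ^ (wh K ∩ L).card * T ^ Mk.card *
      ∏ r ∈ K, wF x Y T r (σ r) ((L \ vt K).filter (fun v => g v = r)) (F r) := by
  unfold wF
  dsimp only
  rw [cardW hf hF, cardM hf hF, cardQ hf hF, pow_add, pow_add, ← prod_pow_eq_pow_sum,
    ← prod_pow_eq_pow_sum, ← prod_pow_eq_pow_sum, prod_mul_distrib, prod_mul_distrib]
  ring

end K5M
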