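import Pool.Agent.Lib.K5M.DCmpB
import Pool.Agent.Lib.K5M.DWt
import Pool.Agent.Lib.K5M.DPi

/-!
# K5M.DCnt: the total weight of the marked composites over a frame

PROOF.  `L' = L \ vt K`.  The map `(g, F) ↦ (cN K F, cM K Mk F)` from the pairs with `Fam K τ σ L' g F` to the pairs `(N, M)` with `CMF ..` is a
bijection (`Fam.cmf`, `CMF.exists_fam`, `Fam.unique`), so by `Fam.weight` the left hand side is
`x ^ .. * T ^ .. * ∑' (g, F), ∏ r ∈ K, wF x Y T r (σ r) (L'.filter (g · = r)) (F r)`.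
The sum over the pairs is the sum over the `g` (`gK`, `gout`) of the sum over the `F` (`mf`, `ty`, `out`): `ENNReal.tsum_sigma'` along an
equivalence; for fixed `g` it is `∏ r ∈ K, AW (τ r) x Y T r (σ r) (L'.filter (g · = r))` by `tsum_fam` (`S r a := MF r (σ r) (L'.filter (g · = r)) a.1 a.2 ∧ (τ r).cls r a.1`,
`d = (∅, ∅)`; the factor is the definition of `AW`), and this is `∏ r ∈ K, a r (L'.filter (g · = r)).card` by `ha` (`L'` is disjoint from `vt K ⊇ r.1 ∪ r.2`).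
`tsum_maps` with `d = (∅, ∅)`.
-/

set_option autoImplicit false

namespace K5M

open Finset
open scoped ENNReal

theorem cnt (x Y T : ℝ≥0∞) {q : Quad} {c : ℕ → ℕ} {L Mk : Finset ℕ} {K : Finset Quad}
    {σ : Quad → ℕ → ℕ} {τ : Quad → Ty} (hf : Frame q c L K Mk σ) (a : Quad → ℕ → ℝ≥0∞)
    (ha : ∀ r ∈ K, ∀ S : Finset ℕ, Disjoint S (r.1 ∪ r.2) →
      AW (τ r) x Y T r (σ r) S = a r S.card) :
    ∑' s : {s : Finset Quad × Finset ℕ // CMF q c L K Mk τ σ s.1 s.2}, wF x Y T q c L s.1 =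
      x ^ (wh K ∩ L).card * T ^ Mk.card * famI K a (L \ vt K).card := by
  let S : (ℕ → Quad) → Quad → (Finset Quad × Finset ℕ) → Prop := fun g r s =>
    MF r (σ r) ((L \ vt K).filter (fun v => g v = r)) s.1 s.2 ∧ (τ r).cls r s.1
  let G := {g : ℕ → Quad // (∀ v ∈ L \ vt K, g v ∈ K) ∧ ∀ v, v ∉ L \ vt K → g v = (∅, ∅)}
  let FF : G → Type := fun g =>
    {F : Quad → Finset Quad × Finset ℕ // (∀ r ∈ K, S g.1 r (F r)) ∧ ∀ r, r ∉ K → F r = (∅, ∅)}
  have fam : ∀ p : (Σ g : G, FF g), Fam K τ σ (L \ vt K) p.1.1 p.2.1 := fun p =>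
    ⟨p.1.2.1, p.1.2.2, fun r hr => (p.2.2.1 r hr).1, fun r hr => (p.2.2.1 r hr).2, p.2.2.2⟩
  let φ : (Σ g : G, FF g) → {s : Finset Quad × Finset ℕ // CMF q c L K Mk τ σ s.1 s.2} :=
    fun p => ⟨(cN K p.2.1, cM K Mk p.2.1), Fam.cmf hf (fam p)⟩
  have hφ : Function.Bijective φ := by
    constructor
    · intro p p' h
      have h1 : (cN K p.2.1, cM K Mk p.2.1) = (cN K p'.2.1, cM K Mk p'.2.1) := congrArg Subtype.val h
      rw [Prod.mk.injEq] at h1
      obtain ⟨e1, e2⟩ := Fam.unique hf (fam p) (fam p') h1.1 h1.2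
      obtain ⟨⟨g, hg⟩, ⟨F, hF⟩⟩ := p
      obtain ⟨⟨g', hg'⟩, ⟨F', hF'⟩⟩ := p'
      simp only at e1 e2
      subst e1
      subst e2
      rfl
    · rintro ⟨⟨N, M⟩, h⟩
      obtain ⟨g, F, hF, h1, h2⟩ := CMF.exists_fam hf h
      refine ⟨⟨⟨g, hF.gK, hF.gout⟩, ⟨F, fun r hr => ⟨hF.mf r hr, hF.ty r hr⟩, hF.out⟩⟩, ?_⟩
      apply Subtype.ext
      change (cN K F, cM K Mk F) = (N, M)
      rw [h1, h2]
  rw [← (Equiv.ofBijective φ hφ).tsum_eq
    (fun s : {s : Finset Quad × Finset ℕ // CMF q c L K Mk τ σ s.1 s.2} => wF x Y T q c L s.1)]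
  have h1 : ∀ p : (Σ g : G, FF g), wF x Y T q c L ((Equiv.ofBijective φ hφ) p).1 =
      x ^ (wh K ∩ L).card * T ^ Mk.card *
        ∏ r ∈ K, wF x Y T r (σ r) ((L \ vt K).filter (fun v => p.1.1 v = r)) (p.2.1 r) := by
    intro p
    exact Fam.weight x Y T hf (fam p)
  rw [tsum_congr h1, ENNReal.tsum_mul_left]
  congr 1
  rw [ENNReal.tsum_sigma']
  rw [← tsum_maps K (L \ vt K) ((∅, ∅) : Quad) a]
  refine tsum_congr fun g => ?_
  have h2 := tsum_fam K (S g.1)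
    (fun r s => wF x Y T r (σ r) ((L \ vt K).filter (fun v => g.1 v = r)) s)
    ((∅, ∅) : Finset Quad × Finset ℕ)
  refine h2.trans ?_
  refine Finset.prod_congr rfl fun r hr => ?_
  have h3 : Disjoint ((L \ vt K).filter (fun v => g.1 v = r)) (r.1 ∪ r.2) := by
    have h4 : r.1 ∪ r.2 ⊆ vt K := by
      unfold vt wh bl
      exact union_subset_union (subset_biUnion_of_mem Prod.fst hr) (subset_biUnion_of_mem Prod.snd hr)
    exact Disjoint.mono (filter_subset _ _) h4 sdiff_disjoint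
  exact ha r hr _ h3

end K5M
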