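import Pool.Agent.Lib.K5M.DE3a
import Pool.Agent.Lib.K5M.DCnt
import Pool.Agent.Lib.K5M.DRlB
import Pool.Agent.Lib.K5M.DFam

/-!
# K5M.DE3b: the total weight of the series networks

PROOF.  `L = Ico 4 (4 + n)`.  `an .ser x Y T (2 * i) (2 * j) n` is the sum over the `(N, M)` with `MF qs (st (2 * i) (2 * j)) L N M` and `Ser qs N`; by `ser_class`,
`ser_class_conv`, `ser_class_uniq`, `tsum_disj` it is the sum over `v ∈ L` of the sums over `CMF .. (Ks v) ∅ (τs v) (fun _ => st i j)`.  `cnt` with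
`r1 = ({0,v},{2,3})`, `r2 = ({v,1},{2,3})`, `a r1 = an .nsr x Y T i j`, `a r2 = an .all x Y T i j` (`AW_eq_an`): `x ^ 1 * T ^ 0 * famI (Ks v) a (n - 1)`
(`wh (Ks v) ∩ L = {v}`, `(L \ vt (Ks v)).card = n - 1`), `famI_pair`.  The sum over `v ∈ L` gives the factor `n`.
-/

set_option autoImplicit false

namespace K5M

open Finset
open scoped ENNReal

namespace DE3bAux

theorem wt_v (x Y T : ℝ≥0∞) {i j : ℕ} (hi : i ≤ 1) (hj : j ≤ 1) (n v : ℕ)
    (hv : v ∈ Ico 4 (4 + n)) :
    ∑' s : {s : Finset Quad × Finset ℕ // CMF qs (st (2 * i) (2 * j)) (Ico 4 (4 + n)) (Ks v) ∅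
        (τs v) (fun _ => st i j) s.1 s.2}, wF x Y T qs (st (2 * i) (2 * j)) (Ico 4 (4 + n)) s.1 =
      x * cv (an .nsr x Y T i j) (an .all x Y T i j) (n - 1) := by
  classical
  have hL : Disjoint (Ico 4 (4 + n)) ({0, 1, 2, 3} : Finset ℕ) := by
    rw [Finset.disjoint_left]
    intro a ha ha'
    rw [Finset.mem_Ico] at ha
    simp only [Finset.mem_insert, Finset.mem_singleton] at ha'
    omega
  have hv' := Finset.mem_Ico.1 hv
  have hvn : v ∉ ({0, 1, 2, 3} : Finset ℕ) := Finset.disjoint_left.1 hL hv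
  obtain ⟨hvt, -, -, hwh, hne⟩ := Ks_facts hvn
  have hst2 : st i j 2 = i := by simp [st]
  have hst3 : st i j 3 = j := by simp [st]
  have h1 := cnt (τ := τs v) x Y T (frame_ser hL hv hi hj)
    (fun r => an (τs v r) x Y T i j) (fun r hr S hS => by
      have hr' : r = (({0, v}, {2, 3}) : Quad) ∨ r = (({v, 1}, {2, 3}) : Quad) := by
        unfold Ks at hr
        rcases Finset.mem_insert.1 hr with h | h
        · exact Or.inl h
        · exact Or.inr (Finset.mem_singleton.1 h)
      have hq : IsQ r ∧ Disjoint r.1 r.2 ∧ r.2 = {2, 3} := by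
        rcases hr' with h | h
        · subst h
          refine ⟨⟨Finset.card_pair (by omega), Finset.card_pair (by omega)⟩, ?_, rfl⟩
          rw [Finset.disjoint_left]
          intro a ha ha'
          simp only [Finset.mem_insert, Finset.mem_singleton] at ha ha'
          omega
        · subst h
          refine ⟨⟨Finset.card_pair (by omega), Finset.card_pair (by omega)⟩, ?_, rfl⟩
          rw [Finset.disjoint_left]
          intro a ha ha'
          simp only [Finset.mem_insert, Finset.mem_singleton] at ha ha'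
          omega
      have h2 := AW_eq_an (t := τs v r) (x := x) (Y := Y) (T := T) (c := st i j) hq.1 hq.2.1
        (b := 2) (b' := 3) hq.2.2 hS
      rw [hst2, hst3] at h2
      exact h2)
  rw [h1]
  have hc1 : (wh (Ks v) ∩ Ico 4 (4 + n)).card = 1 := by
    rw [hwh, Finset.card_eq_one]
    refine ⟨v, ?_⟩
    ext a
    simp only [Finset.mem_inter, Finset.mem_insert, Finset.mem_singleton, Finset.mem_Ico]
    omega
  have hc2 : (Ico 4 (4 + n) \ vt (Ks v)).card = n - 1 := by
    have h3 : Ico 4 (4 + n) \ vt (Ks v) = (Ico 4 (4 + n)).erase v := by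
      rw [hvt]
      ext a
      simp only [Finset.mem_sdiff, Finset.mem_insert, Finset.mem_singleton, Finset.mem_Ico,
        Finset.mem_erase]
      omega
    rw [h3, Finset.card_erase_of_mem hv, Nat.card_Ico]
    omega
  rw [hc1, hc2, Finset.card_empty, pow_one, pow_zero, mul_one]
  have h4 : famI (Ks v) (fun r => an (τs v r) x Y T i j) (n - 1) =
      cv (an .nsr x Y T i j) (an .all x Y T i j) (n - 1) := by
    unfold Ks
    rw [famI_pair hne]
    have h5 : τs v (({0, v}, {2, 3}) : Quad) = .nsr := if_pos rfl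
    have h6 : τs v (({v, 1}, {2, 3}) : Quad) = .all := if_neg hne.symm
    rw [h5, h6]
  rw [h4]

end DE3bAux

theorem ser_eq (x Y T : ℝ≥0∞) {i j : ℕ} (hi : i ≤ 1) (hj : j ≤ 1) (n : ℕ) :
    an .ser x Y T (2 * i) (2 * j) n =
      x * ((n : ℝ≥0∞) * cv (an .nsr x Y T i j) (an .all x Y T i j) (n - 1)) := by
  have hL : Disjoint (Ico 4 (4 + n)) ({0, 1, 2, 3} : Finset ℕ) := by
    rw [Finset.disjoint_left]
    intro a ha ha'
    rw [Finset.mem_Ico] at ha
    simp only [Finset.mem_insert, Finset.mem_singleton] at ha'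
    omega
  unfold an AW
  rw [tsum_disj (fun s : Finset Quad × Finset ℕ =>
      MF qs (st (2 * i) (2 * j)) (Ico 4 (4 + n)) s.1 s.2 ∧ Ty.ser.cls qs s.1)
    (fun v : ℕ => v ∈ Ico 4 (4 + n))
    (fun v s => CMF qs (st (2 * i) (2 * j)) (Ico 4 (4 + n)) (Ks v) ∅ (τs v)
      (fun _ => st i j) s.1 s.2)
    (fun s => wF x Y T qs (st (2 * i) (2 * j)) (Ico 4 (4 + n)) s)
    (fun s hs => ser_class hi hj hs.1 hs.2)
    (fun v s hv hs => ser_class_conv hL hv hs)
    (fun v v' s hv hv' hs hs' => ser_class_uniq hL hv hv' hs hs')]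
  have h1 : ∀ v : {v // v ∈ Ico 4 (4 + n)},
      ∑' s : {s : Finset Quad × Finset ℕ // CMF qs (st (2 * i) (2 * j)) (Ico 4 (4 + n)) (Ks v.1) ∅
        (τs v.1) (fun _ => st i j) s.1 s.2}, wF x Y T qs (st (2 * i) (2 * j)) (Ico 4 (4 + n)) s.1 =
      x * cv (an .nsr x Y T i j) (an .all x Y T i j) (n - 1) :=
    fun v => DE3bAux.wt_v x Y T hi hj n v.1 v.2
  rw [tsum_congr h1, tsum_fintype, Finset.sum_const, Finset.card_univ, Fintype.card_coe,
    Nat.card_Ico, nsmul_eq_mul]
  have h2 : 4 + n - 4 = n := by omega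
  rw [h2]
  unfold an AW
  ring

end K5M
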