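import Pool.Agent.Lib.K5M.DE4a
import Pool.Agent.Lib.K5M.DCnt
import Pool.Agent.Lib.K5M.DRlB
import Pool.Agent.Lib.K5M.DRlC

/-!
# K5M.DE4b: the total weight of the networks of class `cor`

PROOF.  `L = Ico 4 (4 + n)`.
(1) By `core_class`, `core_class_conv`, `core_class_uniq` and `tsum_disj` with the index `(A, K, Mk)`: `an .cor x Y T i j n` is the sum over
`A ⊆ L` and the pairs `(K, Mk)` with `CMi i j A K Mk` of the sums over `CMF ..`.
(2) `cnt` with `a r = aφ x Y T (r.2 ∩ flg qs (st i j) Mk).card`: for `r ∈ K`, `r.2 = {b, b'}`, `AW_eq_an` gives `an .all x Y T (σc .. b) (σc .. b')`, and the numbers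
`(σc b, σc b')` are `(0, 0)`, `(1, 0)`, `(0, 1)`, `(1, 1)`: use `an_symm` for `(0, 1)`.  (`r.1`, `r.2` are disjoint: `r.1 ⊆ wh K`, `r.2 ⊆ bl K`, `col`.)  The sum is
`x ^ (wh K ∩ L).card * T ^ Mk.card * famI K a (L \ vt K).card`; `wh K ∩ L = wh K ∩ A`, `L \ vt K = L \ A` (as `A = iv qs K`, `L` is disjoint from `{0,1,2,3}`).
So `an .cor x Y T i j n = ∑ A ∈ L.powerset, GA x Y T i j A (L \ A).card`.
(3) `GA_card`; the sum over `A ⊆ L` of a function of `A.card` and `(L \ A).card` is the same for `range n` (`K5.sum_powerset_pair` twice).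
-/

set_option autoImplicit false

namespace K5M

open Finset
open scoped ENNReal

namespace DE4bAux

theorem disj_L (n : ℕ) : Disjoint (Ico 4 (4 + n)) ({0, 1, 2, 3} : Finset ℕ) := by
  rw [Finset.disjoint_left]
  intro a ha hb
  have h1 := (Finset.mem_Ico.1 ha).1
  simp only [Finset.mem_insert, Finset.mem_singleton] at hb
  omega

theorem qs_union : qs.1 ∪ qs.2 = ({0, 1, 2, 3} : Finset ℕ) := by
  decide

theorem part_weight (x Y T : ℝ≥0∞) {i j : ℕ} {Mk : Finset ℕ} {r : Quad} (hq : IsQ r)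
    (hd : Disjoint r.1 r.2) (S : Finset ℕ) (hS : Disjoint S (r.1 ∪ r.2)) :
    AW .all x Y T r (σc i j Mk r) S =
      aφ x Y T (r.2 ∩ flg qs (st i j) Mk).card S.card := by
  classical
  obtain ⟨b, b', hne, hb⟩ := Finset.card_eq_two.1 hq.2
  rw [AW_eq_an hq hd hb hS, hb]
  unfold σc aφ
  by_cases h1 : b ∈ flg qs (st i j) Mk <;> by_cases h2 : b' ∈ flg qs (st i j) Mk
  · have h3 : ({b, b'} : Finset ℕ) ∩ flg qs (st i j) Mk = {b, b'} := by
      rw [Finset.inter_eq_left]
      intro c hc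
      rcases Finset.mem_insert.1 hc with h | h
      · exact h ▸ h1
      · exact (Finset.mem_singleton.1 h) ▸ h2
    rw [h3, Finset.card_pair hne, if_pos h1, if_pos h2, if_neg (by norm_num), if_neg (by norm_num)]
  · have h3 : ({b, b'} : Finset ℕ) ∩ flg qs (st i j) Mk = {b} := by
      ext c
      simp only [Finset.mem_inter, Finset.mem_insert, Finset.mem_singleton]
      constructor
      · rintro ⟨h | h, h'⟩
        · exact h
        · exact absurd (h ▸ h') h2
      · intro h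
        exact ⟨Or.inl h, h ▸ h1⟩
    rw [h3, Finset.card_singleton, if_pos h1, if_neg h2, if_neg (by norm_num), if_pos rfl]
  · have h3 : ({b, b'} : Finset ℕ) ∩ flg qs (st i j) Mk = {b'} := by
      ext c
      simp only [Finset.mem_inter, Finset.mem_insert, Finset.mem_singleton]
      constructor
      · rintro ⟨h | h, h'⟩
        · exact absurd (h ▸ h') h1
        · exact h
      · intro h
        exact ⟨Or.inr h, h ▸ h2⟩
    rw [h3, Finset.card_singleton, if_neg h1, if_pos h2, if_neg (by norm_num), if_pos rfl,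
      an_symm]
  · have h3 : ({b, b'} : Finset ℕ) ∩ flg qs (st i j) Mk = ∅ := by
      ext c
      simp only [Finset.mem_inter, Finset.mem_insert, Finset.mem_singleton,
        Finset.notMem_empty, iff_false, not_and]
      rintro (h | h) h'
      · exact h1 (h ▸ h')
      · exact h2 (h ▸ h')
    rw [h3, Finset.card_empty, if_neg h1, if_neg h2, if_pos rfl]

theorem sub_wh {K : Finset Quad} {r : Quad} (hr : r ∈ K) : r.1 ⊆ wh K :=
  Finset.subset_biUnion_of_mem Prod.fst hr

theorem sub_bl {K : Finset Quad} {r : Quad} (hr : r ∈ K) : r.2 ⊆ bl K :=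
  Finset.subset_biUnion_of_mem Prod.snd hr

/-- The sum of the composites over one marked core. -/
theorem core_weight (x Y T : ℝ≥0∞) {i j : ℕ} {L A Mk : Finset ℕ} {K : Finset Quad}
    (hL : Disjoint L ({0, 1, 2, 3} : Finset ℕ)) (hA : A ⊆ L) (h : CMi i j A K Mk) :
    ∑' s : {s : Finset Quad × Finset ℕ // CMF qs (st i j) L K Mk (fun _ => .all) (σc i j Mk)
      s.1 s.2}, wF x Y T qs (st i j) L s.1 =
      x ^ (wh K ∩ A).card * T ^ Mk.card *
        famI K (fun r => aφ x Y T (r.2 ∩ flg qs (st i j) Mk).card) (L \ A).card := by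
  have h1 := cnt x Y T (frame_core hL hA h)
    (fun r => aφ x Y T (r.2 ∩ flg qs (st i j) Mk).card) (τ := fun _ => .all) (by
      intro r hr S hS
      refine part_weight x Y T (h.core.part.ac.isq r hr) ?_ S hS
      exact Disjoint.mono (sub_wh hr) (sub_bl hr) h.core.part.col)
  rw [h1]
  have hv : ∀ v ∈ L, (v ∈ vt K ↔ v ∈ A) := by
    intro v hv
    rw [← h.inn]
    unfold iv
    rw [Finset.mem_sdiff, qs_union]
    constructor
    · intro h2
      exact ⟨h2, Finset.disjoint_left.1 hL hv⟩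
    · intro h2
      exact h2.1
  have e1 : wh K ∩ L = wh K ∩ A := by
    ext v
    rw [Finset.mem_inter, Finset.mem_inter]
    constructor
    · rintro ⟨h2, h3⟩
      exact ⟨h2, (hv v h3).1 (Finset.mem_union_left _ h2)⟩
    · rintro ⟨h2, h3⟩
      exact ⟨h2, hA h3⟩
  have e2 : L \ vt K = L \ A := by
    ext v
    rw [Finset.mem_sdiff, Finset.mem_sdiff]
    constructor
    · rintro ⟨h2, h3⟩
      exact ⟨h2, fun h4 => h3 ((hv v h2).2 h4)⟩
    · rintro ⟨h2, h3⟩
      exact ⟨h2, fun h4 => h3 ((hv v h2).1 h4)⟩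
  rw [e1, e2]

/-- The pairs (label set, marked core). -/
def eI (i j : ℕ) (L : Finset ℕ) : (Σ A : {A // A ∈ L.powerset},
    {q : Finset Quad × Finset ℕ // CMi i j A.1 q.1 q.2}) ≃
    {p : Finset ℕ × (Finset Quad × Finset ℕ) // p.1 ⊆ L ∧ CMi i j p.1 p.2.1 p.2.2} where
  toFun z := ⟨(z.1.1, z.2.1), Finset.mem_powerset.1 z.1.2, z.2.2⟩
  invFun p := ⟨⟨p.1.1, Finset.mem_powerset.2 p.2.1⟩, ⟨p.1.2, p.2.2⟩⟩
  left_inv _ := rfl
  right_inv _ := rfl

end DE4bAux

open DE4bAux

theorem cor_eq (x Y T : ℝ≥0∞) {i j : ℕ} (hi : i = 0 ∨ i = 2) (hj : j = 0 ∨ j = 2) (n : ℕ) :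
    an .cor x Y T i j n = ∑ A ∈ (range n).powerset,
      GA x Y T i j (Ico 4 (4 + A.card)) (range n \ A).card := by
  have hL := disj_L n
  have hcard : (Ico 4 (4 + n)).card = n := by
    rw [Nat.card_Ico]
    omega
  have step1 : an .cor x Y T i j n = ∑ A ∈ (Ico 4 (4 + n)).powerset,
      GA x Y T i j A (Ico 4 (4 + n) \ A).card := by
    unfold an AW
    rw [tsum_disj (fun s : Finset Quad × Finset ℕ => MF qs (st i j) (Ico 4 (4 + n)) s.1 s.2 ∧
        Ty.cor.cls qs s.1)
      (fun p : Finset ℕ × (Finset Quad × Finset ℕ) => p.1 ⊆ Ico 4 (4 + n) ∧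
        CMi i j p.1 p.2.1 p.2.2)
      (fun p s => CMF qs (st i j) (Ico 4 (4 + n)) p.2.1 p.2.2 (fun _ => .all) (σc i j p.2.2)
        s.1 s.2)
      (fun s => wF x Y T qs (st i j) (Ico 4 (4 + n)) s)
      (by
        rintro s ⟨h1, h2⟩
        obtain ⟨A, K, Mk, hA, hC, hM⟩ := core_class hi hj h1 h2
        exact ⟨(A, (K, Mk)), ⟨hA, hC⟩, hM⟩)
      (by
        rintro p s ⟨-, h2⟩ h3
        exact core_class_conv h2 h3)
      (by
        rintro ⟨A, K, Mk⟩ ⟨A', K', Mk'⟩ s ⟨-, h2⟩ ⟨-, h2'⟩ h3 h3'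
        obtain ⟨rfl, rfl, rfl⟩ := core_class_uniq h2 h2' h3 h3'
        rfl)]
    rw [← (eI i j (Ico 4 (4 + n))).tsum_eq, ENNReal.tsum_sigma']
    rw [← Finset.tsum_subtype (Ico 4 (4 + n)).powerset
      (fun A => GA x Y T i j A (Ico 4 (4 + n) \ A).card)]
    refine tsum_congr fun A => ?_
    unfold GA
    refine tsum_congr fun q => ?_
    exact core_weight x Y T hL (Finset.mem_powerset.1 A.2) q.2
  rw [step1]
  have step2 : ∑ A ∈ (Ico 4 (4 + n)).powerset, GA x Y T i j A (Ico 4 (4 + n) \ A).card =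
      ∑ A ∈ (Ico 4 (4 + n)).powerset,
        GA x Y T i j (Ico 4 (4 + A.card)) (Ico 4 (4 + n) \ A).card := by
    refine Finset.sum_congr rfl fun A hA => ?_
    exact GA_card x Y T i j (Disjoint.mono_left (Finset.mem_powerset.1 hA) hL) _
  rw [step2, K5.sum_powerset_pair (fun a b => GA x Y T i j (Ico 4 (4 + a)) b) (Ico 4 (4 + n)),
    K5.sum_powerset_pair (fun a b => GA x Y T i j (Ico 4 (4 + a)) b) (range n), hcard,
    Finset.card_range]

end K5M
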