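import Pool.Agent.Lib.K5M.DE2
import Pool.Agent.Lib.K5M.DE3b
import Pool.Agent.Lib.K5M.DE4b

/-!
# K5M.DAlg: the relations between the classes, as coefficient sequences and generating functions
-/

set_option autoImplicit false

namespace K5M

open Finset
open scoped ENNReal

namespace DAlgAux

theorem st_zero (b : ℕ) : st 0 0 b = 0 := by
  unfold st
  split_ifs <;> rfl

theorem flg_zero (M : Finset ℕ) : flg qs (st 0 0) M = M := by
  unfold flg
  have h : qs.2.filter (fun b => st 0 0 b ≠ 0) = ∅ := by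
    rw [Finset.filter_eq_empty_iff]
    intro b _ h
    exact h (st_zero b)
  rw [h, Finset.union_empty]

theorem mnet_iff (n : ℕ) (s : Finset Quad × Finset ℕ) :
    s ∈ MNet 0 1 2 3 (Ico 4 (4 + n)) ↔
      MF qs (st 0 0) (Ico 4 (4 + n)) s.1 s.2 ∧ Ty.all.cls qs s.1 := by
  have hiv : ninn 0 1 2 3 s.1 = iv qs s.1 := by
    unfold ninn iv vt qs
    congr 1
  constructor
  · rintro ⟨h1, h2, h3⟩
    obtain ⟨-, -, h4⟩ := net_iff_part.1 h1
    refine ⟨⟨h4, ?_, h3.sub, h3.blk, h3.three, ?_, ?_⟩, trivial⟩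
    · rw [← hiv]; exact h2
    · intro b _ hb
      exact absurd (st_zero b) hb
    · intro r hr
      rw [flg_zero]
      exact h3.one r hr
  · rintro ⟨h, -⟩
    refine ⟨net_iff_part.2 ⟨by norm_num, by norm_num, h.part⟩, ?_, ⟨h.sub, h.blk, h.three, ?_⟩⟩
    · rw [hiv]; exact h.inn
    · intro r hr
      have h1 := h.one r hr
      rw [flg_zero] at h1
      exact h1

end DAlgAux

open DAlgAux

variable (x Y T : ℝ≥0∞)

/-- `Dmap` is the generating function of all marked networks without flagged sides. -/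
theorem dmap_eq : Dmap x Y T = K5.egf (an .all x Y T 0 0) 1 := by
  unfold Dmap K5.egf
  refine tsum_congr fun n => ?_
  rw [one_pow, one_div, div_eq_mul_inv, mul_comm]
  congr 1
  unfold an AW
  refine ((Equiv.subtypeEquivRight (mnet_iff n)).tsum_eq
    (fun s => wF x Y T qs (st 0 0) (Ico 4 (4 + n)) s.1)).symm.trans ?_ |>.symm
  refine tsum_congr fun s => ?_
  change wF x Y T qs (st 0 0) (Ico 4 (4 + n)) s.1 = wt x Y T (Ico 4 (4 + n)) s.1
  unfold wF wt uq
  rw [flg_zero]

/-! ### The coefficients for flagged sides with one quad -/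

theorem prm_oo (n : ℕ) : an .prm x Y T 1 0 n = if n = 0 then 1 else 0 := by
  rw [prm_eq, ser_one, cor_one, add_zero, add_zero]
  unfold sgl
  by_cases hn : n = 0
  · rw [if_pos hn, if_pos hn]
    simp
  · rw [if_neg hn, if_neg hn]

theorem prm_oj {j : ℕ} (hj : j ≠ 0) (n : ℕ) : an .prm x Y T 1 j n = 0 := by
  rw [prm_eq, ser_one, cor_one, add_zero, add_zero]
  unfold sgl
  by_cases hn : n = 0
  · rw [if_pos hn]
    simp [hj]
  · rw [if_neg hn]

theorem prm_jo {j : ℕ} (hj : j ≠ 0) (n : ℕ) : an .prm x Y T j 1 n = 0 := by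
  rw [an_symm, prm_oj x Y T hj]

theorem prm_zo (n : ℕ) : an .prm x Y T 0 1 n = if n = 0 then 1 else 0 := by
  rw [an_symm, prm_oo]

/-! ### Generating functions -/

/-- The generating function of the parallel networks. -/
theorem egf_par (i j : ℕ) : K5.egf (par x Y T i j) 1 =
    K5.egf (an .prm x Y T i 0) 1 * K5.egf (an .all x Y T 0 j) 1 +
      T * (K5.egf (an .prm x Y T i 1) 1 * K5.egf (an .all x Y T 2 j) 1 +
        K5.egf (an .prm x Y T i 2) 1 * K5.egf (an .all x Y T 1 j) 1) := by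
  have h : par x Y T i j = fun n : ℕ =>
      (n : ℝ≥0∞) * cv (an .prm x Y T i 0) (an .all x Y T 0 j) (n - 1) +
        T * ((n : ℝ≥0∞) * cv (an .prm x Y T i 1) (an .all x Y T 2 j) (n - 1) +
          (n : ℝ≥0∞) * cv (an .prm x Y T i 2) (an .all x Y T 1 j) (n - 1)) := by
    funext n
    unfold par
    ring
  rw [h, egf_add, egf_smul, egf_add, egf_root_cv, egf_root_cv, egf_root_cv]

theorem tr_add (N : ℕ) (F G : ℕ → ℝ≥0∞) :
    tr N (fun n => F n + G n) = fun n => tr N F n + tr N G n := by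
  funext n
  unfold tr
  split_ifs
  · rfl
  · rw [add_zero]

theorem tr_smul (N : ℕ) (a : ℝ≥0∞) (F : ℕ → ℝ≥0∞) :
    tr N (fun n => a * F n) = fun n => a * tr N F n := by
  funext n
  unfold tr
  split_ifs
  · rfl
  · rw [mul_zero]

theorem tr_par (i j N : ℕ) : K5.egf (tr (N + 1) (par x Y T i j)) 1 ≤
    K5.egf (tr N (an .prm x Y T i 0)) 1 * K5.egf (tr N (an .all x Y T 0 j)) 1 +
      T * (K5.egf (tr N (an .prm x Y T i 1)) 1 * K5.egf (tr N (an .all x Y T 2 j)) 1 +
        K5.egf (tr N (an .prm x Y T i 2)) 1 * K5.egf (tr N (an .all x Y T 1 j)) 1) := by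
  have h : par x Y T i j = fun n : ℕ =>
      (n : ℝ≥0∞) * cv (an .prm x Y T i 0) (an .all x Y T 0 j) (n - 1) +
        T * ((n : ℝ≥0∞) * cv (an .prm x Y T i 1) (an .all x Y T 2 j) (n - 1) +
          (n : ℝ≥0∞) * cv (an .prm x Y T i 2) (an .all x Y T 1 j) (n - 1)) := by
    funext n
    unfold par
    ring
  rw [h, tr_add, egf_add, tr_smul, egf_smul, tr_add, egf_add]
  exact add_le_add (tr_root_cv _ _ N) (mul_le_mul_right (add_le_add (tr_root_cv _ _ N)
    (tr_root_cv _ _ N)) T)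

/-- The generating function of the series networks. -/
theorem egf_ser {i j : ℕ} (hi : i ≤ 1) (hj : j ≤ 1) : K5.egf (an .ser x Y T (2 * i) (2 * j)) 1 =
    x * (K5.egf (an .nsr x Y T i j) 1 * K5.egf (an .all x Y T i j) 1) := by
  have h : an .ser x Y T (2 * i) (2 * j) = fun n : ℕ =>
      x * ((n : ℝ≥0∞) * cv (an .nsr x Y T i j) (an .all x Y T i j) (n - 1)) := by
    funext n
    exact ser_eq x Y T hi hj n
  rw [h, egf_smul, egf_root_cv]

theorem tr_ser {i j : ℕ} (hi : i ≤ 1) (hj : j ≤ 1) (N : ℕ) :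
    K5.egf (tr (N + 1) (an .ser x Y T (2 * i) (2 * j))) 1 ≤
      x * (K5.egf (tr N (an .nsr x Y T i j)) 1 * K5.egf (tr N (an .all x Y T i j)) 1) := by
  have h : an .ser x Y T (2 * i) (2 * j) = fun n : ℕ =>
      x * ((n : ℝ≥0∞) * cv (an .nsr x Y T i j) (an .all x Y T i j) (n - 1)) := by
    funext n
    exact ser_eq x Y T hi hj n
  rw [h, tr_smul, egf_smul]
  exact mul_le_mul_right (tr_root_cv _ _ N) x

theorem egf_single (a : ℝ≥0∞) : K5.egf (fun n : ℕ => if n = 0 then a else 0) 1 = a := by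
  unfold K5.egf
  rw [tsum_eq_single 0]
  · simp
  · intro n hn
    simp only [if_neg hn, mul_zero]

/-- The value of the single quad. -/
noncomputable def sv (Y : ℝ≥0∞) (i j : ℕ) : ℝ≥0∞ :=
  if i = 0 ∧ j = 0 then Y else if (i = 1 ∧ j = 0) ∨ (i = 0 ∧ j = 1) then 1 else 0

theorem egf_sg (i j : ℕ) : K5.egf (sgl Y i j) 1 = sv Y i j := by
  have h : sgl Y i j = fun n => if n = 0 then sv Y i j else 0 := by
    funext n
    rfl
  rw [h, egf_single]

theorem tr_zero (F : ℕ → ℝ≥0∞) : K5.egf (tr 0 F) 1 = F 0 := by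
  have h : tr 0 F = fun n => if n = 0 then F 0 else 0 := by
    funext n
    unfold tr
    by_cases hn : n = 0
    · subst hn
      simp
    · rw [if_neg hn, if_neg (by omega)]
  rw [h, egf_single]

theorem egf_congr {F G : ℕ → ℝ≥0∞} (h : ∀ n, F n = G n) : K5.egf F 1 = K5.egf G 1 := by
  have h1 : F = G := funext h
  rw [h1]

theorem tr_congr {F G : ℕ → ℝ≥0∞} (h : ∀ n, F n = G n) (N : ℕ) :
    K5.egf (tr N F) 1 = K5.egf (tr N G) 1 := by
  have h1 : F = G := funext h
  rw [h1]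

end K5M
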