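import Pool.Agent.Lib.K5M.DFlg

/-!
# K5M.DCmpA: families give marked composites

PROOF.  `L' = L \ vt K`, `P r = (F r).1`, `N = cN K F = glue K P`, `M = cM K Mk F`.
`Comp q K P`: `part` from `Fam.mf`; `iv r (P r) = L'.filter (g · = r)` (`MF.inn`) is disjoint from `vt K`, and for `r ≠ r'` the two fibres are
disjoint.
`M ∩ vt K = Mk`: `Mk ⊆ bl K ⊆ vt K`; `(F r).2 ⊆ iv r (P r)` (`MF.sub`, `MF.inn`) is disjoint from `vt K`.
`M ∩ iv r (P r) = (F r).2` for `r ∈ K`: the same facts.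
`MF q c L N M`: `part`: `Comp.part_glue`.  `inn`: `vt N = vt K ∪ ⋃ iv r (P r)` (`Comp.vt_glue`), the fibres are disjoint from
`q.1 ∪ q.2` (`Frame.dis`) and their union is `L'` (`Fam.gK`); so `iv q N = iv q K ∪ L' = L`, because `iv q K ⊆ L` and
`L ∩ vt K ⊆ iv q K` (`Frame.dis`).  `sub`: clear.  `blk`: `bl K ⊆ bl N` (`b ∈ r.2 ⊆ bl (P r)`, `Comp.bl_glue`); `(F r).2 ⊆ bl (P r)`.
`three`: `h ∈ Mk`: for `r ∈ K` with `h ∈ r.2`: `σ r h ≠ 0` (`s0`, `h ∈ flg q c Mk`), so `qd (P r) h = σ r h` (`MF.side` of the part); `qd_frame` and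
`s3`.  `h ∈ (F r).2`: `qd_iv` and `MF.three` of the part.  `side`: `b ∈ q.2 ⊆ bl K`, `c b ≠ 0`: `b ∈ flg q c Mk`; the same with `sc`.
`one`: `r' ∈ N`, `r' ∈ P r`: `r'.2 ⊆ bl (P r)`, by `flg_part` `r'.2 ∩ flg q c M = r'.2 ∩ flg r (σ r) (F r).2`; `MF.one` of the part.
`CMF`: `mks` above; `ex`: this `P`; `MF.side` of the parts (`s0`).
-/

set_option autoImplicit false

namespace K5M

open Finset

variable {q : Quad} {c : ℕ → ℕ} {L Mk : Finset ℕ} {K : Finset Quad} {σ : Quad → ℕ → ℕ}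
  {τ : Quad → Ty} {g : ℕ → Quad} {F : Quad → Finset Quad × Finset ℕ}

namespace DCmpAAux

theorem mem_iv (hF : Fam K τ σ (L \ vt K) g F) {r : Quad} (hr : r ∈ K) {v : ℕ} :
    v ∈ iv r (F r).1 ↔ (v ∈ L ∧ v ∉ vt K) ∧ g v = r := by
  rw [(hF.mf r hr).inn, mem_filter, mem_sdiff]

theorem mem_mark (hF : Fam K τ σ (L \ vt K) g F) {r : Quad} (hr : r ∈ K) {v : ℕ}
    (hv : v ∈ (F r).2) : (v ∈ L ∧ v ∉ vt K) ∧ g v = r := by
  rw [← mem_iv hF hr, (hF.mf r hr).inn]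
  exact (hF.mf r hr).sub hv

end DCmpAAux

open DCmpAAux

theorem Fam.comp (hf : Frame q c L K Mk σ) (hF : Fam K τ σ (L \ vt K) g F) :
    Comp q K (fun r => (F r).1) := by
  refine ⟨hf.part, fun r hr => (hF.mf r hr).part, fun r hr => ?_, fun r hr r' hr' hne => ?_⟩
  · rw [disjoint_left]
    intro v hv
    exact ((mem_iv hF hr).1 hv).1.2
  · rw [disjoint_left]
    intro v hv hv'
    exact hne (((mem_iv hF hr).1 hv).2.symm.trans ((mem_iv hF hr').1 hv').2)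

theorem Fam.marks (hf : Frame q c L K Mk σ) (hF : Fam K τ σ (L \ vt K) g F) :
    cM K Mk F ∩ vt K = Mk ∧ ∀ r ∈ K, cM K Mk F ∩ iv r (F r).1 = (F r).2 := by
  have hMk : ∀ v ∈ Mk, v ∈ vt K := fun v hv => mem_union_right _ (hf.blk hv)
  constructor
  · ext v
    rw [mem_inter, cM, mem_union]
    constructor
    · rintro ⟨h1 | h1, h2⟩
      · exact h1
      · obtain ⟨r, hr, hv⟩ := mem_biUnion.1 h1
        exact absurd h2 (mem_mark hF hr hv).1.2
    · intro h1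
      exact ⟨Or.inl h1, hMk v h1⟩
  · intro r hr
    ext v
    rw [mem_inter, cM, mem_union]
    constructor
    · rintro ⟨h1 | h1, h2⟩
      · exact absurd (hMk v h1) ((mem_iv hF hr).1 h2).1.2
      · obtain ⟨r', hr', hv⟩ := mem_biUnion.1 h1
        have h3 : r' = r := (mem_mark hF hr' hv).2.symm.trans ((mem_iv hF hr).1 h2).2
        rw [← h3]
        exact hv
    · intro h1
      exact ⟨Or.inr (mem_biUnion.2 ⟨r, hr, h1⟩), (mem_iv hF hr).2 (mem_mark hF hr h1)⟩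

theorem Fam.cmf (hf : Frame q c L K Mk σ) (hF : Fam K τ σ (L \ vt K) g F) :
    CMF q c L K Mk τ σ (cN K F) (cM K Mk F) := by
  have hC := Fam.comp hf hF
  obtain ⟨hM1, hM2⟩ := Fam.marks hf hF
  have hN : cN K F = glue K (fun r => (F r).1) := rfl
  have hσ : ∀ b, b ∈ flg q c Mk → ∀ r ∈ K, b ∈ r.2 → qd (F r).1 b = σ r b := by
    intro b hb r hr hbr
    exact (hF.mf r hr).side b hbr ((hf.s0 r hr b hbr).2 hb)
  refine ⟨⟨?_, ?_, ?_, ?_, ?_, ?_, ?_⟩, hM1, fun r => (F r).1, hC, rfl, hF.ty,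
    fun r hr b hbr hb => hσ b hb r hr hbr⟩
  · exact hC.part_glue
  · ext v
    rw [iv, hN, hC.vt_glue, mem_sdiff, mem_union]
    constructor
    · rintro ⟨h1 | h1, h2⟩
      · exact hf.inn (mem_sdiff.2 ⟨h1, h2⟩)
      · obtain ⟨r, hr, hv⟩ := mem_biUnion.1 h1
        exact ((mem_iv hF hr).1 hv).1.1
    · intro h1
      refine ⟨?_, disjoint_left.1 hf.dis h1⟩
      by_cases h2 : v ∈ vt K
      · exact Or.inl h2
      · have h3 : g v ∈ K := hF.gK v (mem_sdiff.2 ⟨h1, h2⟩)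
        exact Or.inr (mem_biUnion.2 ⟨g v, h3, (mem_iv hF h3).2 ⟨⟨h1, h2⟩, rfl⟩⟩)
  · rw [cM]
    refine union_subset hf.sub ?_
    intro v hv
    obtain ⟨r, hr, hv⟩ := mem_biUnion.1 hv
    exact (mem_mark hF hr hv).1.1
  · rw [hN, hC.bl_glue, cM]
    refine union_subset ?_ ?_
    · intro b hb
      obtain ⟨r, hr, hbr⟩ := mem_biUnion.1 (hf.blk hb)
      exact mem_biUnion.2 ⟨r, hr, (hF.mf r hr).part.sub_bl hbr⟩
    · intro b hb
      obtain ⟨r, hr, hbr⟩ := mem_biUnion.1 hb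
      exact mem_biUnion.2 ⟨r, hr, (hF.mf r hr).blk hbr⟩
  · intro h hh
    rw [cM, mem_union] at hh
    rcases hh with hh | hh
    · rw [hN, qd_frame hC (hf.blk hh) (fun r hr hr2 => hσ h (mem_union_left _ hh) r hr hr2)]
      exact hf.s3 h hh
    · obtain ⟨r, hr, hhr⟩ := mem_biUnion.1 hh
      rw [hN, qd_iv hC hr ((mem_iv hF hr).2 (mem_mark hF hr hhr))]
      exact (hF.mf r hr).three h hhr
  · intro b hb hcb
    rw [hN, qd_frame hC (hf.part.sub_bl hb) (fun r hr hr2 =>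
      hσ b (mem_union_right _ (mem_filter.2 ⟨hb, hcb⟩)) r hr hr2)]
    exact hf.sc b hb hcb
  · intro r' hr'
    obtain ⟨r, hr, hrr⟩ := mem_biUnion.1 hr'
    have h1 : r'.2 ∩ flg q c (cM K Mk F) = r'.2 ∩ flg r (σ r) (F r).2 := by
      ext b
      rw [mem_inter, mem_inter]
      refine and_congr_right fun hb => ?_
      have hbl : b ∈ bl (F r).1 := mem_biUnion.2 ⟨r', hrr, hb⟩
      rw [flg_part hf hC hM1 hr hbl, hM2 r hr]
    rw [h1]
    exact (hF.mf r hr).one r' hrr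

end K5M
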