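import Pool.Agent.Lib.K5M.DFlg
import Pool.Agent.Lib.K5M.DCmpA

/-!
# K5M.DCmpB: marked composites come from exactly one family

PROOF of `CMF.exists_fam`.  `h : CMF ..`, `P` from `h.ex`, `N = glue K P`, `L' = L \ vt K`.  Every `v ∈ L'` is in exactly one
`iv r (P r)`, `r ∈ K`: `v ∈ L = iv q N ⊆ vt N = vt K ∪ ⋃ iv r (P r)` (`Comp.vt_glue`), uniqueness: field `dj`.  `g v` = this `r` for
`v ∈ L'`, `(∅, ∅)` otherwise.  `F r = (P r, M ∩ iv r (P r))` for `r ∈ K`, `(∅, ∅)` otherwise.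
`L'.filter (g · = r) = iv r (P r)`: `⊆` by definition (a `v ∈ L'` with `g v = r`); `⊇`: `v ∈ iv r (P r)` is not in `vt K` (`dK`), in `vt N`, not in
`q.1 ∪ q.2 ⊆ vt K`, so in `iv q N = L`.
`MF r (σ r) (iv r (P r)) (P r) (M ∩ iv r (P r))`: `blk`: `m ∈ M ⊆ bl N`, `m ∈ vt (P r)`; if `m ∈ wh (P r) ⊆ wh N` contradiction to `col` of `N`;
so `m ∈ bl (P r)`.  `three`: `qd_iv` and `MF.three`.  `side`: `b ∈ r.2`, `σ r b ≠ 0`, so `b ∈ flg q c Mk` (`s0`), use `h.ex`.
`one`: `flg_part`.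
`cN K F = glue K P = N`; `cM K Mk F = M`: `Mk = M ∩ vt K ⊆ M`; a mark `m ∈ M ⊆ L` is in `vt K`, hence in `Mk`, or in `L'`, hence in some
`iv r (P r)`.
PROOF of `Fam.unique`.  For `r ∈ K`: `(F r).1, (F' r).1 ⊆ N` (glue) and both have the boundary `ed r`; `AC.inj` for `Part q N`
(`Comp.part_glue`) applied to their symmetric difference: equal.  `(F r).2 = M ∩ iv r (F r).1` (`Fam.marks`): equal.  Outside `K` both
are `(∅, ∅)`.  `g v = r ↔ v ∈ L'.filter (g · = r) = iv r (F r).1` for `v ∈ L'`, `r ∈ K` (`MF.inn`), and `g v ∈ K`: so `g = g'` on `L'`; outside both are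
`(∅, ∅)`.
-/

set_option autoImplicit false

namespace K5M

open Finset

variable {q : Quad} {c : ℕ → ℕ} {L Mk M : Finset ℕ} {K N : Finset Quad} {σ : Quad → ℕ → ℕ}
  {τ : Quad → Ty} {g g' : ℕ → Quad} {F F' : Quad → Finset Quad × Finset ℕ}

theorem CMF.exists_fam (hf : Frame q c L K Mk σ) (h : CMF q c L K Mk τ σ N M) :
    ∃ (g : ℕ → Quad) (F : Quad → Finset Quad × Finset ℕ), Fam K τ σ (L \ vt K) g F ∧
      cN K F = N ∧ cM K Mk F = M := by
  classical
  obtain ⟨P, hC, hN, hty, hqd⟩ := h.ex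
  subst hN
  have hqK : q.1 ∪ q.2 ⊆ vt K := Finset.union_subset
    (fun v hv => Finset.mem_union_left _ (hC.out.sub_wh hv))
    (fun v hv => Finset.mem_union_right _ (hC.out.sub_bl hv))
  have hb : ∀ v ∈ L \ vt K, ∃ r ∈ K, v ∈ iv r (P r) := by
    intro v hv
    obtain ⟨hv1, hv2⟩ := Finset.mem_sdiff.1 hv
    rw [← h.mf.inn] at hv1
    have h1 := (Finset.mem_sdiff.1 hv1).1
    rw [hC.vt_glue] at h1
    rcases Finset.mem_union.1 h1 with h2 | h2
    · exact absurd h2 hv2
    · exact Finset.mem_biUnion.1 h2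
  have hc : ∀ r ∈ K, ∀ v ∈ iv r (P r), v ∈ L \ vt K := by
    intro r hr v hv
    have h1 : v ∉ vt K := Finset.disjoint_left.1 (hC.dK r hr) hv
    refine Finset.mem_sdiff.2 ⟨?_, h1⟩
    rw [← h.mf.inn]
    refine Finset.mem_sdiff.2 ⟨?_, fun h2 => h1 (hqK h2)⟩
    rw [hC.vt_glue]
    exact Finset.mem_union_right _ (Finset.mem_biUnion.2 ⟨r, hr, hv⟩)
  set g : ℕ → Quad := fun v => if hv : v ∈ L \ vt K then (hb v hv).choose else (∅, ∅) with hg
  have hg1 : ∀ v ∈ L \ vt K, g v ∈ K ∧ v ∈ iv (g v) (P (g v)) := by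
    intro v hv
    have h1 := (hb v hv).choose_spec
    have h2 : g v = (hb v hv).choose := by
      rw [hg]
      exact dif_pos hv
    rw [h2]
    exact h1
  have hg2 : ∀ v, v ∉ L \ vt K → g v = (∅, ∅) := by
    intro v hv
    rw [hg]
    exact dif_neg hv
  have hfil : ∀ r ∈ K, (L \ vt K).filter (fun v => g v = r) = iv r (P r) := by
    intro r hr
    ext v
    rw [Finset.mem_filter]
    constructor
    · rintro ⟨h1, h2⟩
      have h3 := (hg1 v h1).2
      rwa [h2] at h3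
    · intro h1
      have h2 := hc r hr v h1
      refine ⟨h2, ?_⟩
      by_contra h3
      obtain ⟨h4, h5⟩ := hg1 v h2
      exact Finset.disjoint_left.1 (hC.dj (g v) h4 r hr h3) h5 h1
  have hmf : ∀ r ∈ K, MF r (σ r) (iv r (P r)) (P r) (M ∩ iv r (P r)) := by
    intro r hr
    have hsub : P r ⊆ glue K P := Finset.subset_biUnion_of_mem P hr
    refine ⟨hC.part r hr, rfl, Finset.inter_subset_right, ?_, ?_, ?_, ?_⟩
    · intro m hm
      obtain ⟨h1, h2⟩ := Finset.mem_inter.1 hm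
      have h3 := h.mf.blk h1
      rcases Finset.mem_union.1 (Finset.mem_sdiff.1 h2).1 with h4 | h4
      · exact absurd h3 (Finset.disjoint_left.1 h.mf.part.col
          (Finset.biUnion_subset_biUnion_of_subset_left _ hsub h4))
      · exact h4
    · intro m hm
      obtain ⟨h1, h2⟩ := Finset.mem_inter.1 hm
      rw [← qd_iv hC hr h2]
      exact h.mf.three m h1
    · intro b hb' h0
      exact hqd r hr b hb' ((hf.s0 r hr b hb').1 h0)
    · intro r' hr'
      have h1 : r'.2 ∩ flg r (σ r) (M ∩ iv r (P r)) = r'.2 ∩ flg q c M := by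
        ext b
        rw [Finset.mem_inter, Finset.mem_inter]
        constructor
        · rintro ⟨h2, h3⟩
          exact ⟨h2, (flg_part hf hC h.mks hr (Finset.mem_biUnion.2 ⟨r', hr', h2⟩)).2 h3⟩
        · rintro ⟨h2, h3⟩
          exact ⟨h2, (flg_part hf hC h.mks hr (Finset.mem_biUnion.2 ⟨r', hr', h2⟩)).1 h3⟩
      rw [h1]
      exact h.mf.one r' (hsub hr')
  refine ⟨g, fun r => if r ∈ K then (P r, M ∩ iv r (P r)) else (∅, ∅), ⟨?_, ?_, ?_, ?_, ?_⟩,
    ?_, ?_⟩
  · exact fun v hv => (hg1 v hv).1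
  · exact hg2
  · intro r hr
    rw [hfil r hr, if_pos hr]
    exact hmf r hr
  · intro r hr
    rw [if_pos hr]
    exact hty r hr
  · intro r hr
    exact if_neg hr
  · unfold cN glue
    apply Finset.biUnion_congr rfl
    intro r hr
    beta_reduce
    rw [if_pos hr]
  · have h1 : K.biUnion (fun r => (if r ∈ K then (P r, M ∩ iv r (P r)) else
        ((∅ : Finset Quad), (∅ : Finset ℕ))).2) = K.biUnion (fun r => M ∩ iv r (P r)) := by
      apply Finset.biUnion_congr rfl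
      intro r hr
      rw [if_pos hr]
    unfold cM
    rw [h1]
    ext m
    rw [Finset.mem_union, Finset.mem_biUnion]
    constructor
    · rintro (h2 | ⟨r, _, h2⟩)
      · rw [← h.mks] at h2
        exact (Finset.mem_inter.1 h2).1
      · exact (Finset.mem_inter.1 h2).1
    · intro hm
      by_cases h2 : m ∈ vt K
      · left
        rw [← h.mks]
        exact Finset.mem_inter.2 ⟨hm, h2⟩
      · right
        obtain ⟨r, hr, h3⟩ := hb m (Finset.mem_sdiff.2 ⟨h.mf.sub hm, h2⟩)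
        exact ⟨r, hr, Finset.mem_inter.2 ⟨hm, h3⟩⟩

theorem Fam.unique (hf : Frame q c L K Mk σ) (hF : Fam K τ σ (L \ vt K) g F)
    (hF' : Fam K τ σ (L \ vt K) g' F') (h1 : cN K F = cN K F') (h2 : cM K Mk F = cM K Mk F') :
    g = g' ∧ F = F' := by
  have hC := hF.comp hf
  have hC' := hF'.comp hf
  have hN := hC.part_glue
  have h11 : ∀ r ∈ K, (F r).1 = (F' r).1 := by
    intro r hr
    have hs1 : (F r).1 ⊆ glue K (fun r => (F r).1) :=
      Finset.subset_biUnion_of_mem (fun r => (F r).1) hr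
    have hs2 : (F' r).1 ⊆ glue K (fun r => (F r).1) := by
      have h3 : (F' r).1 ⊆ cN K F' := Finset.subset_biUnion_of_mem (fun r => (F' r).1) hr
      rw [← h1] at h3
      exact h3
    have h4 : symmDiff (F r).1 (F' r).1 ⊆ glue K (fun r => (F r).1) := by
      intro x hx
      rcases Finset.mem_symmDiff.1 hx with h5 | h5
      · exact hs1 h5.1
      · exact hs2 h5.1
    have h5 : bd (symmDiff (F r).1 (F' r).1) = ∅ := by
      rw [bd_symmDiff, (hF.mf r hr).part.bnd, (hF'.mf r hr).part.bnd]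
      exact symmDiff_self _
    have h6 := hN.ac.inj _ h4 h5
    exact symmDiff_eq_bot.1 h6
  have hFF : F = F' := by
    funext r
    by_cases hr : r ∈ K
    · have h3 := (hF.marks hf).2 r hr
      have h4 := (hF'.marks hf).2 r hr
      refine Prod.ext (h11 r hr) ?_
      rw [← h3, ← h4, h2, h11 r hr]
    · rw [hF.out r hr, hF'.out r hr]
  refine ⟨?_, hFF⟩
  funext v
  by_cases hv : v ∈ L \ vt K
  · have hr := hF.gK v hv
    have h3 : v ∈ (L \ vt K).filter (fun w => g w = g v) := Finset.mem_filter.2 ⟨hv, rfl⟩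
    rw [← (hF.mf _ hr).inn, hFF, (hF'.mf _ hr).inn] at h3
    exact (Finset.mem_filter.1 h3).2.symm
  · rw [hF.gout v hv, hF'.gout v hv]

end K5M
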