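import Pool.Agent.Lib.K5M.N2

/-!
# K5M.N3: existence of the core decomposition

`Two N`: `N` is the disjoint union of two 4-regions (this means series or parallel).

PROOF of `exists_core`.  `(bd N).card = 4`.  Call `X ⊆ N` with `(bd X).card = 4`, `X ≠ N`, proper.  Every single
quad of `N` is proper (`2 ≤ N.card`).  Let `X, X'` be maximal proper sets, `X ≠ X'`.  They are disjoint: otherwise
`(bd (X ∪ X')).card = 4` (`AC.union_four`), and by maximality (`X ∪ X'` is strictly bigger than `X` or than `X'`, hence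
than both: if `X ∪ X' = X` then `X' ⊆ X`, `X' = X` by maximality of `X'`) `X ∪ X' = N`; `X \ X'` and `X' \ X` are nonempty, so
by `AC.sdiff_four` `(bd (X \ X')).card = 4`, and `X \ X' = N \ X'`: `Two N`, contradiction.  Every quad of `N` is in a
maximal proper set.  For a maximal proper `X` there is a unique quad `q` with `ed q = bd X` (`exists_quad`,
`Evn_bd`), and different `X` have different `q` (`inj`: `bd X = bd X'` implies `X = X'`).  Let `K` be the set of these
quads and `P q` the set `X` with `bd X = ed q`.  `comp_of_partition` gives `Comp q0 K P`.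
Irreducible: let `K' ⊆ K`, `(bd K').card = 4`, `Y = glue K' P`; `bd Y = bd K'` (induction on `K'`, see N1, N2).
`Y ≠ ∅`.  If `Y = N` then `K' = K` (the `P q` are nonempty and disjoint).  Otherwise `Y` is proper, contained in a
maximal proper set `P q`, so `K' = {q}`.  `K.card ≥ 3`: `K.card = 0` is impossible; if `K = {q}` then `N = P q` is
proper, contradiction; if `K = {q, q'}` then `N = P q ∪ P q'`: `Two N`.
PROOF of `Two_iff`: notes in the statement file N5.
-/

set_option autoImplicit false

namespace K5M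

open Finset

/-- `N` is the disjoint union of two nonempty 4-regions. -/
def Two (N : Finset Quad) : Prop :=
  ∃ X ⊆ N, X ≠ ∅ ∧ X ≠ N ∧ (bd X).card = 4 ∧ (bd (N \ X)).card = 4

namespace N3Aux

theorem bd_glue_aux {K' : Finset Quad} {P : Quad → Finset Quad} (hb : ∀ q ∈ K', bd (P q) = ed q)
    (hd : ∀ q ∈ K', ∀ q' ∈ K', q ≠ q' → Disjoint (P q) (P q')) :
    bd (glue K' P) = bd K' := by
  classical
  induction K' using Finset.induction_on with
  | empty => rfl
  | insert q K' hq ih =>
    have h1 := ih (fun r hr => hb r (Finset.mem_insert_of_mem hr))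
      (fun r hr r' hr' => hd r (Finset.mem_insert_of_mem hr) r' (Finset.mem_insert_of_mem hr'))
    have h2 : glue (insert q K') P = P q ∪ glue K' P := by
      unfold glue
      rw [Finset.biUnion_insert]
    have h3 : Disjoint (P q) (glue K' P) := by
      unfold glue
      rw [Finset.disjoint_biUnion_right]
      intro r hr
      exact hd q (Finset.mem_insert_self _ _) r (Finset.mem_insert_of_mem hr)
        (fun h => hq (h ▸ hr))
    have h4 : Disjoint {q} K' := Finset.disjoint_singleton_left.mpr hq
    rw [h2, bd_union h3, h1, hb q (Finset.mem_insert_self _ _), Finset.insert_eq, bd_union h4,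
      bd_singleton]

end N3Aux

open N3Aux

theorem exists_core {q0 : Quad} {N : Finset Quad} (hN : Part q0 N) (h2 : 2 ≤ N.card)
    (ht : ¬ Two N) : ∃ (K : Finset Quad) (P : Quad → Finset Quad),
      Comp q0 K P ∧ CoreQ q0 K ∧ glue K P = N := by
  classical
  have hA := hN.ac
  set F : Finset (Finset Quad) := N.powerset.filter (fun X => (bd X).card = 4 ∧ X ≠ N) with hF
  have memF : ∀ X, X ∈ F ↔ X ⊆ N ∧ (bd X).card = 4 ∧ X ≠ N := by
    intro X
    rw [hF, Finset.mem_filter, Finset.mem_powerset]
  have neF : ∀ X, (bd X).card = 4 → X.Nonempty := by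
    intro X h
    rw [Finset.nonempty_iff_ne_empty]
    rintro rfl
    rw [bd_empty, Finset.card_empty] at h
    omega
  set MM : Finset (Finset Quad) := F.filter (fun X => Maximal (· ∈ F) X) with hMM
  have memM : ∀ X, X ∈ MM ↔ X ∈ F ∧ ∀ Y ∈ F, X ⊆ Y → Y ⊆ X := by
    intro X
    rw [hMM, Finset.mem_filter]
    constructor
    · rintro ⟨h1, h3⟩
      exact ⟨h1, fun Y hY hXY => h3.2 hY hXY⟩
    · rintro ⟨h1, h3⟩
      exact ⟨h1, h1, fun Y hY hXY => h3 Y hY hXY⟩
  have exM : ∀ X ∈ F, ∃ Y ∈ MM, X ⊆ Y := by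
    intro X hX
    obtain ⟨Y, hXY, hY⟩ := Finset.exists_le_maximal F hX
    exact ⟨Y, by rw [hMM, Finset.mem_filter]; exact ⟨hY.1, hY⟩, hXY⟩
  -- maximal sets are disjoint
  have disjM : ∀ X ∈ MM, ∀ X' ∈ MM, X ≠ X' → Disjoint X X' := by
    intro X hX X' hX' hne
    by_contra hnd
    have hint : (X ∩ X').Nonempty := by
      rwa [Finset.not_disjoint_iff_nonempty_inter] at hnd
    obtain ⟨hXF, hXm⟩ := (memM X).1 hX
    obtain ⟨hXF', hXm'⟩ := (memM X').1 hX'
    obtain ⟨hXN, hX4, hXne⟩ := (memF X).1 hXF
    obtain ⟨hXN', hX4', hXne'⟩ := (memF X').1 hXF'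
    have hu := (hA.union_four hXN hXN' hX4 hX4' hint).1
    have huN : X ∪ X' = N := by
      by_contra hne2
      have h3 : X ∪ X' ∈ F := (memF _).2 ⟨Finset.union_subset hXN hXN', hu, hne2⟩
      have h4 := hXm _ h3 Finset.subset_union_left
      have h5 : X' ⊆ X := Finset.subset_union_right.trans h4
      have h6 := hXm' X hXF h5
      exact hne (Finset.Subset.antisymm h6 h5)
    have hs1 : (X \ X').Nonempty := by
      rw [Finset.nonempty_iff_ne_empty]
      intro h
      rw [Finset.sdiff_eq_empty_iff_subset] at h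
      apply hXne'
      rw [← huN, Finset.union_eq_right.mpr h]
    have hs2 : (X' \ X).Nonempty := by
      rw [Finset.nonempty_iff_ne_empty]
      intro h
      rw [Finset.sdiff_eq_empty_iff_subset] at h
      apply hXne
      rw [← huN, Finset.union_eq_left.mpr h]
    have h7 := (hA.sdiff_four hXN hXN' hX4 hX4' hs1 hs2).1
    have h8 : X \ X' = N \ X' := by
      rw [← huN, Finset.union_sdiff_right]
    apply ht
    exact ⟨X', hXN', (neF X' hX4').ne_empty, hXne', hX4', by rw [← h8]; exact h7⟩
  -- the quads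
  have exq : ∀ X, ∃ q : Quad, X ∈ MM → IsQ q ∧ ed q = bd X := by
    intro X
    by_cases hX : X ∈ MM
    · obtain ⟨hXN, hX4, _⟩ := (memF X).1 ((memM X).1 hX).1
      obtain ⟨q, h1, h3⟩ := exists_quad (Evn_bd (fun q hq => hA.isq q (hXN hq))) hX4
      exact ⟨q, fun _ => ⟨h1, h3⟩⟩
    · exact ⟨(∅, ∅), fun h => absurd h hX⟩
  choose c hc using exq
  have cinj : ∀ X ∈ MM, ∀ X' ∈ MM, c X = c X' → X = X' := by
    intro X hX X' hX' h
    obtain ⟨hXN, _, _⟩ := (memF X).1 ((memM X).1 hX).1
    obtain ⟨hXN', _, _⟩ := (memF X').1 ((memM X').1 hX').1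
    have h1 : bd X = bd X' := by rw [← (hc X hX).2, ← (hc X' hX').2, h]
    have h3 : bd (symmDiff X X') = ∅ := by
      rw [bd_symmDiff, h1, symmDiff_self]
      rfl
    have h4 := hA.inj (symmDiff X X') (by
      intro r hr
      rw [Finset.mem_symmDiff] at hr
      rcases hr with hr | hr
      · exact hXN hr.1
      · exact hXN' hr.1) h3
    exact symmDiff_eq_bot.mp h4
  set K : Finset Quad := MM.image c with hK
  set P : Quad → Finset Quad := fun q => (MM.filter (fun X => c X = q)).biUnion id with hPdef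
  have hP : ∀ X ∈ MM, P (c X) = X := by
    intro X hX
    have h1 : MM.filter (fun Y => c Y = c X) = {X} := by
      ext Y
      rw [Finset.mem_filter, Finset.mem_singleton]
      constructor
      · rintro ⟨h3, h4⟩
        exact cinj Y h3 X hX h4
      · rintro rfl
        exact ⟨hX, rfl⟩
    rw [hPdef]
    simp only
    rw [h1, Finset.singleton_biUnion, id]
  have hKex : ∀ q ∈ K, ∃ X ∈ MM, c X = q ∧ P q = X := by
    intro q hq
    rw [hK, Finset.mem_image] at hq
    obtain ⟨X, hX, rfl⟩ := hq
    exact ⟨X, hX, rfl, hP X hX⟩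
  have hcK : ∀ X ∈ MM, c X ∈ K := by
    intro X hX
    rw [hK]
    exact Finset.mem_image_of_mem c hX
  have hq : ∀ q ∈ K, IsQ q := by
    intro q hq
    obtain ⟨X, hX, rfl, _⟩ := hKex q hq
    exact (hc X hX).1
  have hb : ∀ q ∈ K, bd (P q) = ed q := by
    intro q hq
    obtain ⟨X, hX, rfl, h3⟩ := hKex q hq
    rw [h3]
    exact (hc X hX).2.symm
  have hd : ∀ q ∈ K, ∀ q' ∈ K, q ≠ q' → Disjoint (P q) (P q') := by
    intro q hq q' hq' hne
    obtain ⟨X, hX, h1, h3⟩ := hKex q hq
    obtain ⟨X', hX', h1', h3'⟩ := hKex q' hq'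
    rw [h3, h3']
    exact disjM X hX X' hX' (fun h => hne (by rw [← h1, ← h1', h]))
  have hb4 : ∀ q ∈ K, (bd (P q)).card = 4 := by
    intro q hq'
    rw [hb q hq', card_ed (hq q hq')]
  have hPN : ∀ q ∈ K, P q ⊆ N := by
    intro q hq'
    obtain ⟨X, hX, _, h3⟩ := hKex q hq'
    rw [h3]
    exact ((memF X).1 ((memM X).1 hX).1).1
  have hPne : ∀ q ∈ K, P q ≠ N := by
    intro q hq'
    obtain ⟨X, hX, _, h3⟩ := hKex q hq'
    rw [h3]
    exact ((memF X).1 ((memM X).1 hX).1).2.2
  have hu : glue K P = N := by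
    unfold glue
    apply Finset.Subset.antisymm
    · intro r hr
      rw [Finset.mem_biUnion] at hr
      obtain ⟨q, hq', hr⟩ := hr
      exact hPN q hq' hr
    · intro r hr
      have h1 : ({r} : Finset Quad) ∈ F := by
        refine (memF _).2 ⟨Finset.singleton_subset_iff.mpr hr, ?_, ?_⟩
        · rw [bd_singleton, card_ed (hA.isq r hr)]
        · rintro rfl
          rw [Finset.card_singleton] at h2
          omega
      obtain ⟨Y, hY, hrY⟩ := exM _ h1
      rw [Finset.mem_biUnion]
      refine ⟨c Y, hcK Y hY, ?_⟩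
      rw [hP Y hY]
      exact hrY (Finset.mem_singleton_self r)
  have hcomp := comp_of_partition hN hq hb hd hu
  have hsame : ∀ q ∈ K, ∀ q' ∈ K, ∀ r, r ∈ P q → r ∈ P q' → q = q' := by
    intro q hq1 q' hq2 r hr hr'
    by_contra hne
    exact Finset.disjoint_left.mp (hd q hq1 q' hq2 hne) hr hr'
  refine ⟨K, P, hcomp, ⟨hcomp.out, ?_, ?_⟩, hu⟩
  · by_contra hlt
    have hcard : K.card = 0 ∨ K.card = 1 ∨ K.card = 2 := by omega
    rcases hcard with h0 | h1 | h22
    · rw [Finset.card_eq_zero] at h0
      have h3 : N = ∅ := by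
        rw [← hu, h0]
        rfl
      rw [h3, Finset.card_empty] at h2
      omega
    · obtain ⟨q, hq1⟩ := Finset.card_eq_one.mp h1
      have hqK : q ∈ K := by
        rw [hq1]
        exact Finset.mem_singleton_self q
      apply hPne q hqK
      rw [← hu, hq1]
      unfold glue
      rw [Finset.singleton_biUnion]
    · obtain ⟨q, q', hne, hq1⟩ := Finset.card_eq_two.mp h22
      have hqK : q ∈ K := by
        rw [hq1]
        exact Finset.mem_insert_self q _
      have hqK' : q' ∈ K := by
        rw [hq1]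
        exact Finset.mem_insert_of_mem (Finset.mem_singleton_self q')
      have h3 : N = P q ∪ P q' := by
        rw [← hu, hq1]
        unfold glue
        rw [Finset.biUnion_insert, Finset.singleton_biUnion]
      have h4 : N \ P q = P q' := by
        rw [h3, Finset.union_sdiff_left]
        exact Finset.sdiff_eq_self_of_disjoint (hd q hqK q' hqK' hne).symm
      apply ht
      exact ⟨P q, hPN q hqK, (neF _ (hb4 q hqK)).ne_empty, hPne q hqK, hb4 q hqK, by
        rw [h4]
        exact hb4 q' hqK'⟩
  · intro K' hK' h4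
    have hbg : bd (glue K' P) = bd K' := bd_glue_aux (fun q hq1 => hb q (hK' hq1))
      (fun q hq1 q' hq2 => hd q (hK' hq1) q' (hK' hq2))
    have hYN : glue K' P ⊆ N := by
      intro r hr
      unfold glue at hr
      rw [Finset.mem_biUnion] at hr
      obtain ⟨q, hq1, hr⟩ := hr
      exact hPN q (hK' hq1) hr
    by_cases hY : glue K' P = N
    · right
      apply Finset.Subset.antisymm hK'
      intro q hqK
      obtain ⟨r, hr⟩ := neF _ (hb4 q hqK)
      have h5 : r ∈ glue K' P := by
        rw [hY]
        exact hPN q hqK hr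
      unfold glue at h5
      rw [Finset.mem_biUnion] at h5
      obtain ⟨q', hq2, hr'⟩ := h5
      rw [hsame q hqK q' (hK' hq2) r hr hr']
      exact hq2
    · left
      have h5 : glue K' P ∈ F := (memF _).2 ⟨hYN, by rw [hbg]; exact h4, hY⟩
      obtain ⟨b, hbM, hYb⟩ := exM _ h5
      have h6 : ∀ q ∈ K', q = c b := by
        intro q hq1
        obtain ⟨r, hr⟩ := neF _ (hb4 q (hK' hq1))
        have h7 : r ∈ glue K' P := by
          unfold glue
          rw [Finset.mem_biUnion]
          exact ⟨q, hq1, hr⟩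
        have h8 := hYb h7
        rw [← hP b hbM] at h8
        exact hsame q (hK' hq1) (c b) (hcK b hbM) r hr h8
      have h9 : K'.Nonempty := by
        rw [Finset.nonempty_iff_ne_empty]
        rintro rfl
        rw [bd_empty, Finset.card_empty] at h4
        omega
      rw [Finset.card_eq_one]
      exact ⟨c b, Finset.eq_singleton_iff_nonempty_unique_mem.mpr ⟨h9, h6⟩⟩

end K5M
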