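import Pool.Agent.Lib.K5M.N1
import Pool.Agent.Lib.K5M.N3

/-!
# K5M.N4: uniqueness of the core decomposition

PROOF of `region_in_part`.  `N = glue K P`, `X ⊆ N`, `(bd X).card = 4`, `X ≠ N` (so `X ≠ ∅`).  For `q ∈ K`,
`(bd (P q)).card = 4`.  Let `K1` = the set of `q ∈ K` with `P q ∩ X ≠ ∅`, nonempty.  Adding the `P q`, `q ∈ K1`, one after
the other to `X` (each meets `X`) and using `AC.union_four`, `(bd (X ∪ glue K1' P)).card = 4` for all `K1' ⊆ K1`; for
`K1' = K1` the set is `glue K1 P` (every quad of `X` is in some `P q`, `q ∈ K1`), so `(bd K1).card = 4` (`bd_glue`) and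
`K1.card = 1` or `K1 = K` by irreducibility.  In the first case `X ⊆ P q`.  Let `K1 = K`.  As `X ≠ N` there is `q ∈ K` with
`P q ⊄ X`.  Let `X1 = X ∪ glue (K.erase q) P`, `(bd X1).card = 4` (all parts meet `X`).  `P q \ X1 = P q \ X ≠ ∅` (the
other parts are disjoint from `P q`), `X1 \ P q = glue (K.erase q) P ≠ ∅`.  `AC.sdiff_four`:
`(bd (glue (K.erase q) P)).card = 4`, so `(bd (K.erase q)).card = 4`, hence `(K.erase q).card = 1` or `K.erase q = K`:
both impossible, since `3 ≤ K.card`.
`parts_maximal`: the sets `P q` are exactly the maximal proper 4-regions of `N`: they are 4-regions (`bd (P q) = ed q`),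
`P q ≠ N` (`K.card ≥ 3`, the parts are nonempty and disjoint), and every 4-region `≠ N` is contained in one of them.
`comp_unique`: so the sets of sets `{P q : q ∈ K}` and `{P' q : q ∈ K'}` are equal, and `q` is determined by `P q`
(`ed q = bd (P q)`, `ed_inj`).
`not_two`: if `N = X ∪ X'`, disjoint 4-regions, then `X ⊆ P q`, `X' ⊆ P q'`, so `N ⊆ P q ∪ P q'`: contradiction to
`3 ≤ K.card`.
-/

set_option autoImplicit false

namespace K5M

open Finset

variable {q0 : Quad} {K K' : Finset Quad} {P P' : Quad → Finset Quad}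

namespace N4Aux

theorem sub_glue {K : Finset Quad} {P : Quad → Finset Quad} {q : Quad} (hq : q ∈ K) :
    P q ⊆ glue K P := Finset.subset_biUnion_of_mem P hq

theorem mem_glue {K : Finset Quad} {P : Quad → Finset Quad} {r : Quad} :
    r ∈ glue K P ↔ ∃ q ∈ K, r ∈ P q := by
  unfold glue
  rw [Finset.mem_biUnion]

theorem card_bd_part (h : Comp q0 K P) {q : Quad} (hq : q ∈ K) : (bd (P q)).card = 4 := by
  rw [(h.part q hq).bnd]
  exact card_ed (h.part q hq).isq

theorem part_ne (h : Comp q0 K P) (h3 : 2 ≤ K.card) {q : Quad} (hq : q ∈ K) :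
    P q ≠ glue K P := by
  intro he
  have h1 : (K.erase q).Nonempty := by
    rw [← Finset.card_pos, Finset.card_erase_of_mem hq]
    omega
  obtain ⟨q', hq'⟩ := h1
  obtain ⟨hne, hq'K⟩ := Finset.mem_erase.1 hq'
  obtain ⟨r, hr⟩ := (h.part q' hq'K).nonempty
  have h2 : r ∈ P q := by
    rw [he]
    exact mem_glue.2 ⟨q', hq'K, hr⟩
  exact Finset.disjoint_left.1 (h.disj hq'K hq hne) hr h2

end N4Aux

open N4Aux

theorem region_in_part (h : Comp q0 K P) (hc : CoreQ q0 K) {X : Finset Quad}
    (hX : X ⊆ glue K P) (h4 : (bd X).card = 4) (hne : X ≠ glue K P) : ∃ q ∈ K, X ⊆ P q := by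
  classical
  have hN := h.part_glue
  have hAC := hN.ac
  set K1 := K.filter (fun q => (P q ∩ X).Nonempty) with hK1
  have hK1K : K1 ⊆ K := Finset.filter_subset _ _
  have hglueN : ∀ K' ⊆ K, glue K' P ⊆ glue K P := fun K' hK' r hr => by
    obtain ⟨q, hq, hr⟩ := mem_glue.1 hr
    exact mem_glue.2 ⟨q, hK' hq, hr⟩
  have hclaim : ∀ K' : Finset Quad, K' ⊆ K1 → (bd (X ∪ glue K' P)).card = 4 := by
    intro K'
    induction K' using Finset.induction_on with
    | empty =>
      intro _
      have : glue ∅ P = ∅ := by simp [glue]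
      rw [this, Finset.union_empty]
      exact h4
    | insert q K' hqK' ih =>
      intro hsub
      have hq : q ∈ K1 := hsub (Finset.mem_insert_self _ _)
      have hK' : K' ⊆ K1 := (Finset.subset_insert _ _).trans hsub
      have h1 := ih hK'
      have h2 : X ∪ glue (insert q K') P = (X ∪ glue K' P) ∪ P q := by
        ext r
        simp only [Finset.mem_union, mem_glue, Finset.mem_insert]
        constructor
        · rintro (h | ⟨q', rfl | h', hr⟩)
          · exact Or.inl (Or.inl h)
          · exact Or.inr hr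
          · exact Or.inl (Or.inr ⟨q', h', hr⟩)
        · rintro ((h | ⟨q', h', hr⟩) | h)
          · exact Or.inl h
          · exact Or.inr ⟨q', Or.inr h', hr⟩
          · exact Or.inr ⟨q, Or.inl rfl, h⟩
      rw [h2]
      have hqf := Finset.mem_filter.1 hq
      refine (hAC.union_four (Finset.union_subset hX (hglueN K' (hK'.trans hK1K)))
        (sub_glue hqf.1) h1 (card_bd_part h hqf.1) ?_).1
      obtain ⟨r, hr⟩ := hqf.2
      obtain ⟨hr1, hr2⟩ := Finset.mem_inter.1 hr
      exact ⟨r, Finset.mem_inter.2 ⟨Finset.mem_union_left _ hr2, hr1⟩⟩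
  have hXK1 : X ⊆ glue K1 P := by
    intro r hr
    obtain ⟨q, hq, hrq⟩ := mem_glue.1 (hX hr)
    exact mem_glue.2 ⟨q, Finset.mem_filter.2 ⟨hq, r, Finset.mem_inter.2 ⟨hrq, hr⟩⟩, hrq⟩
  have h1 := hclaim K1 (Finset.Subset.refl _)
  rw [Finset.union_eq_right.2 hXK1, h.bd_glue hK1K] at h1
  rcases hc.irr K1 hK1K h1 with hone | hall
  · obtain ⟨q, hq⟩ := Finset.card_eq_one.1 hone
    have hqK : q ∈ K := hK1K (by rw [hq]; exact Finset.mem_singleton_self _)
    refine ⟨q, hqK, fun r hr => ?_⟩
    obtain ⟨q', hq', hr'⟩ := mem_glue.1 (hXK1 hr)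
    rw [hq, Finset.mem_singleton] at hq'
    rwa [hq'] at hr'
  · exfalso
    obtain ⟨x, hxN, hxX⟩ : ∃ x ∈ glue K P, x ∉ X := by
      by_contra hcon
      push Not at hcon
      exact hne (Finset.Subset.antisymm hX hcon)
    obtain ⟨q, hq, hxq⟩ := mem_glue.1 hxN
    have h2 := hclaim (K.erase q) (by rw [hall]; exact Finset.erase_subset _ _)
    have hdisj : ∀ r ∈ P q, r ∉ glue (K.erase q) P := fun r hr hr' => by
      obtain ⟨q', hq', hr'⟩ := mem_glue.1 hr'
      obtain ⟨hne', hq'K⟩ := Finset.mem_erase.1 hq'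
      exact Finset.disjoint_left.1 (h.disj hq'K hq hne') hr' hr
    have h3 := (hAC.sdiff_four (sub_glue hq)
      (Finset.union_subset hX (hglueN _ (Finset.erase_subset q K))) (card_bd_part h hq) h2
      ⟨x, Finset.mem_sdiff.2 ⟨hxq, fun hx => by
        rcases Finset.mem_union.1 hx with hx | hx
        · exact hxX hx
        · exact hdisj x hxq hx⟩⟩ (by
        have h1 : (K.erase q).Nonempty := by
          rw [← Finset.card_pos, Finset.card_erase_of_mem hq]
          have := hc.three
          omega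
        obtain ⟨q', hq'⟩ := h1
        obtain ⟨hne', hq'K⟩ := Finset.mem_erase.1 hq'
        obtain ⟨r, hr⟩ := (h.part q' hq'K).nonempty
        exact ⟨r, Finset.mem_sdiff.2 ⟨Finset.mem_union_right _ (mem_glue.2 ⟨q', hq', hr⟩),
          fun hr' => Finset.disjoint_left.1 (h.disj hq'K hq hne') hr hr'⟩⟩)).2
    have h5 : (X ∪ glue (K.erase q) P) \ P q = glue (K.erase q) P := by
      ext r
      constructor
      · intro hr
        obtain ⟨hr1, hr2⟩ := Finset.mem_sdiff.1 hr
        rcases Finset.mem_union.1 hr1 with hr1 | hr1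
        · obtain ⟨q', hq', hrq'⟩ := mem_glue.1 (hX hr1)
          exact mem_glue.2 ⟨q', Finset.mem_erase.2 ⟨fun he => hr2 (he ▸ hrq'), hq'⟩, hrq'⟩
        · exact hr1
      · intro hr
        exact Finset.mem_sdiff.2 ⟨Finset.mem_union_right _ hr, fun hr' => hdisj r hr' hr⟩
    rw [h5, h.bd_glue (Finset.erase_subset q K)] at h3
    have hthree := hc.three
    rcases hc.irr (K.erase q) (Finset.erase_subset q K) h3 with hone | hall'
    · rw [Finset.card_erase_of_mem hq] at hone
      omega
    · have : q ∈ K.erase q := by rw [hall']; exact hq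
      exact (Finset.mem_erase.1 this).1 rfl

theorem not_two (h : Comp q0 K P) (hc : CoreQ q0 K) : ¬ Two (glue K P) := by
  classical
  rintro ⟨X, hX, hne, hneN, h4, h4'⟩
  obtain ⟨q, hq, hXq⟩ := region_in_part h hc hX h4 hneN
  obtain ⟨q', hq', hXq'⟩ := region_in_part h hc Finset.sdiff_subset h4' (fun he => by
    obtain ⟨r, hr⟩ := Finset.nonempty_iff_ne_empty.2 hne
    have : r ∈ glue K P \ X := by rw [he]; exact hX hr
    exact (Finset.mem_sdiff.1 this).2 hr)
  have h1 : ((K.erase q).erase q').Nonempty := by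
    rw [← Finset.card_pos]
    have h2 := Finset.pred_card_le_card_erase (s := K.erase q) (a := q')
    rw [Finset.card_erase_of_mem hq] at h2
    have := hc.three
    omega
  obtain ⟨q2, hq2⟩ := h1
  obtain ⟨hne2, hq2'⟩ := Finset.mem_erase.1 hq2
  obtain ⟨hne1, hq2K⟩ := Finset.mem_erase.1 hq2'
  obtain ⟨r, hr⟩ := (h.part q2 hq2K).nonempty
  by_cases hrX : r ∈ X
  · exact Finset.disjoint_left.1 (h.disj hq2K hq hne1) hr (hXq hrX)
  · exact Finset.disjoint_left.1 (h.disj hq2K hq' hne2) hr
      (hXq' (Finset.mem_sdiff.2 ⟨mem_glue.2 ⟨q2, hq2K, hr⟩, hrX⟩))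

namespace N4Aux

theorem unique_aux (h : Comp q0 K P) (hc : CoreQ q0 K) (h' : Comp q0 K' P') (hc' : CoreQ q0 K')
    (he : glue K P = glue K' P') {q : Quad} (hq : q ∈ K) : q ∈ K' ∧ P q = P' q := by
  have hthree := hc.three
  have hthree' := hc'.three
  obtain ⟨q', hq', hs⟩ := region_in_part h' hc' (X := P q) (by rw [← he]; exact sub_glue hq)
    (card_bd_part h hq) (by rw [← he]; exact part_ne h (by omega) hq)
  obtain ⟨q2, hq2, hs2⟩ := region_in_part h hc (X := P' q') (by rw [he]; exact sub_glue hq')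
    (card_bd_part h' hq') (by rw [he]; exact part_ne h' (by omega) hq')
  have hqq : q = q2 := by
    by_contra hne
    obtain ⟨r, hr⟩ := (h.part q hq).nonempty
    exact Finset.disjoint_left.1 (h.disj hq hq2 hne) hr (hs2 (hs hr))
  subst hqq
  have hP : P q = P' q' := Finset.Subset.antisymm hs hs2
  have hed : ed q = ed q' := by
    rw [← (h.part q hq).bnd, ← (h'.part q' hq').bnd, hP]
  have := ed_inj (h.part q hq).isq (h'.part q' hq').isq hed
  subst this
  exact ⟨hq', hP⟩

end N4Aux

theorem comp_unique (h : Comp q0 K P) (hc : CoreQ q0 K) (h' : Comp q0 K' P') (hc' : CoreQ q0 K')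
    (he : glue K P = glue K' P') : K = K' ∧ ∀ q ∈ K, P q = P' q := by
  refine ⟨Finset.Subset.antisymm (fun q hq => (unique_aux h hc h' hc' he hq).1)
    (fun q hq => (unique_aux h' hc' h hc he.symm hq).1),
    fun q hq => (unique_aux h hc h' hc' he hq).2⟩

end K5M
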