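import Pool.Agent.Lib.K5M.SDefs
import Pool.Agent.Lib.K5M.A4

/-!
# K5M.SCore: cores and irreducible spheres

`q0 = ({w0, w1}, {b0, b1})`.

PROOF of `Core.toIrr`. If `q0 ∈ K` then `bd (K \ {q0}) = bd K Δ ed q0 = ∅`, so `K = {q0}` (`AC.inj`), but `3 ≤ |K|`. Let `Q = insert q0 K`.
`EdS Q = EdS K` since `ed q0 = bd K ⊆ EdS K`. `isq`: `IsQ q0` from `wne`, `bne`.
`two`: `e ∈ EdS K`. If `e ∈ ed q0 = bd K` then `dg K e` is odd and `≤ 2`, so it is `1`, and `dg Q e = 2`. Otherwise `dg K e` is even, positive and `≤ 2`, so it is `2 = dg Q e`. In particular `bd Q = ∅`.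
`inj`: if `q0 ∉ X`, `X ⊆ K` and `AC.inj` gives `X = ∅`. If `q0 ∈ X`: `Q \ X ⊆ K` and `bd (Q \ X) = bd Q Δ bd X = ∅`, so `Q \ X = ∅`.
`sur`: `AC.sur` for `K`.
`lw`, `lb`: replacing `X` by `Q \ X` (same boundary; the two alternatives are exchanged) we may assume `q0 ∉ X`, `X ⊆ K`. If no quad of `X` is at the vertex, the second alternative holds. Otherwise `link_white` (`link_black`) for
`AC (EdS K) K`: the outer edges of `K` are the edges of `ed q0`, they are connected: `ConE (ed q0)` (if `s w = t b` for all `w ∈ {w0, w1}`, `b ∈ {b0, b1}`, then `s w0 = t b0 = s w1`). So all quads of `K` at the vertex are in `X`,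
and all edges at it have `dg = 2`, so the vertex is not a vertex of `q0` (an edge of `q0` at it has `dg K = 1`). First alternative.
`col`: `wh Q = wh K`, `bl Q = bl K` (the vertices of `q0` are ends of edges of `bd K ⊆ EdS K`).
`irr`: if `q0 ∉ X`: `X ⊆ K`, `|X| = 1` or `X = K`, and then `Q \ X = {q0}`. If `q0 ∈ X`: `Q \ X ⊆ K` has the same boundary, so `|Q \ X| = 1` or `Q \ X = K`, `X = {q0}`.

PROOF of `Irr.toCore`. `K = Q.erase q0`, `bd Q = ∅` (`two`), so `bd K = ed q0`. `AC (EdS K) K`: `isq`; `two`: `dg K e ≤ dg Q e ≤ 2` (`dg Q e = 0` or `2`); `inj`: `X = ∅` or `X = Q`, the latter is impossible (`q0 ∉ X`);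
`sur`: `Z ⊆ EdS K ⊆ EdS Q`, `Z = bd X`, `X ⊆ Q`; if `q0 ∈ X` take `Q \ X`. `irr`: `|X| = 1` or `|Q \ X| = 1`, then `Q \ X = {q0}`, `X = K`. `3 ≤ |K| = |Q| - 1`.
-/

set_option autoImplicit false

namespace K5M

open Finset

namespace SCoreAux

theorem dg_single_le (q : Quad) (e : Ed) : dg {q} e ≤ 1 := by
  unfold dg
  exact (Finset.card_filter_le _ _).trans (le_of_eq (Finset.card_singleton q))

theorem bd_empty_of_two {Q : Finset Quad} (h : ∀ e ∈ EdS Q, dg Q e = 2) : bd Q = ∅ := by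
  rw [Finset.eq_empty_iff_forall_notMem]
  intro e he
  have h1 := mem_bd.1 he
  rw [h e (bd_sub Q he)] at h1
  exact absurd h1 (by decide)

theorem bd_compl {Q X : Finset Quad} (hQ : bd Q = ∅) (hX : X ⊆ Q) : bd (Q \ X) = bd X := by
  rw [bd_sdiff hX, hQ]
  exact bot_symmDiff (bd X)

theorem sub_of_not {q : Quad} {K X : Finset Quad} (hX : X ⊆ insert q K) (h : q ∉ X) : X ⊆ K := by
  intro x hx
  rcases Finset.mem_insert.1 (hX hx) with h1 | h1
  · rw [h1] at hx
    exact absurd hx h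
  · exact h1

theorem sdiff_sub {q : Quad} {K X : Finset Quad} (h : q ∈ X) : insert q K \ X ⊆ K := by
  intro x hx
  obtain ⟨h1, h2⟩ := Finset.mem_sdiff.1 hx
  rcases Finset.mem_insert.1 h1 with h3 | h3
  · rw [h3] at h2
    exact absurd h h2
  · exact h3

end SCoreAux

open SCoreAux

theorem Core.toIrr {w0 w1 b0 b1 : ℕ} {K : Finset Quad} (h : Core w0 w1 b0 b1 K) :
    ((({w0, w1} : Finset ℕ), ({b0, b1} : Finset ℕ)) : Quad) ∉ K ∧
      Irr (insert ((({w0, w1} : Finset ℕ), ({b0, b1} : Finset ℕ)) : Quad) K) := by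
  set q0 : Quad := (({w0, w1} : Finset ℕ), ({b0, b1} : Finset ℕ)) with hq0
  have hbd : bd K = ed q0 := h.net.bnd
  have hac := h.net.ac
  have hnot : q0 ∉ K := by
    intro hmem
    have h1 : bd (K \ {q0}) = ∅ := by
      rw [bd_sdiff (Finset.singleton_subset_iff.2 hmem), bd_singleton, hbd, symmDiff_self]
      rfl
    have h2 := hac.inj _ Finset.sdiff_subset h1
    have h3 := Finset.card_le_card (Finset.sdiff_eq_empty_iff_subset.1 h2)
    rw [Finset.card_singleton] at h3
    have := h.three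
    omega
  have hdisj : Disjoint {q0} K := Finset.disjoint_singleton_left.2 hnot
  have hbdQ : bd (insert q0 K) = ∅ := by
    rw [Finset.insert_eq, bd_union hdisj, bd_singleton, hbd, symmDiff_self]
    rfl
  have hEd : EdS (insert q0 K) = EdS K := by
    refine Finset.Subset.antisymm ?_ (EdS_mono (Finset.subset_insert _ _))
    intro e he
    obtain ⟨q, hq, heq⟩ := mem_EdS.1 he
    rcases Finset.mem_insert.1 hq with h1 | h1
    · rw [h1, ← hbd] at heq
      exact bd_sub K heq
    · exact mem_EdS.2 ⟨q, h1, heq⟩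
  have hone : ∀ e ∈ ed q0, dg K e = 1 := by
    intro e he
    rw [← hbd] at he
    have h1 := mem_bd.1 he
    have h2 := hac.two e
    obtain ⟨k, hk⟩ := h1
    omega
  have hout : ∀ e, e ∈ outer (EdS K) K ↔ e ∈ ed q0 := by
    intro e
    unfold outer
    rw [Finset.mem_filter]
    constructor
    · rintro ⟨h1, h2⟩
      have h3 := dg_pos.2 h1
      rw [← hbd, mem_bd]
      have h4 : dg K e = 1 := by omega
      rw [h4]
      exact odd_one
    · intro h1
      refine ⟨?_, (hone e h1).le⟩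
      rw [← hbd] at h1
      exact bd_sub K h1
  have hcon : ConE (outer (EdS K) K) := by
    intro s t hst e he e' he'
    have h1 := mem_ed.1 ((hout e).1 he)
    have h2 := mem_ed.1 ((hout e').1 he')
    have h3 := hst (e.1, e'.2) ((hout _).2 (mem_ed.2 ⟨h1.1, h2.2⟩))
    exact h3.trans (hst e' he').symm
  have hb0 : b0 ∈ q0.2 := Finset.mem_insert_self _ _
  have hw0 : w0 ∈ q0.1 := Finset.mem_insert_self _ _
  -- the link condition for sets without `q0`
  have lwK : ∀ X ⊆ K, ∀ w, (∀ b, (w, b) ∉ bd X) →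
      (∀ q ∈ insert q0 K, w ∈ q.1 → q ∈ X) ∨ (∀ q ∈ insert q0 K, w ∈ q.1 → q ∉ X) := by
    intro X hX w hw
    by_cases hex : ∃ q ∈ X, w ∈ q.1
    · left
      have hb : ∀ e ∈ bd X, e.1 ≠ w := by
        intro e he hew
        apply hw e.2
        rw [← hew]
        exact he
      obtain ⟨h1, h2⟩ := link_white hac hcon hX w hex hb
      intro q hq hwq
      rcases Finset.mem_insert.1 hq with h3 | h3
      · exfalso
        rw [h3] at hwq
        have h4 : (w, b0) ∈ ed q0 := mem_ed.2 ⟨hwq, hb0⟩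
        have h5 := hone _ h4
        have h6 : (w, b0) ∈ EdS K := bd_sub K (by rw [hbd]; exact h4)
        have h7 := h2 _ h6 rfl
        omega
      · exact h1 q h3 hwq
    · right
      intro q _ hwq hqX
      exact hex ⟨q, hqX, hwq⟩
  have lbK : ∀ X ⊆ K, ∀ b, (∀ w, (w, b) ∉ bd X) →
      (∀ q ∈ insert q0 K, b ∈ q.2 → q ∈ X) ∨ (∀ q ∈ insert q0 K, b ∈ q.2 → q ∉ X) := by
    intro X hX w hw
    by_cases hex : ∃ q ∈ X, w ∈ q.2
    · left
      have hb : ∀ e ∈ bd X, e.2 ≠ w := by
        intro e he hew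
        apply hw e.1
        rw [← hew]
        exact he
      obtain ⟨h1, h2⟩ := link_black hac hcon hX w hex hb
      intro q hq hwq
      rcases Finset.mem_insert.1 hq with h3 | h3
      · exfalso
        rw [h3] at hwq
        have h4 : (w0, w) ∈ ed q0 := mem_ed.2 ⟨hw0, hwq⟩
        have h5 := hone _ h4
        have h6 : (w0, w) ∈ EdS K := bd_sub K (by rw [hbd]; exact h4)
        have h7 := h2 _ h6 rfl
        omega
      · exact h1 q h3 hwq
    · right
      intro q _ hwq hqX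
      exact hex ⟨q, hqX, hwq⟩
  have hwh : wh (insert q0 K) ⊆ wh K := by
    intro w hw
    unfold wh at hw ⊢
    obtain ⟨q, hq, hwq⟩ := Finset.mem_biUnion.1 hw
    rcases Finset.mem_insert.1 hq with h1 | h1
    · rw [h1] at hwq
      have h4 : (w, b0) ∈ ed q0 := mem_ed.2 ⟨hwq, hb0⟩
      have h6 : (w, b0) ∈ EdS K := bd_sub K (by rw [hbd]; exact h4)
      obtain ⟨q', hq', h7⟩ := mem_EdS.1 h6
      exact Finset.mem_biUnion.2 ⟨q', hq', (mem_ed.1 h7).1⟩
    · exact Finset.mem_biUnion.2 ⟨q, h1, hwq⟩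
  have hbl : bl (insert q0 K) ⊆ bl K := by
    intro w hw
    unfold bl at hw ⊢
    obtain ⟨q, hq, hwq⟩ := Finset.mem_biUnion.1 hw
    rcases Finset.mem_insert.1 hq with h1 | h1
    · rw [h1] at hwq
      have h4 : (w0, w) ∈ ed q0 := mem_ed.2 ⟨hw0, hwq⟩
      have h6 : (w0, w) ∈ EdS K := bd_sub K (by rw [hbd]; exact h4)
      obtain ⟨q', hq', h7⟩ := mem_EdS.1 h6
      exact Finset.mem_biUnion.2 ⟨q', hq', (mem_ed.1 h7).2⟩
    · exact Finset.mem_biUnion.2 ⟨q, h1, hwq⟩
  have hQK : insert q0 K \ K = {q0} := by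
    rw [Finset.insert_sdiff_of_notMem _ hnot, Finset.sdiff_self]
    rfl
  refine ⟨hnot, ⟨⟨?_, ?_, ?_, ?_, ?_, ?_, ?_⟩, ?_, ?_⟩⟩
  · intro q hq
    rcases Finset.mem_insert.1 hq with h1 | h1
    · rw [h1]
      exact ⟨Finset.card_pair h.net.wne, Finset.card_pair h.net.bne⟩
    · exact hac.isq q h1
  · intro e he
    have h1 := dg_pos.2 he
    have h2 : ¬ Odd (dg (insert q0 K) e) := by
      rw [← mem_bd, hbdQ]
      exact Finset.notMem_empty e
    rw [Nat.not_odd_iff_even] at h2
    have h3 : dg (insert q0 K) e = dg {q0} e + dg K e := by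
      rw [Finset.insert_eq, dg_union hdisj]
    have h4 := dg_single_le q0 e
    have h5 := hac.two e
    obtain ⟨k, hk⟩ := h2
    omega
  · intro X hX hb
    by_cases hq : q0 ∈ X
    · right
      have h1 := hac.inj _ (sdiff_sub hq) (by rw [bd_compl hbdQ hX, hb])
      exact Finset.Subset.antisymm hX (Finset.sdiff_eq_empty_iff_subset.1 h1)
    · left
      exact hac.inj X (sub_of_not hX hq) hb
  · intro Z hZ hE
    rw [hEd] at hZ
    obtain ⟨X, hX, h1⟩ := hac.sur Z hZ hE
    exact ⟨X, hX.trans (Finset.subset_insert _ _), h1⟩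
  · intro X hX w hw
    by_cases hq : q0 ∈ X
    · have h1 := lwK _ (sdiff_sub hq) w (by rw [bd_compl hbdQ hX]; exact hw)
      rcases h1 with h1 | h1
      · right
        intro q hqQ hwq
        exact (Finset.mem_sdiff.1 (h1 q hqQ hwq)).2
      · left
        intro q hqQ hwq
        by_contra hcon
        exact h1 q hqQ hwq (Finset.mem_sdiff.2 ⟨hqQ, hcon⟩)
    · exact lwK X (sub_of_not hX hq) w hw
  · intro X hX w hw
    by_cases hq : q0 ∈ X
    · have h1 := lbK _ (sdiff_sub hq) w (by rw [bd_compl hbdQ hX]; exact hw)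
      rcases h1 with h1 | h1
      · right
        intro q hqQ hwq
        exact (Finset.mem_sdiff.1 (h1 q hqQ hwq)).2
      · left
        intro q hqQ hwq
        by_contra hcon
        exact h1 q hqQ hwq (Finset.mem_sdiff.2 ⟨hqQ, hcon⟩)
    · exact lbK X (sub_of_not hX hq) w hw
  · exact h.net.col.mono hwh hbl
  · rw [Finset.card_insert_of_notMem hnot]
    have := h.three
    omega
  · intro X hX h4
    by_cases hq : q0 ∈ X
    · rcases h.irr _ (sdiff_sub hq) (by rw [bd_compl hbdQ hX]; exact h4) with h1 | h1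
      · exact Or.inr h1
      · left
        have h2 : X = {q0} :=
          calc X = insert q0 K \ (insert q0 K \ X) := (Finset.sdiff_sdiff_eq_self hX).symm
            _ = insert q0 K \ K := by rw [h1]
            _ = {q0} := hQK
        rw [h2, Finset.card_singleton]
    · rcases h.irr X (sub_of_not hX hq) h4 with h1 | h1
      · exact Or.inl h1
      · right
        rw [h1, hQK, Finset.card_singleton]

theorem Irr.toCore {w0 w1 b0 b1 : ℕ} {Q : Finset Quad} (h : Irr Q) (hw : w0 ≠ w1) (hb : b0 ≠ b1)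
    (hq : ((({w0, w1} : Finset ℕ), ({b0, b1} : Finset ℕ)) : Quad) ∈ Q) :
    Core w0 w1 b0 b1 (Q.erase ((({w0, w1} : Finset ℕ), ({b0, b1} : Finset ℕ)) : Quad)) := by
  set q0 : Quad := (({w0, w1} : Finset ℕ), ({b0, b1} : Finset ℕ)) with hq0
  have hbdQ : bd Q = ∅ := bd_empty_of_two h.two
  have hins : insert q0 (Q.erase q0) = Q := Finset.insert_erase hq
  have hsub : Q.erase q0 ⊆ Q := Finset.erase_subset _ _
  have hbdK : bd (Q.erase q0) = ed q0 := by
    rw [← Finset.sdiff_singleton_eq_erase, bd_compl hbdQ (Finset.singleton_subset_iff.2 hq),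
      bd_singleton]
  have key : ∀ X ⊆ Q, q0 ∉ X → X ⊆ Q.erase q0 := by
    intro X hX hqX x hx
    refine Finset.mem_erase.2 ⟨?_, hX hx⟩
    rintro rfl
    exact hqX hx
  refine ⟨⟨hw, hb, ⟨?_, ?_, ?_, ?_, ?_⟩, hbdK, ?_⟩, ?_, ?_⟩
  · intro q hqK
    exact h.isq q (hsub hqK)
  · exact Finset.Subset.refl _
  · intro e
    refine (dg_mono hsub e).trans ?_
    by_cases he : e ∈ EdS Q
    · exact (h.two e he).le
    · have h1 : ¬ 0 < dg Q e := fun h2 => he (dg_pos.1 h2)
      omega
  · intro X hX hbX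
    rcases h.inj X (hX.trans hsub) hbX with h1 | h1
    · exact h1
    · exfalso
      rw [h1] at hX
      exact Finset.notMem_erase q0 Q (hX hq)
  · intro Z hZ hE
    obtain ⟨X, hX, h1⟩ := h.sur Z (hZ.trans (EdS_mono hsub)) hE
    by_cases hqX : q0 ∈ X
    · refine ⟨Q \ X, key _ Finset.sdiff_subset (fun h2 => (Finset.mem_sdiff.1 h2).2 hqX), ?_⟩
      rw [bd_compl hbdQ hX, h1]
    · exact ⟨X, key X hX hqX, h1⟩
  · refine h.col.mono ?_ ?_
    · unfold wh
      exact Finset.biUnion_subset_biUnion_of_subset_left _ hsub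
    · unfold bl
      exact Finset.biUnion_subset_biUnion_of_subset_left _ hsub
  · rw [Finset.card_erase_of_mem hq]
    have := h.four
    omega
  · intro X hX h4
    rcases h.irr X (hX.trans hsub) h4 with h1 | h1
    · exact Or.inl h1
    · right
      obtain ⟨q, hq1⟩ := Finset.card_eq_one.1 h1
      have h2 : q0 ∈ Q \ X :=
        Finset.mem_sdiff.2 ⟨hq, fun h3 => Finset.notMem_erase q0 Q (hX h3)⟩
      rw [hq1, Finset.mem_singleton] at h2
      rw [← Finset.sdiff_singleton_eq_erase, h2, ← hq1,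
        Finset.sdiff_sdiff_eq_self (hX.trans hsub)]

end K5M
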