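import Pool.Agent.Lib.K5M.DOne
import Pool.Agent.Lib.K5M.N3
import Pool.Agent.Lib.K5M.N4
import Pool.Agent.Lib.K5M.SCore
import Pool.Agent.Lib.K5M.SDeg

/-!
# K5M.DCore: the class `cor` = networks composed over a core; degrees in a core

PROOFS.
`core_comp_exists`: `q = ({w0, w1}, {b0, b1})` (`IsQ`); `Prm`, `¬ Ser` and `two_iff` give `¬ Two N`; `exists_core`.
`core_comp_cls`: `not_two`, `two_iff`, `prm_iff`, `ser_iff`; `2 ≤ (glue K P).card`: the parts are nonempty and disjoint, `3 ≤ K.card`.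
`core_side`, `core_inner`: `CoreQ q K` is `Core w0 w1 b0 b1 K` (`net_iff_part`); by `Core.toIrr` `q ∉ K` and `Q = insert q K` is `Irr`;
`Irr.deg_black`: `3 ≤ (atb Q b).card` for `b ∈ bl Q`, and `(atb Q b).card = qd K b + [b ∈ q.2]` (`atb Q b` is the filter of `Q`).  For `b ∈ q.2`:
`b ∈ bl Q` clear.
`core_inn`: a core has an inner vertex: otherwise all vertices of all quads of `K` are in `q.1 ∪ q.2`, with the colours
(`Part.sub_wh`, `Part.sub_bl`, `col`) the whites in `q.1`, the blacks in `q.2`, so every quad of `K` is `q`: `K.card ≤ 1`.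
-/

set_option autoImplicit false

namespace K5M

open Finset

variable {q : Quad} {N K : Finset Quad} {P : Quad → Finset Quad} {b : ℕ}

namespace DCoreAux

theorem exists_form (h : IsQ q) : ∃ w0 w1 b0 b1 : ℕ, w0 ≠ w1 ∧ b0 ≠ b1 ∧
    q = (({w0, w1} : Finset ℕ), ({b0, b1} : Finset ℕ)) := by
  obtain ⟨w0, w1, hw, e1⟩ := Finset.card_eq_two.1 h.1
  obtain ⟨b0, b1, hb, e2⟩ := Finset.card_eq_two.1 h.2
  exact ⟨w0, w1, b0, b1, hw, hb, Prod.ext e1 e2⟩

theorem two_iff_part (h : Part q N) : Two N ↔ ¬ Prm q N ∨ Ser q N := by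
  obtain ⟨w0, w1, b0, b1, hw, hb, hq⟩ := exists_form h.isq
  subst hq
  rw [two_iff (net_iff_part.2 ⟨hw, hb, h⟩), prm_iff, ser_iff]
  constructor
  · rintro (⟨c, hc⟩ | hv)
    · exact Or.inl fun hn => hn c hc
    · exact Or.inr hv
  · rintro (hn | hv)
    · by_contra hcon
      exact hn fun c hc => hcon (Or.inl ⟨c, hc⟩)
    · exact Or.inr hv

theorem irr_insert (h : CoreQ q K) : q ∉ K ∧ Irr (insert q K) := by
  obtain ⟨w0, w1, b0, b1, hw, hb, hq⟩ := exists_form h.part.isq
  subst hq
  exact Core.toIrr ⟨net_iff_part.2 ⟨hw, hb, h.part⟩, h.three, h.irr⟩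

theorem mem_bl_insert_iff : b ∈ bl (insert q K) ↔ b ∈ q.2 ∨ b ∈ bl K := by
  unfold bl
  rw [Finset.biUnion_insert, Finset.mem_union]

theorem deg_ge (h : CoreQ q K) (hb : b ∈ q.2 ∨ b ∈ bl K) :
    3 ≤ ((insert q K).filter (fun r => b ∈ r.2)).card := by
  have h1 := (irr_insert h).2.deg_black (mem_bl_insert_iff.2 hb)
  unfold atb at h1
  exact h1

theorem card_ge (h : Comp q K P) : K.card ≤ (glue K P).card := by
  have h1 : (glue K P).card = ∑ r ∈ K, (P r).card := by
    unfold glue
    exact Finset.card_biUnion (fun r hr s hs hne => h.disj hr hs hne)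
  rw [h1, Finset.card_eq_sum_ones]
  exact Finset.sum_le_sum (fun r hr => Finset.card_pos.2 (h.part r hr).nonempty)

end DCoreAux

open DCoreAux

theorem core_comp_exists (h : Part q N) (hc : Ty.cor.cls q N) :
    ∃ (K : Finset Quad) (P : Quad → Finset Quad), Comp q K P ∧ CoreQ q K ∧ glue K P = N := by
  obtain ⟨h1, h2, h3⟩ := hc
  refine exists_core h h3 ?_
  rw [two_iff_part h]
  rintro (h4 | h4)
  · exact h4 h1
  · exact h2 h4

theorem core_comp_cls (h : Comp q K P) (hc : CoreQ q K) : Ty.cor.cls q (glue K P) := by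
  have h1 := not_two h hc
  rw [two_iff_part h.part_glue] at h1
  refine ⟨?_, ?_, ?_⟩
  · by_contra h2
    exact h1 (Or.inl h2)
  · intro h2
    exact h1 (Or.inr h2)
  · have h2 := card_ge h
    have h3 := hc.three
    omega

theorem core_side (h : CoreQ q K) (hb : b ∈ q.2) : 2 ≤ qd K b := by
  have h1 := deg_ge h (Or.inl hb)
  have h2 : ((insert q K).filter (fun r => b ∈ r.2)).card ≤
      (K.filter (fun r => b ∈ r.2)).card + 1 := by
    rw [Finset.filter_insert, if_pos hb]
    exact Finset.card_insert_le _ _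
  unfold qd
  omega

theorem core_inner (h : CoreQ q K) (hb : b ∈ bl K) (hb' : b ∉ q.2) : 3 ≤ qd K b := by
  have h1 := deg_ge h (Or.inr hb)
  rw [Finset.filter_insert, if_neg hb'] at h1
  exact h1

theorem core_inn (h : CoreQ q K) : (iv q K).Nonempty := by
  by_contra hcon
  rw [Finset.not_nonempty_iff_eq_empty] at hcon
  have hsub : vt K ⊆ q.1 ∪ q.2 := Finset.sdiff_eq_empty_iff_subset.1 hcon
  have hcol := h.part.col
  have hall : ∀ r ∈ K, r = q := by
    intro r hr
    have hir := h.part.ac.isq r hr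
    have hiq := h.part.isq
    have hw : r.1 ⊆ q.1 := by
      intro w hw
      have h1 : w ∈ wh K := Finset.mem_biUnion.2 ⟨r, hr, hw⟩
      rcases Finset.mem_union.1 (hsub (Finset.mem_union_left _ h1)) with h2 | h2
      · exact h2
      · exact absurd (h.part.sub_bl h2) (Finset.disjoint_left.1 hcol h1)
    have hb : r.2 ⊆ q.2 := by
      intro w hw
      have h1 : w ∈ bl K := Finset.mem_biUnion.2 ⟨r, hr, hw⟩
      rcases Finset.mem_union.1 (hsub (Finset.mem_union_right _ h1)) with h2 | h2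
      · exact absurd h1 (Finset.disjoint_left.1 hcol (h.part.sub_wh h2))
      · exact h2
    refine Prod.ext ?_ ?_
    · exact Finset.eq_of_subset_of_card_le hw (by rw [hir.1, hiq.1])
    · exact Finset.eq_of_subset_of_card_le hb (by rw [hir.2, hiq.2])
  have h1 : K.card ≤ 1 := Finset.card_le_one.2 (fun r hr s hs => (hall r hr).trans (hall s hs).symm)
  have h2 := h.three
  omega

end K5M
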