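import Pool.Agent.Lib.K5M.DPar

/-!
# K5M.DOne: sides with one quad, single quads, not both parallel and series

PROOFS.
`side_pos`: `b ∈ q.2`: the edges `(w, b)`, `w ∈ q.1`, are in `ed q = bd N ⊆ EdS N`.
`one_quad`: let `qd N b = 1`, `r` the only quad at `b`.  The edges `(w, b)`, `w ∈ q.1`, are in quads of `N`, i.e. in `r`, so `q.1 ⊆ r.1`,
`r.1 = q.1` (cards), `r.2 = {b, l}`.  If `l ∈ q.2` then `r = q`, `bd {q} = ed q = bd N`, so `N = {q}` (`AC.inj` for the symmetric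
difference of `{q}` and `N`).  Otherwise `(w, l) ∈ ed r ⊆ EdS N` for both `w ∈ q.1`: `Lb q N l`, contradiction to `Prm`.
`ser_side`: let `Lw q N v`, `b ∈ q.2`: the three edges `(w0, b), (w1, b), (v, b)` are in quads of `N` at `b`; a quad has only two edges at `b`.
`single_eq`: `N.card ≤ 1` and `N` is nonempty (`Part.nonempty`), `N = {r}`, `ed r = bd N = ed q`, `r = q` (`ed_inj`).
`single_prm`: the blacks of `{q}` are those of `q`; the whites too.
`prm_or_nser`: `q = ({w0, w1}, {b0, b1})`; `prm_iff`, `ser_iff`, `ser_not_par`.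
-/

set_option autoImplicit false

namespace K5M

open Finset

variable {q : Quad} {N : Finset Quad} {b : ℕ}

theorem side_pos (h : Part q N) (hb : b ∈ q.2) : 1 ≤ qd N b := by
  have h1 := h.sub_bl hb
  unfold bl at h1
  obtain ⟨r, hr, hbr⟩ := Finset.mem_biUnion.1 h1
  unfold qd
  exact Finset.card_pos.2 ⟨r, Finset.mem_filter.2 ⟨hr, hbr⟩⟩

namespace DOneAux

/-- if there is only one quad at `b`, it contains all edges at `b` -/
theorem only (h1 : qd N b = 1) :
    ∃ r ∈ N, b ∈ r.2 ∧ ∀ w, (w, b) ∈ EdS N → w ∈ r.1 := by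
  unfold qd at h1
  obtain ⟨r, hr⟩ := Finset.card_eq_one.1 h1
  have h2 : r ∈ N.filter (fun q => b ∈ q.2) := by
    rw [hr]
    exact Finset.mem_singleton_self r
  obtain ⟨h3, h4⟩ := Finset.mem_filter.1 h2
  refine ⟨r, h3, h4, fun w hw => ?_⟩
  obtain ⟨r', hr', he⟩ := mem_EdS.1 hw
  have h5 : r' ∈ N.filter (fun q => b ∈ q.2) := Finset.mem_filter.2 ⟨hr', (mem_ed.1 he).2⟩
  rw [hr, Finset.mem_singleton] at h5
  rw [← h5]
  exact (mem_ed.1 he).1

theorem ed_sub (h : Part q N) {e : Ed} (he : e ∈ ed q) : e ∈ EdS N := by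
  rw [← h.bnd] at he
  exact bd_sub N he

end DOneAux

open DOneAux

theorem one_quad (h : Part q N) (hp : Prm q N) (hb : b ∈ q.2) (h1 : qd N b = 1) : N = {q} := by
  obtain ⟨r, hr, hbr, hall⟩ := only h1
  have hrq := h.ac.isq r hr
  have hq := h.isq
  have h2 : q.1 ⊆ r.1 := fun w hw => hall w (ed_sub h (mem_ed.2 ⟨hw, hb⟩))
  have h3 : q.1 = r.1 := Finset.eq_of_subset_of_card_le h2 (by rw [hrq.1, hq.1])
  have h4 : q.2 = r.2 := by
    by_contra hne
    have h5 : ¬ r.2 ⊆ q.2 := fun hs =>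
      hne (Finset.eq_of_subset_of_card_le hs (by rw [hrq.2, hq.2])).symm
    obtain ⟨l, hl, hlq⟩ := Finset.not_subset.1 h5
    refine hp l ⟨hlq, fun w hw => mem_EdS.2 ⟨r, hr, mem_ed.2 ⟨?_, hl⟩⟩⟩
    rw [← h3]
    exact hw
  have h5 : r = q := (Prod.ext h3 h4).symm
  rw [h5] at hr
  have h6 : bd (N \ {q}) = ∅ := by
    rw [bd_sdiff (Finset.singleton_subset_iff.2 hr), bd_singleton, h.bnd, symmDiff_self]
    rfl
  have h7 := h.ac.inj _ Finset.sdiff_subset h6
  exact Finset.Subset.antisymm (Finset.sdiff_eq_empty_iff_subset.1 h7)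
    (Finset.singleton_subset_iff.2 hr)

theorem ser_side (h : Part q N) (hs : Ser q N) (hb : b ∈ q.2) : 2 ≤ qd N b := by
  by_contra hcon
  have h1 := side_pos h hb
  obtain ⟨r, hr, _, hall⟩ := only (N := N) (b := b) (by omega)
  obtain ⟨v, hv, hvb⟩ := hs
  have h2 : insert v q.1 ⊆ r.1 := by
    intro w hw
    rcases Finset.mem_insert.1 hw with h3 | h3
    · rw [h3]
      exact hall v (hvb b hb)
    · exact hall w (ed_sub h (mem_ed.2 ⟨h3, hb⟩))
  have h3 := Finset.card_le_card h2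
  rw [Finset.card_insert_of_notMem hv, h.isq.1, (h.ac.isq r hr).1] at h3
  omega

theorem single_eq (h : Part q N) (h1 : N.card ≤ 1) : N = {q} := by
  have h2 := Finset.card_pos.2 h.nonempty
  obtain ⟨r, hr⟩ := Finset.card_eq_one.1 (Nat.le_antisymm h1 h2)
  have h3 : ed r = ed q := by
    rw [← h.bnd, hr, bd_singleton]
  have h4 : IsQ r := h.ac.isq r (by
    rw [hr]
    exact Finset.mem_singleton_self r)
  rw [hr, ed_inj h4 h.isq h3]

theorem single_prm (hq : IsQ q) : Prm q {q} ∧ ¬ Ser q {q} := by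
  constructor
  · rintro l ⟨h1, h2⟩
    obtain ⟨w, hw⟩ := N0Aux.ex_fst hq
    have h3 := h2 w hw
    rw [N0Aux.EdS_single] at h3
    exact h1 (mem_ed.1 h3).2
  · rintro ⟨v, h1, h2⟩
    obtain ⟨w, hw⟩ := N0Aux.ex_snd hq
    have h3 := h2 w hw
    rw [N0Aux.EdS_single] at h3
    exact h1 (mem_ed.1 h3).1

theorem prm_or_nser (h : Part q N) (hs : Ser q N) : Prm q N := by
  obtain ⟨w0, w1, hw, h1⟩ := Finset.card_eq_two.1 h.isq.1
  obtain ⟨b0, b1, hb, h2⟩ := Finset.card_eq_two.1 h.isq.2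
  have hq : q = ({w0, w1}, {b0, b1}) := Prod.ext h1 h2
  rw [hq] at h hs ⊢
  obtain ⟨v, hv⟩ := ser_iff.1 hs
  exact prm_iff.2 fun c hc => ser_not_par (net_iff_part.2 ⟨hw, hb, h⟩) hc hv

end K5M
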