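import Pool.Agent.Lib.K5M.DFlg
import Pool.Agent.Lib.K5M.DOne

/-!
# K5M.DE1a: marked parallel networks are composed over two quads

`Kp l = {({0,1},{2,l}), ({0,1},{l,3})}`.  `m = 0`: `l` is not marked; `m = 1, 2`: `l` is marked and the first part has `m` quads at `l`, the
second one `3 - m`.  `qs = ({0,1},{2,3})`, `l ∉ {0,1,2,3}`; `vt (Kp l) = {0,1,2,3,l}`, `iv qs (Kp l) = {l}`, `bl (Kp l) = {2,3,l}`, the two quads are
different (`2 ≠ l`, `l ≠ 3`, `2 ≠ 3`).

PROOFS.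
`frame_par`: `part`: `par_part`.  `inn`, `dis`, `sub`, `blk`: clear.  `s0`: for `b = l`: `σp .. r l ≠ 0 ↔ m ≠ 0 ↔ l ∈ Mkp l m ↔ l ∈ flg` (`l ∉ {2,3}`); for
`b = 2, 3`: `b ∉ Mkp l m`.  `s3`: both quads contain `l`: `m + (3 - m) = 3`.  `sc`: `2` is only in the first quad, `3` only in the second one.
`par_class` (existence): `MF qs (st i j) L N M`, `¬ Prm qs N`: `par_exists` gives `l`, `P` with `Comp qs (Kp l) P`, `glue (Kp l) P = N`, `Prm r1 (P r1)`.
`l ∈ vt (Kp l) ⊆ vt N` (`Comp.vt_glue`), `l ∉ {0,1,2,3}`, so `l ∈ iv qs N = L`.  `M ∩ vt (Kp l) ⊆ {l}` (`M ⊆ L` is disjoint from `{0,1,2,3}`).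
`qd N b = ∑ r ∈ Kp l, qd (P r) b` (`Comp.qd_glue`), the term of `r` is positive iff `b ∈ r.2` (`Comp.qd_pos`, `b ∈ bl (Kp l)`).  If `l ∉ M`: `m = 0`,
`Mkp = ∅ = M ∩ vt (Kp l)`.  If `l ∈ M`: `3 = qd N l = qd (P r1) l + qd (P r2) l`, both positive; `m = qd (P r1) l`.
Condition `qd (P r) b = σp i j l m r b` for `b ∈ r.2` flagged: for `b = l` by the choice of `m`; for `b = 2` (only in `r1`): `st i j 2 ≠ 0`, so
`qd (P r1) 2 = qd N 2 = st i j 2` (`MF.side`); the same for `3`.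
`par_class_conv`: `CMF` contains `MF`; `N = glue (Kp l) P` is not prime by `par_not_prm`.
`par_class_uniq`: from both `ex` fields `P`, `P'`: the first parts are prime (`τp l r1 = .prm`), so `l = l'` by `par_unique`.  `M ∩ vt (Kp l) = Mkp l m = Mkp l m'`,
so `m = 0 ↔ m' = 0`.  If both are not 0: `l ∈ r1.2` is flagged, `qd (P r1) l = m`, `qd (P' r1) l = m'`, and `P r1 = P' r1`: both are contained in `N` and
have the boundary `ed r1` (`AC.inj` for the symmetric difference, `Comp.part_glue`).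
-/

set_option autoImplicit false

namespace K5M

open Finset

/-- The two quads of a parallel network. -/
def Kp (l : ℕ) : Finset Quad := {(({0, 1}, {2, l}) : Quad), (({0, 1}, {l, 3}) : Quad)}

/-- The classes of the parts: the first one is prime. -/
def τp (l : ℕ) (r : Quad) : Ty := if r = (({0, 1}, {2, l}) : Quad) then .prm else .all

/-- The marks among the vertices of `Kp l`. -/
def Mkp (l m : ℕ) : Finset ℕ := if m = 0 then ∅ else {l}

/-- The statuses of the parts. -/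
def σp (i j l m : ℕ) (r : Quad) (b : ℕ) : ℕ :=
  if b = l then (if m = 0 then 0 else if r = (({0, 1}, {2, l}) : Quad) then m else 3 - m)
  else st i j b

variable {i j l l' m m' : ℕ} {L M : Finset ℕ} {N : Finset Quad}

namespace DE1aAux

/-- The first quad. -/
def r1 (l : ℕ) : Quad := (({0, 1}, {2, l}) : Quad)

/-- The second quad. -/
def r2 (l : ℕ) : Quad := (({0, 1}, {l, 3}) : Quad)

theorem ne4 (hl : l ∉ ({0, 1, 2, 3} : Finset ℕ)) : l ≠ 0 ∧ l ≠ 1 ∧ l ≠ 2 ∧ l ≠ 3 := by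
  simp only [Finset.mem_insert, Finset.mem_singleton, not_or] at hl
  exact hl

theorem nodup (hl : l ∉ ({0, 1, 2, 3} : Finset ℕ)) : [0, 1, 2, 3, l].Nodup := by
  obtain ⟨h0, h1, h2, h3⟩ := ne4 hl
  simp only [List.nodup_cons, List.mem_cons, List.not_mem_nil, not_or, or_false, List.nodup_nil,
    not_false_eq_true, and_true]
  omega

theorem of_nodup (h : [0, 1, 2, 3, l].Nodup) : l ∉ ({0, 1, 2, 3} : Finset ℕ) := by
  obtain ⟨-, -, h1, h2, -, -, h3, -, -, h4⟩ := DParAux.nd h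
  simp only [Finset.mem_insert, Finset.mem_singleton, not_or]
  exact ⟨Ne.symm h3, Ne.symm h4, h1, h2⟩

theorem not4 (hL : Disjoint L ({0, 1, 2, 3} : Finset ℕ)) (hl : l ∈ L) :
    l ∉ ({0, 1, 2, 3} : Finset ℕ) := Finset.disjoint_left.1 hL hl

theorem r12 (hl : l ∉ ({0, 1, 2, 3} : Finset ℕ)) : r1 l ≠ r2 l := DParAux.r_ne (nodup hl)

theorem Kp_eq : Kp l = {r1 l, r2 l} := rfl

theorem mem_Kp {r : Quad} : r ∈ Kp l ↔ r = r1 l ∨ r = r2 l := by
  rw [Kp_eq, Finset.mem_insert, Finset.mem_singleton]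

theorem m1 : r1 l ∈ Kp l := mem_Kp.2 (Or.inl rfl)

theorem m2 : r2 l ∈ Kp l := mem_Kp.2 (Or.inr rfl)

theorem wh_Kp : wh (Kp l) = {0, 1} := by
  unfold wh Kp
  rw [Finset.biUnion_insert, Finset.singleton_biUnion]
  exact Finset.union_self _

theorem bl_Kp : bl (Kp l) = {2, 3, l} := by
  unfold bl Kp
  rw [Finset.biUnion_insert, Finset.singleton_biUnion]
  ext x
  simp only [Finset.mem_union, Finset.mem_insert, Finset.mem_singleton]
  tauto

theorem vt_Kp : vt (Kp l) = {0, 1, 2, 3, l} := by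
  unfold vt
  rw [wh_Kp, bl_Kp]
  ext x
  simp only [Finset.mem_union, Finset.mem_insert, Finset.mem_singleton]
  tauto

theorem iv_Kp (hl : l ∉ ({0, 1, 2, 3} : Finset ℕ)) : iv qs (Kp l) = {l} := by
  obtain ⟨h0, h1, h2, h3⟩ := ne4 hl
  unfold iv
  rw [vt_Kp]
  unfold qs
  ext x
  simp only [Finset.mem_sdiff, Finset.mem_union, Finset.mem_insert, Finset.mem_singleton]
  omega

theorem mem_qs {x : ℕ} : x ∈ qs.1 ∪ qs.2 ↔ x ∈ ({0, 1, 2, 3} : Finset ℕ) := by
  unfold qs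
  simp only [Finset.mem_union, Finset.mem_insert, Finset.mem_singleton]
  tauto

theorem mem_r1 {b : ℕ} : b ∈ (r1 l).2 ↔ b = 2 ∨ b = l := by
  unfold r1
  rw [Finset.mem_insert, Finset.mem_singleton]

theorem mem_r2 {b : ℕ} : b ∈ (r2 l).2 ↔ b = l ∨ b = 3 := by
  unfold r2
  rw [Finset.mem_insert, Finset.mem_singleton]

theorem mem_qs2 {b : ℕ} : b ∈ qs.2 ↔ b = 2 ∨ b = 3 := by
  unfold qs
  rw [Finset.mem_insert, Finset.mem_singleton]

theorem mem_flg {b : ℕ} : b ∈ flg qs (st i j) M ↔ b ∈ M ∨ ((b = 2 ∨ b = 3) ∧ st i j b ≠ 0) := by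
  unfold flg
  rw [Finset.mem_union, Finset.mem_filter, mem_qs2]

theorem mem_Mkp {b : ℕ} : b ∈ Mkp l m ↔ m ≠ 0 ∧ b = l := by
  unfold Mkp
  by_cases h : m = 0
  · rw [if_pos h]
    constructor
    · intro h1
      exact absurd h1 (Finset.notMem_empty _)
    · intro h1
      exact absurd h h1.1
  · rw [if_neg h, Finset.mem_singleton]
    exact ⟨fun h1 => ⟨h, h1⟩, fun h1 => h1.2⟩

theorem σ_l1 (hm : m ≠ 0) : σp i j l m (r1 l) l = m := by
  unfold σp
  rw [if_pos rfl, if_neg hm]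
  exact if_pos rfl

theorem σ_l2 (hl : l ∉ ({0, 1, 2, 3} : Finset ℕ)) (hm : m ≠ 0) : σp i j l m (r2 l) l = 3 - m := by
  unfold σp
  rw [if_pos rfl, if_neg hm]
  exact if_neg (Ne.symm (r12 hl))

theorem σ_l0 (r : Quad) : σp i j l 0 r l = 0 := by
  unfold σp
  rw [if_pos rfl, if_pos rfl]

theorem σ_side {b : ℕ} (hb : b ≠ l) (r : Quad) : σp i j l m r b = st i j b := by
  unfold σp
  rw [if_neg hb]

theorem sum_l (hl : l ∉ ({0, 1, 2, 3} : Finset ℕ)) (f : Quad → ℕ) :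
    ∑ r ∈ (Kp l).filter (fun r => l ∈ r.2), f r = f (r1 l) + f (r2 l) := by
  have h : (Kp l).filter (fun r => l ∈ r.2) = {r1 l, r2 l} := by
    rw [Kp_eq]
    apply Finset.filter_true_of_mem
    intro r hr
    rw [Finset.mem_insert, Finset.mem_singleton] at hr
    rcases hr with hr | hr
    · rw [hr]
      exact mem_r1.2 (Or.inr rfl)
    · rw [hr]
      exact mem_r2.2 (Or.inl rfl)
  rw [h, Finset.sum_pair (r12 hl)]

theorem sum_2 (hl : l ∉ ({0, 1, 2, 3} : Finset ℕ)) (f : Quad → ℕ) :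
    ∑ r ∈ (Kp l).filter (fun r => 2 ∈ r.2), f r = f (r1 l) := by
  obtain ⟨h0, h1, h2, h3⟩ := ne4 hl
  have h : (Kp l).filter (fun r => 2 ∈ r.2) = {r1 l} := by
    ext r
    rw [Finset.mem_filter, mem_Kp, Finset.mem_singleton]
    constructor
    · rintro ⟨hr | hr, h4⟩
      · exact hr
      · rw [hr, mem_r2] at h4
        omega
    · intro hr
      refine ⟨Or.inl hr, ?_⟩
      rw [hr]
      exact mem_r1.2 (Or.inl rfl)
  rw [h, Finset.sum_singleton]

theorem sum_3 (hl : l ∉ ({0, 1, 2, 3} : Finset ℕ)) (f : Quad → ℕ) :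
    ∑ r ∈ (Kp l).filter (fun r => 3 ∈ r.2), f r = f (r2 l) := by
  obtain ⟨h0, h1, h2, h3⟩ := ne4 hl
  have h : (Kp l).filter (fun r => 3 ∈ r.2) = {r2 l} := by
    ext r
    rw [Finset.mem_filter, mem_Kp, Finset.mem_singleton]
    constructor
    · rintro ⟨hr | hr, h4⟩
      · rw [hr, mem_r1] at h4
        omega
      · exact hr
    · intro hr
      refine ⟨Or.inr hr, ?_⟩
      rw [hr]
      exact mem_r2.2 (Or.inr rfl)
  rw [h, Finset.sum_singleton]

theorem qd_sum {P : Quad → Finset Quad} (hl : l ∉ ({0, 1, 2, 3} : Finset ℕ))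
    (hC : Comp qs (Kp l) P) (b : ℕ) :
    qd (glue (Kp l) P) b = qd (P (r1 l)) b + qd (P (r2 l)) b := by
  rw [hC.qd_glue b, Kp_eq, Finset.sum_pair (r12 hl)]

theorem mem_bl {b : ℕ} : b ∈ bl (Kp l) ↔ b = 2 ∨ b = 3 ∨ b = l := by
  rw [bl_Kp, Finset.mem_insert, Finset.mem_insert, Finset.mem_singleton]

theorem qd_zero {P : Quad → Finset Quad} {r : Quad} {b : ℕ}
    (hC : Comp qs (Kp l) P) (hr : r ∈ Kp l) (hb : b ∈ bl (Kp l)) (hbr : b ∉ r.2) :
    qd (P r) b = 0 := by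
  by_contra h
  exact hbr ((hC.qd_pos hr hb).1 (Nat.pos_of_ne_zero h))

/-- The choice of the number of marks. -/
theorem choose {P : Quad → Finset Quad} (h : MF qs (st i j) L N M)
    (hl : l ∉ ({0, 1, 2, 3} : Finset ℕ)) (hC : Comp qs (Kp l) P) (hG : glue (Kp l) P = N) :
    ∃ m, m ≤ 2 ∧ (l ∈ M ↔ m ≠ 0) ∧
      (m ≠ 0 → qd (P (r1 l)) l = m ∧ qd (P (r2 l)) l = 3 - m) := by
  by_cases hlM : l ∈ M
  · have h1 := h.three l hlM
    rw [← hG, qd_sum hl hC] at h1
    have hb : l ∈ bl (Kp l) := mem_bl.2 (Or.inr (Or.inr rfl))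
    have h2 := (hC.qd_pos m1 hb).2 (mem_r1.2 (Or.inr rfl))
    have h3 := (hC.qd_pos m2 hb).2 (mem_r2.2 (Or.inl rfl))
    refine ⟨qd (P (r1 l)) l, by omega, ⟨fun _ => by omega, fun _ => hlM⟩, fun _ => ⟨rfl, by omega⟩⟩
  · exact ⟨0, by norm_num, ⟨fun h1 => absurd h1 hlM, fun h1 => absurd rfl h1⟩, fun h1 => absurd rfl h1⟩

theorem disj_of (h : MF qs (st i j) L N M) : Disjoint L ({0, 1, 2, 3} : Finset ℕ) := by
  rw [Finset.disjoint_left]
  intro x hx hx'
  rw [← h.inn] at hx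
  unfold iv at hx
  exact (Finset.mem_sdiff.1 hx).2 (mem_qs.2 hx')

end DE1aAux

open DE1aAux

theorem Kp_facts (hl : l ∉ ({0, 1, 2, 3} : Finset ℕ)) :
    vt (Kp l) = {0, 1, 2, 3, l} ∧ iv qs (Kp l) = {l} ∧ bl (Kp l) = {2, 3, l} ∧
      wh (Kp l) = {0, 1} ∧ (({0, 1}, {2, l}) : Quad) ≠ (({0, 1}, {l, 3}) : Quad) :=
  ⟨vt_Kp, iv_Kp hl, bl_Kp, wh_Kp, r12 hl⟩

theorem frame_par (hL : Disjoint L ({0, 1, 2, 3} : Finset ℕ)) (hl : l ∈ L) (hm : m ≤ 2) :
    Frame qs (st i j) L (Kp l) (Mkp l m) (σp i j l m) := by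
  have hl4 := not4 hL hl
  obtain ⟨h0, h1, h2, h3⟩ := ne4 hl4
  refine ⟨par_part (nodup hl4), ?_, ?_, ?_, ?_, ?_, ?_, ?_⟩
  · rw [iv_Kp hl4, Finset.singleton_subset_iff]
    exact hl
  · rw [Finset.disjoint_left]
    intro x hx hx'
    exact Finset.disjoint_left.1 hL hx (mem_qs.1 hx')
  · intro x hx
    rw [(mem_Mkp.1 hx).2]
    exact hl
  · intro x hx
    rw [(mem_Mkp.1 hx).2]
    exact mem_bl.2 (Or.inr (Or.inr rfl))
  · intro r hr b hb
    have hb3 : b = 2 ∨ b = 3 ∨ b = l := by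
      rcases mem_Kp.1 hr with hr | hr
      · rw [hr, mem_r1] at hb
        tauto
      · rw [hr, mem_r2] at hb
        tauto
    rw [mem_flg, mem_Mkp]
    by_cases hbl : b = l
    · subst hbl
      by_cases hm0 : m = 0
      · subst hm0
        rw [σ_l0]
        constructor
        · intro h4
          exact absurd rfl h4
        · rintro (h4 | h4)
          · exact absurd rfl h4.1
          · omega
      · have h5 : σp i j b m r b ≠ 0 := by
          rcases mem_Kp.1 hr with hr | hr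
          · rw [hr, σ_l1 hm0]
            exact hm0
          · rw [hr, σ_l2 hl4 hm0]
            omega
        exact ⟨fun _ => Or.inl ⟨hm0, rfl⟩, fun _ => h5⟩
    · rw [σ_side hbl]
      constructor
      · intro h4
        refine Or.inr ⟨by omega, h4⟩
      · rintro (h4 | h4)
        · exact absurd h4.2 hbl
        · exact h4.2
  · intro h hh
    obtain ⟨hm0, hh⟩ := mem_Mkp.1 hh
    rw [hh, sum_l hl4, σ_l1 hm0, σ_l2 hl4 hm0]
    omega
  · intro b hb _
    rcases mem_qs2.1 hb with hb | hb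
    · rw [hb, sum_2 hl4, σ_side (Ne.symm h2)]
    · rw [hb, sum_3 hl4, σ_side (Ne.symm h3)]

theorem par_class (h : MF qs (st i j) L N M) (hp : ¬ Prm qs N) :
    ∃ l m, l ∈ L ∧ m ≤ 2 ∧ CMF qs (st i j) L (Kp l) (Mkp l m) (τp l) (σp i j l m) N M := by
  obtain ⟨l, hnd, P, hC, hG, hpr⟩ := par_exists (w0 := 0) (w1 := 1) (b0 := 2) (b1 := 3) h.part
    (by norm_num) (by norm_num) hp
  change Comp qs (Kp l) P at hC
  change glue (Kp l) P = N at hG
  change Prm (r1 l) (P (r1 l)) at hpr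
  have hl4 := of_nodup hnd
  obtain ⟨h0, h1, h2, h3⟩ := ne4 hl4
  have hL := disj_of h
  have hlL : l ∈ L := by
    rw [← h.inn]
    unfold iv
    rw [Finset.mem_sdiff]
    refine ⟨?_, fun h4 => hl4 (mem_qs.1 h4)⟩
    rw [← hG, hC.vt_glue]
    refine Finset.mem_union_left _ ?_
    rw [vt_Kp]
    simp only [Finset.mem_insert, Finset.mem_singleton, or_true]
  obtain ⟨m, hm, hm1, hm2⟩ := choose h hl4 hC hG
  refine ⟨l, m, hlL, hm, h, ?_, P, hC, hG, ?_, ?_⟩
  · ext x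
    rw [Finset.mem_inter, mem_Mkp, vt_Kp]
    constructor
    · rintro ⟨h4, h5⟩
      have h6 := not4 hL (h.sub h4)
      have h7 : x = l := by
        simp only [Finset.mem_insert, Finset.mem_singleton] at h5 h6
        omega
      rw [h7] at h4
      exact ⟨hm1.1 h4, h7⟩
    · rintro ⟨h4, h5⟩
      rw [h5]
      refine ⟨hm1.2 h4, ?_⟩
      simp only [Finset.mem_insert, Finset.mem_singleton, or_true]
  · intro r hr
    unfold τp
    by_cases h4 : r = (({0, 1}, {2, l}) : Quad)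
    · rw [if_pos h4, h4]
      exact hpr
    · rw [if_neg h4]
      trivial
  · intro r hr b hb hf
    have side : ∀ b, st i j b ≠ 0 → b ∈ qs.2 → qd (P (r1 l)) b + qd (P (r2 l)) b = st i j b := by
      intro b hb hb'
      rw [← qd_sum hl4 hC, hG]
      exact h.side b hb' hb
    rw [mem_flg, mem_Mkp] at hf
    rcases mem_Kp.1 hr with hr | hr
    · rw [hr] at hb ⊢
      rcases mem_r1.1 hb with hb | hb
      · rw [hb] at hf ⊢
        have h5 : st i j 2 ≠ 0 := by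
          rcases hf with h6 | h6
          · exact absurd h6.2.symm h2
          · exact h6.2
        have h6 := side 2 h5 (mem_qs2.2 (Or.inl rfl))
        have h7 : qd (P (r2 l)) 2 = 0 := qd_zero hC m2 (mem_bl.2 (Or.inl rfl)) (by
          rw [mem_r2]
          omega)
        rw [σ_side (Ne.symm h2)]
        omega
      · rw [hb] at hf ⊢
        have h5 : m ≠ 0 := by
          rcases hf with h6 | h6
          · exact h6.1
          · omega
        rw [σ_l1 h5]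
        exact (hm2 h5).1
    · rw [hr] at hb ⊢
      rcases mem_r2.1 hb with hb | hb
      · rw [hb] at hf ⊢
        have h5 : m ≠ 0 := by
          rcases hf with h6 | h6
          · exact h6.1
          · omega
        rw [σ_l2 hl4 h5]
        exact (hm2 h5).2
      · rw [hb] at hf ⊢
        have h5 : st i j 3 ≠ 0 := by
          rcases hf with h6 | h6
          · exact absurd h6.2.symm h3
          · exact h6.2
        have h6 := side 3 h5 (mem_qs2.2 (Or.inr rfl))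
        have h7 : qd (P (r1 l)) 3 = 0 := qd_zero hC m1 (mem_bl.2 (Or.inr (Or.inl rfl))) (by
          rw [mem_r1]
          omega)
        rw [σ_side (Ne.symm h3)]
        omega

theorem par_class_conv (hL : Disjoint L ({0, 1, 2, 3} : Finset ℕ)) (hl : l ∈ L)
    (h : CMF qs (st i j) L (Kp l) (Mkp l m) (τp l) (σp i j l m) N M) :
    MF qs (st i j) L N M ∧ ¬ Prm qs N := by
  obtain ⟨P, hC, hG, -, -⟩ := h.ex
  refine ⟨h.mf, ?_⟩
  rw [← hG]
  exact par_not_prm (nodup (not4 hL hl)) hC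

theorem par_class_uniq (hL : Disjoint L ({0, 1, 2, 3} : Finset ℕ)) (hl : l ∈ L) (hl' : l' ∈ L)
    (h : CMF qs (st i j) L (Kp l) (Mkp l m) (τp l) (σp i j l m) N M)
    (h' : CMF qs (st i j) L (Kp l') (Mkp l' m') (τp l') (σp i j l' m') N M) :
    l = l' ∧ m = m' := by
  have hl4 := not4 hL hl
  have hl4' := not4 hL hl'
  obtain ⟨P, hC, hG, hT, hS⟩ := h.ex
  obtain ⟨P', hC', hG', hT', hS'⟩ := h'.ex
  have hp : Prm (r1 l) (P (r1 l)) := by
    have h1 := hT (r1 l) m1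
    unfold τp at h1
    rw [if_pos (show r1 l = (({0, 1}, {2, l}) : Quad) from rfl)] at h1
    exact h1
  have hp' : Prm (r1 l') (P' (r1 l')) := by
    have h1 := hT' (r1 l') m1
    unfold τp at h1
    rw [if_pos (show r1 l' = (({0, 1}, {2, l'}) : Quad) from rfl)] at h1
    exact h1
  have hll : l = l' := par_unique (nodup hl4) (nodup hl4') hC hC' (hG.trans hG'.symm) hp hp'
  refine ⟨hll, ?_⟩
  subst hll
  have h1 : Mkp l m = Mkp l m' := h.mks.symm.trans h'.mks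
  have h2 : m ≠ 0 ↔ m' ≠ 0 := by
    constructor
    · intro h3
      have h4 : l ∈ Mkp l m := mem_Mkp.2 ⟨h3, rfl⟩
      rw [h1] at h4
      exact (mem_Mkp.1 h4).1
    · intro h3
      have h4 : l ∈ Mkp l m' := mem_Mkp.2 ⟨h3, rfl⟩
      rw [← h1] at h4
      exact (mem_Mkp.1 h4).1
  by_cases h3 : m = 0
  · have h4 : m' = 0 := by
      by_contra h5
      exact h2.2 h5 h3
    rw [h3, h4]
  · have h4 := h2.1 h3
    have h5 := hS (r1 l) m1 l (mem_r1.2 (Or.inr rfl)) (mem_flg.2 (Or.inl (mem_Mkp.2 ⟨h3, rfl⟩)))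
    have h6 := hS' (r1 l) m1 l (mem_r1.2 (Or.inr rfl)) (mem_flg.2 (Or.inl (mem_Mkp.2 ⟨h4, rfl⟩)))
    rw [σ_l1 h3] at h5
    rw [σ_l1 h4] at h6
    have h7 : P (r1 l) = P' (r1 l) := by
      refine DParAux.eq_of_bd h.mf.part (N := N) ?_ ?_ ?_
      · rw [← hG]
        exact DParAux.sub_glue m1
      · rw [← hG']
        exact DParAux.sub_glue m1
      · rw [(hC.part _ m1).bnd, (hC'.part _ m1).bnd]
    rw [← h5, ← h6, h7]

end K5M
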