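import Pool.Agent.Lib.K5M.DE1a
import Pool.Agent.Lib.K5M.DCnt
import Pool.Agent.Lib.K5M.DRlB
import Pool.Agent.Lib.K5M.DFam

/-!
# K5M.DE1b: the total weight of the parallel networks

PROOF.  `L = Ico 4 (4 + n)`, disjoint from `{0,1,2,3}`.  By `par_class`, `par_class_conv`, `par_class_uniq` and `tsum_disj` with the index `(l, m)`, `l ∈ L`,
`m ≤ 2`, the left hand side is the sum over these `(l, m)` (a finite sum) of the sums over `CMF qs (st i j) L (Kp l) (Mkp l m) (τp l) (σp i j l m)`.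
`cnt` with `r1 = ({0,1},{2,l})`, `r2 = ({0,1},{l,3})`, `a r1 = an .prm x Y T (st i j 2) (σ r1 l)`, `a r2 = an .all x Y T (σ r2 l) (st i j 3)` (`AW_eq_an`: `r1.2 = {2, l}`,
`r2.2 = {l, 3}`; `σp .. r 2 = i`, `σp .. r 3 = j`): the sum is `x ^ 0 * T ^ (Mkp l m).card * famI (Kp l) a (n - 1)` (`wh (Kp l) ∩ L = ∅`,
`(L \ vt (Kp l)).card = (L.erase l).card = n - 1`), `famI_pair`.
`m = 0`: `cv (an .prm i 0) (an .all 0 j) (n - 1)`; `m = 1`: `T * cv (an .prm i 1) (an .all 2 j) (n - 1)`; `m = 2`: `T * cv (an .prm i 2) (an .all 1 j) (n - 1)`.  The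
sum over `l ∈ L` gives the factor `n`.
-/

set_option autoImplicit false

namespace K5M

open Finset
open scoped ENNReal

namespace DE1bAux

/-- The counting functions of the two parts. -/
noncomputable def aa (x Y T : ℝ≥0∞) (i j l m : ℕ) (r : Quad) : ℕ → ℝ≥0∞ :=
  if r = (({0, 1}, {2, l}) : Quad) then an .prm x Y T i m
  else an .all x Y T (if m = 0 then 0 else 3 - m) j

theorem ha (x Y T : ℝ≥0∞) {i j l m : ℕ} (hl : l ∉ ({0, 1, 2, 3} : Finset ℕ)) :
    ∀ r ∈ Kp l, ∀ S : Finset ℕ, Disjoint S (r.1 ∪ r.2) →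
      AW (τp l r) x Y T r (σp i j l m r) S = aa x Y T i j l m r S.card := by
  have hl' := hl
  simp only [mem_insert, mem_singleton, not_or] at hl'
  obtain ⟨h0, h1, h2, h3⟩ := hl'
  obtain ⟨-, -, -, -, hne⟩ := Kp_facts hl
  intro r hr S hS
  simp only [Kp, mem_insert, mem_singleton] at hr
  rcases hr with rfl | rfl
  · have hq : IsQ (({0, 1}, {2, l}) : Quad) := by
      refine ⟨?_, ?_⟩
      · simp
      · exact card_pair (Ne.symm h2)
    have hd : Disjoint (({0, 1}, {2, l}) : Quad).1 (({0, 1}, {2, l}) : Quad).2 := by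
      simp only [disjoint_insert_right, disjoint_singleton_right, mem_insert, mem_singleton]
      exact ⟨by decide, by tauto⟩
    rw [AW_eq_an hq hd (b := 2) (b' := l) rfl hS]
    have e1 : σp i j l m (({0, 1}, {2, l}) : Quad) 2 = i := by
      simp [σp, st, Ne.symm h2]
    have e2 : σp i j l m (({0, 1}, {2, l}) : Quad) l = m := by
      simp only [σp, if_true]
      split_ifs with h
      · exact h.symm
      · rfl
    rw [e1, e2]
    simp [aa, τp]
  · have hq : IsQ (({0, 1}, {l, 3}) : Quad) := by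
      refine ⟨?_, ?_⟩
      · simp
      · exact card_pair h3
    have hd : Disjoint (({0, 1}, {l, 3}) : Quad).1 (({0, 1}, {l, 3}) : Quad).2 := by
      simp only [disjoint_insert_right, disjoint_singleton_right, mem_insert, mem_singleton]
      exact ⟨by tauto, by decide⟩
    rw [AW_eq_an hq hd (b := l) (b' := 3) rfl hS]
    have e1 : σp i j l m (({0, 1}, {l, 3}) : Quad) 3 = j := by
      simp [σp, st, Ne.symm h3]
    have e2 : σp i j l m (({0, 1}, {l, 3}) : Quad) l = if m = 0 then 0 else 3 - m := by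
      simp only [σp, if_true, if_neg hne.symm]
    rw [e1, e2]
    simp only [aa, τp, if_neg hne.symm]

/-- The value for one index. -/
noncomputable def vl (x Y T : ℝ≥0∞) (i j n m : ℕ) : ℝ≥0∞ :=
  T ^ (if m = 0 then 0 else 1) *
    cv (an .prm x Y T i m) (an .all x Y T (if m = 0 then 0 else 3 - m) j) (n - 1)

theorem one (x Y T : ℝ≥0∞) {i j n l m : ℕ} (hl : l ∈ Ico 4 (4 + n)) (hm : m ≤ 2) :
    ∑' s : {s : Finset Quad × Finset ℕ //
      CMF qs (st i j) (Ico 4 (4 + n)) (Kp l) (Mkp l m) (τp l) (σp i j l m) s.1 s.2},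
      wF x Y T qs (st i j) (Ico 4 (4 + n)) s.1 = vl x Y T i j n m := by
  have hL : Disjoint (Ico 4 (4 + n)) ({0, 1, 2, 3} : Finset ℕ) := by
    rw [disjoint_left]
    intro a ha hb
    rw [mem_Ico] at ha
    simp only [mem_insert, mem_singleton] at hb
    omega
  have hl4 := hl
  rw [mem_Ico] at hl4
  have hl' : l ∉ ({0, 1, 2, 3} : Finset ℕ) := disjoint_left.1 hL hl
  obtain ⟨hvt, -, -, hwh, hne⟩ := Kp_facts hl'
  rw [cnt x Y T (frame_par hL hl hm) (aa x Y T i j l m) (ha x Y T hl')]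
  have e1 : (wh (Kp l) ∩ Ico 4 (4 + n)).card = 0 := by
    rw [hwh, card_eq_zero, ← disjoint_iff_inter_eq_empty]
    refine disjoint_left.2 fun a ha hb => ?_
    rw [mem_Ico] at hb
    simp only [mem_insert, mem_singleton] at ha
    omega
  have e2 : (Mkp l m).card = if m = 0 then 0 else 1 := by
    unfold Mkp
    split_ifs <;> simp
  have e3 : (Ico 4 (4 + n) \ vt (Kp l)).card = n - 1 := by
    have : Ico 4 (4 + n) \ vt (Kp l) = (Ico 4 (4 + n)).erase l := by
      rw [hvt]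
      ext a
      simp only [mem_sdiff, mem_Ico, mem_insert, mem_singleton, mem_erase]
      constructor
      · rintro ⟨h1, h2⟩
        exact ⟨fun h => h2 (by tauto), h1⟩
      · rintro ⟨h1, h2⟩
        refine ⟨h2, ?_⟩
        rintro (h | h | h | h | h)
        · omega
        · omega
        · omega
        · omega
        · exact h1 h
    rw [this, card_erase_of_mem hl, Nat.card_Ico]
    omega
  rw [e1, e2, e3, pow_zero, one_mul]
  have e4 : famI (Kp l) (aa x Y T i j l m) (n - 1) =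
      cv (an .prm x Y T i m) (an .all x Y T (if m = 0 then 0 else 3 - m) j) (n - 1) := by
    have h := famI_pair hne (aa x Y T i j l m) (n - 1)
    have e5 : aa x Y T i j l m (({0, 1}, {2, l}) : Quad) = an .prm x Y T i m := by
      simp [aa]
    have e6 : aa x Y T i j l m (({0, 1}, {l, 3}) : Quad) =
        an .all x Y T (if m = 0 then 0 else 3 - m) j := by
      simp only [aa, if_neg hne.symm]
    rw [e5, e6] at h
    exact h
  rw [e4]
  rfl

end DE1bAux

open DE1bAux in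
theorem npr_eq (x Y T : ℝ≥0∞) (i j n : ℕ) :
    ∑' s : {s : Finset Quad × Finset ℕ //
      MF qs (st i j) (Ico 4 (4 + n)) s.1 s.2 ∧ ¬ Prm qs s.1},
      wF x Y T qs (st i j) (Ico 4 (4 + n)) s.1 = par x Y T i j n := by
  have hL : Disjoint (Ico 4 (4 + n)) ({0, 1, 2, 3} : Finset ℕ) := by
    rw [disjoint_left]
    intro a ha hb
    rw [mem_Ico] at ha
    simp only [mem_insert, mem_singleton] at hb
    omega
  have key := tsum_disj
    (R := fun s : Finset Quad × Finset ℕ =>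
      MF qs (st i j) (Ico 4 (4 + n)) s.1 s.2 ∧ ¬ Prm qs s.1)
    (I := fun p : ℕ × ℕ => p ∈ Ico 4 (4 + n) ×ˢ range 3)
    (Q := fun (p : ℕ × ℕ) (s : Finset Quad × Finset ℕ) =>
      CMF qs (st i j) (Ico 4 (4 + n)) (Kp p.1) (Mkp p.1 p.2) (τp p.1) (σp i j p.1 p.2) s.1 s.2)
    (w := fun s => wF x Y T qs (st i j) (Ico 4 (4 + n)) s) ?_ ?_ ?_
  · rw [key]
    have h1 : ∀ p : {p : ℕ × ℕ // p ∈ Ico 4 (4 + n) ×ˢ range 3},
        ∑' s : {s : Finset Quad × Finset ℕ // CMF qs (st i j) (Ico 4 (4 + n)) (Kp p.1.1)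
          (Mkp p.1.1 p.1.2) (τp p.1.1) (σp i j p.1.1 p.1.2) s.1 s.2},
          wF x Y T qs (st i j) (Ico 4 (4 + n)) s.1 = vl x Y T i j n p.1.2 := by
      rintro ⟨⟨l, m⟩, hp⟩
      rw [mem_product, mem_range] at hp
      exact one x Y T hp.1 (Nat.lt_succ_iff.1 hp.2)
    rw [tsum_congr h1,
      Finset.tsum_subtype (Ico 4 (4 + n) ×ˢ range 3) (fun p : ℕ × ℕ => vl x Y T i j n p.2),
      sum_product]
    simp only [sum_const, Nat.card_Ico, sum_range_succ, sum_range_zero, zero_add,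
      Nat.add_sub_cancel_left, nsmul_eq_mul]
    simp only [vl, par]
    norm_num
    ring
  · rintro ⟨N, M⟩ ⟨h, hp⟩
    obtain ⟨l, m, hl, hm, hc⟩ := par_class h hp
    exact ⟨(l, m), mem_product.2 ⟨hl, mem_range.2 (by simp only; omega)⟩, hc⟩
  · rintro ⟨l, m⟩ ⟨N, M⟩ hp hc
    rw [mem_product] at hp
    exact par_class_conv hL hp.1 hc
  · rintro ⟨l, m⟩ ⟨l', m'⟩ ⟨N, M⟩ hp hp' hc hc'
    rw [mem_product] at hp hp'
    obtain ⟨e1, e2⟩ := par_class_uniq hL hp.1 hp'.1 hc hc'
    exact Prod.ext e1 e2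

end K5M
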