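import Pool.Agent.Lib.K5M.DE1b
import Pool.Agent.Lib.K5M.DCore

/-!
# K5M.DE2: single quads, series networks, cores, parallel networks

PROOFS.  `L = Ico 4 (4 + n)`, `c = st i j`, all sums over `(N, M)` with `MF qs c L N M`; `tsum_or` splits a class in two.
`single_sum`: the sum over the `(N, M)` with `N = {qs}`: `iv qs {qs} = ∅`, so `n = 0` (otherwise the class is empty), `M ⊆ L = ∅`; `MF qs c ∅ {qs} ∅` holds iff
`part` (`part_single`), `side`: `qd {qs} b = 1` for `b = 2, 3`, so `i, j ≤ 1`; `one`: `({2,3} ∩ flg qs c ∅).card ≤ 1`, so not `i = j = 1`.  The weight is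
`Y ^ 1` if `i = j = 0` and `Y ^ 0 = 1` otherwise: `sgl Y i j n`.
`prm_eq`: a prime network is `{qs}` or series (`Prm` by `prm_or_nser`) or of class `cor` (prime, not series, at least two quads); these are
exclusive (`single_prm`; `single_eq` if `N.card ≤ 1`).
`nsr_eq`: not series = (prime and not series) or not prime (a network that is not prime is not series: `prm_or_nser`); the first class is
`{qs}` or `cor`; the second one is `npr_eq`.
`all_eq`: prime or not prime.  `all_eq'`: series or not.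
`ser_one`: if `i = 1` (or `j = 1`) the side `2` has one quad, but `ser_side`: the class is empty.  `nsr_one`: so `an .nsr = an .all`.
`cor_one`: `cor` with `qd N 2 = 1`: `one_quad` gives `N = {qs}`, but `2 ≤ N.card`: empty.
-/

set_option autoImplicit false

namespace K5M

open Finset
open scoped ENNReal

namespace DE2Aux

theorem split {α : Type*} (f : α → ℝ≥0∞) (P P1 P2 : α → Prop)
    (h : ∀ s, P s ↔ P1 s ∨ P2 s) (hd : ∀ s, P1 s → ¬ P2 s) :
    ∑' s : {s // P s}, f s.1 = ∑' s : {s // P1 s}, f s.1 + ∑' s : {s // P2 s}, f s.1 := by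
  have e : ∀ R : α → Prop, ∑' s : {s // R s}, f s.1 = ∑' s, Set.indicator {s | R s} f s :=
    fun R => tsum_subtype {s | R s} f
  rw [e, e, e, ← ENNReal.tsum_add]
  refine tsum_congr fun s => ?_
  by_cases h1 : P1 s
  · have h2 : ¬ P2 s := hd s h1
    have h3 : P s := (h s).2 (Or.inl h1)
    rw [Set.indicator_of_mem (show s ∈ {s | P s} from h3),
      Set.indicator_of_mem (show s ∈ {s | P1 s} from h1),
      Set.indicator_of_notMem (show s ∉ {s | P2 s} from h2), add_zero]
  · by_cases h2 : P2 s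
    · have h3 : P s := (h s).2 (Or.inr h2)
      rw [Set.indicator_of_mem (show s ∈ {s | P s} from h3),
        Set.indicator_of_notMem (show s ∉ {s | P1 s} from h1),
        Set.indicator_of_mem (show s ∈ {s | P2 s} from h2), zero_add]
    · have h3 : ¬ P s := fun h4 => by
        rcases (h s).1 h4 with h5 | h5
        · exact h1 h5
        · exact h2 h5
      rw [Set.indicator_of_notMem (show s ∉ {s | P s} from h3),
        Set.indicator_of_notMem (show s ∉ {s | P1 s} from h1),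
        Set.indicator_of_notMem (show s ∉ {s | P2 s} from h2), add_zero]

theorem tsum_iff {α : Type*} (f : α → ℝ≥0∞) (P P' : α → Prop) (h : ∀ s, P s ↔ P' s) :
    ∑' s : {s // P s}, f s.1 = ∑' s : {s // P' s}, f s.1 := by
  have e : P = P' := funext fun s => propext (h s)
  subst e
  rfl

theorem tsum_none {α : Type*} (f : α → ℝ≥0∞) (P : α → Prop) (h : ∀ s, ¬ P s) :
    ∑' s : {s // P s}, f s.1 = 0 := by
  have : IsEmpty {s // P s} := ⟨fun s => h s.1 s.2⟩
  exact tsum_empty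

theorem tsum_one {α : Type*} (f : α → ℝ≥0∞) (P : α → Prop) (a : α) (h : ∀ s, P s ↔ s = a) :
    ∑' s : {s // P s}, f s.1 = f a := by
  have e := tsum_iff f P (fun s => s = a) h
  rw [e]
  exact tsum_eq_single (⟨a, rfl⟩ : {s // s = a}) (fun b hb => absurd (Subtype.ext b.2) hb)

theorem isQ_qs : IsQ qs := by
  constructor <;> rfl

theorem st2 (i j : ℕ) : st i j 2 = i := by
  unfold st
  rw [if_pos rfl]

theorem st3 (i j : ℕ) : st i j 3 = j := by
  unfold st
  rw [if_neg (by norm_num), if_pos rfl]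

theorem iv_single : iv qs {qs} = ∅ := by
  unfold iv vt wh bl
  rw [Finset.singleton_biUnion, Finset.singleton_biUnion]
  exact Finset.sdiff_self _

theorem bl_single : bl {qs} = qs.2 := by
  unfold bl
  exact Finset.singleton_biUnion

theorem qd_single {b : ℕ} (hb : b ∈ qs.2) : qd {qs} b = 1 := by
  unfold qd
  rw [Finset.filter_singleton, if_pos hb]
  rfl

theorem mem2 {b : ℕ} : b ∈ qs.2 ↔ b = 2 ∨ b = 3 := by
  unfold qs
  simp

theorem flg_eq (i j : ℕ) : flg qs (st i j) ∅ = qs.2.filter (fun b => st i j b ≠ 0) := by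
  unfold flg
  exact Finset.empty_union _

theorem mem_flg {i j b : ℕ} : b ∈ flg qs (st i j) ∅ ↔ (b = 2 ∧ i ≠ 0) ∨ (b = 3 ∧ j ≠ 0) := by
  rw [flg_eq, Finset.mem_filter, mem2]
  constructor
  · rintro ⟨h1 | h1, h2⟩
    · subst h1
      rw [st2] at h2
      exact Or.inl ⟨rfl, h2⟩
    · subst h1
      rw [st3] at h2
      exact Or.inr ⟨rfl, h2⟩
  · rintro (⟨h1, h2⟩ | ⟨h1, h2⟩)
    · subst h1
      refine ⟨Or.inl rfl, ?_⟩
      rw [st2]
      exact h2
    · subst h1
      refine ⟨Or.inr rfl, ?_⟩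
      rw [st3]
      exact h2

theorem mf_single {i j : ℕ} :
    MF qs (st i j) ∅ {qs} ∅ ↔ (i = 0 ∧ j = 0) ∨ ((i = 1 ∧ j = 0) ∨ (i = 0 ∧ j = 1)) := by
  constructor
  · intro h
    have h2 := h.side 2 (mem2.2 (Or.inl rfl))
    have h3 := h.side 3 (mem2.2 (Or.inr rfl))
    rw [st2, qd_single (mem2.2 (Or.inl rfl))] at h2
    rw [st3, qd_single (mem2.2 (Or.inr rfl))] at h3
    have h4 := h.one qs (Finset.mem_singleton_self _)
    by_cases hi : i = 0
    · by_cases hj : j = 0
      · exact Or.inl ⟨hi, hj⟩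
      · exact Or.inr (Or.inr ⟨hi, (h3 hj).symm⟩)
    · by_cases hj : j = 0
      · exact Or.inr (Or.inl ⟨(h2 hi).symm, hj⟩)
      · exfalso
        have h5 : ({2, 3} : Finset ℕ) ⊆ qs.2 ∩ flg qs (st i j) ∅ := by
          intro b hb
          rw [Finset.mem_inter]
          have hb' : b = 2 ∨ b = 3 := by simpa using hb
          refine ⟨mem2.2 hb', mem_flg.2 ?_⟩
          rcases hb' with h6 | h6
          · exact Or.inl ⟨h6, hi⟩
          · exact Or.inr ⟨h6, hj⟩
        have h6 := Finset.card_le_card h5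
        have h7 : ({2, 3} : Finset ℕ).card = 2 := rfl
        omega
  · intro h
    refine ⟨part_single isQ_qs ?_, iv_single, Finset.empty_subset _, Finset.empty_subset _, ?_,
      ?_, ?_⟩
    · unfold qs
      decide
    · intro h hh
      exact absurd hh (Finset.notMem_empty _)
    · intro b hb hc
      rw [qd_single hb]
      rcases mem2.1 hb with h1 | h1
      · subst h1
        rw [st2] at hc ⊢
        omega
      · subst h1
        rw [st3] at hc ⊢
        omega
    · intro r hr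
      rw [Finset.mem_singleton] at hr
      subst hr
      refine Finset.card_le_one.2 fun a ha b hb => ?_
      have ha' := mem_flg.1 (Finset.mem_inter.1 ha).2
      have hb' := mem_flg.1 (Finset.mem_inter.1 hb).2
      omega

end DE2Aux

open DE2Aux

variable (x Y T : ℝ≥0∞) (i j n : ℕ)

theorem single_sum :
    ∑' s : {s : Finset Quad × Finset ℕ // MF qs (st i j) (Ico 4 (4 + n)) s.1 s.2 ∧ s.1 = {qs}},
      wF x Y T qs (st i j) (Ico 4 (4 + n)) s.1 = sgl Y i j n := by
  by_cases hn : n = 0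
  · subst hn
    have hI : Ico 4 (4 + 0) = (∅ : Finset ℕ) := Finset.Ico_self 4
    rw [hI]
    have key : ∀ s : Finset Quad × Finset ℕ, (MF qs (st i j) ∅ s.1 s.2 ∧ s.1 = {qs}) ↔
        (MF qs (st i j) ∅ {qs} ∅ ∧ s = ({qs}, ∅)) := by
      rintro ⟨N, M⟩
      constructor
      · rintro ⟨h1, h2⟩
        have h3 : M = ∅ := Finset.subset_empty.1 h1.sub
        have h2' : N = {qs} := h2
        subst h3
        subst h2'
        exact ⟨h1, rfl⟩
      · rintro ⟨h1, h2⟩
        rw [h2]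
        exact ⟨h1, rfl⟩
    rw [tsum_iff (fun s => wF x Y T qs (st i j) ∅ s) _ _ key]
    unfold sgl
    rw [if_pos rfl]
    by_cases hm : MF qs (st i j) ∅ {qs} ∅
    · rw [tsum_one (fun s => wF x Y T qs (st i j) ∅ s) _ (({qs}, ∅) : Finset Quad × Finset ℕ)
        (fun s => ⟨fun h => h.2, fun h => ⟨hm, h⟩⟩)]
      have hw : wF x Y T qs (st i j) ∅ (({qs}, ∅) : Finset Quad × Finset ℕ) =
          Y ^ (({qs} : Finset Quad).filter (fun r => Disjoint r.2 (flg qs (st i j) ∅))).card := by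
        unfold wF
        rw [Finset.inter_empty, Finset.card_empty, pow_zero, one_mul, pow_zero, mul_one]
      rw [hw, Finset.filter_singleton]
      rcases mf_single.1 hm with h | h
      · rw [if_pos h, if_pos]
        · rw [Finset.card_singleton, pow_one]
        · rw [Finset.disjoint_left]
          intro b _ hb
          have := mem_flg.1 hb
          omega
      · have hij : ¬ (i = 0 ∧ j = 0) := by omega
        rw [if_neg hij, if_pos h, if_neg]
        · rw [Finset.card_empty, pow_zero]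
        · rw [Finset.disjoint_left]
          intro hd
          rcases h with h | h
          · exact hd (mem2.2 (Or.inl rfl)) (mem_flg.2 (Or.inl ⟨rfl, by omega⟩))
          · exact hd (mem2.2 (Or.inr rfl)) (mem_flg.2 (Or.inr ⟨rfl, by omega⟩))
    · rw [tsum_none (fun s => wF x Y T qs (st i j) ∅ s) _ (fun s h => hm h.1)]
      rw [mf_single, not_or] at hm
      rw [if_neg hm.1, if_neg hm.2]
  · rw [tsum_none (fun s => wF x Y T qs (st i j) (Ico 4 (4 + n)) s) _ ?_]
    · unfold sgl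
      rw [if_neg hn]
    · rintro ⟨N, M⟩ ⟨h1, h2⟩
      have h3 : iv qs N = Ico 4 (4 + n) := h1.inn
      have h2' : N = {qs} := h2
      rw [h2', iv_single] at h3
      have h4 : (4 : ℕ) ∈ Ico 4 (4 + n) := Finset.mem_Ico.2 ⟨le_refl _, by omega⟩
      rw [← h3] at h4
      exact absurd h4 (Finset.notMem_empty _)

namespace DE2Aux

/-- the classes `prime` and `not series` -/
theorem cls_prm {N : Finset Quad} (h : Part qs N) :
    Prm qs N ↔ (N = {qs} ∨ Ser qs N) ∨ Ty.cor.cls qs N := by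
  constructor
  · intro hp
    by_cases hs : Ser qs N
    · exact Or.inl (Or.inr hs)
    · by_cases hc : 2 ≤ N.card
      · exact Or.inr ⟨hp, hs, hc⟩
      · exact Or.inl (Or.inl (single_eq h (by omega)))
  · rintro ((h1 | h1) | h1)
    · rw [h1]
      exact (single_prm isQ_qs).1
    · exact prm_or_nser h h1
    · exact h1.1

theorem cor_ns {N : Finset Quad} (h1 : Ty.cor.cls qs N) : ¬ N = {qs} := by
  intro h2
  have h3 := h1.2.2
  rw [h2, Finset.card_singleton] at h3
  omega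

theorem ser_ns {N : Finset Quad} (h1 : Ser qs N) : ¬ N = {qs} := by
  intro h2
  rw [h2] at h1
  exact (single_prm isQ_qs).2 h1

theorem cls_nsr {N : Finset Quad} (h : Part qs N) :
    ¬ Ser qs N ↔ (N = {qs} ∨ Ty.cor.cls qs N) ∨ ¬ Prm qs N := by
  constructor
  · intro hs
    by_cases hp : Prm qs N
    · by_cases hc : 2 ≤ N.card
      · exact Or.inl (Or.inr ⟨hp, hs, hc⟩)
      · exact Or.inl (Or.inl (single_eq h (by omega)))
    · exact Or.inr hp
  · rintro ((h1 | h1) | h1)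
    · rw [h1]
      exact (single_prm isQ_qs).2
    · exact h1.2.1
    · exact fun hs => h1 (prm_or_nser h hs)

end DE2Aux

theorem prm_eq :
    an .prm x Y T i j n = sgl Y i j n + an .ser x Y T i j n + an .cor x Y T i j n := by
  rw [← single_sum x Y T i j n]
  unfold an AW
  rw [← split (fun s => wF x Y T qs (st i j) (Ico 4 (4 + n)) s)
    (fun s : Finset Quad × Finset ℕ => MF qs (st i j) (Ico 4 (4 + n)) s.1 s.2 ∧
      (s.1 = {qs} ∨ Ser qs s.1)) _ _ ?_ ?_]
  · rw [← split (fun s => wF x Y T qs (st i j) (Ico 4 (4 + n)) s) _ _ _ ?_ ?_]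
    · rintro ⟨N, M⟩
      constructor
      · rintro ⟨h1, h2⟩
        rcases (cls_prm h1.part).1 h2 with h3 | h3
        · exact Or.inl ⟨h1, h3⟩
        · exact Or.inr ⟨h1, h3⟩
      · rintro (⟨h1, h2⟩ | ⟨h1, h2⟩)
        · exact ⟨h1, (cls_prm h1.part).2 (Or.inl h2)⟩
        · exact ⟨h1, (cls_prm h1.part).2 (Or.inr h2)⟩
    · rintro ⟨N, M⟩ ⟨_, h1⟩ ⟨_, h2⟩
      rcases h1 with h1 | h1
      · exact cor_ns h2 h1
      · exact h2.2.1 h1
  · rintro ⟨N, M⟩
    constructor
    · rintro ⟨h1, h2 | h2⟩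
      · exact Or.inl ⟨h1, h2⟩
      · exact Or.inr ⟨h1, h2⟩
    · rintro (⟨h1, h2⟩ | ⟨h1, h2⟩)
      · exact ⟨h1, Or.inl h2⟩
      · exact ⟨h1, Or.inr h2⟩
  · rintro ⟨N, M⟩ ⟨_, h1⟩ ⟨_, h2⟩
    exact ser_ns h2 h1

theorem nsr_eq :
    an .nsr x Y T i j n = sgl Y i j n + an .cor x Y T i j n + par x Y T i j n := by
  rw [← single_sum x Y T i j n, ← npr_eq x Y T i j n]
  unfold an AW
  rw [← split (fun s => wF x Y T qs (st i j) (Ico 4 (4 + n)) s)
    (fun s : Finset Quad × Finset ℕ => MF qs (st i j) (Ico 4 (4 + n)) s.1 s.2 ∧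
      (s.1 = {qs} ∨ Ty.cor.cls qs s.1)) _ _ ?_ ?_]
  · rw [← split (fun s => wF x Y T qs (st i j) (Ico 4 (4 + n)) s) _ _ _ ?_ ?_]
    · rintro ⟨N, M⟩
      constructor
      · rintro ⟨h1, h2⟩
        rcases (cls_nsr h1.part).1 h2 with h3 | h3
        · exact Or.inl ⟨h1, h3⟩
        · exact Or.inr ⟨h1, h3⟩
      · rintro (⟨h1, h2⟩ | ⟨h1, h2⟩)
        · exact ⟨h1, (cls_nsr h1.part).2 (Or.inl h2)⟩
        · exact ⟨h1, (cls_nsr h1.part).2 (Or.inr h2)⟩
    · rintro ⟨N, M⟩ ⟨_, h1⟩ ⟨_, h2⟩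
      rcases h1 with h1 | h1
      · have h1' : N = {qs} := h1
        have h2' : ¬ Prm qs N := h2
        rw [h1'] at h2'
        exact h2' (single_prm isQ_qs).1
      · exact h2 h1.1
  · rintro ⟨N, M⟩
    constructor
    · rintro ⟨h1, h2 | h2⟩
      · exact Or.inl ⟨h1, h2⟩
      · exact Or.inr ⟨h1, h2⟩
    · rintro (⟨h1, h2⟩ | ⟨h1, h2⟩)
      · exact ⟨h1, Or.inl h2⟩
      · exact ⟨h1, Or.inr h2⟩
  · rintro ⟨N, M⟩ ⟨_, h1⟩ ⟨_, h2⟩
    exact cor_ns h2 h1

theorem all_eq : an .all x Y T i j n = an .prm x Y T i j n + par x Y T i j n := by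
  rw [← npr_eq x Y T i j n]
  unfold an AW
  refine split (fun s => wF x Y T qs (st i j) (Ico 4 (4 + n)) s) _ _ _ ?_ ?_
  · rintro ⟨N, M⟩
    constructor
    · rintro ⟨h1, _⟩
      by_cases h2 : Prm qs N
      · exact Or.inl ⟨h1, h2⟩
      · exact Or.inr ⟨h1, h2⟩
    · rintro (⟨h1, h2⟩ | ⟨h1, h2⟩)
      · exact ⟨h1, trivial⟩
      · exact ⟨h1, trivial⟩
  · rintro ⟨N, M⟩ ⟨_, h1⟩ ⟨_, h2⟩
    exact h2 h1

theorem all_eq' : an .all x Y T i j n = an .nsr x Y T i j n + an .ser x Y T i j n := by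
  unfold an AW
  refine split (fun s => wF x Y T qs (st i j) (Ico 4 (4 + n)) s) _ _ _ ?_ ?_
  · rintro ⟨N, M⟩
    constructor
    · rintro ⟨h1, _⟩
      by_cases h2 : Ser qs N
      · exact Or.inr ⟨h1, h2⟩
      · exact Or.inl ⟨h1, h2⟩
    · rintro (⟨h1, h2⟩ | ⟨h1, h2⟩)
      · exact ⟨h1, trivial⟩
      · exact ⟨h1, trivial⟩
  · rintro ⟨N, M⟩ ⟨_, h1⟩ ⟨_, h2⟩
    exact h1 h2

theorem ser_one : an .ser x Y T 1 j n = 0 := by
  unfold an AW
  refine tsum_none (fun s => wF x Y T qs (st 1 j) (Ico 4 (4 + n)) s) _ ?_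
  rintro ⟨N, M⟩ ⟨h1, h2⟩
  have hb : 2 ∈ qs.2 := mem2.2 (Or.inl rfl)
  have h3 := h1.side 2 hb (by rw [st2]; norm_num)
  rw [st2] at h3
  have h4 := ser_side h1.part h2 hb
  omega

theorem nsr_one : an .nsr x Y T 1 j n = an .all x Y T 1 j n := by
  rw [all_eq', ser_one, add_zero]

theorem cor_one : an .cor x Y T 1 j n = 0 := by
  unfold an AW
  refine tsum_none (fun s => wF x Y T qs (st 1 j) (Ico 4 (4 + n)) s) _ ?_
  rintro ⟨N, M⟩ ⟨h1, h2⟩
  have hb : 2 ∈ qs.2 := mem2.2 (Or.inl rfl)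
  have h3 := h1.side 2 hb (by rw [st2]; norm_num)
  rw [st2] at h3
  exact cor_ns h2 (one_quad h1.part h2.1 hb h3)

end K5M
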