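import Pool.Agent.Lib.K5M.N0

/-!
# K5M.N2: contracting a partition into 4-regions

STATEMENT.  If a network `N` is the disjoint union of sets `P q`, `q ∈ K`, with `bd (P q) = ed q`, then `K` is a network
with the same boundary, every `P q` is a part, and `Comp q0 K P` holds.

PROOF.  `dg K e = #{q ∈ K : e ∈ bd (P q)} ≤ ∑ q ∈ K, dg (P q) e = dg N e ≤ 2`.  For `K' ⊆ K`, `bd K'` and `bd (glue K' P)`
are both the symmetric difference of the `ed q`, `q ∈ K'` (induction on `K'`, disjointness), so
`bd (glue K' P) = bd K'`; in particular `bd K = bd N = ed q0`.  `inj`: `bd K' = ∅` gives `glue K' P = ∅`, and the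
`P q` are nonempty (`bd (P q) = ed q ≠ ∅`), so `K' = ∅`.  `sur`: let `Z ⊆ EdS K` be even; `EdS K ⊆ EdS N`, so
`Z = bd Y`, `Y ⊆ N`.  For `q ∈ K`: an edge `e ∈ EdS (P q) \ ed q` is in two quads of `P q` (`dg (P q) e` is even and
positive), hence in no other `P q'` and not in `EdS K` (an edge of `ed q' = bd (P q')` is in a quad of `P q'`,
which would be a third quad); so `e ∉ Z` and `e ∉ bd (Y ∩ P q)`.  So `bd (Y ∩ P q) ⊆ ed q` is even, hence `∅` or `ed q`,
and `Y ∩ P q` is `∅` or `P q`.  So `Y = glue K' P` and `Z = bd K'`.  Colours of `K`: `wh K ⊆ wh N`, because an end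
of an edge of `ed q` is a vertex of `P q`.
Inner vertices: let `y ∈ iv q (P q)` be white, say.  No edge of `bd (P q) = ed q` is at `y`, so by the link lemma all
quads of `N` at `y` are in `P q`.  If `y ∈ vt K`: `y` is in `q'.1` (colours) for some `q' ∈ K`, `q' ≠ q`, and there is a
quad of `P q'` at `y`: contradiction.  If `y ∈ iv q' (P q')` then a quad of `P q'` is at `y`: contradiction.
-/

set_option autoImplicit false

namespace K5M

open Finset

namespace N2Aux

variable {q0 : Quad} {N K : Finset Quad} {P : Quad → Finset Quad}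

theorem dg_glue (K : Finset Quad) (hd : ∀ q ∈ K, ∀ q' ∈ K, q ≠ q' → Disjoint (P q) (P q'))
    (e : Ed) : dg (glue K P) e = ∑ q ∈ K, dg (P q) e := by
  unfold glue
  induction K using Finset.induction_on with
  | empty => simp [dg]
  | insert q K hq ih =>
    have hdis : Disjoint (P q) (K.biUnion P) := by
      rw [Finset.disjoint_biUnion_right]
      intro q' hq'
      refine hd q (mem_insert_self _ _) q' (mem_insert_of_mem hq') ?_
      rintro rfl
      exact hq hq'
    rw [biUnion_insert, dg_union hdis, sum_insert hq,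
      ih (fun a ha b hb => hd a (mem_insert_of_mem ha) b (mem_insert_of_mem hb))]

theorem bd_glue (K : Finset Quad) (hd : ∀ q ∈ K, ∀ q' ∈ K, q ≠ q' → Disjoint (P q) (P q'))
    (hb : ∀ q ∈ K, bd (P q) = ed q) : bd (glue K P) = bd K := by
  unfold glue
  induction K using Finset.induction_on with
  | empty => rw [biUnion_empty]
  | insert q K hq ih =>
    have hdis : Disjoint (P q) (K.biUnion P) := by
      rw [Finset.disjoint_biUnion_right]
      intro q' hq'
      refine hd q (mem_insert_self _ _) q' (mem_insert_of_mem hq') ?_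
      rintro rfl
      exact hq hq'
    rw [biUnion_insert, bd_union hdis, hb q (mem_insert_self _ _),
      ih (fun a ha b hb => hd a (mem_insert_of_mem ha) b (mem_insert_of_mem hb))
        (fun a ha => hb a (mem_insert_of_mem ha)), insert_eq,
      bd_union (disjoint_singleton_left.2 hq), bd_singleton]

end N2Aux

open N2Aux N0Aux

theorem comp_of_partition {q0 : Quad} {N K : Finset Quad} {P : Quad → Finset Quad}
    (hN : Part q0 N) (hq : ∀ q ∈ K, IsQ q) (hb : ∀ q ∈ K, bd (P q) = ed q)
    (hd : ∀ q ∈ K, ∀ q' ∈ K, q ≠ q' → Disjoint (P q) (P q')) (hu : glue K P = N) :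
    Comp q0 K P := by
  classical
  have hPN : ∀ q ∈ K, P q ⊆ N := by
    intro q hqK
    rw [← hu]
    exact subset_biUnion_of_mem P hqK
  have hpart : ∀ q ∈ K, Part q (P q) := fun q hqK => hN.region (hPN q hqK) (hq q hqK) (hb q hqK)
  have hbd : ∀ X ⊆ K, bd (glue X P) = bd X := fun X hX =>
    bd_glue X (fun a ha b hb' => hd a (hX ha) b (hX hb')) (fun a ha => hb a (hX ha))
  have hdg : ∀ e, ∑ q ∈ K, dg (P q) e = dg N e := by
    intro e
    rw [← dg_glue K hd e, hu]
  have hEd : EdS K ⊆ EdS N := by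
    intro e he
    obtain ⟨q, hqK, heq⟩ := mem_EdS.1 he
    rw [← hb q hqK] at heq
    exact EdS_mono (hPN q hqK) (bd_sub _ heq)
  -- a vertex inside one part is in no other part
  have key : ∀ q ∈ K, ∀ q' ∈ K, q' ≠ q → ∀ y ∈ iv q (P q), y ∉ vt (P q') := by
    intro q hqK q' hq'K hne y hy hy'
    obtain ⟨hy1, hy2⟩ := mem_sdiff.1 hy
    rw [mem_union, not_or] at hy2
    have hdis := hd q hqK q' hq'K hne.symm
    have hwN : ∀ p ∈ K, ∀ z, z ∈ wh (P p) → z ∈ wh N := fun p hp z hz => wh_mono (hPN p hp) hz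
    have hbN : ∀ p ∈ K, ∀ z, z ∈ bl (P p) → z ∈ bl N := fun p hp z hz => bl_mono (hPN p hp) hz
    rcases mem_union.1 hy1 with h1 | h1
    · obtain ⟨r, hr, hyr⟩ := mem_biUnion.1 h1
      have hl := (hN.link_white (hPN q hqK) y ⟨r, hr, hyr⟩ (fun e he he1 => by
        rw [hb q hqK] at he
        exact hy2.1 (he1 ▸ (mem_ed.1 he).1))).1
      rcases mem_union.1 hy' with h2 | h2
      · obtain ⟨r', hr', hyr'⟩ := mem_biUnion.1 h2
        exact disjoint_left.1 hdis (hl r' (hPN q' hq'K hr') hyr') hr'
      · exact disjoint_left.1 hN.col (hwN q hqK y h1) (hbN q' hq'K y h2)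
    · obtain ⟨r, hr, hyr⟩ := mem_biUnion.1 h1
      have hl := (hN.link_black (hPN q hqK) y ⟨r, hr, hyr⟩ (fun e he he1 => by
        rw [hb q hqK] at he
        exact hy2.2 (he1 ▸ (mem_ed.1 he).2))).1
      rcases mem_union.1 hy' with h2 | h2
      · exact disjoint_left.1 hN.col (hwN q' hq'K y h2) (hbN q hqK y h1)
      · obtain ⟨r', hr', hyr'⟩ := mem_biUnion.1 h2
        exact disjoint_left.1 hdis (hl r' (hPN q' hq'K hr') hyr') hr'
  refine ⟨⟨hN.isq, ⟨hq, Subset.refl _, ?_, ?_, ?_⟩, ?_, ?_⟩, hpart, ?_, ?_⟩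
  · intro e
    have h1 : dg K e ≤ ∑ q ∈ K, dg (P q) e := by
      unfold dg
      rw [card_filter]
      refine sum_le_sum fun q hqK => ?_
      by_cases h2 : e ∈ ed q
      · rw [if_pos h2]
        rw [← hb q hqK] at h2
        exact dg_pos.2 (bd_sub _ h2)
      · rw [if_neg h2]
        exact Nat.zero_le _
    rw [hdg e] at h1
    exact h1.trans (hN.ac.two e)
  · intro X hX hbX
    have h1 : glue X P = ∅ := by
      refine hN.ac.inj _ ?_ ?_
      · rw [← hu]
        exact biUnion_subset_biUnion_of_subset_left _ hX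
      · rw [hbd X hX, hbX]
    by_contra h2
    obtain ⟨q, hqX⟩ := nonempty_iff_ne_empty.2 h2
    obtain ⟨r, hr⟩ := (hpart q (hX hqX)).nonempty
    have h3 : r ∈ glue X P := mem_biUnion.2 ⟨q, hqX, hr⟩
    rw [h1] at h3
    exact absurd h3 (notMem_empty _)
  · intro Z hZ hev
    obtain ⟨Y, hY, hYZ⟩ := hN.ac.sur Z (hZ.trans hEd) hev
    -- every part is inside `Y` or disjoint from it
    have hsplit : ∀ q ∈ K, Y ∩ P q = ∅ ∨ Y ∩ P q = P q := by
      intro q hqK
      have hYq : Y ∩ P q ⊆ P q := inter_subset_right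
      have hsub : bd (Y ∩ P q) ⊆ ed q := by
        intro e he
        by_contra hne
        have h1 : e ∈ EdS (P q) := EdS_mono hYq (bd_sub _ he)
        have h2 := (hpart q hqK).dg_two h1 hne
        have h3 := dg_sdiff (hPN q hqK) e
        have h4 := hN.ac.two e
        have h5 : dg (N \ P q) e = 0 := by omega
        have h6 : dg (Y \ P q) e = 0 := by
          have := dg_mono (sdiff_subset_sdiff hY (Subset.refl (P q))) e
          omega
        have h7 : dg Y e = dg (Y ∩ P q) e := by
          have h8 := dg_union (X := Y \ P q) (Y := Y ∩ P q)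
            (disjoint_left.2 fun a ha ha' => (mem_sdiff.1 ha).2 (mem_inter.1 ha').2) e
          rw [sdiff_union_inter] at h8
          omega
        have h9 : e ∈ Z := by
          rw [← hYZ, mem_bd, h7, ← mem_bd]
          exact he
        obtain ⟨q', hq'K, heq'⟩ := mem_EdS.1 (hZ h9)
        have hne' : q ≠ q' := by
          rintro rfl
          exact hne heq'
        rw [← hb q' hq'K] at heq'
        have h10 := dg_pos.2 (bd_sub _ heq')
        have h11 : P q' ⊆ N \ P q := by
          intro r hr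
          exact mem_sdiff.2 ⟨hPN q' hq'K hr, fun h => disjoint_left.1 (hd q hqK q' hq'K hne') h hr⟩
        have h12 := dg_mono h11 e
        omega
      have hev' : Evn (bd (Y ∩ P q)) := Evn_bd fun r hr => hN.ac.isq r (hY (mem_inter.1 hr).1)
      by_cases h0 : bd (Y ∩ P q) = ∅
      · exact Or.inl (hN.ac.inj _ (inter_subset_left.trans hY) h0)
      · right
        have h4 := four_le hev' (nonempty_iff_ne_empty.2 h0)
        have h5 : bd (Y ∩ P q) = ed q :=
          eq_of_subset_of_card_le hsub (by rw [card_ed (hq q hqK)]; exact h4)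
        have h6 : bd (symmDiff (Y ∩ P q) (P q)) = ∅ := by
          rw [bd_symmDiff, h5, hb q hqK]
          exact symmDiff_self _
        have h7 := hN.ac.inj _ (by
          intro r hr
          rcases mem_symmDiff.1 hr with h8 | h8
          · exact hY (mem_inter.1 h8.1).1
          · exact hPN q hqK h8.1) h6
        exact symmDiff_eq_bot.1 h7
    refine ⟨K.filter (fun q => Y ∩ P q = P q), filter_subset _ _, ?_⟩
    rw [← hbd _ (filter_subset _ _), ← hYZ]
    congr 1
    ext y
    constructor
    · intro hy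
      obtain ⟨q, hqX, hyq⟩ := mem_biUnion.1 hy
      have h1 := (mem_filter.1 hqX).2
      rw [← h1] at hyq
      exact (mem_inter.1 hyq).1
    · intro hy
      have h1 : y ∈ glue K P := by rw [hu]; exact hY hy
      obtain ⟨q, hqK, hyq⟩ := mem_biUnion.1 h1
      refine mem_biUnion.2 ⟨q, mem_filter.2 ⟨hqK, ?_⟩, hyq⟩
      rcases hsplit q hqK with h2 | h2
      · exfalso
        have h3 : y ∈ Y ∩ P q := mem_inter.2 ⟨hy, hyq⟩
        rw [h2] at h3
        exact notMem_empty _ h3
      · exact h2
  · rw [← hbd K (Subset.refl _), hu]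
    exact hN.bnd
  · have hw : wh K ⊆ wh N := by
      intro w hw
      obtain ⟨q, hqK, hwq⟩ := mem_biUnion.1 hw
      exact wh_mono (hPN q hqK) ((hpart q hqK).sub_wh hwq)
    have hb' : bl K ⊆ bl N := by
      intro w hw
      obtain ⟨q, hqK, hwq⟩ := mem_biUnion.1 hw
      exact bl_mono (hPN q hqK) ((hpart q hqK).sub_bl hwq)
    exact disjoint_of_subset_left hw (disjoint_of_subset_right hb' hN.col)
  · intro q hqK
    rw [disjoint_left]
    intro y hy hy'
    have hyq := mem_sdiff.1 hy
    rw [mem_union, not_or] at hyq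
    rcases mem_union.1 hy' with h1 | h1
    · obtain ⟨q', hq'K, hyq'⟩ := mem_biUnion.1 h1
      refine key q hqK q' hq'K ?_ y hy (mem_union_left _ ((hpart q' hq'K).sub_wh hyq'))
      rintro rfl
      exact hyq.2.1 hyq'
    · obtain ⟨q', hq'K, hyq'⟩ := mem_biUnion.1 h1
      refine key q hqK q' hq'K ?_ y hy (mem_union_right _ ((hpart q' hq'K).sub_bl hyq'))
      rintro rfl
      exact hyq.2.2 hyq'
  · intro q hqK q' hq'K hne
    rw [disjoint_left]
    intro y hy hy'
    exact key q hqK q' hq'K hne.symm y hy (mem_sdiff.1 hy').1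

end K5M
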