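import Pool.Agent.Lib.K5M.N1
import Pool.Agent.Lib.K5M.N3

/-!
# K5M.N5: two 4-regions = parallel or series; order of the common blacks

`N` is a part at `({w0, w1}, {b0, b1})`.  `Cb N c`: `c` is a common black of the poles, different from the sides.

PROOFS.
`two_cases`: let `X` be as in `Two N`, `bd X = ed q`, `bd (N \ X) = ed q Δ ed q0 = ed q'` (`exists_quad`), so
`#(ed q ∩ ed q0) = 2` (`4 = 4 + 4 - 2 #`).  Two edges of `ed q0 = {w0, w1} × {b0, b1}` without common end, say `(w0, b0)`,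
`(w1, b1)`, force `q.1 = {w0, w1}`, `q.2 = {b0, b1}`, so `ed q = ed q0`, `X = N`: excluded.  So the two common edges share
a vertex: a black one `b0` (or `b1`): `(w0, b0), (w1, b0) ∈ ed q`, so `q.1 = {w0, w1}`, `q.2 = {b0, c}`, `c ≠ b1` (else
`q = q0`); or a white one.
`par_region`: `{w0, w1} × {b0, c}` is even and contained in `EdS N` (`Cb`, and `ed q0 ⊆ EdS N`), so it is `bd X`.
`bd (N \ X) = ed q0 Δ bd X = {w0, w1} × {c, b1}`.
`par_nested`: both regions contain the quad at `(w0, b0)` (it is in `bd X`, `bd X'` and `dg N (w0, b0) = 1`).  By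
`union_four` `bd (X ∪ X')` is `ed q''`; it contains `(w0, b0), (w1, b0)` (the quads at these edges are in `X ∩ X'` and
`dg N = 1`), and `bd (X ∪ X') ⊆ bd X ∪ bd X'`; so `q'' = ({w0, w1}, {b0, c''})` with `c'' ∈ {c, c'}`, and
`X ∪ X' = X` or `= X'` (`inj`).
`ser_not_par`: with `X = X_c`, `Y` the region with `bd Y = {w0, v} × {b0, b1}`: the quad at `(w0, b0)` is in
`X ∩ Y`; the quad at `(w1, b0)` is in `X`, not in `Y`; the quad at `(w0, b1)` is in `Y`, not in `X` (`dg N = 1` for these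
three edges).  `bd (X ∩ Y)` is `ed` of a quad, contained in `bd X ∪ bd Y`, contains `(w0, b0)`, not `(w1, b0)`, not
`(w0, b1)`.  Its second edge at `w0` is `(w0, c)`, its second edge at `b0` is `(v, b0)`, so it contains `(v, c)`, which is
not in `bd X ∪ bd Y`: contradiction.
-/

set_option autoImplicit false

namespace K5M

open Finset

/-- `c` is a common black vertex of the poles, different from the two sides. -/
def Cb (w0 w1 b0 b1 : ℕ) (N : Finset Quad) (c : ℕ) : Prop :=
  c ≠ b0 ∧ c ≠ b1 ∧ (w0, c) ∈ EdS N ∧ (w1, c) ∈ EdS N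

/-- `v` is a common white vertex of the sides, different from the two poles. -/
def Cw (w0 w1 b0 b1 : ℕ) (N : Finset Quad) (v : ℕ) : Prop :=
  v ≠ w0 ∧ v ≠ w1 ∧ (v, b0) ∈ EdS N ∧ (v, b1) ∈ EdS N

namespace N5Aux

/-! ### Exchange of the colours -/

/-- Exchange of the colours. -/
def sN (N : Finset Quad) : Finset Quad := N.image Prod.swap

lemma mem_sN {N : Finset Quad} {q : Quad} : q ∈ sN N ↔ q.swap ∈ N := by
  unfold sN
  rw [Finset.mem_image]
  constructor
  · rintro ⟨r, hr, rfl⟩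
    rwa [Prod.swap_swap]
  · intro h
    exact ⟨q.swap, h, Prod.swap_swap q⟩

lemma sN_sN (N : Finset Quad) : sN (sN N) = N := by
  ext q
  rw [mem_sN, mem_sN, Prod.swap_swap]

lemma sN_sdiff (N X : Finset Quad) : sN (N \ X) = sN N \ sN X := by
  ext q
  simp only [mem_sN, Finset.mem_sdiff]

lemma sN_union (N X : Finset Quad) : sN (N ∪ X) = sN N ∪ sN X := by
  ext q
  simp only [mem_sN, Finset.mem_union]

lemma sN_sub {X N : Finset Quad} (h : X ⊆ N) : sN X ⊆ sN N := Finset.image_subset_image h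

lemma sN_empty : sN ∅ = ∅ := rfl

lemma mem_ed_swap {q : Quad} {e : Ed} : e ∈ ed q.swap ↔ e.swap ∈ ed q := by
  rw [mem_ed, mem_ed]
  exact and_comm

lemma dg_sN (N : Finset Quad) (e : Ed) : dg (sN N) e = dg N e.swap := by
  unfold dg
  refine Finset.card_bij (fun q _ => q.swap) ?_ ?_ ?_
  · intro q hq
    rw [Finset.mem_filter, mem_sN] at hq
    rw [Finset.mem_filter]
    refine ⟨hq.1, ?_⟩
    rw [mem_ed_swap, Prod.swap_swap]
    exact hq.2
  · intro q _ q' _ h
    exact Prod.swap_injective h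
  · intro q hq
    rw [Finset.mem_filter] at hq
    refine ⟨q.swap, ?_, Prod.swap_swap q⟩
    rw [Finset.mem_filter, mem_sN, Prod.swap_swap, mem_ed_swap]
    exact hq

lemma mem_EdS_sN {N : Finset Quad} {e : Ed} : e ∈ EdS (sN N) ↔ e.swap ∈ EdS N := by
  rw [← dg_pos, ← dg_pos, dg_sN]

lemma mem_bd_sN {N : Finset Quad} {e : Ed} : e ∈ bd (sN N) ↔ e.swap ∈ bd N := by
  rw [mem_bd, mem_bd, dg_sN]

lemma bd_sN (N : Finset Quad) : bd (sN N) = (bd N).image Prod.swap := by
  ext e
  rw [mem_bd_sN, Finset.mem_image]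
  constructor
  · intro h
    exact ⟨e.swap, h, Prod.swap_swap e⟩
  · rintro ⟨r, hr, rfl⟩
    rwa [Prod.swap_swap]

lemma card_bd_sN (N : Finset Quad) : (bd (sN N)).card = (bd N).card := by
  rw [bd_sN, Finset.card_image_of_injective _ Prod.swap_injective]

lemma mem_wh {N : Finset Quad} {y : ℕ} : y ∈ wh N ↔ ∃ q ∈ N, y ∈ q.1 := by
  unfold wh
  exact Finset.mem_biUnion

lemma mem_bl {N : Finset Quad} {y : ℕ} : y ∈ bl N ↔ ∃ q ∈ N, y ∈ q.2 := by
  unfold bl
  exact Finset.mem_biUnion

lemma wh_sN (N : Finset Quad) : wh (sN N) = bl N := by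
  ext y
  rw [mem_wh, mem_bl]
  constructor
  · rintro ⟨q, hq, hy⟩
    exact ⟨q.swap, mem_sN.1 hq, hy⟩
  · rintro ⟨q, hq, hy⟩
    refine ⟨q.swap, ?_, hy⟩
    rw [mem_sN, Prod.swap_swap]
    exact hq

lemma bl_sN (N : Finset Quad) : bl (sN N) = wh N := by
  rw [← wh_sN, sN_sN]

lemma vt_sN (N : Finset Quad) : vt (sN N) = vt N := by
  unfold vt
  rw [wh_sN, bl_sN, Finset.union_comm]

lemma Evn_swap {Z : Finset Ed} (h : Evn Z) : Evn (Z.image Prod.swap) := by
  constructor
  · intro w
    rw [Finset.filter_image, Finset.card_image_of_injective _ Prod.swap_injective]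
    exact h.2 w
  · intro w
    rw [Finset.filter_image, Finset.card_image_of_injective _ Prod.swap_injective]
    exact h.1 w

lemma AC_sN {N : Finset Quad} (h : AC (EdS N) N) : AC (EdS (sN N)) (sN N) where
  isq := by
    intro q hq
    have := h.isq _ (mem_sN.1 hq)
    exact ⟨this.2, this.1⟩
  sub := Finset.Subset.refl _
  two := by
    intro e
    rw [dg_sN]
    exact h.two _
  inj := by
    intro X hX hb
    have h1 : sN X = ∅ := by
      refine h.inj (sN X) ?_ ?_
      · have := sN_sub hX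
        rwa [sN_sN] at this
      · rw [bd_sN, hb]
        rfl
    rw [← sN_sN X, h1]
    rfl
  sur := by
    intro Z hZ hE
    obtain ⟨Y, hY, hb⟩ := h.sur (Z.image Prod.swap) (by
      intro e he
      rw [Finset.mem_image] at he
      obtain ⟨r, hr, rfl⟩ := he
      exact mem_EdS_sN.1 (hZ hr)) (Evn_swap hE)
    refine ⟨sN Y, sN_sub hY, ?_⟩
    rw [bd_sN, hb, Finset.image_image]
    simp

lemma Net_sN {w0 w1 b0 b1 : ℕ} {N : Finset Quad} (h : Net w0 w1 b0 b1 N) :
    Net b0 b1 w0 w1 (sN N) where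
  wne := h.bne
  bne := h.wne
  ac := AC_sN h.ac
  bnd := by
    ext e
    rw [mem_bd_sN, h.bnd, mem_ed, mem_ed]
    exact and_comm
  col := by
    rw [wh_sN, bl_sN]
    exact h.col.symm

lemma Net_sN' {w0 w1 b0 b1 : ℕ} {N : Finset Quad} (h : Net b0 b1 w0 w1 (sN N)) :
    Net w0 w1 b0 b1 N := by
  have := Net_sN h
  rwa [sN_sN] at this

lemma Cw_sN {w0 w1 b0 b1 v : ℕ} {N : Finset Quad} (h : Cw w0 w1 b0 b1 N v) :
    Cb b0 b1 w0 w1 (sN N) v :=
  ⟨h.1, h.2.1, mem_EdS_sN.2 h.2.2.1, mem_EdS_sN.2 h.2.2.2⟩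

lemma Cw_of {w0 w1 b0 b1 v : ℕ} {N : Finset Quad} (h : Cb b0 b1 w0 w1 (sN N) v) :
    Cw w0 w1 b0 b1 N v :=
  ⟨h.1, h.2.1, mem_EdS_sN.1 h.2.2.1, mem_EdS_sN.1 h.2.2.2⟩

/-! ### Boundaries -/

lemma dg_ui (X Y : Finset Quad) (e : Ed) : dg (X ∪ Y) e + dg (X ∩ Y) e = dg X e + dg Y e := by
  unfold dg
  rw [Finset.filter_union, Finset.filter_inter_distrib, Finset.card_union_add_card_inter]

lemma bd_union_sub {N X Y : Finset Quad} (h2 : ∀ e, dg N e ≤ 2) (hX : X ⊆ N) (hY : Y ⊆ N) :
    bd (X ∪ Y) ⊆ bd X ∪ bd Y := by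
  intro e he
  rw [Finset.mem_union, mem_bd, mem_bd]
  rw [mem_bd] at he
  have h1 := dg_ui X Y e
  have h3 := dg_mono (Finset.union_subset hX hY) e
  have h4 := h2 e
  have h5 := dg_mono (Finset.inter_subset_left : X ∩ Y ⊆ X) e
  have h6 := dg_mono (Finset.inter_subset_right : X ∩ Y ⊆ Y) e
  rw [Nat.odd_iff] at he ⊢
  rw [Nat.odd_iff]
  omega

lemma bd_inter_sub {N X Y : Finset Quad} (h2 : ∀ e, dg N e ≤ 2) (hX : X ⊆ N) (hY : Y ⊆ N) :
    bd (X ∩ Y) ⊆ bd X ∪ bd Y := by
  intro e he
  rw [Finset.mem_union, mem_bd, mem_bd]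
  rw [mem_bd] at he
  have h1 := dg_ui X Y e
  have h3 := dg_mono (Finset.union_subset hX hY) e
  have h4 := h2 e
  have h5 := dg_mono (Finset.inter_subset_left : X ∩ Y ⊆ X) e
  have h6 := dg_mono (Finset.inter_subset_right : X ∩ Y ⊆ Y) e
  rw [Nat.odd_iff] at he ⊢
  rw [Nat.odd_iff]
  omega

lemma bd_inj {E : Finset Ed} {N X Y : Finset Quad} (h : AC E N) (hX : X ⊆ N) (hY : Y ⊆ N)
    (hb : bd X = bd Y) : X = Y := by
  have h1 : symmDiff X Y = ∅ := by
    refine h.inj _ ?_ ?_
    · intro q hq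
      rw [Finset.mem_symmDiff] at hq
      rcases hq with hq | hq
      · exact hX hq.1
      · exact hY hq.1
    · rw [bd_symmDiff, hb, symmDiff_self]
      rfl
  exact symmDiff_eq_bot.1 h1

lemma pair_isq {w0 w1 b c : ℕ} (hw : w0 ≠ w1) (hb : b ≠ c) : IsQ ({w0, w1}, {b, c}) :=
  ⟨Finset.card_pair hw, Finset.card_pair hb⟩

lemma symm_par {s : Finset ℕ} {b0 b1 c : ℕ} (h01 : b0 ≠ b1) (h0 : b0 ≠ c) (h1 : c ≠ b1) :
    symmDiff (ed (s, {b0, b1})) (ed (s, {b0, c})) = ed (s, {c, b1}) := by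
  ext e
  rw [Finset.mem_symmDiff, mem_ed, mem_ed, mem_ed]
  simp only [Finset.mem_insert, Finset.mem_singleton]
  constructor
  · rintro (⟨⟨h2, h3⟩, h4⟩ | ⟨⟨h2, h3⟩, h4⟩)
    · refine ⟨h2, ?_⟩
      rcases h3 with h3 | h3
      · exact absurd ⟨h2, Or.inl h3⟩ h4
      · exact Or.inr h3
    · refine ⟨h2, ?_⟩
      rcases h3 with h3 | h3
      · exact absurd ⟨h2, Or.inl h3⟩ h4
      · exact Or.inl h3
  · rintro ⟨h2, h3⟩
    rcases h3 with h3 | h3
    · refine Or.inr ⟨⟨h2, Or.inr h3⟩, ?_⟩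
      rintro ⟨_, h5⟩
      rcases h5 with h5 | h5
      · exact h0 (h5.symm.trans h3)
      · exact h1 (h3.symm.trans h5)
    · refine Or.inl ⟨⟨h2, Or.inr h3⟩, ?_⟩
      rintro ⟨_, h5⟩
      rcases h5 with h5 | h5
      · exact h01 (h5.symm.trans h3)
      · exact h1 (h5.symm.trans h3)

/-- The boundary of a region between `b0` and `c` has `c ≠ b0`. -/
lemma ne_of_bd {w0 w1 b0 c : ℕ} {N X : Finset Quad} (hac : AC (EdS N) N) (hX : X ⊆ N)
    (hc : bd X = ed ({w0, w1}, {b0, c})) : b0 ≠ c := by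
  rintro rfl
  have h1 : (bd X).card ≤ 2 := by
    rw [hc]
    unfold ed
    rw [Finset.card_product]
    have h2 : ({w0, w1} : Finset ℕ).card ≤ 2 := Finset.card_le_two
    simpa using h2
  have h3 : (bd X).Nonempty := by
    rw [hc]
    exact ⟨(w0, b0), mem_ed.2 ⟨by simp, by simp⟩⟩
  have h4 := four_le (Evn_bd (fun q hq => hac.isq q (hX hq))) h3
  omega

/-! ### Gluing along two edges -/

lemma card_symm (A B : Finset Ed) (p : Ed → Prop) [DecidablePred p] :
    ((symmDiff A B).filter p).card + 2 * ((A ∩ B).filter p).card =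
      (A.filter p).card + (B.filter p).card := by
  have h1 : (symmDiff A B).filter p = (A \ B).filter p ∪ (B \ A).filter p := by
    ext e
    simp only [Finset.mem_filter, Finset.mem_union, Finset.mem_symmDiff, Finset.mem_sdiff]
    tauto
  have h2 : Disjoint ((A \ B).filter p) ((B \ A).filter p) := by
    rw [Finset.disjoint_left]
    intro e h3 h4
    rw [Finset.mem_filter, Finset.mem_sdiff] at h3 h4
    exact h4.1.2 h3.1.1
  have h3 : (A.filter p).card = ((A \ B).filter p).card + ((A ∩ B).filter p).card := by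
    rw [← Finset.card_union_of_disjoint]
    · congr 1
      ext e
      simp only [Finset.mem_filter, Finset.mem_union, Finset.mem_sdiff, Finset.mem_inter]
      tauto
    · rw [Finset.disjoint_left]
      intro e h3 h4
      rw [Finset.mem_filter, Finset.mem_sdiff] at h3
      rw [Finset.mem_filter, Finset.mem_inter] at h4
      exact h3.1.2 h4.1.2
  have h4 : (B.filter p).card = ((B \ A).filter p).card + ((A ∩ B).filter p).card := by
    rw [← Finset.card_union_of_disjoint]
    · congr 1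
      ext e
      simp only [Finset.mem_filter, Finset.mem_union, Finset.mem_sdiff, Finset.mem_inter]
      tauto
    · rw [Finset.disjoint_left]
      intro e h3 h4
      rw [Finset.mem_filter, Finset.mem_sdiff] at h3
      rw [Finset.mem_filter, Finset.mem_inter] at h4
      exact h3.1.2 h4.1.1
  rw [h1, Finset.card_union_of_disjoint h2, h3, h4]
  ring

lemma fix_join {w0 w1 b0 c : ℕ} (hwne : w0 ≠ w1) (hbc : b0 ≠ c) (Z1 : Finset Ed)
    (hw : ∀ w, w ≠ w0 → w ≠ w1 → Even (Z1.filter (fun e => e.1 = w)).card)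
    (hb : ∀ b, b ≠ c → Even (Z1.filter (fun e => e.2 = b)).card) :
    ∃ P0 : Finset Ed, (∀ e ∈ P0, (e.1 = w0 ∨ e.1 = w1) ∧ e.2 = c) ∧ Evn (symmDiff Z1 P0) := by
  have hq : IsQ ({w0, w1}, {b0, c}) := pair_isq hwne hbc
  obtain ⟨P0, hP0, hE⟩ := four_cycle_fix hq Z1 (by
    intro w h1
    simp only [Finset.mem_insert, Finset.mem_singleton, not_or] at h1
    exact hw w h1.1 h1.2) (by
    intro b h1
    simp only [Finset.mem_insert, Finset.mem_singleton, not_or] at h1
    exact hb b h1.2)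
  have hmem : ∀ e ∈ P0, (e.1 = w0 ∨ e.1 = w1) ∧ (e.2 = b0 ∨ e.2 = c) := by
    intro e he
    have h1 := hP0 he
    rw [mem_ed] at h1
    simp only [Finset.mem_insert, Finset.mem_singleton] at h1
    exact h1
  have hpar : Even (P0.filter (fun e => e.2 = b0)).card := by
    have h1 := hE.2 b0
    have h2 := hb b0 hbc
    have h3 := card_symm Z1 P0 (fun e => e.2 = b0)
    rw [Nat.even_iff] at h1 h2 ⊢
    omega
  by_cases h0 : (w0, b0) ∈ P0
  · have h1 : (w1, b0) ∈ P0 := by
      by_contra hn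
      have h2 : P0.filter (fun e => e.2 = b0) = {(w0, b0)} := by
        ext e
        rw [Finset.mem_filter, Finset.mem_singleton]
        constructor
        · rintro ⟨h3, h4⟩
          obtain ⟨x, y⟩ := e
          have h5 := (hmem _ h3).1
          simp only at h4 h5
          subst h4
          rcases h5 with h5 | h5
          · rw [h5]
          · rw [h5] at h3
            exact absurd h3 hn
        · rintro rfl
          exact ⟨h0, rfl⟩
      rw [h2] at hpar
      simp at hpar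
    refine ⟨symmDiff P0 (ed ({w0, w1}, {b0, c})), ?_, ?_⟩
    · intro e he
      rw [Finset.mem_symmDiff] at he
      rcases he with ⟨h2, h3⟩ | ⟨h2, h3⟩
      · exact absurd (hP0 h2) h3
      · rw [mem_ed] at h2
        simp only [Finset.mem_insert, Finset.mem_singleton] at h2
        refine ⟨h2.1, ?_⟩
        rcases h2.2 with h4 | h4
        · exfalso
          apply h3
          obtain ⟨x, y⟩ := e
          simp only at h4 h2
          rw [h4]
          rcases h2.1 with h5 | h5
          · rw [h5]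
            exact h0
          · rw [h5]
            exact h1
        · exact h4
    · rw [← symmDiff_assoc]
      exact Evn_symmDiff hE (Evn_ed hq)
  · have h1 : (w1, b0) ∉ P0 := by
      intro hn
      have h2 : P0.filter (fun e => e.2 = b0) = {(w1, b0)} := by
        ext e
        rw [Finset.mem_filter, Finset.mem_singleton]
        constructor
        · rintro ⟨h3, h4⟩
          obtain ⟨x, y⟩ := e
          have h5 := (hmem _ h3).1
          simp only at h4 h5
          subst h4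
          rcases h5 with h5 | h5
          · rw [h5] at h3
            exact absurd h3 h0
          · rw [h5]
        · rintro rfl
          exact ⟨hn, rfl⟩
      rw [h2] at hpar
      simp at hpar
    refine ⟨P0, ?_, hE⟩
    intro e he
    obtain ⟨h2, h3⟩ := hmem e he
    refine ⟨h2, ?_⟩
    rcases h3 with h3 | h3
    · exfalso
      obtain ⟨x, y⟩ := e
      simp only at h2 h3
      rw [h3] at he
      rcases h2 with h2 | h2
      · rw [h2] at he
        exact h0 he
      · rw [h2] at he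
        exact h1 he
    · exact h3

lemma EdS_vt {N : Finset Quad} {e : Ed} (h : e ∈ EdS N) : e.1 ∈ wh N ∧ e.2 ∈ bl N := by
  rw [mem_EdS] at h
  obtain ⟨q, hq, he⟩ := h
  rw [mem_ed] at he
  exact ⟨mem_wh.2 ⟨q, hq, he.1⟩, mem_bl.2 ⟨q, hq, he.2⟩⟩

lemma wh_union (X Y : Finset Quad) : wh (X ∪ Y) = wh X ∪ wh Y := by
  unfold wh
  exact Finset.union_biUnion

lemma bl_union (X Y : Finset Quad) : bl (X ∪ Y) = bl X ∪ bl Y := by
  unfold bl
  exact Finset.union_biUnion

end N5Aux

open N5Aux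

variable {w0 w1 b0 b1 : ℕ} {N : Finset Quad}

/-- The region between `b0` and a common black vertex. -/
theorem par_region (h : Net w0 w1 b0 b1 N) {c : ℕ} (hc : Cb w0 w1 b0 b1 N c) :
    ∃ X ⊆ N, Net w0 w1 b0 c X ∧ Net w0 w1 c b1 (N \ X) ∧
      vt X ∩ vt (N \ X) = {w0, w1, c} := by
  obtain ⟨hc0, hc1, he0, he1⟩ := hc
  have hP := (net_iff_part.1 h).2.2
  have hq : IsQ ({w0, w1}, {b0, c}) := pair_isq h.wne hc0.symm
  have hq' : IsQ ({w0, w1}, {c, b1}) := pair_isq h.wne hc1
  have hsub : ed ({w0, w1}, {b0, c}) ⊆ EdS N := by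
    have h0 : ∀ w, w ∈ ({w0, w1} : Finset ℕ) → (w, b0) ∈ EdS N := by
      intro w hw
      apply bd_sub N
      rw [h.bnd]
      exact mem_ed.2 ⟨hw, by simp⟩
    intro e he
    rw [mem_ed] at he
    obtain ⟨h1, h2⟩ := he
    obtain ⟨x, y⟩ := e
    simp only [Finset.mem_insert, Finset.mem_singleton] at h1 h2
    rcases h2 with rfl | rfl
    · exact h0 x (by simpa using h1)
    · rcases h1 with rfl | rfl
      · exact he0
      · exact he1
  obtain ⟨X, hX, hb⟩ := h.ac.sur _ hsub (Evn_ed hq)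
  have hb' : bd (N \ X) = ed ({w0, w1}, {c, b1}) := by
    rw [bd_sdiff hX, h.bnd, hb]
    exact symm_par h.bne hc0.symm hc1
  have hX1 : Part ({w0, w1}, {b0, c}) X := hP.region hX hq hb
  have hX2 : Part ({w0, w1}, {c, b1}) (N \ X) := hP.region Finset.sdiff_subset hq' hb'
  refine ⟨X, hX, net_iff_part.2 ⟨h.wne, hc0.symm, hX1⟩, net_iff_part.2 ⟨h.wne, hc1, hX2⟩, ?_⟩
  ext y
  constructor
  · intro hy
    rw [Finset.mem_inter] at hy
    unfold vt at hy
    rw [Finset.mem_union, Finset.mem_union, mem_wh, mem_bl, mem_wh, mem_bl] at hy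
    obtain ⟨h1, h2⟩ := hy
    have hcol : ∀ r ∈ N, ∀ r' ∈ N, y ∈ r.1 → y ∈ r'.2 → False := by
      intro r hr r' hr' h3 h4
      exact Finset.disjoint_left.1 h.col (mem_wh.2 ⟨r, hr, h3⟩) (mem_bl.2 ⟨r', hr', h4⟩)
    rcases h1 with ⟨r, hr, h1⟩ | ⟨r, hr, h1⟩
    · rcases h2 with ⟨r', hr', h2⟩ | ⟨r', hr', h2⟩
      · by_contra hy
        simp only [Finset.mem_insert, Finset.mem_singleton, not_or] at hy
        have h3 := (hP.link_white hX y ⟨r, hr, h1⟩ (by
          intro e he h4
          rw [hb, mem_ed] at he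
          have h5 := he.1
          simp only [Finset.mem_insert, Finset.mem_singleton] at h5
          rw [h4] at h5
          rcases h5 with h5 | h5
          · exact hy.1 h5
          · exact hy.2.1 h5)).1 r' (Finset.mem_sdiff.1 hr').1 h2
        exact (Finset.mem_sdiff.1 hr').2 h3
      · exact (hcol r (hX hr) r' (Finset.mem_sdiff.1 hr').1 h1 h2).elim
    · rcases h2 with ⟨r', hr', h2⟩ | ⟨r', hr', h2⟩
      · exact (hcol r' (Finset.mem_sdiff.1 hr').1 r (hX hr) h2 h1).elim
      · by_cases hyb : y = b0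
        · have h3 := (hP.link_black (X := N \ X) Finset.sdiff_subset y ⟨r', hr', h2⟩ (by
            intro e he h4
            rw [hb', mem_ed] at he
            have h5 := he.2
            simp only [Finset.mem_insert, Finset.mem_singleton] at h5
            rw [h4, hyb] at h5
            rcases h5 with h5 | h5
            · exact hc0 h5.symm
            · exact h.bne h5)).2
          exfalso
          apply h3
          rw [hyb]
          simp
        · by_contra hy
          simp only [Finset.mem_insert, Finset.mem_singleton, not_or] at hy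
          have h3 := (hP.link_black hX y ⟨r, hr, h1⟩ (by
            intro e he h4
            rw [hb, mem_ed] at he
            have h5 := he.2
            simp only [Finset.mem_insert, Finset.mem_singleton] at h5
            rw [h4] at h5
            rcases h5 with h5 | h5
            · exact hyb h5
            · exact hy.2.2 h5)).1 r' (Finset.mem_sdiff.1 hr').1 h2
          exact (Finset.mem_sdiff.1 hr').2 h3
  · intro hy
    simp only [Finset.mem_insert, Finset.mem_singleton] at hy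
    rw [Finset.mem_inter]
    unfold vt
    rw [Finset.mem_union, Finset.mem_union]
    rcases hy with rfl | rfl | rfl
    · exact ⟨Or.inl (hX1.sub_wh (by simp)), Or.inl (hX2.sub_wh (by simp))⟩
    · exact ⟨Or.inl (hX1.sub_wh (by simp)), Or.inl (hX2.sub_wh (by simp))⟩
    · exact ⟨Or.inr (hX1.sub_bl (by simp)), Or.inr (hX2.sub_bl (by simp))⟩

theorem ser_region (h : Net w0 w1 b0 b1 N) {v : ℕ} (hc : Cw w0 w1 b0 b1 N v) :
    ∃ X ⊆ N, Net w0 v b0 b1 X ∧ Net v w1 b0 b1 (N \ X) ∧
      vt X ∩ vt (N \ X) = {v, b0, b1} := by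
  obtain ⟨X, hX, h1, h2, h3⟩ := par_region (Net_sN h) (Cw_sN hc)
  refine ⟨sN X, ?_, Net_sN h1, ?_, ?_⟩
  · have := sN_sub hX
    rwa [sN_sN] at this
  · have := Net_sN h2
    rwa [sN_sdiff, sN_sN] at this
  · have h4 : N \ sN X = sN (sN N \ X) := by rw [sN_sdiff, sN_sN]
    rw [h4, vt_sN, vt_sN, h3]
    ext y
    simp only [Finset.mem_insert, Finset.mem_singleton]
    tauto

theorem two_iff (h : Net w0 w1 b0 b1 N) :
    Two N ↔ (∃ c, Cb w0 w1 b0 b1 N c) ∨ ∃ v, Cw w0 w1 b0 b1 N v := by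
  have key : ∀ X ⊆ N, ∀ q q' : Quad, IsQ q → IsQ q' → bd X = ed q → bd (N \ X) = ed q' → Two N := by
    intro X hX q q' hq hq' h1 h2
    refine ⟨X, hX, ?_, ?_, ?_, ?_⟩
    · rintro rfl
      rw [bd_empty] at h1
      have := card_ed hq
      rw [← h1] at this
      simp at this
    · rintro rfl
      rw [Finset.sdiff_self, bd_empty] at h2
      have := card_ed hq'
      rw [← h2] at this
      simp at this
    · rw [h1]
      exact card_ed hq
    · rw [h2]
      exact card_ed hq'
  constructor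
  · rintro ⟨X, hX, _, _, h4, h4'⟩
    obtain ⟨q, hq, hb⟩ := exists_quad (Evn_bd (fun q hq => h.ac.isq q (hX hq))) h4
    have h0 : IsQ ({w0, w1}, {b0, b1}) := pair_isq h.wne h.bne
    have h1 : (ed ({w0, w1}, {b0, b1}) ∩ ed q).card = 2 := by
      have h2 : (symmDiff (ed ({w0, w1}, {b0, b1})) (ed q)).card = 4 := by
        rw [hb, ← h.bnd, ← bd_sdiff hX]
        exact h4'
      have h5 : symmDiff (ed ({w0, w1}, {b0, b1})) (ed q) =
          (ed ({w0, w1}, {b0, b1}) \ ed q) ∪ (ed q \ ed ({w0, w1}, {b0, b1})) := rfl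
      rw [h5, Finset.card_union_of_disjoint (by
        rw [Finset.disjoint_left]
        intro e h6 h7
        exact (Finset.mem_sdiff.1 h7).2 (Finset.mem_sdiff.1 h6).1)] at h2
      have h6 := Finset.card_sdiff_add_card_inter (ed ({w0, w1}, {b0, b1})) (ed q)
      have h7 := Finset.card_sdiff_add_card_inter (ed q) (ed ({w0, w1}, {b0, b1}))
      rw [card_ed h0] at h6
      rw [card_ed hq, Finset.inter_comm] at h7
      omega
    have h2 : ed ({w0, w1}, {b0, b1}) ∩ ed q = (({w0, w1} : Finset ℕ) ∩ q.1) ×ˢ (({b0, b1} : Finset ℕ) ∩ q.2) := by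
      ext e
      rw [Finset.mem_inter, mem_ed, mem_ed, Finset.mem_product, Finset.mem_inter, Finset.mem_inter]
      tauto
    rw [h2, Finset.card_product] at h1
    have hbX : ∀ e ∈ ed q, e ∈ EdS N := by
      intro e he
      rw [hb] at he
      exact EdS_mono hX (bd_sub X he)
    have hcw : (({w0, w1} : Finset ℕ) ∩ q.1).card ≤ 2 := (Finset.card_le_card Finset.inter_subset_right).trans hq.1.le
    have hcb : (({b0, b1} : Finset ℕ) ∩ q.2).card ≤ 2 := (Finset.card_le_card Finset.inter_subset_right).trans hq.2.le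
    rcases Nat.lt_or_ge (({w0, w1} : Finset ℕ) ∩ q.1).card 2 with h3 | h3
    · -- one common white
      right
      have h5 : (({w0, w1} : Finset ℕ) ∩ q.1).card = 1 := by
        have : (({w0, w1} : Finset ℕ) ∩ q.1).card ≠ 0 := by
          intro h6
          rw [h6] at h1
          omega
        omega
      rw [h5, one_mul] at h1
      have h6 : ({b0, b1} : Finset ℕ) ∩ q.2 = {b0, b1} :=
        Finset.eq_of_subset_of_card_le Finset.inter_subset_left (by rw [h1]; exact Finset.card_le_two)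
      have h7 : ({b0, b1} : Finset ℕ) ⊆ q.2 := Finset.inter_eq_left.1 h6
      obtain ⟨v, hv⟩ : (q.1 \ {w0, w1}).Nonempty := by
        rw [← Finset.card_pos]
        have h8 := Finset.card_sdiff_add_card_inter q.1 ({w0, w1} : Finset ℕ)
        rw [Finset.inter_comm, h5, hq.1] at h8
        omega
      rw [Finset.mem_sdiff] at hv
      simp only [Finset.mem_insert, Finset.mem_singleton, not_or] at hv
      exact ⟨v, hv.2.1, hv.2.2, hbX _ (mem_ed.2 ⟨hv.1, h7 (by simp)⟩), hbX _ (mem_ed.2 ⟨hv.1, h7 (by simp)⟩)⟩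
    · left
      have h5 : (({w0, w1} : Finset ℕ) ∩ q.1).card = 2 := le_antisymm hcw h3
      rw [h5] at h1
      have h9 : (({b0, b1} : Finset ℕ) ∩ q.2).card = 1 := by omega
      have h6 : ({w0, w1} : Finset ℕ) ∩ q.1 = {w0, w1} :=
        Finset.eq_of_subset_of_card_le Finset.inter_subset_left (by rw [h5]; exact Finset.card_le_two)
      have h7 : ({w0, w1} : Finset ℕ) ⊆ q.1 := Finset.inter_eq_left.1 h6
      obtain ⟨c, hc⟩ : (q.2 \ {b0, b1}).Nonempty := by
        rw [← Finset.card_pos]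
        have h8 := Finset.card_sdiff_add_card_inter q.2 ({b0, b1} : Finset ℕ)
        rw [Finset.inter_comm, h9, hq.2] at h8
        omega
      rw [Finset.mem_sdiff] at hc
      simp only [Finset.mem_insert, Finset.mem_singleton, not_or] at hc
      exact ⟨c, hc.2.1, hc.2.2, hbX _ (mem_ed.2 ⟨h7 (by simp), hc.1⟩), hbX _ (mem_ed.2 ⟨h7 (by simp), hc.1⟩)⟩
  · rintro (⟨c, hc⟩ | ⟨v, hv⟩)
    · obtain ⟨X, hX, h1, h2, _⟩ := par_region h hc
      exact key X hX _ _ (pair_isq h1.wne h1.bne) (pair_isq h2.wne h2.bne) h1.bnd h2.bnd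
    · obtain ⟨X, hX, h1, h2, _⟩ := ser_region h hv
      exact key X hX _ _ (pair_isq h1.wne h1.bne) (pair_isq h2.wne h2.bne) h1.bnd h2.bnd

theorem par_nested (h : Net w0 w1 b0 b1 N) {c c' : ℕ} {X X' : Finset Quad} (hX : X ⊆ N)
    (hX' : X' ⊆ N) (hc : bd X = ed ({w0, w1}, {b0, c})) (hc' : bd X' = ed ({w0, w1}, {b0, c'})) :
    X ⊆ X' ∨ X' ⊆ X := by
  have hP := (net_iff_part.1 h).2.2
  have hbc := ne_of_bd h.ac hX hc
  have hbc' := ne_of_bd h.ac hX' hc'
  have hq : IsQ ({w0, w1}, {b0, c}) := pair_isq h.wne hbc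
  have hq' : IsQ ({w0, w1}, {b0, c'}) := pair_isq h.wne hbc'
  have hd : ∀ w ∈ ({w0, w1} : Finset ℕ), dg (X ∩ X') (w, b0) = 1 ∧ dg (X ∪ X') (w, b0) = 1 := by
    intro w hw
    have h1 : dg N (w, b0) = 1 := hP.dg_one (mem_ed.2 ⟨hw, by simp⟩)
    have h2 : Odd (dg X (w, b0)) := mem_bd.1 (by rw [hc]; exact mem_ed.2 ⟨hw, by simp⟩)
    have h3 : Odd (dg X' (w, b0)) := mem_bd.1 (by rw [hc']; exact mem_ed.2 ⟨hw, by simp⟩)
    have h4 := dg_mono hX (w, b0)
    have h5 := dg_mono hX' (w, b0)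
    have h6 := dg_mono (Finset.union_subset hX hX') (w, b0)
    have h7 := dg_ui X X' (w, b0)
    have h8 := dg_mono (Finset.inter_subset_left : X ∩ X' ⊆ X) (w, b0)
    rw [Nat.odd_iff] at h2 h3
    omega
  have hne : (X ∩ X').Nonempty := by
    rw [Finset.nonempty_iff_ne_empty]
    intro h0
    have h1 := (hd w0 (by simp)).1
    rw [h0] at h1
    simp [dg] at h1
  obtain ⟨h4, _⟩ := h.ac.union_four hX hX' (by rw [hc]; exact card_ed hq) (by rw [hc']; exact card_ed hq') hne
  have hsub := Finset.union_subset hX hX'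
  obtain ⟨q, hq2, hb⟩ := exists_quad (Evn_bd (fun q hq => h.ac.isq q (hsub hq))) h4
  have hwb : ∀ w ∈ ({w0, w1} : Finset ℕ), w ∈ q.1 ∧ b0 ∈ q.2 := by
    intro w hw
    have h1 : (w, b0) ∈ ed q := by
      rw [hb, mem_bd, (hd w hw).2]
      exact odd_one
    exact mem_ed.1 h1
  have hq1 : q.1 = {w0, w1} := by
    symm
    refine Finset.eq_of_subset_of_card_le (fun w hw => (hwb w hw).1) ?_
    rw [hq2.1, Finset.card_pair h.wne]
  have hb0 : b0 ∈ q.2 := (hwb w0 (by simp)).2
  have hs : ∀ x ∈ q.2, x = b0 ∨ x = c ∨ x = c' := by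
    intro x hx
    have h1 : (w0, x) ∈ bd X ∪ bd X' := by
      apply bd_union_sub h.ac.two hX hX'
      rw [← hb, mem_ed]
      exact ⟨by rw [hq1]; simp, hx⟩
    rw [Finset.mem_union, hc, hc', mem_ed, mem_ed] at h1
    simp only [Finset.mem_insert, Finset.mem_singleton] at h1
    tauto
  obtain ⟨x, hx, hxb⟩ : ∃ x ∈ q.2, x ≠ b0 := Finset.exists_mem_ne (by rw [hq2.2]; omega) b0
  have hq3 : q.2 = {b0, x} := by
    symm
    refine Finset.eq_of_subset_of_card_le ?_ ?_
    · intro y hy
      simp only [Finset.mem_insert, Finset.mem_singleton] at hy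
      rcases hy with rfl | rfl
      · exact hb0
      · exact hx
    · rw [hq2.2, Finset.card_pair hxb.symm]
  have hq4 : q = ({w0, w1}, {b0, x}) := Prod.ext hq1 hq3
  rcases hs x hx with h1 | h1 | h1
  · exact absurd h1 hxb
  · right
    have h2 : X ∪ X' = X := by
      refine bd_inj h.ac hsub hX ?_
      rw [← hb, hq4, h1, hc]
    exact Finset.union_eq_left.1 h2
  · left
    have h2 : X ∪ X' = X' := by
      refine bd_inj h.ac hsub hX' ?_
      rw [← hb, hq4, h1, hc']
    exact Finset.union_eq_right.1 h2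

/-- The common black vertices of the region between `b0` and `c`. -/
theorem par_sub (h : Net w0 w1 b0 b1 N) {c : ℕ} {X : Finset Quad} (hX : X ⊆ N)
    (hc : bd X = ed ({w0, w1}, {b0, c})) {c' : ℕ} (hc' : Cb w0 w1 b0 c X c') :
    Cb w0 w1 b0 b1 N c' ∧ ∃ X' ⊆ N, bd X' = ed ({w0, w1}, {b0, c'}) ∧ X' ⊂ X := by
  have hP := (net_iff_part.1 h).2.2
  have hbc := ne_of_bd h.ac hX hc
  have hnX : Net w0 w1 b0 c X :=
    net_iff_part.2 ⟨h.wne, hbc, hP.region hX (pair_isq h.wne hbc) hc⟩
  constructor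
  · refine ⟨hc'.1, ?_, EdS_mono hX hc'.2.2.1, EdS_mono hX hc'.2.2.2⟩
    intro h1
    have h2 : dg N (w0, c') = 1 := hP.dg_one (mem_ed.2 ⟨by simp, by simp [h1]⟩)
    have h3 : 0 < dg X (w0, c') := dg_pos.2 hc'.2.2.1
    have h4 := dg_mono hX (w0, c')
    have h5 : (w0, c') ∈ bd X := by
      rw [mem_bd]
      have : dg X (w0, c') = 1 := by omega
      rw [this]
      exact odd_one
    rw [hc, mem_ed] at h5
    have h6 := h5.2
    simp only [Finset.mem_insert, Finset.mem_singleton] at h6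
    rcases h6 with h6 | h6
    · exact hc'.1 h6
    · exact hc'.2.1 h6
  · obtain ⟨X', hX', h1, h2, _⟩ := par_region hnX hc'
    refine ⟨X', hX'.trans hX, h1.bnd, Finset.ssubset_iff_subset_ne.2 ⟨hX', ?_⟩⟩
    rintro rfl
    have h3 := h2.bnd
    rw [Finset.sdiff_self, bd_empty] at h3
    have h4 := card_ed (pair_isq h2.wne h2.bne)
    rw [← h3] at h4
    simp at h4

theorem par_join {c : ℕ} {N1 N2 : Finset Quad} (h1 : Net w0 w1 b0 c N1) (h2 : Net w0 w1 c b1 N2)
    (hv : vt N1 ∩ vt N2 = {w0, w1, c}) (hb : b0 ≠ b1) :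
    Disjoint N1 N2 ∧ Net w0 w1 b0 b1 (N1 ∪ N2) ∧ Cb w0 w1 b0 b1 (N1 ∪ N2) c := by
  have hP1 := (net_iff_part.1 h1).2.2
  have hP2 := (net_iff_part.1 h2).2.2
  have hV : ∀ y, y ∈ vt N1 → y ∈ vt N2 → y = w0 ∨ y = w1 ∨ y = c := by
    intro y h3 h4
    have h5 : y ∈ ({w0, w1, c} : Finset ℕ) := by
      rw [← hv, Finset.mem_inter]
      exact ⟨h3, h4⟩
    simpa using h5
  have hw1v : ∀ y, y ∈ wh N1 → y ∈ vt N1 := fun y h => Finset.mem_union_left _ h
  have hb1v : ∀ y, y ∈ bl N1 → y ∈ vt N1 := fun y h => Finset.mem_union_right _ h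
  have hw2v : ∀ y, y ∈ wh N2 → y ∈ vt N2 := fun y h => Finset.mem_union_left _ h
  have hb2v : ∀ y, y ∈ bl N2 → y ∈ vt N2 := fun y h => Finset.mem_union_right _ h
  have hc1 : c ∈ bl N1 := hP1.sub_bl (by simp)
  have hc2 : c ∈ bl N2 := hP2.sub_bl (by simp)
  have hw01 : w0 ∈ wh N1 := hP1.sub_wh (by simp)
  have hw11 : w1 ∈ wh N1 := hP1.sub_wh (by simp)
  have hw02 : w0 ∈ wh N2 := hP2.sub_wh (by simp)
  have hw12 : w1 ∈ wh N2 := hP2.sub_wh (by simp)
  -- common white and black vertices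
  have hWW : ∀ y, y ∈ wh N1 → y ∈ wh N2 → y = w0 ∨ y = w1 := by
    intro y h3 h4
    rcases hV y (hw1v y h3) (hw2v y h4) with h5 | h5 | h5
    · exact Or.inl h5
    · exact Or.inr h5
    · exact (Finset.disjoint_left.1 h1.col h3 (by rw [h5]; exact hc1)).elim
  have hBB : ∀ y, y ∈ bl N1 → y ∈ bl N2 → y = c := by
    intro y h3 h4
    rcases hV y (hb1v y h3) (hb2v y h4) with h5 | h5 | h5
    · exact (Finset.disjoint_left.1 h1.col (by rw [h5]; exact hw01) h3).elim
    · exact (Finset.disjoint_left.1 h1.col (by rw [h5]; exact hw11) h3).elim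
    · exact h5
  have hE : ∀ e, e ∈ EdS N1 → e ∈ EdS N2 → (e.1 = w0 ∨ e.1 = w1) ∧ e.2 = c := by
    intro e h3 h4
    exact ⟨hWW _ (EdS_vt h3).1 (EdS_vt h4).1, hBB _ (EdS_vt h3).2 (EdS_vt h4).2⟩
  have hdj : Disjoint N1 N2 := by
    rw [Finset.disjoint_left]
    intro q h3 h4
    have h5 : q.2 ⊆ {c} := by
      intro y hy
      rw [Finset.mem_singleton]
      exact hBB y (mem_bl.2 ⟨q, h3, hy⟩) (mem_bl.2 ⟨q, h4, hy⟩)
    have h6 := Finset.card_le_card h5
    rw [(h1.ac.isq q h3).2, Finset.card_singleton] at h6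
    omega
  have hed : ∀ e : Ed, (e.1 = w0 ∨ e.1 = w1) ∧ e.2 = c →
      e ∈ ed ({w0, w1}, {b0, c}) ∧ e ∈ ed ({w0, w1}, {c, b1}) := by
    rintro e ⟨h3, h4⟩
    rw [mem_ed, mem_ed]
    simp only [Finset.mem_insert, Finset.mem_singleton]
    exact ⟨⟨h3, Or.inr h4⟩, ⟨h3, Or.inl h4⟩⟩
  -- a common boundary is empty
  have hinj : ∀ Y1 Y2 : Finset Quad, bd Y1 = bd Y2 → Y1 ⊆ N1 → Y2 ⊆ N2 → (bd Y1).card ≤ 2 := by
    intro Y1 Y2 h3 h4 h5
    have h6 : bd Y1 ⊆ ({w0, w1} : Finset ℕ) ×ˢ {c} := by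
      intro e he
      have h7 := hE e (EdS_mono h4 (bd_sub _ he)) (EdS_mono h5 (bd_sub _ (by rw [← h3]; exact he)))
      rw [Finset.mem_product]
      simp only [Finset.mem_insert, Finset.mem_singleton]
      exact h7
    refine (Finset.card_le_card h6).trans ?_
    rw [Finset.card_product, Finset.card_singleton, mul_one]
    exact Finset.card_le_two
  have hac : AC (EdS (N1 ∪ N2)) (N1 ∪ N2) := by
    constructor
    · intro q hq
      rw [Finset.mem_union] at hq
      rcases hq with hq | hq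
      · exact h1.ac.isq q hq
      · exact h2.ac.isq q hq
    · exact Finset.Subset.refl _
    · intro e
      rw [dg_union hdj]
      by_cases h3 : e ∈ EdS N1
      · by_cases h4 : e ∈ EdS N2
        · have h5 := hed e (hE e h3 h4)
          rw [hP1.dg_one h5.1, hP2.dg_one h5.2]
        · have h5 : dg N2 e = 0 := by
            have := (dg_pos (N := N2) (e := e)).not.2 h4
            omega
          have := h1.ac.two e
          omega
      · have h5 : dg N1 e = 0 := by
          have := (dg_pos (N := N1) (e := e)).not.2 h3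
          omega
        have := h2.ac.two e
        omega
    · intro Y hY hbd
      have hY12 : Y = (Y ∩ N1) ∪ (Y ∩ N2) := by
        rw [← Finset.inter_union_distrib_left]
        exact (Finset.inter_eq_left.2 hY).symm
      have hYd : Disjoint (Y ∩ N1) (Y ∩ N2) :=
        Finset.disjoint_of_subset_left Finset.inter_subset_right
          (Finset.disjoint_of_subset_right Finset.inter_subset_right hdj)
      have h3 : bd (Y ∩ N1) = bd (Y ∩ N2) := by
        rw [hY12, bd_union hYd] at hbd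
        exact symmDiff_eq_bot.1 hbd
      have h4 : Y ∩ N1 = ∅ := by
        by_contra hne
        have h5 := h1.ac.four_le_bd (X := Y ∩ N1) Finset.inter_subset_right (Finset.nonempty_iff_ne_empty.2 hne)
        have h6 := hinj _ _ h3 Finset.inter_subset_right Finset.inter_subset_right
        omega
      have h5 : Y ∩ N2 = ∅ := by
        by_contra hne
        have h5 := h2.ac.four_le_bd (X := Y ∩ N2) Finset.inter_subset_right (Finset.nonempty_iff_ne_empty.2 hne)
        have h6 := hinj _ _ h3 Finset.inter_subset_right Finset.inter_subset_right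
        rw [h3] at h6
        omega
      rw [hY12, h4, h5]
      rfl
    · intro Z hZ hEZ
      obtain ⟨Z1, hZ1⟩ : ∃ Z1 : Finset Ed, Z1 = Z ∩ EdS N1 := ⟨_, rfl⟩
      have hother : ∀ e ∈ Z, e ∉ EdS N1 → e ∈ EdS N2 := by
        intro e he hn
        have h3 := hZ he
        rw [EdS_union, Finset.mem_union] at h3
        rcases h3 with h3 | h3
        · exact absurd h3 hn
        · exact h3
      obtain ⟨P0, hP0, hE0⟩ := fix_join h1.wne h1.bne Z1 (by
        intro w h3 h4
        by_cases h5 : w ∈ wh N1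
        · have h6 : Z1.filter (fun e => e.1 = w) = Z.filter (fun e => e.1 = w) := by
            ext e
            rw [Finset.mem_filter, Finset.mem_filter, hZ1, Finset.mem_inter]
            constructor
            · rintro ⟨⟨h7, _⟩, h8⟩
              exact ⟨h7, h8⟩
            · rintro ⟨h7, h8⟩
              refine ⟨⟨h7, ?_⟩, h8⟩
              by_contra h9
              have h10 := (EdS_vt (hother e h7 h9)).1
              rw [h8] at h10
              rcases hWW w h5 h10 with h11 | h11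
              · exact h3 h11
              · exact h4 h11
          rw [h6]
          exact hEZ.1 w
        · have h6 : Z1.filter (fun e => e.1 = w) = ∅ := by
            rw [Finset.filter_eq_empty_iff]
            intro e he h7
            rw [hZ1, Finset.mem_inter] at he
            apply h5
            rw [← h7]
            exact (EdS_vt he.2).1
          rw [h6]
          simp) (by
        intro b h3
        by_cases h5 : b ∈ bl N1
        · have h6 : Z1.filter (fun e => e.2 = b) = Z.filter (fun e => e.2 = b) := by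
            ext e
            rw [Finset.mem_filter, Finset.mem_filter, hZ1, Finset.mem_inter]
            constructor
            · rintro ⟨⟨h7, _⟩, h8⟩
              exact ⟨h7, h8⟩
            · rintro ⟨h7, h8⟩
              refine ⟨⟨h7, ?_⟩, h8⟩
              by_contra h9
              have h10 := (EdS_vt (hother e h7 h9)).2
              rw [h8] at h10
              exact h3 (hBB b h5 h10)
          rw [h6]
          exact hEZ.2 b
        · have h6 : Z1.filter (fun e => e.2 = b) = ∅ := by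
            rw [Finset.filter_eq_empty_iff]
            intro e he h7
            rw [hZ1, Finset.mem_inter] at he
            apply h5
            rw [← h7]
            exact (EdS_vt he.2).2
          rw [h6]
          simp)
      obtain ⟨Y1, hY1, hb1⟩ := h1.ac.sur (symmDiff Z1 P0) (by
        intro e he
        rw [Finset.mem_symmDiff] at he
        rcases he with he | he
        · have h3 := he.1
          rw [hZ1, Finset.mem_inter] at h3
          exact h3.2
        · apply bd_sub N1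
          rw [h1.bnd]
          exact (hed e (hP0 e he.1)).1) hE0
      obtain ⟨Y2, hY2, hb2⟩ := h2.ac.sur (symmDiff Z (symmDiff Z1 P0)) (by
        intro e he
        by_cases h3 : e ∈ P0
        · apply bd_sub N2
          rw [h2.bnd]
          exact (hed e (hP0 e h3)).2
        · rw [Finset.mem_symmDiff, Finset.mem_symmDiff] at he
          have h4 : e ∈ Z1 → e ∈ Z := by
            intro h5
            rw [hZ1, Finset.mem_inter] at h5
            exact h5.1
          have h5 : e ∈ Z ∧ e ∉ Z1 := by tauto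
          refine hother e h5.1 ?_
          intro h6
          apply h5.2
          rw [hZ1, Finset.mem_inter]
          exact ⟨h5.1, h6⟩) (Evn_symmDiff hEZ hE0)
      refine ⟨Y1 ∪ Y2, Finset.union_subset_union hY1 hY2, ?_⟩
      have hYd : Disjoint Y1 Y2 :=
        Finset.disjoint_of_subset_left hY1 (Finset.disjoint_of_subset_right hY2 hdj)
      rw [bd_union hYd, hb1, hb2, symmDiff_comm, symmDiff_symmDiff_cancel_right]
  refine ⟨hdj, ⟨h1.wne, hb, hac, ?_, ?_⟩, ?_⟩
  · rw [bd_union hdj, h1.bnd, h2.bnd]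
    ext e
    simp only [Finset.mem_symmDiff, mem_ed, Finset.mem_insert, Finset.mem_singleton]
    have e1 := h1.bne
    have e2 := h2.bne
    have e3 := hb
    have e4 : ¬ (e.2 = b0 ∧ e.2 = c) := fun h => e1 (h.1.symm.trans h.2)
    have e5 : ¬ (e.2 = c ∧ e.2 = b1) := fun h => e2 (h.1.symm.trans h.2)
    have e6 : ¬ (e.2 = b0 ∧ e.2 = b1) := fun h => e3 (h.1.symm.trans h.2)
    tauto
  · rw [wh_union, bl_union, Finset.disjoint_left]
    intro y h3 h4
    rw [Finset.mem_union] at h3 h4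
    rcases h3 with h3 | h3
    · rcases h4 with h4 | h4
      · exact Finset.disjoint_left.1 h1.col h3 h4
      · rcases hV y (hw1v y h3) (hb2v y h4) with h5 | h5 | h5
        · rw [h5] at h4
          exact Finset.disjoint_left.1 h2.col hw02 h4
        · rw [h5] at h4
          exact Finset.disjoint_left.1 h2.col hw12 h4
        · rw [h5] at h3
          exact Finset.disjoint_left.1 h1.col h3 hc1
    · rcases h4 with h4 | h4
      · rcases hV y (hb1v y h4) (hw2v y h3) with h5 | h5 | h5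
        · rw [h5] at h4
          exact Finset.disjoint_left.1 h1.col hw01 h4
        · rw [h5] at h4
          exact Finset.disjoint_left.1 h1.col hw11 h4
        · rw [h5] at h3
          exact Finset.disjoint_left.1 h2.col h3 hc2
      · exact Finset.disjoint_left.1 h2.col h3 h4
  · have hcE : ∀ w, w = w0 ∨ w = w1 → (w, c) ∈ EdS (N1 ∪ N2) := by
      intro w hw
      rw [EdS_union, Finset.mem_union]
      left
      apply bd_sub N1
      rw [h1.bnd]
      exact (hed (w, c) ⟨hw, rfl⟩).1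
    exact ⟨h1.bne.symm, h2.bne, hcE w0 (Or.inl rfl), hcE w1 (Or.inr rfl)⟩

theorem ser_nested (h : Net w0 w1 b0 b1 N) {v v' : ℕ} {X X' : Finset Quad} (hX : X ⊆ N)
    (hX' : X' ⊆ N) (hc : bd X = ed ({w0, v}, {b0, b1})) (hc' : bd X' = ed ({w0, v'}, {b0, b1})) :
    X ⊆ X' ∨ X' ⊆ X := by
  have key : ∀ (Y : Finset Quad) (u : ℕ), bd Y = ed ({w0, u}, {b0, b1}) → bd (sN Y) = ed ({b0, b1}, {w0, u}) := by
    intro Y u hY
    ext e
    rw [mem_bd_sN, hY, mem_ed, mem_ed]
    exact and_comm
  rcases par_nested (Net_sN h) (sN_sub hX) (sN_sub hX') (key X v hc) (key X' v' hc') with h1 | h1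
  · left
    have := sN_sub h1
    rwa [sN_sN, sN_sN] at this
  · right
    have := sN_sub h1
    rwa [sN_sN, sN_sN] at this

theorem ser_join {v : ℕ} {N1 N2 : Finset Quad} (h1 : Net w0 v b0 b1 N1) (h2 : Net v w1 b0 b1 N2)
    (hv : vt N1 ∩ vt N2 = {v, b0, b1}) (hw : w0 ≠ w1) :
    Disjoint N1 N2 ∧ Net w0 w1 b0 b1 (N1 ∪ N2) ∧ Cw w0 w1 b0 b1 (N1 ∪ N2) v := by
  obtain ⟨h3, h4, h5⟩ := par_join (Net_sN h1) (Net_sN h2) (by
    rw [vt_sN, vt_sN, hv]
    ext y
    simp only [Finset.mem_insert, Finset.mem_singleton]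
    tauto) hw
  rw [← sN_union] at h4 h5
  refine ⟨?_, Net_sN' h4, Cw_of h5⟩
  rw [Finset.disjoint_left] at h3 ⊢
  intro q hq hq'
  refine h3 (a := q.swap) ?_ ?_
  · rw [mem_sN, Prod.swap_swap]
    exact hq
  · rw [mem_sN, Prod.swap_swap]
    exact hq'

/-- A network is not both parallel and series. -/
theorem ser_not_par (h : Net w0 w1 b0 b1 N) {c v : ℕ} (hc : Cb w0 w1 b0 b1 N c)
    (hv : Cw w0 w1 b0 b1 N v) : False := by
  have hP := (net_iff_part.1 h).2.2
  obtain ⟨X, hX, hX1, _, _⟩ := par_region h hc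
  obtain ⟨Y, hY, hY1, _, _⟩ := ser_region h hv
  have hbX := hX1.bnd
  have hbY := hY1.bnd
  have hnb : ∀ Z ⊆ N, ∀ e ∈ ed ({w0, w1}, {b0, b1}), dg Z e = if e ∈ bd Z then 1 else 0 := by
    intro Z hZ e he
    have h1 := hP.dg_one he
    have h2 := dg_mono hZ e
    split_ifs with h3
    · rw [mem_bd, Nat.odd_iff] at h3
      omega
    · rw [mem_bd, Nat.odd_iff] at h3
      omega
  have hXY : X ∩ Y ⊆ N := Finset.inter_subset_left.trans hX
  have hcw0 : dg X (w0, b0) = 1 := by
    rw [hnb X hX _ (mem_ed.2 ⟨by simp, by simp⟩), if_pos]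
    rw [hbX]
    exact mem_ed.2 ⟨by simp, by simp⟩
  have hcw1 : dg Y (w0, b0) = 1 := by
    rw [hnb Y hY _ (mem_ed.2 ⟨by simp, by simp⟩), if_pos]
    rw [hbY]
    exact mem_ed.2 ⟨by simp, by simp⟩
  have h00 : dg (X ∩ Y) (w0, b0) = 1 := by
    have h1 := dg_ui X Y (w0, b0)
    have h2 := dg_mono (Finset.union_subset hX hY) (w0, b0)
    have h3 : dg N (w0, b0) = 1 := hP.dg_one (mem_ed.2 ⟨by simp, by simp⟩)
    have h4 := dg_mono (Finset.inter_subset_left : X ∩ Y ⊆ X) (w0, b0)
    omega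
  have h10 : dg (X ∩ Y) (w1, b0) = 0 := by
    have h1 : dg Y (w1, b0) = 0 := by
      rw [hnb Y hY _ (mem_ed.2 ⟨by simp, by simp⟩), if_neg]
      rw [hbY, mem_ed]
      simp only [Finset.mem_insert, Finset.mem_singleton]
      rintro ⟨h2 | h2, _⟩
      · exact h.wne h2.symm
      · exact hv.2.1 h2.symm
    have h4 := dg_mono (Finset.inter_subset_right : X ∩ Y ⊆ Y) (w1, b0)
    omega
  have h01 : dg (X ∩ Y) (w0, b1) = 0 := by
    have h1 : dg X (w0, b1) = 0 := by
      rw [hnb X hX _ (mem_ed.2 ⟨by simp, by simp⟩), if_neg]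
      rw [hbX, mem_ed]
      simp only [Finset.mem_insert, Finset.mem_singleton]
      rintro ⟨_, h2 | h2⟩
      · exact h.bne h2.symm
      · exact hc.2.1 h2.symm
    have h4 := dg_mono (Finset.inter_subset_left : X ∩ Y ⊆ X) (w0, b1)
    omega
  have hne : (X ∩ Y).Nonempty := by
    rw [Finset.nonempty_iff_ne_empty]
    intro h0
    rw [h0] at h00
    simp [dg] at h00
  obtain ⟨_, h4⟩ := h.ac.union_four hX hY (by rw [hbX]; exact card_ed (pair_isq hX1.wne hX1.bne))
    (by rw [hbY]; exact card_ed (pair_isq hY1.wne hY1.bne)) hne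
  obtain ⟨q, hq, hb⟩ := exists_quad (Evn_bd (fun q hq => h.ac.isq q (hXY hq))) h4
  have hs : ∀ e ∈ ed q, e ∈ bd X ∪ bd Y := by
    intro e he
    rw [hb] at he
    exact bd_inter_sub h.ac.two hX hY he
  have h5 : (w0, b0) ∈ ed q := by
    rw [hb, mem_bd, h00]
    exact odd_one
  rw [mem_ed] at h5
  obtain ⟨x, hx, hxw⟩ : ∃ x ∈ q.1, x ≠ w0 := Finset.exists_mem_ne (by rw [hq.1]; omega) w0
  obtain ⟨y, hy, hyb⟩ : ∃ y ∈ q.2, y ≠ b0 := Finset.exists_mem_ne (by rw [hq.2]; omega) b0
  have h6 := hs (w0, y) (mem_ed.2 ⟨h5.1, hy⟩)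
  have h7 := hs (x, b0) (mem_ed.2 ⟨hx, h5.2⟩)
  have h8 := hs (x, y) (mem_ed.2 ⟨hx, hy⟩)
  have h9 : y ≠ b1 := by
    rintro rfl
    have h10 : (w0, y) ∈ bd (X ∩ Y) := by
      rw [← hb]
      exact mem_ed.2 ⟨h5.1, hy⟩
    rw [mem_bd, h01] at h10
    simp at h10
  have h10' : x ≠ w1 := by
    rintro rfl
    have h11 : (x, b0) ∈ bd (X ∩ Y) := by
      rw [← hb]
      exact mem_ed.2 ⟨hx, h5.2⟩
    rw [mem_bd, h10] at h11
    simp at h11
  rw [Finset.mem_union, hbX, hbY, mem_ed, mem_ed] at h6 h7 h8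
  simp only [Finset.mem_insert, Finset.mem_singleton] at h6 h7 h8
  have e1 := hc.1
  have e2 := hc.2.1
  have e3 := hv.1
  have e4 := hv.2.1
  have h11 : y = c := by tauto
  have h12 : x = v := by tauto
  subst h11 h12
  tauto

end K5M
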