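import Pool.Agent.Lib.K5M.ND
import Pool.Agent.Lib.K5M.N2
import Pool.Agent.Lib.K5M.N5

/-!
# K5M.DSer: series networks: the first part that is not series

`q = ({w0, w1}, {b0, b1})`, `r1 = ({w0, v}, {b0, b1})`, `r2 = ({v, w1}, {b0, b1})`.  The same as `K5M.DPar` with the colours
exchanged.

PROOFS.
`ser_part`: `Part q {r1, r2}`: `bd {r1, r2} = ed r1 Δ ed r2 = {w0, w1} × {b0, b1}`.  `AC`: `inj`: `bd {r1}`, `bd {r2}`, `bd {r1, r2}` are not empty;
`sur`: an even subset `Z` of `{w0, w1, v} × {b0, b1}` contains at every white both edges or none, `Z = A × {b0, b1}` with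
`|A|` even: `A = ∅, {w0, v}, {v, w1}, {w0, w1}`.  `col`: `Nodup`.
`ser_exists`: `Ser` gives `v` with `Cw w0 w1 b0 b1 N v`; `ser_region` gives `X_v ⊆ N` with `bd X_v = ed ({w0, v}, {b0, b1})`, `bd (N \ X_v) = ed r2`.
Choose `v` with `X_v.card` minimal.  Then `X_v` is not series: otherwise let `Cw w0 v b0 b1 X_v v'`: `v' ≠ w1` (if `v' = w1`: `w1` is a
white vertex of a quad of `X_v` and no edge of `bd X_v` is at `w1`, so `Part.link_white` says `w1 ∉ {w0, w1}`), so
`Cw w0 w1 b0 b1 N v'`, and the region `X' ⊆ X_v` of `v'` in the network `X_v` (`ser_region` for `X_v`) is smaller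
(`X' ≠ X_v` since the boundaries differ) and has the boundary `ed ({w0, v'}, {b0, b1})`; the region of `v'` in `N` is unique (`AC.inj`).
`P r1 = X_v`, `P r2 = N \ X_v`: `comp_of_partition`.
`ser_unique`: `X = P r1`, `X' = P' r1'`; by `ser_nested` `X ⊆ X'`, say.  If `v ≠ v'`: `(v, b0), (v, b1) ∈ ed r1 = bd X ⊆ EdS X'`, `v ≠ w0`, `v ≠ v'`, so
`Lw r1' X' v`: `X'` would be series.
`ser_is_ser`: `(v, b) ∈ ed r1 ⊆ EdS (glue ..)`.
-/

set_option autoImplicit false

namespace K5M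

open Finset

variable {w0 w1 b0 b1 v v' : ℕ} {N : Finset Quad}

namespace DSerAux

theorem nd (hd : [w0, w1, b0, b1, v].Nodup) : w0 ≠ w1 ∧ w0 ≠ b0 ∧ w0 ≠ b1 ∧ w0 ≠ v ∧ w1 ≠ b0 ∧
    w1 ≠ b1 ∧ w1 ≠ v ∧ b0 ≠ b1 ∧ b0 ≠ v ∧ b1 ≠ v := by
  simp only [List.nodup_cons, List.mem_cons, List.not_mem_nil, or_false, not_or,
    List.nodup_nil, and_true, not_false_eq_true] at hd
  tauto

theorem r_ne (hd : w0 ≠ v) (hd' : w0 ≠ w1) :
    (({w0, v}, {b0, b1}) : Quad) ≠ (({v, w1}, {b0, b1}) : Quad) := by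
  intro h
  have h1 : ({w0, v} : Finset ℕ) = {v, w1} := congrArg Prod.fst h
  have h2 : w0 ∈ ({v, w1} : Finset ℕ) := by
    rw [← h1]
    exact mem_insert_self _ _
  rcases mem_insert.mp h2 with e | e
  · exact hd e
  · exact hd' (mem_singleton.mp e)

theorem vt_single (q : Quad) : vt {q} = q.1 ∪ q.2 := by
  simp [vt, wh, bl]

theorem inj_bd {q : Quad} {X Y : Finset Quad} (h : Part q N) (hX : X ⊆ N) (hY : Y ⊆ N)
    (hb : bd X = bd Y) : X = Y := by
  have h2 : symmDiff X Y = ∅ := by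
    refine h.ac.inj _ ?_ ?_
    · intro x hx
      rw [mem_symmDiff] at hx
      rcases hx with ⟨hx, -⟩ | ⟨hx, -⟩
      · exact hX hx
      · exact hY hx
    · rw [bd_symmDiff, hb, symmDiff_self]
      rfl
  exact symmDiff_eq_bot.mp h2

/-- `Ser` is the existence of a common white vertex. -/
theorem ser_cw : Ser ({w0, w1}, {b0, b1}) N ↔ ∃ v, Cw w0 w1 b0 b1 N v := by
  constructor
  · rintro ⟨v, h1, h2⟩
    simp only [mem_insert, mem_singleton, not_or] at h1
    exact ⟨v, h1.1, h1.2, h2 b0 (mem_insert_self _ _),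
      h2 b1 (mem_insert_of_mem (mem_singleton_self _))⟩
  · rintro ⟨v, h1, h2, h3, h4⟩
    refine ⟨v, ?_, ?_⟩
    · simp only [mem_insert, mem_singleton, not_or]
      exact ⟨h1, h2⟩
    · intro b hb
      rcases mem_insert.mp hb with e | e
      · rw [e]
        exact h3
      · rw [mem_singleton.mp e]
        exact h4

end DSerAux

open DSerAux

theorem ser_part (hd : [w0, w1, b0, b1, v].Nodup) :
    Part ({w0, w1}, {b0, b1}) {(({w0, v}, {b0, b1}) : Quad), (({v, w1}, {b0, b1}) : Quad)} := by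
  obtain ⟨h1, h2, h3, h4, h5, h6, h7, h8, h9, h10⟩ := nd hd
  have hn1 : Net w0 v b0 b1 {(({w0, v}, {b0, b1}) : Quad)} := by
    rw [net_iff_part]
    refine ⟨h4, h8, part_single ⟨card_pair h4, card_pair h8⟩ ?_⟩
    rw [disjoint_left]
    intro x hx hx'
    rcases mem_insert.mp hx with e | e <;> rcases mem_insert.mp hx' with e' | e'
    · exact h2 (e.symm.trans e')
    · exact h3 (e.symm.trans (mem_singleton.mp e'))
    · exact h9 (e'.symm.trans (mem_singleton.mp e))
    · exact h10 ((mem_singleton.mp e').symm.trans (mem_singleton.mp e))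
  have hn2 : Net v w1 b0 b1 {(({v, w1}, {b0, b1}) : Quad)} := by
    rw [net_iff_part]
    refine ⟨h7.symm, h8, part_single ⟨card_pair h7.symm, card_pair h8⟩ ?_⟩
    rw [disjoint_left]
    intro x hx hx'
    rcases mem_insert.mp hx with e | e <;> rcases mem_insert.mp hx' with e' | e'
    · exact h9 (e'.symm.trans e)
    · exact h10 ((mem_singleton.mp e').symm.trans e)
    · exact h5 ((mem_singleton.mp e).symm.trans e')
    · exact h6 ((mem_singleton.mp e).symm.trans (mem_singleton.mp e'))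
  have hv : vt {(({w0, v}, {b0, b1}) : Quad)} ∩ vt {(({v, w1}, {b0, b1}) : Quad)} =
      {v, b0, b1} := by
    rw [vt_single, vt_single]
    ext x
    simp only [mem_inter, mem_union, mem_insert, mem_singleton]
    constructor
    · rintro ⟨(e | e) | (e | e), (e' | e') | (e' | e')⟩ <;> subst e <;> first
        | exact Or.inl rfl
        | exact Or.inr (Or.inl rfl)
        | exact Or.inr (Or.inr rfl)
        | exact absurd e' h4
        | exact absurd e' h1
        | exact absurd e' h2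
        | exact absurd e' h3
    · rintro (e | e | e) <;> subst e <;> simp
  have h := (ser_join hn1 hn2 hv h1).2.1
  have h' := (net_iff_part.mp h).2.2
  exact h'

theorem ser_exists (h : Part ({w0, w1}, {b0, b1}) N) (hw : w0 ≠ w1) (hb : b0 ≠ b1)
    (hp : Ser ({w0, w1}, {b0, b1}) N) :
    ∃ v, [w0, w1, b0, b1, v].Nodup ∧ ∃ P : Quad → Finset Quad,
      Comp ({w0, w1}, {b0, b1}) {(({w0, v}, {b0, b1}) : Quad), (({v, w1}, {b0, b1}) : Quad)} P ∧
      glue {(({w0, v}, {b0, b1}) : Quad), (({v, w1}, {b0, b1}) : Quad)} P = N ∧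
      ¬ Ser ({w0, v}, {b0, b1}) (P ({w0, v}, {b0, b1})) := by
  classical
  have hnet : Net w0 w1 b0 b1 N := net_iff_part.mpr ⟨hw, hb, h⟩
  have hex : ∃ n, ∃ v X, X ⊆ N ∧ Net w0 v b0 b1 X ∧ Net v w1 b0 b1 (N \ X) ∧ X.card = n := by
    obtain ⟨v, hv⟩ := ser_cw.mp hp
    obtain ⟨X, hX, h1, h2, -⟩ := ser_region hnet hv
    exact ⟨X.card, v, X, hX, h1, h2, rfl⟩
  obtain ⟨v, X, hX, hn1, hn2, hcard⟩ := Nat.find_spec hex
  have hmin : ∀ m, m < Nat.find hex →
      ¬ ∃ v X, X ⊆ N ∧ Net w0 v b0 b1 X ∧ Net v w1 b0 b1 (N \ X) ∧ X.card = m :=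
    fun m hm => Nat.find_min hex hm
  have hns : ¬ Ser ({w0, v}, {b0, b1}) X := by
    intro hs
    obtain ⟨v', hv'⟩ := ser_cw.mp hs
    have hvw : v' ≠ w1 := by
      rintro rfl
      obtain ⟨r, hr, her⟩ := mem_EdS.mp hv'.2.2.1
      have h2 := (h.link_white hX v' ⟨r, hr, (mem_ed.mp her).1⟩ (fun e he he1 => by
        rw [hn1.bnd] at he
        have h3 := (mem_ed.mp he).1
        rw [he1] at h3
        rcases mem_insert.mp h3 with e | e
        · exact hw e.symm
        · exact hn2.wne (mem_singleton.mp e).symm)).2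
      exact h2 (mem_insert_of_mem (mem_singleton_self _))
    have hcw : Cw w0 w1 b0 b1 N v' :=
      ⟨hv'.1, hvw, EdS_mono hX hv'.2.2.1, EdS_mono hX hv'.2.2.2⟩
    obtain ⟨Y, hY, hy1, hy2, -⟩ := ser_region hnet hcw
    obtain ⟨Y', hY', hy1', hy2', -⟩ := ser_region hn1 hv'
    have hYY : Y = Y' := inj_bd h hY (hY'.trans hX) (hy1.bnd.trans hy1'.bnd.symm)
    subst hYY
    have hne : (X \ Y).Nonempty := (net_iff_part.mp hy2').2.2.nonempty
    have hlt : Y.card < X.card := by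
      apply card_lt_card
      refine ⟨hY', fun hsub => ?_⟩
      obtain ⟨r, hr⟩ := hne
      exact (mem_sdiff.mp hr).2 (hsub (mem_sdiff.mp hr).1)
    rw [hcard] at hlt
    exact hmin _ hlt ⟨v', Y, hY, hy1, hy2, rfl⟩
  -- the vertices
  have hcol := disjoint_left.mp h.col
  have hw0 : w0 ∈ wh N := h.sub_wh (mem_insert_self _ _)
  have hw1 : w1 ∈ wh N := h.sub_wh (mem_insert_of_mem (mem_singleton_self _))
  have hb0 : b0 ∈ bl N := h.sub_bl (mem_insert_self _ _)
  have hb1 : b1 ∈ bl N := h.sub_bl (mem_insert_of_mem (mem_singleton_self _))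
  have hvN : v ∈ wh N := N0Aux.wh_mono hX
    ((net_iff_part.mp hn1).2.2.sub_wh (mem_insert_of_mem (mem_singleton_self _)))
  have hne0 : w0 ≠ v := hn1.wne
  have hne1 : w1 ≠ v := hn2.wne.symm
  have hnd : [w0, w1, b0, b1, v].Nodup := by
    simp only [List.nodup_cons, List.mem_cons, List.not_mem_nil, or_false, not_or,
      List.nodup_nil, and_true, not_false_eq_true]
    exact ⟨⟨hw, fun e => hcol hw0 (e ▸ hb0), fun e => hcol hw0 (e ▸ hb1), hne0⟩,
      ⟨fun e => hcol hw1 (e ▸ hb0), fun e => hcol hw1 (e ▸ hb1), hne1⟩,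
      ⟨hb, fun e => hcol hvN (e ▸ hb0)⟩, fun e => hcol hvN (e ▸ hb1)⟩
  have hrne : (({w0, v}, {b0, b1}) : Quad) ≠ (({v, w1}, {b0, b1}) : Quad) := r_ne hne0 hw
  obtain ⟨P, hP1, hP2⟩ : ∃ P : Quad → Finset Quad, P (({w0, v}, {b0, b1}) : Quad) = X ∧
      P (({v, w1}, {b0, b1}) : Quad) = N \ X :=
    ⟨fun r => if r = (({w0, v}, {b0, b1}) : Quad) then X else N \ X, if_pos rfl,
      if_neg hrne.symm⟩
  have hglue : glue {(({w0, v}, {b0, b1}) : Quad), (({v, w1}, {b0, b1}) : Quad)} P = N := by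
    unfold glue
    rw [biUnion_insert, singleton_biUnion, hP1, hP2]
    exact union_sdiff_of_subset hX
  refine ⟨v, hnd, P, ?_, hglue, ?_⟩
  · refine comp_of_partition h ?_ ?_ ?_ hglue
    · intro q hq
      rcases mem_insert.mp hq with e | e
      · rw [e]
        exact ⟨card_pair hne0, card_pair hb⟩
      · rw [mem_singleton.mp e]
        exact ⟨card_pair hne1.symm, card_pair hb⟩
    · intro q hq
      rcases mem_insert.mp hq with e | e
      · rw [e, hP1]
        exact hn1.bnd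
      · rw [mem_singleton.mp e, hP2]
        exact hn2.bnd
    · intro q hq q' hq' hne
      rcases mem_insert.mp hq with e | e <;> rcases mem_insert.mp hq' with e' | e'
      · exact absurd (e.trans e'.symm) hne
      · rw [e, mem_singleton.mp e', hP1, hP2]
        exact disjoint_sdiff
      · rw [e', mem_singleton.mp e, hP1, hP2]
        exact sdiff_disjoint
      · exact absurd ((mem_singleton.mp e).trans (mem_singleton.mp e').symm) hne
  · rw [hP1]
    exact hns

theorem ser_unique {P P' : Quad → Finset Quad} (hd : [w0, w1, b0, b1, v].Nodup)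
    (hd' : [w0, w1, b0, b1, v'].Nodup)
    (h : Comp ({w0, w1}, {b0, b1}) {(({w0, v}, {b0, b1}) : Quad), (({v, w1}, {b0, b1}) : Quad)} P)
    (h' : Comp ({w0, w1}, {b0, b1})
      {(({w0, v'}, {b0, b1}) : Quad), (({v', w1}, {b0, b1}) : Quad)} P')
    (he : glue {(({w0, v}, {b0, b1}) : Quad), (({v, w1}, {b0, b1}) : Quad)} P =
      glue {(({w0, v'}, {b0, b1}) : Quad), (({v', w1}, {b0, b1}) : Quad)} P')
    (hp : ¬ Ser ({w0, v}, {b0, b1}) (P ({w0, v}, {b0, b1})))
    (hp' : ¬ Ser ({w0, v'}, {b0, b1}) (P' ({w0, v'}, {b0, b1}))) : v = v' := by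
  classical
  obtain ⟨h1, h2, h3, h4, h5, h6, h7, h8, h9, h10⟩ := nd hd
  obtain ⟨-, -, -, h4', -, -, h7', -, -, -⟩ := nd hd'
  have hN := h.part_glue
  have hnet : Net w0 w1 b0 b1
      (glue {(({w0, v}, {b0, b1}) : Quad), (({v, w1}, {b0, b1}) : Quad)} P) :=
    net_iff_part.mpr ⟨h1, h8, hN⟩
  have hm : (({w0, v}, {b0, b1}) : Quad) ∈
      ({(({w0, v}, {b0, b1}) : Quad), (({v, w1}, {b0, b1}) : Quad)} : Finset Quad) :=
    mem_insert_self _ _
  have hm' : (({w0, v'}, {b0, b1}) : Quad) ∈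
      ({(({w0, v'}, {b0, b1}) : Quad), (({v', w1}, {b0, b1}) : Quad)} : Finset Quad) :=
    mem_insert_self _ _
  have hb := (h.part _ hm).bnd
  have hb' := (h'.part _ hm').bnd
  have hX : P ({w0, v}, {b0, b1}) ⊆
      glue {(({w0, v}, {b0, b1}) : Quad), (({v, w1}, {b0, b1}) : Quad)} P :=
    subset_biUnion_of_mem P hm
  have hX' : P' ({w0, v'}, {b0, b1}) ⊆
      glue {(({w0, v}, {b0, b1}) : Quad), (({v, w1}, {b0, b1}) : Quad)} P := by
    rw [he]
    exact subset_biUnion_of_mem P' hm'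
  by_contra hne
  have hmem : ∀ (u b : ℕ), b ∈ ({b0, b1} : Finset ℕ) →
      ((u, b) : Ed) ∈ ed (({w0, u}, {b0, b1}) : Quad) := by
    intro u b hbb
    rw [mem_ed]
    exact ⟨mem_insert_of_mem (mem_singleton_self _), hbb⟩
  rcases ser_nested hnet hX hX' hb hb' with hs | hs
  · apply hp'
    refine ⟨v, ?_, ?_⟩
    · simp only [mem_insert, mem_singleton, not_or]
      exact ⟨h4.symm, hne⟩
    · intro b hbb
      have h11 := hmem v b hbb
      rw [← hb] at h11
      exact EdS_mono hs (bd_sub _ h11)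
  · apply hp
    refine ⟨v', ?_, ?_⟩
    · simp only [mem_insert, mem_singleton, not_or]
      exact ⟨h4'.symm, fun e => hne e.symm⟩
    · intro b hbb
      have h11 := hmem v' b hbb
      rw [← hb'] at h11
      exact EdS_mono hs (bd_sub _ h11)

theorem ser_is_ser {P : Quad → Finset Quad} (hd : [w0, w1, b0, b1, v].Nodup)
    (h : Comp ({w0, w1}, {b0, b1})
      {(({w0, v}, {b0, b1}) : Quad), (({v, w1}, {b0, b1}) : Quad)} P) :
    Ser ({w0, w1}, {b0, b1})
      (glue {(({w0, v}, {b0, b1}) : Quad), (({v, w1}, {b0, b1}) : Quad)} P) := by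
  obtain ⟨h1, h2, h3, h4, h5, h6, h7, h8, h9, h10⟩ := nd hd
  have hm : (({w0, v}, {b0, b1}) : Quad) ∈
      ({(({w0, v}, {b0, b1}) : Quad), (({v, w1}, {b0, b1}) : Quad)} : Finset Quad) :=
    mem_insert_self _ _
  refine ⟨v, ?_, ?_⟩
  · simp only [mem_insert, mem_singleton, not_or]
    exact ⟨h4.symm, h7.symm⟩
  · intro b hb
    have h11 : ((v, b) : Ed) ∈ ed (({w0, v}, {b0, b1}) : Quad) := by
      rw [mem_ed]
      exact ⟨mem_insert_of_mem (mem_singleton_self _), hb⟩
    rw [← (h.part _ hm).bnd] at h11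
    exact EdS_mono (subset_biUnion_of_mem P hm) (bd_sub _ h11)

end K5M
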