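import Pool.Agent.Lib.K5M.DFlg
import Pool.Agent.Lib.K5M.DSer
import Pool.Agent.Lib.K5M.DOne

/-!
# K5M.DE3a: marked series networks are composed over two quads

`Ks v = {({0,v},{2,3}), ({v,1},{2,3})}`, `v ∉ {0,1,2,3}`.  The sides `2`, `3` of the composite have the statuses `2 i`, `2 j` with `i, j ≤ 1`, the
parts have the statuses `i`, `j`.  `vt (Ks v) = {0,1,2,3,v}`, `iv qs (Ks v) = {v}`, `bl (Ks v) = {2,3}`, `wh (Ks v) = {0,1,v}`.

PROOFS.
`frame_ser`: `part`: `ser_part`.  `Mk = ∅`.  `s0`: for `b = 2`: `st i j 2 ≠ 0 ↔ i ≠ 0 ↔ st (2 * i) (2 * j) 2 ≠ 0`.  `s3`: no `h`.  `sc`: both quads contain `2`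
and `3`: `i + i = 2 * i`.
`ser_class`: `ser_exists` gives `v`, `P`; `v ∈ iv qs N = L`; `M ∩ vt (Ks v) = ∅`: `M ⊆ L` is disjoint from `{0,1,2,3}` and `v ∈ wh N` is not in
`bl N ⊇ M` (`col`).  Condition: `b = 2` flagged means `i = 1`, and `2 = qd N 2 = qd (P r1) 2 + qd (P r2) 2`, both positive (`Comp.qd_glue`,
`Comp.qd_pos`): both are `1 = st i j 2`; the same for `3`.
`ser_class_conv`: `ser_is_ser`.  `ser_class_uniq`: `ser_unique` (the first part is not series: `τs v r1 = .nsr`).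
-/

set_option autoImplicit false

namespace K5M

open Finset

/-- The two quads of a series network. -/
def Ks (v : ℕ) : Finset Quad := {(({0, v}, {2, 3}) : Quad), (({v, 1}, {2, 3}) : Quad)}

/-- The classes of the parts: the first one is not series. -/
def τs (v : ℕ) (r : Quad) : Ty := if r = (({0, v}, {2, 3}) : Quad) then .nsr else .all

variable {i j v v' : ℕ} {L M : Finset ℕ} {N : Finset Quad}

namespace DE3aAux

theorem nod (hv : v ∉ ({0, 1, 2, 3} : Finset ℕ)) : [0, 1, 2, 3, v].Nodup := by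
  simp only [mem_insert, mem_singleton, not_or] at hv
  obtain ⟨h0, h1, h2, h3⟩ := hv
  simp only [List.nodup_cons, List.mem_cons, List.not_mem_nil, or_false, not_or,
    List.nodup_nil, and_true, not_false_eq_true]
  exact ⟨⟨by decide, by decide, by decide, Ne.symm h0⟩, ⟨by decide, by decide, Ne.symm h1⟩,
    ⟨by decide, Ne.symm h2⟩, Ne.symm h3⟩

theorem out_of_nod (hd : [0, 1, 2, 3, v].Nodup) : v ∉ ({0, 1, 2, 3} : Finset ℕ) := by
  obtain ⟨-, -, -, h4, -, -, h7, -, h9, h10⟩ := DSerAux.nd hd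
  simp only [mem_insert, mem_singleton, not_or]
  exact ⟨h4.symm, h7.symm, h9.symm, h10.symm⟩

theorem qs_un : qs.1 ∪ qs.2 = ({0, 1, 2, 3} : Finset ℕ) := by decide

theorem out_of (hL : Disjoint L ({0, 1, 2, 3} : Finset ℕ)) (hv : v ∈ L) :
    v ∉ ({0, 1, 2, 3} : Finset ℕ) := disjoint_left.mp hL hv

theorem mem_Ks {r : Quad} : r ∈ Ks v ↔
    r = (({0, v}, {2, 3}) : Quad) ∨ r = (({v, 1}, {2, 3}) : Quad) := by
  unfold Ks
  rw [mem_insert, mem_singleton]

theorem snd_Ks {r : Quad} (h : r ∈ Ks v) : r.2 = {2, 3} := by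
  rcases mem_Ks.mp h with e | e <;> rw [e]

theorem st_two (b : ℕ) : st (2 * i) (2 * j) b = 2 * st i j b := by
  unfold st
  split_ifs <;> rfl

theorem st_le (hi : i ≤ 1) (hj : j ≤ 1) (b : ℕ) : st i j b ≤ 1 := by
  unfold st
  split_ifs <;> omega

theorem mem_flg {b : ℕ} : b ∈ flg qs (st (2 * i) (2 * j)) ∅ ↔
    b ∈ ({2, 3} : Finset ℕ) ∧ st i j b ≠ 0 := by
  unfold flg
  rw [empty_union, mem_filter, st_two]
  constructor
  · rintro ⟨h1, h2⟩
    exact ⟨h1, fun e => h2 (by rw [e])⟩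
  · rintro ⟨h1, h2⟩
    exact ⟨h1, fun e => h2 (by omega)⟩

theorem filt {b : ℕ} (hb : b ∈ ({2, 3} : Finset ℕ)) :
    (Ks v).filter (fun r => b ∈ r.2) = Ks v := by
  apply filter_true_of_mem
  intro r hr
  rw [snd_Ks hr]
  exact hb

end DE3aAux

open DE3aAux

theorem Ks_facts (hv : v ∉ ({0, 1, 2, 3} : Finset ℕ)) :
    vt (Ks v) = {0, 1, 2, 3, v} ∧ iv qs (Ks v) = {v} ∧ bl (Ks v) = {2, 3} ∧
      wh (Ks v) = {0, 1, v} ∧ (({0, v}, {2, 3}) : Quad) ≠ (({v, 1}, {2, 3}) : Quad) := by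
  have h0 : (0 : ℕ) ≠ v := by
    rintro rfl
    exact hv (by decide)
  have hw : wh (Ks v) = {0, 1, v} := by
    unfold wh Ks
    rw [biUnion_insert, singleton_biUnion]
    ext x
    simp only [mem_union, mem_insert, mem_singleton]
    tauto
  have hb : bl (Ks v) = {2, 3} := by
    unfold bl Ks
    rw [biUnion_insert, singleton_biUnion]
    exact union_self _
  have hvt : vt (Ks v) = {0, 1, 2, 3, v} := by
    unfold vt
    rw [hw, hb]
    ext x
    simp only [mem_union, mem_insert, mem_singleton]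
    tauto
  refine ⟨hvt, ?_, hb, hw, DSerAux.r_ne h0 (by decide)⟩
  unfold iv
  rw [hvt, qs_un]
  ext x
  rw [mem_sdiff]
  constructor
  · rintro ⟨h1, h2⟩
    simp only [mem_insert, mem_singleton] at h1 h2 ⊢
    tauto
  · intro h1
    rw [mem_singleton] at h1
    rw [h1]
    exact ⟨by simp, hv⟩

theorem frame_ser (hL : Disjoint L ({0, 1, 2, 3} : Finset ℕ)) (hv : v ∈ L) (hi : i ≤ 1)
    (hj : j ≤ 1) : Frame qs (st (2 * i) (2 * j)) L (Ks v) ∅ (fun _ => st i j) := by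
  have hv4 := out_of hL hv
  obtain ⟨h1, h2, h3, h4, h5⟩ := Ks_facts hv4
  refine ⟨ser_part (nod hv4), ?_, ?_, empty_subset _, empty_subset _, ?_, ?_, ?_⟩
  · rw [h2, singleton_subset_iff]
    exact hv
  · rw [qs_un]
    exact hL
  · intro r hr b hb
    rw [snd_Ks hr] at hb
    rw [mem_flg]
    exact ⟨fun h => ⟨hb, h⟩, fun h => h.2⟩
  · intro h hh
    exact absurd hh (notMem_empty _)
  · intro b hb _
    rw [filt hb, sum_const, smul_eq_mul, st_two]
    unfold Ks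
    rw [card_pair h5]

theorem ser_class (hi : i ≤ 1) (hj : j ≤ 1) (h : MF qs (st (2 * i) (2 * j)) L N M)
    (hp : Ser qs N) :
    ∃ v, v ∈ L ∧ CMF qs (st (2 * i) (2 * j)) L (Ks v) ∅ (τs v) (fun _ => st i j) N M := by
  obtain ⟨v, hnd, P, hC, hglue, hns⟩ := ser_exists h.part (by decide) (by decide) hp
  have hv4 := out_of_nod hnd
  obtain ⟨h1, h2, h3, h4, h5⟩ := Ks_facts hv4
  have hm1 : (({0, v}, {2, 3}) : Quad) ∈ Ks v := mem_Ks.mpr (Or.inl rfl)
  have hm2 : (({v, 1}, {2, 3}) : Quad) ∈ Ks v := mem_Ks.mpr (Or.inr rfl)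
  have hglue' : glue (Ks v) P = N := hglue
  have hC' : Comp qs (Ks v) P := hC
  have hvN : v ∈ wh N := by
    rw [← hglue', hC'.wh_glue, mem_biUnion]
    exact ⟨_, hm1, (hC'.part _ hm1).sub_wh (mem_insert_of_mem (mem_singleton_self _))⟩
  have hvL : v ∈ L := by
    rw [← h.inn]
    unfold iv
    rw [mem_sdiff, qs_un]
    exact ⟨mem_union_left _ hvN, hv4⟩
  refine ⟨v, hvL, h, ?_, P, hC', hglue', ?_, ?_⟩
  · rw [h1, eq_empty_iff_forall_notMem]
    intro m hm
    obtain ⟨hmM, hm5⟩ := mem_inter.mp hm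
    have hmL := h.sub hmM
    rw [← h.inn] at hmL
    unfold iv at hmL
    rw [mem_sdiff, qs_un] at hmL
    have hmv : m = v := by
      have h6 := hmL.2
      simp only [mem_insert, mem_singleton] at h6 hm5
      tauto
    rw [hmv] at hmM
    exact disjoint_left.mp h.part.col hvN (h.blk hmM)
  · intro r hr
    rcases mem_Ks.mp hr with e | e
    · rw [e]
      unfold τs
      rw [if_pos rfl]
      exact hns
    · rw [e]
      unfold τs
      rw [if_neg h5.symm]
      trivial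
  · intro r hr b hb hfl
    obtain ⟨hb2, hst⟩ := mem_flg.mp hfl
    have h6 := h.side b hb2 (by
      rw [st_two]
      omega)
    have h7 := st_le (b := b) hi hj
    have hbK : b ∈ bl (Ks v) := by
      rw [h3]
      exact hb2
    have hp1 := (hC'.qd_pos hm1 hbK).2 hb2
    have hp2 := (hC'.qd_pos hm2 hbK).2 hb2
    rw [st_two, ← hglue', hC'.qd_glue] at h6
    unfold Ks at h6
    rw [sum_pair h5] at h6
    rcases mem_Ks.mp hr with e | e
    · rw [e]
      omega
    · rw [e]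
      omega

theorem ser_class_conv (hL : Disjoint L ({0, 1, 2, 3} : Finset ℕ)) (hv : v ∈ L)
    (h : CMF qs (st (2 * i) (2 * j)) L (Ks v) ∅ (τs v) (fun _ => st i j) N M) :
    MF qs (st (2 * i) (2 * j)) L N M ∧ Ser qs N := by
  have hv4 := out_of hL hv
  refine ⟨h.mf, ?_⟩
  obtain ⟨P, hC, hglue, -, -⟩ := h.ex
  have h1 := ser_is_ser (nod hv4) hC
  rw [← hglue]
  exact h1

theorem ser_class_uniq (hL : Disjoint L ({0, 1, 2, 3} : Finset ℕ)) (hv : v ∈ L) (hv' : v' ∈ L)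
    (h : CMF qs (st (2 * i) (2 * j)) L (Ks v) ∅ (τs v) (fun _ => st i j) N M)
    (h' : CMF qs (st (2 * i) (2 * j)) L (Ks v') ∅ (τs v') (fun _ => st i j) N M) : v = v' := by
  have hv4 := out_of hL hv
  have hv4' := out_of hL hv'
  obtain ⟨P, hC, hglue, hty, -⟩ := h.ex
  obtain ⟨P', hC', hglue', hty', -⟩ := h'.ex
  have h1 := hty _ (mem_Ks.mpr (Or.inl rfl))
  have h2 := hty' _ (mem_Ks.mpr (Or.inl rfl))
  unfold τs at h1 h2
  rw [if_pos rfl] at h1 h2
  exact ser_unique (nod hv4) (nod hv4') hC hC' (hglue.trans hglue'.symm) h1 h2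

end K5M
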