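import Pool.Agent.Lib.K5M.DFlg
import Pool.Agent.Lib.K5M.DCore

/-!
# K5M.DE4a: marked networks of class `cor` are composed over marked cores

Index: the pairs `(K, Mk)` with `CMi i j A K Mk`, `A ⊆ L` (`A = iv qs K`); `i, j ∈ {0, 2}`; statuses `σc i j Mk r b = 1` if `b` is flagged
(`b ∈ flg qs (st i j) Mk`) and `0` otherwise.

PROOFS.
`frame_core`: `s0`: definition.  `s3`: the sum over `r ∋ h` of `1` is `qd K h = 3`.  `sc`: `b ∈ {2, 3}`, `st i j b ≠ 0`: `qd K b = st i j b` (`CMi.side`).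
`core_class`: `core_comp_exists` gives `K`, `P` with `Comp qs K P`, `CoreQ qs K`, `glue K P = N`.  `A = iv qs K ⊆ iv qs N = L` (`Comp.vt_glue`).
`Mk = M ∩ vt K`; a mark in `vt K` is in `bl K` (`M ⊆ bl N`, `wh K ⊆ wh N`, `col`), and in `iv qs K` (`M ⊆ L`).  For a black `b` of `K`:
`qd N b = ∑ r ∈ K, qd (P r) b`, the terms with `b ∈ r.2` are positive, the others 0 (`Comp.qd_glue`, `Comp.qd_pos`), so `qd K b ≤ qd N b`, with equality
only if all these terms are 1.  For `h ∈ Mk`: `3 ≤ qd K h` (`core_inner`) and `qd N h = 3`; for `b ∈ {2, 3}` with `st i j b ≠ 0`: `2 ≤ qd K b`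
(`core_side`), `qd N b = st i j b = 2`.  So `CMi` and the condition `qd (P r) b = 1` hold.
`core_class_conv`: `core_comp_cls`.
`core_class_uniq`: `comp_unique` gives `K = K'`; `Mk = M ∩ vt K = Mk'`.
-/

set_option autoImplicit false

namespace K5M

open Finset

/-- The statuses of the parts at the quads of a marked core. -/
def σc (i j : ℕ) (Mk : Finset ℕ) (_ : Quad) (b : ℕ) : ℕ :=
  if b ∈ flg qs (st i j) Mk then 1 else 0

variable {i j : ℕ} {L A A' M Mk Mk' : Finset ℕ} {N K K' : Finset Quad}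

namespace DE4aAux

theorem one_parts {q0 : Quad} {K : Finset Quad} {P : Quad → Finset Quad} {b : ℕ}
    (hC : Comp q0 K P) (hb : b ∈ bl K) (hle : qd (glue K P) b ≤ qd K b) :
    qd (glue K P) b = qd K b ∧ ∀ r ∈ K, b ∈ r.2 → qd (P r) b = 1 := by
  have h1 : qd (glue K P) b = ∑ r ∈ K.filter (fun r => b ∈ r.2), qd (P r) b := by
    rw [hC.qd_glue b]
    symm
    apply Finset.sum_filter_of_ne
    intro r hr hne
    exact (hC.qd_pos hr hb).1 (Nat.pos_of_ne_zero hne)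
  have h2 : qd K b = ∑ r ∈ K.filter (fun r => b ∈ r.2), 1 := by
    unfold qd
    rw [Finset.card_eq_sum_ones]
  have h3 : ∀ r ∈ K.filter (fun r => b ∈ r.2), 1 ≤ qd (P r) b := by
    intro r hr
    obtain ⟨h4, h5⟩ := Finset.mem_filter.1 hr
    exact (hC.qd_pos h4 hb).2 h5
  have h4 : ∑ r ∈ K.filter (fun r => b ∈ r.2), 1 ≤
      ∑ r ∈ K.filter (fun r => b ∈ r.2), qd (P r) b := Finset.sum_le_sum h3
  have h5 : ∑ r ∈ K.filter (fun r => b ∈ r.2), 1 =
      ∑ r ∈ K.filter (fun r => b ∈ r.2), qd (P r) b := by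
    apply le_antisymm h4
    rw [← h1, ← h2]
    exact hle
  refine ⟨by rw [h1, h2, h5], fun r hr hbr => ?_⟩
  exact ((Finset.sum_eq_sum_iff_of_le h3).1 h5 r (Finset.mem_filter.2 ⟨hr, hbr⟩)).symm

theorem sum_one {K : Finset Quad} {i j b : ℕ} {Mk : Finset ℕ} (hb : b ∈ flg qs (st i j) Mk) :
    ∑ r ∈ K.filter (fun r => b ∈ r.2), σc i j Mk r b = qd K b := by
  unfold qd
  rw [Finset.card_eq_sum_ones]
  refine Finset.sum_congr rfl fun r _ => ?_
  unfold σc
  rw [if_pos hb]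

theorem vt_sub {q0 : Quad} {K : Finset Quad} {P : Quad → Finset Quad} (hC : Comp q0 K P) :
    vt K ⊆ vt (glue K P) := by
  rw [hC.vt_glue]
  exact Finset.subset_union_left

theorem wh_sub {q0 : Quad} {K : Finset Quad} {P : Quad → Finset Quad} (hC : Comp q0 K P) :
    wh K ⊆ wh (glue K P) := by
  intro w hw
  obtain ⟨r, hr, hwr⟩ := Finset.mem_biUnion.1 hw
  rw [hC.wh_glue]
  exact Finset.mem_biUnion.2 ⟨r, hr, (hC.part r hr).sub_wh hwr⟩

theorem st_two {i j b : ℕ} (hi : i = 0 ∨ i = 2) (hj : j = 0 ∨ j = 2) (h : st i j b ≠ 0) :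
    st i j b = 2 := by
  unfold st at h ⊢
  split_ifs at h ⊢ <;> omega

end DE4aAux

open DE4aAux

theorem frame_core (hL : Disjoint L ({0, 1, 2, 3} : Finset ℕ)) (hA : A ⊆ L)
    (h : CMi i j A K Mk) : Frame qs (st i j) L K Mk (σc i j Mk) := by
  refine ⟨h.core.part, h.inn ▸ hA, ?_, h.sub.trans hA, h.blk, ?_, ?_, ?_⟩
  · have e : qs.1 ∪ qs.2 = ({0, 1, 2, 3} : Finset ℕ) := by
      unfold qs
      decide
    rw [e]
    exact hL
  · intro r _ b _
    unfold σc
    split_ifs with hb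
    · exact ⟨fun _ => hb, fun _ => one_ne_zero⟩
    · exact ⟨fun h0 => absurd rfl h0, fun h0 => absurd h0 hb⟩
  · intro m hm
    rw [sum_one (Finset.mem_union_left _ hm)]
    exact h.three m hm
  · intro b hb hs
    rw [sum_one (Finset.mem_union_right _ (Finset.mem_filter.2 ⟨hb, hs⟩))]
    exact h.side b hb hs

theorem core_class (hi : i = 0 ∨ i = 2) (hj : j = 0 ∨ j = 2) (h : MF qs (st i j) L N M)
    (hc : Ty.cor.cls qs N) :
    ∃ A K Mk, A ⊆ L ∧ CMi i j A K Mk ∧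
      CMF qs (st i j) L K Mk (fun _ => .all) (σc i j Mk) N M := by
  obtain ⟨K, P, hC, hK, hg⟩ := core_comp_exists h.part hc
  have hvt : vt K ⊆ vt N := by
    rw [← hg]
    exact vt_sub hC
  have hwh : wh K ⊆ wh N := by
    rw [← hg]
    exact wh_sub hC
  have hML : ∀ m ∈ M, m ∉ qs.1 ∪ qs.2 := by
    intro m hm
    have h1 := h.sub hm
    rw [← h.inn] at h1
    exact (Finset.mem_sdiff.1 h1).2
  have hA : iv qs K ⊆ L := by
    rw [← h.inn]
    exact Finset.sdiff_subset_sdiff hvt (Finset.Subset.refl _)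
  have hMA : M ∩ vt K ⊆ iv qs K := by
    intro m hm
    obtain ⟨h1, h2⟩ := Finset.mem_inter.1 hm
    exact Finset.mem_sdiff.2 ⟨h2, hML m h1⟩
  have hMb : M ∩ vt K ⊆ bl K := by
    intro m hm
    obtain ⟨h1, h2⟩ := Finset.mem_inter.1 hm
    rcases Finset.mem_union.1 h2 with h3 | h3
    · exact absurd (h.blk h1) (Finset.disjoint_left.1 h.part.col (hwh h3))
    · exact h3
  have hmk : ∀ m ∈ M ∩ vt K, qd K m = 3 ∧ ∀ r ∈ K, m ∈ r.2 → qd (P r) m = 1 := by
    intro m hm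
    obtain ⟨h1, h2⟩ := Finset.mem_inter.1 hm
    have h3 := core_inner hK (hMb hm) (fun e => hML m h1 (Finset.mem_union_right _ e))
    have h4 := h.three m h1
    have h5 := one_parts hC (hMb hm) (by rw [hg, h4]; exact h3)
    rw [hg, h4] at h5
    exact ⟨h5.1.symm, h5.2⟩
  have hsd : ∀ b ∈ qs.2, st i j b ≠ 0 → qd K b = st i j b ∧ ∀ r ∈ K, b ∈ r.2 → qd (P r) b = 1 := by
    intro b hb hs
    have h3 := core_side hK hb
    have h4 := h.side b hb hs
    have h6 := st_two hi hj hs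
    have h5 := one_parts hC (hK.part.sub_bl hb) (by rw [hg, h4, h6]; exact h3)
    rw [hg, h4] at h5
    exact ⟨h5.1.symm, h5.2⟩
  refine ⟨iv qs K, K, M ∩ vt K, hA, ⟨hK, rfl, hMA, hMb, fun m hm => (hmk m hm).1,
    fun b hb hs => (hsd b hb hs).1⟩, ⟨h, rfl, P, hC, hg, fun _ _ => trivial, ?_⟩⟩
  intro r hr b hb hf
  have e : σc i j (M ∩ vt K) r b = 1 := by
    unfold σc
    rw [if_pos hf]
  rw [e]
  rcases Finset.mem_union.1 hf with h1 | h1
  · exact (hmk b h1).2 r hr hb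
  · obtain ⟨h2, h3⟩ := Finset.mem_filter.1 h1
    exact (hsd b h2 h3).2 r hr hb

theorem core_class_conv (h : CMi i j A K Mk)
    (hM : CMF qs (st i j) L K Mk (fun _ => .all) (σc i j Mk) N M) :
    MF qs (st i j) L N M ∧ Ty.cor.cls qs N := by
  obtain ⟨P, hC, hg, _, _⟩ := hM.ex
  refine ⟨hM.mf, ?_⟩
  rw [← hg]
  exact core_comp_cls hC h.core

theorem core_class_uniq (h : CMi i j A K Mk) (h' : CMi i j A' K' Mk')
    (hM : CMF qs (st i j) L K Mk (fun _ => .all) (σc i j Mk) N M)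
    (hM' : CMF qs (st i j) L K' Mk' (fun _ => .all) (σc i j Mk') N M) :
    A = A' ∧ K = K' ∧ Mk = Mk' := by
  obtain ⟨P, hC, hg, _, _⟩ := hM.ex
  obtain ⟨P', hC', hg', _, _⟩ := hM'.ex
  have hK := (comp_unique hC h.core hC' h'.core (hg.trans hg'.symm)).1
  subst hK
  exact ⟨h.inn.symm.trans h'.inn, rfl, hM.mks.symm.trans hM'.mks⟩

end K5M
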