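import Pool.Agent.Lib.K5M.N0

/-!
# K5M.N1: gluing parts into the quads of a network

PROOF.  Let `h : Comp q0 K P`, `N = glue K P`.
(1) COMMON EDGES.  Let `e = (w, b) ∈ EdS (P q) ∩ EdS (P q')`, `q ≠ q' ∈ K`.  Then `e ∈ ed q ∩ ed q'`: if `w` were an inner
vertex of `P q` it would not be in `vt K` and not inner in `P q'`, but `vt (P q') ⊆ iv q' (P q') ∪ q'.1 ∪ q'.2` and
`q'.1 ∪ q'.2 ⊆ vt K`: contradiction.  So `w ∈ q.1 ∪ q.2`, and `w ∈ q.1` because `w ∈ wh (P q)`, `q.2 ⊆ bl (P q)` are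
disjoint.  The same for `b` and for `q'`.
(2) Hence a quad in `P q ∩ P q'` has all its edges in `ed q ∩ ed q'`, so it is `q` and `q'`: the parts are disjoint
(`ed_inj`), and `dg N e = ∑ q ∈ K, dg (P q) e`.
(3) For `e ∈ EdS K`: `dg (P q) e = 1` if `e ∈ ed q` (`Part.dg_one`), and `e ∉ EdS (P q)` if `e ∉ ed q` (there is
`q' ∈ K` with `e ∈ ed q'`, `q' ≠ q`, `e ∈ EdS (P q')`, use (1)).  So `dg N e = dg K e`.  For
`e ∈ EdS (P q) \ ed q`, `e` is in no other part (1) and `dg N e = dg (P q) e = 2`.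
(4) `bd (glue K' P) = bd K'` for `K' ⊆ K`: by (3) applied to `K'` (or: `bd` of a disjoint union is the symmetric
difference of the `bd (P q) = ed q`, as is `bd K'`; induction on `K'`).
(5) `AC (EdS N) N`: `two` by (3).  `inj`: `bd Y = ∅`, `Y ⊆ N`: an edge in `EdS (P q) \ ed q` is in quads of `P q` only,
so `bd (Y ∩ P q) ⊆ ed q`; it is even, so it is `∅` or `ed q = bd (P q)` (it has 0 or 4 edges), `Y ∩ P q` is `∅` or
`P q` (`inj` of the part, applied to the symmetric difference).  So `Y = glue K' P`, `bd K' = ∅` by (4), `K' = ∅`.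
`sur`: let `Z ⊆ EdS N` be even.  For `q ∈ K` let `Z_q = Z ∩ (EdS (P q) \ ed q)`.  At an inner vertex of `P q` all edges
of `Z` are in `Z_q` (an edge of `N` at it is an edge of `P q`, not in `ed q`), so `Z_q` is even there, and at the
other vertices off `q.1`, `q.2` it has no edge.  `four_cycle_fix`: `Z_q Δ P_q` even, `P_q ⊆ ed q`, so
`Z_q Δ P_q = bd Y_q`, `Y_q ⊆ P q`.  Then `Z Δ (Δ_q bd Y_q)` is even and contained in `EdS K = ∪ ed q` (every edge of
`N` is in `EdS K` or in exactly one `EdS (P q) \ ed q`), so it is `bd K'`, `K' ⊆ K`, and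
`Z = bd ((Δ_q Y_q) Δ glue K' P)`.
(6) Colours: `y ∈ wh (P q) ∩ bl (P q')`: if `y` is inner in `P q` or in `P q'`, contradiction as in (1) (for `q = q'` use
the colours of `P q`); so `y ∈ q.1 ⊆ wh K` and `y ∈ q'.2 ⊆ bl K`: contradiction.
(7) `qd`: the quads at `b` in `N` are the quads at `b` in the parts; for an inner vertex `b` of `P q`, `b` is in no
other part.
-/

set_option autoImplicit false

namespace K5M

open Finset

variable {q0 : Quad} {K : Finset Quad} {P : Quad → Finset Quad}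

theorem N1.wh_of {N : Finset Quad} {e : Ed} (he : e ∈ EdS N) : e.1 ∈ wh N := by
  obtain ⟨r, hr, her⟩ := mem_EdS.mp he
  exact Finset.mem_biUnion.mpr ⟨r, hr, (mem_ed.mp her).1⟩

theorem N1.bl_of {N : Finset Quad} {e : Ed} (he : e ∈ EdS N) : e.2 ∈ bl N := by
  obtain ⟨r, hr, her⟩ := mem_EdS.mp he
  exact Finset.mem_biUnion.mpr ⟨r, hr, (mem_ed.mp her).2⟩

theorem N1.mem_glue {K' : Finset Quad} {r : Quad} : r ∈ glue K' P ↔ ∃ q ∈ K', r ∈ P q :=
  Finset.mem_biUnion

theorem N1.EdS_glue {K' : Finset Quad} {e : Ed} :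
    e ∈ EdS (glue K' P) ↔ ∃ q ∈ K', e ∈ EdS (P q) := by
  rw [mem_EdS]
  constructor
  · rintro ⟨r, hr, he⟩
    obtain ⟨q, hq, hrq⟩ := N1.mem_glue.mp hr
    exact ⟨q, hq, mem_EdS.mpr ⟨r, hrq, he⟩⟩
  · rintro ⟨q, hq, he⟩
    obtain ⟨r, hr, her⟩ := mem_EdS.mp he
    exact ⟨r, N1.mem_glue.mpr ⟨q, hq, hr⟩, her⟩

theorem N1.not_vt (h : Comp q0 K P) {q q' : Quad} (hq : q ∈ K) (hq' : q' ∈ K) (hne : q ≠ q')
    {y : ℕ} (hy : y ∈ iv q (P q)) : y ∉ vt (P q') := by
  intro hy'
  by_cases hi : y ∈ q'.1 ∪ q'.2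
  · refine Finset.disjoint_left.mp (h.dK q hq) hy ?_
    rcases Finset.mem_union.mp hi with h1 | h1
    · exact Finset.mem_union_left _ (Finset.mem_biUnion.mpr ⟨q', hq', h1⟩)
    · exact Finset.mem_union_right _ (Finset.mem_biUnion.mpr ⟨q', hq', h1⟩)
  · exact Finset.disjoint_left.mp (h.dj q hq q' hq' hne) hy (Finset.mem_sdiff.mpr ⟨hy', hi⟩)

theorem N1.common (h : Comp q0 K P) {q q' : Quad} (hq : q ∈ K) (hq' : q' ∈ K) (hne : q ≠ q')
    {e : Ed} (he : e ∈ EdS (P q)) (he' : e ∈ EdS (P q')) : e ∈ ed q := by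
  have hcol := (h.part q hq).col
  have h1 : e.1 ∈ q.1 := by
    have hw : e.1 ∈ wh (P q) := N1.wh_of he
    by_contra hc
    by_cases h2 : e.1 ∈ q.2
    · exact Finset.disjoint_left.mp hcol hw ((h.part q hq).sub_bl h2)
    · have : e.1 ∈ iv q (P q) := Finset.mem_sdiff.mpr
        ⟨Finset.mem_union_left _ hw, by
          intro hh
          rcases Finset.mem_union.mp hh with h3 | h3
          · exact hc h3
          · exact h2 h3⟩
      exact N1.not_vt h hq hq' hne this (Finset.mem_union_left _ (N1.wh_of he'))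
  have h2 : e.2 ∈ q.2 := by
    have hb : e.2 ∈ bl (P q) := N1.bl_of he
    by_contra hc
    by_cases h2 : e.2 ∈ q.1
    · exact Finset.disjoint_left.mp hcol ((h.part q hq).sub_wh h2) hb
    · have : e.2 ∈ iv q (P q) := Finset.mem_sdiff.mpr
        ⟨Finset.mem_union_right _ hb, by
          intro hh
          rcases Finset.mem_union.mp hh with h3 | h3
          · exact h2 h3
          · exact hc h3⟩
      exact N1.not_vt h hq hq' hne this (Finset.mem_union_right _ (N1.bl_of he'))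
  exact mem_ed.mpr ⟨h1, h2⟩

theorem Comp.disj (h : Comp q0 K P) {q q' : Quad} (hq : q ∈ K) (hq' : q' ∈ K) (hne : q ≠ q') :
    Disjoint (P q) (P q') := by
  rw [Finset.disjoint_left]
  intro r hr hr'
  apply hne
  have hiq := (h.part q hq).isq
  have hiq' := (h.part q' hq').isq
  have hir : IsQ r := (h.part q hq).ac.isq r hr
  have h1 : ed r ⊆ ed q := fun e he => N1.common h hq hq' hne
    (mem_EdS.mpr ⟨r, hr, he⟩) (mem_EdS.mpr ⟨r, hr', he⟩)
  have h2 : ed r ⊆ ed q' := fun e he => N1.common h hq' hq hne.symm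
    (mem_EdS.mpr ⟨r, hr', he⟩) (mem_EdS.mpr ⟨r, hr, he⟩)
  have h3 : ed r = ed q := Finset.eq_of_subset_of_card_le h1 (by rw [card_ed hiq, card_ed hir])
  have h4 : ed r = ed q' := Finset.eq_of_subset_of_card_le h2 (by rw [card_ed hiq', card_ed hir])
  exact ed_inj hiq hiq' (h3.symm.trans h4)

/-- `dg` of a union of subsets of the parts. -/
theorem N1.dg_sum (h : Comp q0 K P) {K' : Finset Quad} (hK : K' ⊆ K) {Y : Quad → Finset Quad}
    (hY : ∀ q ∈ K', Y q ⊆ P q) (e : Ed) : dg (K'.biUnion Y) e = ∑ q ∈ K', dg (Y q) e := by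
  unfold dg
  rw [Finset.filter_biUnion]
  apply Finset.card_biUnion
  intro q hq q' hq' hne
  exact Finset.disjoint_filter_filter
    (Finset.disjoint_of_subset_left (hY q hq)
      (Finset.disjoint_of_subset_right (hY q' hq') (h.disj (hK hq) (hK hq') hne)))

theorem N1.dg_zero {N : Finset Quad} {e : Ed} (he : e ∉ EdS N) : dg N e = 0 := by
  by_contra hc
  exact he (dg_pos.mp (Nat.pos_of_ne_zero hc))

theorem N1.sub_EdS (h : Comp q0 K P) {q : Quad} (hq : q ∈ K) : ed q ⊆ EdS (P q) := by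
  rw [← (h.part q hq).bnd]
  exact bd_sub _

theorem N1.dg_part (h : Comp q0 K P) {q : Quad} (hq : q ∈ K) {e : Ed} (he : e ∈ EdS K) :
    dg (P q) e = if e ∈ ed q then 1 else 0 := by
  split_ifs with hc
  · exact (h.part q hq).dg_one hc
  · apply N1.dg_zero
    intro hh
    obtain ⟨q', hq', he'⟩ := mem_EdS.mp he
    have hne : q ≠ q' := fun hqq => hc (hqq ▸ he')
    exact hc (N1.common h hq hq' hne hh (N1.sub_EdS h hq' he'))

theorem N1.dg_outer' (h : Comp q0 K P) {K' : Finset Quad} (hK : K' ⊆ K) {e : Ed}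
    (he : e ∈ EdS K) : dg (glue K' P) e = dg K' e := by
  unfold glue
  rw [N1.dg_sum h hK (fun q _ => Finset.Subset.refl _)]
  rw [Finset.sum_congr rfl (fun q hq => N1.dg_part h (hK hq) he)]
  rw [dg, Finset.card_filter]

/-- For an inner edge of `P q` only the quads of `P q` matter. -/
theorem N1.dg_inner (h : Comp q0 K P) {K' : Finset Quad} (hK : K' ⊆ K) {Y : Quad → Finset Quad}
    (hY : ∀ q ∈ K', Y q ⊆ P q) {q : Quad} (hq : q ∈ K') {e : Ed} (he : e ∈ EdS (P q))
    (hqe : e ∉ ed q) : dg (K'.biUnion Y) e = dg (Y q) e := by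
  rw [N1.dg_sum h hK hY]
  apply Finset.sum_eq_single_of_mem q hq
  intro q' hq' hne
  apply N1.dg_zero
  intro hh
  exact hqe (N1.common h (hK hq) (hK hq') hne.symm he (EdS_mono (hY q' hq') hh))

theorem Comp.bd_glue (h : Comp q0 K P) {K' : Finset Quad} (hK : K' ⊆ K) :
    bd (glue K' P) = bd K' := by
  ext e
  rw [mem_bd, mem_bd]
  by_cases he : e ∈ EdS K
  · rw [N1.dg_outer' h hK he]
  · have h1 : dg K' e = 0 := N1.dg_zero (fun hh => he (EdS_mono hK hh))
    rw [h1]
    by_cases h2 : e ∈ EdS (glue K' P)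
    · obtain ⟨q, hq, heq⟩ := N1.EdS_glue.mp h2
      have hqe : e ∉ ed q := fun hh => he (mem_EdS.mpr ⟨q, hK hq, hh⟩)
      have h3 : dg (glue K' P) e = 2 := by
        unfold glue
        rw [N1.dg_inner h hK (fun q _ => Finset.Subset.refl _) hq heq hqe]
        exact (h.part q (hK hq)).dg_two heq hqe
      rw [h3]
      decide
    · rw [N1.dg_zero h2]

theorem Comp.dg_outer (h : Comp q0 K P) {e : Ed} (he : e ∈ EdS K) :
    dg (glue K P) e = dg K e := N1.dg_outer' h (Finset.Subset.refl _) he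

theorem N1.sub_ed {q : Quad} (hq : IsQ q) {Z : Finset Ed} (hZ : Z ⊆ ed q) (he : Evn Z) :
    Z = ∅ ∨ Z = ed q := by
  by_cases hn : Z.Nonempty
  · right
    exact Finset.eq_of_subset_of_card_le hZ (by rw [card_ed hq]; exact four_le he hn)
  · left
    exact Finset.not_nonempty_iff_eq_empty.mp hn

theorem N1.part_or {q : Quad} {N X : Finset Quad} (h : Part q N) (hX : X ⊆ N)
    (hb : bd X ⊆ ed q) : X = ∅ ∨ X = N := by
  have he : Evn (bd X) := Evn_bd (fun r hr => h.ac.isq r (hX hr))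
  rcases N1.sub_ed h.isq hb he with h1 | h1
  · left
    exact h.ac.inj X hX h1
  · right
    have h2 : bd (N \ X) = ∅ := by
      rw [bd_sdiff hX, h1, h.bnd, symmDiff_self]
      rfl
    have h3 := h.ac.inj (N \ X) Finset.sdiff_subset h2
    exact Finset.Subset.antisymm hX (Finset.sdiff_eq_empty_iff_subset.mp h3)

theorem N1.inj (h : Comp q0 K P) {X : Finset Quad} (hX : X ⊆ glue K P) (hb : bd X = ∅) :
    X = ∅ := by
  have hXe : X = K.biUnion (fun q => X ∩ P q) := by
    ext r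
    rw [Finset.mem_biUnion]
    constructor
    · intro hr
      obtain ⟨q, hq, hrq⟩ := N1.mem_glue.mp (hX hr)
      exact ⟨q, hq, Finset.mem_inter.mpr ⟨hr, hrq⟩⟩
    · rintro ⟨q, hq, hrq⟩
      exact (Finset.mem_inter.mp hrq).1
  have hor : ∀ q ∈ K, X ∩ P q = ∅ ∨ X ∩ P q = P q := by
    intro q hq
    apply N1.part_or (h.part q hq) Finset.inter_subset_right
    intro e he
    by_contra hc
    have h1 : e ∈ EdS (P q) := EdS_mono Finset.inter_subset_right (bd_sub _ he)
    have h2 : dg X e = dg (X ∩ P q) e := by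
      conv_lhs => rw [hXe]
      exact N1.dg_inner h (Finset.Subset.refl _) (fun q _ => Finset.inter_subset_right) hq h1 hc
    have h3 : e ∈ bd X := by
      rw [mem_bd, h2]
      exact mem_bd.mp he
    rw [hb] at h3
    exact absurd h3 (Finset.notMem_empty _)
  set K' := K.filter (fun q => X ∩ P q = P q) with hK'
  have hXg : X = glue K' P := by
    rw [hXe]
    ext r
    rw [Finset.mem_biUnion, N1.mem_glue]
    constructor
    · rintro ⟨q, hq, hrq⟩
      rcases hor q hq with h1 | h1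
      · rw [h1] at hrq
        exact absurd hrq (Finset.notMem_empty _)
      · exact ⟨q, Finset.mem_filter.mpr ⟨hq, h1⟩, h1 ▸ hrq⟩
    · rintro ⟨q, hq, hrq⟩
      obtain ⟨hq1, hq2⟩ := Finset.mem_filter.mp hq
      exact ⟨q, hq1, by rw [hq2]; exact hrq⟩
  have h1 : bd K' = ∅ := by
    rw [← h.bd_glue (Finset.filter_subset _ _), ← hXg, hb]
  have h2 : K' = ∅ := h.out.ac.inj K' (Finset.filter_subset _ _) h1
  rw [hXg, h2]
  rfl

theorem N1.two (h : Comp q0 K P) (e : Ed) : dg (glue K P) e ≤ 2 := by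
  by_cases he : e ∈ EdS K
  · rw [h.dg_outer he]
    exact h.out.ac.two e
  · by_cases h2 : e ∈ EdS (glue K P)
    · obtain ⟨q, hq, heq⟩ := N1.EdS_glue.mp h2
      have hqe : e ∉ ed q := fun hh => he (mem_EdS.mpr ⟨q, hq, hh⟩)
      have h3 : dg (glue K P) e = dg (P q) e := by
        unfold glue
        exact N1.dg_inner h (Finset.Subset.refl _) (fun q _ => Finset.Subset.refl _) hq heq hqe
      rw [h3]
      exact (h.part q hq).ac.two e
    · rw [N1.dg_zero h2]
      exact Nat.zero_le _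

theorem N1.fix (h : Comp q0 K P) {Z : Finset Ed} (hZ : Z ⊆ EdS (glue K P)) (he : Evn Z)
    {q : Quad} (hq : q ∈ K) :
    ∃ Y ⊆ P q, ∀ e ∉ ed q, (e ∈ bd Y ↔ e ∈ Z ∧ e ∈ EdS (P q)) := by
  classical
  have hcol := (h.part q hq).col
  set Zi := Z.filter (fun e => e ∈ EdS (P q) ∧ e ∉ ed q) with hZi
  have hedge : ∀ e ∈ Z, ∀ y ∈ iv q (P q), (e.1 = y ∨ e.2 = y) → e ∈ EdS (P q) := by
    intro e heZ y hy hye
    obtain ⟨q', hq', heq'⟩ := N1.EdS_glue.mp (hZ heZ)
    by_cases hqq : q' = q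
    · rw [← hqq]
      exact heq'
    · exfalso
      apply N1.not_vt h hq hq' (Ne.symm hqq) hy
      rcases hye with h1 | h1
      · rw [← h1]
        exact Finset.mem_union_left _ (N1.wh_of heq')
      · rw [← h1]
        exact Finset.mem_union_right _ (N1.bl_of heq')
  have hw : ∀ w, w ∉ q.1 → Even (Zi.filter (fun e => e.1 = w)).card := by
    intro w hwq
    by_cases hempty : (Zi.filter (fun e => e.1 = w)) = ∅
    · rw [hempty]
      exact ⟨0, rfl⟩
    · obtain ⟨e, hee⟩ := Finset.nonempty_iff_ne_empty.mpr hempty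
      obtain ⟨h1, h2⟩ := Finset.mem_filter.mp hee
      obtain ⟨h3, h4, h5⟩ := Finset.mem_filter.mp h1
      have hwh : w ∈ wh (P q) := h2 ▸ N1.wh_of h4
      have hiv : w ∈ iv q (P q) := by
        refine Finset.mem_sdiff.mpr ⟨Finset.mem_union_left _ hwh, ?_⟩
        intro hh
        rcases Finset.mem_union.mp hh with h6 | h6
        · exact hwq h6
        · exact Finset.disjoint_left.mp hcol hwh ((h.part q hq).sub_bl h6)
      have hEq : Zi.filter (fun e => e.1 = w) = Z.filter (fun e => e.1 = w) := by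
        ext e'
        simp only [hZi, Finset.mem_filter]
        constructor
        · rintro ⟨⟨h7, _⟩, h8⟩
          exact ⟨h7, h8⟩
        · rintro ⟨h7, h8⟩
          refine ⟨⟨h7, hedge e' h7 w hiv (Or.inl h8), ?_⟩, h8⟩
          intro hh
          exact hwq (h8 ▸ (mem_ed.mp hh).1)
      rw [hEq]
      exact he.1 w
  have hb : ∀ b, b ∉ q.2 → Even (Zi.filter (fun e => e.2 = b)).card := by
    intro w hwq
    by_cases hempty : (Zi.filter (fun e => e.2 = w)) = ∅
    · rw [hempty]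
      exact ⟨0, rfl⟩
    · obtain ⟨e, hee⟩ := Finset.nonempty_iff_ne_empty.mpr hempty
      obtain ⟨h1, h2⟩ := Finset.mem_filter.mp hee
      obtain ⟨h3, h4, h5⟩ := Finset.mem_filter.mp h1
      have hwh : w ∈ bl (P q) := h2 ▸ N1.bl_of h4
      have hiv : w ∈ iv q (P q) := by
        refine Finset.mem_sdiff.mpr ⟨Finset.mem_union_right _ hwh, ?_⟩
        intro hh
        rcases Finset.mem_union.mp hh with h6 | h6
        · exact Finset.disjoint_left.mp hcol ((h.part q hq).sub_wh h6) hwh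
        · exact hwq h6
      have hEq : Zi.filter (fun e => e.2 = w) = Z.filter (fun e => e.2 = w) := by
        ext e'
        simp only [hZi, Finset.mem_filter]
        constructor
        · rintro ⟨⟨h7, _⟩, h8⟩
          exact ⟨h7, h8⟩
        · rintro ⟨h7, h8⟩
          refine ⟨⟨h7, hedge e' h7 w hiv (Or.inr h8), ?_⟩, h8⟩
          intro hh
          exact hwq (h8 ▸ (mem_ed.mp hh).2)
      rw [hEq]
      exact he.2 w
  obtain ⟨P0, hP0, hP0e⟩ := four_cycle_fix (h.part q hq).isq Zi hw hb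
  have hsub : symmDiff Zi P0 ⊆ EdS (P q) := by
    intro e hee
    rcases Finset.mem_symmDiff.mp hee with h1 | h1
    · exact (Finset.mem_filter.mp h1.1).2.1
    · exact N1.sub_EdS h hq (hP0 h1.1)
  obtain ⟨Y, hY, hYb⟩ := (h.part q hq).ac.sur _ hsub hP0e
  refine ⟨Y, hY, ?_⟩
  intro e hqe
  rw [hYb, Finset.mem_symmDiff]
  have hnP : e ∉ P0 := fun hh => hqe (hP0 hh)
  constructor
  · rintro (h1 | h1)
    · obtain ⟨h3, h4, h5⟩ := Finset.mem_filter.mp h1.1
      exact ⟨h3, h4⟩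
    · exact absurd h1.1 hnP
  · rintro ⟨h1, h2⟩
    exact Or.inl ⟨Finset.mem_filter.mpr ⟨h1, h2, hqe⟩, hnP⟩

theorem N1.sur (h : Comp q0 K P) {Z : Finset Ed} (hZ : Z ⊆ EdS (glue K P)) (he : Evn Z) :
    ∃ X ⊆ glue K P, bd X = Z := by
  classical
  have hfix : ∀ q : Quad, ∃ Y : Finset Quad, q ∈ K →
      (Y ⊆ P q ∧ ∀ e ∉ ed q, (e ∈ bd Y ↔ e ∈ Z ∧ e ∈ EdS (P q))) := by
    intro q
    by_cases hq : q ∈ K
    · obtain ⟨Y, h1, h2⟩ := N1.fix h hZ he hq
      exact ⟨Y, fun _ => ⟨h1, h2⟩⟩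
    · exact ⟨∅, fun hh => absurd hh hq⟩
  choose Y hY using hfix
  have hYs : ∀ q ∈ K, Y q ⊆ P q := fun q hq => (hY q hq).1
  set U := K.biUnion Y with hU
  have hUs : U ⊆ glue K P := by
    intro r hr
    obtain ⟨q, hq, hrq⟩ := Finset.mem_biUnion.mp hr
    exact N1.mem_glue.mpr ⟨q, hq, hYs q hq hrq⟩
  have hisq : ∀ r ∈ glue K P, IsQ r := by
    intro r hr
    obtain ⟨q, hq, hrq⟩ := N1.mem_glue.mp hr
    exact (h.part q hq).ac.isq r hrq
  have hUe : Evn (bd U) := Evn_bd (fun r hr => hisq r (hUs hr))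
  have hZ' : symmDiff Z (bd U) ⊆ EdS K := by
    intro e hee
    by_contra hc
    have heN : e ∈ EdS (glue K P) := by
      rcases Finset.mem_symmDiff.mp hee with h1 | h1
      · exact hZ h1.1
      · exact EdS_mono hUs (bd_sub _ h1.1)
    obtain ⟨q, hq, heq⟩ := N1.EdS_glue.mp heN
    have hqe : e ∉ ed q := fun hh => hc (mem_EdS.mpr ⟨q, hq, hh⟩)
    have h1 : e ∈ bd U ↔ e ∈ bd (Y q) := by
      rw [mem_bd, mem_bd, hU, N1.dg_inner h (Finset.Subset.refl _) hYs hq heq hqe]
    have h2 : e ∈ bd U ↔ e ∈ Z := by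
      rw [h1, (hY q hq).2 e hqe]
      exact ⟨fun hh => hh.1, fun hh => ⟨hh, heq⟩⟩
    rcases Finset.mem_symmDiff.mp hee with h3 | h3
    · exact h3.2 (h2.mpr h3.1)
    · exact h3.2 (h2.mp h3.1)
  obtain ⟨K', hK', hK'b⟩ := h.out.ac.sur _ hZ' (Evn_symmDiff he hUe)
  refine ⟨symmDiff (glue K' P) U, ?_, ?_⟩
  · intro r hr
    rcases Finset.mem_symmDiff.mp hr with h1 | h1
    · obtain ⟨q, hq, hrq⟩ := N1.mem_glue.mp h1.1
      exact N1.mem_glue.mpr ⟨q, hK' hq, hrq⟩
    · exact hUs h1.1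
  · rw [bd_symmDiff, h.bd_glue hK', hK'b, symmDiff_assoc, symmDiff_self, symmDiff_bot]

theorem N1.isq (h : Comp q0 K P) : ∀ r ∈ glue K P, IsQ r := by
  intro r hr
  obtain ⟨q, hq, hrq⟩ := N1.mem_glue.mp hr
  exact (h.part q hq).ac.isq r hrq

theorem Comp.wh_glue (h : Comp q0 K P) : wh (glue K P) = K.biUnion (fun q => wh (P q)) := by
  unfold wh glue
  rw [Finset.biUnion_biUnion]

theorem Comp.bl_glue (h : Comp q0 K P) : bl (glue K P) = K.biUnion (fun q => bl (P q)) := by
  unfold bl glue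
  rw [Finset.biUnion_biUnion]

theorem N1.col (h : Comp q0 K P) : Disjoint (wh (glue K P)) (bl (glue K P)) := by
  rw [h.wh_glue, h.bl_glue, Finset.disjoint_left]
  intro y hy hy'
  obtain ⟨q, hq, hyq⟩ := Finset.mem_biUnion.mp hy
  obtain ⟨q', hq', hyq'⟩ := Finset.mem_biUnion.mp hy'
  by_cases hqq : q = q'
  · subst hqq
    exact Finset.disjoint_left.mp (h.part q hq).col hyq hyq'
  · have h1 : y ∉ iv q (P q) := fun hh =>
      N1.not_vt h hq hq' hqq hh (Finset.mem_union_right _ hyq')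
    have h2 : y ∉ iv q' (P q') := fun hh =>
      N1.not_vt h hq' hq (Ne.symm hqq) hh (Finset.mem_union_left _ hyq)
    have h3 : y ∈ q.1 := by
      by_contra hc
      by_cases h4 : y ∈ q.2
      · exact Finset.disjoint_left.mp (h.part q hq).col hyq ((h.part q hq).sub_bl h4)
      · exact h1 (Finset.mem_sdiff.mpr ⟨Finset.mem_union_left _ hyq, by
          intro hh
          rcases Finset.mem_union.mp hh with h5 | h5
          · exact hc h5
          · exact h4 h5⟩)
    have h4 : y ∈ q'.2 := by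
      by_contra hc
      by_cases h5 : y ∈ q'.1
      · exact Finset.disjoint_left.mp (h.part q' hq').col ((h.part q' hq').sub_wh h5) hyq'
      · exact h2 (Finset.mem_sdiff.mpr ⟨Finset.mem_union_right _ hyq', by
          intro hh
          rcases Finset.mem_union.mp hh with h6 | h6
          · exact h5 h6
          · exact hc h6⟩)
    exact Finset.disjoint_left.mp h.out.col (Finset.mem_biUnion.mpr ⟨q, hq, h3⟩)
      (Finset.mem_biUnion.mpr ⟨q', hq', h4⟩)

theorem Comp.part_glue (h : Comp q0 K P) : Part q0 (glue K P) where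
  isq := h.out.isq
  ac :=
    { isq := N1.isq h
      sub := Finset.Subset.refl _
      two := N1.two h
      inj := fun X hX hb => N1.inj h hX hb
      sur := fun Z hZ he => N1.sur h hZ he }
  bnd := by
    rw [h.bd_glue (Finset.Subset.refl _)]
    exact h.out.bnd
  col := N1.col h

theorem Comp.vt_glue (h : Comp q0 K P) :
    vt (glue K P) = vt K ∪ K.biUnion (fun q => iv q (P q)) := by
  ext y
  rw [Finset.mem_union, Finset.mem_biUnion]
  constructor
  · intro hy
    have : ∃ q ∈ K, y ∈ vt (P q) := by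
      rcases Finset.mem_union.mp hy with h1 | h1
      · rw [h.wh_glue] at h1
        obtain ⟨q, hq, hyq⟩ := Finset.mem_biUnion.mp h1
        exact ⟨q, hq, Finset.mem_union_left _ hyq⟩
      · rw [h.bl_glue] at h1
        obtain ⟨q, hq, hyq⟩ := Finset.mem_biUnion.mp h1
        exact ⟨q, hq, Finset.mem_union_right _ hyq⟩
    obtain ⟨q, hq, hyq⟩ := this
    by_cases hc : y ∈ q.1 ∪ q.2
    · left
      rcases Finset.mem_union.mp hc with h1 | h1
      · exact Finset.mem_union_left _ (Finset.mem_biUnion.mpr ⟨q, hq, h1⟩)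
      · exact Finset.mem_union_right _ (Finset.mem_biUnion.mpr ⟨q, hq, h1⟩)
    · right
      exact ⟨q, hq, Finset.mem_sdiff.mpr ⟨hyq, hc⟩⟩
  · rintro (h1 | ⟨q, hq, hyq⟩)
    · rcases Finset.mem_union.mp h1 with h2 | h2
      · obtain ⟨q, hq, hyq⟩ := Finset.mem_biUnion.mp h2
        refine Finset.mem_union_left _ ?_
        rw [h.wh_glue]
        exact Finset.mem_biUnion.mpr ⟨q, hq, (h.part q hq).sub_wh hyq⟩
      · obtain ⟨q, hq, hyq⟩ := Finset.mem_biUnion.mp h2
        refine Finset.mem_union_right _ ?_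
        rw [h.bl_glue]
        exact Finset.mem_biUnion.mpr ⟨q, hq, (h.part q hq).sub_bl hyq⟩
    · rcases Finset.mem_union.mp (Finset.mem_sdiff.mp hyq).1 with h2 | h2
      · refine Finset.mem_union_left _ ?_
        rw [h.wh_glue]
        exact Finset.mem_biUnion.mpr ⟨q, hq, h2⟩
      · refine Finset.mem_union_right _ ?_
        rw [h.bl_glue]
        exact Finset.mem_biUnion.mpr ⟨q, hq, h2⟩

/-- Number of quads at a black vertex. -/
theorem Comp.qd_glue (h : Comp q0 K P) (b : ℕ) : qd (glue K P) b = ∑ q ∈ K, qd (P q) b := by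
  unfold qd glue
  rw [Finset.filter_biUnion]
  apply Finset.card_biUnion
  intro q hq q' hq' hne
  exact Finset.disjoint_filter_filter (h.disj hq hq' hne)

/-- At an inner vertex of a part all quads belong to this part. -/
theorem Comp.qd_inner (h : Comp q0 K P) {q : Quad} (hq : q ∈ K) {b : ℕ} (hb : b ∈ iv q (P q)) :
    (glue K P).filter (fun r => b ∈ r.2) = (P q).filter (fun r => b ∈ r.2) := by
  ext r
  simp only [Finset.mem_filter]
  constructor
  · rintro ⟨h1, h2⟩
    obtain ⟨q', hq', hrq⟩ := N1.mem_glue.mp h1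
    by_cases hqq : q' = q
    · exact ⟨hqq ▸ hrq, h2⟩
    · exfalso
      exact N1.not_vt h hq hq' (Ne.symm hqq) hb
        (Finset.mem_union_right _ (Finset.mem_biUnion.mpr ⟨r, hrq, h2⟩))
  · rintro ⟨h1, h2⟩
    exact ⟨N1.mem_glue.mpr ⟨q, hq, h1⟩, h2⟩

/-- A part has a quad at a black vertex of `K` iff this is a vertex of its quad. -/
theorem Comp.qd_pos (h : Comp q0 K P) {q : Quad} (hq : q ∈ K) {b : ℕ} (hb : b ∈ bl K) :
    0 < qd (P q) b ↔ b ∈ q.2 := by
  have hbv : b ∈ vt K := Finset.mem_union_right _ hb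
  constructor
  · intro h1
    obtain ⟨r, hr⟩ := Finset.card_pos.mp h1
    obtain ⟨hr1, hr2⟩ := Finset.mem_filter.mp hr
    have hbl : b ∈ bl (P q) := Finset.mem_biUnion.mpr ⟨r, hr1, hr2⟩
    by_contra hc
    have h2 : b ∉ iv q (P q) := fun hh => Finset.disjoint_left.mp (h.dK q hq) hh hbv
    by_cases h3 : b ∈ q.1
    · exact Finset.disjoint_left.mp (h.part q hq).col ((h.part q hq).sub_wh h3) hbl
    · exact h2 (Finset.mem_sdiff.mpr ⟨Finset.mem_union_right _ hbl, by
        intro hh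
        rcases Finset.mem_union.mp hh with h5 | h5
        · exact h3 h5
        · exact hc h5⟩)
  · intro h1
    have h2 := (h.part q hq).sub_bl h1
    obtain ⟨r, hr, hrb⟩ := Finset.mem_biUnion.mp h2
    exact Finset.card_pos.mpr ⟨r, Finset.mem_filter.mpr ⟨hr, hrb⟩⟩

end K5M
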