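import Pool.Agent.Lib.K5M.ND
import Pool.Agent.Lib.K5M.N1

/-!
# K5M.DFlg: flagged blacks and numbers of quads in a composition

PROOFS.  Always `b ∈ bl (P r)` or `b ∈ bl K`.
`mem_side`: `b ∈ bl (P r)`, `b ∉ iv r (P r) = vt (P r) \ (r.1 ∪ r.2)`, so `b ∈ r.1 ∪ r.2`; `r.1 ⊆ wh (P r)` (`Part.sub_wh`) is
disjoint from `bl (P r)` (`col`).  `mem_side_w` the same with colours exchanged.
`iv_not_K`: field `dK`.
`flg_part`: if `b ∈ iv r (P r)`: `b ∉ vt K`, so `b ∉ q.2` (`q.2 ⊆ bl K`) and `b ∉ r.2`; both sides say `b ∈ M`.  Otherwise `b ∈ r.2 ⊆ bl K ⊆ vt K`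
(`mem_side`), so `b ∈ M ↔ b ∈ M ∩ vt K = Mk`, hence `b ∈ flg q c M ↔ b ∈ flg q c Mk ↔ σ r b ≠ 0` (`s0`), and
`b ∈ flg r (σ r) (M ∩ iv r (P r)) ↔ σ r b ≠ 0`.
`qd_frame`: `Comp.qd_glue`: `qd (glue K P) b = ∑ r ∈ K, qd (P r) b`; for `b ∉ r.2` the term is 0 (`Comp.qd_pos`), for `b ∈ r.2` it is
`σ r b` by hypothesis.
`qd_iv`: `Comp.qd_inner`.
-/

set_option autoImplicit false

namespace K5M

open Finset

variable {q r : Quad} {c : ℕ → ℕ} {L Mk M : Finset ℕ} {K : Finset Quad} {σ : Quad → ℕ → ℕ}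
  {P : Quad → Finset Quad} {b : ℕ}

theorem mem_side (h : Part r (P r)) (hb : b ∈ bl (P r)) (hn : b ∉ iv r (P r)) : b ∈ r.2 := by
  by_contra hc
  by_cases h3 : b ∈ r.1
  · exact Finset.disjoint_left.mp h.col (h.sub_wh h3) hb
  · exact hn (Finset.mem_sdiff.mpr ⟨Finset.mem_union_right _ hb, by
      intro hh
      rcases Finset.mem_union.mp hh with h5 | h5
      · exact h3 h5
      · exact hc h5⟩)

theorem mem_side_w (h : Part r (P r)) (hb : b ∈ wh (P r)) (hn : b ∉ iv r (P r)) : b ∈ r.1 := by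
  by_contra hc
  by_cases h3 : b ∈ r.2
  · exact Finset.disjoint_left.mp h.col hb (h.sub_bl h3)
  · exact hn (Finset.mem_sdiff.mpr ⟨Finset.mem_union_left _ hb, by
      intro hh
      rcases Finset.mem_union.mp hh with h5 | h5
      · exact hc h5
      · exact h3 h5⟩)

theorem flg_part (hf : Frame q c L K Mk σ) (hC : Comp q K P) (hM : M ∩ vt K = Mk) (hr : r ∈ K)
    (hb : b ∈ bl (P r)) : b ∈ flg q c M ↔ b ∈ flg r (σ r) (M ∩ iv r (P r)) := by
  by_cases hi : b ∈ iv r (P r)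
  · have hvt : b ∉ vt K := fun hh => Finset.disjoint_left.mp (hC.dK r hr) hi hh
    have h1 : b ∉ q.2 := fun hh => hvt (Finset.mem_union_right _ (hf.part.sub_bl hh))
    have h2 : b ∉ r.2 := fun hh => hvt
      (Finset.mem_union_right _ (Finset.mem_biUnion.mpr ⟨r, hr, hh⟩))
    unfold flg
    simp only [Finset.mem_union, Finset.mem_filter, Finset.mem_inter]
    constructor
    · rintro (h3 | h3)
      · exact Or.inl ⟨h3, hi⟩
      · exact absurd h3.1 h1
    · rintro (h3 | h3)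
      · exact Or.inl h3.1
      · exact absurd h3.1 h2
  · have hs : b ∈ r.2 := mem_side (hC.part r hr) hb hi
    have hvt : b ∈ vt K := Finset.mem_union_right _ (Finset.mem_biUnion.mpr ⟨r, hr, hs⟩)
    have h0 := hf.s0 r hr b hs
    have hMk : b ∈ M ↔ b ∈ Mk := by
      rw [← hM, Finset.mem_inter]
      exact ⟨fun hh => ⟨hh, hvt⟩, fun hh => hh.1⟩
    have hA : b ∈ flg q c M ↔ b ∈ flg q c Mk := by
      unfold flg
      rw [Finset.mem_union, Finset.mem_union, hMk]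
    rw [hA, ← h0]
    unfold flg
    simp only [Finset.mem_union, Finset.mem_filter, Finset.mem_inter]
    constructor
    · intro h3
      exact Or.inr ⟨hs, h3⟩
    · rintro (h3 | h3)
      · exact absurd h3.2 hi
      · exact h3.2

theorem qd_frame (hC : Comp q K P) (hb : b ∈ bl K) (hσ : ∀ r ∈ K, b ∈ r.2 → qd (P r) b = σ r b) :
    qd (glue K P) b = ∑ r ∈ K.filter (fun r => b ∈ r.2), σ r b := by
  rw [hC.qd_glue, Finset.sum_filter]
  apply Finset.sum_congr rfl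
  intro r hr
  split_ifs with h1
  · exact hσ r hr h1
  · by_contra hc
    exact h1 ((hC.qd_pos hr hb).mp (Nat.pos_of_ne_zero hc))

theorem qd_iv (hC : Comp q K P) (hr : r ∈ K) (hb : b ∈ iv r (P r)) :
    qd (glue K P) b = qd (P r) b := by
  unfold qd
  rw [hC.qd_inner hr hb]

end K5M
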