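import Pool.Agent.Lib.K5M.ND

/-!
# K5M.DHxA: the two quads at a side with two quads

`qs = ({0,1},{2,3})`.  `Rh v f1 f2 = {({0,v},{2,f1}), ({v,1},{2,f2})}`.

PROOFS.
`hex_quads`: the edges of `EdS N` at the black `2`: `(0,2)`, `(1,2)` are in one quad each (`Part.dg_one`), the others in two (`Part.dg_two`).
The two quads at `2` have together four edges at `2`, so there is exactly one other edge `(v,2)`, in both quads.  The quad with `(0,2)`
has the whites `0` and `v` (if it had `0` and `1`, the other quad would have two edges at `2` of the form `(v,2)`), the other one has `v`, `1`.  The second blacks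
`f1`, `f2` are different from `2`.  `v ∉ {0,1,2,3}` (`v ≠ 0, 1`; `v ∈ wh N`, `2, 3 ∈ bl N`); `f1, f2 ∉ {0,1,v,2}` (colours).
`Rh_inj`: the quad with the white `0` in `Rh v f1 f2` is `({0,v},{2,f1})` (`v ≠ 0`), so `({0,v},{2,f1}) = ({0,v'},{2,f1'})` gives `v = v'`, `f1 = f1'`; the other quad
gives `f2 = f2'`.
`Rh_bd`: `bd (Rh v f1 f2) = ed r1 Δ ed r2`, the edge `(v,2)` cancels.
`hex_attach`: `r1, r2 ∉ N'` because `(0,2), (1,2) ∉ EdS N' ⊆ E'`.  `two`: the edges at `2` are in at most two quads of `Rh` and in none of `N'`; the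
edges `(0,f1)`, `(1,f2)`: one quad of `Rh` each, at most one of `N'`; `(v,f1)`, `(v,f2)`: if `f1 ≠ f2` one quad of `Rh` each and at most one of `N'`; if `f1 = f2` two quads
of `Rh` and none of `N'`; all other edges are in no quad of `Rh`.  `inj`: let `bd X = ∅`; `(0,2)` is only in `r1`, `(1,2)` only in `r2`: so `X ⊆ N'`, `X = ∅`.
`sur`: let `Z` be an even subset; at the black `2` it contains 0 or 2 of the three edges `(0,2), (v,2), (1,2)`; these two edges are in the boundary of
`{r1}` (`(0,2), (v,2)`), of `{r2}` (`(v,2), (1,2)`) or of `{r1, r2}` (`(0,2), (1,2)`); adding it gives an even subset of `E'` (`(0,f1), (v,f1), (v,f2), (1,f2) ∈ E'`),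
which is `bd X`, `X ⊆ N'`.
`hex_detach`: `sur`: an even `Z ⊆ EdS N` without edges at `2` is `bd Y`, `Y ⊆ N`; if `r1 ∈ Y` then `(0,2) ∈ bd Y` (only `r1` contains it); the same for `r2`.  The
other fields are inherited.
-/

set_option autoImplicit false

namespace K5M

open Finset

/-- The two quads at the side `2`. -/
def Rh (v f1 f2 : ℕ) : Finset Quad := {(({0, v}, {2, f1}) : Quad), (({v, 1}, {2, f2}) : Quad)}

variable {N N' : Finset Quad} {E' : Finset Ed} {v f1 f2 v' f1' f2' : ℕ}

/-- The labels of the two quads are admissible. -/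
structure HxL (v f1 f2 : ℕ) : Prop where
  hv : v ∉ ({0, 1, 2, 3} : Finset ℕ)
  h1 : f1 ∉ ({0, 1, v, 2} : Finset ℕ)
  h2 : f2 ∉ ({0, 1, v, 2} : Finset ℕ)

namespace DHxAAux

/-- The first quad. -/
def ra (v f1 : ℕ) : Quad := ({0, v}, {2, f1})

/-- The second quad. -/
def rb (v f2 : ℕ) : Quad := ({v, 1}, {2, f2})

lemma Rh_eq (v f1 f2 : ℕ) : Rh v f1 f2 = {ra v f1, rb v f2} := rfl

lemma nes (h : HxL v f1 f2) : v ≠ 0 ∧ v ≠ 1 ∧ v ≠ 2 ∧ v ≠ 3 ∧ f1 ≠ 0 ∧ f1 ≠ 1 ∧ f1 ≠ v ∧ f1 ≠ 2 ∧
    f2 ≠ 0 ∧ f2 ≠ 1 ∧ f2 ≠ v ∧ f2 ≠ 2 := by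
  obtain ⟨hv, h1, h2⟩ := h
  simp only [Finset.mem_insert, Finset.mem_singleton, not_or] at hv h1 h2
  obtain ⟨a1, a2, a3, a4⟩ := hv
  obtain ⟨b1, b2, b3, b4⟩ := h1
  obtain ⟨c1, c2, c3, c4⟩ := h2
  exact ⟨a1, a2, a3, a4, b1, b2, b3, b4, c1, c2, c3, c4⟩

lemma mem_ra {e : Ed} : e ∈ ed (ra v f1) ↔ (e.1 = 0 ∨ e.1 = v) ∧ (e.2 = 2 ∨ e.2 = f1) := by
  unfold ra
  rw [mem_ed]
  simp only [Finset.mem_insert, Finset.mem_singleton]

lemma mem_rb {e : Ed} : e ∈ ed (rb v f2) ↔ (e.1 = v ∨ e.1 = 1) ∧ (e.2 = 2 ∨ e.2 = f2) := by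
  unfold rb
  rw [mem_ed]
  simp only [Finset.mem_insert, Finset.mem_singleton]

lemma ra_ne_rb (h : HxL v f1 f2) : ra v f1 ≠ rb v f2 := by
  have hn := nes h
  intro he
  have h1 : ((0, 2) : Ed) ∈ ed (ra v f1) := mem_ra.2 ⟨Or.inl rfl, Or.inl rfl⟩
  rw [he, mem_rb] at h1
  rcases h1.1 with h2 | h2
  · exact hn.1 h2.symm
  · exact absurd h2 (by norm_num)

lemma Rh_union (h : HxL v f1 f2) : Rh v f1 f2 = {ra v f1} ∪ {rb v f2} ∧
    Disjoint ({ra v f1} : Finset Quad) {rb v f2} := by
  refine ⟨rfl, ?_⟩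
  rw [Finset.disjoint_singleton]
  exact ra_ne_rb h

lemma dg_single (q : Quad) (e : Ed) : dg {q} e = if e ∈ ed q then 1 else 0 := by
  unfold dg
  rw [Finset.filter_singleton]
  split_ifs <;> simp

lemma dg_Rh (h : HxL v f1 f2) (e : Ed) : dg (Rh v f1 f2) e =
    (if e ∈ ed (ra v f1) then 1 else 0) + (if e ∈ ed (rb v f2) then 1 else 0) := by
  rw [(Rh_union h).1, dg_union (Rh_union h).2, dg_single, dg_single]

/-- A quad at the side `2` is seen by the boundary. -/
lemma bd_ra (h : HxL v f1 f2) {X : Finset Quad} (hX : X ⊆ N' ∪ Rh v f1 f2)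
    (h2 : ∀ r ∈ N', 2 ∉ r.2) (hr : ra v f1 ∈ X) : ((0, 2) : Ed) ∈ bd X := by
  have hn := nes h
  have h3 : X.filter (fun q => ((0, 2) : Ed) ∈ ed q) = {ra v f1} := by
    ext r
    rw [Finset.mem_filter, Finset.mem_singleton]
    constructor
    · rintro ⟨h4, h5⟩
      have h6 := hX h4
      rw [Finset.mem_union, Rh_eq, Finset.mem_insert, Finset.mem_singleton] at h6
      rcases h6 with h6 | h6 | h6
      · exact absurd (mem_ed.1 h5).2 (h2 r h6)
      · exact h6
      · rw [h6, mem_rb] at h5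
        rcases h5.1 with h7 | h7
        · exact absurd h7.symm hn.1
        · exact absurd h7 (by norm_num)
    · rintro rfl
      exact ⟨hr, mem_ra.2 ⟨Or.inl rfl, Or.inl rfl⟩⟩
  rw [mem_bd]
  unfold dg
  rw [h3, Finset.card_singleton]
  exact odd_one

lemma bd_rb (h : HxL v f1 f2) {X : Finset Quad} (hX : X ⊆ N' ∪ Rh v f1 f2)
    (h2 : ∀ r ∈ N', 2 ∉ r.2) (hr : rb v f2 ∈ X) : ((1, 2) : Ed) ∈ bd X := by
  have hn := nes h
  have h3 : X.filter (fun q => ((1, 2) : Ed) ∈ ed q) = {rb v f2} := by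
    ext r
    rw [Finset.mem_filter, Finset.mem_singleton]
    constructor
    · rintro ⟨h4, h5⟩
      have h6 := hX h4
      rw [Finset.mem_union, Rh_eq, Finset.mem_insert, Finset.mem_singleton] at h6
      rcases h6 with h6 | h6 | h6
      · exact absurd (mem_ed.1 h5).2 (h2 r h6)
      · rw [h6, mem_ra] at h5
        rcases h5.1 with h7 | h7
        · exact absurd h7 (by norm_num)
        · exact absurd h7.symm hn.2.1
      · exact h6
    · rintro rfl
      exact ⟨hr, mem_rb.2 ⟨Or.inr rfl, Or.inl rfl⟩⟩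
  rw [mem_bd]
  unfold dg
  rw [h3, Finset.card_singleton]
  exact odd_one

lemma sub_of (h : HxL v f1 f2) {X : Finset Quad} (hX : X ⊆ N' ∪ Rh v f1 f2)
    (h2 : ∀ r ∈ N', 2 ∉ r.2) (hb0 : ((0, 2) : Ed) ∉ bd X) (hb1 : ((1, 2) : Ed) ∉ bd X) : X ⊆ N' := by
  intro r hr
  have h3 := hX hr
  rw [Finset.mem_union, Rh_eq, Finset.mem_insert, Finset.mem_singleton] at h3
  rcases h3 with h3 | h3 | h3
  · exact h3
  · rw [h3] at hr
    exact absurd (bd_ra h hX h2 hr) hb0
  · rw [h3] at hr
    exact absurd (bd_rb h hX h2 hr) hb1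

/-- Every pattern at the edges `(0, 2)`, `(1, 2)` is a boundary pattern. -/
lemma pattern (h : HxL v f1 f2) (p q : Prop) : ∃ D ⊆ Rh v f1 f2,
    (((0, 2) : Ed) ∈ bd D ↔ p) ∧ (((1, 2) : Ed) ∈ bd D ↔ q) := by
  have hn := nes h
  have a1 : ((0, 2) : Ed) ∈ ed (ra v f1) := mem_ra.2 ⟨Or.inl rfl, Or.inl rfl⟩
  have a2 : ((1, 2) : Ed) ∉ ed (ra v f1) := by
    rw [mem_ra]
    rintro ⟨h7 | h7, _⟩
    · exact absurd h7 (by norm_num)
    · exact absurd h7.symm hn.2.1
  have b1 : ((1, 2) : Ed) ∈ ed (rb v f2) := mem_rb.2 ⟨Or.inr rfl, Or.inl rfl⟩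
  have b2 : ((0, 2) : Ed) ∉ ed (rb v f2) := by
    rw [mem_rb]
    rintro ⟨h7 | h7, _⟩
    · exact absurd h7.symm hn.1
    · exact absurd h7 (by norm_num)
  by_cases hp : p
  · by_cases hq : q
    · refine ⟨Rh v f1 f2, Finset.Subset.refl _, ?_⟩
      rw [mem_bd, mem_bd, dg_Rh h, dg_Rh h, if_pos a1, if_neg b2, if_neg a2, if_pos b1]
      exact ⟨iff_of_true odd_one hp, iff_of_true odd_one hq⟩
    · refine ⟨{ra v f1}, ?_, ?_⟩
      · rw [(Rh_union h).1]
        exact Finset.subset_union_left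
      · rw [bd_singleton]
        exact ⟨iff_of_true a1 hp, iff_of_false a2 hq⟩
  · by_cases hq : q
    · refine ⟨{rb v f2}, ?_, ?_⟩
      · rw [(Rh_union h).1]
        exact Finset.subset_union_right
      · rw [bd_singleton]
        exact ⟨iff_of_false b2 hp, iff_of_true b1 hq⟩
    · refine ⟨∅, Finset.empty_subset _, ?_⟩
      rw [bd_empty]
      exact ⟨iff_of_false (Finset.notMem_empty _) hp, iff_of_false (Finset.notMem_empty _) hq⟩

lemma isq_Rh (h : HxL v f1 f2) : ∀ r ∈ Rh v f1 f2, IsQ r := by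
  have hn := nes h
  intro r hr
  rw [Rh_eq, Finset.mem_insert, Finset.mem_singleton] at hr
  rcases hr with rfl | rfl
  · exact ⟨Finset.card_pair hn.1.symm, Finset.card_pair hn.2.2.2.2.2.2.2.1.symm⟩
  · exact ⟨Finset.card_pair hn.2.1, Finset.card_pair hn.2.2.2.2.2.2.2.2.2.2.2.symm⟩

end DHxAAux

open DHxAAux

theorem hex_quads (h : Part qs N) (h2 : qd N 2 = 2) :
    ∃ v f1 f2, HxL v f1 f2 ∧ N.filter (fun r => 2 ∈ r.2) = Rh v f1 f2 := by
  unfold qd at h2
  obtain ⟨a, b, hab, hF⟩ := Finset.card_eq_two.1 h2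
  -- symmetric statement
  have key : ∀ a b : Quad, a ≠ b → N.filter (fun r => 2 ∈ r.2) = {a, b} → 0 ∈ a.1 →
      ∃ v f1 f2, HxL v f1 f2 ∧ N.filter (fun r => 2 ∈ r.2) = Rh v f1 f2 := by
    intro a b hab hF h0a
    have ha : a ∈ N.filter (fun r => 2 ∈ r.2) := by rw [hF]; simp
    have hb : b ∈ N.filter (fun r => 2 ∈ r.2) := by rw [hF]; simp
    rw [Finset.mem_filter] at ha hb
    have hqa := h.ac.isq a ha.1
    have hqb := h.ac.isq b hb.1
    have hdg : ∀ x, dg N (x, 2) = (if x ∈ a.1 then 1 else 0) + (if x ∈ b.1 then 1 else 0) := by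
      intro x
      unfold dg
      have h3 : N.filter (fun q => (x, 2) ∈ ed q) = (N.filter (fun r => 2 ∈ r.2)).filter (fun q => x ∈ q.1) := by
        ext r
        rw [Finset.mem_filter, Finset.mem_filter, Finset.mem_filter, mem_ed]
        tauto
      rw [h3, hF, Finset.card_filter, Finset.sum_pair hab]
    have hmem : ∀ x, (x ∈ a.1 ∨ x ∈ b.1) → x ≠ 0 → x ≠ 1 → x ∈ a.1 ∧ x ∈ b.1 := by
      intro x hx h0 h1
      have h3 : ((x, 2) : Ed) ∈ EdS N := by
        rw [mem_EdS]
        rcases hx with hx | hx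
        · exact ⟨a, ha.1, mem_ed.2 ⟨hx, ha.2⟩⟩
        · exact ⟨b, hb.1, mem_ed.2 ⟨hx, hb.2⟩⟩
      have h4 : ((x, 2) : Ed) ∉ ed qs := by
        unfold qs
        rw [mem_ed]
        simp only [Finset.mem_insert, Finset.mem_singleton, not_and, not_or]
        rintro (h5 | h5)
        · exact absurd h5 h0
        · exact absurd h5 h1
      have h5 := h.dg_two h3 h4
      rw [hdg] at h5
      by_cases h6 : x ∈ a.1
      · by_cases h7 : x ∈ b.1
        · exact ⟨h6, h7⟩
        · rw [if_pos h6, if_neg h7] at h5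
          omega
      · rw [if_neg h6] at h5
        split_ifs at h5 <;> omega
    have hd0 : dg N (0, 2) = 1 := h.dg_one (by unfold qs; rw [mem_ed]; simp)
    have hd1 : dg N (1, 2) = 1 := h.dg_one (by unfold qs; rw [mem_ed]; simp)
    have h0b : 0 ∉ b.1 := by
      intro h3
      rw [hdg, if_pos h0a, if_pos h3] at hd0
      omega
    have h1a : 1 ∉ a.1 := by
      intro h3
      have h1b : 1 ∉ b.1 := by
        intro h4
        rw [hdg, if_pos h3, if_pos h4] at hd1
        omega
      have h4 : a.1 = {0, 1} := by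
        symm
        refine Finset.eq_of_subset_of_card_le ?_ ?_
        · intro y hy
          simp only [Finset.mem_insert, Finset.mem_singleton] at hy
          rcases hy with rfl | rfl
          · exact h0a
          · exact h3
        · rw [hqa.1]
          simp
      obtain ⟨x, hx⟩ : b.1.Nonempty := by
        rw [← Finset.card_pos, hqb.1]
        omega
      have h5 := (hmem x (Or.inr hx) (fun h6 => h0b (h6 ▸ hx)) (fun h6 => h1b (h6 ▸ hx))).1
      rw [h4] at h5
      simp only [Finset.mem_insert, Finset.mem_singleton] at h5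
      rcases h5 with h5 | h5
      · exact h0b (h5 ▸ hx)
      · exact h1b (h5 ▸ hx)
    have h1b : 1 ∈ b.1 := by
      by_contra h3
      rw [hdg, if_neg h1a, if_neg h3] at hd1
      omega
    obtain ⟨v, hv, hv0⟩ : ∃ x ∈ a.1, x ≠ 0 := Finset.exists_mem_ne (by rw [hqa.1]; omega) 0
    have hv1 : v ≠ 1 := fun h3 => h1a (h3 ▸ hv)
    have hvb := (hmem v (Or.inl hv) hv0 hv1).2
    obtain ⟨f1, hf1, hf12⟩ : ∃ x ∈ a.2, x ≠ 2 := Finset.exists_mem_ne (by rw [hqa.2]; omega) 2
    obtain ⟨f2, hf2, hf22⟩ : ∃ x ∈ b.2, x ≠ 2 := Finset.exists_mem_ne (by rw [hqb.2]; omega) 2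
    have ha1 : a.1 = {0, v} := by
      symm
      refine Finset.eq_of_subset_of_card_le ?_ ?_
      · intro y hy
        simp only [Finset.mem_insert, Finset.mem_singleton] at hy
        rcases hy with rfl | rfl
        · exact h0a
        · exact hv
      · rw [hqa.1, Finset.card_pair hv0.symm]
    have ha2 : a.2 = {2, f1} := by
      symm
      refine Finset.eq_of_subset_of_card_le ?_ ?_
      · intro y hy
        simp only [Finset.mem_insert, Finset.mem_singleton] at hy
        rcases hy with rfl | rfl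
        · exact ha.2
        · exact hf1
      · rw [hqa.2, Finset.card_pair hf12.symm]
    have hb1 : b.1 = {v, 1} := by
      symm
      refine Finset.eq_of_subset_of_card_le ?_ ?_
      · intro y hy
        simp only [Finset.mem_insert, Finset.mem_singleton] at hy
        rcases hy with rfl | rfl
        · exact hvb
        · exact h1b
      · rw [hqb.1, Finset.card_pair hv1]
    have hb2 : b.2 = {2, f2} := by
      symm
      refine Finset.eq_of_subset_of_card_le ?_ ?_
      · intro y hy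
        simp only [Finset.mem_insert, Finset.mem_singleton] at hy
        rcases hy with rfl | rfl
        · exact hb.2
        · exact hf2
      · rw [hqb.2, Finset.card_pair hf22.symm]
    have hW : ∀ x y, x ∈ wh N → y ∈ bl N → x ≠ y := by
      intro x y h3 h4 h5
      rw [h5] at h3
      exact Finset.disjoint_left.1 h.col h3 h4
    have hwv : v ∈ wh N := Finset.mem_biUnion.2 ⟨a, ha.1, hv⟩
    have hw0 : 0 ∈ wh N := Finset.mem_biUnion.2 ⟨a, ha.1, h0a⟩
    have hw1 : 1 ∈ wh N := Finset.mem_biUnion.2 ⟨b, hb.1, h1b⟩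
    have hb2' : 2 ∈ bl N := Finset.mem_biUnion.2 ⟨a, ha.1, ha.2⟩
    have hb3 : 3 ∈ bl N := h.sub_bl (by unfold qs; simp)
    have hbf1 : f1 ∈ bl N := Finset.mem_biUnion.2 ⟨a, ha.1, hf1⟩
    have hbf2 : f2 ∈ bl N := Finset.mem_biUnion.2 ⟨b, hb.1, hf2⟩
    refine ⟨v, f1, f2, ⟨?_, ?_, ?_⟩, ?_⟩
    · simp only [Finset.mem_insert, Finset.mem_singleton, not_or]
      exact ⟨hv0, hv1, hW v 2 hwv hb2', hW v 3 hwv hb3⟩
    · simp only [Finset.mem_insert, Finset.mem_singleton, not_or]
      exact ⟨(hW 0 f1 hw0 hbf1).symm, (hW 1 f1 hw1 hbf1).symm, (hW v f1 hwv hbf1).symm, hf12⟩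
    · simp only [Finset.mem_insert, Finset.mem_singleton, not_or]
      exact ⟨(hW 0 f2 hw0 hbf2).symm, (hW 1 f2 hw1 hbf2).symm, (hW v f2 hwv hbf2).symm, hf22⟩
    · rw [hF, Rh_eq]
      have h3 : a = ra v f1 := Prod.ext ha1 ha2
      have h4 : b = rb v f2 := Prod.ext hb1 hb2
      rw [h3, h4]
  have hd0 : dg N (0, 2) = 1 := h.dg_one (by unfold qs; rw [mem_ed]; simp)
  obtain ⟨r, hr, h0⟩ : ∃ r ∈ N, ((0, 2) : Ed) ∈ ed r := by
    rw [← mem_EdS, ← dg_pos, hd0]
    omega
  rw [mem_ed] at h0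
  have hrF : r ∈ N.filter (fun r => 2 ∈ r.2) := Finset.mem_filter.2 ⟨hr, h0.2⟩
  rw [hF, Finset.mem_insert, Finset.mem_singleton] at hrF
  rcases hrF with h3 | h3
  · exact key a b hab hF (h3 ▸ h0.1)
  · exact key b a hab.symm (by rw [hF, Finset.pair_comm]) (h3 ▸ h0.1)

theorem Rh_inj (h : HxL v f1 f2) (h' : HxL v' f1' f2') (he : Rh v f1 f2 = Rh v' f1' f2') :
    v = v' ∧ f1 = f1' ∧ f2 = f2' := by
  have hn := nes h
  have hn' := nes h'
  have h1 : ra v f1 ∈ Rh v' f1' f2' := by
    rw [← he, Rh_eq]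
    simp
  have h2 : rb v f2 ∈ Rh v' f1' f2' := by
    rw [← he, Rh_eq]
    simp
  rw [Rh_eq, Finset.mem_insert, Finset.mem_singleton] at h1 h2
  have h3 : ra v f1 = ra v' f1' := by
    rcases h1 with h1 | h1
    · exact h1
    · exfalso
      have h4 : ((0, 2) : Ed) ∈ ed (ra v f1) := mem_ra.2 ⟨Or.inl rfl, Or.inl rfl⟩
      rw [h1, mem_rb] at h4
      rcases h4.1 with h5 | h5
      · exact hn'.1 h5.symm
      · exact absurd h5 (by norm_num)
  have h4 : rb v f2 = rb v' f2' := by
    rcases h2 with h2 | h2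
    · exfalso
      have h4 : ((1, 2) : Ed) ∈ ed (rb v f2) := mem_rb.2 ⟨Or.inr rfl, Or.inl rfl⟩
      rw [h2, mem_ra] at h4
      rcases h4.1 with h5 | h5
      · exact absurd h5 (by norm_num)
      · exact hn'.2.1 h5.symm
    · exact h2
  have h5 : ((v, f1) : Ed) ∈ ed (ra v' f1') := by
    rw [← h3, mem_ra]
    exact ⟨Or.inr rfl, Or.inr rfl⟩
  have h6 : ((v, f2) : Ed) ∈ ed (rb v' f2') := by
    rw [← h4, mem_rb]
    exact ⟨Or.inl rfl, Or.inr rfl⟩
  rw [mem_ra] at h5
  rw [mem_rb] at h6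
  simp only at h5 h6
  refine ⟨?_, ?_, ?_⟩
  · rcases h5.1 with h7 | h7
    · exact absurd h7 hn.1
    · exact h7
  · rcases h5.2 with h7 | h7
    · exact absurd h7 hn.2.2.2.2.2.2.2.1
    · exact h7
  · rcases h6.2 with h7 | h7
    · exact absurd h7 hn.2.2.2.2.2.2.2.2.2.2.2
    · exact h7

theorem Rh_bd (h : HxL v f1 f2) : bd (Rh v f1 f2) =
    symmDiff (ed (({0, v}, {2, f1}) : Quad)) (ed (({v, 1}, {2, f2}) : Quad)) := by
  rw [(Rh_union h).1, bd_union (Rh_union h).2, bd_singleton, bd_singleton]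
  rfl

theorem Rh_vt : wh (Rh v f1 f2) = {0, v, 1} ∧ bl (Rh v f1 f2) = {2, f1, f2} := by
  constructor
  · ext y
    unfold wh
    rw [Finset.mem_biUnion]
    simp only [Rh, Finset.mem_insert, Finset.mem_singleton, exists_eq_or_imp, exists_eq_left]
    tauto
  · ext y
    unfold bl
    rw [Finset.mem_biUnion]
    simp only [Rh, Finset.mem_insert, Finset.mem_singleton, exists_eq_or_imp, exists_eq_left]
    tauto

theorem hex_attach (h : HxL v f1 f2) (hac : AC E' N') (h2 : ∀ e ∈ E', e.2 ≠ 2)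
    (e1 : (0, f1) ∈ E') (e2 : (v, f1) ∈ E') (e3 : (v, f2) ∈ E') (e4 : (1, f2) ∈ E')
    (d1 : dg N' (0, f1) ≤ 1) (d2 : dg N' (v, f1) ≤ 1) (d3 : dg N' (v, f2) ≤ 1)
    (d4 : dg N' (1, f2) ≤ 1) (d5 : f1 = f2 → dg N' (v, f1) = 0) :
    AC (E' ∪ {(0, 2), (v, 2), (1, 2)}) (N' ∪ Rh v f1 f2) ∧ Disjoint N' (Rh v f1 f2) := by
  have hn := nes h
  have hN2 : ∀ r ∈ N', 2 ∉ r.2 := by
    intro r hr h3
    obtain ⟨x, hx⟩ : r.1.Nonempty := by
      rw [← Finset.card_pos, (hac.isq r hr).1]
      omega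
    exact h2 (x, 2) (hac.sub (mem_EdS.2 ⟨r, hr, mem_ed.2 ⟨hx, h3⟩⟩)) rfl
  have hdj : Disjoint N' (Rh v f1 f2) := by
    rw [Finset.disjoint_left]
    intro r hr h3
    apply hN2 r hr
    rw [Rh_eq, Finset.mem_insert, Finset.mem_singleton] at h3
    rcases h3 with rfl | rfl
    · simp [ra]
    · simp [rb]
  have hE2 : ∀ e ∈ bd (Rh v f1 f2) ∪ EdS (Rh v f1 f2), e.2 = 2 ∨ e ∈ E' := by
    intro e he
    have h3 : e ∈ EdS (Rh v f1 f2) := by
      rw [Finset.mem_union] at he
      rcases he with he | he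
      · exact bd_sub _ he
      · exact he
    rw [mem_EdS] at h3
    obtain ⟨r, hr, h4⟩ := h3
    obtain ⟨x, y⟩ := e
    rw [Rh_eq, Finset.mem_insert, Finset.mem_singleton] at hr
    rcases hr with rfl | rfl
    · rw [mem_ra] at h4
      simp only at h4
      rcases h4.2 with h5 | h5
      · exact Or.inl h5
      · right
        rcases h4.1 with h6 | h6
        · rw [h5, h6]
          exact e1
        · rw [h5, h6]
          exact e2
    · rw [mem_rb] at h4
      simp only at h4
      rcases h4.2 with h5 | h5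
      · exact Or.inl h5
      · right
        rcases h4.1 with h6 | h6
        · rw [h5, h6]
          exact e3
        · rw [h5, h6]
          exact e4
  have hC2 : ∀ e ∈ EdS (Rh v f1 f2), e.2 = 2 → e ∈ ({(0, 2), (v, 2), (1, 2)} : Finset Ed) := by
    intro e he h3
    rw [mem_EdS] at he
    obtain ⟨r, hr, h4⟩ := he
    obtain ⟨x, y⟩ := e
    simp only at h3
    subst h3
    rw [Rh_eq, Finset.mem_insert, Finset.mem_singleton] at hr
    simp only [Finset.mem_insert, Finset.mem_singleton, Prod.mk.injEq, and_true]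
    rcases hr with rfl | rfl
    · rw [mem_ra] at h4
      simp only at h4
      rcases h4.1 with h6 | h6
      · exact Or.inl h6
      · exact Or.inr (Or.inl h6)
    · rw [mem_rb] at h4
      simp only at h4
      rcases h4.1 with h6 | h6
      · exact Or.inr (Or.inl h6)
      · exact Or.inr (Or.inr h6)
  refine ⟨⟨?_, ?_, ?_, ?_, ?_⟩, hdj⟩
  · intro r hr
    rw [Finset.mem_union] at hr
    rcases hr with hr | hr
    · exact hac.isq r hr
    · exact isq_Rh h r hr
  · intro e he
    rw [EdS_union, Finset.mem_union] at he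
    rw [Finset.mem_union]
    rcases he with he | he
    · exact Or.inl (hac.sub he)
    · rcases hE2 e (Finset.mem_union_right _ he) with h3 | h3
      · exact Or.inr (hC2 e he h3)
      · exact Or.inl h3
  · intro e
    rw [dg_union hdj, dg_Rh h]
    have h3 := hac.two e
    by_cases h4 : e ∈ E'
    · have h5 := h2 e h4
      obtain ⟨x, y⟩ := e
      simp only at h5
      by_cases h6 : ((x, y) : Ed) ∈ ed (ra v f1)
      · rw [if_pos h6]
        rw [mem_ra] at h6
        simp only at h6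
        have h7 : y = f1 := by
          rcases h6.2 with h7 | h7
          · exact absurd h7 h5
          · exact h7
        subst h7
        rcases h6.1 with h8 | h8
        · subst h8
          have h9 : ((0, y) : Ed) ∉ ed (rb v f2) := by
            rw [mem_rb]
            rintro ⟨h7 | h7, _⟩
            · exact absurd h7.symm hn.1
            · exact absurd h7 (by norm_num)
          rw [if_neg h9]
          omega
        · subst h8
          by_cases h9 : ((x, y) : Ed) ∈ ed (rb x f2)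
          · rw [if_pos h9]
            rw [mem_rb] at h9
            simp only at h9
            have h10 : y = f2 := by
              rcases h9.2 with h7 | h7
              · exact absurd h7 h5
              · exact h7
            have := d5 h10
            omega
          · rw [if_neg h9]
            omega
      · rw [if_neg h6]
        by_cases h7 : ((x, y) : Ed) ∈ ed (rb v f2)
        · rw [if_pos h7]
          rw [mem_rb] at h7
          simp only at h7
          have h8 : y = f2 := by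
            rcases h7.2 with h8 | h8
            · exact absurd h8 h5
            · exact h8
          subst h8
          rcases h7.1 with h9 | h9
          · subst h9
            omega
          · subst h9
            omega
        · rw [if_neg h7]
          omega
    · have h5 : dg N' e = 0 := by
        have : e ∉ EdS N' := fun h6 => h4 (hac.sub h6)
        have h7 := (dg_pos (N := N') (e := e)).not.2 this
        omega
      rw [h5]
      split_ifs <;> omega
  · intro X hX hb
    have h3 := sub_of h hX hN2 (by rw [hb]; exact Finset.notMem_empty _)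
      (by rw [hb]; exact Finset.notMem_empty _)
    exact hac.inj X h3 hb
  · intro Z hZ hE
    obtain ⟨D, hD, hD0, hD1⟩ := pattern h (((0, 2) : Ed) ∈ Z) (((1, 2) : Ed) ∈ Z)
    have hEv : Evn (symmDiff Z (bd D)) :=
      Evn_symmDiff hE (Evn_bd (fun r hr => isq_Rh h r (hD hr)))
    have hn0 : ((0, 2) : Ed) ∉ symmDiff Z (bd D) := by
      rw [Finset.mem_symmDiff]
      tauto
    have hn1 : ((1, 2) : Ed) ∉ symmDiff Z (bd D) := by
      rw [Finset.mem_symmDiff]
      tauto
    have hcol : ∀ e ∈ symmDiff Z (bd D), e.2 = 2 → e = ((v, 2) : Ed) := by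
      intro e he h3
      have h4 : e ∈ ({(0, 2), (v, 2), (1, 2)} : Finset Ed) := by
        have h5 := he
        rw [Finset.mem_symmDiff] at h5
        rcases h5 with h5 | h5
        · have h6 := hZ h5.1
          rw [Finset.mem_union] at h6
          rcases h6 with h6 | h6
          · exact absurd h3 (h2 e h6)
          · exact h6
        · exact hC2 e (EdS_mono hD (bd_sub _ h5.1)) h3
      simp only [Finset.mem_insert, Finset.mem_singleton] at h4
      rcases h4 with h4 | h4 | h4
      · rw [h4] at he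
        exact absurd he hn0
      · exact h4
      · rw [h4] at he
        exact absurd he hn1
    have hnv : ((v, 2) : Ed) ∉ symmDiff Z (bd D) := by
      intro h3
      have h4 : (symmDiff Z (bd D)).filter (fun e => e.2 = 2) = {((v, 2) : Ed)} := by
        ext e
        rw [Finset.mem_filter, Finset.mem_singleton]
        constructor
        · rintro ⟨h5, h6⟩
          exact hcol e h5 h6
        · rintro rfl
          exact ⟨h3, rfl⟩
      have h5 := hEv.2 2
      rw [h4] at h5
      simp at h5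
    obtain ⟨Y, hY, hYb⟩ := hac.sur (symmDiff Z (bd D)) (by
      intro e he
      by_cases h3 : e.2 = 2
      · rw [hcol e he h3] at he
        exact absurd he hnv
      · have h5 := he
        rw [Finset.mem_symmDiff] at h5
        rcases h5 with h5 | h5
        · have h6 := hZ h5.1
          rw [Finset.mem_union] at h6
          rcases h6 with h6 | h6
          · exact h6
          · exfalso
            simp only [Finset.mem_insert, Finset.mem_singleton] at h6
            rcases h6 with h6 | h6 | h6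
            · exact h3 (by rw [h6])
            · exact h3 (by rw [h6])
            · exact h3 (by rw [h6])
        · rcases hE2 e (Finset.mem_union_right _ (EdS_mono hD (bd_sub _ h5.1))) with h6 | h6
          · exact absurd h6 h3
          · exact h6) hEv
    refine ⟨Y ∪ D, Finset.union_subset_union hY hD, ?_⟩
    have hYD : Disjoint Y D :=
      Finset.disjoint_of_subset_left hY (Finset.disjoint_of_subset_right hD hdj)
    rw [bd_union hYD, hYb, symmDiff_symmDiff_cancel_right]

theorem hex_detach (h : HxL v f1 f2) (hP : Part qs (N' ∪ Rh v f1 f2)) (h2 : 2 ∉ vt N') :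
    AC (EdS N') N' ∧ bd N' = symmDiff (ed qs) (bd (Rh v f1 f2)) := by
  have hN2 : ∀ r ∈ N', 2 ∉ r.2 := by
    intro r hr h3
    exact h2 (Finset.mem_union_right _ (Finset.mem_biUnion.2 ⟨r, hr, h3⟩))
  have hdj : Disjoint N' (Rh v f1 f2) := by
    rw [Finset.disjoint_left]
    intro r hr h3
    apply hN2 r hr
    rw [Rh_eq, Finset.mem_insert, Finset.mem_singleton] at h3
    rcases h3 with rfl | rfl
    · simp [ra]
    · simp [rb]
  have hsub : N' ⊆ N' ∪ Rh v f1 f2 := Finset.subset_union_left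
  have hno : ∀ x : ℕ, ((x, 2) : Ed) ∉ EdS N' := by
    intro x hx
    rw [mem_EdS] at hx
    obtain ⟨r, hr, h3⟩ := hx
    exact hN2 r hr (mem_ed.1 h3).2
  refine ⟨⟨?_, Finset.Subset.refl _, ?_, ?_, ?_⟩, ?_⟩
  · intro r hr
    exact hP.ac.isq r (hsub hr)
  · intro e
    exact (dg_mono hsub e).trans (hP.ac.two e)
  · intro X hX hb
    exact hP.ac.inj X (hX.trans hsub) hb
  · intro Z hZ hE
    obtain ⟨Y, hY, hYb⟩ := hP.ac.sur Z (hZ.trans (EdS_mono hsub)) hE
    refine ⟨Y, ?_, hYb⟩
    exact sub_of h hY hN2 (fun h3 => hno 0 (hZ (by rw [← hYb]; exact h3)))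
      (fun h3 => hno 1 (hZ (by rw [← hYb]; exact h3)))
  · have h3 := hP.bnd
    rw [bd_union hdj] at h3
    rw [← h3, symmDiff_symmDiff_cancel_right]

end K5M
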