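import Pool.Agent.Lib.K5M.DHxA
import Pool.Agent.Lib.K5M.B5

/-!
# K5M.DHxB: the rest after removing the two quads at the side `2`

`N = N' ∪ Rh v f1 f2`, `2 ∉ vt N'`, `HxL v f1 f2`.  By `hex_detach` and `Rh_bd` `bd N' = {(0,3),(1,3)} Δ {(0,f1),(v,f1)} Δ {(v,f2),(1,f2)}`.

(a) `f1 = f2 = 3`: `bd N' = ∅`.  (→) `N' = ∅` (`AC.inj`).  (←) `hex_attach` with `N' = ∅`, `E' = {(0,3),(v,3),(1,3)}`: `AC E' ∅`: an even subset of `E'`
has at most one edge at every white, so it is empty.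
(b) `f1 = f2 = f ≠ 3`: `bd N' = {0,1} × {f,3}`.  (→) `Part ({0,1},{f,3}) N'`; `v ∉ vt N'`: `v` is white in `N`; if a quad of `N'` is at `v`: no edge of
`bd N'` is at `v`, so by `Part.link_white` (for `N`, `X = N'`) all quads of `N` at `v` are in `N'`, but `r1` is not (`2 ∉ vt N'`).
(←) `hex_attach` with `E' = EdS N' ∪ {(v,f)}`: an even subset of `E'` does not contain `(v,f)` (the only edge at `v`), so `AC E' N'`; `dg N' (v,f) = 0`,
`dg N' (0,f) = dg N' (1,f) = 1` (`Part.dg_one`).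
(c) `f1 = 3`, `f2 = f ≠ 3`: `bd N' = {v,1} × {f,3}`.  (→) as in (b), `0 ∉ vt N'` by `Part.link_white` with `p = 0`, `X = N'` (`r1` is at `0`).  (←)
`E' = EdS N' ∪ {(0,3)}` (`0` is in no edge of `EdS N'`).
(d) `f2 = 3`, `f1 = f ≠ 3`: `bd N' = {0,v} × {f,3}`, the same with `1` instead of `0`, `E' = EdS N' ∪ {(1,3)}`.
(e) `f1, f2, 3` different: `bd N' = {(0,3),(0,f1),(v,f1),(v,f2),(1,f2),(1,3)} = pe true [0,3] ∪ pe true [0,f1,v,f2,1,3]`; `IntD [0,3] [0,f1,v,f2,1,3]`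
(`p = 0`, `z = 3`, `f' = []`, `c' = [f1,v,f2,1]`), so `Fill true [0,3] [0,f1,v,f2,1,3] N' ↔ AC (EdS N') N' ∧ bd N' = .. ∧ Disjoint (wh N') (bl N')` (`fill_disk`).
(→) `hex_detach`, colours from `N`.  (←) `hex_attach` with `E' = EdS N'` (the boundary edges are in `EdS N'`, `dg N' = 1`: odd and at most 2).
In all cases (←): `isq` of `qs`; `EdS N = E' ∪ {(0,2),(v,2),(1,2)}` (the edges of `Rh` are these three and `(0,f1),(v,f1),(v,f2),(1,f2)`); `bd N = bd N' Δ bd Rh = ed qs`;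
colours: `wh N = wh N' ∪ {0,v,1}`, `bl N = bl N' ∪ {2,f1,f2}` (`Rh_vt`); the vertices of the boundary of `N'` have the right colours in `N'`
(`Part.sub_wh`, `Part.sub_bl`, `col`), in case (e) use the field `col` of `Fill`; `2 ∉ vt N'`, and the white label missing in `N'` (`v`, `0` or `1`) is not in `vt N'`.
`hx_iv`: `vt N = vt N' ∪ {0,v,1,2,f1,f2}`.
-/

set_option autoImplicit false

namespace K5M

open Finset

variable {N' : Finset Quad} {v f f1 f2 : ℕ}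

namespace DHxBAux

/-- The four other edges of the two quads. -/
def Fo (v f1 f2 : ℕ) : Finset Ed := {(0, f1), (v, f1), (v, f2), (1, f2)}

theorem mem_Fo {e : Ed} : e ∈ Fo v f1 f2 ↔
    (e.1 = 0 ∧ e.2 = f1) ∨ (e.1 = v ∧ e.2 = f1) ∨ (e.1 = v ∧ e.2 = f2) ∨ (e.1 = 1 ∧ e.2 = f2) := by
  obtain ⟨x, y⟩ := e
  unfold Fo
  simp only [Finset.mem_insert, Finset.mem_singleton, Prod.mk.injEq]

theorem lab (h : HxL v f1 f2) : v ≠ 0 ∧ v ≠ 1 ∧ v ≠ 2 ∧ v ≠ 3 ∧ f1 ≠ 0 ∧ f1 ≠ 1 ∧ f1 ≠ v ∧ f1 ≠ 2 ∧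
    f2 ≠ 0 ∧ f2 ≠ 1 ∧ f2 ≠ v ∧ f2 ≠ 2 := by
  have h1 := h.hv
  have h2 := h.h1
  have h3 := h.h2
  simp only [Finset.mem_insert, Finset.mem_singleton, not_or] at h1 h2 h3
  exact ⟨h1.1, h1.2.1, h1.2.2.1, h1.2.2.2, h2.1, h2.2.1, h2.2.2.1, h2.2.2.2, h3.1, h3.2.1, h3.2.2.1,
    h3.2.2.2⟩

theorem mem_wh' {N : Finset Quad} {a : ℕ} : a ∈ wh N ↔ ∃ r ∈ N, a ∈ r.1 := by
  unfold wh
  rw [Finset.mem_biUnion]

theorem mem_bl' {N : Finset Quad} {a : ℕ} : a ∈ bl N ↔ ∃ r ∈ N, a ∈ r.2 := by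
  unfold bl
  rw [Finset.mem_biUnion]

theorem ends {N : Finset Quad} {e : Ed} (he : e ∈ EdS N) : e.1 ∈ wh N ∧ e.2 ∈ bl N := by
  obtain ⟨r, hr, her⟩ := mem_EdS.1 he
  exact ⟨mem_wh'.2 ⟨r, hr, (mem_ed.1 her).1⟩, mem_bl'.2 ⟨r, hr, (mem_ed.1 her).2⟩⟩

/-- Adding pendant edges. -/
theorem ac_pend {F : Finset Ed} (hac : AC (EdS N') N')
    (hF : ∀ e ∈ F, e ∈ EdS N' ∨ ∀ e' ∈ EdS N' ∪ F, e'.1 = e.1 → e' = e) : AC (EdS N' ∪ F) N' := by
  refine ⟨hac.isq, Finset.subset_union_left, hac.two, hac.inj, ?_⟩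
  intro Z hZ he
  apply hac.sur Z ?_ he
  intro e heZ
  rcases Finset.mem_union.1 (hZ heZ) with h1 | h1
  · exact h1
  rcases hF e h1 with h2 | h2
  · exact h2
  exfalso
  have h3 := he.1 e.1
  have h4 : Z.filter (fun e' => e'.1 = e.1) = {e} := by
    ext e'
    rw [Finset.mem_filter, Finset.mem_singleton]
    constructor
    · rintro ⟨h5, h6⟩
      exact h2 e' (hZ h5) h6
    · intro h5
      rw [h5]
      exact ⟨heZ, rfl⟩
  rw [h4, Finset.card_singleton] at h3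
  exact absurd h3 (by decide)

theorem EdS_Rh (v f1 f2 : ℕ) : EdS (Rh v f1 f2) = Fo v f1 f2 ∪ {(0, 2), (v, 2), (1, 2)} := by
  ext ⟨x, y⟩
  unfold EdS Rh Fo ed
  simp only [Finset.mem_biUnion, Finset.mem_insert, Finset.mem_singleton, Finset.mem_product,
    exists_eq_or_imp, exists_eq_left, Finset.mem_union, Prod.mk.injEq]
  tauto

/-- From the rest to the network. -/
theorem mk_part (h : HxL v f1 f2) (h2 : 2 ∉ vt N') (hac : AC (EdS N') N')
    (hc : Disjoint (wh N') (bl N'))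
    (hF : ∀ e ∈ Fo v f1 f2, e ∈ bd N' ∨ (e.1 ∉ vt N' ∧ ∀ e' ∈ Fo v f1 f2, e'.1 = e.1 → e' = e))
    (hB1 : f1 ∉ wh N') (hB2 : f2 ∉ wh N') (d5 : f1 = f2 → v ∉ vt N')
    (hb : bd N' = symmDiff (ed qs) (bd (Rh v f1 f2))) : Part qs (N' ∪ Rh v f1 f2) := by
  have hl := lab h
  have h2w : 2 ∉ wh N' := fun h => h2 (Finset.mem_union_left _ h)
  have h2b : 2 ∉ bl N' := fun h => h2 (Finset.mem_union_right _ h)
  have hac' : AC (EdS N' ∪ Fo v f1 f2) N' := by
    apply ac_pend hac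
    intro e he
    rcases hF e he with h1 | ⟨h1, h3⟩
    · exact Or.inl (bd_sub _ h1)
    · right
      intro e' he' h4
      rcases Finset.mem_union.1 he' with h5 | h5
      · exfalso
        apply h1
        rw [← h4]
        exact Finset.mem_union_left _ (ends h5).1
      · exact h3 e' h5 h4
  have hd : ∀ e ∈ Fo v f1 f2, dg N' e ≤ 1 := by
    intro e he
    rcases hF e he with h1 | ⟨h1, h3⟩
    · have h4 := mem_bd.1 h1
      have h5 := hac.two e
      rcases h4 with ⟨k, hk⟩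
      omega
    · by_contra h4
      have h5 : 0 < dg N' e := by omega
      exact h1 (Finset.mem_union_left _ (ends (dg_pos.1 h5)).1)
  have m1 : ((0, f1) : Ed) ∈ Fo v f1 f2 := mem_Fo.2 (Or.inl ⟨rfl, rfl⟩)
  have m2 : ((v, f1) : Ed) ∈ Fo v f1 f2 := mem_Fo.2 (Or.inr (Or.inl ⟨rfl, rfl⟩))
  have m3 : ((v, f2) : Ed) ∈ Fo v f1 f2 := mem_Fo.2 (Or.inr (Or.inr (Or.inl ⟨rfl, rfl⟩)))
  have m4 : ((1, f2) : Ed) ∈ Fo v f1 f2 := mem_Fo.2 (Or.inr (Or.inr (Or.inr ⟨rfl, rfl⟩)))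
  obtain ⟨a1, a2⟩ := hex_attach h hac' (by
      intro e he h3
      rcases Finset.mem_union.1 he with h4 | h4
      · exact h2b (h3 ▸ (ends h4).2)
      · rw [mem_Fo] at h4
        omega)
    (Finset.mem_union_right _ m1) (Finset.mem_union_right _ m2) (Finset.mem_union_right _ m3)
    (Finset.mem_union_right _ m4) (hd _ m1) (hd _ m2) (hd _ m3) (hd _ m4) (by
      intro h3
      by_contra h4
      have h5 : 0 < dg N' (v, f1) := by omega
      exact d5 h3 (Finset.mem_union_left _ (ends (dg_pos.1 h5)).1))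
  have hE : EdS (N' ∪ Rh v f1 f2) = EdS N' ∪ Fo v f1 f2 ∪ {(0, 2), (v, 2), (1, 2)} := by
    rw [EdS_union, EdS_Rh, Finset.union_assoc]
  have whites : ∀ p ∈ ({0, v, 1} : Finset ℕ), p ∉ bl N' := by
    have key : ∀ e ∈ Fo v f1 f2, e.1 ∉ bl N' := by
      intro e he
      rcases hF e he with h1 | ⟨h1, h3⟩
      · exact Finset.disjoint_left.1 hc (ends (bd_sub _ h1)).1
      · exact fun h4 => h1 (Finset.mem_union_right _ h4)
    intro p hp
    simp only [Finset.mem_insert, Finset.mem_singleton] at hp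
    rcases hp with rfl | rfl | rfl
    · exact key _ m1
    · exact key _ m2
    · exact key _ m4
  refine ⟨⟨by decide, by decide⟩, by rw [hE]; exact a1, ?_, ?_⟩
  · rw [bd_union a2, hb, symmDiff_assoc, symmDiff_self, symmDiff_bot]
  · rw [B5Aux.wh_union, B5Aux.bl_union, Rh_vt.1, Rh_vt.2]
    rw [Finset.disjoint_left]
    intro a ha hb'
    rcases Finset.mem_union.1 ha with h1 | h1 <;> rcases Finset.mem_union.1 hb' with h3 | h3
    · exact Finset.disjoint_left.1 hc h1 h3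
    · simp only [Finset.mem_insert, Finset.mem_singleton] at h3
      rcases h3 with rfl | rfl | rfl
      · exact h2w h1
      · exact hB1 h1
      · exact hB2 h1
    · exact whites a h1 h3
    · simp only [Finset.mem_insert, Finset.mem_singleton] at h1 h3
      omega

/-- From the network to the rest. -/
theorem det (h : HxL v f1 f2) (h2 : 2 ∉ vt N') (hP : Part qs (N' ∪ Rh v f1 f2)) :
    AC (EdS N') N' ∧ Disjoint (wh N') (bl N') ∧ bd N' = symmDiff (ed qs) (bd (Rh v f1 f2)) ∧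
      ∀ p ∈ ({0, v, 1} : Finset ℕ), (∀ e ∈ bd N', e.1 ≠ p) → p ∉ vt N' := by
  obtain ⟨h3, h4⟩ := hex_detach h hP h2
  have hcol := hP.col
  rw [B5Aux.wh_union, B5Aux.bl_union] at hcol
  refine ⟨h3, hcol.mono Finset.subset_union_left Finset.subset_union_left, h4, ?_⟩
  intro p hp hno hpv
  have hpw : p ∈ wh (Rh v f1 f2) := by rw [Rh_vt.1]; exact hp
  rcases Finset.mem_union.1 hpv with h5 | h5
  · obtain ⟨r, hr, hpr⟩ := mem_wh'.1 hpw
    have h6 := (hP.link_white Finset.subset_union_left p (mem_wh'.1 h5) hno).1 r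
      (Finset.mem_union_right _ hr) hpr
    apply h2
    apply Finset.mem_union_right
    refine mem_bl'.2 ⟨r, h6, ?_⟩
    unfold Rh at hr
    simp only [Finset.mem_insert, Finset.mem_singleton] at hr
    rcases hr with rfl | rfl <;> simp
  · exact Finset.disjoint_left.1 hcol (Finset.mem_union_right _ hpw) (Finset.mem_union_left _ h5)

theorem mem_bdR (h : HxL v f1 f2) (x y : ℕ) : (x, y) ∈ symmDiff (ed qs) (bd (Rh v f1 f2)) ↔
    (((x = 0 ∨ x = 1) ∧ (y = 2 ∨ y = 3)) ∧ ¬ (((x = 0 ∨ x = v) ∧ (y = 2 ∨ y = f1)) ∧ ¬ ((x = v ∨ x = 1) ∧ (y = 2 ∨ y = f2)) ∨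
      ((x = v ∨ x = 1) ∧ (y = 2 ∨ y = f2)) ∧ ¬ ((x = 0 ∨ x = v) ∧ (y = 2 ∨ y = f1)))) ∨
    ((((x = 0 ∨ x = v) ∧ (y = 2 ∨ y = f1)) ∧ ¬ ((x = v ∨ x = 1) ∧ (y = 2 ∨ y = f2)) ∨
      ((x = v ∨ x = 1) ∧ (y = 2 ∨ y = f2)) ∧ ¬ ((x = 0 ∨ x = v) ∧ (y = 2 ∨ y = f1))) ∧ ¬ ((x = 0 ∨ x = 1) ∧ (y = 2 ∨ y = 3))) := by
  rw [Rh_bd h, Finset.mem_symmDiff, Finset.mem_symmDiff]
  simp only [mem_ed, qs, Finset.mem_insert, Finset.mem_singleton]

theorem T_a (h : HxL v 3 3) : symmDiff (ed qs) (bd (Rh v 3 3)) = ∅ := by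
  have hl := lab h
  ext ⟨x, y⟩
  rw [mem_bdR h]
  simp only [Finset.notMem_empty, iff_false]
  omega

theorem T_b (h : HxL v f f) (hf : f ≠ 3) :
    symmDiff (ed qs) (bd (Rh v f f)) = ed (({0, 1}, {f, 3}) : Quad) := by
  have hl := lab h
  ext ⟨x, y⟩
  rw [mem_bdR h]
  simp only [mem_ed, Finset.mem_insert, Finset.mem_singleton]
  omega

theorem T_c (h : HxL v 3 f) (hf : f ≠ 3) :
    symmDiff (ed qs) (bd (Rh v 3 f)) = ed (({v, 1}, {f, 3}) : Quad) := by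
  have hl := lab h
  ext ⟨x, y⟩
  rw [mem_bdR h]
  simp only [mem_ed, Finset.mem_insert, Finset.mem_singleton]
  omega

theorem T_d (h : HxL v f 3) (hf : f ≠ 3) :
    symmDiff (ed qs) (bd (Rh v f 3)) = ed (({0, v}, {f, 3}) : Quad) := by
  have hl := lab h
  ext ⟨x, y⟩
  rw [mem_bdR h]
  simp only [mem_ed, Finset.mem_insert, Finset.mem_singleton]
  omega

theorem T_e (h : HxL v f1 f2) (hf1 : f1 ≠ 3) (hf2 : f2 ≠ 3) (hf : f1 ≠ f2) :
    symmDiff (ed qs) (bd (Rh v f1 f2)) = pe true [0, 3] ∪ pe true [0, f1, v, f2, 1, 3] := by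
  have hl := lab h
  ext ⟨x, y⟩
  rw [mem_bdR h]
  simp only [pe, Finset.mem_union, Finset.mem_insert, Prod.mk.injEq, Finset.notMem_empty, or_false, if_true,
    if_false, Bool.not_true, Bool.not_false, Bool.false_eq_true]
  omega

theorem not_wh (hc : Disjoint (wh N') (bl N')) {a : ℕ} (ha : a ∈ bl N') : a ∉ wh N' :=
  fun h => Finset.disjoint_left.1 hc h ha

theorem intD_e (h : HxL v f1 f2) (hf1 : f1 ≠ 3) (hf2 : f2 ≠ 3) (hf : f1 ≠ f2) :
    IntD [0, 3] [0, f1, v, f2, 1, 3] := by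
  have hl := lab h
  refine ⟨0, 3, [], [f1, v, f2, 1], rfl, rfl, ?_, Or.inr (by simp), by simp⟩
  simp only [List.nil_append, List.nodup_cons, List.mem_cons, List.not_mem_nil, not_or, or_false,
    not_false_iff, and_true, List.nodup_nil]
  omega

theorem mem_T_e (x y : ℕ) : (x, y) ∈ pe true [0, 3] ∪ pe true [0, f1, v, f2, 1, 3] ↔
    (x = 0 ∧ y = 3) ∨ (x = 0 ∧ y = f1) ∨ (x = v ∧ y = f1) ∨ (x = v ∧ y = f2) ∨ (x = 1 ∧ y = f2) ∨
      (x = 1 ∧ y = 3) := by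
  simp only [pe, Finset.mem_union, Finset.mem_insert, Prod.mk.injEq, Finset.notMem_empty, or_false, if_true,
    if_false, Bool.not_true, Bool.not_false, Bool.false_eq_true]

end DHxBAux

open DHxBAux

theorem hx_a (h : HxL v 3 3) (h2 : 2 ∉ vt N') : Part qs (N' ∪ Rh v 3 3) ↔ N' = ∅ := by
  have hl := lab h
  constructor
  · intro hP
    obtain ⟨h3, _, h5, _⟩ := det h h2 hP
    rw [T_a h] at h5
    exact h3.inj N' (Finset.Subset.refl _) h5
  · rintro rfl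
    have hv : ∀ a : ℕ, a ∉ vt ∅ := fun a ha => Finset.notMem_empty a ha
    have hw : ∀ a : ℕ, a ∉ wh ∅ := fun a ha => Finset.notMem_empty a ha
    refine mk_part h h2 ?_ ?_ ?_ (hw 3) (hw 3) (fun _ => hv v) ?_
    · rw [B5Aux.EdS_empty]
      apply B5Aux.ac_empty
      intro Z hZ _
      exact Finset.subset_empty.1 hZ
    · exact Finset.disjoint_left.2 (fun a ha => absurd ha (hw a))
    · rintro ⟨x, y⟩ he
      right
      refine ⟨hv x, ?_⟩
      rintro ⟨x', y'⟩ he' h3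
      rw [mem_Fo] at he he'
      simp only at he he' h3
      rw [Prod.mk.injEq]
      omega
    · rw [bd_empty, T_a h]

theorem hx_b (h : HxL v f f) (hf : f ≠ 3) (h2 : 2 ∉ vt N') :
    Part qs (N' ∪ Rh v f f) ↔ Part (({0, 1}, {f, 3}) : Quad) N' ∧ v ∉ vt N' := by
  have hl := lab h
  constructor
  · intro hP
    obtain ⟨h3, h4, h5, h6⟩ := det h h2 hP
    rw [T_b h hf] at h5
    refine ⟨⟨⟨Finset.card_pair (by decide), Finset.card_pair hf⟩, h3, h5, h4⟩, h6 v (by simp) ?_⟩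
    rintro ⟨x, y⟩ he hx
    rw [h5, mem_ed] at he
    simp only [Finset.mem_insert, Finset.mem_singleton] at he hx
    omega
  · rintro ⟨hp, hv⟩
    have hB : f ∉ wh N' := not_wh hp.col (hp.sub_bl (by simp))
    refine mk_part h h2 hp.ac hp.col ?_ hB hB (fun _ => hv) ?_
    · rintro ⟨x, y⟩ he
      rw [mem_Fo] at he
      simp only at he
      by_cases hx : x = v
      · right
        refine ⟨by rw [hx]; exact hv, ?_⟩
        rintro ⟨x', y'⟩ he' h3
        rw [mem_Fo] at he'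
        simp only at he' h3
        rw [Prod.mk.injEq]
        omega
      · left
        rw [hp.bnd, mem_ed]
        simp only [Finset.mem_insert, Finset.mem_singleton]
        omega
    · rw [hp.bnd, T_b h hf]

theorem hx_c (h : HxL v 3 f) (hf : f ≠ 3) (h2 : 2 ∉ vt N') :
    Part qs (N' ∪ Rh v 3 f) ↔ Part (({v, 1}, {f, 3}) : Quad) N' ∧ 0 ∉ vt N' := by
  have hl := lab h
  constructor
  · intro hP
    obtain ⟨h3, h4, h5, h6⟩ := det h h2 hP
    rw [T_c h hf] at h5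
    refine ⟨⟨⟨Finset.card_pair hl.2.1, Finset.card_pair hf⟩, h3, h5, h4⟩, h6 0 (by simp) ?_⟩
    rintro ⟨x, y⟩ he hx
    rw [h5, mem_ed] at he
    simp only [Finset.mem_insert, Finset.mem_singleton] at he hx
    omega
  · rintro ⟨hp, hv⟩
    refine mk_part h h2 hp.ac hp.col ?_ (not_wh hp.col (hp.sub_bl (by simp)))
      (not_wh hp.col (hp.sub_bl (by simp))) (fun h3 => absurd h3.symm hf) ?_
    · rintro ⟨x, y⟩ he
      rw [mem_Fo] at he
      simp only at he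
      by_cases hx : x = 0
      · right
        refine ⟨by rw [hx]; exact hv, ?_⟩
        rintro ⟨x', y'⟩ he' h3
        rw [mem_Fo] at he'
        simp only at he' h3
        rw [Prod.mk.injEq]
        omega
      · left
        rw [hp.bnd, mem_ed]
        simp only [Finset.mem_insert, Finset.mem_singleton]
        omega
    · rw [hp.bnd, T_c h hf]

theorem hx_d (h : HxL v f 3) (hf : f ≠ 3) (h2 : 2 ∉ vt N') :
    Part qs (N' ∪ Rh v f 3) ↔ Part (({0, v}, {f, 3}) : Quad) N' ∧ 1 ∉ vt N' := by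
  have hl := lab h
  constructor
  · intro hP
    obtain ⟨h3, h4, h5, h6⟩ := det h h2 hP
    rw [T_d h hf] at h5
    refine ⟨⟨⟨Finset.card_pair hl.1.symm, Finset.card_pair hf⟩, h3, h5, h4⟩, h6 1 (by simp) ?_⟩
    rintro ⟨x, y⟩ he hx
    rw [h5, mem_ed] at he
    simp only [Finset.mem_insert, Finset.mem_singleton] at he hx
    omega
  · rintro ⟨hp, hv⟩
    refine mk_part h h2 hp.ac hp.col ?_ (not_wh hp.col (hp.sub_bl (by simp)))
      (not_wh hp.col (hp.sub_bl (by simp))) (fun h3 => absurd h3 hf) ?_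
    · rintro ⟨x, y⟩ he
      rw [mem_Fo] at he
      simp only at he
      by_cases hx : x = 1
      · right
        refine ⟨by rw [hx]; exact hv, ?_⟩
        rintro ⟨x', y'⟩ he' h3
        rw [mem_Fo] at he'
        simp only at he' h3
        rw [Prod.mk.injEq]
        omega
      · left
        rw [hp.bnd, mem_ed]
        simp only [Finset.mem_insert, Finset.mem_singleton]
        omega
    · rw [hp.bnd, T_d h hf]

theorem hx_e (h : HxL v f1 f2) (hf1 : f1 ≠ 3) (hf2 : f2 ≠ 3) (hf : f1 ≠ f2) (h2 : 2 ∉ vt N') :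
    Part qs (N' ∪ Rh v f1 f2) ↔ Fill true [0, 3] [0, f1, v, f2, 1, 3] N' := by
  have hl := lab h
  rw [fill_disk true (intD_e h hf1 hf2 hf)]
  constructor
  · intro hP
    obtain ⟨h3, h4, h5, _⟩ := det h h2 hP
    rw [T_e h hf1 hf2 hf] at h5
    exact ⟨h3, h5, h4⟩
  · rintro ⟨hac, hb, hc⟩
    have e1 : ((0, f1) : Ed) ∈ EdS N' := bd_sub _ (by rw [hb, mem_T_e]; tauto)
    have e2 : ((v, f2) : Ed) ∈ EdS N' := bd_sub _ (by rw [hb, mem_T_e]; tauto)
    refine mk_part h h2 hac hc ?_ (not_wh hc (ends e1).2) (not_wh hc (ends e2).2)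
      (fun h3 => absurd h3 hf) ?_
    · rintro ⟨x, y⟩ he
      left
      rw [mem_Fo] at he
      rw [hb, mem_T_e]
      simp only at he
      tauto
    · rw [hb, T_e h hf1 hf2 hf]

end K5M
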