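import Pool.Agent.Lib.K5M.DHxB
import Pool.Agent.Lib.K5M.DPi

/-!
# K5M.DHxC: marked networks with a flagged side with two quads, by the two quads at this side

`L` is disjoint from `{0,1,2,3}`; `HW x Y T L v f1 f2` is the total weight of the `(N, M)` with `MF qs (st 2 0) L N M` whose quads at the black `2` are `Rh v f1 f2`.

GENERAL.  `N' = N \ Rh v f1 f2`; the quads of `N` at `2` are those of `Rh`, so `2 ∉ bl N'`, `2 ∉ wh N` (colours): `2 ∉ vt N'`; `N = N' ∪ Rh v f1 f2`.  Conversely if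
`2 ∉ vt N'` then the quads of `N' ∪ Rh` at `2` are those of `Rh` (two different quads), `N' = (N' ∪ Rh) \ Rh`.
Marks: `flg qs (st 2 0) M = M ∪ {2}` (`2 ∉ M`).  `one` for `r1`, `r2`: `f1, f2 ∉ M`.  So `M ⊆ L' := L \ {v, f1, f2}` (`v` is white), `M ⊆ bl N'`; for `h ∈ M`: `qd N h = qd N' h`
(`h ∉ {2, f1, f2}`); `one` for `r ∈ N'`: `r.2 ∩ (M ∪ {2}) = r.2 ∩ M`.  Conversely if `M ⊆ L'`, `M` is disjoint from `{2, f1, f2}` and all conditions transfer.
Inner labels: `vt N = vt N' ∪ {0,v,1,2,f1,f2}`.  Whites: `(wh N ∩ L).card = 1 + (wh N' ∩ L').card` (`v ∈ L`; `f1`, `f2` are not white).  Quads without a flag: those of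
`N'` without a mark.
So `wF x Y T qs (st 2 0) L (N, M) = x * (weight of (N', M))`.
(a) `f1 = f2 = 3`: `N' = ∅` (`hx_a`), `L = {v}`, `M = ∅`, weight `x`.
(b) `f1 = f2 = f ≠ 3`: `hx_b`: `iv qs N = {v, f} ∪ iv ({0,1},{f,3}) N'`; the pairs `(N', M)` are those of `MF ({0,1},{f,3}) (fun _ => 0) (L \ {v, f})` (`v ∉ vt N'` and `2 ∉ vt N'` are
automatic: `v, 2 ∉ iv`, `∉ {0,1,f,3}`).  `flg q (fun _ => 0) M = M`.
(c), (d): the same with `hx_c` (`0 ∉ vt N'` is automatic: `0 ∉ {v,1,f,3}`, `0 ∉ L`), `hx_d`.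
(e): `hx_e`: `iv qs N = {v, f1, f2} ∪ inn [0,3] [0,f1,v,f2,1,3] N'`; the pairs `(N', M)` are those of `MFill true [0,3] [0,f1,v,f2,1,3] (L \ {v,f1,f2})` and the weight is `wt`.
`hw_sum`: `hex_quads` (`qd N 2 = st 2 0 2 = 2`) and `Rh_inj`, `tsum_disj`: the labels `v, f1, f2` are in `L` or `f1, f2 = 3` (`v, f1, f2 ∈ vt N`, not in `{0,1,2}`, `v ≠ 3`).
-/

set_option autoImplicit false

namespace K5M

open Finset
open scoped ENNReal

/-- Total weight, by the quads at the side `2`. -/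
noncomputable def HW (x Y T : ℝ≥0∞) (L : Finset ℕ) (v f1 f2 : ℕ) : ℝ≥0∞ :=
  ∑' s : {s : Finset Quad × Finset ℕ //
    MF qs (st 2 0) L s.1 s.2 ∧ s.1.filter (fun r => 2 ∈ r.2) = Rh v f1 f2},
    wF x Y T qs (st 2 0) L s.1

variable {x Y T : ℝ≥0∞} {L : Finset ℕ} {v f f1 f2 : ℕ}

namespace DHxCAux

theorem mem_Rh {r : Quad} : r ∈ Rh v f1 f2 ↔
    r = (({0, v}, {2, f1}) : Quad) ∨ r = (({v, 1}, {2, f2}) : Quad) := by
  unfold Rh
  rw [Finset.mem_insert, Finset.mem_singleton]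

theorem two_mem_Rh {r : Quad} (h : r ∈ Rh v f1 f2) : 2 ∈ r.2 := by
  rcases mem_Rh.1 h with h | h
  · subst h
    simp
  · subst h
    simp

theorem snd_Rh {r : Quad} (h : r ∈ Rh v f1 f2) {a : ℕ} (ha : a ∈ r.2) :
    a = 2 ∨ a = f1 ∨ a = f2 := by
  rcases mem_Rh.1 h with h | h
  · subst h
    rcases Finset.mem_insert.1 ha with h | h
    · exact Or.inl h
    · exact Or.inr (Or.inl (Finset.mem_singleton.1 h))
  · subst h
    rcases Finset.mem_insert.1 ha with h | h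
    · exact Or.inl h
    · exact Or.inr (Or.inr (Finset.mem_singleton.1 h))

theorem r1_ne_r2 (h : HxL v f1 f2) :
    (({0, v}, {2, f1}) : Quad) ≠ (({v, 1}, {2, f2}) : Quad) := by
  intro he
  have h1 : ({0, v} : Finset ℕ) = {v, 1} := congrArg Prod.fst he
  have h2 : (0 : ℕ) ∈ ({v, 1} : Finset ℕ) := by
    rw [← h1]
    exact Finset.mem_insert_self _ _
  rcases Finset.mem_insert.1 h2 with h3 | h3
  · exact h.hv (by rw [← h3]; exact Finset.mem_insert_self _ _)
  · exact absurd (Finset.mem_singleton.1 h3) (by norm_num)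

theorem card_Rh (h : HxL v f1 f2) : (Rh v f1 f2).card = 2 := Finset.card_pair (r1_ne_r2 h)

theorem wh_union (A B : Finset Quad) : wh (A ∪ B) = wh A ∪ wh B := by
  unfold wh
  exact Finset.union_biUnion

theorem bl_union (A B : Finset Quad) : bl (A ∪ B) = bl A ∪ bl B := by
  unfold bl
  exact Finset.union_biUnion

theorem mem_bl {N : Finset Quad} {a : ℕ} : a ∈ bl N ↔ ∃ r ∈ N, a ∈ r.2 := Finset.mem_biUnion

theorem mem_wh {N : Finset Quad} {a : ℕ} : a ∈ wh N ↔ ∃ r ∈ N, a ∈ r.1 := Finset.mem_biUnion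

theorem mem_vt {N : Finset Quad} {a : ℕ} : a ∈ vt N ↔ a ∈ wh N ∨ a ∈ bl N := Finset.mem_union

theorem not_two {N : Finset Quad} (h2 : 2 ∉ vt N) {r : Quad} (hr : r ∈ N) : 2 ∉ r.2 :=
  fun h => h2 (mem_vt.2 (Or.inr (mem_bl.2 ⟨r, hr, h⟩)))

theorem filt_union {N : Finset Quad} (h2 : 2 ∉ vt N) :
    (N ∪ Rh v f1 f2).filter (fun r => 2 ∈ r.2) = Rh v f1 f2 := by
  ext r
  rw [Finset.mem_filter, Finset.mem_union]
  constructor
  · rintro ⟨h | h, h'⟩
    · exact absurd h' (not_two h2 h)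
    · exact h
  · intro h
    exact ⟨Or.inr h, two_mem_Rh h⟩

theorem union_sdiff' {N : Finset Quad} (h2 : 2 ∉ vt N) :
    (N ∪ Rh v f1 f2) \ Rh v f1 f2 = N := by
  ext r
  rw [Finset.mem_sdiff, Finset.mem_union]
  constructor
  · rintro ⟨h | h, h'⟩
    · exact h
    · exact absurd h h'
  · intro h
    exact ⟨Or.inl h, fun h' => not_two h2 h (two_mem_Rh h')⟩

theorem sdiff_union' {N : Finset Quad} (h : N.filter (fun r => 2 ∈ r.2) = Rh v f1 f2) :
    (N \ Rh v f1 f2) ∪ Rh v f1 f2 = N := by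
  refine Finset.sdiff_union_of_subset ?_
  rw [← h]
  exact Finset.filter_subset _ _

theorem two_notin {N : Finset Quad} (hc : Disjoint (wh N) (bl N))
    (h : N.filter (fun r => 2 ∈ r.2) = Rh v f1 f2) : 2 ∉ vt (N \ Rh v f1 f2) := by
  intro h2
  rcases mem_vt.1 h2 with h2 | h2
  · obtain ⟨r, hr, h3⟩ := mem_wh.1 h2
    have h4 : (2 : ℕ) ∈ wh N := mem_wh.2 ⟨r, (Finset.mem_sdiff.1 hr).1, h3⟩
    have h5 : (({0, v}, {2, f1}) : Quad) ∈ Rh v f1 f2 := mem_Rh.2 (Or.inl rfl)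
    rw [← h] at h5
    have h6 : (2 : ℕ) ∈ bl N := mem_bl.2 ⟨_, (Finset.mem_filter.1 h5).1, by simp⟩
    exact Finset.disjoint_left.1 hc h4 h6
  · obtain ⟨r, hr, h3⟩ := mem_bl.1 h2
    have h4 := Finset.mem_sdiff.1 hr
    refine h4.2 ?_
    rw [← h]
    exact Finset.mem_filter.2 ⟨h4.1, h3⟩

theorem flg_st (M : Finset ℕ) : flg qs (st 2 0) M = M ∪ {2} := by
  unfold flg
  have h : qs.2.filter (fun b => st 2 0 b ≠ 0) = {2} := by decide
  rw [h]

theorem flg_zero (q : Quad) (M : Finset ℕ) : flg q (fun _ => 0) M = M := by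
  unfold flg
  have h : q.2.filter (fun _ => (0 : ℕ) ≠ 0) = ∅ := by
    rw [Finset.filter_eq_empty_iff]
    intro a _ h
    exact h rfl
  rw [h, Finset.union_empty]

theorem qd_union {N : Finset Quad} {h : ℕ} (h0 : h ≠ 2) (h1 : h ≠ f1) (h2 : h ≠ f2) :
    qd (N ∪ Rh v f1 f2) h = qd N h := by
  unfold qd
  congr 1
  ext r
  rw [Finset.mem_filter, Finset.mem_filter, Finset.mem_union]
  constructor
  · rintro ⟨h3 | h3, h4⟩
    · exact ⟨h3, h4⟩
    · rcases snd_Rh h3 h4 with h5 | h5 | h5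
      · exact absurd h5 h0
      · exact absurd h5 h1
      · exact absurd h5 h2
  · rintro ⟨h3, h4⟩
    exact ⟨Or.inl h3, h4⟩

/-- The condition on the rest. -/
def Cd (L : Finset ℕ) (v f1 f2 : ℕ) (N : Finset Quad) : Prop :=
  2 ∉ vt N ∧ Part qs (N ∪ Rh v f1 f2) ∧ iv qs (N ∪ Rh v f1 f2) = L

theorem L0 (hL : Disjoint L ({0, 1, 2, 3} : Finset ℕ)) {a : ℕ} (ha : a ∈ L) :
    a ≠ 0 ∧ a ≠ 1 ∧ a ≠ 2 ∧ a ≠ 3 := by
  have h := Finset.disjoint_left.1 hL ha
  simp only [Finset.mem_insert, Finset.mem_singleton, not_or] at h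
  exact h

theorem to_mf (hL : Disjoint L ({0, 1, 2, 3} : Finset ℕ)) (hx : HxL v f1 f2)
    {N : Finset Quad} {M : Finset ℕ} (hc : Cd L v f1 f2 N) (hm : Mk (L \ {v, f1, f2}) M N) :
    MF qs (st 2 0) L (N ∪ Rh v f1 f2) M := by
  obtain ⟨h2, hp, hi⟩ := hc
  have hM : ∀ h ∈ M, h ∈ L ∧ h ≠ v ∧ h ≠ f1 ∧ h ≠ f2 ∧ h ≠ 2 := by
    intro h hh
    have h3 := Finset.mem_sdiff.1 (hm.sub hh)
    simp only [Finset.mem_insert, Finset.mem_singleton, not_or] at h3
    exact ⟨h3.1, h3.2.1, h3.2.2.1, h3.2.2.2, (L0 hL h3.1).2.2.1⟩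
  have hf1 : f1 ≠ 2 := fun h => hx.h1 (by rw [h]; simp)
  have hf2 : f2 ≠ 2 := fun h => hx.h2 (by rw [h]; simp)
  refine ⟨hp, hi, fun h hh => (hM h hh).1, fun h hh => ?_, fun h hh => ?_, ?_, ?_⟩
  · rw [bl_union]
    exact Finset.mem_union_left _ (hm.blk hh)
  · obtain ⟨_, _, h3, h4, h5⟩ := hM h hh
    rw [qd_union h5 h3 h4]
    exact hm.three h hh
  · intro b hb hb'
    have h3 : b = 2 ∨ b = 3 := by
      have : b ∈ ({2, 3} : Finset ℕ) := hb
      rwa [Finset.mem_insert, Finset.mem_singleton] at this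
    rcases h3 with h3 | h3
    · subst h3
      unfold qd
      rw [filt_union h2, card_Rh hx]
      rfl
    · exfalso
      apply hb'
      subst h3
      rfl
  · intro r hr
    rw [flg_st]
    rcases Finset.mem_union.1 hr with hr | hr
    · have h3 : r.2 ∩ (M ∪ {2}) = r.2 ∩ M := by
        rw [Finset.inter_union_distrib_left, Finset.inter_singleton_of_notMem (not_two h2 hr),
          Finset.union_empty]
      rw [h3]
      exact hm.one r hr
    · have h3 : r.2 ∩ (M ∪ {2}) ⊆ {2} := by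
        intro a ha
        obtain ⟨h4, h5⟩ := Finset.mem_inter.1 ha
        rcases Finset.mem_union.1 h5 with h5 | h5
        · obtain ⟨_, _, h6, h7, h8⟩ := hM a h5
          rcases snd_Rh hr h4 with h9 | h9 | h9
          · exact absurd h9 h8
          · exact absurd h9 h6
          · exact absurd h9 h7
        · exact h5
      exact (Finset.card_le_card h3).trans (by simp)

theorem of_mf (hL : Disjoint L ({0, 1, 2, 3} : Finset ℕ)) (hx : HxL v f1 f2)
    {N : Finset Quad} {M : Finset ℕ} (h2 : 2 ∉ vt N)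
    (hm : MF qs (st 2 0) L (N ∪ Rh v f1 f2) M) : Cd L v f1 f2 N ∧ Mk (L \ {v, f1, f2}) M N := by
  have hf1 : f1 ≠ 2 := fun h => hx.h1 (by rw [h]; simp)
  have hf2 : f2 ≠ 2 := fun h => hx.h2 (by rw [h]; simp)
  have ho := hm.one
  rw [flg_st] at ho
  have key : ∀ f : ℕ, f ≠ 2 → ∀ s : Finset ℕ, ((s, {2, f}) : Quad) ∈ N ∪ Rh v f1 f2 → f ∉ M := by
    intro f hf s hs hfM
    have h3 := ho _ hs
    have h4 : ({2, f} : Finset ℕ) ⊆ ({2, f} : Finset ℕ) ∩ (M ∪ {2}) := by
      intro a ha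
      refine Finset.mem_inter.2 ⟨ha, ?_⟩
      rcases Finset.mem_insert.1 ha with h5 | h5
      · exact Finset.mem_union_right _ (Finset.mem_singleton.2 h5)
      · rw [Finset.mem_singleton.1 h5]
        exact Finset.mem_union_left _ hfM
    have h5 := Finset.card_le_card h4
    rw [Finset.card_pair (Ne.symm hf)] at h5
    have h6 : (({2, f} : Finset ℕ) ∩ (M ∪ {2})).card ≤ 1 := h3
    omega
  have k1 : f1 ∉ M := key f1 hf1 _ (Finset.mem_union_right _ (mem_Rh.2 (Or.inl rfl)))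
  have k2 : f2 ∉ M := key f2 hf2 _ (Finset.mem_union_right _ (mem_Rh.2 (Or.inr rfl)))
  have kv : v ∉ M := by
    intro h
    have h3 := hm.blk h
    have h4 : v ∈ wh (N ∪ Rh v f1 f2) := by
      rw [wh_union, Rh_vt.1]
      exact Finset.mem_union_right _ (by simp)
    exact Finset.disjoint_left.1 hm.part.col h4 h3
  have hne : ∀ h ∈ M, h ≠ 2 ∧ h ≠ f1 ∧ h ≠ f2 := fun h hh =>
    ⟨(L0 hL (hm.sub hh)).2.2.1, fun e => k1 (e ▸ hh), fun e => k2 (e ▸ hh)⟩
  refine ⟨⟨h2, hm.part, hm.inn⟩, fun h hh => ?_, fun h hh => ?_, fun h hh => ?_, fun r hr => ?_⟩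
  · refine Finset.mem_sdiff.2 ⟨hm.sub hh, ?_⟩
    simp only [Finset.mem_insert, Finset.mem_singleton, not_or]
    exact ⟨fun e => kv (e ▸ hh), (hne h hh).2⟩
  · have h3 := hm.blk hh
    rw [bl_union, Rh_vt.2] at h3
    rcases Finset.mem_union.1 h3 with h3 | h3
    · exact h3
    · simp only [Finset.mem_insert, Finset.mem_singleton] at h3
      obtain ⟨h4, h5, h6⟩ := hne h hh
      rcases h3 with h3 | h3 | h3
      · exact absurd h3 h4
      · exact absurd h3 h5
      · exact absurd h3 h6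
  · obtain ⟨h4, h5, h6⟩ := hne h hh
    rw [← qd_union (v := v) (N := N) h4 h5 h6]
    exact hm.three h hh
  · refine (Finset.card_le_card ?_).trans (ho r (Finset.mem_union_left _ hr))
    exact Finset.inter_subset_inter_left Finset.subset_union_left

theorem wF_eq (hL : Disjoint L ({0, 1, 2, 3} : Finset ℕ)) (hv : v ∈ L)
    {N : Finset Quad} {M : Finset ℕ} (hc : Cd L v f1 f2 N) :
    wF x Y T qs (st 2 0) L (N ∪ Rh v f1 f2, M) = x * wt x Y T (L \ {v, f1, f2}) (N, M) := by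
  obtain ⟨h2, hp, _⟩ := hc
  have hcol := hp.col
  rw [wh_union, bl_union, Rh_vt.1, Rh_vt.2] at hcol
  have hw : (wh (N ∪ Rh v f1 f2) ∩ L) = insert v (wh N ∩ (L \ {v, f1, f2})) := by
    rw [wh_union, Rh_vt.1]
    ext a
    simp only [Finset.mem_inter, Finset.mem_union, Finset.mem_insert, Finset.mem_singleton,
      Finset.mem_sdiff, not_or]
    constructor
    · rintro ⟨h3, h4⟩
      by_cases hav : a = v
      · exact Or.inl hav
      · refine Or.inr ⟨?_, h4, hav, ?_, ?_⟩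
        · rcases h3 with h3 | h3 | h3 | h3
          · exact h3
          · exact absurd h3 (L0 hL h4).1
          · exact absurd h3 hav
          · exact absurd h3 (L0 hL h4).2.1
        · intro h5
          have h6 : a ∈ wh N ∪ {0, v, 1} := by
            simp only [Finset.mem_union, Finset.mem_insert, Finset.mem_singleton]
            exact h3
          have h7 : a ∈ bl N ∪ {2, f1, f2} := by
            rw [h5]
            simp
          exact Finset.disjoint_left.1 hcol h6 h7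
        · intro h5
          have h6 : a ∈ wh N ∪ {0, v, 1} := by
            simp only [Finset.mem_union, Finset.mem_insert, Finset.mem_singleton]
            exact h3
          have h7 : a ∈ bl N ∪ {2, f1, f2} := by
            rw [h5]
            simp
          exact Finset.disjoint_left.1 hcol h6 h7
    · rintro (h3 | ⟨h3, h4, _⟩)
      · rw [h3]
        exact ⟨Or.inr (Or.inr (Or.inl rfl)), hv⟩
      · exact ⟨Or.inl h3, h4⟩
  have hy : (N ∪ Rh v f1 f2).filter (fun r => Disjoint r.2 (M ∪ {2})) =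
      N.filter (fun r => Disjoint r.2 M) := by
    ext r
    rw [Finset.mem_filter, Finset.mem_filter, Finset.mem_union, Finset.disjoint_union_right,
      Finset.disjoint_singleton_right]
    constructor
    · rintro ⟨h3 | h3, h4, h5⟩
      · exact ⟨h3, h4⟩
      · exact absurd (two_mem_Rh h3) h5
    · rintro ⟨h3, h4⟩
      exact ⟨Or.inl h3, h4, not_two h2 h3⟩
  have hvn : v ∉ wh N ∩ (L \ {v, f1, f2}) := by
    intro h
    have h3 := (Finset.mem_sdiff.1 (Finset.mem_inter.1 h).2).2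
    exact h3 (Finset.mem_insert_self _ _)
  unfold wF wt uq
  simp only [flg_st]
  rw [hw, hy, Finset.card_insert_of_notMem hvn, pow_succ]
  ring

theorem hw_gen (hL : Disjoint L ({0, 1, 2, 3} : Finset ℕ)) (hv : v ∈ L) (hx : HxL v f1 f2) :
    HW x Y T L v f1 f2 = x * ∑' t : {t : Finset Quad × Finset ℕ //
      Cd L v f1 f2 t.1 ∧ Mk (L \ {v, f1, f2}) t.2 t.1}, wt x Y T (L \ {v, f1, f2}) t.1 := by
  let E : {t : Finset Quad × Finset ℕ // Cd L v f1 f2 t.1 ∧ Mk (L \ {v, f1, f2}) t.2 t.1} ≃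
      {s : Finset Quad × Finset ℕ //
        MF qs (st 2 0) L s.1 s.2 ∧ s.1.filter (fun r => 2 ∈ r.2) = Rh v f1 f2} :=
    { toFun := fun t => ⟨(t.1.1 ∪ Rh v f1 f2, t.1.2),
        to_mf hL hx t.2.1 t.2.2, filt_union t.2.1.1⟩
      invFun := fun s => ⟨(s.1.1 \ Rh v f1 f2, s.1.2), by
        have h := of_mf (N := s.1.1 \ Rh v f1 f2) (M := s.1.2) hL hx
          (two_notin s.2.1.part.col s.2.2) (by
            rw [sdiff_union' s.2.2]
            exact s.2.1)
        exact h⟩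
      left_inv := by
        rintro ⟨⟨N, M⟩, h⟩
        refine Subtype.ext (Prod.ext ?_ rfl)
        exact union_sdiff' h.1.1
      right_inv := by
        rintro ⟨⟨N, M⟩, h⟩
        refine Subtype.ext (Prod.ext ?_ rfl)
        exact sdiff_union' h.2 }
  unfold HW
  rw [← ENNReal.tsum_mul_left, ← E.tsum_eq]
  refine tsum_congr fun t => ?_
  exact wF_eq hL hv t.2.1

theorem iv_gen (hL : Disjoint L ({0, 1, 2, 3} : Finset ℕ)) (hv : v ∈ L)
    (h1 : f1 ∈ L ∨ f1 = 3) (h2 : f2 ∈ L ∨ f2 = 3) {N : Finset Quad} {B : Finset ℕ}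
    (hB : B ⊆ {0, 1, v, f1, f2, 3}) :
    (2 ∉ vt N ∧ (∀ c ∈ ({0, 1, v, f1, f2} : Finset ℕ), c ≠ 3 → c ∉ B → c ∉ vt N) ∧
      iv qs (N ∪ Rh v f1 f2) = L ∧ (3 ∈ B ∨ 3 ∉ vt N)) ↔ vt N \ B = L \ {v, f1, f2} := by
  have hvt : vt (N ∪ Rh v f1 f2) = vt N ∪ {0, v, 1, 2, f1, f2} := by
    unfold vt
    rw [wh_union, bl_union, Rh_vt.1, Rh_vt.2]
    ext a
    simp only [Finset.mem_union, Finset.mem_insert, Finset.mem_singleton]
    tauto
  have hiv : ∀ a, a ∈ iv qs (N ∪ Rh v f1 f2) ↔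
      (a ∈ vt N ∨ a = v ∨ a = f1 ∨ a = f2) ∧ a ≠ 0 ∧ a ≠ 1 ∧ a ≠ 2 ∧ a ≠ 3 := by
    intro a
    unfold iv qs
    rw [hvt]
    simp only [Finset.mem_sdiff, Finset.mem_union, Finset.mem_insert, Finset.mem_singleton, not_or]
    tauto
  have hBm : ∀ a ∈ B, a = 0 ∨ a = 1 ∨ a = v ∨ a = f1 ∨ a = f2 ∨ a = 3 := by
    intro a ha
    have h := hB ha
    simp only [Finset.mem_insert, Finset.mem_singleton] at h
    exact h
  have hvL := L0 hL hv
  constructor
  · rintro ⟨h3, h4, h5, h6⟩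
    ext a
    simp only [Finset.mem_sdiff, Finset.mem_insert, Finset.mem_singleton, not_or]
    rw [← h5, hiv]
    constructor
    · rintro ⟨h7, h8⟩
      have h9 : ∀ c ∈ ({0, 1, v, f1, f2} : Finset ℕ), c ≠ 3 → a ≠ c := by
        intro c hc hc3 hac
        subst hac
        exact h4 a hc hc3 h8 h7
      have h10 : a ≠ 2 := by
        rintro rfl
        exact h3 h7
      have h11 : a ≠ 3 := by
        rintro rfl
        rcases h6 with h6 | h6
        · exact h8 h6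
        · exact h6 h7
      have n0 : a ≠ 0 := h9 0 (by simp) (by norm_num)
      have n1 : a ≠ 1 := h9 1 (by simp) (by norm_num)
      have nv : a ≠ v := h9 v (by simp) hvL.2.2.2
      have nf1 : a ≠ f1 := by
        by_cases h : f1 = 3
        · rw [h]
          exact h11
        · exact h9 f1 (by simp) h
      have nf2 : a ≠ f2 := by
        by_cases h : f2 = 3
        · rw [h]
          exact h11
        · exact h9 f2 (by simp) h
      exact ⟨⟨Or.inl h7, n0, n1, h10, h11⟩, nv, nf1, nf2⟩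
    · rintro ⟨⟨h7, n0, n1, h10, h11⟩, nv, nf1, nf2⟩
      refine ⟨?_, fun hb => ?_⟩
      · rcases h7 with h7 | h7 | h7 | h7
        · exact h7
        · exact absurd h7 nv
        · exact absurd h7 nf1
        · exact absurd h7 nf2
      · rcases hBm a hb with h | h | h | h | h | h
        · exact n0 h
        · exact n1 h
        · exact nv h
        · exact nf1 h
        · exact nf2 h
        · exact h11 h
  · intro h
    have hm : ∀ a, (a ∈ vt N ∧ a ∉ B) ↔ a ∈ L ∧ a ≠ v ∧ a ≠ f1 ∧ a ≠ f2 := by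
      intro a
      have h3 : a ∈ vt N \ B ↔ a ∈ L \ {v, f1, f2} := by rw [h]
      simp only [Finset.mem_sdiff, Finset.mem_insert, Finset.mem_singleton, not_or] at h3
      exact h3
    have hf1 : f1 ≠ 2 := by
      rcases h1 with h1 | h1
      · exact (L0 hL h1).2.2.1
      · rw [h1]
        norm_num
    have hf2 : f2 ≠ 2 := by
      rcases h2 with h2 | h2
      · exact (L0 hL h2).2.2.1
      · rw [h2]
        norm_num
    refine ⟨?_, ?_, ?_, ?_⟩
    · intro h3
      have h4 : (2 : ℕ) ∉ B := by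
        intro hb
        rcases hBm 2 hb with h | h | h | h | h | h
        · exact absurd h (by norm_num)
        · exact absurd h (by norm_num)
        · exact hvL.2.2.1 h.symm
        · exact hf1 h.symm
        · exact hf2 h.symm
        · exact absurd h (by norm_num)
      exact (L0 hL ((hm 2).1 ⟨h3, h4⟩).1).2.2.1 rfl
    · intro c hc _ hcB hcN
      obtain ⟨h4, h5, h6, h7⟩ := (hm c).1 ⟨hcN, hcB⟩
      simp only [Finset.mem_insert, Finset.mem_singleton] at hc
      rcases hc with hc | hc | hc | hc | hc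
      · exact (L0 hL h4).1 hc
      · exact (L0 hL h4).2.1 hc
      · exact h5 hc
      · exact h6 hc
      · exact h7 hc
    · ext a
      rw [hiv]
      constructor
      · rintro ⟨h3, n0, n1, n2, n3⟩
        by_cases av : a = v
        · rw [av]
          exact hv
        by_cases a1 : a = f1
        · rw [a1]
          rcases h1 with h1 | h1
          · exact h1
          · exact absurd (a1.trans h1) n3
        by_cases a2 : a = f2
        · rw [a2]
          rcases h2 with h2 | h2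
          · exact h2
          · exact absurd (a2.trans h2) n3
        have h4 : a ∈ vt N := by
          rcases h3 with h3 | h3 | h3 | h3
          · exact h3
          · exact absurd h3 av
          · exact absurd h3 a1
          · exact absurd h3 a2
        refine ((hm a).1 ⟨h4, fun hb => ?_⟩).1
        rcases hBm a hb with h | h | h | h | h | h
        · exact n0 h
        · exact n1 h
        · exact av h
        · exact a1 h
        · exact a2 h
        · exact n3 h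
      · intro ha
        refine ⟨?_, L0 hL ha⟩
        by_cases av : a = v
        · exact Or.inr (Or.inl av)
        by_cases a1 : a = f1
        · exact Or.inr (Or.inr (Or.inl a1))
        by_cases a2 : a = f2
        · exact Or.inr (Or.inr (Or.inr a2))
        exact Or.inl ((hm a).2 ⟨ha, av, a1, a2⟩).1
    · by_cases h3 : (3 : ℕ) ∈ B
      · exact Or.inl h3
      · right
        intro h4
        exact (L0 hL ((hm 3).1 ⟨h4, h3⟩).1).2.2.2 rfl

/-- The case of a quad. -/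
theorem hw_quad (hL : Disjoint L ({0, 1, 2, 3} : Finset ℕ)) (hv : v ∈ L) (hx : HxL v f1 f2)
    (h1 : f1 ∈ L ∨ f1 = 3) (h2 : f2 ∈ L ∨ f2 = 3) (q : Quad)
    (hB : q.1 ∪ q.2 ⊆ {0, 1, v, f1, f2, 3}) (h3 : 3 ∈ q.1 ∪ q.2) (P : Finset Quad → Prop)
    (hP : ∀ N, 2 ∉ vt N → (Part qs (N ∪ Rh v f1 f2) ↔ Part q N ∧ P N))
    (hP1 : ∀ N, (∀ c ∈ ({0, 1, v, f1, f2} : Finset ℕ), c ≠ 3 → c ∉ q.1 ∪ q.2 → c ∉ vt N) → P N)
    (hP2 : ∀ N, P N → (∀ c ∈ ({0, 1, v, f1, f2} : Finset ℕ), c ≠ 3 → c ∉ q.1 ∪ q.2 → c ∉ vt N)) :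
    HW x Y T L v f1 f2 = x * AW .all x Y T q (fun _ => 0) (L \ {v, f1, f2}) := by
  rw [hw_gen hL hv hx]
  congr 1
  unfold AW
  have hiff : ∀ t : Finset Quad × Finset ℕ,
      (Cd L v f1 f2 t.1 ∧ Mk (L \ {v, f1, f2}) t.2 t.1) ↔
        (MF q (fun _ => 0) (L \ {v, f1, f2}) t.1 t.2 ∧ Ty.all.cls q t.1) := by
    rintro ⟨N, M⟩
    have hi := iv_gen (N := N) hL hv h1 h2 hB
    constructor
    · rintro ⟨⟨c1, c2, c3⟩, hm⟩
      obtain ⟨p1, p2⟩ := (hP N c1).1 c2
      refine ⟨⟨p1, ?_, hm.sub, hm.blk, hm.three, ?_, ?_⟩, trivial⟩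
      · exact hi.1 ⟨c1, hP2 N p2, c3, Or.inl h3⟩
      · intro b _ hb
        exact absurd rfl hb
      · rw [flg_zero]
        exact hm.one
    · rintro ⟨hm, _⟩
      have h4 : vt N \ (q.1 ∪ q.2) = L \ {v, f1, f2} := hm.inn
      obtain ⟨c1, c2, c3, _⟩ := hi.2 h4
      have ho := hm.one
      rw [flg_zero] at ho
      exact ⟨⟨c1, (hP N c1).2 ⟨hm.part, hP1 N c2⟩, c3⟩, hm.sub, hm.blk, hm.three, ho⟩
  rw [← (Equiv.subtypeEquivRight hiff).tsum_eq]
  refine tsum_congr fun t => ?_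
  show wt x Y T (L \ {v, f1, f2}) t.1 = wF x Y T q (fun _ => 0) (L \ {v, f1, f2}) t.1
  unfold wt wF uq
  rw [flg_zero]

end DHxCAux

open DHxCAux

theorem hw_a (hL : Disjoint L ({0, 1, 2, 3} : Finset ℕ)) (hv : v ∈ L) :
    HW x Y T L v 3 3 = if L = {v} then x else 0 := by
  have hvL := L0 hL hv
  have hx : HxL v 3 3 := by
    refine ⟨?_, ?_, ?_⟩
    · simp only [Finset.mem_insert, Finset.mem_singleton, not_or]
      exact hvL
    · simp only [Finset.mem_insert, Finset.mem_singleton, not_or]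
      exact ⟨by norm_num, by norm_num, Ne.symm hvL.2.2.2, by norm_num⟩
    · simp only [Finset.mem_insert, Finset.mem_singleton, not_or]
      exact ⟨by norm_num, by norm_num, Ne.symm hvL.2.2.2, by norm_num⟩
  rw [hw_gen hL hv hx]
  have he2 : 2 ∉ vt (∅ : Finset Quad) := by
    unfold vt wh bl
    simp
  have hiv : iv qs (∅ ∪ Rh v 3 3) = {v} := by
    unfold iv qs vt
    rw [wh_union, bl_union, Rh_vt.1, Rh_vt.2]
    unfold wh bl
    ext a
    simp only [Finset.biUnion_empty, Finset.empty_union, Finset.mem_sdiff, Finset.mem_union,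
      Finset.mem_insert, Finset.mem_singleton, not_or]
    constructor
    · tauto
    · rintro rfl
      exact ⟨Or.inl (Or.inr (Or.inl rfl)), ⟨hvL.1, hvL.2.1⟩, hvL.2.2⟩
  have hemp : ∀ t : Finset Quad × Finset ℕ, (Cd L v 3 3 t.1 ∧ Mk (L \ {v, 3, 3}) t.2 t.1) →
      t = (∅, ∅) ∧ L = {v} := by
    rintro ⟨N, M⟩ ⟨⟨c1, c2, c3⟩, hm⟩
    have h1 : N = ∅ := (hx_a hx c1).1 c2
    have h2 : M = ∅ := by
      refine Finset.subset_empty.1 fun a ha => ?_
      have h3 : a ∈ bl N := hm.blk ha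
      rw [h1] at h3
      unfold bl at h3
      simp at h3
    have c3' : iv qs (N ∪ Rh v 3 3) = L := c3
    rw [h1, hiv] at c3'
    exact ⟨Prod.ext h1 h2, c3'.symm⟩
  by_cases hLv : L = {v}
  · rw [if_pos hLv]
    have hin : Cd L v 3 3 ∅ ∧ Mk (L \ {v, 3, 3}) ∅ ∅ := by
      refine ⟨⟨he2, (hx_a hx he2).2 rfl, ?_⟩, Finset.empty_subset _, Finset.empty_subset _,
        fun h hh => absurd hh (Finset.notMem_empty _), fun r hr => absurd hr (Finset.notMem_empty _)⟩
      rw [hiv, hLv]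
    rw [tsum_eq_single (⟨(∅, ∅), hin⟩ : {t : Finset Quad × Finset ℕ //
      Cd L v 3 3 t.1 ∧ Mk (L \ {v, 3, 3}) t.2 t.1})]
    · unfold wt uq wh
      simp
    · rintro ⟨t, ht⟩ hne
      exact absurd (Subtype.ext (hemp t ht).1) hne
  · rw [if_neg hLv]
    have : IsEmpty {t : Finset Quad × Finset ℕ //
        Cd L v 3 3 t.1 ∧ Mk (L \ {v, 3, 3}) t.2 t.1} :=
      ⟨fun t => hLv (hemp t.1 t.2).2⟩
    rw [tsum_empty, mul_zero]

theorem hw_b (hL : Disjoint L ({0, 1, 2, 3} : Finset ℕ)) (hv : v ∈ L) (hf : f ∈ L)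
    (hvf : v ≠ f) : HW x Y T L v f f =
      x * AW .all x Y T (({0, 1}, {f, 3}) : Quad) (fun _ => 0) (L \ {v, f}) := by
  have hvL := L0 hL hv
  have hfL := L0 hL hf
  have hx : HxL v f f := by
    refine ⟨?_, ?_, ?_⟩
    · simp only [Finset.mem_insert, Finset.mem_singleton, not_or]
      exact hvL
    · simp only [Finset.mem_insert, Finset.mem_singleton, not_or]
      exact ⟨hfL.1, hfL.2.1, Ne.symm hvf, hfL.2.2.1⟩
    · simp only [Finset.mem_insert, Finset.mem_singleton, not_or]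
      exact ⟨hfL.1, hfL.2.1, Ne.symm hvf, hfL.2.2.1⟩
  have hs : L \ {v, f} = L \ {v, f, f} := by
    congr 1
    simp
  rw [hs]
  refine hw_quad hL hv hx (Or.inl hf) (Or.inl hf) _ ?_ (by simp) (fun N => v ∉ vt N)
    (fun N h2 => hx_b hx hfL.2.2.2 h2) ?_ ?_
  · intro a
    simp only [Finset.mem_insert, Finset.mem_singleton, Finset.mem_union]
    tauto
  · intro N h
    refine h v (by simp) hvL.2.2.2 ?_
    simp only [Finset.mem_insert, Finset.mem_singleton, Finset.mem_union, not_or]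
    exact ⟨⟨hvL.1, hvL.2.1⟩, hvf, hvL.2.2.2⟩
  · intro N h c hc _ hcB
    simp only [Finset.mem_insert, Finset.mem_singleton, Finset.mem_union, not_or] at hc hcB
    have : c = v := by tauto
    rw [this]
    exact h

theorem hw_c (hL : Disjoint L ({0, 1, 2, 3} : Finset ℕ)) (hv : v ∈ L) (hf : f ∈ L)
    (hvf : v ≠ f) : HW x Y T L v 3 f =
      x * AW .all x Y T (({v, 1}, {f, 3}) : Quad) (fun _ => 0) (L \ {v, f}) := by
  have hvL := L0 hL hv
  have hfL := L0 hL hf
  have hx : HxL v 3 f := by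
    refine ⟨?_, ?_, ?_⟩
    · simp only [Finset.mem_insert, Finset.mem_singleton, not_or]
      exact hvL
    · simp only [Finset.mem_insert, Finset.mem_singleton, not_or]
      exact ⟨by norm_num, by norm_num, Ne.symm hvL.2.2.2, by norm_num⟩
    · simp only [Finset.mem_insert, Finset.mem_singleton, not_or]
      exact ⟨hfL.1, hfL.2.1, Ne.symm hvf, hfL.2.2.1⟩
  have hs : L \ {v, f} = L \ {v, 3, f} := by
    ext a
    simp only [Finset.mem_sdiff, Finset.mem_insert, Finset.mem_singleton, not_or]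
    constructor
    · rintro ⟨h1, h2, h3⟩
      exact ⟨h1, h2, (L0 hL h1).2.2.2, h3⟩
    · rintro ⟨h1, h2, _, h3⟩
      exact ⟨h1, h2, h3⟩
  rw [hs]
  refine hw_quad hL hv hx (Or.inr rfl) (Or.inl hf) _ ?_ (by simp) (fun N => 0 ∉ vt N)
    (fun N h2 => hx_c hx hfL.2.2.2 h2) ?_ ?_
  · intro a
    simp only [Finset.mem_insert, Finset.mem_singleton, Finset.mem_union]
    tauto
  · intro N h
    refine h 0 (by simp) (by norm_num) ?_
    simp only [Finset.mem_insert, Finset.mem_singleton, Finset.mem_union, not_or]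
    exact ⟨⟨Ne.symm hvL.1, by norm_num⟩, Ne.symm hfL.1, by norm_num⟩
  · intro N h c hc _ hcB
    simp only [Finset.mem_insert, Finset.mem_singleton, Finset.mem_union, not_or] at hc hcB
    have : c = 0 := by tauto
    rw [this]
    exact h

theorem hw_d (hL : Disjoint L ({0, 1, 2, 3} : Finset ℕ)) (hv : v ∈ L) (hf : f ∈ L)
    (hvf : v ≠ f) : HW x Y T L v f 3 =
      x * AW .all x Y T (({0, v}, {f, 3}) : Quad) (fun _ => 0) (L \ {v, f}) := by
  have hvL := L0 hL hv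
  have hfL := L0 hL hf
  have hx : HxL v f 3 := by
    refine ⟨?_, ?_, ?_⟩
    · simp only [Finset.mem_insert, Finset.mem_singleton, not_or]
      exact hvL
    · simp only [Finset.mem_insert, Finset.mem_singleton, not_or]
      exact ⟨hfL.1, hfL.2.1, Ne.symm hvf, hfL.2.2.1⟩
    · simp only [Finset.mem_insert, Finset.mem_singleton, not_or]
      exact ⟨by norm_num, by norm_num, Ne.symm hvL.2.2.2, by norm_num⟩
  have hs : L \ {v, f} = L \ {v, f, 3} := by
    ext a
    simp only [Finset.mem_sdiff, Finset.mem_insert, Finset.mem_singleton, not_or]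
    constructor
    · rintro ⟨h1, h2, h3⟩
      exact ⟨h1, h2, h3, (L0 hL h1).2.2.2⟩
    · rintro ⟨h1, h2, h3, _⟩
      exact ⟨h1, h2, h3⟩
  rw [hs]
  refine hw_quad hL hv hx (Or.inl hf) (Or.inr rfl) _ ?_ (by simp) (fun N => 1 ∉ vt N)
    (fun N h2 => hx_d hx hfL.2.2.2 h2) ?_ ?_
  · intro a
    simp only [Finset.mem_insert, Finset.mem_singleton, Finset.mem_union]
    tauto
  · intro N h
    refine h 1 (by simp) (by norm_num) ?_
    simp only [Finset.mem_insert, Finset.mem_singleton, Finset.mem_union, not_or]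
    exact ⟨⟨by norm_num, Ne.symm hvL.2.1⟩, Ne.symm hfL.2.1, by norm_num⟩
  · intro N h c hc _ hcB
    simp only [Finset.mem_insert, Finset.mem_singleton, Finset.mem_union, not_or] at hc hcB
    have : c = 1 := by tauto
    rw [this]
    exact h

theorem hw_e (hL : Disjoint L ({0, 1, 2, 3} : Finset ℕ)) (hv : v ∈ L) (h1 : f1 ∈ L)
    (h2 : f2 ∈ L) (hv1 : v ≠ f1) (hv2 : v ≠ f2) (h12 : f1 ≠ f2) :
    HW x Y T L v f1 f2 =
      x * FW x Y T true [0, 3] [0, f1, v, f2, 1, 3] (L \ {v, f1, f2}) := by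
  have hvL := L0 hL hv
  have h1L := L0 hL h1
  have h2L := L0 hL h2
  have hx : HxL v f1 f2 := by
    refine ⟨?_, ?_, ?_⟩
    · simp only [Finset.mem_insert, Finset.mem_singleton, not_or]
      exact hvL
    · simp only [Finset.mem_insert, Finset.mem_singleton, not_or]
      exact ⟨h1L.1, h1L.2.1, Ne.symm hv1, h1L.2.2.1⟩
    · simp only [Finset.mem_insert, Finset.mem_singleton, not_or]
      exact ⟨h2L.1, h2L.2.1, Ne.symm hv2, h2L.2.2.1⟩
  rw [hw_gen hL hv hx]
  congr 1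
  unfold FW
  have hB : ([0, 3].toFinset ∪ [0, f1, v, f2, 1, 3].toFinset : Finset ℕ) =
      {0, 1, v, f1, f2, 3} := by
    ext a
    simp only [Finset.mem_union, List.mem_toFinset, List.mem_cons, List.not_mem_nil, or_false,
      Finset.mem_insert, Finset.mem_singleton]
    tauto
  have hiff : ∀ t : Finset Quad × Finset ℕ,
      (Cd L v f1 f2 t.1 ∧ Mk (L \ {v, f1, f2}) t.2 t.1) ↔
        t ∈ MFill true [0, 3] [0, f1, v, f2, 1, 3] (L \ {v, f1, f2}) := by
    rintro ⟨N, M⟩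
    have hi := iv_gen (N := N) (B := {0, 1, v, f1, f2, 3}) hL hv (Or.inl h1) (Or.inl h2)
      (Finset.Subset.refl _)
    constructor
    · rintro ⟨⟨c1, c2, c3⟩, hm⟩
      refine ⟨(hx_e hx h1L.2.2.2 h2L.2.2.2 h12 c1).1 c2, ?_, hm⟩
      show (wh N ∪ bl N) \ ([0, 3].toFinset ∪ [0, f1, v, f2, 1, 3].toFinset) = _
      rw [hB]
      refine hi.1 ⟨c1, ?_, c3, Or.inl (by simp)⟩
      intro c hc _ hcB
      exfalso
      apply hcB
      simp only [Finset.mem_insert, Finset.mem_singleton] at hc ⊢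
      tauto
    · rintro ⟨hF, hin, hm⟩
      have h4 : (wh N ∪ bl N) \ ([0, 3].toFinset ∪ [0, f1, v, f2, 1, 3].toFinset) =
        L \ {v, f1, f2} := hin
      rw [hB] at h4
      obtain ⟨c1, _, c3, _⟩ := hi.2 h4
      exact ⟨⟨c1, (hx_e hx h1L.2.2.2 h2L.2.2.2 h12 c1).2 hF, c3⟩, hm⟩
  rw [← (Equiv.subtypeEquivRight hiff).tsum_eq]
  rfl

theorem hw_sum (hL : Disjoint L ({0, 1, 2, 3} : Finset ℕ)) :
    AW .all x Y T qs (st 2 0) L = ∑ v ∈ L, ∑ f1 ∈ insert 3 (L.erase v),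
      ∑ f2 ∈ insert 3 (L.erase v), HW x Y T L v f1 f2 := by
  unfold AW
  let S : Finset (Σ _ : ℕ, ℕ × ℕ) :=
    L.sigma (fun v => (insert 3 (L.erase v)) ×ˢ (insert 3 (L.erase v)))
  have hS : ∀ i : (Σ _ : ℕ, ℕ × ℕ), i ∈ S ↔ i.1 ∈ L ∧ i.2.1 ∈ insert 3 (L.erase i.1) ∧
      i.2.2 ∈ insert 3 (L.erase i.1) := by
    intro i
    simp only [S, Finset.mem_sigma, Finset.mem_product]
  have hx : ∀ i : (Σ _ : ℕ, ℕ × ℕ), i ∈ S → HxL i.1 i.2.1 i.2.2 := by
    rintro ⟨v, f1, f2⟩ hi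
    obtain ⟨hv, h1, h2⟩ := (hS _).1 hi
    have hvL := L0 hL hv
    have key : ∀ f ∈ insert 3 (L.erase v), f ∉ ({0, 1, v, 2} : Finset ℕ) := by
      intro f hf
      simp only [Finset.mem_insert, Finset.mem_singleton, not_or]
      rcases Finset.mem_insert.1 hf with h | h
      · rw [h]
        exact ⟨by norm_num, by norm_num, Ne.symm hvL.2.2.2, by norm_num⟩
      · obtain ⟨h3, h4⟩ := Finset.mem_erase.1 h
        have h5 := L0 hL h4
        exact ⟨h5.1, h5.2.1, h3, h5.2.2.1⟩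
    refine ⟨?_, key f1 h1, key f2 h2⟩
    simp only [Finset.mem_insert, Finset.mem_singleton, not_or]
    exact hvL
  rw [tsum_disj (fun s : Finset Quad × Finset ℕ => MF qs (st 2 0) L s.1 s.2 ∧ Ty.all.cls qs s.1)
    (fun i : (Σ _ : ℕ, ℕ × ℕ) => i ∈ S)
    (fun i s => MF qs (st 2 0) L s.1 s.2 ∧ s.1.filter (fun r => 2 ∈ r.2) = Rh i.1 i.2.1 i.2.2)]
  · have h1 : ∑' i : {i // i ∈ S}, (fun i : (Σ _ : ℕ, ℕ × ℕ) => HW x Y T L i.1 i.2.1 i.2.2) i.1 =
        ∑ i ∈ S, HW x Y T L i.1 i.2.1 i.2.2 :=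
      Finset.tsum_subtype S (fun i : (Σ _ : ℕ, ℕ × ℕ) => HW x Y T L i.1 i.2.1 i.2.2)
    have h2 : ∑ i ∈ S, HW x Y T L i.1 i.2.1 i.2.2 = ∑ v ∈ L, ∑ f1 ∈ insert 3 (L.erase v),
        ∑ f2 ∈ insert 3 (L.erase v), HW x Y T L v f1 f2 := by
      rw [Finset.sum_sigma]
      refine Finset.sum_congr rfl fun v _ => ?_
      rw [Finset.sum_product]
    rw [← h2, ← h1]
    rfl
  · rintro ⟨N, M⟩ ⟨hm, _⟩
    have h2 : qd N 2 = 2 := hm.side 2 (by decide) (by decide)
    obtain ⟨v, f1, f2, hx', hf⟩ := hex_quads hm.part h2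
    have hfl : ∀ r ∈ Rh v f1 f2, r ∈ N := by
      intro r hr
      rw [← hf] at hr
      exact (Finset.mem_filter.1 hr).1
    have hin : iv qs N = L := hm.inn
    have hv : v ∈ L := by
      rw [← hin]
      refine Finset.mem_sdiff.2 ⟨Finset.mem_union_left _ ?_, ?_⟩
      · exact mem_wh.2 ⟨_, hfl _ (mem_Rh.2 (Or.inl rfl)), by simp⟩
      · have h3 := hx'.hv
        simp only [Finset.mem_insert, Finset.mem_singleton, not_or] at h3
        unfold qs
        simp only [Finset.mem_union, Finset.mem_insert, Finset.mem_singleton, not_or]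
        exact ⟨⟨h3.1, h3.2.1⟩, h3.2.2⟩
    have key : ∀ f : ℕ, f ∈ bl N → f ∉ ({0, 1, v, 2} : Finset ℕ) → f ∈ insert 3 (L.erase v) := by
      intro f hf1 hf2
      simp only [Finset.mem_insert, Finset.mem_singleton, not_or] at hf2
      rw [Finset.mem_insert, Finset.mem_erase]
      by_cases h3 : f = 3
      · exact Or.inl h3
      · refine Or.inr ⟨hf2.2.2.1, ?_⟩
        rw [← hin]
        refine Finset.mem_sdiff.2 ⟨Finset.mem_union_right _ hf1, ?_⟩
        unfold qs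
        simp only [Finset.mem_union, Finset.mem_insert, Finset.mem_singleton, not_or]
        exact ⟨⟨hf2.1, hf2.2.1⟩, hf2.2.2.2, h3⟩
    refine ⟨⟨v, f1, f2⟩, (hS _).2 ⟨hv, key f1 ?_ hx'.h1, key f2 ?_ hx'.h2⟩, hm, hf⟩
    · exact mem_bl.2 ⟨_, hfl _ (mem_Rh.2 (Or.inl rfl)), by simp⟩
    · exact mem_bl.2 ⟨_, hfl _ (mem_Rh.2 (Or.inr rfl)), by simp⟩
  · rintro i s _ ⟨h1, _⟩
    exact ⟨h1, trivial⟩
  · rintro ⟨v, f1, f2⟩ ⟨v', f1', f2'⟩ s hi hj ⟨_, h1⟩ ⟨_, h2⟩
    obtain ⟨h3, h4, h5⟩ := Rh_inj (hx _ hi) (hx _ hj) (h1.symm.trans h2)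
    simp only at h3 h4 h5
    rw [h3, h4, h5]

end K5M
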