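import Pool.Agent.Lib.K5M.ND
import Pool.Agent.Lib.K5M.N2
import Pool.Agent.Lib.K5M.N5

/-!
# K5M.DPar: parallel networks: the first prime part

`q = ({w0, w1}, {b0, b1})`, `r1 = ({w0, w1}, {b0, l})`, `r2 = ({w0, w1}, {l, b1})`.

PROOFS.
`prm_iff`, `ser_iff`: unfold (`l ∉ {b0, b1}`; `∀ w ∈ {w0, w1}`).
`par_part`: `Part q {r1, r2}`: `r1 ≠ r2`; `bd {r1, r2} = ed r1 Δ ed r2 = {w0, w1} × {b0, b1}`.  `AC`: `two`: clear (two
quads); `inj`: `bd {r1} = ed r1 ≠ ∅`, `bd {r2} ≠ ∅`, `bd {r1, r2} ≠ ∅`; `sur`: an even subset `Z` of `{w0, w1} × {b0, b1, l}`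
contains at every black both edges or none, so `Z = {w0, w1} × B` with `B ⊆ {b0, b1, l}`, and `|B|` is even (evenness at
`w0`): `B = ∅, {b0, l}, {l, b1}, {b0, b1}`, i.e. `Z = bd ∅, bd {r1}, bd {r2}, bd {r1, r2}`.  `col`: `Nodup`.
`par_exists`: there is `c` with `Cb w0 w1 b0 b1 N c` (`prm_iff`); `par_region` gives `X_c ⊆ N` with `bd X_c = ed ({w0, w1}, {b0, c})`.
Choose `c` with `X_c.card` minimal.  Then `Prm ({w0, w1}, {b0, c}) X_c`: otherwise `par_sub` gives `c'` with `Cb .. N c'` and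
`X' ⊂ X_c`.  `[w0, w1, b0, b1, c].Nodup`: whites and blacks of `N` are disjoint.  Let `P r1 = X_c`, `P r2 = N \ X_c`
(`bd (N \ X_c) = ed r2` by `par_region`), `K = {r1, r2}`: `comp_of_partition`.
`par_unique`: `X = P r1`, `X' = P' r1'` are both contained in `N` (`glue`), with `bd X = ed r1`, `bd X' = ed r1'` (fields `part`).
By `par_nested` `X ⊆ X'` or `X' ⊆ X`; let `X ⊆ X'`.  If `l ≠ l'`: `(w0, l), (w1, l) ∈ ed r1 = bd X ⊆ EdS X ⊆ EdS X'`, `l ≠ b0`, `l ≠ l'`, so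
`Lb r1' X' l`: contradiction to `Prm r1' X'`.
`par_not_prm`: `(w, l) ∈ ed r1 = bd (P r1) ⊆ EdS (P r1) ⊆ EdS (glue ..)`.
-/

set_option autoImplicit false

namespace K5M

open Finset

variable {w0 w1 b0 b1 l l' : ℕ} {N : Finset Quad}

theorem prm_iff : Prm ({w0, w1}, {b0, b1}) N ↔ ∀ c, ¬ Cb w0 w1 b0 b1 N c := by
  unfold Prm Lb Cb
  constructor
  · intro h c hc
    refine h c ⟨?_, ?_⟩
    · rw [Finset.mem_insert, Finset.mem_singleton, not_or]
      exact ⟨hc.1, hc.2.1⟩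
    · intro w hw
      rcases Finset.mem_insert.1 hw with h1 | h1
      · rw [h1]; exact hc.2.2.1
      · rw [Finset.mem_singleton.1 h1]; exact hc.2.2.2
  · intro h c hc
    obtain ⟨h1, h2⟩ := hc
    rw [Finset.mem_insert, Finset.mem_singleton, not_or] at h1
    exact h c ⟨h1.1, h1.2, h2 w0 (Finset.mem_insert_self _ _),
      h2 w1 (Finset.mem_insert_of_mem (Finset.mem_singleton_self _))⟩

theorem ser_iff : Ser ({w0, w1}, {b0, b1}) N ↔ ∃ v, Cw w0 w1 b0 b1 N v := by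
  unfold Ser Lw Cw
  constructor
  · rintro ⟨v, h1, h2⟩
    rw [Finset.mem_insert, Finset.mem_singleton, not_or] at h1
    exact ⟨v, h1.1, h1.2, h2 b0 (Finset.mem_insert_self _ _),
      h2 b1 (Finset.mem_insert_of_mem (Finset.mem_singleton_self _))⟩
  · rintro ⟨v, h1, h2, h3, h4⟩
    refine ⟨v, ?_, ?_⟩
    · rw [Finset.mem_insert, Finset.mem_singleton, not_or]
      exact ⟨h1, h2⟩
    · intro b hb
      rcases Finset.mem_insert.1 hb with h5 | h5
      · rw [h5]; exact h3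
      · rw [Finset.mem_singleton.1 h5]; exact h4

namespace DParAux

/-- All the inequalities. -/
theorem nd (hd : [w0, w1, b0, b1, l].Nodup) : w0 ≠ w1 ∧ b0 ≠ b1 ∧ l ≠ b0 ∧ l ≠ b1 ∧ w0 ≠ b0 ∧ w0 ≠ b1 ∧
    w0 ≠ l ∧ w1 ≠ b0 ∧ w1 ≠ b1 ∧ w1 ≠ l := by
  simp only [List.nodup_cons, List.mem_cons, List.not_mem_nil, not_or, or_false, List.nodup_nil,
    not_false_eq_true, and_true] at hd
  obtain ⟨⟨h1, h2, h3, h4⟩, ⟨h5, h6, h7⟩, ⟨h8, h9⟩, h10⟩ := hd
  exact ⟨h1, h8, Ne.symm h9, Ne.symm h10, h2, h3, h4, h5, h6, h7⟩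

theorem single (q : Quad) : vt {q} = q.1 ∪ q.2 := by
  unfold vt wh bl
  rw [Finset.singleton_biUnion, Finset.singleton_biUnion]

theorem eq_of_bd {q : Quad} {N X X' : Finset Quad} (h : Part q N) (hX : X ⊆ N) (hX' : X' ⊆ N)
    (hb : bd X = bd X') : X = X' := by
  have h1 : bd (symmDiff X X') = ∅ := by
    rw [bd_symmDiff, hb]
    exact symmDiff_self _
  have h2 := h.ac.inj _ (by
    intro r hr
    rcases Finset.mem_symmDiff.1 hr with h3 | h3
    · exact hX h3.1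
    · exact hX' h3.1) h1
  exact symmDiff_eq_bot.1 h2

theorem r_ne (hd : [w0, w1, b0, b1, l].Nodup) :
    ((({w0, w1} : Finset ℕ), ({b0, l} : Finset ℕ)) : Quad) ≠ (({w0, w1} : Finset ℕ), ({l, b1} : Finset ℕ)) := by
  obtain ⟨-, h1, h2, -⟩ := nd hd
  intro h
  have h0 : ({b0, l} : Finset ℕ) = {l, b1} := congrArg Prod.snd h
  have h3 : b0 ∈ ({l, b1} : Finset ℕ) := by
    rw [← h0]
    exact Finset.mem_insert_self _ _
  rcases Finset.mem_insert.1 h3 with h4 | h4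
  · exact h2 h4.symm
  · exact h1 (Finset.mem_singleton.1 h4)

end DParAux

open DParAux

theorem par_part (hd : [w0, w1, b0, b1, l].Nodup) :
    Part ({w0, w1}, {b0, b1}) {(({w0, w1}, {b0, l}) : Quad), (({w0, w1}, {l, b1}) : Quad)} := by
  obtain ⟨h1, h2, h3, h4, h5, h6, h7, h8, h9, h10⟩ := nd hd
  have g1 : Net w0 w1 b0 l {((({w0, w1} : Finset ℕ), ({b0, l} : Finset ℕ)) : Quad)} := by
    refine net_iff_part.2 ⟨h1, Ne.symm h3, part_single ⟨Finset.card_pair h1, Finset.card_pair (Ne.symm h3)⟩ ?_⟩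
    rw [Finset.disjoint_left]
    intro x hx hx'
    simp only [Finset.mem_insert, Finset.mem_singleton] at hx hx'
    omega
  have g2 : Net w0 w1 l b1 {((({w0, w1} : Finset ℕ), ({l, b1} : Finset ℕ)) : Quad)} := by
    refine net_iff_part.2 ⟨h1, h4, part_single ⟨Finset.card_pair h1, Finset.card_pair h4⟩ ?_⟩
    rw [Finset.disjoint_left]
    intro x hx hx'
    simp only [Finset.mem_insert, Finset.mem_singleton] at hx hx'
    omega
  have g3 := (par_join g1 g2 (by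
    rw [single, single]
    ext x
    simp only [Finset.mem_inter, Finset.mem_union, Finset.mem_insert, Finset.mem_singleton]
    omega) h2).2.1
  exact (net_iff_part.1 g3).2.2

theorem par_exists (h : Part ({w0, w1}, {b0, b1}) N) (hw : w0 ≠ w1) (hb : b0 ≠ b1)
    (hp : ¬ Prm ({w0, w1}, {b0, b1}) N) :
    ∃ l, [w0, w1, b0, b1, l].Nodup ∧ ∃ P : Quad → Finset Quad,
      Comp ({w0, w1}, {b0, b1}) {(({w0, w1}, {b0, l}) : Quad), (({w0, w1}, {l, b1}) : Quad)} P ∧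
      glue {(({w0, w1}, {b0, l}) : Quad), (({w0, w1}, {l, b1}) : Quad)} P = N ∧
      Prm ({w0, w1}, {b0, l}) (P ({w0, w1}, {b0, l})) := by
  classical
  have hn : Net w0 w1 b0 b1 N := net_iff_part.2 ⟨hw, hb, h⟩
  rw [prm_iff] at hp
  push Not at hp
  obtain ⟨c0, hc0⟩ := hp
  have hex : ∃ n, ∃ (c : ℕ) (X : Finset Quad), Cb w0 w1 b0 b1 N c ∧ X ⊆ N ∧
      bd X = ed ({w0, w1}, {b0, c}) ∧ X.card = n := by
    obtain ⟨X, hX, h1, -⟩ := par_region hn hc0
    exact ⟨X.card, c0, X, hc0, hX, h1.bnd, rfl⟩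
  obtain ⟨c, X, hc, hX, hbX, hcard⟩ := Nat.find_spec hex
  have hmin : ∀ (c' : ℕ) (X' : Finset Quad), Cb w0 w1 b0 b1 N c' → X' ⊆ N →
      bd X' = ed ({w0, w1}, {b0, c'}) → X.card ≤ X'.card := by
    intro c' X' g1 g2 g3
    rw [hcard]
    exact Nat.find_min' hex ⟨c', X', g1, g2, g3, rfl⟩
  have hprm : Prm ({w0, w1}, {b0, c}) X := by
    rw [prm_iff]
    intro c' hc'
    obtain ⟨g1, X', g2, g3, g4⟩ := par_sub hn hX hbX hc'
    have g5 := hmin c' X' g1 g2 g3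
    have g6 := Finset.card_lt_card g4
    omega
  obtain ⟨X2, hX2, hN1, hN2, -⟩ := par_region hn hc
  have hXX : X2 = X := eq_of_bd h hX2 hX (by rw [hN1.bnd, hbX])
  rw [hXX] at hN1 hN2
  have hwN : ∀ {e : Ed}, e ∈ EdS N → e.1 ∈ wh N ∧ e.2 ∈ bl N := fun he => ⟨N1.wh_of he, N1.bl_of he⟩
  have m0 := hwN hc.2.2.1
  have m1 := hwN hc.2.2.2
  have m2 : b0 ∈ bl N := h.sub_bl (Finset.mem_insert_self _ _)
  have m3 : b1 ∈ bl N := h.sub_bl (Finset.mem_insert_of_mem (Finset.mem_singleton_self _))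
  have hdj : ∀ x y, x ∈ wh N → y ∈ bl N → x ≠ y := by
    rintro x y hx hy rfl
    exact Finset.disjoint_left.1 h.col hx hy
  have hnd : [w0, w1, b0, b1, c].Nodup := by
    simp only [List.nodup_cons, List.mem_cons, List.not_mem_nil, not_or, or_false, List.nodup_nil,
      not_false_eq_true, and_true]
    exact ⟨⟨hw, hdj _ _ m0.1 m2, hdj _ _ m0.1 m3, hdj _ _ m0.1 m0.2⟩, ⟨hdj _ _ m1.1 m2, hdj _ _ m1.1 m3,
      hdj _ _ m1.1 m1.2⟩, ⟨hb, Ne.symm hc.1⟩, Ne.symm hc.2.1⟩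
  have hne := r_ne hnd
  set r1 : Quad := (({w0, w1} : Finset ℕ), ({b0, c} : Finset ℕ)) with hr1
  set r2 : Quad := (({w0, w1} : Finset ℕ), ({c, b1} : Finset ℕ)) with hr2
  let P : Quad → Finset Quad := fun q => if q = r1 then X else N \ X
  have hP1 : P r1 = X := if_pos rfl
  have hP2 : P r2 = N \ X := if_neg (Ne.symm hne)
  have hglue : glue {r1, r2} P = N := by
    unfold glue
    rw [Finset.biUnion_insert, Finset.singleton_biUnion, hP1, hP2]
    exact Finset.union_sdiff_of_subset hX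
  refine ⟨c, hnd, P, comp_of_partition h ?_ ?_ ?_ hglue, hglue, by rw [hP1]; exact hprm⟩
  · intro q hq
    rcases Finset.mem_insert.1 hq with h1 | h1
    · rw [h1]
      exact ⟨Finset.card_pair hw, Finset.card_pair (Ne.symm hc.1)⟩
    · rw [Finset.mem_singleton.1 h1]
      exact ⟨Finset.card_pair hw, Finset.card_pair hc.2.1⟩
  · intro q hq
    rcases Finset.mem_insert.1 hq with h1 | h1
    · rw [h1, hP1]
      exact hbX
    · rw [Finset.mem_singleton.1 h1, hP2]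
      exact hN2.bnd
  · intro q hq q' hq' hqq
    rcases Finset.mem_insert.1 hq with h1 | h1 <;> rcases Finset.mem_insert.1 hq' with h2 | h2
    · exact absurd (h1.trans h2.symm) hqq
    · rw [h1, Finset.mem_singleton.1 h2, hP1, hP2]
      exact Finset.disjoint_sdiff
    · rw [h2, Finset.mem_singleton.1 h1, hP1, hP2]
      exact Finset.sdiff_disjoint
    · exact absurd ((Finset.mem_singleton.1 h1).trans (Finset.mem_singleton.1 h2).symm) hqq

namespace DParAux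

/-- The edges at `l` of the first part. -/
theorem edges {P : Quad → Finset Quad}
    (h : Comp ({w0, w1}, {b0, b1}) {(({w0, w1}, {b0, l}) : Quad), (({w0, w1}, {l, b1}) : Quad)} P) :
    (w0, l) ∈ EdS (P ({w0, w1}, {b0, l})) ∧ (w1, l) ∈ EdS (P ({w0, w1}, {b0, l})) := by
  have h1 := h.part ({w0, w1}, {b0, l}) (Finset.mem_insert_self _ _)
  have h2 : ∀ w ∈ ({w0, w1} : Finset ℕ), (w, l) ∈ EdS (P ({w0, w1}, {b0, l})) := by
    intro w hw
    apply bd_sub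
    rw [h1.bnd]
    exact mem_ed.2 ⟨hw, Finset.mem_insert_of_mem (Finset.mem_singleton_self _)⟩
  exact ⟨h2 w0 (Finset.mem_insert_self _ _), h2 w1 (Finset.mem_insert_of_mem (Finset.mem_singleton_self _))⟩

theorem sub_glue {K : Finset Quad} {P : Quad → Finset Quad} {q : Quad} (hq : q ∈ K) : P q ⊆ glue K P :=
  Finset.subset_biUnion_of_mem P hq

end DParAux

theorem par_unique {P P' : Quad → Finset Quad} (hd : [w0, w1, b0, b1, l].Nodup)
    (hd' : [w0, w1, b0, b1, l'].Nodup)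
    (h : Comp ({w0, w1}, {b0, b1}) {(({w0, w1}, {b0, l}) : Quad), (({w0, w1}, {l, b1}) : Quad)} P)
    (h' : Comp ({w0, w1}, {b0, b1})
      {(({w0, w1}, {b0, l'}) : Quad), (({w0, w1}, {l', b1}) : Quad)} P')
    (he : glue {(({w0, w1}, {b0, l}) : Quad), (({w0, w1}, {l, b1}) : Quad)} P =
      glue {(({w0, w1}, {b0, l'}) : Quad), (({w0, w1}, {l', b1}) : Quad)} P')
    (hp : Prm ({w0, w1}, {b0, l}) (P ({w0, w1}, {b0, l})))
    (hp' : Prm ({w0, w1}, {b0, l'}) (P' ({w0, w1}, {b0, l'}))) : l = l' := by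
  obtain ⟨h1, h2, h3, -⟩ := nd hd
  obtain ⟨-, -, h3', -⟩ := nd hd'
  by_contra hll
  have hN := h.part_glue
  have hn : Net w0 w1 b0 b1 (glue {(({w0, w1}, {b0, l}) : Quad), (({w0, w1}, {l, b1}) : Quad)} P) :=
    net_iff_part.2 ⟨h1, h2, hN⟩
  have e1 := edges h
  have e2 := edges h'
  have s1 : P ({w0, w1}, {b0, l}) ⊆ glue {(({w0, w1}, {b0, l}) : Quad), (({w0, w1}, {l, b1}) : Quad)} P :=
    sub_glue (Finset.mem_insert_self _ _)
  have s2 : P' ({w0, w1}, {b0, l'}) ⊆ glue {(({w0, w1}, {b0, l}) : Quad), (({w0, w1}, {l, b1}) : Quad)} P := by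
    rw [he]
    exact sub_glue (Finset.mem_insert_self _ _)
  rw [prm_iff] at hp hp'
  rcases par_nested hn s1 s2 (h.part _ (Finset.mem_insert_self _ _)).bnd
    (h'.part _ (Finset.mem_insert_self _ _)).bnd with hs | hs
  · exact hp' l ⟨h3, hll, EdS_mono hs e1.1, EdS_mono hs e1.2⟩
  · exact hp l' ⟨h3', fun hh => hll hh.symm, EdS_mono hs e2.1, EdS_mono hs e2.2⟩

theorem par_not_prm {P : Quad → Finset Quad} (hd : [w0, w1, b0, b1, l].Nodup)
    (h : Comp ({w0, w1}, {b0, b1})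
      {(({w0, w1}, {b0, l}) : Quad), (({w0, w1}, {l, b1}) : Quad)} P) :
    ¬ Prm ({w0, w1}, {b0, b1})
      (glue {(({w0, w1}, {b0, l}) : Quad), (({w0, w1}, {l, b1}) : Quad)} P) := by
  obtain ⟨-, -, h3, h4, -⟩ := nd hd
  intro hp
  rw [prm_iff] at hp
  have e1 := edges h
  have s1 : P ({w0, w1}, {b0, l}) ⊆ glue {(({w0, w1}, {b0, l}) : Quad), (({w0, w1}, {l, b1}) : Quad)} P :=
    sub_glue (Finset.mem_insert_self _ _)
  exact hp l ⟨h3, h4, EdS_mono s1 e1.1, EdS_mono s1 e1.2⟩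

end K5M
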