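import Pool.Agent.Lib.K5M.ND
import Pool.Agent.Lib.K5M.A5

/-!
# K5M.DRlA: relabelling of parts and marked networks

`s` is a permutation of the labels; `rq s`, `rN s`, `rE s`, `rM s` of `K5M.A5`.  Every statement: prove the direction from right to
left for all `s` with the lemmas of `K5M.A5` (`ed_rq`, `EdS_rN`, `bd_rN`, `AC_rN`, `wh_rN`, `bl_rN`, `qd_rN`, `IsQ_rq`), and apply it to `s.symm` for
the other direction (`rN_symm_rN`, `rq_symm_rq`, `image_symm_image`).
`iv (rq s q) (rN s N) = (iv q N).image s` (`vt` is a union, `Finset.image_sdiff`, injectivity).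
`Lb (rq s q) (rN s N) (s l) ↔ Lb q N l` (`mem_EdS_rN`: `(s w, s l) = rE s (w, l)`), every label is `s` of something; the same for `Lw`.
`CoreQ`: a subset of `rN s N` is `rN s X` with `X ⊆ N` (`X = rN s.symm ..`), `(bd (rN s X)).card = (bd X).card`.
`flg`: `(rq s q).2 = q.2.image s` and `c (s.symm (s b)) = c b`.
`wF`: `wcard_rM`; the filter of `rN s N` is the image of the filter; `(M.image s).card = M.card`.
-/

set_option autoImplicit false

namespace K5M

open Finset
open scoped ENNReal

variable (s : Equiv.Perm ℕ) {q : Quad} {N : Finset Quad} {c : ℕ → ℕ} {L M : Finset ℕ}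

theorem vt_rN : vt (rN s N) = (vt N).image s := by
  unfold vt
  rw [wh_rN, bl_rN, ← Finset.image_union]

theorem iv_rN : iv (rq s q) (rN s N) = (iv q N).image s := by
  unfold iv
  rw [vt_rN, Finset.image_sdiff _ _ s.injective, Finset.image_union]
  rfl

namespace DRlAAux

theorem part_fwd (h : Part q N) : Part (rq s q) (rN s N) where
  isq := (IsQ_rq s).mpr h.isq
  ac := by
    rw [EdS_rN]
    exact AC_rN s h.ac
  bnd := by
    rw [bd_rN, h.bnd, ed_rq]
  col := by
    rw [wh_rN, bl_rN]
    exact im_disj s h.col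

theorem card_rN (X : Finset Quad) : (rN s X).card = X.card :=
  Finset.card_image_of_injective _ (rq_inj s)

theorem card_rZ (X : Finset Ed) : (rZ s X).card = X.card :=
  Finset.card_image_of_injective _ (rE_inj s)

theorem coreQ_fwd (h : CoreQ q N) : CoreQ (rq s q) (rN s N) where
  part := part_fwd s h.part
  three := by
    rw [card_rN]
    exact h.three
  irr := by
    intro X hX hb
    have h1 : rN s.symm X ⊆ N := by
      have := rN_mono s.symm hX
      rwa [rN_symm_rN] at this
    rcases h.irr _ h1 (by rw [bd_rN, card_rZ]; exact hb) with h2 | h2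
    · left
      rwa [card_rN] at h2
    · right
      rw [← h2, rN_rN_symm]

theorem Lb_fwd {l : ℕ} (h : Lb q N l) : Lb (rq s q) (rN s N) (s l) := by
  refine ⟨fun h1 => h.1 ((mem_im s).mp h1), fun w hw => ?_⟩
  obtain ⟨w', hw', rfl⟩ := Finset.mem_image.mp (show w ∈ q.1.image s from hw)
  exact (mem_EdS_rN s (e := (w', l))).mpr (h.2 w' hw')

theorem Lw_fwd {l : ℕ} (h : Lw q N l) : Lw (rq s q) (rN s N) (s l) := by
  refine ⟨fun h1 => h.1 ((mem_im s).mp h1), fun w hw => ?_⟩
  obtain ⟨w', hw', rfl⟩ := Finset.mem_image.mp (show w ∈ q.2.image s from hw)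
  exact (mem_EdS_rN s (e := (l, w'))).mpr (h.2 w' hw')

theorem Prm_iff : Prm (rq s q) (rN s N) ↔ Prm q N := by
  constructor
  · intro h l hl
    exact h _ (Lb_fwd s hl)
  · intro h l hl
    have h1 := Lb_fwd s.symm hl
    rw [rq_symm_rq, rN_symm_rN] at h1
    exact h _ h1

theorem Ser_iff : Ser (rq s q) (rN s N) ↔ Ser q N := by
  constructor
  · rintro ⟨v, hv⟩
    have h1 := Lw_fwd s.symm hv
    rw [rq_symm_rq, rN_symm_rN] at h1
    exact ⟨_, h1⟩
  · rintro ⟨v, hv⟩
    exact ⟨_, Lw_fwd s hv⟩

end DRlAAux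

open DRlAAux

theorem part_rN : Part (rq s q) (rN s N) ↔ Part q N := by
  refine ⟨fun h => ?_, part_fwd s⟩
  have h1 := part_fwd s.symm h
  rwa [rq_symm_rq, rN_symm_rN] at h1

theorem coreQ_rN : CoreQ (rq s q) (rN s N) ↔ CoreQ q N := by
  refine ⟨fun h => ?_, coreQ_fwd s⟩
  have h1 := coreQ_fwd s.symm h
  rwa [rq_symm_rq, rN_symm_rN] at h1

theorem cls_rN (t : Ty) : t.cls (rq s q) (rN s N) ↔ t.cls q N := by
  cases t with
  | all => exact Iff.rfl
  | prm => exact Prm_iff s
  | nsr => exact not_congr (Ser_iff s)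
  | ser => exact Ser_iff s
  | cor =>
    show Prm _ _ ∧ ¬ Ser _ _ ∧ 2 ≤ (rN s N).card ↔ Prm _ _ ∧ ¬ Ser _ _ ∧ 2 ≤ N.card
    rw [Prm_iff, Ser_iff, card_rN]

theorem flg_rq : flg (rq s q) (fun b => c (s.symm b)) (M.image s) = (flg q c M).image s := by
  unfold flg
  rw [Finset.image_union]
  congr 1
  show (q.2.image s).filter (fun b => c (s.symm b) ≠ 0) = _
  rw [Finset.filter_image]
  congr 1
  apply Finset.filter_congr
  intro b _
  simp

namespace DRlAAux

theorem mf_fwd (h : MF q c L N M) :
    MF (rq s q) (fun b => c (s.symm b)) (L.image s) (rN s N) (M.image s) where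
  part := part_fwd s h.part
  inn := by
    rw [iv_rN, h.inn]
  sub := Finset.image_subset_image h.sub
  blk := by
    rw [bl_rN]
    exact Finset.image_subset_image h.blk
  three := by
    intro b hb
    obtain ⟨b', hb', rfl⟩ := Finset.mem_image.mp hb
    rw [qd_rN]
    exact h.three b' hb'
  side := by
    intro b hb hc
    obtain ⟨b', hb', rfl⟩ := Finset.mem_image.mp (show b ∈ q.2.image s from hb)
    simp only [Equiv.symm_apply_apply] at hc ⊢
    rw [qd_rN]
    exact h.side b' hb' hc
  one := by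
    intro r hr
    obtain ⟨r', hr', rfl⟩ := Finset.mem_image.mp (show r ∈ N.image (rq s) from hr)
    rw [flg_rq]
    have h1 : (rq s r').2 ∩ (flg q c M).image s = (r'.2 ∩ flg q c M).image s :=
      (Finset.image_inter _ _ s.injective).symm
    rw [h1, card_im]
    exact h.one r' hr'

end DRlAAux

theorem mf_rN : MF (rq s q) (fun b => c (s.symm b)) (L.image s) (rN s N) (M.image s) ↔
    MF q c L N M := by
  refine ⟨fun h => ?_, mf_fwd s⟩
  have h1 := mf_fwd s.symm h
  rw [rq_symm_rq, rN_symm_rN, image_symm_image, image_symm_image] at h1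
  simpa using h1

theorem wF_rM (x Y T : ℝ≥0∞) (t : Finset Quad × Finset ℕ) :
    wF x Y T (rq s q) (fun b => c (s.symm b)) (L.image s) (rM s t) = wF x Y T q c L t := by
  unfold wF
  rw [wcard_rM]
  have h1 : ((rM s t).1.filter (fun r => Disjoint r.2 (flg (rq s q) (fun b => c (s.symm b))
      (rM s t).2))).card = (t.1.filter (fun r => Disjoint r.2 (flg q c t.2))).card := by
    show ((rN s t.1).filter (fun r => Disjoint r.2 (flg (rq s q) (fun b => c (s.symm b))
      (t.2.image s)))).card = _
    rw [flg_rq]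
    unfold rN
    rw [Finset.filter_image, Finset.card_image_of_injective _ (rq_inj s)]
    congr 1
    apply Finset.filter_congr
    intro r _
    exact Finset.disjoint_image s.injective
  have h2 : (rM s t).2.card = t.2.card := card_im s t.2
  rw [h1, h2]

end K5M
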