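import Mathlib

/-!
# K5M.Defs: quads, boundaries, disks, networks, fillings, marks

The map side of the enumeration of graphs without a `K_5` minor.  A planar map is represented by
its radial graph: white vertices (= vertices of the map), black vertices (= faces of the map) and
quads `({w, w'}, {b, b'})` (= edges of the map: two ends, two sides).  All labels are natural
numbers; an edge of the radial graph is a pair (white, black).
-/

set_option autoImplicit false

namespace K5M

open Finset
open scoped ENNReal

/-- An edge of the radial graph: (white, black). -/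
abbrev Ed := ℕ × ℕ

/-- A quad: its two white and its two black vertices. -/
abbrev Quad := Finset ℕ × Finset ℕ

/-- The four edges of a quad. -/
def ed (q : Quad) : Finset Ed := q.1 ×ˢ q.2

def IsQ (q : Quad) : Prop := q.1.card = 2 ∧ q.2.card = 2

/-- The edges of a set of quads. -/
def EdS (N : Finset Quad) : Finset Ed := N.biUnion ed

/-- The number of quads of `N` at the edge `e`. -/
def dg (N : Finset Quad) (e : Ed) : ℕ := (N.filter (fun q => e ∈ ed q)).card

/-- The boundary modulo 2. -/
def bd (N : Finset Quad) : Finset Ed := (EdS N).filter (fun e => Odd (dg N e))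

/-- Even sets of edges (elements of the cycle space). -/
def Evn (Z : Finset Ed) : Prop :=
  (∀ w, Even (Z.filter (fun e => e.1 = w)).card) ∧ ∀ b, Even (Z.filter (fun e => e.2 = b)).card

/-- White and black vertices of a set of quads. -/
def wh (N : Finset Quad) : Finset ℕ := N.biUnion Prod.fst
def bl (N : Finset Quad) : Finset ℕ := N.biUnion Prod.snd

/-- Acyclic complex: the boundary map is a bijection from the subsets of `N` onto the even subsets
of `E`; every edge is in at most two quads. -/
structure AC (E : Finset Ed) (N : Finset Quad) : Prop where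
  isq : ∀ q ∈ N, IsQ q
  sub : EdS N ⊆ E
  two : ∀ e, dg N e ≤ 2
  inj : ∀ X ⊆ N, bd X = ∅ → X = ∅
  sur : ∀ Z ⊆ E, Evn Z → ∃ X ⊆ N, bd X = Z

/-- A circuit: a minimal nonempty even set. -/
structure Circ (Z : Finset Ed) : Prop where
  ne : Z.Nonempty
  evn : Evn Z
  min : ∀ Z' ⊆ Z, Evn Z' → Z' = ∅ ∨ Z' = Z

/-! ### Paths and fillings -/

/-- The edges of the path through the vertices of the list; the first vertex is white iff `c`. -/
def pe : Bool → List ℕ → Finset Ed
  | c, a :: b :: l => insert (if c then (a, b) else (b, a)) (pe (!c) (b :: l))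
  | _, _ => ∅

/-- The white vertices of the path. -/
def pw : Bool → List ℕ → Finset ℕ
  | c, a :: l => if c then insert a (pw (!c) l) else pw (!c) l
  | _, _ => ∅

/-- The black vertices of the path. -/
def pb (c : Bool) (l : List ℕ) : Finset ℕ := pw (!c) l

/-- `N` fills the region between the two paths `f` and `c`, which have the same ends.  The first
vertex of both paths is white iff `k`. -/
structure Fill (k : Bool) (f c : List ℕ) (N : Finset Quad) : Prop where
  ac : AC (EdS N ∪ pe k f ∪ pe k c) N
  bnd : bd N = symmDiff (pe k f) (pe k c)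
  dj : Disjoint (pe k f ∩ pe k c) (EdS N)
  nf : f.Nodup
  nc : c.Nodup
  fne : f ≠ []
  hd : f.head? = c.head?
  lt : f.getLast? = c.getLast?
  par : f.length % 2 = c.length % 2
  col : Disjoint (wh N ∪ pw k f ∪ pw k c) (bl N ∪ pb k f ∪ pb k c)

/-- The inner vertices of a filling. -/
def inn (f c : List ℕ) (N : Finset Quad) : Finset ℕ := (wh N ∪ bl N) \ (f.toFinset ∪ c.toFinset)

/-! ### Marks (dark triangles) and weights -/

/-- The number of quads at the black vertex `b`. -/
def qd (N : Finset Quad) (b : ℕ) : ℕ := (N.filter (fun q => b ∈ q.2)).card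

/-- `M` is a set of marked black vertices with inner label set `L`: every marked black vertex lies
in exactly three quads, and no quad contains two of them. -/
structure Mk (L M : Finset ℕ) (N : Finset Quad) : Prop where
  sub : M ⊆ L
  blk : M ⊆ bl N
  three : ∀ h ∈ M, qd N h = 3
  one : ∀ q ∈ N, (q.2 ∩ M).card ≤ 1

/-- The number of quads without a marked black vertex. -/
def uq (M : Finset ℕ) (N : Finset Quad) : ℕ := (N.filter (fun q => Disjoint q.2 M)).card

/-- The weight of a marked complex with inner label set `L`: `x` for every inner white vertex, `Y`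
for every quad without a mark, `T` for every mark. -/
noncomputable def wt (x Y T : ℝ≥0∞) (L : Finset ℕ) (s : Finset Quad × Finset ℕ) : ℝ≥0∞ :=
  x ^ (wh s.1 ∩ L).card * Y ^ uq s.2 s.1 * T ^ s.2.card

/-- Marked fillings between `f` and `c` with inner label set `L`. -/
def MFill (k : Bool) (f c : List ℕ) (L : Finset ℕ) : Set (Finset Quad × Finset ℕ) :=
  {s | Fill k f c s.1 ∧ inn f c s.1 = L ∧ Mk L s.2 s.1}

/-- The total weight of the marked fillings between `f` and `c` with inner label set `L`. -/
noncomputable def FW (x Y T : ℝ≥0∞) (k : Bool) (f c : List ℕ) (L : Finset ℕ) : ℝ≥0∞ :=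
  ∑' s : MFill k f c L, wt x Y T L s.1

/-- `S k`: the generating function of simple disks with a boundary of length `2 k` (exponential in
the inner vertices). -/
noncomputable def S (x Y T : ℝ≥0∞) (k : ℕ) : ℝ≥0∞ :=
  ∑' n : ℕ, FW x Y T true [0, 2 * k - 1] (List.range (2 * k)) (Finset.Ico (2 * k) (2 * k + n)) /
    (n.factorial : ℝ≥0∞)

/-! ### Networks: disks with a boundary of length 4 -/

/-- A network with poles `w0, w1` and sides `b0, b1`. -/
structure Net (w0 w1 b0 b1 : ℕ) (N : Finset Quad) : Prop where
  wne : w0 ≠ w1
  bne : b0 ≠ b1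
  ac : AC (EdS N) N
  bnd : bd N = ed ({w0, w1}, {b0, b1})
  col : Disjoint (wh N) (bl N)

/-- The inner vertices of a network. -/
def ninn (w0 w1 b0 b1 : ℕ) (N : Finset Quad) : Finset ℕ := (wh N ∪ bl N) \ {w0, w1, b0, b1}

/-- Marked networks with inner label set `L`. -/
def MNet (w0 w1 b0 b1 : ℕ) (L : Finset ℕ) : Set (Finset Quad × Finset ℕ) :=
  {s | Net w0 w1 b0 b1 s.1 ∧ ninn w0 w1 b0 b1 s.1 = L ∧ Mk L s.2 s.1}

/-- The generating function of marked networks (equal to `S x Y T 2`). -/
noncomputable def Dmap (x Y T : ℝ≥0∞) : ℝ≥0∞ :=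
  ∑' n : ℕ, (∑' s : MNet 0 1 2 3 (Finset.Ico 4 (4 + n)), wt x Y T (Finset.Ico 4 (4 + n)) s.1) /
    (n.factorial : ℝ≥0∞)

/-- A core: an irreducible network with at least three quads. -/
structure Core (w0 w1 b0 b1 : ℕ) (K : Finset Quad) : Prop where
  net : Net w0 w1 b0 b1 K
  three : 3 ≤ K.card
  irr : ∀ X ⊆ K, (bd X).card = 4 → X.card = 1 ∨ X = K

end K5M
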