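import Pool.Agent.Lib.K5M.Q0
import Pool.Agent.Lib.K5M.B9

/-!
# K5M.H1: the pairs with the chord `(p, z)`

PROOF of `GWc_split`.  `tsum_decomp` with the index `(as, L1, q, r)` (nested `Finset.sigma`, `Finset.sum_sigma`),
`P = MFillg q.1 r.1 true (p :: (as ++ [z])) [p, z] L1 ×ˢ MFillg q.2 r.2 true [p, z] c ((L \ as.toFinset) \ L1)` and
`φ ((N1, M1), (N2, M2)) = (p :: (as ++ [z]), (N1 ∪ N2, M1 ∪ M2))`.
The vertex sets are `V1 = {p, z} ∪ as ∪ L1`, `V2 = c ∪ L2`, `L2 = (L \ as) \ L1`.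
MapsTo: `V1 ∩ V2 = {p, z}` (the sets `as`, `L1`, `L2`, `c` are disjoint), `Fill.chord_join`; `vx f c (N1 ∪ N2) = V1 ∪ V2`,
so all labels are `as ∪ L1 ∪ L2 = L`; `inn f c (N1 ∪ N2) = L1 ∪ L2` (`inn f c N = vx f c N \ (f ∪ c)`); `mk_union` and
`uq_union`, `card_union_marks` with `I1 = L1`, `I2 = L2`.
SurjOn: `Fill.chord`; `as` = the inner vertices of `f` (not on `c`: the last statement of `chord_join`), `L1`, `L2` = the
inner vertices of `N1`, `N2`, `M1 = M ∩ L1`, `M2 = M ∩ L2`.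
InjOn: `as` is determined by `f`; `bd N1 = symmDiff (pe true f) (pe true [p, z])` determines `N1` (`AC.inj` for the
symmetric difference of two subsets of `N`, or `Fill.split_unique`), `N2 = N \ N1`; `L1 = inn f [p, z] N1`; marks:
`inter_marks`.
Weights: white labels: those in `as` have the numbers `1, ..., l - 1` on `f`: `wct true l` of them are white (a
vertex of `f` in `wh N` is in `pw true f` by `col`); those in `L1` are white iff they are in `wh N1`; those in `L2`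
iff they are in `wh N2`.  `uq_union`, `card_union_marks`.
-/

set_option autoImplicit false

namespace K5M

open Finset
open scoped ENNReal

namespace H1Aux

theorem mem_vx' {f c : List ℕ} {N : Finset Quad} {u : ℕ} :
    u ∈ vx f c N ↔ u ∈ f ∨ u ∈ c ∨ u ∈ inn f c N := by
  rw [inn_eq_sdiff, mem_sdiff, mem_union, List.mem_toFinset, List.mem_toFinset]
  constructor
  · intro h
    by_cases h1 : u ∈ f
    · exact Or.inl h1
    · by_cases h2 : u ∈ c
      · exact Or.inr (Or.inl h2)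
      · exact Or.inr (Or.inr ⟨h, fun h3 => h3.elim h1 h2⟩)
  · rintro (h | h | h)
    · exact mem_union_left _ (mem_union_right _ (List.mem_toFinset.2 h))
    · exact mem_union_right _ (List.mem_toFinset.2 h)
    · exact h.1

theorem mem_inn {f c : List ℕ} {N : Finset Quad} {u : ℕ} :
    u ∈ inn f c N ↔ u ∈ vx f c N ∧ u ∉ f ∧ u ∉ c := by
  rw [inn_eq_sdiff, mem_sdiff, mem_union, List.mem_toFinset, List.mem_toFinset, not_or]

theorem mem_f {as : List ℕ} {p z u : ℕ} : u ∈ p :: (as ++ [z]) ↔ u = p ∨ u ∈ as ∨ u = z := by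
  rw [List.mem_cons, List.mem_append, List.mem_singleton]

theorem mem_pz {p z u : ℕ} : u ∈ [p, z] ↔ u = p ∨ u = z := by
  rw [List.mem_cons, List.mem_singleton]

theorem wb_sub {f c : List ℕ} {N : Finset Quad} : wh N ∪ bl N ⊆ vx f c N := by
  intro u hu
  exact mem_union_left _ (mem_union_left _ hu)

theorem mem_vx_union {f c : List ℕ} {p z u : ℕ} {N1 N2 : Finset Quad} (hp : p ∈ f) (hz : z ∈ f) :
    u ∈ vx f c (N1 ∪ N2) ↔ u ∈ vx f [p, z] N1 ∨ u ∈ vx [p, z] c N2 := by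
  unfold vx
  rw [wh_union, bl_union]
  simp only [mem_union, List.mem_toFinset, mem_pz]
  constructor
  · rintro ((((h | h) | (h | h)) | h) | h)
    · exact Or.inl (Or.inl (Or.inl (Or.inl h)))
    · exact Or.inr (Or.inl (Or.inl (Or.inl h)))
    · exact Or.inl (Or.inl (Or.inl (Or.inr h)))
    · exact Or.inr (Or.inl (Or.inl (Or.inr h)))
    · exact Or.inl (Or.inl (Or.inr h))
    · exact Or.inr (Or.inr h)
  · rintro ((((h | h) | h) | h) | (((h | h) | h) | h))
    · exact Or.inl (Or.inl (Or.inl (Or.inl h)))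
    · exact Or.inl (Or.inl (Or.inr (Or.inl h)))
    · exact Or.inl (Or.inr h)
    · rcases h with h | h
      · exact Or.inl (Or.inr (h ▸ hp))
      · exact Or.inl (Or.inr (h ▸ hz))
    · exact Or.inl (Or.inl (Or.inl (Or.inr h)))
    · exact Or.inl (Or.inl (Or.inr (Or.inr h)))
    · rcases h with h | h
      · exact Or.inl (Or.inr (h ▸ hp))
      · exact Or.inl (Or.inr (h ▸ hz))
    · exact Or.inr h

theorem exists_mid {f : List ℕ} {p z : ℕ} (h2 : 2 ≤ f.length) (hp : f.head? = some p)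
    (hz : f.getLast? = some z) : ∃ as, f = p :: (as ++ [z]) := by
  cases f with
  | nil => exact absurd h2 (by decide)
  | cons y t =>
    rw [List.head?_cons, Option.some.injEq] at hp
    subst hp
    rcases List.eq_nil_or_concat t with rfl | ⟨m, w, rfl⟩
    · rw [List.length_singleton] at h2
      omega
    · rw [List.concat_eq_append] at hz ⊢
      rw [← List.cons_append, List.getLast?_append, List.getLast?_singleton, Option.some_or,
        Option.some.injEq] at hz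
      subst hz
      exact ⟨m, rfl⟩

/-- The two parts of a filling with the chord. -/
structure Cf (c as : List ℕ) (p z : ℕ) (L L1 : Finset ℕ) (N1 N2 : Finset Quad) : Prop where
  nas : as.Nodup
  asL : ∀ u ∈ as, u ∈ L
  L1s : ∀ u ∈ L1, u ∈ L ∧ u ∉ as
  F1 : Fill true (p :: (as ++ [z])) [p, z] N1
  I1 : inn (p :: (as ++ [z])) [p, z] N1 = L1
  F2 : Fill true [p, z] c N2
  I2 : inn [p, z] c N2 = (L \ as.toFinset) \ L1

variable {c as : List ℕ} {p z : ℕ} {L L1 : Finset ℕ} {N1 N2 : Finset Quad}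

theorem mem_L2 {u : ℕ} : u ∈ (L \ as.toFinset) \ L1 ↔ u ∈ L ∧ u ∉ as ∧ u ∉ L1 := by
  rw [mem_sdiff, mem_sdiff, List.mem_toFinset, and_assoc]

theorem Cf.V1 (h : Cf c as p z L L1 N1 N2) {u : ℕ} :
    u ∈ vx (p :: (as ++ [z])) [p, z] N1 ↔ u = p ∨ u = z ∨ u ∈ as ∨ u ∈ L1 := by
  rw [mem_vx', h.I1, mem_f, mem_pz]
  tauto

theorem Cf.V2 (h : Cf c as p z L L1 N1 N2) (hR : Rt c p z) {u : ℕ} :
    u ∈ vx [p, z] c N2 ↔ u ∈ c ∨ (u ∈ L ∧ u ∉ as ∧ u ∉ L1) := by
  rw [mem_vx', h.I2, mem_pz, mem_L2]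
  constructor
  · rintro ((h1 | h1) | h1 | h1)
    · exact Or.inl (h1 ▸ hR.mem.1)
    · exact Or.inl (h1 ▸ hR.mem.2.1)
    · exact Or.inl h1
    · exact Or.inr h1
  · rintro (h1 | h1)
    · exact Or.inr (Or.inl h1)
    · exact Or.inr (Or.inr h1)

theorem Cf.inter (h : Cf c as p z L L1 N1 N2) (hR : Rt c p z) (hL : ∀ u ∈ c, u ∉ L) :
    vx (p :: (as ++ [z])) [p, z] N1 ∩ vx [p, z] c N2 = {p, z} := by
  ext u
  rw [mem_inter, h.V1, h.V2 hR, mem_insert, mem_singleton]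
  constructor
  · rintro ⟨h1 | h1 | h1 | h1, h2⟩
    · exact Or.inl h1
    · exact Or.inr h1
    · rcases h2 with h2 | h2
      · exact absurd (h.asL u h1) (hL u h2)
      · exact absurd h1 h2.2.1
    · rcases h2 with h2 | h2
      · exact absurd (h.L1s u h1).1 (hL u h2)
      · exact absurd h1 h2.2.2
  · rintro (h1 | h1)
    · exact ⟨Or.inl h1, Or.inl (h1 ▸ hR.mem.1)⟩
    · exact ⟨Or.inr (Or.inl h1), Or.inl (h1 ▸ hR.mem.2.1)⟩

theorem Cf.hI1 (h : Cf c as p z L L1 N1 N2) (hR : Rt c p z) (hL : ∀ u ∈ c, u ∉ L) :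
    L1 ⊆ vx (p :: (as ++ [z])) [p, z] N1 \ vx [p, z] c N2 := by
  intro u hu
  rw [mem_sdiff, h.V1, h.V2 hR]
  refine ⟨Or.inr (Or.inr (Or.inr hu)), ?_⟩
  rintro (h1 | h1)
  · exact hL u h1 (h.L1s u hu).1
  · exact h1.2.2 hu

theorem Cf.hI2 (h : Cf c as p z L L1 N1 N2) (hR : Rt c p z) (hL : ∀ u ∈ c, u ∉ L) :
    (L \ as.toFinset) \ L1 ⊆ vx [p, z] c N2 \ vx (p :: (as ++ [z])) [p, z] N1 := by
  intro u hu
  have hu' := mem_L2.1 hu
  rw [mem_sdiff, h.V1, h.V2 hR]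
  refine ⟨Or.inr hu', ?_⟩
  rintro (h1 | h1 | h1 | h1)
  · exact hL p hR.mem.1 (h1 ▸ hu'.1)
  · exact hL z hR.mem.2.1 (h1 ▸ hu'.1)
  · exact hu'.2.1 h1
  · exact hu'.2.2 h1

theorem Cf.innU (h : Cf c as p z L L1 N1 N2) (hR : Rt c p z) (hL : ∀ u ∈ c, u ∉ L) :
    inn (p :: (as ++ [z])) c (N1 ∪ N2) = L1 ∪ ((L \ as.toFinset) \ L1) := by
  ext u
  rw [mem_inn, mem_vx_union (p := p) (z := z) (mem_f.2 (Or.inl rfl)) (mem_f.2 (Or.inr (Or.inr rfl))),
    h.V1, h.V2 hR, mem_union, mem_L2, mem_f]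
  constructor
  · rintro ⟨(h1 | h1 | h1 | h1) | (h1 | h1), h2, h3⟩
    · exact absurd (Or.inl h1) h2
    · exact absurd (Or.inr (Or.inr h1)) h2
    · exact absurd (Or.inr (Or.inl h1)) h2
    · exact Or.inl h1
    · exact absurd h1 h3
    · exact Or.inr h1
  · rintro (h1 | h1)
    · refine ⟨Or.inl (Or.inr (Or.inr (Or.inr h1))), ?_, fun h2 => hL u h2 (h.L1s u h1).1⟩
      rintro (h2 | h2 | h2)
      · exact hL p hR.mem.1 (h2 ▸ (h.L1s u h1).1)
      · exact (h.L1s u h1).2 h2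
      · exact hL z hR.mem.2.1 (h2 ▸ (h.L1s u h1).1)
    · refine ⟨Or.inr (Or.inr h1), ?_, fun h2 => hL u h2 h1.1⟩
      rintro (h2 | h2 | h2)
      · exact hL p hR.mem.1 (h2 ▸ h1.1)
      · exact h1.2.1 h2
      · exact hL z hR.mem.2.1 (h2 ▸ h1.1)

theorem Cf.lab (h : Cf c as p z L L1 N1 N2) (hR : Rt c p z) (hL : ∀ u ∈ c, u ∉ L) :
    inn (p :: (as ++ [z])) c (N1 ∪ N2) ∪ ((p :: (as ++ [z])).toFinset \ c.toFinset) = L := by
  rw [h.innU hR hL]
  ext u
  rw [mem_union, mem_union, mem_L2, mem_sdiff, List.mem_toFinset, List.mem_toFinset, mem_f]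
  constructor
  · rintro ((h1 | h1) | ⟨h1 | h1 | h1, h2⟩)
    · exact (h.L1s u h1).1
    · exact h1.1
    · exact absurd (h1 ▸ hR.mem.1) h2
    · exact h.asL u h1
    · exact absurd (h1 ▸ hR.mem.2.1) h2
  · intro h1
    by_cases h2 : u ∈ as
    · exact Or.inr ⟨Or.inr (Or.inl h2), fun h3 => hL u h3 h1⟩
    · by_cases h3 : u ∈ L1
      · exact Or.inl (Or.inl h3)
      · exact Or.inl (Or.inr ⟨h1, h2, h3⟩)

/-- The weights. -/
theorem Cf.gx_eq (h : Cf c as p z L L1 N1 N2) (hR : Rt c p z) (hL : ∀ u ∈ c, u ∉ L)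
    (hF : Fill true (p :: (as ++ [z])) c (N1 ∪ N2)) :
    ((wh (N1 ∪ N2) ∪ pw true (p :: (as ++ [z]))) ∩ L).card =
      wct true (as.length + 1) + ((wh N1 ∩ L1).card +
        (wh N2 ∩ ((L \ as.toFinset) \ L1)).card) := by
  have hpas : p ∉ as := by
    have h1 := h.F1.nf
    rw [List.nodup_cons, List.mem_append, not_or] at h1
    exact h1.1.1
  have hzas : z ∉ as := by
    have h1 := h.F1.nf
    rw [List.nodup_cons, List.nodup_append] at h1
    intro h2
    exact h1.2.2.2 z h2 z (List.mem_singleton_self z) rfl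
  have hsub1 : ∀ u ∈ wh N1, u ∈ vx (p :: (as ++ [z])) [p, z] N1 := fun u hu =>
    wb_sub (mem_union_left _ hu)
  have hsub2 : ∀ u ∈ wh N2, u ∈ vx [p, z] c N2 := fun u hu => wb_sub (mem_union_left _ hu)
  have hpw : pw true (p :: (as ++ [z])) ∩ as.toFinset = pw false as := by
    rw [B1Aux.pw_cons, if_pos rfl]
    ext u
    rw [mem_inter, List.mem_toFinset, mem_insert, Bool.not_true, pw_append, mem_union]
    constructor
    · rintro ⟨h1 | h1 | h1, h2⟩
      · exact absurd (h1 ▸ h2) hpas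
      · exact h1
      · have h3 := B9Aux.pw_mem h1
        rw [List.mem_singleton] at h3
        exact absurd (h3 ▸ h2) hzas
    · intro h1
      exact ⟨Or.inr (Or.inl h1), B9Aux.pw_mem h1⟩
  have hcol : ∀ u ∈ as, u ∈ wh (N1 ∪ N2) → u ∈ pw true (p :: (as ++ [z])) := by
    intro u hu hw
    rcases B9Aux.mem_pw_or (k := true) (mem_f.2 (Or.inr (Or.inl hu)) : u ∈ p :: (as ++ [z]))
      with h1 | h1
    · exact h1
    · exact absurd (mem_union_left _ (mem_union_right _ h1))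
        (disjoint_left.1 hF.col (mem_union_left _ (mem_union_left _ hw)))
  have hset : (wh (N1 ∪ N2) ∪ pw true (p :: (as ++ [z]))) ∩ L =
      pw false as ∪ ((wh N1 ∩ L1) ∪ (wh N2 ∩ ((L \ as.toFinset) \ L1))) := by
    rw [← hpw]
    ext u
    rw [mem_inter, mem_union, mem_union, mem_union, mem_inter, mem_inter, mem_inter, mem_L2,
      List.mem_toFinset]
    constructor
    · rintro ⟨h1, h2⟩
      by_cases h3 : u ∈ as
      · refine Or.inl ⟨?_, h3⟩
        rcases h1 with h1 | h1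
        · exact hcol u h3 h1
        · exact h1
      · have h4 : u ∉ pw true (p :: (as ++ [z])) := by
          intro h5
          rcases mem_f.1 (B9Aux.pw_mem h5) with h6 | h6 | h6
          · exact hL p hR.mem.1 (h6 ▸ h2)
          · exact h3 h6
          · exact hL z hR.mem.2.1 (h6 ▸ h2)
        have h5 := h1.resolve_right h4
        rw [wh_union, mem_union] at h5
        by_cases h6 : u ∈ L1
        · refine Or.inr (Or.inl ⟨?_, h6⟩)
          rcases h5 with h5 | h5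
          · exact h5
          · exact absurd (hsub2 u h5) (mem_sdiff.1 (h.hI1 hR hL h6)).2
        · refine Or.inr (Or.inr ⟨?_, h2, h3, h6⟩)
          rcases h5 with h5 | h5
          · exact absurd (hsub1 u h5) (mem_sdiff.1 (h.hI2 hR hL (mem_L2.2 ⟨h2, h3, h6⟩))).2
          · exact h5
    · rintro (⟨h1, h2⟩ | ⟨h1, h2⟩ | ⟨h1, h2⟩)
      · exact ⟨Or.inr h1, h.asL u h2⟩
      · refine ⟨Or.inl ?_, (h.L1s u h2).1⟩
        rw [wh_union]
        exact mem_union_left _ h1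
      · refine ⟨Or.inl ?_, h2.1⟩
        rw [wh_union]
        exact mem_union_right _ h1
  have hd1 : Disjoint (wh N1 ∩ L1) (wh N2 ∩ ((L \ as.toFinset) \ L1)) := by
    rw [disjoint_left]
    intro u h1 h2
    exact (mem_L2.1 (mem_inter.1 h2).2).2.2 (mem_inter.1 h1).2
  have hd2 : Disjoint (pw false as)
      ((wh N1 ∩ L1) ∪ (wh N2 ∩ ((L \ as.toFinset) \ L1))) := by
    rw [disjoint_left]
    intro u h1 h2
    have h3 := B9Aux.pw_mem h1
    rcases mem_union.1 h2 with h4 | h4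
    · exact (h.L1s u (mem_inter.1 h4).2).2 h3
    · exact (mem_L2.1 (mem_inter.1 h4).2).2.1 h3
  rw [hset, card_union_of_disjoint hd2, card_union_of_disjoint hd1, card_pw h.nas]
  rfl

end H1Aux

open H1Aux

theorem GWc_split (x : ℝ≥0∞) {c : List ℕ} {p z : ℕ} (h : Rt c p z) (a b : ℕ) {l : ℕ} (hl : 3 ≤ l)
    {L : Finset ℕ} (hL : Disjoint c.toFinset L) :
    GWc x a b l c L p z = ∑ as ∈ dls (l - 1) L, ∑ L1 ∈ (L \ as.toFinset).powerset,
      ∑ q ∈ antidiagonal a, ∑ r ∈ antidiagonal b, x ^ wct true l *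
        (FWg x q.1 r.1 true (p :: (as ++ [z])) [p, z] L1 *
          FWg x q.2 r.2 true [p, z] c ((L \ as.toFinset) \ L1)) := by
  have hL' : ∀ u ∈ c, u ∉ L := fun u hu => disjoint_left.1 hL (List.mem_toFinset.2 hu)
  let IX : Finset (Σ _ : List ℕ, Finset ℕ × ((ℕ × ℕ) × (ℕ × ℕ))) :=
    (dls (l - 1) L).sigma (fun as => (L \ as.toFinset).powerset ×ˢ
      (antidiagonal a ×ˢ antidiagonal b))
  let P : (Σ _ : List ℕ, Finset ℕ × ((ℕ × ℕ) × (ℕ × ℕ))) →
      Set ((Finset Quad × Finset ℕ) × (Finset Quad × Finset ℕ)) := fun i =>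
    MFillg i.2.2.1.1 i.2.2.2.1 true (p :: (i.1 ++ [z])) [p, z] i.2.1 ×ˢ
      MFillg i.2.2.1.2 i.2.2.2.2 true [p, z] c ((L \ i.1.toFinset) \ i.2.1)
  let φ : (Σ _ : List ℕ, Finset ℕ × ((ℕ × ℕ) × (ℕ × ℕ))) →
      (Finset Quad × Finset ℕ) × (Finset Quad × Finset ℕ) →
      List ℕ × (Finset Quad × Finset ℕ) := fun i s =>
    (p :: (i.1 ++ [z]), (s.1.1 ∪ s.2.1, s.1.2 ∪ s.2.2))
  have hIX : ∀ i, i ∈ IX ↔ (i.1.Nodup ∧ i.1.length = l - 1 ∧ ∀ u ∈ i.1, u ∈ L) ∧
      i.2.1 ⊆ L \ i.1.toFinset ∧ i.2.2.1.1 + i.2.2.1.2 = a ∧ i.2.2.2.1 + i.2.2.2.2 = b := by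
    intro i
    change i ∈ (dls (l - 1) L).sigma _ ↔ _
    rw [Finset.mem_sigma, mem_dls, mem_product, mem_product, mem_powerset,
      Finset.HasAntidiagonal.mem_antidiagonal, Finset.HasAntidiagonal.mem_antidiagonal]
  have hcf : ∀ i ∈ IX, ∀ s ∈ P i, Cf c i.1 p z L i.2.1 s.1.1 s.2.1 := by
    intro i hi s hs
    obtain ⟨⟨h1, h2, h3⟩, h4, _, _⟩ := (hIX i).1 hi
    obtain ⟨⟨⟨h5, h6, _⟩, _, _⟩, ⟨⟨h7, h8, _⟩, _, _⟩⟩ := hs
    refine ⟨h1, h3, fun u hu => ?_, h5, h6, h7, h8⟩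
    have h9 := mem_sdiff.1 (h4 hu)
    exact ⟨h9.1, fun h10 => h9.2 (List.mem_toFinset.2 h10)⟩
  have hjoin : ∀ i ∈ IX, ∀ s ∈ P i, Disjoint s.1.1 s.2.1 ∧
      Fill true (p :: (i.1 ++ [z])) c (s.1.1 ∪ s.2.1) ∧ (p, z) ∈ EdS (s.1.1 ∪ s.2.1) := by
    intro i hi s hs
    have hc := hcf i hi s hs
    obtain ⟨⟨_, h2, _⟩, _⟩ := (hIX i).1 hi
    have h1 := Fill.chord_join (f := p :: (i.1 ++ [z])) (c := c) (p := p) (z := z)
      (by rw [List.length_cons, List.length_append, List.length_singleton, h2]; omega) h.four rfl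
      (by rw [← List.cons_append, List.getLast?_append, List.getLast?_singleton, Option.some_or])
      hc.F1 hc.F2 (hc.inter h hL')
    exact ⟨h1.1, h1.2.1, h1.2.2.1⟩
  have hbij : Set.BijOn (fun q : (Σ _ : List ℕ, Finset ℕ × ((ℕ × ℕ) × (ℕ × ℕ))) ×
      ((Finset Quad × Finset ℕ) × (Finset Quad × Finset ℕ)) => φ q.1 q.2)
      {q | q.1 ∈ IX ∧ q.2 ∈ P q.1} (GFc a b l c L p z) := by
    refine ⟨?_, ?_, ?_⟩
    · rintro ⟨i, s⟩ ⟨hi, hs⟩
      have hi' : i ∈ IX := hi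
      have hs' : s ∈ P i := hs
      have hc := hcf i hi' s hs'
      obtain ⟨hd, hF, he⟩ := hjoin i hi' s hs'
      obtain ⟨⟨_, h2, _⟩, _, h3, h4⟩ := (hIX i).1 hi'
      obtain ⟨⟨⟨_, _, m1⟩, u1, k1⟩, ⟨⟨_, _, m2⟩, u2, k2⟩⟩ := hs'
      refine ⟨⟨?_, hF, hc.lab h hL', ?_, ?_, ?_⟩, he⟩
      · change (p :: (i.1 ++ [z])).length = l + 1
        rw [List.length_cons, List.length_append, List.length_singleton, h2]
        omega
      · change Mk (inn (p :: (i.1 ++ [z])) c (s.1.1 ∪ s.2.1)) (s.1.2 ∪ s.2.2) (s.1.1 ∪ s.2.1)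
        rw [hc.innU h hL']
        exact (mk_union wb_sub wb_sub (hc.hI1 h hL') (hc.hI2 h hL') m1.sub m2.sub).2 ⟨m1, m2⟩
      · change uq (s.1.2 ∪ s.2.2) (s.1.1 ∪ s.2.1) = a
        rw [uq_union hd wb_sub wb_sub (hc.hI1 h hL') (hc.hI2 h hL') m1.sub m2.sub, u1, u2, h3]
      · change (s.1.2 ∪ s.2.2).card = b
        rw [card_union_marks (hc.hI1 h hL') (hc.hI2 h hL') m1.sub m2.sub, k1, k2, h4]
    · rintro ⟨i, s⟩ ⟨hi, hs⟩ ⟨i', s'⟩ ⟨hi', hs'⟩ he
      have hiI : i ∈ IX := hi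
      have hsP : s ∈ P i := hs
      have hiI' : i' ∈ IX := hi'
      have hsP' : s' ∈ P i' := hs'
      have hc := hcf i hiI s hsP
      have hc' := hcf i' hiI' s' hsP'
      obtain ⟨hd, hF, _⟩ := hjoin i hiI s hsP
      obtain ⟨hd', hF', _⟩ := hjoin i' hiI' s' hsP'
      obtain ⟨_, _, h3, h4⟩ := (hIX i).1 hiI
      obtain ⟨_, _, h3', h4'⟩ := (hIX i').1 hiI'
      obtain ⟨⟨⟨_, _, m1⟩, u1, k1⟩, ⟨⟨_, _, m2⟩, u2, k2⟩⟩ := hsP
      obtain ⟨⟨⟨_, _, m1'⟩, u1', k1'⟩, ⟨⟨_, _, m2'⟩, u2', k2'⟩⟩ := hsP'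
      have he1 : p :: (i.1 ++ [z]) = p :: (i'.1 ++ [z]) := congrArg Prod.fst he
      have he2 : s.1.1 ∪ s.2.1 = s'.1.1 ∪ s'.2.1 := congrArg (fun t => t.2.1) he
      have he3 : s.1.2 ∪ s.2.2 = s'.1.2 ∪ s'.2.2 := congrArg (fun t => t.2.2) he
      have has : i.1 = i'.1 := by
        rw [List.cons.injEq] at he1
        exact List.append_cancel_right he1.2
      have hN1 : s.1.1 = s'.1.1 := by
        refine hF.split_unique subset_union_left ?_ ?_
        · rw [he2]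
          exact subset_union_left
        · rw [hc.F1.bnd, hc'.F1.bnd, has]
      have hN2 : s.2.1 = s'.2.1 := by
        have h5 : s.2.1 = (s.1.1 ∪ s.2.1) \ s.1.1 := by
          rw [union_sdiff_left]
          exact (Finset.sdiff_eq_self_iff_disjoint.2 hd.symm).symm
        have h6 : s'.2.1 = (s'.1.1 ∪ s'.2.1) \ s'.1.1 := by
          rw [union_sdiff_left]
          exact (Finset.sdiff_eq_self_iff_disjoint.2 hd'.symm).symm
        rw [h5, h6, he2, hN1]
      have hL1 : i.2.1 = i'.2.1 := by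
        rw [← hc.I1, ← hc'.I1, has, hN1]
      have hM := (inter_marks (hc.hI1 h hL') (hc.hI2 h hL') (union_subset_union m1.sub m2.sub)
        m1.sub m2.sub).1 rfl
      have hM' := (inter_marks (hc'.hI1 h hL') (hc'.hI2 h hL')
        (union_subset_union m1'.sub m2'.sub) m1'.sub m2'.sub).1 rfl
      have hM1 : s.1.2 = s'.1.2 := by
        rw [hM.1, hM'.1, he3, hL1]
      have hM2 : s.2.2 = s'.2.2 := by
        rw [hM.2, hM'.2, he3, hL1, has]
      have e1 : i.2.2.1.1 = i'.2.2.1.1 := by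
        rw [← u1, ← u1', hM1, hN1]
      have e2 : i.2.2.1.2 = i'.2.2.1.2 := by
        rw [← u2, ← u2', hM2, hN2]
      have e3 : i.2.2.2.1 = i'.2.2.2.1 := by
        rw [← k1, ← k1', hM1]
      have e4 : i.2.2.2.2 = i'.2.2.2.2 := by
        rw [← k2, ← k2', hM2]
      have hii : i = i' := by
        obtain ⟨as, L1, ⟨q1, q2⟩, r1, r2⟩ := i
        obtain ⟨as', L1', ⟨q1', q2'⟩, r1', r2'⟩ := i'
        have f1 : as = as' := has
        have f2 : L1 = L1' := hL1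
        have f3 : q1 = q1' := e1
        have f4 : q2 = q2' := e2
        have f5 : r1 = r1' := e3
        have f6 : r2 = r2' := e4
        rw [f1, f2, f3, f4, f5, f6]
      rw [hii]
      exact Prod.ext rfl (Prod.ext (Prod.ext hN1 hM1) (Prod.ext hN2 hM2))
    · rintro ⟨f, N, M⟩ ⟨⟨hlen, hF, hlab, hMk, huq, hcard⟩, he⟩
      have hlen' : f.length = l + 1 := hlen
      have hF' : Fill true f c N := hF
      have he' : (p, z) ∈ EdS N := he
      have hhd : f.head? = some p := hF'.hd.trans h.hp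
      have hlt : f.getLast? = some z := hF'.lt.trans h.hz
      obtain ⟨N1, N2, rfl, hd, F1, F2, hv⟩ := hF'.chord (by omega) h.four hhd hlt he'
      obtain ⟨as, rfl⟩ := exists_mid (by omega) hhd hlt
      rw [List.length_cons, List.length_append, List.length_singleton] at hlen'
      have hpf : p ∈ p :: (as ++ [z]) := mem_f.2 (Or.inl rfl)
      have hzf : z ∈ p :: (as ++ [z]) := mem_f.2 (Or.inr (Or.inr rfl))
      have hnd := F1.nf
      rw [List.nodup_cons, List.mem_append, not_or, List.nodup_append] at hnd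
      have hLm : ∀ u, u ∈ L ↔ (u ∈ vx (p :: (as ++ [z])) [p, z] N1 ∨ u ∈ vx [p, z] c N2) ∧
          u ∉ c := by
        intro u
        have h1 : inn (p :: (as ++ [z])) c (N1 ∪ N2) ∪
          ((p :: (as ++ [z])).toFinset \ c.toFinset) = L := hlab
        rw [← h1, lab_eq, mem_sdiff, mem_vx_union hpf hzf, List.mem_toFinset]
      have hv' : ∀ u, u ∈ vx (p :: (as ++ [z])) [p, z] N1 → u ∈ vx [p, z] c N2 →
          u = p ∨ u = z := by
        intro u h1 h2
        have h3 : u ∈ ({p, z} : Finset ℕ) := by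
          rw [← hv]
          exact mem_inter.2 ⟨h1, h2⟩
        rwa [mem_insert, mem_singleton] at h3
      have hfc : ∀ u ∈ as, u ∉ c := by
        intro u h1 h2
        rcases hv' u (mem_vx'.2 (Or.inl (mem_f.2 (Or.inr (Or.inl h1)))))
          (mem_vx'.2 (Or.inr (Or.inl h2))) with h3 | h3
        · exact hnd.1.1 (h3 ▸ h1)
        · exact hnd.2.2.2 z (h3 ▸ h1) z (List.mem_singleton_self z) rfl
      have hpc := h.mem.1
      have hzc := h.mem.2.1
      have hcf0 : Cf c as p z L (inn (p :: (as ++ [z])) [p, z] N1) N1 N2 := by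
        refine ⟨hnd.2.1, fun u hu => (hLm u).2 ⟨Or.inl (mem_vx'.2 (Or.inl
          (mem_f.2 (Or.inr (Or.inl hu))))), hfc u hu⟩, fun u hu => ?_, F1, rfl, F2, ?_⟩
        · obtain ⟨h1, h2, _⟩ := mem_inn.1 hu
          refine ⟨(hLm u).2 ⟨Or.inl h1, fun h4 => ?_⟩, fun h4 => h2 (mem_f.2 (Or.inr (Or.inl h4)))⟩
          rcases hv' u h1 (mem_vx'.2 (Or.inr (Or.inl h4))) with h5 | h5
          · exact h2 (mem_f.2 (Or.inl h5))
          · exact h2 (mem_f.2 (Or.inr (Or.inr h5)))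
        · ext u
          rw [mem_L2, hLm, mem_inn, mem_inn, mem_f, mem_pz]
          constructor
          · rintro ⟨h1, h2, h3⟩
            refine ⟨⟨Or.inr h1, h3⟩, fun h4 => ?_, fun h4 => h2 (hv' u h4.1 h1)⟩
            exact h2 (hv' u (mem_vx'.2 (Or.inl (mem_f.2 (Or.inr (Or.inl h4))))) h1)
          · rintro ⟨⟨h1, h2⟩, h3, h4⟩
            have h5 : ¬ (u = p ∨ u = z) := by
              rintro (h6 | h6)
              · exact h2 (h6 ▸ hpc)
              · exact h2 (h6 ▸ hzc)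
            refine ⟨h1.resolve_left fun h6 => h4 ⟨h6, ?_, h5⟩, h5, h2⟩
            rintro (h7 | h7 | h7)
            · exact h5 (Or.inl h7)
            · exact h3 h7
            · exact h5 (Or.inr h7)
      have hMk' : Mk (inn (p :: (as ++ [z])) c (N1 ∪ N2)) M (N1 ∪ N2) := hMk
      rw [hcf0.innU h hL'] at hMk'
      set L1 := inn (p :: (as ++ [z])) [p, z] N1 with hL1
      have hMe : M = (M ∩ L1) ∪ (M ∩ ((L \ as.toFinset) \ L1)) := by
        rw [← inter_union_distrib_left]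
        exact (inter_eq_left.2 hMk'.sub).symm
      have hmk2 := (mk_union (N1 := N1) (N2 := N2) (M1 := M ∩ L1)
        (M2 := M ∩ ((L \ as.toFinset) \ L1)) wb_sub wb_sub (hcf0.hI1 h hL') (hcf0.hI2 h hL')
        inter_subset_right inter_subset_right).1 (by rw [← hMe]; exact hMk')
      have huq' := uq_union (N1 := N1) (N2 := N2) (M1 := M ∩ L1)
        (M2 := M ∩ ((L \ as.toFinset) \ L1)) hd wb_sub wb_sub (hcf0.hI1 h hL') (hcf0.hI2 h hL')
        inter_subset_right inter_subset_right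
      rw [← hMe] at huq'
      have hcm := card_union_marks (M1 := M ∩ L1) (M2 := M ∩ ((L \ as.toFinset) \ L1))
        (hcf0.hI1 h hL') (hcf0.hI2 h hL') inter_subset_right inter_subset_right
      rw [← hMe] at hcm
      have huqa : uq M (N1 ∪ N2) = a := huq
      have hcb : M.card = b := hcard
      refine ⟨(⟨as, (L1, ((uq (M ∩ L1) N1, uq (M ∩ ((L \ as.toFinset) \ L1)) N2),
        ((M ∩ L1).card, (M ∩ ((L \ as.toFinset) \ L1)).card)))⟩,
        ((N1, M ∩ L1), (N2, M ∩ ((L \ as.toFinset) \ L1)))), ⟨?_, ?_⟩, ?_⟩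
      · refine (hIX _).2 ⟨⟨hcf0.nas, by change as.length = l - 1; omega, hcf0.asL⟩,
          fun u hu => ?_, huq'.symm.trans huqa, hcm.symm.trans hcb⟩
        have h1 := hcf0.L1s u hu
        exact mem_sdiff.2 ⟨h1.1, fun h2 => h1.2 (List.mem_toFinset.1 h2)⟩
      · exact ⟨⟨⟨F1, rfl, hmk2.1⟩, rfl, rfl⟩, ⟨⟨F2, hcf0.I2, hmk2.2⟩, rfl, rfl⟩⟩
      · change (p :: (as ++ [z]), (N1 ∪ N2, (M ∩ L1) ∪ (M ∩ ((L \ as.toFinset) \ L1)))) =
          (p :: (as ++ [z]), (N1 ∪ N2, M))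
        rw [← hMe]
  rw [GWc_eq, tsum_decomp IX P (GFc a b l c L p z) φ hbij (fun t => x ^ gx true L t)]
  have hin : ∀ i ∈ IX, ∑' s : P i, x ^ gx true L (φ i s) = x ^ wct true l *
      (FWg x i.2.2.1.1 i.2.2.2.1 true (p :: (i.1 ++ [z])) [p, z] i.2.1 *
        FWg x i.2.2.1.2 i.2.2.2.2 true [p, z] c ((L \ i.1.toFinset) \ i.2.1)) := by
    intro i hi
    have h1 : ∀ s : P i, x ^ gx true L (φ i s) = x ^ wct true l *
        (x ^ (wh s.1.1.1 ∩ i.2.1).card *
          x ^ (wh s.1.2.1 ∩ ((L \ i.1.toFinset) \ i.2.1)).card) := by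
      intro s
      have hc := hcf i hi s.1 s.2
      obtain ⟨_, hF, _⟩ := hjoin i hi s.1 s.2
      obtain ⟨⟨_, h2, _⟩, _⟩ := (hIX i).1 hi
      have h3 := hc.gx_eq h hL' hF
      have h4 : i.1.length + 1 = l := by omega
      rw [h4] at h3
      rw [← pow_add, ← pow_add, ← h3]
      rfl
    rw [tsum_congr h1, ENNReal.tsum_mul_left]
    congr 1
    exact tsum_prod_set _ _ (fun s : Finset Quad × Finset ℕ => x ^ (wh s.1 ∩ i.2.1).card)
      (fun s : Finset Quad × Finset ℕ => x ^ (wh s.1 ∩ ((L \ i.1.toFinset) \ i.2.1)).card)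
  rw [Finset.sum_congr rfl hin]
  change ∑ i ∈ (dls (l - 1) L).sigma _, _ = _
  rw [Finset.sum_sigma]
  refine Finset.sum_congr rfl fun as _ => ?_
  rw [Finset.sum_product]
  refine Finset.sum_congr rfl fun L1 _ => ?_
  rw [Finset.sum_product]

end K5M
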