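import Pool.Agent.Lib.K5M.CDefs
import Pool.Agent.Lib.K5M.A6

/-!
# K5M.V0: the weights depend only on the numbers

`GW`, `GWn`, `GWc`, `FWg` are invariant under relabelling (`A5`), so their values depend only on the lengths of the
paths and the number of labels; for a disk only the length of the boundary matters.
-/

set_option autoImplicit false

namespace K5M

open Finset
open scoped ENNReal

variable (x : ℝ≥0∞)

theorem GW_val {a b : ℕ} {k : Bool} {l m : ℕ} {c : List ℕ} {L : Finset ℕ} (hc : c.Nodup)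
    (hl : c.length = m + 1) (hL : Disjoint c.toFinset L) :
    GW x a b k l c L = nG x k l m a b L.card := by
  have h := GW_range x a b k l c hc L (fun y hy hyc =>
    (Finset.disjoint_left.1 hL) (List.mem_toFinset.2 hyc) hy)
  rw [h, hl]
  rfl

theorem GWn_val {a b l κ : ℕ} {c : List ℕ} {L : Finset ℕ} {p z : ℕ} (hc : c.Nodup)
    (hl : c.length = 2 * κ) (hκ : 1 ≤ κ) (hp : c.head? = some p) (hz : c.getLast? = some z)
    (hL : Disjoint c.toFinset L) :
    GWn x a b l c L p z = nN x l κ a b L.card := by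
  obtain ⟨s, hs, hsL⟩ := exists_relabel c L hc (fun y hy hyc =>
    (Finset.disjoint_left.1 hL) (List.mem_toFinset.2 hyc) hy)
  rw [hl] at hs hsL
  obtain ⟨h1, h2⟩ := head_relabel hκ hs hp hz
  rw [← GWn_map s, hs, hsL, h1, h2]
  rfl

theorem GWc_val {a b l κ : ℕ} {c : List ℕ} {L : Finset ℕ} {p z : ℕ} (hc : c.Nodup)
    (hl : c.length = 2 * κ) (hκ : 1 ≤ κ) (hp : c.head? = some p) (hz : c.getLast? = some z)
    (hL : Disjoint c.toFinset L) :
    GWc x a b l c L p z = nC x l κ a b L.card := by
  obtain ⟨s, hs, hsL⟩ := exists_relabel c L hc (fun y hy hyc =>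
    (Finset.disjoint_left.1 hL) (List.mem_toFinset.2 hyc) hy)
  rw [hl] at hs hsL
  obtain ⟨h1, h2⟩ := head_relabel hκ hs hp hz
  rw [← GWc_map s, hs, hsL, h1, h2]
  rfl

/-- A disk: only the length of the boundary matters. -/
theorem FWg_nS {a b : ℕ} {k : Bool} {f c : List ℕ} {L : Finset ℕ} {κ : ℕ} (hd : IntD f c)
    (hκ : f.length + c.length = 2 * κ + 2) (hL : Disjoint (f.toFinset ∪ c.toFinset) L) :
    FWg x a b k f c L = nS x κ a b L.card := by
  rw [FWg_disk x a b k hd hκ L
    (fun y hy hyf => (Finset.disjoint_left.1 hL)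
      (Finset.mem_union_left _ (List.mem_toFinset.2 hyf)) hy)
    (fun y hy hyc => (Finset.disjoint_left.1 hL)
      (Finset.mem_union_right _ (List.mem_toFinset.2 hyc)) hy)]
  rfl

/-- A part with `i` upper and `j` lower edges: a single edge or a disk. -/
theorem FWg_part {a b : ℕ} {k : Bool} {as cs : List ℕ} {p v i j : ℕ} {L : Finset ℕ}
    (hi : as.length + 1 = i) (hj : cs.length + 1 = j) (hij : i % 2 = j % 2)
    (hn : (p :: v :: (as ++ cs)).Nodup)
    (hL : Disjoint (p :: v :: (as ++ cs)).toFinset L) :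
    FWg x a b k (p :: (as ++ [v])) (p :: (cs ++ [v])) L = pv x i j a b L.card := by
  subst hi hj
  unfold pv
  by_cases h1 : as.length + 1 = 1 ∧ cs.length + 1 = 1
  · rw [if_pos h1]
    have ha : as = [] := List.length_eq_zero_iff.1 (by omega)
    have hc : cs = [] := List.length_eq_zero_iff.1 (by omega)
    subst ha hc
    have hpv : p ≠ v := by
      intro e
      rw [List.nodup_cons] at hn
      exact hn.1 (by rw [e]; exact List.mem_cons_self)
    have hkey : ∀ s : Finset Quad × Finset ℕ,
        s ∈ MFillg a b k (p :: ([] ++ [v])) (p :: ([] ++ [v])) L ↔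
          (s = (∅, ∅) ∧ a = 0 ∧ b = 0 ∧ L = ∅) := by
      intro s
      have e1 : s ∈ MFillg a b k (p :: ([] ++ [v])) (p :: ([] ++ [v])) L ↔
          (Fill k [p, v] [p, v] s.1 ∧ inn [p, v] [p, v] s.1 = L ∧ Mk L s.2 s.1) ∧
            uq s.2 s.1 = a ∧ s.2.card = b := Iff.rfl
      rw [e1, fill_edge k hpv]
      constructor
      · rintro ⟨⟨hN, hI, hM⟩, hu, hb⟩
        have hM0 : s.2 = ∅ := by
          have := hM.blk
          rw [hN] at this
          simpa [bl] using this
        rw [hN, hM0] at hu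
        rw [hM0] at hb
        rw [hN] at hI
        refine ⟨Prod.ext hN hM0, ?_, ?_, ?_⟩
        · rw [← hu]; simp [uq]
        · rw [← hb]; simp
        · rw [← hI]; simp [inn, wh, bl]
      · rintro ⟨rfl, rfl, rfl, rfl⟩
        refine ⟨⟨rfl, by simp [inn, wh, bl], ⟨by simp, by simp, by simp, by simp⟩⟩, by simp [uq],
          by simp⟩
    unfold FWg
    by_cases h2 : a = 0 ∧ b = 0 ∧ L.card = 0
    · rw [if_pos h2]
      obtain ⟨ha, hb, hLc⟩ := h2
      have hL0 : L = ∅ := Finset.card_eq_zero.1 hLc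
      have hS : MFillg a b k (p :: ([] ++ [v])) (p :: ([] ++ [v])) L = {(∅, ∅)} := by
        ext s
        rw [hkey s, Set.mem_singleton_iff]
        exact ⟨fun h => h.1, fun h => ⟨h, ha, hb, hL0⟩⟩
      rw [hS, tsum_singleton (∅, ∅) (fun s : Finset Quad × Finset ℕ => x ^ (wh s.1 ∩ L).card)]
      simp [wh]
    · rw [if_neg h2]
      have hS : MFillg a b k (p :: ([] ++ [v])) (p :: ([] ++ [v])) L = ∅ := by
        ext s
        rw [hkey s]
        simp only [Set.mem_empty_iff_false, iff_false]
        rintro ⟨_, ha, hb, hL0⟩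
        exact h2 ⟨ha, hb, by rw [hL0]; rfl⟩
      rw [hS]
      simp
  · rw [if_neg h1]
    have hd : IntD (p :: (as ++ [v])) (p :: (cs ++ [v])) := by
      refine ⟨p, v, as, cs, rfl, rfl, hn, ?_, by omega⟩
      by_contra h2
      push_neg at h2
      obtain ⟨e1, e2⟩ := h2
      exact h1 ⟨by rw [e1]; rfl, by rw [e2]; rfl⟩
    refine FWg_nS x hd ?_ ?_
    · simp only [List.length_cons, List.length_append, List.length_nil]
      omega
    · refine Finset.disjoint_of_subset_left ?_ hL
      intro u hu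
      simp only [Finset.mem_union, List.mem_toFinset, List.mem_cons, List.mem_append,
        List.not_mem_nil, or_false] at hu ⊢
      tauto

end K5M
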