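import Pool.Agent.Lib.K5M.H1
import Pool.Agent.Lib.K5M.V0

/-!
# K5M.H2: the chord identity for the exponential generating functions

PROOFS.  `eG_split`: `c = range (2 κ)`, `2 κ = (2 κ - 1) + 1`; `GWn_eq`, `GWc_eq`, `tsum_split_pred` with the predicate
`(p, z) ∈ EdS t.2.1`; `eg_add`.
`eC_eq`: `GWc_split` for `c = range (2 κ)`, `FWg_nS` for both factors (`IntD (p :: (as ++ [z])) [p, z]`: `as ≠ []`, its
length `l - 1` is even; `IntD [0, 2 κ - 1] (range (2 κ))`), `sum_powerset_vals`, `card_dls`, `eg_lists`.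
-/

set_option autoImplicit false

namespace K5M

open Finset
open scoped ENNReal

variable (x : ℝ≥0∞)

namespace H2Aux

theorem GW_split (a b l : ℕ) (c : List ℕ) (L : Finset ℕ) (p z : ℕ) :
    GW x a b true l c L = GWn x a b l c L p z + GWc x a b l c L p z := by
  rw [GWn_eq, GWc_eq, add_comm]
  exact tsum_split_pred (GF a b true l c L) (fun t => (p, z) ∈ EdS t.2.1)
    (fun t => x ^ gx true L t)

theorem range_eq {κ : ℕ} (hκ : 2 ≤ κ) :
    List.range (2 * κ) = 0 :: (List.range' 1 (2 * κ - 2) ++ [2 * κ - 1]) := by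
  obtain ⟨j, hj⟩ : ∃ j, 2 * κ = j + 1 + 1 := ⟨2 * κ - 2, by omega⟩
  rw [hj, List.range_eq_range', List.range'_succ, List.range'_concat]
  have e1 : j + 1 + 1 - 2 = j := by omega
  have e2 : j + 1 + 1 - 1 = 0 + 1 + 1 * j := by omega
  rw [e1, e2]

theorem rt_range {κ : ℕ} (hκ : 2 ≤ κ) : Rt (List.range (2 * κ)) 0 (2 * κ - 1) where
  nd := List.nodup_range
  four := by rw [List.length_range]; omega
  hp := by rw [range_eq hκ]; rfl
  hz := by
    rw [range_eq hκ, ← List.cons_append, List.getLast?_append]
    rfl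

theorem intD_range {κ : ℕ} (hκ : 2 ≤ κ) : IntD [0, 2 * κ - 1] (List.range (2 * κ)) := by
  refine ⟨⟨0, 2 * κ - 1, [], List.range' 1 (2 * κ - 2), rfl, range_eq hκ, ?_, Or.inr ?_, ?_⟩⟩
  · rw [List.nil_append, List.nodup_cons, List.nodup_cons]
    refine ⟨?_, ?_, List.nodup_range'⟩
    · intro h
      rcases List.mem_cons.1 h with h | h
      · omega
      · have := (List.mem_range'_1.1 h).1
        omega
    · intro h
      have := (List.mem_range'_1.1 h).2
      omega
  · intro h
    have := congrArg List.length h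
    rw [List.length_range', List.length_nil] at this
    omega
  · rw [List.length_range', List.length_nil]
    omega

theorem intD_as {p z l : ℕ} {as : List ℕ} (hpz : p ≠ z) (hn : as.Nodup) (hp : p ∉ as) (hz : z ∉ as)
    (hlen : as.length = l - 1) (hl : 3 ≤ l) (hodd : l % 2 = 1) :
    IntD (p :: (as ++ [z])) [p, z] := by
  refine ⟨⟨p, z, as, [], rfl, rfl, ?_, Or.inl ?_, ?_⟩⟩
  · rw [List.append_nil, List.nodup_cons, List.nodup_cons]
    refine ⟨?_, hz, hn⟩
    intro h
    rcases List.mem_cons.1 h with h | h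
    · exact hpz h
    · exact hp h
  · intro h
    rw [h, List.length_nil] at hlen
    omega
  · rw [List.length_nil, hlen]
    omega

end H2Aux

open H2Aux

theorem eG_split (l : ℕ) {κ : ℕ} (hκ : 1 ≤ κ) (a b : ℕ) :
    eG x true l (2 * κ - 1) a b = eN x l κ a b + eC x l κ a b := by
  unfold eG eN eC
  rw [← eg_add]
  refine eg_congr fun n => ?_
  unfold nG nN nC
  have e : 2 * κ - 1 + 1 = 2 * κ := by omega
  rw [e]
  exact GW_split x a b l _ _ 0 (2 * κ - 1)

theorem eC_eq {l κ : ℕ} (hl : 3 ≤ l) (hodd : l % 2 = 1) (hκ : 2 ≤ κ) (a b : ℕ) :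
    eC x l κ a b = x ^ wct true l *
      ∑ q ∈ antidiagonal a, ∑ r ∈ antidiagonal b,
        sg x ((l + 1) / 2) q.1 r.1 * sg x κ q.2 r.2 := by
  classical
  have hz0 : (0 : ℕ) ≠ 2 * κ - 1 := by omega
  have key : ∀ n, nC x l κ a b n = ∑ q ∈ antidiagonal a, ∑ r ∈ antidiagonal b,
      x ^ wct true l * ((n.descFactorial (l - 1) : ℝ≥0∞) *
        ∑ p ∈ antidiagonal (n - (l - 1)), ((n - (l - 1)).choose p.1 : ℝ≥0∞) *
          (nS x ((l + 1) / 2) q.1 r.1 p.1 * nS x κ q.2 r.2 p.2)) := by
    intro n
    unfold nC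
    set L : Finset ℕ := Finset.Ico (2 * κ) (2 * κ + n) with hL
    have hLc : L.card = n := by rw [hL, Nat.card_Ico]; omega
    have hLm : ∀ u ∈ L, 2 * κ ≤ u := fun u hu => (Finset.mem_Ico.1 (hL ▸ hu)).1
    have hcL : Disjoint (List.range (2 * κ)).toFinset L := by
      rw [Finset.disjoint_left]
      intro u hu huL
      have h1 := List.mem_range.1 (List.mem_toFinset.1 hu)
      have h2 := hLm u huL
      omega
    rw [GWc_split x (rt_range hκ) a b hl hcL]
    have h1 : ∀ as ∈ dls (l - 1) L, ∑ L1 ∈ (L \ as.toFinset).powerset,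
        ∑ q ∈ antidiagonal a, ∑ r ∈ antidiagonal b, x ^ wct true l *
          (FWg x q.1 r.1 true (0 :: (as ++ [2 * κ - 1])) [0, 2 * κ - 1] L1 *
            FWg x q.2 r.2 true [0, 2 * κ - 1] (List.range (2 * κ)) ((L \ as.toFinset) \ L1)) =
        ∑ q ∈ antidiagonal a, ∑ r ∈ antidiagonal b, x ^ wct true l *
          ∑ p ∈ antidiagonal (n - (l - 1)), ((n - (l - 1)).choose p.1 : ℝ≥0∞) *
            (nS x ((l + 1) / 2) q.1 r.1 p.1 * nS x κ q.2 r.2 p.2) := by
      intro as has
      obtain ⟨hn, hlen, hmem⟩ := mem_dls.1 has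
      have h0as : (0 : ℕ) ∉ as := fun h => by
        have := hLm 0 (hmem 0 h); omega
      have hzas : 2 * κ - 1 ∉ as := fun h => by
        have := hLm _ (hmem _ h); omega
      have hsub : as.toFinset ⊆ L := fun u hu => hmem u (List.mem_toFinset.1 hu)
      have hcard : (L \ as.toFinset).card = n - (l - 1) := by
        rw [Finset.card_sdiff_of_subset hsub, hLc, List.toFinset_card_of_nodup hn, hlen]
      rw [Finset.sum_comm]
      refine Finset.sum_congr rfl fun q _ => ?_
      rw [Finset.sum_comm]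
      refine Finset.sum_congr rfl fun r _ => ?_
      rw [← Finset.mul_sum, ← hcard, ← sum_powerset_vals]
      congr 1
      refine Finset.sum_congr rfl fun L1 hL1 => ?_
      have hL1' := Finset.mem_powerset.1 hL1
      have d1 : Disjoint ((0 :: (as ++ [2 * κ - 1])).toFinset ∪
          ([0, 2 * κ - 1] : List ℕ).toFinset) L1 := by
        rw [Finset.disjoint_left]
        intro u hu huL
        have h1 := Finset.mem_sdiff.1 (hL1' huL)
        have h2 := hLm u h1.1
        simp only [Finset.mem_union, List.mem_toFinset, List.mem_cons, List.mem_append,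
          List.not_mem_nil, or_false] at hu
        rcases hu with (h | h | h) | h | h
        · omega
        · exact h1.2 (List.mem_toFinset.2 h)
        · omega
        · omega
        · omega
      have d2 : Disjoint (([0, 2 * κ - 1] : List ℕ).toFinset ∪
          (List.range (2 * κ)).toFinset) ((L \ as.toFinset) \ L1) := by
        rw [Finset.disjoint_left]
        intro u hu huL
        have h1 := Finset.mem_sdiff.1 (Finset.mem_sdiff.1 huL).1
        have h2 := hLm u h1.1
        simp only [Finset.mem_union, List.mem_toFinset, List.mem_cons,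
          List.not_mem_nil, or_false, List.mem_range] at hu
        omega
      have e1 := FWg_nS x (a := q.1) (b := r.1) (k := true) (κ := (l + 1) / 2)
        (intD_as hz0 hn h0as hzas hlen hl hodd)
        (by simp only [List.length_cons, List.length_append, List.length_nil]; omega) d1
      have e2 := FWg_nS x (a := q.2) (b := r.2) (k := true) (κ := κ) (intD_range hκ)
        (by simp only [List.length_cons, List.length_nil, List.length_range]; omega) d2
      rw [e1, e2]
    rw [Finset.sum_congr rfl h1, Finset.sum_const, card_dls, hLc, nsmul_eq_mul, Finset.mul_sum]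
    refine Finset.sum_congr rfl fun q _ => ?_
    rw [Finset.mul_sum]
    refine Finset.sum_congr rfl fun r _ => ?_
    ring
  unfold eC
  rw [eg_congr key, eg_sum, Finset.mul_sum]
  refine Finset.sum_congr rfl fun q _ => ?_
  rw [eg_sum, Finset.mul_sum]
  refine Finset.sum_congr rfl fun r _ => ?_
  rw [eg_mul_left, eg_lists, sg_eq, sg_eq]

end K5M
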