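import Pool.Agent.Lib.K5M.CDefs

/-!
# K5M.J0: marks and weights of a union of two complexes with small intersection

`V1`, `V2` are the vertex sets of the two complexes.  The marks `M1` are vertices of the first complex only,
so no quad of `N2` contains an element of `M1` and vice versa.
PROOFS.  `qd_union_left`: the filter of `N2` is empty.  `mk_union`: `three`: `qd_union_left`; `one`: for
`q ∈ N1`, `q.2 ∩ (M1 ∪ M2) = q.2 ∩ M1` because `q.2 ⊆ V1` is disjoint from `M2`; `blk`: an element of `M1` in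
`bl (N1 ∪ N2)` is not in `bl N2 ⊆ V2`.  `uq_union`: filter of a disjoint union; for `q ∈ N1`,
`Disjoint q.2 (M1 ∪ M2) ↔ Disjoint q.2 M1`.  `card_union_marks`: `M1`, `M2` are disjoint.
`lab_eq`: unfold `vx`, `inn`.  `card_pw`: induction on the list.
-/

set_option autoImplicit false

namespace K5M

open Finset
open scoped ENNReal

namespace J0Aux

theorem mbl {N : Finset Quad} {b : ℕ} : b ∈ bl N ↔ ∃ q ∈ N, b ∈ q.2 := Finset.mem_biUnion

theorem filter_nil {N : Finset Quad} {h : ℕ} (hN : h ∉ bl N) :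
    N.filter (fun q => h ∈ q.2) = ∅ := by
  refine filter_eq_empty_iff.2 fun q hq hh => hN (mbl.2 ⟨q, hq, hh⟩)

end J0Aux

open J0Aux

theorem qd_union_left {N1 N2 : Finset Quad} {h : ℕ} (h2 : h ∉ bl N2) :
    qd (N1 ∪ N2) h = qd N1 h := by
  unfold qd
  rw [filter_union, filter_nil h2, union_empty]

theorem qd_union_right {N1 N2 : Finset Quad} {h : ℕ} (h1 : h ∉ bl N1) :
    qd (N1 ∪ N2) h = qd N2 h := by
  unfold qd
  rw [filter_union, filter_nil h1, empty_union]

theorem wh_union (N1 N2 : Finset Quad) : wh (N1 ∪ N2) = wh N1 ∪ wh N2 :=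
  union_biUnion

theorem bl_union (N1 N2 : Finset Quad) : bl (N1 ∪ N2) = bl N1 ∪ bl N2 :=
  union_biUnion

variable {N1 N2 : Finset Quad} {V1 V2 I1 I2 M1 M2 : Finset ℕ}

namespace J0Aux

theorem dj_left (h2 : wh N2 ∪ bl N2 ⊆ V2) (hI1 : I1 ⊆ V1 \ V2) (hM1 : M1 ⊆ I1) :
    Disjoint M1 (bl N2) := by
  rw [disjoint_left]
  intro a ha hb
  exact (mem_sdiff.1 (hI1 (hM1 ha))).2 (h2 (mem_union_right _ hb))

theorem int_left {M M' : Finset ℕ} {N : Finset Quad} (h : Disjoint M' (bl N)) {q : Quad}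
    (hq : q ∈ N) : q.2 ∩ (M ∪ M') = q.2 ∩ M := by
  ext a
  simp only [mem_inter, mem_union]
  constructor
  · rintro ⟨ha, hM | hM⟩
    · exact ⟨ha, hM⟩
    · exact absurd (mbl.2 ⟨q, hq, ha⟩) (disjoint_left.1 h hM)
  · rintro ⟨ha, hM⟩
    exact ⟨ha, Or.inl hM⟩

theorem dis_left {M M' : Finset ℕ} {N : Finset Quad} (h : Disjoint M' (bl N)) {q : Quad}
    (hq : q ∈ N) : Disjoint q.2 (M ∪ M') ↔ Disjoint q.2 M := by
  rw [disjoint_iff_inter_eq_empty, disjoint_iff_inter_eq_empty, int_left h hq]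

theorem dj_marks (hI1 : I1 ⊆ V1 \ V2) (hI2 : I2 ⊆ V2 \ V1) : Disjoint I1 I2 := by
  rw [disjoint_left]
  intro a ha hb
  exact (mem_sdiff.1 (hI1 ha)).2 (mem_sdiff.1 (hI2 hb)).1

end J0Aux

theorem mk_union (h1 : wh N1 ∪ bl N1 ⊆ V1) (h2 : wh N2 ∪ bl N2 ⊆ V2) (hI1 : I1 ⊆ V1 \ V2)
    (hI2 : I2 ⊆ V2 \ V1) (hM1 : M1 ⊆ I1) (hM2 : M2 ⊆ I2) :
    Mk (I1 ∪ I2) (M1 ∪ M2) (N1 ∪ N2) ↔ Mk I1 M1 N1 ∧ Mk I2 M2 N2 := by
  have d1 := dj_left h2 hI1 hM1
  have d2 := dj_left h1 hI2 hM2
  constructor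
  · intro h
    refine ⟨⟨hM1, ?_, ?_, ?_⟩, ⟨hM2, ?_, ?_, ?_⟩⟩
    · intro a ha
      have := h.blk (mem_union_left _ ha)
      rw [bl_union, mem_union] at this
      exact this.resolve_right (disjoint_left.1 d1 ha)
    · intro a ha
      rw [← qd_union_left (N2 := N2) (disjoint_left.1 d1 ha)]
      exact h.three a (mem_union_left _ ha)
    · intro q hq
      have := h.one q (mem_union_left _ hq)
      rwa [int_left d2 hq] at this
    · intro a ha
      have := h.blk (mem_union_right _ ha)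
      rw [bl_union, mem_union] at this
      exact this.resolve_left (disjoint_left.1 d2 ha)
    · intro a ha
      rw [← qd_union_right (N1 := N1) (disjoint_left.1 d2 ha)]
      exact h.three a (mem_union_right _ ha)
    · intro q hq
      have := h.one q (mem_union_right _ hq)
      rwa [union_comm M1 M2, int_left d1 hq] at this
  · rintro ⟨g1, g2⟩
    refine ⟨union_subset_union hM1 hM2, ?_, ?_, ?_⟩
    · rw [bl_union]
      exact union_subset_union g1.blk g2.blk
    · intro a ha
      rcases mem_union.1 ha with ha | ha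
      · rw [qd_union_left (disjoint_left.1 d1 ha)]
        exact g1.three a ha
      · rw [qd_union_right (disjoint_left.1 d2 ha)]
        exact g2.three a ha
    · intro q hq
      rcases mem_union.1 hq with hq | hq
      · rw [int_left d2 hq]
        exact g1.one q hq
      · rw [union_comm M1 M2, int_left d1 hq]
        exact g2.one q hq

theorem uq_union (hd : Disjoint N1 N2) (h1 : wh N1 ∪ bl N1 ⊆ V1) (h2 : wh N2 ∪ bl N2 ⊆ V2)
    (hI1 : I1 ⊆ V1 \ V2) (hI2 : I2 ⊆ V2 \ V1) (hM1 : M1 ⊆ I1) (hM2 : M2 ⊆ I2) :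
    uq (M1 ∪ M2) (N1 ∪ N2) = uq M1 N1 + uq M2 N2 := by
  have d1 := dj_left h2 hI1 hM1
  have d2 := dj_left h1 hI2 hM2
  unfold uq
  rw [filter_union, card_union_of_disjoint (disjoint_filter_filter hd),
    filter_congr (fun q hq => dis_left (M := M1) d2 hq), union_comm M1 M2,
    filter_congr (fun q hq => dis_left (M := M2) d1 hq)]

theorem card_union_marks (hI1 : I1 ⊆ V1 \ V2) (hI2 : I2 ⊆ V2 \ V1) (hM1 : M1 ⊆ I1)
    (hM2 : M2 ⊆ I2) : (M1 ∪ M2).card = M1.card + M2.card :=
  card_union_of_disjoint (disjoint_of_subset_left hM1 (disjoint_of_subset_right hM2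
    (dj_marks hI1 hI2)))

/-- The marks of the two parts are determined by the marks of the union. -/
theorem inter_marks (hI1 : I1 ⊆ V1 \ V2) (hI2 : I2 ⊆ V2 \ V1) {M : Finset ℕ} (hM : M ⊆ I1 ∪ I2)
    (hM1 : M1 ⊆ I1) (hM2 : M2 ⊆ I2) :
    M = M1 ∪ M2 ↔ M1 = M ∩ I1 ∧ M2 = M ∩ I2 := by
  have hd := disjoint_left.1 (dj_marks hI1 hI2)
  constructor
  · rintro rfl
    constructor
    · ext a
      simp only [mem_inter, mem_union]
      constructor
      · exact fun ha => ⟨Or.inl ha, hM1 ha⟩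
      · rintro ⟨ha | ha, hI⟩
        · exact ha
        · exact absurd (hM2 ha) (hd hI)
    · ext a
      simp only [mem_inter, mem_union]
      constructor
      · exact fun ha => ⟨Or.inr ha, hM2 ha⟩
      · rintro ⟨ha | ha, hI⟩
        · exact absurd hI (hd (hM1 ha))
        · exact ha
  · rintro ⟨rfl, rfl⟩
    rw [← inter_union_distrib_left, inter_eq_left.2 hM]

/-- Removing quads without marked vertices. -/
theorem qd_sdiff {N X : Finset Quad} {h : ℕ} (hX : ∀ q ∈ X, h ∉ q.2) : qd (N \ X) h = qd N h := by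
  unfold qd
  congr 1
  ext q
  simp only [mem_filter, mem_sdiff]
  exact ⟨fun hq => ⟨hq.1.1, hq.2⟩, fun hq => ⟨⟨hq.1, fun hx => hX q hx hq.2⟩, hq.2⟩⟩

/-- All labels that are not on `c`. -/
theorem lab_eq (f c : List ℕ) (N : Finset Quad) :
    inn f c N ∪ (f.toFinset \ c.toFinset) = vx f c N \ c.toFinset := by
  ext a
  simp only [inn, vx, mem_union, mem_sdiff]
  tauto

theorem inn_eq_sdiff (f c : List ℕ) (N : Finset Quad) :
    inn f c N = vx f c N \ (f.toFinset ∪ c.toFinset) := by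
  ext a
  simp only [inn, vx, mem_union, mem_sdiff]
  tauto

/-- The number of white vertices of a path. -/
theorem card_pw {k : Bool} {as : List ℕ} (h : as.Nodup) :
    (pw k as).card = if k then (as.length + 1) / 2 else as.length / 2 := by
  induction as generalizing k with
  | nil => cases k <;> simp [B1Aux.pw_nil]
  | cons a l ih =>
    rw [List.nodup_cons] at h
    have h1 := ih (k := !k) h.2
    have h2 : a ∉ pw (!k) l := by
      intro ha
      have : a ∈ l.toFinset := by
        rw [← pw_union_pb (!k) l]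
        exact mem_union_left _ ha
      exact h.1 (List.mem_toFinset.1 this)
    rw [B1Aux.pw_cons, List.length_cons]
    cases k
    · simp only [Bool.not_false, if_true] at h1 ⊢
      simpa using h1
    · simp only [Bool.not_true] at h1 h2 ⊢
      rw [if_pos trivial, if_pos trivial, card_insert_of_notMem h2, h1]
      simp only [Bool.false_eq_true, if_false]
      omega

end K5M
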