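import Pool.Agent.Lib.K5M.J0
import Pool.Agent.Lib.K5M.B4
import Pool.Agent.Lib.K5M.B5

/-!
# K5M.J1: vertices and weights of two fillings joined at a common vertex

`f = p :: (as ++ v :: f2)`, `c = p :: (cs ++ v :: c2)`, no vertex of `as` is on `c`.
Write `V1`, `V2` for the vertex sets (`vx`) of the two parts: `V1 ∩ V2 = {v}`.

PROOFS.  `fill`: `Fill.join` (the lists are definitionally of the form `(p :: as) ++ v :: f2`).
`nodup`: a vertex of `as` in `cs`: `ha`; in `c2`: it is in `V1 ∩ V2 = {v}`, but `v ∉ as`.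
`inn_eq`: `wh (N1 ∪ N2) = wh N1 ∪ wh N2` etc.  An inner vertex of the first part is in `V1` and different
from `v`, so not in `V2`, so not on `f2`, `c2`; conversely a vertex of `N1` not on `f`, `c` is inner in the
first part.  `lab`: `vx f c (N1 ∪ N2) = V1 ∪ V2`; `V1 \ c = as ∪ L1` (the lists of the first part are
`p, as, v, cs`), `V2 \ c = V2 \ (v :: c2)` (a vertex of `V2` on `p :: cs` is in `V1 ∩ V2 = {v}`).
`gx_eq`: the number of the white vertices in `as`, plus those in `L1`, plus those in `L2` (three disjoint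
sets).  A vertex of `as` is white iff it is in `pw (!k) as ⊆ pw k f` (if it is in `wh (N1 ∪ N2)` it is in `pw k f`
by `col`: it is not in `pb k f`): `card_pw`.  A vertex of `L1` is not on `f` and not in `V2`: it is in
`wh (N1 ∪ N2) ∪ pw k f` iff it is in `wh N1`.  A vertex of `L2` is not in `V1`: it is in
`wh N1 ∪ wh N2 ∪ pw k f` iff it is in `wh N2 ∪ pw _ (v :: f2)` (`pw_append`).
-/

set_option autoImplicit false

namespace K5M

open Finset
open scoped ENNReal

/-- Two fillings joined at the first common vertex `v`. -/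
structure Glu (k : Bool) (p v : ℕ) (as f2 cs c2 : List ℕ) (N1 N2 : Finset Quad) : Prop where
  h1 : Fill k (p :: (as ++ [v])) (p :: (cs ++ [v])) N1
  h2 : Fill (kat k (as.length + 1)) (v :: f2) (v :: c2) N2
  hv : vx (p :: (as ++ [v])) (p :: (cs ++ [v])) N1 ∩ vx (v :: f2) (v :: c2) N2 = {v}
  ha : ∀ u ∈ as, u ∉ cs

/-- The inner labels of the first part. -/
def gi1 (p v : ℕ) (as cs : List ℕ) (N1 : Finset Quad) : Finset ℕ :=
  inn (p :: (as ++ [v])) (p :: (cs ++ [v])) N1

/-- All labels of the second part. -/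
def gl2 (v : ℕ) (f2 c2 : List ℕ) (N2 : Finset Quad) : Finset ℕ :=
  inn (v :: f2) (v :: c2) N2 ∪ ((v :: f2).toFinset \ (v :: c2).toFinset)

variable {k : Bool} {p v : ℕ} {as f2 cs c2 : List ℕ} {N1 N2 : Finset Quad}

namespace J1Aux

theorem mem_V1 {u : ℕ} : u ∈ vx (p :: (as ++ [v])) (p :: (cs ++ [v])) N1 ↔
    u ∈ wh N1 ∨ u ∈ bl N1 ∨ u = p ∨ u ∈ as ∨ u = v ∨ u ∈ cs := by
  simp only [vx, mem_union, List.mem_toFinset, List.mem_cons, List.mem_append, List.not_mem_nil,
    or_false]
  tauto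

theorem mem_V2 {u : ℕ} : u ∈ vx (v :: f2) (v :: c2) N2 ↔
    u ∈ wh N2 ∨ u ∈ bl N2 ∨ u = v ∨ u ∈ f2 ∨ u ∈ c2 := by
  simp only [vx, mem_union, List.mem_toFinset, List.mem_cons]
  tauto

theorem mem_gi1 {u : ℕ} : u ∈ gi1 p v as cs N1 ↔
    (u ∈ wh N1 ∨ u ∈ bl N1) ∧ u ≠ p ∧ u ∉ as ∧ u ≠ v ∧ u ∉ cs := by
  simp only [gi1, inn, mem_union, mem_sdiff, List.mem_toFinset, List.mem_cons, List.mem_append,
    List.not_mem_nil, or_false, ne_eq]
  tauto

theorem mem_in2 {u : ℕ} : u ∈ inn (v :: f2) (v :: c2) N2 ↔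
    (u ∈ wh N2 ∨ u ∈ bl N2) ∧ u ≠ v ∧ u ∉ f2 ∧ u ∉ c2 := by
  simp only [inn, mem_union, mem_sdiff, List.mem_toFinset, List.mem_cons, ne_eq]
  tauto

theorem mem_gl2 {u : ℕ} : u ∈ gl2 v f2 c2 N2 ↔
    ((u ∈ wh N2 ∨ u ∈ bl N2) ∧ u ≠ v ∧ u ∉ f2 ∧ u ∉ c2) ∨
      ((u = v ∨ u ∈ f2) ∧ u ≠ v ∧ u ∉ c2) := by
  rw [gl2, mem_union, mem_in2]
  simp only [mem_sdiff, List.mem_toFinset, List.mem_cons, ne_eq, not_or]

theorem mem_inn {u : ℕ} :
    u ∈ inn (p :: (as ++ v :: f2)) (p :: (cs ++ v :: c2)) (N1 ∪ N2) ↔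
    (u ∈ wh N1 ∨ u ∈ wh N2 ∨ u ∈ bl N1 ∨ u ∈ bl N2) ∧ u ≠ p ∧ u ∉ as ∧ u ≠ v ∧ u ∉ f2 ∧ u ∉ cs ∧
      u ∉ c2 := by
  rw [inn, wh_union, bl_union]
  simp only [mem_union, mem_sdiff, List.mem_toFinset, List.mem_cons, List.mem_append, ne_eq]
  tauto

theorem mem_lab {u : ℕ} :
    u ∈ (p :: (as ++ v :: f2)).toFinset \ (p :: (cs ++ v :: c2)).toFinset ↔
    (u = p ∨ u ∈ as ∨ u = v ∨ u ∈ f2) ∧ u ≠ p ∧ u ∉ cs ∧ u ≠ v ∧ u ∉ c2 := by
  simp only [mem_sdiff, List.mem_toFinset, List.mem_cons, List.mem_append, ne_eq]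
  tauto

theorem key (h : Glu k p v as f2 cs c2 N1 N2) {u : ℕ}
    (h1 : u ∈ wh N1 ∨ u ∈ bl N1 ∨ u = p ∨ u ∈ as ∨ u = v ∨ u ∈ cs)
    (h2 : u ∈ wh N2 ∨ u ∈ bl N2 ∨ u = v ∨ u ∈ f2 ∨ u ∈ c2) : u = v := by
  have h3 : u ∈ ({v} : Finset ℕ) := by
    rw [← h.hv]
    exact mem_inter.2 ⟨mem_V1.2 h1, mem_V2.2 h2⟩
  exact mem_singleton.1 h3

theorem nd_as (h : Glu k p v as f2 cs c2 N1 N2) {u : ℕ} (hu : u ∈ as) : u ≠ p ∧ u ≠ v := by
  have h1 := h.h1.nf
  rw [List.nodup_cons, List.nodup_append] at h1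
  constructor
  · rintro rfl
    exact h1.1 (List.mem_append_left _ hu)
  · intro e
    exact h1.2.2.2 u hu v (List.mem_singleton.2 rfl) e

theorem nd_f2 (h : Glu k p v as f2 cs c2 N1 N2) {u : ℕ} (hu : u ∈ f2) : u ≠ v := by
  have h1 := h.h2.nf
  rw [List.nodup_cons] at h1
  rintro rfl
  exact h1.1 hu

theorem nd (h : Glu k p v as f2 cs c2 N1 N2) {u : ℕ} (hu : u ∈ as) :
    u ≠ p ∧ u ≠ v ∧ u ∉ cs ∧ u ∉ c2 := by
  obtain ⟨h1, h2⟩ := nd_as h hu
  refine ⟨h1, h2, h.ha u hu, fun h3 => h2 ?_⟩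
  exact key h (Or.inr (Or.inr (Or.inr (Or.inl hu)))) (Or.inr (Or.inr (Or.inr (Or.inr h3))))

end J1Aux

open J1Aux

theorem Glu.fill (h : Glu k p v as f2 cs c2 N1 N2) : Disjoint N1 N2 ∧
    Fill k (p :: (as ++ v :: f2)) (p :: (cs ++ v :: c2)) (N1 ∪ N2) := by
  exact Fill.join (f1 := p :: as) (c1 := p :: cs) h.h1 h.h2 h.hv

theorem Glu.nodup (h : Glu k p v as f2 cs c2 N1 N2) :
    ∀ u ∈ as, u ∉ p :: (cs ++ v :: c2) := by
  intro u hu hc
  obtain ⟨h1, h2, h3, h4⟩ := nd h hu
  simp only [List.mem_cons, List.mem_append] at hc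
  tauto

theorem Glu.inn_eq (h : Glu k p v as f2 cs c2 N1 N2) :
    inn (p :: (as ++ v :: f2)) (p :: (cs ++ v :: c2)) (N1 ∪ N2) =
      gi1 p v as cs N1 ∪ inn (v :: f2) (v :: c2) N2 := by
  ext u
  rw [mem_union, mem_inn, mem_gi1, mem_in2]
  have h1 := fun a b => key h (u := u) a b
  tauto

theorem Glu.sub1 (h : Glu k p v as f2 cs c2 N1 N2) :
    gi1 p v as cs N1 ⊆ vx (p :: (as ++ [v])) (p :: (cs ++ [v])) N1 \ vx (v :: f2) (v :: c2) N2 := by
  intro u hu
  rw [mem_gi1] at hu
  rw [mem_sdiff, mem_V1, mem_V2]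
  refine ⟨by tauto, fun h2 => hu.2.2.2.1 (key h (by tauto) h2)⟩

theorem Glu.sub2 (h : Glu k p v as f2 cs c2 N1 N2) :
    inn (v :: f2) (v :: c2) N2 ⊆
      vx (v :: f2) (v :: c2) N2 \ vx (p :: (as ++ [v])) (p :: (cs ++ [v])) N1 := by
  intro u hu
  rw [mem_in2] at hu
  rw [mem_sdiff, mem_V1, mem_V2]
  refine ⟨by tauto, fun h1 => hu.2.1 (key h h1 (by tauto))⟩

theorem Glu.lab (h : Glu k p v as f2 cs c2 N1 N2) :
    inn (p :: (as ++ v :: f2)) (p :: (cs ++ v :: c2)) (N1 ∪ N2) ∪
        ((p :: (as ++ v :: f2)).toFinset \ (p :: (cs ++ v :: c2)).toFinset) =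
      as.toFinset ∪ (gi1 p v as cs N1 ∪ gl2 v f2 c2 N2) := by
  ext u
  rw [mem_union, mem_inn, mem_lab, mem_union, mem_union, mem_gi1, mem_gl2, List.mem_toFinset]
  have h1 := fun a b => key h (u := u) a b
  have h2 := fun a => nd h (u := u) a
  have h3 := fun a => nd_f2 h (u := u) a
  by_cases hV : u = v
  · have ha : u ∉ as := fun hh => (h2 hh).2.1 hV
    have hf : u ∉ f2 := fun hh => (h3 hh) hV
    simp only [hV, hV ▸ ha, hV ▸ hf, ne_eq, not_true, false_and, and_false, or_false, true_or,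
      not_false_iff, and_true, true_and]
  · by_cases hA : u ∈ as
    · have h4 := h2 hA
      simp only [hA, h4, ne_eq, not_false_iff, true_and, true_or, or_true, and_true, not_true,
        false_and, and_false, or_false]
    · by_cases hV1 : u ∈ wh N1 ∨ u ∈ bl N1 ∨ u = p ∨ u ∈ as ∨ u = v ∨ u ∈ cs
      · have h5 : ¬ (u ∈ wh N2 ∨ u ∈ bl N2 ∨ u = v ∨ u ∈ f2 ∨ u ∈ c2) := fun hh => hV (h1 hV1 hh)
        rw [not_or, not_or, not_or, not_or] at h5
        obtain ⟨e1, e2, e3, e4, e5⟩ := h5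
        simp only [e1, e2, e3, e4, e5, hA, false_or, or_false, ne_eq, not_false_iff, true_and,
          and_true, false_and, and_false]
        by_cases hp : u = p
        · simp only [hp, not_true, false_and, and_false, or_false]
        · simp only [hp, not_false_iff, true_and, false_and, or_false]
      · rw [not_or, not_or, not_or, not_or, not_or] at hV1
        obtain ⟨e1, e2, e3, e4, e5, e6⟩ := hV1
        simp only [e1, e2, e3, e4, e5, e6, false_or, or_false, ne_eq, not_false_iff, true_and,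
          and_true, false_and, and_false]

theorem Glu.disj (h : Glu k p v as f2 cs c2 N1 N2) :
    Disjoint as.toFinset (gi1 p v as cs N1) ∧ Disjoint as.toFinset (gl2 v f2 c2 N2) ∧
      Disjoint (gi1 p v as cs N1) (gl2 v f2 c2 N2) := by
  have h1 := fun u a b => key h (u := u) a b
  have h2 := fun u a => nd h (u := u) a
  refine ⟨?_, ?_, ?_⟩
  · rw [Finset.disjoint_left]
    intro u hu hu'
    rw [List.mem_toFinset] at hu
    rw [mem_gi1] at hu'
    exact hu'.2.2.1 hu
  · rw [Finset.disjoint_left]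
    intro u hu hu'
    rw [List.mem_toFinset] at hu
    rw [mem_gl2] at hu'
    refine (h2 u hu).2.1 (h1 u (by tauto) ?_)
    tauto
  · rw [Finset.disjoint_left]
    intro u hu hu'
    rw [mem_gi1] at hu
    rw [mem_gl2] at hu'
    refine hu.2.2.2.1 (h1 u ?_ ?_)
    · tauto
    · tauto

theorem Glu.gx_eq (h : Glu k p v as f2 cs c2 N1 N2) (M M2 : Finset ℕ) :
    gx k (as.toFinset ∪ (gi1 p v as cs N1 ∪ gl2 v f2 c2 N2))
        (p :: (as ++ v :: f2), (N1 ∪ N2, M)) =
      wct k (as.length + 1) + ((wh N1 ∩ gi1 p v as cs N1).card +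
        gx (kat k (as.length + 1)) (gl2 v f2 c2 N2) (v :: f2, (N2, M2))) := by
  obtain ⟨d1, d2, d3⟩ := h.disj
  have hcol := (h.fill).2.col
  have hpwf : pw k (p :: (as ++ v :: f2)) =
      pw k (p :: as) ∪ pw (kat k (as.length + 1)) (v :: f2) := pw_append k (p :: as) (v :: f2)
  have hpas : pw k (p :: as) ⊆ (p :: as).toFinset := by
    rw [← pw_union_pb k]
    exact subset_union_left
  have hpf2 : pw (kat k (as.length + 1)) (v :: f2) ⊆ (v :: f2).toFinset := by
    rw [← pw_union_pb (kat k (as.length + 1))]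
    exact subset_union_left
  have hpa : pw (!k) as ⊆ as.toFinset := by
    rw [← pw_union_pb (!k)]
    exact subset_union_left
  have hS : (wh (N1 ∪ N2) ∪ pw k (p :: (as ++ v :: f2))) ∩
      (as.toFinset ∪ (gi1 p v as cs N1 ∪ gl2 v f2 c2 N2)) =
      pw (!k) as ∪ ((wh N1 ∩ gi1 p v as cs N1) ∪
        ((wh N2 ∪ pw (kat k (as.length + 1)) (v :: f2)) ∩ gl2 v f2 c2 N2)) := by
    ext u
    rw [mem_inter, mem_union, mem_union, mem_union, mem_union, mem_union, mem_inter, mem_inter,
      mem_union, wh_union, mem_union]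
    by_cases hA : u ∈ as.toFinset
    · have e1 : u ∉ gi1 p v as cs N1 := disjoint_left.1 d1 hA
      have e2 : u ∉ gl2 v f2 c2 N2 := disjoint_left.1 d2 hA
      have e3 : ((u ∈ wh N1 ∨ u ∈ wh N2) ∨ u ∈ pw k (p :: (as ++ v :: f2))) ↔ u ∈ pw (!k) as := by
        constructor
        · intro h1
          by_contra h2
          rw [← pw_union_pb (!k), mem_union] at hA
          have h3 : u ∈ pb (!k) as := hA.resolve_left h2
          have h4 : u ∈ pb k (p :: (as ++ v :: f2)) := by
            apply B1Aux.pw_cons_sub (!k) p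
            rw [pw_append]
            exact mem_union_left _ h3
          refine disjoint_left.1 hcol ?_ (mem_union_left _ (mem_union_right _ h4))
          refine mem_union_left _ ?_
          rw [mem_union, wh_union, mem_union]
          exact h1
        · intro h1
          right
          apply B1Aux.pw_cons_sub
          rw [pw_append]
          exact mem_union_left _ h1
      rw [e3]
      simp only [hA, e1, e2, true_or, and_true, and_false, or_false]
    · have hA' : u ∉ pw (!k) as := fun hh => hA (hpa hh)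
      by_cases hG : u ∈ gi1 p v as cs N1
      · have e2 : u ∉ gl2 v f2 c2 N2 := disjoint_left.1 d3 hG
        have hs : ¬ (u ∈ wh N2 ∨ u ∈ bl N2 ∨ u = v ∨ u ∈ f2 ∨ u ∈ c2) :=
          fun hh => (mem_sdiff.1 (h.sub1 hG)).2 (mem_V2.2 hh)
        have e3 : u ∉ pw k (p :: (as ++ v :: f2)) := by
          rw [hpwf, mem_union, not_or]
          rw [mem_gi1] at hG
          constructor
          · intro hh
            have := hpas hh
            rw [List.mem_toFinset, List.mem_cons] at this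
            rcases this with hh | hh
            · exact hG.2.1 hh
            · exact hG.2.2.1 hh
          · intro hh
            have := hpf2 hh
            rw [List.mem_toFinset, List.mem_cons] at this
            rcases this with hh | hh
            · exact hG.2.2.2.1 hh
            · exact hs (Or.inr (Or.inr (Or.inr (Or.inl hh))))
        have e4 : u ∉ wh N2 := fun hh => hs (Or.inl hh)
        simp only [hA, hA', hG, e2, e3, e4, or_false, false_or, or_true, and_true, and_false]
      · by_cases hL : u ∈ gl2 v f2 c2 N2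
        · have hL' := hL
          rw [mem_gl2] at hL'
          have hn : ¬ (u ∈ wh N1 ∨ u ∈ bl N1 ∨ u = p ∨ u ∈ as ∨ u = v ∨ u ∈ cs) := by
            intro hh
            have e1 : u ≠ v := by
              rcases hL' with hL' | hL'
              · exact hL'.2.1
              · exact hL'.2.1
            apply e1
            apply key h hh
            rcases hL' with ⟨hL' | hL', _⟩ | ⟨hL' | hL', _⟩
            · exact Or.inl hL'
            · exact Or.inr (Or.inl hL')
            · exact absurd hL' e1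
            · exact Or.inr (Or.inr (Or.inr (Or.inl hL')))
          have e3 : u ∈ pw k (p :: (as ++ v :: f2)) ↔
              u ∈ pw (kat k (as.length + 1)) (v :: f2) := by
            rw [hpwf, mem_union]
            constructor
            · rintro (hh | hh)
              · exfalso
                have := hpas hh
                rw [List.mem_toFinset, List.mem_cons] at this
                rcases this with hh | hh
                · exact hn (Or.inr (Or.inr (Or.inl hh)))
                · exact hn (Or.inr (Or.inr (Or.inr (Or.inl hh))))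
              · exact hh
            · exact Or.inr
          have e4 : u ∉ wh N1 := fun hh => hn (Or.inl hh)
          rw [e3]
          simp only [hA, hA', hG, hL, e4, or_false, false_or, or_true, and_true, and_false]
        · simp only [hA, hA', hG, hL, or_false, and_false]
  unfold gx
  dsimp only
  rw [hS, card_union_of_disjoint, card_union_of_disjoint]
  · congr 1
    have hn : as.Nodup := by
      have h1 := h.h1.nf
      rw [List.nodup_cons, List.nodup_append] at h1
      exact h1.2.1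
    rw [card_pw hn, wct]
    cases k
    · simp
    · simp
  · exact disjoint_of_subset_left inter_subset_right
      (disjoint_of_subset_right inter_subset_right d3)
  · rw [disjoint_union_right]
    exact ⟨disjoint_of_subset_left hpa (disjoint_of_subset_right inter_subset_right d1),
      disjoint_of_subset_left hpa (disjoint_of_subset_right inter_subset_right d2)⟩

end K5M
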