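import Pool.Agent.Lib.K5M.CDefs

/-!
# K5M.T0: tools for the labelled counting

Sums over sets in bijection, lists of distinct labels, exponential generating functions at 1.
-/

set_option autoImplicit false

namespace K5M

open Finset
open scoped ENNReal

theorem tsum_bijOn {β α : Type} (P : Set β) (S : Set α) (φ : β → α) (h : Set.BijOn φ P S)
    (w : α → ℝ≥0∞) : ∑' s : S, w s = ∑' b : P, w (φ b) := by
  have := (Set.BijOn.equiv φ h).tsum_eq (fun s : S => w s)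
  rw [← this]
  rfl

theorem tsum_decomp {ι β α : Type} (IX : Finset ι) (P : ι → Set β) (S : Set α) (φ : ι → β → α)
    (h : Set.BijOn (fun p : ι × β => φ p.1 p.2) {p | p.1 ∈ IX ∧ p.2 ∈ P p.1} S)
    (w : α → ℝ≥0∞) :
    ∑' s : S, w s = ∑ i ∈ IX, ∑' b : P i, w (φ i b) := by
  classical
  rw [tsum_bijOn _ _ _ h w, ← Finset.tsum_subtype' IX (fun i => ∑' b : P i, w (φ i b))]
  have e : {p : ι × β | p.1 ∈ IX ∧ p.2 ∈ P p.1} ≃ (Σ i : (IX : Set ι), P i.1) :=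
    { toFun := fun p => ⟨⟨p.1.1, p.2.1⟩, ⟨p.1.2, p.2.2⟩⟩
      invFun := fun q => ⟨(q.1.1, q.2.1), ⟨q.1.2, q.2.2⟩⟩
      left_inv := fun _ => rfl
      right_inv := fun _ => rfl }
  have h2 : ∑' q : (Σ i : (IX : Set ι), P i.1), w (φ q.1.1 q.2.1)
      = ∑' i : (IX : Set ι), ∑' b : P i.1, w (φ i.1 b.1) :=
    ENNReal.tsum_sigma (fun (i : (IX : Set ι)) (b : P i.1) => w (φ i.1 b.1))
  have h3 : ∑' b : {p : ι × β | p.1 ∈ IX ∧ p.2 ∈ P p.1}, w (φ b.1.1 b.1.2)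
      = ∑' q : (Σ i : (IX : Set ι), P i.1), w (φ q.1.1 q.2.1) := by
    let e' : (Σ i : (IX : Set ι), P i.1) ≃ {p : ι × β | p.1 ∈ IX ∧ p.2 ∈ P p.1} :=
      { toFun := fun q => ⟨(q.1.1, q.2.1), ⟨q.1.2, q.2.2⟩⟩
        invFun := fun p => ⟨⟨p.1.1, p.2.1⟩, ⟨p.1.2, p.2.2⟩⟩
        left_inv := fun _ => rfl
        right_inv := fun _ => rfl }
    rw [← e'.tsum_eq]
    rfl
  exact h3.trans h2

theorem tsum_prod_set {α β : Type} (A : Set α) (B : Set β) (u : α → ℝ≥0∞) (v : β → ℝ≥0∞) :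
    ∑' s : (A ×ˢ B : Set (α × β)), u s.1.1 * v s.1.2 = (∑' a : A, u a) * ∑' b : B, v b := by
  rw [← (Equiv.Set.prod A B).symm.tsum_eq]
  have : ∑' c : A × B, (fun s : (A ×ˢ B : Set (α × β)) => u s.1.1 * v s.1.2)
      ((Equiv.Set.prod A B).symm c) = ∑' c : A × B, u c.1 * v c.2 := rfl
  rw [this]
  have h2 : ∑' c : A × B, u c.1 * v c.2 = ∑' (a : A) (b : B), u a * v b :=
    ENNReal.tsum_prod (f := fun (a : A) (b : B) => u a * v b)
  rw [h2, ← ENNReal.tsum_mul_right]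
  refine tsum_congr fun a => ?_
  rw [ENNReal.tsum_mul_left]

theorem tsum_split_pred {α : Type} (S : Set α) (p : α → Prop) (w : α → ℝ≥0∞) :
    ∑' s : S, w s = ∑' s : {s | s ∈ S ∧ p s}, w s + ∑' s : {s | s ∈ S ∧ ¬ p s}, w s := by
  have h1 : S = {s | s ∈ S ∧ p s} ∪ {s | s ∈ S ∧ ¬ p s} := by
    ext s
    simp only [Set.mem_union, Set.mem_ofPred_eq]
    tauto
  have h2 : Disjoint {s | s ∈ S ∧ p s} {s | s ∈ S ∧ ¬ p s} := by
    rw [Set.disjoint_left]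
    rintro s ⟨_, h⟩ ⟨_, h'⟩
    exact h' h
  conv_lhs => rw [h1]
  exact ENNReal.summable.tsum_union_disjoint h2 ENNReal.summable

theorem mem_dls {r : ℕ} {L : Finset ℕ} {as : List ℕ} :
    as ∈ dls r L ↔ as.Nodup ∧ as.length = r ∧ ∀ u ∈ as, u ∈ L := by
  induction r generalizing L as with
  | zero =>
    simp only [dls, Finset.mem_singleton]
    constructor
    · rintro rfl; simp
    · rintro ⟨_, h, _⟩; exact List.length_eq_zero_iff.1 h
  | succ r ih =>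
    simp only [dls, Finset.mem_biUnion, Finset.mem_image]
    constructor
    · rintro ⟨u, hu, bs, hbs, rfl⟩
      obtain ⟨h1, h2, h3⟩ := ih.1 hbs
      refine ⟨List.nodup_cons.2 ⟨fun h => (Finset.mem_erase.1 (h3 u h)).1 rfl, h1⟩, by simp [h2], ?_⟩
      intro v hv
      rcases List.mem_cons.1 hv with rfl | hv
      · exact hu
      · exact Finset.mem_of_mem_erase (h3 v hv)
    · rintro ⟨h1, h2, h3⟩
      rcases as with _ | ⟨u, bs⟩
      · simp at h2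
      · rw [List.nodup_cons] at h1
        refine ⟨u, h3 u List.mem_cons_self, bs, ih.2 ⟨h1.2, by simpa using h2, fun v hv => ?_⟩, rfl⟩
        exact Finset.mem_erase.2 ⟨fun e => h1.1 (e ▸ hv), h3 v (List.mem_cons_of_mem _ hv)⟩

theorem card_dls (r : ℕ) (L : Finset ℕ) : (dls r L).card = L.card.descFactorial r := by
  induction r generalizing L with
  | zero => simp [dls]
  | succ r ih =>
    rw [dls, Finset.card_biUnion]
    · have h1 : ∀ u ∈ L, ((dls r (L.erase u)).image (List.cons u)).card = (L.card - 1).descFactorial r := by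
        intro u hu
        rw [Finset.card_image_of_injective _ (List.cons_injective), ih, Finset.card_erase_of_mem hu]
      rw [Finset.sum_congr rfl h1, Finset.sum_const, smul_eq_mul]
      rcases Nat.eq_zero_or_pos L.card with h | h
      · rw [h]; simp
      · obtain ⟨n, hn⟩ := Nat.exists_eq_succ_of_ne_zero h.ne'
        rw [hn, Nat.succ_descFactorial_succ, Nat.succ_sub_one]
    · intro u _ v _ huv
      refine Finset.disjoint_left.2 ?_
      intro as h1 h2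
      obtain ⟨_, _, rfl⟩ := Finset.mem_image.1 h1
      obtain ⟨_, _, h3⟩ := Finset.mem_image.1 h2
      exact huv ((List.cons.inj h3).1).symm

theorem sum_powerset_vals (φ ψ : ℕ → ℝ≥0∞) (U : Finset ℕ) :
    ∑ A ∈ U.powerset, φ A.card * ψ (U \ A).card =
      ∑ p ∈ antidiagonal U.card, (U.card.choose p.1 : ℝ≥0∞) * (φ p.1 * ψ p.2) := by
  have h1 : ∑ A ∈ U.powerset, φ A.card * ψ (U \ A).card
      = ∑ A ∈ U.powerset, φ A.card * ψ (U.card - A.card) := by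
    refine Finset.sum_congr rfl fun A hA => ?_
    rw [Finset.card_sdiff_of_subset (Finset.mem_powerset.1 hA)]
  rw [h1, Finset.sum_powerset_apply_card (fun n => φ n * ψ (U.card - n)),
    Finset.Nat.sum_antidiagonal_eq_sum_range_succ
      (fun a b => (U.card.choose a : ℝ≥0∞) * (φ a * ψ b))]
  refine Finset.sum_congr rfl fun n _ => ?_
  rw [nsmul_eq_mul]

theorem eg_congr {φ ψ : ℕ → ℝ≥0∞} (h : ∀ n, φ n = ψ n) : eg φ = eg ψ := by
  rw [funext h]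

theorem eg_add (φ ψ : ℕ → ℝ≥0∞) : eg (fun n => φ n + ψ n) = eg φ + eg ψ := by
  unfold eg
  rw [← ENNReal.tsum_add]
  exact tsum_congr fun n => ENNReal.add_div

theorem eg_mul_left (a : ℝ≥0∞) (φ : ℕ → ℝ≥0∞) : eg (fun n => a * φ n) = a * eg φ := by
  unfold eg
  rw [← ENNReal.tsum_mul_left]
  exact tsum_congr fun n => mul_div_assoc _ _ _

theorem eg_zero : eg (fun _ => 0) = 0 := by
  unfold eg
  simp

theorem eg_sum {ι : Type} (s : Finset ι) (φ : ι → ℕ → ℝ≥0∞) :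
    eg (fun n => ∑ i ∈ s, φ i n) = ∑ i ∈ s, eg (φ i) := by
  classical
  induction s using Finset.induction_on with
  | empty => simp [eg_zero]
  | insert a s ha ih =>
    rw [Finset.sum_insert ha, ← ih, ← eg_add]
    exact eg_congr fun n => Finset.sum_insert ha

theorem eg_mono {φ ψ : ℕ → ℝ≥0∞} (h : ∀ n, φ n ≤ ψ n) : eg φ ≤ eg ψ :=
  ENNReal.tsum_le_tsum fun n => ENNReal.div_le_div_right (h n) _

theorem fact_ne_zero (n : ℕ) : (n.factorial : ℝ≥0∞) ≠ 0 := by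
  exact_mod_cast Nat.factorial_ne_zero n

theorem fact_ne_top (n : ℕ) : (n.factorial : ℝ≥0∞) ≠ ⊤ := ENNReal.natCast_ne_top _

theorem desc_div (r n : ℕ) (h : r ≤ n) (a : ℝ≥0∞) :
    ((n.descFactorial r : ℕ) : ℝ≥0∞) * a / (n.factorial : ℝ≥0∞)
      = a / ((n - r).factorial : ℝ≥0∞) := by
  have h1 : ((n.factorial : ℕ) : ℝ≥0∞)
      = ((n - r).factorial : ℝ≥0∞) * ((n.descFactorial r : ℕ) : ℝ≥0∞) := by
    exact_mod_cast (Nat.factorial_mul_descFactorial h).symm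
  have h2 : ((n.descFactorial r : ℕ) : ℝ≥0∞) ≠ 0 := by
    have := Nat.descFactorial_eq_zero_iff_lt (n := n) (k := r)
    exact_mod_cast (fun h3 => absurd (this.1 h3) (not_lt.2 h))
  rw [h1, ENNReal.div_eq_inv_mul, ENNReal.div_eq_inv_mul,
    ENNReal.mul_inv (Or.inl (fact_ne_zero _)) (Or.inl (fact_ne_top _))]
  calc ((n - r).factorial : ℝ≥0∞)⁻¹ * ((n.descFactorial r : ℕ) : ℝ≥0∞)⁻¹
        * (((n.descFactorial r : ℕ) : ℝ≥0∞) * a)
      = ((n - r).factorial : ℝ≥0∞)⁻¹ * (((n.descFactorial r : ℕ) : ℝ≥0∞)⁻¹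
        * ((n.descFactorial r : ℕ) : ℝ≥0∞)) * a := by ring
    _ = _ := by rw [ENNReal.inv_mul_cancel h2 (ENNReal.natCast_ne_top _), mul_one]

theorem choose_div (n a : ℕ) (h : a ≤ n) (u v : ℝ≥0∞) :
    ((n.choose a : ℕ) : ℝ≥0∞) * (u * v) / (n.factorial : ℝ≥0∞)
      = (u / (a.factorial : ℝ≥0∞)) * (v / ((n - a).factorial : ℝ≥0∞)) := by
  have h1 : ((n.factorial : ℕ) : ℝ≥0∞)
      = ((n.choose a : ℕ) : ℝ≥0∞) * ((a.factorial : ℝ≥0∞) * ((n - a).factorial : ℝ≥0∞)) := by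
    rw [← mul_assoc]
    exact_mod_cast (Nat.choose_mul_factorial_mul_factorial h).symm
  have h2 : ((n.choose a : ℕ) : ℝ≥0∞) ≠ 0 := by
    exact_mod_cast (Nat.choose_pos h).ne'
  rw [h1, ENNReal.div_eq_inv_mul, ENNReal.div_eq_inv_mul, ENNReal.div_eq_inv_mul,
    ENNReal.mul_inv (Or.inl h2) (Or.inl (ENNReal.natCast_ne_top _)),
    ENNReal.mul_inv (Or.inl (fact_ne_zero _)) (Or.inl (fact_ne_top _))]
  calc ((n.choose a : ℕ) : ℝ≥0∞)⁻¹ * ((a.factorial : ℝ≥0∞)⁻¹ * ((n - a).factorial : ℝ≥0∞)⁻¹)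
        * (((n.choose a : ℕ) : ℝ≥0∞) * (u * v))
      = (((n.choose a : ℕ) : ℝ≥0∞)⁻¹ * ((n.choose a : ℕ) : ℝ≥0∞))
        * ((a.factorial : ℝ≥0∞)⁻¹ * u * (((n - a).factorial : ℝ≥0∞)⁻¹ * v)) := by ring
    _ = _ := by rw [ENNReal.inv_mul_cancel h2 (ENNReal.natCast_ne_top _), one_mul]

theorem eg_mul (φ ψ : ℕ → ℝ≥0∞) :
    eg (fun n => ∑ p ∈ antidiagonal n, (n.choose p.1 : ℝ≥0∞) * (φ p.1 * ψ p.2)) = eg φ * eg ψ := by
  unfold eg
  have h1 : ∀ n : ℕ, (∑ p ∈ antidiagonal n, (n.choose p.1 : ℝ≥0∞) * (φ p.1 * ψ p.2))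
      / (n.factorial : ℝ≥0∞) = ∑ p ∈ antidiagonal n, (φ p.1 / (p.1.factorial : ℝ≥0∞))
        * (ψ p.2 / (p.2.factorial : ℝ≥0∞)) := by
    intro n
    rw [ENNReal.div_eq_inv_mul, Finset.mul_sum]
    refine Finset.sum_congr rfl fun p hp => ?_
    have hp' : p.1 + p.2 = n := Finset.HasAntidiagonal.mem_antidiagonal.1 hp
    rw [← ENNReal.div_eq_inv_mul, choose_div n p.1 (by omega), show n - p.1 = p.2 by omega]
  rw [tsum_congr h1]
  have h2 : ∀ n : ℕ, ∑ p ∈ antidiagonal n, (φ p.1 / (p.1.factorial : ℝ≥0∞))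
        * (ψ p.2 / (p.2.factorial : ℝ≥0∞)) = ∑' p : antidiagonal n,
        (φ p.1.1 / (p.1.1.factorial : ℝ≥0∞)) * (ψ p.1.2 / (p.1.2.factorial : ℝ≥0∞)) := by
    intro n
    rw [Finset.tsum_subtype (antidiagonal n) (fun p : ℕ × ℕ =>
      (φ p.1 / (p.1.factorial : ℝ≥0∞)) * (ψ p.2 / (p.2.factorial : ℝ≥0∞)))]
  rw [tsum_congr h2, ← ENNReal.tsum_sigma' (fun q : (Σ n : ℕ, antidiagonal n) =>
    (φ q.2.1.1 / (q.2.1.1.factorial : ℝ≥0∞)) * (ψ q.2.1.2 / (q.2.1.2.factorial : ℝ≥0∞)))]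
  have h3 : ∑' q : (Σ n : ℕ, antidiagonal n),
      (φ q.2.1.1 / (q.2.1.1.factorial : ℝ≥0∞)) * (ψ q.2.1.2 / (q.2.1.2.factorial : ℝ≥0∞))
      = ∑' c : ℕ × ℕ, (φ c.1 / (c.1.factorial : ℝ≥0∞)) * (ψ c.2 / (c.2.factorial : ℝ≥0∞)) := by
    rw [← (Finset.HasAntidiagonal.sigmaAntidiagonalEquivProd (A := ℕ)).symm.tsum_eq]
    exact tsum_congr fun c => rfl
  rw [h3]
  have h4 : ∑' c : ℕ × ℕ, (φ c.1 / (c.1.factorial : ℝ≥0∞)) * (ψ c.2 / (c.2.factorial : ℝ≥0∞))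
      = ∑' (a : ℕ) (b : ℕ), (φ a / (a.factorial : ℝ≥0∞)) * (ψ b / (b.factorial : ℝ≥0∞)) :=
    ENNReal.tsum_prod (f := fun (a : ℕ) (b : ℕ) =>
      (φ a / (a.factorial : ℝ≥0∞)) * (ψ b / (b.factorial : ℝ≥0∞)))
  rw [h4, ← ENNReal.tsum_mul_right]
  refine tsum_congr fun a => ?_
  rw [ENNReal.tsum_mul_left]

/-- `r` ordered labels. -/
theorem eg_desc (r : ℕ) (φ : ℕ → ℝ≥0∞) :
    eg (fun n => (n.descFactorial r : ℝ≥0∞) * φ (n - r)) = eg φ := by
  unfold eg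
  have h : ∑' n : ℕ, ((n.descFactorial r : ℕ) : ℝ≥0∞) * φ (n - r) / (n.factorial : ℝ≥0∞)
      = ∑' n : ℕ, ((n + r).descFactorial r : ℝ≥0∞) * φ (n + r - r) / ((n + r).factorial : ℝ≥0∞) := by
    have h0 := Summable.sum_add_tsum_nat_add' (k := r) (f := fun n : ℕ =>
      ((n.descFactorial r : ℕ) : ℝ≥0∞) * φ (n - r) / (n.factorial : ℝ≥0∞)) ENNReal.summable
    rw [← h0, Finset.sum_eq_zero, zero_add]
    intro n hn
    rw [Nat.descFactorial_eq_zero_iff_lt.2 (Finset.mem_range.1 hn)]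
    simp
  rw [h]
  refine tsum_congr fun n => ?_
  rw [Nat.add_sub_cancel, desc_div r (n + r) (Nat.le_add_left _ _), Nat.add_sub_cancel]

/-- `r` ordered labels and a pair of structures on the remaining labels. -/
theorem eg_lists (r : ℕ) (φ ψ : ℕ → ℝ≥0∞) :
    eg (fun n => (n.descFactorial r : ℝ≥0∞) *
      ∑ p ∈ antidiagonal (n - r), ((n - r).choose p.1 : ℝ≥0∞) * (φ p.1 * ψ p.2)) =
      eg φ * eg ψ := by
  rw [← eg_mul, ← eg_desc r (fun n => ∑ p ∈ antidiagonal n,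
    (n.choose p.1 : ℝ≥0∞) * (φ p.1 * ψ p.2))]

/-- Sums over one label. -/
theorem eg_one (φ : ℕ → ℝ≥0∞) : eg (fun n => (n : ℝ≥0∞) * φ (n - 1)) = eg φ := by
  rw [← eg_desc 1 φ]
  exact eg_congr fun n => by rw [Nat.descFactorial_one]

theorem sum_erase_vals (φ : ℕ → ℝ≥0∞) (L : Finset ℕ) :
    ∑ u ∈ L, φ (L.erase u).card = (L.card : ℝ≥0∞) * φ (L.card - 1) := by
  rw [Finset.sum_congr rfl (fun u hu => by rw [Finset.card_erase_of_mem hu]), Finset.sum_const,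
    nsmul_eq_mul]

end K5M
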