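import Pool.Agent.Lib.K5M.J1
import Pool.Agent.Lib.K5M.T0

/-!
# K5M.J2: the split identity

Let `c` have `m ≥ 0` edges and first vertex `p`, let `l ≥ 1`.  A pair (`f`, marked filling) in `GF a b k l c L` is
decomposed at the first common vertex `v = f_i = c_j`, `i ≥ 1`.

PROOF of `GW_succ`.  `tsum_decomp` with the index `(i, j, as, L1, q, r)` (nested `Finset.sigma`,
`Finset.sum_sigma`), `P = MFillg q.1 r.1 k (p :: (as ++ [c_j])) (c.take (j + 1)) L1 ×ˢ
GF q.2 r.2 (kat k i) (l - i) (c.drop j) ((L \ as.toFinset) \ L1)` and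
`φ ((N1, M1), (f', (N2, M2))) = (p :: (as ++ f'), (N1 ∪ N2, M1 ∪ M2))`; weights by `Glu.gx_eq` and
`tsum_prod_set`.  Write `c = p :: (cs ++ v :: c2)`, `cs.length = j - 1`, `c.take (j + 1) = p :: (cs ++ [v])`,
`c.drop j = v :: c2`; `f' = v :: f2` because the first vertices of `f'` and `c.drop j` agree.
MapsTo: the two parts form a `Glu`: a common vertex of the two parts is not in `L` (the parts of `L` are
disjoint: `as`, `L1`, the rest), so it is on `c`, hence on `p :: (cs ++ [v])` and on `v :: c2`: it is `v`; `v` is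
in both.  `Glu.fill`, `Glu.lab`, `Glu.inn_eq`, `mk_union`, `uq_union`, `card_union_marks`.  The length:
`1 + (i - 1) + (l - i + 1) = l + 1`.
SurjOn: let `(f, (N, M)) ∈ GF a b k l c L`.  `f = p :: f0` (same first vertex as `c`), `f0 ≠ []` (`l ≥ 1`), the last
vertex of `f` is on `c` and in `f0`; let `v` be the first vertex of `f0` that is on `c`:
`f = p :: (as ++ v :: f2)`, no vertex of `as` on `c`; `v ≠ p` (`Nodup`), so `c = p :: (cs ++ v :: c2)`.
`Fill.split` with `f1 = p :: as`, `c1 = p :: cs` gives `N1`, `N2`.  `i = as.length + 1`, `j = cs.length + 1`,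
`i ≡ j` by `Fill.color_eq`, `i ≤ l`, `j ≤ m`.  `as ⊆ L` (on `f`, not on `c`).  `L1 = gi1 ..`, `M1 = M ∩ L1`,
`M2 = M ∩ inn (v :: f2) (v :: c2) N2`, `q = (uq M1 N1, uq M2 N2)` etc.
InjOn: if two such data give the same `(f, N, M)`: `as` is the part of `f` before its first vertex (after
`p`) on `c`: same `as`, `i`, `v`, `f'`, and `v` determines `j` (`c.Nodup`); `bd N1 = symmDiff ..` is the same,
so `N1` is the same by `Fill.split_unique`, `N2 = N \ N1`, `L1 = inn .. N1`, `M1 = M ∩ L1`, `M2` (`inter_marks`),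
and then the grades.
If `m = 0` there is no pair: `f` has the same first and last vertex, `l ≥ 1`.
`GW_zero`: `f = [p]` is also `c` (first and last vertex of `c` agree, `c.Nodup`), `N = ∅` by `fill_point`, `M = ∅`.
-/

set_option autoImplicit false

namespace K5M

open Finset
open scoped ENNReal

namespace J2Aux

theorem dec_c {c : List ℕ} {m p j : ℕ} (hm : c.length = m + 1) (hp : c.head? = some p)
    (h1 : 1 ≤ j) (h2 : j ≤ m) : ∃ (cs : List ℕ) (v : ℕ) (c2 : List ℕ), c = p :: (cs ++ v :: c2) ∧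
      cs.length + 1 = j ∧ c.take (j + 1) = p :: (cs ++ [v]) ∧ c.drop j = v :: c2 ∧
      c.getD j 0 = v := by
  obtain ⟨j, rfl⟩ := Nat.exists_eq_add_of_le' h1
  rcases c with _ | ⟨q, c0⟩
  · simp at hm
  · have hq : q = p := by simpa using hp
    subst hq
    have hl : c0.length = m := by simpa using hm
    have h3 : (c0.drop j).length = m - j := by rw [List.length_drop, hl]
    rcases h4 : c0.drop j with _ | ⟨v, c2⟩
    · rw [h4] at h3
      simp at h3
      omega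
    · have h5 : c0 = c0.take j ++ v :: c2 := by
        rw [← h4, List.take_append_drop]
      have h6 : (c0.take j).length = j := by
        rw [List.length_take, hl]; omega
      refine ⟨c0.take j, v, c2, by rw [← h5], by rw [h6], ?_, ?_, ?_⟩
      · rw [List.take_succ_cons, List.take_add_one]
        congr 2
        have : c0[j]? = some v := by
          rw [← List.head?_drop, h4]; rfl
        rw [this]; rfl
      · rw [List.drop_succ_cons, h4]
      · rw [List.getD_eq_getElem?_getD, List.getElem?_cons_succ, ← List.head?_drop, h4]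
        rfl

theorem first_eq {S : List ℕ} {as as' f2 f2' : List ℕ} {v v' : ℕ}
    (h : as ++ v :: f2 = as' ++ v' :: f2') (ha : ∀ u ∈ as, u ∉ S) (ha' : ∀ u ∈ as', u ∉ S)
    (hv : v ∈ S) (hv' : v' ∈ S) : as = as' ∧ v = v' ∧ f2 = f2' := by
  induction as generalizing as' with
  | nil =>
    rcases as' with _ | ⟨u, as'⟩
    · simp only [List.nil_append, List.cons.injEq] at h
      exact ⟨rfl, h.1, h.2⟩
    · simp only [List.nil_append, List.cons_append, List.cons.injEq] at h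
      exact absurd hv (h.1 ▸ ha' u List.mem_cons_self)
  | cons w as ih =>
    rcases as' with _ | ⟨u, as'⟩
    · simp only [List.nil_append, List.cons_append, List.cons.injEq] at h
      exact absurd hv' (h.1 ▸ ha w List.mem_cons_self)
    · simp only [List.cons_append, List.cons.injEq] at h
      obtain ⟨e1, e2, e3⟩ := ih h.2 (fun u hu => ha u (List.mem_cons_of_mem _ hu))
        (fun u hu => ha' u (List.mem_cons_of_mem _ hu))
      exact ⟨by rw [h.1, e1], e2, e3⟩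

theorem first_exists {S : List ℕ} {f0 : List ℕ} (h : ∃ u ∈ f0, u ∈ S) :
    ∃ (as : List ℕ) (v : ℕ) (f2 : List ℕ), f0 = as ++ v :: f2 ∧ (∀ u ∈ as, u ∉ S) ∧ v ∈ S := by
  induction f0 with
  | nil => obtain ⟨u, hu, _⟩ := h; simp at hu
  | cons w f0 ih =>
    by_cases hw : w ∈ S
    · exact ⟨[], w, f0, rfl, by simp, hw⟩
    · obtain ⟨u, hu, hS⟩ := h
      rcases List.mem_cons.1 hu with rfl | hu
      · exact absurd hS hw
      · obtain ⟨as, v, f2, e, h1, h2⟩ := ih ⟨u, hu, hS⟩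
        refine ⟨w :: as, v, f2, by rw [e]; rfl, ?_, h2⟩
        intro u hu
        rcases List.mem_cons.1 hu with rfl | hu
        · exact hw
        · exact h1 u hu

theorem vx_sub (f c : List ℕ) (N : Finset Quad) : wh N ∪ bl N ⊆ vx f c N := by
  intro u hu
  unfold vx
  exact Finset.mem_union_left _ (Finset.mem_union_left _ hu)

theorem vx_inn (f c : List ℕ) (N : Finset Quad) :
    vx f c N = inn f c N ∪ (f.toFinset ∪ c.toFinset) := by
  ext u
  unfold vx inn
  simp only [Finset.mem_union, Finset.mem_sdiff]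
  tauto

section

variable {k : Bool} {p v : ℕ} {as f2 cs c2 : List ℕ} {N1 N2 : Finset Quad} {M1 M2 L L1 L2 : Finset ℕ}

/-- The two parts form a `Glu`. -/
theorem mk_glu (hc : (p :: (cs ++ v :: c2)).Nodup)
    (hL : Disjoint (p :: (cs ++ v :: c2)).toFinset L) (has : as.toFinset ⊆ L)
    (h1 : Fill k (p :: (as ++ [v])) (p :: (cs ++ [v])) N1)
    (h2 : Fill (kat k (as.length + 1)) (v :: f2) (v :: c2) N2)
    (e1 : gi1 p v as cs N1 = L1) (e2 : gl2 v f2 c2 N2 = L2) (hL1 : L1 ⊆ L \ as.toFinset)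
    (hL2 : L2 = (L \ as.toFinset) \ L1) : Glu k p v as f2 cs c2 N1 N2 := by
  have hcL : ∀ u, u ∈ L → u ∉ p :: (cs ++ v :: c2) := fun u hu hc' =>
    (Finset.disjoint_left.1 hL) (List.mem_toFinset.2 hc') hu
  refine ⟨h1, h2, ?_, ?_⟩
  · ext u
    rw [Finset.mem_inter, Finset.mem_singleton, vx_inn, vx_inn]
    have e1' : inn (p :: (as ++ [v])) (p :: (cs ++ [v])) N1 = L1 := e1
    have e2' : inn (v :: f2) (v :: c2) N2 ∪ ((v :: f2).toFinset ∪ (v :: c2).toFinset)
        = L2 ∪ (v :: c2).toFinset := by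
      rw [← e2]
      ext u
      unfold gl2
      simp only [Finset.mem_union, Finset.mem_sdiff]
      tauto
    rw [e1', e2']
    constructor
    · rintro ⟨ha, hb⟩
      rw [Finset.mem_union] at hb
      rcases hb with hb | hb
      · exfalso
        rw [hL2, Finset.mem_sdiff, Finset.mem_sdiff, List.mem_toFinset] at hb
        have := hcL u hb.1.1
        simp only [Finset.mem_union, List.mem_toFinset, List.mem_cons, List.mem_append,
          List.not_mem_nil, or_false, not_or] at ha this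
        tauto
      · have hb' : u ∈ v :: c2 := List.mem_toFinset.1 hb
        have hbc : u ∈ p :: (cs ++ v :: c2) :=
          List.mem_cons_of_mem _ (List.mem_append_right _ hb')
        have huL : u ∉ L := fun h => hcL u h hbc
        have hn2 : (cs ++ v :: c2).Nodup := (List.nodup_cons.1 hc).2
        have hn1 : p ∉ cs ++ v :: c2 := (List.nodup_cons.1 hc).1
        have hdis := (List.nodup_append.1 hn2).2.2
        rw [Finset.mem_union] at ha
        rcases ha with ha | ha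
        · exact absurd (Finset.mem_sdiff.1 (hL1 ha)).1 huL
        · simp only [Finset.mem_union, List.mem_toFinset, List.mem_cons, List.mem_append,
            List.not_mem_nil, or_false] at ha
          have hup : u ≠ p := by
            rintro rfl
            exact hn1 (List.mem_append_right _ hb')
          have huas : u ∉ as := fun h => huL (has (List.mem_toFinset.2 h))
          have hucs : u ∉ cs := fun h => hdis u h u hb' rfl
          tauto
    · rintro rfl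
      refine ⟨?_, ?_⟩
      · apply Finset.mem_union_right
        apply Finset.mem_union_left
        rw [List.mem_toFinset]
        simp
      · apply Finset.mem_union_right
        rw [List.mem_toFinset]
        simp
  · intro u hu hcs
    exact hcL u (has (List.mem_toFinset.2 hu))
      (List.mem_cons_of_mem _ (List.mem_append_left _ hcs))

theorem glu_mk (h : Glu k p v as f2 cs c2 N1 N2) (h1 : Mk (gi1 p v as cs N1) M1 N1)
    (h2 : Mk (inn (v :: f2) (v :: c2) N2) M2 N2) :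
    Mk (inn (p :: (as ++ v :: f2)) (p :: (cs ++ v :: c2)) (N1 ∪ N2)) (M1 ∪ M2) (N1 ∪ N2) ∧
      uq (M1 ∪ M2) (N1 ∪ N2) = uq M1 N1 + uq M2 N2 ∧ (M1 ∪ M2).card = M1.card + M2.card := by
  refine ⟨?_, ?_, ?_⟩
  · rw [h.inn_eq]
    exact (mk_union (vx_sub _ _ _) (vx_sub _ _ _) h.sub1 h.sub2 h1.sub h2.sub).2 ⟨h1, h2⟩
  · exact uq_union h.fill.1 (vx_sub _ _ _) (vx_sub _ _ _) h.sub1 h.sub2 h1.sub h2.sub
  · exact card_union_marks h.sub1 h.sub2 h1.sub h2.sub

end

theorem c_last {c : List ℕ} {p : ℕ} (hc : c.Nodup) (hp : c.head? = some p)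
    (hz : c.getLast? = some p) : c = [p] := by
  rcases c with _ | ⟨q, c0⟩
  · simp at hp
  · have hq : q = p := by simpa using hp
    subst hq
    rcases List.eq_nil_or_concat c0 with rfl | ⟨c1, z, rfl⟩
    · rfl
    · have : z = q := by
        rw [List.concat_eq_append, ← List.cons_append, List.getLast?_concat] at hz
        simpa using hz
      subst this
      rw [List.nodup_cons] at hc
      exact absurd (by simp) hc.1

end J2Aux

open J2Aux

theorem GW_zero (x : ℝ≥0∞) {a b : ℕ} {k : Bool} {c : List ℕ} {L : Finset ℕ} (hc : c.Nodup)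
    (hne : c ≠ []) :
    GW x a b k 0 c L = if c.length = 1 ∧ L = ∅ ∧ a = 0 ∧ b = 0 then 1 else 0 := by
  obtain ⟨p, hp⟩ : ∃ p, c.head? = some p := by
    rcases c with _ | ⟨q, c0⟩
    · exact absurd rfl hne
    · exact ⟨q, rfl⟩
  have hkey : ∀ t : List ℕ × (Finset Quad × Finset ℕ), t ∈ GF a b k 0 c L ↔
      (t = ([p], (∅, ∅)) ∧ c = [p] ∧ L = ∅ ∧ a = 0 ∧ b = 0) := by
    intro t
    constructor
    · rintro ⟨h1, h2, h3, h4, h5, h6⟩
      obtain ⟨q, hq⟩ : ∃ q, t.1 = [q] := List.length_eq_one_iff.1 (by simpa using h1)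
      have hqp : q = p := by
        have := h2.hd
        rw [hq, hp] at this
        simpa using this
      subst hqp
      have hz : c.getLast? = some q := by
        rw [← h2.lt, hq]; rfl
      have hcq : c = [q] := c_last hc hp hz
      rw [hq, hcq] at h2
      have hN : t.2.1 = ∅ := (fill_point k q t.2.1).1 h2
      have hM : t.2.2 = ∅ := by
        have := h4.blk
        rw [hN] at this
        simpa [bl] using this
      rw [hN, hM] at h5
      rw [hM] at h6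
      rw [hN, hq, hcq] at h3
      refine ⟨Prod.ext hq (Prod.ext hN hM), hcq, ?_, ?_, ?_⟩
      · rw [← h3]; simp [inn, wh, bl]
      · rw [← h5]; simp [uq]
      · rw [← h6]; simp
    · rintro ⟨rfl, rfl, rfl, rfl, rfl⟩
      refine ⟨rfl, (fill_point k p ∅).2 rfl, by simp [inn, wh, bl],
        ⟨by simp, by simp, by simp, by simp⟩, by simp [uq], by simp⟩
  unfold GW
  by_cases h2 : c.length = 1 ∧ L = ∅ ∧ a = 0 ∧ b = 0
  · rw [if_pos h2]
    obtain ⟨hl, hL, ha, hb⟩ := h2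
    have hcp : c = [p] := by
      obtain ⟨q, hq⟩ := List.length_eq_one_iff.1 hl
      rw [hq] at hp ⊢
      have : q = p := by simpa using hp
      rw [this]
    have hS : GF a b k 0 c L = {([p], (∅, ∅))} := by
      ext t
      rw [hkey t, Set.mem_singleton_iff]
      exact ⟨fun h => h.1, fun h => ⟨h, hcp, hL, ha, hb⟩⟩
    rw [hS, tsum_singleton ([p], (∅, ∅)) (fun t : List ℕ × (Finset Quad × Finset ℕ) =>
      x ^ ((wh t.2.1 ∪ pw k t.1) ∩ L).card), hL]
    simp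
  · rw [if_neg h2]
    have hS : GF a b k 0 c L = ∅ := by
      ext t
      rw [hkey t]
      simp only [Set.mem_empty_iff_false, iff_false]
      rintro ⟨_, hcp, hL, ha, hb⟩
      exact h2 ⟨by rw [hcp]; rfl, hL, ha, hb⟩
    rw [hS]
    simp

namespace J2Aux

/-- The index type. -/
abbrev Ix := Σ (_ : ℕ) (_ : ℕ) (_ : List ℕ) (_ : Finset ℕ) (_ : ℕ × ℕ), ℕ × ℕ

abbrev Bt := (Finset Quad × Finset ℕ) × (List ℕ × (Finset Quad × Finset ℕ))

def IX (a b l m : ℕ) (L : Finset ℕ) : Finset Ix :=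
  (Icc 1 l).sigma fun i => ((Icc 1 m).filter (fun j => j % 2 = i % 2)).sigma fun _ =>
    (dls (i - 1) L).sigma fun as => (L \ as.toFinset).powerset.sigma fun _ =>
      (antidiagonal a).sigma fun _ => antidiagonal b

def PX (k : Bool) (l : ℕ) (c : List ℕ) (p : ℕ) (L : Finset ℕ) (t : Ix) : Set Bt :=
  MFillg t.2.2.2.2.1.1 t.2.2.2.2.2.1 k (p :: (t.2.2.1 ++ [c.getD t.2.1 0])) (c.take (t.2.1 + 1))
      t.2.2.2.1 ×ˢ
    GF t.2.2.2.2.1.2 t.2.2.2.2.2.2 (kat k t.1) (l - t.1) (c.drop t.2.1)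
      ((L \ t.2.2.1.toFinset) \ t.2.2.2.1)

def ph (p : ℕ) (as : List ℕ) (s : Bt) : List ℕ × (Finset Quad × Finset ℕ) :=
  (p :: (as ++ s.2.1), (s.1.1 ∪ s.2.2.1, s.1.2 ∪ s.2.2.2))

/-- The decoded data of an element of the index set with its pair. -/
structure Dat (a b : ℕ) (k : Bool) (l : ℕ) (c : List ℕ) (p : ℕ) (L : Finset ℕ) (i j : ℕ)
    (as : List ℕ) (L1 : Finset ℕ) (q r : ℕ × ℕ) (s : Bt) (cs : List ℕ) (v : ℕ) (c2 f2 : List ℕ) :
    Prop where
  ec : c = p :: (cs ++ v :: c2)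
  ej : cs.length + 1 = j
  ei : as.length + 1 = i
  il : i ≤ l
  aL : as.toFinset ⊆ L
  L1s : L1 ⊆ L \ as.toFinset
  qa : q.1 + q.2 = a
  rb : r.1 + r.2 = b
  ef : s.2.1 = v :: f2
  fl : f2.length + i = l
  glu : Glu k p v as f2 cs c2 s.1.1 s.2.2.1
  e1 : gi1 p v as cs s.1.1 = L1
  e2 : gl2 v f2 c2 s.2.2.1 = (L \ as.toFinset) \ L1
  m1 : Mk (gi1 p v as cs s.1.1) s.1.2 s.1.1
  m2 : Mk (inn (v :: f2) (v :: c2) s.2.2.1) s.2.2.2 s.2.2.1
  u1 : uq s.1.2 s.1.1 = q.1
  u2 : uq s.2.2.2 s.2.2.1 = q.2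
  c1 : s.1.2.card = r.1
  c2' : s.2.2.2.card = r.2

theorem dat_of {a b : ℕ} {k : Bool} {l m : ℕ} {c : List ℕ} {L : Finset ℕ} {p : ℕ}
    (hc : c.Nodup) (hm : c.length = m + 1) (hp : c.head? = some p)
    (hL : Disjoint c.toFinset L) {i j : ℕ} {as : List ℕ} {L1 : Finset ℕ} {q r : ℕ × ℕ} {s : Bt}
    (ht : (⟨i, j, as, L1, q, r⟩ : Ix) ∈ IX a b l m L)
    (hs : s ∈ PX k l c p L ⟨i, j, as, L1, q, r⟩) :
    ∃ cs v c2 f2, Dat a b k l c p L i j as L1 q r s cs v c2 f2 := by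
  simp only [IX, Finset.mem_sigma, Finset.mem_Icc, Finset.mem_filter, mem_dls,
    Finset.mem_powerset, Finset.HasAntidiagonal.mem_antidiagonal] at ht
  obtain ⟨⟨hi1, hi2⟩, ⟨⟨hj1, hj2⟩, hij⟩, ⟨hn, hlen, hsub⟩, hL1, hq, hr⟩ := ht
  obtain ⟨cs, v, c2, ec, ej, et, ed, eg'⟩ := dec_c hm hp hj1 hj2
  obtain ⟨hs1, hs2⟩ := hs
  simp only [et, ed, eg'] at hs1 hs2
  obtain ⟨⟨hF1, hI1, hM1⟩, hu1, hc1⟩ := hs1
  obtain ⟨hl2, hF2, hI2, hM2, hu2, hc2⟩ := hs2
  obtain ⟨f2, hf2⟩ : ∃ f2, s.2.1 = v :: f2 := by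
    have h1 := hF2.hd
    rcases h3 : s.2.1 with _ | ⟨w, f2⟩
    · rw [h3] at h1; simp at h1
    · rw [h3] at h1
      have : w = v := by simpa using h1
      exact ⟨f2, by rw [this]⟩
  rw [hf2] at hl2 hF2 hI2 hM2
  have hei : as.length + 1 = i := by omega
  have haL : as.toFinset ⊆ L := fun u hu => hsub u (List.mem_toFinset.1 hu)
  have hfl : f2.length + i = l := by
    simp only [List.length_cons] at hl2
    omega
  rw [ec] at hc hL
  have hF2' : Fill (kat k (as.length + 1)) (v :: f2) (v :: c2) s.2.2.1 := by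
    rw [hei]; exact hF2
  have hglu : Glu k p v as f2 cs c2 s.1.1 s.2.2.1 :=
    mk_glu hc hL haL hF1 hF2' hI1 hI2 hL1 rfl
  have hM1' : Mk (gi1 p v as cs s.1.1) s.1.2 s.1.1 := by
    have : gi1 p v as cs s.1.1 = L1 := hI1
    rw [this]; exact hM1
  exact ⟨cs, v, c2, f2, ⟨ec, ej, hei, hi2, haL, hL1, hq, hr, hf2, hfl, hglu, hI1, hI2, hM1', hM2, hu1,
    hu2, hc1, hc2⟩⟩

theorem of_dat {a b : ℕ} {k : Bool} {l : ℕ} {c : List ℕ} {L : Finset ℕ} {p : ℕ}
    {i j : ℕ} {as : List ℕ} {L1 : Finset ℕ} {q r : ℕ × ℕ} {s : Bt} {cs : List ℕ} {v : ℕ}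
    {c2 f2 : List ℕ} (h : Dat a b k l c p L i j as L1 q r s cs v c2 f2) :
    ph p as s ∈ GF a b k l c L := by
  obtain ⟨hMk, hU, hC⟩ := glu_mk h.glu h.m1 h.m2
  unfold ph
  rw [h.ef, h.ec]
  refine ⟨?_, h.glu.fill.2, ?_, hMk, ?_, ?_⟩
  · have := h.fl
    have := h.ei
    simp only [List.length_cons, List.length_append]
    omega
  · rw [h.glu.lab, h.e1, h.e2]
    have h1 := h.L1s
    have h2 := h.aL
    rw [Finset.union_sdiff_of_subset h1, Finset.union_sdiff_of_subset h2]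
  · show uq (s.1.2 ∪ s.2.2.2) (s.1.1 ∪ s.2.2.1) = a
    rw [hU, h.u1, h.u2, h.qa]
  · show (s.1.2 ∪ s.2.2.2).card = b
    rw [hC, h.c1, h.c2', h.rb]

theorem inj_dat {a b : ℕ} {k : Bool} {l : ℕ} {c : List ℕ} {L : Finset ℕ} {p : ℕ}
    (hc : c.Nodup) (hL : Disjoint c.toFinset L)
    {i j : ℕ} {as : List ℕ} {L1 : Finset ℕ} {q r : ℕ × ℕ} {s : Bt} {cs : List ℕ} {v : ℕ}
    {c2 f2 : List ℕ} (h : Dat a b k l c p L i j as L1 q r s cs v c2 f2)
    {i' j' : ℕ} {as' : List ℕ} {L1' : Finset ℕ} {q' r' : ℕ × ℕ} {s' : Bt} {cs' : List ℕ} {v' : ℕ}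
    {c2' f2' : List ℕ} (h' : Dat a b k l c p L i' j' as' L1' q' r' s' cs' v' c2' f2')
    (he : ph p as s = ph p as' s') :
    i = i' ∧ j = j' ∧ as = as' ∧ L1 = L1' ∧ q = q' ∧ r = r' ∧ s = s' := by
  have hcL : ∀ u, u ∈ L → u ∉ c := fun u hu hc' =>
    (Finset.disjoint_left.1 hL) (List.mem_toFinset.2 hc') hu
  unfold ph at he
  rw [Prod.mk.injEq, Prod.mk.injEq, h.ef, h'.ef, List.cons.injEq] at he
  obtain ⟨⟨_, hf⟩, hN, hM⟩ := he
  obtain ⟨ea, ev, ef⟩ := first_eq (S := c) hf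
    (fun u hu => hcL u (h.aL (List.mem_toFinset.2 hu)))
    (fun u hu => hcL u (h'.aL (List.mem_toFinset.2 hu)))
    (by rw [h.ec]; simp) (by rw [h'.ec]; simp)
  subst ea ev ef
  have hcc : cs ++ v :: c2 = cs' ++ v :: c2' := by
    have := h.ec.symm.trans h'.ec
    exact (List.cons.inj this).2
  have hn : (cs ++ v :: c2).Nodup := by
    rw [h.ec] at hc
    exact (List.nodup_cons.1 hc).2
  have hn' : (cs' ++ v :: c2').Nodup := by rw [← hcc]; exact hn
  obtain ⟨e3, _, e4⟩ := first_eq (S := [v]) hcc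
    (fun u hu hv => by
      rw [List.mem_singleton] at hv
      exact (List.nodup_append.1 hn).2.2 u hu v List.mem_cons_self hv)
    (fun u hu hv => by
      rw [List.mem_singleton] at hv
      exact (List.nodup_append.1 hn').2.2 u hu v List.mem_cons_self hv)
    (by simp) (by simp)
  subst e3 e4
  have ei : i = i' := by rw [← h.ei, ← h'.ei]
  have ej : j = j' := by rw [← h.ej, ← h'.ej]
  have hFN := h.glu.fill
  have hFN' := h'.glu.fill
  have eN1 : s.1.1 = s'.1.1 := by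
    refine Fill.split_unique hFN.2 Finset.subset_union_left ?_ ?_
    · rw [hN]; exact Finset.subset_union_left
    · rw [h.glu.h1.bnd, h'.glu.h1.bnd]
  have eN2 : s.2.2.1 = s'.2.2.1 := by
    have e5 : s.2.2.1 = (s.1.1 ∪ s.2.2.1) \ s.1.1 := by
      rw [Finset.union_sdiff_left, Finset.sdiff_eq_self_of_disjoint hFN.1.symm]
    have e6 : s'.2.2.1 = (s'.1.1 ∪ s'.2.2.1) \ s'.1.1 := by
      rw [Finset.union_sdiff_left, Finset.sdiff_eq_self_of_disjoint hFN'.1.symm]
    rw [e5, e6, hN, eN1]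
  have eL1 : L1 = L1' := by rw [← h.e1, ← h'.e1, eN1]
  have hsubM : s.1.2 ∪ s.2.2.2 ⊆ gi1 p v as cs s.1.1 ∪ inn (v :: f2) (v :: c2) s.2.2.1 :=
    Finset.union_subset_union h.m1.sub h.m2.sub
  obtain ⟨m1, m2⟩ := (inter_marks h.glu.sub1 h.glu.sub2 hsubM h.m1.sub h.m2.sub).1 rfl
  have hm1' : s'.1.2 ⊆ gi1 p v as cs s.1.1 := by
    rw [eN1]; exact h'.m1.sub
  have hm2' : s'.2.2.2 ⊆ inn (v :: f2) (v :: c2) s.2.2.1 := by
    rw [eN2]; exact h'.m2.sub
  obtain ⟨m1', m2'⟩ := (inter_marks h.glu.sub1 h.glu.sub2 hsubM hm1' hm2').1 hM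
  have eM1 : s.1.2 = s'.1.2 := by rw [m1, m1']
  have eM2 : s.2.2.2 = s'.2.2.2 := by rw [m2, m2']
  refine ⟨ei, ej, rfl, eL1, ?_, ?_, ?_⟩
  · refine Prod.ext ?_ ?_
    · rw [← h.u1, ← h'.u1, eM1, eN1]
    · rw [← h.u2, ← h'.u2, eM2, eN2]
  · refine Prod.ext ?_ ?_
    · rw [← h.c1, ← h'.c1, eM1]
    · rw [← h.c2', ← h'.c2', eM2]
  · exact Prod.ext (Prod.ext eN1 eM1) (Prod.ext (by rw [h.ef, h'.ef]) (Prod.ext eN2 eM2))

theorem sur_dat {a b : ℕ} {k : Bool} {l m : ℕ} {c : List ℕ} {L : Finset ℕ} {p : ℕ}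
    (hc : c.Nodup) (hm : c.length = m + 1) (hp : c.head? = some p) (hl : 1 ≤ l)
    {t : List ℕ × (Finset Quad × Finset ℕ)} (ht : t ∈ GF a b k l c L) :
    ∃ (i j : ℕ) (as : List ℕ) (L1 : Finset ℕ) (q r : ℕ × ℕ) (s : Bt),
      (⟨i, j, as, L1, q, r⟩ : Ix) ∈ IX a b l m L ∧ s ∈ PX k l c p L ⟨i, j, as, L1, q, r⟩ ∧
        ph p as s = t := by
  obtain ⟨f, N, M⟩ := t
  obtain ⟨h1, h2, h3, h4, h5, h6⟩ := ht
  simp only at h1 h2 h3 h4 h5 h6
  -- the path
  rcases f with _ | ⟨q0, f0⟩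
  · simp at h1
  have hq : q0 = p := by
    have := h2.hd
    rw [hp] at this
    simpa using this
  subst hq
  have hf0 : f0.length = l := by simpa using h1
  have hex : ∃ u ∈ f0, u ∈ c := by
    rcases List.eq_nil_or_concat f0 with h | ⟨f1, z, h⟩
    · rw [h] at hf0
      simp at hf0
      omega
    · refine ⟨z, by rw [h]; simp, ?_⟩
      have h7 := h2.lt
      rw [h, List.concat_eq_append, ← List.cons_append, List.getLast?_concat] at h7
      exact List.mem_of_getLast? h7.symm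
  obtain ⟨as, v, f2, hf, has, hv⟩ := first_exists hex
  have hnf : (q0 :: (as ++ v :: f2)).Nodup := by rw [← hf]; exact h2.nf
  have hqv : v ≠ q0 := by
    rintro rfl
    exact (List.nodup_cons.1 hnf).1 (by simp)
  obtain ⟨cs, c2, hcv⟩ : ∃ cs c2, c = q0 :: (cs ++ v :: c2) := by
    rcases c with _ | ⟨q1, c0⟩
    · simp at hp
    · have : q1 = q0 := by simpa using hp
      subst this
      have hv0 : v ∈ c0 := by
        rcases List.mem_cons.1 hv with h | h
        · exact absurd h hqv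
        · exact h
      obtain ⟨cs, c2, h⟩ := List.append_of_mem hv0
      exact ⟨cs, c2, by rw [h]⟩
  subst hcv
  subst hf
  have hcol : (q0 :: as).length % 2 = (q0 :: cs).length % 2 :=
    Fill.color_eq (f1 := q0 :: as) (f2 := f2) (c1 := q0 :: cs) (c2 := c2) (v := v) h2
  obtain ⟨N1, N2, hN, hd, hF1, hF2, hvx⟩ :=
    Fill.split (f1 := q0 :: as) (f2 := f2) (c1 := q0 :: cs) (c2 := c2) (v := v) h2
      (List.cons_ne_nil _ _) (fun u hu => has u hu)
  have hglu : Glu k q0 v as f2 cs c2 N1 N2 :=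
    ⟨hF1, hF2, hvx, fun u hu hcs => has u hu
      (List.mem_cons_of_mem _ (List.mem_append_left _ hcs))⟩
  subst hN
  have hI := hglu.inn_eq
  have hsub : M ⊆ gi1 q0 v as cs N1 ∪ inn (v :: f2) (v :: c2) N2 := by
    rw [← hI]; exact h4.sub
  have hMeq : M = M ∩ gi1 q0 v as cs N1 ∪ M ∩ inn (v :: f2) (v :: c2) N2 :=
    (inter_marks hglu.sub1 hglu.sub2 hsub Finset.inter_subset_right
      Finset.inter_subset_right).2 ⟨rfl, rfl⟩
  rw [hI] at h4
  have h4' : Mk (gi1 q0 v as cs N1 ∪ inn (v :: f2) (v :: c2) N2)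
      (M ∩ gi1 q0 v as cs N1 ∪ M ∩ inn (v :: f2) (v :: c2) N2) (N1 ∪ N2) := by
    rw [← hMeq]; exact h4
  obtain ⟨hM1, hM2⟩ := (mk_union (vx_sub _ _ _) (vx_sub _ _ _) hglu.sub1 hglu.sub2
    Finset.inter_subset_right Finset.inter_subset_right).1 h4'
  obtain ⟨_, hU, hC⟩ := glu_mk hglu hM1 hM2
  rw [← hMeq] at hU hC
  have hlab := hglu.lab
  rw [h3] at hlab
  obtain ⟨d1, d2, d3⟩ := hglu.disj
  set L1 := gi1 q0 v as cs N1 with hL1
  set L2 := gl2 v f2 c2 N2 with hL2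
  have hL1s : L1 ⊆ L \ as.toFinset := by
    intro u hu
    rw [Finset.mem_sdiff, hlab]
    exact ⟨Finset.mem_union_right _ (Finset.mem_union_left _ hu),
      fun h => (Finset.disjoint_left.1 d1) h hu⟩
  have hL2s : L2 = (L \ as.toFinset) \ L1 := by
    ext u
    rw [hlab]
    simp only [Finset.mem_sdiff, Finset.mem_union]
    constructor
    · intro hu
      exact ⟨⟨Or.inr (Or.inr hu), fun h => (Finset.disjoint_left.1 d2) h hu⟩,
        fun h => (Finset.disjoint_left.1 d3) h hu⟩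
    · rintro ⟨⟨h | h | h, h'⟩, h''⟩
      · exact absurd h h'
      · exact absurd h h''
      · exact h
  have hlenf : as.length + (f2.length + 1) = l := by
    simpa using hf0
  have hlenc : cs.length + (c2.length + 1) = m := by
    simpa using hm
  have htake : (q0 :: (cs ++ v :: c2)).take (cs.length + 1 + 1) = q0 :: (cs ++ [v]) := by
    rw [List.take_succ_cons, List.take_append]
    simp
  have hdrop : (q0 :: (cs ++ v :: c2)).drop (cs.length + 1) = v :: c2 := by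
    rw [List.drop_succ_cons, List.drop_append]
    simp
  have hgetD : (q0 :: (cs ++ v :: c2)).getD (cs.length + 1) 0 = v := by
    rw [List.getD_eq_getElem?_getD, List.getElem?_cons_succ, List.getElem?_append_right (le_refl _)]
    simp
  refine ⟨as.length + 1, cs.length + 1, as, L1,
    (uq (M ∩ L1) N1, uq (M ∩ inn (v :: f2) (v :: c2) N2) N2),
    ((M ∩ L1).card, (M ∩ inn (v :: f2) (v :: c2) N2).card),
    ((N1, M ∩ L1), (v :: f2, (N2, M ∩ inn (v :: f2) (v :: c2) N2))), ?_, ?_, ?_⟩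
  · simp only [IX, Finset.mem_sigma, Finset.mem_Icc, Finset.mem_filter, mem_dls,
      Finset.mem_powerset, Finset.HasAntidiagonal.mem_antidiagonal]
    refine ⟨⟨by omega, by omega⟩, ⟨⟨by omega, by omega⟩, ?_⟩, ⟨?_, by omega, ?_⟩, hL1s, ?_, ?_⟩
    · simpa using hcol.symm
    · exact (List.nodup_append.1 (List.nodup_cons.1 hnf).2).1
    · intro u hu
      rw [hlab]
      exact Finset.mem_union_left _ (List.mem_toFinset.2 hu)
    · rw [← hU, h5]
    · rw [← hC, h6]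
  · refine ⟨?_, ?_⟩
    · simp only [htake, hgetD]
      exact ⟨⟨hF1, rfl, hM1⟩, rfl, rfl⟩
    · simp only [hdrop]
      refine ⟨?_, hF2, hL2s, hM2, rfl, rfl⟩
      simp only [List.length_cons]
      omega
  · unfold ph
    simp only
    rw [← hMeq]

theorem gx_ph {a b : ℕ} {k : Bool} {l : ℕ} {c : List ℕ} {L : Finset ℕ} {p : ℕ}
    {i j : ℕ} {as : List ℕ} {L1 : Finset ℕ} {q r : ℕ × ℕ} {s : Bt} {cs : List ℕ} {v : ℕ}
    {c2 f2 : List ℕ} (h : Dat a b k l c p L i j as L1 q r s cs v c2 f2) :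
    gx k L (ph p as s) = wct k i + ((wh s.1.1 ∩ L1).card +
      gx (kat k i) ((L \ as.toFinset) \ L1) s.2) := by
  have h1 := h.glu.gx_eq (s.1.2 ∪ s.2.2.2) s.2.2.2
  rw [h.e1, h.e2, h.ei] at h1
  have h2 : as.toFinset ∪ (L1 ∪ (L \ as.toFinset) \ L1) = L := by
    rw [Finset.union_sdiff_of_subset h.L1s, Finset.union_sdiff_of_subset h.aL]
  rw [h2] at h1
  unfold ph
  rw [h.ef, h1]
  have h3 : s.2 = (v :: f2, (s.2.2.1, s.2.2.2)) := Prod.ext h.ef rfl
  rw [← h3]

end J2Aux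

theorem GW_succ (x : ℝ≥0∞) {a b : ℕ} {k : Bool} {l m : ℕ} {c : List ℕ} {L : Finset ℕ} {p : ℕ}
    (hc : c.Nodup) (hm : c.length = m + 1) (hp : c.head? = some p) (hl : 1 ≤ l)
    (hL : Disjoint c.toFinset L) :
    GW x a b k l c L = ∑ i ∈ Icc 1 l, ∑ j ∈ (Icc 1 m).filter (fun j => j % 2 = i % 2),
      ∑ as ∈ dls (i - 1) L, ∑ L1 ∈ (L \ as.toFinset).powerset,
        ∑ q ∈ antidiagonal a, ∑ r ∈ antidiagonal b,
          x ^ wct k i * (FWg x q.1 r.1 k (p :: (as ++ [c.getD j 0])) (c.take (j + 1)) L1 *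
            GW x q.2 r.2 (kat k i) (l - i) (c.drop j) ((L \ as.toFinset) \ L1)) := by
  have hbij : Set.BijOn (fun t : Ix × Bt => ph p t.1.2.2.1 t.2)
      {t | t.1 ∈ IX a b l m L ∧ t.2 ∈ PX k l c p L t.1} (GF a b k l c L) := by
    refine ⟨?_, ?_, ?_⟩
    · rintro ⟨⟨i, j, as, L1, q, r⟩, s⟩ ⟨h1, h2⟩
      obtain ⟨cs, v, c2, f2, h⟩ := dat_of hc hm hp hL h1 h2
      exact of_dat h
    · rintro ⟨⟨i, j, as, L1, q, r⟩, s⟩ ⟨h1, h2⟩ ⟨⟨i', j', as', L1', q', r'⟩, s'⟩ ⟨h1', h2'⟩ he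
      obtain ⟨cs, v, c2, f2, h⟩ := dat_of hc hm hp hL h1 h2
      obtain ⟨cs', v', c2', f2', h'⟩ := dat_of hc hm hp hL h1' h2'
      obtain ⟨e1, e2, e3, e4, e5, e6, e7⟩ := inj_dat hc hL h h' he
      subst e1 e2 e3 e4 e5 e6 e7
      rfl
    · intro t ht
      obtain ⟨i, j, as, L1, q, r, s, h1, h2, h3⟩ := sur_dat hc hm hp hl ht
      exact ⟨(⟨i, j, as, L1, q, r⟩, s), ⟨h1, h2⟩, h3⟩
  have h1 : GW x a b k l c L = ∑' t : GF a b k l c L, x ^ gx k L t := rfl
  rw [h1, tsum_decomp (IX a b l m L) (PX k l c p L) (GF a b k l c L)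
    (fun t s => ph p t.2.2.1 s) hbij (fun t => x ^ gx k L t)]
  have h2 : ∀ t ∈ IX a b l m L, ∑' s : PX k l c p L t, x ^ gx k L (ph p t.2.2.1 s) =
      x ^ wct k t.1 * (FWg x t.2.2.2.2.1.1 t.2.2.2.2.2.1 k (p :: (t.2.2.1 ++ [c.getD t.2.1 0]))
        (c.take (t.2.1 + 1)) t.2.2.2.1 *
        GW x t.2.2.2.2.1.2 t.2.2.2.2.2.2 (kat k t.1) (l - t.1) (c.drop t.2.1)
          ((L \ t.2.2.1.toFinset) \ t.2.2.2.1)) := by
    rintro ⟨i, j, as, L1, q, r⟩ ht
    have h3 : ∀ s : PX k l c p L ⟨i, j, as, L1, q, r⟩, x ^ gx k L (ph p as s) =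
        x ^ wct k i * (x ^ (wh s.1.1.1 ∩ L1).card *
          x ^ gx (kat k i) ((L \ as.toFinset) \ L1) s.1.2) := by
      rintro ⟨s, hs⟩
      obtain ⟨cs, v, c2, f2, h⟩ := dat_of hc hm hp hL ht hs
      rw [gx_ph h, pow_add, pow_add]
    have h4 : ∑' s : PX k l c p L ⟨i, j, as, L1, q, r⟩, x ^ gx k L (ph p as s) =
        ∑' s : PX k l c p L ⟨i, j, as, L1, q, r⟩, x ^ wct k i * (x ^ (wh s.1.1.1 ∩ L1).card *
          x ^ gx (kat k i) ((L \ as.toFinset) \ L1) s.1.2) := tsum_congr h3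
    show ∑' s : PX k l c p L ⟨i, j, as, L1, q, r⟩, x ^ gx k L (ph p as s) = _
    rw [h4, ENNReal.tsum_mul_left]
    congr 1
    exact tsum_prod_set _ _ (fun s : Finset Quad × Finset ℕ => x ^ (wh s.1 ∩ L1).card)
      (fun t : List ℕ × (Finset Quad × Finset ℕ) =>
        x ^ gx (kat k i) ((L \ as.toFinset) \ L1) t)
  rw [Finset.sum_congr rfl h2]
  unfold IX
  simp only [Finset.sum_sigma]

end K5M
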