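import Pool.Agent.Lib.K5M.J2
import Pool.Agent.Lib.K5M.V0

/-!
# K5M.J3: the split identity for the exponential generating functions

PROOFS.  `nG_zero`: `GW_zero` for `c = range (m + 1)`.  `nG_right_zero`: `GW_succ` with `m = 0`, empty sum.
`nG_succ`: `GW_succ` for `c = range (m + 1)`, `p = 0`, `L = Ico (m + 1) (m + 1 + n)`: `c.getD j 0 = j`,
`c.take (j + 1) = range (j + 1) = 0 :: (cs ++ [j])`, `c.drop j` has `m - j + 1` vertices; `FWg_part`, `GW_val`; the
summand depends only on the cardinality of `L1`; `sum_powerset_vals`, `card_dls` (`n.descFactorial (i - 1)`),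
`(L \ as.toFinset).card = n - (i - 1)`.
`eG_succ`: `eg_sum`, `eg_mul_left`, `eg_lists`.
-/

set_option autoImplicit false

namespace K5M

open Finset
open scoped ENNReal

namespace J3Aux

theorem range_split {j : ℕ} (hj : 1 ≤ j) :
    List.range (j + 1) = 0 :: (List.range' 1 (j - 1) ++ [j]) := by
  obtain ⟨j', rfl⟩ : ∃ j', j = j' + 1 := ⟨j - 1, by omega⟩
  rw [List.range_succ, List.range_eq_range', List.range'_succ]
  simp

theorem eg_single (φ : ℕ → ℝ≥0∞) (h : ∀ n, n ≠ 0 → φ n = 0) : eg φ = φ 0 := by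
  unfold eg
  rw [tsum_eq_single 0 (fun n hn => by rw [h n hn]; simp)]
  simp

theorem part (x : ℝ≥0∞) (k : Bool) {l i j m n : ℕ} (hi : 1 ≤ i) (hj : 1 ≤ j) (hjm : j ≤ m)
    (hij : j % 2 = i % 2) {as : List ℕ} (has : as ∈ dls (i - 1) (Ico (m + 1) (m + 1 + n)))
    {L1 : Finset ℕ} (hL1 : L1 ∈ (Ico (m + 1) (m + 1 + n) \ as.toFinset).powerset)
    (q1 q2 r1 r2 : ℕ) :
    FWg x q1 r1 k (0 :: (as ++ [(List.range (m + 1)).getD j 0]))
        ((List.range (m + 1)).take (j + 1)) L1 *
      GW x q2 r2 (kat k i) (l - i) ((List.range (m + 1)).drop j)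
        ((Ico (m + 1) (m + 1 + n) \ as.toFinset) \ L1) =
    pv x i j q1 r1 L1.card * nG x (kat k i) (l - i) (m - j) q2 r2
        (((Ico (m + 1) (m + 1 + n) \ as.toFinset) \ L1)).card := by
  obtain ⟨h1, h2, h3⟩ := mem_dls.1 has
  rw [Finset.mem_powerset] at hL1
  have hget : (List.range (m + 1)).getD j 0 = j := by
    rw [List.getD_eq_getElem?_getD, List.getElem?_range (by omega)]
    rfl
  have htake : (List.range (m + 1)).take (j + 1) = 0 :: (List.range' 1 (j - 1) ++ [j]) := by
    rw [List.take_range, Nat.min_eq_left (by omega), range_split hj]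
  have has' : ∀ u ∈ as, m + 1 ≤ u := fun u hu => (Finset.mem_Ico.1 (h3 u hu)).1
  have hr : ∀ u ∈ List.range' 1 (j - 1), 1 ≤ u ∧ u < j := by
    intro u hu
    rw [List.mem_range'_1] at hu
    omega
  have hnd : (0 :: j :: (as ++ List.range' 1 (j - 1))).Nodup := by
    rw [List.nodup_cons, List.nodup_cons, List.nodup_append]
    refine ⟨?_, ?_, h1, List.nodup_range', ?_⟩
    · rw [List.mem_cons, List.mem_append]
      rintro (h | h | h)
      · omega
      · have := has' 0 h
        omega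
      · have := hr 0 h
        omega
    · rw [List.mem_append]
      rintro (h | h)
      · have := has' j h
        omega
      · have := hr j h
        omega
    · intro u hu v hv huv
      have h4 := has' u hu
      have h5 := hr v hv
      omega
  have hdis : Disjoint (0 :: j :: (as ++ List.range' 1 (j - 1))).toFinset L1 := by
    rw [Finset.disjoint_left]
    intro u hu hu1
    rw [List.mem_toFinset, List.mem_cons, List.mem_cons, List.mem_append] at hu
    have h4 := Finset.mem_sdiff.1 (hL1 hu1)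
    rw [Finset.mem_Ico, List.mem_toFinset] at h4
    rcases hu with h | h | h | h
    · omega
    · omega
    · exact h4.2 h
    · have := hr u h
      omega
  have hF := FWg_part x (a := q1) (b := r1) (k := k) (as := as) (cs := List.range' 1 (j - 1))
    (p := 0) (v := j) (i := i) (j := j) (L := L1) (by omega)
    (by rw [List.length_range']; omega) hij.symm hnd hdis
  have hG := GW_val x (a := q2) (b := r2) (k := kat k i) (l := l - i) (m := m - j)
    (c := (List.range (m + 1)).drop j) (L := (Ico (m + 1) (m + 1 + n) \ as.toFinset) \ L1)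
    (List.nodup_range.sublist (List.drop_sublist _ _))
    (by rw [List.length_drop, List.length_range]; omega) (by
      rw [Finset.disjoint_left]
      intro u hu hu1
      rw [List.mem_toFinset] at hu
      have h4 := List.mem_range.1 (List.mem_of_mem_drop hu)
      have h5 := Finset.mem_sdiff.1 (Finset.mem_sdiff.1 hu1).1
      rw [Finset.mem_Ico] at h5
      omega)
  rw [hget, htake, hF, hG]

theorem card_rest {m n i : ℕ} {as : List ℕ}
    (has : as ∈ dls (i - 1) (Ico (m + 1) (m + 1 + n))) :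
    (Ico (m + 1) (m + 1 + n) \ as.toFinset).card = n - (i - 1) := by
  obtain ⟨h1, h2, h3⟩ := mem_dls.1 has
  rw [Finset.card_sdiff_of_subset (fun u hu => h3 u (List.mem_toFinset.1 hu)),
    List.toFinset_card_of_nodup h1, h2, Nat.card_Ico]
  omega

end J3Aux

variable (x : ℝ≥0∞)

theorem nG_zero (k : Bool) (m a b n : ℕ) :
    nG x k 0 m a b n = if m = 0 ∧ n = 0 ∧ a = 0 ∧ b = 0 then 1 else 0 := by
  unfold nG
  rw [GW_zero x List.nodup_range (by simp)]
  have h1 : ((List.range (m + 1)).length = 1 ∧ Ico (m + 1) (m + 1 + n) = ∅ ∧ a = 0 ∧ b = 0) ↔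
      (m = 0 ∧ n = 0 ∧ a = 0 ∧ b = 0) := by
    rw [List.length_range, Finset.Ico_eq_empty_iff]
    constructor
    · rintro ⟨h1, h2, h3⟩
      exact ⟨by omega, by omega, h3⟩
    · rintro ⟨h1, h2, h3⟩
      exact ⟨by omega, by omega, h3⟩
  simp only [h1]

theorem nG_succ (k : Bool) {l : ℕ} (m a b n : ℕ) (hl : 1 ≤ l) :
    nG x k l m a b n = ∑ i ∈ Icc 1 l, ∑ j ∈ (Icc 1 m).filter (fun j => j % 2 = i % 2),
      ∑ q ∈ antidiagonal a, ∑ r ∈ antidiagonal b, x ^ wct k i *
        ((n.descFactorial (i - 1) : ℝ≥0∞) *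
          ∑ u ∈ antidiagonal (n - (i - 1)), ((n - (i - 1)).choose u.1 : ℝ≥0∞) *
            (pv x i j q.1 r.1 u.1 * nG x (kat k i) (l - i) (m - j) q.2 r.2 u.2)) := by
  have hL : Disjoint (List.range (m + 1)).toFinset (Ico (m + 1) (m + 1 + n)) := by
    rw [Finset.disjoint_left]
    intro u hu hu1
    rw [List.mem_toFinset, List.mem_range] at hu
    rw [Finset.mem_Ico] at hu1
    omega
  have h0 : nG x k l m a b n = GW x a b k l (List.range (m + 1)) (Ico (m + 1) (m + 1 + n)) := rfl
  rw [h0, GW_succ x (m := m) (p := 0) List.nodup_range (by rw [List.length_range])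
    (by rw [List.range_eq_range', List.range'_succ]; rfl) hl hL]
  refine Finset.sum_congr rfl (fun i hi => Finset.sum_congr rfl (fun j hj => ?_))
  rw [Finset.mem_Icc] at hi
  rw [Finset.mem_filter, Finset.mem_Icc] at hj
  have h1 : ∀ as ∈ dls (i - 1) (Ico (m + 1) (m + 1 + n)),
      ∑ L1 ∈ (Ico (m + 1) (m + 1 + n) \ as.toFinset).powerset,
        ∑ q ∈ antidiagonal a, ∑ r ∈ antidiagonal b,
          x ^ wct k i * (FWg x q.1 r.1 k (0 :: (as ++ [(List.range (m + 1)).getD j 0]))
              ((List.range (m + 1)).take (j + 1)) L1 *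
            GW x q.2 r.2 (kat k i) (l - i) ((List.range (m + 1)).drop j)
              ((Ico (m + 1) (m + 1 + n) \ as.toFinset) \ L1)) =
      ∑ q ∈ antidiagonal a, ∑ r ∈ antidiagonal b, x ^ wct k i *
        ∑ u ∈ antidiagonal (n - (i - 1)), ((n - (i - 1)).choose u.1 : ℝ≥0∞) *
            (pv x i j q.1 r.1 u.1 * nG x (kat k i) (l - i) (m - j) q.2 r.2 u.2) := by
    intro as has
    rw [Finset.sum_comm]
    refine Finset.sum_congr rfl (fun q _ => ?_)
    rw [Finset.sum_comm]
    refine Finset.sum_congr rfl (fun r _ => ?_)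
    rw [← J3Aux.card_rest has, ← sum_powerset_vals (pv x i j q.1 r.1)
      (nG x (kat k i) (l - i) (m - j) q.2 r.2), Finset.mul_sum]
    refine Finset.sum_congr rfl (fun L1 hL1 => ?_)
    rw [J3Aux.part x k hi.1 hj.1.1 hj.1.2 hj.2 has hL1]
  rw [Finset.sum_congr rfl h1, Finset.sum_const, card_dls, Nat.card_Ico, nsmul_eq_mul,
    Finset.mul_sum]
  refine Finset.sum_congr rfl (fun q _ => ?_)
  rw [Finset.mul_sum]
  refine Finset.sum_congr rfl (fun r _ => ?_)
  have h2 : m + 1 + n - (m + 1) = n := by omega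
  rw [h2]
  ring

theorem eG_zero (k : Bool) (m a b : ℕ) :
    eG x k 0 m a b = if m = 0 ∧ a = 0 ∧ b = 0 then 1 else 0 := by
  unfold eG
  rw [eg_congr (fun n => nG_zero x k m a b n)]
  rw [J3Aux.eg_single _ (fun n hn => if_neg (fun h => hn h.2.1))]
  simp

theorem eG_succ (k : Bool) {l : ℕ} (m a b : ℕ) (hl : 1 ≤ l) :
    eG x k l m a b = ∑ i ∈ Icc 1 l, ∑ j ∈ (Icc 1 m).filter (fun j => j % 2 = i % 2),
      ∑ q ∈ antidiagonal a, ∑ r ∈ antidiagonal b, x ^ wct k i *
        (eg (pv x i j q.1 r.1) * eG x (kat k i) (l - i) (m - j) q.2 r.2) := by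
  unfold eG
  rw [eg_congr (fun n => nG_succ x k m a b n hl), eg_sum]
  refine Finset.sum_congr rfl (fun i _ => ?_)
  rw [eg_sum]
  refine Finset.sum_congr rfl (fun j _ => ?_)
  rw [eg_sum]
  refine Finset.sum_congr rfl (fun q _ => ?_)
  rw [eg_sum]
  refine Finset.sum_congr rfl (fun r _ => ?_)
  rw [eg_mul_left, eg_lists (i - 1) (pv x i j q.1 r.1)
    (nG x (kat k i) (l - i) (m - j) q.2 r.2)]

theorem eg_pv_one (a b : ℕ) : eg (pv x 1 1 a b) = if a = 0 ∧ b = 0 then 1 else 0 := by
  rw [J3Aux.eg_single _ (fun n hn => by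
    unfold pv
    rw [if_pos ⟨rfl, rfl⟩, if_neg (fun h => hn h.2.2)])]
  unfold pv
  simp

theorem eg_pv {i j : ℕ} (h : ¬ (i = 1 ∧ j = 1)) (a b : ℕ) :
    eg (pv x i j a b) = sg x ((i + j) / 2) a b := by
  rw [sg_eq]
  refine eg_congr (fun n => ?_)
  unfold pv
  rw [if_neg h]

end K5M
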