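import Pool.Agent.Lib.K5M.A4
import Pool.Agent.Lib.K5M.B1

/-!
# K5M.N0: parts (networks at a quad), composition data; first facts

`Part q N`: `N` is a network whose boundary is the quad `q` (`Net w0 w1 b0 b1 N` is `Part ({w0, w1}, {b0, b1}) N`
with `w0 ≠ w1`, `b0 ≠ b1`).  `Comp q0 K P`: `K` is a network with boundary `q0` and at every quad `q` of `K` there is
a part `P q`; the inner vertices of the parts are new and different.  `glue K P`: union of the parts.

PROOFS.
`outer_part`: for `e ∈ EdS N`: `dg N e ≤ 1` iff `dg N e = 1` iff `e ∈ bd N` (`dg N e` is 1 or 2).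
`conE_quad`: the four edges `{w, w'} × {b, b'}`: `s w = t b = s w' = t b'`.
`link_part`: A4 with `E = EdS N`; (white) no edge of `ed q` at `p` means `p ∉ q.1`.
`region_part`: `AC.circuit_sub` and `Circ_of_four`; `wh X ⊆ wh N`.
`part_single`: `{q}` (`bd_singleton`, `AC`: an even subset of `ed q` is empty or `ed q`: it has 0 or at least 4
edges).  `col` needs that `q.1`, `q.2` are disjoint.
`four_cycle_fix`: let `d(v)` be the parity of `Z0` at `v`; `#Z0 ≡ sum of d over the whites = d(w) + d(w')`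
(`q.1 = {w, w'}`), and `#Z0 ≡ d(b) + d(b')`.  So `d(w) + d(w') = d(b) + d(b')`; choose `P0 ⊆ {w, w'} × {b, b'}` with the
same parities: all 0: `∅`; `d(w) = d(w') = 1`, `d(b) = d(b') = 0`: `{(w, b), (w', b)}`; `d(w) = d(b) = 1` only:
`{(w, b)}`; all 1: `{(w, b), (w', b')}`; etc.
-/

set_option autoImplicit false

namespace K5M

open Finset

def vt (N : Finset Quad) : Finset ℕ := wh N ∪ bl N

/-- The inner vertices of a part at the quad `q`. -/
def iv (q : Quad) (N : Finset Quad) : Finset ℕ := vt N \ (q.1 ∪ q.2)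

structure Part (q : Quad) (N : Finset Quad) : Prop where
  isq : IsQ q
  ac : AC (EdS N) N
  bnd : bd N = ed q
  col : Disjoint (wh N) (bl N)

structure Comp (q0 : Quad) (K : Finset Quad) (P : Quad → Finset Quad) : Prop where
  out : Part q0 K
  part : ∀ q ∈ K, Part q (P q)
  dK : ∀ q ∈ K, Disjoint (iv q (P q)) (vt K)
  dj : ∀ q ∈ K, ∀ q' ∈ K, q ≠ q' → Disjoint (iv q (P q)) (iv q' (P q'))

def glue (K : Finset Quad) (P : Quad → Finset Quad) : Finset Quad := K.biUnion P

/-- Irreducible: no 4-regions except single quads and the whole set. -/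
structure CoreQ (q0 : Quad) (K : Finset Quad) : Prop where
  part : Part q0 K
  three : 3 ≤ K.card
  irr : ∀ X ⊆ K, (bd X).card = 4 → X.card = 1 ∨ X = K

namespace N0Aux

theorem wh_mono {X N : Finset Quad} (h : X ⊆ N) : wh X ⊆ wh N :=
  Finset.biUnion_subset_biUnion_of_subset_left _ h

theorem bl_mono {X N : Finset Quad} (h : X ⊆ N) : bl X ⊆ bl N :=
  Finset.biUnion_subset_biUnion_of_subset_left _ h

theorem EdS_single (q : Quad) : EdS {q} = ed q := by
  unfold EdS
  rw [Finset.singleton_biUnion]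

theorem ex_fst {q : Quad} (h : IsQ q) : ∃ w, w ∈ q.1 := by
  have h1 : 0 < q.1.card := by rw [h.1]; norm_num
  exact Finset.card_pos.1 h1

theorem ex_snd {q : Quad} (h : IsQ q) : ∃ b, b ∈ q.2 := by
  have h1 : 0 < q.2.card := by rw [h.2]; norm_num
  exact Finset.card_pos.1 h1

theorem fix1 (Z : Finset Ed) (e : Ed) (p : Ed → Prop) [DecidablePred p] (hp : p e) :
    ∃ P ⊆ ({e} : Finset Ed), Even ((symmDiff Z P).filter p).card ∧
      ∀ (r : Ed → Prop) [DecidablePred r], ¬ r e → (symmDiff Z P).filter r = Z.filter r := by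
  by_cases h : Even (Z.filter p).card
  · refine ⟨∅, Finset.empty_subset _, ?_, ?_⟩
    · have h1 : symmDiff Z ∅ = Z := symmDiff_bot Z
      rw [h1]; exact h
    · intro r _ _
      have h1 : symmDiff Z ∅ = Z := symmDiff_bot Z
      rw [h1]
  · refine ⟨{e}, Finset.Subset.refl _, ?_, ?_⟩
    · by_cases he : e ∈ Z
      · have h1 : (symmDiff Z {e}).filter p = (Z.filter p).erase e := by
          ext a
          simp only [Finset.mem_filter, Finset.mem_symmDiff, Finset.mem_singleton, Finset.mem_erase]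
          constructor
          · rintro ⟨(⟨h2, h3⟩ | ⟨h2, h3⟩), h4⟩
            · exact ⟨h3, h2, h4⟩
            · exact absurd (h2 ▸ he) h3
          · rintro ⟨h2, h3, h4⟩
            exact ⟨Or.inl ⟨h3, h2⟩, h4⟩
        have h2 : e ∈ Z.filter p := Finset.mem_filter.2 ⟨he, hp⟩
        have h3 := Finset.card_erase_add_one h2
        rw [h1]
        rw [Nat.not_even_iff_odd, ← h3] at h
        rcases h with ⟨k, hk⟩
        exact ⟨k, by omega⟩
      · have h1 : (symmDiff Z {e}).filter p = insert e (Z.filter p) := by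
          ext a
          simp only [Finset.mem_filter, Finset.mem_symmDiff, Finset.mem_singleton, Finset.mem_insert]
          constructor
          · rintro ⟨(⟨h2, h3⟩ | ⟨h2, h3⟩), h4⟩
            · exact Or.inr ⟨h2, h4⟩
            · exact Or.inl h2
          · rintro (h2 | ⟨h2, h3⟩)
            · subst h2
              exact ⟨Or.inr ⟨rfl, he⟩, hp⟩
            · refine ⟨Or.inl ⟨h2, ?_⟩, h3⟩
              intro h4
              exact he (h4 ▸ h2)
        have h2 : e ∉ Z.filter p := fun h3 => he (Finset.mem_filter.1 h3).1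
        rw [h1, Finset.card_insert_of_notMem h2]
        rw [Nat.not_even_iff_odd] at h
        exact h.add_one
    · intro r _ hr
      ext a
      simp only [Finset.mem_filter, Finset.mem_symmDiff, Finset.mem_singleton]
      constructor
      · rintro ⟨(⟨h2, h3⟩ | ⟨h2, h3⟩), h4⟩
        · exact ⟨h2, h4⟩
        · exact absurd (h2 ▸ h4) hr
      · rintro ⟨h2, h3⟩
        refine ⟨Or.inl ⟨h2, ?_⟩, h3⟩
        intro h4
        exact hr (h4 ▸ h3)

theorem even_of_fib (f : Ed → ℕ) (Z : Finset Ed) (h : ∀ v, Even (Z.filter (fun e => f e = v)).card) :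
    Even Z.card := by
  rw [Finset.card_eq_sum_card_image f Z]
  exact Finset.even_sum _ (fun v _ => h v)

theorem even_last (f g : Ed → ℕ) (Z : Finset Ed) (b : ℕ)
    (h : ∀ v, Even (Z.filter (fun e => f e = v)).card)
    (h' : ∀ v, v ≠ b → Even (Z.filter (fun e => g e = v)).card) :
    Even (Z.filter (fun e => g e = b)).card := by
  have h1 := even_of_fib f Z h
  have h2 : Even (Z.filter (fun e => ¬ g e = b)).card := by
    apply even_of_fib g
    intro v
    by_cases hv : v = b
    · have h3 : ((Z.filter (fun e => ¬ g e = b)).filter (fun e => g e = v)) = ∅ := by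
        rw [Finset.filter_filter, Finset.filter_eq_empty_iff]
        rintro a _ ⟨h4, h5⟩
        exact h4 (h5.trans hv)
      rw [h3]
      exact Even.zero
    · have h3 : ((Z.filter (fun e => ¬ g e = b)).filter (fun e => g e = v)) =
          Z.filter (fun e => g e = v) := by
        rw [Finset.filter_filter]
        apply Finset.filter_congr
        intro a _
        constructor
        · rintro ⟨_, h5⟩; exact h5
        · intro h5
          exact ⟨fun h6 => hv (h5.symm.trans h6), h5⟩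
      rw [h3]
      exact h' v hv
  have h3 := Finset.card_filter_add_card_filter_not (s := Z) (fun e => g e = b)
  rw [← h3, Nat.even_add] at h1
  exact h1.2 h2

end N0Aux

open N0Aux

theorem net_iff_part {w0 w1 b0 b1 : ℕ} {N : Finset Quad} :
    Net w0 w1 b0 b1 N ↔ w0 ≠ w1 ∧ b0 ≠ b1 ∧ Part ({w0, w1}, {b0, b1}) N := by
  constructor
  · intro h
    exact ⟨h.wne, h.bne, ⟨⟨Finset.card_pair h.wne, Finset.card_pair h.bne⟩, h.ac, h.bnd, h.col⟩⟩
  · rintro ⟨h1, h2, h⟩
    exact ⟨h1, h2, h.ac, h.bnd, h.col⟩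

variable {q q0 : Quad} {N X : Finset Quad}

theorem Part.nonempty (h : Part q N) : N.Nonempty := by
  rw [Finset.nonempty_iff_ne_empty]
  intro h0
  have h1 := h.bnd
  rw [h0, bd_empty] at h1
  have h2 := card_ed h.isq
  rw [← h1, Finset.card_empty] at h2
  omega

theorem Part.sub_wh (h : Part q N) : q.1 ⊆ wh N := by
  intro w hw
  obtain ⟨b, hb⟩ := ex_snd h.isq
  have h1 : (w, b) ∈ ed q := mem_ed.2 ⟨hw, hb⟩
  rw [← h.bnd] at h1
  obtain ⟨r, hr, her⟩ := mem_EdS.1 (bd_sub N h1)
  exact Finset.mem_biUnion.2 ⟨r, hr, (mem_ed.1 her).1⟩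

theorem Part.sub_bl (h : Part q N) : q.2 ⊆ bl N := by
  intro b hb
  obtain ⟨w, hw⟩ := ex_fst h.isq
  have h1 : (w, b) ∈ ed q := mem_ed.2 ⟨hw, hb⟩
  rw [← h.bnd] at h1
  obtain ⟨r, hr, her⟩ := mem_EdS.1 (bd_sub N h1)
  exact Finset.mem_biUnion.2 ⟨r, hr, (mem_ed.1 her).2⟩

theorem conE_quad (hq : IsQ q) : ConE (ed q) := by
  intro s t hst e he e' he'
  have h1 : (e.1, e'.2) ∈ ed q := mem_ed.2 ⟨(mem_ed.1 he).1, (mem_ed.1 he').2⟩
  rw [hst e' he']
  exact hst _ h1

theorem Part.dg_one (h : Part q N) {e : Ed} (he : e ∈ ed q) : dg N e = 1 := by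
  rw [← h.bnd, mem_bd] at he
  have h2 := h.ac.two e
  rcases he with ⟨k, hk⟩
  omega

theorem Part.dg_two (h : Part q N) {e : Ed} (he : e ∈ EdS N) (hq : e ∉ ed q) : dg N e = 2 := by
  rw [← h.bnd, mem_bd, Nat.not_odd_iff_even] at hq
  have h2 := h.ac.two e
  have h3 := dg_pos.2 he
  rcases hq with ⟨k, hk⟩
  omega

theorem Part.outer_eq (h : Part q N) : outer (EdS N) N = ed q := by
  ext e
  unfold outer
  rw [Finset.mem_filter]
  constructor
  · rintro ⟨h1, h2⟩
    by_contra h3
    have h4 := h.dg_two h1 h3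
    omega
  · intro h1
    refine ⟨?_, le_of_eq (h.dg_one h1)⟩
    rw [← h.bnd] at h1
    exact bd_sub N h1

theorem Part.link_white (h : Part q N) (hX : X ⊆ N) (p : ℕ) (hp : ∃ r ∈ X, p ∈ r.1)
    (hb : ∀ e ∈ bd X, e.1 ≠ p) : (∀ r ∈ N, p ∈ r.1 → r ∈ X) ∧ p ∉ q.1 := by
  have hc : ConE (outer (EdS N) N) := by rw [h.outer_eq]; exact conE_quad h.isq
  obtain ⟨h1, h2⟩ := K5M.link_white h.ac hc hX p hp hb
  refine ⟨h1, ?_⟩
  intro hpq
  obtain ⟨b, hb⟩ := ex_snd h.isq
  have h3 : (p, b) ∈ ed q := mem_ed.2 ⟨hpq, hb⟩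
  have h4 := h.dg_one h3
  rw [← h.bnd] at h3
  have h5 := h2 _ (bd_sub N h3) rfl
  omega

theorem Part.link_black (h : Part q N) (hX : X ⊆ N) (p : ℕ) (hp : ∃ r ∈ X, p ∈ r.2)
    (hb : ∀ e ∈ bd X, e.2 ≠ p) : (∀ r ∈ N, p ∈ r.2 → r ∈ X) ∧ p ∉ q.2 := by
  have hc : ConE (outer (EdS N) N) := by rw [h.outer_eq]; exact conE_quad h.isq
  obtain ⟨h1, h2⟩ := K5M.link_black h.ac hc hX p hp hb
  refine ⟨h1, ?_⟩
  intro hpq
  obtain ⟨w, hw⟩ := ex_fst h.isq
  have h3 : (w, p) ∈ ed q := mem_ed.2 ⟨hw, hpq⟩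
  have h4 := h.dg_one h3
  rw [← h.bnd] at h3
  have h5 := h2 _ (bd_sub N h3) rfl
  omega

theorem Part.region (h : Part q0 N) (hX : X ⊆ N) (hq : IsQ q) (hb : bd X = ed q) : Part q X := by
  refine ⟨hq, h.ac.circuit_sub hX ?_, hb, ?_⟩
  · rw [hb]
    exact Circ_of_four (Evn_ed hq) (card_ed hq)
  · exact Finset.disjoint_of_subset_left (wh_mono hX) (Finset.disjoint_of_subset_right (bl_mono hX) h.col)

theorem part_single (hq : IsQ q) (hd : Disjoint q.1 q.2) : Part q {q} := by
  refine ⟨hq, ⟨?_, Finset.Subset.refl _, ?_, ?_, ?_⟩, bd_singleton q, ?_⟩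
  · intro r hr
    rw [Finset.mem_singleton] at hr
    rw [hr]; exact hq
  · intro e
    calc dg {q} e ≤ ({q} : Finset Quad).card := Finset.card_filter_le _ _
      _ ≤ 2 := by rw [Finset.card_singleton]; norm_num
  · intro X hX hb
    rcases Finset.subset_singleton_iff.1 hX with h1 | h1
    · exact h1
    · exfalso
      rw [h1, bd_singleton] at hb
      have h2 := card_ed hq
      rw [hb, Finset.card_empty] at h2
      omega
  · intro Z hZ he
    rw [EdS_single] at hZ
    by_cases h0 : Z = ∅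
    · exact ⟨∅, Finset.empty_subset _, by rw [bd_empty, h0]⟩
    · refine ⟨{q}, Finset.Subset.refl _, ?_⟩
      rw [bd_singleton]
      have h1 := four_le he (Finset.nonempty_iff_ne_empty.2 h0)
      exact (Finset.eq_of_subset_of_card_le hZ (by rw [card_ed hq]; exact h1)).symm
  · unfold wh bl
    rw [Finset.singleton_biUnion, Finset.singleton_biUnion]
    exact hd

/-- The 4-cycle lemma. -/
theorem four_cycle_fix (hq : IsQ q) (Z0 : Finset Ed)
    (hw : ∀ w, w ∉ q.1 → Even (Z0.filter (fun e => e.1 = w)).card)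
    (hb : ∀ b, b ∉ q.2 → Even (Z0.filter (fun e => e.2 = b)).card) :
    ∃ P0 ⊆ ed q, Evn (symmDiff Z0 P0) := by
  obtain ⟨w, w', hww, h1⟩ := Finset.card_eq_two.1 hq.1
  obtain ⟨b, b', hbb, h2⟩ := Finset.card_eq_two.1 hq.2
  obtain ⟨P1, hP1, hE1, hr1⟩ := fix1 Z0 (w', b) (fun e => e.1 = w') rfl
  obtain ⟨P2, hP2, hE2, hr2⟩ := fix1 (symmDiff Z0 P1) (w, b') (fun e => e.2 = b') rfl
  obtain ⟨P3, hP3, hE3, hr3⟩ := fix1 (symmDiff (symmDiff Z0 P1) P2) (w, b) (fun e => e.1 = w) rfl
  have hwm : w ∈ q.1 := by rw [h1]; exact Finset.mem_insert_self _ _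
  have hwm' : w' ∈ q.1 := by rw [h1]; exact Finset.mem_insert_of_mem (Finset.mem_singleton_self _)
  have hbm : b ∈ q.2 := by rw [h2]; exact Finset.mem_insert_self _ _
  have hbm' : b' ∈ q.2 := by rw [h2]; exact Finset.mem_insert_of_mem (Finset.mem_singleton_self _)
  refine ⟨symmDiff P1 (symmDiff P2 P3), ?_, ?_⟩
  · have hs : ∀ (e : Ed) (P : Finset Ed), P ⊆ {e} → e ∈ ed q → P ⊆ ed q := by
      intro e P hP he a ha
      rw [Finset.mem_singleton.1 (hP ha)]
      exact he
    have hd : ∀ A B : Finset Ed, A ⊆ ed q → B ⊆ ed q → symmDiff A B ⊆ ed q := by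
      intro A B hA hB a ha
      rw [Finset.mem_symmDiff] at ha
      rcases ha with h | h
      · exact hA h.1
      · exact hB h.1
    exact hd _ _ (hs _ _ hP1 (mem_ed.2 ⟨hwm', hbm⟩))
      (hd _ _ (hs _ _ hP2 (mem_ed.2 ⟨hwm, hbm'⟩)) (hs _ _ hP3 (mem_ed.2 ⟨hwm, hbm⟩)))
  · have he : symmDiff Z0 (symmDiff P1 (symmDiff P2 P3)) =
        symmDiff (symmDiff (symmDiff Z0 P1) P2) P3 := by
      rw [symmDiff_assoc, symmDiff_assoc]
    rw [he]
    have hW : ∀ v, Even ((symmDiff (symmDiff (symmDiff Z0 P1) P2) P3).filter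
        (fun e => e.1 = v)).card := by
      intro v
      by_cases hv : v = w
      · rw [hv]; exact hE3
      · rw [hr3 (fun e => e.1 = v) (fun h => hv h.symm),
          hr2 (fun e => e.1 = v) (fun h => hv h.symm)]
        by_cases hv' : v = w'
        · rw [hv']; exact hE1
        · rw [hr1 (fun e => e.1 = v) (fun h => hv' h.symm)]
          apply hw
          rw [h1, Finset.mem_insert, Finset.mem_singleton]
          rintro (h | h)
          · exact hv h
          · exact hv' h
    refine ⟨hW, ?_⟩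
    have hB : ∀ v, v ≠ b → Even ((symmDiff (symmDiff (symmDiff Z0 P1) P2) P3).filter
        (fun e => e.2 = v)).card := by
      intro v hv
      rw [hr3 (fun e => e.2 = v) (fun h => hv h.symm)]
      by_cases hv' : v = b'
      · rw [hv']; exact hE2
      · rw [hr2 (fun e => e.2 = v) (fun h => hv' h.symm),
          hr1 (fun e => e.2 = v) (fun h => hv h.symm)]
        apply hb
        rw [h2, Finset.mem_insert, Finset.mem_singleton]
        rintro (h | h)
        · exact hv h
        · exact hv' h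
    intro v
    by_cases hv : v = b
    · rw [hv]
      exact even_last (fun e => e.1) (fun e => e.2) _ b hW hB
    · exact hB v hv

end K5M
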