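import Pool.Agent.Lib.K5M.N0
import Pool.Agent.Lib.K5.CLDefs

/-!
# K5M.ND: statuses of the sides, marked networks, classes, families over a complex (definitions)

`Part`, `Comp`, `glue`, `iv`, `vt`, `CoreQ` are in `K5M.N0`.
Statuses: `c b = 0`: the side `b` is ordinary; `c b = i > 0`: the side `b` is flagged (it is a mark of
a bigger complex) and has exactly `i` quads.
-/

set_option autoImplicit false

namespace K5M

open Finset
open scoped ENNReal

/-- The black vertex `l` is adjacent to both whites of `q`. -/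
def Lb (q : Quad) (N : Finset Quad) (l : ℕ) : Prop := l ∉ q.2 ∧ ∀ w ∈ q.1, (w, l) ∈ EdS N

/-- The white vertex `v` is adjacent to both blacks of `q`. -/
def Lw (q : Quad) (N : Finset Quad) (v : ℕ) : Prop := v ∉ q.1 ∧ ∀ b ∈ q.2, (v, b) ∈ EdS N

/-- `N` is not a parallel network. -/
def Prm (q : Quad) (N : Finset Quad) : Prop := ∀ l, ¬ Lb q N l

/-- `N` is a series network. -/
def Ser (q : Quad) (N : Finset Quad) : Prop := ∃ v, Lw q N v

/-! ### Marked networks -/

/-- The flagged black vertices: the marks and the flagged sides. -/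
def flg (q : Quad) (c : ℕ → ℕ) (M : Finset ℕ) : Finset ℕ := M ∪ q.2.filter (fun b => c b ≠ 0)

/-- `(N, M)` is a marked network at `q` with inner label set `L` and statuses `c` of the sides. -/
structure MF (q : Quad) (c : ℕ → ℕ) (L : Finset ℕ) (N : Finset Quad) (M : Finset ℕ) : Prop where
  part : Part q N
  inn : iv q N = L
  sub : M ⊆ L
  blk : M ⊆ bl N
  three : ∀ h ∈ M, qd N h = 3
  side : ∀ b ∈ q.2, c b ≠ 0 → qd N b = c b
  one : ∀ r ∈ N, (r.2 ∩ flg q c M).card ≤ 1

/-- The weight: `x` for every inner white vertex, `Y` for every quad without a flagged black vertex,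
`T` for every mark. -/
noncomputable def wF (x Y T : ℝ≥0∞) (q : Quad) (c : ℕ → ℕ) (L : Finset ℕ)
    (s : Finset Quad × Finset ℕ) : ℝ≥0∞ :=
  x ^ (wh s.1 ∩ L).card * Y ^ (s.1.filter (fun r => Disjoint r.2 (flg q c s.2))).card *
    T ^ s.2.card

/-- The classes of networks: all, prime, not series, series, cores (with networks at the quads). -/
inductive Ty
  | all
  | prm
  | nsr
  | ser
  | cor

/-- Membership in the class. -/
def Ty.cls : Ty → Quad → Finset Quad → Prop
  | .all, _, _ => True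
  | .prm, q, N => Prm q N
  | .nsr, q, N => ¬ Ser q N
  | .ser, q, N => Ser q N
  | .cor, q, N => Prm q N ∧ ¬ Ser q N ∧ 2 ≤ N.card

/-- The total weight of the marked networks of class `t` at `q` with inner label set `L`. -/
noncomputable def AW (t : Ty) (x Y T : ℝ≥0∞) (q : Quad) (c : ℕ → ℕ) (L : Finset ℕ) : ℝ≥0∞ :=
  ∑' s : {s : Finset Quad × Finset ℕ // MF q c L s.1 s.2 ∧ t.cls q s.1}, wF x Y T q c L s.1

/-- The standard quad. -/
def qs : Quad := ({0, 1}, {2, 3})

/-- The statuses `i` of the side `2` and `j` of the side `3`. -/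
def st (i j : ℕ) : ℕ → ℕ := fun a => if a = 2 then i else if a = 3 then j else 0

/-- The total weight of the marked networks of class `t` with statuses `i`, `j` and `n` inner
vertices. -/
noncomputable def an (t : Ty) (x Y T : ℝ≥0∞) (i j n : ℕ) : ℝ≥0∞ :=
  AW t x Y T qs (st i j) (Ico 4 (4 + n))

/-! ### Families over a complex `K` -/

/-- Two label sets, convolution. -/
noncomputable def cv (F G : ℕ → ℝ≥0∞) (n : ℕ) : ℝ≥0∞ :=
  ∑ A ∈ (range n).powerset, F A.card * G (range n \ A).card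

/-- The sum over all maps from an `n`-set to `K` of the product of the weights of the fibres. -/
noncomputable def famI {ι : Type*} [DecidableEq ι] (K : Finset ι) (a : ι → ℕ → ℝ≥0∞) (n : ℕ) :
    ℝ≥0∞ :=
  ∑ f : Fin n → {r // r ∈ K}, ∏ r : {r // r ∈ K}, a r (univ.filter (fun j => f j = r)).card

/-- The frame of a composition: the complex `K`, the marks `Mk` of the composite among its vertices,
and the prescribed numbers `σ r b` of quads at the flagged blacks `b` of `r` in the part at `r`. -/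
structure Frame (q : Quad) (c : ℕ → ℕ) (L : Finset ℕ) (K : Finset Quad) (Mk : Finset ℕ)
    (σ : Quad → ℕ → ℕ) : Prop where
  part : Part q K
  inn : iv q K ⊆ L
  dis : Disjoint L (q.1 ∪ q.2)
  sub : Mk ⊆ L
  blk : Mk ⊆ bl K
  s0 : ∀ r ∈ K, ∀ b ∈ r.2, (σ r b ≠ 0 ↔ b ∈ flg q c Mk)
  s3 : ∀ h ∈ Mk, ∑ r ∈ K.filter (fun r => h ∈ r.2), σ r h = 3
  sc : ∀ b ∈ q.2, c b ≠ 0 → ∑ r ∈ K.filter (fun r => b ∈ r.2), σ r b = c b

/-- `(N, M)` is composed over the frame, with parts of the classes `τ`. -/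
structure CMF (q : Quad) (c : ℕ → ℕ) (L : Finset ℕ) (K : Finset Quad) (Mk : Finset ℕ)
    (τ : Quad → Ty) (σ : Quad → ℕ → ℕ) (N : Finset Quad) (M : Finset ℕ) : Prop where
  mf : MF q c L N M
  mks : M ∩ vt K = Mk
  ex : ∃ P, Comp q K P ∧ glue K P = N ∧ (∀ r ∈ K, (τ r).cls r (P r)) ∧
    ∀ r ∈ K, ∀ b ∈ r.2, b ∈ flg q c Mk → qd (P r) b = σ r b

/-- The parts of a composite: `g` distributes the labels, `F r` is the marked network at `r`. -/
structure Fam (K : Finset Quad) (τ : Quad → Ty) (σ : Quad → ℕ → ℕ) (L' : Finset ℕ)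
    (g : ℕ → Quad) (F : Quad → Finset Quad × Finset ℕ) : Prop where
  gK : ∀ v ∈ L', g v ∈ K
  gout : ∀ v, v ∉ L' → g v = (∅, ∅)
  mf : ∀ r ∈ K, MF r (σ r) (L'.filter (fun v => g v = r)) (F r).1 (F r).2
  ty : ∀ r ∈ K, (τ r).cls r (F r).1
  out : ∀ r, r ∉ K → F r = (∅, ∅)

/-- The composite. -/
def cN (K : Finset Quad) (F : Quad → Finset Quad × Finset ℕ) : Finset Quad :=
  glue K (fun r => (F r).1)

/-- The marks of the composite. -/
def cM (K : Finset Quad) (Mk : Finset ℕ) (F : Quad → Finset Quad × Finset ℕ) : Finset ℕ :=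
  Mk ∪ K.biUnion (fun r => (F r).2)

/-! ### Marked cores -/

/-- A core with marks `M'`, blacks with exactly three quads in `K + q` (sides allowed). -/
structure CM (q : Quad) (L : Finset ℕ) (K : Finset Quad) (M' : Finset ℕ) : Prop where
  core : CoreQ q K
  inn : iv q K = L
  sub : M' ⊆ bl K
  deg : ∀ h ∈ M', qd K h + (if h ∈ q.2 then 1 else 0) = 3

/-- The weight of a marked core, with `T ^ k` for the marks. -/
noncomputable def cw (x z w T : ℝ≥0∞) (k : ℕ) (L : Finset ℕ) (K : Finset Quad)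
    (M' : Finset ℕ) : ℝ≥0∞ :=
  x ^ (wh K ∩ L).card * T ^ k * z ^ (K.filter (fun r => Disjoint r.2 M')).card *
    w ^ (K.filter (fun r => ¬ Disjoint r.2 M')).card

/-- Cores with inner label set `A` and marks `Mk` among the inner blacks; a side with status `i > 0`
has `i` quads. -/
structure CMi (i j : ℕ) (A : Finset ℕ) (K : Finset Quad) (Mk : Finset ℕ) : Prop where
  core : CoreQ qs K
  inn : iv qs K = A
  sub : Mk ⊆ A
  blk : Mk ⊆ bl K
  three : ∀ h ∈ Mk, qd K h = 3
  side : ∀ b ∈ qs.2, st i j b ≠ 0 → qd K b = st i j b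

/-- The generating function of the cores with statuses `i`, `j` (`i, j = 0` or `2`). -/
noncomputable def Cg (i j : ℕ) (x z w T : ℝ≥0∞) : ℝ≥0∞ :=
  ∑' n : ℕ, (∑' p : {p : Finset Quad × Finset ℕ // CMi i j (Ico 4 (4 + n)) p.1 p.2},
    cw x z w T p.1.2.card (Ico 4 (4 + n)) p.1.1 (flg qs (st i j) p.1.2)) / (n.factorial : ℝ≥0∞)

/-- The counting function of the parts at a quad of a core with `m` flagged blacks. -/
noncomputable def aφ (x Y T : ℝ≥0∞) (m : ℕ) : ℕ → ℝ≥0∞ :=
  if m = 0 then an .all x Y T 0 0 else if m = 1 then an .all x Y T 1 0 else an .all x Y T 1 1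

/-- Cores with inner label set `A`, and families of networks on `k` labels at their quads. -/
noncomputable def GA (x Y T : ℝ≥0∞) (i j : ℕ) (A : Finset ℕ) (k : ℕ) : ℝ≥0∞ :=
  ∑' p : {p : Finset Quad × Finset ℕ // CMi i j A p.1 p.2},
    x ^ (wh p.1.1 ∩ A).card * T ^ p.1.2.card *
      famI p.1.1 (fun r => aφ x Y T (r.2 ∩ flg qs (st i j) p.1.2).card) k

/-- The weight of the single quad. -/
noncomputable def sgl (Y : ℝ≥0∞) (i j n : ℕ) : ℝ≥0∞ :=
  if n = 0 then
    (if i = 0 ∧ j = 0 then Y else if (i = 1 ∧ j = 0) ∨ (i = 0 ∧ j = 1) then 1 else 0)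
  else 0

/-- The weight of the parallel networks. -/
noncomputable def par (x Y T : ℝ≥0∞) (i j n : ℕ) : ℝ≥0∞ :=
  (n : ℝ≥0∞) * (cv (an .prm x Y T i 0) (an .all x Y T 0 j) (n - 1) +
    T * (cv (an .prm x Y T i 1) (an .all x Y T 2 j) (n - 1) +
      cv (an .prm x Y T i 2) (an .all x Y T 1 j) (n - 1)))

/-- Truncation. -/
noncomputable def tr (N : ℕ) (F : ℕ → ℝ≥0∞) (n : ℕ) : ℝ≥0∞ := if n ≤ N then F n else 0

end K5M
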