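import Pool.Agent.Lib.K5M.J0
import Pool.Agent.Lib.K5M.B8
import Pool.Agent.Lib.K5M.T0

/-!
# K5M.Q0: the recursion at the root edge, maps and predicates

`c` is a path with at least four vertices from `p` (white) to `z` (black); the disks are the fillings between
`[p, z]` and `c`.  Case A: the quad at the root edge has no mark.  Otherwise it has the mark `m`; the three
quads at `m` are `hexq p z w1 w2 m b1 b2`.  Case C: `b1 ≠ z`, `b1 ≠ b2`; case B: `b1 = z` (the white vertex `w1`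
disappears); case D: `b1 = b2` (the white vertex `w2` disappears).

PROOFS.  `gf_three`: the list has four entries, first `p`, last `z`.  `gf_five`: six entries.
`inn_root`: `[p, z] ⊆ c`.  `hexq_inj`: the quads of `hexq` are pairwise different (card 3).  The only quad of
`hexq p z w1 w2 m b1 b2` that contains the edge `(p, z)` is the first one (the third one does not: `b2 ≠ z`,
`m ≠ z`; the second one does not contain `p`), so `{p, w1} = {p, w1'}` and `{m, z} = {m', z}`; the only other quad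
that contains `p` is the third one: `w2 = w2'`, `b2 = b2'` (`b2 ≠ m`); the second quad is the remaining one.
`hexq_wh`, `hexq_bl`: unfold.
-/

set_option autoImplicit false

namespace K5M

open Finset
open scoped ENNReal

/-- Pairs (path, marked filling). -/
abbrev Pr := List ℕ × (Finset Quad × Finset ℕ)

/-- Case A: insert the quad at the root. -/
def phA (p z : ℕ) (t : Pr) : Finset Quad × Finset ℕ :=
  (insert (({p, t.1.getD 2 0}, {t.1.getD 1 0, z}) : Quad) t.2.1, t.2.2)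

/-- Case C: insert three quads around the new black vertex `m`. -/
def phC (p z m : ℕ) (t : Pr) : Finset Quad × Finset ℕ :=
  (t.2.1 ∪ hexq p z (t.1.getD 4 0) (t.1.getD 2 0) m (t.1.getD 3 0) (t.1.getD 1 0), insert m t.2.2)

/-- Case B: the same, with a new white vertex `w` in the place of `w1`. -/
def phB (p z m w : ℕ) (t : Pr) : Finset Quad × Finset ℕ :=
  (t.2.1 ∪ hexq p z w (t.1.getD 2 0) m z (t.1.getD 1 0), insert m t.2.2)

/-- Case D: the same, with a new white vertex `w` in the place of `w2`. -/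
def phD (p z m w : ℕ) (t : Pr) : Finset Quad × Finset ℕ :=
  (t.2.1 ∪ hexq p z (t.1.getD 2 0) w m (t.1.getD 1 0) (t.1.getD 1 0), insert m t.2.2)

/-- Case A. -/
def PA (p z : ℕ) (s : Finset Quad × Finset ℕ) : Prop :=
  ∀ q ∈ s.1, (p, z) ∈ ed q → Disjoint q.2 s.2

/-- Case C with the mark `m`. -/
def PC (p z m : ℕ) (s : Finset Quad × Finset ℕ) : Prop :=
  m ∈ s.2 ∧ ∃ w1 w2 b1 b2 : ℕ, s.1.filter (fun q => m ∈ q.2) = hexq p z w1 w2 m b1 b2 ∧
    w1 ≠ p ∧ w2 ≠ p ∧ w2 ≠ w1 ∧ b2 ≠ z ∧ b1 ≠ m ∧ b2 ≠ m ∧ b1 ≠ z ∧ b1 ≠ b2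

/-- Case B with the mark `m` and the pendant white vertex `w`. -/
def PB (p z m w : ℕ) (s : Finset Quad × Finset ℕ) : Prop :=
  m ∈ s.2 ∧ ∃ w2 b2 : ℕ, s.1.filter (fun q => m ∈ q.2) = hexq p z w w2 m z b2 ∧
    w ≠ p ∧ w2 ≠ p ∧ w2 ≠ w ∧ b2 ≠ z ∧ b2 ≠ m

/-- Case D with the mark `m` and the pendant white vertex `w`. -/
def PD (p z m w : ℕ) (s : Finset Quad × Finset ℕ) : Prop :=
  m ∈ s.2 ∧ ∃ w1 b1 : ℕ, s.1.filter (fun q => m ∈ q.2) = hexq p z w1 w m b1 b1 ∧
    w1 ≠ p ∧ w ≠ p ∧ w ≠ w1 ∧ b1 ≠ z ∧ b1 ≠ m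

/-- The marked disks of grade `(a, b)` with a property. -/
def MP (a b : ℕ) (c : List ℕ) (L : Finset ℕ) (p z : ℕ) (P : Finset Quad × Finset ℕ → Prop) :
    Set (Finset Quad × Finset ℕ) :=
  {s | s ∈ MFillg a b true [p, z] c L ∧ P s}

/-- `c` is a path with at least four vertices from `p` to `z`. -/
structure Rt (c : List ℕ) (p z : ℕ) : Prop where
  nd : c.Nodup
  four : 4 ≤ c.length
  hp : c.head? = some p
  hz : c.getLast? = some z

variable {c : List ℕ} {p z : ℕ}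

namespace Q0Aux

theorem mem_hexq {p z w1 w2 m b1 b2 : ℕ} {q : Quad} : q ∈ hexq p z w1 w2 m b1 b2 ↔
    q = ({p, w1}, {m, z}) ∨ q = ({w1, w2}, {m, b1}) ∨ q = ({w2, p}, {m, b2}) := by
  unfold hexq
  rw [Finset.mem_insert, Finset.mem_insert, Finset.mem_singleton]

theorem m_mem {p z w1 w2 m b1 b2 : ℕ} {q : Quad} (hq : q ∈ hexq p z w1 w2 m b1 b2) :
    m ∈ q.2 := by
  rcases mem_hexq.1 hq with rfl | rfl | rfl <;> exact Finset.mem_insert_self _ _

theorem mem_pair {a b c : ℕ} : a ∈ ({b, c} : Finset ℕ) ↔ a = b ∨ a = c := by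
  rw [Finset.mem_insert, Finset.mem_singleton]

theorem two_le {q M : Finset ℕ} {a b : ℕ} (hab : a ≠ b) (h1 : a ∈ q) (h2 : b ∈ q) (h3 : a ∈ M)
    (h4 : b ∈ M) (h : (q ∩ M).card ≤ 1) : False := by
  have h5 : ({a, b} : Finset ℕ) ⊆ q ∩ M := by
    intro x hx
    rcases mem_pair.1 hx with rfl | rfl
    · exact Finset.mem_inter.2 ⟨h1, h3⟩
    · exact Finset.mem_inter.2 ⟨h2, h4⟩
  have h6 := Finset.card_le_card h5
  rw [Finset.card_pair hab] at h6
  omega

theorem ends {l : List ℕ} {p z : ℕ} (hp : l.head? = some p) (hz : l.getLast? = some z)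
    (hn : l.Nodup) (h2 : 2 ≤ l.length) : p ∈ l ∧ z ∈ l ∧ p ≠ z := by
  cases l with
  | nil => simp at h2
  | cons a r =>
    rw [List.head?_cons, Option.some.injEq] at hp
    subst hp
    cases r with
    | nil => simp at h2
    | cons b s =>
      have h3 : (b :: s).getLast? = some z := by
        rwa [List.getLast?_cons_cons] at hz
      have h4 : z ∈ b :: s := List.mem_of_getLast? h3
      refine ⟨List.mem_cons_self, List.mem_cons_of_mem _ h4, ?_⟩
      rintro rfl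
      exact (List.nodup_cons.1 hn).1 h4

end Q0Aux

open Q0Aux

theorem Rt.mem (h : Rt c p z) : p ∈ c ∧ z ∈ c ∧ p ≠ z :=
  ends h.hp h.hz h.nd (by have := h.four; omega)

theorem gf_three (h : Rt c p z) {a b : ℕ} {L : Finset ℕ} {t : Pr} (ht : t ∈ GF a b true 3 c L) :
    ∃ b' w : ℕ, t.1 = [p, b', w, z] := by
  obtain ⟨h1, h2, -⟩ := ht
  have h3 : t.1.head? = some p := h2.hd.trans h.hp
  have h4 : t.1.getLast? = some z := h2.lt.trans h.hz
  obtain ⟨x1, x2, x3, x4, hx⟩ : ∃ x1 x2 x3 x4, t.1 = [x1, x2, x3, x4] := by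
    match t.1, h1 with
    | [x1, x2, x3, x4], _ => exact ⟨x1, x2, x3, x4, rfl⟩
  rw [hx] at h3 h4
  simp only [List.head?_cons, Option.some.injEq] at h3
  simp only [List.getLast?_cons_cons, List.getLast?_singleton, Option.some.injEq] at h4
  exact ⟨x2, x3, by rw [hx, h3, h4]⟩

theorem gf_five (h : Rt c p z) {a b : ℕ} {L : Finset ℕ} {t : Pr} (ht : t ∈ GF a b true 5 c L) :
    ∃ b2 w2 b1 w1 : ℕ, t.1 = [p, b2, w2, b1, w1, z] := by
  obtain ⟨h1, h2, -⟩ := ht
  have h3 : t.1.head? = some p := h2.hd.trans h.hp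
  have h4 : t.1.getLast? = some z := h2.lt.trans h.hz
  obtain ⟨x1, x2, x3, x4, x5, x6, hx⟩ : ∃ x1 x2 x3 x4 x5 x6, t.1 = [x1, x2, x3, x4, x5, x6] := by
    match t.1, h1 with
    | [x1, x2, x3, x4, x5, x6], _ => exact ⟨x1, x2, x3, x4, x5, x6, rfl⟩
  rw [hx] at h3 h4
  simp only [List.head?_cons, Option.some.injEq] at h3
  simp only [List.getLast?_cons_cons, List.getLast?_singleton, Option.some.injEq] at h4
  exact ⟨x2, x3, x4, x5, by rw [hx, h3, h4]⟩

/-- Inner vertices of a disk with the upper path `[p, z]`. -/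
theorem inn_root (h : Rt c p z) (N : Finset Quad) :
    inn [p, z] c N = vx [p, z] c N \ c.toFinset := by
  obtain ⟨hp, hz, -⟩ := h.mem
  unfold inn vx
  ext v
  simp only [Finset.mem_sdiff, Finset.mem_union, List.mem_toFinset, List.mem_cons,
    List.not_mem_nil, or_false]
  constructor
  · rintro ⟨h1, h2⟩
    exact ⟨Or.inl (Or.inl h1), fun h3 => h2 (Or.inr h3)⟩
  · rintro ⟨h1, h2⟩
    rcases h1 with (h1 | h1) | h1
    · refine ⟨h1, ?_⟩
      rintro ((rfl | rfl) | h3)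
      · exact h2 hp
      · exact h2 hz
      · exact h2 h3
    · rcases h1 with rfl | rfl
      · exact absurd hp h2
      · exact absurd hz h2
    · exact absurd h1 h2

theorem hexq_inj {w1 w2 m b1 b2 w1' w2' m' b1' b2' : ℕ}
    (he : hexq p z w1 w2 m b1 b2 = hexq p z w1' w2' m' b1' b2')
    (h3 : (hexq p z w1 w2 m b1 b2).card = 3)
    (h1 : w1 ≠ p) (h2 : w2 ≠ p) (h12 : w2 ≠ w1) (hz : m ≠ z) (hb : b2 ≠ z) (hm1 : b1 ≠ m)
    (hm2 : b2 ≠ m)
    (h1' : w1' ≠ p) (h2' : w2' ≠ p) (h12' : w2' ≠ w1') (hz' : m' ≠ z) (hb' : b2' ≠ z)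
    (hm1' : b1' ≠ m') (hm2' : b2' ≠ m') :
    w1 = w1' ∧ w2 = w2' ∧ m = m' ∧ b1 = b1' ∧ b2 = b2' := by
  have q1 : (({p, w1}, {m, z}) : Quad) ∈ hexq p z w1' w2' m' b1' b2' := by
    rw [← he]
    exact mem_hexq.2 (Or.inl rfl)
  have q2 : (({w1, w2}, {m, b1}) : Quad) ∈ hexq p z w1' w2' m' b1' b2' := by
    rw [← he]
    exact mem_hexq.2 (Or.inr (Or.inl rfl))
  have q3 : (({w2, p}, {m, b2}) : Quad) ∈ hexq p z w1' w2' m' b1' b2' := by
    rw [← he]
    exact mem_hexq.2 (Or.inr (Or.inr rfl))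
  rw [mem_hexq, Prod.mk.injEq, Prod.mk.injEq, Prod.mk.injEq] at q1 q2 q3
  have e1 : w1 = w1' ∧ m = m' := by
    rcases q1 with ⟨a1, a2⟩ | ⟨a1, a2⟩ | ⟨a1, a2⟩
    · have c1 : w1 ∈ ({p, w1'} : Finset ℕ) := a1 ▸ mem_pair.2 (Or.inr rfl)
      have c2 : m ∈ ({m', z} : Finset ℕ) := a2 ▸ mem_pair.2 (Or.inl rfl)
      exact ⟨(mem_pair.1 c1).resolve_left h1, (mem_pair.1 c2).resolve_right hz⟩
    · have c1 : p ∈ ({w1', w2'} : Finset ℕ) := a1 ▸ mem_pair.2 (Or.inl rfl)
      rcases mem_pair.1 c1 with c1 | c1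
      · exact absurd c1.symm h1'
      · exact absurd c1.symm h2'
    · have c2 : z ∈ ({m', b2'} : Finset ℕ) := a2 ▸ mem_pair.2 (Or.inr rfl)
      rcases mem_pair.1 c2 with c2 | c2
      · exact absurd c2.symm hz'
      · exact absurd c2.symm hb'
  have e2 : w2 = w2' ∧ b2 = b2' := by
    rcases q3 with ⟨a1, a2⟩ | ⟨a1, a2⟩ | ⟨a1, a2⟩
    · have c2 : z ∈ ({m, b2} : Finset ℕ) := a2.symm ▸ mem_pair.2 (Or.inr rfl)
      rcases mem_pair.1 c2 with c2 | c2
      · exact absurd c2.symm hz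
      · exact absurd c2.symm hb
    · have c1 : p ∈ ({w1', w2'} : Finset ℕ) := a1 ▸ mem_pair.2 (Or.inr rfl)
      rcases mem_pair.1 c1 with c1 | c1
      · exact absurd c1.symm h1'
      · exact absurd c1.symm h2'
    · have c1 : w2 ∈ ({w2', p} : Finset ℕ) := a1 ▸ mem_pair.2 (Or.inl rfl)
      have c2 : b2 ∈ ({m', b2'} : Finset ℕ) := a2 ▸ mem_pair.2 (Or.inr rfl)
      refine ⟨(mem_pair.1 c1).resolve_right h2, (mem_pair.1 c2).resolve_left ?_⟩
      rw [← e1.2]
      exact hm2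
  have e3 : b1 = b1' := by
    rcases q2 with ⟨a1, a2⟩ | ⟨a1, a2⟩ | ⟨a1, a2⟩
    · have c1 : p ∈ ({w1, w2} : Finset ℕ) := a1.symm ▸ mem_pair.2 (Or.inl rfl)
      rcases mem_pair.1 c1 with c1 | c1
      · exact absurd c1.symm h1
      · exact absurd c1.symm h2
    · have c2 : b1 ∈ ({m', b1'} : Finset ℕ) := a2 ▸ mem_pair.2 (Or.inr rfl)
      refine (mem_pair.1 c2).resolve_left ?_
      rw [← e1.2]
      exact hm1
    · have c1 : p ∈ ({w1, w2} : Finset ℕ) := a1.symm ▸ mem_pair.2 (Or.inr rfl)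
      rcases mem_pair.1 c1 with c1 | c1
      · exact absurd c1.symm h1
      · exact absurd c1.symm h2
  exact ⟨e1.1, e2.1, e1.2, e3, e2.2⟩

theorem hexq_wh (p z w1 w2 m b1 b2 : ℕ) : wh (hexq p z w1 w2 m b1 b2) = {p, w1, w2} := by
  ext w
  unfold wh hexq
  simp only [Finset.mem_biUnion, Finset.mem_insert, Finset.mem_singleton, exists_eq_or_imp,
    exists_eq_left]
  tauto

theorem hexq_bl (p z w1 w2 m b1 b2 : ℕ) : bl (hexq p z w1 w2 m b1 b2) = {m, z, b1, b2} := by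
  ext w
  unfold bl hexq
  simp only [Finset.mem_biUnion, Finset.mem_insert, Finset.mem_singleton, exists_eq_or_imp,
    exists_eq_left]
  tauto

/-- Marks of a disk after the removal of three quads around the mark `m`. -/
theorem mk_remove {L I M : Finset ℕ} {N : Finset Quad} {w1 w2 m b1 b2 : ℕ} (hM : Mk L M N)
    (hm : m ∈ M) (hX : N.filter (fun q => m ∈ q.2) = hexq p z w1 w2 m b1 b2) (hz : z ∉ L)
    (hm1 : b1 ≠ m) (hm2 : b2 ≠ m) (hI : M.erase m ⊆ I) :
    Mk I (M.erase m) (N \ hexq p z w1 w2 m b1 b2) ∧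
      uq (M.erase m) (N \ hexq p z w1 w2 m b1 b2) = uq M N ∧
      b1 ∉ M ∧ b2 ∉ M ∧ z ∉ M := by
  have hsub : ∀ q ∈ hexq p z w1 w2 m b1 b2, q ∈ N := fun q hq => by
    rw [← hX] at hq
    exact (Finset.mem_filter.1 hq).1
  have hno : ∀ q ∈ N, q ∉ hexq p z w1 w2 m b1 b2 → m ∉ q.2 := fun q hq hn hmq => by
    apply hn
    rw [← hX]
    exact Finset.mem_filter.2 ⟨hq, hmq⟩
  have hfil : ∀ h ∈ M.erase m, (N \ hexq p z w1 w2 m b1 b2).filter (fun q => h ∈ q.2) =
      N.filter (fun q => h ∈ q.2) := by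
    intro h hh
    rw [Finset.mem_erase] at hh
    ext q
    rw [Finset.mem_filter, Finset.mem_filter, Finset.mem_sdiff]
    constructor
    · rintro ⟨⟨h1, -⟩, h2⟩
      exact ⟨h1, h2⟩
    · rintro ⟨h1, h2⟩
      refine ⟨⟨h1, fun h3 => ?_⟩, h2⟩
      exact two_le hh.1 h2 (m_mem h3) hh.2 hm (hM.one q h1)
  refine ⟨⟨hI, ?_, ?_, ?_⟩, ?_, ?_, ?_, ?_⟩
  · intro h hh
    have h1 : 0 < ((N \ hexq p z w1 w2 m b1 b2).filter (fun q => h ∈ q.2)).card := by
      rw [hfil h hh]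
      have h2 : (N.filter (fun q => h ∈ q.2)).card = 3 := hM.three h (Finset.mem_of_mem_erase hh)
      omega
    obtain ⟨q, hq⟩ := Finset.card_pos.1 h1
    rw [Finset.mem_filter] at hq
    exact Finset.mem_biUnion.2 ⟨q, hq.1, hq.2⟩
  · intro h hh
    unfold qd
    rw [hfil h hh]
    exact hM.three h (Finset.mem_of_mem_erase hh)
  · intro q hq
    refine le_trans (Finset.card_le_card ?_) (hM.one q (Finset.mem_sdiff.1 hq).1)
    exact Finset.inter_subset_inter_left (Finset.erase_subset _ _)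
  · unfold uq
    congr 1
    ext q
    rw [Finset.mem_filter, Finset.mem_filter, Finset.mem_sdiff]
    constructor
    · rintro ⟨⟨h1, h2⟩, h4⟩
      refine ⟨h1, ?_⟩
      rw [Finset.disjoint_left] at h4 ⊢
      intro x hx hxM
      by_cases hxm : x = m
      · subst hxm
        exact hno q h1 h2 hx
      · exact h4 hx (Finset.mem_erase.2 ⟨hxm, hxM⟩)
    · rintro ⟨h1, h2⟩
      refine ⟨⟨h1, fun h3 => ?_⟩, Finset.disjoint_of_subset_right (Finset.erase_subset _ _) h2⟩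
      exact Finset.disjoint_left.1 h2 (m_mem h3) hm
  · intro hb
    have h1 : (({w1, w2}, {m, b1}) : Quad) ∈ N := hsub _ (mem_hexq.2 (Or.inr (Or.inl rfl)))
    exact two_le hm1 (mem_pair.2 (Or.inr rfl)) (mem_pair.2 (Or.inl rfl)) hb hm (hM.one _ h1)
  · intro hb
    have h1 : (({w2, p}, {m, b2}) : Quad) ∈ N := hsub _ (mem_hexq.2 (Or.inr (Or.inr rfl)))
    exact two_le hm2 (mem_pair.2 (Or.inr rfl)) (mem_pair.2 (Or.inl rfl)) hb hm (hM.one _ h1)
  · exact fun h => hz (hM.sub h)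

/-- Marks of a disk after the insertion of three quads around the new mark `m`. -/
theorem mk_insert {L I M : Finset ℕ} {N : Finset Quad} {w1 w2 m b1 b2 : ℕ} (hM : Mk I M N)
    (hN : m ∉ bl N) (h3 : (hexq p z w1 w2 m b1 b2).card = 3) (hmz : m ≠ z) (hm1 : b1 ≠ m)
    (hm2 : b2 ≠ m) (hz : z ∉ M) (h1 : b1 ∉ M) (h2 : b2 ∉ M) (hm : m ∉ M) (hL : insert m M ⊆ L) :
    Mk L (insert m M) (N ∪ hexq p z w1 w2 m b1 b2) ∧
      uq (insert m M) (N ∪ hexq p z w1 w2 m b1 b2) = uq M N := by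
  have hnoN : ∀ q ∈ N, m ∉ q.2 := fun q hq hmq => hN (Finset.mem_biUnion.2 ⟨q, hq, hmq⟩)
  have hnoX : ∀ q ∈ hexq p z w1 w2 m b1 b2, ∀ h ∈ M, h ∉ q.2 := by
    intro q hq h hh hhq
    rcases mem_hexq.1 hq with rfl | rfl | rfl
    · rcases mem_pair.1 hhq with rfl | rfl
      · exact hm hh
      · exact hz hh
    · rcases mem_pair.1 hhq with rfl | rfl
      · exact hm hh
      · exact h1 hh
    · rcases mem_pair.1 hhq with rfl | rfl
      · exact hm hh
      · exact h2 hh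
  refine ⟨⟨hL, ?_, ?_, ?_⟩, ?_⟩
  · intro h hh
    rcases Finset.mem_insert.1 hh with rfl | hh
    · refine Finset.mem_biUnion.2 ⟨(({p, w1}, {h, z}) : Quad), Finset.mem_union_right _
        (mem_hexq.2 (Or.inl rfl)), mem_pair.2 (Or.inl rfl)⟩
    · obtain ⟨q, hq, hhq⟩ := Finset.mem_biUnion.1 (hM.blk hh)
      exact Finset.mem_biUnion.2 ⟨q, Finset.mem_union_left _ hq, hhq⟩
  · intro h hh
    rcases Finset.mem_insert.1 hh with rfl | hh
    · have h4 : (N ∪ hexq p z w1 w2 h b1 b2).filter (fun q => h ∈ q.2) =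
          hexq p z w1 w2 h b1 b2 := by
        ext q
        rw [Finset.mem_filter, Finset.mem_union]
        constructor
        · rintro ⟨h5 | h5, h6⟩
          · exact absurd h6 (hnoN q h5)
          · exact h5
        · intro h5
          exact ⟨Or.inr h5, m_mem h5⟩
      unfold qd
      rw [h4, h3]
    · have h4 : (N ∪ hexq p z w1 w2 m b1 b2).filter (fun q => h ∈ q.2) =
          N.filter (fun q => h ∈ q.2) := by
        ext q
        rw [Finset.mem_filter, Finset.mem_filter, Finset.mem_union]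
        constructor
        · rintro ⟨h5 | h5, h6⟩
          · exact ⟨h5, h6⟩
          · exact absurd h6 (hnoX q h5 h hh)
        · rintro ⟨h5, h6⟩
          exact ⟨Or.inl h5, h6⟩
      unfold qd
      rw [h4]
      exact hM.three h hh
  · intro q hq
    rcases Finset.mem_union.1 hq with hq1 | hq1
    · refine le_trans (Finset.card_le_card ?_) (hM.one q hq1)
      intro x hx
      rw [Finset.mem_inter, Finset.mem_insert] at hx
      rcases hx.2 with rfl | h5
      · exact absurd hx.1 (hnoN q hq1)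
      · exact Finset.mem_inter.2 ⟨hx.1, h5⟩
    · refine le_trans (Finset.card_le_card (t := {m}) ?_) (le_of_eq (Finset.card_singleton m))
      intro x hx
      rw [Finset.mem_inter, Finset.mem_insert] at hx
      rcases hx.2 with rfl | h5
      · exact Finset.mem_singleton_self _
      · exact absurd hx.1 (hnoX q hq1 x h5)
  · unfold uq
    congr 1
    ext q
    rw [Finset.mem_filter, Finset.mem_filter, Finset.mem_union]
    constructor
    · rintro ⟨h4 | h4, h5⟩
      · exact ⟨h4, Finset.disjoint_of_subset_right (Finset.subset_insert _ _) h5⟩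
      · exact absurd (Finset.mem_insert_self m M) (Finset.disjoint_left.1 h5 (m_mem h4))
    · rintro ⟨h4, h5⟩
      refine ⟨Or.inl h4, ?_⟩
      rw [Finset.disjoint_insert_right]
      exact ⟨hnoN q h4, h5⟩

end K5M
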