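import Pool.Agent.Lib.K5M.Q0

/-!
# K5M.Q1: case A, the quad at the root edge has no mark

PROOF.  `tsum_bijOn` with `phA p z : GFn a b 3 c L p z → MP (a + 1) b c L p z (PA p z)`.
MapsTo: `t.1 = [p, b, w, z]` (`gf_three`), `Fill.insert_quad`: `N = insert q N'`, `q = ({p, w}, {b, z})`; the vertex
sets are equal, so the inner labels are `L` (`inn_root`).  The marks `M'` are inner vertices for `t.1`, so
`b, z ∉ M'`: `qd` does not change, `q.2 ∩ M' = ∅`, `uq` grows by one; `PA`: the only quad at the edge `(p, z)` is `q`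
(`(p, z) ∉ EdS N'`).
SurjOn: `Fill.root_quad`, `Fill.remove_quad`; by `PA` the black vertices `b`, `z` of `q` are not marked, so for
`h ∈ M` no removed quad contains `h`, `qd` is the same and `h ∈ bl N'`; `M` consists of vertices of `N'` not on
`c`, not `b`, not `w` (`w` is white: `col`).
InjOn: `q` is determined as the only quad at `(p, z)`; `{p, w} = {p, w'}`, `{b, z} = {b', z}`, and `N' = N.erase q`.
Weights: `wh N = wh N' ∪ {p, w} = wh N' ∪ pw true [p, b, w, z]`; one more quad without a mark.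
`root_A_zero`: in case A the quad at the root edge has no mark, so `uq` is positive.
-/

set_option autoImplicit false

namespace K5M

open Finset
open scoped ENNReal

namespace Q1Aux

lemma phA_eq (p z b w : ℕ) (N : Finset Quad) (M : Finset ℕ) :
    phA p z ([p, b, w, z], (N, M)) = (insert (({p, w}, {b, z}) : Quad) N, M) := rfl

lemma pz_mem_ed (p z w b : ℕ) : (p, z) ∈ ed (({p, w}, {b, z}) : Quad) := by
  unfold ed
  rw [mem_product]
  exact ⟨mem_insert_self _ _, mem_insert_of_mem (mem_singleton_self _)⟩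

lemma mem_EdS' {N : Finset Quad} {q : Quad} {e : Ed} (hq : q ∈ N) (he : e ∈ ed q) : e ∈ EdS N :=
  mem_biUnion.2 ⟨q, hq, he⟩

lemma qd_insert {N : Finset Quad} {q : Quad} {h : ℕ} (hh : h ∉ q.2) : qd (insert q N) h = qd N h := by
  unfold qd
  rw [filter_insert, if_neg hh]

lemma uq_insert {N : Finset Quad} {M : Finset ℕ} {q : Quad} (hq : q ∉ N) (hd : Disjoint q.2 M) :
    uq M (insert q N) = uq M N + 1 := by
  unfold uq
  rw [filter_insert, if_pos hd, card_insert_of_notMem]
  intro h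
  exact hq (mem_filter.1 h).1

lemma nodup4 {p b w z : ℕ} (h : [p, b, w, z].Nodup) :
    p ≠ b ∧ p ≠ w ∧ p ≠ z ∧ b ≠ w ∧ b ≠ z ∧ w ≠ z := by
  simp only [List.nodup_cons, List.mem_cons, List.not_mem_nil, or_false, not_or, not_false_eq_true,
    List.nodup_nil, and_true] at h
  tauto

/-- The disk of case A. -/
lemma maps {c : List ℕ} {p z : ℕ} (h : Rt c p z) {a b : ℕ} {L : Finset ℕ} {b' w : ℕ}
    {N : Finset Quad} {M : Finset ℕ} (ht : (([p, b', w, z], (N, M)) : Pr) ∈ GFn a b 3 c L p z) :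
    ((insert (({p, w}, {b', z}) : Quad) N, M) : Finset Quad × Finset ℕ) ∈
      MP (a + 1) b c L p z (PA p z) := by
  obtain ⟨⟨-, hF, hL, hM, hu, hb⟩, he⟩ := ht
  replace hF : Fill true [p, b', w, z] c N := hF
  replace hL : inn [p, b', w, z] c N ∪ ([p, b', w, z].toFinset \ c.toFinset) = L := hL
  replace hM : Mk (inn [p, b', w, z] c N) M N := hM
  replace hu : uq M N = a := hu
  replace hb : M.card = b := hb
  replace he : (p, z) ∉ EdS N := he
  obtain ⟨h1, h2, h3⟩ := hF.insert_quad h.four he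
  have hMq : ∀ m ∈ M, m ∉ ({b', z} : Finset ℕ) := by
    intro m hm hmq
    have h4 := hM.sub hm
    unfold inn at h4
    rw [mem_sdiff] at h4
    apply h4.2
    rw [mem_union]
    left
    rw [List.mem_toFinset]
    rw [mem_insert, mem_singleton] at hmq
    rcases hmq with rfl | rfl <;> simp
  have hd : Disjoint ({b', z} : Finset ℕ) M := by
    rw [disjoint_left]
    intro m hm hmM
    exact hMq m hmM hm
  refine ⟨⟨⟨h2, ?_, ?_⟩, ?_, hb⟩, ?_⟩
  · show inn [p, z] c (insert (({p, w}, {b', z}) : Quad) N) = L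
    rw [inn_root h, h3, ← lab_eq, hL]
  · show Mk L M (insert (({p, w}, {b', z}) : Quad) N)
    refine ⟨?_, ?_, ?_, ?_⟩
    · intro m hm
      rw [← hL]
      exact mem_union_left _ (hM.sub hm)
    · intro m hm
      have h5 := hM.blk hm
      unfold bl at h5 ⊢
      rw [mem_biUnion] at h5 ⊢
      obtain ⟨q, hq, hmq⟩ := h5
      exact ⟨q, mem_insert_of_mem hq, hmq⟩
    · intro m hm
      rw [qd_insert (hMq m hm)]
      exact hM.three m hm
    · intro q hq
      rcases mem_insert.1 hq with rfl | hq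
      · show ((({b', z} : Finset ℕ)) ∩ M).card ≤ 1
        rw [disjoint_iff_inter_eq_empty.1 hd]
        simp
      · exact hM.one q hq
  · show uq M (insert (({p, w}, {b', z}) : Quad) N) = a + 1
    rw [uq_insert h1 hd, hu]
  · intro q hq hpz
    rcases mem_insert.1 hq with rfl | hq
    · exact hd
    · exact absurd (mem_EdS' hq hpz) he

lemma surj {c : List ℕ} {p z : ℕ} (h : Rt c p z) {a b : ℕ} {L : Finset ℕ} {s : Finset Quad × Finset ℕ}
    (hs : s ∈ MP (a + 1) b c L p z (PA p z)) :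
    ∃ t ∈ GFn a b 3 c L p z, phA p z t = s := by
  obtain ⟨N, M⟩ := s
  obtain ⟨⟨⟨hF, hL, hM⟩, hu, hb⟩, hP⟩ := hs
  replace hF : Fill true [p, z] c N := hF
  replace hL : inn [p, z] c N = L := hL
  replace hM : Mk L M N := hM
  replace hu : uq M N = a + 1 := hu
  replace hb : M.card = b := hb
  obtain ⟨w, b', hw, hb', hq, -⟩ := hF.root_quad h.four
  obtain ⟨h1, h2, h3⟩ := hF.remove_quad h.four hw hb' hq
  have hd : Disjoint ({b', z} : Finset ℕ) M := hP _ hq (pz_mem_ed p z w b')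
  have hMq : ∀ m ∈ M, m ∉ ({b', z} : Finset ℕ) := fun m hm hmq => (disjoint_left.1 hd) hmq hm
  have hins : insert (({p, w}, {b', z}) : Quad) (N.erase ({p, w}, {b', z})) = N := insert_erase hq
  refine ⟨([p, b', w, z], (N.erase ({p, w}, {b', z}), M)), ⟨⟨rfl, h1, ?_, ?_, ?_, hb⟩, h2⟩, ?_⟩
  · show inn [p, b', w, z] c (N.erase ({p, w}, {b', z})) ∪ ([p, b', w, z].toFinset \ c.toFinset) = L
    rw [lab_eq, h3, ← inn_root h, hL]
  · show Mk (inn [p, b', w, z] c (N.erase ({p, w}, {b', z}))) M (N.erase ({p, w}, {b', z}))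
    refine ⟨?_, ?_, ?_, ?_⟩
    · intro m hm
      rw [inn_eq_sdiff, h3, mem_sdiff]
      have h4 := hM.sub hm
      rw [← hL, inn_root h, mem_sdiff] at h4
      refine ⟨h4.1, ?_⟩
      rw [mem_union]
      rintro (h5 | h5)
      · rw [List.mem_toFinset] at h5
        simp only [List.mem_cons, List.not_mem_nil, or_false] at h5
        rcases h5 with h5 | h5 | h5 | h5
        · apply h4.2
          rw [List.mem_toFinset, h5]
          exact h.mem.1
        · exact hMq m hm (by rw [h5]; exact mem_insert_self _ _)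
        · have h6 : m ∈ wh N := by
            unfold wh
            rw [mem_biUnion]
            exact ⟨_, hq, by rw [h5]; exact mem_insert_of_mem (mem_singleton_self _)⟩
          have h7 := hM.blk hm
          exact (disjoint_left.1 hF.col) (mem_union_left _ (mem_union_left _ h6))
            (mem_union_left _ (mem_union_left _ h7))
        · exact hMq m hm (by rw [h5]; exact mem_insert_of_mem (mem_singleton_self _))
      · exact h4.2 h5
    · intro m hm
      have h5 := hM.blk hm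
      unfold bl at h5 ⊢
      rw [mem_biUnion] at h5 ⊢
      obtain ⟨q, hqN, hmq⟩ := h5
      refine ⟨q, mem_erase.2 ⟨?_, hqN⟩, hmq⟩
      rintro rfl
      exact hMq m hm hmq
    · intro m hm
      rw [← hM.three m hm]
      conv_rhs => rw [← hins]
      rw [qd_insert (hMq m hm)]
    · intro q hqN
      exact hM.one q (mem_of_mem_erase hqN)
  · show uq M (N.erase ({p, w}, {b', z})) = a
    rw [← hins, uq_insert (notMem_erase _ _) hd] at hu
    omega
  · rw [phA_eq, hins]

lemma inj {p z : ℕ} {b1 w1 b2 w2 : ℕ} {N1 N2 : Finset Quad} {M1 M2 : Finset ℕ}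
    (hb1 : b1 ≠ z) (hw1 : w1 ≠ p) (hb2 : b2 ≠ z) (hw2 : w2 ≠ p)
    (he1 : (p, z) ∉ EdS N1) (he2 : (p, z) ∉ EdS N2)
    (h : ((insert (({p, w1}, {b1, z}) : Quad) N1, M1) : Finset Quad × Finset ℕ) =
      (insert (({p, w2}, {b2, z}) : Quad) N2, M2)) :
    b1 = b2 ∧ w1 = w2 ∧ N1 = N2 ∧ M1 = M2 := by
  have hN : insert (({p, w1}, {b1, z}) : Quad) N1 = insert (({p, w2}, {b2, z}) : Quad) N2 :=
    congrArg Prod.fst h
  have hM : M1 = M2 := congrArg Prod.snd h
  have hq1 : (({p, w1}, {b1, z}) : Quad) ∉ N1 := fun h1 => he1 (mem_EdS' h1 (pz_mem_ed p z w1 b1))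
  have hq2 : (({p, w2}, {b2, z}) : Quad) ∉ N2 := fun h1 => he2 (mem_EdS' h1 (pz_mem_ed p z w2 b2))
  have hq : (({p, w1}, {b1, z}) : Quad) = ({p, w2}, {b2, z}) := by
    have h1 : (({p, w1}, {b1, z}) : Quad) ∈ insert (({p, w2}, {b2, z}) : Quad) N2 := by
      rw [← hN]
      exact mem_insert_self _ _
    rcases mem_insert.1 h1 with h2 | h2
    · exact h2
    · exact absurd (mem_EdS' h2 (pz_mem_ed p z w1 b1)) he2
  have h1 : ({p, w1} : Finset ℕ) = {p, w2} := congrArg Prod.fst hq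
  have h2 : ({b1, z} : Finset ℕ) = {b2, z} := congrArg Prod.snd hq
  refine ⟨?_, ?_, ?_, hM⟩
  · have h3 : b1 ∈ ({b2, z} : Finset ℕ) := by
      rw [← h2]
      exact mem_insert_self _ _
    rw [mem_insert, mem_singleton] at h3
    rcases h3 with h3 | h3
    · exact h3
    · exact absurd h3 hb1
  · have h3 : w1 ∈ ({p, w2} : Finset ℕ) := by
      rw [← h1]
      exact mem_insert_of_mem (mem_singleton_self _)
    rw [mem_insert, mem_singleton] at h3
    rcases h3 with h3 | h3
    · exact absurd h3 hw1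
    · exact h3
  · rw [← erase_insert hq1, hN, hq, erase_insert hq2]

end Q1Aux

open Q1Aux in
theorem root_A (x : ℝ≥0∞) {c : List ℕ} {p z : ℕ} (h : Rt c p z) (a b : ℕ) {L : Finset ℕ}
    (hL : Disjoint c.toFinset L) :
    ∑' s : MP (a + 1) b c L p z (PA p z), x ^ (wh s.1.1 ∩ L).card = GWn x a b 3 c L p z := by
  have _ := hL
  have hbij : Set.BijOn (phA p z) (GFn a b 3 c L p z) (MP (a + 1) b c L p z (PA p z)) := by
    refine ⟨?_, ?_, ?_⟩
    · rintro ⟨l, N, M⟩ ht
      obtain ⟨b', w, hl⟩ := gf_three h ht.1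
      replace hl : l = [p, b', w, z] := hl
      subst hl
      exact maps h ht
    · rintro ⟨l1, N1, M1⟩ ht1 ⟨l2, N2, M2⟩ ht2 heq
      obtain ⟨b1, w1, hl1⟩ := gf_three h ht1.1
      obtain ⟨b2, w2, hl2⟩ := gf_three h ht2.1
      replace hl1 : l1 = [p, b1, w1, z] := hl1
      replace hl2 : l2 = [p, b2, w2, z] := hl2
      subst hl1 hl2
      have hn1 := nodup4 ht1.1.2.1.nf
      have hn2 := nodup4 ht2.1.2.1.nf
      obtain ⟨e1, e2, e3, e4⟩ := inj (p := p) (z := z) hn1.2.2.2.2.1 hn1.2.1.symm hn2.2.2.2.2.1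
        hn2.2.1.symm ht1.2 ht2.2 heq
      subst e1 e2 e3 e4
      rfl
    · intro s hs
      obtain ⟨t, ht, hts⟩ := surj h hs
      exact ⟨t, ht, hts⟩
  rw [GWn_eq, tsum_bijOn _ _ _ hbij (fun s => x ^ (wh s.1 ∩ L).card)]
  refine tsum_congr ?_
  rintro ⟨⟨l, N, M⟩, ht⟩
  obtain ⟨b', w, hl⟩ := gf_three h ht.1
  replace hl : l = [p, b', w, z] := hl
  subst hl
  show x ^ (wh (insert (({p, w}, {b', z}) : Quad) N) ∩ L).card =
    x ^ ((wh N ∪ pw true [p, b', w, z]) ∩ L).card
  congr 3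
  have h1 : pw true [p, b', w, z] = {p, w} := by
    simp [pw]
  rw [h1]
  unfold wh
  rw [biUnion_insert, union_comm]

open Q1Aux in
theorem root_A_zero (x : ℝ≥0∞) {c : List ℕ} {p z : ℕ} (h : Rt c p z) (b : ℕ) {L : Finset ℕ}
    (hL : Disjoint c.toFinset L) :
    ∑' s : MP 0 b c L p z (PA p z), x ^ (wh s.1.1 ∩ L).card = 0 := by
  have _ := hL
  rw [ENNReal.tsum_eq_zero]
  rintro ⟨⟨N, M⟩, hs⟩
  exfalso
  obtain ⟨⟨⟨hF, -, -⟩, hu, -⟩, hP⟩ := hs
  replace hF : Fill true [p, z] c N := hF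
  replace hu : uq M N = 0 := hu
  obtain ⟨w, b', hw, hb', hq, -⟩ := hF.root_quad h.four
  have hd : Disjoint ({b', z} : Finset ℕ) M := hP _ hq (pz_mem_ed p z w b')
  unfold uq at hu
  rw [card_eq_zero] at hu
  have h1 : (({p, w}, {b', z}) : Quad) ∈ N.filter (fun q => Disjoint q.2 M) := mem_filter.2 ⟨hq, hd⟩
  rw [hu] at h1
  exact notMem_empty _ h1

end K5M
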