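import Pool.Agent.Lib.K5M.Q0

/-!
# K5M.Q2: case C, three quads around the mark `m`, three different other blacks

PROOF.  `tsum_bijOn` with `phC p z m : GFn a b 5 c (L.erase m) p z → MP a (b + 1) c L p z (PC p z m)`.
MapsTo: `t.1 = [p, b2, w2, b1, w1, z]` (`gf_five`); `m ∈ L` is not a vertex of the filling (all its vertices are
in `c` or `L.erase m`); `Fill.insert_hex_C`: the vertex set is `insert m` of the old one, so the inner labels are
`L` (`m ∉ c`).  Marks: `mk_insert` (`b1, b2, z` are on the paths, so not in `M'`).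
SurjOn: `Fill.remove_hex_C` (`m ∉ c` as `m ∈ L`; the card is 3 because `qd N m = 3`), `mk_remove`; labels:
`vx \ {m}`; `M.erase m` is disjoint from the new path: `b1, b2 ∉ M`, whites are not marked (`M ⊆ bl N`, `col`).
InjOn: the three quads are `N.filter (m ∈ q.2)` (`insert_hex_C`), `hexq_inj` gives `w1, w2, b1, b2`, then
`N' = N \ hexq`, `M' = M.erase m`.
Weights: `wh N = wh N' ∪ {p, w1, w2} = wh N' ∪ pw true t.1`, `m` is not white; `uq` is the same, one mark more.
-/

set_option autoImplicit false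

namespace K5M

open Finset
open scoped ENNReal

namespace Q2Aux

variable {a b : ℕ} {c : List ℕ} {L : Finset ℕ} {p z m : ℕ}

theorem fv_sub {f : List ℕ} {N : Finset Quad} {u : ℕ} (h : u ∈ f) : u ∈ vx f c N := by
  unfold vx
  simp only [Finset.mem_union, List.mem_toFinset]
  exact Or.inl (Or.inr h)

theorem wh_sub {f : List ℕ} {N : Finset Quad} {u : ℕ} (h : u ∈ wh N) : u ∈ vx f c N := by
  unfold vx
  simp only [Finset.mem_union, List.mem_toFinset]
  exact Or.inl (Or.inl (Or.inl h))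

theorem bl_sub {f : List ℕ} {N : Finset Quad} {u : ℕ} (h : u ∈ bl N) : u ∈ vx f c N := by
  unfold vx
  simp only [Finset.mem_union, List.mem_toFinset]
  exact Or.inl (Or.inl (Or.inr h))

/-- All facts about an element of the source. -/
theorem facts (h : Rt c p z) (hL : Disjoint c.toFinset L) (hm : m ∈ L) {t : Pr}
    (ht : t ∈ GFn a b 5 c (L.erase m) p z) :
    ∃ b2 w2 b1 w1 : ℕ, t.1 = [p, b2, w2, b1, w1, z] ∧
      phC p z m t = (t.2.1 ∪ hexq p z w1 w2 m b1 b2, insert m t.2.2) ∧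
      m ∉ vx [p, b2, w2, b1, w1, z] c t.2.1 ∧
      w1 ≠ p ∧ w2 ≠ p ∧ w2 ≠ w1 ∧ b2 ≠ z ∧ b1 ≠ m ∧ b2 ≠ m ∧ b1 ≠ z ∧ b1 ≠ b2 ∧ m ≠ z ∧
      m ∉ t.2.2 ∧
      Disjoint t.2.1 (hexq p z w1 w2 m b1 b2) ∧
      Fill true [p, z] c (t.2.1 ∪ hexq p z w1 w2 m b1 b2) ∧
      (t.2.1 ∪ hexq p z w1 w2 m b1 b2).filter (fun q => m ∈ q.2) = hexq p z w1 w2 m b1 b2 ∧
      (hexq p z w1 w2 m b1 b2).card = 3 ∧
      inn [p, z] c (t.2.1 ∪ hexq p z w1 w2 m b1 b2) = L ∧
      Mk L (insert m t.2.2) (t.2.1 ∪ hexq p z w1 w2 m b1 b2) ∧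
      uq (insert m t.2.2) (t.2.1 ∪ hexq p z w1 w2 m b1 b2) = uq t.2.2 t.2.1 := by
  obtain ⟨ht1, he⟩ := ht
  obtain ⟨b2, w2, b1, w1, hf⟩ := gf_five h ht1
  obtain ⟨t1, N, M⟩ := t
  simp only at hf
  subst hf
  obtain ⟨-, hF, hlab, hMk, huq, hcard⟩ := ht1
  simp only at hF hlab hMk huq hcard he
  have hmc : m ∉ c := fun hh => Finset.disjoint_left.1 hL (List.mem_toFinset.2 hh) hm
  have hlab' := hlab
  rw [lab_eq] at hlab'
  have hmv : m ∉ vx [p, b2, w2, b1, w1, z] c N := by
    intro hh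
    have h1 : m ∈ vx [p, b2, w2, b1, w1, z] c N \ c.toFinset :=
      Finset.mem_sdiff.2 ⟨hh, fun hh' => hmc (List.mem_toFinset.1 hh')⟩
    rw [hlab'] at h1
    exact Finset.notMem_erase m L h1
  have hne : ∀ u ∈ [p, b2, w2, b1, w1, z], u ≠ m := by
    rintro u hu rfl
    exact hmv (fv_sub hu)
  obtain ⟨g1, g2, g3, g4, g5⟩ := hF.insert_hex_C h.four he hmv
  have hnd := hF.nf
  simp only [List.nodup_cons, List.mem_cons, List.not_mem_nil, or_false, not_or, List.nodup_nil,
    not_false_eq_true, and_true] at hnd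
  obtain ⟨⟨n1, n2, n3, n4, n5⟩, ⟨n6, n7, n8, n9⟩, ⟨n10, n11, n12⟩, ⟨n13, n14⟩, n15⟩ := hnd
  have hMI : ∀ u ∈ M, u ∈ inn [p, b2, w2, b1, w1, z] c N := fun u hu => hMk.sub hu
  have hMf : ∀ u ∈ [p, b2, w2, b1, w1, z], u ∉ M := by
    intro u hu huM
    have h1 := hMI u huM
    unfold inn at h1
    exact (Finset.mem_sdiff.1 h1).2 (Finset.mem_union_left _ (List.mem_toFinset.2 hu))
  have hML : ∀ u ∈ M, u ∈ L.erase m := by
    intro u hu
    rw [← hlab]
    exact Finset.mem_union_left _ (hMI u hu)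
  have hmM : m ∉ M := fun hh => Finset.notMem_erase m L (hML m hh)
  have hmz : m ≠ z := (hne z (by simp)).symm
  have hmk := mk_insert (L := L) (w1 := w1) (w2 := w2) (m := m) (b1 := b1) (b2 := b2) (z := z) (p := p) hMk
    (fun hh => hmv (bl_sub hh)) g4 hmz
    (hne b1 (by simp)) (hne b2 (by simp)) (hMf z (by simp)) (hMf b1 (by simp)) (hMf b2 (by simp)) hmM (by
      intro u hu
      rcases Finset.mem_insert.1 hu with h1 | h1
      · rw [h1]; exact hm
      · exact Finset.mem_of_mem_erase (hML u h1))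
  refine ⟨b2, w2, b1, w1, rfl, rfl, hmv, Ne.symm n4, Ne.symm n2, n11, n9, hne b1 (by simp), hne b2 (by simp),
    n14, Ne.symm n7, hmz, hmM, g1, g2, g3, g4, ?_, hmk.1, hmk.2⟩
  rw [inn_root h, g5]
  ext u
  rw [Finset.mem_sdiff, Finset.mem_insert]
  constructor
  · rintro ⟨h1 | h1, h2⟩
    · rw [h1]; exact hm
    · have h3 : u ∈ vx [p, b2, w2, b1, w1, z] c N \ c.toFinset := Finset.mem_sdiff.2 ⟨h1, h2⟩
      rw [hlab'] at h3
      exact Finset.mem_of_mem_erase h3
  · intro hu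
    refine ⟨?_, fun hh => Finset.disjoint_left.1 hL hh hu⟩
    by_cases hum : u = m
    · exact Or.inl hum
    · right
      have h3 : u ∈ L.erase m := Finset.mem_erase.2 ⟨hum, hu⟩
      rw [← hlab'] at h3
      exact (Finset.mem_sdiff.1 h3).1

end Q2Aux

open Q2Aux

theorem root_C (x : ℝ≥0∞) {c : List ℕ} {p z : ℕ} (h : Rt c p z) (a b : ℕ) {L : Finset ℕ}
    (hL : Disjoint c.toFinset L) {m : ℕ} (hm : m ∈ L) :
    ∑' s : MP a (b + 1) c L p z (PC p z m), x ^ (wh s.1.1 ∩ L).card =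
      GWn x a b 5 c (L.erase m) p z := by
  have hbij : Set.BijOn (phC p z m) (GFn a b 5 c (L.erase m) p z) (MP a (b + 1) c L p z (PC p z m)) := by
    refine ⟨?_, ?_, ?_⟩
    · intro t ht
      obtain ⟨b2, w2, b1, w1, -, e2, -, n1, n2, n3, n4, n5, n6, n7, n8, -, hmM, -, g2, g3, -, g5, g6, g7⟩ :=
        facts h hL hm ht
      rw [e2]
      refine ⟨⟨⟨g2, g5, g6⟩, ?_, ?_⟩, ?_⟩
      · show uq (insert m t.2.2) (t.2.1 ∪ hexq p z w1 w2 m b1 b2) = a
        rw [g7]
        exact ht.1.2.2.2.2.1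
      · show (insert m t.2.2).card = b + 1
        rw [Finset.card_insert_of_notMem hmM, ht.1.2.2.2.2.2]
      · exact ⟨Finset.mem_insert_self _ _, w1, w2, b1, b2, g3, n1, n2, n3, n4, n5, n6, n7, n8⟩
    · intro t ht t' ht' hee
      obtain ⟨b2, w2, b1, w1, e1, e2, -, n1, n2, n3, n4, n5, n6, n7, n8, n9, hmM, g1, g2, g3, g4, -⟩ :=
        facts h hL hm ht
      obtain ⟨b2', w2', b1', w1', e1', e2', -, n1', n2', n3', n4', n5', n6', n7', n8', n9', hmM', g1', g2', g3',
        g4', -⟩ := facts h hL hm ht'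
      rw [e2, e2'] at hee
      have h1 : t.2.1 ∪ hexq p z w1 w2 m b1 b2 = t'.2.1 ∪ hexq p z w1' w2' m b1' b2' := congrArg Prod.fst hee
      have h2 : insert m t.2.2 = insert m t'.2.2 := congrArg Prod.snd hee
      have h3 : hexq p z w1 w2 m b1 b2 = hexq p z w1' w2' m b1' b2' := by
        rw [← g3, h1, g3']
      obtain ⟨k1, k2, -, k4, k5⟩ := hexq_inj h3 g4 n1 n2 n3 n9 n4 n5 n6 n1' n2' n3' n9' n4' n5' n6'
      have h4 : t.1 = t'.1 := by rw [e1, e1', k1, k2, k4, k5]
      have h5 : t.2.1 = t'.2.1 := by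
        have h6 : (t.2.1 ∪ hexq p z w1 w2 m b1 b2) \ hexq p z w1 w2 m b1 b2 = t.2.1 :=
          Finset.union_sdiff_cancel_right g1
        have h7 : (t'.2.1 ∪ hexq p z w1' w2' m b1' b2') \ hexq p z w1' w2' m b1' b2' = t'.2.1 :=
          Finset.union_sdiff_cancel_right g1'
        rw [← h6, ← h7, h1, h3]
      have h6 : t.2.2 = t'.2.2 := by
        rw [← Finset.erase_insert hmM, ← Finset.erase_insert hmM', h2]
      exact Prod.ext h4 (Prod.ext h5 h6)
    · rintro ⟨N, M⟩ hs
      obtain ⟨⟨⟨hF, hinn, hMk⟩, huq, hcard⟩, hmM, w1, w2, b1, b2, hX, n1, n2, n3, n4, n5, n6, n7, n8⟩ := hs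
      simp only at hF hinn hMk huq hcard hmM hX
      have hmc : m ∉ c := fun hh => Finset.disjoint_left.1 hL (List.mem_toFinset.2 hh) hm
      have hzc := h.mem.2.1
      have hmz : m ≠ z := fun hh => hmc (hh ▸ hzc)
      have hzL : z ∉ L := fun hh => Finset.disjoint_left.1 hL (List.mem_toFinset.2 hzc) hh
      have h3 : (hexq p z w1 w2 m b1 b2).card = 3 := by
        rw [← hX]
        exact hMk.three m hmM
      obtain ⟨g1, g2, g3⟩ := hF.remove_hex_C h.four hmc hmz hX h3 n1 n2 n3 n4 n5 n6 n7 n8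
      obtain ⟨-, -, k1, k2, k3⟩ := mk_remove (I := M.erase m) hMk hmM hX hzL n5 n6 (Finset.Subset.refl _)
      have hsub : hexq p z w1 w2 m b1 b2 ⊆ N := by
        rw [← hX]
        exact Finset.filter_subset _ _
      have hwh : ∀ u ∈ ({p, w1, w2} : Finset ℕ), u ∈ wh N := by
        intro u hu
        rw [← hexq_wh p z w1 w2 m b1 b2] at hu
        exact Finset.biUnion_subset_biUnion_of_subset_left _ hsub hu
      have hMw : ∀ u ∈ ({p, w1, w2} : Finset ℕ), u ∉ M := by
        intro u hu huM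
        exact Finset.disjoint_left.1 hF.col (Finset.mem_union_left _ (Finset.mem_union_left _ (hwh u hu)))
          (Finset.mem_union_left _ (Finset.mem_union_left _ (hMk.blk huM)))
      have hinn' := hinn
      rw [inn_root h] at hinn'
      have hI : M.erase m ⊆ inn [p, b2, w2, b1, w1, z] c (N \ hexq p z w1 w2 m b1 b2) := by
        intro u hu
        obtain ⟨hum, huM⟩ := Finset.mem_erase.1 hu
        have huL := hMk.sub huM
        have huv := huL
        rw [← hinn'] at huv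
        obtain ⟨hu1, hu2⟩ := Finset.mem_sdiff.1 huv
        rw [inn_eq_sdiff, g3, Finset.mem_sdiff, Finset.mem_sdiff, Finset.mem_singleton, Finset.mem_union, not_or]
        refine ⟨⟨hu1, hum⟩, ?_, hu2⟩
        rw [List.mem_toFinset]
        simp only [List.mem_cons, List.not_mem_nil, or_false, not_or]
        refine ⟨?_, ?_, ?_, ?_, ?_, ?_⟩
        · rintro rfl
          exact hMw _ (by simp) huM
        · rintro rfl
          exact k2 huM
        · rintro rfl
          exact hMw _ (by simp) huM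
        · rintro rfl
          exact k1 huM
        · rintro rfl
          exact hMw _ (by simp) huM
        · rintro rfl
          exact k3 huM
      obtain ⟨l1, l2, -⟩ := mk_remove hMk hmM hX hzL n5 n6 hI
      refine ⟨([p, b2, w2, b1, w1, z], (N \ hexq p z w1 w2 m b1 b2, M.erase m)), ⟨⟨rfl, g1, ?_, l1, ?_, ?_⟩, g2⟩, ?_⟩
      · show inn [p, b2, w2, b1, w1, z] c (N \ hexq p z w1 w2 m b1 b2) ∪
          ([p, b2, w2, b1, w1, z].toFinset \ c.toFinset) = L.erase m
        rw [lab_eq, g3, ← hinn']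
        ext u
        simp only [Finset.mem_sdiff, Finset.mem_singleton, Finset.mem_erase]
        tauto
      · show uq (M.erase m) (N \ hexq p z w1 w2 m b1 b2) = a
        rw [l2]
        exact huq
      · show (M.erase m).card = b
        rw [Finset.card_erase_of_mem hmM, hcard]
        rfl
      · show (N \ hexq p z w1 w2 m b1 b2 ∪ hexq p z w1 w2 m b1 b2, insert m (M.erase m)) = (N, M)
        rw [Finset.sdiff_union_of_subset hsub, Finset.insert_erase hmM]
  rw [GWn_eq, tsum_bijOn _ _ _ hbij (fun s => x ^ (wh s.1 ∩ L).card)]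
  refine tsum_congr fun t => ?_
  obtain ⟨b2, w2, b1, w1, e1, e2, hmv, -⟩ := facts h hL hm t.2
  have h1 : (wh (phC p z m t.1).1 ∩ L) = (wh t.1.2.1 ∪ pw true t.1.1) ∩ (L.erase m) := by
    rw [e2, e1]
    show wh (t.1.2.1 ∪ hexq p z w1 w2 m b1 b2) ∩ L = (wh t.1.2.1 ∪ pw true [p, b2, w2, b1, w1, z]) ∩ (L.erase m)
    rw [wh_union, hexq_wh]
    have h2 : pw true [p, b2, w2, b1, w1, z] = ({p, w1, w2} : Finset ℕ) := by
      simp only [pw, Bool.not_true, Bool.not_false, if_true, Bool.false_eq_true, if_false]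
      ext u
      simp only [Finset.mem_insert, Finset.mem_singleton, Finset.notMem_empty, or_false]
      tauto
    rw [h2]
    ext u
    simp only [Finset.mem_inter, Finset.mem_union, Finset.mem_erase]
    constructor
    · rintro ⟨h3, h4⟩
      refine ⟨h3, ?_, h4⟩
      rintro rfl
      rcases h3 with h3 | h3
      · exact hmv (wh_sub h3)
      · simp only [Finset.mem_insert, Finset.mem_singleton] at h3
        apply hmv
        apply fv_sub
        simp only [List.mem_cons, List.not_mem_nil, or_false]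
        tauto
    · rintro ⟨h3, -, h4⟩
      exact ⟨h3, h4⟩
  show x ^ (wh (phC p z m t.1).1 ∩ L).card = x ^ gx true (L.erase m) t.1
  rw [h1]
  rfl

end K5M
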