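import Pool.Agent.Lib.K5M.Q0

/-!
# K5M.Q3: cases B and D, one white vertex disappears

PROOF of `root_B`.  `tsum_bijOn` with
`phB p z m w : GFn a b 3 c ((L.erase m).erase w) p z → MP a (b + 1) c L p z (PB p z m w)`.
MapsTo: `t.1 = [p, b2, w2, z]` (`gf_three`); `m`, `w` are not vertices of the filling (its vertices are in `c` or in
`L` without `m`, `w`); `Fill.insert_hex_B1` with `w1 = w`.  Marks: `mk_insert` with `b1 = z`.
SurjOn: `Fill.remove_hex_B1` (card 3 because `qd N m = 3`), `mk_remove`; labels: `vx \ {m, w}`, and `w ∈ L`.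
InjOn: `N.filter (m ∈ q.2)` and `hexq_inj`; `N' = N \ hexq`, `M' = M.erase m`.
Weights: `wh N = wh N' ∪ {p, w, w2} = insert w (wh N' ∪ pw true t.1)`, `w ∈ L` is not a vertex of the smaller
filling: one factor `x`; `m` is not white; `uq` is the same, one mark more.
`root_D`: the same with `Fill.insert_hex_B2`, `Fill.remove_hex_B2`, `t.1 = [p, b1, w1, z]`, `w2 = w`.
-/

set_option autoImplicit false

namespace K5M

open Finset
open scoped ENNReal

namespace Q3Aux

/-- The common form of the maps `phB`, `phD`. -/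
def ph (m : ℕ) (X : ℕ → ℕ → Finset Quad) (t : Pr) : Finset Quad × Finset ℕ :=
  (t.2.1 ∪ X (t.1.getD 2 0) (t.1.getD 1 0), insert m t.2.2)

theorem sub_inn {f c : List ℕ} {N : Finset Quad} : inn f c N ⊆ vx f c N := by
  rw [inn_eq_sdiff]
  exact Finset.sdiff_subset

theorem root_gen (x : ℝ≥0∞) {c : List ℕ} {p z : ℕ} (h : Rt c p z) (a b : ℕ) {L : Finset ℕ}
    (hL : Disjoint c.toFinset L) {m w : ℕ} (hm : m ∈ L) (hw : w ∈ L.erase m)
    (X : ℕ → ℕ → Finset Quad) (PX : Finset Quad × Finset ℕ → Prop)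
    (hPX : ∀ s, PX s ↔ m ∈ s.2 ∧ ∃ w' b' : ℕ, s.1.filter (fun q => m ∈ q.2) = X w' b' ∧
      w ≠ p ∧ w' ≠ p ∧ w' ≠ w ∧ b' ≠ z ∧ b' ≠ m)
    (hins : ∀ (w' b' : ℕ) (N : Finset Quad), Fill true [p, b', w', z] c N → (p, z) ∉ EdS N →
      m ∉ vx [p, b', w', z] c N → w ∉ vx [p, b', w', z] c N →
      Disjoint N (X w' b') ∧ Fill true [p, z] c (N ∪ X w' b') ∧
      (N ∪ X w' b').filter (fun q => m ∈ q.2) = X w' b' ∧ (X w' b').card = 3 ∧
      vx [p, z] c (N ∪ X w' b') = insert m (insert w (vx [p, b', w', z] c N)))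
    (hrem : ∀ (w' b' : ℕ) (N : Finset Quad), Fill true [p, z] c N →
      N.filter (fun q => m ∈ q.2) = X w' b' → (X w' b').card = 3 → w ≠ p → w' ≠ p → w' ≠ w →
      b' ≠ z → b' ≠ m → Fill true [p, b', w', z] c (N \ X w' b') ∧
      (p, z) ∉ EdS (N \ X w' b') ∧
      vx [p, b', w', z] c (N \ X w' b') = vx [p, z] c N \ {m, w})
    (hinj : ∀ w' b' w'' b'' : ℕ, X w' b' = X w'' b'' → (X w' b').card = 3 → w ≠ p → w' ≠ p →
      w' ≠ w → b' ≠ z → b' ≠ m → w'' ≠ p → w'' ≠ w → b'' ≠ z → b'' ≠ m → w' = w'' ∧ b' = b'')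
    (hwh : ∀ w' b' : ℕ, wh (X w' b') = {p, w, w'})
    (hmr : ∀ (w' b' : ℕ) (I M : Finset ℕ) (N : Finset Quad), Mk L M N → m ∈ M →
      N.filter (fun q => m ∈ q.2) = X w' b' → b' ≠ m → M.erase m ⊆ I →
      Mk I (M.erase m) (N \ X w' b') ∧ uq (M.erase m) (N \ X w' b') = uq M N ∧ b' ∉ M ∧ z ∉ M)
    (hmi : ∀ (w' b' : ℕ) (I M : Finset ℕ) (N : Finset Quad), Mk I M N → m ∉ bl N →
      (X w' b').card = 3 → b' ≠ m → z ∉ M → b' ∉ M → m ∉ M → insert m M ⊆ L →
      Mk L (insert m M) (N ∪ X w' b') ∧ uq (insert m M) (N ∪ X w' b') = uq M N) :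
    ∑' s : MP a (b + 1) c L p z PX, x ^ (wh s.1.1 ∩ L).card =
      x * GWn x a b 3 c ((L.erase m).erase w) p z := by
  classical
  obtain ⟨hpc, hzc, hpz⟩ := h.mem
  have hwL : w ∈ L := Finset.mem_of_mem_erase hw
  have hwm : w ≠ m := Finset.ne_of_mem_erase hw
  have hcL : ∀ {v : ℕ}, v ∈ c → v ∉ L := fun {v} hv hv' =>
    Finset.disjoint_left.1 hL (List.mem_toFinset.2 hv) hv'
  have hmz : m ≠ z := fun e => hcL hzc (e ▸ hm)
  have hmc : m ∉ c.toFinset := fun hh => hcL (List.mem_toFinset.1 hh) hm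
  have hwc : w ∉ c.toFinset := fun hh => hcL (List.mem_toFinset.1 hh) hwL
  -- facts on the elements of the smaller set
  have hfac : ∀ t ∈ GFn a b 3 c ((L.erase m).erase w) p z, ∃ b' w' : ℕ, t.1 = [p, b', w', z] ∧
      Fill true [p, b', w', z] c t.2.1 ∧ (p, z) ∉ EdS t.2.1 ∧
      vx [p, b', w', z] c t.2.1 \ c.toFinset = (L.erase m).erase w ∧
      Mk (inn [p, b', w', z] c t.2.1) t.2.2 t.2.1 ∧ uq t.2.2 t.2.1 = a ∧ t.2.2.card = b ∧
      m ∉ vx [p, b', w', z] c t.2.1 ∧ w ∉ vx [p, b', w', z] c t.2.1 := by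
    rintro t ⟨ht, hE⟩
    obtain ⟨b', w', e⟩ := gf_three h ht
    obtain ⟨t1, t2, t3, t4, t5, t6⟩ := ht
    rw [e] at t2 t3 t4
    rw [lab_eq] at t3
    refine ⟨b', w', e, t2, hE, t3, t4, t5, t6, ?_, ?_⟩
    · intro hh
      have h1 : m ∈ vx [p, b', w', z] c t.2.1 \ c.toFinset := Finset.mem_sdiff.2 ⟨hh, hmc⟩
      rw [t3] at h1
      exact (Finset.mem_erase.1 (Finset.mem_of_mem_erase h1)).1 rfl
    · intro hh
      have h1 : w ∈ vx [p, b', w', z] c t.2.1 \ c.toFinset := Finset.mem_sdiff.2 ⟨hh, hwc⟩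
      rw [t3] at h1
      exact (Finset.mem_erase.1 h1).1 rfl
  have hfv : ∀ (b' w' : ℕ) (N : Finset Quad) (v : ℕ), v = p ∨ v = b' ∨ v = w' ∨ v = z →
      v ∈ vx [p, b', w', z] c N := by
    intro b' w' N v hv
    unfold vx
    simp only [Finset.mem_union, List.mem_toFinset, List.mem_cons, List.not_mem_nil, or_false]
    exact Or.inl (Or.inr hv)
  have hph : ∀ (t : Pr) (b' w' : ℕ), t.1 = [p, b', w', z] →
      ph m X t = (t.2.1 ∪ X w' b', insert m t.2.2) := by
    intro t b' w' e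
    unfold ph
    rw [e]
    rfl
  have hbij : Set.BijOn (ph m X) (GFn a b 3 c ((L.erase m).erase w) p z)
      (MP a (b + 1) c L p z PX) := by
    refine ⟨?_, ?_, ?_⟩
    · intro t ht
      obtain ⟨b', w', e, f1, f2, f3, f4, f5, f6, f7, f8⟩ := hfac t ht
      obtain ⟨r1, r2, r3, r4, r5⟩ := hins w' b' t.2.1 f1 f2 f7 f8
      have hnd := f1.nf
      simp only [List.nodup_cons, List.mem_cons, List.not_mem_nil, or_false, not_or,
        not_false_iff, List.nodup_nil, and_true] at hnd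
      obtain ⟨⟨d1, d2, d3⟩, ⟨d4, d5⟩, d6⟩ := hnd
      have hb'm : b' ≠ m := fun e' => f7 (hfv b' w' _ m (Or.inr (Or.inl e'.symm)))
      have hw'w : w' ≠ w := fun e' => f8 (hfv b' w' _ w (Or.inr (Or.inr (Or.inl e'.symm))))
      have hwp : w ≠ p := fun e' => f8 (hfv b' w' _ w (Or.inl e'))
      have hMI : t.2.2 ⊆ inn [p, b', w', z] c t.2.1 := f4.sub
      have hMv : ∀ v ∈ t.2.2, v ∈ vx [p, b', w', z] c t.2.1 ∧ v ≠ p ∧ v ≠ b' ∧ v ≠ w' ∧ v ≠ z ∧
          v ∉ c.toFinset := by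
        intro v hv
        have h1 := hMI hv
        rw [inn_eq_sdiff] at h1
        obtain ⟨h2, h3⟩ := Finset.mem_sdiff.1 h1
        simp only [Finset.mem_union, List.mem_toFinset, List.mem_cons, List.not_mem_nil, or_false,
          not_or] at h3
        exact ⟨h2, h3.1.1, h3.1.2.1, h3.1.2.2.1, h3.1.2.2.2, fun hh => h3.2 (List.mem_toFinset.1 hh)⟩
      have hmM : m ∉ t.2.2 := fun hh => f7 (hMv m hh).1
      have hML : insert m t.2.2 ⊆ L := by
        intro v hv
        rcases Finset.mem_insert.1 hv with rfl | hv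
        · exact hm
        · have h1 := hMv v hv
          have h2 : v ∈ vx [p, b', w', z] c t.2.1 \ c.toFinset :=
            Finset.mem_sdiff.2 ⟨h1.1, h1.2.2.2.2.2⟩
          rw [f3] at h2
          exact Finset.mem_of_mem_erase (Finset.mem_of_mem_erase h2)
      have hmb : m ∉ bl t.2.1 := by
        intro hh
        apply f7
        unfold vx
        simp only [Finset.mem_union]
        exact Or.inl (Or.inl (Or.inr hh))
      obtain ⟨k1, k2⟩ := hmi w' b' _ t.2.2 t.2.1 f4 hmb r4 hb'm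
        (fun hh => (hMv z hh).2.2.2.2.1 rfl) (fun hh => (hMv b' hh).2.2.1 rfl) hmM hML
      rw [hph t b' w' e]
      refine ⟨⟨⟨r2, ?_, k1⟩, ?_, ?_⟩, ?_⟩
      · show inn [p, z] c (t.2.1 ∪ X w' b') = L
        rw [inn_root h, r5, Finset.insert_sdiff_of_notMem _ hmc, Finset.insert_sdiff_of_notMem _ hwc,
          f3, Finset.insert_erase hw, Finset.insert_erase hm]
      · show uq (insert m t.2.2) (t.2.1 ∪ X w' b') = a
        rw [k2, f5]
      · show (insert m t.2.2).card = b + 1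
        rw [Finset.card_insert_of_notMem hmM, f6]
      · rw [hPX]
        exact ⟨Finset.mem_insert_self _ _, w', b', r3, hwp, Ne.symm d2, hw'w, d5, hb'm⟩
    · intro t ht t' ht' he
      obtain ⟨b', w', e, f1, f2, f3, f4, f5, f6, f7, f8⟩ := hfac t ht
      obtain ⟨b'', w'', e', g1, g2, g3, g4, g5, g6, g7, g8⟩ := hfac t' ht'
      obtain ⟨r1, r2, r3, r4, r5⟩ := hins w' b' t.2.1 f1 f2 f7 f8
      obtain ⟨s1, s2, s3, s4, s5⟩ := hins w'' b'' t'.2.1 g1 g2 g7 g8
      rw [hph t b' w' e, hph t' b'' w'' e'] at he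
      have he1 : t.2.1 ∪ X w' b' = t'.2.1 ∪ X w'' b'' := congrArg Prod.fst he
      have he2 : insert m t.2.2 = insert m t'.2.2 := congrArg Prod.snd he
      have hXX : X w' b' = X w'' b'' := by
        rw [← r3, ← s3, he1]
      have hnd := f1.nf
      simp only [List.nodup_cons, List.mem_cons, List.not_mem_nil, or_false, not_or,
        not_false_iff, List.nodup_nil, and_true] at hnd
      obtain ⟨⟨d1, d2, d3⟩, ⟨d4, d5⟩, d6⟩ := hnd
      have hnd' := g1.nf
      simp only [List.nodup_cons, List.mem_cons, List.not_mem_nil, or_false, not_or,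
        not_false_iff, List.nodup_nil, and_true] at hnd'
      obtain ⟨⟨c1, c2, c3⟩, ⟨c4, c5⟩, c6⟩ := hnd'
      obtain ⟨hww, hbb⟩ := hinj w' b' w'' b'' hXX r4 (fun e' => f8 (hfv b' w' _ w (Or.inl e')))
        (Ne.symm d2) (fun e' => f8 (hfv b' w' _ w (Or.inr (Or.inr (Or.inl e'.symm))))) d5
        (fun e' => f7 (hfv b' w' _ m (Or.inr (Or.inl e'.symm))))
        (Ne.symm c2) (fun e' => g8 (hfv b'' w'' _ w (Or.inr (Or.inr (Or.inl e'.symm))))) c5
        (fun e' => g7 (hfv b'' w'' _ m (Or.inr (Or.inl e'.symm))))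
      have hN : t.2.1 = t'.2.1 := by
        have h1 : (t.2.1 ∪ X w' b') \ X w' b' = t.2.1 := by
          rw [Finset.union_sdiff_right]
          exact Finset.sdiff_eq_self_of_disjoint r1
        have h2 : (t'.2.1 ∪ X w'' b'') \ X w'' b'' = t'.2.1 := by
          rw [Finset.union_sdiff_right]
          exact Finset.sdiff_eq_self_of_disjoint s1
        rw [← h1, ← h2, he1, hXX]
      have hmM : m ∉ t.2.2 := fun hh => f7 (sub_inn (f4.sub hh))
      have hmM' : m ∉ t'.2.2 := fun hh => g7 (sub_inn (g4.sub hh))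
      have hM : t.2.2 = t'.2.2 := by
        rw [← Finset.erase_insert hmM, ← Finset.erase_insert hmM', he2]
      refine Prod.ext ?_ (Prod.ext hN hM)
      rw [e, e', hww, hbb]
    · rintro s ⟨⟨⟨hF, hinn, hMk⟩, huq, hcard⟩, hP⟩
      rw [hPX] at hP
      obtain ⟨hmM, w', b', hX, hwp, hw'p, hw'w, hb'z, hb'm⟩ := hP
      have hc3 : (X w' b').card = 3 := by
        rw [← hX]
        exact hMk.three m hmM
      obtain ⟨r1, r2, r3⟩ := hrem w' b' s.1 hF hX hc3 hwp hw'p hw'w hb'z hb'm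
      have hXN : X w' b' ⊆ s.1 := by
        rw [← hX]
        exact Finset.filter_subset _ _
      have hwhN : ∀ v, v = p ∨ v = w ∨ v = w' → v ∈ wh s.1 := by
        intro v hv
        have h1 : v ∈ wh (X w' b') := by
          rw [hwh]
          simpa using hv
        exact Finset.biUnion_subset_biUnion_of_subset_left _ hXN h1
      have hcol : ∀ v, v ∈ s.2 → v ∉ wh s.1 := by
        intro v hv hv'
        have h1 := hMk.blk hv
        exact Finset.disjoint_left.1 hF.col (Finset.mem_union_left _ (Finset.mem_union_left _ hv'))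
          (Finset.mem_union_left _ (Finset.mem_union_left _ h1))
      obtain ⟨-, -, k1, k2⟩ := hmr w' b' (s.2.erase m) s.2 s.1 hMk hmM hX hb'm (Finset.Subset.refl _)
      have hI : s.2.erase m ⊆ inn [p, b', w', z] c (s.1 \ X w' b') := by
        intro v hv
        obtain ⟨hvm, hvM⟩ := Finset.mem_erase.1 hv
        have hvL : v ∈ L := hMk.sub hvM
        have hvc : v ∉ c := fun hh => hcL hh hvL
        have hvx : v ∈ vx [p, z] c s.1 := by
          apply sub_inn
          rw [hinn]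
          exact hvL
        rw [inn_eq_sdiff, r3]
        have hvw : v ≠ w := fun e' => hcol v hvM (hwhN v (Or.inr (Or.inl e')))
        have hvw' : v ≠ w' := fun e' => hcol v hvM (hwhN v (Or.inr (Or.inr e')))
        have hvp : v ≠ p := fun e' => hcol v hvM (hwhN v (Or.inl e'))
        have hvb : v ≠ b' := fun e' => k1 (e' ▸ hvM)
        have hvz : v ≠ z := fun e' => k2 (e' ▸ hvM)
        simp only [Finset.mem_sdiff, Finset.mem_union, List.mem_toFinset, List.mem_cons,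
          List.not_mem_nil, or_false, not_or, Finset.mem_insert, Finset.mem_singleton]
        exact ⟨⟨hvx, hvm, hvw⟩, ⟨hvp, hvb, hvw', hvz⟩, hvc⟩
      obtain ⟨k3, k4, -, -⟩ := hmr w' b' _ s.2 s.1 hMk hmM hX hb'm hI
      refine ⟨([p, b', w', z], (s.1 \ X w' b', s.2.erase m)), ⟨⟨rfl, r1, ?_, k3, ?_, ?_⟩, r2⟩, ?_⟩
      · show inn [p, b', w', z] c (s.1 \ X w' b') ∪ ([p, b', w', z].toFinset \ c.toFinset) =
          (L.erase m).erase w
        rw [lab_eq, r3, sdiff_right_comm, ← inn_root h, hinn]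
        ext v
        simp only [Finset.mem_sdiff, Finset.mem_insert, Finset.mem_singleton, Finset.mem_erase]
        tauto
      · show uq (s.2.erase m) (s.1 \ X w' b') = a
        rw [k4, huq]
      · show (s.2.erase m).card = b
        rw [Finset.card_erase_of_mem hmM, hcard]
        rfl
      · rw [hph _ b' w' rfl]
        show (s.1 \ X w' b' ∪ X w' b', insert m (s.2.erase m)) = s
        rw [Finset.sdiff_union_of_subset hXN, Finset.insert_erase hmM]
  rw [tsum_bijOn _ _ _ hbij (fun s => x ^ (wh s.1 ∩ L).card), GWn_eq, ← ENNReal.tsum_mul_left]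
  refine tsum_congr fun t => ?_
  obtain ⟨b', w', e, f1, f2, f3, f4, f5, f6, f7, f8⟩ := hfac t.1 t.2
  show x ^ (wh (ph m X t.1).1 ∩ L).card = x * x ^ gx true ((L.erase m).erase w) t.1
  rw [hph t.1 b' w' e, ← pow_succ']
  congr 1
  unfold gx
  rw [e]
  have hpw : pw true [p, b', w', z] = {p, w'} := rfl
  rw [hpw, wh_union, hwh]
  have hmS : m ∉ wh t.1.2.1 ∪ {p, w'} := by
    intro hh
    apply f7
    rcases Finset.mem_union.1 hh with hh | hh
    · unfold vx
      simp only [Finset.mem_union]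
      exact Or.inl (Or.inl (Or.inl hh))
    · refine hfv b' w' _ m ?_
      simp only [Finset.mem_insert, Finset.mem_singleton] at hh
      tauto
  have hwS : w ∉ wh t.1.2.1 ∪ {p, w'} := by
    intro hh
    apply f8
    rcases Finset.mem_union.1 hh with hh | hh
    · unfold vx
      simp only [Finset.mem_union]
      exact Or.inl (Or.inl (Or.inl hh))
    · refine hfv b' w' _ w ?_
      simp only [Finset.mem_insert, Finset.mem_singleton] at hh
      tauto
  have hset : (wh t.1.2.1 ∪ {p, w, w'}) ∩ L =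
      insert w ((wh t.1.2.1 ∪ {p, w'}) ∩ (L.erase m).erase w) := by
    ext v
    simp only [Finset.mem_inter, Finset.mem_union, Finset.mem_insert, Finset.mem_singleton,
      Finset.mem_erase]
    simp only [Finset.mem_union, Finset.mem_insert, Finset.mem_singleton, not_or] at hmS hwS
    constructor
    · rintro ⟨h1, h2⟩
      by_cases hv : v = w
      · exact Or.inl hv
      · right
        refine ⟨by tauto, hv, ?_, h2⟩
        rintro rfl
        tauto
    · rintro (rfl | ⟨h1, h2, h3, h4⟩)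
      · exact ⟨by tauto, hwL⟩
      · exact ⟨by tauto, h4⟩
  rw [hset, Finset.card_insert_of_notMem]
  intro hh
  exact (Finset.mem_erase.1 (Finset.mem_inter.1 hh).2).1 rfl

end Q3Aux

open Q3Aux

theorem root_B (x : ℝ≥0∞) {c : List ℕ} {p z : ℕ} (h : Rt c p z) (a b : ℕ) {L : Finset ℕ}
    (hL : Disjoint c.toFinset L) {m w : ℕ} (hm : m ∈ L) (hw : w ∈ L.erase m) :
    ∑' s : MP a (b + 1) c L p z (PB p z m w), x ^ (wh s.1.1 ∩ L).card =
      x * GWn x a b 3 c ((L.erase m).erase w) p z := by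
  obtain ⟨hpc, hzc, hpz⟩ := h.mem
  have hmL : m ∉ c := fun hh => Finset.disjoint_left.1 hL (List.mem_toFinset.2 hh) hm
  have hzL : z ∉ L := fun hh => Finset.disjoint_left.1 hL (List.mem_toFinset.2 hzc) hh
  have hmz : m ≠ z := fun e => hzL (e ▸ hm)
  have hmw : m ≠ w := fun e => (Finset.mem_erase.1 hw).1 e.symm
  refine root_gen x h a b hL hm hw (fun w' b' => hexq p z w w' m z b') (PB p z m w) ?_ ?_ ?_ ?_ ?_ ?_ ?_
  · intro s
    exact Iff.rfl
  · intro w' b' N h1 h2 h3 h4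
    exact h1.insert_hex_B1 h.four h2 h3 h4 hmw
  · intro w' b' N h1 hX h3 k1 k2 k3 k4 k5
    exact h1.remove_hex_B1 h.four hmL hmz hX h3 k1 k2 k3 k4 k5
  · intro w' b' w'' b'' he h3 k1 k2 k3 k4 k5 l2 l3 l4 l5
    have := hexq_inj he h3 k1 k2 k3 hmz k4 hmz.symm k5 k1 l2 l3 hmz l4 hmz.symm l5
    exact ⟨this.2.1, this.2.2.2.2⟩
  · intro w' b'
    exact hexq_wh _ _ _ _ _ _ _
  · intro w' b' I M N h1 h2 h3 h4 h5
    obtain ⟨k1, k2, k3, k4, k5⟩ := mk_remove h1 h2 h3 hzL hmz.symm h4 h5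
    exact ⟨k1, k2, k4, k5⟩
  · intro w' b' I M N h1 h2 h3 h4 h5 h6 h7 h8
    exact mk_insert h1 h2 h3 hmz hmz.symm h4 h5 h5 h6 h7 h8

theorem root_D (x : ℝ≥0∞) {c : List ℕ} {p z : ℕ} (h : Rt c p z) (a b : ℕ) {L : Finset ℕ}
    (hL : Disjoint c.toFinset L) {m w : ℕ} (hm : m ∈ L) (hw : w ∈ L.erase m) :
    ∑' s : MP a (b + 1) c L p z (PD p z m w), x ^ (wh s.1.1 ∩ L).card =
      x * GWn x a b 3 c ((L.erase m).erase w) p z := by
  obtain ⟨hpc, hzc, hpz⟩ := h.mem
  have hmL : m ∉ c := fun hh => Finset.disjoint_left.1 hL (List.mem_toFinset.2 hh) hm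
  have hzL : z ∉ L := fun hh => Finset.disjoint_left.1 hL (List.mem_toFinset.2 hzc) hh
  have hmz : m ≠ z := fun e => hzL (e ▸ hm)
  have hmw : m ≠ w := fun e => (Finset.mem_erase.1 hw).1 e.symm
  refine root_gen x h a b hL hm hw (fun w' b' => hexq p z w' w m b' b') (PD p z m w) ?_ ?_ ?_ ?_ ?_ ?_ ?_
  · intro s
    constructor
    · rintro ⟨h1, w1, b1, h2, h3, h4, h5, h6, h7⟩
      exact ⟨h1, w1, b1, h2, h4, h3, h5.symm, h6, h7⟩
    · rintro ⟨h1, w1, b1, h2, h4, h3, h5, h6, h7⟩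
      exact ⟨h1, w1, b1, h2, h3, h4, h5.symm, h6, h7⟩
  · intro w' b' N h1 h2 h3 h4
    exact h1.insert_hex_B2 h.four h2 h3 h4 hmw
  · intro w' b' N h1 hX h3 k1 k2 k3 k4 k5
    exact h1.remove_hex_B2 h.four hmL hmz hX h3 k2 k1 k3.symm k4 k5
  · intro w' b' w'' b'' he h3 k1 k2 k3 k4 k5 l2 l3 l4 l5
    have := hexq_inj he h3 k2 k1 k3.symm hmz k4 k5 k5 l2 k1 l3.symm hmz l4 l5 l5
    exact ⟨this.1, this.2.2.2.2⟩
  · intro w' b'
    show wh (hexq p z w' w m b' b') = {p, w, w'}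
    rw [hexq_wh, Finset.pair_comm w' w]
  · intro w' b' I M N h1 h2 h3 h4 h5
    obtain ⟨k1, k2, k3, k4, k5⟩ := mk_remove h1 h2 h3 hzL h4 h4 h5
    exact ⟨k1, k2, k4, k5⟩
  · intro w' b' I M N h1 h2 h3 h4 h5 h6 h7 h8
    exact mk_insert h1 h2 h3 hmz h4 h4 h5 h6 h6 h7 h8

end K5M
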