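import Pool.Agent.Lib.K5M.Q1
import Pool.Agent.Lib.K5M.Q2
import Pool.Agent.Lib.K5M.Q3

/-!
# K5M.Q4: the recursion at the root edge

PROOF of `FWg_root`.  Let `(N, M) ∈ MFillg a b true [p, z] c L`.  By `Fill.root_quad` there is exactly one quad `q`
at the edge `(p, z)`, `q = ({p, w1}, {b, z})`.  If `b ∉ M` it is in case A and no other case (`z ∉ M` as `z ∉ L`; in
the cases C, B, D the quad `({p, w1}, {m, z})` is at `(p, z)` and `m ∈ M`).  If `m := b ∈ M`: `Fill.hex_quads` (`m ∈ L`,
so `m ∉ c`; `qd N m = 3`) gives `w2, b1, b2`; if `b1 ≠ z`, `b1 ≠ b2` it is in case C for `m`, if `b1 = z` in case B for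
`(m, w1)`, and `w1 ∈ L` (by `remove_hex_B1` the vertex `w1` is not a vertex of the smaller filling, so not on `c`, and
it is a vertex of `N`), if `b1 = b2` in case D for `(m, w2)`.  `m` is unique: in the cases C, B, D for `m'` the quad
`({p, w1'}, {m', z})` is in `N` and at the edge `(p, z)`, so it is `q`.  `hexq_inj` shows that the cases exclude each
other and that `w` is unique.  So the set is the disjoint union of the sets of the four cases; sum.
If `b = 0` then `M` is empty and only case A occurs; `root_A_zero` for `a = 0`.  (`tsum_decomp` with an index type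
for the cases, or a union of pairwise disjoint sets.)
-/

set_option autoImplicit false

namespace K5M

open Finset
open scoped ENNReal

namespace Q4Aux

/-- Exactly one of the four cases. -/
inductive Case (p z : ℕ) (L : Finset ℕ) (s : Finset Quad × Finset ℕ) : Prop
  | A (h : PA p z s) (hC : ∀ m, ¬ PC p z m s) (hB : ∀ m w, ¬ PB p z m w s)
      (hD : ∀ m w, ¬ PD p z m w s)
  | C (h : ¬ PA p z s) (m : ℕ) (hm : m ∈ L) (hC : ∀ m', PC p z m' s ↔ m' = m)
      (hB : ∀ m w, ¬ PB p z m w s) (hD : ∀ m w, ¬ PD p z m w s)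
  | B (h : ¬ PA p z s) (m w : ℕ) (hm : m ∈ L) (hw : w ∈ L.erase m) (hC : ∀ m, ¬ PC p z m s)
      (hB : ∀ m' w', PB p z m' w' s ↔ m' = m ∧ w' = w) (hD : ∀ m w, ¬ PD p z m w s)
  | D (h : ¬ PA p z s) (m w : ℕ) (hm : m ∈ L) (hw : w ∈ L.erase m) (hC : ∀ m, ¬ PC p z m s)
      (hB : ∀ m w, ¬ PB p z m w s) (hD : ∀ m' w', PD p z m' w' s ↔ m' = m ∧ w' = w)

theorem pair_cancel {a b z : ℕ} (h : ({a, z} : Finset ℕ) = {b, z}) (ha : a ≠ z) : a = b := by
  have h1 : a ∈ ({b, z} : Finset ℕ) := by
    rw [← h]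
    exact Finset.mem_insert_self _ _
  rcases Finset.mem_insert.mp h1 with h2 | h2
  · exact h2
  · exact absurd (Finset.mem_singleton.mp h2) ha

theorem case {c : List ℕ} {p z : ℕ} (h : Rt c p z) {a b : ℕ} {L : Finset ℕ}
    (hL : Disjoint c.toFinset L) {s : Finset Quad × Finset ℕ}
    (hs : s ∈ MFillg a b true [p, z] c L) : Case p z L s := by
  obtain ⟨⟨hF, hI, hM⟩, -, -⟩ := hs
  obtain ⟨hpc, hzc, hpz⟩ := h.mem
  have hLc : ∀ v, v ∈ L → v ∉ c := fun v hv hvc =>
    Finset.disjoint_left.mp hL (List.mem_toFinset.mpr hvc) hv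
  have hzM : ∀ m, m ∈ s.2 → m ≠ z := fun m hm e => hLc m (hM.sub hm) (e ▸ hzc)
  obtain ⟨w, b0, hwp, hbz, hq, huniq⟩ := hF.root_quad h.four
  -- the mark of a hexagon at the root edge
  have key : ∀ m w1 w2 b1 b2, m ∈ s.2 →
      s.1.filter (fun q => m ∈ q.2) = hexq p z w1 w2 m b1 b2 → m = b0 := by
    intro m w1 w2 b1 b2 hm hX
    have h1 : (({p, w1}, {m, z}) : Quad) ∈ s.1.filter (fun q => m ∈ q.2) := by
      rw [hX]
      unfold hexq
      exact Finset.mem_insert_self _ _
    have h2 := huniq _ (Finset.mem_filter.mp h1).1 (by simp [ed])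
    exact pair_cancel (Prod.ext_iff.mp h2).2 (hzM m hm)
  by_cases hb : b0 ∈ s.2
  · have hA : ¬ PA p z s := by
      intro hA
      have := hA _ hq (by simp [ed])
      exact Finset.disjoint_left.mp this (Finset.mem_insert_self _ _) hb
    have hmL := hM.sub hb
    have hmc := hLc _ hmL
    obtain ⟨w2, b1, b2, e1, e2, e3, e4, e5, hX, h3⟩ :=
      hF.hex_quads h.four hmc (hM.three _ hb) hwp hbz hq
    -- comparison with another hexagon
    have cmp : ∀ m' w1' w2' b1' b2', m' ∈ s.2 →
        s.1.filter (fun q => m' ∈ q.2) = hexq p z w1' w2' m' b1' b2' → w1' ≠ p → w2' ≠ p →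
        w2' ≠ w1' → b2' ≠ z → b1' ≠ m' → b2' ≠ m' →
        m' = b0 ∧ w1' = w ∧ w2' = w2 ∧ b1' = b1 ∧ b2' = b2 := by
      intro m' w1' w2' b1' b2' hm' hX' d1 d2 d3 d4 d5 d6
      have hm0 := key m' w1' w2' b1' b2' hm' hX'
      subst hm0
      obtain ⟨c1, c2, c3, c4, c5⟩ := hexq_inj (hX.symm.trans hX') h3 hwp e1 e2 hbz e5 e3 e4
        d1 d2 d3 hbz d4 d5 d6
      exact ⟨rfl, c1.symm, c2.symm, c4.symm, c5.symm⟩
    have cC : ∀ m', PC p z m' s → m' = b0 ∧ b1 ≠ z ∧ b1 ≠ b2 := by
      rintro m' ⟨hm', w1', w2', b1', b2', hX', d1, d2, d3, d4, d5, d6, d7, d8⟩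
      obtain ⟨c1, -, -, c4, c5⟩ := cmp m' w1' w2' b1' b2' hm' hX' d1 d2 d3 d4 d5 d6
      rw [← c4, ← c5]
      exact ⟨c1, d7, d8⟩
    have cB : ∀ m' w', PB p z m' w' s → m' = b0 ∧ w' = w ∧ b1 = z := by
      rintro m' w' ⟨hm', w2', b2', hX', d1, d2, d3, d4, d5⟩
      obtain ⟨c1, c2, -, c4, -⟩ := cmp m' w' w2' z b2' hm' hX' d1 d2 d3 d4 (hzM m' hm').symm d5
      exact ⟨c1, c2, c4.symm⟩
    have cD : ∀ m' w', PD p z m' w' s → m' = b0 ∧ w' = w2 ∧ b1 = b2 ∧ b1 ≠ z := by
      rintro m' w' ⟨hm', w1', b1', hX', d1, d2, d3, d4, d5⟩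
      obtain ⟨c1, -, c3, c4, c5⟩ := cmp m' w1' w' b1' b1' hm' hX' d1 d2 d3 d4 d5 d5
      exact ⟨c1, c3, c4.symm.trans c5, c4 ▸ d4⟩
    have hwne : ∀ u v, u ∈ wh s.1 → v ∈ bl s.1 → u ≠ v := by
      intro u v hu hv e
      subst e
      exact Finset.disjoint_left.mp hF.col
        (Finset.mem_union_left _ (Finset.mem_union_left _ hu))
        (Finset.mem_union_left _ (Finset.mem_union_left _ hv))
    have hsub : ∀ q, q ∈ hexq p z w w2 b0 b1 b2 → q ∈ s.1 := by
      intro q hq'
      rw [← hX] at hq'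
      exact (Finset.mem_filter.mp hq').1
    have hww : w ∈ wh s.1 := Finset.mem_biUnion.mpr ⟨_, hq, by simp⟩
    have hww2 : w2 ∈ wh s.1 := Finset.mem_biUnion.mpr ⟨({w2, p}, {b0, b2}), hsub _ (by
      unfold hexq
      simp), by simp⟩
    have hmbl : b0 ∈ bl s.1 := Finset.mem_biUnion.mpr ⟨_, hq, by simp⟩
    have hin : ∀ u, u ∈ wh s.1 → u ∉ c → u ≠ b0 → u ∈ L.erase b0 := by
      intro u hu huc hub
      refine Finset.mem_erase.mpr ⟨hub, ?_⟩
      rw [← hI, inn_root h]
      refine Finset.mem_sdiff.mpr ⟨?_, fun hh => huc (List.mem_toFinset.mp hh)⟩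
      unfold vx
      exact Finset.mem_union_left _ (Finset.mem_union_left _ (Finset.mem_union_left _ hu))
    have hcvx : ∀ (f : List ℕ) (N : Finset Quad) (u : ℕ), u ∈ c → u ∈ vx f c N := by
      intro f N u hu
      unfold vx
      exact Finset.mem_union_right _ (List.mem_toFinset.mpr hu)
    by_cases hbz1 : b1 = z
    · subst hbz1
      have hB : PB p b1 b0 w s := ⟨hb, w2, b2, hX, hwp, e1, e2, e5, e4⟩
      refine Case.B hA b0 w hmL (hin w hww ?_ (hwne w b0 hww hmbl)) ?_ ?_ ?_
      · intro hwc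
        have h5 := (hF.remove_hex_B1 h.four hmc hbz hX h3 hwp e1 e2 e5 e4).2.2
        have h6 := hcvx [p, b2, w2, b1] (s.1 \ hexq p b1 w w2 b0 b1 b2) w hwc
        rw [h5] at h6
        exact (Finset.mem_sdiff.mp h6).2 (by simp)
      · intro m' hC
        exact (cC m' hC).2.1 rfl
      · intro m' w'
        constructor
        · intro hh
          exact ⟨(cB m' w' hh).1, (cB m' w' hh).2.1⟩
        · rintro ⟨rfl, rfl⟩
          exact hB
      · intro m' w' hh
        exact (cD m' w' hh).2.2.2 rfl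
    · by_cases hb12 : b1 = b2
      · subst hb12
        have hD : PD p z b0 w2 s := ⟨hb, w, b1, hX, hwp, e1, e2, e5, e4⟩
        refine Case.D hA b0 w2 hmL (hin w2 hww2 ?_ (hwne w2 b0 hww2 hmbl)) ?_ ?_ ?_
        · intro hwc
          have h5 := (hF.remove_hex_B2 h.four hmc hbz hX h3 hwp e1 e2 e5 e4).2.2
          have h6 := hcvx [p, b1, w, z] (s.1 \ hexq p z w w2 b0 b1 b1) w2 hwc
          rw [h5] at h6
          exact (Finset.mem_sdiff.mp h6).2 (by simp)
        · intro m' hC
          exact (cC m' hC).2.2 rfl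
        · intro m' w' hh
          exact hbz1 (cB m' w' hh).2.2
        · intro m' w'
          constructor
          · intro hh
            exact ⟨(cD m' w' hh).1, (cD m' w' hh).2.1⟩
          · rintro ⟨rfl, rfl⟩
            exact hD
      · have hC : PC p z b0 s :=
          ⟨hb, w, w2, b1, b2, hX, hwp, e1, e2, e5, e3, e4, hbz1, hb12⟩
        refine Case.C hA b0 hmL ?_ ?_ ?_
        · intro m'
          constructor
          · intro hh
            exact (cC m' hh).1
          · rintro rfl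
            exact hC
        · intro m' w' hh
          exact hbz1 (cB m' w' hh).2.2
        · intro m' w' hh
          exact hb12 (cD m' w' hh).2.2.1
  · refine Case.A ?_ ?_ ?_ ?_
    · intro q hqN hqe
      rw [huniq q hqN hqe]
      rw [Finset.disjoint_left]
      intro v hv hvM
      rcases Finset.mem_insert.mp hv with e | e
      · exact hb (e ▸ hvM)
      · exact hzM v hvM (Finset.mem_singleton.mp e)
    · rintro m ⟨hm, w1, w2, b1, b2, hX, -⟩
      exact hb (key m w1 w2 b1 b2 hm hX ▸ hm)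
    · rintro m w' ⟨hm, w2, b2, hX, -⟩
      exact hb (key m w' w2 z b2 hm hX ▸ hm)
    · rintro m w' ⟨hm, w1, b1, hX, -⟩
      exact hb (key m w1 w' b1 b1 hm hX ▸ hm)

open Classical in
/-- The pointwise identity. -/
theorem point {c : List ℕ} {p z : ℕ} (h : Rt c p z) {a b : ℕ} {L : Finset ℕ}
    (hL : Disjoint c.toFinset L) (s : Finset Quad × Finset ℕ)
    (f : Finset Quad × Finset ℕ → ℝ≥0∞) :
    (MFillg a b true [p, z] c L).indicator f s =
      (MP a b c L p z (PA p z)).indicator f s +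
      (∑ m ∈ L, (MP a b c L p z (PC p z m)).indicator f s +
        (∑ m ∈ L, ∑ w ∈ L.erase m, (MP a b c L p z (PB p z m w)).indicator f s +
          ∑ m ∈ L, ∑ w ∈ L.erase m, (MP a b c L p z (PD p z m w)).indicator f s)) := by
  have hind : ∀ P : Finset Quad × Finset ℕ → Prop, s ∈ MFillg a b true [p, z] c L →
      (MP a b c L p z P).indicator f s = if P s then f s else 0 := by
    intro P hs
    rw [Set.indicator_apply]
    refine if_congr ?_ rfl rfl
    exact ⟨fun hh => hh.2, fun hh => ⟨hs, hh⟩⟩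
  by_cases hs : s ∈ MFillg a b true [p, z] c L
  · rw [Set.indicator_of_mem hs]
    simp only [hind _ hs]
    rcases case h hL hs with ⟨hA, hC, hB, hD⟩ | ⟨hA, m, hm, hC, hB, hD⟩ |
      ⟨hA, m, w, hm, hw, hC, hB, hD⟩ | ⟨hA, m, w, hm, hw, hC, hB, hD⟩
    · simp only [hA, hC, hB, hD, if_true, if_false, Finset.sum_const_zero, add_zero]
    · simp only [hA, hC, hB, hD, if_false, Finset.sum_const_zero, add_zero, zero_add,
        Finset.sum_ite_eq', hm, if_true]
    · simp only [hA, hC, hB, hD, if_false, Finset.sum_const_zero, add_zero, zero_add]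
      rw [Finset.sum_eq_single m]
      · rw [Finset.sum_eq_single w]
        · simp
        · intro w' _ hw'
          simp [hw']
        · intro hh
          exact absurd hw hh
      · intro m' _ hm'
        simp [hm']
      · intro hh
        exact absurd hm hh
    · simp only [hA, hC, hB, hD, if_false, Finset.sum_const_zero, add_zero, zero_add]
      rw [Finset.sum_eq_single m]
      · rw [Finset.sum_eq_single w]
        · simp
        · intro w' _ hw'
          simp [hw']
        · intro hh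
          exact absurd hw hh
      · intro m' _ hm'
        simp [hm']
      · intro hh
        exact absurd hm hh
  · have h0 : ∀ P : Finset Quad × Finset ℕ → Prop,
        (MP a b c L p z P).indicator f s = 0 := by
      intro P
      exact Set.indicator_of_notMem (fun hh => hs hh.1) f
    rw [Set.indicator_of_notMem hs]
    simp only [h0, Finset.sum_const_zero, add_zero]

/-- The sum over the disks, in four cases. -/
theorem total {c : List ℕ} {p z : ℕ} (h : Rt c p z) (a b : ℕ) {L : Finset ℕ}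
    (hL : Disjoint c.toFinset L) (f : Finset Quad × Finset ℕ → ℝ≥0∞) :
    ∑' s : MFillg a b true [p, z] c L, f s =
      ∑' s : MP a b c L p z (PA p z), f s +
      (∑ m ∈ L, ∑' s : MP a b c L p z (PC p z m), f s +
        (∑ m ∈ L, ∑ w ∈ L.erase m, ∑' s : MP a b c L p z (PB p z m w), f s +
          ∑ m ∈ L, ∑ w ∈ L.erase m, ∑' s : MP a b c L p z (PD p z m w), f s)) := by
  simp only [_root_.tsum_subtype]
  rw [tsum_congr (fun s => point h hL s f), ENNReal.tsum_add, ENNReal.tsum_add, ENNReal.tsum_add]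
  congr 1
  congr 1
  · rw [Summable.tsum_finsetSum (fun _ _ => ENNReal.summable)]
  congr 1
  · rw [Summable.tsum_finsetSum (fun _ _ => ENNReal.summable)]
    refine Finset.sum_congr rfl fun m _ => ?_
    rw [Summable.tsum_finsetSum (fun _ _ => ENNReal.summable)]
  · rw [Summable.tsum_finsetSum (fun _ _ => ENNReal.summable)]
    refine Finset.sum_congr rfl fun m _ => ?_
    rw [Summable.tsum_finsetSum (fun _ _ => ENNReal.summable)]

/-- No marks: only case A. -/
theorem empty_of_zero {c : List ℕ} {p z : ℕ} {a : ℕ} {L : Finset ℕ}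
    {P : Finset Quad × Finset ℕ → Prop} (hP : ∀ s, P s → ∃ m, m ∈ s.2)
    (f : Finset Quad × Finset ℕ → ℝ≥0∞) :
    ∑' s : MP a 0 c L p z P, f s = 0 := by
  have : MP a 0 c L p z P = ∅ := by
    rw [Set.eq_empty_iff_forall_notMem]
    rintro s ⟨⟨-, -, h0⟩, hs⟩
    obtain ⟨m, hm⟩ := hP s hs
    rw [Finset.card_eq_zero.mp h0] at hm
    exact absurd hm (Finset.notMem_empty m)
  rw [_root_.tsum_subtype, this]
  simp

end Q4Aux

open Q4Aux

variable (x : ℝ≥0∞)

theorem FWg_root {c : List ℕ} {p z : ℕ} (h : Rt c p z) (a b : ℕ) {L : Finset ℕ}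
    (hL : Disjoint c.toFinset L) :
    FWg x a b true [p, z] c L = (if a = 0 then 0 else GWn x (a - 1) b 3 c L p z) +
      if b = 0 then 0 else (∑ m ∈ L, GWn x a (b - 1) 5 c (L.erase m) p z +
        (∑ m ∈ L, ∑ w ∈ L.erase m, x * GWn x a (b - 1) 3 c ((L.erase m).erase w) p z +
          ∑ m ∈ L, ∑ w ∈ L.erase m, x * GWn x a (b - 1) 3 c ((L.erase m).erase w) p z)) := by
  have h1 := total h a b hL (fun s => x ^ (wh s.1 ∩ L).card)
  have h2 : FWg x a b true [p, z] c L =
      ∑' s : MFillg a b true [p, z] c L, (fun s => x ^ (wh s.1 ∩ L).card) s.1 := rfl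
  rw [h2, h1]
  congr 1
  · rcases a with _ | a
    · rw [if_pos rfl]
      exact root_A_zero x h b hL
    · rw [if_neg (Nat.succ_ne_zero a), Nat.add_sub_cancel]
      exact root_A x h a b hL
  · rcases b with _ | b
    · rw [if_pos rfl]
      have e1 : ∀ m, ∑' s : MP a 0 c L p z (PC p z m), (fun s => x ^ (wh s.1 ∩ L).card) s.1 = 0 :=
        fun m => empty_of_zero (P := PC p z m) (fun s hs => ⟨m, hs.1⟩)
          (fun s => x ^ (wh s.1 ∩ L).card)
      have e2 : ∀ m w, ∑' s : MP a 0 c L p z (PB p z m w),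
          (fun s => x ^ (wh s.1 ∩ L).card) s.1 = 0 :=
        fun m w => empty_of_zero (P := PB p z m w) (fun s hs => ⟨m, hs.1⟩)
          (fun s => x ^ (wh s.1 ∩ L).card)
      have e3 : ∀ m w, ∑' s : MP a 0 c L p z (PD p z m w),
          (fun s => x ^ (wh s.1 ∩ L).card) s.1 = 0 :=
        fun m w => empty_of_zero (P := PD p z m w) (fun s hs => ⟨m, hs.1⟩)
          (fun s => x ^ (wh s.1 ∩ L).card)
      simp only [e1, e2, e3, Finset.sum_const_zero, add_zero]
    · rw [if_neg (Nat.succ_ne_zero b), Nat.add_sub_cancel]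
      congr 1
      · exact Finset.sum_congr rfl fun m hm => root_C x h a b hL hm
      congr 1
      · exact Finset.sum_congr rfl fun m hm => Finset.sum_congr rfl fun w hw =>
          root_B x h a b hL hm hw
      · exact Finset.sum_congr rfl fun m hm => Finset.sum_congr rfl fun w hw =>
          root_D x h a b hL hm hw

end K5M
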