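import Pool.Agent.Lib.K5M.Q4
import Pool.Agent.Lib.K5M.V0

/-!
# K5M.Q5: the recursion at the root edge for the exponential generating functions

PROOF.  `c = range (2 κ)`, `p = 0`, `z = 2 κ - 1`, `L = Ico (2 κ) (2 κ + n)`: `Rt`, `FWg_root`, `GWn_val`,
`sum_erase_vals`, `eg_one` (for the pairs: the function `n ↦ n * φ (n - 1)` with `φ m = m * ψ (m - 1)`), `eg_add`,
`eg_mul_left`.
-/

set_option autoImplicit false

namespace K5M

open Finset
open scoped ENNReal

variable (x : ℝ≥0∞)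

namespace Q5Aux

theorem rt_range {κ : ℕ} (hκ : 2 ≤ κ) : Rt (List.range (2 * κ)) 0 (2 * κ - 1) := by
  refine ⟨List.nodup_range, ?_, ?_, ?_⟩
  · rw [List.length_range]; omega
  · obtain ⟨m, hm⟩ : ∃ m, 2 * κ = m + 1 := ⟨2 * κ - 1, by omega⟩
    rw [hm, List.range_succ_eq_map]
    rfl
  · obtain ⟨m, hm⟩ : ∃ m, 2 * κ = m + 1 := ⟨2 * κ - 1, by omega⟩
    rw [hm, List.range_succ, List.getLast?_append]
    simp

theorem disj_range (κ n : ℕ) :
    Disjoint (List.range (2 * κ)).toFinset (Finset.Ico (2 * κ) (2 * κ + n)) := by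
  rw [Finset.disjoint_left]
  intro u hu hu'
  rw [List.mem_toFinset, List.mem_range] at hu
  rw [Finset.mem_Ico] at hu'
  omega

theorem val {κ : ℕ} (hκ : 2 ≤ κ) (a b l : ℕ) {L : Finset ℕ}
    (hL : Disjoint (List.range (2 * κ)).toFinset L) :
    GWn x a b l (List.range (2 * κ)) L 0 (2 * κ - 1) = nN x l κ a b L.card := by
  have h := rt_range hκ
  exact GWn_val x h.nd (by rw [List.length_range]) (by omega) h.hp h.hz hL

end Q5Aux

theorem nS_root {κ : ℕ} (hκ : 2 ≤ κ) (a b n : ℕ) :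
    nS x κ a b n = (if a = 0 then 0 else nN x 3 κ (a - 1) b n) +
      if b = 0 then 0 else ((n : ℝ≥0∞) * nN x 5 κ a (b - 1) (n - 1) +
        2 * (x * ((n : ℝ≥0∞) * (((n - 1 : ℕ) : ℝ≥0∞) * nN x 3 κ a (b - 1) (n - 1 - 1))))) := by
  have hL := Q5Aux.disj_range κ n
  have hcard : (Finset.Ico (2 * κ) (2 * κ + n)).card = n := by
    rw [Nat.card_Ico]; omega
  have h := FWg_root x (Q5Aux.rt_range hκ) a b hL
  have h1 : GWn x (a - 1) b 3 (List.range (2 * κ)) (Finset.Ico (2 * κ) (2 * κ + n)) 0 (2 * κ - 1)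
      = nN x 3 κ (a - 1) b n := by
    rw [Q5Aux.val x hκ _ _ _ hL, hcard]
  have h2 : ∑ m ∈ Finset.Ico (2 * κ) (2 * κ + n), GWn x a (b - 1) 5 (List.range (2 * κ))
      ((Finset.Ico (2 * κ) (2 * κ + n)).erase m) 0 (2 * κ - 1)
      = (n : ℝ≥0∞) * nN x 5 κ a (b - 1) (n - 1) := by
    rw [Finset.sum_congr rfl (fun m _ => Q5Aux.val x hκ a (b - 1) 5
      (hL.mono_right (Finset.erase_subset _ _))),
      sum_erase_vals (fun k => nN x 5 κ a (b - 1) k), hcard]
  have h3 : ∑ m ∈ Finset.Ico (2 * κ) (2 * κ + n),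
      ∑ w ∈ (Finset.Ico (2 * κ) (2 * κ + n)).erase m, x * GWn x a (b - 1) 3 (List.range (2 * κ))
      (((Finset.Ico (2 * κ) (2 * κ + n)).erase m).erase w) 0 (2 * κ - 1)
      = (n : ℝ≥0∞) * (((n - 1 : ℕ) : ℝ≥0∞) * (x * nN x 3 κ a (b - 1) (n - 1 - 1))) := by
    have h4 : ∀ m ∈ Finset.Ico (2 * κ) (2 * κ + n),
        ∑ w ∈ (Finset.Ico (2 * κ) (2 * κ + n)).erase m, x * GWn x a (b - 1) 3 (List.range (2 * κ))
        (((Finset.Ico (2 * κ) (2 * κ + n)).erase m).erase w) 0 (2 * κ - 1)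
        = (fun k : ℕ => (k : ℝ≥0∞) * (x * nN x 3 κ a (b - 1) (k - 1)))
          ((Finset.Ico (2 * κ) (2 * κ + n)).erase m).card := by
      intro m _
      rw [Finset.sum_congr rfl (fun w _ => by rw [Q5Aux.val x hκ a (b - 1) 3
        (hL.mono_right ((Finset.erase_subset _ _).trans (Finset.erase_subset _ _)))]),
        sum_erase_vals (fun k => x * nN x 3 κ a (b - 1) k)]
    rw [Finset.sum_congr rfl h4,
      sum_erase_vals (fun k : ℕ => (k : ℝ≥0∞) * (x * nN x 3 κ a (b - 1) (k - 1))), hcard]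
  rw [h1, h2, h3] at h
  unfold nS
  rw [h]
  congr 1
  split_ifs
  · rfl
  · congr 1
    ring

theorem sg_root {κ : ℕ} (hκ : 2 ≤ κ) (a b : ℕ) :
    sg x κ a b = (if a = 0 then 0 else eN x 3 κ (a - 1) b) +
      if b = 0 then 0 else (eN x 5 κ a (b - 1) + 2 * (x * eN x 3 κ a (b - 1))) := by
  rw [sg_eq, eg_congr (nS_root x hκ a b), eg_add]
  congr 1
  · by_cases ha : a = 0
    · simp only [if_pos ha]
      exact eg_zero
    · simp only [if_neg ha]
      rfl
  · by_cases hb : b = 0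
    · simp only [if_pos hb]
      exact eg_zero
    · simp only [if_neg hb]
      rw [eg_add, eg_mul_left, eg_mul_left]
      congr 1
      · exact eg_one (fun n => nN x 5 κ a (b - 1) n)
      · congr 2
        rw [eg_one (fun m : ℕ => (m : ℝ≥0∞) * nN x 3 κ a (b - 1) (m - 1))]
        exact eg_one (fun n => nN x 3 κ a (b - 1) n)

end K5M
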