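import Pool.Agent.Lib.K5M.J3
import Pool.Agent.Lib.K5M.Q5
import Pool.Agent.Lib.K5M.H2
import Pool.Agent.Lib.K5A.RecIn

/-!
# K5M.Rc: the graded recursion, and the sum over the grades

`recIn`: `g k l m a b = eG x k l m a b`, `gn _ l m a b = eN x l ((m + 1) / 2) a b`.
PROOFS.  `fin`: by strong induction on `a + b`: `sg κ a b` for `κ ≥ 2` is a finite sum (`sg_root`) of values `eN x l κ`
with grade sum smaller by one, `eN ≤ eG` (`eG_split`), and `eG x k l m a' b'` is finite if all `sg κ' a'' b''` with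
`κ' ≥ 2`, `a'' ≤ a'`, `b'' ≤ b'` are finite: induction on `l` with `eG_zero`, `eG_succ`, `eg_pv_one`, `eg_pv`
((i + j) / 2 ≥ 2 if `i ≡ j` modulo 2, `i, j ≥ 1`, not both 1).
`g00`, `g0`: `eG_zero`.  `g1`: `eG_succ` with an empty sum.  `step`: `eG_succ`, `eg_pv_one`, `eg_pv`;
`K5A.wct`, `K5A.kat` agree with `wct`, `kat`.  `ch3`, `ch5`: `eG_split`, `eC_eq`, `wct true 3 = 1`, `wct true 5 = 2`.
`root`: `sg_root`.
`S_eq`: `FW x Y T k f c L = ∑' a, ∑' b, FWg x a b k f c L * Y ^ a * T ^ b` (the set of marked fillings is the disjoint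
union of the sets of given grade: sum over the fibres of `s ↦ (uq s.2 s.1, s.2.card)`), then exchange the sums.
-/

set_option autoImplicit false

namespace K5M

open Finset
open scoped ENNReal

namespace RcAux

/-- The fillings of a given grade. -/
def fibEquiv (k : Bool) (f c : List ℕ) (L : Finset ℕ) (a b : ℕ) :
    {s : MFill k f c L // (uq s.1.2 s.1.1, s.1.2.card) = (a, b)} ≃ MFillg a b k f c L where
  toFun s := ⟨s.1.1, s.1.2, (Prod.mk.inj s.2).1, (Prod.mk.inj s.2).2⟩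
  invFun s := ⟨⟨s.1, s.2.1⟩, Prod.ext s.2.2.1 s.2.2.2⟩
  left_inv _ := rfl
  right_inv _ := rfl

end RcAux

open RcAux

theorem FW_grades (x Y T : ℝ≥0∞) (k : Bool) (f c : List ℕ) (L : Finset ℕ) :
    FW x Y T k f c L = ∑' a : ℕ, ∑' b : ℕ, FWg x a b k f c L * Y ^ a * T ^ b := by
  unfold FW
  rw [← (Equiv.sigmaFiberEquiv
    (fun s : MFill k f c L => (uq s.1.2 s.1.1, s.1.2.card))).tsum_eq, ENNReal.tsum_sigma',
    ENNReal.tsum_prod']
  refine tsum_congr fun a => tsum_congr fun b => ?_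
  unfold FWg
  rw [← (fibEquiv k f c L a b).tsum_eq, mul_assoc, ← ENNReal.tsum_mul_right]
  refine tsum_congr fun s => ?_
  have h1 : uq s.1.1.2 s.1.1.1 = a := (Prod.mk.inj s.2).1
  have h2 : s.1.1.2.card = b := (Prod.mk.inj s.2).2
  show x ^ (wh s.1.1.1 ∩ L).card * Y ^ uq s.1.1.2 s.1.1.1 * T ^ s.1.1.2.card =
    x ^ (wh s.1.1.1 ∩ L).card * (Y ^ a * T ^ b)
  rw [h1, h2, mul_assoc]

theorem S_eq (x Y T : ℝ≥0∞) (κ : ℕ) :
    S x Y T κ = ∑' a : ℕ, ∑' b : ℕ, sg x κ a b * Y ^ a * T ^ b := by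
  unfold S
  have h1 : ∀ n : ℕ, FW x Y T true [0, 2 * κ - 1] (List.range (2 * κ))
      (Finset.Ico (2 * κ) (2 * κ + n)) / (n.factorial : ℝ≥0∞) =
      ∑' a : ℕ, ∑' b : ℕ, (FWg x a b true [0, 2 * κ - 1] (List.range (2 * κ))
        (Finset.Ico (2 * κ) (2 * κ + n)) / (n.factorial : ℝ≥0∞)) * (Y ^ a * T ^ b) := by
    intro n
    rw [FW_grades, div_eq_mul_inv, ← ENNReal.tsum_mul_right]
    refine tsum_congr fun a => ?_
    rw [← ENNReal.tsum_mul_right]
    refine tsum_congr fun b => ?_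
    rw [div_eq_mul_inv]
    ring
  rw [tsum_congr h1, ENNReal.tsum_comm]
  refine tsum_congr fun a => ?_
  rw [ENNReal.tsum_comm]
  refine tsum_congr fun b => ?_
  rw [ENNReal.tsum_mul_right, mul_assoc]
  rfl

namespace RcAux

/-- The values for the pairs are finite if the values for the disks are finite. -/
theorem eG_fin {x : ℝ≥0∞} (hx : x ≠ ∞) {a b : ℕ}
    (h : ∀ κ, 2 ≤ κ → ∀ a' ≤ a, ∀ b' ≤ b, sg x κ a' b' ≠ ∞) (l : ℕ) :
    ∀ (k : Bool) (m a' b' : ℕ), a' ≤ a → b' ≤ b → eG x k l m a' b' ≠ ∞ := by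
  induction l using Nat.strong_induction_on with
  | _ l ih =>
    intro k m a' b' ha hb
    rcases Nat.eq_zero_or_pos l with hl | hl
    · rw [hl, eG_zero]
      split_ifs
      · exact ENNReal.one_ne_top
      · exact ENNReal.zero_ne_top
    · rw [eG_succ x k m a' b' hl]
      refine (ENNReal.sum_ne_top).2 fun i hi => ?_
      refine (ENNReal.sum_ne_top).2 fun j hj => ?_
      refine (ENNReal.sum_ne_top).2 fun q hq => ?_
      refine (ENNReal.sum_ne_top).2 fun r hr => ?_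
      rw [Finset.mem_Icc] at hi
      rw [Finset.mem_filter, Finset.mem_Icc] at hj
      have hq' := HasAntidiagonal.mem_antidiagonal.1 hq
      have hr' := HasAntidiagonal.mem_antidiagonal.1 hr
      refine ENNReal.mul_ne_top (ENNReal.pow_ne_top hx) (ENNReal.mul_ne_top ?_ ?_)
      · by_cases hij : i = 1 ∧ j = 1
        · rw [hij.1, hij.2, eg_pv_one]
          split_ifs
          · exact ENNReal.one_ne_top
          · exact ENNReal.zero_ne_top
        · rw [eg_pv x hij]
          exact h _ (by omega) _ (by omega) _ (by omega)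
      · exact ih (l - i) (by omega) _ _ _ _ (by omega) (by omega)

theorem eN_fin {x : ℝ≥0∞} (hx : x ≠ ∞) {a b : ℕ}
    (h : ∀ κ, 2 ≤ κ → ∀ a' ≤ a, ∀ b' ≤ b, sg x κ a' b' ≠ ∞) (l : ℕ) {κ : ℕ} (hκ : 1 ≤ κ) :
    eN x l κ a b ≠ ∞ := by
  have h1 := eG_fin hx h l true (2 * κ - 1) a b le_rfl le_rfl
  rw [eG_split x l hκ] at h1
  exact ne_top_of_le_ne_top h1 le_self_add

theorem sg_fin {x : ℝ≥0∞} (hx : x ≠ ∞) (N : ℕ) :
    ∀ κ, 2 ≤ κ → ∀ a b, a + b = N → sg x κ a b ≠ ∞ := by
  induction N using Nat.strong_induction_on with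
  | _ N ih =>
    intro κ hκ a b hab
    rw [sg_root x hκ]
    refine ENNReal.add_ne_top.2 ⟨?_, ?_⟩
    · split_ifs with ha
      · exact ENNReal.zero_ne_top
      · refine eN_fin hx (fun κ' hκ' a' ha' b' hb' => ?_) 3 (by omega)
        exact ih (a' + b') (by omega) κ' hκ' a' b' rfl
    · split_ifs with hb
      · exact ENNReal.zero_ne_top
      · have h1 : ∀ l, eN x l κ a (b - 1) ≠ ∞ := fun l => by
          refine eN_fin hx (fun κ' hκ' a' ha' b' hb' => ?_) l (by omega)
          exact ih (a' + b') (by omega) κ' hκ' a' b' rfl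
        exact ENNReal.add_ne_top.2 ⟨h1 5, ENNReal.mul_ne_top (by norm_num)
          (ENNReal.mul_ne_top hx (h1 3))⟩

end RcAux

theorem recIn {x : ℝ≥0∞} (hx : x ≠ ∞) :
    K5A.RecIn x (sg x) (fun k l m a b => eG x k l m a b)
      (fun _ l m a b => eN x l ((m + 1) / 2) a b) where
  fin κ hκ a b := sg_fin hx (a + b) κ hκ a b rfl
  g00 k := by
    funext a b
    show eG x k 0 0 a b = K5A.dl a b
    rw [eG_zero]
    unfold K5A.dl
    simp
  g0 k m hm := by
    funext a b
    show eG x k 0 m a b = 0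
    rw [eG_zero, if_neg]
    intro h
    omega
  g1 k l hl := by
    funext a b
    show eG x k l 0 a b = 0
    rw [eG_succ x k 0 a b hl]
    refine Finset.sum_eq_zero fun i _ => ?_
    simp
  step k l m hl _ hm a b := by
    show eG x k l m a b = _
    rw [eG_succ x k m a b hl]
    refine Finset.sum_congr rfl fun i _ => ?_
    rw [Finset.sum_filter]
    refine Finset.sum_congr rfl fun j _ => ?_
    unfold K5A.cv K5A.prt
    by_cases hp : j % 2 = i % 2
    · rw [if_pos hp, if_pos hp.symm, Finset.mul_sum]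
      refine Finset.sum_congr rfl fun q _ => ?_
      rw [Finset.mul_sum]
      refine Finset.sum_congr rfl fun r _ => ?_
      have h1 : eg (pv x i j q.1 r.1) = (if i = 1 ∧ j = 1 then K5A.dl else sg x ((i + j) / 2))
          q.1 r.1 := by
        by_cases hij : i = 1 ∧ j = 1
        · rw [if_pos hij, hij.1, hij.2, eg_pv_one]
          rfl
        · rw [if_neg hij, eg_pv x hij]
      rw [h1]
      rfl
    · rw [if_neg hp, if_neg (fun h => hp h.symm)]
      simp
  ch3 κ hκ a b := by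
    have h1 : (2 * κ - 1 + 1) / 2 = κ := by omega
    show eG x true 3 (2 * κ - 1) a b = eN x 3 ((2 * κ - 1 + 1) / 2) a b + _
    rw [h1, eG_split x 3 (by omega), eC_eq x (by norm_num) (by norm_num) hκ]
    have h2 : wct true 3 = 1 := rfl
    rw [h2, pow_one]
    rfl
  ch5 κ hκ a b := by
    have h1 : (2 * κ - 1 + 1) / 2 = κ := by omega
    show eG x true 5 (2 * κ - 1) a b = eN x 5 ((2 * κ - 1 + 1) / 2) a b + _
    rw [h1, eG_split x 5 (by omega), eC_eq x (by norm_num) (by norm_num) hκ]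
    have h2 : wct true 5 = 2 := rfl
    rw [h2]
    rfl
  root κ hκ a b := by
    have h1 : (2 * κ - 1 + 1) / 2 = κ := by omega
    rw [sg_root x hκ]
    unfold K5A.shA K5A.shB
    show _ = (if a = 0 then 0 else eN x 3 ((2 * κ - 1 + 1) / 2) (a - 1) b) +
      2 * x * (if b = 0 then 0 else eN x 3 ((2 * κ - 1 + 1) / 2) a (b - 1)) +
      (if b = 0 then 0 else eN x 5 ((2 * κ - 1 + 1) / 2) a (b - 1))
    rw [h1]
    by_cases hb : b = 0
    · rw [if_pos hb, if_pos hb, if_pos hb]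
      simp
    · rw [if_neg hb, if_neg hb, if_neg hb]
      ring

end K5M
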