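import Pool.Agent.Lib.K5M.Defs
import Pool.Agent.Lib.K5.Mac

/-!
# K5M.SDefs: spheres of quads, the graph of a set of quads
-/

set_option autoImplicit false

namespace K5M

open Finset

/-- A sphere of quads: every edge is in exactly two quads, the only sets of quads without boundary
are the empty set and everything, every even set of edges is a boundary, the quads at a vertex
are connected, and no label is used for both colours. -/
structure Sph (Q : Finset Quad) : Prop where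
  isq : ∀ q ∈ Q, IsQ q
  two : ∀ e ∈ EdS Q, dg Q e = 2
  inj : ∀ X ⊆ Q, bd X = ∅ → X = ∅ ∨ X = Q
  sur : ∀ Z ⊆ EdS Q, Evn Z → ∃ X ⊆ Q, bd X = Z
  lw : ∀ X ⊆ Q, ∀ w, (∀ b, (w, b) ∉ bd X) →
    (∀ q ∈ Q, w ∈ q.1 → q ∈ X) ∨ (∀ q ∈ Q, w ∈ q.1 → q ∉ X)
  lb : ∀ X ⊆ Q, ∀ b, (∀ w, (w, b) ∉ bd X) →
    (∀ q ∈ Q, b ∈ q.2 → q ∈ X) ∨ (∀ q ∈ Q, b ∈ q.2 → q ∉ X)
  col : Disjoint (wh Q) (bl Q)

/-- An irreducible sphere: a region with a boundary of length 4 is a single quad, or its complement is. -/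
structure Irr (Q : Finset Quad) : Prop extends Sph Q where
  four : 4 ≤ Q.card
  irr : ∀ X ⊆ Q, (bd X).card = 4 → X.card = 1 ∨ (Q \ X).card = 1

/-- The graph of a set of quads: the white vertices, a quad gives the edge between its two whites. -/
def gr (Q : Finset Quad) : SimpleGraph ℕ where
  Adj a b := a ≠ b ∧ ∃ q ∈ Q, q.1 = {a, b}
  symm := ⟨fun _ _ h => ⟨h.1.symm, h.2.imp fun _ h => ⟨h.1, by rw [h.2, Finset.pair_comm]⟩⟩⟩
  loopless := ⟨fun _ h => h.1 rfl⟩

/-- The quads at the white vertex `w`. -/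
def atw (Q : Finset Quad) (w : ℕ) : Finset Quad := Q.filter (fun q => w ∈ q.1)

/-- The quads at the black vertex `b`. -/
def atb (Q : Finset Quad) (b : ℕ) : Finset Quad := Q.filter (fun q => b ∈ q.2)

end K5M
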