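import Mathlib

/-!
# K5M.SFred: solvability of a finite linear system over `ZMod 2`

PROOF. Let `T : (J → ZMod 2) →ₗ (I → ZMod 2)`, `T x i = ∑ j, R i j * x j`. If `r` is not in the range of `T` there is a linear functional `f` on `I → ZMod 2` that vanishes on the range and not at `r`
(`Submodule.exists_le_ker_of_notMem` or `Submodule.exists_dual_map_eq_bot_of_notMem`; everything is finite dimensional over a field). Put `y i = f (Pi.single i 1)`; then `f v = ∑ i, y i * v i`. For every `j`:
`∑ i, y i * R i j = f (T (Pi.single j 1)) = 0`. By assumption `f r = ∑ i, y i * r i = 0`: contradiction.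
-/

set_option autoImplicit false

namespace K5M

open Finset

theorem fredholm {I J : Type*} [Fintype I] [Fintype J] (R : I → J → ZMod 2) (r : I → ZMod 2)
    (h : ∀ y : I → ZMod 2, (∀ j, ∑ i, y i * R i j = 0) → ∑ i, y i * r i = 0) :
    ∃ x : J → ZMod 2, ∀ i, ∑ j, R i j * x j = r i := by
  classical
  let T : (J → ZMod 2) →ₗ[ZMod 2] (I → ZMod 2) :=
    { toFun := fun x i => ∑ j, R i j * x j
      map_add' := fun x y => by
        funext i
        simp only [Pi.add_apply, mul_add, Finset.sum_add_distrib]
      map_smul' := fun c x => by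
        funext i
        simp only [Pi.smul_apply, smul_eq_mul, RingHom.id_apply, Finset.mul_sum]
        exact Finset.sum_congr rfl fun j _ => by ring }
  by_cases hr : r ∈ LinearMap.range T
  · obtain ⟨x, hx⟩ := hr
    exact ⟨x, fun i => congrFun hx i⟩
  · exfalso
    obtain ⟨f, hfr, hfT⟩ := Submodule.exists_le_ker_of_notMem hr
    have hf : ∀ v : I → ZMod 2, f v = ∑ i, f (Pi.single i 1) * v i := by
      intro v
      conv_lhs => rw [← Finset.univ_sum_single v]
      rw [map_sum]
      refine Finset.sum_congr rfl fun i _ => ?_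
      have h1 : (Pi.single i (v i) : I → ZMod 2) = v i • (Pi.single i 1 : I → ZMod 2) := by
        rw [← Pi.single_smul, smul_eq_mul, mul_one]
      rw [h1, map_smul, smul_eq_mul, mul_comm]
    apply hfr
    rw [hf r]
    refine h _ fun j => ?_
    have h1 : f (T (Pi.single j 1)) = 0 := hfT ⟨_, rfl⟩
    rw [hf] at h1
    rw [← h1]
    refine Finset.sum_congr rfl fun i _ => ?_
    congr 1
    show R i j = ∑ j', R i j' * (Pi.single j 1 : J → ZMod 2) j'
    rw [Finset.sum_eq_single j]
    · rw [Pi.single_eq_same, mul_one]
    · intro b _ hb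
      rw [Pi.single_eq_of_ne hb, mul_zero]
    · intro hj
      exact absurd (Finset.mem_univ j) hj

end K5M
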