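import Pool.Agent.Lib.K5M.SMk
import Pool.Agent.Lib.K5M.SFred
import Pool.Agent.Lib.K5M.A1

/-!
# K5M.SSur: the quads of a planar graph: every even set of edges is a boundary

PROOF. `Q = mkS H U F β`, `Z ⊆ EdS Q` even. A set `X ⊆ Q` with `bd X = Z` is a solution of the linear system over `ZMod 2` with the unknowns `x q` (`q ∈ Q`) and the equations `∑ {q : e ∈ ed q} x q = [e ∈ Z]` (`e ∈ EdS Q`). By `fredholm` (types `I = ↥(EdS Q)`, `J = ↥Q`, `R e q = [e ∈ ed q]`) it is enough: if
`y : EdS Q → ZMod 2` satisfies `∑ e ∈ ed q, y e = 0` for all `q ∈ Q` then `∑ e ∈ Z, y e = 0`. Extend `y` by `0` to a function on pairs.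
(1) `c a b := ∑ i, F i a b * y (a, β i)` (`= y (a, β i) + y (a, β j)` for the two faces `i, j` at the edge `ab`, and `0` if `a, b` are not adjacent). The condition for the quad of `ab` says `c a b = c b a`. `c` is a cycle mod 2: `supp` clear, `∑ b ∈ U, c a b = ∑ i, y (a, β i) * ∑ b ∈ U, F i a b = 0`.
(2) By `span` there is `S` with `c a b = ∑ i ∈ S, F i a b`. Put `y' a i = y (a, β i) + [i ∈ S]`. For every edge `ab`: `∑ i, F i a b * y' a i = 0`: `y' a` has the same value at the two faces of the edge `ab`.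
(3) `y' a` is constant on the faces at `a ∈ U` (the `i` with `F i a u ≠ 0` for some `u`): let `A` be the set of the neighbours `u` of `a` such that `y' a i = 1` for the faces `i` of `au`. For every `i` the sum `∑ u ∈ A, F i a u` is `0`: if `y' a i = 1` all `u` with `F i a u ≠ 0` are in `A` and the sum is
`∑ u ∈ U, F i a u = 0`; if `y' a i = 0` none of them is. By `K5.star_min` `A` is empty or all neighbours. So there is `p a` with `y (a, β i) = p a + [i ∈ S]` for all `(a, β i) ∈ EdS Q`.
(4) `∑ e ∈ Z, y e = ∑ (a, b) ∈ Z, (p a + s b)` with `s (β i) = [i ∈ S]`; group by `a`: every `a` has an even number of edges of `Z`, group by `b` similarly. So the sum is `0`.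
-/

set_option autoImplicit false

namespace K5M

open Finset

namespace SSurAux

theorem z2 : ∀ x : ZMod 2, x ≠ 0 → x = 1 := by decide

theorem zz : ∀ x : ZMod 2, x + x = 0 := by decide

theorem zadd : ∀ x y : ZMod 2, x + y = 0 → x = y := by decide

theorem odd_iff (n : ℕ) : Odd n ↔ (n : ZMod 2) ≠ 0 := by
  rw [← Nat.not_even_iff_odd, ZMod.natCast_ne_zero_iff_odd, Nat.not_even_iff_odd]

theorem even_zero {n : ℕ} (h : Even n) : (n : ZMod 2) = 0 := by
  rw [ZMod.natCast_eq_zero_iff_even]
  exact h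

theorem val (x : ZMod 2) : x = if x ≠ 0 then 1 else 0 := by
  revert x
  decide

theorem sum_even {α : Type*} (Z : Finset α) (g : α → ℕ) (f : ℕ → ZMod 2)
    (h : ∀ w, Even (Z.filter (fun e => g e = w)).card) : ∑ e ∈ Z, f (g e) = 0 := by
  classical
  rw [Finset.sum_comp f g]
  refine Finset.sum_eq_zero fun w _ => ?_
  rw [nsmul_eq_mul, even_zero (h w), zero_mul]

/-- solvability of the boundary equation -/
theorem exists_bd (Q : Finset Quad) (Z : Finset Ed) (hZ : Z ⊆ EdS Q)
    (h : ∀ y : Ed → ZMod 2, (∀ q ∈ Q, ∑ e ∈ ed q, y e = 0) → ∑ e ∈ Z, y e = 0) :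
    ∃ X ⊆ Q, bd X = Z := by
  classical
  have hsub : ∀ q ∈ Q, ed q ⊆ EdS Q := fun q hq => subset_biUnion_of_mem ed hq
  -- sums over subtypes
  have hsumI : ∀ (y : {e // e ∈ EdS Q} → ZMod 2) (T : Finset Ed), T ⊆ EdS Q →
      ∑ i, y i * (if i.1 ∈ T then 1 else 0) =
        ∑ e ∈ T, (fun e => if h : e ∈ EdS Q then y ⟨e, h⟩ else 0) e := by
    intro y T hT
    have h1 : ∑ i : {e // e ∈ EdS Q}, y i * (if i.1 ∈ T then 1 else 0) =
        ∑ e ∈ EdS Q, (if h : e ∈ EdS Q then y ⟨e, h⟩ else 0) * (if e ∈ T then 1 else 0) := by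
      rw [← Finset.sum_coe_sort (EdS Q)]
      refine Finset.sum_congr rfl fun i _ => ?_
      rw [dif_pos i.2]
    rw [h1]
    simp only [mul_ite, mul_one, mul_zero]
    rw [← Finset.sum_filter]
    congr 1
    ext e
    rw [mem_filter]
    exact ⟨fun h2 => h2.2, fun h2 => ⟨hT h2, h2⟩⟩
  obtain ⟨x, hx⟩ := fredholm (I := {e // e ∈ EdS Q}) (J := {q // q ∈ Q})
    (fun e q => if e.1 ∈ ed q.1 then 1 else 0) (fun e => if e.1 ∈ Z then 1 else 0) (by
      intro y hy
      rw [hsumI y Z hZ]
      refine h _ fun q hq => ?_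
      rw [← hsumI y (ed q) (hsub q hq)]
      exact hy ⟨q, hq⟩)
  let x' : Quad → ZMod 2 := fun q => if h : q ∈ Q then x ⟨q, h⟩ else 0
  refine ⟨Q.filter (fun q => x' q ≠ 0), filter_subset _ _, ?_⟩
  have hdg : ∀ e ∈ EdS Q, ((dg (Q.filter (fun q => x' q ≠ 0)) e : ℕ) : ZMod 2) =
      if e ∈ Z then 1 else 0 := by
    intro e he
    rw [← hx ⟨e, he⟩]
    unfold dg
    rw [card_filter, Nat.cast_sum, Finset.sum_filter]
    have h1 : ∑ j : {q // q ∈ Q}, (if e ∈ ed j.1 then 1 else 0) * x j =
        ∑ q ∈ Q, (if e ∈ ed q then 1 else 0) * x' q := by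
      rw [← Finset.sum_coe_sort Q]
      refine Finset.sum_congr rfl fun j _ => ?_
      show _ = _ * (if h : j.1 ∈ Q then x ⟨j.1, h⟩ else 0)
      rw [dif_pos j.2]
    show _ = ∑ j : {q // q ∈ Q}, (if e ∈ ed j.1 then 1 else 0) * x j
    rw [h1]
    refine Finset.sum_congr rfl fun q _ => ?_
    by_cases h2 : x' q = 0
    · rw [if_neg (fun h3 => h3 h2), h2, mul_zero]
    · rw [if_pos h2, z2 _ h2, mul_one]
      split_ifs <;> simp
  ext e
  constructor
  · intro he
    have h1 : e ∈ EdS Q := EdS_mono (filter_subset _ _) (bd_sub _ he)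
    rw [mem_bd, odd_iff, hdg e h1] at he
    by_contra h2
    exact he (if_neg h2)
  · intro he
    rw [mem_bd, odd_iff, hdg e (hZ he), if_pos he]
    exact one_ne_zero

end SSurAux

open SSurAux

variable {H : K5.Gr} {U : Finset ℕ} {n : ℕ} {F : Fin n → ℕ → ℕ → ZMod 2} {β : Fin n → ℕ}

theorem mkS_sur (hon : K5.On H U) (h3 : K5.Three H U) (hF : K5.Faces H U n F)
    (hβ : Function.Injective β) (Z : Finset Ed) (hZ : Z ⊆ EdS (mkS H U F β)) (he : Evn Z) :
    ∃ X ⊆ mkS H U F β, bd X = Z := by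
  classical
  refine exists_bd _ Z hZ fun y hy => ?_
  -- (1)
  have hcF : ∀ a b, ∑ i, F i a b * y (a, β i) =
      ∑ i ∈ univ.filter (fun i => F i a b ≠ 0), y (a, β i) := by
    intro a b
    rw [Finset.sum_filter]
    refine Finset.sum_congr rfl fun i _ => ?_
    by_cases h : F i a b = 0
    · rw [h, zero_mul, if_neg (fun h' => h' rfl)]
    · rw [z2 _ h, one_mul, if_pos one_ne_zero]
  have hFs : ∀ i a b, F i a b = F i b a := fun i => (hF.cyc i).symm
  have hc : K5.Cyc H U (fun a b => ∑ i, F i a b * y (a, β i)) := by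
    refine ⟨fun a b => ?_, fun a b h => ?_, fun a ha => ?_⟩
    · by_cases hab : H.Adj a b
      · have h1 := hy _ ((mem_mkS hon).2 ⟨a, b, hab, rfl⟩)
        have h2 : ed (({a, b} : Finset ℕ), (univ.filter (fun i => F i a b ≠ 0)).image β) =
            ({a, b} : Finset ℕ) ×ˢ (univ.filter (fun i => F i a b ≠ 0)).image β := rfl
        rw [h2, Finset.sum_product, Finset.sum_pair hab.ne,
          Finset.sum_image (fun _ _ _ _ h => hβ h), Finset.sum_image (fun _ _ _ _ h => hβ h)] at h1
        have h3 := zadd _ _ h1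
        rw [hcF, hcF, h3]
        refine Finset.sum_congr ?_ fun _ _ => rfl
        ext i
        rw [mem_filter, mem_filter, hFs]
      · have h1 : ∀ i, F i a b = 0 := fun i => by
          by_contra h
          exact hab ((hF.cyc i).supp a b h)
        have h2 : ∀ i, F i b a = 0 := fun i => by rw [← hFs]; exact h1 i
        rw [Finset.sum_eq_zero fun i _ => by rw [h1 i, zero_mul],
          Finset.sum_eq_zero fun i _ => by rw [h2 i, zero_mul]]
    · obtain ⟨i, _, hi⟩ := Finset.exists_ne_zero_of_sum_ne_zero h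
      refine (hF.cyc i).supp a b fun h0 => hi ?_
      rw [h0, zero_mul]
    · rw [Finset.sum_comm]
      refine Finset.sum_eq_zero fun i _ => ?_
      rw [← Finset.sum_mul, (hF.cyc i).even a ha, zero_mul]
  -- (2)
  obtain ⟨S, hS⟩ := hF.span _ hc
  let y' : ℕ → Fin n → ZMod 2 := fun a i => y (a, β i) + (if i ∈ S then 1 else 0)
  have hy'0 : ∀ a b, ∑ i ∈ univ.filter (fun i => F i a b ≠ 0), y' a i = 0 := by
    intro a b
    have h1 : ∑ i ∈ univ.filter (fun i => F i a b ≠ 0), (if i ∈ S then (1 : ZMod 2) else 0) =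
        ∑ i ∈ S, F i a b := by
      rw [← Finset.sum_filter, Finset.filter_filter]
      have h2 : ∑ i ∈ S, F i a b = ∑ i ∈ S, (if F i a b ≠ 0 then (1 : ZMod 2) else 0) :=
        Finset.sum_congr rfl fun i _ => val _
      rw [h2, ← Finset.sum_filter]
      refine Finset.sum_congr ?_ fun _ _ => rfl
      ext i
      simp only [mem_filter, mem_univ, true_and]
      exact and_comm
    show ∑ i ∈ univ.filter (fun i => F i a b ≠ 0), (y (a, β i) + (if i ∈ S then 1 else 0)) = 0
    rw [Finset.sum_add_distrib, h1, ← hS a b, ← hcF]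
    exact zz _
  have same : ∀ a b i j, F i a b ≠ 0 → F j a b ≠ 0 → y' a i = y' a j := by
    intro a b i j hi hj
    by_cases hij : i = j
    · rw [hij]
    · have hab := (hF.cyc i).supp a b hi
      have h1 : ({i, j} : Finset (Fin n)) = univ.filter (fun i => F i a b ≠ 0) := by
        refine Finset.eq_of_subset_of_card_le ?_ ?_
        · intro k hk
          rw [mem_insert, mem_singleton] at hk
          rw [mem_filter]
          refine ⟨mem_univ _, ?_⟩
          rcases hk with rfl | rfl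
          · exact hi
          · exact hj
        · rw [card_pair hij]
          exact le_of_eq (hF.two a b hab)
      have h2 := hy'0 a b
      rw [← h1, Finset.sum_pair hij] at h2
      exact zadd _ _ h2
  -- (3)
  have hconst : ∀ a ∈ U, ∃ p : ZMod 2, ∀ i u, F i a u ≠ 0 → y' a i = p := by
    intro a ha
    have hU : ∀ i u, F i a u ≠ 0 → u ∈ U ∧ H.Adj a u := fun i u h =>
      ⟨hon u a ((hF.cyc i).supp a u h).symm, (hF.cyc i).supp a u h⟩
    let A : Finset ℕ := U.filter (fun u => ∃ i, F i a u ≠ 0 ∧ y' a i = 1)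
    have hA : ∀ u, u ∈ A ↔ ∃ i, F i a u ≠ 0 ∧ y' a i = 1 := by
      intro u
      rw [mem_filter]
      exact ⟨fun h => h.2, fun h => ⟨(hU _ _ h.choose_spec.1).1, h⟩⟩
    have hsum : ∀ i, ∑ u ∈ A, F i a u = 0 := by
      intro i
      by_cases h1 : y' a i = 1
      · rw [← (hF.cyc i).even a ha]
        refine Finset.sum_subset (filter_subset _ _) fun u _ hu => ?_
        by_contra h2
        exact hu ((hA u).2 ⟨i, h2, h1⟩)
      · refine Finset.sum_eq_zero fun u hu => ?_
        by_contra h2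
        obtain ⟨j, hj, hj1⟩ := (hA u).1 hu
        exact h1 ((same a u i j h2 hj).trans hj1)
    by_cases hne : A.Nonempty
    · refine ⟨1, fun i u hiu => ?_⟩
      have huA : u ∈ A := by
        by_contra huA
        obtain ⟨j, hj⟩ := K5.star_min hon h3 hF ha A (fun v hv => by
          obtain ⟨j, hj, -⟩ := (hA v).1 hv
          exact (hU j v hj).2) hne ⟨u, (hU i u hiu).2, huA⟩
        exact hj (hsum j)
      obtain ⟨j, hj, hj1⟩ := (hA u).1 huA
      exact (same a u i j hiu hj).trans hj1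
    · refine ⟨0, fun i u hiu => ?_⟩
      by_contra h1
      exact hne ⟨u, (hA u).2 ⟨i, hiu, z2 _ h1⟩⟩
  choose p hp using hconst
  let p' : ℕ → ZMod 2 := fun a => if h : a ∈ U then p a h else 0
  let s : ℕ → ZMod 2 := fun c => if ∃ i ∈ S, β i = c then 1 else 0
  have hval : ∀ e ∈ Z, y e = p' e.1 + s e.2 := by
    rintro ⟨a, c⟩ heZ
    obtain ⟨i, u, hc, hiu⟩ := (mem_EdS_mkS hon hF).1 (hZ heZ)
    have ha : a ∈ U := hon a u ((hF.cyc i).supp a u hiu)
    have h1 : y' a i = p' a := by
      show _ = (if h : a ∈ U then p a h else 0)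
      rw [dif_pos ha]
      exact hp a ha i u hiu
    have h2 : s c = if i ∈ S then 1 else 0 := by
      show (if ∃ j ∈ S, β j = c then (1 : ZMod 2) else 0) = _
      refine if_congr ?_ rfl rfl
      rw [hc]
      constructor
      · rintro ⟨j, hj, hji⟩
        rw [← hβ hji]
        exact hj
      · intro h
        exact ⟨i, h, rfl⟩
    show y (a, c) = p' a + s c
    rw [← h1, h2, hc]
    show y (a, β i) = y (a, β i) + (if i ∈ S then 1 else 0) + (if i ∈ S then 1 else 0)
    rw [add_assoc, zz, add_zero]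
  rw [Finset.sum_congr rfl hval, Finset.sum_add_distrib,
    sum_even Z (fun e : Ed => e.1) p' he.1, sum_even Z (fun e : Ed => e.2) s he.2, add_zero]

end K5M
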