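import Pool.Agent.Lib.K5M.SInj
import Pool.Agent.Lib.K5M.SSur
import Pool.Agent.Lib.K5M.SCore
import Pool.Agent.Lib.K5.KuNorm

/-!
# K5M.SEx: every 3-connected planar graph is the graph of an irreducible sphere

PROOF of `mkS_irr`. `Q = mkS H U F β`. Choose an edge of `H` and its quad `q0 = ({w0, w1}, {b0, b1})`, `K = Q.erase q0`. We show `Core w0 w1 b0 b1 K`; then `Core.toIrr` gives `Irr Q` (`insert q0 K = Q`).
`Net`: `w0 ≠ w1`, `b0 ≠ b1` (`mkS_isq`). `bd Q = ∅` (`mkS_dg`), so `bd K = ed q0`. `AC (EdS K) K`: `dg K e ≤ dg Q e ≤ 2`; `inj`: `X ⊆ K`, `bd X = ∅`: `X = ∅` or `X = Q` (`mkS_inj`), the latter is impossible; `sur`: `Z ⊆ EdS K ⊆ EdS Q` even, `Z = bd X` (`mkS_sur`), if `q0 ∈ X` take `Q \ X`, which has the same boundary.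
`col`: whites are in `U`, blacks are `β i`, not in `U`. `3 ≤ |K|`: `H` has at least 6 edges (4 vertices of degree at least 3, `K5.deg3`; or: a vertex `a` with three neighbours, one of these neighbours has a neighbour different from `a` and ..: at least four edges are enough, so `4 ≤ |Q|`; different edges give different quads).
`irr`: let `X ⊆ K`, `|bd X| = 4`. `bd X` is even, so `bd X = ed ({u, v}, {b, c})` (`exists_quad`). By `mkS_lw` for every `w ∈ U \ {u, v}` all quads of `Q` at `w` are in `X` (`w ∈ P`) or none is (`w ∈ P'`). No edge of `H` joins `P` and `P'`. `Three`: `(U.erase u).erase v` is connected, so `P = ∅` or `P' = ∅`.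
If `P = ∅`: the quads of `X` have all whites in `{u, v}`, so there is at most one (`mkS_fst`); `X ≠ ∅`, so `|X| = 1`. If `P' = ∅`: the quads of `Q \ X` have all whites in `{u, v}`, so `|Q \ X| ≤ 1`; `q0 ∈ Q \ X`; so `Q \ X = {q0}` and `X = K`.

PROOF of `exists_irr`. `K5.faces_of_mac` with `K5.edge_cyc` gives `F`; take `β i = N + i` with `N` larger than all elements of `U`.
-/

set_option autoImplicit false

namespace K5M

open Finset

namespace SExAux

theorem card_one_of {Q X : Finset Quad} (hX : X ⊆ Q) (hfst : ∀ q ∈ Q, ∀ q' ∈ Q, q.1 = q'.1 → q = q') {u v : ℕ}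
    (h : ∀ q ∈ X, q.1 = {u, v}) : X.card ≤ 1 :=
  Finset.card_le_one.2 fun q hq q' hq' => hfst q (hX hq) q' (hX hq') ((h q hq).trans (h q' hq').symm)

theorem eq_pair {s : Finset ℕ} {u v : ℕ} (hs : s.card = 2) (huv : u ≠ v) (h : ∀ x ∈ s, x = u ∨ x = v) :
    s = {u, v} := by
  apply Finset.eq_of_subset_of_card_le
  · intro x hx
    rcases h x hx with rfl | rfl <;> simp
  · rw [hs, Finset.card_pair huv]

end SExAux

theorem mkS_irr {H : K5.Gr} {U : Finset ℕ} {n : ℕ} {F : Fin n → ℕ → ℕ → ZMod 2} {β : Fin n → ℕ}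
    (hon : K5.On H U) (h3 : K5.Three H U) (hF : K5.Faces H U n F) (hβ : Function.Injective β)
    (hU : ∀ i, β i ∉ U) : Irr (mkS H U F β) := by
  classical
  have hisq := mkS_isq (β := β) hon hF hβ
  have hdg := mkS_dg (β := β) hon h3 hF hβ
  have hwh := wh_mkS (F := F) (β := β) hon h3
  have hinj := fun (X : Finset Quad) (hX : X ⊆ mkS H U F β) (hb : bd X = ∅) => mkS_inj hon h3 hF hβ hX hb
  have hsur := mkS_sur (β := β) hon h3 hF hβ
  have hlw := fun (X : Finset Quad) (hX : X ⊆ mkS H U F β) (w : ℕ) (hb : ∀ b, (w, b) ∉ bd X) =>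
    mkS_lw hon h3 hF hβ hX w hb
  have hfst : ∀ q ∈ mkS H U F β, ∀ q' ∈ mkS H U F β, q.1 = q'.1 → q = q' := fun q hq q' hq' he =>
    mkS_fst hon hF hq hq' he
  have hmem : ∀ q : Quad, q ∈ mkS H U F β ↔
      ∃ a b, H.Adj a b ∧ q = ({a, b}, (univ.filter (fun i => F i a b ≠ 0)).image β) := fun q => mem_mkS hon
  have hbl := bl_mkS (β := β) hon hF
  set Q := mkS H U F β with hQ
  -- the quad of an edge
  have hquad : ∀ a b, H.Adj a b → ∃ q ∈ Q, q.1 = {a, b} := fun a b hab =>
    ⟨_, (hmem _).2 ⟨a, b, hab, rfl⟩, rfl⟩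
  have hU' : ∀ a b, H.Adj a b → a ∈ U := fun a b hab => hon a b hab
  -- the whites of a quad
  have hqU : ∀ q ∈ Q, ∀ w ∈ q.1, w ∈ U := by
    intro q hq w hw
    rw [← hwh]
    exact Finset.mem_biUnion.2 ⟨q, hq, hw⟩
  -- `bd Q` is empty
  have hbQ : bd Q = ∅ := by
    rw [Finset.eq_empty_iff_forall_notMem]
    intro e he
    have h1 := mem_bd.1 he
    rw [hdg e (bd_sub Q he)] at h1
    exact absurd h1 (by decide)
  have hdg2 : ∀ e, dg Q e ≤ 2 := by
    intro e
    by_cases he : e ∈ EdS Q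
    · exact (hdg e he).le
    · have h1 : ¬ 0 < dg Q e := fun hh => he (dg_pos.1 hh)
      omega
  -- an edge and its neighbours
  obtain ⟨a, ha⟩ : U.Nonempty := Finset.card_pos.1 (by have := h3.1; omega)
  obtain ⟨u1, hu1, -, -⟩ := K5.deg3 hon h3 ha 0 0
  obtain ⟨u2, hu2, hu21, -⟩ := K5.deg3 hon h3 ha u1 u1
  obtain ⟨u3, hu3, hu31, hu32⟩ := K5.deg3 hon h3 ha u1 u2
  have hu1U : u1 ∈ U := hU' _ _ hu1.symm
  obtain ⟨v, hv, hva, -⟩ := K5.deg3 hon h3 hu1U a a
  obtain ⟨q0, hq0, hq0a⟩ := hquad a u1 hu1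
  have hau1 : a ≠ u1 := hu1.ne
  obtain ⟨b0, b1, hb01, hq0b⟩ := Finset.card_eq_two.1 (hisq q0 hq0).2
  have hq0e : q0 = ((({a, u1} : Finset ℕ), ({b0, b1} : Finset ℕ)) : Quad) := Prod.ext hq0a hq0b
  -- at least four quads
  have hQ4 : 4 ≤ Q.card := by
    have h1 : ({{a, u1}, {a, u2}, {a, u3}, {u1, v}} : Finset (Finset ℕ)) ⊆ Q.image Prod.fst := by
      intro s hs
      simp only [Finset.mem_insert, Finset.mem_singleton] at hs
      rcases hs with rfl | rfl | rfl | rfl
      · obtain ⟨q, hq, he⟩ := hquad a u1 hu1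
        exact Finset.mem_image.2 ⟨q, hq, he⟩
      · obtain ⟨q, hq, he⟩ := hquad a u2 hu2
        exact Finset.mem_image.2 ⟨q, hq, he⟩
      · obtain ⟨q, hq, he⟩ := hquad a u3 hu3
        exact Finset.mem_image.2 ⟨q, hq, he⟩
      · obtain ⟨q, hq, he⟩ := hquad u1 v hv
        exact Finset.mem_image.2 ⟨q, hq, he⟩
    have hne : ∀ x y : ℕ, x ≠ y → a ≠ y → ({a, x} : Finset ℕ) ≠ {a, y} := by
      intro x y hxy hay he
      have h2 : y ∈ ({a, x} : Finset ℕ) := by rw [he]; simp
      simp only [Finset.mem_insert, Finset.mem_singleton] at h2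
      rcases h2 with h2 | h2
      · exact hay h2.symm
      · exact hxy h2.symm
    have hne' : ∀ x : ℕ, ({a, x} : Finset ℕ) ≠ {u1, v} := by
      intro x he
      have h2 : a ∈ ({u1, v} : Finset ℕ) := by rw [← he]; simp
      simp only [Finset.mem_insert, Finset.mem_singleton] at h2
      rcases h2 with h2 | h2
      · exact hau1 h2
      · exact hva h2.symm
    have hau2 : a ≠ u2 := hu2.ne
    have hau3 : a ≠ u3 := hu3.ne
    have h2 : ({{a, u1}, {a, u2}, {a, u3}, {u1, v}} : Finset (Finset ℕ)).card = 4 := by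
      rw [Finset.card_insert_of_notMem, Finset.card_insert_of_notMem, Finset.card_insert_of_notMem,
        Finset.card_singleton]
      · simp only [Finset.mem_singleton]
        exact hne' u3
      · simp only [Finset.mem_insert, Finset.mem_singleton, not_or]
        exact ⟨hne u2 u3 (Ne.symm hu32) hau3, hne' u2⟩
      · simp only [Finset.mem_insert, Finset.mem_singleton, not_or]
        exact ⟨hne u1 u2 (Ne.symm hu21) hau2, hne u1 u3 (Ne.symm hu31) hau3, hne' u1⟩
    rw [← h2]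
    exact (Finset.card_le_card h1).trans Finset.card_image_le
  set K := Q.erase q0 with hK
  have hKQ : K ⊆ Q := Finset.erase_subset _ _
  have hq0K : q0 ∉ K := Finset.notMem_erase q0 Q
  have hK3 : 3 ≤ K.card := by
    have h1 : K.card = Q.card - 1 := Finset.card_erase_of_mem hq0
    omega
  have hbdc : ∀ X ⊆ Q, bd (Q \ X) = bd X := by
    intro X hX
    rw [bd_sdiff hX, hbQ]
    simp
  have hcore : Core a u1 b0 b1 K := by
    refine ⟨⟨hau1, hb01, ⟨fun q hq => hisq q (hKQ hq), Finset.Subset.refl _, fun e => (dg_mono hKQ e).trans (hdg2 e),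
      ?_, ?_⟩, ?_, ?_⟩, hK3, ?_⟩
    · intro X hX hb
      rcases hinj X (hX.trans hKQ) hb with h1 | h1
      · exact h1
      · exfalso
        rw [h1] at hX
        exact hq0K (hX hq0)
    · intro Z hZ he
      obtain ⟨X, hX, hb⟩ := hsur Z (hZ.trans (EdS_mono hKQ)) he
      by_cases hq : q0 ∈ X
      · refine ⟨Q \ X, ?_, by rw [hbdc X hX]; exact hb⟩
        intro q hq'
        obtain ⟨g1, g2⟩ := Finset.mem_sdiff.1 hq'
        exact Finset.mem_erase.2 ⟨fun hh => g2 (hh ▸ hq), g1⟩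
      · exact ⟨X, fun q hq' => Finset.mem_erase.2 ⟨fun hh => hq (hh ▸ hq'), hX hq'⟩, hb⟩
    · rw [← hq0e, hK, Finset.erase_eq, hbdc {q0} (Finset.singleton_subset_iff.2 hq0), bd_singleton]
    · rw [Finset.disjoint_left]
      intro x hx hx'
      obtain ⟨q, hq, hxq⟩ := Finset.mem_biUnion.1 hx
      obtain ⟨q', hq', hxq'⟩ := Finset.mem_biUnion.1 hx'
      have h1 := hqU q (hKQ hq) x hxq
      have h2 : x ∈ bl Q := Finset.mem_biUnion.2 ⟨q', hKQ hq', hxq'⟩
      obtain ⟨i, _, _, h4, _⟩ := (hbl x).1 h2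
      rw [h4] at h1
      exact hU i h1
    · intro X hX h4
      have hXQ := hX.trans hKQ
      obtain ⟨q, hq, hqe⟩ := exists_quad (Evn_bd fun q hq => hisq q (hXQ hq)) h4
      obtain ⟨u, w, huw, hq1⟩ := Finset.card_eq_two.1 hq.1
      -- vertices off the boundary
      have hoff : ∀ x, x ≠ u → x ≠ w → (∀ q ∈ Q, x ∈ q.1 → q ∈ X) ∨ (∀ q ∈ Q, x ∈ q.1 → q ∉ X) := by
        intro x hxu hxw
        apply hlw X hXQ x
        intro b hb
        rw [← hqe, mem_ed, hq1] at hb
        rcases Finset.mem_insert.1 hb.1 with h5 | h5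
        · exact hxu h5
        · exact hxw (Finset.mem_singleton.1 h5)
      set W := (U.erase u).erase w with hW
      have hWm : ∀ x, x ∈ W ↔ x ≠ w ∧ x ≠ u ∧ x ∈ U := by
        intro x
        rw [hW, Finset.mem_erase, Finset.mem_erase]
      let P := W.filter (fun x => ∀ q ∈ Q, x ∈ q.1 → q ∈ X)
      have hPW : P ⊆ W := Finset.filter_subset _ _
      have hPm : ∀ x ∈ P, ∀ q ∈ Q, x ∈ q.1 → q ∈ X := fun x hx => (Finset.mem_filter.1 hx).2
      have hnP : ∀ x ∈ W, x ∉ P → ∀ q ∈ Q, x ∈ q.1 → q ∉ X := by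
        intro x hx hxP
        rcases hoff x ((hWm x).1 hx).2.1 ((hWm x).1 hx).1 with h5 | h5
        · exact absurd (Finset.mem_filter.2 ⟨hx, h5⟩) hxP
        · exact h5
      have hcases : P = ∅ ∨ P = W := by
        by_contra hcon
        rw [not_or] at hcon
        obtain ⟨x, hx, y, hy, hyP, hxy⟩ := (h3.2 u w).2 P hPW (Finset.nonempty_iff_ne_empty.2 hcon.1) hcon.2
        obtain ⟨q', hq', hq'e⟩ := hquad x y hxy
        exact hnP y hy hyP q' hq' (by rw [hq'e]; simp) (hPm x hx q' hq' (by rw [hq'e]; simp))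
      rcases hcases with hP | hP
      · left
        have h5 : ∀ q' ∈ X, q'.1 = {u, w} := by
          intro q' hq'
          apply SExAux.eq_pair (hisq q' (hXQ hq')).1 huw
          intro x hx
          by_contra hcon
          rw [not_or] at hcon
          have h6 : x ∈ W := (hWm x).2 ⟨hcon.2, hcon.1, hqU q' (hXQ hq') x hx⟩
          exact hnP x h6 (by rw [hP]; exact Finset.notMem_empty x) q' (hXQ hq') hx hq'
        have h6 := SExAux.card_one_of hXQ hfst h5
        have h7 : X.Nonempty := by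
          rw [Finset.nonempty_iff_ne_empty]
          rintro rfl
          rw [bd_empty] at h4
          simp at h4
        have h8 := Finset.card_pos.2 h7
        omega
      · right
        have h5 : ∀ q' ∈ Q \ X, q'.1 = {u, w} := by
          intro q' hq'
          obtain ⟨g1, g2⟩ := Finset.mem_sdiff.1 hq'
          apply SExAux.eq_pair (hisq q' g1).1 huw
          intro x hx
          by_contra hcon
          rw [not_or] at hcon
          have h6 : x ∈ W := (hWm x).2 ⟨hcon.2, hcon.1, hqU q' g1 x hx⟩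
          exact g2 (hPm x (by rw [hP]; exact h6) q' g1 hx)
        have h6 := SExAux.card_one_of Finset.sdiff_subset hfst h5
        apply Finset.Subset.antisymm hX
        intro q' hq'
        by_contra hcon
        have h7 : q' ∈ Q \ X := Finset.mem_sdiff.2 ⟨hKQ hq', hcon⟩
        have h8 : q0 ∈ Q \ X := Finset.mem_sdiff.2 ⟨hq0, fun hh => hq0K (hX hh)⟩
        have h9 := Finset.card_le_one.1 h6 q' h7 q0 h8
        rw [h9] at hq'
        exact hq0K hq'
  have h1 := hcore.toIrr.2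
  rw [← hq0e, hK, Finset.insert_erase hq0] at h1
  exact h1

theorem exists_irr {H : K5.Gr} {U : Finset ℕ} (hon : K5.On H U) (h3 : K5.Three H U)
    (hM : K5.Mac H U) : ∃ Q : Finset Quad, Irr Q ∧ gr Q = H ∧ wh Q = U := by
  obtain ⟨n, F, hF⟩ := K5.faces_of_mac hM fun a b hab => K5.edge_cyc hon h3 hab
  refine ⟨mkS H U F (fun i => U.sup id + 1 + i), mkS_irr hon h3 hF ?_ ?_, gr_mkS hon, wh_mkS hon h3⟩
  · intro i j hij
    have h1 : U.sup id + 1 + (i : ℕ) = U.sup id + 1 + (j : ℕ) := hij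
    exact Fin.ext (by omega)
  · intro i hi
    have h1 : id (U.sup id + 1 + (i : ℕ)) ≤ U.sup id := Finset.le_sup hi
    simp only [id] at h1
    omega

end K5M
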