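import Pool.Agent.Lib.K5M.SThree

/-!
# K5M.SFace: the faces of an irreducible sphere are induced and non-separating

`fv Q b` is the set of the white vertices of the face `b`.

PROOF of `Irr.ind`. Suppose `b ∉ q.2`, let `d ∈ q.2`. All four pairs of `{a, c}`, `{b, d}` are edges, so `r = ({a, c}, {b, d}) ∈ Q` (`quad_of_cycle`), and `r.1 = q.1` gives `r = q` (`fst_inj`), so `b ∈ q.2`.

PROOF of `Irr.nonsep`. Let `R = wh Q \ fv Q b`, `P ⊆ R` nonempty, `P ≠ R`, `P' = R \ P`, and suppose that no edge joins `P` to `P'`.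
Let `X = {q ∈ Q : q.1 meets P}`. Facts:
(1) `(w, c) ∈ bd X` implies `w ∈ fv Q b` (for `w ∈ P` all quads at `w` are in `X` and `dg Q = 2`; for `w ∈ P'` none is, its other white would be in `P`).
(2) `(w, b) ∉ bd X` for all `w`: the quads containing `b` have both whites in `fv Q b`, so they are not in `X`.
(3) Let `(w, c) ∈ bd X`. Then `c ≠ b`, and by evenness of `bd X` at `c` there is `w' ≠ w` with `(w', c) ∈ bd X`; `w, w' ∈ fv Q b`; so `({w, w'}, {b, c}) ∈ Q` (`quad_of_cycle`).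
(4) For `w ∈ fv Q b` let `r1 ≠ r2` be the two quads at `(w, b)` (`pair_at`), `r1.2 = {b, c1}`, `r2.2 = {b, c2}`. By (3) every `(w, c) ∈ bd X` has `c ∈ {c1, c2}`. By evenness at `w` either no edge of `bd X` is at `w`, or `c1 ≠ c2` and the edges of `bd X` at `w` are exactly
`(w, c1), (w, c2)`. In the second case call `w` full.
(5) If `w ∈ fv Q b` is not full, then by `lw` all quads at `w` are in `X` or none; `r1 ∉ X`, so none.
(6) Some `w ∈ fv Q b` is full: by `Irr.three` (`Conn (gr Q) (wh Q)`, take the two erased vertices outside `wh Q`) some edge leaves `P`; not to `P'`, so to some `w ∈ fv Q b`; the quad of this edge is in `X`, so `w` is full by (5).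
(7) If `w` is full, `r ∈ Q`, `w ∈ r.1`, `b ∈ r.2`, then the other white `w'` of `r` is full: `r` is `r1` or `r2`, `r.2 = {b, c}`, `(w, c) ∈ bd X` by (4). By (3) there are `w'' ≠ w` with `(w'', c) ∈ bd X` and `r'' = ({w, w''}, {b, c}) ∈ Q`. `r''.2 = r.2`, so `r'' = r` (`snd_inj`) and
`w'' = w'`; so `w'` has an edge of `bd X`.
(8) All `w ∈ fv Q b` are full: let `X2 = {q ∈ atb Q b : the whites of q are full}`; by (7) for an edge `(w, b)` both or none of its two quads are in `X2`, so no edge of `bd X2` is at `b`; by `lb` all quads at `b` are in `X2` (one is, by (6)).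
(9) If `w` is full then every quad `r` at `w` with `b ∉ r.2` is in `X`: `X' = X ∪ {r1, r2}` (`r1, r2 ∉ X`); the edges of `bd X'` at `w` are `{(w, c1), (w, c2)} Δ {(w, b), (w, c1)} Δ {(w, b), (w, c2)} = ∅`, so by `lw` all quads at `w` are in `X'` (`r1` is), so `r ∈ X`.
(10) The same holds for `P'` in place of `P` (with `X'' = {q ∈ Q : q.1 meets P'}`). Let `w ∈ fv Q b` (there is one). `w` has at least 3 quads (`deg_white`), exactly two of them contain `b`, so there is `r ∈ Q`, `w ∈ r.1`, `b ∉ r.2`. By (8), (9) for `P` and for `P'` the other white of `r` is in `P` and in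
`P'`: contradiction.
(Prove (1)-(9) once, for an arbitrary `P ⊆ R` without edges to `R \ P`, and use it for `P` and `P'`.)
-/

set_option autoImplicit false

namespace K5M

open Finset

open Classical in
/-- The white vertices of the face `b`. -/
noncomputable def fv (Q : Finset Quad) (b : ℕ) : Finset ℕ :=
  (wh Q).filter (fun w => (w, b) ∈ EdS Q)

namespace SFaceAux

theorem mem_edS {Q : Finset Quad} {w c : ℕ} : (w, c) ∈ EdS Q ↔ ∃ q ∈ Q, w ∈ q.1 ∧ c ∈ q.2 := by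
  rw [mem_EdS]
  exact exists_congr fun q => and_congr_right fun _ => mem_ed

theorem mem_fv {Q : Finset Quad} {b w : ℕ} : w ∈ fv Q b ↔ ∃ q ∈ Q, w ∈ q.1 ∧ b ∈ q.2 := by
  classical
  unfold fv
  rw [Finset.mem_filter, mem_edS]
  constructor
  · rintro ⟨_, h⟩
    exact h
  · rintro ⟨q, hq, h1, h2⟩
    exact ⟨Finset.mem_biUnion.2 ⟨q, hq, h1⟩, q, hq, h1, h2⟩

theorem fv_edge {Q : Finset Quad} {b w : ℕ} (h : w ∈ fv Q b) : (w, b) ∈ EdS Q :=
  mem_edS.2 (mem_fv.1 h)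

theorem dg_filter {X Q : Finset Quad} {e : Ed} (hX : X ⊆ Q)
    (h : ∀ q ∈ Q, e ∈ ed q → q ∈ X) : dg X e = dg Q e := by
  unfold dg
  congr 1
  ext q
  rw [Finset.mem_filter, Finset.mem_filter]
  exact ⟨fun h1 => ⟨hX h1.1, h1.2⟩, fun h1 => ⟨h q h1.1 h1.2, h1.2⟩⟩

theorem not_bd_of_full {X Q : Finset Quad} (h : Sph Q) {e : Ed} (hX : X ⊆ Q)
    (h1 : ∀ q ∈ Q, e ∈ ed q → q ∈ X) : e ∉ bd X := by
  intro h2
  have h3 : e ∈ EdS Q := EdS_mono hX (bd_sub X h2)
  rw [mem_bd, dg_filter hX h1, h.two e h3] at h2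
  exact absurd h2 (by decide)

theorem evn_other {N : Finset Quad} (h : ∀ q ∈ N, IsQ q) {w c : ℕ} (he : (w, c) ∈ bd N) :
    (∃ w', w' ≠ w ∧ (w', c) ∈ bd N) ∧ ∃ c', c' ≠ c ∧ (w, c') ∈ bd N := by
  have hE := Evn_bd h
  constructor
  · have h1 : (w, c) ∈ (bd N).filter (fun e => e.2 = c) := Finset.mem_filter.2 ⟨he, rfl⟩
    have h2 : 1 < ((bd N).filter (fun e => e.2 = c)).card := by
      have h3 := Finset.card_pos.2 ⟨_, h1⟩
      rcases hE.2 c with ⟨k, hk⟩
      omega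
    obtain ⟨e, he1, he2⟩ := Finset.exists_mem_ne h2 (w, c)
    rw [Finset.mem_filter] at he1
    refine ⟨e.1, ?_, ?_⟩
    · intro h3
      exact he2 (Prod.ext h3 he1.2)
    · rw [← he1.2]
      exact he1.1
  · have h1 : (w, c) ∈ (bd N).filter (fun e => e.1 = w) := Finset.mem_filter.2 ⟨he, rfl⟩
    have h2 : 1 < ((bd N).filter (fun e => e.1 = w)).card := by
      have h3 := Finset.card_pos.2 ⟨_, h1⟩
      rcases hE.1 w with ⟨k, hk⟩
      omega
    obtain ⟨e, he1, he2⟩ := Finset.exists_mem_ne h2 (w, c)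
    rw [Finset.mem_filter] at he1
    refine ⟨e.2, ?_, ?_⟩
    · intro h3
      exact he2 (Prod.ext he1.2 h3)
    · rw [← he1.2]
      exact he1.1

/-- a set of vertices off the face `b`, closed under neighbours off the face -/
structure Sep (Q : Finset Quad) (b : ℕ) (P : Finset ℕ) : Prop where
  sub : ∀ u ∈ P, u ∉ fv Q b
  wh : ∀ u ∈ P, u ∈ wh Q
  cl : ∀ q ∈ Q, ∀ u ∈ q.1, ∀ v ∈ q.1, u ∈ P → v ∈ P ∨ v ∈ fv Q b

open Classical in
/-- the quads that meet `P` -/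
noncomputable def XX (Q : Finset Quad) (P : Finset ℕ) : Finset Quad :=
  Q.filter (fun q => ∃ u ∈ q.1, u ∈ P)

theorem mem_XX {Q : Finset Quad} {P : Finset ℕ} {q : Quad} :
    q ∈ XX Q P ↔ q ∈ Q ∧ ∃ u ∈ q.1, u ∈ P := by
  unfold XX
  exact Finset.mem_filter

theorem XX_sub (Q : Finset Quad) (P : Finset ℕ) : XX Q P ⊆ Q := fun _ hq => (mem_XX.1 hq).1

/-- `w` has an edge of the boundary -/
def Full (Q : Finset Quad) (P : Finset ℕ) (w : ℕ) : Prop := ∃ c, (w, c) ∈ bd (XX Q P)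

section

variable {Q : Finset Quad} {b : ℕ} {P : Finset ℕ}

theorem Sep.one (hS : Sep Q b P) (h : Irr Q) {w c : ℕ} (he : (w, c) ∈ bd (XX Q P)) :
    w ∈ fv Q b := by
  by_contra hw
  obtain ⟨q, hq, hwq, hcq⟩ := mem_edS.1 (bd_sub _ he)
  obtain ⟨hqQ, u, hu, huP⟩ := mem_XX.1 hq
  have hwP : w ∈ P := (hS.cl q hqQ u hu w hwq huP).resolve_right hw
  refine not_bd_of_full h.toSph (XX_sub Q P) ?_ he
  intro r hr her
  exact mem_XX.2 ⟨hr, w, (mem_ed.1 her).1, hwP⟩

theorem Sep.two (hS : Sep Q b P) {q : Quad} (hq : q ∈ XX Q P) : b ∉ q.2 := by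
  intro hb
  obtain ⟨hqQ, u, hu, huP⟩ := mem_XX.1 hq
  exact hS.sub u huP (mem_fv.2 ⟨q, hqQ, hu, hb⟩)

theorem Sep.ne (hS : Sep Q b P) {w c : ℕ} (he : (w, c) ∈ bd (XX Q P)) : b ≠ c := by
  rintro rfl
  obtain ⟨q, hq, _, hcq⟩ := mem_edS.1 (bd_sub _ he)
  exact hS.two hq hcq

theorem Sep.quad (hS : Sep Q b P) (h : Irr Q) {w c : ℕ} (he : (w, c) ∈ bd (XX Q P)) :
    ∃ w', w' ≠ w ∧ (w', c) ∈ bd (XX Q P) ∧
      ((({w, w'} : Finset ℕ), ({b, c} : Finset ℕ)) : Quad) ∈ Q := by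
  obtain ⟨w', hw', he'⟩ := (evn_other (fun q hq => h.isq q (XX_sub Q P hq)) he).1
  refine ⟨w', hw', he', ?_⟩
  exact h.quad_of_cycle hw'.symm (hS.ne he) (fv_edge (hS.one h he))
    (EdS_mono (XX_sub Q P) (bd_sub _ he)) (fv_edge (hS.one h he'))
    (EdS_mono (XX_sub Q P) (bd_sub _ he'))

/-- everything about a full vertex -/
theorem Sep.full (hS : Sep Q b P) (h : Irr Q) {w : ℕ} (hw : Full Q P w) :
    ∃ c c' w1 w2, c ≠ c' ∧ b ≠ c ∧ b ≠ c' ∧
      ((({w, w1} : Finset ℕ), ({b, c} : Finset ℕ)) : Quad) ∈ Q ∧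
      ((({w, w2} : Finset ℕ), ({b, c'} : Finset ℕ)) : Quad) ∈ Q ∧
      (w, c) ∈ bd (XX Q P) ∧ (w, c') ∈ bd (XX Q P) ∧ (w1, c) ∈ bd (XX Q P) ∧
      (w2, c') ∈ bd (XX Q P) ∧
      (∀ r ∈ Q, w ∈ r.1 → b ∈ r.2 → r = ({w, w1}, {b, c}) ∨ r = ({w, w2}, {b, c'})) ∧
      ∀ d, (w, d) ∈ bd (XX Q P) → d = c ∨ d = c' := by
  obtain ⟨c, hc⟩ := hw
  obtain ⟨c', hcc', hc'⟩ := (evn_other (fun q hq => h.isq q (XX_sub Q P hq)) hc).2
  obtain ⟨w1, hw1, h1, hr1⟩ := hS.quad h hc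
  obtain ⟨w2, hw2, h2, hr2⟩ := hS.quad h hc'
  have hbc := hS.ne hc
  have hbc' := hS.ne hc'
  have hne : ((({w, w2} : Finset ℕ), ({b, c'} : Finset ℕ)) : Quad) ≠ ({w, w1}, {b, c}) := by
    intro h3
    have h4 : c' ∈ ({b, c} : Finset ℕ) := by
      have h5 : ({b, c'} : Finset ℕ) = {b, c} := congrArg Prod.snd h3
      rw [← h5]
      simp
    simp only [Finset.mem_insert, Finset.mem_singleton] at h4
    rcases h4 with h4 | h4
    · exact hbc' h4.symm
    · exact hcc' h4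
  obtain ⟨q', hq', hq'ne, hq'w, hq'b, hall⟩ := h.toSph.pair_at hr1 (w := w) (b := b)
    (by simp) (by simp)
  have h5 : ((({w, w2} : Finset ℕ), ({b, c'} : Finset ℕ)) : Quad) = q' :=
    (hall _ hr2 (by simp) (by simp)).resolve_left hne
  have hall' : ∀ r ∈ Q, w ∈ r.1 → b ∈ r.2 →
      r = ({w, w1}, {b, c}) ∨ r = ({w, w2}, {b, c'}) := by
    intro r hr hrw hrb
    rw [h5]
    exact hall r hr hrw hrb
  refine ⟨c, c', w1, w2, hcc'.symm, hbc, hbc', hr1, hr2, hc, hc', h1, h2, hall', ?_⟩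
  intro d hd
  obtain ⟨w3, hw3, h3, hr3⟩ := hS.quad h hd
  have hbd := hS.ne hd
  rcases hall' _ hr3 (by simp) (by simp) with h6 | h6
  · left
    have h7 : d ∈ ({b, c} : Finset ℕ) := by
      have h8 : ({b, d} : Finset ℕ) = {b, c} := congrArg Prod.snd h6
      rw [← h8]
      simp
    simp only [Finset.mem_insert, Finset.mem_singleton] at h7
    exact h7.resolve_left hbd.symm
  · right
    have h7 : d ∈ ({b, c'} : Finset ℕ) := by
      have h8 : ({b, d} : Finset ℕ) = {b, c'} := congrArg Prod.snd h6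
      rw [← h8]
      simp
    simp only [Finset.mem_insert, Finset.mem_singleton] at h7
    exact h7.resolve_left hbd.symm

theorem Sep.five (hS : Sep Q b P) (h : Irr Q) {w : ℕ} (hw : w ∈ fv Q b) (hn : ¬ Full Q P w)
    {q : Quad} (hq : q ∈ Q) (hwq : w ∈ q.1) : q ∉ XX Q P := by
  obtain ⟨q0, hq0, hw0, hb0⟩ := mem_fv.1 hw
  rcases h.lw (XX Q P) (XX_sub Q P) w (fun c hc => hn ⟨c, hc⟩) with h1 | h1
  · exact absurd hb0 (hS.two (h1 q0 hq0 hw0))
  · exact h1 q hq hwq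

theorem Sep.seven (hS : Sep Q b P) (h : Irr Q) {w : ℕ} (hw : Full Q P w) {r : Quad} (hr : r ∈ Q)
    (hwr : w ∈ r.1) (hbr : b ∈ r.2) {w' : ℕ} (hw' : w' ∈ r.1) : Full Q P w' := by
  obtain ⟨c, c', w1, w2, _, _, _, _, _, h1, h2, h3, h4, hall, _⟩ := hS.full h hw
  rcases hall r hr hwr hbr with h5 | h5
  · rw [h5] at hw'
    simp only [Finset.mem_insert, Finset.mem_singleton] at hw'
    rcases hw' with rfl | rfl
    · exact hw
    · exact ⟨c, h3⟩
  · rw [h5] at hw'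
    simp only [Finset.mem_insert, Finset.mem_singleton] at hw'
    rcases hw' with rfl | rfl
    · exact hw
    · exact ⟨c', h4⟩

theorem conn_wh (h : Irr Q) : P512.Conn (gr Q) (wh Q) := by
  obtain ⟨u, hu⟩ := Infinite.exists_notMem_finset (wh Q)
  have h1 := h.three.2 u u
  rwa [Finset.erase_eq_of_notMem hu, Finset.erase_eq_of_notMem hu] at h1

theorem Sep.six (hS : Sep Q b P) (h : Irr Q) (hne : P.Nonempty) (hf : (fv Q b).Nonempty) :
    ∃ w, Full Q P w := by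
  have h1 := (conn_wh h).2 P (fun u hu => hS.wh u hu) hne ?_
  · obtain ⟨u, hu, v, hv, hvP, hne', q, hq, hq1⟩ := h1
    have huq : u ∈ q.1 := by
      rw [hq1]
      simp
    have hvq : v ∈ q.1 := by
      rw [hq1]
      simp
    have hvf : v ∈ fv Q b := (hS.cl q hq u huq v hvq hu).resolve_left hvP
    by_contra hno
    exact hS.five h hvf (fun hh => hno ⟨v, hh⟩) hq hvq (mem_XX.2 ⟨hq, u, huq, hu⟩)
  · intro hP
    obtain ⟨w, hw⟩ := hf
    have hwP : w ∈ P := by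
      rw [hP]
      obtain ⟨q, hq, hwq, _⟩ := mem_fv.1 hw
      exact Finset.mem_biUnion.2 ⟨q, hq, hwq⟩
    exact hS.sub w hwP hw

theorem Sep.eight (hS : Sep Q b P) (h : Irr Q) (hne : P.Nonempty) {w : ℕ} (hw : w ∈ fv Q b) :
    Full Q P w := by
  classical
  obtain ⟨w0, hw0⟩ := hS.six h hne ⟨w, hw⟩
  set X2 : Finset Quad := Q.filter (fun q => b ∈ q.2 ∧ ∀ v ∈ q.1, Full Q P v) with hX2
  have hsub : X2 ⊆ Q := Finset.filter_subset _ _
  have hb : ∀ v, (v, b) ∉ bd X2 := by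
    intro v hv
    obtain ⟨q, hq, hvq, hbq⟩ := mem_edS.1 (bd_sub _ hv)
    rw [hX2, Finset.mem_filter] at hq
    refine not_bd_of_full h.toSph hsub ?_ hv
    intro r hr her
    rw [hX2, Finset.mem_filter]
    exact ⟨hr, (mem_ed.1 her).2, fun v' hv' => hS.seven h (hq.2.2 v hvq) hr (mem_ed.1 her).1
      (mem_ed.1 her).2 hv'⟩
  obtain ⟨c0, hc0⟩ := hw0
  obtain ⟨r0, hr0, hwr0, hbr0⟩ := mem_fv.1 (hS.one h hc0)
  have hr0X : r0 ∈ X2 := by
    rw [hX2, Finset.mem_filter]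
    exact ⟨hr0, hbr0, fun v hv => hS.seven h ⟨c0, hc0⟩ hr0 hwr0 hbr0 hv⟩
  obtain ⟨q, hq, hwq, hbq⟩ := mem_fv.1 hw
  rcases h.lb X2 hsub b hb with h1 | h1
  · have h2 := h1 q hq hbq
    rw [hX2, Finset.mem_filter] at h2
    exact h2.2.2 w hwq
  · exact absurd hr0X (h1 r0 hr0 hbr0)

theorem Sep.nine (hS : Sep Q b P) (h : Irr Q) {w : ℕ} (hw : Full Q P w) {r : Quad} (hr : r ∈ Q)
    (hwr : w ∈ r.1) (hbr : b ∉ r.2) : r ∈ XX Q P := by
  classical
  obtain ⟨c, c', w1, w2, hcc', hbc, hbc', hr1, hr2, h1, h2, h3, h4, hall, honly⟩ := hS.full h hw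
  set r1 : Quad := ({w, w1}, {b, c}) with hr1d
  set r2 : Quad := ({w, w2}, {b, c'}) with hr2d
  have hn1 : r1 ∉ XX Q P := fun h5 => hS.two h5 (by simp [hr1d])
  have hn2 : r2 ∉ XX Q P := fun h5 => hS.two h5 (by simp [hr2d])
  have hne : r1 ≠ r2 := by
    intro h5
    have h6 : c ∈ ({b, c'} : Finset ℕ) := by
      have h7 : ({b, c} : Finset ℕ) = {b, c'} := congrArg Prod.snd h5
      rw [← h7]
      simp
    simp only [Finset.mem_insert, Finset.mem_singleton] at h6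
    rcases h6 with h6 | h6
    · exact hbc h6.symm
    · exact hcc' h6
  have hd1 : Disjoint ({r1} : Finset Quad) {r2} := Finset.disjoint_singleton.2 hne
  have hd2 : Disjoint (XX Q P) ({r1} ∪ {r2}) := by
    rw [Finset.disjoint_right]
    intro q hq
    rw [Finset.mem_union, Finset.mem_singleton, Finset.mem_singleton] at hq
    rcases hq with rfl | rfl
    · exact hn1
    · exact hn2
  have hsub : XX Q P ∪ ({r1} ∪ {r2}) ⊆ Q := by
    intro q hq
    rw [Finset.mem_union, Finset.mem_union, Finset.mem_singleton, Finset.mem_singleton] at hq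
    rcases hq with hq | rfl | rfl
    · exact XX_sub Q P hq
    · exact hr1
    · exact hr2
  have hbd : ∀ d, (w, d) ∉ bd (XX Q P ∪ ({r1} ∪ {r2})) := by
    intro d hd
    rw [bd_union hd2, bd_union hd1, bd_singleton, bd_singleton] at hd
    have e0 : (w, d) ∈ bd (XX Q P) ↔ d = c ∨ d = c' := by
      constructor
      · exact honly d
      · rintro (rfl | rfl)
        · exact h1
        · exact h2
    have e1 : (w, d) ∈ ed r1 ↔ d = b ∨ d = c := by
      rw [mem_ed]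
      simp [hr1d]
    have e2 : (w, d) ∈ ed r2 ↔ d = b ∨ d = c' := by
      rw [mem_ed]
      simp [hr2d]
    simp only [Finset.mem_symmDiff, e0, e1, e2] at hd
    by_cases k1 : d = b
    · subst k1
      simp [hbc, hbc'] at hd
    · by_cases k2 : d = c
      · subst k2
        simp [hcc', k1] at hd
      · simp [k1, k2] at hd
  rcases h.lw _ hsub w hbd with h5 | h5
  · have h6 := h5 r hr hwr
    rw [Finset.mem_union, Finset.mem_union, Finset.mem_singleton, Finset.mem_singleton] at h6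
    rcases h6 with h6 | rfl | rfl
    · exact h6
    · exact absurd (by simp [hr1d]) hbr
    · exact absurd (by simp [hr2d]) hbr
  · exact absurd (Finset.mem_union_right _ (Finset.mem_union_left _ (Finset.mem_singleton_self r1)))
      (h5 r1 hr1 (by simp [hr1d]))

theorem third (h : Irr Q) {w : ℕ} (hw : w ∈ fv Q b) : ∃ r ∈ Q, w ∈ r.1 ∧ b ∉ r.2 := by
  classical
  obtain ⟨q, hq, hwq, hbq⟩ := mem_fv.1 hw
  obtain ⟨q', hq', _, _, _, hall⟩ := h.toSph.pair_at hq hwq hbq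
  have h3 := h.deg_white (w := w) (Finset.mem_biUnion.2 ⟨q, hq, hwq⟩)
  have h2 : ({q, q'} : Finset Quad).card < (atw Q w).card :=
    lt_of_le_of_lt Finset.card_le_two (by omega)
  obtain ⟨r, hr, hr'⟩ := Finset.exists_mem_notMem_of_card_lt_card h2
  unfold atw at hr
  rw [Finset.mem_filter] at hr
  refine ⟨r, hr.1, hr.2, fun hb => hr' ?_⟩
  rw [Finset.mem_insert, Finset.mem_singleton]
  exact hall r hr.1 hr.2 hb

end

end SFaceAux

theorem Irr.ind {Q : Finset Quad} (h : Irr Q) {a b c : ℕ} (hac : a ≠ c) (ha : (a, b) ∈ EdS Q)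
    (hc : (c, b) ∈ EdS Q) {q : Quad} (hq : q ∈ Q) (he : q.1 = {a, c}) : b ∈ q.2 := by
  by_contra hb
  obtain ⟨d, hd⟩ : q.2.Nonempty := by
    rw [← Finset.card_pos, (h.isq q hq).2]
    decide
  have hbd : b ≠ d := by
    rintro rfl
    exact hb hd
  have h1 : (a, d) ∈ EdS Q := SFaceAux.mem_edS.2 ⟨q, hq, by rw [he]; simp, hd⟩
  have h2 : (c, d) ∈ EdS Q := SFaceAux.mem_edS.2 ⟨q, hq, by rw [he]; simp, hd⟩
  have h3 := h.quad_of_cycle hac hbd ha h1 hc h2
  have h4 := h.fst_inj h3 hq he.symm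
  apply hb
  rw [← h4]
  simp

/-- A quad has the black `b` iff its edge lies in the face `b`. -/
theorem Irr.mem_snd {Q : Finset Quad} (h : Irr Q) {b : ℕ} {q : Quad} (hq : q ∈ Q) :
    b ∈ q.2 ↔ q.1 ⊆ fv Q b := by
  constructor
  · intro hb w hw
    exact SFaceAux.mem_fv.2 ⟨q, hq, hw, hb⟩
  · intro hsub
    obtain ⟨a, c, hac, he⟩ := Finset.card_eq_two.1 (h.isq q hq).1
    have ha : a ∈ fv Q b := hsub (by rw [he]; simp)
    have hc : c ∈ fv Q b := hsub (by rw [he]; simp)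
    exact h.ind hac (SFaceAux.fv_edge ha) (SFaceAux.fv_edge hc) hq he

theorem Irr.nonsep {Q : Finset Quad} (h : Irr Q) {b : ℕ} (hb : b ∈ bl Q) {P : Finset ℕ}
    (hP : P ⊆ wh Q \ fv Q b) (hne : P.Nonempty) (hne' : P ≠ wh Q \ fv Q b) :
    ∃ u ∈ P, ∃ v ∈ wh Q \ fv Q b, v ∉ P ∧ (gr Q).Adj u v := by
  classical
  by_contra hno
  push Not at hno
  have hwh : ∀ q ∈ Q, ∀ u ∈ q.1, u ∈ wh Q := fun q hq u hu => Finset.mem_biUnion.2 ⟨q, hq, hu⟩
  have hadj : ∀ q ∈ Q, ∀ u ∈ q.1, ∀ v ∈ q.1, u ≠ v → (gr Q).Adj u v := by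
    intro q hq u hu v hv huv
    refine ⟨huv, q, hq, ?_⟩
    symm
    apply Finset.eq_of_subset_of_card_le
    · intro x hx
      simp only [Finset.mem_insert, Finset.mem_singleton] at hx
      rcases hx with rfl | rfl
      · exact hu
      · exact hv
    · rw [(h.isq q hq).1, Finset.card_pair huv]
  have hS : SFaceAux.Sep Q b P := by
    refine ⟨fun u hu => (Finset.mem_sdiff.1 (hP hu)).2, fun u hu => (Finset.mem_sdiff.1 (hP hu)).1,
      ?_⟩
    intro q hq u hu v hv huP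
    by_contra hc
    push Not at hc
    have huv : u ≠ v := by
      rintro rfl
      exact hc.1 huP
    exact hno u huP v (Finset.mem_sdiff.2 ⟨hwh q hq v hv, hc.2⟩) hc.1 (hadj q hq u hu v hv huv)
  have hS' : SFaceAux.Sep Q b ((wh Q \ fv Q b) \ P) := by
    refine ⟨fun u hu => (Finset.mem_sdiff.1 (Finset.mem_sdiff.1 hu).1).2,
      fun u hu => (Finset.mem_sdiff.1 (Finset.mem_sdiff.1 hu).1).1, ?_⟩
    intro q hq u hu v hv huP
    by_contra hc
    push Not at hc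
    rw [Finset.mem_sdiff] at huP
    have hvP : v ∈ P := by
      by_contra hvP
      exact hc.1 (Finset.mem_sdiff.2 ⟨Finset.mem_sdiff.2 ⟨hwh q hq v hv, hc.2⟩, hvP⟩)
    have huv : v ≠ u := by
      rintro rfl
      exact huP.2 hvP
    exact hno v hvP u huP.1 huP.2 (hadj q hq v hv u hu huv)
  have hne2 : ((wh Q \ fv Q b) \ P).Nonempty := by
    rw [Finset.sdiff_nonempty]
    intro h1
    exact hne' (Finset.Subset.antisymm hP h1)
  obtain ⟨q, hq, hbq⟩ := Finset.mem_biUnion.1 hb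
  obtain ⟨w, hw⟩ : q.1.Nonempty := by
    rw [← Finset.card_pos, (h.isq q hq).1]
    decide
  have hwf : w ∈ fv Q b := SFaceAux.mem_fv.2 ⟨q, hq, hw, hbq⟩
  obtain ⟨r, hr, hwr, hbr⟩ := SFaceAux.third h hwf
  obtain ⟨_, u, hu, huP⟩ := SFaceAux.mem_XX.1 (hS.nine h (hS.eight h hne hwf) hr hwr hbr)
  obtain ⟨_, v, hv, hvP⟩ := SFaceAux.mem_XX.1 (hS'.nine h (hS'.eight h hne2 hwf) hr hwr hbr)
  have huw : u ≠ w := by
    rintro rfl
    exact hS.sub u huP hwf
  have hvw : v ≠ w := by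
    rintro rfl
    exact hS'.sub v hvP hwf
  have huv : u ≠ v := by
    rintro rfl
    exact (Finset.mem_sdiff.1 hvP).2 huP
  have h3 : ({u, v, w} : Finset ℕ).card ≤ r.1.card := by
    apply Finset.card_le_card
    intro x hx
    simp only [Finset.mem_insert, Finset.mem_singleton] at hx
    rcases hx with rfl | rfl | rfl
    · exact hu
    · exact hv
    · exact hwr
  rw [(h.isq r hr).1, Finset.card_eq_three.2 ⟨u, v, w, huv, huw, hvw, rfl⟩] at h3
  omega

end K5M
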