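import Pool.Agent.Lib.K5M.SMk
import Pool.Agent.Lib.K5M.A1

/-!
# K5M.SInj: the quads of a planar graph: connected links, sets without boundary

PROOFS. `Q = mkS H U F β`. For `X ⊆ Q` and a vertex `w` let `A` be the set of the neighbours `u` of `w` such that the quad of the edge `wu` is in `X`. For every `i`: `∑ u ∈ A, F i w u` is (mod 2) the number of the quads of `X` at `(w, β i)`, i.e. `dg X (w, β i)`
(`mkS_fst`: the quad of the edge `wu` is determined; it contains `β i` iff `F i w u ≠ 0`; a nonzero element of `ZMod 2` is `1`).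
`mkS_lw`: if no edge of `bd X` is at `w`, all these sums are `0`, so by `K5.star_min` `A` is empty or contains all neighbours of `w` (if `w ∉ U` there is no quad at `w`).
`mkS_inj`: let `bd X = ∅` and let `P` be the set of the `w ∈ U` all of whose quads are in `X`; by `mkS_lw` no quad at the other vertices of `U` is in `X`. There is no edge between `P` and `U \ P` (its quad would be in `X` and not in `X`). `Conn H U` (from `Three`, erase twice a number outside `U`) gives `P = ∅`, so `X = ∅`,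
or `P = U`, so `X = Q`.
-/

set_option autoImplicit false

namespace K5M

open Finset

variable {H : K5.Gr} {U : Finset ℕ} {n : ℕ} {F : Fin n → ℕ → ℕ → ZMod 2} {β : Fin n → ℕ}

namespace SInjAux

/-- the quads at `w` are those of the edges at `w` -/
theorem rep (hon : K5.On H U) (hF : K5.Faces H U n F) {q : Quad} (hq : q ∈ mkS H U F β) {w : ℕ}
    (hw : w ∈ q.1) :
    ∃ u, H.Adj w u ∧ q = ({w, u}, (univ.filter (fun i => F i w u ≠ 0)).image β) := by
  obtain ⟨a, b, hab, h1⟩ := (mem_mkS hon).mp hq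
  have h2 : w ∈ ({a, b} : Finset ℕ) := by
    rw [h1] at hw
    exact hw
  rw [Finset.mem_insert, Finset.mem_singleton] at h2
  rcases h2 with h2 | h2
  · rw [h2]
    exact ⟨b, hab, h1⟩
  · rw [h2]
    refine ⟨a, hab.symm, ?_⟩
    rw [h1, Finset.pair_comm]
    have h3 : ∀ i, F i a b = F i b a := fun i => (hF.cyc i).symm a b
    simp only [h3]

theorem val : ∀ x : ZMod 2, x = if x ≠ 0 then 1 else 0 := by decide

theorem card_eq {α : Type} (S : Finset α) (z : α → ZMod 2) :
    (((S.filter (fun e => z e ≠ 0)).card : ℕ) : ZMod 2) = ∑ e ∈ S, z e := by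
  rw [Finset.card_filter, Nat.cast_sum]
  refine Finset.sum_congr rfl fun e _ => ?_
  rw [Nat.cast_ite, Nat.cast_one, Nat.cast_zero]
  exact (val (z e)).symm

theorem not_odd_cast (m : ℕ) (h : ¬ Odd m) : ((m : ℕ) : ZMod 2) = 0 := by
  rw [ZMod.natCast_eq_zero_iff, ← even_iff_two_dvd]
  exact Nat.not_odd_iff_even.mp h

theorem pair_inj {w u u' : ℕ} (hu : w ≠ u) (h : ({w, u} : Finset ℕ) = {w, u'}) : u = u' := by
  have h1 : u ∈ ({w, u'} : Finset ℕ) := by
    rw [← h]
    simp
  rw [Finset.mem_insert, Finset.mem_singleton] at h1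
  rcases h1 with h1 | h1
  · exact absurd h1.symm hu
  · exact h1

end SInjAux

theorem mkS_lw (hon : K5.On H U) (h3 : K5.Three H U) (hF : K5.Faces H U n F)
    (hβ : Function.Injective β) {X : Finset Quad} (hX : X ⊆ mkS H U F β) (w : ℕ)
    (hb : ∀ b, (w, b) ∉ bd X) :
    (∀ q ∈ mkS H U F β, w ∈ q.1 → q ∈ X) ∨ (∀ q ∈ mkS H U F β, w ∈ q.1 → q ∉ X) := by
  classical
  by_cases hwU : w ∈ U
  · obtain ⟨qe, hqe⟩ : ∃ qe : ℕ → Quad, qe = fun u =>
      (({w, u} : Finset ℕ), (univ.filter (fun i => F i w u ≠ 0)).image β) := ⟨_, rfl⟩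
    have hqe1 : ∀ u, (qe u).1 = {w, u} := fun u => by rw [hqe]
    have hqe2 : ∀ u i, β i ∈ (qe u).2 ↔ F i w u ≠ 0 := by
      intro u i
      rw [hqe]
      show β i ∈ (univ.filter (fun i => F i w u ≠ 0)).image β ↔ _
      rw [Finset.mem_image]
      constructor
      · rintro ⟨j, hj, hji⟩
        rw [← hβ hji]
        exact (Finset.mem_filter.mp hj).2
      · exact fun h1 => ⟨i, Finset.mem_filter.mpr ⟨Finset.mem_univ i, h1⟩, rfl⟩
    have hrep : ∀ q ∈ mkS H U F β, w ∈ q.1 → ∃ u, H.Adj w u ∧ q = qe u := by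
      intro q hq hw
      obtain ⟨u, hu, h1⟩ := SInjAux.rep hon hF hq hw
      refine ⟨u, hu, ?_⟩
      rw [h1, hqe]
    obtain ⟨A, hA⟩ : ∃ A, A = U.filter (fun u => H.Adj w u ∧ qe u ∈ X) := ⟨_, rfl⟩
    have hAm : ∀ u, u ∈ A ↔ H.Adj w u ∧ qe u ∈ X := fun u => by
      rw [hA, Finset.mem_filter]
      exact ⟨fun h1 => h1.2, fun h1 => ⟨hon u w h1.1.symm, h1⟩⟩
    have hsum : ∀ i, ∑ u ∈ A, F i w u = 0 := by
      intro i
      rw [← SInjAux.card_eq]
      have h1 : (A.filter (fun u => F i w u ≠ 0)).card = dg X (w, β i) := by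
        unfold dg
        refine Finset.card_bij (fun u _ => qe u) ?_ ?_ ?_
        · intro u hu
          rw [Finset.mem_filter] at hu ⊢
          refine ⟨((hAm u).mp hu.1).2, mem_ed.mpr ⟨?_, (hqe2 u i).mpr hu.2⟩⟩
          show w ∈ (qe u).1
          rw [hqe1]
          exact Finset.mem_insert_self _ _
        · intro u hu u' hu' h2
          rw [Finset.mem_filter] at hu hu'
          have h3 := congrArg Prod.fst h2
          rw [hqe1, hqe1] at h3
          exact SInjAux.pair_inj ((hAm u).mp hu.1).1.ne h3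
        · intro q hq
          rw [Finset.mem_filter] at hq
          have h4 := mem_ed.mp hq.2
          obtain ⟨u, hu, h5⟩ := hrep q (hX hq.1) h4.1
          refine ⟨u, Finset.mem_filter.mpr ⟨(hAm u).mpr ⟨hu, ?_⟩, ?_⟩, h5.symm⟩
          · rw [← h5]
            exact hq.1
          · rw [← hqe2, ← h5]
            exact h4.2
      rw [h1]
      exact SInjAux.not_odd_cast _ (fun h2 => hb (β i) (mem_bd.mpr h2))
    by_cases hne : A.Nonempty
    · by_cases hall : ∃ u, H.Adj w u ∧ u ∉ A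
      · obtain ⟨i, hi⟩ := K5.star_min hon h3 hF hwU A (fun u hu => ((hAm u).mp hu).1) hne hall
        exact absurd (hsum i) hi
      · left
        intro q hq hw
        obtain ⟨u, hu, h1⟩ := hrep q hq hw
        rw [h1]
        by_contra h2
        exact hall ⟨u, hu, fun h3 => h2 ((hAm u).mp h3).2⟩
    · right
      intro q hq hw hqX
      obtain ⟨u, hu, h1⟩ := hrep q hq hw
      exact hne ⟨u, (hAm u).mpr ⟨hu, h1 ▸ hqX⟩⟩
  · left
    intro q hq hw
    obtain ⟨u, hu, _⟩ := SInjAux.rep hon hF hq hw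
    exact absurd (hon w u hu) hwU

theorem mkS_inj (hon : K5.On H U) (h3 : K5.Three H U) (hF : K5.Faces H U n F)
    (hβ : Function.Injective β) {X : Finset Quad} (hX : X ⊆ mkS H U F β) (hb : bd X = ∅) :
    X = ∅ ∨ X = mkS H U F β := by
  classical
  have hlw := fun w => mkS_lw hon h3 hF hβ hX w (fun b h1 => by
    rw [hb] at h1
    exact absurd h1 (Finset.notMem_empty _))
  obtain ⟨P, hP⟩ : ∃ P, P = U.filter (fun w => ∀ q ∈ mkS H U F β, w ∈ q.1 → q ∈ X) := ⟨_, rfl⟩
  have hPm : ∀ w, w ∈ P ↔ w ∈ U ∧ ∀ q ∈ mkS H U F β, w ∈ q.1 → q ∈ X := fun w => by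
    rw [hP, Finset.mem_filter]
  have hnone : ∀ w ∈ U, w ∉ P → ∀ q ∈ mkS H U F β, w ∈ q.1 → q ∉ X := by
    intro w hw hwP
    rcases hlw w with h1 | h1
    · exact absurd ((hPm w).mpr ⟨hw, h1⟩) hwP
    · exact h1
  have hwhite : ∀ q ∈ mkS H U F β, ∃ w ∈ U, w ∈ q.1 := by
    intro q hq
    obtain ⟨w, hw⟩ : q.1.Nonempty :=
      Finset.card_pos.mp (by rw [(mkS_isq hon hF hβ q hq).1]; norm_num)
    obtain ⟨u, hu, _⟩ := SInjAux.rep hon hF hq hw
    exact ⟨w, hon w u hu, hw⟩
  have hconn : P512.Conn H U := by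
    obtain ⟨x, hx⟩ := Infinite.exists_notMem_finset U
    have h1 := h3.2 x x
    rw [Finset.erase_eq_of_notMem hx, Finset.erase_eq_of_notMem hx] at h1
    exact h1
  have hPU : P ⊆ U := fun w hw => ((hPm w).mp hw).1
  by_cases hPne : P.Nonempty
  · by_cases hPe : P = U
    · right
      refine Finset.Subset.antisymm hX fun q hq => ?_
      obtain ⟨w, hw, hwq⟩ := hwhite q hq
      rw [← hPe] at hw
      exact ((hPm w).mp hw).2 q hq hwq
    · exfalso
      obtain ⟨a, ha, b, hbU, hbP, hab⟩ := hconn.2 P hPU hPne hPe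
      have hq : (({a, b} : Finset ℕ), (univ.filter (fun i => F i a b ≠ 0)).image β) ∈
          mkS H U F β := (mem_mkS hon).mpr ⟨a, b, hab, rfl⟩
      have h1 := ((hPm a).mp ha).2 _ hq (Finset.mem_insert_self _ _)
      exact hnone b hbU hbP _ hq (Finset.mem_insert_of_mem (Finset.mem_singleton_self _)) h1
  · left
    rw [Finset.eq_empty_iff_forall_notMem]
    intro q hq
    obtain ⟨w, hw, hwq⟩ := hwhite q (hX hq)
    exact hnone w hw (fun h1 => hPne ⟨w, h1⟩) q (hX hq) hwq hq

end K5M
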