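import Pool.Agent.Lib.K5M.SDeg
import Pool.Agent.Lib.K5M.SFred
import Pool.Agent.Lib.K5M.A2

/-!
# K5M.SPrim: primal exactness: an even set of edges of the graph is a sum of faces

`Z ⊆ Q` with an even number of quads at every white vertex: there is a set `S` of blacks such that `q ∈ Z` iff exactly one black of `q` is in `S`.

PROOF. (1) For every white `w` there is a set `A w` of blacks with `q ∈ Z ↔ |q.2 ∩ A w| = 1` for all `q ∈ Q` at `w`. This is a linear system over `ZMod 2` (`fredholm`) with unknowns `x b`, `b ∈ bl Q`, and equations `∑ b ∈ q.2, x b = [q ∈ Z]`,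
`q ∈ atw Q w`. Condition: let `Y ⊆ atw Q w` be such that every black `b` is in an even number of the quads of `Y`. Then `dg Y (w, b)` is even for all `b`, so no edge of `bd Y` is at `w`, and by `lw` all quads at `w` are in `Y` or none. So
`∑ q ∈ Y, [q ∈ Z] = 0`: it is `0` or the number of quads of `Z` at `w`, which is even.
(2) Let `E = EdS Q` and `A = {(w, b) ∈ E : b ∈ A w}`. For `q ∈ Q`, `q.1 = {w, w'}`: `|ed q ∩ A| = |q.2 ∩ A w| + |q.2 ∩ A w'|` is even (both are `1` mod 2 iff `q ∈ Z`; note `|q.2 ∩ A w| ∈ {0, 1, 2}`, it is `1` iff `q ∈ Z`). Every even `Z' ⊆ E` is `bd X` (`sur`) and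
`|bd X ∩ A| = ∑ q ∈ X, |ed q ∩ A|` modulo 2 (induction on `X` with `bd_union`, `bd_singleton`; or count pairs), so it is even. By `cutspace` there are `s, t` with `e ∈ A ↔ s e.1 ≠ t e.2` for `e ∈ E`.
(3) `S = {b ∈ bl Q : t b = true}`. Let `q ∈ Q`, `w ∈ q.1`, `q.2 = {b, c}`. Exactly one of `b, c` is in `A w` iff exactly one of `(w, b), (w, c)` is in `A` iff (`s w ≠ t b` xor `s w ≠ t c`) iff `t b ≠ t c`.
-/

set_option autoImplicit false

namespace K5M

open Finset

namespace SPrimAux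

theorem fred {α β : Type} [DecidableEq α] [DecidableEq β] (I : Finset α) (J : Finset β)
    (R : α → β → ZMod 2) (r : α → ZMod 2)
    (h : ∀ y : α → ZMod 2, (∀ j ∈ J, ∑ i ∈ I, y i * R i j = 0) → ∑ i ∈ I, y i * r i = 0) :
    ∃ x : β → ZMod 2, ∀ i ∈ I, ∑ j ∈ J, R i j * x j = r i := by
  obtain ⟨x, hx⟩ := fredholm (I := I) (J := J) (fun i j => R i j) (fun i => r i) (by
    intro y hy
    obtain ⟨y', hy'⟩ : ∃ y' : α → ZMod 2, y' = fun a => if h : a ∈ I then y ⟨a, h⟩ else 0 :=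
      ⟨_, rfl⟩
    have h1 : ∀ i : I, y' (i : α) = y i := fun i => by
      rw [hy']
      exact dif_pos i.2
    have h2 := h y' (fun j hj => by
      rw [← Finset.sum_coe_sort I (fun i => y' i * R i j)]
      refine Eq.trans (Finset.sum_congr rfl fun i _ => ?_) (hy ⟨j, hj⟩)
      rw [h1])
    rw [← Finset.sum_coe_sort I (fun i => y' i * r i)] at h2
    refine Eq.trans (Finset.sum_congr rfl fun i _ => ?_) h2
    rw [h1])
  obtain ⟨x', hx'⟩ : ∃ x' : β → ZMod 2, x' = fun b => if h : b ∈ J then x ⟨b, h⟩ else 0 :=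
    ⟨_, rfl⟩
  have h1 : ∀ j : J, x' (j : β) = x j := fun j => by
    rw [hx']
    exact dif_pos j.2
  refine ⟨x', fun i hi => ?_⟩
  rw [← Finset.sum_coe_sort J (fun j => R i j * x' j)]
  refine Eq.trans (Finset.sum_congr rfl fun j _ => ?_) (hx ⟨i, hi⟩)
  rw [h1]

theorem val : ∀ x : ZMod 2, x = if x ≠ 0 then 1 else 0 := by decide

theorem card_eq {α : Type} (S : Finset α) (z : α → ZMod 2) :
    (((S.filter (fun e => z e ≠ 0)).card : ℕ) : ZMod 2) = ∑ e ∈ S, z e := by
  rw [Finset.card_filter, Nat.cast_sum]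
  refine Finset.sum_congr rfl fun e _ => ?_
  rw [Nat.cast_ite, Nat.cast_one, Nat.cast_zero]
  exact (val (z e)).symm

theorem even_iff (n : ℕ) : Even n ↔ ((n : ℕ) : ZMod 2) = 0 := by
  rw [ZMod.natCast_eq_zero_iff, even_iff_two_dvd]

theorem odd_cast (n : ℕ) : ((n : ℕ) : ZMod 2) = if Odd n then 1 else 0 := by
  by_cases h : Odd n
  · rw [if_pos h]
    obtain ⟨k, hk⟩ := h
    rw [hk]
    have h1 : ((2 : ℕ) : ZMod 2) = 0 := by decide
    push_cast at h1 ⊢
    rw [h1, zero_mul, zero_add]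
  · rw [if_neg h]
    exact (even_iff n).mp (Nat.not_odd_iff_even.mp h)

theorem sum_bd (X : Finset Quad) (g : Ed → ZMod 2) :
    ∑ e ∈ bd X, g e = ∑ q ∈ X, ∑ e ∈ ed q, g e := by
  have h1 : ∀ q ∈ X, ∑ e ∈ ed q, g e = ∑ e ∈ EdS X, if e ∈ ed q then g e else 0 := by
    intro q hq
    rw [← Finset.sum_filter]
    refine Finset.sum_congr ?_ fun _ _ => rfl
    ext e
    rw [Finset.mem_filter]
    exact ⟨fun h2 => ⟨mem_EdS.mpr ⟨q, hq, h2⟩, h2⟩, fun h2 => h2.2⟩
  rw [Finset.sum_congr rfl h1, Finset.sum_comm]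
  unfold bd
  rw [Finset.sum_filter]
  refine Finset.sum_congr rfl fun e _ => ?_
  have h2 : ∑ q ∈ X, (if e ∈ ed q then g e else 0) = ((dg X e : ℕ) : ZMod 2) * g e := by
    rw [← Finset.sum_filter, Finset.sum_const, nsmul_eq_mul]
    rfl
  rw [h2, odd_cast]
  by_cases h3 : Odd (dg X e)
  · rw [if_pos h3, if_pos h3, one_mul]
  · rw [if_neg h3, if_neg h3, zero_mul]

theorem at_w {Q : Finset Quad} (h : Sph Q) (Z : Finset Quad) (hZ : Z ⊆ Q)
    (hev : ∀ w, Even (Z.filter (fun q => w ∈ q.1)).card) (w : ℕ) :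
    ∃ x : ℕ → ZMod 2, ∀ q ∈ Q, w ∈ q.1 → ∑ b ∈ q.2, x b = if q ∈ Z then 1 else 0 := by
  obtain ⟨x, hx⟩ := fred (atw Q w) (bl Q) (fun q b => if b ∈ q.2 then 1 else 0)
    (fun q => if q ∈ Z then 1 else 0) (by
    intro y hy
    obtain ⟨Y, hY⟩ : ∃ Y, Y = (atw Q w).filter (fun q => y q ≠ 0) := ⟨_, rfl⟩
    have hYQ : Y ⊆ Q := by
      rw [hY]
      exact (Finset.filter_subset _ _).trans (Finset.filter_subset _ _)
    have hYw : ∀ q ∈ Y, w ∈ q.1 := fun q hq => by
      rw [hY, Finset.mem_filter] at hq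
      exact (Finset.mem_filter.mp hq.1).2
    have h1 : ∀ b, (w, b) ∉ bd Y := by
      intro b hb
      rw [mem_bd] at hb
      have h2 : ((dg Y (w, b) : ℕ) : ZMod 2) = 0 := by
        have h3 : dg Y (w, b) =
            ((atw Q w).filter (fun q => y q * (if b ∈ q.2 then 1 else 0) ≠ 0)).card := by
          unfold dg
          congr 1
          ext q
          rw [Finset.mem_filter, hY, Finset.mem_filter, Finset.mem_filter]
          constructor
          · rintro ⟨⟨h4, h5⟩, h6⟩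
            refine ⟨h4, ?_⟩
            rw [if_pos (mem_ed.mp h6).2, mul_one]
            exact h5
          · rintro ⟨h4, h5⟩
            have h6 : b ∈ q.2 := by
              by_contra h7
              rw [if_neg h7, mul_zero] at h5
              exact h5 rfl
            rw [if_pos h6, mul_one] at h5
            exact ⟨⟨h4, h5⟩, mem_ed.mpr ⟨(Finset.mem_filter.mp h4).2, h6⟩⟩
        rw [h3, card_eq]
        by_cases hbb : b ∈ bl Q
        · exact hy b hbb
        · refine Finset.sum_eq_zero fun q hq => ?_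
          rw [if_neg, mul_zero]
          intro h4
          exact hbb (Finset.mem_biUnion.mpr ⟨q, (Finset.mem_filter.mp hq).1, h4⟩)
      rw [odd_cast, if_pos hb] at h2
      exact absurd h2 (by decide)
    rcases h.lw Y hYQ w h1 with h2 | h2
    · have h3 : ∑ q ∈ atw Q w, y q * (if q ∈ Z then 1 else 0) =
          (((Z.filter (fun q => w ∈ q.1)).card : ℕ) : ZMod 2) := by
        have h4 : ∑ q ∈ atw Q w, y q * (if q ∈ Z then 1 else 0) =
            ∑ q ∈ atw Q w, (if q ∈ Z then (1 : ZMod 2) else 0) := by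
          refine Finset.sum_congr rfl fun q hq => ?_
          have hq' := Finset.mem_filter.mp hq
          have h5 := h2 q hq'.1 hq'.2
          rw [hY, Finset.mem_filter] at h5
          have h6 : y q = 1 := by
            rw [val (y q), if_pos h5.2]
          rw [h6, one_mul]
        rw [h4, ← Finset.sum_filter, Finset.sum_const, nsmul_eq_mul, mul_one]
        congr 2
        ext q
        unfold atw
        rw [Finset.mem_filter, Finset.mem_filter, Finset.mem_filter]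
        exact ⟨fun h5 => ⟨h5.2, h5.1.2⟩, fun h5 => ⟨⟨hZ h5.1, h5.2⟩, h5.1⟩⟩
      rw [h3]
      exact (even_iff _).mp (hev w)
    · refine Finset.sum_eq_zero fun q hq => ?_
      have hq' := Finset.mem_filter.mp hq
      have h5 := h2 q hq'.1 hq'.2
      have h6 : y q = 0 := by
        by_contra h7
        exact h5 (by
          rw [hY, Finset.mem_filter]
          exact ⟨hq, h7⟩)
      rw [h6, zero_mul])
  refine ⟨x, fun q hq hw => ?_⟩
  have h1 := hx q (Finset.mem_filter.mpr ⟨hq, hw⟩)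
  rw [← h1]
  have h2 : ∀ b ∈ bl Q, (if b ∈ q.2 then (1 : ZMod 2) else 0) * x b =
      if b ∈ q.2 then x b else 0 := by
    intro b _
    rw [ite_mul, one_mul, zero_mul]
  rw [Finset.sum_congr rfl h2, ← Finset.sum_filter]
  refine Finset.sum_congr ?_ fun _ _ => rfl
  ext b
  rw [Finset.mem_filter]
  exact ⟨fun h3 => ⟨Finset.mem_biUnion.mpr ⟨q, hq, h3⟩, h3⟩, fun h3 => h3.2⟩

theorem tb : ∀ x y : ZMod 2, x + y = 1 ↔ (x = 1 ∧ y ≠ 1) ∨ (x ≠ 1 ∧ y = 1) := by decide

theorem one_ne : ∀ x : ZMod 2, x ≠ 0 ↔ x = 1 := by decide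

theorem dd : ∀ x : ZMod 2, x + x = 0 := by decide

end SPrimAux

open SPrimAux

theorem Sph.primal {Q : Finset Quad} (h : Sph Q) (Z : Finset Quad) (hZ : Z ⊆ Q)
    (hev : ∀ w, Even (Z.filter (fun q => w ∈ q.1)).card) :
    ∃ S : Finset ℕ, ∀ q ∈ Q, (q ∈ Z ↔ (q.2 ∩ S).card = 1) := by
  classical
  choose x hx using at_w h Z hZ hev
  obtain ⟨A, hA⟩ : ∃ A, A = (EdS Q).filter (fun e => x e.1 e.2 ≠ 0) := ⟨_, rfl⟩
  have hAE : A ⊆ EdS Q := by
    rw [hA]
    exact Finset.filter_subset _ _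
  have h1 : ∀ q ∈ Q, ∑ e ∈ ed q, x e.1 e.2 = 0 := by
    intro q hq
    unfold ed
    rw [Finset.sum_product]
    obtain ⟨w, w', hww, he⟩ := Finset.card_eq_two.mp (h.isq q hq).1
    have hw : w ∈ q.1 := by
      rw [he]
      simp
    have hw' : w' ∈ q.1 := by
      rw [he]
      simp
    have h2 : ∑ a ∈ q.1, ∑ b ∈ q.2, x a b = ∑ b ∈ q.2, x w b + ∑ b ∈ q.2, x w' b := by
      conv_lhs => rw [he]
      rw [Finset.sum_pair hww]
    rw [h2, hx w q hq hw, hx w' q hq hw']
    exact dd _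
  obtain ⟨s, t, hst⟩ := cutspace (EdS Q) A hAE (by
    intro Z' hZ' hev'
    obtain ⟨X, hX, hbX⟩ := h.sur Z' hZ' hev'
    rw [even_iff]
    have h2 : Z' ∩ A = (bd X).filter (fun e => x e.1 e.2 ≠ 0) := by
      ext e
      rw [Finset.mem_inter, hA, Finset.mem_filter, Finset.mem_filter, hbX]
      exact ⟨fun h3 => ⟨h3.1, h3.2.2⟩, fun h3 => ⟨h3.1, hZ' h3.1, h3.2⟩⟩
    rw [h2, card_eq, sum_bd]
    exact Finset.sum_eq_zero fun q hq => h1 q (hX hq))
  refine ⟨(bl Q).filter (fun b => t b = true), fun q hq => ?_⟩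
  obtain ⟨b, c, hbc, he⟩ := Finset.card_eq_two.mp (h.isq q hq).2
  have hb : b ∈ q.2 := by
    rw [he]
    simp
  have hc : c ∈ q.2 := by
    rw [he]
    simp
  obtain ⟨w, hw⟩ : q.1.Nonempty := Finset.card_pos.mp (by rw [(h.isq q hq).1]; norm_num)
  have hE : ∀ a ∈ q.2, (x w a = 1 ↔ s w ≠ t a) := by
    intro a ha
    have h3 : (w, a) ∈ EdS Q := mem_EdS.mpr ⟨q, hq, mem_ed.mpr ⟨hw, ha⟩⟩
    have h4 := hst (w, a) h3
    rw [← h4, hA, Finset.mem_filter, ← one_ne]
    exact ⟨fun h5 => ⟨h3, h5⟩, fun h5 => h5.2⟩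
  have h5 := hx w q hq hw
  rw [he, Finset.sum_pair hbc] at h5
  have h6 : q ∈ Z ↔ x w b + x w c = 1 := by
    rw [h5]
    by_cases h7 : q ∈ Z
    · rw [if_pos h7]
      exact iff_of_true h7 rfl
    · rw [if_neg h7]
      exact iff_of_false h7 (by decide)
  have h7 : (q.2 ∩ (bl Q).filter (fun b => t b = true)).card =
      (if t b = true then 1 else 0) + (if t c = true then 1 else 0) := by
    have h8 : q.2 ∩ (bl Q).filter (fun b => t b = true) = q.2.filter (fun b => t b = true) := by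
      ext a
      rw [Finset.mem_inter, Finset.mem_filter, Finset.mem_filter]
      exact ⟨fun h9 => ⟨h9.1, h9.2.2⟩,
        fun h9 => ⟨h9.1, Finset.mem_biUnion.mpr ⟨q, hq, h9.1⟩, h9.2⟩⟩
    rw [h8, Finset.card_filter, he, Finset.sum_pair hbc]
  rw [h6, h7, tb, hE b hb]
  have h8 := hE c hc
  have h9 : x w c ≠ 1 ↔ ¬ (s w ≠ t c) := not_congr h8
  have h10 : x w b ≠ 1 ↔ ¬ (s w ≠ t b) := not_congr (hE b hb)
  rw [h9, h10, h8]
  cases s w <;> cases t b <;> cases t c <;> simp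

end K5M
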