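import Pool.Agent.Lib.K5M.SThree
import Pool.Agent.Lib.K5M.SPrim

/-!
# K5M.SMac: the graph of an irreducible sphere satisfies MacLane's criterion

`fz Q b` is the edge function of the face `b`.

PROOF. `fz_cyc`: symmetric and supported on the edges by definition (`fz Q b a c ≠ 0` gives `a ≠ c`: `q.1 = {a, c}` has two elements). Even: for `a ∈ wh Q`: the `c ∈ wh Q` with `fz Q b a c = 1` correspond to the quads at `a` and `b` (`q.1 = {a, c}`; by `fst_inj` a
quad is determined by `q.1`): their number is `dg Q (a, b)`, which is `0` or `2`.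
`fz_two`: the edge `ac` comes from exactly one quad `q` (`fst_inj`), `fz Q b a c ≠ 0 ↔ b ∈ q.2`.
`fz_span`: `z` a cycle mod 2 of `gr Q`. `Z = {q ∈ Q : z a c ≠ 0 for q.1 = {a, c}}` (`∃ a c, q.1 = {a, c} ∧ z a c ≠ 0`) has an even number of quads at every white `w` (`∑ c, z w c = 0` counts them by `fst_inj`; no quads if `w ∉ wh Q`).
`Sph.primal` gives `S`; let `S' = S ∩ bl Q`. For `q.1 = {a, c}`, `q ∈ Q`: `∑ b ∈ S', fz Q b a c = |q.2 ∩ S|` mod 2 `= 1` iff `q ∈ Z` iff `z a c ≠ 0`. If `a, c` are not adjacent both sides are `0`.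
`Irr.mac`: number the blacks (`(bl Q).equivFin` or `Finset.equivFin`) and use the three facts; the number of `i` with `F i a b ≠ 0` is at most `2` by `fz_two` (and `0` if `a, b` are not adjacent).
-/

set_option autoImplicit false

namespace K5M

open Finset

open Classical in
/-- The edge function of the face `b`. -/
noncomputable def fz (Q : Finset Quad) (b : ℕ) : ℕ → ℕ → ZMod 2 :=
  fun a c => if ∃ q ∈ Q, q.1 = {a, c} ∧ b ∈ q.2 then 1 else 0

namespace SMacAux

theorem ne_of_pair {Q : Finset Quad} (h : Irr Q) {q : Quad} (hq : q ∈ Q) {a c : ℕ}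
    (hac : q.1 = {a, c}) : a ≠ c := by
  rintro rfl
  have h1 := (h.isq q hq).1
  rw [hac] at h1
  simp at h1

theorem other {Q : Finset Quad} (h : Irr Q) {q : Quad} (hq : q ∈ Q) {a : ℕ} (ha : a ∈ q.1) :
    ∃ c, c ∈ wh Q ∧ q.1 = {a, c} := by
  obtain ⟨x, y, _, hxy⟩ := Finset.card_eq_two.1 (h.isq q hq).1
  have hm : ∀ c ∈ q.1, c ∈ wh Q := fun c hc => Finset.mem_biUnion.2 ⟨q, hq, hc⟩
  rw [hxy] at ha
  rcases Finset.mem_insert.1 ha with h1 | h1
  · subst h1
    exact ⟨y, hm y (by rw [hxy]; simp), hxy⟩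
  · have h2 := Finset.mem_singleton.1 h1
    subst h2
    exact ⟨x, hm x (by rw [hxy]; simp), by rw [hxy, Finset.pair_comm]⟩

theorem pair_inj {a c c' : ℕ} (hne : a ≠ c) (h : ({a, c} : Finset ℕ) = {a, c'}) : c = c' := by
  have h1 : c ∈ ({a, c'} : Finset ℕ) := by
    rw [← h]
    simp
  rcases Finset.mem_insert.1 h1 with h2 | h2
  · exact absurd h2.symm hne
  · exact Finset.mem_singleton.1 h2

theorem sum_fst {Q : Finset Quad} (h : Irr Q) (P : Quad → Prop) (a : ℕ)
    [∀ c, Decidable (∃ q ∈ Q, q.1 = {a, c} ∧ P q)] [DecidablePred (fun q => a ∈ q.1 ∧ P q)] :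
    ∑ c ∈ wh Q, (if ∃ q ∈ Q, q.1 = {a, c} ∧ P q then (1 : ZMod 2) else 0) =
      ((Q.filter (fun q => a ∈ q.1 ∧ P q)).card : ZMod 2) := by
  classical
  have h1 : ∀ c ∈ wh Q, (if ∃ q ∈ Q, q.1 = {a, c} ∧ P q then (1 : ZMod 2) else 0) =
      ∑ q ∈ Q, if q.1 = {a, c} ∧ P q then (1 : ZMod 2) else 0 := by
    intro c _
    by_cases hc : ∃ q ∈ Q, q.1 = {a, c} ∧ P q
    · rw [if_pos hc]
      obtain ⟨q, hq, h2, h3⟩ := hc
      rw [Finset.sum_eq_single q]
      · rw [if_pos ⟨h2, h3⟩]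
      · intro r hr hrq
        rw [if_neg]
        rintro ⟨h4, _⟩
        exact hrq (h.fst_inj hr hq (h4.trans h2.symm))
      · exact fun h4 => absurd hq h4
    · rw [if_neg hc]
      symm
      exact Finset.sum_eq_zero fun q hq => if_neg fun h2 => hc ⟨q, hq, h2⟩
  rw [Finset.sum_congr rfl h1, Finset.sum_comm, Finset.card_filter, Nat.cast_sum]
  refine Finset.sum_congr rfl fun q hq => ?_
  by_cases h2 : a ∈ q.1 ∧ P q
  · obtain ⟨c, hc, hac⟩ := other h hq h2.1
    rw [if_pos h2, Nat.cast_one, Finset.sum_eq_single c]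
    · rw [if_pos ⟨hac, h2.2⟩]
    · intro c' _ hne
      rw [if_neg]
      rintro ⟨h4, _⟩
      exact hne (pair_inj (ne_of_pair h hq hac) (hac.symm.trans h4)).symm
    · exact fun h4 => absurd hc h4
  · rw [if_neg h2, Nat.cast_zero]
    refine Finset.sum_eq_zero fun c _ => if_neg ?_
    rintro ⟨h4, h5⟩
    exact h2 ⟨by rw [h4]; simp, h5⟩

theorem zmod_two : ∀ x : ZMod 2, x ≠ 0 → x = 1 := by decide

theorem even_of {n : ℕ} (h : (n : ZMod 2) = 0) : Even n := by
  rwa [ZMod.natCast_eq_zero_iff, ← even_iff_two_dvd] at h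

theorem of_even {n : ℕ} (h : Even n) : (n : ZMod 2) = 0 := by
  rwa [ZMod.natCast_eq_zero_iff, ← even_iff_two_dvd]

theorem z_pair {z : ℕ → ℕ → ZMod 2} (hs : ∀ a b, z a b = z b a) {a c a' c' : ℕ}
    (h : ({a, c} : Finset ℕ) = {a', c'}) (hne : a ≠ c) (h1 : z a' c' ≠ 0) : z a c ≠ 0 := by
  have ha : a ∈ ({a', c'} : Finset ℕ) := by
    rw [← h]
    simp
  have hc : c ∈ ({a', c'} : Finset ℕ) := by
    rw [← h]
    simp
  rcases Finset.mem_insert.1 ha with h2 | h2
  · rcases Finset.mem_insert.1 hc with h3 | h3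
    · exact absurd (h2.trans h3.symm) hne
    · rw [h2, Finset.mem_singleton.1 h3]
      exact h1
  · rcases Finset.mem_insert.1 hc with h3 | h3
    · rw [Finset.mem_singleton.1 h2, h3, hs]
      exact h1
    · exact absurd ((Finset.mem_singleton.1 h2).trans (Finset.mem_singleton.1 h3).symm) hne

end SMacAux

open SMacAux

theorem Irr.fz_two {Q : Finset Quad} (h : Irr Q) {q : Quad} (hq : q ∈ Q) {a c : ℕ}
    (hac : q.1 = {a, c}) (b : ℕ) : fz Q b a c ≠ 0 ↔ b ∈ q.2 := by
  unfold fz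
  constructor
  · intro h1
    by_cases h2 : ∃ q ∈ Q, q.1 = {a, c} ∧ b ∈ q.2
    · obtain ⟨r, hr, h3, h4⟩ := h2
      have h5 := h.fst_inj hr hq (h3.trans hac.symm)
      rwa [← h5]
    · rw [if_neg h2] at h1
      exact absurd rfl h1
  · intro h1
    rw [if_pos ⟨q, hq, hac, h1⟩]
    exact one_ne_zero

theorem Irr.fz_cyc {Q : Finset Quad} (h : Irr Q) (b : ℕ) : K5.Cyc (gr Q) (wh Q) (fz Q b) := by
  classical
  refine ⟨fun a c => ?_, fun a c h1 => ?_, fun a _ => ?_⟩
  · unfold fz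
    rw [Finset.pair_comm]
  · unfold fz at h1
    by_cases h2 : ∃ q ∈ Q, q.1 = {a, c} ∧ b ∈ q.2
    · obtain ⟨q, hq, h3, _⟩ := h2
      exact ⟨ne_of_pair h hq h3, q, hq, h3⟩
    · rw [if_neg h2] at h1
      exact absurd rfl h1
  · have h1 := sum_fst h (fun q => b ∈ q.2) a
    have h2 : ∑ c ∈ wh Q, fz Q b a c =
        ∑ c ∈ wh Q, (if ∃ q ∈ Q, q.1 = {a, c} ∧ b ∈ q.2 then (1 : ZMod 2) else 0) := by
      refine Finset.sum_congr rfl fun c _ => ?_
      unfold fz
      by_cases h3 : ∃ q ∈ Q, q.1 = {a, c} ∧ b ∈ q.2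
      · rw [if_pos h3]
      · rw [if_neg h3]
    rw [h2, h1]
    apply of_even
    have h3 : Q.filter (fun q => a ∈ q.1 ∧ b ∈ q.2) = Q.filter (fun q => (a, b) ∈ ed q) := by
      refine Finset.filter_congr fun q _ => ?_
      rw [mem_ed]
    rw [h3]
    by_cases he : (a, b) ∈ EdS Q
    · have h4 := h.two _ he
      unfold dg at h4
      rw [h4]
      exact even_two
    · have h4 : (Q.filter (fun q => (a, b) ∈ ed q)).card = 0 := by
        rw [Finset.card_eq_zero, Finset.filter_eq_empty_iff]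
        intro q hq h5
        exact he (mem_EdS.2 ⟨q, hq, h5⟩)
      rw [h4]
      exact Even.zero

theorem Irr.fz_span {Q : Finset Quad} (h : Irr Q) (z : ℕ → ℕ → ZMod 2)
    (hz : K5.Cyc (gr Q) (wh Q) z) : ∃ S ⊆ bl Q, ∀ a c, z a c = ∑ b ∈ S, fz Q b a c := by
  classical
  let Z : Finset Quad := Q.filter (fun q => ∃ a c, q.1 = {a, c} ∧ z a c ≠ 0)
  have hZ : ∀ q ∈ Q, ∀ a c, q.1 = {a, c} → (q ∈ Z ↔ z a c ≠ 0) := by
    intro q hq a c hac
    constructor
    · intro h1
      obtain ⟨a', c', h2, h3⟩ := (Finset.mem_filter.1 h1).2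
      exact z_pair hz.symm (hac.symm.trans h2) (ne_of_pair h hq hac) h3
    · intro h1
      exact Finset.mem_filter.2 ⟨hq, a, c, hac, h1⟩
  have hsum : ∀ w, Even (Z.filter (fun q => w ∈ q.1)).card := by
    intro w
    by_cases hw : w ∈ wh Q
    · apply even_of
      have h1 := sum_fst h (fun q => q ∈ Z) w
      have h2 : Q.filter (fun q => w ∈ q.1 ∧ q ∈ Z) = Z.filter (fun q => w ∈ q.1) := by
        ext q
        constructor
        · intro h3
          have h4 := Finset.mem_filter.1 h3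
          exact Finset.mem_filter.2 ⟨h4.2.2, h4.2.1⟩
        · intro h3
          have h4 := Finset.mem_filter.1 h3
          exact Finset.mem_filter.2 ⟨(Finset.mem_filter.1 h4.1).1, h4.2, h4.1⟩
      rw [h2] at h1
      rw [← h1]
      refine Eq.trans ?_ (hz.even w hw)
      refine Finset.sum_congr rfl fun c _ => ?_
      by_cases h3 : ∃ q ∈ Q, q.1 = {w, c} ∧ q ∈ Z
      · rw [if_pos h3]
        obtain ⟨q, hq, h4, h5⟩ := h3
        exact (zmod_two _ ((hZ q hq w c h4).1 h5)).symm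
      · rw [if_neg h3]
        by_contra h4
        have h5 : z w c ≠ 0 := fun h6 => h4 h6.symm
        obtain ⟨_, q, hq, h6⟩ := hz.supp w c h5
        exact h3 ⟨q, hq, h6, (hZ q hq w c h6).2 h5⟩
    · have h1 : Z.filter (fun q => w ∈ q.1) = ∅ := by
        rw [Finset.filter_eq_empty_iff]
        intro q hq h2
        exact hw (Finset.mem_biUnion.2 ⟨q, (Finset.mem_filter.1 hq).1, h2⟩)
      rw [h1]
      exact Even.zero
  obtain ⟨S, hS⟩ := h.toSph.primal Z (Finset.filter_subset _ _) hsum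
  refine ⟨S ∩ bl Q, Finset.inter_subset_right, fun a c => ?_⟩
  by_cases hq : ∃ q ∈ Q, q.1 = {a, c}
  · obtain ⟨q, hq, hac⟩ := hq
    have h1 : ∑ b ∈ S ∩ bl Q, fz Q b a c = ∑ b ∈ S ∩ bl Q, if b ∈ q.2 then (1 : ZMod 2) else 0 := by
      refine Finset.sum_congr rfl fun b _ => ?_
      by_cases hb : b ∈ q.2
      · rw [if_pos hb]
        exact zmod_two _ ((h.fz_two hq hac b).2 hb)
      · rw [if_neg hb]
        by_contra h2
        exact hb ((h.fz_two hq hac b).1 h2)
    have h2 : (S ∩ bl Q).filter (fun b => b ∈ q.2) = q.2 ∩ S := by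
      ext b
      rw [Finset.mem_filter, Finset.mem_inter, Finset.mem_inter]
      constructor
      · exact fun h3 => ⟨h3.2, h3.1.1⟩
      · exact fun h3 => ⟨⟨h3.2, Finset.mem_biUnion.2 ⟨q, hq, h3.1⟩⟩, h3.1⟩
    have h3 : ∑ b ∈ S ∩ bl Q, (if b ∈ q.2 then (1 : ZMod 2) else 0) = ((q.2 ∩ S).card : ZMod 2) := by
      rw [← h2, Finset.card_filter, Nat.cast_sum]
      refine Finset.sum_congr rfl fun b _ => ?_
      by_cases hb : b ∈ q.2
      · rw [if_pos hb, if_pos hb, Nat.cast_one]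
      · rw [if_neg hb, if_neg hb, Nat.cast_zero]
    rw [h1, h3]
    have h4 : (q.2 ∩ S).card ≤ 2 := (Finset.card_le_card Finset.inter_subset_left).trans
      (h.isq q hq).2.le
    by_cases h5 : z a c = 0
    · have h6 : (q.2 ∩ S).card ≠ 1 := fun h7 => (hZ q hq a c hac).1 ((hS q hq).2 h7) h5
      rw [h5]
      symm
      apply of_even
      interval_cases h8 : (q.2 ∩ S).card
      · exact Even.zero
      · exact absurd rfl h6
      · exact even_two
    · rw [zmod_two _ h5, (hS q hq).1 ((hZ q hq a c hac).2 h5), Nat.cast_one]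
  · have h1 : z a c = 0 := by
      by_contra h2
      obtain ⟨_, q, hq', h3⟩ := hz.supp a c h2
      exact hq ⟨q, hq', h3⟩
    rw [h1]
    symm
    refine Finset.sum_eq_zero fun b _ => ?_
    unfold fz
    rw [if_neg]
    rintro ⟨q, hq', h3, _⟩
    exact hq ⟨q, hq', h3⟩

theorem Irr.mac {Q : Finset Quad} (h : Irr Q) : K5.Mac (gr Q) (wh Q) := by
  classical
  let ε : ↥(bl Q) ≃ Fin (bl Q).card := (bl Q).equivFin
  refine ⟨(bl Q).card, fun i => fz Q (ε.symm i : ℕ), fun i => h.fz_cyc _, fun a c => ?_,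
    fun z hz => ?_⟩
  · by_cases hq : ∃ q ∈ Q, q.1 = {a, c}
    · obtain ⟨q, hq, hac⟩ := hq
      refine le_trans ?_ (h.isq q hq).2.le
      refine Finset.card_le_card_of_injOn (fun i => (ε.symm i : ℕ)) ?_ ?_
      · intro i hi
        have h1 := (Finset.mem_filter.1 (Finset.mem_coe.1 hi)).2
        exact Finset.mem_coe.2 ((h.fz_two hq hac _).1 h1)
      · intro i _ j _ hij
        exact ε.symm.injective (Subtype.ext hij)
    · rw [Finset.filter_eq_empty_iff.2, Finset.card_empty]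
      · exact Nat.zero_le _
      · intro i _ h1
        apply h1
        change fz Q (ε.symm i : ℕ) a c = 0
        unfold fz
        rw [if_neg]
        rintro ⟨q, hq', h3, _⟩
        exact hq ⟨q, hq', h3⟩
  · obtain ⟨S, hS, h1⟩ := h.fz_span z hz
    refine ⟨univ.filter (fun i => (ε.symm i : ℕ) ∈ S), fun a c => ?_⟩
    rw [h1 a c]
    symm
    refine Finset.sum_bij (fun i _ => (ε.symm i : ℕ)) ?_ ?_ ?_ ?_
    · intro i hi
      exact (Finset.mem_filter.1 hi).2
    · intro i _ j _ hij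
      exact ε.symm.injective (Subtype.ext hij)
    · intro b hb
      refine ⟨ε ⟨b, hS hb⟩, ?_, ?_⟩
      · rw [Finset.mem_filter, ε.symm_apply_apply]
        exact ⟨Finset.mem_univ _, hb⟩
      · rw [ε.symm_apply_apply]
    · intro i _
      rfl

end K5M
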