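import Pool.Agent.Lib.K5M.SKDefs
import Pool.Agent.Lib.K5M.SCore
import Pool.Agent.Lib.K5M.SMac
import Pool.Agent.Lib.K5M.STri
import Pool.Agent.Lib.K5M.N0
import Pool.Agent.Lib.K5.QFree

/-!
# K5M.SK0: cores and spheres through the standard quad

PROOFS. `CoreQ qs K` is `Core 0 1 2 3 K` (`net_iff_part` of N0, `qs = ({0, 1}, {2, 3})`). `not_mem`: if `qs ∈ K`, then `X = {qs}` has `bd X = ed qs = bd K`, so by `AC.inj` for the symmetric difference
(or: `Irr (insert qs K)` from `Core.toIrr`, with the conclusions of `Core.toIrr`; see its statement, it also gives `∉`). `toIrr` is `Core.toIrr`, `toCoreQ` is `Irr.toCore`.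
`wh_ins`, `bl_ins`: `{0, 1} ⊆ wh K`, `{2, 3} ⊆ bl K` by `Part.sub_wh`, `Part.sub_bl`.
`cm_iff`: (→) `vt K \ ({0, 1} ∪ {2, 3}) = L` and `wh K`, `bl K` disjoint (`Part.col`): an element of `wh K` is not in `{2, 3} ⊆ bl K`, so it is in `{0, 1}` or in `L`: `wh K = {0, 1} ∪ W` with
`W = wh K ∩ L`; in the same way `bl K = {2, 3} ∪ (L \ W)` (an element of `L \ W` is in `vt K` and not in `wh K`). The degrees: `atb_ins`. (←) `K = (insert qs K).erase qs` as `qs ∉ K`; `toCoreQ`;
`vt K = {0, 1} ∪ {2, 3} ∪ L` and `L` is disjoint from `{0, 1, 2, 3}`.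
`SP.pcore`: `Rtd`: `gr_on`, `clq {0, 1} ≤ gr Q` (the quad `qs`), `Irr.three`, `K5.Mac.free` with `Irr.mac`; `|R| = 2`.
`SP.pcore3`: `fv Q 2` has 3 elements (`Irr.fv_card`), contains 0 and 1 (`qs ∈ Q`), is contained in `wh Q = {0, 1} ∪ W`; `Irr.nt_of_tri` gives `NT H (wh Q) (fv Q 2)`: the clique and the connectivity of
`H` on `wh Q \ fv Q 2 = W.erase v`; `{0, 1, v} ∪ W.erase v = {0, 1} ∪ W`.
-/

set_option autoImplicit false

namespace K5M

open Finset

namespace SK0Aux

theorem coreQ_iff {K : Finset Quad} : CoreQ qs K ↔ Core 0 1 2 3 K := by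
  constructor
  · intro h
    exact ⟨net_iff_part.2 ⟨by norm_num, by norm_num, h.part⟩, h.three, h.irr⟩
  · intro h
    exact ⟨(net_iff_part.1 h.net).2.2, h.three, h.irr⟩

theorem wh_insert (N : Finset Quad) (q : Quad) : wh (insert q N) = q.1 ∪ wh N := by
  unfold wh
  rw [Finset.biUnion_insert]

theorem bl_insert (N : Finset Quad) (q : Quad) : bl (insert q N) = q.2 ∪ bl N := by
  unfold bl
  rw [Finset.biUnion_insert]

end SK0Aux

open SK0Aux

theorem CoreQ.not_mem {K : Finset Quad} (h : CoreQ qs K) : qs ∉ K :=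
  (coreQ_iff.1 h).toIrr.1

theorem CoreQ.toIrr {K : Finset Quad} (h : CoreQ qs K) : Irr (insert qs K) :=
  (coreQ_iff.1 h).toIrr.2

theorem CoreQ.wh_ins {K : Finset Quad} (h : CoreQ qs K) : wh (insert qs K) = wh K := by
  rw [wh_insert]
  exact Finset.union_eq_right.2 h.part.sub_wh

theorem CoreQ.bl_ins {K : Finset Quad} (h : CoreQ qs K) : bl (insert qs K) = bl K := by
  rw [bl_insert]
  exact Finset.union_eq_right.2 h.part.sub_bl

theorem Irr.toCoreQ {Q : Finset Quad} (h : Irr Q) (hq : qs ∈ Q) : CoreQ qs (Q.erase qs) :=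
  coreQ_iff.2 (h.toCore (by norm_num) (by norm_num) hq)

theorem atb_ins {K : Finset Quad} (h : qs ∉ K) (b : ℕ) :
    (atb (insert qs K) b).card = qd K b + (if b ∈ qs.2 then 1 else 0) := by
  unfold atb qd
  rw [Finset.filter_insert]
  split_ifs with h1
  · rw [Finset.card_insert_of_notMem (fun h2 => h (Finset.mem_filter.1 h2).1)]
  · rfl

theorem cm_iff {L W : Finset ℕ} {K : Finset Quad} {M' : Finset ℕ}
    (hL : Disjoint L {0, 1, 2, 3}) (hW : W ⊆ L) :
    (CM qs L K M' ∧ wh K ∩ L = W) ↔ (qs ∉ K ∧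
      SP W (L \ W) (gr (insert qs K)) (insert qs K) ∧ M' ⊆ bl (insert qs K) ∧
      ∀ b ∈ M', (atb (insert qs K) b).card = 3) := by
  constructor
  · rintro ⟨h, hWK⟩
    have hcol : ∀ x, x ∈ wh K → x ∉ bl K := fun x h1 h2 =>
      Finset.disjoint_left.1 h.core.part.col h1 h2
    have h01 : ∀ x, x ∈ ({0, 1} : Finset ℕ) → x ∈ wh K := fun x hx => h.core.part.sub_wh hx
    have h23 : ∀ x, x ∈ ({2, 3} : Finset ℕ) → x ∈ bl K := fun x hx => h.core.part.sub_bl hx
    have hinn : ∀ x, x ∈ L ↔ (x ∈ wh K ∨ x ∈ bl K) ∧ x ∉ ({0, 1} : Finset ℕ) ∧ x ∉ ({2, 3} : Finset ℕ) := by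
      intro x
      rw [← h.inn]
      unfold iv vt
      rw [Finset.mem_sdiff, Finset.mem_union, Finset.mem_union, not_or]
      rfl
    have hWm : ∀ x, x ∈ W ↔ x ∈ wh K ∧ x ∈ L := by
      intro x
      rw [← hWK, Finset.mem_inter]
    refine ⟨h.core.not_mem, ⟨h.core.toIrr, Finset.mem_insert_self _ _, ?_, ?_, rfl⟩, ?_, ?_⟩
    · rw [h.core.wh_ins]
      ext x
      rw [Finset.mem_union]
      constructor
      · intro hx
        by_cases h1 : x ∈ ({0, 1} : Finset ℕ)
        · exact Or.inl h1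
        · exact Or.inr ((hWm x).2 ⟨hx, (hinn x).2 ⟨Or.inl hx, h1, fun h2 => hcol x hx (h23 x h2)⟩⟩)
      · rintro (h1 | h1)
        · exact h01 x h1
        · exact ((hWm x).1 h1).1
    · rw [h.core.bl_ins]
      ext x
      rw [Finset.mem_union, Finset.mem_sdiff]
      constructor
      · intro hx
        by_cases h1 : x ∈ ({2, 3} : Finset ℕ)
        · exact Or.inl h1
        · exact Or.inr ⟨(hinn x).2 ⟨Or.inr hx, fun h2 => hcol x (h01 x h2) hx, h1⟩,
            fun h2 => hcol x ((hWm x).1 h2).1 hx⟩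
      · rintro (h1 | ⟨h1, h2⟩)
        · exact h23 x h1
        · rcases ((hinn x).1 h1).1 with h3 | h3
          · exact absurd ((hWm x).2 ⟨h3, h1⟩) h2
          · exact h3
    · rw [h.core.bl_ins]
      exact h.sub
    · intro b hb
      rw [atb_ins h.core.not_mem]
      exact h.deg b hb
  · rintro ⟨hqK, hSP, hM, hdeg⟩
    have hcore : CoreQ qs K := by
      have h1 := hSP.irr.toCoreQ hSP.mem
      rwa [Finset.erase_insert hqK] at h1
    have hwh : wh K = {0, 1} ∪ W := by rw [← hcore.wh_ins, hSP.ewh]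
    have hbl : bl K = {2, 3} ∪ (L \ W) := by rw [← hcore.bl_ins, hSP.ebl]
    have hLn : ∀ x, x ∈ L → x ∉ ({0, 1} : Finset ℕ) ∧ x ∉ ({2, 3} : Finset ℕ) := by
      intro x hx
      have h1 := Finset.disjoint_left.1 hL hx
      simp only [Finset.mem_insert, Finset.mem_singleton, not_or] at h1 ⊢
      exact ⟨⟨h1.1, h1.2.1⟩, h1.2.2.1, h1.2.2.2⟩
    refine ⟨⟨hcore, ?_, ?_, ?_⟩, ?_⟩
    · unfold iv vt
      rw [hwh, hbl]
      ext x
      have e1 : qs.1 = {0, 1} := rfl
      have e2 : qs.2 = {2, 3} := rfl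
      rw [e1, e2]
      simp only [Finset.mem_sdiff, Finset.mem_union]
      constructor
      · rintro ⟨(h1 | h1) | (h1 | h1), h2⟩
        · exact absurd (Or.inl h1) h2
        · exact hW h1
        · exact absurd (Or.inr h1) h2
        · exact h1.1
      · intro hx
        refine ⟨?_, fun h1 => h1.elim (hLn x hx).1 (hLn x hx).2⟩
        by_cases h1 : x ∈ W
        · exact Or.inl (Or.inr h1)
        · exact Or.inr (Or.inr ⟨hx, h1⟩)
    · rw [← hcore.bl_ins]
      exact hM
    · intro b hb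
      rw [← atb_ins hqK]
      exact hdeg b hb
    · rw [hwh]
      ext x
      rw [Finset.mem_inter, Finset.mem_union]
      constructor
      · rintro ⟨h1 | h1, h2⟩
        · exact absurd h1 (hLn x h2).1
        · exact h1
      · intro hx
        exact ⟨Or.inr hx, hW hx⟩

theorem SP.pcore {W B : Finset ℕ} {H : K5.Gr} {Q : Finset Quad} (h : SP W B H Q)
    (hW : Disjoint {0, 1} W) : K5.PCore {0, 1} W H := by
  have hon : K5.On H ({0, 1} ∪ W) := by
    rw [← h.egr, ← h.ewh]
    exact gr_on Q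
  have hmac : K5.Mac H ({0, 1} ∪ W) := by
    rw [← h.egr, ← h.ewh]
    exact h.irr.mac
  refine ⟨⟨hW, hon, ?_, ?_, hmac.free hon, Or.inl rfl⟩, hmac⟩
  · rintro a b ⟨hne, ha, hb⟩
    rw [← h.egr]
    refine ⟨hne, qs, h.mem, ?_⟩
    simp only [Finset.mem_insert, Finset.mem_singleton] at ha hb
    rcases ha with rfl | rfl
    · rcases hb with rfl | rfl
      · exact absurd rfl hne
      · rfl
    · rcases hb with rfl | rfl
      · exact Finset.pair_comm _ _
      · exact absurd rfl hne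
  · rw [← h.egr, ← h.ewh]
    exact h.irr.three

theorem SP.pcore3 {W B : Finset ℕ} {H : K5.Gr} {Q : Finset Quad} (h : SP W B H Q)
    (hW : Disjoint {0, 1} W) (h3 : (atb Q 2).card = 3) :
    ∃ v ∈ W, fv Q 2 = {0, 1, v} ∧ K5.PCore {0, 1, v} (W.erase v) H ∧
      {0, 1, v} ∪ W.erase v = {0, 1} ∪ W := by
  have hnt := h.irr.nt_of_tri h3
  have hcard := hnt.2.1
  have hmem : ∀ x ∈ ({0, 1} : Finset ℕ), x ∈ fv Q 2 := by
    intro x hx
    exact SFaceAux.mem_fv.2 ⟨qs, h.mem, hx, by decide⟩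
  have h0 := hmem 0 (by decide)
  have h1 := hmem 1 (by decide)
  have h2 : (((fv Q 2).erase 0).erase 1).card = 1 := by
    rw [Finset.card_erase_of_mem (Finset.mem_erase.2 ⟨by norm_num, h1⟩), Finset.card_erase_of_mem h0, hcard]
  obtain ⟨v, hv⟩ := Finset.card_eq_one.1 h2
  have hvm : v ∈ ((fv Q 2).erase 0).erase 1 := by
    rw [hv]
    exact Finset.mem_singleton_self _
  obtain ⟨hv1, hvm'⟩ := Finset.mem_erase.1 hvm
  obtain ⟨hv0, hvf⟩ := Finset.mem_erase.1 hvm'
  have hfv : fv Q 2 = {0, 1, v} := by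
    ext x
    simp only [Finset.mem_insert, Finset.mem_singleton]
    constructor
    · intro hx
      by_cases hx0 : x = 0
      · exact Or.inl hx0
      · by_cases hx1 : x = 1
        · exact Or.inr (Or.inl hx1)
        · have h4 : x ∈ ((fv Q 2).erase 0).erase 1 := Finset.mem_erase.2 ⟨hx1, Finset.mem_erase.2 ⟨hx0, hx⟩⟩
          rw [hv, Finset.mem_singleton] at h4
          exact Or.inr (Or.inr h4)
    · rintro (rfl | rfl | rfl)
      · exact h0
      · exact h1
      · exact hvf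
  have hvW : v ∈ W := by
    have h4 := hnt.1 hvf
    rw [h.ewh] at h4
    rcases Finset.mem_union.1 h4 with h5 | h5
    · simp only [Finset.mem_insert, Finset.mem_singleton] at h5
      exact (h5.elim hv0 hv1).elim
    · exact h5
  have h01W : ∀ x ∈ W, x ≠ 0 ∧ x ≠ 1 := by
    intro x hx
    have h4 := Finset.disjoint_right.1 hW hx
    simp only [Finset.mem_insert, Finset.mem_singleton, not_or] at h4
    exact h4
  have hun : ({0, 1, v} : Finset ℕ) ∪ W.erase v = {0, 1} ∪ W := by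
    ext x
    simp only [Finset.mem_union, Finset.mem_insert, Finset.mem_singleton, Finset.mem_erase]
    constructor
    · rintro ((h4 | h4 | h4) | h4)
      · exact Or.inl (Or.inl h4)
      · exact Or.inl (Or.inr h4)
      · exact Or.inr (h4 ▸ hvW)
      · exact Or.inr h4.2
    · rintro ((h4 | h4) | h4)
      · exact Or.inl (Or.inl h4)
      · exact Or.inl (Or.inr (Or.inl h4))
      · by_cases h5 : x = v
        · exact Or.inl (Or.inr (Or.inr h5))
        · exact Or.inr ⟨h5, h4⟩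
  have hP := h.pcore hW
  refine ⟨v, hvW, hfv, ⟨⟨?_, ?_, ?_, ?_, hP.rtd.free, Or.inr ⟨?_, ?_⟩⟩, ?_⟩, hun⟩
  · rw [Finset.disjoint_left]
    intro x hx hxW
    simp only [Finset.mem_insert, Finset.mem_singleton] at hx
    obtain ⟨hxv, hxW'⟩ := Finset.mem_erase.1 hxW
    rcases hx with hx | hx | hx
    · exact (h01W x hxW').1 hx
    · exact (h01W x hxW').2 hx
    · exact hxv hx
  · rw [hun]
    exact hP.rtd.on
  · rw [← hfv, ← h.egr]
    exact hnt.2.2.1
  · rw [hun]
    exact hP.rtd.three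
  · rw [← hfv]
    exact hcard
  · have h4 := hnt.2.2.2
    have h5 : wh Q \ fv Q 2 = W.erase v := by
      rw [h.ewh, hfv]
      ext x
      simp only [Finset.mem_sdiff, Finset.mem_union, Finset.mem_insert, Finset.mem_singleton,
        Finset.mem_erase, not_or]
      constructor
      · rintro ⟨(h6 | h6) | h6, h7⟩
        · exact absurd h6 h7.1
        · exact absurd h6 h7.2.1
        · exact ⟨h7.2.2, h6⟩
      · rintro ⟨h6, h7⟩
        exact ⟨Or.inr h7, (h01W x h7).1, (h01W x h7).2, h6⟩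
    rw [h5, h.egr] at h4
    exact h4
  · rw [hun]
    exact hP.mac

end K5M
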