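import Pool.Agent.Lib.K5M.SUniq

/-!
# K5M.SRlb: new names for the blacks of a sphere

`rlb σ Q` = `Q` with the black `b` renamed to `σ b`; `σ` injective on `bl Q`, the new names are not whites.

PROOF. The map `q ↦ (q.1, q.2.image σ)` is injective on `Q`, the map `ι : (w, b) ↦ (w, σ b)` is injective on `EdS Q`; `EdS (rlb σ X) = (EdS X).image ι`, `dg (rlb σ X) (ι e) = dg X e` for `X ⊆ Q`, `e ∈ EdS Q`, so `bd (rlb σ X) = (bd X).image ι`. The subsets of `rlb σ Q` are the `rlb σ X`, `X ⊆ Q`, the subsets of `EdS (rlb σ Q)` are the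
`Z.image ι`, `Z ⊆ EdS Q`, and `Z.image ι` is even iff `Z` is. Every field of `Irr` is transported. (If convenient: first replace `σ` by a permutation of `ℕ` that agrees with `σ` on `bl Q`.)
`rlb_congr`: only the values on `bl Q` matter.
-/

set_option autoImplicit false

namespace K5M

open Finset

namespace SRlbAux

/-- An injection of a finite set of numbers extends to a permutation. -/
theorem exists_perm_fun (S : Finset ℕ) (g : ℕ → ℕ) (hg : Set.InjOn g S) :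
    ∃ τ : Equiv.Perm ℕ, ∀ x ∈ S, τ x = g x := by
  classical
  have hinf : ∀ T : Finset ℕ, Infinite {x // ¬ x ∈ T} := by
    intro T
    have h := (T.finite_toSet).infinite_compl
    exact h.to_subtype
  let e : {x // x ∈ S} ≃ {y // y ∈ S.image g} := Equiv.ofBijective
    (fun x => ⟨g x.1, Finset.mem_image_of_mem g x.2⟩) (by
      constructor
      · intro x y h
        exact Subtype.ext (hg x.2 y.2 (congrArg Subtype.val h))
      · rintro ⟨y, hy⟩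
        obtain ⟨x, hx, rfl⟩ := Finset.mem_image.mp hy
        exact ⟨⟨x, hx⟩, rfl⟩)
  have i1 := hinf S
  have i2 := hinf (S.image g)
  obtain ⟨f⟩ := nonempty_equiv_of_countable (α := {x // ¬ x ∈ S}) (β := {x // ¬ x ∈ S.image g})
  refine ⟨Equiv.subtypeCongr e f, fun x hx => ?_⟩
  simp only [Equiv.subtypeCongr, Equiv.trans_apply, Equiv.sumCongr_apply]
  rw [Equiv.sumCompl_symm_apply_of_pos (p := Membership.mem S) (a := x) hx]
  rfl

/-- A quad with new names of its blacks. -/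
def mq (σ : ℕ → ℕ) (q : Quad) : Quad := (q.1, q.2.image σ)

/-- An edge with a new name of its black. -/
def ie (σ : ℕ → ℕ) (e : Ed) : Ed := (e.1, σ e.2)

theorem mem_ed' {q : Quad} {e : Ed} : e ∈ ed q ↔ e.1 ∈ q.1 ∧ e.2 ∈ q.2 := Finset.mem_product

theorem mem_EdS' {N : Finset Quad} {e : Ed} : e ∈ EdS N ↔ ∃ q ∈ N, e ∈ ed q := by
  unfold EdS
  rw [Finset.mem_biUnion]

theorem mem_bd' {N : Finset Quad} {e : Ed} : e ∈ bd N ↔ e ∈ EdS N ∧ Odd (dg N e) := by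
  unfold bd
  rw [Finset.mem_filter]

theorem mem_rlb' {σ : ℕ → ℕ} {N : Finset Quad} {q : Quad} :
    q ∈ rlb σ N ↔ ∃ p ∈ N, mq σ p = q := by
  unfold rlb
  rw [Finset.mem_image]
  rfl

theorem sub_bl {Q : Finset Quad} {q : Quad} (hq : q ∈ Q) : q.2 ⊆ bl Q :=
  Finset.subset_biUnion_of_mem (u := Prod.snd) hq

theorem mem_bl {Q : Finset Quad} {b : ℕ} : b ∈ bl Q ↔ ∃ q ∈ Q, b ∈ q.2 := Finset.mem_biUnion

theorem mem_wh {Q : Finset Quad} {w : ℕ} : w ∈ wh Q ↔ ∃ q ∈ Q, w ∈ q.1 := Finset.mem_biUnion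

section Perm

variable (τ : Equiv.Perm ℕ)

theorem mem_img {s : Finset ℕ} {a : ℕ} : a ∈ s.image τ ↔ τ⁻¹ a ∈ s := by
  rw [Finset.mem_image]
  constructor
  · rintro ⟨b, hb, rfl⟩
    simpa using hb
  · intro h
    exact ⟨τ⁻¹ a, h, by simp⟩

theorem mq_inv (q : Quad) : mq (⇑(τ⁻¹)) (mq τ q) = q := by
  unfold mq
  refine Prod.ext rfl ?_
  ext a
  rw [mem_img, mem_img]
  simp

theorem mq_inv' (q : Quad) : mq τ (mq (⇑(τ⁻¹)) q) = q := by
  have h := mq_inv (τ⁻¹) q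
  rwa [inv_inv] at h

theorem ie_inv (e : Ed) : ie (⇑(τ⁻¹)) (ie τ e) = e := by
  unfold ie
  simp

theorem ie_inv' (e : Ed) : ie τ (ie (⇑(τ⁻¹)) e) = e := by
  unfold ie
  simp

theorem mq_injective : Function.Injective (mq τ) := fun a b h => by
  rw [← mq_inv τ a, h, mq_inv]

theorem ie_injective : Function.Injective (ie τ) := fun a b h => by
  rw [← ie_inv τ a, h, ie_inv]

theorem mem_rlb {N : Finset Quad} {q : Quad} : q ∈ rlb τ N ↔ mq (⇑(τ⁻¹)) q ∈ N := by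
  rw [mem_rlb']
  constructor
  · rintro ⟨p, hp, rfl⟩
    rwa [mq_inv]
  · intro h
    exact ⟨_, h, mq_inv' τ q⟩

theorem mq_mem_rlb {N : Finset Quad} {q : Quad} : mq τ q ∈ rlb τ N ↔ q ∈ N := by
  rw [mem_rlb, mq_inv]

theorem rlb_inv (N : Finset Quad) : rlb (⇑(τ⁻¹)) (rlb τ N) = N := by
  ext q
  rw [mem_rlb, inv_inv, mq_mem_rlb]

theorem rlb_inv' (N : Finset Quad) : rlb τ (rlb (⇑(τ⁻¹)) N) = N := by
  have h := rlb_inv (τ⁻¹) N
  rwa [inv_inv] at h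

theorem rlb_sub {N Q : Finset Quad} : rlb τ N ⊆ rlb τ Q ↔ N ⊆ Q := by
  constructor
  · intro h q hq
    exact (mq_mem_rlb τ).mp (h ((mq_mem_rlb τ).mpr hq))
  · intro h q hq
    rw [mem_rlb] at hq ⊢
    exact h hq

theorem mem_ed_mq {q : Quad} {e : Ed} : e ∈ ed (mq τ q) ↔ ie (⇑(τ⁻¹)) e ∈ ed q := by
  rw [mem_ed', mem_ed']
  unfold mq ie
  rw [mem_img]

theorem mem_EdS_rlb {N : Finset Quad} {e : Ed} : e ∈ EdS (rlb τ N) ↔ ie (⇑(τ⁻¹)) e ∈ EdS N := by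
  rw [mem_EdS', mem_EdS']
  constructor
  · rintro ⟨q, hq, he⟩
    refine ⟨mq (⇑(τ⁻¹)) q, (mem_rlb τ).mp hq, ?_⟩
    rw [← mem_ed_mq, mq_inv']
    exact he
  · rintro ⟨q, hq, he⟩
    exact ⟨mq τ q, (mq_mem_rlb τ).mpr hq, (mem_ed_mq τ).mpr he⟩

theorem dg_rlb {N : Finset Quad} {e : Ed} : dg (rlb τ N) e = dg N (ie (⇑(τ⁻¹)) e) := by
  unfold dg
  have h : (rlb τ N).filter (fun q => e ∈ ed q) =
      (N.filter (fun q => ie (⇑(τ⁻¹)) e ∈ ed q)).image (mq τ) := by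
    ext q
    rw [Finset.mem_filter, Finset.mem_image]
    constructor
    · rintro ⟨h1, h2⟩
      refine ⟨mq (⇑(τ⁻¹)) q, Finset.mem_filter.2 ⟨(mem_rlb τ).mp h1, ?_⟩, mq_inv' τ q⟩
      rw [← mem_ed_mq, mq_inv']
      exact h2
    · rintro ⟨p, hp, rfl⟩
      rw [Finset.mem_filter] at hp
      exact ⟨(mq_mem_rlb τ).mpr hp.1, (mem_ed_mq τ).mpr hp.2⟩
  rw [h, Finset.card_image_of_injective _ (mq_injective τ)]

theorem mem_bd_rlb {N : Finset Quad} {e : Ed} : e ∈ bd (rlb τ N) ↔ ie (⇑(τ⁻¹)) e ∈ bd N := by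
  rw [mem_bd', mem_bd', mem_EdS_rlb, dg_rlb]

theorem bd_rlb (N : Finset Quad) : bd (rlb τ N) = (bd N).image (ie τ) := by
  ext e
  rw [mem_bd_rlb, Finset.mem_image]
  constructor
  · intro h
    exact ⟨_, h, ie_inv' τ e⟩
  · rintro ⟨a, ha, rfl⟩
    rwa [ie_inv]

theorem card_rlb_perm (N : Finset Quad) : (rlb τ N).card = N.card := by
  have h : rlb τ N = N.image (mq τ) := rfl
  rw [h, Finset.card_image_of_injective _ (mq_injective τ)]

theorem card_bd_rlb (N : Finset Quad) : (bd (rlb τ N)).card = (bd N).card := by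
  rw [bd_rlb, Finset.card_image_of_injective _ (ie_injective τ)]

theorem rlb_sdiff (N Q : Finset Quad) : rlb τ (Q \ N) = rlb τ Q \ rlb τ N := by
  ext q
  rw [mem_rlb, Finset.mem_sdiff, Finset.mem_sdiff, mem_rlb, mem_rlb]

theorem evn_image {Z : Finset Ed} (h : Evn Z) : Evn (Z.image (ie τ)) := by
  constructor
  · intro w
    have h1 : (Z.image (ie τ)).filter (fun e => e.1 = w) =
        (Z.filter (fun e => e.1 = w)).image (ie τ) := by
      rw [Finset.filter_image]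
      rfl
    rw [h1, Finset.card_image_of_injective _ (ie_injective τ)]
    exact h.1 w
  · intro b
    have h1 : (Z.image (ie τ)).filter (fun e => e.2 = b) =
        (Z.filter (fun e => e.2 = τ⁻¹ b)).image (ie τ) := by
      rw [Finset.filter_image]
      congr 1
      refine Finset.filter_congr fun e _ => ?_
      unfold ie
      constructor
      · intro h
        rw [← h]
        simp
      · intro h
        rw [h]
        simp
    rw [h1, Finset.card_image_of_injective _ (ie_injective τ)]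
    exact h.2 _

theorem wh_perm (Q : Finset Quad) : wh (rlb τ Q) = wh Q := by
  ext w
  rw [mem_wh, mem_wh]
  constructor
  · rintro ⟨q, hq, h⟩
    exact ⟨mq (⇑(τ⁻¹)) q, (mem_rlb τ).mp hq, h⟩
  · rintro ⟨q, hq, h⟩
    exact ⟨mq τ q, (mq_mem_rlb τ).mpr hq, h⟩

theorem bl_perm (Q : Finset Quad) : bl (rlb τ Q) = (bl Q).image τ := by
  ext b
  rw [mem_img, mem_bl, mem_bl]
  constructor
  · rintro ⟨q, hq, h⟩
    refine ⟨mq (⇑(τ⁻¹)) q, (mem_rlb τ).mp hq, ?_⟩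
    unfold mq
    rw [mem_img]
    simpa using h
  · rintro ⟨q, hq, h⟩
    refine ⟨mq τ q, (mq_mem_rlb τ).mpr hq, ?_⟩
    unfold mq
    rw [mem_img]
    exact h

/-- `X` is `rlb τ X₀`. -/
theorem exists_pre {X Q : Finset Quad} (hX : X ⊆ rlb τ Q) :
    ∃ X₀ ⊆ Q, X = rlb τ X₀ :=
  ⟨rlb (⇑(τ⁻¹)) X, by rw [← rlb_sub τ, rlb_inv']; exact hX, (rlb_inv' τ X).symm⟩

theorem sph_perm {Q : Finset Quad} (h : Sph Q) (hd : Disjoint (wh Q) ((bl Q).image τ)) :
    Sph (rlb τ Q) where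
  isq := by
    intro q hq
    have h1 := h.isq _ ((mem_rlb τ).mp hq)
    refine ⟨h1.1, ?_⟩
    have h2 : (q.2.image (⇑(τ⁻¹))).card = 2 := h1.2
    rwa [Finset.card_image_of_injective _ (Equiv.injective _)] at h2
  two := by
    intro e he
    rw [dg_rlb]
    exact h.two _ ((mem_EdS_rlb τ).mp he)
  inj := by
    intro X hX hb
    obtain ⟨X₀, h0, rfl⟩ := exists_pre τ hX
    have h1 : bd X₀ = ∅ := by
      rw [bd_rlb, Finset.image_eq_empty] at hb
      exact hb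
    rcases h.inj X₀ h0 h1 with h2 | h2
    · left
      rw [h2]
      rfl
    · right
      rw [h2]
  sur := by
    intro Z hZ hE
    obtain ⟨X, hX, hb⟩ := h.sur (Z.image (ie (⇑(τ⁻¹)))) (by
      intro e he
      obtain ⟨a, ha, rfl⟩ := Finset.mem_image.1 he
      exact (mem_EdS_rlb τ).mp (hZ ha)) (evn_image (τ⁻¹) hE)
    refine ⟨rlb τ X, (rlb_sub τ).mpr hX, ?_⟩
    rw [bd_rlb, hb, Finset.image_image]
    have h1 : ie τ ∘ ie (⇑(τ⁻¹)) = id := funext fun e => ie_inv' τ e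
    rw [h1, Finset.image_id]
  lw := by
    intro X hX w hw
    obtain ⟨X₀, h0, rfl⟩ := exists_pre τ hX
    have h1 : ∀ b, (w, b) ∉ bd X₀ := by
      intro b hb
      refine hw (τ b) ((mem_bd_rlb τ).mpr ?_)
      unfold ie
      simpa using hb
    rcases h.lw X₀ h0 w h1 with h2 | h2
    · left
      intro q hq hwq
      exact (mem_rlb τ).mpr (h2 _ ((mem_rlb τ).mp hq) hwq)
    · right
      intro q hq hwq hqX
      exact h2 _ ((mem_rlb τ).mp hq) hwq ((mem_rlb τ).mp hqX)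
  lb := by
    intro X hX b hb
    obtain ⟨X₀, h0, rfl⟩ := exists_pre τ hX
    have h1 : ∀ w, (w, τ⁻¹ b) ∉ bd X₀ := by
      intro w hw
      exact hb w ((mem_bd_rlb τ).mpr hw)
    have key : ∀ q : Quad, b ∈ q.2 → τ⁻¹ b ∈ (mq (⇑(τ⁻¹)) q).2 := by
      intro q hq
      unfold mq
      rw [mem_img]
      simpa using hq
    rcases h.lb X₀ h0 _ h1 with h2 | h2
    · left
      intro q hq hbq
      exact (mem_rlb τ).mpr (h2 _ ((mem_rlb τ).mp hq) (key q hbq))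
    · right
      intro q hq hbq hqX
      exact h2 _ ((mem_rlb τ).mp hq) (key q hbq) ((mem_rlb τ).mp hqX)
  col := by
    rw [wh_perm, bl_perm]
    exact hd

theorem irr_perm {Q : Finset Quad} (h : Irr Q) (hd : Disjoint (wh Q) ((bl Q).image τ)) :
    Irr (rlb τ Q) where
  toSph := sph_perm τ h.toSph hd
  four := by
    rw [card_rlb_perm]
    exact h.four
  irr := by
    intro X hX hc
    obtain ⟨X₀, h0, rfl⟩ := exists_pre τ hX
    rw [card_bd_rlb] at hc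
    rw [card_rlb_perm, ← rlb_sdiff, card_rlb_perm]
    exact h.irr X₀ h0 hc

end Perm

end SRlbAux

open SRlbAux

theorem rlb_congr {Q : Finset Quad} {σ τ : ℕ → ℕ} (h : ∀ b ∈ bl Q, σ b = τ b) :
    rlb σ Q = rlb τ Q := by
  unfold rlb
  refine Finset.image_congr fun q hq => ?_
  refine Prod.ext rfl ?_
  exact Finset.image_congr fun b hb => h b (sub_bl hq hb)

theorem Irr.rlb {Q : Finset Quad} (h : Irr Q) {σ : ℕ → ℕ} (hσ : Set.InjOn σ (bl Q))
    (hd : Disjoint (wh Q) ((bl Q).image σ)) : Irr (rlb σ Q) := by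
  obtain ⟨τ, hτ⟩ := exists_perm_fun (bl Q) σ hσ
  rw [rlb_congr (Q := Q) (σ := σ) (τ := τ) fun b hb => (hτ b hb).symm]
  refine irr_perm τ h ?_
  have h1 : (bl Q).image τ = (bl Q).image σ := Finset.image_congr fun b hb => hτ b hb
  rwa [h1]

theorem gr_rlb (σ : ℕ → ℕ) (Q : Finset Quad) : gr (rlb σ Q) = gr Q := by
  ext a b
  constructor
  · rintro ⟨hab, q, hq, h⟩
    obtain ⟨p, hp, rfl⟩ := mem_rlb'.1 hq
    exact ⟨hab, p, hp, h⟩
  · rintro ⟨hab, q, hq, h⟩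
    exact ⟨hab, mq σ q, mem_rlb'.2 ⟨q, hq, rfl⟩, h⟩

theorem wh_rlb (σ : ℕ → ℕ) (Q : Finset Quad) : wh (rlb σ Q) = wh Q := by
  ext w
  rw [mem_wh, mem_wh]
  constructor
  · rintro ⟨q, hq, h⟩
    obtain ⟨p, hp, rfl⟩ := mem_rlb'.1 hq
    exact ⟨p, hp, h⟩
  · rintro ⟨q, hq, h⟩
    exact ⟨mq σ q, mem_rlb'.2 ⟨q, hq, rfl⟩, h⟩

theorem bl_rlb (σ : ℕ → ℕ) (Q : Finset Quad) : bl (rlb σ Q) = (bl Q).image σ := by
  ext b
  rw [mem_bl, Finset.mem_image]
  constructor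
  · rintro ⟨q, hq, h⟩
    obtain ⟨p, hp, rfl⟩ := mem_rlb'.1 hq
    obtain ⟨c, hc, h2⟩ := Finset.mem_image.1 h
    exact ⟨c, sub_bl hp hc, h2⟩
  · rintro ⟨c, hc, rfl⟩
    obtain ⟨q, hq, h⟩ := mem_bl.1 hc
    exact ⟨mq σ q, mem_rlb'.2 ⟨q, hq, rfl⟩, Finset.mem_image_of_mem σ h⟩

theorem card_rlb {Q : Finset Quad} {σ : ℕ → ℕ} (hσ : Set.InjOn σ (bl Q)) :
    (rlb σ Q).card = Q.card := by
  obtain ⟨τ, hτ⟩ := exists_perm_fun (bl Q) σ hσ
  rw [rlb_congr (Q := Q) (σ := σ) (τ := τ) fun b hb => (hτ b hb).symm, card_rlb_perm]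

theorem atb_rlb {Q : Finset Quad} {σ : ℕ → ℕ} (hσ : Set.InjOn σ (bl Q)) {b : ℕ}
    (hb : b ∈ bl Q) : atb (rlb σ Q) (σ b) = rlb σ (atb Q b) := by
  ext q
  unfold atb
  rw [Finset.mem_filter, mem_rlb', mem_rlb']
  constructor
  · rintro ⟨⟨p, hp, rfl⟩, h⟩
    obtain ⟨c, hc, h2⟩ := Finset.mem_image.1 h
    have h3 : c = b := hσ (sub_bl hp hc) hb h2
    exact ⟨p, Finset.mem_filter.2 ⟨hp, h3 ▸ hc⟩, rfl⟩
  · rintro ⟨p, hp, rfl⟩
    rw [Finset.mem_filter] at hp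
    exact ⟨⟨p, hp.1, rfl⟩, Finset.mem_image_of_mem σ hp.2⟩

theorem fv_rlb {Q : Finset Quad} {σ : ℕ → ℕ} (hσ : Set.InjOn σ (bl Q)) {b : ℕ}
    (hb : b ∈ bl Q) : fv (rlb σ Q) (σ b) = fv Q b := by
  classical
  ext w
  unfold fv
  rw [Finset.mem_filter, Finset.mem_filter, wh_rlb, mem_EdS', mem_EdS']
  refine and_congr_right fun _ => ?_
  constructor
  · rintro ⟨q, hq, h⟩
    obtain ⟨p, hp, rfl⟩ := mem_rlb'.1 hq
    rw [mem_ed'] at h
    obtain ⟨c, hc, h2⟩ := Finset.mem_image.1 h.2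
    have h3 : c = b := hσ (sub_bl hp hc) hb h2
    exact ⟨p, hp, mem_ed'.2 ⟨h.1, h3 ▸ hc⟩⟩
  · rintro ⟨q, hq, h⟩
    rw [mem_ed'] at h
    exact ⟨mq σ q, mem_rlb'.2 ⟨q, hq, rfl⟩, mem_ed'.2 ⟨h.1, Finset.mem_image_of_mem σ h.2⟩⟩

theorem rlb_rlb (σ τ : ℕ → ℕ) (Q : Finset Quad) : rlb τ (rlb σ Q) = rlb (τ ∘ σ) Q := by
  unfold rlb
  rw [Finset.image_image]
  refine Finset.image_congr fun q _ => ?_
  refine Prod.ext rfl ?_
  exact Finset.image_image

end K5M
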