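import Pool.Agent.Lib.K5M.SKDefs
import Pool.Agent.Lib.K5M.SRlb
import Pool.Agent.Lib.K5M.SEx
import Pool.Agent.Lib.K5M.SDeg
import Pool.Agent.Lib.K5M.STri

/-!
# K5M.SK1: the number of spheres through the standard quad over a given graph

PROOFS. `nbl_gr`: `Irr.exists_relabel` gives a bijection between the blacks of two spheres with the same graph. `two_le_bl`: `Q` has a quad (`4 ≤ Q.card`), its two blacks.
`exists_SP`: `exists_irr` gives `Q0` with graph `H` and whites `{0, 1} ∪ W`; `|bl Q0| = nbl H = |B| + 2`. `H.Adj 0 1` gives a quad `q` with `q.1 = {0, 1}`, `q.2 = {c, c'}`, `c ≠ c'`. Choose `σ : ℕ → ℕ` with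
`σ c = 2`, `σ c' = 3` and `σ` a bijection of `bl Q0 \ {c, c'}` onto `B` (`Finset.equivOfCardEq`, extended by `if`). `rlb σ Q0` is the sphere (`Irr.rlb`, `gr_rlb`, `wh_rlb`, `bl_rlb`).
`sp_equiv`: `σ s τ : ℕ → ℕ` is `τ` on `B` (`Equiv.Perm.ofSubtype τ`) and on `{2, 3}` the identity (`s = false`) or the swap of 2 and 3 (`s = true`): for example `Equiv.swap 2 3 * ofSubtype τ` for `s = true`.
The map `Φ (s, τ) = rlb (σ s τ) Q1`: it is in `SP W B H` (`Irr.rlb`; the blacks are permuted; `qs` goes to `qs`). It is injective: by `Irr.relabel_inj` `σ s τ = σ s' τ'` on `bl Q1 = {2, 3} ∪ B`; at 2: `s = s'`;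
on `B`: `τ = τ'`. It is surjective: for `Q'` in `SP W B H` let `σ'` be the bijection of `Irr.exists_relabel`, `Q' = rlb σ' Q1`. `(qs.1, qs.2.image σ') ∈ Q'` has the same whites as `qs ∈ Q'`, so by `Irr.fst_inj`
`{σ' 2, σ' 3} = {2, 3}`; `s` is true iff `σ' 2 = 3`; `σ'` maps `B` bijectively onto `B` (`BijOn` on `{2, 3} ∪ B` and on `{2, 3}`), this is `τ`; `rlb σ' Q1 = rlb (σ s τ) Q1` by `rlb_congr`.
`fv (Φ (s, τ)) 2 = fv Q1 (if s then 3 else 2)` by `fv_rlb`.
`card_SP`: `2 * |B|!` (`Fintype.card_perm`, `Nat.card_congr`). `card_SP_fv`: `X = {0, 1, v}` is a nonseparating triangle, so `Irr.tri_of_nt` gives a black `b` of `Q1` with `fv Q1 b = X`; the quads at `b` have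
their whites in `X`, and `{0, 1} ⊆ fv Q1 b`, so `b ∈ qs.2 = {2, 3}` by `Irr.mem_snd`. So `fv Q1 2 = X` or `fv Q1 3 = X`, not both (`Irr.fv_inj`); the sphere `Φ (s, τ)` has `fv 2 = X` exactly for one of the two
values of `s` and every `τ`: `|B|!` spheres.
`tsum_SP`, `tsum_SP_fv`: if `nbl H = |B| + 2` there is a sphere by `exists_SP` and the sum of ones is the number (`K5.RelCAux.tsum_one_nat`, finite by the bijection); otherwise there is none (`nbl_gr`), the sum is empty.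
-/

set_option autoImplicit false

namespace K5M

open Finset
open scoped ENNReal

variable {W B : Finset ℕ} {H : K5.Gr} {Q Q1 : Finset Quad}

namespace SK1Aux

theorem two_three {a : ℕ} : a ∈ ({2, 3} : Finset ℕ) ↔ a = 2 ∨ a = 3 := by
  rw [mem_insert, mem_singleton]

theorem image_swap {D : Finset ℕ} {a b : ℕ} (ha : a ∈ D) (hb : b ∈ D) :
    D.image (Equiv.swap a b) = D := by
  refine Finset.eq_of_subset_of_card_le ?_ ?_
  · intro x hx
    obtain ⟨y, hy, rfl⟩ := Finset.mem_image.1 hx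
    by_cases h1 : y = a
    · rw [h1, Equiv.swap_apply_left]
      exact hb
    · by_cases h2 : y = b
      · rw [h2, Equiv.swap_apply_right]
        exact ha
      · rw [Equiv.swap_apply_of_ne_of_ne h1 h2]
        exact hy
  · rw [Finset.card_image_of_injective _ (Equiv.injective _)]

theorem exists_map {A D : Finset ℕ} (h : A.card = D.card) {c c' d d' : ℕ} (hc : c ∈ A)
    (hc' : c' ∈ A) (hd : d ∈ D) (hd' : d' ∈ D) (hcc : c ≠ c') (hdd : d ≠ d') :
    ∃ σ : ℕ → ℕ, Set.InjOn σ A ∧ A.image σ = D ∧ σ c = d ∧ σ c' = d' := by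
  classical
  let e : ↥A ≃ ↥D := Finset.equivOfCardEq h
  let σ0 : ℕ → ℕ := fun x => if hx : x ∈ A then (e ⟨x, hx⟩ : ℕ) else 0
  have h0 : ∀ x (hx : x ∈ A), σ0 x = (e ⟨x, hx⟩ : ℕ) := fun x hx => dif_pos hx
  have h0i : Set.InjOn σ0 A := by
    intro x hx y hy hxy
    rw [h0 x hx, h0 y hy] at hxy
    exact congrArg Subtype.val (e.injective (Subtype.ext hxy))
  have h0m : A.image σ0 = D := by
    refine Finset.eq_of_subset_of_card_le ?_ ?_
    · intro x hx
      obtain ⟨y, hy, rfl⟩ := Finset.mem_image.1 hx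
      rw [h0 y hy]
      exact (e ⟨y, hy⟩).2
    · rw [Finset.card_image_of_injOn h0i, h]
  have hc0 : σ0 c ∈ D := h0m ▸ Finset.mem_image_of_mem _ hc
  let σ1 : ℕ → ℕ := fun x => Equiv.swap (σ0 c) d (σ0 x)
  have h1i : Set.InjOn σ1 A := fun x hx y hy hxy => h0i hx hy ((Equiv.injective _) hxy)
  have h1m : A.image σ1 = D := by
    have h2 : A.image σ1 = (A.image σ0).image (Equiv.swap (σ0 c) d) := by
      rw [Finset.image_image]
      rfl
    rw [h2, h0m, image_swap hc0 hd]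
  have h1c : σ1 c = d := Equiv.swap_apply_left _ _
  have hc1 : σ1 c' ∈ D := h1m ▸ Finset.mem_image_of_mem _ hc'
  have h1n : d ≠ σ1 c' := by
    intro h2
    exact hcc (h1i hc hc' (h1c.trans h2))
  refine ⟨fun x => Equiv.swap (σ1 c') d' (σ1 x), fun x hx y hy hxy => h1i hx hy
    ((Equiv.injective _) hxy), ?_, ?_, Equiv.swap_apply_left _ _⟩
  · have h2 : A.image (fun x => Equiv.swap (σ1 c') d' (σ1 x)) =
        (A.image σ1).image (Equiv.swap (σ1 c') d') := by
      rw [Finset.image_image]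
      rfl
    rw [h2, h1m, image_swap hc1 hd']
  · change Equiv.swap (σ1 c') d' (σ1 c) = d
    rw [h1c, Equiv.swap_apply_of_ne_of_ne h1n hdd]

theorem card_bl_rlb {σ : ℕ → ℕ} {N : Finset Quad} (hσ : Set.InjOn σ (bl N)) :
    (bl (rlb σ N)).card = (bl N).card := by
  rw [bl_rlb, Finset.card_image_of_injOn hσ]

/-- The renaming of the blacks. -/
def sgm (B : Finset ℕ) (s : Bool) (τ : Equiv.Perm {b // b ∈ B}) : Equiv.Perm ℕ :=
  (if s then Equiv.swap 2 3 else 1) * Equiv.Perm.ofSubtype τ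

theorem sgm_two {B : Finset ℕ} (hB : Disjoint {2, 3} B) (s : Bool) (τ : Equiv.Perm {b // b ∈ B}) :
    sgm B s τ 2 = if s then 3 else 2 := by
  have h2 : 2 ∉ B := fun h => disjoint_left.1 hB (two_three.2 (Or.inl rfl)) h
  unfold sgm
  rw [Equiv.Perm.mul_apply, Equiv.Perm.ofSubtype_apply_of_not_mem τ h2]
  cases s
  · rfl
  · exact Equiv.swap_apply_left 2 3

theorem sgm_three {B : Finset ℕ} (hB : Disjoint {2, 3} B) (s : Bool)
    (τ : Equiv.Perm {b // b ∈ B}) : sgm B s τ 3 = if s then 2 else 3 := by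
  have h2 : 3 ∉ B := fun h => disjoint_left.1 hB (two_three.2 (Or.inr rfl)) h
  unfold sgm
  rw [Equiv.Perm.mul_apply, Equiv.Perm.ofSubtype_apply_of_not_mem τ h2]
  cases s
  · rfl
  · exact Equiv.swap_apply_right 2 3

theorem sgm_mem {B : Finset ℕ} (hB : Disjoint {2, 3} B) (s : Bool)
    (τ : Equiv.Perm {b // b ∈ B}) {b : ℕ} (hb : b ∈ B) : sgm B s τ b = (τ ⟨b, hb⟩ : ℕ) := by
  have h1 : (τ ⟨b, hb⟩ : ℕ) ∈ B := (τ ⟨b, hb⟩).2
  have h2 : (τ ⟨b, hb⟩ : ℕ) ≠ 2 := fun h => disjoint_left.1 hB (two_three.2 (Or.inl h)) h1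
  have h3 : (τ ⟨b, hb⟩ : ℕ) ≠ 3 := fun h => disjoint_left.1 hB (two_three.2 (Or.inr h)) h1
  unfold sgm
  rw [Equiv.Perm.mul_apply, Equiv.Perm.ofSubtype_apply_of_mem τ hb]
  cases s
  · rfl
  · exact Equiv.swap_apply_of_ne_of_ne h2 h3

theorem sgm_image {B : Finset ℕ} (hB : Disjoint {2, 3} B) (s : Bool)
    (τ : Equiv.Perm {b // b ∈ B}) :
    (({2, 3} : Finset ℕ) ∪ B).image (sgm B s τ) = {2, 3} ∪ B := by
  refine Finset.eq_of_subset_of_card_le ?_ ?_
  · intro x hx
    obtain ⟨y, hy, rfl⟩ := Finset.mem_image.1 hx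
    rcases mem_union.1 hy with h1 | h1
    · rcases two_three.1 h1 with h2 | h2
      · rw [h2, sgm_two hB]
        refine mem_union_left _ (two_three.2 ?_)
        cases s
        · exact Or.inl rfl
        · exact Or.inr rfl
      · rw [h2, sgm_three hB]
        refine mem_union_left _ (two_three.2 ?_)
        cases s
        · exact Or.inr rfl
        · exact Or.inl rfl
    · rw [sgm_mem hB s τ h1]
      exact mem_union_right _ (τ ⟨y, h1⟩).2
  · rw [Finset.card_image_of_injective _ (Equiv.injective _)]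

theorem sgm_pair {B : Finset ℕ} (hB : Disjoint {2, 3} B) (s : Bool)
    (τ : Equiv.Perm {b // b ∈ B}) : ({2, 3} : Finset ℕ).image (sgm B s τ) = {2, 3} := by
  rw [Finset.image_insert, Finset.image_singleton, sgm_two hB, sgm_three hB]
  cases s
  · rfl
  · exact Finset.pair_comm 3 2

theorem mem_rlb_of {σ : ℕ → ℕ} {N : Finset Quad} {q : Quad} (hq : q ∈ N) :
    ((q.1, q.2.image σ) : Quad) ∈ rlb σ N :=
  Finset.mem_image_of_mem (fun q : Quad => ((q.1, q.2.image σ) : Quad)) hq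

theorem sgm_sp {W B : Finset ℕ} {H : K5.Gr} {Q1 : Finset Quad} (h : SP W B H Q1)
    (hB : Disjoint {2, 3} B) (s : Bool) (τ : Equiv.Perm {b // b ∈ B}) :
    SP W B H (rlb (sgm B s τ) Q1) := by
  have h1 : (bl Q1).image (sgm B s τ) = bl Q1 := by
    rw [h.ebl]
    exact sgm_image hB s τ
  refine ⟨h.irr.rlb (Equiv.injective _).injOn ?_, ?_, ?_, ?_, ?_⟩
  · rw [h1]
    exact h.irr.col
  · have h2 := mem_rlb_of (σ := sgm B s τ) h.mem
    have h3 : ((qs.1, qs.2.image (sgm B s τ)) : Quad) = qs := Prod.ext rfl (sgm_pair hB s τ)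
    rwa [h3] at h2
  · rw [wh_rlb, h.ewh]
  · rw [bl_rlb, h1, h.ebl]
  · rw [gr_rlb, h.egr]

theorem bool_ne {s s' : Bool} (h : (if s then 3 else 2 : ℕ) = if s' then 3 else 2) : s = s' := by
  cases s
  · cases s'
    · rfl
    · exact absurd h (by decide)
  · cases s'
    · exact absurd h (by decide)
    · rfl

end SK1Aux

open SK1Aux

theorem nbl_gr (h : Irr Q) : nbl (gr Q) = (bl Q).card := by
  unfold nbl
  have hex : ∃ Q' : Finset Quad, Irr Q' ∧ gr Q' = gr Q := ⟨Q, h, rfl⟩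
  rw [dif_pos hex]
  obtain ⟨h1, h2⟩ := hex.choose_spec
  obtain ⟨σ, hσ, h3⟩ := h1.exists_relabel h h2
  conv_rhs => rw [h3]
  rw [card_bl_rlb hσ.injOn]

theorem two_le_bl (h : Irr Q) : 2 ≤ (bl Q).card := by
  obtain ⟨q, hq⟩ : Q.Nonempty := Finset.card_pos.1 (by have := h.four; omega)
  rw [← (h.isq q hq).2]
  exact Finset.card_le_card (Finset.subset_biUnion_of_mem (u := Prod.snd) hq)

theorem two_le_nbl {R U : Finset ℕ} (h : K5.PCore R U H) : 2 ≤ nbl H := by
  obtain ⟨Q, h1, h2, _⟩ := exists_irr h.rtd.on h.rtd.three h.mac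
  rw [← h2, nbl_gr h1]
  exact two_le_bl h1

theorem SP.nbl_eq (h : SP W B H Q) (hB : Disjoint {2, 3} B) : nbl H = B.card + 2 := by
  rw [← h.egr, nbl_gr h.irr, h.ebl, Finset.card_union_of_disjoint hB, Finset.card_pair (by decide),
    Nat.add_comm]

theorem exists_SP (hon : K5.On H ({0, 1} ∪ W)) (h3 : K5.Three H ({0, 1} ∪ W))
    (hM : K5.Mac H ({0, 1} ∪ W)) (h01 : H.Adj 0 1) (hB : Disjoint {2, 3} B)
    (hWB : Disjoint ({0, 1} ∪ W) ({2, 3} ∪ B)) (hn : nbl H = B.card + 2) :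
    ∃ Q : Finset Quad, SP W B H Q := by
  obtain ⟨Q0, hI, hg, hw⟩ := exists_irr hon h3 hM
  have hadj : (gr Q0).Adj 0 1 := by
    rw [hg]
    exact h01
  obtain ⟨_, q, hq, hq1⟩ := hadj
  obtain ⟨c, c', hcc, hq2⟩ := Finset.card_eq_two.1 (hI.isq q hq).2
  have hsub : q.2 ⊆ bl Q0 := Finset.subset_biUnion_of_mem (u := Prod.snd) hq
  have hc : c ∈ bl Q0 := hsub (by rw [hq2]; exact mem_insert_self _ _)
  have hc' : c' ∈ bl Q0 := hsub (by rw [hq2]; exact mem_insert_of_mem (mem_singleton_self _))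
  have hcard : (bl Q0).card = (({2, 3} : Finset ℕ) ∪ B).card := by
    rw [Finset.card_union_of_disjoint hB, Finset.card_pair (by decide), Nat.add_comm 2, ← hn, ← hg,
      nbl_gr hI]
  obtain ⟨σ, hσ, hσm, hσc, hσc'⟩ := exists_map hcard hc hc'
    (mem_union_left _ (two_three.2 (Or.inl rfl))) (mem_union_left _ (two_three.2 (Or.inr rfl)))
    hcc (by decide)
  refine ⟨rlb σ Q0, hI.rlb hσ ?_, ?_, ?_, ?_, ?_⟩
  · rw [hσm, hw]
    exact hWB
  · have h2 := mem_rlb_of (σ := σ) hq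
    have h4 : ((q.1, q.2.image σ) : Quad) = qs := by
      refine Prod.ext hq1 ?_
      change q.2.image σ = {2, 3}
      rw [hq2, Finset.image_insert, Finset.image_singleton, hσc, hσc']
    rwa [h4] at h2
  · rw [wh_rlb, hw]
  · rw [bl_rlb, hσm]
  · rw [gr_rlb, hg]

theorem sp_equiv (h : SP W B H Q1) (hB : Disjoint {2, 3} B) :
    ∃ Φ : Bool × Equiv.Perm {b // b ∈ B} ≃ {Q : Finset Quad // SP W B H Q},
      ∀ s τ, fv (Φ (s, τ)).1 2 = fv Q1 (if s then 3 else 2) := by
  let f : Bool × Equiv.Perm {b // b ∈ B} → {Q : Finset Quad // SP W B H Q} :=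
    fun x => ⟨rlb (sgm B x.1 x.2) Q1, sgm_sp h hB x.1 x.2⟩
  have hmem2 : 2 ∈ bl Q1 := by
    rw [h.ebl]
    exact mem_union_left _ (two_three.2 (Or.inl rfl))
  have hmem3 : 3 ∈ bl Q1 := by
    rw [h.ebl]
    exact mem_union_left _ (two_three.2 (Or.inr rfl))
  have hmemB : ∀ b ∈ B, b ∈ bl Q1 := by
    intro b hb
    rw [h.ebl]
    exact mem_union_right _ hb
  have hinj : Function.Injective f := by
    rintro ⟨s, τ⟩ ⟨s', τ'⟩ he
    have h1 : rlb (sgm B s τ) Q1 = rlb (sgm B s' τ') Q1 := congrArg Subtype.val he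
    have h2 := h.irr.relabel_inj (Equiv.injective _).injOn (Equiv.injective _).injOn h1
    have h3 := h2 2 hmem2
    rw [sgm_two hB, sgm_two hB] at h3
    have h4 := bool_ne h3
    subst h4
    refine Prod.ext rfl (Equiv.ext ?_)
    rintro ⟨b, hb⟩
    have h5 := h2 b (hmemB b hb)
    rw [sgm_mem hB s τ hb, sgm_mem hB s τ' hb] at h5
    exact Subtype.ext h5
  have hsurj : Function.Surjective f := by
    rintro ⟨Q', h'⟩
    obtain ⟨σ, hσ, hQ'⟩ := h.irr.exists_relabel h'.irr (h.egr.trans h'.egr.symm)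
    have hpair : ({2, 3} : Finset ℕ).image σ = {2, 3} := by
      have h2 := mem_rlb_of (σ := σ) h.mem
      rw [← hQ'] at h2
      have h3 := h'.irr.fst_inj h2 h'.mem rfl
      exact congrArg Prod.snd h3
    have hs2 : σ 2 = 2 ∨ σ 2 = 3 := by
      rw [← two_three, ← hpair]
      exact Finset.mem_image_of_mem _ (two_three.2 (Or.inl rfl))
    have hs3 : σ 3 = 2 ∨ σ 3 = 3 := by
      rw [← two_three, ← hpair]
      exact Finset.mem_image_of_mem _ (two_three.2 (Or.inr rfl))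
    have hs23 : σ 2 ≠ σ 3 := fun he => absurd (hσ.injOn hmem2 hmem3 he) (by decide)
    have hsB : ∀ b ∈ B, σ b ∈ B := by
      intro b hb
      have h1 : σ b ∈ bl Q' := hσ.mapsTo (hmemB b hb)
      rw [h'.ebl] at h1
      rcases mem_union.1 h1 with h2 | h2
      · exfalso
        rw [← hpair] at h2
        obtain ⟨x, hx, hxb⟩ := Finset.mem_image.1 h2
        have hxm : x ∈ bl Q1 := by
          rcases two_three.1 hx with h3 | h3
          · rw [h3]
            exact hmem2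
          · rw [h3]
            exact hmem3
        have h4 := hσ.injOn hxm (hmemB b hb) hxb
        rw [h4] at hx
        exact disjoint_left.1 hB hx hb
      · exact h2
    let g : {b // b ∈ B} → {b // b ∈ B} := fun b => ⟨σ b.1, hsB b.1 b.2⟩
    have hg : Function.Injective g := by
      rintro ⟨a, ha⟩ ⟨b, hb⟩ hab
      exact Subtype.ext (hσ.injOn (hmemB a ha) (hmemB b hb) (congrArg Subtype.val hab))
    let τ : Equiv.Perm {b // b ∈ B} := Equiv.ofBijective g (Finite.injective_iff_bijective.1 hg)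
    refine ⟨(decide (σ 2 = 3), τ), Subtype.ext ?_⟩
    change rlb (sgm B (decide (σ 2 = 3)) τ) Q1 = Q'
    rw [hQ']
    refine rlb_congr fun b hb => ?_
    rw [h.ebl] at hb
    rcases mem_union.1 hb with h1 | h1
    · rcases two_three.1 h1 with h2 | h2
      · rw [h2, sgm_two hB]
        rcases hs2 with h3 | h3
        · rw [h3]
          rfl
        · rw [h3]
          rfl
      · rw [h2, sgm_three hB]
        rcases hs2 with h3 | h3
        · have h4 : σ 3 = 3 := hs3.resolve_left (fun h5 => hs23 (h3.trans h5.symm))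
          rw [h3, h4]
          rfl
        · have h4 : σ 3 = 2 := hs3.resolve_right (fun h5 => hs23 (h3.trans h5.symm))
          rw [h3, h4]
          rfl
    · rw [sgm_mem hB _ τ h1]
      rfl
  refine ⟨Equiv.ofBijective f ⟨hinj, hsurj⟩, fun s τ => ?_⟩
  change fv (rlb (sgm B s τ) Q1) 2 = _
  have h1 : sgm B s τ (if s then 3 else 2) = 2 := by
    cases s
    · exact sgm_two hB false τ
    · exact sgm_three hB true τ
  have h2 : (if s then 3 else 2 : ℕ) ∈ bl Q1 := by
    cases s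
    · exact hmem2
    · exact hmem3
  have h3 := fv_rlb (Q := Q1) (σ := sgm B s τ) (Equiv.injective _).injOn h2
  rw [h1] at h3
  exact h3

theorem card_SP (h : SP W B H Q1) (hB : Disjoint {2, 3} B) :
    Nat.card {Q : Finset Quad // SP W B H Q} = 2 * B.card.factorial := by
  obtain ⟨Φ, _⟩ := sp_equiv h hB
  rw [← Nat.card_congr Φ, Nat.card_prod, Nat.card_eq_fintype_card, Fintype.card_bool,
    Nat.card_eq_fintype_card, Fintype.card_perm, Fintype.card_coe]

theorem card_SP_fv (h : SP W B H Q1) (hB : Disjoint {2, 3} B) {v : ℕ}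
    (hX : K5.NT H ({0, 1} ∪ W) {0, 1, v}) :
    Nat.card {Q : Finset Quad // SP W B H Q ∧ fv Q 2 = {0, 1, v}} = B.card.factorial := by
  obtain ⟨Φ, hΦ⟩ := sp_equiv h hB
  have hX' : K5.NT (gr Q1) (wh Q1) {0, 1, v} := by
    rw [h.egr, h.ewh]
    exact hX
  obtain ⟨b, hb, _, hfv⟩ := h.irr.tri_of_nt hX'
  have hb2 : b ∈ qs.2 := by
    rw [h.irr.mem_snd h.mem, hfv]
    intro x hx
    have hx' : x ∈ ({0, 1} : Finset ℕ) := hx
    rw [mem_insert, mem_singleton] at hx'
    rw [mem_insert, mem_insert]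
    rcases hx' with h1 | h1
    · exact Or.inl h1
    · exact Or.inr (Or.inl h1)
  obtain ⟨s0, hs0⟩ : ∃ s0 : Bool, (if s0 then 3 else 2 : ℕ) = b := by
    rcases two_three.1 (show b ∈ ({2, 3} : Finset ℕ) from hb2) with h1 | h1
    · exact ⟨false, h1.symm⟩
    · exact ⟨true, h1.symm⟩
  have hmem : ∀ s : Bool, (if s then 3 else 2 : ℕ) ∈ bl Q1 := by
    intro s
    rw [h.ebl]
    cases s
    · exact mem_union_left _ (two_three.2 (Or.inl rfl))
    · exact mem_union_left _ (two_three.2 (Or.inr rfl))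
  let f : Equiv.Perm {b // b ∈ B} → {Q : Finset Quad // SP W B H Q ∧ fv Q 2 = {0, 1, v}} :=
    fun τ => ⟨(Φ (s0, τ)).1, (Φ (s0, τ)).2, by rw [hΦ, hs0, hfv]⟩
  have hf : Function.Bijective f := by
    constructor
    · intro τ τ' he
      have h1 : (Φ (s0, τ)).1 = (Φ (s0, τ')).1 :=
        congrArg (fun x : {Q : Finset Quad // SP W B H Q ∧ fv Q 2 = {0, 1, v}} => x.1) he
      have h2 := Φ.injective (Subtype.ext h1)
      exact congrArg Prod.snd h2
    · rintro ⟨Q', h1, h2⟩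
      obtain ⟨⟨s, τ⟩, h3⟩ := Φ.surjective ⟨Q', h1⟩
      have h4 : (Φ (s, τ)).1 = Q' := congrArg Subtype.val h3
      have h5 := hΦ s τ
      rw [h4, h2, ← hfv] at h5
      have h6 := h.irr.fv_inj hb (hmem s) h5
      rw [← hs0] at h6
      have h7 := bool_ne h6
      subst h7
      exact ⟨τ, Subtype.ext h4⟩
  rw [← Nat.card_eq_of_bijective f hf, Nat.card_eq_fintype_card, Fintype.card_perm,
    Fintype.card_coe]

namespace SK1Aux

theorem tsum_one {α : Type} [Finite α] : ∑' _ : α, (1 : ℝ≥0∞) = (Nat.card α : ℝ≥0∞) := by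
  have := Fintype.ofFinite α
  rw [tsum_fintype, Finset.sum_const, Nat.card_eq_fintype_card, nsmul_eq_mul, mul_one,
    Finset.card_univ]

theorem fin_SP (h : SP W B H Q1) (hB : Disjoint {2, 3} B) :
    Finite {Q : Finset Quad // SP W B H Q} := by
  obtain ⟨Φ, _⟩ := sp_equiv h hB
  exact Finite.of_equiv _ Φ

end SK1Aux

theorem tsum_SP (hB : Disjoint {2, 3} B) (hWB : Disjoint ({0, 1} ∪ W) ({2, 3} ∪ B))
    (hP : K5.PCore {0, 1} W H) :
    ∑' _ : {Q : Finset Quad // SP W B H Q}, (1 : ℝ≥0∞) =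
      if nbl H = B.card + 2 then ((2 * B.card.factorial : ℕ) : ℝ≥0∞) else 0 := by
  by_cases hn : nbl H = B.card + 2
  · rw [if_pos hn]
    have h01 : H.Adj 0 1 := hP.rtd.clique
      ⟨by decide, mem_insert_self _ _, mem_insert_of_mem (mem_singleton_self _)⟩
    obtain ⟨Q1, h⟩ := exists_SP hP.rtd.on hP.rtd.three hP.mac h01 hB hWB hn
    have := fin_SP h hB
    rw [SK1Aux.tsum_one, card_SP h hB]
  · rw [if_neg hn]
    have : IsEmpty {Q : Finset Quad // SP W B H Q} := ⟨fun Q => hn (Q.2.nbl_eq hB)⟩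
    exact tsum_empty

theorem tsum_SP_fv (hB : Disjoint {2, 3} B) (hWB : Disjoint ({0, 1} ∪ W) ({2, 3} ∪ B)) {v : ℕ}
    (hv : v ∈ W) (h01 : Disjoint {0, 1} W) (hP : K5.PCore {0, 1, v} (W.erase v) H) :
    ∑' _ : {Q : Finset Quad // SP W B H Q ∧ fv Q 2 = {0, 1, v}}, (1 : ℝ≥0∞) =
      if nbl H = B.card + 2 then (B.card.factorial : ℝ≥0∞) else 0 := by
  by_cases hn : nbl H = B.card + 2
  · rw [if_pos hn]
    have hadj : H.Adj 0 1 := hP.rtd.clique
      ⟨by decide, mem_insert_self _ _, mem_insert_of_mem (mem_insert_self _ _)⟩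
    have he : ({0, 1, v} : Finset ℕ) ∪ W.erase v = {0, 1} ∪ W := by
      ext x
      simp only [mem_union, mem_insert, mem_singleton, mem_erase]
      constructor
      · rintro ((h1 | h1 | h1) | h1)
        · exact Or.inl (Or.inl h1)
        · exact Or.inl (Or.inr h1)
        · exact Or.inr (h1 ▸ hv)
        · exact Or.inr h1.2
      · rintro ((h1 | h1) | h1)
        · exact Or.inl (Or.inl h1)
        · exact Or.inl (Or.inr (Or.inl h1))
        · by_cases h2 : x = v
          · exact Or.inl (Or.inr (Or.inr h2))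
          · exact Or.inr ⟨h2, h1⟩
    have hon := hP.rtd.on
    have h3 := hP.rtd.three
    have hM := hP.mac
    rw [he] at hon h3 hM
    obtain ⟨Q1, h⟩ := exists_SP hon h3 hM hadj hB hWB hn
    have hv0 : v ≠ 0 := fun h4 => disjoint_left.1 h01 (mem_insert_self _ _) (h4 ▸ hv)
    have hv1 : v ≠ 1 := fun h4 =>
      disjoint_left.1 h01 (mem_insert_of_mem (mem_singleton_self _)) (h4 ▸ hv)
    have hc3 : ({0, 1, v} : Finset ℕ).card = 3 := by
      rw [card_insert_of_notMem, card_pair (Ne.symm hv1)]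
      rw [mem_insert, mem_singleton]
      rintro (h4 | h4)
      · exact absurd h4 (by decide)
      · exact hv0 h4.symm
    have hNT : K5.NT H ({0, 1} ∪ W) {0, 1, v} := by
      refine ⟨?_, hc3, hP.rtd.clique, ?_⟩
      · rw [← he]
        exact subset_union_left
      · have h5 : ({0, 1} ∪ W) \ ({0, 1, v} : Finset ℕ) = W.erase v := by
          rw [← he, union_sdiff_left, Finset.sdiff_eq_self_iff_disjoint]
          exact hP.rtd.disj.symm
        rw [h5]
        rcases hP.rtd.root with h6 | h6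
        · rw [hc3] at h6
          exact absurd h6 (by decide)
        · exact h6.2
    have := fin_SP h hB
    have hfin : Finite {Q : Finset Quad // SP W B H Q ∧ fv Q 2 = {0, 1, v}} :=
      Finite.of_injective (fun Q => (⟨Q.1, Q.2.1⟩ : {Q : Finset Quad // SP W B H Q}))
        (fun Q Q' hQ => Subtype.ext
          (congrArg (fun x : {Q : Finset Quad // SP W B H Q} => x.1) hQ))
    rw [SK1Aux.tsum_one, card_SP_fv h hB hNT]
  · rw [if_neg hn]
    have : IsEmpty {Q : Finset Quad // SP W B H Q ∧ fv Q 2 = {0, 1, v}} :=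
      ⟨fun Q => hn (Q.2.1.nbl_eq hB)⟩
    exact tsum_empty

end K5M
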