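import Pool.Agent.Lib.K5M.SK1
import Pool.Agent.Lib.K5M.SK2
import Pool.Agent.Lib.K5M.SK3
import Pool.Agent.Lib.K5M.SK4

/-!
# K5M.SK5: the sum over the marked cores with a given label set

PROOF. `tsum_cm` with `φ Q M' = cw x z w T M'.card L (Q.erase qs) M'` (`(insert qs K).erase qs = K`, `CoreQ.not_mem`). Fix `W ⊆ L`, `B = L \ W`, `H`. For `Q` with `SP W B H Q`: `wh (Q.erase qs) ∩ L = W`
(`wh Q = {0, 1} ∪ W`, `Irr.toCoreQ`, `CoreQ.wh_ins`, `L` disjoint from `{0, 1}`), so by `SP.cw_eq1` and `tsum_marks` the sum over `M'` is `x ^ W.card * ∑' M : {M // ∀ X ∈ M, NT H ({0, 1} ∪ W) X}, mwt z w T {0, 1} H M`, which does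
not depend on `Q`. So the sum over `Q` is this value times `∑' _ : {Q // SP W B H Q}, 1` (`ENNReal.tsum_mul_right`). If `PCore {0, 1} W H` fails there is no `Q` (`SP.pcore`). Otherwise `tsum_SP`. The sum over `H` of
`if PCore {0, 1} W H ∧ nbl H = |B| + 2 then 2 |B|! * x ^ |W| * ∑' M, mwt else 0` is `x ^ |W| * (2 |B|!) * sS z w T {0, 1} W (|B| + 2)`; the condition `X ≠ {0, 1}` in `sS` is automatic because `NT` gives `X.card = 3`.
-/

set_option autoImplicit false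

namespace K5M

open Finset
open scoped ENNReal

namespace SK5Aux

theorem wh_erase {L W B : Finset ℕ} {H : K5.Gr} {Q : Finset Quad} (hL : Disjoint L {0, 1, 2, 3})
    (hW : W ⊆ L) (h : SP W B H Q) : wh (Q.erase qs) ∩ L = W := by
  have h1 := (h.irr.toCoreQ h.mem).wh_ins
  rw [Finset.insert_erase h.mem, h.ewh] at h1
  rw [← h1]
  ext v
  rw [Finset.mem_inter, Finset.mem_union, Finset.mem_insert, Finset.mem_singleton]
  constructor
  · rintro ⟨h2 | h2, h3⟩
    · exfalso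
      have h4 := Finset.disjoint_left.1 hL h3
      apply h4
      rcases h2 with rfl | rfl
      · simp
      · simp
    · exact h2
  · intro h2
    exact ⟨Or.inr h2, hW h2⟩

/-- The sum over the marks of one graph. -/
noncomputable def mc (z w T : ℝ≥0∞) (W : Finset ℕ) (H : K5.Gr) : ℝ≥0∞ :=
  ∑' M : {M : Finset (Finset ℕ) // ∀ X ∈ M, K5.NT H ({0, 1} ∪ W) X}, K5.mwt z w T {0, 1} H M.1

theorem sum_marks {L W B : Finset ℕ} {H : K5.Gr} {Q : Finset Quad} (hL : Disjoint L {0, 1, 2, 3})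
    (hW : W ⊆ L) (h : SP W B H Q) (x z w T : ℝ≥0∞) :
    ∑' M' : {M' : Finset ℕ // M' ⊆ bl Q ∧ ∀ b ∈ M', (atb Q b).card = 3},
      cw x z w T M'.1.card L (Q.erase qs) M'.1 = x ^ W.card * mc z w T W H := by
  have h1 : ∀ M' : {M' : Finset ℕ // M' ⊆ bl Q ∧ ∀ b ∈ M', (atb Q b).card = 3},
      cw x z w T M'.1.card L (Q.erase qs) M'.1 =
        (fun M : Finset (Finset ℕ) => x ^ W.card * K5.mwt z w T {0, 1} H M) (M'.1.image (fv Q)) :=
    fun M' => h.cw_eq1 M'.2.1 (wh_erase hL hW h) x z w T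
  rw [tsum_congr h1, tsum_marks h.irr (fun M : Finset (Finset ℕ) => x ^ W.card * K5.mwt z w T {0, 1} H M),
    h.egr, h.ewh, ENNReal.tsum_mul_left]
  rfl

theorem sS_eq (z w T : ℝ≥0∞) (W : Finset ℕ) (j : ℕ) [∀ H : K5.Gr, Decidable (K5.PCore {0, 1} W H ∧ nbl H = j)] :
    sS z w T {0, 1} W j = ∑' H : K5.Gr, if K5.PCore {0, 1} W H ∧ nbl H = j then mc z w T W H else 0 := by
  classical
  unfold sS
  have e1 := tsum_subtype (f := fun p : K5.Gr × Finset (Finset ℕ) => K5.mwt z w T {0, 1} p.1 p.2)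
    {p : K5.Gr × Finset (Finset ℕ) | (K5.PCore {0, 1} W p.1 ∧
      ∀ X ∈ p.2, K5.NT p.1 ({0, 1} ∪ W) X ∧ X ≠ {0, 1}) ∧ nbl p.1 = j}
  refine e1.trans ?_
  have e2 : ∑' p : K5.Gr × Finset (Finset ℕ), Set.indicator {p : K5.Gr × Finset (Finset ℕ) |
      (K5.PCore {0, 1} W p.1 ∧ ∀ X ∈ p.2, K5.NT p.1 ({0, 1} ∪ W) X ∧ X ≠ {0, 1}) ∧ nbl p.1 = j}
      (fun p : K5.Gr × Finset (Finset ℕ) => K5.mwt z w T {0, 1} p.1 p.2) p =
      ∑' (H : K5.Gr) (M : Finset (Finset ℕ)), Set.indicator {p : K5.Gr × Finset (Finset ℕ) |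
      (K5.PCore {0, 1} W p.1 ∧ ∀ X ∈ p.2, K5.NT p.1 ({0, 1} ∪ W) X ∧ X ≠ {0, 1}) ∧ nbl p.1 = j}
      (fun p : K5.Gr × Finset (Finset ℕ) => K5.mwt z w T {0, 1} p.1 p.2) (H, M) :=
    ENNReal.tsum_prod (f := fun (H : K5.Gr) (M : Finset (Finset ℕ)) => Set.indicator {p : K5.Gr × Finset (Finset ℕ) |
      (K5.PCore {0, 1} W p.1 ∧ ∀ X ∈ p.2, K5.NT p.1 ({0, 1} ∪ W) X ∧ X ≠ {0, 1}) ∧ nbl p.1 = j}
      (fun p : K5.Gr × Finset (Finset ℕ) => K5.mwt z w T {0, 1} p.1 p.2) (H, M))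
  rw [e2]
  refine tsum_congr fun H => ?_
  have hcard : ∀ M : Finset (Finset ℕ), (∀ X ∈ M, K5.NT H ({0, 1} ∪ W) X ∧ X ≠ {0, 1}) ↔
      ∀ X ∈ M, K5.NT H ({0, 1} ∪ W) X := by
    intro M
    constructor
    · exact fun h X hX => (h X hX).1
    · intro h X hX
      refine ⟨h X hX, ?_⟩
      rintro rfl
      have h3 := (h _ hX).2.1
      simp at h3
  by_cases hH : K5.PCore {0, 1} W H ∧ nbl H = j
  · rw [if_pos hH]
    unfold mc
    have e3 := tsum_subtype (f := fun M : Finset (Finset ℕ) => K5.mwt z w T {0, 1} H M)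
      {M : Finset (Finset ℕ) | ∀ X ∈ M, K5.NT H ({0, 1} ∪ W) X}
    refine Eq.trans ?_ e3.symm
    refine tsum_congr fun M => ?_
    by_cases hM : ∀ X ∈ M, K5.NT H ({0, 1} ∪ W) X
    · rw [Set.indicator_of_mem, Set.indicator_of_mem]
      · exact hM
      · exact ⟨⟨hH.1, (hcard M).2 hM⟩, hH.2⟩
    · rw [Set.indicator_of_notMem, Set.indicator_of_notMem]
      · exact hM
      · intro h
        exact hM ((hcard M).1 h.1.2)
  · rw [if_neg hH]
    rw [ENNReal.tsum_eq_zero]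
    intro M
    apply Set.indicator_of_notMem
    intro h
    exact hH ⟨h.1.1, h.2⟩

end SK5Aux

open SK5Aux

theorem sum_one {L : Finset ℕ} (hL : Disjoint L {0, 1, 2, 3}) (x z w T : ℝ≥0∞) :
    ∑' p : {p : Finset Quad × Finset ℕ // CM qs L p.1 p.2},
      cw x z w T p.1.2.card L p.1.1 p.1.2 =
    ∑ W ∈ L.powerset, x ^ W.card * ((2 * (L \ W).card.factorial : ℕ) : ℝ≥0∞) *
      sS z w T {0, 1} W ((L \ W).card + 2) := by
  classical
  have h1 : ∑' p : {p : Finset Quad × Finset ℕ // CM qs L p.1 p.2},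
      cw x z w T p.1.2.card L p.1.1 p.1.2 =
      ∑' p : {p : Finset Quad × Finset ℕ // CM qs L p.1 p.2},
        (fun (Q : Finset Quad) (M' : Finset ℕ) => cw x z w T M'.card L (Q.erase qs) M') (insert qs p.1.1) p.1.2 := by
    refine tsum_congr fun p => ?_
    show _ = cw x z w T p.1.2.card L ((insert qs p.1.1).erase qs) p.1.2
    rw [Finset.erase_insert p.2.core.not_mem]
  rw [h1, tsum_cm hL (fun (Q : Finset Quad) (M' : Finset ℕ) => cw x z w T M'.card L (Q.erase qs) M')]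
  refine Finset.sum_congr rfl fun W hW => ?_
  rw [Finset.mem_powerset] at hW
  have hd1 : Disjoint ({0, 1} : Finset ℕ) W := by
    rw [Finset.disjoint_left]
    intro v hv hvW
    refine Finset.disjoint_left.1 hL (hW hvW) ?_
    simp only [Finset.mem_insert, Finset.mem_singleton] at hv ⊢
    tauto
  have hd2 : Disjoint ({2, 3} : Finset ℕ) (L \ W) := by
    rw [Finset.disjoint_left]
    intro v hv hvW
    refine Finset.disjoint_left.1 hL (Finset.mem_sdiff.1 hvW).1 ?_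
    simp only [Finset.mem_insert, Finset.mem_singleton] at hv ⊢
    tauto
  have hd3 : Disjoint (({0, 1} : Finset ℕ) ∪ W) ({2, 3} ∪ (L \ W)) := by
    rw [Finset.disjoint_left]
    intro v hv hv'
    rw [Finset.mem_union] at hv hv'
    rcases hv with hv | hv
    · rcases hv' with hv' | hv'
      · simp only [Finset.mem_insert, Finset.mem_singleton] at hv hv'
        omega
      · refine Finset.disjoint_left.1 hL (Finset.mem_sdiff.1 hv').1 ?_
        simp only [Finset.mem_insert, Finset.mem_singleton] at hv ⊢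
        tauto
    · rcases hv' with hv' | hv'
      · refine Finset.disjoint_left.1 hL (hW hv) ?_
        simp only [Finset.mem_insert, Finset.mem_singleton] at hv' ⊢
        tauto
      · exact (Finset.mem_sdiff.1 hv').2 hv
  rw [sS_eq, ← ENNReal.tsum_mul_left]
  refine tsum_congr fun H => ?_
  have h2 : ∀ Q : {Q : Finset Quad // SP W (L \ W) H Q},
      ∑' M' : {M' : Finset ℕ // M' ⊆ bl Q.1 ∧ ∀ b ∈ M', (atb Q.1 b).card = 3},
        (fun (Q : Finset Quad) (M' : Finset ℕ) => cw x z w T M'.card L (Q.erase qs) M') Q.1 M'.1 =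
      1 * (x ^ W.card * mc z w T W H) := by
    intro Q
    rw [one_mul]
    exact sum_marks hL hW Q.2 x z w T
  rw [tsum_congr h2, ENNReal.tsum_mul_right]
  by_cases hP : K5.PCore {0, 1} W H
  · rw [tsum_SP hd2 hd3 hP]
    by_cases hn : nbl H = (L \ W).card + 2
    · rw [if_pos hn, if_pos ⟨hP, hn⟩]
      ring
    · rw [if_neg hn, if_neg (fun h => hn h.2), zero_mul, mul_zero]
  · rw [if_neg (fun h => hP h.1), mul_zero]
    have : IsEmpty {Q : Finset Quad // SP W (L \ W) H Q} := ⟨fun Q => hP (Q.2.pcore hd1)⟩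
    rw [tsum_empty, zero_mul]

end K5M
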