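import Pool.Agent.Lib.K5M.SFace
import Pool.Agent.Lib.K5M.SNs

/-!
# K5M.SUniq: an irreducible sphere is determined by its graph up to the names of the blacks

`Q`, `Q'` irreducible spheres with `gr Q = gr Q'`.

PROOFS. `wh_eq_of_gr`: `w ∈ wh Q` iff `w` has a neighbour in `gr Q` (a quad has two whites).
`φ : Q → Q'`: the quad with the same `.1` (exists since the edge exists; unique by `fst_inj`).
`Irr.face_eq`: let `b ∈ bl Q`; put `C = {q' ∈ Q' : q'.1 = q.1 for some q ∈ atb Q b}`. `C` satisfies the hypotheses of `Sph.face_of` for `Q'`: nonempty; even and minimal by `Sph.atb_min` for `Q` (transport by `φ`: the quads of `C` at `w` correspond to those of `atb Q b` at `w`); `wh C = fv Q b`; induced: if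
`q' ∈ Q'`, `q'.1 = {a, c} ⊆ fv Q b`, the quad `q ∈ Q` with `q.1 = q'.1` has `b ∈ q.2` by `Irr.ind`; `hcon` is `Irr.nonsep` (`wh Q = wh Q'`, `gr Q = gr Q'`). So `C = atb Q' b'`.
`Irr.black_inj`: let `b ≠ b'` be blacks of `Q` with `atb Q b = atb Q b'`. `X = atb Q b`: all its quads have `.2 = {b, b'}`; two different quads at an edge `(w, b)` (`pair_at`) have the same `.2`: contradiction to `snd_inj`.
`Irr.exists_relabel`: by `face_eq` for every `b ∈ bl Q` there is `σ b ∈ bl Q'` with the same set of edges, unique by `black_inj` for `Q'`; the same construction from `Q'` to `Q` shows that `σ` is a bijection `bl Q → bl Q'`. For `q ∈ Q`, `q' = φ q`: `b ∈ q.2 ↔ q ∈ atb Q b ↔ q' ∈ atb Q' (σ b) ↔ σ b ∈ q'.2`, so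
`q'.2 = q.2.image σ`.
`Irr.relabel_inj`: let `b ∈ bl Q`. For `q ∈ atb Q b` the element `(q.1, q.2.image σ)` of `rlb τ Q` is `(r.1, r.2.image τ)` with `r ∈ Q`, `r.1 = q.1`, so `r = q` (`fst_inj`), `q.2.image σ = q.2.image τ`, and `σ b = τ c` with `c ∈ q.2`. `c` does not depend on `q` (`τ` is injective on `bl Q`), so
`atb Q b ⊆ atb Q c`; by symmetry (or by `Sph.atb_min` for `c`: `atb Q b` is nonempty and even) they are equal and `c = b` (`black_inj`).
-/

set_option autoImplicit false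

namespace K5M

open Finset

/-- New names for the blacks. -/
def rlb (σ : ℕ → ℕ) (Q : Finset Quad) : Finset Quad := Q.image (fun q => (q.1, q.2.image σ))

namespace SUniqAux

theorem mem_wh {N : Finset Quad} {w : ℕ} : w ∈ wh N ↔ ∃ q ∈ N, w ∈ q.1 := by
  unfold wh
  rw [Finset.mem_biUnion]

theorem mem_bl {N : Finset Quad} {b : ℕ} : b ∈ bl N ↔ ∃ q ∈ N, b ∈ q.2 := by
  unfold bl
  rw [Finset.mem_biUnion]

theorem mem_atb {N : Finset Quad} {b : ℕ} {q : Quad} : q ∈ atb N b ↔ q ∈ N ∧ b ∈ q.2 := by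
  unfold atb
  rw [Finset.mem_filter]

theorem mem_EdS {N : Finset Quad} {w b : ℕ} : (w, b) ∈ EdS N ↔ ∃ q ∈ N, w ∈ q.1 ∧ b ∈ q.2 := by
  unfold EdS ed
  simp only [Finset.mem_biUnion, Finset.mem_product]

theorem mem_fv {N : Finset Quad} {w b : ℕ} : w ∈ fv N b ↔ ∃ q ∈ N, w ∈ q.1 ∧ b ∈ q.2 := by
  unfold fv
  rw [Finset.mem_filter, mem_EdS, mem_wh]
  constructor
  · exact fun h => h.2
  · exact fun h => ⟨h.imp fun q hq => ⟨hq.1, hq.2.1⟩, h⟩

theorem ex_quad {Q Q' : Finset Quad} (h : Irr Q) (hg : gr Q = gr Q') {q : Quad} (hq : q ∈ Q) :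
    ∃ q' ∈ Q', q'.1 = q.1 := by
  obtain ⟨a, b, hab, e⟩ := Finset.card_eq_two.mp (h.isq q hq).1
  have h1 : (gr Q).Adj a b := ⟨hab, q, hq, e⟩
  rw [hg] at h1
  obtain ⟨-, q', hq', e'⟩ := h1
  exact ⟨q', hq', e'.trans e.symm⟩

theorem wh_sub {Q Q' : Finset Quad} (h : Irr Q) (hg : gr Q = gr Q') : wh Q ⊆ wh Q' := by
  intro w hw
  obtain ⟨q, hq, hwq⟩ := mem_wh.mp hw
  obtain ⟨q', hq', e⟩ := ex_quad h hg hq
  exact mem_wh.mpr ⟨q', hq', by rw [e]; exact hwq⟩

theorem injOn {Q X : Finset Quad} (h : Irr Q) (hX : X ⊆ Q) :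
    Set.InjOn (Prod.fst : Quad → Finset ℕ) X := fun _ ha _ hb e => h.fst_inj (hX ha) (hX hb) e

theorem atw_card {Q Q' X Y : Finset Quad} (h : Irr Q) (h' : Irr Q') (hX : X ⊆ Q) (hY : Y ⊆ Q')
    (he : X.image Prod.fst = Y.image Prod.fst) (w : ℕ) : (atw X w).card = (atw Y w).card := by
  have h1 : (atw X w).image Prod.fst = (atw Y w).image Prod.fst := by
    have key : ∀ N : Finset Quad,
        (atw N w).image Prod.fst = (N.image Prod.fst).filter (fun s => w ∈ s) := by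
      intro N
      unfold atw
      rw [Finset.filter_image]
    rw [key, key, he]
  have h2 : atw X w ⊆ Q := (Finset.filter_subset _ _).trans hX
  have h3 : atw Y w ⊆ Q' := (Finset.filter_subset _ _).trans hY
  rw [← Finset.card_image_of_injOn (injOn h h2), h1, Finset.card_image_of_injOn (injOn h' h3)]

theorem eq_of_image {Q X Y : Finset Quad} (h : Irr Q) (hX : X ⊆ Q) (hY : Y ⊆ Q)
    (he : X.image Prod.fst = Y.image Prod.fst) : X = Y := by
  have key : ∀ {X Y : Finset Quad}, X ⊆ Q → Y ⊆ Q → X.image Prod.fst = Y.image Prod.fst →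
      X ⊆ Y := by
    intro X Y hX hY he q hq
    have h1 : q.1 ∈ X.image Prod.fst := Finset.mem_image_of_mem _ hq
    rw [he, Finset.mem_image] at h1
    obtain ⟨r, hr, e⟩ := h1
    have := h.fst_inj (hY hr) (hX hq) e
    rwa [this] at hr
  exact Finset.Subset.antisymm (key hX hY he) (key hY hX he.symm)

theorem atb_sub (Q : Finset Quad) (b : ℕ) : atb Q b ⊆ Q := Finset.filter_subset _ _

end SUniqAux

open SUniqAux

theorem wh_eq_of_gr {Q Q' : Finset Quad} (h : Irr Q) (h' : Irr Q') (hg : gr Q = gr Q') :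
    wh Q = wh Q' :=
  Finset.Subset.antisymm (wh_sub h hg) (wh_sub h' hg.symm)

theorem Irr.face_eq {Q Q' : Finset Quad} (h : Irr Q) (h' : Irr Q') (hg : gr Q = gr Q') {b : ℕ}
    (hb : b ∈ bl Q) : ∃ b' ∈ bl Q', (atb Q b).image Prod.fst = (atb Q' b').image Prod.fst := by
  classical
  obtain ⟨C, hC⟩ : ∃ C : Finset Quad, ∀ q', q' ∈ C ↔ q' ∈ Q' ∧ ∃ q ∈ atb Q b, q.1 = q'.1 :=
    ⟨Q'.filter (fun q' => ∃ q ∈ atb Q b, q.1 = q'.1), fun q' => Finset.mem_filter⟩
  have hCQ : C ⊆ Q' := fun q' hq' => ((hC q').mp hq').1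
  have him : (atb Q b).image Prod.fst = C.image Prod.fst := by
    ext s
    rw [Finset.mem_image, Finset.mem_image]
    constructor
    · rintro ⟨q, hq, rfl⟩
      obtain ⟨q', hq', e⟩ := ex_quad h hg (mem_atb.mp hq).1
      exact ⟨q', (hC q').mpr ⟨hq', q, hq, e.symm⟩, e⟩
    · rintro ⟨q', hq', rfl⟩
      obtain ⟨-, q, hq, e⟩ := (hC q').mp hq'
      exact ⟨q, hq, e⟩
  have hwh : wh C = fv Q b := by
    ext w
    rw [mem_wh, mem_fv]
    constructor
    · rintro ⟨q', hq', hw⟩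
      obtain ⟨-, q, hq, e⟩ := (hC q').mp hq'
      obtain ⟨h1, h2⟩ := mem_atb.mp hq
      exact ⟨q, h1, by rw [e]; exact hw, h2⟩
    · rintro ⟨q, hq, hw, hbq⟩
      obtain ⟨q', hq', e⟩ := ex_quad h hg hq
      exact ⟨q', (hC q').mpr ⟨hq', q, mem_atb.mpr ⟨hq, hbq⟩, e.symm⟩, by rw [e]; exact hw⟩
  obtain ⟨m1, m2⟩ := h.toSph.atb_min hb
  have hface := h'.toSph.face_of C hCQ ?_ ?_ ?_ ?_ ?_
  · obtain ⟨b', hb', e⟩ := hface
    exact ⟨b', hb', by rw [him, e]⟩
  · obtain ⟨q, hq, hbq⟩ := mem_bl.mp hb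
    have h1 : q.1 ∈ (atb Q b).image Prod.fst :=
      Finset.mem_image_of_mem _ (mem_atb.mpr ⟨hq, hbq⟩)
    rw [him, Finset.mem_image] at h1
    obtain ⟨q', hq', -⟩ := h1
    exact ⟨q', hq'⟩
  · intro w
    rw [← atw_card h h' (atb_sub Q b) hCQ him w]
    exact m1 w
  · intro C' hC' hne hev
    obtain ⟨X, hX⟩ : ∃ X : Finset Quad, ∀ q, q ∈ X ↔ q ∈ atb Q b ∧ q.1 ∈ C'.image Prod.fst :=
      ⟨(atb Q b).filter (fun q => q.1 ∈ C'.image Prod.fst), fun q => Finset.mem_filter⟩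
    have hXs : X ⊆ atb Q b := fun q hq => ((hX q).mp hq).1
    have hXim : X.image Prod.fst = C'.image Prod.fst := by
      ext s
      rw [Finset.mem_image]
      constructor
      · rintro ⟨q, hq, rfl⟩
        exact ((hX q).mp hq).2
      · intro hs
        have h1 : s ∈ (atb Q b).image Prod.fst := by
          rw [him]
          exact Finset.image_subset_image hC' hs
        obtain ⟨q, hq, rfl⟩ := Finset.mem_image.mp h1
        exact ⟨q, (hX q).mpr ⟨hq, hs⟩, rfl⟩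
    have hXe : X = atb Q b := by
      refine m2 X hXs ?_ ?_
      · obtain ⟨q', hq'⟩ := hne
        have h1 : q'.1 ∈ X.image Prod.fst := by
          rw [hXim]
          exact Finset.mem_image_of_mem _ hq'
        obtain ⟨q, hq, -⟩ := Finset.mem_image.mp h1
        exact ⟨q, hq⟩
      · intro w
        rw [atw_card h h' (hXs.trans (atb_sub Q b)) (hC'.trans hCQ) hXim w]
        exact hev w
    refine eq_of_image h' (hC'.trans hCQ) hCQ ?_
    rw [← hXim, hXe, him]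
  · intro q' hq' hsub
    obtain ⟨q, hq, e⟩ := ex_quad h' hg.symm hq'
    rw [hwh, ← e] at hsub
    exact (hC q').mpr ⟨hq', q, mem_atb.mpr ⟨hq, (h.mem_snd hq).mpr hsub⟩, e⟩
  · rw [hwh, ← wh_eq_of_gr h h' hg, ← hg]
    intro P hP hne hne'
    exact h.nonsep hb hP hne hne'

theorem Irr.black_inj {Q : Finset Quad} (h : Irr Q) {b b' : ℕ} (hb : b ∈ bl Q) (hb' : b' ∈ bl Q)
    (he : atb Q b = atb Q b') : b = b' := by
  by_contra hbb
  have key : ∀ q ∈ Q, b ∈ q.2 → q.2 = {b, b'} := by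
    intro q hq hbq
    have h1 : q ∈ atb Q b := mem_atb.mpr ⟨hq, hbq⟩
    rw [he] at h1
    have h2 := (mem_atb.mp h1).2
    symm
    refine Finset.eq_of_subset_of_card_le ?_ ?_
    · intro x hx
      rw [Finset.mem_insert, Finset.mem_singleton] at hx
      rcases hx with rfl | rfl
      · exact hbq
      · exact h2
    · rw [(h.isq q hq).2, Finset.card_pair hbb]
  obtain ⟨q, hq, hbq⟩ := mem_bl.mp hb
  obtain ⟨w, hw⟩ : q.1.Nonempty := by
    rw [← Finset.card_pos, (h.isq q hq).1]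
    norm_num
  obtain ⟨q', hq', hne, hw', hb1, -⟩ := h.toSph.pair_at hq hw hbq
  exact hne (h.snd_inj hq' hq (by rw [key q' hq' hb1, key q hq hbq]))

theorem Irr.exists_relabel {Q Q' : Finset Quad} (h : Irr Q) (h' : Irr Q') (hg : gr Q = gr Q') :
    ∃ σ : ℕ → ℕ, Set.BijOn σ (bl Q) (bl Q') ∧ Q' = rlb σ Q := by
  classical
  have hex : ∀ b, ∃ b', b ∈ bl Q →
      b' ∈ bl Q' ∧ (atb Q b).image Prod.fst = (atb Q' b').image Prod.fst := by
    intro b
    by_cases hb : b ∈ bl Q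
    · obtain ⟨b', h1, h2⟩ := h.face_eq h' hg hb
      exact ⟨b', fun _ => ⟨h1, h2⟩⟩
    · exact ⟨0, fun hb' => absurd hb' hb⟩
  choose σ hσ using hex
  have hinj : Set.InjOn σ (bl Q) := by
    intro b hb c hc hbc
    refine h.black_inj hb hc (eq_of_image h (atb_sub Q b) (atb_sub Q c) ?_)
    rw [(hσ b hb).2, (hσ c hc).2, hbc]
  have hsnd : ∀ q ∈ Q, ∀ q' ∈ Q', q'.1 = q.1 → q'.2 = q.2.image σ := by
    intro q hq q' hq' e
    symm
    refine Finset.eq_of_subset_of_card_le ?_ ?_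
    · intro x hx
      obtain ⟨b, hb, rfl⟩ := Finset.mem_image.mp hx
      have hbl : b ∈ bl Q := mem_bl.mpr ⟨q, hq, hb⟩
      have h1 : q.1 ∈ (atb Q b).image Prod.fst :=
        Finset.mem_image_of_mem _ (mem_atb.mpr ⟨hq, hb⟩)
      rw [(hσ b hbl).2, Finset.mem_image] at h1
      obtain ⟨r, hr, er⟩ := h1
      obtain ⟨hr1, hr2⟩ := mem_atb.mp hr
      have : r = q' := h'.fst_inj hr1 hq' (er.trans e.symm)
      rwa [this] at hr2
    · have hsub : Set.InjOn σ q.2 := hinj.mono (fun b hb => mem_bl.mpr ⟨q, hq, hb⟩)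
      rw [Finset.card_image_of_injOn hsub, (h.isq q hq).2, (h'.isq q' hq').2]
  refine ⟨σ, ⟨fun b hb => (hσ b hb).1, hinj, ?_⟩, ?_⟩
  · intro c hc
    obtain ⟨b, hb, e⟩ := h'.face_eq h hg.symm hc
    refine ⟨b, hb, ?_⟩
    refine h'.black_inj (hσ b hb).1 hc (eq_of_image h' (atb_sub Q' _) (atb_sub Q' c) ?_)
    rw [← (hσ b hb).2, e]
  · unfold rlb
    ext1 q'
    rw [Finset.mem_image]
    constructor
    · intro hq'
      obtain ⟨q, hq, e⟩ := ex_quad h' hg.symm hq'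
      exact ⟨q, hq, Prod.ext e (hsnd q hq q' hq' e.symm).symm⟩
    · rintro ⟨q, hq, rfl⟩
      obtain ⟨r, hr, e⟩ := ex_quad h hg hq
      have h1 := hsnd q hq r hr e
      have h2 : (q.1, q.2.image σ) = r := Prod.ext e.symm h1.symm
      rw [h2]
      exact hr

/-- The names of the blacks are determined. -/
theorem Irr.relabel_inj {Q : Finset Quad} (h : Irr Q) {σ τ : ℕ → ℕ} (hσ : Set.InjOn σ (bl Q))
    (hτ : Set.InjOn τ (bl Q)) (he : rlb σ Q = rlb τ Q) : ∀ b ∈ bl Q, σ b = τ b := by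
  have hq2 : ∀ q ∈ Q, q.2.image σ = q.2.image τ := by
    intro q hq
    have h1 : ((q.1, q.2.image σ) : Quad) ∈ rlb σ Q :=
      Finset.mem_image_of_mem (fun q : Quad => ((q.1, q.2.image σ) : Quad)) hq
    rw [he] at h1
    unfold rlb at h1
    obtain ⟨r, hr, e⟩ := Finset.mem_image.mp h1
    rw [Prod.mk.injEq] at e
    have e1 : r.1 = q.1 := e.1
    have e2 : r.2.image τ = q.2.image σ := e.2
    have : r = q := h.fst_inj hr hq e1
    rw [this] at e2
    exact e2.symm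
  intro b hb
  obtain ⟨q0, hq0, hbq0⟩ := mem_bl.mp hb
  have hc : ∀ q ∈ Q, b ∈ q.2 → ∃ c ∈ q.2, τ c = σ b := by
    intro q hq hbq
    have h1 : σ b ∈ q.2.image σ := Finset.mem_image_of_mem _ hbq
    rw [hq2 q hq] at h1
    exact Finset.mem_image.mp h1
  obtain ⟨c, hcq, ec⟩ := hc q0 hq0 hbq0
  have hcb : c ∈ bl Q := mem_bl.mpr ⟨q0, hq0, hcq⟩
  have hsub : atb Q b ⊆ atb Q c := by
    intro q hq
    obtain ⟨h1, h2⟩ := mem_atb.mp hq
    obtain ⟨c', hc', ec'⟩ := hc q h1 h2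
    have : c' = c := hτ (mem_bl.mpr ⟨q, h1, hc'⟩) hcb (ec'.trans ec.symm)
    rw [this] at hc'
    exact mem_atb.mpr ⟨h1, hc'⟩
  have heq : atb Q b = atb Q c := by
    refine (h.toSph.atb_min hcb).2 (atb Q b) hsub ?_ (h.toSph.atb_min hb).1
    exact ⟨q0, mem_atb.mpr ⟨hq0, hbq0⟩⟩
  have : b = c := h.black_inj hb hcb heq
  rw [this]
  rw [this] at ec
  exact ec.symm

end K5M
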