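import Pool.Agent.Lib.K5M.ND
import Pool.Agent.Lib.K5M.SUniq
import Pool.Agent.Lib.K5.Defs3

/-!
# K5M.SKDefs: spheres through the standard quad, number of faces of a planar graph, weights
-/

set_option autoImplicit false

namespace K5M

open Finset
open scoped ENNReal

/-- `Q` is an irreducible sphere that contains the standard quad, with the inner whites `W`, the
inner blacks `B` and the graph `H`. -/
structure SP (W B : Finset ℕ) (H : K5.Gr) (Q : Finset Quad) : Prop where
  irr : Irr Q
  mem : qs ∈ Q
  ewh : wh Q = {0, 1} ∪ W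
  ebl : bl Q = {2, 3} ∪ B
  egr : gr Q = H

open Classical in
/-- The number of faces of a 3-connected planar graph. -/
noncomputable def nbl (H : K5.Gr) : ℕ :=
  if h : ∃ Q : Finset Quad, Irr Q ∧ gr Q = H then (bl h.choose).card else 0

/-- The total weight of the planar cores with root `R`, marked triangles and `j` faces. -/
noncomputable def sS (z w t : ℝ≥0∞) (R U : Finset ℕ) (j : ℕ) : ℝ≥0∞ :=
  ∑' p : {p : K5.Gr × Finset (Finset ℕ) // (K5.PCore R U p.1 ∧
    ∀ X ∈ p.2, K5.NT p.1 (R ∪ U) X ∧ X ≠ R) ∧ nbl p.1 = j}, K5.mwt z w t R p.1.1 p.1.2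

end K5M
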