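import Pool.Agent.Lib.K5M.SDefs
import Pool.Agent.Lib.K5.KuLink

/-!
# K5M.SMk: the quads of a planar graph given by its faces

`H` 3-connected on `U`, `F` its faces (`K5.Faces`: every edge in exactly two), `β` injective names of the faces outside `U`.

PROOFS. `mem_mkS` by definition. All `a, b` with `H.Adj a b` are in `U` (`On`, symmetry). `mkS_isq`: `a ≠ b`; the faces at the edge `ab` are two (`Faces.two`), `β` is injective.
`mkS_fst`: the second component is determined by the edge: `{a, b} = {a', b'}` gives the same set of faces by the symmetry of `F i`.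
`mem_EdS_mkS`: `(w, c)` is in a quad iff `w` is an end of an edge `wu` and `c = β i` with `F i w u ≠ 0` (`supp` gives the adjacency).
`mkS_link`: `K5.link_exists` at `w` (with `y0` a neighbour of `w`, here `u`): `F i w u ≠ 0` gives `i = φ j` (`Link.all`), and `F (φ j) w (u k) ≠ 0` iff `j = k ∨ j + 1 = k ∨ (j = m ∧ k = 0)`: exactly two `k ≤ m` (as `2 ≤ m`); `u` is injective and reaches all neighbours (`F i w v ≠ 0` implies that `v` is a neighbour).
`mkS_dg`: by `mkS_fst` the quads at `(w, β i)` correspond to the `v` with `F i w v ≠ 0` (the quad of the edge `wv`).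
`gr_mkS`, `wh_mkS` (every vertex of `U` has a neighbour: `K5.deg3`), `bl_mkS`.
-/

set_option autoImplicit false

namespace K5M

open Finset

open Classical in
/-- The quads of the graph `H` with the faces `F`, the names of the faces are `β i`. -/
noncomputable def mkS (H : K5.Gr) (U : Finset ℕ) {n : ℕ} (F : Fin n → ℕ → ℕ → ZMod 2)
    (β : Fin n → ℕ) : Finset Quad :=
  ((U ×ˢ U).filter (fun p => H.Adj p.1 p.2)).image
    (fun p => ({p.1, p.2}, (univ.filter (fun i => F i p.1 p.2 ≠ 0)).image β))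

variable {H : K5.Gr} {U : Finset ℕ} {n : ℕ} {F : Fin n → ℕ → ℕ → ZMod 2} {β : Fin n → ℕ}

theorem mem_mkS (hon : K5.On H U) {q : Quad} : q ∈ mkS H U F β ↔
    ∃ a b, H.Adj a b ∧ q = ({a, b}, (univ.filter (fun i => F i a b ≠ 0)).image β) := by
  classical
  unfold mkS
  rw [Finset.mem_image]
  constructor
  · rintro ⟨⟨a, b⟩, hp, rfl⟩
    refine ⟨a, b, (Finset.mem_filter.1 hp).2, ?_⟩
    rfl
  · rintro ⟨a, b, hab, rfl⟩
    refine ⟨(a, b), Finset.mem_filter.2
      ⟨Finset.mem_product.2 ⟨hon a b hab, hon b a hab.symm⟩, hab⟩, ?_⟩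
    rfl

theorem SMkAux.pair_eq {a b c d : ℕ} (h : ({a, b} : Finset ℕ) = {c, d}) :
    (a = c ∧ b = d) ∨ (a = d ∧ b = c) := by
  have h1 := Finset.ext_iff.1 h
  have ha := (h1 a).1 (by simp)
  have hb := (h1 b).1 (by simp)
  have hc := (h1 c).2 (by simp)
  have hd := (h1 d).2 (by simp)
  simp only [Finset.mem_insert, Finset.mem_singleton] at ha hb hc hd
  omega

theorem SMkAux.filt_symm (hF : K5.Faces H U n F) (a b : ℕ) :
    (univ.filter (fun i => F i a b ≠ 0)) = (univ.filter (fun i => F i b a ≠ 0)) := by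
  refine Finset.filter_congr (fun i _ => ?_)
  rw [(hF.cyc i).symm a b]

theorem mkS_isq (hon : K5.On H U) (hF : K5.Faces H U n F) (hβ : Function.Injective β) :
    ∀ q ∈ mkS H U F β, IsQ q := by
  intro q hq
  obtain ⟨a, b, hab, rfl⟩ := (mem_mkS hon).1 hq
  refine ⟨Finset.card_pair hab.ne, ?_⟩
  rw [Finset.card_image_of_injective _ hβ]
  exact hF.two a b hab

theorem mkS_fst (hon : K5.On H U) (hF : K5.Faces H U n F) {q q' : Quad} (hq : q ∈ mkS H U F β)
    (hq' : q' ∈ mkS H U F β) (he : q.1 = q'.1) : q = q' := by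
  obtain ⟨a, b, hab, rfl⟩ := (mem_mkS hon).1 hq
  obtain ⟨c, d, hcd, rfl⟩ := (mem_mkS hon).1 hq'
  rcases SMkAux.pair_eq he with ⟨rfl, rfl⟩ | ⟨rfl, rfl⟩
  · rfl
  · rw [Finset.pair_comm, SMkAux.filt_symm hF]

theorem mem_EdS_mkS (hon : K5.On H U) (hF : K5.Faces H U n F) {w c : ℕ} :
    (w, c) ∈ EdS (mkS H U F β) ↔ ∃ i u, c = β i ∧ F i w u ≠ 0 := by
  unfold EdS
  rw [Finset.mem_biUnion]
  constructor
  · rintro ⟨q, hq, hwc⟩
    obtain ⟨a, b, hab, rfl⟩ := (mem_mkS hon).1 hq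
    obtain ⟨h1, h2⟩ := Finset.mem_product.1 hwc
    obtain ⟨i, hi, hic⟩ := Finset.mem_image.1 h2
    have hi' := (Finset.mem_filter.1 hi).2
    rcases Finset.mem_insert.1 h1 with h | h
    · exact ⟨i, b, hic.symm, by rw [show w = a from h]; exact hi'⟩
    · refine ⟨i, a, hic.symm, ?_⟩
      rw [show w = b from Finset.mem_singleton.1 h, (hF.cyc i).symm b a]
      exact hi'
  · rintro ⟨i, u, rfl, hi⟩
    have hadj := (hF.cyc i).supp w u hi
    refine ⟨_, (mem_mkS hon).2 ⟨w, u, hadj, rfl⟩, Finset.mem_product.2 ⟨by simp, ?_⟩⟩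
    exact Finset.mem_image.2 ⟨i, Finset.mem_filter.2 ⟨Finset.mem_univ _, hi⟩, rfl⟩

theorem mkS_link (hon : K5.On H U) (h3 : K5.Three H U) (hF : K5.Faces H U n F) {w u : ℕ}
    {i : Fin n} (h : F i w u ≠ 0) : (U.filter (fun v => F i w v ≠ 0)).card = 2 := by
  classical
  have hadj := (hF.cyc i).supp w u h
  have hw : w ∈ U := hon w u hadj
  obtain ⟨m, v, φ, hL, hm, h2⟩ := K5.link_exists hon h3 hF hw hadj
  obtain ⟨j, hj, hij⟩ := hL.all i m le_rfl (by rw [hm]; exact h)
  obtain ⟨j', hj', hjj', hiff⟩ : ∃ j', j' ≤ m ∧ j ≠ j' ∧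
      ∀ k, k ≤ m → ((j = k ∨ j + 1 = k ∨ (j = m ∧ k = 0)) ↔ (k = j ∨ k = j')) := by
    by_cases hjm : j = m
    · exact ⟨0, Nat.zero_le _, by omega, fun k hk => by omega⟩
    · exact ⟨j + 1, by omega, by omega, fun k hk => by omega⟩
  have hset : U.filter (fun x => F i w x ≠ 0) = {v j, v j'} := by
    ext x
    rw [Finset.mem_filter, Finset.mem_insert, Finset.mem_singleton]
    constructor
    · rintro ⟨hxU, hx⟩
      have hxadj := (hF.cyc i).supp w x hx
      obtain ⟨k, hk, rfl⟩ := hL.surj x (by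
        unfold K5.nb
        exact Finset.mem_filter.2 ⟨hxU, hxadj⟩)
      have h4 := (hL.inc j k hj hk).1 (by rw [← hij]; exact hx)
      rcases (hiff k hk).1 h4 with rfl | rfl
      · exact Or.inl rfl
      · exact Or.inr rfl
    · have key : ∀ k, k ≤ m → (k = j ∨ k = j') → v k ∈ U ∧ F i w (v k) ≠ 0 := by
        intro k hk hkj
        have h5 := (hL.inc j k hj hk).2 ((hiff k hk).2 hkj)
        have h6 : F i w (v k) ≠ 0 := by rw [hij]; exact h5
        exact ⟨hon _ _ ((hF.cyc i).supp w (v k) h6).symm, h6⟩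
      rintro (rfl | rfl)
      · exact key j hj (Or.inl rfl)
      · exact key j' hj' (Or.inr rfl)
  rw [hset]
  exact Finset.card_pair (fun he => hjj' (hL.inj j j' hj hj' he))

theorem mkS_dg (hon : K5.On H U) (h3 : K5.Three H U) (hF : K5.Faces H U n F)
    (hβ : Function.Injective β) : ∀ e ∈ EdS (mkS H U F β), dg (mkS H U F β) e = 2 := by
  rintro ⟨w, c⟩ he
  obtain ⟨i, u, rfl, hi⟩ := (mem_EdS_mkS hon hF).1 he
  unfold dg
  have hset : (mkS H U F β).filter (fun q => (w, β i) ∈ ed q) =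
      (U.filter (fun v => F i w v ≠ 0)).image
        (fun v => (({w, v}, (univ.filter (fun i => F i w v ≠ 0)).image β) : Quad)) := by
    ext q
    rw [Finset.mem_filter, Finset.mem_image, mem_mkS hon]
    constructor
    · rintro ⟨⟨a, b, hab, rfl⟩, hq⟩
      obtain ⟨h1, h2⟩ := Finset.mem_product.1 hq
      obtain ⟨i', hi', hic⟩ := Finset.mem_image.1 h2
      have hii : i' = i := hβ hic
      have hne : F i a b ≠ 0 := hii ▸ (Finset.mem_filter.1 hi').2
      rcases Finset.mem_insert.1 h1 with h | h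
      · have hwa : w = a := h
        subst hwa
        exact ⟨b, Finset.mem_filter.2 ⟨hon b w hab.symm, hne⟩, rfl⟩
      · have hwb : w = b := Finset.mem_singleton.1 h
        subst hwb
        refine ⟨a, Finset.mem_filter.2 ⟨hon a w hab, ?_⟩, ?_⟩
        · rw [(hF.cyc i).symm w a]
          exact hne
        · change (({w, a}, _) : Quad) = ({a, w}, _)
          rw [Finset.pair_comm, SMkAux.filt_symm hF]
    · rintro ⟨v, hv, rfl⟩
      obtain ⟨hvU, hv⟩ := Finset.mem_filter.1 hv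
      refine ⟨⟨w, v, (hF.cyc i).supp w v hv, rfl⟩, Finset.mem_product.2 ⟨by simp, ?_⟩⟩
      exact Finset.mem_image.2 ⟨i, Finset.mem_filter.2 ⟨Finset.mem_univ _, hv⟩, rfl⟩
  rw [hset, Finset.card_image_of_injOn, mkS_link hon h3 hF hi]
  intro v _ v' _ hvv
  have h1 : ({w, v} : Finset ℕ) = {w, v'} := congrArg Prod.fst hvv
  rcases SMkAux.pair_eq h1 with h | h
  · exact h.2
  · exact h.2.trans h.1

theorem gr_mkS (hon : K5.On H U) : gr (mkS H U F β) = H := by
  ext a b
  constructor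
  · rintro ⟨_, q, hq, hab⟩
    obtain ⟨c, d, hcd, rfl⟩ := (mem_mkS hon).1 hq
    rcases SMkAux.pair_eq hab with ⟨rfl, rfl⟩ | ⟨rfl, rfl⟩
    · exact hcd
    · exact hcd.symm
  · intro hab
    exact ⟨hab.ne, _, (mem_mkS hon).2 ⟨a, b, hab, rfl⟩, rfl⟩

theorem wh_mkS (hon : K5.On H U) (h3 : K5.Three H U) : wh (mkS H U F β) = U := by
  ext w
  unfold wh
  rw [Finset.mem_biUnion]
  constructor
  · rintro ⟨q, hq, hw⟩
    obtain ⟨a, b, hab, rfl⟩ := (mem_mkS hon).1 hq
    rcases Finset.mem_insert.1 hw with rfl | h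
    · exact hon _ _ hab
    · rw [Finset.mem_singleton.1 h]
      exact hon _ _ hab.symm
  · intro hw
    obtain ⟨u, hu, _, _⟩ := K5.deg3 hon h3 hw w w
    exact ⟨_, (mem_mkS hon).2 ⟨w, u, hu, rfl⟩, by simp⟩

theorem bl_mkS (hon : K5.On H U) (hF : K5.Faces H U n F) (b : ℕ) :
    b ∈ bl (mkS H U F β) ↔ ∃ i a c, b = β i ∧ F i a c ≠ 0 := by
  unfold bl
  rw [Finset.mem_biUnion]
  constructor
  · rintro ⟨q, hq, hb⟩
    obtain ⟨a, c, hac, rfl⟩ := (mem_mkS hon).1 hq
    obtain ⟨i, hi, hib⟩ := Finset.mem_image.1 hb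
    exact ⟨i, a, c, hib.symm, (Finset.mem_filter.1 hi).2⟩
  · rintro ⟨i, a, c, rfl, hi⟩
    refine ⟨_, (mem_mkS hon).2 ⟨a, c, (hF.cyc i).supp a c hi, rfl⟩, ?_⟩
    exact Finset.mem_image.2 ⟨i, Finset.mem_filter.2 ⟨Finset.mem_univ _, hi⟩, rfl⟩

end K5M
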