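import Pool.Agent.Lib.K5M.SDeg

/-!
# K5M.SThree: the graph of an irreducible sphere is 3-connected

PROOF. `on`: an edge `ab` comes from a quad `q` with `q.1 = {a, b}`.
`4 ≤ |wh Q|`: `Q` is not empty (`four`), let `w` be one of its whites; the (at least 3) quads at `w` have different `q.1 = {w, w'}` (`fst_inj`), so `w` has at least three other whites.
Connectedness: let `U = wh Q`, `U' = (U.erase u).erase v`; it is nonempty as `|U| ≥ 4`. Let `P ⊆ U'` be nonempty, `P ≠ U'`, and suppose that no edge of `gr Q` joins `P` to `U' \ P`. `X = {q ∈ Q : q.1 meets P}`.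
(1) If `(w, b) ∈ bd X` then `w = u` or `w = v`: for `w ∈ P` all quads at `w` are in `X`, so `dg X (w, b) = dg Q (w, b) = 2` is even. For `w ∈ U' \ P` no quad at `w` is in `X` (its other white would be in `P`, an edge), so `dg X (w, b) = 0`.
(2) `bd X ≠ ∅`: otherwise `X = ∅` or `X = Q`; but a quad at a vertex of `P` is in `X`, a quad at a vertex of `U' \ P` is not.
(3) `bd X` is even (`Evn_bd`). If `(u, b) ∈ bd X` then there is another edge of `bd X` at `b`, it is `(v, b)`, `u ≠ v`; and vice versa. So `bd X = {u, v} ×ˢ B'` with `B' = {b : (u, b) ∈ bd X}` nonempty, `u ≠ v`, and `|B'|` is even (evenness at `u`).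
(4) `|B'| = 2`: `|bd X| = 4`, so `|X| = 1` or `|Q \ X| = 1`. But a vertex of `P` has at least 3 quads, all in `X`, a vertex of `U' \ P` has at least 3 quads, all in `Q \ X`. Contradiction.
(5) `|B'| ≥ 3`: let `b, c, d` be three elements. By `quad_of_cycle` `({u, v}, {b, c})` and `({u, v}, {b, d})` are in `Q`; they are different and have the same `.1`: contradiction to `fst_inj`.
-/

set_option autoImplicit false

namespace K5M

open Finset

namespace SThreeAux

theorem other {Q : Finset Quad} (h : ∀ q ∈ Q, IsQ q) {q : Quad} (hq : q ∈ Q) {w : ℕ}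
    (hw : w ∈ q.1) : ∃ w', w' ≠ w ∧ q.1 = {w, w'} := by
  obtain ⟨x, y, hxy, hxy'⟩ := Finset.card_eq_two.mp (h q hq).1
  rw [hxy', Finset.mem_insert, Finset.mem_singleton] at hw
  rcases hw with hw | hw
  · exact ⟨y, fun h1 => hxy (by rw [← hw, h1]), by rw [hxy', hw]⟩
  · exact ⟨x, fun h1 => hxy (by rw [← hw, h1]), by rw [hxy', hw, Finset.pair_comm]⟩

theorem mem_wh {Q : Finset Quad} {w : ℕ} : w ∈ wh Q ↔ ∃ q ∈ Q, w ∈ q.1 := by
  unfold wh
  rw [Finset.mem_biUnion]

theorem card_wh {Q : Finset Quad} (h : Irr Q) : 4 ≤ (wh Q).card := by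
  have hne : Q.Nonempty := Finset.card_pos.mp (by have := h.four; omega)
  obtain ⟨q0, hq0⟩ := hne
  have h1 : q0.1.Nonempty := Finset.card_pos.mp (by rw [(h.isq q0 hq0).1]; norm_num)
  obtain ⟨w, hw⟩ := h1
  have hwW : w ∈ wh Q := mem_wh.mpr ⟨q0, hq0, hw⟩
  have h3 := h.deg_white hwW
  have h4 : (atw Q w).card ≤ ((wh Q).erase w).card := by
    refine Finset.card_le_card_of_injOn (fun q => ∑ x ∈ q.1.erase w, x) ?_ ?_
    · intro q hq
      have hq' := Finset.mem_filter.mp (Finset.mem_coe.mp hq)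
      obtain ⟨w', hne, he⟩ := other h.isq hq'.1 hq'.2
      have h5 : q.1.erase w = {w'} := by
        rw [he, Finset.erase_insert (by
          rw [Finset.mem_singleton]
          exact fun h6 => hne h6.symm)]
      show (∑ x ∈ q.1.erase w, x) ∈ (wh Q).erase w
      rw [h5, Finset.sum_singleton, Finset.mem_erase]
      refine ⟨hne, mem_wh.mpr ⟨q, hq'.1, ?_⟩⟩
      rw [he]
      simp
    · intro q hq q' hq' hqq
      have hq1 := Finset.mem_filter.mp (Finset.mem_coe.mp hq)
      have hq1' := Finset.mem_filter.mp (Finset.mem_coe.mp hq')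
      obtain ⟨w1, hne, he⟩ := other h.isq hq1.1 hq1.2
      obtain ⟨w2, hne', he'⟩ := other h.isq hq1'.1 hq1'.2
      have h5 : q.1.erase w = {w1} := by
        rw [he, Finset.erase_insert (by
          rw [Finset.mem_singleton]
          exact fun h6 => hne h6.symm)]
      have h5' : q'.1.erase w = {w2} := by
        rw [he', Finset.erase_insert (by
          rw [Finset.mem_singleton]
          exact fun h6 => hne' h6.symm)]
      have hqq' : (∑ x ∈ q.1.erase w, x) = ∑ x ∈ q'.1.erase w, x := hqq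
      rw [h5, h5', Finset.sum_singleton, Finset.sum_singleton] at hqq'
      refine h.fst_inj hq1.1 hq1'.1 ?_
      rw [he, he', hqq']
  rw [Finset.card_erase_of_mem hwW] at h4
  omega

theorem even_two {S : Finset Ed} (h : Even S.card) {e : Ed} (he : e ∈ S) :
    ∃ e' ∈ S, e' ≠ e := by
  have h1 : 0 < S.card := Finset.card_pos.mpr ⟨e, he⟩
  have h2 : 1 < S.card := by
    obtain ⟨n, hn⟩ := h
    omega
  obtain ⟨e', he', hne⟩ := Finset.exists_mem_ne h2 e
  exact ⟨e', he', hne⟩

end SThreeAux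

theorem gr_on (Q : Finset Quad) : K5.On (gr Q) (wh Q) := by
  rintro a b ⟨_, q, hq, h1⟩
  refine Finset.mem_biUnion.mpr ⟨q, hq, ?_⟩
  rw [h1]
  exact Finset.mem_insert_self _ _

theorem Irr.three {Q : Finset Quad} (h : Irr Q) : K5.Three (gr Q) (wh Q) := by
  classical
  refine ⟨SThreeAux.card_wh h, fun u v => ?_⟩
  obtain ⟨U', hU'⟩ : ∃ U', U' = ((wh Q).erase u).erase v := ⟨_, rfl⟩
  rw [← hU']
  have hmem : ∀ x, x ∈ U' ↔ x ≠ v ∧ x ≠ u ∧ x ∈ wh Q := fun x => by
    rw [hU', Finset.mem_erase, Finset.mem_erase]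
  have hU'ne : U'.Nonempty := by
    have h1 := SThreeAux.card_wh h
    have h2 : (wh Q).card - 1 ≤ ((wh Q).erase u).card := Finset.pred_card_le_card_erase
    have h3 : ((wh Q).erase u).card - 1 ≤ U'.card := by
      rw [hU']
      exact Finset.pred_card_le_card_erase
    exact Finset.card_pos.mp (by omega)
  refine ⟨hU'ne, fun P hP hne hPU => ?_⟩
  by_contra hcon
  have hno : ∀ a ∈ P, ∀ b ∈ U', b ∉ P → ¬ (gr Q).Adj a b :=
    fun a ha b hb hbP hab => hcon ⟨a, ha, b, hb, hbP, hab⟩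
  obtain ⟨X, hX⟩ : ∃ X, X = Q.filter (fun q => ∃ w ∈ q.1, w ∈ P) := ⟨_, rfl⟩
  have hXQ : X ⊆ Q := by
    rw [hX]
    exact Finset.filter_subset _ _
  have fA : ∀ w ∈ P, ∀ q ∈ Q, w ∈ q.1 → q ∈ X := fun w hw q hq hwq => by
    rw [hX, Finset.mem_filter]
    exact ⟨hq, w, hwq, hw⟩
  have fB : ∀ w ∈ U', w ∉ P → ∀ q ∈ Q, w ∈ q.1 → q ∉ X := by
    intro w hw hwP q hq hwq hqX
    rw [hX, Finset.mem_filter] at hqX
    obtain ⟨_, w', hw'q, hw'P⟩ := hqX
    obtain ⟨w2, hne2, he2⟩ := SThreeAux.other h.isq hq hwq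
    have h1 : w' = w2 := by
      rw [he2, Finset.mem_insert, Finset.mem_singleton] at hw'q
      rcases hw'q with h2 | h2
      · exact absurd (h2 ▸ hw'P) hwP
      · exact h2
    refine hno w' hw'P w hw hwP ⟨?_, q, hq, ?_⟩
    · rw [h1]
      exact hne2
    · rw [he2, h1, Finset.pair_comm]
  obtain ⟨p, hp⟩ := hne
  have hpU := hP hp
  obtain ⟨r, hr, hrP⟩ : ∃ r ∈ U', r ∉ P := by
    by_contra hcon2
    push Not at hcon2
    exact hPU (Finset.Subset.antisymm hP hcon2)
  have hpW := ((hmem p).mp hpU).2.2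
  have hrW := ((hmem r).mp hr).2.2
  -- (1)
  have f1 : ∀ e ∈ bd X, e.1 = u ∨ e.1 = v := by
    intro e he
    by_contra hcon3
    push Not at hcon3
    have heX : e ∈ EdS X := bd_sub X he
    obtain ⟨q, hq, heq⟩ := mem_EdS.mp heX
    have heq' := mem_ed.mp heq
    have hW : e.1 ∈ U' :=
      (hmem _).mpr ⟨hcon3.2, hcon3.1, SThreeAux.mem_wh.mpr ⟨q, hXQ hq, heq'.1⟩⟩
    by_cases heP : e.1 ∈ P
    · have h1 : dg X e = dg Q e := by
        unfold dg
        congr 1
        ext q'
        rw [Finset.mem_filter, Finset.mem_filter]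
        constructor
        · exact fun h2 => ⟨hXQ h2.1, h2.2⟩
        · exact fun h2 => ⟨fA e.1 heP q' h2.1 (mem_ed.mp h2.2).1, h2.2⟩
      have h2 := h.two e (EdS_mono hXQ heX)
      rw [mem_bd, h1, h2] at he
      obtain ⟨n, hn⟩ := he
      omega
    · exact fB e.1 hW heP q (hXQ hq) heq'.1 hq
  -- (2)
  have f2 : bd X ≠ ∅ := by
    intro h1
    obtain ⟨q1, hq1, hpq1⟩ := SThreeAux.mem_wh.mp hpW
    obtain ⟨q2, hq2, hrq2⟩ := SThreeAux.mem_wh.mp hrW
    rcases h.inj X hXQ h1 with h2 | h2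
    · have h3 := fA p hp q1 hq1 hpq1
      rw [h2] at h3
      exact absurd h3 (Finset.notMem_empty _)
    · have h3 := fB r hr hrP q2 hq2 hrq2
      rw [h2] at h3
      exact h3 hq2
  have hev : Evn (bd X) := Evn_bd fun q hq => h.isq q (hXQ hq)
  -- (3)
  have f3 : ∀ e ∈ bd X, u ≠ v ∧ (u, e.2) ∈ bd X ∧ (v, e.2) ∈ bd X := by
    intro e he
    obtain ⟨e', he', hne'⟩ := SThreeAux.even_two (hev.2 e.2)
      (Finset.mem_filter.mpr ⟨he, rfl⟩)
    rw [Finset.mem_filter] at he'
    have g1 := f1 e he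
    have g2 := f1 e' he'.1
    have g3 : e'.1 ≠ e.1 := fun h4 => hne' (Prod.ext h4 he'.2)
    have e1 : (e.1, e.2) = e := rfl
    have e2 : (e'.1, e.2) = e' := by rw [← he'.2]
    rcases g1 with g1 | g1 <;> rcases g2 with g2 | g2
    · exact absurd (g2.trans g1.symm) g3
    · refine ⟨fun h4 => g3 (by rw [g1, g2, h4]), ?_, ?_⟩
      · rw [← g1]
        exact he
      · rw [← g2, e2]
        exact he'.1
    · refine ⟨fun h4 => g3 (by rw [g1, g2, h4]), ?_, ?_⟩
      · rw [← g2, e2]
        exact he'.1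
      · rw [← g1]
        exact he
    · exact absurd (g2.trans g1.symm) g3
  obtain ⟨e0, he0⟩ := Finset.nonempty_iff_ne_empty.mpr f2
  have huv : u ≠ v := (f3 e0 he0).1
  obtain ⟨B', hB'⟩ : ∃ B', B' = ((bd X).filter (fun e => e.1 = u)).image Prod.snd := ⟨_, rfl⟩
  have hBm : ∀ b, b ∈ B' ↔ (u, b) ∈ bd X := by
    intro b
    rw [hB', Finset.mem_image]
    constructor
    · rintro ⟨e, he, heb⟩
      rw [Finset.mem_filter] at he
      have : (u, b) = e := Prod.ext he.2.symm heb.symm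
      rw [this]
      exact he.1
    · intro h1
      exact ⟨(u, b), Finset.mem_filter.mpr ⟨h1, rfl⟩, rfl⟩
  have hBc : B'.card = ((bd X).filter (fun e => e.1 = u)).card := by
    rw [hB']
    refine Finset.card_image_of_injOn fun a ha b hb hab => ?_
    have ha' := (Finset.mem_filter.mp (Finset.mem_coe.mp ha)).2
    have hb' := (Finset.mem_filter.mp (Finset.mem_coe.mp hb)).2
    exact Prod.ext (ha'.trans hb'.symm) hab
  have hBe : Even B'.card := by
    rw [hBc]
    exact hev.1 u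
  have hbd : bd X = ({u, v} : Finset ℕ) ×ˢ B' := by
    ext e
    rw [Finset.mem_product, Finset.mem_insert, Finset.mem_singleton, hBm]
    constructor
    · exact fun he => ⟨f1 e he, (f3 e he).2.1⟩
    · rintro ⟨h1, h2⟩
      have h3 := f3 _ h2
      rcases h1 with h1 | h1
      · have : e = (u, e.2) := Prod.ext h1 rfl
        rw [this]
        exact h2
      · have : e = (v, e.2) := Prod.ext h1 rfl
        rw [this]
        exact h3.2.2
  have hBne : 0 < B'.card := Finset.card_pos.mpr ⟨e0.2, (hBm _).mpr (f3 e0 he0).2.1⟩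
  have hE : ∀ b ∈ B', (u, b) ∈ EdS Q ∧ (v, b) ∈ EdS Q := by
    intro b hb
    have h1 := (hBm b).mp hb
    have h2 := (f3 _ h1).2.2
    exact ⟨EdS_mono hXQ (bd_sub X h1), EdS_mono hXQ (bd_sub X h2)⟩
  by_cases hB2 : B'.card = 2
  · have h4 : (bd X).card = 4 := by
      rw [hbd, Finset.card_product, Finset.card_pair huv, hB2]
    have h5 := h.deg_white hpW
    have h6 := h.deg_white hrW
    have h7 : (atw Q p).card ≤ X.card := Finset.card_le_card fun q hq => by
      have := Finset.mem_filter.mp hq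
      exact fA p hp q this.1 this.2
    have h8 : (atw Q r).card ≤ (Q \ X).card := Finset.card_le_card fun q hq => by
      have := Finset.mem_filter.mp hq
      exact Finset.mem_sdiff.mpr ⟨this.1, fB r hr hrP q this.1 this.2⟩
    rcases h.irr X hXQ h4 with h9 | h9 <;> omega
  · have h3 : 2 < B'.card := by
      obtain ⟨n, hn⟩ := hBe
      omega
    obtain ⟨b, c, d, hb, hc, hd, hbc, hbd', hcd⟩ := Finset.two_lt_card_iff.mp h3
    have q1 := h.quad_of_cycle huv hbc (hE b hb).1 (hE c hc).1 (hE b hb).2 (hE c hc).2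
    have q2 := h.quad_of_cycle huv hbd' (hE b hb).1 (hE d hd).1 (hE b hb).2 (hE d hd).2
    have h4 := h.fst_inj q1 q2 rfl
    have h5 : ({b, c} : Finset ℕ) = {b, d} := congrArg Prod.snd h4
    have h6 : c ∈ ({b, d} : Finset ℕ) := by
      rw [← h5]
      simp
    rw [Finset.mem_insert, Finset.mem_singleton] at h6
    rcases h6 with h6 | h6
    · exact hbc h6.symm
    · exact hcd h6

end K5M
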